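import Pool.Agent.Work.BCM.C01

section
set_option autoImplicit false

/-!
Working definitions: monic polynomials, local classes, Hankel matrices, pairs of symmetric matrices.
-/

namespace Stoll308.BG

open Polynomial Finset Matrix

/-- The monic polynomial with integral coefficients `c`, over the ring `R`. -/
noncomputable abbrev FZ (R : Type*) [CommRing R] {n : ℕ} (c : Fin n → ℤ) : R[X] :=
  fpol (1 : R) (fun i => (c i : R))

/-- Local condition (monic form): a point `κ^(n-1) y² = F(κ x²)`, `y ≠ 0`, such that `κ x² - θ` is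
`δ` times a square. -/
def MLoc {n : ℕ} (κ : ℤ) (c : Fin n → ℤ) (δ : ℚ[X]) (K : Type*) [Field K] [Algebra ℚ K] : Prop :=
  ∃ (x y : K) (s : K[X]), y ≠ 0 ∧ (κ : K) ^ (n - 1) * y ^ 2 = (FZ K c).eval (κ * x ^ 2) ∧
    FZ K c ∣ (C (κ * x ^ 2) - X) - δ.map (algebraMap ℚ K) * s ^ 2

/-- The class of `δ` is trivial. -/
def Triv {n : ℕ} (c : Fin n → ℤ) (δ : ℚ[X]) : Prop := ∃ s : ℚ[X], FZ ℚ c ∣ δ - s ^ 2

/-- The matrix of the multiplication by `s` in `K[T]/(F)`: row `i` is `s θ^i`. -/
noncomputable def mulMat {K : Type*} [CommRing K] (n : ℕ) (F s : K[X]) :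
    Matrix (Fin n) (Fin n) K :=
  fun i j => ((s * X ^ (i : ℕ)) %ₘ F).coeff j

/-- The matrix of the form `(λ, μ) ↦ [θ^(n-1)](δ λ μ)` in the basis of the powers of `θ`. -/
noncomputable def Hank {K : Type*} [CommRing K] (n : ℕ) (F δ : K[X]) : Matrix (Fin n) (Fin n) K :=
  fun i j => ((δ * X ^ ((i : ℕ) + j)) %ₘ F).coeff (n - 1)

/-- The pair of integral matrices `(A, B)` is the pair of forms `[θ^(n-1)](δ λ μ)`,
`[θ^(n-1)](θ δ λ μ)` in some basis. -/
def IsPair {n : ℕ} (c : Fin n → ℤ) (δ : ℚ[X]) (A B : Matrix (Fin n) (Fin n) ℤ) : Prop :=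
  ∃ G : Matrix (Fin n) (Fin n) ℚ, G.det ≠ 0 ∧
    A.map (Int.cast : ℤ → ℚ) = G * Hank n (FZ ℚ c) δ * Gᵀ ∧
    B.map (Int.cast : ℤ → ℚ) = G * Hank n (FZ ℚ c) (X * δ) * Gᵀ

/-- The characteristic polynomial of the pair `(A, B)` is `det A · F`. -/
def HasChar {n : ℕ} (c : Fin n → ℤ) (A B : Matrix (Fin n) (Fin n) ℤ) : Prop :=
  A.det ≠ 0 ∧ ((X : ℤ[X]) • A.map C - B.map C).det = C A.det * FZ ℤ c

/-- The index set of the entries of a symmetric matrix. -/
abbrev Ix (n : ℕ) := {p : Fin n × Fin n // p.1 ≤ p.2}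

/-- The symmetric matrix with the entries `v`. -/
def symM {R : Type*} {n : ℕ} (v : Ix n → R) : Matrix (Fin n) (Fin n) R :=
  fun i j => v ⟨(min i j, max i j), min_le_max⟩

/-- The local condition at the prime `l` fails for the pair. -/
def Bad {n : ℕ} (κ : ℤ) (l : ℕ) (A B : Matrix (Fin n) (Fin n) ℤ) : Prop :=
  (l : ℤ) ∣ B.det ∧ ¬ (l : ℤ) ^ 2 ∣ B.det ∧ ¬ (l : ℤ) ∣ (B.adjugate * A).trace ∧
    ∃ _h : Fact l.Prime, ∃ i, legendreSym l ((-1) ^ (n - 1) * B.adjugate i i * A.det * κ) = -1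

/-- A reduced pair: `K` is a constant, `M` the size of the roots, `t` the lengths of the basis. -/
structure RPair {n : ℕ} (K M : ℝ) (c : Fin n → ℤ) (A B : Matrix (Fin n) (Fin n) ℤ)
    (t : Fin n → ℝ) : Prop where
  symA : A.IsSymm
  symB : B.IsSymm
  char : HasChar c A B
  pos : ∀ i, 0 < t i
  hA : ∀ i j, |(A i j : ℝ)| ≤ t i * t j
  hB : ∀ i j, |(B i j : ℝ)| ≤ M * (t i * t j)
  mono : ∀ i j, i ≤ j → t i ≤ t j
  prod : ∏ i, t i ≤ K
  odd : Odd n → ∃ i j : Fin n, (i : ℕ) < n / 2 ∧ (j : ℕ) < n / 2 ∧ (A i j ≠ 0 ∨ B i j ≠ 0)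
  even : Even n → ∃ i j : Fin n, (i : ℕ) < n / 2 ∧ (j : ℕ) < n / 2 ∧ A i j ≠ 0

end Stoll308.BG
end

section
set_option autoImplicit false

/-!
Hankel matrices: multiplication, determinants, characteristic polynomial.
-/

namespace Stoll308.BG

open Polynomial Finset Matrix

namespace HankL

section ring

variable {K : Type*} [CommRing K] {n : ℕ}

/-- the coefficient of `θ^(n-1)` as a linear form -/
noncomputable def tau (n : ℕ) (F : K[X]) : K[X] →ₗ[K] K :=
  (lcoeff K (n - 1)).comp (modByMonicHom F)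

lemma tau_apply (F p : K[X]) : tau n F p = (p %ₘ F).coeff (n - 1) := rfl

lemma hank_apply (F δ : K[X]) (i j : Fin n) :
    Hank n F δ i j = tau n F (δ * X ^ ((i : ℕ) + j)) := rfl

lemma mul_mod_left (F p q : K[X]) (hF : F.Monic) : ((p %ₘ F) * q) %ₘ F = (p * q) %ₘ F := by
  apply modByMonic_eq_of_dvd_sub hF
  have h := modByMonic_add_div p F
  refine ⟨-(p /ₘ F) * q, ?_⟩
  linear_combination q * h

lemma tau_mul_left (F p q : K[X]) (hF : F.Monic) : tau n F ((p %ₘ F) * q) = tau n F (p * q) := by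
  rw [tau_apply, tau_apply, mul_mod_left F p q hF]

/-- expansion of a residue -/
lemma mod_eq_sum [Nontrivial K] (F p : K[X]) (hF : F.Monic) (hn : F.natDegree = n) :
    p %ₘ F = ∑ k : Fin n, C ((p %ₘ F).coeff k) * X ^ (k : ℕ) := by
  have hd : (p %ₘ F).degree < n := by
    have h1 := degree_modByMonic_lt p hF
    rwa [degree_eq_natDegree hF.ne_zero, hn] at h1
  ext m
  rw [finsetSum_coeff]
  by_cases hm : m < n
  · rw [Finset.sum_eq_single (⟨m, hm⟩ : Fin n)]
    · simp
    · intro b _ hb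
      rw [coeff_C_mul, coeff_X_pow, if_neg, mul_zero]
      intro h
      exact hb (Fin.ext h.symm)
    · intro h
      exact absurd (Finset.mem_univ _) h
  · rw [coeff_eq_zero_of_degree_lt (hd.trans_le (by exact_mod_cast (not_lt.1 hm)))]
    symm
    apply Finset.sum_eq_zero
    intro b _
    rw [coeff_C_mul, coeff_X_pow, if_neg, mul_zero]
    intro h
    exact hm (h ▸ b.2)

/-- multiplication in the Hankel matrix -/
lemma hank_mul [Nontrivial K] (F δ s : K[X]) (hF : F.Monic) (hn : F.natDegree = n) :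
    Hank n F (δ * s) = mulMat n F s * Hank n F δ := by
  ext i j
  rw [Matrix.mul_apply, hank_apply]
  have h1 : δ * s * X ^ ((i : ℕ) + j) = (s * X ^ (i : ℕ)) * (δ * X ^ (j : ℕ)) := by ring
  rw [h1, ← tau_mul_left F _ _ hF, mod_eq_sum F (s * X ^ (i : ℕ)) hF hn, Finset.sum_mul, map_sum]
  refine Finset.sum_congr rfl fun k _ => ?_
  rw [hank_apply, show C (((s * X ^ (i : ℕ)) %ₘ F).coeff (k : ℕ)) * X ^ (k : ℕ) *
    (δ * X ^ (j : ℕ)) = ((s * X ^ (i : ℕ)) %ₘ F).coeff (k : ℕ) • (δ * X ^ ((k : ℕ) + j)) by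
      rw [smul_eq_C_mul]; ring, map_smul, smul_eq_mul]
  rfl

lemma mulMat_mul [Nontrivial K] (F s t : K[X]) (hF : F.Monic) (hn : F.natDegree = n) :
    mulMat n F (s * t) = mulMat n F s * mulMat n F t := by
  ext i j
  rw [Matrix.mul_apply]
  have h1 : s * t * X ^ (i : ℕ) = (s * X ^ (i : ℕ)) * t := by ring
  have h2 : mulMat n F (s * t) i j = ((s * t * X ^ (i : ℕ)) %ₘ F).coeff j := rfl
  rw [h2, h1, ← mul_mod_left F _ _ hF, mod_eq_sum F (s * X ^ (i : ℕ)) hF hn, Finset.sum_mul]
  have h3 : (∑ k : Fin n, C (((s * X ^ (i : ℕ)) %ₘ F).coeff (k : ℕ)) * X ^ (k : ℕ) * t) %ₘ F =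
      ∑ k : Fin n, C (((s * X ^ (i : ℕ)) %ₘ F).coeff (k : ℕ)) * ((t * X ^ (k : ℕ)) %ₘ F) := by
    have h4 := map_sum (modByMonicHom F) (fun k : Fin n =>
      C (((s * X ^ (i : ℕ)) %ₘ F).coeff (k : ℕ)) * X ^ (k : ℕ) * t) Finset.univ
    refine h4.trans (Finset.sum_congr rfl fun k _ => ?_)
    rw [show C (((s * X ^ (i : ℕ)) %ₘ F).coeff (k : ℕ)) * X ^ (k : ℕ) * t =
      ((s * X ^ (i : ℕ)) %ₘ F).coeff (k : ℕ) • (t * X ^ (k : ℕ)) by
        rw [smul_eq_C_mul]; ring, map_smul, smul_eq_C_mul]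
    rfl
  rw [h3, finsetSum_coeff]
  refine Finset.sum_congr rfl fun k _ => ?_
  rw [coeff_C_mul]
  rfl

lemma mulMat_congr (F s t : K[X]) (hF : F.Monic) (h : F ∣ s - t) :
    mulMat n F s = mulMat n F t := by
  ext i j
  have h1 : (s * X ^ (i : ℕ)) %ₘ F = (t * X ^ (i : ℕ)) %ₘ F := by
    apply modByMonic_eq_of_dvd_sub hF
    rw [← sub_mul]
    exact Dvd.dvd.mul_right h _
  exact congrArg (fun p : K[X] => p.coeff (j : ℕ)) h1

lemma mod_X_pow [Nontrivial K] (F : K[X]) (hF : F.Monic) (hn : F.natDegree = n) {m : ℕ}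
    (hm : m < n) : (X ^ m : K[X]) %ₘ F = X ^ m := by
  apply (modByMonic_eq_self_iff hF).2
  rw [degree_X_pow, degree_eq_natDegree hF.ne_zero, hn]
  exact_mod_cast hm

lemma mulMat_one [Nontrivial K] (F : K[X]) (hF : F.Monic) (hn : F.natDegree = n) :
    mulMat n F 1 = 1 := by
  ext i j
  have h1 : mulMat n F 1 i j = ((1 * X ^ (i : ℕ)) %ₘ F).coeff (j : ℕ) := rfl
  rw [h1, one_mul, mod_X_pow F hF hn i.2, coeff_X_pow, Matrix.one_apply]
  by_cases h : i = j
  · rw [if_pos h, if_pos (by rw [h])]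
  · rw [if_neg h, if_neg (fun h' => h (Fin.ext h'.symm))]

/-- anti-triangular determinants -/
lemma det_anti (a : K) : ∀ (n : ℕ) (H : Matrix (Fin n) (Fin n) K),
    (∀ i j : Fin n, (i : ℕ) + j + 1 < n → H i j = 0) →
    (∀ i j : Fin n, (i : ℕ) + j + 1 = n → H i j = a) →
    H.det = (-1) ^ (n * (n - 1) / 2) * a ^ n := by
  intro n
  induction n with
  | zero =>
    intro H _ _
    rw [Matrix.det_isEmpty]
    simp
  | succ n ih =>
    intro H h0 h1
    rw [Matrix.det_succ_row_zero, Finset.sum_eq_single (Fin.last n)]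
    · rw [ih, h1 0 (Fin.last n) (by simp), Nat.triangle_succ, pow_add, pow_succ a n, Fin.val_last]
      · ring
      · intro i j hij
        rw [Matrix.submatrix_apply, Fin.succAbove_last]
        apply h0
        rw [Fin.val_succ, Fin.val_castSucc]
        omega
      · intro i j hij
        rw [Matrix.submatrix_apply, Fin.succAbove_last]
        apply h1
        rw [Fin.val_succ, Fin.val_castSucc]
        omega
    · intro b _ hb
      rw [h0 0 b, mul_zero, zero_mul]
      have hb' : (b : ℕ) ≠ n := fun h => hb (Fin.ext (by rw [Fin.val_last]; exact h))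
      have := b.2
      rw [Fin.val_zero]
      omega
    · intro h
      exact absurd (Finset.mem_univ _) h

lemma hank_one_det [Nontrivial K] (F : K[X]) (hF : F.Monic) (hn : F.natDegree = n) :
    (Hank n F 1).det = (-1) ^ (n * (n - 1) / 2) := by
  have h := det_anti (1 : K) n (Hank n F 1) ?_ ?_
  · rw [h, one_pow, mul_one]
  · intro i j hij
    rw [hank_apply, tau_apply, one_mul, mod_X_pow F hF hn (by omega), coeff_X_pow, if_neg]
    omega
  · intro i j hij
    rw [hank_apply, tau_apply, one_mul, mod_X_pow F hF hn (by omega), coeff_X_pow, if_pos]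
    omega

/-- rows of the matrix of the multiplication by `ξ - θ` -/
lemma mulMat_lin_apply [Nontrivial K] (F : K[X]) (hF : F.Monic) (hn : F.natDegree = n) (ξ : K)
    (i j : Fin n) (hi : (i : ℕ) + 1 < n) : mulMat n F (C ξ - X) i j =
      (if (j : ℕ) = i then ξ else 0) - (if (j : ℕ) = i + 1 then 1 else 0) := by
  have h1 : mulMat n F (C ξ - X) i j = (((C ξ - X) * X ^ (i : ℕ)) %ₘ F).coeff (j : ℕ) := rfl
  have h2 : (C ξ - X) * X ^ (i : ℕ) = ξ • X ^ (i : ℕ) - X ^ ((i : ℕ) + 1) := by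
    rw [smul_eq_C_mul]
    ring
  have h3 : ((C ξ - X) * X ^ (i : ℕ)) %ₘ F = (C ξ - X) * X ^ (i : ℕ) := by
    apply (modByMonic_eq_self_iff hF).2
    rw [h2]
    refine (degree_sub_le _ _).trans_lt ?_
    rw [degree_eq_natDegree hF.ne_zero, hn]
    refine max_lt ?_ ?_
    · refine (degree_smul_le _ _).trans_lt ?_
      rw [degree_X_pow]
      exact_mod_cast i.2
    · rw [degree_X_pow]
      exact_mod_cast hi
  rw [h1, h3, h2, coeff_sub, coeff_smul, coeff_X_pow, coeff_X_pow, smul_eq_mul]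
  split_ifs <;> simp

/-- values of the rows at `ξ` -/
lemma mulMat_lin_sum [Nontrivial K] (F : K[X]) (hF : F.Monic) (hn : F.natDegree = n) (ξ : K)
    (i : Fin n) : ∑ j : Fin n, mulMat n F (C ξ - X) i j * ξ ^ (j : ℕ) =
      if (i : ℕ) + 1 = n then F.eval ξ else 0 := by
  have h1 := mod_eq_sum F ((C ξ - X) * X ^ (i : ℕ)) hF hn
  have h2 : ∑ j : Fin n, mulMat n F (C ξ - X) i j * ξ ^ (j : ℕ) =
      (((C ξ - X) * X ^ (i : ℕ)) %ₘ F).eval ξ := by
    conv_rhs => rw [h1]
    rw [eval_finsetSum]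
    refine Finset.sum_congr rfl fun k _ => ?_
    rw [eval_mul, eval_C, eval_pow, eval_X]
    rfl
  rw [h2]
  have hi := i.2
  have hnd : ((C ξ - X) * X ^ (i : ℕ) : K[X]).degree = ((i : ℕ) + 1 : ℕ) := by
    have e : (C ξ - X) * X ^ (i : ℕ) = -((X - C ξ) * X ^ (i : ℕ)) := by ring
    have hm : ((X - C ξ) * X ^ (i : ℕ)).Monic := (monic_X_sub_C ξ).mul (monic_X_pow _)
    rw [e, degree_neg, degree_eq_natDegree hm.ne_zero, (monic_X_sub_C ξ).natDegree_mul
      (monic_X_pow _), natDegree_X_sub_C, natDegree_X_pow, add_comm]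
  split_ifs with h
  · -- the last row
    have e : ((C ξ - X) * X ^ (i : ℕ)) %ₘ F = (C ξ - X) * X ^ (i : ℕ) + F := by
      have h3 : ((C ξ - X) * X ^ (i : ℕ)) %ₘ F = ((C ξ - X) * X ^ (i : ℕ) + F) %ₘ F := by
        apply modByMonic_eq_of_dvd_sub hF
        refine ⟨-1, ?_⟩
        ring
      rw [h3]
      apply (modByMonic_eq_self_iff hF).2
      have e2 : (C ξ - X) * X ^ (i : ℕ) + F = F - ((X - C ξ) * X ^ (i : ℕ)) := by ring
      have hm : ((X - C ξ) * X ^ (i : ℕ)).Monic := (monic_X_sub_C ξ).mul (monic_X_pow _)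
      rw [e2]
      apply degree_sub_lt_left
      · rw [degree_eq_natDegree hF.ne_zero, hn, degree_eq_natDegree hm.ne_zero,
          (monic_X_sub_C ξ).natDegree_mul (monic_X_pow _), natDegree_X_sub_C, natDegree_X_pow,
          add_comm, h]
      · exact hF.ne_zero
      · rw [hF.leadingCoeff, hm.leadingCoeff]
    rw [e]
    simp
  · have e : ((C ξ - X) * X ^ (i : ℕ)) %ₘ F = (C ξ - X) * X ^ (i : ℕ) := by
      apply (modByMonic_eq_self_iff hF).2
      rw [hnd, degree_eq_natDegree hF.ne_zero, hn]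
      have : (i : ℕ) + 1 < n := by omega
      exact_mod_cast this
    rw [e]
    simp

/-- the determinant of the multiplication by `ξ - θ` -/
lemma mulMat_lin_det [Nontrivial K] (F : K[X]) (hF : F.Monic) (hn : F.natDegree = n) (ξ : K) :
    (mulMat n F (C ξ - X)).det = F.eval ξ := by
  obtain _ | m := n
  · have h1 : F = 1 := by
      exact hF.natDegree_eq_zero.1 hn
    rw [Matrix.det_isEmpty, h1, eval_one]
  · set M := mulMat (m + 1) F (C ξ - X) with hM
    set U : Matrix (Fin (m + 1)) (Fin (m + 1)) K :=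
      fun i j => if j = 0 then ξ ^ (i : ℕ) else if i = j then 1 else 0 with hU
    have hUdet : U.det = 1 := by
      rw [Matrix.det_of_isLowerTriangular U]
      · apply Finset.prod_eq_one
        intro i _
        simp only [hU]
        by_cases hi : i = 0
        · rw [if_pos hi, hi]; simp
        · rw [if_neg hi, if_pos True.intro]
      · intro i j hij
        have hij' : i < j := hij
        simp only [hU]
        rw [if_neg (by intro h; rw [h] at hij'; exact absurd hij' (by simp)), if_neg hij'.ne]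
    have h1 : (M * U).det = M.det := by rw [Matrix.det_mul, hUdet, mul_one]
    rw [← h1, Matrix.det_succ_column_zero, Finset.sum_eq_single (Fin.last m)]
    · have e1 : (M * U) (Fin.last m) 0 = F.eval ξ := by
        rw [Matrix.mul_apply]
        have := mulMat_lin_sum F hF hn ξ (Fin.last m)
        rw [if_pos (by rw [Fin.val_last])] at this
        rw [← this]
        refine Finset.sum_congr rfl fun k _ => ?_
        simp only [hU, if_true]
        rfl
      have e2 : ((M * U).submatrix (Fin.last m).succAbove Fin.succ).det = (-1) ^ m := by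
        have e3 : ∀ (i j : Fin m), (M * U) (Fin.castSucc i) (Fin.succ j) =
            (if ((j : ℕ) + 1) = i then ξ else 0) - (if (j : ℕ) = i then 1 else 0) := by
          intro i j
          rw [Matrix.mul_apply, Finset.sum_eq_single (Fin.succ j)]
          · simp only [hU]
            rw [if_neg (Fin.succ_ne_zero j), if_pos True.intro, mul_one, hM,
              mulMat_lin_apply F hF hn ξ _ _ (by rw [Fin.val_castSucc]; omega), Fin.val_succ,
              Fin.val_castSucc]
            simp only [Nat.add_right_cancel_iff]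
          · intro b _ hb
            simp only [hU]
            rw [if_neg (Fin.succ_ne_zero j), if_neg hb, mul_zero]
          · intro h
            exact absurd (Finset.mem_univ _) h
        rw [Matrix.det_of_isLowerTriangular]
        · rw [Finset.prod_congr rfl (g := fun _ => (-1 : K))]
          · simp
          · intro i _
            rw [Matrix.submatrix_apply, Fin.succAbove_last, e3, if_neg (by omega), if_pos rfl]
            ring
        · intro i j hij
          have hij' : i < j := hij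
          have : (i : ℕ) < j := hij'
          rw [Matrix.submatrix_apply, Fin.succAbove_last, e3, if_neg (by omega),
            if_neg (by omega), sub_zero]
      rw [e1, e2, Fin.val_last]
      have : ((-1 : K)) ^ m * (-1) ^ m = 1 := by
        rw [← mul_pow]
        simp
      linear_combination (F.eval ξ) * this
    · intro b _ hb
      have e1 : (M * U) b 0 = 0 := by
        rw [Matrix.mul_apply]
        have := mulMat_lin_sum F hF hn ξ b
        have hb' : (b : ℕ) + 1 ≠ m + 1 := fun h => hb (Fin.ext (by rw [Fin.val_last]; omega))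
        rw [if_neg hb'] at this
        rw [← this]
        refine Finset.sum_congr rfl fun k _ => ?_
        simp only [hU, if_true]
        rfl
      rw [e1, mul_zero, zero_mul]
    · intro h
      exact absurd (Finset.mem_univ _) h

lemma mulMat_map {L : Type*} [CommRing L] (f : K →+* L) (F s : K[X]) (hF : F.Monic) :
    mulMat n (F.map f) (s.map f) = (mulMat n F s).map f := by
  ext i j
  have h1 : mulMat n (F.map f) (s.map f) i j =
    ((s.map f * X ^ (i : ℕ)) %ₘ (F.map f)).coeff (j : ℕ) := rfl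
  have h2 : (s.map f * X ^ (i : ℕ)) = (s * X ^ (i : ℕ)).map f := by
    rw [Polynomial.map_mul, Polynomial.map_pow, map_X]
  rw [h1, h2, ← map_modByMonic f hF, coeff_map]
  rfl

end ring

end HankL

section ring

variable {K : Type*} [CommRing K] {n : ℕ}

lemma hank_isSymm (F δ : K[X]) : (Hank n F δ).IsSymm := by
  ext i j
  rw [Matrix.transpose_apply, HankL.hank_apply, HankL.hank_apply, add_comm (i : ℕ)]

lemma hank_congr (F δ δ' : K[X]) (hF : F.Monic) (h : F ∣ δ - δ') : Hank n F δ = Hank n F δ' := by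
  ext i j
  have h1 : (δ * X ^ ((i : ℕ) + j)) %ₘ F = (δ' * X ^ ((i : ℕ) + j)) %ₘ F := by
    apply modByMonic_eq_of_dvd_sub hF
    rw [← sub_mul]
    exact Dvd.dvd.mul_right h _
  exact congrArg (fun p : K[X] => p.coeff (n - 1)) h1

lemma hank_mul_sq [Nontrivial K] (F δ s : K[X]) (hF : F.Monic) (hn : F.natDegree = n) :
    Hank n F (δ * s ^ 2) = mulMat n F s * Hank n F δ * (mulMat n F s)ᵀ := by
  have e : δ * s ^ 2 = (δ * s) * s := by ring
  have h := (hank_isSymm (n := n) F (δ * s)).eq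
  rw [e, HankL.hank_mul F (δ * s) s hF hn, ← h, HankL.hank_mul F δ s hF hn, Matrix.transpose_mul,
    (hank_isSymm (n := n) F δ).eq, Matrix.mul_assoc]

lemma hank_map {L : Type*} [CommRing L] (f : K →+* L) (F δ : K[X]) (hF : F.Monic) :
    Hank n (F.map f) (δ.map f) = (Hank n F δ).map f := by
  ext i j
  have h1 : Hank n (F.map f) (δ.map f) i j =
    ((δ.map f * X ^ ((i : ℕ) + j)) %ₘ (F.map f)).coeff (n - 1) := rfl
  have h2 : (δ.map f * X ^ ((i : ℕ) + j)) = (δ * X ^ ((i : ℕ) + j)).map f := by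
    rw [Polynomial.map_mul, Polynomial.map_pow, map_X]
  rw [h1, h2, ← map_modByMonic f hF, coeff_map]
  rfl

lemma hank_lin_det [Nontrivial K] (F : K[X]) (hF : F.Monic) (hn : F.natDegree = n) (ξ : K) :
    (Hank n F (C ξ - X)).det = (-1) ^ (n * (n - 1) / 2) * F.eval ξ := by
  have h := HankL.hank_mul F 1 (C ξ - X) hF hn
  rw [one_mul] at h
  rw [h, Matrix.det_mul, HankL.mulMat_lin_det F hF hn, HankL.hank_one_det F hF hn, mul_comm]

/-- The characteristic polynomial of the pair. -/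
lemma hank_char [Nontrivial K] (F δ : K[X]) (hF : F.Monic) (hn : F.natDegree = n) :
    ((X : K[X]) • (Hank n F δ).map C - (Hank n F (X * δ)).map C).det =
      C (Hank n F δ).det * F := by
  have h1 : Hank n F (X * δ) = mulMat n F X * Hank n F δ := by
    rw [mul_comm X δ]
    exact HankL.hank_mul F δ X hF hn
  have hFm : (F.map (C : K →+* K[X])).Monic := hF.map _
  have hFn : (F.map (C : K →+* K[X])).natDegree = n := by rw [hF.natDegree_map, hn]
  have h2 := HankL.mulMat_lin_det (F.map (C : K →+* K[X])) hFm hFn (X : K[X])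
  rw [eval_map, eval₂_C_X] at h2
  have h3 : mulMat n (F.map (C : K →+* K[X])) (C (X : K[X]) - X) =
      (X : K[X]) • (1 : Matrix (Fin n) (Fin n) K[X]) - (mulMat n F X).map C := by
    have h4 := HankL.mulMat_map (n := n) (C : K →+* K[X]) F X hF
    rw [map_X] at h4
    rw [← h4]
    ext i j : 2
    have h5 : mulMat n (F.map (C : K →+* K[X])) (C (X : K[X]) - X) i j =
      (((C (X : K[X]) - X) * X ^ (i : ℕ)) %ₘ (F.map (C : K →+* K[X]))).coeff (j : ℕ) := rfl
    have h6 : mulMat n (F.map (C : K →+* K[X])) X i j =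
      ((X * X ^ (i : ℕ)) %ₘ (F.map (C : K →+* K[X]))).coeff (j : ℕ) := rfl
    have h7 := congrFun (congrFun (HankL.mulMat_one _ hFm hFn) i) j
    have h8 : mulMat n (F.map (C : K →+* K[X])) 1 i j =
      ((1 * X ^ (i : ℕ)) %ₘ (F.map (C : K →+* K[X]))).coeff (j : ℕ) := rfl
    rw [h8, one_mul] at h7
    rw [Matrix.sub_apply, Matrix.smul_apply, h5, h6, ← h7, sub_mul, sub_modByMonic, coeff_sub,
      ← smul_eq_C_mul, smul_modByMonic, coeff_smul]
  rw [h3] at h2
  have h9 : (X : K[X]) • (Hank n F δ).map C - (Hank n F (X * δ)).map C =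
      ((X : K[X]) • (1 : Matrix (Fin n) (Fin n) K[X]) - (mulMat n F X).map C) *
        (Hank n F δ).map C := by
    rw [h1, Matrix.sub_mul, Matrix.smul_mul, Matrix.one_mul, Matrix.map_mul]
  have h10 : ((Hank n F δ).map (C : K →+* K[X])).det = C (Hank n F δ).det := by
    rw [RingHom.map_det]
    rfl
  rw [h9, Matrix.det_mul, h2, h10, mul_comm]

end ring

section field

variable {K : Type*} [Field K] {n : ℕ}

lemma mulMat_det_ne_zero (F s : K[X]) (hF : F.Monic) (hn : F.natDegree = n) (hs : IsCoprime s F) :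
    (mulMat n F s).det ≠ 0 := by
  obtain ⟨a, b, hab⟩ := hs
  have h1 : mulMat n F (a * s) = 1 := by
    rw [← HankL.mulMat_one F hF hn]
    apply HankL.mulMat_congr F _ _ hF
    exact ⟨-b, by linear_combination hab⟩
  rw [HankL.mulMat_mul F a s hF hn] at h1
  have h2 := congrArg Matrix.det h1
  rw [Matrix.det_mul, Matrix.det_one] at h2
  exact right_ne_zero_of_mul_eq_one h2

lemma hank_det_ne_zero (F δ : K[X]) (hF : F.Monic) (hn : F.natDegree = n)
    (hδ : IsCoprime δ F) : (Hank n F δ).det ≠ 0 := by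
  have h := HankL.hank_mul F 1 δ hF hn
  rw [one_mul] at h
  rw [h, Matrix.det_mul, HankL.hank_one_det F hF hn]
  exact mul_ne_zero (mulMat_det_ne_zero F δ hF hn hδ) (pow_ne_zero _ (by simp))

end field

section pair

variable {n : ℕ}

lemma HankL.degree_sum {R : Type*} [CommRing R] (c : Fin n → R) :
    (∑ i : Fin n, C (c i) * X ^ (n - 1 - (i : ℕ)) : R[X]).degree < n := by
  rcases Nat.eq_zero_or_pos n with h0 | hpos
  · subst h0
    rw [Finset.univ_eq_empty, Finset.sum_empty, degree_zero]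
    exact WithBot.bot_lt_coe _
  · refine (degree_sum_le _ _).trans_lt ?_
    rw [Finset.sup_lt_iff (WithBot.bot_lt_coe _)]
    intro i _
    refine (degree_C_mul_X_pow_le _ _).trans_lt ?_
    have := i.2
    have h : n - 1 - (i : ℕ) < n := by omega
    exact_mod_cast h

lemma FZ_monic {R : Type*} [CommRing R] (c : Fin n → ℤ) : (FZ R c).Monic := by
  unfold FZ fpol
  rw [C_1, one_mul]
  exact monic_X_pow_add (HankL.degree_sum _)

lemma FZ_natDegree {R : Type*} [CommRing R] [Nontrivial R] (c : Fin n → ℤ) :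
    (FZ R c).natDegree = n := by
  unfold FZ fpol
  rw [C_1, one_mul]
  apply natDegree_eq_of_degree_eq_some
  rw [degree_add_eq_left_of_degree_lt, degree_X_pow]
  rw [degree_X_pow]
  exact HankL.degree_sum _

lemma FZ_map {R S : Type*} [CommRing R] [CommRing S] (f : R →+* S) (c : Fin n → ℤ) :
    (FZ R c).map f = FZ S c := by
  unfold FZ fpol
  rw [Polynomial.map_add, Polynomial.map_mul, Polynomial.map_pow, map_X, map_C, map_one,
    Polynomial.map_sum]
  congr 1
  refine Finset.sum_congr rfl fun i _ => ?_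
  rw [Polynomial.map_mul, Polynomial.map_pow, map_X, map_C, map_intCast]

lemma HankL.map_symm {A : Matrix (Fin n) (Fin n) ℤ}
    (h : (A.map (Int.cast : ℤ → ℚ)).IsSymm) : A.IsSymm := by
  ext i j
  have h1 := congrFun (congrFun h.eq i) j
  rw [Matrix.transpose_apply, Matrix.map_apply, Matrix.map_apply] at h1
  rw [Matrix.transpose_apply]
  exact_mod_cast h1

lemma HankL.conj_symm {K : Type*} [CommRing K] {G H : Matrix (Fin n) (Fin n) K} (h : H.IsSymm) :
    (G * H * Gᵀ).IsSymm := by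
  unfold Matrix.IsSymm
  rw [Matrix.transpose_mul, Matrix.transpose_mul, Matrix.transpose_transpose, h.eq,
    Matrix.mul_assoc]

lemma IsPair.symmA {c : Fin n → ℤ} {δ : ℚ[X]} {A B : Matrix (Fin n) (Fin n) ℤ}
    (h : IsPair c δ A B) : A.IsSymm := by
  obtain ⟨G, _, h1, _⟩ := h
  apply HankL.map_symm
  rw [h1]
  exact HankL.conj_symm (hank_isSymm _ _)

lemma IsPair.symmB {c : Fin n → ℤ} {δ : ℚ[X]} {A B : Matrix (Fin n) (Fin n) ℤ}
    (h : IsPair c δ A B) : B.IsSymm := by
  obtain ⟨G, _, _, h1⟩ := h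
  apply HankL.map_symm
  rw [h1]
  exact HankL.conj_symm (hank_isSymm _ _)

lemma HankL.det_cast (A : Matrix (Fin n) (Fin n) ℤ) :
    (A.map (Int.cast : ℤ → ℚ)).det = ((A.det : ℤ) : ℚ) := by
  have h := (Int.castRingHom ℚ).map_det A
  exact h.symm

lemma IsPair.hasChar {c : Fin n → ℤ} {δ : ℚ[X]} {A B : Matrix (Fin n) (Fin n) ℤ}
    (h : IsPair c δ A B) (hδ : IsCoprime δ (FZ ℚ c)) : HasChar c A B := by
  obtain ⟨G, hG, hA, hB⟩ := h
  have hFm : (FZ ℚ c).Monic := FZ_monic c
  have hFn : (FZ ℚ c).natDegree = n := FZ_natDegree c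
  have hH := hank_det_ne_zero (FZ ℚ c) δ hFm hFn hδ
  have hdet : ((A.det : ℤ) : ℚ) = G.det * (Hank n (FZ ℚ c) δ).det * G.det := by
    rw [← HankL.det_cast, hA, Matrix.det_mul, Matrix.det_mul, Matrix.det_transpose]
  refine ⟨?_, ?_⟩
  · intro h0
    rw [h0, Int.cast_zero] at hdet
    exact mul_ne_zero (mul_ne_zero hG hH) hG hdet.symm
  · apply Polynomial.map_injective (Int.castRingHom ℚ) Int.cast_injective
    rw [Polynomial.map_mul, map_C, FZ_map, ← coe_mapRingHom, RingHom.map_det]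
    have e1 : (mapRingHom (Int.castRingHom ℚ)).mapMatrix
        ((X : ℤ[X]) • A.map C - B.map C) =
        G.map C * ((X : ℚ[X]) • (Hank n (FZ ℚ c) δ).map C - (Hank n (FZ ℚ c) (X * δ)).map C) *
          (G.map C)ᵀ := by
      have e2 : (mapRingHom (Int.castRingHom ℚ)).mapMatrix ((X : ℤ[X]) • A.map C - B.map C) =
          (X : ℚ[X]) • (A.map (Int.cast : ℤ → ℚ)).map C - (B.map (Int.cast : ℤ → ℚ)).map C := by
        ext i j : 2
        rw [RingHom.mapMatrix_apply, Matrix.map_apply, Matrix.sub_apply, Matrix.smul_apply,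
          Matrix.map_apply, Matrix.map_apply, Matrix.sub_apply, Matrix.smul_apply,
          Matrix.map_apply, Matrix.map_apply, Matrix.map_apply, Matrix.map_apply, smul_eq_mul,
          smul_eq_mul, map_sub, map_mul, coe_mapRingHom, map_X, map_C, map_C]
        rfl
      rw [e2, hA, hB, Matrix.mul_sub, Matrix.sub_mul, Matrix.mul_smul, Matrix.smul_mul,
        Matrix.map_mul, Matrix.map_mul, Matrix.map_mul, Matrix.map_mul, Matrix.transpose_map]
    have e3 : ((G.map (C : ℚ →+* ℚ[X]))).det = C G.det := by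
      rw [RingHom.map_det]
      rfl
    rw [e1, Matrix.det_mul, Matrix.det_mul, Matrix.det_transpose, e3,
      hank_char (FZ ℚ c) δ hFm hFn]
    have e4 : (C ((Int.castRingHom ℚ) A.det) : ℚ[X]) =
        C G.det * C (Hank n (FZ ℚ c) δ).det * C G.det := by
      rw [← C_mul, ← C_mul, ← hdet]
      rfl
    rw [e4]
    ring

lemma IsPair.conj {c : Fin n → ℤ} {δ : ℚ[X]} {A B U : Matrix (Fin n) (Fin n) ℤ}
    (h : IsPair c δ A B) (hU : IsUnit U.det) : IsPair c δ (U * A * Uᵀ) (U * B * Uᵀ) := by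
  obtain ⟨G, hG, hA, hB⟩ := h
  have key : ∀ M : Matrix (Fin n) (Fin n) ℤ, (U * M * Uᵀ).map (Int.cast : ℤ → ℚ) =
      U.map (Int.cast : ℤ → ℚ) * M.map (Int.cast : ℤ → ℚ) * (U.map (Int.cast : ℤ → ℚ))ᵀ := by
    intro M
    have e := (Int.castRingHom ℚ).mapMatrix.map_mul (U * M) Uᵀ
    have e2 := (Int.castRingHom ℚ).mapMatrix.map_mul U M
    rw [e2] at e
    exact e
  refine ⟨U.map (Int.cast : ℤ → ℚ) * G, ?_, ?_, ?_⟩
  · rw [Matrix.det_mul, HankL.det_cast]
    refine mul_ne_zero ?_ hG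
    exact_mod_cast hU.ne_zero
  · rw [key, hA, Matrix.transpose_mul]
    simp only [Matrix.mul_assoc]
  · rw [key, hB, Matrix.transpose_mul]
    simp only [Matrix.mul_assoc]

end pair

end Stoll308.BG
end

section
set_option autoImplicit false

/-!
Symmetric matrices over `ℤ/l` whose determinant is in a given nonzero square class: a lower bound
for their number. The corner entry (index `0`) is chosen last.
-/

namespace Stoll308.BG

open Finset Matrix

namespace BadSym

variable {R : Type*} {m : ℕ}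

/-- The bordered matrix `[[x, wᵀ], [w, M]]`. -/
def bord (x : R) (w : Fin m → R) (M : Matrix (Fin m) (Fin m) R) :
    Matrix (Fin (m + 1)) (Fin (m + 1)) R :=
  fun i j => Fin.cases (Fin.cases x w j) (fun i' => Fin.cases (w i') (M i') j) i

@[simp] lemma bord_zero_zero (x : R) (w : Fin m → R) (M : Matrix (Fin m) (Fin m) R) :
    bord x w M 0 0 = x := rfl

@[simp] lemma bord_zero_succ (x : R) (w : Fin m → R) (M : Matrix (Fin m) (Fin m) R) (j : Fin m) :
    bord x w M 0 j.succ = w j := rfl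

@[simp] lemma bord_succ_zero (x : R) (w : Fin m → R) (M : Matrix (Fin m) (Fin m) R) (i : Fin m) :
    bord x w M i.succ 0 = w i := rfl

@[simp] lemma bord_succ_succ (x : R) (w : Fin m → R) (M : Matrix (Fin m) (Fin m) R)
    (i j : Fin m) : bord x w M i.succ j.succ = M i j := rfl

lemma symM_comm (v : Ix m → R) (i j : Fin m) : symM v i j = symM v j i := by
  unfold symM
  simp only [min_comm i j, max_comm i j]

lemma symM_isSymm (v : Ix m → R) : (symM v).IsSymm := by
  ext i j
  exact symM_comm v j i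

lemma symM_of_le (v : Ix m → R) (p : Ix m) : symM v p.1.1 p.1.2 = v p := by
  obtain ⟨⟨i, j⟩, h⟩ := p
  simp only [symM, min_eq_left h, max_eq_right h]

lemma bord_comm (x : R) (w : Fin m → R) (v : Ix m → R) (i j : Fin (m + 1)) :
    bord x w (symM v) i j = bord x w (symM v) j i := by
  refine Fin.cases ?_ (fun i' => ?_) i <;> refine Fin.cases ?_ (fun j' => ?_) j
  · rfl
  · rfl
  · rfl
  · exact symM_comm v i' j'

/-- The entries of the bordered symmetric matrix. -/
def ext (x : R) (w : Fin m → R) (v : Ix m → R) : Ix (m + 1) → R :=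
  fun p => bord x w (symM v) p.1.1 p.1.2

lemma symM_ext (x : R) (w : Fin m → R) (v : Ix m → R) :
    symM (ext x w v) = bord x w (symM v) := by
  funext i j
  simp only [symM, ext]
  rcases le_total i j with h | h
  · rw [min_eq_left h, max_eq_right h]
  · rw [min_eq_right h, max_eq_left h]
    exact bord_comm x w v j i

lemma ext_inj {x x' : R} {w w' : Fin m → R} {v v' : Ix m → R} (h : ext x w v = ext x' w' v') :
    x = x' ∧ w = w' ∧ v = v' := by
  have hs : bord x w (symM v) = bord x' w' (symM v') := by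
    rw [← symM_ext, ← symM_ext, h]
  refine ⟨?_, ?_, ?_⟩
  · exact congrFun (congrFun hs 0) 0
  · funext j
    exact congrFun (congrFun hs 0) j.succ
  · funext p
    have := congrFun (congrFun hs p.1.1.succ) p.1.2.succ
    rw [bord_succ_succ, bord_succ_succ, symM_of_le, symM_of_le] at this
    exact this

lemma det_bord [CommRing R] (x : R) (w : Fin m → R) (M : Matrix (Fin m) (Fin m) R) :
    (bord x w M).det = x * M.det + (bord 0 w M).det := by
  rw [Matrix.det_succ_row_zero, Matrix.det_succ_row_zero (bord 0 w M), Fin.sum_univ_succ,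
    Fin.sum_univ_succ (n := m)]
  have h0 : (bord x w M).submatrix Fin.succ (Fin.succAbove 0) = M := by
    ext i j
    simp [Matrix.submatrix_apply]
  have h1 : ∀ j : Fin m, (bord x w M).submatrix Fin.succ (Fin.succAbove j.succ)
      = (bord 0 w M).submatrix Fin.succ (Fin.succAbove j.succ) := by
    intro j
    ext i k
    rfl
  rw [h0]
  simp only [bord_zero_zero, bord_zero_succ, h1]
  simp

section Count

variable {l : ℕ} [hl : Fact l.Prime]

/-- The corner entry is chosen last. -/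
lemma step (S : Finset (ZMod l)) :
    (univ.filter fun v : Ix m → ZMod l => (symM v).det ≠ 0).card * (l ^ m * S.card)
      ≤ (univ.filter fun v : Ix (m + 1) → ZMod l => (symM v).det ∈ S).card := by
  classical
  have hcard : ((univ.filter fun v : Ix m → ZMod l => (symM v).det ≠ 0) ×ˢ
      ((univ : Finset (Fin m → ZMod l)) ×ˢ S)).card
      = (univ.filter fun v : Ix m → ZMod l => (symM v).det ≠ 0).card * (l ^ m * S.card) := by
    rw [Finset.card_product, Finset.card_product, Finset.card_univ, Fintype.card_fun, ZMod.card,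
      Fintype.card_fin]
  rw [← hcard]
  refine Finset.card_le_card_of_injOn
    (fun q => ext ((q.2.2 - (bord 0 q.2.1 (symM q.1)).det) / (symM q.1).det) q.2.1 q.1) ?_ ?_
  · rintro ⟨v, w, s⟩ hq
    simp only [coe_product, Set.mem_prod, coe_filter, mem_univ, true_and, coe_univ,
      Set.mem_ofPred_eq, Finset.mem_coe, Set.mem_univ] at hq ⊢
    rw [symM_ext, det_bord, div_mul_cancel₀ _ hq.1, sub_add_cancel]
    exact hq.2
  · rintro ⟨v, w, s⟩ hq ⟨v', w', s'⟩ hq' h
    simp only [coe_product, Set.mem_prod, coe_filter, mem_univ, true_and, coe_univ,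
      Set.mem_ofPred_eq, Finset.mem_coe, Set.mem_univ] at hq hq' h
    obtain ⟨h1, h2, h3⟩ := ext_inj h
    subst h2 h3
    have h4 := (div_left_inj' hq.1).1 h1
    have h5 := sub_left_inj.1 h4
    rw [h5]

lemma card_ne_zero : (univ.filter fun y : ZMod l => y ≠ 0).card = l - 1 := by
  rw [Finset.filter_ne', Finset.card_erase_of_mem (mem_univ _), Finset.card_univ, ZMod.card]

lemma card_nonres (h2 : l ≠ 2) {κ : ZMod l} (hκ : κ ≠ 0) :
    l - 1 ≤ 2 * (univ.filter fun y : ZMod l => quadraticChar (ZMod l) (κ * y) = -1).card := by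
  obtain ⟨a, ha⟩ : ∃ a : ZMod l, quadraticChar (ZMod l) a = -1 := by
    obtain ⟨a, ha⟩ := FiniteField.exists_nonsquare (F := ZMod l) (by rwa [ZMod.ringChar_zmod_n])
    exact ⟨a, quadraticChar_neg_one_iff_not_isSquare.2 ha⟩
  have ha0 : a ≠ 0 := by
    rintro rfl
    simp at ha
  have h3 : (univ.filter fun y : ZMod l => quadraticChar (ZMod l) (κ * y) = 1).card
      ≤ (univ.filter fun y : ZMod l => quadraticChar (ZMod l) (κ * y) = -1).card := by
    refine Finset.card_le_card_of_injOn (fun y => a * y) ?_ ?_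
    · intro y hy
      simp only [coe_filter, mem_univ, true_and, Set.mem_ofPred_eq] at hy ⊢
      rw [mul_left_comm, map_mul, ha, hy]; norm_num
    · intro x _ y _ hxy
      exact mul_left_cancel₀ ha0 hxy
  have h4 : (univ.filter fun y : ZMod l => y ≠ 0) ⊆
      (univ.filter fun y : ZMod l => quadraticChar (ZMod l) (κ * y) = 1) ∪
        (univ.filter fun y : ZMod l => quadraticChar (ZMod l) (κ * y) = -1) := by
    intro y hy
    simp only [mem_filter, mem_univ, true_and, mem_union] at hy ⊢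
    exact quadraticChar_dichotomy (mul_ne_zero hκ hy)
  have h5 := (Finset.card_le_card h4).trans (Finset.card_union_le _ _)
  rw [card_ne_zero] at h5
  omega

/-- The number of nonsingular symmetric matrices. -/
theorem card_nonsing (m : ℕ) : (l - 1) ^ m * l ^ (m * (m - 1) / 2) ≤
    (univ.filter fun v : Ix m → ZMod l => (symM v).det ≠ 0).card := by
  induction m with
  | zero =>
    have h : (univ.filter fun v : Ix 0 → ZMod l => (symM v).det ≠ 0)
        = (univ : Finset (Ix 0 → ZMod l)) := by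
      refine Finset.filter_true_of_mem fun v _ => ?_
      rw [Matrix.det_isEmpty]
      exact one_ne_zero
    rw [h]
    have : IsEmpty (Ix 0) := ⟨fun p => p.1.1.elim0⟩
    simp
  | succ m ih =>
    have h := step (m := m) (univ.filter fun y : ZMod l => y ≠ 0)
    rw [card_ne_zero] at h
    have h' : (univ.filter fun v : Ix (m + 1) → ZMod l => (symM v).det ∈
        (univ.filter fun y : ZMod l => y ≠ 0))
        = univ.filter fun v : Ix (m + 1) → ZMod l => (symM v).det ≠ 0 := by
      refine Finset.filter_congr fun v _ => ?_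
      simp
    rw [h'] at h
    refine le_trans ?_ h
    have hexp : (m + 1) * (m + 1 - 1) / 2 = m * (m - 1) / 2 + m := by
      rcases m with _ | k
      · rfl
      · have e1 : (k + 1 + 1) * (k + 1 + 1 - 1) = (k + 1) * (k + 1 - 1) + (k + 1) * 2 := by
          simp only [Nat.add_sub_cancel]; ring
        rw [e1, Nat.add_mul_div_right _ _ (by norm_num)]
    rw [hexp]
    calc (l - 1) ^ (m + 1) * l ^ (m * (m - 1) / 2 + m)
        = ((l - 1) ^ m * l ^ (m * (m - 1) / 2)) * (l ^ m * (l - 1)) := by ring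
      _ ≤ _ := Nat.mul_le_mul_right _ ih

/-- The number of symmetric matrices whose determinant is in a given nonzero square class. -/
theorem sym_count (h2 : l ≠ 2) (m : ℕ) (hm : 1 ≤ m) {c : ZMod l} (hc : c ≠ 0) :
    (l - 1) ^ m * l ^ (m * (m - 1) / 2) ≤
      2 * (univ.filter fun v : Ix m → ZMod l =>
        quadraticChar (ZMod l) (c * (symM v).det) = -1).card := by
  obtain ⟨k, rfl⟩ : ∃ k, m = k + 1 := ⟨m - 1, by omega⟩
  have h := step (m := k) (univ.filter fun y : ZMod l => quadraticChar (ZMod l) (c * y) = -1)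
  have h' : (univ.filter fun v : Ix (k + 1) → ZMod l => (symM v).det ∈
      (univ.filter fun y : ZMod l => quadraticChar (ZMod l) (c * y) = -1))
      = univ.filter fun v : Ix (k + 1) → ZMod l =>
        quadraticChar (ZMod l) (c * (symM v).det) = -1 := by
    refine Finset.filter_congr fun v _ => ?_
    simp
  rw [h'] at h
  have h3 := card_nonres h2 hc
  have h4 := card_nonsing (l := l) k
  have hexp : (k + 1) * (k + 1 - 1) / 2 = k * (k - 1) / 2 + k := by
    rcases k with _ | k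
    · rfl
    · have e1 : (k + 1 + 1) * (k + 1 + 1 - 1) = (k + 1) * (k + 1 - 1) + (k + 1) * 2 := by
        simp only [Nat.add_sub_cancel]; ring
      rw [e1, Nat.add_mul_div_right _ _ (by norm_num)]
  rw [hexp]
  calc (l - 1) ^ (k + 1) * l ^ (k * (k - 1) / 2 + k)
      = ((l - 1) ^ k * l ^ (k * (k - 1) / 2)) * (l ^ k * (l - 1)) := by ring
    _ ≤ (univ.filter fun v : Ix k → ZMod l => (symM v).det ≠ 0).card *
        (l ^ k * (2 * (univ.filter fun y : ZMod l =>
          quadraticChar (ZMod l) (c * y) = -1).card)) :=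
        Nat.mul_le_mul h4 (Nat.mul_le_mul_left _ h3)
    _ = 2 * ((univ.filter fun v : Ix k → ZMod l => (symM v).det ≠ 0).card *
        (l ^ k * (univ.filter fun y : ZMod l =>
          quadraticChar (ZMod l) (c * y) = -1).card)) := by ring
    _ ≤ _ := Nat.mul_le_mul_left _ h

end Count

end BadSym

end Stoll308.BG
end

section
set_option autoImplicit false

/-!
A positive proportion of the polynomials of degree `n` over `ℤ/l` is irreducible.
-/

namespace Stoll308.BG.IrrDens

open Polynomial Finset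

/-- A monic polynomial is determined by its lower coefficients. -/
lemma monic_eq {R : Type*} [CommRing R] {f : R[X]} (hf : f.Monic) :
    f = fpol 1 (fun i : Fin f.natDegree => f.coeff (f.natDegree - 1 - (i : ℕ))) := by
  conv_lhs => rw [hf.as_sum]
  unfold fpol
  rw [C_1, one_mul]
  congr 1
  rw [Fin.sum_univ_eq_sum_range
    (fun i => C (f.coeff (f.natDegree - 1 - i)) * X ^ (f.natDegree - 1 - i))]
  exact (Finset.sum_range_reflect (fun i => C (f.coeff i) * X ^ i) f.natDegree).symm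

lemma fpol_natDegree {R : Type*} [CommRing R] [Nontrivial R] {n : ℕ} (b : Fin n → R) :
    (fpol (1 : R) b).natDegree = n ∧ (fpol (1 : R) b).Monic := by
  have h : (∑ i : Fin n, C (b i) * X ^ (n - 1 - (i : ℕ)) : R[X]).degree < n := by
    refine lt_of_le_of_lt (degree_sum_le _ _) ?_
    rw [Finset.sup_lt_iff (by exact WithBot.bot_lt_coe n)]
    intro i _
    refine lt_of_le_of_lt (degree_C_mul_X_pow_le _ _) ?_
    have := i.2
    exact_mod_cast (by omega : n - 1 - (i : ℕ) < n)
  have e : fpol (1 : R) b = X ^ n + ∑ i : Fin n, C (b i) * X ^ (n - 1 - (i : ℕ)) := by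
    simp [fpol]
  rw [e]
  refine ⟨?_, monic_X_pow_add h⟩
  rw [natDegree_add_eq_left_of_degree_lt]
  · simp
  · rw [degree_X_pow]; exact h

variable (l : ℕ) [Fact l.Prime] (n : ℕ)

/-- The elements of `K` which are roots of a given monic polynomial. -/
noncomputable def rts (K : Type*) [Field K] [Algebra (ZMod l) K] [DecidableEq K] {d : ℕ}
    (b : Fin d → ZMod l) : Finset K :=
  ((fpol 1 b).map (algebraMap (ZMod l) K)).roots.toFinset

lemma card_rts (K : Type*) [Field K] [Algebra (ZMod l) K] [DecidableEq K] {d : ℕ}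
    (b : Fin d → ZMod l) : (rts l K b).card ≤ d := by
  unfold rts
  refine (Multiset.toFinset_card_le _).trans ((card_roots' _).trans ?_)
  refine natDegree_map_le.trans ?_
  rw [(fpol_natDegree b).1]

lemma mem_rts (K : Type*) [Field K] [Algebra (ZMod l) K] [DecidableEq K] {d : ℕ}
    (b : Fin d → ZMod l) (α : K) : α ∈ rts l K b ↔ aeval α (fpol 1 b) = 0 := by
  unfold rts
  rw [Multiset.mem_toFinset, mem_roots, IsRoot.def, eval_map_algebraMap]
  exact (fpol_natDegree b).2.map (algebraMap (ZMod l) K) |>.ne_zero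

/-- The number of generators of the field with `l^n` elements. -/
lemma gen_count (K : Type*) [Field K] [Algebra (ZMod l) K] [Fintype K] [DecidableEq K]
    (hn : 2 ≤ n) (hl : n ^ 2 ≤ l)
    (hK : Module.finrank (ZMod l) K = n) :
    l ^ n ≤ 2 * (univ.filter fun α : K => (minpoly (ZMod l) α).natDegree = n).card := by
  classical
  have hlp : l.Prime := Fact.out
  have hfin : FiniteDimensional (ZMod l) K := Module.finite_of_finrank_pos (by omega)
  have hcard : Fintype.card K = l ^ n := by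
    rw [Module.card_eq_pow_finrank (K := ZMod l) (V := K), ZMod.card, hK]
  have hint : ∀ α : K, IsIntegral (ZMod l) α := fun α => IsIntegral.of_finite _ _
  have hsub : (univ.filter fun α : K => ¬ (minpoly (ZMod l) α).natDegree = n) ⊆
      (Icc 1 (n / 2)).biUnion fun d => (univ : Finset (Fin d → ZMod l)).biUnion fun b =>
        rts l K b := by
    intro α hα
    rw [mem_filter] at hα
    have h1 : (minpoly (ZMod l) α).natDegree ∣ n := by
      rw [← hK]; exact minpoly.degree_dvd (hint α)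
    have h2 : 0 < (minpoly (ZMod l) α).natDegree := minpoly.natDegree_pos (hint α)
    obtain ⟨k, hk⟩ := h1
    have hk2 : 2 ≤ k := by
      rcases k with _ | _ | k
      · omega
      · exact absurd (by omega) hα.2
      · omega
    rw [mem_biUnion]
    refine ⟨(minpoly (ZMod l) α).natDegree, ?_, ?_⟩
    · rw [mem_Icc]
      refine ⟨h2, ?_⟩
      rw [Nat.le_div_iff_mul_le two_pos]
      calc (minpoly (ZMod l) α).natDegree * 2 ≤ (minpoly (ZMod l) α).natDegree * k :=
            Nat.mul_le_mul_left _ hk2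
        _ = n := hk.symm
    · rw [mem_biUnion]
      refine ⟨_, mem_univ (fun i : Fin (minpoly (ZMod l) α).natDegree =>
        (minpoly (ZMod l) α).coeff ((minpoly (ZMod l) α).natDegree - 1 - (i : ℕ))), ?_⟩
      rw [mem_rts, ← monic_eq (minpoly.monic (hint α)), minpoly.aeval]
  have hbad : (univ.filter fun α : K => ¬ (minpoly (ZMod l) α).natDegree = n).card ≤
      (n / 2) * (l ^ (n / 2) * (n / 2)) := by
    refine (card_le_card hsub).trans ?_
    refine card_biUnion_le.trans ?_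
    calc ∑ d ∈ Icc 1 (n / 2), ((univ : Finset (Fin d → ZMod l)).biUnion fun b =>
          rts l K b).card ≤ ∑ _d ∈ Icc 1 (n / 2), l ^ (n / 2) * (n / 2) := by
          refine Finset.sum_le_sum fun d hd => ?_
          rw [mem_Icc] at hd
          refine card_biUnion_le.trans ?_
          calc ∑ b : Fin d → ZMod l, (rts l K b).card ≤ ∑ _b : Fin d → ZMod l, d :=
                Finset.sum_le_sum fun b _ => card_rts l K b
            _ = l ^ d * d := by
                rw [Finset.sum_const, Finset.card_univ, Fintype.card_fun, ZMod.card,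
                  Fintype.card_fin, smul_eq_mul]
            _ ≤ l ^ (n / 2) * (n / 2) :=
                Nat.mul_le_mul (Nat.pow_le_pow_right hlp.pos hd.2) hd.2
      _ = _ := by rw [Finset.sum_const, Nat.card_Icc, smul_eq_mul, Nat.add_sub_cancel]
  have hsplit := Finset.card_filter_add_card_filter_not
    (s := (univ : Finset K)) (fun α : K => (minpoly (ZMod l) α).natDegree = n)
  rw [Finset.card_univ, hcard] at hsplit
  have h4 : 2 * ((n / 2) * (l ^ (n / 2) * (n / 2))) ≤ l ^ n := by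
    have h5 : (n / 2) * (n / 2) * 4 ≤ n ^ 2 := by
      have h0 : n / 2 * 2 ≤ n := Nat.div_mul_le_self n 2
      calc (n / 2) * (n / 2) * 4 = (n / 2 * 2) * (n / 2 * 2) := by ring
        _ ≤ n * n := Nat.mul_le_mul h0 h0
        _ = n ^ 2 := (pow_two n).symm
    have h6 : l ^ n = l ^ (n / 2) * l ^ (n - n / 2) := by
      rw [← pow_add]; congr 1; omega
    have h7 : l ≤ l ^ (n - n / 2) := Nat.le_self_pow (by omega) l
    rw [h6]
    calc 2 * ((n / 2) * (l ^ (n / 2) * (n / 2))) = l ^ (n / 2) * (2 * ((n / 2) * (n / 2))) := by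
          ring
      _ ≤ l ^ (n / 2) * l ^ (n - n / 2) := Nat.mul_le_mul_left _ (by omega)
  omega

/-- The monic polynomials. -/
lemma irr_count (hn : 2 ≤ n) (hl : n ^ 2 ≤ l) [DecidablePred fun b : Fin n → ZMod l =>
    Irreducible (fpol 1 b)] :
    l ^ n ≤ 2 * n * (univ.filter fun b : Fin n → ZMod l => Irreducible (fpol 1 b)).card := by
  classical
  have : Fintype (GaloisField l n) := Fintype.ofFinite _
  have hK := GaloisField.finrank l (n := n) (by omega)
  have h1 := gen_count l n (GaloisField l n) hn hl hK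
  have hfin : FiniteDimensional (ZMod l) (GaloisField l n) :=
    Module.finite_of_finrank_pos (by omega)
  have hint : ∀ α : GaloisField l n, IsIntegral (ZMod l) α := fun α => IsIntegral.of_finite _ _
  have h2 : (univ.filter fun α : GaloisField l n => (minpoly (ZMod l) α).natDegree = n) ⊆
      (univ.filter fun b : Fin n → ZMod l => Irreducible (fpol 1 b)).biUnion fun b =>
        rts l (GaloisField l n) b := by
    intro α hα
    rw [mem_filter] at hα
    rw [mem_biUnion]
    have h3 := monic_eq (minpoly.monic (hint α))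
    have h4 := minpoly.irreducible (hint α)
    have h5 := minpoly.aeval (ZMod l) α
    revert h3 h4 h5
    generalize minpoly (ZMod l) α = f at hα ⊢
    obtain ⟨-, rfl⟩ := hα
    intro h3 h4 h5
    refine ⟨fun i => f.coeff (f.natDegree - 1 - (i : ℕ)), ?_, ?_⟩
    · rw [mem_filter]
      refine ⟨mem_univ _, ?_⟩
      rw [← h3]; exact h4
    · rw [mem_rts, ← h3]; exact h5
  have h3 := (card_le_card h2).trans card_biUnion_le
  have h4 : ∑ b ∈ (univ.filter fun b : Fin n → ZMod l => Irreducible (fpol 1 b)),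
      (rts l (GaloisField l n) b).card ≤
      (univ.filter fun b : Fin n → ZMod l => Irreducible (fpol 1 b)).card * n := by
    refine (Finset.sum_le_card_nsmul _ _ n fun b _ => card_rts l _ b).trans ?_
    rw [smul_eq_mul]
  nlinarith

end Stoll308.BG.IrrDens
end

section
set_option autoImplicit false

/-!
Irreducibility: no large zero blocks, no unitriangular automorphisms.
-/

namespace Stoll308.BG

open Polynomial Finset Matrix

namespace Irr

theorem fpol_natDegree {R : Type*} [CommRing R] [Nontrivial R] {n : ℕ} (b : Fin n → R) :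
    (fpol (1 : R) b).natDegree = n ∧ (fpol (1 : R) b).Monic := by
  have h : (∑ i : Fin n, C (b i) * X ^ (n - 1 - (i : ℕ)) : R[X]).degree < n := by
    refine lt_of_le_of_lt (degree_sum_le _ _) ?_
    rw [Finset.sup_lt_iff (by exact WithBot.bot_lt_coe n)]
    intro i _
    refine lt_of_le_of_lt (degree_C_mul_X_pow_le _ _) ?_
    have := i.2
    exact_mod_cast (by omega : n - 1 - (i : ℕ) < n)
  have e : fpol (1 : R) b = X ^ n + ∑ i : Fin n, C (b i) * X ^ (n - 1 - (i : ℕ)) := by
    simp [fpol]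
  rw [e]
  refine ⟨?_, monic_X_pow_add h⟩
  rw [natDegree_add_eq_left_of_degree_lt]
  · simp
  · rw [degree_X_pow]; exact h

/-- a matrix whose characteristic polynomial is irreducible has no invariant subspaces -/
theorem invariant {n : ℕ} (M : Matrix (Fin n) (Fin n) ℚ) {F : ℚ[X]} (hF : Irreducible F)
    (hd : F.natDegree = n) (hM : aeval M F = 0) (S : Submodule ℚ (Fin n → ℚ))
    (hS : ∀ v ∈ S, M *ᵥ v ∈ S) {w : Fin n → ℚ} (hw : w ∈ S) (hw0 : w ≠ 0) : S = ⊤ := by
  have hpow : ∀ (i : ℕ), (M ^ i) *ᵥ w ∈ S := by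
    intro i
    induction i with
    | zero => simpa using hw
    | succ i ih =>
      rw [pow_succ', ← Matrix.mulVec_mulVec]
      exact hS _ ih
  have hli : LinearIndependent ℚ (fun i : Fin n => (M ^ (i : ℕ)) *ᵥ w) := by
    rw [Fintype.linearIndependent_iff]
    intro g hg
    by_contra hcon
    push Not at hcon
    obtain ⟨i0, hi0⟩ := hcon
    set p : ℚ[X] := ∑ i : Fin n, C (g i) * X ^ (i : ℕ) with hp
    have hcoef : p.coeff i0 = g i0 := by
      rw [hp, finsetSum_coeff]
      simp only [coeff_C_mul, coeff_X_pow]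
      rw [Finset.sum_eq_single i0]
      · simp
      · intro b _ hb
        rw [if_neg]
        · simp
        · intro h
          exact hb (Fin.ext h.symm)
      · simp
    have hp0 : p ≠ 0 := by
      intro h
      rw [h, coeff_zero] at hcoef
      exact hi0 hcoef.symm
    have hpd : p.degree < F.degree := by
      rw [degree_eq_natDegree hF.ne_zero, hd]
      refine lt_of_le_of_lt (degree_sum_le _ _) ?_
      rw [Finset.sup_lt_iff (by exact WithBot.bot_lt_coe n)]
      intro i _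
      refine lt_of_le_of_lt (degree_C_mul_X_pow_le _ _) ?_
      exact_mod_cast i.2
    have hcop : IsCoprime F p := by
      rw [Irreducible.coprime_iff_not_dvd hF]
      intro h
      exact absurd (degree_le_of_dvd h hp0) (not_le.2 hpd)
    have hpw : (aeval M p) *ᵥ w = 0 := by
      rw [hp, map_sum, Matrix.sum_mulVec]
      rw [← hg]
      refine Finset.sum_congr rfl (fun i _ => ?_)
      rw [map_mul, aeval_C, map_pow, aeval_X, ← Matrix.mulVec_mulVec]
      rw [Algebra.algebraMap_eq_smul_one, Matrix.smul_mulVec, Matrix.one_mulVec]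
    obtain ⟨u, v, huv⟩ := hcop
    have h1 : (aeval M (u * F + v * p)) *ᵥ w = w := by
      rw [huv, map_one, Matrix.one_mulVec]
    rw [map_add, map_mul, map_mul, hM, mul_zero, zero_add, ← Matrix.mulVec_mulVec, hpw,
      Matrix.mulVec_zero] at h1
    exact hw0 h1.symm
  have hspan := hli.span_eq_top_of_card_eq_finrank' (by simp)
  rw [eq_top_iff, ← hspan, Submodule.span_le]
  rintro _ ⟨i, rfl⟩
  exact hpow i

theorem setup {n : ℕ} (c : Fin n → ℤ) (A B : Matrix (Fin n) (Fin n) ℤ) (h : HasChar c A B) :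
    ∃ M : Matrix (Fin n) (Fin n) ℚ, A.map (Int.cast : ℤ → ℚ) * M = B.map (Int.cast : ℤ → ℚ) ∧
      IsUnit (A.map (Int.cast : ℤ → ℚ)) ∧ aeval M (FZ ℚ c) = 0 := by
  obtain ⟨h0, h1⟩ := h
  set A' : Matrix (Fin n) (Fin n) ℚ := A.map (Int.cast : ℤ → ℚ) with hA'
  set B' : Matrix (Fin n) (Fin n) ℚ := B.map (Int.cast : ℤ → ℚ) with hB'
  have hdet : A'.det = (A.det : ℚ) := by
    rw [hA']
    exact (RingHom.map_det (Int.castRingHom ℚ) A).symm
  have hdet0 : A'.det ≠ 0 := by
    rw [hdet]; exact_mod_cast h0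
  have hu : IsUnit A'.det := isUnit_iff_ne_zero.2 hdet0
  refine ⟨A'⁻¹ * B', ?_, (Matrix.isUnit_iff_isUnit_det _).2 hu, ?_⟩
  · rw [← Matrix.mul_assoc, Matrix.mul_nonsing_inv _ hu, Matrix.one_mul]
  · have hchar : (A'⁻¹ * B').charpoly = FZ ℚ c := by
      have h2 := congrArg (Polynomial.map (Int.castRingHom ℚ)) h1
      rw [Polynomial.map_mul, Polynomial.map_C] at h2
      have h3 : Polynomial.map (Int.castRingHom ℚ) (FZ ℤ c) = FZ ℚ c := by
        simp [FZ, fpol, Polynomial.map_sum]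
      rw [h3] at h2
      have h4 : Polynomial.map (Int.castRingHom ℚ) ((X : ℤ[X]) • A.map C - B.map C).det =
          ((X : ℚ[X]) • A'.map C - B'.map C).det := by
        have := RingHom.map_det (Polynomial.mapRingHom (Int.castRingHom ℚ))
          ((X : ℤ[X]) • A.map C - B.map C)
        rw [Polynomial.coe_mapRingHom] at this
        rw [this]
        congr 1
        ext i j
        simp [hA', hB']
      rw [h4] at h2
      have h5 : (X : ℚ[X]) • A'.map C - B'.map C =
          (A'.map C) * charmatrix (A'⁻¹ * B') := by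
        rw [charmatrix, Matrix.mul_sub]
        congr 1
        · rw [Matrix.scalar_apply, ← Matrix.smul_one_eq_diagonal, Matrix.mul_smul, Matrix.mul_one]
        · have : (A' * (A'⁻¹ * B')).map (C : ℚ → ℚ[X]) = B'.map C := by
            rw [← Matrix.mul_assoc, Matrix.mul_nonsing_inv _ hu, Matrix.one_mul]
          rw [← this]
          exact Matrix.map_mul (f := (C : ℚ →+* ℚ[X]))
      rw [h5, Matrix.det_mul] at h2
      have h6 : (A'.map (C : ℚ → ℚ[X])).det = C A'.det :=
        (RingHom.map_det (C : ℚ →+* ℚ[X]) A').symm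
      rw [h6, hdet] at h2
      have h7 : (C ((Int.castRingHom ℚ) A.det) : ℚ[X]) ≠ 0 := by
        rw [Ne, C_eq_zero]
        simpa using h0
      exact mul_left_cancel₀ h7 h2
    rw [← hchar]
    exact Matrix.aeval_self_charpoly _

/-- vectors vanishing on a set of coordinates -/
def Van {n : ℕ} (J : Set (Fin n)) : Submodule ℚ (Fin n → ℚ) where
  carrier := {v | ∀ j ∈ J, v j = 0}
  add_mem' := by
    intro a b ha hb j hj
    rw [Pi.add_apply, ha j hj, hb j hj, add_zero]
  zero_mem' := fun j _ => rfl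
  smul_mem' := by
    intro t a ha j hj
    rw [Pi.smul_apply, ha j hj, smul_zero]

theorem mem_Van {n : ℕ} (J : Set (Fin n)) (v : Fin n → ℚ) : v ∈ Van J ↔ ∀ j ∈ J, v j = 0 :=
  Iff.rfl

theorem finrank_Van {n : ℕ} (J : Set (Fin n)) [DecidablePred (· ∈ J)] :
    Module.finrank ℚ (Van J) = Fintype.card {j : Fin n // j ∉ J} := by
  classical
  let e : Van J ≃ₗ[ℚ] ({j : Fin n // j ∉ J} → ℚ) :=
    { toFun := fun v j => v.1 j.1
      map_add' := fun _ _ => rfl
      map_smul' := fun _ _ => rfl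
      invFun := fun u => ⟨fun j => if h : j ∉ J then u ⟨j, h⟩ else 0, fun j hj => by
        simp [hj]⟩
      left_inv := by
        intro v
        apply Subtype.ext
        funext j
        by_cases h : j ∈ J
        · simp [h, v.2 j h]
        · simp [h]
      right_inv := by
        intro u
        funext j
        simp [j.2] }
  rw [e.finrank_eq, Module.finrank_fintype_fun_eq_card]

end Irr

theorem block_ne {n : ℕ} (c : Fin n → ℤ) (hF : Irreducible (FZ ℚ c))
    (A B : Matrix (Fin n) (Fin n) ℤ) (h : HasChar c A B) (r : ℕ) (h1 : 1 ≤ r) (h2 : r < n) :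
    ∃ i j : Fin n, (i : ℕ) < r ∧ (j : ℕ) < n - r ∧ (A i j ≠ 0 ∨ B i j ≠ 0) := by
  by_contra hcon
  push Not at hcon
  obtain ⟨M, hAM, hA, hM⟩ := Irr.setup c A B h
  set A' : Matrix (Fin n) (Fin n) ℚ := A.map (Int.cast : ℤ → ℚ) with hA'
  set B' : Matrix (Fin n) (Fin n) ℚ := B.map (Int.cast : ℤ → ℚ) with hB'
  set J : Set (Fin n) := {j | n - r ≤ (j : ℕ)} with hJ
  set I : Set (Fin n) := {i | (i : ℕ) < r} with hI
  set S : Submodule ℚ (Fin n → ℚ) := Irr.Van J with hS
  set U : Submodule ℚ (Fin n → ℚ) := Irr.Van I with hU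
  have hinj : Function.Injective A'.mulVecLin := by
    rw [Matrix.coe_mulVecLin]
    exact Matrix.mulVec_injective_iff_isUnit.2 hA
  have hzero : ∀ (P : Matrix (Fin n) (Fin n) ℚ), (∀ i j : Fin n, (i : ℕ) < r → (j : ℕ) < n - r →
      P i j = 0) → ∀ v ∈ S, P *ᵥ v ∈ U := by
    intro P hP v hv
    rw [hU, Irr.mem_Van]
    intro i hi
    rw [Matrix.mulVec, dotProduct]
    refine Finset.sum_eq_zero (fun j _ => ?_)
    by_cases hj : (j : ℕ) < n - r
    · rw [hP i j hi hj, zero_mul]
    · rw [hS, Irr.mem_Van] at hv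
      rw [hv j (not_lt.1 hj), mul_zero]
  have hAS : ∀ v ∈ S, A' *ᵥ v ∈ U := hzero A' (fun i j hi hj => by
    rw [hA', Matrix.map_apply, (hcon i j hi hj).1, Int.cast_zero])
  have hBS : ∀ v ∈ S, B' *ᵥ v ∈ U := hzero B' (fun i j hi hj => by
    rw [hB', Matrix.map_apply, (hcon i j hi hj).2, Int.cast_zero])
  have hmap : S.map A'.mulVecLin = U := by
    refine Submodule.eq_of_le_of_finrank_eq ?_ ?_
    · rintro _ ⟨v, hv, rfl⟩
      exact hAS v hv
    · rw [← (Submodule.equivMapOfInjective A'.mulVecLin hinj S).finrank_eq, hS, hU,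
        Irr.finrank_Van, Irr.finrank_Van]
      have e1 : Fintype.card {j : Fin n // j ∉ J} = n - r := by
        rw [Fintype.card_congr (Equiv.subtypeEquivRight (q := fun j : Fin n => (j : ℕ) < n - r)
          (fun j => by
            rw [hJ, Set.mem_ofPred_eq]
            exact not_le))]
        rw [Fintype.card_subtype, Fin.card_filter_val_lt]
        omega
      have e2 : Fintype.card {i : Fin n // i ∉ I} = n - r := by
        have h3 := Fintype.card_subtype_compl (fun i : Fin n => (i : ℕ) < r)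
        have h4 : Fintype.card {i : Fin n // (i : ℕ) < r} = r := by
          rw [Fintype.card_subtype, Fin.card_filter_val_lt]; omega
        rw [Fintype.card_fin, h4] at h3
        exact h3
      rw [e1, e2]
  have hSinv : ∀ v ∈ S, M *ᵥ v ∈ S := by
    intro v hv
    have h3 : A' *ᵥ (M *ᵥ v) ∈ S.map A'.mulVecLin := by
      rw [hmap, Matrix.mulVec_mulVec, hAM]
      exact hBS v hv
    obtain ⟨u, hu, hu2⟩ := h3
    have : u = M *ᵥ v := hinj hu2
    rwa [← this]
  have hn : 0 < n := by omega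
  have hw : (Pi.single (⟨0, hn⟩ : Fin n) (1 : ℚ)) ∈ S := by
    rw [hS, Irr.mem_Van]
    intro j hj
    rw [Pi.single_apply, if_neg]
    intro h3
    rw [hJ, Set.mem_ofPred_eq, h3] at hj
    simp only at hj
    omega
  have htop := Irr.invariant M hF (Irr.fpol_natDegree _).1 hM S hSinv hw (by simp)
  have h5 : (Pi.single (⟨n - 1, by omega⟩ : Fin n) (1 : ℚ)) ∈ S := by
    rw [htop]; exact Submodule.mem_top
  rw [hS, Irr.mem_Van] at h5
  have h6 := h5 ⟨n - 1, by omega⟩ (by rw [hJ, Set.mem_ofPred_eq]; simp only; omega)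
  rw [Pi.single_eq_same] at h6
  exact one_ne_zero h6

theorem stab {n : ℕ} (c : Fin n → ℤ) (hF : Irreducible (FZ ℚ c))
    (A B W : Matrix (Fin n) (Fin n) ℤ) (h : HasChar c A B) (hW1 : ∀ i, W i i = 1)
    (hW2 : ∀ i j, i < j → W i j = 0) (hA : W * A * Wᵀ = A) (hB : W * B * Wᵀ = B) : W = 1 := by
  rcases Nat.eq_zero_or_pos n with hn | hn
  · subst hn
    exact Subsingleton.elim _ _
  obtain ⟨M, hAM, hAu, hM⟩ := Irr.setup c A B h
  set A' : Matrix (Fin n) (Fin n) ℚ := A.map (Int.cast : ℤ → ℚ) with hA'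
  set B' : Matrix (Fin n) (Fin n) ℚ := B.map (Int.cast : ℤ → ℚ) with hB'
  set W' : Matrix (Fin n) (Fin n) ℚ := W.map (Int.cast : ℤ → ℚ) with hW'
  have cast_mul : ∀ P Q : Matrix (Fin n) (Fin n) ℤ, (P * Q).map (Int.cast : ℤ → ℚ) =
      P.map (Int.cast : ℤ → ℚ) * Q.map (Int.cast : ℤ → ℚ) := by
    intro P Q
    exact Matrix.map_mul (f := Int.castRingHom ℚ)
  have hA2 : W' * A' * W'ᵀ = A' := by
    have := congrArg (fun P : Matrix (Fin n) (Fin n) ℤ => P.map (Int.cast : ℤ → ℚ)) hA
    simp only [cast_mul] at this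
    exact this
  have hB2 : W' * B' * W'ᵀ = B' := by
    have := congrArg (fun P : Matrix (Fin n) (Fin n) ℤ => P.map (Int.cast : ℤ → ℚ)) hB
    simp only [cast_mul] at this
    exact this
  have hWu : IsUnit W' := by
    have h1 : IsUnit (W' * A' * W'ᵀ) := by rw [hA2]; exact hAu
    rw [Matrix.isUnit_iff_isUnit_det] at h1 ⊢
    rw [Matrix.det_mul, Matrix.det_mul] at h1
    exact isUnit_of_mul_isUnit_left (isUnit_of_mul_isUnit_left h1)
  have hcomm : W'ᵀ * M = M * W'ᵀ := by
    have h1 : W' * (A' * (W'ᵀ * M)) = W' * (A' * (M * W'ᵀ)) := by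
      rw [← Matrix.mul_assoc A' M, hAM, ← Matrix.mul_assoc A', ← Matrix.mul_assoc W',
        ← Matrix.mul_assoc W' A', hA2, hAM, ← Matrix.mul_assoc, hB2]
    exact hAu.mul_left_cancel (hWu.mul_left_cancel h1)
  let S : Submodule ℚ (Fin n → ℚ) := LinearMap.ker (W'ᵀ.mulVecLin - LinearMap.id)
  have hSmem : ∀ v, v ∈ S ↔ W'ᵀ *ᵥ v = v := by
    intro v
    simp only [S, LinearMap.mem_ker, LinearMap.sub_apply, Matrix.mulVecLin_apply,
      LinearMap.id_coe, id_eq, sub_eq_zero]
  have hSinv : ∀ v ∈ S, M *ᵥ v ∈ S := by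
    intro v hv
    rw [hSmem] at hv ⊢
    rw [Matrix.mulVec_mulVec, hcomm, ← Matrix.mulVec_mulVec, hv]
  have hw : (Pi.single (⟨0, hn⟩ : Fin n) (1 : ℚ)) ∈ S := by
    rw [hSmem, Matrix.mulVec_single_one]
    ext i
    rw [Matrix.col_apply, Matrix.transpose_apply, hW', Matrix.map_apply, Pi.single_apply]
    by_cases hi : i = ⟨0, hn⟩
    · rw [if_pos hi, hi, hW1, Int.cast_one]
    · rw [if_neg hi, hW2, Int.cast_zero]
      rw [Fin.lt_def]
      have : (i : ℕ) ≠ 0 := fun h0 => hi (Fin.ext h0)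
      simp only
      omega
  have htop := Irr.invariant M hF (Irr.fpol_natDegree _).1 hM S hSinv hw (by simp)
  have hW3 : W'ᵀ = 1 := by
    ext i j
    have h1 : (Pi.single j (1 : ℚ) : Fin n → ℚ) ∈ S := by rw [htop]; exact Submodule.mem_top
    rw [hSmem, Matrix.mulVec_single_one] at h1
    have h2 := congrFun h1 i
    rw [Matrix.col_apply] at h2
    rw [h2, Matrix.one_apply, Pi.single_apply]
  ext i j
  have h1 := congrFun (congrFun hW3 j) i
  rw [Matrix.transpose_apply, hW', Matrix.map_apply, Matrix.one_apply] at h1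
  rw [Matrix.one_apply]
  by_cases hij : i = j
  · rw [if_pos hij]
    rw [if_pos hij.symm] at h1
    exact_mod_cast h1
  · rw [if_neg hij]
    rw [if_neg (fun h => hij h.symm)] at h1
    exact_mod_cast h1

end Stoll308.BG
end

section
set_option autoImplicit false

/-!
Double counting with the lower unitriangular matrices.
-/

namespace Stoll308.BG

open Finset Matrix

namespace Unip

/-- Lower unitriangular. -/
def LU {n : ℕ} (W : Matrix (Fin n) (Fin n) ℤ) : Prop :=
  (∀ i, W i i = 1) ∧ ∀ i j, i < j → W i j = 0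

lemma LU.block {n : ℕ} {W : Matrix (Fin n) (Fin n) ℤ} (h : LU W) :
    W.BlockTriangular OrderDual.toDual := by
  intro i j hij
  exact h.2 i j (OrderDual.toDual_lt_toDual.1 hij)

lemma LU.det {n : ℕ} {W : Matrix (Fin n) (Fin n) ℤ} (h : LU W) : W.det = 1 := by
  rw [det_of_isLowerTriangular W h.block]
  exact Finset.prod_eq_one fun i _ => h.1 i

/-- Diagonal of a product of lower triangular matrices. -/
lemma diag_mul {n : ℕ} (V W : Matrix (Fin n) (Fin n) ℤ) (hV : ∀ i j, i < j → V i j = 0)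
    (hW : ∀ i j, i < j → W i j = 0) (i : Fin n) : (V * W) i i = V i i * W i i := by
  rw [mul_apply]
  refine Finset.sum_eq_single i (fun k _ hk => ?_) (fun h => absurd (mem_univ i) h)
  rcases lt_or_gt_of_ne hk with h | h
  · rw [hW k i h, mul_zero]
  · rw [hV i k h, zero_mul]

lemma LU.inv_mul {n : ℕ} {V W : Matrix (Fin n) (Fin n) ℤ} (hV : LU V) (hW : LU W) :
    ∃ U : Matrix (Fin n) (Fin n) ℤ, LU U ∧ V * U = W := by
  have hdet : IsUnit V.det := by rw [hV.det]; exact isUnit_one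
  have hVu : V * V⁻¹ = 1 := mul_nonsing_inv V hdet
  have hVu' : V⁻¹ * V = 1 := nonsing_inv_mul V hdet
  let _ : Invertible V := invertibleOfIsUnitDet V hdet
  have hinv : (V⁻¹).BlockTriangular OrderDual.toDual :=
    blockTriangular_inv_of_blockTriangular hV.block
  have hinv' : ∀ i j, i < j → V⁻¹ i j = 0 := fun i j hij =>
    hinv (OrderDual.toDual_lt_toDual.2 hij)
  have hdiag : ∀ i, V⁻¹ i i = 1 := by
    intro i
    have h := diag_mul V⁻¹ V hinv' hV.2 i
    rw [hVu', one_apply_eq, hV.1 i, mul_one] at h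
    exact h.symm
  refine ⟨V⁻¹ * W, ⟨fun i => ?_, fun i j hij => ?_⟩, ?_⟩
  · rw [diag_mul _ _ hinv' hW.2, hdiag, hW.1, mul_one]
  · exact (hinv.mul hW.block) (OrderDual.toDual_lt_toDual.2 hij)
  · rw [← Matrix.mul_assoc, hVu, Matrix.one_mul]

/-- Cancellation of an invertible congruence. -/
lemma congr_cancel {n : ℕ} {V U A A' : Matrix (Fin n) (Fin n) ℤ} (hV : LU V)
    (h : (V * U) * A * (V * U)ᵀ = V * A' * Vᵀ) : U * A * Uᵀ = A' := by
  have hdet : IsUnit V.det := by rw [hV.det]; exact isUnit_one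
  have hVu' : V⁻¹ * V = 1 := nonsing_inv_mul V hdet
  have hT : Vᵀ * (V⁻¹)ᵀ = 1 := by rw [← transpose_mul, hVu', transpose_one]
  have e1 : V⁻¹ * ((V * U) * A * (V * U)ᵀ) * (V⁻¹)ᵀ = U * A * Uᵀ := by
    rw [transpose_mul]
    calc V⁻¹ * ((V * U) * A * (Uᵀ * Vᵀ)) * (V⁻¹)ᵀ
        = (V⁻¹ * V) * (U * A * Uᵀ) * (Vᵀ * (V⁻¹)ᵀ) := by simp only [Matrix.mul_assoc]
      _ = U * A * Uᵀ := by rw [hVu', hT, Matrix.one_mul, Matrix.mul_one]
  have e2 : V⁻¹ * (V * A' * Vᵀ) * (V⁻¹)ᵀ = A' := by
    calc V⁻¹ * (V * A' * Vᵀ) * (V⁻¹)ᵀ = (V⁻¹ * V) * A' * (Vᵀ * (V⁻¹)ᵀ) := by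
          simp only [Matrix.mul_assoc]
      _ = A' := by rw [hVu', hT, Matrix.one_mul, Matrix.mul_one]
  rw [← e1, h, e2]

/-- The lower unitriangular matrices of the box. -/
noncomputable def Wset {n : ℕ} (s : Fin n → ℝ) : Finset (Fin n → Fin n → ℤ) :=
  Fintype.piFinset fun i => Fintype.piFinset fun j =>
    if j < i then Icc (-⌊s i / s j⌋) ⌊s i / s j⌋ else if i = j then {1} else {0}

lemma mem_Wset {n : ℕ} {s : Fin n → ℝ} (hs : ∀ i, 0 < s i) {W : Matrix (Fin n) (Fin n) ℤ}
    (hW : W ∈ Wset s) : LU W ∧ ∀ i j, |(W i j : ℝ)| ≤ s i / s j := by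
  have hW : ∀ i j, W i j ∈
      (if j < i then Icc (-⌊s i / s j⌋) ⌊s i / s j⌋ else if i = j then {1} else {0}) :=
    fun i j => Fintype.mem_piFinset.1 (Fintype.mem_piFinset.1 hW i) j
  have h1 : ∀ i, W i i = 1 := by
    intro i
    have := hW i i
    simpa using this
  have h2 : ∀ i j, i < j → W i j = 0 := by
    intro i j hij
    have := hW i j
    rw [if_neg (not_lt.2 hij.le), if_neg hij.ne] at this
    simpa using this
  refine ⟨⟨h1, h2⟩, fun i j => ?_⟩
  rcases lt_trichotomy i j with h | h | h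
  · rw [h2 i j h]
    simpa using (div_pos (hs i) (hs j)).le
  · subst h
    rw [h1 i, div_self (hs i).ne']
    simp
  · have := hW i j
    rw [if_pos h, Finset.mem_Icc, ← abs_le] at this
    calc |(W i j : ℝ)| = ((|W i j| : ℤ) : ℝ) := by push_cast; rfl
      _ ≤ (⌊s i / s j⌋ : ℝ) := by exact_mod_cast this
      _ ≤ s i / s j := Int.floor_le _

lemma card_Wset {n : ℕ} {s : Fin n → ℝ} (hs : ∀ i, 0 < s i) :
    ∏ i, ∏ j ∈ univ.filter (· < i), (s i / s j) ≤ ((Wset s).card : ℝ) := by
  rw [Wset, Fintype.card_piFinset, Nat.cast_prod]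
  refine Finset.prod_le_prod (fun i _ => Finset.prod_nonneg fun j _ =>
    (div_pos (hs i) (hs j)).le) (fun i _ => ?_)
  rw [Fintype.card_piFinset, Nat.cast_prod, Finset.prod_filter]
  refine Finset.prod_le_prod (fun j _ => ?_) (fun j _ => ?_)
  · split_ifs
    · exact (div_pos (hs i) (hs j)).le
    · exact zero_le_one
  · by_cases h : j < i
    · rw [if_pos h, if_pos h, Int.card_Icc]
      have h0 : 0 ≤ ⌊s i / s j⌋ := Int.floor_nonneg.2 (div_pos (hs i) (hs j)).le
      have h1 : (((⌊s i / s j⌋ + 1 - -⌊s i / s j⌋).toNat : ℕ) : ℤ) = 2 * ⌊s i / s j⌋ + 1 := by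
        rw [Int.toNat_of_nonneg (by omega)]; ring
      have h2 : (((⌊s i / s j⌋ + 1 - -⌊s i / s j⌋).toNat : ℕ) : ℝ) =
          2 * (⌊s i / s j⌋ : ℝ) + 1 := by exact_mod_cast h1
      rw [h2]
      have h3 := Int.lt_floor_add_one (s i / s j)
      have h4 : (0 : ℝ) ≤ (⌊s i / s j⌋ : ℝ) := by exact_mod_cast h0
      linarith
    · rw [if_neg h, if_neg h]
      split_ifs <;> simp

/-- The transformed matrix is in the larger box. -/
lemma box_mul {n : ℕ} {s : Fin n → ℝ} (hs : ∀ i, 0 < s i) {a : ℝ} (ha : 0 ≤ a)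
    {W A : Matrix (Fin n) (Fin n) ℤ} (hW : ∀ i j, |(W i j : ℝ)| ≤ s i / s j)
    (hA : ∀ i j, |(A i j : ℝ)| ≤ a * (s i * s j)) (i j : Fin n) :
    |(((W * A * Wᵀ) i j : ℤ) : ℝ)| ≤ (n : ℝ) ^ 2 * a * (s i * s j) := by
  have e : (((W * A * Wᵀ) i j : ℤ) : ℝ) =
      ∑ l, ∑ k, (W i k : ℝ) * (A k l : ℝ) * (W j l : ℝ) := by
    rw [mul_apply]
    push_cast
    refine Finset.sum_congr rfl fun l _ => ?_
    rw [mul_apply]
    push_cast
    rw [Finset.sum_mul]
    rfl
  rw [e]
  calc |∑ l, ∑ k, (W i k : ℝ) * (A k l : ℝ) * (W j l : ℝ)|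
      ≤ ∑ l, ∑ k, |(W i k : ℝ) * (A k l : ℝ) * (W j l : ℝ)| :=
        (Finset.abs_sum_le_sum_abs _ _).trans
          (Finset.sum_le_sum fun l _ => Finset.abs_sum_le_sum_abs _ _)
    _ ≤ ∑ _l : Fin n, ∑ _k : Fin n, a * (s i * s j) := by
        refine Finset.sum_le_sum fun l _ => Finset.sum_le_sum fun k _ => ?_
        rw [abs_mul, abs_mul]
        calc |(W i k : ℝ)| * |(A k l : ℝ)| * |(W j l : ℝ)|
            ≤ (s i / s k) * (a * (s k * s l)) * (s j / s l) := by
              have h1 : 0 ≤ s i / s k := (div_pos (hs i) (hs k)).le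
              have h2 : 0 ≤ a * (s k * s l) := mul_nonneg ha (mul_pos (hs k) (hs l)).le
              exact mul_le_mul (mul_le_mul (hW i k) (hA k l) (abs_nonneg _) h1) (hW j l)
                (abs_nonneg _) (mul_nonneg h1 h2)
          _ = a * (s i * s j) := by
              have h1 := (hs k).ne'
              have h2 := (hs l).ne'
              field_simp
    _ = (n : ℝ) ^ 2 * a * (s i * s j) := by
        simp only [Finset.sum_const, Finset.card_univ, Fintype.card_fin, nsmul_eq_mul]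
        ring

/-- The integral points of a box. -/
noncomputable def Bset {ι : Type*} [Fintype ι] [DecidableEq ι] (Y : ι → ℝ) : Finset (ι → ℤ) :=
  Fintype.piFinset fun p => Icc (-⌊Y p⌋) ⌊Y p⌋

lemma mem_Bset {ι : Type*} [Fintype ι] [DecidableEq ι] {Y : ι → ℝ} {v : ι → ℤ}
    (h : ∀ p, |(v p : ℝ)| ≤ Y p) : v ∈ Bset Y := by
  simp only [Bset, Fintype.mem_piFinset, Finset.mem_Icc]
  intro p
  rw [← abs_le]
  apply Int.le_floor.2
  rw [Int.cast_abs]
  exact h p

lemma card_Bset {ι : Type*} [Fintype ι] [DecidableEq ι] {Y : ι → ℝ} (hY : ∀ p, 0 ≤ Y p) :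
    ((Bset Y).card : ℝ) ≤ ∏ p, (2 * Y p + 1) := by
  rw [Bset, Fintype.card_piFinset, Nat.cast_prod]
  refine Finset.prod_le_prod (fun i _ => Nat.cast_nonneg _) (fun p _ => ?_)
  rw [Int.card_Icc]
  have h0 : 0 ≤ ⌊Y p⌋ := Int.floor_nonneg.2 (hY p)
  have h1 : (((⌊Y p⌋ + 1 - -⌊Y p⌋).toNat : ℕ) : ℤ) = 2 * ⌊Y p⌋ + 1 := by
    rw [Int.toNat_of_nonneg (by omega)]; ring
  have h2 : (((⌊Y p⌋ + 1 - -⌊Y p⌋).toNat : ℕ) : ℝ) = 2 * (⌊Y p⌋ : ℝ) + 1 := by
    exact_mod_cast h1
  rw [h2]
  have := Int.floor_le (Y p)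
  linarith

/-- A symmetric matrix is determined by its entries `i ≤ j`. -/
lemma symm_ext {n : ℕ} {A B : Matrix (Fin n) (Fin n) ℤ} (hA : A.IsSymm) (hB : B.IsSymm)
    (h : ∀ p : Ix n, A p.1.1 p.1.2 = B p.1.1 p.1.2) : A = B := by
  ext i j
  rcases le_total i j with hij | hij
  · exact h ⟨(i, j), hij⟩
  · rw [← hA.apply i j, ← hB.apply i j]
    exact h ⟨(j, i), hij⟩

lemma symm_congr {n : ℕ} {W A : Matrix (Fin n) (Fin n) ℤ} (hA : A.IsSymm) :
    (W * A * Wᵀ).IsSymm := by
  unfold Matrix.IsSymm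
  rw [transpose_mul, transpose_mul, transpose_transpose, hA, Matrix.mul_assoc]

end Unip

open Unip in
theorem unip_count {n : ℕ} (s : Fin n → ℝ) (hs : ∀ i, 0 < s i) (a b : ℝ) (ha : 0 ≤ a) (hb : 0 ≤ b)
    (T : Finset (Matrix (Fin n) (Fin n) ℤ × Matrix (Fin n) (Fin n) ℤ))
    (hbox : ∀ p ∈ T, p.1.IsSymm ∧ p.2.IsSymm ∧ (∀ i j, |(p.1 i j : ℝ)| ≤ a * (s i * s j)) ∧
      ∀ i j, |(p.2 i j : ℝ)| ≤ b * (s i * s j))
    (hfree : ∀ p ∈ T, ∀ q ∈ T, ∀ W : Matrix (Fin n) (Fin n) ℤ, (∀ i, W i i = 1) →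
      (∀ i j, i < j → W i j = 0) → W * p.1 * Wᵀ = q.1 → W * p.2 * Wᵀ = q.2 → p = q ∧ W = 1) :
    (T.card : ℝ) * ∏ i, ∏ j ∈ univ.filter (· < i), (s i / s j) ≤
      (∏ p : Ix n, (2 * (n : ℝ) ^ 2 * a * (s p.1.1 * s p.1.2) + 1)) *
        ∏ p : Ix n, (2 * (n : ℝ) ^ 2 * b * (s p.1.1 * s p.1.2) + 1) := by
  classical
  obtain ⟨Ya, hYa⟩ : ∃ Y : Ix n → ℝ, Y = fun p => (n : ℝ) ^ 2 * a * (s p.1.1 * s p.1.2) :=
    ⟨_, rfl⟩
  obtain ⟨Yb, hYb⟩ : ∃ Y : Ix n → ℝ, Y = fun p => (n : ℝ) ^ 2 * b * (s p.1.1 * s p.1.2) :=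
    ⟨_, rfl⟩
  have hYa0 : ∀ p, 0 ≤ Ya p := by
    intro p; rw [hYa]
    exact mul_nonneg (mul_nonneg (sq_nonneg _) ha) (mul_pos (hs _) (hs _)).le
  have hYb0 : ∀ p, 0 ≤ Yb p := by
    intro p; rw [hYb]
    exact mul_nonneg (mul_nonneg (sq_nonneg _) hb) (mul_pos (hs _) (hs _)).le
  have hcard : ((Wset s) ×ˢ T).card ≤ (Bset Ya ×ˢ Bset Yb).card := by
    refine Finset.card_le_card_of_injOn
      (fun x : (Fin n → Fin n → ℤ) × (Matrix (Fin n) (Fin n) ℤ × Matrix (Fin n) (Fin n) ℤ) =>
        ((fun p : Ix n => ((Matrix.of x.1) * x.2.1 * (Matrix.of x.1)ᵀ) p.1.1 p.1.2),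
          (fun p : Ix n => ((Matrix.of x.1) * x.2.2 * (Matrix.of x.1)ᵀ) p.1.1 p.1.2))) ?_ ?_
    · rintro ⟨W, p⟩ hx
      rw [Finset.mem_coe, Finset.mem_product] at hx
      obtain ⟨hW, hp⟩ := hx
      obtain ⟨-, hWb⟩ := mem_Wset (W := Matrix.of W) hs hW
      obtain ⟨-, -, hA, hB⟩ := hbox p hp
      rw [Finset.mem_coe, Finset.mem_product]
      refine ⟨mem_Bset fun q => ?_, mem_Bset fun q => ?_⟩
      · rw [hYa]; exact box_mul hs ha hWb hA _ _
      · rw [hYb]; exact box_mul hs hb hWb hB _ _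
    · rintro ⟨W, p⟩ hx ⟨W', p'⟩ hx' he
      rw [Finset.mem_coe, Finset.mem_product] at hx hx'
      obtain ⟨hW, hp⟩ := hx
      obtain ⟨hW', hp'⟩ := hx'
      obtain ⟨hLU, -⟩ := mem_Wset (W := Matrix.of W) hs hW
      obtain ⟨hLU', -⟩ := mem_Wset (W := Matrix.of W') hs hW'
      obtain ⟨hsA, hsB, -, -⟩ := hbox p hp
      obtain ⟨hsA', hsB', -, -⟩ := hbox p' hp'
      simp only [Prod.mk.injEq] at he
      obtain ⟨he1, he2⟩ := he
      have h1 := symm_ext (symm_congr hsA) (symm_congr hsA') (fun q => congrFun he1 q)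
      have h2 := symm_ext (symm_congr hsB) (symm_congr hsB') (fun q => congrFun he2 q)
      obtain ⟨U, hU, hUW⟩ := hLU'.inv_mul hLU
      rw [← hUW] at h1 h2
      obtain ⟨hpp, hU1⟩ := hfree p hp p' hp' U hU.1 hU.2 (congr_cancel hLU' h1)
        (congr_cancel hLU' h2)
      rw [hU1, Matrix.mul_one] at hUW
      have : W' = W := hUW
      rw [this, hpp]
  rw [Finset.card_product, Finset.card_product] at hcard
  have hcard' : ((Wset s).card : ℝ) * (T.card : ℝ) ≤
      ((Bset Ya).card : ℝ) * ((Bset Yb).card : ℝ) := by exact_mod_cast hcard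
  have eA : ∏ p : Ix n, (2 * (n : ℝ) ^ 2 * a * (s p.1.1 * s p.1.2) + 1) =
      ∏ p : Ix n, (2 * Ya p + 1) := by
    refine Finset.prod_congr rfl fun p _ => ?_
    rw [hYa]; ring
  have eB : ∏ p : Ix n, (2 * (n : ℝ) ^ 2 * b * (s p.1.1 * s p.1.2) + 1) =
      ∏ p : Ix n, (2 * Yb p + 1) := by
    refine Finset.prod_congr rfl fun p _ => ?_
    rw [hYb]; ring
  rw [eA, eB]
  calc (T.card : ℝ) * ∏ i, ∏ j ∈ univ.filter (· < i), (s i / s j)
      ≤ (T.card : ℝ) * ((Wset s).card : ℝ) :=
        mul_le_mul_of_nonneg_left (card_Wset hs) (Nat.cast_nonneg _)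
    _ = ((Wset s).card : ℝ) * (T.card : ℝ) := mul_comm _ _
    _ ≤ ((Bset Ya).card : ℝ) * ((Bset Yb).card : ℝ) := hcard'
    _ ≤ _ := mul_le_mul (card_Bset hYa0) (card_Bset hYb0) (Nat.cast_nonneg _)
        (Finset.prod_nonneg fun p _ => by have := hYa0 p; linarith)

end Stoll308.BG
end

section
set_option autoImplicit false

/-!
From the Selmer set of the curve to the monic polynomial; rational points.
-/

namespace Stoll308.BG

open Polynomial Finset

namespace Transfer

lemma eval_fpol {R : Type*} [CommRing R] {n : ℕ} (a : R) (b : Fin n → R) (t : R) :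
    (fpol a b).eval t = a * t ^ n + ∑ i : Fin n, b i * t ^ (n - 1 - (i : ℕ)) := by
  simp [fpol, eval_finsetSum]

/-- `F(a t) = a^(n-1) f(t)`. -/
lemma eval_scale {R : Type*} [CommRing R] {n : ℕ} (hn : 1 ≤ n) (a : R) (b : Fin n → R) (t : R) :
    (fpol (1 : R) (fun i => a ^ (i : ℕ) * b i)).eval (a * t) = a ^ (n - 1) * (fpol a b).eval t := by
  rw [eval_fpol, eval_fpol, mul_add, Finset.mul_sum]
  congr 1
  · obtain ⟨m, rfl⟩ : ∃ m, n = m + 1 := ⟨n - 1, by omega⟩
    rw [Nat.add_sub_cancel]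
    ring
  · refine Finset.sum_congr rfl fun i _ => ?_
    have hi := i.isLt
    have h1 : a ^ (n - 1) = a ^ (i : ℕ) * a ^ (n - 1 - (i : ℕ)) := by
      rw [← pow_add]
      congr 1
      omega
    rw [mul_pow, h1]
    ring

/-- The polynomial of the curve, with the variable divided by `a`. -/
lemma comp_fpol {K : Type*} [Field K] {n : ℕ} (hn : 1 ≤ n) (a : K) (b : Fin n → K) (ha : a ≠ 0) :
    (fpol a b).comp (C a⁻¹ * X) =
      C ((a ^ (n - 1))⁻¹) * fpol (1 : K) (fun i => a ^ (i : ℕ) * b i) := by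
  have e : ∀ m : ℕ, ((C a⁻¹ : K[X]) * X) ^ m = C ((a ^ m)⁻¹) * X ^ m := by
    intro m
    rw [mul_pow, ← C_pow, inv_pow]
  have hs : (∑ i : Fin n, C (b i) * X ^ (n - 1 - (i : ℕ)) : K[X]).comp (C a⁻¹ * X) =
      ∑ i : Fin n, (C (b i) * X ^ (n - 1 - (i : ℕ)) : K[X]).comp (C a⁻¹ * X) := by
    simp
  unfold fpol
  rw [add_comp, hs, mul_comp, C_comp, pow_comp, X_comp, mul_add, Finset.mul_sum]
  congr 1
  · rw [e, ← mul_assoc, ← C_mul, map_one, one_mul]
    congr 2
    obtain ⟨m, rfl⟩ : ∃ m, n = m + 1 := ⟨n - 1, by omega⟩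
    rw [Nat.add_sub_cancel]
    field_simp
    ring
  · refine Finset.sum_congr rfl fun i _ => ?_
    have hi := i.isLt
    rw [mul_comp, C_comp, pow_comp, X_comp, e, ← mul_assoc, ← mul_assoc, ← C_mul, ← C_mul]
    congr 2
    have h1 : a ^ (n - 1) = a ^ (i : ℕ) * a ^ (n - 1 - (i : ℕ)) := by
      rw [← pow_add]
      congr 1
      omega
    have h2 : a ^ (i : ℕ) ≠ 0 := pow_ne_zero _ ha
    have h3 : a ^ (n - 1 - (i : ℕ)) ≠ 0 := pow_ne_zero _ ha
    rw [h1]
    field_simp

lemma FZ_cast {K : Type*} [CommRing K] {n : ℕ} (α : ℤ) (b : Fin n → ℤ) :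
    FZ K (fun i => α ^ (i : ℕ) * b i) =
      fpol (1 : K) (fun i => (α : K) ^ (i : ℕ) * (b i : K)) := by
  unfold FZ
  congr 1
  funext i
  push_cast
  rfl

end Transfer

theorem sel_of_point {n : ℕ} (hn : 2 ≤ n) (k : ℕ) (α : ℤ) (b : Fin n → ℤ) (hα : ¬ IsSquare α)
    (hF : Irreducible (FZ ℚ fun i => α ^ (i : ℕ) * b i)) (h : HasPoint k α b ℚ) :
    Sel k α b := by
  have hα0 : α ≠ 0 := by
    rintro rfl
    exact hα ⟨0, rfl⟩
  have hα' : (α : ℚ) ≠ 0 := by exact_mod_cast hα0
  obtain ⟨x, y, hxy⟩ | hsq := h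
  swap
  · exact absurd (Rat.isSquare_intCast_iff.mp hsq) hα
  -- `y ≠ 0`
  have hdeg : (FZ ℚ fun i => α ^ (i : ℕ) * b i).natDegree = n := by
    have h1 : (∑ i : Fin n, C (((α ^ (i : ℕ) * b i : ℤ) : ℚ)) *
        (X : ℚ[X]) ^ (n - 1 - (i : ℕ))).natDegree ≤ n - 1 := by
      refine natDegree_sum_le_of_forall_le _ _ fun i _ => ?_
      exact (natDegree_C_mul_X_pow_le _ _).trans (by omega)
    unfold FZ fpol
    rw [map_one, one_mul, natDegree_add_eq_left_of_natDegree_lt, natDegree_X_pow]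
    rw [natDegree_X_pow]
    exact lt_of_le_of_lt h1 (by omega)
  have hy : y ≠ 0 := by
    rintro rfl
    have h1 : (FZ ℚ fun i => α ^ (i : ℕ) * b i).IsRoot (α * x ^ (2 * k)) := by
      rw [IsRoot, Transfer.FZ_cast, Transfer.eval_scale (by omega), ← hxy]
      ring
    have h2 : (FZ ℚ fun i => α ^ (i : ℕ) * b i).natDegree = 1 :=
      natDegree_eq_of_degree_eq_some (degree_eq_one_of_irreducible_of_root hF h1)
    rw [hdeg] at h2
    omega
  set G : ℚ[X] := fpol (α : ℚ) (fun i => (b i : ℚ)) with hG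
  have hGe : G.eval (x ^ (2 * k)) = y ^ 2 := hxy.symm
  have key : ∀ (K : Type) [Field K] [Algebra ℚ K],
      LocalImage k α b (C (x ^ (2 * k)) - X) K := by
    intro K _ _
    refine ⟨algebraMap ℚ K x, algebraMap ℚ K y, 1, ?_, ?_, ?_⟩
    · exact (map_ne_zero (algebraMap ℚ K)).mpr hy
    · have h1 := congrArg (algebraMap ℚ K) hxy
      rw [Transfer.eval_fpol] at h1 ⊢
      simp only [map_add, map_mul, map_pow, map_sum, map_intCast] at h1
      exact h1
    · simp
  refine ⟨C (x ^ (2 * k)) - X, ?_, fun p hp => key ℚ_[p], key ℝ⟩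
  obtain ⟨q, hq⟩ := X_sub_C_dvd_sub_C_eval (a := x ^ (2 * k)) (p := G)
  rw [hGe] at hq
  have hy2 : (C (y ^ 2)⁻¹ : ℚ[X]) * C (y ^ 2) = 1 := by
    rw [← C_mul, inv_mul_cancel₀ (pow_ne_zero 2 hy), C_1]
  refine ⟨C (y ^ 2)⁻¹ * q, C (y ^ 2)⁻¹, ?_⟩
  linear_combination (C (y ^ 2)⁻¹) * hq + hy2

end Stoll308.BG
end

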