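import Mathlib
import Pool.Agent.Work.BCM.C02
import Pool.Agent.Work.MP_2b9663_nt.Weil
import Pool.Agent.Work.MP_308fa9_nt.BF.Defs

section
set_option autoImplicit false

/-!
The curves `y² = f(ψ(x)²)` over `ℚ`, over the number fields of odd degree: definitions of the
statement.
-/

namespace Stoll308.SC

open Polynomial Stoll308.BF TensorProduct

/-- There is a point `(x, y)`, `y` invertible, of the curve over the ring `K ⊗ k` (for `K = ℚ_p`: the
product of the completions of the number field `k` at the places above `p`) such that `ψ(x)² - θ` is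
`δ` times a square in `(K ⊗ k)[θ] = (K ⊗ k)[T]/(f)`. -/
def LocImage {n : ℕ} (ψ : ℤ[X]) (a : Fin (n + 1) → ℤ) (k : Type) [Field k] [Algebra ℚ k] (δ : k[X])
    (K : Type) [Field K] [Algebra ℚ K] : Prop :=
  ∃ (x y : K ⊗[ℚ] k) (s : (K ⊗[ℚ] k)[X]), IsUnit y ∧
    y ^ 2 = (GZ (K ⊗[ℚ] k) a).eval ((aeval x ψ) ^ 2) ∧
    GZ (K ⊗[ℚ] k) a ∣ (C ((aeval x ψ) ^ 2) - X) -
      δ.map (Algebra.TensorProduct.includeRight : k →ₐ[ℚ] K ⊗[ℚ] k).toRingHom * s ^ 2

/-- The Selmer set of the curve over the number field `k` is nonempty: some `δ ∈ k[θ]ˣ`,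
`k[θ] = k[T]/(f)`, is in the image of the local points at all places of `k` over the odd primes. -/
def SelOver {n : ℕ} (ψ : ℤ[X]) (a : Fin (n + 1) → ℤ) (k : Type) [Field k] [Algebra ℚ k] : Prop :=
  ∃ δ : k[X], IsCoprime δ (GZ k a) ∧
    ∀ (p : ℕ) [Fact p.Prime], p ≠ 2 → LocImage ψ a k δ ℚ_[p]

end Stoll308.SC
end

section
set_option autoImplicit false

/-!
Working definitions of the full family.
-/

namespace Stoll308.BF

open Polynomial Finset Matrix BG

/-- The monic multiple of `f` over a field. -/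
noncomputable def mon (K : Type*) [Field K] {n : ℕ} (a : Fin (n + 1) → ℤ) : K[X] :=
  C ((a 0 : K)⁻¹) * GZ K a

/-- Local condition: a point `y² = f(x²)`, `y ≠ 0`, such that `x² - θ` is `δ` times a square. -/
def MLoc {n : ℕ} (a : Fin (n + 1) → ℤ) (δ : ℚ[X]) (K : Type*) [Field K] [Algebra ℚ K] : Prop :=
  ∃ (x y : K) (s : K[X]), y ≠ 0 ∧ y ^ 2 = (GZ K a).eval (x ^ 2) ∧
    GZ K a ∣ (C (x ^ 2) - X) - δ.map (algebraMap ℚ K) * s ^ 2

/-- The pair of integral matrices `(A, B)` is the pair of forms `τ(δ λ μ)`, `τ(θ δ λ μ)` in some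
basis, `τ(μ) = [θ^(n-1)](μ) / a₀`. -/
def IsPair {n : ℕ} (a : Fin (n + 1) → ℤ) (δ : ℚ[X]) (A B : Matrix (Fin n) (Fin n) ℤ) : Prop :=
  ∃ G : Matrix (Fin n) (Fin n) ℚ, G.det ≠ 0 ∧
    A.map (Int.cast : ℤ → ℚ) = (a 0 : ℚ)⁻¹ • (G * Hank n (mon ℚ a) δ * Gᵀ) ∧
    B.map (Int.cast : ℤ → ℚ) = (a 0 : ℚ)⁻¹ • (G * Hank n (mon ℚ a) (X * δ) * Gᵀ)

/-- The characteristic polynomial of the pair `(A, B)` is `± f`. -/
def HasChar {n : ℕ} (a : Fin (n + 1) → ℤ) (A B : Matrix (Fin n) (Fin n) ℤ) : Prop :=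
  ((X : ℤ[X]) • A.map C - B.map C).det = C ((-1) ^ (n / 2)) * GZ ℤ a

/-- The local condition at the prime `l` fails for the pair. -/
def Bad {n : ℕ} (l : ℕ) (A B : Matrix (Fin n) (Fin n) ℤ) : Prop :=
  (l : ℤ) ∣ B.det ∧ ¬ (l : ℤ) ^ 2 ∣ B.det ∧ ¬ (l : ℤ) ∣ (B.adjugate * A).trace ∧
    ∃ _h : Fact l.Prime, ∃ i, legendreSym l ((-1) ^ (n / 2 + 1) * B.adjugate i i) = -1

/-- A reduced pair: `K` is a constant, `H` the height, `t` the lengths of the basis. -/
structure RPair {n : ℕ} (K H : ℝ) (a : Fin (n + 1) → ℤ) (A B : Matrix (Fin n) (Fin n) ℤ)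
    (t : Fin n → ℝ) : Prop where
  symA : A.IsSymm
  symB : B.IsSymm
  char : HasChar a A B
  pos : ∀ i, 0 < t i
  hA : ∀ i j, |(A i j : ℝ)| ≤ t i * t j
  hB : ∀ i j, |(B i j : ℝ)| ≤ t i * t j
  mono : ∀ i j, i ≤ j → t i ≤ t j
  prod : (∏ i, t i) ^ 2 ≤ K * H
  prod' : ∀ i, |(a i : ℝ)| ≤ K * (∏ i, t i) ^ 2

end Stoll308.BF
end

section
set_option autoImplicit false

/-!
Points of `y² = α x^(6k) + b x^(4k) + c x^(2k) + d` modulo large primes.
-/

namespace Stoll308.BE

open Finset Polynomial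

/-- Squarefree part of a polynomial over a field. -/
lemma exists_squarefree_part {K : Type*} [Field K] (f : K[X]) (hf : f ≠ 0) :
    ∃ h s : K[X], Squarefree h ∧ f = h * s ^ 2 := by
  induction hn : f.natDegree using Nat.strong_induction_on generalizing f with
  | _ n ih =>
  by_cases hsq : Squarefree f
  · exact ⟨f, 1, hsq, by ring⟩
  · unfold Squarefree at hsq
    push Not at hsq
    obtain ⟨x, ⟨g, hg⟩, hx⟩ := hsq
    have hg0 : g ≠ 0 := by
      rintro rfl
      rw [mul_zero] at hg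
      exact hf hg
    have hx0 : x ≠ 0 := by
      rintro rfl
      rw [mul_zero, zero_mul] at hg
      exact hf hg
    have hdx : 0 < x.natDegree := by
      rw [Nat.pos_iff_ne_zero]
      intro h0
      apply hx
      rw [Polynomial.isUnit_iff_degree_eq_zero, degree_eq_natDegree hx0, h0]
      rfl
    have hd : g.natDegree < n := by
      rw [← hn, hg, natDegree_mul (mul_ne_zero hx0 hx0) hg0, natDegree_mul hx0 hx0]
      omega
    obtain ⟨h, s, hh, hs⟩ := ih _ hd g hg0 rfl
    exact ⟨h, x * s, hh, by rw [hg, hs]; ring⟩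

/-- If `s²` is supported on multiples of `m` (and `m ∣ 2 deg s`) then `s` is supported on the
indices congruent to `deg s` modulo `m`. -/
lemma supp_of_sq {K : Type*} [Field K] (h2 : (2 : K) ≠ 0) {s : K[X]} (hs0 : s ≠ 0) (m : ℕ)
    (hm : m ∣ 2 * s.natDegree) (hs : ∀ j, ¬ m ∣ j → (s ^ 2).coeff j = 0) :
    ∀ t, t ≤ s.natDegree → ¬ m ∣ t → s.coeff (s.natDegree - t) = 0 := by
  intro t
  induction t using Nat.strong_induction_on with
  | _ t ih =>
  intro htn hmt
  set n := s.natDegree with hn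
  have ht0 : t ≠ 0 := by
    rintro rfl
    exact hmt (dvd_zero m)
  have hnm : ¬ m ∣ 2 * n - t := by
    intro h
    apply hmt
    have h1 := Nat.dvd_sub hm h
    rwa [show 2 * n - (2 * n - t) = t by omega] at h1
  have h1 := hs _ hnm
  rw [sq, coeff_mul] at h1
  have h3 : ((n, n - t) : ℕ × ℕ) ≠ (n - t, n) := by
    intro h
    have := congrArg Prod.fst h
    simp only at this
    omega
  have h4 : ∑ x ∈ antidiagonal (2 * n - t), s.coeff x.1 * s.coeff x.2 =
      ∑ x ∈ ({(n, n - t), (n - t, n)} : Finset (ℕ × ℕ)), s.coeff x.1 * s.coeff x.2 := by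
    symm
    apply sum_subset
    · intro x hx
      rw [mem_insert, mem_singleton] at hx
      rw [HasAntidiagonal.mem_antidiagonal]
      rcases hx with rfl | rfl
      · simp only; omega
      · simp only; omega
    · intro x hx hx'
      rw [HasAntidiagonal.mem_antidiagonal] at hx
      rw [mem_insert, mem_singleton, not_or] at hx'
      obtain ⟨a, b⟩ := x
      simp only at hx ⊢
      by_cases ha : n < a
      · rw [coeff_eq_zero_of_natDegree_lt (n := a) (by rw [← hn]; exact ha), zero_mul]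
      by_cases hb : n < b
      · rw [coeff_eq_zero_of_natDegree_lt (n := b) (by rw [← hn]; exact hb), mul_zero]
      have hane : a ≠ n := by
        rintro rfl
        apply hx'.1
        have : b = n - t := by omega
        rw [this]
      have hbne : b ≠ n := by
        rintro rfl
        apply hx'.2
        have : a = n - t := by omega
        rw [this]
      have hsum : (n - a) + (n - b) = t := by omega
      by_cases hma : m ∣ n - a
      · have hmb : ¬ m ∣ n - b := by
          intro h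
          apply hmt
          rw [← hsum]
          exact dvd_add hma h
        have h5 := ih (n - b) (by omega) (by omega) hmb
        rw [show n - (n - b) = b by omega] at h5
        rw [h5, mul_zero]
      · have h5 := ih (n - a) (by omega) (by omega) hma
        rw [show n - (n - a) = a by omega] at h5
        rw [h5, zero_mul]
  rw [h4, sum_pair h3] at h1
  simp only at h1
  have h5 : s.coeff n ≠ 0 := by
    rw [hn]
    exact leadingCoeff_ne_zero.2 hs0
  have h6 : 2 * (s.coeff n * s.coeff (n - t)) = 0 := by linear_combination h1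
  rcases mul_eq_zero.1 h6 with h | h
  · exact absurd h h2
  · exact (mul_eq_zero.1 h).resolve_left h5

/-- The polynomial `α x^(6k) + b x^(4k) + c x^(2k) + d`. -/
noncomputable def pol (K : Type*) [Field K] (k : ℕ) (α b c d : K) : K[X] :=
  C α * X ^ (6 * k) + C b * X ^ (4 * k) + C c * X ^ (2 * k) + C d

section pol

variable {K : Type*} [Field K] {k : ℕ} {α b c d : K}

end pol

open Pool.Agent.Work.MP_2b9663_nt in
/-- A polynomial over `𝔽_p` (`p` large) which is not a nonsquare constant times a square takes a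
nonzero square value. -/
theorem exists_sq_value {p : ℕ} [hp : Fact p.Prime] (hp2 : p ≠ 2) (f : (ZMod p)[X]) (hf : f ≠ 0)
    (hbig : (f.natDegree + 2) ^ 2 ≤ p) (hns : ∀ e s, f ≠ C e * s ^ 2) :
    ∃ x y : ZMod p, y ≠ 0 ∧ y ^ 2 = f.eval x := by
  classical
  obtain ⟨h, s, hsf, hfs⟩ := exists_squarefree_part f hf
  have hp2' : ringChar (ZMod p) ≠ 2 := by
    rw [ZMod.ringChar_zmod_n]
    exact hp2
  have hh0 : h ≠ 0 := by
    rintro rfl
    rw [zero_mul] at hfs
    exact hf hfs
  have hs0 : s ≠ 0 := by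
    rintro rfl
    rw [zero_pow two_ne_zero, mul_zero] at hfs
    exact hf hfs
  have hd : 1 ≤ h.natDegree := by
    by_contra hcon
    have h1 : h.natDegree = 0 := by omega
    obtain ⟨e, he⟩ := natDegree_eq_zero.1 h1
    exact hns e s (by rw [hfs, he])
  have hdeg : f.natDegree = h.natDegree + 2 * s.natDegree := by
    rw [hfs, natDegree_mul hh0 (pow_ne_zero _ hs0), natDegree_pow]
  have hw := weil_bound hp2' hsf hd
  rw [ZMod.card] at hw
  by_contra hcon
  push Not at hcon
  -- the set of `x` with `h x` a nonzero square is in the zero set of `s`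
  have hA : ∀ x, quadraticChar (ZMod p) (h.eval x) = 1 → s.eval x = 0 := by
    intro x hx
    by_contra hsx
    have hhx : h.eval x ≠ 0 := by
      intro h0
      rw [h0] at hx
      simp at hx
    rw [quadraticChar_one_iff_isSquare hhx] at hx
    obtain ⟨r, hr⟩ := hx
    apply hcon x (r * s.eval x)
    · refine mul_ne_zero ?_ hsx
      rintro rfl
      rw [mul_zero] at hr
      exact hhx hr
    · rw [hfs, eval_mul, eval_pow, hr]; ring
  have hAc : (univ.filter fun x : ZMod p => quadraticChar (ZMod p) (h.eval x) = 1).card ≤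
      s.natDegree := by
    refine le_trans ?_ (card_roots' s)
    refine le_trans ?_ (Multiset.toFinset_card_le _)
    apply card_le_card
    intro x hx
    rw [mem_filter] at hx
    rw [Multiset.mem_toFinset, mem_roots hs0]
    exact hA x hx.2
  have hZc : (univ.filter fun x : ZMod p => h.eval x = 0).card ≤ h.natDegree := by
    refine le_trans ?_ (card_roots' h)
    refine le_trans ?_ (Multiset.toFinset_card_le _)
    apply card_le_card
    intro x hx
    rw [mem_filter] at hx
    rw [Multiset.mem_toFinset, mem_roots hh0]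
    exact hx.2
  have hsum : ∑ x : ZMod p, (1 + quadraticChar (ZMod p) (h.eval x)) =
      2 * ((univ.filter fun x : ZMod p => quadraticChar (ZMod p) (h.eval x) = 1).card : ℤ) +
        ((univ.filter fun x : ZMod p => h.eval x = 0).card : ℤ) := by
    rw [card_filter, card_filter]
    push_cast
    rw [mul_sum, ← sum_add_distrib]
    refine sum_congr rfl fun x _ => ?_
    by_cases h0 : h.eval x = 0
    · rw [h0]; simp
    · rw [if_neg h0]
      rcases quadraticChar_dichotomy h0 with h1 | h1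
      · rw [h1]; simp
      · rw [h1]; norm_num
  have hsum2 : ∑ x : ZMod p, (1 + quadraticChar (ZMod p) (h.eval x)) =
      (p : ℤ) + charSum (ZMod p) h := by
    rw [sum_add_distrib, charSum]
    simp
  have hmain : (p : ℤ) + charSum (ZMod p) h ≤ 2 * s.natDegree + h.natDegree := by
    rw [← hsum2, hsum]
    have h1 : ((univ.filter fun x : ZMod p => quadraticChar (ZMod p) (h.eval x) = 1).card : ℤ) ≤
      s.natDegree := by exact_mod_cast hAc
    have h2 : ((univ.filter fun x : ZMod p => h.eval x = 0).card : ℤ) ≤ h.natDegree := by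
      exact_mod_cast hZc
    linarith
  have hmainR : (p : ℝ) + (charSum (ZMod p) h : ℝ) ≤ 2 * s.natDegree + h.natDegree := by
    exact_mod_cast hmain
  have h4 : ((h.natDegree - 1 : ℕ) : ℝ) = h.natDegree - 1 := by
    rw [Nat.cast_sub hd]; push_cast; ring
  rw [h4] at hw
  have hw' := (abs_le.1 hw).1
  have h6 : ((f.natDegree : ℝ) + 2) ≤ Real.sqrt p := by
    apply Real.le_sqrt_of_sq_le
    exact_mod_cast hbig
  have h7 : Real.sqrt p * Real.sqrt p = p := Real.mul_self_sqrt (Nat.cast_nonneg p)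
  have h8 : (f.natDegree : ℝ) = h.natDegree + 2 * s.natDegree := by exact_mod_cast hdeg
  have h9 : (1 : ℝ) ≤ h.natDegree := by exact_mod_cast hd
  have h10 : (0 : ℝ) ≤ s.natDegree := Nat.cast_nonneg _
  rw [h8] at h6
  nlinarith [mul_nonneg h10 (Real.sqrt_nonneg p), Real.sqrt_nonneg (p : ℝ)]

end Stoll308.BE
end

section
set_option autoImplicit false

/-!
Irreducibility: no large zero blocks, no unitriangular automorphisms.
-/

namespace Stoll308.BF

open Polynomial Finset Matrix BG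

namespace Irr

theorem gpol_coeff {R : Type*} [CommRing R] {n : ℕ} (a : Fin (n + 1) → R) (i : Fin (n + 1)) :
    (gpol a).coeff (n - (i : ℕ)) = a i := by
  unfold gpol
  rw [finsetSum_coeff]
  simp only [coeff_C_mul, coeff_X_pow]
  rw [Finset.sum_eq_single i]
  · simp
  · intro b _ hb
    rw [if_neg]
    · simp
    · intro h
      apply hb
      apply Fin.ext
      have h1 := b.2
      have h2 := i.2
      omega
  · simp

theorem gpol_natDegree {R : Type*} [CommRing R] {n : ℕ} (a : Fin (n + 1) → R)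
    (h0 : a 0 ≠ 0) : (gpol a).natDegree = n := by
  refine le_antisymm ?_ ?_
  · unfold gpol
    refine natDegree_sum_le_of_forall_le _ _ (fun i _ => ?_)
    exact (natDegree_C_mul_X_pow_le _ _).trans (Nat.sub_le _ _)
  · apply le_natDegree_of_ne_zero
    have := gpol_coeff a 0
    rw [Fin.val_zero, Nat.sub_zero] at this
    rw [this]
    exact h0

theorem GZ_natDegree {n : ℕ} (a : Fin (n + 1) → ℤ) (h0 : a 0 ≠ 0) :
    (GZ ℚ a).natDegree = n :=
  gpol_natDegree _ (by exact_mod_cast h0)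

theorem det_eq {n : ℕ} {a : Fin (n + 1) → ℤ} {A B : Matrix (Fin n) (Fin n) ℤ}
    (h : HasChar a A B) : A.det = (-1) ^ (n / 2) * a 0 := by
  have h1 : ((X : ℤ[X]) • A.map C - B.map C).det.coeff n
      = (C ((-1) ^ (n / 2)) * GZ ℤ a).coeff n := by
    rw [h]
  have h2 : ((X : ℤ[X]) • A.map C - B.map C) = ((X : ℤ[X]) • A.map C + (-B).map C) := by
    ext i j
    simp [sub_eq_add_neg]
  rw [h2] at h1
  have h3 := Polynomial.coeff_det_X_add_C_card A (-B)
  rw [Fintype.card_fin] at h3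
  rw [h3, coeff_C_mul] at h1
  have h4 := gpol_coeff (fun i => (a i : ℤ)) 0
  rw [Fin.val_zero, Nat.sub_zero] at h4
  rw [h1]
  unfold GZ
  congr 1

theorem setup {n : ℕ} (a : Fin (n + 1) → ℤ) (ha : a 0 ≠ 0) (A B : Matrix (Fin n) (Fin n) ℤ)
    (h : HasChar a A B) :
    ∃ M : Matrix (Fin n) (Fin n) ℚ, A.map (Int.cast : ℤ → ℚ) * M = B.map (Int.cast : ℤ → ℚ) ∧
      IsUnit (A.map (Int.cast : ℤ → ℚ)) ∧ aeval M (GZ ℚ a) = 0 := by
  have h0 : A.det ≠ 0 := by
    rw [det_eq h]
    exact mul_ne_zero (pow_ne_zero _ (by norm_num)) ha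
  have h1 := h
  unfold HasChar at h1
  set A' : Matrix (Fin n) (Fin n) ℚ := A.map (Int.cast : ℤ → ℚ) with hA'
  set B' : Matrix (Fin n) (Fin n) ℚ := B.map (Int.cast : ℤ → ℚ) with hB'
  have hdet : A'.det = (A.det : ℚ) := by
    rw [hA']
    exact (RingHom.map_det (Int.castRingHom ℚ) A).symm
  have hdet0 : A'.det ≠ 0 := by
    rw [hdet]; exact_mod_cast h0
  have hu : IsUnit A'.det := isUnit_iff_ne_zero.2 hdet0
  refine ⟨A'⁻¹ * B', ?_, (Matrix.isUnit_iff_isUnit_det _).2 hu, ?_⟩
  · rw [← Matrix.mul_assoc, Matrix.mul_nonsing_inv _ hu, Matrix.one_mul]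
  · have hchar : C A'.det * (A'⁻¹ * B').charpoly = C ((-1) ^ (n / 2)) * GZ ℚ a := by
      have h2 := congrArg (Polynomial.map (Int.castRingHom ℚ)) h1
      rw [Polynomial.map_mul, Polynomial.map_C] at h2
      have h3 : Polynomial.map (Int.castRingHom ℚ) (GZ ℤ a) = GZ ℚ a := by
        simp [GZ, gpol, Polynomial.map_sum]
      rw [h3] at h2
      have h4 : Polynomial.map (Int.castRingHom ℚ) ((X : ℤ[X]) • A.map C - B.map C).det =
          ((X : ℚ[X]) • A'.map C - B'.map C).det := by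
        have := RingHom.map_det (Polynomial.mapRingHom (Int.castRingHom ℚ))
          ((X : ℤ[X]) • A.map C - B.map C)
        rw [Polynomial.coe_mapRingHom] at this
        rw [this]
        congr 1
        ext i j
        simp [hA', hB']
      rw [h4] at h2
      have h5 : (X : ℚ[X]) • A'.map C - B'.map C =
          (A'.map C) * charmatrix (A'⁻¹ * B') := by
        rw [charmatrix, Matrix.mul_sub]
        congr 1
        · rw [Matrix.scalar_apply, ← Matrix.smul_one_eq_diagonal, Matrix.mul_smul, Matrix.mul_one]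
        · have : (A' * (A'⁻¹ * B')).map (C : ℚ → ℚ[X]) = B'.map C := by
            rw [← Matrix.mul_assoc, Matrix.mul_nonsing_inv _ hu, Matrix.one_mul]
          rw [← this]
          exact Matrix.map_mul (f := (C : ℚ →+* ℚ[X]))
      rw [h5, Matrix.det_mul] at h2
      have h6 : (A'.map (C : ℚ → ℚ[X])).det = C A'.det :=
        (RingHom.map_det (C : ℚ →+* ℚ[X]) A').symm
      rw [h6] at h2
      rw [Matrix.charpoly, h2]
      simp
    have h8 := Matrix.aeval_self_charpoly (A'⁻¹ * B')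
    have h9 : aeval (A'⁻¹ * B') (C ((-1 : ℚ) ^ (n / 2)) * GZ ℚ a) = 0 := by
      rw [← hchar, map_mul, h8, mul_zero]
    have h10 : aeval (A'⁻¹ * B') (C ((-1 : ℚ) ^ (n / 2)) * (C ((-1) ^ (n / 2)) * GZ ℚ a)) = 0 := by
      rw [map_mul, h9, mul_zero]
    rwa [← mul_assoc, ← C_mul, ← mul_pow, neg_one_mul, neg_neg, one_pow, C_1, one_mul] at h10

end Irr

lemma HasChar.inj {n : ℕ} {a a' : Fin (n + 1) → ℤ} {A B : Matrix (Fin n) (Fin n) ℤ}
    (h : HasChar a A B) (h' : HasChar a' A B) : a = a' := by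
  unfold HasChar at h h'
  rw [h] at h'
  have h1 : GZ ℤ a = GZ ℤ a' := by
    refine mul_left_cancel₀ ?_ h'
    rw [Ne, C_eq_zero]
    exact pow_ne_zero _ (by norm_num)
  funext i
  have h2 := Irr.gpol_coeff (fun i => ((a i : ℤ) : ℤ)) i
  have h3 := Irr.gpol_coeff (fun i => ((a' i : ℤ) : ℤ)) i
  have h4 : (GZ ℤ a).coeff (n - (i : ℕ)) = (GZ ℤ a').coeff (n - (i : ℕ)) := by rw [h1]
  exact (h2.symm.trans h4).trans h3

theorem block_ne {n : ℕ} (a : Fin (n + 1) → ℤ) (h0 : a 0 ≠ 0) (hF : Irreducible (GZ ℚ a))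
    (A B : Matrix (Fin n) (Fin n) ℤ) (h : HasChar a A B) (r : ℕ) (h1 : 1 ≤ r) (h2 : r < n) :
    ∃ i j : Fin n, (i : ℕ) < r ∧ (j : ℕ) < n - r ∧ (A i j ≠ 0 ∨ B i j ≠ 0) := by
  by_contra hcon
  push Not at hcon
  obtain ⟨M, hAM, hA, hM⟩ := Irr.setup a h0 A B h
  set A' : Matrix (Fin n) (Fin n) ℚ := A.map (Int.cast : ℤ → ℚ) with hA'
  set B' : Matrix (Fin n) (Fin n) ℚ := B.map (Int.cast : ℤ → ℚ) with hB'
  set J : Set (Fin n) := {j | n - r ≤ (j : ℕ)} with hJ
  set I : Set (Fin n) := {i | (i : ℕ) < r} with hI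
  set S : Submodule ℚ (Fin n → ℚ) := BG.Irr.Van J with hS
  set U : Submodule ℚ (Fin n → ℚ) := BG.Irr.Van I with hU
  have hinj : Function.Injective A'.mulVecLin := by
    rw [Matrix.coe_mulVecLin]
    exact Matrix.mulVec_injective_iff_isUnit.2 hA
  have hzero : ∀ (P : Matrix (Fin n) (Fin n) ℚ), (∀ i j : Fin n, (i : ℕ) < r → (j : ℕ) < n - r →
      P i j = 0) → ∀ v ∈ S, P *ᵥ v ∈ U := by
    intro P hP v hv
    rw [hU, BG.Irr.mem_Van]
    intro i hi
    rw [Matrix.mulVec, dotProduct]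
    refine Finset.sum_eq_zero (fun j _ => ?_)
    by_cases hj : (j : ℕ) < n - r
    · rw [hP i j hi hj, zero_mul]
    · rw [hS, BG.Irr.mem_Van] at hv
      rw [hv j (not_lt.1 hj), mul_zero]
  have hAS : ∀ v ∈ S, A' *ᵥ v ∈ U := hzero A' (fun i j hi hj => by
    rw [hA', Matrix.map_apply, (hcon i j hi hj).1, Int.cast_zero])
  have hBS : ∀ v ∈ S, B' *ᵥ v ∈ U := hzero B' (fun i j hi hj => by
    rw [hB', Matrix.map_apply, (hcon i j hi hj).2, Int.cast_zero])
  have hmap : S.map A'.mulVecLin = U := by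
    refine Submodule.eq_of_le_of_finrank_eq ?_ ?_
    · rintro _ ⟨v, hv, rfl⟩
      exact hAS v hv
    · rw [← (Submodule.equivMapOfInjective A'.mulVecLin hinj S).finrank_eq, hS, hU,
        BG.Irr.finrank_Van, BG.Irr.finrank_Van]
      have e1 : Fintype.card {j : Fin n // j ∉ J} = n - r := by
        rw [Fintype.card_congr (Equiv.subtypeEquivRight (q := fun j : Fin n => (j : ℕ) < n - r)
          (fun j => by
            rw [hJ, Set.mem_ofPred_eq]
            exact not_le))]
        rw [Fintype.card_subtype, Fin.card_filter_val_lt]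
        omega
      have e2 : Fintype.card {i : Fin n // i ∉ I} = n - r := by
        have h3 := Fintype.card_subtype_compl (fun i : Fin n => (i : ℕ) < r)
        have h4 : Fintype.card {i : Fin n // (i : ℕ) < r} = r := by
          rw [Fintype.card_subtype, Fin.card_filter_val_lt]; omega
        rw [Fintype.card_fin, h4] at h3
        exact h3
      rw [e1, e2]
  have hSinv : ∀ v ∈ S, M *ᵥ v ∈ S := by
    intro v hv
    have h3 : A' *ᵥ (M *ᵥ v) ∈ S.map A'.mulVecLin := by
      rw [hmap, Matrix.mulVec_mulVec, hAM]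
      exact hBS v hv
    obtain ⟨u, hu, hu2⟩ := h3
    have : u = M *ᵥ v := hinj hu2
    rwa [← this]
  have hn : 0 < n := by omega
  have hw : (Pi.single (⟨0, hn⟩ : Fin n) (1 : ℚ)) ∈ S := by
    rw [hS, BG.Irr.mem_Van]
    intro j hj
    rw [Pi.single_apply, if_neg]
    intro h3
    rw [hJ, Set.mem_ofPred_eq, h3] at hj
    simp only at hj
    omega
  have htop := BG.Irr.invariant M hF (Irr.GZ_natDegree a h0) hM S hSinv hw (by simp)
  have h5 : (Pi.single (⟨n - 1, by omega⟩ : Fin n) (1 : ℚ)) ∈ S := by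
    rw [htop]; exact Submodule.mem_top
  rw [hS, BG.Irr.mem_Van] at h5
  have h6 := h5 ⟨n - 1, by omega⟩ (by rw [hJ, Set.mem_ofPred_eq]; simp only; omega)
  rw [Pi.single_eq_same] at h6
  exact one_ne_zero h6

theorem stab {n : ℕ} (a : Fin (n + 1) → ℤ) (h0 : a 0 ≠ 0) (hF : Irreducible (GZ ℚ a))
    (A B W : Matrix (Fin n) (Fin n) ℤ) (h : HasChar a A B) (hW1 : ∀ i, W i i = 1)
    (hW2 : ∀ i j, i < j → W i j = 0) (hA : W * A * Wᵀ = A) (hB : W * B * Wᵀ = B) : W = 1 := by
  rcases Nat.eq_zero_or_pos n with hn | hn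
  · subst hn
    exact Subsingleton.elim _ _
  obtain ⟨M, hAM, hAu, hM⟩ := Irr.setup a h0 A B h
  set A' : Matrix (Fin n) (Fin n) ℚ := A.map (Int.cast : ℤ → ℚ) with hA'
  set B' : Matrix (Fin n) (Fin n) ℚ := B.map (Int.cast : ℤ → ℚ) with hB'
  set W' : Matrix (Fin n) (Fin n) ℚ := W.map (Int.cast : ℤ → ℚ) with hW'
  have cast_mul : ∀ P Q : Matrix (Fin n) (Fin n) ℤ, (P * Q).map (Int.cast : ℤ → ℚ) =
      P.map (Int.cast : ℤ → ℚ) * Q.map (Int.cast : ℤ → ℚ) := by
    intro P Q
    exact Matrix.map_mul (f := Int.castRingHom ℚ)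
  have hA2 : W' * A' * W'ᵀ = A' := by
    have := congrArg (fun P : Matrix (Fin n) (Fin n) ℤ => P.map (Int.cast : ℤ → ℚ)) hA
    simp only [cast_mul] at this
    exact this
  have hB2 : W' * B' * W'ᵀ = B' := by
    have := congrArg (fun P : Matrix (Fin n) (Fin n) ℤ => P.map (Int.cast : ℤ → ℚ)) hB
    simp only [cast_mul] at this
    exact this
  have hWu : IsUnit W' := by
    have h1 : IsUnit (W' * A' * W'ᵀ) := by rw [hA2]; exact hAu
    rw [Matrix.isUnit_iff_isUnit_det] at h1 ⊢
    rw [Matrix.det_mul, Matrix.det_mul] at h1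
    exact isUnit_of_mul_isUnit_left (isUnit_of_mul_isUnit_left h1)
  have hcomm : W'ᵀ * M = M * W'ᵀ := by
    have h1 : W' * (A' * (W'ᵀ * M)) = W' * (A' * (M * W'ᵀ)) := by
      rw [← Matrix.mul_assoc A' M, hAM, ← Matrix.mul_assoc A', ← Matrix.mul_assoc W',
        ← Matrix.mul_assoc W' A', hA2, hAM, ← Matrix.mul_assoc, hB2]
    exact hAu.mul_left_cancel (hWu.mul_left_cancel h1)
  let S : Submodule ℚ (Fin n → ℚ) := LinearMap.ker (W'ᵀ.mulVecLin - LinearMap.id)
  have hSmem : ∀ v, v ∈ S ↔ W'ᵀ *ᵥ v = v := by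
    intro v
    simp only [S, LinearMap.mem_ker, LinearMap.sub_apply, Matrix.mulVecLin_apply,
      LinearMap.id_coe, id_eq, sub_eq_zero]
  have hSinv : ∀ v ∈ S, M *ᵥ v ∈ S := by
    intro v hv
    rw [hSmem] at hv ⊢
    rw [Matrix.mulVec_mulVec, hcomm, ← Matrix.mulVec_mulVec, hv]
  have hw : (Pi.single (⟨0, hn⟩ : Fin n) (1 : ℚ)) ∈ S := by
    rw [hSmem, Matrix.mulVec_single_one]
    ext i
    rw [Matrix.col_apply, Matrix.transpose_apply, hW', Matrix.map_apply, Pi.single_apply]
    by_cases hi : i = ⟨0, hn⟩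
    · rw [if_pos hi, hi, hW1, Int.cast_one]
    · rw [if_neg hi, hW2, Int.cast_zero]
      rw [Fin.lt_def]
      have : (i : ℕ) ≠ 0 := fun h0 => hi (Fin.ext h0)
      simp only
      omega
  have htop := BG.Irr.invariant M hF (Irr.GZ_natDegree a h0) hM S hSinv hw (by simp)
  have hW3 : W'ᵀ = 1 := by
    ext i j
    have h1 : (Pi.single j (1 : ℚ) : Fin n → ℚ) ∈ S := by rw [htop]; exact Submodule.mem_top
    rw [hSmem, Matrix.mulVec_single_one] at h1
    have h2 := congrFun h1 i
    rw [Matrix.col_apply] at h2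
    rw [h2, Matrix.one_apply, Pi.single_apply]
  ext i j
  have h1 := congrFun (congrFun hW3 j) i
  rw [Matrix.transpose_apply, hW', Matrix.map_apply, Matrix.one_apply] at h1
  rw [Matrix.one_apply]
  by_cases hij : i = j
  · rw [if_pos hij]
    rw [if_pos hij.symm] at h1
    exact_mod_cast h1
  · rw [if_neg hij]
    rw [if_neg (fun h => hij h.symm)] at h1
    exact_mod_cast h1

end Stoll308.BF
end

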