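import Mathlib
import Pool.Agent.Work.BCM.C02
import Pool.Agent.Work.BCM.C03

section
set_option autoImplicit false

/-!
Points of a box in the complement of sets of residue classes for coprime moduli.
-/

namespace Stoll308.BE

open Finset

/-- an interval of length `D` has at most `D / M + 1` elements in a residue class modulo `M`. -/
lemma card_class (a : ℤ) (D M : ℕ) (hM : 0 < M) (v : ℤ) :
    (((Ico a (a + D)).filter fun x => x ≡ v [ZMOD (M : ℤ)]).card : ℝ) ≤ ((D : ℝ) + M) / M := by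
  have h := Int.Ico_filter_modEq_card a (a + D) (r := (M : ℤ)) (by exact_mod_cast hM) v
  have hM' : (0 : ℚ) < M := by exact_mod_cast hM
  have h1 : ((⌈(((a + D : ℤ) : ℚ) - v) / ((M : ℤ) : ℚ)⌉ - ⌈((a : ℚ) - v) / ((M : ℤ) : ℚ)⌉ : ℤ) : ℚ)
      ≤ ((D : ℚ) + M) / M := by
    have h2 := Int.ceil_lt_add_one ((((a + D : ℤ) : ℚ) - v) / ((M : ℤ) : ℚ))
    have h3 := Int.le_ceil (((a : ℚ) - v) / ((M : ℤ) : ℚ))
    push_cast at h2 h3 ⊢
    have h4 : ((D : ℚ) + M) / M = ((a : ℚ) + D - v) / M - ((a : ℚ) - v) / M + 1 := by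
      field_simp; ring
    rw [h4]
    linarith
  have h5 : ((((Ico a (a + D)).filter fun x => x ≡ v [ZMOD (M : ℤ)]).card : ℤ) : ℚ) ≤
      ((D : ℚ) + M) / M := by
    rw [h]
    push_cast
    refine max_le ?_ (by positivity)
    push_cast at h1
    exact h1
  have h6 : ((((Ico a (a + D)).filter fun x => x ≡ v [ZMOD (M : ℤ)]).card : ℚ)) ≤
      ((D : ℚ) + M) / M := by exact_mod_cast h5
  have h7 : (((((Ico a (a + D)).filter fun x => x ≡ v [ZMOD (M : ℤ)]).card : ℚ) : ℝ)) ≤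
      ((((D : ℚ) + M) / M : ℚ) : ℝ) := by exact_mod_cast h6
  push_cast at h7
  exact h7

open Classical in
theorem sieve_box {n : ℕ} (S : Finset ℕ) (m : ℕ → ℕ) (hm : ∀ l ∈ S, 0 < m l)
    (hcop : ∀ l ∈ S, ∀ l' ∈ S, l ≠ l' → Nat.Coprime (m l) (m l'))
    (A : ℕ → (Fin n → ℤ) → Prop)
    (hper : ∀ l ∈ S, ∀ t t' : Fin n → ℤ, (∀ i, (m l : ℤ) ∣ t i - t' i) → (A l t ↔ A l t'))
    (β : ℕ → ℝ) (hβ1 : ∀ l ∈ S, β l ≤ 1)
    (hβ : ∀ l ∈ S, β l * (m l : ℝ) ^ n ≤ ((univ.filter fun t : Fin n → Fin (m l) =>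
      A l (fun i => ((t i : ℕ) : ℤ))).card : ℝ))
    (a : Fin n → ℤ) (D : Fin n → ℕ) :
    (((Fintype.piFinset fun i => Ico (a i) (a i + D i)).filter
      fun t => ∀ l ∈ S, ¬ A l t).card : ℝ) ≤
      (∏ i, ((D i : ℝ) + ∏ l ∈ S, (m l : ℝ))) * ∏ l ∈ S, (1 - β l) := by
  set M : ℕ := ∏ l ∈ S, m l with hM
  have hM0 : 0 < M := Finset.prod_pos hm
  have hMR : (∏ l ∈ S, (m l : ℝ)) = (M : ℝ) := by rw [hM]; push_cast; rfl
  have hdvd : ∀ l ∈ S, m l ∣ M := fun l hl => Finset.dvd_prod_of_mem _ hl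
  -- good residues modulo `M`
  set G : Finset (Fin n → Fin M) := univ.filter fun r =>
    ∀ l ∈ S, ¬ A l (fun i => ((r i : ℕ) : ℤ)) with hG
  set g : (l : ℕ) → Finset (Fin n → Fin (m l)) := fun l => univ.filter fun t =>
    ¬ A l (fun i => ((t i : ℕ) : ℤ)) with hg
  have hGc : G.card ≤ ∏ l ∈ S, (g l).card := by
    rw [← Finset.card_pi]
    refine Finset.card_le_card_of_injOn
      (fun r l hl i => ⟨(r i : ℕ) % m l, Nat.mod_lt _ (hm l hl)⟩) ?_ ?_
    · intro r hr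
      rw [mem_coe, hG, mem_filter] at hr
      rw [mem_coe, Finset.mem_pi]
      intro l hl
      rw [hg, mem_filter]
      refine ⟨mem_univ _, fun hA => hr.2 l hl ?_⟩
      refine (hper l hl _ _ ?_).1 hA
      intro i
      simp only
      push_cast
      have : ((r i : ℕ) : ℤ) % (m l : ℤ) - ((r i : ℕ) : ℤ) =
          (m l : ℤ) * -(((r i : ℕ) : ℤ) / (m l : ℤ)) := by
        have := Int.emod_add_mul_ediv ((r i : ℕ) : ℤ) (m l : ℤ)
        linarith
      rw [this]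
      exact Dvd.intro _ rfl
    · intro r _ r' _ hrr
      funext i
      have hcong : ∀ l ∈ S, (r i : ℕ) % m l = (r' i : ℕ) % m l := by
        intro l hl
        have h1 := congrFun (congrFun (congrFun hrr l) hl) i
        exact congrArg Fin.val h1
      have hMZ : ((M : ℕ) : ℤ) = ∏ l ∈ S, (m l : ℤ) := by rw [hM]; push_cast; rfl
      have h2 : ((M : ℕ) : ℤ) ∣ ((r i : ℕ) : ℤ) - ((r' i : ℕ) : ℤ) := by
        rw [hMZ]
        refine Finset.prod_dvd_of_coprime ?_ ?_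
        · intro l hl l' hl' hne
          exact Nat.isCoprime_iff_coprime.2 (hcop l hl l' hl' hne)
        · intro l hl
          have := (Nat.modEq_iff_dvd.1 (show (r' i : ℕ) ≡ (r i : ℕ) [MOD m l] from
            (hcong l hl).symm))
          exact this
      have h3 : (r' i : ℕ) ≡ (r i : ℕ) [MOD M] := Nat.modEq_iff_dvd.2 h2
      have h4 : (r' i : ℕ) = (r i : ℕ) := by
        have h5 : (r' i : ℕ) % M = (r i : ℕ) % M := h3
        rwa [Nat.mod_eq_of_lt (r' i).2, Nat.mod_eq_of_lt (r i).2] at h5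
      exact Fin.ext h4.symm
  have hgc : ∀ l ∈ S, ((g l).card : ℝ) ≤ (m l : ℝ) ^ n * (1 - β l) := by
    intro l hl
    have h1 := Finset.card_filter_add_card_filter_not
      (s := (univ : Finset (Fin n → Fin (m l)))) (fun t => A l (fun i => ((t i : ℕ) : ℤ)))
    have h2 : (univ : Finset (Fin n → Fin (m l))).card = m l ^ n := by
      rw [Finset.card_univ, Fintype.card_fun, Fintype.card_fin, Fintype.card_fin]
    rw [h2] at h1
    have h3 : (((univ.filter fun t : Fin n → Fin (m l) =>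
      A l (fun i => ((t i : ℕ) : ℤ))).card : ℝ)) + ((g l).card : ℝ) = (m l : ℝ) ^ n := by
      exact_mod_cast h1
    have h4 := hβ l hl
    linarith
  have hGR : (G.card : ℝ) ≤ (M : ℝ) ^ n * ∏ l ∈ S, (1 - β l) := by
    calc (G.card : ℝ) ≤ ∏ l ∈ S, ((g l).card : ℝ) := by exact_mod_cast hGc
      _ ≤ ∏ l ∈ S, ((m l : ℝ) ^ n * (1 - β l)) :=
          Finset.prod_le_prod (fun l _ => by positivity) hgc
      _ = (M : ℝ) ^ n * ∏ l ∈ S, (1 - β l) := by
          rw [Finset.prod_mul_distrib, Finset.prod_pow, hMR]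
  -- the map to residues
  have hres : ∀ x : ℤ, (x % (M : ℤ)).toNat < M := by
    intro x
    have h1 := Int.emod_nonneg x (b := (M : ℤ)) (by exact_mod_cast hM0.ne')
    have h2 := Int.emod_lt_of_pos x (b := (M : ℤ)) (by exact_mod_cast hM0)
    omega
  set res : (Fin n → ℤ) → (Fin n → Fin M) := fun t i => ⟨(t i % (M : ℤ)).toNat, hres (t i)⟩
    with hresdef
  have hresv : ∀ t i, (((res t i : ℕ)) : ℤ) = t i % (M : ℤ) := by
    intro t i
    simp only [hresdef]
    exact Int.toNat_of_nonneg (Int.emod_nonneg _ (by exact_mod_cast hM0.ne'))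
  set B := (Fintype.piFinset fun i => Ico (a i) (a i + D i)).filter
      fun t => ∀ l ∈ S, ¬ A l t with hB
  have hmaps : ∀ t ∈ B, res t ∈ G := by
    intro t ht
    rw [hB, mem_filter] at ht
    rw [hG, mem_filter]
    refine ⟨mem_univ _, fun l hl hA => ht.2 l hl ((hper l hl _ _ ?_).1 hA)⟩
    intro i
    simp only [hresv]
    have h1 : t i % (M : ℤ) - t i = (M : ℤ) * -(t i / (M : ℤ)) := by
      have := Int.emod_add_mul_ediv (t i) (M : ℤ)
      linarith
    rw [h1]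
    exact ((Int.natCast_dvd_natCast.2 (hdvd l hl)).mul_right _)
  have hfib : ∀ r ∈ G, (((B.filter fun t => res t = r).card : ℕ) : ℝ) ≤
      ∏ i, (((D i : ℝ) + M) / M) := by
    intro r _
    have hsub : B.filter (fun t => res t = r) ⊆
        Fintype.piFinset fun i => (Ico (a i) (a i + D i)).filter
          fun x => x ≡ ((r i : ℕ) : ℤ) [ZMOD (M : ℤ)] := by
      intro t ht
      rw [mem_filter, hB, mem_filter, Fintype.mem_piFinset] at ht
      rw [Fintype.mem_piFinset]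
      intro i
      rw [mem_filter]
      refine ⟨ht.1.1 i, ?_⟩
      have h1 : res t i = r i := congrFun ht.2 i
      rw [← h1, hresv]
      exact (Int.mod_modEq _ _).symm
    have h2 := Finset.card_le_card hsub
    rw [Fintype.card_piFinset] at h2
    calc (((B.filter fun t => res t = r).card : ℕ) : ℝ)
        ≤ ∏ i, ((((Ico (a i) (a i + D i)).filter
          fun x => x ≡ ((r i : ℕ) : ℤ) [ZMOD (M : ℤ)]).card : ℕ) : ℝ) := by exact_mod_cast h2
      _ ≤ _ := Finset.prod_le_prod (fun i _ => by positivity)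
          (fun i _ => card_class (a i) (D i) M hM0 _)
  have hcard : (B.card : ℝ) ≤ G.card * ∏ i, (((D i : ℝ) + M) / M) := by
    rw [Finset.card_eq_sum_card_fiberwise (f := res) (t := G) (fun t ht => hmaps t ht)]
    push_cast
    calc ∑ r ∈ G, ((B.filter fun t => res t = r).card : ℝ)
        ≤ ∑ r ∈ G, ∏ i, (((D i : ℝ) + M) / M) := Finset.sum_le_sum hfib
      _ = _ := by rw [Finset.sum_const, nsmul_eq_mul]
  have hMpos : (0 : ℝ) < M := by exact_mod_cast hM0
  have hprod : (M : ℝ) ^ n * ∏ i, (((D i : ℝ) + M) / M) = ∏ i, ((D i : ℝ) + M) := by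
    rw [Finset.prod_div_distrib, Finset.prod_const, Finset.card_univ, Fintype.card_fin]
    field_simp
  rw [hMR]
  calc (B.card : ℝ) ≤ G.card * ∏ i, (((D i : ℝ) + M) / M) := hcard
    _ ≤ ((M : ℝ) ^ n * ∏ l ∈ S, (1 - β l)) * ∏ i, (((D i : ℝ) + M) / M) :=
        mul_le_mul_of_nonneg_right hGR (Finset.prod_nonneg fun i _ => by positivity)
    _ = ((M : ℝ) ^ n * ∏ i, (((D i : ℝ) + M) / M)) * ∏ l ∈ S, (1 - β l) := by ring
    _ = _ := by rw [hprod]

end Stoll308.BE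
end

section
set_option autoImplicit false

/-!
The local lattice.
-/

namespace Stoll308.BG

open Polynomial Finset Matrix

namespace LocLat

section gram

variable {K : Type*} [CommRing K] {n : ℕ}

/-- The polynomial with the coefficients in row `i` of `G`. -/
noncomputable def rowP (G : Matrix (Fin n) (Fin n) K) (i : Fin n) : K[X] :=
  ∑ k : Fin n, C (G i k) * X ^ (k : ℕ)

/-- The functional `μ ↦ [θ^(n-1)] μ`. -/
noncomputable def tau (n : ℕ) (F : K[X]) : K[X] →ₗ[K] K :=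
  (lcoeff K (n - 1)).comp (modByMonicHom F)

lemma tau_apply (F μ : K[X]) : tau n F μ = (μ %ₘ F).coeff (n - 1) := rfl

lemma gram (F μ : K[X]) (G : Matrix (Fin n) (Fin n) K) (i j : Fin n) :
    (G * Hank n F μ * Gᵀ) i j = tau n F (μ * rowP G i * rowP G j) := by
  have h1 : μ * rowP G i * rowP G j =
      ∑ l : Fin n, ∑ k : Fin n, (G i k * G j l) • (μ * X ^ ((k : ℕ) + l)) := by
    unfold rowP
    rw [Finset.mul_sum]
    refine Finset.sum_congr rfl fun l _ => ?_
    rw [Finset.mul_sum, Finset.sum_mul]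
    refine Finset.sum_congr rfl fun k _ => ?_
    rw [smul_eq_C_mul, C_mul, pow_add]
    ring
  rw [h1, map_sum, Matrix.mul_apply]
  refine Finset.sum_congr rfl fun l _ => ?_
  rw [map_sum, Matrix.mul_apply, Finset.sum_mul]
  refine Finset.sum_congr rfl fun k _ => ?_
  rw [map_smul, smul_eq_mul, tau_apply, Matrix.transpose_apply]
  unfold Hank
  ring

end gram

section padic

variable {p : ℕ} [Fact p.Prime]

/-- Polynomials with integral coefficients. -/
def IntP (a : ℚ_[p][X]) : Prop := ∃ b : ℤ_[p][X], b.map (algebraMap ℤ_[p] ℚ_[p]) = a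

lemma IntP.mul {a b : ℚ_[p][X]} (ha : IntP a) (hb : IntP b) : IntP (a * b) := by
  obtain ⟨a', rfl⟩ := ha
  obtain ⟨b', rfl⟩ := hb
  exact ⟨a' * b', Polynomial.map_mul _⟩

lemma IntP.sub {a b : ℚ_[p][X]} (ha : IntP a) (hb : IntP b) : IntP (a - b) := by
  obtain ⟨a', rfl⟩ := ha
  obtain ⟨b', rfl⟩ := hb
  exact ⟨a' - b', Polynomial.map_sub _⟩

lemma intP_X_pow (m : ℕ) : IntP (X ^ m : ℚ_[p][X]) := ⟨X ^ m, by simp⟩

lemma intP_X : IntP (X : ℚ_[p][X]) := ⟨X, by simp⟩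

lemma intP_C {a : ℚ_[p]} (ha : ‖a‖ ≤ 1) : IntP (C a) := by
  obtain ⟨a', rfl⟩ : ∃ a' : ℤ_[p], (a' : ℚ_[p]) = a := ⟨⟨a, ha⟩, rfl⟩
  exact ⟨C a', by rw [map_C]; rfl⟩

lemma tau_le {n : ℕ} (c : Fin n → ℤ) {a : ℚ_[p][X]} (ha : IntP a) :
    ‖tau n (FZ ℚ_[p] c) a‖ ≤ 1 := by
  obtain ⟨b, rfl⟩ := ha
  rw [tau_apply, ← FZ_map (algebraMap ℤ_[p] ℚ_[p]) c, ← Polynomial.map_modByMonic _ (FZ_monic c),
    coeff_map]
  exact PadicInt.norm_le_one _

/-- Scalar matrices. -/
lemma tau_scalar {n : ℕ} (F μ : ℚ_[p][X]) (ρ : ℚ_[p]) (i j : Fin n) :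
    ((ρ • (1 : Matrix (Fin n) (Fin n) ℚ_[p])) * Hank n F μ *
      (ρ • (1 : Matrix (Fin n) (Fin n) ℚ_[p]))ᵀ) i j =
      tau n F (C (ρ ^ 2) * μ * X ^ ((i : ℕ) + j)) := by
  have h1 : (C (ρ ^ 2) * μ * X ^ ((i : ℕ) + j) : ℚ_[p][X]) = ρ ^ 2 • (μ * X ^ ((i : ℕ) + j)) := by
    rw [smul_eq_C_mul, mul_assoc]
  rw [h1, map_smul, tau_apply]
  simp only [Matrix.transpose_smul, Matrix.transpose_one, Matrix.smul_mul, Matrix.mul_smul,
    Matrix.one_mul, Matrix.mul_one, Matrix.smul_apply, smul_eq_mul]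
  unfold Hank
  ring

lemma norm_int_le (m : ℤ) : ‖(m : ℚ_[p])‖ ≤ 1 := Padic.norm_int_le_one m

/-- `F(ξ)` has the absolute value `|ξ|^n` if `|ξ| > 1`. -/
lemma norm_eval {n : ℕ} (hn : 1 ≤ n) (c : Fin n → ℤ) (ξ : ℚ_[p]) (hξ : 1 < ‖ξ‖) :
    ‖(FZ ℚ_[p] c).eval ξ‖ = ‖ξ‖ ^ n := by
  have h0 : (0 : ℝ) ≤ ‖ξ‖ := norm_nonneg _
  have h1 : (FZ ℚ_[p] c).eval ξ = ξ ^ n + ∑ i : Fin n, (c i : ℚ_[p]) * ξ ^ (n - 1 - (i : ℕ)) := by
    simp [FZ, fpol, eval_finsetSum]
  have h2 : ‖∑ i : Fin n, (c i : ℚ_[p]) * ξ ^ (n - 1 - (i : ℕ))‖ ≤ ‖ξ‖ ^ (n - 1) := by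
    refine IsUltrametricDist.norm_sum_le_of_forall_le_of_nonneg (by positivity) fun i _ => ?_
    rw [norm_mul, norm_pow]
    calc ‖(c i : ℚ_[p])‖ * ‖ξ‖ ^ (n - 1 - (i : ℕ)) ≤ 1 * ‖ξ‖ ^ (n - 1) :=
          mul_le_mul (norm_int_le _) (pow_le_pow_right₀ hξ.le (by omega)) (by positivity)
            (by norm_num)
      _ = ‖ξ‖ ^ (n - 1) := one_mul _
  have h3 : ‖ξ‖ ^ (n - 1) < ‖ξ ^ n‖ := by
    rw [norm_pow]
    exact pow_lt_pow_right₀ hξ (by omega)
  rw [h1, IsUltrametricDist.norm_add_eq_max_of_norm_ne_norm (lt_of_le_of_lt h2 h3).ne', norm_pow,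
    max_eq_left]
  rw [← norm_pow]
  exact (lt_of_le_of_lt h2 h3).le

/-- The quotient of `F - F(ξ)` by `T - ξ`. -/
lemma exists_quot {n : ℕ} (hn : 1 ≤ n) (c : Fin n → ℤ) (ξ : ℤ_[p]) :
    ∃ g : ℤ_[p][X], g.Monic ∧ g.natDegree = n - 1 ∧
      (C ξ - X) * g = C ((FZ ℤ_[p] c).eval ξ) - FZ ℤ_[p] c := by
  have h1 := modByMonic_add_div (FZ ℤ_[p] c) (X - C ξ)
  rw [modByMonic_X_sub_C_eq_C_eval] at h1
  set g := FZ ℤ_[p] c /ₘ (X - C ξ) with hg
  have h2 : g.natDegree = n - 1 := by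
    rw [hg, natDegree_divByMonic _ (monic_X_sub_C ξ), FZ_natDegree, natDegree_X_sub_C]
  refine ⟨g, ?_, h2, by linear_combination -h1⟩
  have h3 : (X - C ξ) * g = FZ ℤ_[p] c - C ((FZ ℤ_[p] c).eval ξ) := by
    linear_combination h1
  refine (monic_X_sub_C ξ).of_mul_monic_left ?_
  rw [h3]
  refine (FZ_monic c).sub_of_left ?_
  refine degree_C_le.trans_lt ?_
  rw [degree_eq_natDegree (FZ_monic c).ne_zero, FZ_natDegree]
  exact_mod_cast (by omega : 0 < n)

lemma tau_sub_mul {n : ℕ} (c : Fin n → ℤ) (a q : ℚ_[p][X]) :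
    tau n (FZ ℚ_[p] c) (a - FZ ℚ_[p] c * q) = tau n (FZ ℚ_[p] c) a := by
  rw [map_sub, tau_apply _ (FZ ℚ_[p] c * q),
    (modByMonic_eq_zero_iff_dvd (FZ_monic c)).mpr (dvd_mul_right _ _), coeff_zero, sub_zero]

lemma core {n : ℕ} (hn : 2 ≤ n) (κ : ℤ) (hκ : κ ≠ 0) (c : Fin n → ℤ) (x y : ℚ_[p]) (hy : y ≠ 0)
    (hxy : (κ : ℚ_[p]) ^ (n - 1) * y ^ 2 = (FZ ℚ_[p] c).eval (κ * x ^ 2)) :
    ∃ G : Matrix (Fin n) (Fin n) ℚ_[p], G.det ≠ 0 ∧
      (∀ i j, ‖(G * Hank n (FZ ℚ_[p] c) (C (κ * x ^ 2) - X) * Gᵀ) i j‖ ≤ 1) ∧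
      (∀ i j, ‖(G * Hank n (FZ ℚ_[p] c) (X * (C (κ * x ^ 2) - X)) * Gᵀ) i j‖ ≤ 1) ∧
      ‖((κ : ℚ_[p]) ^ (n - 1))‖ ≤
        ‖(G * Hank n (FZ ℚ_[p] c) (C (κ * x ^ 2) - X) * Gᵀ).det‖ := by
  have hκ' : (κ : ℚ_[p]) ≠ 0 := by exact_mod_cast hκ
  have hκ0 : 0 < ‖(κ : ℚ_[p])‖ := norm_pos_iff.mpr hκ'
  have hy0 : 0 < ‖y‖ := norm_pos_iff.mpr hy
  have hdet : (Hank n (FZ ℚ_[p] c) (C (κ * x ^ 2) - X)).det =
      (-1) ^ (n * (n - 1) / 2) * ((κ : ℚ_[p]) ^ (n - 1) * y ^ 2) := by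
    rw [hank_lin_det _ (FZ_monic c) (FZ_natDegree c), hxy]
  set ξ : ℚ_[p] := κ * x ^ 2 with hξd
  have hnd : ‖(Hank n (FZ ℚ_[p] c) (C ξ - X)).det‖ = ‖(κ : ℚ_[p]) ^ (n - 1)‖ * ‖y‖ ^ 2 := by
    rw [hdet, norm_mul, norm_mul, norm_pow (-1 : ℚ_[p]), norm_neg, norm_one, one_pow, one_mul,
      norm_pow y]
  rcases le_or_gt ‖ξ‖ 1 with hξ | hξ
  · rcases le_or_gt 1 ‖y‖ with hy1 | hy1
    · -- standard basis
      refine ⟨(1 : ℚ_[p]) • 1, by simp, fun i j => ?_, fun i j => ?_, ?_⟩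
      · rw [tau_scalar]
        exact tau_le c (((intP_C (by simp)).mul ((intP_C hξ).sub intP_X)).mul (intP_X_pow _))
      · rw [tau_scalar]
        exact tau_le c (((intP_C (by simp)).mul (intP_X.mul ((intP_C hξ).sub intP_X))).mul
          (intP_X_pow _))
      · simp only [one_smul, Matrix.transpose_one, Matrix.one_mul, Matrix.mul_one]
        rw [hnd]
        exact le_mul_of_one_le_right (norm_nonneg _) (one_le_pow₀ hy1)
    · -- the basis `1, θ, ..., θ^(n-2), g(θ)/y`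
      obtain ⟨ξ', hξ'⟩ : ∃ a : ℤ_[p], algebraMap ℤ_[p] ℚ_[p] a = ξ := ⟨⟨ξ, hξ⟩, rfl⟩
      obtain ⟨g', hg1, hg2, hg3⟩ := exists_quot (by omega : 1 ≤ n) c ξ'
      set g : ℚ_[p][X] := g'.map (algebraMap ℤ_[p] ℚ_[p]) with hgd
      have hgi : IntP g := ⟨g', rfl⟩
      have hgm : g.Monic := hg1.map _
      have hgn : g.natDegree = n - 1 := by rw [hgd, hg1.natDegree_map, hg2]
      have hgF : (C ξ - X) * g =
          C ((κ : ℚ_[p]) ^ (n - 1) * y ^ 2) - FZ ℚ_[p] c := by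
        have h1 := congrArg (Polynomial.map (algebraMap ℤ_[p] ℚ_[p])) hg3
        rw [Polynomial.map_mul, Polynomial.map_sub, Polynomial.map_sub, map_C, map_C, map_X,
          FZ_map, ← hgd, hξ'] at h1
        have h2 : algebraMap ℤ_[p] ℚ_[p] ((FZ ℤ_[p] c).eval ξ') =
            (κ : ℚ_[p]) ^ (n - 1) * y ^ 2 := by
          rw [← eval_map_apply, FZ_map, hξ', ← hxy]
        rw [h2] at h1
        exact h1
      set β : ℚ_[p] := (κ : ℚ_[p]) ^ (n - 1) with hβ
      have hβi : ‖β‖ ≤ 1 := by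
        rw [hβ, norm_pow]
        exact pow_le_one₀ (norm_nonneg _) (norm_int_le _)
      have hβy : ‖β * y‖ ≤ 1 := by
        rw [norm_mul]
        exact mul_le_one₀ hβi (norm_nonneg _) hy1.le
      have hyy : (C y⁻¹ : ℚ_[p][X]) * C y = 1 := by
        rw [← C_mul, inv_mul_cancel₀ hy, C_1]
      set G : Matrix (Fin n) (Fin n) ℚ_[p] := fun i j =>
        if (i : ℕ) < n - 1 then (if i = j then 1 else 0) else y⁻¹ * g.coeff j with hG
      have hr1 : ∀ i : Fin n, (i : ℕ) < n - 1 → rowP G i = X ^ (i : ℕ) := by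
        intro i hi
        unfold rowP
        rw [Finset.sum_eq_single i]
        · simp [hG, hi]
        · intro b _ hb
          simp [hG, hi, hb.symm]
        · simp
      have hr2 : ∀ i : Fin n, ¬ (i : ℕ) < n - 1 → rowP G i = C y⁻¹ * g := by
        intro i hi
        unfold rowP
        have h1 : g = ∑ k : Fin n, C (g.coeff k) * X ^ (k : ℕ) := by
          conv_lhs => rw [g.as_sum_range_C_mul_X_pow' (show g.natDegree < n by omega)]
          exact (Fin.sum_univ_eq_sum_range (fun k => C (g.coeff k) * X ^ k) n).symm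
        conv_rhs => rw [h1]
        rw [Finset.mul_sum]
        refine Finset.sum_congr rfl fun k _ => ?_
        simp only [hG, if_neg hi, C_mul]
        ring
      have hGdet : G.det = y⁻¹ := by
        have hlt : n - 1 < n := by omega
        have htri : G.BlockTriangular OrderDual.toDual := by
          intro i j hij
          have hij' : i < j := hij
          have hij2 : (i : ℕ) < j := hij'
          have hj := j.isLt
          have hi : (i : ℕ) < n - 1 := by omega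
          simp only [hG, if_pos hi, if_neg hij'.ne]
        rw [Matrix.det_of_isLowerTriangular G htri,
          Finset.prod_eq_single (⟨n - 1, hlt⟩ : Fin n)]
        · simp only [hG, lt_irrefl, if_false]
          have h1 : g.coeff (n - 1) = 1 := by
            rw [← hgn]
            exact hgm.coeff_natDegree
          rw [h1, mul_one]
        · intro i _ hi
          have hi2 := i.isLt
          have hi3 : (i : ℕ) ≠ n - 1 := fun h => hi (Fin.ext h)
          have hi4 : (i : ℕ) < n - 1 := by omega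
          simp only [hG, if_pos hi4, if_true]
        · simp
      refine ⟨G, by rw [hGdet]; exact inv_ne_zero hy, fun i j => ?_, fun i j => ?_, ?_⟩
      · rw [gram]
        by_cases hi : (i : ℕ) < n - 1 <;> by_cases hj : (j : ℕ) < n - 1
        · rw [hr1 i hi, hr1 j hj]
          exact tau_le c ((((intP_C hξ).sub intP_X).mul (intP_X_pow _)).mul (intP_X_pow _))
        · rw [hr1 i hi, hr2 j hj]
          have h1 : (C ξ - X) * X ^ (i : ℕ) * (C y⁻¹ * g) =
              C (β * y) * X ^ (i : ℕ) - FZ ℚ_[p] c * (C y⁻¹ * X ^ (i : ℕ)) := by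
            simp only [C_mul, C_pow] at hgF ⊢
            linear_combination (X ^ (i : ℕ) * C y⁻¹) * hgF + C β * C y * X ^ (i : ℕ) * hyy
          rw [h1, tau_sub_mul]
          exact tau_le c ((intP_C hβy).mul (intP_X_pow _))
        · rw [hr2 i hi, hr1 j hj]
          have h1 : (C ξ - X) * (C y⁻¹ * g) * X ^ (j : ℕ) =
              C (β * y) * X ^ (j : ℕ) - FZ ℚ_[p] c * (C y⁻¹ * X ^ (j : ℕ)) := by
            simp only [C_mul, C_pow] at hgF ⊢
            linear_combination (X ^ (j : ℕ) * C y⁻¹) * hgF + C β * C y * X ^ (j : ℕ) * hyy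
          rw [h1, tau_sub_mul]
          exact tau_le c ((intP_C hβy).mul (intP_X_pow _))
        · rw [hr2 i hi, hr2 j hj]
          have h1 : (C ξ - X) * (C y⁻¹ * g) * (C y⁻¹ * g) =
              C β * g - FZ ℚ_[p] c * (C y⁻¹ ^ 2 * g) := by
            simp only [C_mul, C_pow] at hgF ⊢
            linear_combination (g * C y⁻¹ ^ 2) * hgF +
              C β * g * (C y⁻¹ * C y + 1) * hyy
          rw [h1, tau_sub_mul]
          exact tau_le c ((intP_C hβi).mul hgi)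
      · rw [gram]
        by_cases hi : (i : ℕ) < n - 1 <;> by_cases hj : (j : ℕ) < n - 1
        · rw [hr1 i hi, hr1 j hj]
          exact tau_le c ((((intP_X).mul ((intP_C hξ).sub intP_X)).mul (intP_X_pow _)).mul
            (intP_X_pow _))
        · rw [hr1 i hi, hr2 j hj]
          have h1 : X * (C ξ - X) * X ^ (i : ℕ) * (C y⁻¹ * g) =
              C (β * y) * X ^ ((i : ℕ) + 1) - FZ ℚ_[p] c * (C y⁻¹ * X ^ ((i : ℕ) + 1)) := by
            simp only [C_mul, C_pow] at hgF ⊢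
            linear_combination (X ^ ((i : ℕ) + 1) * C y⁻¹) * hgF +
              C β * C y * X ^ ((i : ℕ) + 1) * hyy
          rw [h1, tau_sub_mul]
          exact tau_le c ((intP_C hβy).mul (intP_X_pow _))
        · rw [hr2 i hi, hr1 j hj]
          have h1 : X * (C ξ - X) * (C y⁻¹ * g) * X ^ (j : ℕ) =
              C (β * y) * X ^ ((j : ℕ) + 1) - FZ ℚ_[p] c * (C y⁻¹ * X ^ ((j : ℕ) + 1)) := by
            simp only [C_mul, C_pow] at hgF ⊢
            linear_combination (X ^ ((j : ℕ) + 1) * C y⁻¹) * hgF +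
              C β * C y * X ^ ((j : ℕ) + 1) * hyy
          rw [h1, tau_sub_mul]
          exact tau_le c ((intP_C hβy).mul (intP_X_pow _))
        · rw [hr2 i hi, hr2 j hj]
          have h1 : X * (C ξ - X) * (C y⁻¹ * g) * (C y⁻¹ * g) =
              C β * (X * g) - FZ ℚ_[p] c * (X * (C y⁻¹ ^ 2 * g)) := by
            simp only [C_mul, C_pow] at hgF ⊢
            linear_combination (X * g * C y⁻¹ ^ 2) * hgF +
              C β * X * g * (C y⁻¹ * C y + 1) * hyy
          rw [h1, tau_sub_mul]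
          exact tau_le c ((intP_C hβi).mul (intP_X.mul hgi))
      · rw [Matrix.det_mul, Matrix.det_mul, Matrix.det_transpose, hGdet, norm_mul, norm_mul, hnd,
          norm_inv]
        have : ‖y‖⁻¹ * (‖β‖ * ‖y‖ ^ 2) * ‖y‖⁻¹ = ‖β‖ := by
          field_simp
        rw [this]
  · -- `ξ` is not integral
    have hx : x ≠ 0 := by
      rintro rfl
      rw [hξd] at hξ
      norm_num at hξ
    have hx0 : 0 < ‖x‖ := norm_pos_iff.mpr hx
    have hn1 := norm_eval (by omega : 1 ≤ n) c ξ hξ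
    rw [← hxy, norm_mul, norm_pow, norm_pow y] at hn1
    have hξn : ‖ξ‖ = ‖(κ : ℚ_[p])‖ * ‖x‖ ^ 2 := by rw [hξd, norm_mul, norm_pow x]
    set a := ‖(κ : ℚ_[p])‖ with ha
    set X0 := ‖x‖ with hX0
    set Y0 := ‖y‖ with hY0
    -- `a = Y0² / X0^(2n)`
    have h1 : a * X0 ^ (2 * n) = Y0 ^ 2 := by
      rw [hξn, mul_pow, ← pow_mul] at hn1
      obtain ⟨m, rfl⟩ : ∃ m, n = m + 1 := ⟨n - 1, by omega⟩
      rw [Nat.add_sub_cancel] at hn1
      have h2 : a ^ m ≠ 0 := (pow_pos hκ0 m).ne'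
      have h3 : a ^ m * Y0 ^ 2 = a ^ m * (a * X0 ^ (2 * (m + 1))) := by
        rw [hn1, pow_succ a m]
        ring
      exact (mul_left_cancel₀ h2 h3).symm
    set ρ : ℚ_[p] := x ^ n / (y * x) with hρ
    have hρ0 : ρ ≠ 0 := div_ne_zero (pow_ne_zero _ hx) (mul_ne_zero hy hx)
    have h4 : ‖ρ‖ ^ 2 * ‖ξ‖ = 1 := by
      rw [hρ, norm_div, norm_mul, norm_pow, hξn, ← hX0, ← hY0, div_pow, mul_pow, ← pow_mul]
      rw [div_mul_eq_mul_div, div_eq_one_iff_eq (by positivity)]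
      rw [← h1, mul_comm n 2]
      ring
    have h5 : ‖ρ ^ 2 * ξ‖ ≤ 1 := by
      rw [norm_mul, norm_pow, h4]
    have h6 : ‖ρ ^ 2‖ ≤ 1 := by
      rw [norm_pow]
      nlinarith [sq_nonneg ‖ρ‖]
    have hC : (C (ρ ^ 2 * ξ) : ℚ_[p][X]) = C (ρ ^ 2) * C ξ := C_mul
    refine ⟨ρ • 1, ?_, fun i j => ?_, fun i j => ?_, ?_⟩
    · rw [Matrix.det_smul, Matrix.det_one, mul_one]
      exact pow_ne_zero _ hρ0
    · rw [tau_scalar]
      have h7 : C (ρ ^ 2) * (C ξ - X) * X ^ ((i : ℕ) + j) =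
          (C (ρ ^ 2 * ξ) - C (ρ ^ 2) * X) * X ^ ((i : ℕ) + j) := by
        rw [hC]
        ring
      rw [h7]
      exact tau_le c (((intP_C h5).sub ((intP_C h6).mul intP_X)).mul (intP_X_pow _))
    · rw [tau_scalar]
      have h7 : C (ρ ^ 2) * (X * (C ξ - X)) * X ^ ((i : ℕ) + j) =
          (C (ρ ^ 2 * ξ) - C (ρ ^ 2) * X) * X * X ^ ((i : ℕ) + j) := by
        rw [hC]
        ring
      rw [h7]
      exact tau_le c ((((intP_C h5).sub ((intP_C h6).mul intP_X)).mul intP_X).mul (intP_X_pow _))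
    · have h8 : ‖((ρ • (1 : Matrix (Fin n) (Fin n) ℚ_[p])) * Hank n (FZ ℚ_[p] c) (C ξ - X) *
          (ρ • (1 : Matrix (Fin n) (Fin n) ℚ_[p]))ᵀ).det‖ = 1 := by
        rw [Matrix.det_mul, Matrix.det_mul, Matrix.det_transpose, Matrix.det_smul, Matrix.det_one,
          mul_one, Fintype.card_fin, norm_mul, norm_mul, hnd, norm_pow, norm_pow, ← ha]
        have h9 : ‖ρ‖ ^ n * (a ^ (n - 1) * Y0 ^ 2) * ‖ρ‖ ^ n = (‖ρ‖ ^ 2 * ‖ξ‖) ^ n := by
          rw [hn1, mul_pow, ← pow_mul]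
          ring
        rw [h9, h4, one_pow]
      rw [h8, norm_pow]
      exact pow_le_one₀ (norm_nonneg _) (norm_int_le _)

end padic

end LocLat

theorem loc_lattice {n : ℕ} (hn : 2 ≤ n) (κ : ℤ) (hκ : κ ≠ 0) (c : Fin n → ℤ) (δ : ℚ[X])
    (p : ℕ) [Fact p.Prime] (h : MLoc κ c δ ℚ_[p]) :
    ∃ G : Matrix (Fin n) (Fin n) ℚ_[p], G.det ≠ 0 ∧
      (∀ i j, ‖(G * Hank n (FZ ℚ_[p] c) (δ.map (algebraMap ℚ ℚ_[p])) * Gᵀ) i j‖ ≤ 1) ∧
      (∀ i j, ‖(G * Hank n (FZ ℚ_[p] c) (X * δ.map (algebraMap ℚ ℚ_[p])) * Gᵀ) i j‖ ≤ 1) ∧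
      ‖((κ : ℚ_[p]) ^ (n - 1))‖ ≤
        ‖(G * Hank n (FZ ℚ_[p] c) (δ.map (algebraMap ℚ ℚ_[p])) * Gᵀ).det‖ := by
  obtain ⟨x, y, s, hy, hxy, hs⟩ := h
  have hκ' : (κ : ℚ_[p]) ≠ 0 := by exact_mod_cast hκ
  have hFm : (FZ ℚ_[p] c).Monic := FZ_monic c
  have hFn : (FZ ℚ_[p] c).natDegree = n := FZ_natDegree c
  set D : ℚ_[p][X] := δ.map (algebraMap ℚ ℚ_[p]) with hD
  obtain ⟨G, h1, h2, h3, h4⟩ := LocLat.core hn κ hκ c x y hy hxy
  have hsF : IsCoprime s (FZ ℚ_[p] c) := by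
    have h0 : (FZ ℚ_[p] c).eval (κ * x ^ 2) ≠ 0 := by
      rw [← hxy]
      exact mul_ne_zero (pow_ne_zero _ hκ') (pow_ne_zero _ hy)
    obtain ⟨q, hq⟩ := X_sub_C_dvd_sub_C_eval (a := (κ : ℚ_[p]) * x ^ 2) (p := FZ ℚ_[p] c)
    obtain ⟨t, ht⟩ := hs
    set e := (FZ ℚ_[p] c).eval (κ * x ^ 2) with he
    have hee : (C e⁻¹ : ℚ_[p][X]) * C e = 1 := by
      rw [← C_mul, inv_mul_cancel₀ h0, C_1]
    refine ⟨C e⁻¹ * q * D * s, C e⁻¹ * (1 + q * t), ?_⟩
    linear_combination (C e⁻¹) * hq - C e⁻¹ * q * ht + hee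
  have hsdet := mulMat_det_ne_zero (n := n) _ s hFm hFn hsF
  have e1 : Hank n (FZ ℚ_[p] c) (C (κ * x ^ 2) - X) =
      mulMat n (FZ ℚ_[p] c) s * Hank n (FZ ℚ_[p] c) D * (mulMat n (FZ ℚ_[p] c) s)ᵀ := by
    rw [← hank_mul_sq _ _ _ hFm hFn]
    exact hank_congr _ _ _ hFm hs
  have e2 : Hank n (FZ ℚ_[p] c) (X * (C (κ * x ^ 2) - X)) =
      mulMat n (FZ ℚ_[p] c) s * Hank n (FZ ℚ_[p] c) (X * D) * (mulMat n (FZ ℚ_[p] c) s)ᵀ := by
    rw [← hank_mul_sq _ _ _ hFm hFn]
    refine hank_congr _ _ _ hFm ?_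
    have : X * (C (κ * x ^ 2) - X) - X * D * s ^ 2 = X * ((C (κ * x ^ 2) - X) - D * s ^ 2) := by
      ring
    rw [this]
    exact hs.mul_left X
  have e3 : ∀ H : Matrix (Fin n) (Fin n) ℚ_[p],
      G * mulMat n (FZ ℚ_[p] c) s * H * (G * mulMat n (FZ ℚ_[p] c) s)ᵀ =
        G * (mulMat n (FZ ℚ_[p] c) s * H * (mulMat n (FZ ℚ_[p] c) s)ᵀ) * Gᵀ := by
    intro H
    rw [Matrix.transpose_mul]
    simp only [Matrix.mul_assoc]
  refine ⟨G * mulMat n (FZ ℚ_[p] c) s, ?_, ?_, ?_, ?_⟩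
  · rw [Matrix.det_mul]
    exact mul_ne_zero h1 hsdet
  · rw [e3, ← e1]
    exact h2
  · rw [e3, ← e2]
    exact h3
  · rw [e3, ← e1]
    exact h4

end Stoll308.BG
end

section
set_option autoImplicit false

/-!
Few of the polynomials are reducible.
-/

namespace Stoll308.BF

open Polynomial Finset BG

namespace ReduIrr

/-- counting a property which implies membership in a finite set -/
lemma cnt_le (n : ℕ) (P : (Fin (n + 1) → ℤ) → Prop) (H : ℕ) (Q : Finset (Fin (n + 1) → ℤ))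
    (h : ∀ a : Fin (n + 1) → ℤ, (∀ i, -(H : ℤ) ≤ a i ∧ a i ≤ H) → P a → a ∈ Q) :
    cnt n P H ≤ Q.card := by
  classical
  unfold cnt
  apply Finset.card_le_card
  intro a ha
  rw [Finset.mem_filter, Fintype.mem_piFinset] at ha
  exact h a (fun i => Finset.mem_Icc.1 (ha.1 i)) ha.2

lemma gpol_coeff {R : Type*} [CommRing R] {n : ℕ} (a : Fin (n + 1) → R) :
    (gpol a).coeff n = a 0 := by
  unfold gpol
  rw [finsetSum_coeff, Finset.sum_eq_single 0]
  · simp
  · intro j _ hj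
    rw [coeff_C_mul, coeff_X_pow, if_neg, mul_zero]
    intro h
    apply hj
    ext
    simp only [Fin.val_zero]
    have := j.2
    omega
  · intro h
    exact absurd (mem_univ _) h

lemma gpol_natDegree_le {R : Type*} [CommRing R] {n : ℕ} (a : Fin (n + 1) → R) :
    (gpol a).natDegree ≤ n := by
  unfold gpol
  refine natDegree_sum_le_of_forall_le _ _ fun i _ => ?_
  exact (natDegree_C_mul_X_pow_le _ _).trans (Nat.sub_le _ _)

lemma gpol_natDegree {R : Type*} [CommRing R] {n : ℕ} (a : Fin (n + 1) → R) (h : a 0 ≠ 0) :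
    (gpol a).natDegree = n := by
  refine le_antisymm (gpol_natDegree_le a) ?_
  apply le_natDegree_of_ne_zero
  rw [gpol_coeff]
  exact h

lemma map_GZ {R : Type*} [CommRing R] {n : ℕ} (a : Fin (n + 1) → ℤ) :
    (GZ ℤ a).map (Int.castRingHom R) = GZ R a := by
  simp [GZ, gpol, Polynomial.map_sum]

/-- Irreducibility modulo a prime. -/
lemma irr_of_mod {n : ℕ} (hn : 1 ≤ n) (a : Fin (n + 1) → ℤ) (l : ℕ) [Fact l.Prime]
    (h0 : ((a 0 : ℤ) : ZMod l) ≠ 0) (h : Irreducible (GZ (ZMod l) a)) :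
    Irreducible (GZ ℚ a) := by
  have ha0 : a 0 ≠ 0 := by
    intro h1
    rw [h1] at h0
    simp at h0
  obtain ⟨f, hf⟩ : ∃ f : ℤ[X], f = GZ ℤ a := ⟨_, rfl⟩
  have hdeg : f.natDegree = n := by
    rw [hf]
    exact gpol_natDegree _ (by simpa using ha0)
  have hf0 : f ≠ 0 := by
    intro h1
    rw [h1, natDegree_zero] at hdeg
    omega
  have hmod : f.map (Int.castRingHom (ZMod l)) = GZ (ZMod l) a := by rw [hf, map_GZ]
  have hrat : f.map (Int.castRingHom ℚ) = GZ ℚ a := by rw [hf, map_GZ]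
  have hdegl : (f.map (Int.castRingHom (ZMod l))).natDegree = n := by
    rw [hmod]
    exact gpol_natDegree _ h0
  rw [← hmod] at h
  have hcp := f.eq_C_content_mul_primPart
  have hprim := f.isPrimitive_primPart
  have hc0 : f.content ≠ 0 := by rw [Ne, content_eq_zero_iff]; exact hf0
  have hpdeg : f.primPart.natDegree = n := by rw [natDegree_primPart, hdeg]
  -- a factorization over the integers
  have key : ∀ u v : ℤ[X], f.primPart = u * v → IsUnit (v.map (Int.castRingHom (ZMod l))) →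
      IsUnit v := by
    intro u v huv hv
    have hv0 : (v.map (Int.castRingHom (ZMod l))).natDegree = 0 := natDegree_eq_zero_of_isUnit hv
    have hu0 : u ≠ 0 := by
      rintro rfl
      rw [zero_mul] at huv
      rw [huv, natDegree_zero] at hpdeg
      omega
    have hvne : v ≠ 0 := by
      rintro rfl
      rw [mul_zero] at huv
      rw [huv, natDegree_zero] at hpdeg
      omega
    have h1 : f.map (Int.castRingHom (ZMod l)) = C ((Int.castRingHom (ZMod l)) f.content) *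
        (u.map (Int.castRingHom (ZMod l)) * v.map (Int.castRingHom (ZMod l))) := by
      conv_lhs => rw [hcp]
      rw [Polynomial.map_mul, map_C, huv, Polynomial.map_mul]
    have h2 : n ≤ (u.map (Int.castRingHom (ZMod l))).natDegree := by
      rw [← hdegl, h1]
      refine (natDegree_C_mul_le _ _).trans (natDegree_mul_le.trans ?_)
      rw [hv0, add_zero]
    have h3 : u.natDegree + v.natDegree = n := by
      rw [← natDegree_mul hu0 hvne, ← huv, hpdeg]
    have h4 : (u.map (Int.castRingHom (ZMod l))).natDegree ≤ u.natDegree := natDegree_map_le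
    have h5 : v.natDegree = 0 := by omega
    obtain ⟨k, hk⟩ := natDegree_eq_zero.1 h5
    have h6 : C k ∣ f.primPart := ⟨u, by rw [huv, ← hk]; ring⟩
    have h7 := hprim k h6
    rw [← hk]
    exact isUnit_C.2 h7
  have hpirr : Irreducible f.primPart := by
    refine ⟨fun hu => ?_, fun u v huv => ?_⟩
    · have := natDegree_eq_zero_of_isUnit hu
      omega
    · have h1 : f.map (Int.castRingHom (ZMod l)) =
          (C ((Int.castRingHom (ZMod l)) f.content) * u.map (Int.castRingHom (ZMod l))) *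
            v.map (Int.castRingHom (ZMod l)) := by
        conv_lhs => rw [hcp]
        rw [Polynomial.map_mul, map_C, huv, Polynomial.map_mul, mul_assoc]
      rcases h.isUnit_or_isUnit h1 with h2 | h2
      · left
        exact key v u (by rw [huv, mul_comm]) (isUnit_of_mul_isUnit_right h2)
      · right
        exact key u v huv h2
  have h8 := (IsPrimitive.Int.irreducible_iff_irreducible_map_cast hprim).1 hpirr
  rw [← hrat, hcp, Polynomial.map_mul, map_C, irreducible_isUnit_mul]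
  · exact h8
  · rw [isUnit_C]
    apply IsUnit.mk0
    simpa using hc0

/-- The proportion of the irreducible polynomials modulo `l`. -/
lemma dens (l : ℕ) [Fact l.Prime] (n : ℕ) (hn : 2 ≤ n) (hl : n ^ 2 ≤ l)
    [DecidablePred fun a : Fin (n + 1) → ZMod l => a 0 ≠ 0 ∧ Irreducible (gpol a)] :
    l ^ (n + 1) ≤ 4 * n *
      (univ.filter fun a : Fin (n + 1) → ZMod l => a 0 ≠ 0 ∧ Irreducible (gpol a)).card := by
  classical
  have hlp : l.Prime := Fact.out
  have h1 := IrrDens.irr_count l n hn hl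
  have h2 : ((univ.filter fun c : ZMod l => c ≠ 0) ×ˢ
      (univ.filter fun b : Fin n → ZMod l => Irreducible (fpol 1 b))).card ≤
      (univ.filter fun a : Fin (n + 1) → ZMod l => a 0 ≠ 0 ∧ Irreducible (gpol a)).card := by
    refine Finset.card_le_card_of_injOn
      (fun x : ZMod l × (Fin n → ZMod l) => (Fin.cons x.1 fun i => x.1 * x.2 i :
        Fin (n + 1) → ZMod l)) ?_ ?_
    · rintro ⟨c, b⟩ hx
      rw [mem_coe, mem_product, mem_filter, mem_filter] at hx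
      obtain ⟨⟨-, hc⟩, -, hb⟩ := hx
      rw [mem_coe, mem_filter]
      refine ⟨mem_univ _, by simpa using hc, ?_⟩
      have h3 : gpol (Fin.cons c fun i => c * b i : Fin (n + 1) → ZMod l) = C c * fpol 1 b := by
        unfold gpol fpol
        rw [Fin.sum_univ_succ, Fin.cons_zero, C_1, one_mul, mul_add, Finset.mul_sum]
        congr 1
        refine Finset.sum_congr rfl fun i _ => ?_
        rw [Fin.cons_succ, Fin.val_succ, C_mul, mul_assoc]
        congr 3
        omega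
      simp only
      rw [h3, irreducible_isUnit_mul (isUnit_C.2 (IsUnit.mk0 c hc))]
      exact hb
    · rintro ⟨c, b⟩ hx ⟨c', b'⟩ _ he
      rw [mem_coe, mem_product, mem_filter, mem_filter] at hx
      obtain ⟨⟨-, hc⟩, -⟩ := hx
      simp only at he hc
      have h3 := congrFun he 0
      simp only [Fin.cons_zero] at h3
      subst h3
      rw [Prod.mk.injEq]
      refine ⟨rfl, ?_⟩
      funext i
      have h4 := congrFun he i.succ
      simp only [Fin.cons_succ] at h4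
      exact mul_left_cancel₀ hc h4
  rw [Finset.card_product] at h2
  have h3 : (univ.filter fun c : ZMod l => c ≠ 0).card = l - 1 := by
    rw [Finset.filter_ne' univ (0 : ZMod l), Finset.card_erase_of_mem (mem_univ _),
      Finset.card_univ, ZMod.card]
  rw [h3] at h2
  have h4 : l ≤ 2 * (l - 1) := by have := hlp.two_le; omega
  obtain ⟨I, hI⟩ : ∃ I : ℕ, I = (univ.filter fun b : Fin n → ZMod l =>
    Irreducible (fpol 1 b)).card := ⟨_, rfl⟩
  rw [← hI] at h1 h2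
  calc l ^ (n + 1) = l ^ n * l := pow_succ l n
    _ ≤ (2 * n * I) * (2 * (l - 1)) := Nat.mul_le_mul h1 h4
    _ = 4 * n * ((l - 1) * I) := by ring
    _ ≤ _ := Nat.mul_le_mul_left _ h2

end ReduIrr

open ReduIrr in
theorem irr_small (n : ℕ) (hn : 2 ≤ n) (ε : ℝ) (hε : 0 < ε) :
    ∃ H₀ : ℕ, ∀ H : ℕ, H₀ ≤ H →
      (cnt n (fun a => a 0 ≠ 0 ∧ ¬ Irreducible (GZ ℚ a)) H : ℝ) ≤ ε * H ^ (n + 1) := by
  classical
  obtain ⟨r, hr⟩ : ∃ r : ℝ, r = 1 - 1 / (4 * n) := ⟨_, rfl⟩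
  have hn0 : (0 : ℝ) < n := by exact_mod_cast (by omega : 0 < n)
  have hr1 : r < 1 := by
    rw [hr]
    have : 0 < 1 / (4 * (n : ℝ)) := by positivity
    linarith
  have hr0 : 0 ≤ r := by
    rw [hr]
    have h1 : (1 : ℝ) ≤ 4 * n := by
      have : (1 : ℝ) ≤ n := by exact_mod_cast (by omega : 1 ≤ n)
      linarith
    have : 1 / (4 * (n : ℝ)) ≤ 1 := (div_le_one (by positivity)).2 h1
    linarith
  obtain ⟨k, hk⟩ : ∃ k : ℕ, r ^ k < ε / 3 ^ (n + 1) :=
    exists_pow_lt_of_lt_one (by positivity) hr1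
  -- a set of `k` primes
  have hinf : {p : ℕ | p.Prime ∧ n ^ 2 ≤ p}.Infinite := by
    have h1 := Nat.infinite_setOfPred_prime.sdiff (Set.finite_lt_nat (n ^ 2))
    refine h1.mono ?_
    intro p hp
    exact ⟨hp.1, not_lt.1 hp.2⟩
  obtain ⟨S, hSsub, hScard⟩ := hinf.exists_subset_card_eq k
  have hSp : ∀ l ∈ S, l.Prime ∧ n ^ 2 ≤ l := fun l hl => hSsub hl
  obtain ⟨A, hA⟩ : ∃ A : ℕ → (Fin (n + 1) → ℤ) → Prop,
      ∀ l a, A l a ↔ (((a 0 : ℤ) : ZMod l) ≠ 0 ∧ Irreducible (GZ (ZMod l) a)) :=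
    ⟨fun l a => ((a 0 : ℤ) : ZMod l) ≠ 0 ∧ Irreducible (GZ (ZMod l) a), fun _ _ => Iff.rfl⟩
  obtain ⟨M, hM⟩ : ∃ M : ℕ, M = ∏ l ∈ S, l := ⟨_, rfl⟩
  refine ⟨M + 1, fun H hH => ?_⟩
  have hbox := BE.sieve_box (n := n + 1) S (fun l => l) (fun l hl => (hSp l hl).1.pos)
    (fun l hl l' hl' hne => (Nat.coprime_primes (hSp l hl).1 (hSp l' hl').1).2 hne) A
    (by
      intro l hl t t' htt
      have h1 : ∀ i, ((t i : ℤ) : ZMod l) = ((t' i : ℤ) : ZMod l) := by
        intro i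
        rw [ZMod.intCast_eq_intCast_iff_dvd_sub]
        have := htt i
        rwa [← dvd_neg, neg_sub] at this
      rw [hA, hA, h1 0]
      have h2 : GZ (ZMod l) t = GZ (ZMod l) t' := by
        unfold GZ
        congr 1
        funext i
        exact h1 i
      rw [h2])
    (fun _ => 1 / (4 * n)) (by
      intro l _
      rw [← sub_nonneg, ← hr]
      exact hr0) (by
      intro l hl
      have : Fact l.Prime := ⟨(hSp l hl).1⟩
      have h1 := dens l n hn (hSp l hl).2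
      have h2 : (univ.filter fun a : Fin (n + 1) → ZMod l => a 0 ≠ 0 ∧
          Irreducible (gpol a)).card ≤ (univ.filter fun t : Fin (n + 1) → Fin l =>
            A l (fun i => ((t i : ℕ) : ℤ))).card := by
        refine Finset.card_le_card_of_injOn (fun a i => ⟨(a i).val, ZMod.val_lt (a i)⟩) ?_ ?_
        · intro a ha
          rw [mem_coe, mem_filter] at ha
          rw [mem_coe, mem_filter]
          refine ⟨mem_univ _, ?_⟩
          rw [hA]
          have e : (fun i => ((((a i).val : ℕ) : ℤ) : ZMod l)) = a := by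
            funext i
            rw [Int.cast_natCast, ZMod.natCast_zmod_val]
          refine ⟨?_, ?_⟩
          · rw [show ((((a 0).val : ℕ) : ℤ) : ZMod l) = a 0 from congrFun e 0]
            exact ha.2.1
          · show Irreducible (gpol fun i => ((((a i).val : ℕ) : ℤ) : ZMod l))
            rw [e]
            exact ha.2.2
        · intro a _ a' _ he
          funext i
          have h3 := congrArg Fin.val (congrFun he i)
          exact ZMod.val_injective l h3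
      have h3 : (l : ℝ) ^ (n + 1) ≤ 4 * n * ((univ.filter fun t : Fin (n + 1) → Fin l =>
            A l (fun i => ((t i : ℕ) : ℤ))).card : ℝ) := by
        exact_mod_cast h1.trans (Nat.mul_le_mul_left _ h2)
      rw [div_mul_eq_mul_div, one_mul, div_le_iff₀ (by positivity)]
      linarith)
    (fun _ => -(H : ℤ)) (fun _ => 2 * H + 1)
  have hsub : cnt n (fun a => a 0 ≠ 0 ∧ ¬ Irreducible (GZ ℚ a)) H ≤
      ((Fintype.piFinset fun _ : Fin (n + 1) => Ico (-(H : ℤ)) (-(H : ℤ) + (2 * H + 1 : ℕ))).filter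
        fun t => ∀ l ∈ S, ¬ A l t).card := by
    refine cnt_le n _ H _ fun a hb hP => ?_
    rw [mem_filter, Fintype.mem_piFinset]
    refine ⟨fun i => ?_, fun l hl hAl => ?_⟩
    · have := hb i
      rw [mem_Ico]
      push_cast
      omega
    · have : Fact l.Prime := ⟨(hSp l hl).1⟩
      rw [hA] at hAl
      exact hP.2 (irr_of_mod (by omega) a l hAl.1 hAl.2)
  have hMR : ∏ l ∈ S, ((l : ℕ) : ℝ) = (M : ℝ) := by rw [hM]; push_cast; rfl
  simp only [hMR, Finset.prod_const, Finset.card_univ, Fintype.card_fin, hScard, ← hr] at hbox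
  have hH1 : (M : ℝ) + 1 ≤ H := by exact_mod_cast hH
  have hM0 : (0 : ℝ) ≤ M := Nat.cast_nonneg _
  calc (cnt n (fun a => a 0 ≠ 0 ∧ ¬ Irreducible (GZ ℚ a)) H : ℝ)
      ≤ ((((2 * H + 1 : ℕ) : ℝ) + M) ^ (n + 1)) * r ^ k :=
        le_trans (by exact_mod_cast hsub) hbox
    _ ≤ (3 * H) ^ (n + 1) * (ε / 3 ^ (n + 1)) := by
        refine mul_le_mul ?_ hk.le (pow_nonneg hr0 _) (by positivity)
        refine pow_le_pow_left₀ (by positivity) ?_ _
        push_cast
        linarith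
    _ = ε * H ^ (n + 1) := by
        rw [mul_pow]
        field_simp

end Stoll308.BF
end

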