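import Mathlib
import Pool.Agent.Work.BCM.C02
import Pool.Agent.Work.BCM.C03
import Pool.Agent.Work.BCM.C04

section
set_option autoImplicit false

/-!
The local lattice, `n` even.
-/

namespace Stoll308.BF

open Polynomial Finset Matrix BG

namespace LocLat

open BG.LocLat

section ring

variable {R : Type*} [CommRing R]

lemma coeff_div [Nontrivial R] (f : R[X]) (m j : ℕ) : (f /ₘ X ^ m).coeff j = f.coeff (m + j) := by
  have h1 := modByMonic_add_div f (X ^ m : R[X])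
  have h2 := congrArg (fun q : R[X] => q.coeff (m + j)) h1
  simp only [coeff_add] at h2
  have h3 : (f %ₘ X ^ m).coeff (m + j) = 0 := by
    apply coeff_eq_zero_of_degree_lt
    refine (degree_modByMonic_lt f (monic_X_pow m)).trans_le ?_
    rw [degree_X_pow]
    exact_mod_cast Nat.le_add_right m j
  rw [h3, zero_add, add_comm m j, coeff_X_pow_mul] at h2
  rw [h2, add_comm]

/-- The Horner polynomial `a₀ X^i + ... + a_i` of `f` (of degree at most `n`). -/
noncomputable def hor (n : ℕ) (f : R[X]) (i : ℕ) : R[X] := f /ₘ X ^ (n - i)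

lemma hor_coeff [Nontrivial R] (n : ℕ) (f : R[X]) (i j : ℕ) :
    (hor n f i).coeff j = f.coeff (n - i + j) := coeff_div _ _ _

lemma hor_top [Nontrivial R] {n : ℕ} {f : R[X]} (hf : f.natDegree ≤ n) {i j : ℕ} (hi : i ≤ n)
    (hij : i < j) : (hor n f i).coeff j = 0 := by
  rw [hor_coeff]
  exact coeff_eq_zero_of_natDegree_lt (by omega)

lemma hor_succ [Nontrivial R] {n : ℕ} (f : R[X]) {i : ℕ} (hi : i < n) :
    hor n f (i + 1) = X * hor n f i + C (f.coeff (n - i - 1)) := by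
  ext j
  rcases j with _ | j
  · rw [hor_coeff, coeff_add, coeff_C_zero, mul_coeff_zero, coeff_X_zero, zero_mul, zero_add]
    congr 1
  · rw [hor_coeff, coeff_add, coeff_X_mul, coeff_C_succ, add_zero, hor_coeff]
    congr 1
    omega

lemma hor_zero [Nontrivial R] {n : ℕ} {f : R[X]} (hf : f.natDegree ≤ n) :
    hor n f 0 = C (f.coeff n) := by
  ext j
  rcases j with _ | j
  · rw [hor_coeff, coeff_C_zero]
    rfl
  · rw [hor_top hf (Nat.zero_le n) (Nat.succ_pos j), coeff_C_succ]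

lemma hor_n [Nontrivial R] {n : ℕ} (f : R[X]) : hor n f n = f := by
  ext j
  rw [hor_coeff, Nat.sub_self, zero_add]

/-- The quotient of `f - f(ξ)` by `X - ξ`. -/
noncomputable def quo (n : ℕ) (f : R[X]) (ξ : R) (j : ℕ) : R[X] :=
  ∑ r ∈ range j, C (ξ ^ (j - 1 - r)) * hor n f r

lemma quo_succ (n : ℕ) (f : R[X]) (ξ : R) (j : ℕ) :
    quo n f ξ (j + 1) = C ξ * quo n f ξ j + hor n f j := by
  unfold quo
  rw [Finset.sum_range_succ, Finset.mul_sum]
  congr 1
  · refine Finset.sum_congr rfl fun r hr => ?_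
    rw [Finset.mem_range] at hr
    rw [← mul_assoc, ← C_mul, ← pow_succ']
    congr 3
    omega
  · simp

lemma quo_mul [Nontrivial R] {n : ℕ} {f : R[X]} (hf : f.natDegree ≤ n) (ξ : R) :
    ∀ j ≤ n, (C ξ - X) * quo n f ξ j = C ((hor n f j).eval ξ) - hor n f j
  | 0, _ => by
    rw [hor_zero hf]
    simp [quo]
  | j + 1, hj => by
    rw [quo_succ, hor_succ f (by omega)]
    have h := quo_mul hf ξ j (by omega)
    simp only [eval_add, eval_mul, eval_X, eval_C, C_add, C_mul]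
    linear_combination (C ξ) * h

lemma quo_coeff_top [Nontrivial R] {n : ℕ} (hn : 1 ≤ n) {f : R[X]} (hf : f.natDegree ≤ n) (ξ : R) :
    (quo n f ξ n).coeff (n - 1) = f.coeff n := by
  unfold quo
  rw [finsetSum_coeff, Finset.sum_eq_single (n - 1)]
  · rw [Nat.sub_self, pow_zero, C_1, one_mul, hor_coeff]
    congr 1
    omega
  · intro r hr hr2
    rw [Finset.mem_range] at hr
    rw [coeff_C_mul, hor_top hf (by omega) (by omega), mul_zero]
  · intro h
    exact absurd (Finset.mem_range.mpr (by omega)) h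

lemma natDegree_le_of_coeff {q : R[X]} {m : ℕ} (h : ∀ j, m < j → q.coeff j = 0) :
    q.natDegree ≤ m := natDegree_le_iff_coeff_eq_zero.mpr h

lemma quo_natDegree [Nontrivial R] {n : ℕ} {f : R[X]} (hf : f.natDegree ≤ n) (ξ : R) :
    (quo n f ξ n).natDegree ≤ n - 1 := by
  refine natDegree_le_of_coeff fun j hj => ?_
  unfold quo
  rw [finsetSum_coeff]
  refine Finset.sum_eq_zero fun r hr => ?_
  rw [Finset.mem_range] at hr
  rw [coeff_C_mul, hor_top hf (by omega) (by omega), mul_zero]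

/-- The basis polynomials. -/
noncomputable def bas (n e : ℕ) (f : R[X]) (l : ℕ) : R[X] :=
  if l ≤ e then X ^ l else X ^ e * hor n f (l - e)

lemma bas_coeff_gt [Nontrivial R] {n e : ℕ} {f : R[X]} (hf : f.natDegree ≤ n) {l j : ℕ}
    (hl : l ≤ n) (hj : l < j) : (bas n e f l).coeff j = 0 := by
  unfold bas
  split_ifs with h
  · rw [coeff_X_pow, if_neg (by omega)]
  · obtain ⟨i, rfl⟩ : ∃ i, j = i + e := ⟨j - e, by omega⟩
    rw [coeff_X_pow_mul]
    exact hor_top hf (by omega) (by omega)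

lemma bas_coeff_diag [Nontrivial R] {n e : ℕ} {f : R[X]} {l : ℕ} (hl : l ≤ n) :
    (bas n e f l).coeff l = if l ≤ e then 1 else f.coeff n := by
  unfold bas
  split_ifs with h
  · rw [coeff_X_pow, if_pos rfl]
  · obtain ⟨i, rfl⟩ : ∃ i, l = i + e := ⟨l - e, by omega⟩
    rw [coeff_X_pow_mul, hor_coeff]
    congr 1
    omega

/-- For `l > e`, `bas l` is the Horner polynomial up to terms of degree less than `e`. -/
lemma bas_coeff_eq [Nontrivial R] {n e : ℕ} {f : R[X]} {l j : ℕ} (hl : l ≤ n) (hle : e < l)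
    (hj : e < j) : (bas n e f l).coeff j = (hor n f l).coeff j := by
  unfold bas
  rw [if_neg (by omega)]
  obtain ⟨i, rfl⟩ : ∃ i, j = i + e := ⟨j - e, by omega⟩
  rw [coeff_X_pow_mul, hor_coeff, hor_coeff]
  congr 1
  omega

/-- Expansion of a combination of `quo` and a polynomial of small degree in the basis. -/
lemma expand [Nontrivial R] {n e : ℕ} (hen : e < n) {f : R[X]} (hf : f.natDegree ≤ n) (ξ α : R)
    (h : R[X]) (hh : h.natDegree ≤ e) :
    ∃ c : Fin n → R, C α * quo n f ξ n + h = ∑ k : Fin n, C (c k) * bas n e f k ∧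
      ∀ k : Fin n, e < (k : ℕ) → c k = α * ξ ^ (n - 1 - (k : ℕ)) := by
  set U := C α * quo n f ξ n + h with hU
  set W : R[X] := ∑ k : Fin n, if (k : ℕ) ≤ e then 0 else
    C (α * ξ ^ (n - 1 - (k : ℕ))) * bas n e f k with hW
  have hdeg : (U - W).natDegree ≤ e := by
    refine natDegree_le_of_coeff fun j hj => ?_
    rw [coeff_sub, hU, coeff_add, coeff_C_mul,
      coeff_eq_zero_of_natDegree_lt (lt_of_le_of_lt hh hj), add_zero, hW, finsetSum_coeff]
    unfold quo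
    rw [finsetSum_coeff, Finset.mul_sum, ← Fin.sum_univ_eq_sum_range
      (fun r => α * (C (ξ ^ (n - 1 - r)) * hor n f r).coeff j) n, ← Finset.sum_sub_distrib]
    refine Finset.sum_eq_zero fun k _ => ?_
    have hk := k.isLt
    split_ifs with hke
    · rw [coeff_C_mul, hor_top hf (by omega) (by omega)]
      simp
    · rw [coeff_C_mul, coeff_C_mul, bas_coeff_eq (by omega) (by omega) hj]
      ring
  refine ⟨fun k => if (k : ℕ) ≤ e then (U - W).coeff k else α * ξ ^ (n - 1 - (k : ℕ)), ?_, ?_⟩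
  · have h1 : U - W = ∑ k : Fin n, if (k : ℕ) ≤ e then C ((U - W).coeff k) * X ^ (k : ℕ)
        else 0 := by
      conv_lhs => rw [(U - W).as_sum_range_C_mul_X_pow' (show (U - W).natDegree < n by omega)]
      rw [← Fin.sum_univ_eq_sum_range (fun k => C ((U - W).coeff k) * X ^ k) n]
      refine Finset.sum_congr rfl fun k _ => ?_
      split_ifs with hk
      · rfl
      · rw [coeff_eq_zero_of_natDegree_lt (by omega), C_0, zero_mul]
    calc U = (U - W) + W := by ring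
      _ = (∑ k : Fin n, if (k : ℕ) ≤ e then C ((U - W).coeff k) * X ^ (k : ℕ) else 0) + W :=
        congrArg (fun q => q + W) h1
      _ = (∑ k : Fin n, if (k : ℕ) ≤ e then C ((U - W).coeff k) * X ^ (k : ℕ) else 0) +
          ∑ k : Fin n, (if (k : ℕ) ≤ e then 0 else
            C (α * ξ ^ (n - 1 - (k : ℕ))) * bas n e f k) := by rw [hW]
      _ = _ := by
        rw [← Finset.sum_add_distrib]
        refine Finset.sum_congr rfl fun k _ => ?_
        split_ifs with hk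
        · rw [add_zero, bas, if_pos hk]
          simp only [if_pos hk]
        · rw [zero_add]
          simp only [if_neg hk]
  · intro k hk
    simp only
    rw [if_neg (by omega)]

end ring

section mon

lemma GZ_map {R S : Type*} [CommRing R] [CommRing S] (φ : R →+* S) {n : ℕ}
    (a : Fin (n + 1) → ℤ) : (GZ R a).map φ = GZ S a := by
  simp [gpol, Polynomial.map_sum]

lemma GZ_natDegree_le {R : Type*} [CommRing R] {n : ℕ} (a : Fin (n + 1) → ℤ) :
    (GZ R a).natDegree ≤ n := by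
  refine natDegree_sum_le_of_forall_le _ _ fun i _ => ?_
  exact (natDegree_C_mul_X_pow_le _ _).trans (Nat.sub_le _ _)

lemma GZ_coeff_top {R : Type*} [CommRing R] {n : ℕ} (a : Fin (n + 1) → ℤ) :
    (GZ R a).coeff n = a 0 := by
  unfold GZ gpol
  rw [finsetSum_coeff, Finset.sum_eq_single 0]
  · simp
  · intro b _ hb
    have h1 : (b : ℕ) ≠ 0 := fun h => hb (Fin.ext h)
    have h2 := b.isLt
    rw [coeff_C_mul, coeff_X_pow, if_neg (by omega), mul_zero]
  · intro h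
    exact absurd (Finset.mem_univ _) h

variable {K : Type*} [Field K] {n : ℕ} (a : Fin (n + 1) → ℤ)

lemma mon_monic (h : (a 0 : K) ≠ 0) : (mon K a).Monic := by
  refine monic_of_natDegree_le_of_coeff_eq_one n ?_ ?_
  · exact (natDegree_C_mul_le _ _).trans (GZ_natDegree_le a)
  · unfold mon
    rw [coeff_C_mul, GZ_coeff_top, inv_mul_cancel₀ h]

lemma mon_natDegree (h : (a 0 : K) ≠ 0) : (mon K a).natDegree = n := by
  refine le_antisymm ((natDegree_C_mul_le _ _).trans (GZ_natDegree_le a)) ?_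
  apply le_natDegree_of_ne_zero
  unfold mon
  rw [coeff_C_mul, GZ_coeff_top, inv_mul_cancel₀ h]
  exact one_ne_zero

lemma GZ_eq (h : (a 0 : K) ≠ 0) : GZ K a = C (a 0 : K) * mon K a := by
  unfold mon
  rw [← mul_assoc, ← C_mul, mul_inv_cancel₀ h, C_1, one_mul]

/-- The functional `μ ↦ [θ^(n-1)] μ / a₀`. -/
noncomputable def tauf (μ : K[X]) : K := (a 0 : K)⁻¹ * tau n (mon K a) μ

lemma tauf_C_mul (c : K) (μ : K[X]) : tauf a (C c * μ) = c * tauf a μ := by
  unfold tauf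
  rw [← smul_eq_C_mul, map_smul, smul_eq_mul]
  ring

lemma tauf_add (μ ν : K[X]) : tauf a (μ + ν) = tauf a μ + tauf a ν := by
  unfold tauf
  rw [map_add, mul_add]

lemma tauf_mul (h : (a 0 : K) ≠ 0) (q : K[X]) : tauf a (GZ K a * q) = 0 := by
  unfold tauf
  rw [GZ_eq a h, tau_apply, (modByMonic_eq_zero_iff_dvd (mon_monic a h)).mpr, coeff_zero, mul_zero]
  exact ⟨C (a 0 : K) * q, by ring⟩

lemma tauf_small (h : (a 0 : K) ≠ 0) {μ : K[X]} (hμ : μ.natDegree < n) :
    tauf a μ = (a 0 : K)⁻¹ * μ.coeff (n - 1) := by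
  unfold tauf
  rw [tau_apply, (modByMonic_eq_self_iff (mon_monic a h)).mpr]
  rw [degree_eq_natDegree (mon_monic a h).ne_zero, mon_natDegree a h]
  refine lt_of_le_of_lt degree_le_natDegree ?_
  exact_mod_cast hμ

/-- `τ(θ^m g) = ξ^m`. -/
lemma tauf_pow_quo (hn : 1 ≤ n) (h : (a 0 : K) ≠ 0) (ξ : K) {m : ℕ} (hm : m + 1 ≤ n) :
    tauf a (X ^ m * quo n (GZ K a) ξ n) = ξ ^ m := by
  have hq := quo_mul (GZ_natDegree_le a) ξ n le_rfl
  rw [hor_n] at hq
  set g := quo n (GZ K a) ξ n with hg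
  have h1 := geom_sum₂_mul (X : K[X]) (C ξ) m
  set hm' : K[X] := ∑ i ∈ range m, X ^ i * C ξ ^ (m - 1 - i) with hhm
  have h2 : X ^ m * g = C (ξ ^ m) * g + (GZ K a * hm' + C (-(GZ K a).eval ξ) * hm') := by
    rw [C_neg, C_pow]
    linear_combination (-g) * h1 - hm' * hq
  have h3 : hm'.natDegree < n - 1 ∨ hm' = 0 := by
    rcases Nat.eq_zero_or_pos m with rfl | hm0
    · right
      simp [hhm]
    · left
      refine lt_of_le_of_lt (b := m - 1) ?_ (by omega)
      rw [hhm]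
      refine natDegree_sum_le_of_forall_le _ _ fun i hi => ?_
      rw [Finset.mem_range] at hi
      rw [← C_pow, mul_comm]
      exact (natDegree_C_mul_X_pow_le _ _).trans (by omega)
  have h4 : tauf a hm' = 0 := by
    rcases h3 with h3 | h3
    · rw [tauf_small a h (by omega), coeff_eq_zero_of_natDegree_lt h3, mul_zero]
    · rw [h3]
      unfold tauf
      rw [map_zero, mul_zero]
  rw [h2, tauf_add, tauf_add, tauf_mul a h, tauf_C_mul, tauf_C_mul, h4,
    tauf_small a h (lt_of_le_of_lt (quo_natDegree (GZ_natDegree_le a) ξ) (by omega)),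
    quo_coeff_top hn (GZ_natDegree_le a), GZ_coeff_top, inv_mul_cancel₀ h]
  ring

end mon

section padic

variable {p : ℕ} [Fact p.Prime] {n : ℕ} (a : Fin (n + 1) → ℤ)

/-- The elements of `ℤ_p[θ] ∩ θ^k ℤ_p[1/θ]`. -/
def Jk (k : ℕ) (μ : ℚ_[p][X]) : Prop :=
  ∃ (N : ℕ) (P Q h : ℤ_[p][X]), 1 ≤ N ∧ Q.natDegree ≤ N ∧
    X ^ N * P = X ^ k * Q + GZ ℤ_[p] a * h ∧ P.map (algebraMap ℤ_[p] ℚ_[p]) = μ

variable {a}

lemma Jk.mul {k l : ℕ} {μ ν : ℚ_[p][X]} (h : Jk a k μ) (h' : Jk a l ν) :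
    Jk a (k + l) (μ * ν) := by
  obtain ⟨N, P, Q, t, h1, h2, h3, h4⟩ := h
  obtain ⟨N', P', Q', t', h1', h2', h3', h4'⟩ := h'
  refine ⟨N + N', P * P', Q * Q', t * (X ^ l * Q') + X ^ k * Q * t' + GZ ℤ_[p] a * t * t',
    by omega, ?_, ?_, ?_⟩
  · exact natDegree_mul_le.trans (by omega)
  · rw [pow_add, pow_add]
    linear_combination (X ^ N' * P') * h3 + (X ^ k * Q + GZ ℤ_[p] a * t) * h3'
  · rw [Polynomial.map_mul, h4, h4']

lemma Jk_lin {c d : ℚ_[p]} (hc : ‖c‖ ≤ 1) (hd : ‖d‖ ≤ 1) : Jk a 1 (C c + C d * X) := by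
  obtain ⟨c', rfl⟩ : ∃ c' : ℤ_[p], (c' : ℚ_[p]) = c := ⟨⟨c, hc⟩, rfl⟩
  obtain ⟨d', rfl⟩ : ∃ d' : ℤ_[p], (d' : ℚ_[p]) = d := ⟨⟨d, hd⟩, rfl⟩
  refine ⟨1, C c' + C d' * X, C c' + C d' * X, 0, le_rfl, ?_, by ring, ?_⟩
  · compute_degree
  · rw [Polynomial.map_add, Polynomial.map_mul, map_C, map_C, map_X]
    rfl

lemma Jk_X_pow {j k : ℕ} (hj : j ≤ k) : Jk a k (X ^ j : ℚ_[p][X]) := by
  obtain ⟨i, rfl⟩ : ∃ i, k = j + i := ⟨k - j, by omega⟩
  refine ⟨i + 1, X ^ j, X, 0, by omega, natDegree_X_le.trans (by omega), ?_, by simp⟩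
  ring

lemma Jk_hor {i : ℕ} (hi : i < n) : Jk a 0 (hor n (GZ ℚ_[p] a) i) := by
  have h1 := modByMonic_add_div (GZ ℤ_[p] a) (X ^ (n - i) : ℤ_[p][X])
  refine ⟨n - i, hor n (GZ ℤ_[p] a) i, -(GZ ℤ_[p] a %ₘ X ^ (n - i)), 1, by omega, ?_, ?_, ?_⟩
  · rw [natDegree_neg]
    have h2 := natDegree_modByMonic_le (GZ ℤ_[p] a) (monic_X_pow (R := ℤ_[p]) (n - i))
    rwa [natDegree_X_pow] at h2
  · unfold hor
    linear_combination h1
  · unfold hor
    rw [Polynomial.map_divByMonic _ (monic_X_pow _), GZ_map, Polynomial.map_pow, map_X]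

lemma Jk_bas {e l : ℕ} (hl : l < n) : Jk a e (bas n e (GZ ℚ_[p] a) l) := by
  unfold bas
  split_ifs with h
  · exact Jk_X_pow h
  · have h1 : Jk a e (X ^ e : ℚ_[p][X]) := Jk_X_pow le_rfl
    have h2 : Jk a 0 (hor n (GZ ℚ_[p] a) (l - e)) := Jk_hor (by omega)
    have h3 := h1.mul h2
    rwa [add_zero] at h3

lemma Jk.le {k : ℕ} (hk : k + 2 ≤ n) (h0 : (a 0 : ℚ_[p]) ≠ 0) {μ : ℚ_[p][X]} (h : Jk a k μ) :
    ‖tauf a μ‖ ≤ 1 := by
  obtain ⟨N, P, Q, t, h1, h2, h3, h4⟩ := h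
  set F := mon ℚ_[p] a with hF
  have hFm : F.Monic := mon_monic a h0
  have hFn : F.natDegree = n := mon_natDegree a h0
  set Q' := Q.map (algebraMap ℤ_[p] ℚ_[p]) with hQ'
  set t' := t.map (algebraMap ℤ_[p] ℚ_[p]) with ht'
  have h5 : X ^ N * μ = X ^ k * Q' + C (a 0 : ℚ_[p]) * F * t' := by
    have h := congrArg (Polynomial.map (algebraMap ℤ_[p] ℚ_[p])) h3
    rw [Polynomial.map_mul, Polynomial.map_add, Polynomial.map_mul, Polynomial.map_mul,
      Polynomial.map_pow, Polynomial.map_pow, map_X, GZ_map, h4, GZ_eq a h0] at h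
    exact h
  have hQ : Q'.natDegree ≤ N := (natDegree_map_le).trans h2
  have h6 := modByMonic_add_div μ F
  set r := μ %ₘ F with hr
  set q := μ /ₘ F with hq
  set w := C (a 0 : ℚ_[p]) * t' - X ^ N * q with hw
  have h7 : F * w = X ^ N * r - X ^ k * Q' := by
    rw [hw]
    linear_combination -h5 - X ^ N * h6
  have hrn : r.natDegree ≤ n - 1 := by
    have h8 := natDegree_modByMonic_lt μ hFm (by
      intro h
      rw [h, natDegree_one] at hFn
      omega)
    rw [← hr, hFn] at h8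
    omega
  have hwn : w.natDegree ≤ N - 1 := by
    rcases eq_or_ne w 0 with hw0 | hw0
    · rw [hw0, natDegree_zero]
      omega
    · have h8 : (F * w).natDegree = n + w.natDegree := by
        rw [hFm.natDegree_mul' hw0, hFn]
      have h9 : (X ^ N * r - X ^ k * Q').natDegree ≤ N + (n - 1) := by
        refine (natDegree_sub_le _ _).trans (max_le ?_ ?_)
        · exact natDegree_mul_le_of_le (natDegree_X_pow_le _) hrn
        · exact (natDegree_mul_le_of_le (natDegree_X_pow_le _) hQ).trans (by omega)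
      rw [← h7, h8] at h9
      omega
  have h8 : (F * w).coeff (n + (N - 1)) = w.coeff (N - 1) := by
    rw [coeff_mul_add_eq_of_natDegree_le hFn.le hwn]
    have : F.coeff n = 1 := by
      rw [← hFn]
      exact hFm.coeff_natDegree
    rw [this, one_mul]
  have h9 : (X ^ N * r - X ^ k * Q').coeff (n + (N - 1)) = r.coeff (n - 1) := by
    rw [coeff_sub]
    have e1 : n + (N - 1) = (n - 1) + N := by omega
    have e2 : (X ^ k * Q').coeff (n + (N - 1)) = 0 := by
      apply coeff_eq_zero_of_natDegree_lt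
      exact lt_of_le_of_lt (natDegree_mul_le_of_le (natDegree_X_pow_le _) hQ) (by omega)
    rw [e2, e1, coeff_X_pow_mul, sub_zero]
  have h10 : w.coeff (N - 1) = (a 0 : ℚ_[p]) * t'.coeff (N - 1) := by
    rw [hw, coeff_sub, coeff_C_mul, coeff_X_pow_mul', if_neg (by omega), sub_zero]
  have h11 : tauf a μ = t'.coeff (N - 1) := by
    unfold tauf
    rw [tau_apply, ← hF, ← hr, ← h9, ← h7, h8, h10, ← mul_assoc, inv_mul_cancel₀ h0, one_mul]
  rw [h11, ht', coeff_map]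
  exact PadicInt.norm_le_one _

/-- The matrix with the coefficients of the polynomials `b i` as rows. -/
def mat {K : Type*} [Field K] {n : ℕ} (b : Fin n → K[X]) : Matrix (Fin n) (Fin n) K :=
  fun i j => (b i).coeff j

lemma rowP_mat {K : Type*} [Field K] {n : ℕ} (b : Fin n → K[X]) (i : Fin n)
    (h : (b i).natDegree < n) : rowP (mat b) i = b i := by
  unfold rowP mat
  conv_rhs => rw [(b i).as_sum_range_C_mul_X_pow' h]
  rw [← Fin.sum_univ_eq_sum_range (fun k => C ((b i).coeff k) * X ^ k) n]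

lemma det_rep {K : Type*} [Field K] {n : ℕ} (b : Fin n → K[X]) (r : Fin n) (c : Fin n → K) :
    (mat (Function.update b r (∑ k, C (c k) * b k))).det = c r * (mat b).det := by
  have h : mat (Function.update b r (∑ k, C (c k) * b k)) =
      (mat b).updateRow r (∑ k, c k • (mat b) k) := by
    ext i j
    rcases eq_or_ne i r with rfl | hi
    · rw [Matrix.updateRow_self]
      unfold mat
      rw [Function.update_self, finsetSum_coeff, Finset.sum_apply]
      refine Finset.sum_congr rfl fun k _ => ?_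
      rw [coeff_C_mul, Pi.smul_apply, smul_eq_mul]
    · rw [Matrix.updateRow_ne hi]
      unfold mat
      rw [Function.update_of_ne hi]
  rw [h, Matrix.det_updateRow_sum, smul_eq_mul]

lemma det_bas {K : Type*} [Field K] {n e : ℕ} (hen : e < n) {f : K[X]} (hf : f.natDegree ≤ n) :
    (mat (fun i : Fin n => bas n e f i)).det = f.coeff n ^ (n - 1 - e) := by
  have htri : (mat (fun i : Fin n => bas n e f i)).BlockTriangular OrderDual.toDual := by
    intro i j hij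
    have hij' : i < j := hij
    have hi := i.isLt
    exact bas_coeff_gt hf (by omega) hij'
  rw [Matrix.det_of_isLowerTriangular _ htri]
  have h1 : ∀ i : Fin n, mat (fun i : Fin n => bas n e f i) i i =
      (fun l : ℕ => if l ≤ e then (1 : K) else f.coeff n) i := by
    intro i
    have hi := i.isLt
    exact bas_coeff_diag (by omega)
  rw [Finset.prod_congr rfl fun i _ => h1 i,
    Fin.prod_univ_eq_prod_range (fun l : ℕ => if l ≤ e then (1 : K) else f.coeff n) n]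
  obtain ⟨d, rfl⟩ : ∃ d, n = (e + 1) + d := ⟨n - (e + 1), by omega⟩
  rw [Finset.prod_range_add, Finset.prod_eq_one, one_mul, Finset.prod_congr rfl
    (g := fun _ => f.coeff (e + 1 + d)), Finset.prod_const, Finset.card_range]
  · congr 1
    omega
  · intro x _
    rw [if_neg (by omega)]
  · intro x hx
    rw [Finset.mem_range] at hx
    rw [if_pos (by omega)]

lemma core {e : ℕ} (hne : n = 2 * e + 4) (h0 : (a 0 : ℚ_[p]) ≠ 0) (ξ y β ρ : ℚ_[p]) (hy : y ≠ 0)
    (hf : (GZ ℚ_[p] a).eval ξ = y ^ 2) (m : ℕ) (hm : m ≤ e + 1) (r : Fin n) (hr : e < (r : ℕ))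
    (h1 : ‖ρ ^ 2 * ξ‖ ≤ 1) (h2 : ‖ρ ^ 2‖ ≤ 1) (h3 : ‖ρ * β * y ^ 2‖ ≤ 1)
    (h4 : ∀ k ≤ 1, ‖β ^ 2 * y ^ 2 * ξ ^ (k + 2 * m)‖ ≤ 1)
    (h6 : ‖ρ‖ ^ (n - 1) * ‖β‖ * ‖ξ‖ ^ (m + (n - 1 - (r : ℕ))) * ‖y‖ = 1) (hρ : ρ ≠ 0) :
    ∃ G : Matrix (Fin n) (Fin n) ℚ_[p], G.det ≠ 0 ∧
      (∀ k ≤ 1, ∀ i j, ‖((a 0 : ℚ_[p])⁻¹ •
        (G * Hank n (mon ℚ_[p] a) (X ^ k * (C ξ - X)) * Gᵀ)) i j‖ ≤ 1) ∧
      ‖((a 0 : ℚ_[p])⁻¹ •
        (G * Hank n (mon ℚ_[p] a) (C ξ - X) * Gᵀ)).det‖ = ‖(a 0 : ℚ_[p])‖ := by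
  set f := GZ ℚ_[p] a with hfd
  have hfn : f.natDegree ≤ n := GZ_natDegree_le a
  have hft : f.coeff n = a 0 := GZ_coeff_top a
  set g := quo n f ξ n with hg
  have hgn : g.natDegree ≤ n - 1 := quo_natDegree hfn ξ
  have hgm : (C ξ - X) * g = C (y ^ 2) - f := by
    have h := quo_mul hfn ξ n le_rfl
    rw [hor_n, hf] at h
    exact h
  have hgeo := geom_sum₂_mul (X : ℚ_[p][X]) (C ξ) m
  set hh : ℚ_[p][X] := ∑ i ∈ range m, X ^ i * C ξ ^ (m - 1 - i) with hhd
  have hhn : hh.natDegree ≤ e := by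
    rw [hhd]
    refine natDegree_sum_le_of_forall_le _ _ fun i hi => ?_
    rw [Finset.mem_range] at hi
    rw [← C_pow, mul_comm]
    exact (natDegree_C_mul_X_pow_le _ _).trans (by omega)
  -- the exceptional row
  set U : ℚ_[p][X] := C (β * ξ ^ m) * g + C (-(β * y ^ 2)) * hh with hU
  have hUn : U.natDegree < n := by
    refine lt_of_le_of_lt (natDegree_add_le _ _) (max_lt ?_ ?_)
    · exact lt_of_le_of_lt (natDegree_C_mul_le _ _) (by omega)
    · exact lt_of_le_of_lt (natDegree_C_mul_le _ _) (by omega)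
  have hUe : U = C β * X ^ m * g - f * (C β * hh) := by
    rw [hU, C_neg, C_mul, C_mul, C_pow]
    linear_combination (C β * g) * hgeo + (C β * hh) * hgm
  set t : Fin n → ℚ_[p][X] := fun i => bas n e f i with ht
  have htn : ∀ i, (t i).natDegree < n := by
    intro i
    have hi := i.isLt
    refine lt_of_le_of_lt (natDegree_le_of_coeff (m := (i : ℕ)) fun j hj => ?_) hi
    exact bas_coeff_gt hfn (by omega) hj
  have htJ : ∀ i, Jk a e (t i) := fun i => Jk_bas i.isLt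
  set b : Fin n → ℚ_[p][X] := Function.update (fun i => C ρ * t i) r U with hb
  have hbr : b r = U := by rw [hb, Function.update_self]
  have hbi : ∀ i, i ≠ r → b i = C ρ * t i := fun i hi => by rw [hb, Function.update_of_ne hi]
  have hbn : ∀ i, (b i).natDegree < n := by
    intro i
    rcases eq_or_ne i r with rfl | hi
    · rw [hbr]
      exact hUn
    · rw [hbi i hi]
      exact lt_of_le_of_lt (natDegree_C_mul_le _ _) (htn i)
  -- the determinant of the matrix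
  obtain ⟨c, hc1, hc2⟩ := expand (show e < n by omega) hfn ξ (β * ξ ^ m) (C (-(β * y ^ 2)) * hh)
    ((natDegree_C_mul_le _ _).trans hhn)
  have hUc : U = ∑ k : Fin n, C (c k * ρ⁻¹) * (C ρ * t k) := by
    rw [hU, hc1]
    refine Finset.sum_congr rfl fun k _ => ?_
    have h : (C ρ⁻¹ : ℚ_[p][X]) * C ρ = 1 := by rw [← C_mul, inv_mul_cancel₀ hρ, C_1]
    rw [C_mul]
    linear_combination (-(C (c k) * t k)) * h
  have hdet : (mat b).det = c r * ρ⁻¹ * (ρ ^ n * (a 0 : ℚ_[p]) ^ (e + 3)) := by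
    have e1 : mat (fun i => C ρ * t i) = ρ • mat t := by
      ext i j
      rw [Matrix.smul_apply]
      unfold mat
      rw [coeff_C_mul, smul_eq_mul]
    rw [hb, hUc, det_rep (fun i => C ρ * t i) r (fun k => c k * ρ⁻¹), e1, Matrix.det_smul,
      Fintype.card_fin, det_bas (by omega) hfn, hft]
    congr 3
    omega
  have hcr : c r = β * ξ ^ m * ξ ^ (n - 1 - (r : ℕ)) := hc2 r hr
  have hρ0 : 0 < ‖ρ‖ := norm_pos_iff.mpr hρ
  have ha0 : 0 < ‖(a 0 : ℚ_[p])‖ := norm_pos_iff.mpr h0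
  have hy0 : 0 < ‖y‖ := norm_pos_iff.mpr hy
  have hnd : ‖(mat b).det‖ * ‖y‖ = ‖(a 0 : ℚ_[p])‖ ^ (e + 3) := by
    rw [hdet, hcr]
    simp only [norm_mul, norm_pow, norm_inv]
    have e2 : ‖ρ‖ ^ n = ‖ρ‖ ^ (n - 1) * ‖ρ‖ := by
      rw [← pow_succ]
      congr 1
      omega
    rw [e2]
    have e3 : ‖β‖ * ‖ξ‖ ^ m * ‖ξ‖ ^ (n - 1 - (r : ℕ)) * ‖ρ‖⁻¹ *
        (‖ρ‖ ^ (n - 1) * ‖ρ‖ * ‖(a 0 : ℚ_[p])‖ ^ (e + 3)) * ‖y‖ =
        (‖ρ‖ ^ (n - 1) * ‖β‖ * ‖ξ‖ ^ (m + (n - 1 - (r : ℕ))) * ‖y‖) *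
          ‖(a 0 : ℚ_[p])‖ ^ (e + 3) * (‖ρ‖⁻¹ * ‖ρ‖) := by
      rw [pow_add]
      ring
    rw [e3, h6, inv_mul_cancel₀ hρ0.ne']
    ring
  have hmm := mon_monic a h0
  have hmn := mon_natDegree a h0
  refine ⟨mat b, ?_, ?_, ?_⟩
  · intro h
    rw [h, norm_zero, zero_mul] at hnd
    exact (pow_pos ha0 _).ne hnd
  · intro k hk i j
    rw [Matrix.smul_apply, BG.LocLat.gram, rowP_mat b i (hbn i), rowP_mat b j (hbn j), smul_eq_mul]
    change ‖tauf a (X ^ k * (C ξ - X) * b i * b j)‖ ≤ 1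
    -- mixed entries
    have key : ∀ i : Fin n, ‖tauf a (X ^ k * (C ξ - X) * (C ρ * t i) * U)‖ ≤ 1 := by
      intro i
      have e1 : X ^ k * (C ξ - X) * (C ρ * t i) * U =
          C (ρ * β * y ^ 2) * (X ^ (k + m) * t i) +
            f * (-(X ^ k * C ρ * t i * (C β * X ^ m + (C ξ - X) * (C β * hh)))) := by
        rw [hUe, C_mul, C_mul, pow_add]
        linear_combination (X ^ k * C ρ * t i * C β * X ^ m) * hgm
      rw [e1, tauf_add, tauf_mul a h0, add_zero, tauf_C_mul, norm_mul]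
      have e2 : Jk a (k + m + e) (X ^ (k + m) * t i) := (Jk_X_pow le_rfl).mul (htJ i)
      have e3 := e2.le (by omega) h0
      exact mul_le_one₀ h3 (norm_nonneg _) e3
    rcases eq_or_ne i r with rfl | hi
    · rcases eq_or_ne j i with rfl | hj
      · rw [hbr]
        have e1 : X ^ k * (C ξ - X) * U * U =
            C (β ^ 2 * y ^ 2) * (X ^ (k + 2 * m) * g) +
              f * (-(X ^ k * (C β * X ^ m * g) * (C β * X ^ m)) - X ^ k * (C ξ - X) *
                (C β * hh) * (U + C β * X ^ m * g)) := by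
          have e2 : X ^ k * (C ξ - X) * U * U =
              X ^ k * (C ξ - X) * (C β * X ^ m * g) * (C β * X ^ m * g) +
              f * (-(X ^ k * (C ξ - X) * (C β * hh) * (U + C β * X ^ m * g))) := by
            linear_combination (X ^ k * (C ξ - X) * (U + C β * X ^ m * g)) * hUe
          rw [e2, C_mul, C_pow, pow_add, pow_mul']
          linear_combination (X ^ k * C β ^ 2 * (X ^ m) ^ 2 * g) * hgm
        rw [e1, tauf_add, tauf_mul a h0, add_zero, tauf_C_mul,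
          tauf_pow_quo a (by omega) h0 ξ (by omega)]
        exact h4 k hk
      · rw [hbr, hbi j hj]
        have e1 : X ^ k * (C ξ - X) * U * (C ρ * t j) = X ^ k * (C ξ - X) * (C ρ * t j) * U := by
          ring
        rw [e1]
        exact key j
    · rcases eq_or_ne j r with rfl | hj
      · rw [hbr, hbi i hi]
        exact key i
      · rw [hbi i hi, hbi j hj]
        have e1 : X ^ k * (C ξ - X) * (C ρ * t i) * (C ρ * t j) =
            X ^ k * (C (ρ ^ 2 * ξ) + C (-ρ ^ 2) * X) * t i * t j := by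
          rw [C_mul, C_neg, C_pow]
          ring
        rw [e1]
        have e2 : Jk a (k + 1 + e + e) (X ^ k * (C (ρ ^ 2 * ξ) + C (-ρ ^ 2) * X) * t i * t j) :=
          (((Jk_X_pow le_rfl).mul (Jk_lin h1 (by rwa [norm_neg]))).mul (htJ i)).mul (htJ j)
        exact e2.le (by omega) h0
  · rw [Matrix.det_smul, Fintype.card_fin, Matrix.det_mul, Matrix.det_mul, Matrix.det_transpose,
      hank_lin_det _ hmm hmn]
    have e1 : (mon ℚ_[p] a).eval ξ = (a 0 : ℚ_[p])⁻¹ * y ^ 2 := by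
      unfold mon
      rw [eval_mul, eval_C, hf]
    rw [e1]
    simp only [norm_mul, norm_pow, norm_inv, norm_neg, norm_one, one_pow, one_mul]
    have e2 : ‖(a 0 : ℚ_[p])‖⁻¹ ^ n * (‖(mat b).det‖ * (‖(a 0 : ℚ_[p])‖⁻¹ * ‖y‖ ^ 2) *
        ‖(mat b).det‖) = ‖(a 0 : ℚ_[p])‖⁻¹ ^ (n + 1) * (‖(mat b).det‖ * ‖y‖) ^ 2 := by
      rw [pow_succ]
      ring
    rw [e2, hnd, ← pow_mul, inv_pow, inv_mul_eq_iff_eq_mul₀ (pow_ne_zero _ ha0.ne'), ← pow_succ]
    congr 1
    omega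

lemma norm_eval_le (ξ : ℚ_[p]) (B : ℝ) (hB : 1 ≤ B) (hξ : ‖ξ‖ ≤ B) :
    ‖(GZ ℚ_[p] a).eval ξ‖ ≤ B ^ n := by
  have h1 : (GZ ℚ_[p] a).eval ξ = ∑ i : Fin (n + 1), (a i : ℚ_[p]) * ξ ^ (n - (i : ℕ)) := by
    simp [gpol, eval_finsetSum]
  rw [h1]
  refine IsUltrametricDist.norm_sum_le_of_forall_le_of_nonneg (by positivity) fun i _ => ?_
  rw [norm_mul, norm_pow]
  calc ‖(a i : ℚ_[p])‖ * ‖ξ‖ ^ (n - (i : ℕ)) ≤ 1 * B ^ n := by
        refine mul_le_mul (norm_int_le _) ?_ (by positivity) (by norm_num)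
        exact (pow_le_pow_left₀ (norm_nonneg _) hξ _).trans
          (pow_le_pow_right₀ hB (Nat.sub_le _ _))
    _ = B ^ n := one_mul _

lemma core2 {e : ℕ} (hne : n = 2 * e + 4) (h0 : (a 0 : ℚ_[p]) ≠ 0) (x y : ℚ_[p]) (hy : y ≠ 0)
    (hf : (GZ ℚ_[p] a).eval (x ^ 2) = y ^ 2) :
    ∃ G : Matrix (Fin n) (Fin n) ℚ_[p], G.det ≠ 0 ∧
      (∀ k ≤ 1, ∀ i j, ‖((a 0 : ℚ_[p])⁻¹ •
        (G * Hank n (mon ℚ_[p] a) (X ^ k * (C (x ^ 2) - X)) * Gᵀ)) i j‖ ≤ 1) ∧
      ‖((a 0 : ℚ_[p])⁻¹ •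
        (G * Hank n (mon ℚ_[p] a) (C (x ^ 2) - X) * Gᵀ)).det‖ = ‖(a 0 : ℚ_[p])‖ := by
  have hy0 : 0 < ‖y‖ := norm_pos_iff.mpr hy
  rcases le_or_gt ‖x‖ 1 with hx | hx
  · have hx2 : ‖x ^ 2‖ ≤ 1 := by
      rw [norm_pow]
      exact pow_le_one₀ (norm_nonneg _) hx
    have hy1 : ‖y‖ ≤ 1 := by
      have h := norm_eval_le (a := a) (x ^ 2) 1 le_rfl hx2
      rw [hf, norm_pow, one_pow] at h
      nlinarith
    refine core hne h0 (x ^ 2) y y⁻¹ 1 hy hf 0 (by omega) ⟨n - 1, by omega⟩ ?_ ?_ ?_ ?_ ?_ ?_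
      one_ne_zero
    · change e < n - 1
      omega
    · rwa [one_pow, one_mul]
    · simp
    · have e1 : (1 : ℚ_[p]) * y⁻¹ * y ^ 2 = y := by
        field_simp
      rwa [e1]
    · intro k _
      have e1 : y⁻¹ ^ 2 * y ^ 2 * (x ^ 2) ^ (k + 2 * 0) = (x ^ 2) ^ k := by
        field_simp
        rfl
      rw [e1, norm_pow]
      exact pow_le_one₀ (norm_nonneg _) hx2
    · have e1 : (((⟨n - 1, by omega⟩ : Fin n) : ℕ)) = n - 1 := rfl
      rw [e1, Nat.sub_self, norm_one, one_pow, norm_inv, pow_zero]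
      field_simp
  · have hx0 : x ≠ 0 := by
      rintro rfl
      norm_num at hx
    have hxn : 0 < ‖x‖ := norm_pos_iff.mpr hx0
    have hy1 : ‖y‖ ≤ ‖x‖ ^ n := by
      have h := norm_eval_le (a := a) (x ^ 2) (‖x‖ ^ 2) (one_le_pow₀ hx.le) (by rw [norm_pow])
      rw [hf, norm_pow, ← pow_mul, mul_comm 2 n, pow_mul] at h
      exact le_of_sq_le_sq h (by positivity)
    refine core hne h0 (x ^ 2) y (x * (x ^ n)⁻¹ * y⁻¹) x⁻¹ hy hf (e + 1) le_rfl
      ⟨e + 1, by omega⟩ ?_ ?_ ?_ ?_ ?_ ?_ (inv_ne_zero hx0)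
    · change e < e + 1
      omega
    · have e1 : x⁻¹ ^ 2 * x ^ 2 = 1 := by
        field_simp
      rw [e1, norm_one]
    · rw [norm_pow, norm_inv]
      exact pow_le_one₀ (by positivity) (inv_le_one_of_one_le₀ hx.le)
    · have e1 : x⁻¹ * (x * (x ^ n)⁻¹ * y⁻¹) * y ^ 2 = (x ^ n)⁻¹ * y := by
        field_simp
      rw [e1, norm_mul, norm_inv, norm_pow, inv_mul_le_iff₀ (by positivity), mul_one]
      exact hy1
    · intro k hk
      have e1 : (x * (x ^ n)⁻¹ * y⁻¹) ^ 2 * y ^ 2 * (x ^ 2) ^ (k + 2 * (e + 1)) =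
          x⁻¹ ^ 2 * (x ^ 2) ^ k := by
        rw [hne]
        field_simp
        ring
      rw [e1, norm_mul, norm_pow, norm_pow, norm_inv, norm_pow]
      have e2 : ‖x‖⁻¹ ^ 2 * (‖x‖ ^ 2) ^ k ≤ ‖x‖⁻¹ ^ 2 * (‖x‖ ^ 2) ^ 1 :=
        mul_le_mul_of_nonneg_left (pow_le_pow_right₀ (one_le_pow₀ hx.le) hk) (by positivity)
      refine e2.trans (le_of_eq ?_)
      field_simp
    · have e1 : (((⟨e + 1, by omega⟩ : Fin n) : ℕ)) = e + 1 := rfl
      rw [e1, norm_mul, norm_mul, norm_inv, norm_inv, norm_inv, norm_pow, norm_pow, inv_pow]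
      have e2 : e + 1 + (n - 1 - (e + 1)) = n - 1 := by omega
      rw [e2, ← pow_mul]
      obtain ⟨d, hd⟩ : ∃ d, n = d + 1 := ⟨n - 1, by omega⟩
      rw [hd, Nat.add_sub_cancel]
      field_simp
      ring

end padic

end LocLat

theorem loc_lattice {n : ℕ} (hn : 4 ≤ n) (he : Even n) (a : Fin (n + 1) → ℤ) (h0 : a 0 ≠ 0)
    (hl : a (Fin.last n) ≠ 0) (δ : ℚ[X]) (p : ℕ) [Fact p.Prime] (h : MLoc a δ ℚ_[p]) :
    ∃ G : Matrix (Fin n) (Fin n) ℚ_[p], G.det ≠ 0 ∧
      (∀ i j, ‖((a 0 : ℚ_[p])⁻¹ •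
        (G * Hank n (mon ℚ_[p] a) (δ.map (algebraMap ℚ ℚ_[p])) * Gᵀ)) i j‖ ≤ 1) ∧
      (∀ i j, ‖((a 0 : ℚ_[p])⁻¹ •
        (G * Hank n (mon ℚ_[p] a) (X * δ.map (algebraMap ℚ ℚ_[p])) * Gᵀ)) i j‖ ≤ 1) ∧
      ‖((a 0 : ℚ_[p])⁻¹ •
        (G * Hank n (mon ℚ_[p] a) (δ.map (algebraMap ℚ ℚ_[p])) * Gᵀ)).det‖ = ‖(a 0 : ℚ_[p])‖ := by
  obtain ⟨x, y, s, hy, hxy, hs⟩ := h
  obtain ⟨e, hne⟩ : ∃ e, n = 2 * e + 4 := by
    obtain ⟨r, hr⟩ := he
    exact ⟨r - 2, by omega⟩
  have h0' : (a 0 : ℚ_[p]) ≠ 0 := by exact_mod_cast h0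
  have hFm : (mon ℚ_[p] a).Monic := LocLat.mon_monic a h0'
  have hFn : (mon ℚ_[p] a).natDegree = n := LocLat.mon_natDegree a h0'
  have hGF : mon ℚ_[p] a ∣ GZ ℚ_[p] a :=
    ⟨C (a 0 : ℚ_[p]), by rw [LocLat.GZ_eq a h0', mul_comm]⟩
  set D : ℚ_[p][X] := δ.map (algebraMap ℚ ℚ_[p]) with hD
  obtain ⟨G, h1, h2, h4⟩ := LocLat.core2 hne h0' x y hy hxy.symm
  set F := mon ℚ_[p] a with hF
  have hs' : F ∣ (C (x ^ 2) - X) - D * s ^ 2 := hGF.trans hs
  have hsF : IsCoprime s F := by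
    have hF0 : F.eval (x ^ 2) ≠ 0 := by
      have e1 : F.eval (x ^ 2) = (a 0 : ℚ_[p])⁻¹ * y ^ 2 := by
        rw [hF]
        unfold mon
        rw [eval_mul, eval_C, ← hxy]
      rw [e1]
      exact mul_ne_zero (inv_ne_zero h0') (pow_ne_zero _ hy)
    obtain ⟨q, hq⟩ := X_sub_C_dvd_sub_C_eval (a := x ^ 2) (p := F)
    obtain ⟨t, ht⟩ := hs'
    set ε := F.eval (x ^ 2) with hε
    have hee : (C ε⁻¹ : ℚ_[p][X]) * C ε = 1 := by
      rw [← C_mul, inv_mul_cancel₀ hF0, C_1]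
    refine ⟨C ε⁻¹ * q * D * s, C ε⁻¹ * (1 + q * t), ?_⟩
    linear_combination (C ε⁻¹) * hq - C ε⁻¹ * q * ht + hee
  have hsdet := mulMat_det_ne_zero (n := n) _ s hFm hFn hsF
  have key : ∀ k : ℕ, Hank n F (X ^ k * (C (x ^ 2) - X)) =
      mulMat n F s * Hank n F (X ^ k * D) * (mulMat n F s)ᵀ := by
    intro k
    rw [← hank_mul_sq _ _ _ hFm hFn]
    refine hank_congr _ _ _ hFm ?_
    have e1 : X ^ k * (C (x ^ 2) - X) - X ^ k * D * s ^ 2 =
        X ^ k * ((C (x ^ 2) - X) - D * s ^ 2) := by ring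
    rw [e1]
    exact hs'.mul_left (X ^ k)
  have e3 : ∀ H : Matrix (Fin n) (Fin n) ℚ_[p],
      G * mulMat n F s * H * (G * mulMat n F s)ᵀ =
        G * (mulMat n F s * H * (mulMat n F s)ᵀ) * Gᵀ := by
    intro H
    rw [Matrix.transpose_mul]
    simp only [Matrix.mul_assoc]
  have k0 := key 0
  have k1 := key 1
  rw [pow_zero, one_mul, one_mul] at k0
  rw [pow_one] at k1
  refine ⟨G * mulMat n F s, ?_, ?_, ?_, ?_⟩
  · rw [Matrix.det_mul]
    exact mul_ne_zero h1 hsdet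
  · rw [e3, ← k0]
    have h := h2 0 (by norm_num)
    rwa [pow_zero, one_mul] at h
  · rw [e3, ← k1]
    have h := h2 1 le_rfl
    rwa [pow_one] at h
  · rw [e3, ← k0]
    exact h4

end Stoll308.BF
end

section
set_option autoImplicit false

/-!
A rational matrix with prescribed classes modulo `GL_n(ℤ_p)`.
-/

namespace Stoll308.BG

open Matrix

namespace Glue

variable {n : ℕ}

/-- integral entries and unit determinant -/
def UP (p : ℕ) [Fact p.Prime] (M : Matrix (Fin n) (Fin n) ℚ_[p]) : Prop :=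
  (∀ i j, ‖M i j‖ ≤ 1) ∧ ‖M.det‖ = 1

/-- base change -/
noncomputable abbrev bc (p : ℕ) [Fact p.Prime] (T : Matrix (Fin n) (Fin n) ℚ) :
    Matrix (Fin n) (Fin n) ℚ_[p] := T.map (algebraMap ℚ ℚ_[p])

lemma bc_mul (p : ℕ) [Fact p.Prime] (S T : Matrix (Fin n) (Fin n) ℚ) :
    bc p (S * T) = bc p S * bc p T := Matrix.map_mul

lemma bc_one (p : ℕ) [Fact p.Prime] : bc p (1 : Matrix (Fin n) (Fin n) ℚ) = 1 :=
  Matrix.map_one _ (map_zero _) (map_one _)

lemma bc_det (p : ℕ) [Fact p.Prime] (T : Matrix (Fin n) (Fin n) ℚ) :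
    (bc p T).det = algebraMap ℚ ℚ_[p] T.det := (RingHom.map_det (algebraMap ℚ ℚ_[p]) T).symm

section

variable {p : ℕ} [hp : Fact p.Prime]

lemma norm_add_le_one {x y : ℚ_[p]} (hx : ‖x‖ ≤ 1) (hy : ‖y‖ ≤ 1) : ‖x + y‖ ≤ 1 :=
  (Padic.nonarchimedean x y).trans (max_le hx hy)

lemma norm_sum_le_one {ι : Type*} (s : Finset ι) (f : ι → ℚ_[p]) (h : ∀ i ∈ s, ‖f i‖ ≤ 1) :
    ‖∑ i ∈ s, f i‖ ≤ 1 := by
  classical
  induction s using Finset.induction_on with
  | empty => simp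
  | insert a s ha ih =>
    rw [Finset.sum_insert ha]
    exact norm_add_le_one (h a (Finset.mem_insert_self a s))
      (ih fun i hi => h i (Finset.mem_insert_of_mem hi))

lemma norm_mul_le_one {x y : ℚ_[p]} (hx : ‖x‖ ≤ 1) (hy : ‖y‖ ≤ 1) : ‖x * y‖ ≤ 1 := by
  rw [norm_mul]; exact mul_le_one₀ hx (norm_nonneg _) hy

lemma int_mul {M N : Matrix (Fin n) (Fin n) ℚ_[p]} (hM : ∀ i j, ‖M i j‖ ≤ 1)
    (hN : ∀ i j, ‖N i j‖ ≤ 1) (i j : Fin n) : ‖(M * N) i j‖ ≤ 1 := by
  rw [Matrix.mul_apply]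
  exact norm_sum_le_one _ _ fun k _ => norm_mul_le_one (hM i k) (hN k j)

lemma UP.mul {M N : Matrix (Fin n) (Fin n) ℚ_[p]} (hM : UP p M) (hN : UP p N) : UP p (M * N) :=
  ⟨int_mul hM.1 hN.1, by rw [det_mul, norm_mul, hM.2, hN.2, one_mul]⟩

lemma UP.one : UP p (1 : Matrix (Fin n) (Fin n) ℚ_[p]) := by
  refine ⟨fun i j => ?_, by simp⟩
  rw [Matrix.one_apply]
  split_ifs <;> simp

lemma UP.diag {d : Fin n → ℚ_[p]} (hd : ∀ i, ‖d i‖ = 1) : UP p (diagonal d) := by
  refine ⟨fun i j => ?_, ?_⟩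
  · rw [Matrix.diagonal_apply]
    split_ifs
    · exact (hd i).le
    · simp
  · rw [det_diagonal, norm_prod, Finset.prod_congr rfl fun i _ => hd i, Finset.prod_const_one]

lemma UP.transvection {i j : Fin n} (hij : i ≠ j) {c : ℚ_[p]} (hc : ‖c‖ ≤ 1) :
    UP p (Matrix.transvection i j c) := by
  refine ⟨fun a b => ?_, by rw [det_transvection_of_ne _ _ hij, norm_one]⟩
  rw [Matrix.transvection, Matrix.add_apply]
  refine norm_add_le_one (UP.one.1 a b) ?_
  rw [Matrix.single_apply]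
  split_ifs
  · exact hc
  · simp

lemma map_transvection {R S : Type*} [CommRing R] [CommRing S] (f : R →+* S) (i j : Fin n) (c : R) :
    (Matrix.transvection i j c).map f = Matrix.transvection i j (f c) := by
  ext a b
  rw [Matrix.map_apply, Matrix.transvection, Matrix.transvection, Matrix.add_apply,
    Matrix.add_apply, map_add, Matrix.one_apply, Matrix.one_apply, Matrix.single_apply,
    Matrix.single_apply]
  split_ifs <;> simp

lemma exists_approx (c : ℚ_[p]) {ε : ℝ} (hε : 0 < ε) :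
    ∃ c' : ℚ, ‖algebraMap ℚ ℚ_[p] c' - c‖ ≤ ε ∧
      ∀ (q : ℕ) [Fact q.Prime], q ≠ p → ‖algebraMap ℚ ℚ_[q] c'‖ ≤ 1 := by
  have hp1 : (1 : ℝ) < p := by exact_mod_cast hp.out.one_lt
  have hp0 : (0 : ℝ) < p := by linarith
  obtain ⟨k, hk⟩ : ∃ k : ℕ, ‖c‖ ≤ (p : ℝ) ^ k := by
    obtain ⟨k, hk⟩ := pow_unbounded_of_one_lt ‖c‖ hp1
    exact ⟨k, hk.le⟩
  have hnp : ‖((p : ℚ_[p]) ^ k)‖ = ((p : ℝ) ^ k)⁻¹ := by
    rw [norm_pow, Padic.norm_p, inv_pow]
  have hx : ‖(p : ℚ_[p]) ^ k * c‖ ≤ 1 := by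
    rw [norm_mul, hnp, inv_mul_le_iff₀ (by positivity), mul_one]
    exact hk
  set x : ℤ_[p] := ⟨(p : ℚ_[p]) ^ k * c, hx⟩ with hxdef
  obtain ⟨m, hm⟩ := (PadicInt.denseRange_natCast (p := p)).exists_dist_lt x
    (ε := ε * ((p : ℝ) ^ k)⁻¹) (by positivity)
  refine ⟨(m : ℚ) / (p : ℚ) ^ k, ?_, ?_⟩
  · have hp' : ((p : ℚ_[p]) ^ k) ≠ 0 := pow_ne_zero _ (by exact_mod_cast hp.out.ne_zero)
    have h1 : algebraMap ℚ ℚ_[p] ((m : ℚ) / (p : ℚ) ^ k) - c =
        -((((x : ℤ_[p]) : ℚ_[p])) - (m : ℚ_[p])) / (p : ℚ_[p]) ^ k := by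
      rw [map_div₀, map_pow, map_natCast, map_natCast, hxdef]
      field_simp
      ring
    rw [h1, norm_div, norm_neg, hnp, div_inv_eq_mul]
    have h2 : dist x (m : ℤ_[p]) = ‖((x : ℤ_[p]) : ℚ_[p]) - (m : ℚ_[p])‖ := by
      rw [dist_eq_norm]
      rfl
    rw [h2] at hm
    calc ‖((x : ℤ_[p]) : ℚ_[p]) - (m : ℚ_[p])‖ * (p : ℝ) ^ k
        ≤ (ε * ((p : ℝ) ^ k)⁻¹) * (p : ℝ) ^ k := by gcongr
      _ = ε := by field_simp
  · intro q hq hqp
    rw [map_div₀, map_pow, map_natCast, map_natCast, norm_div, norm_pow]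
    have h1 : ‖(p : ℚ_[q])‖ = 1 := by
      rw [Padic.norm_natCast_eq_one_iff]
      exact (Nat.coprime_primes hq.out hp.out).2 hqp
    rw [h1, one_pow, div_one]
    exact_mod_cast Padic.norm_int_le_one (p := q) (m : ℤ)

/-- `T` is invertible away from `p` -/
def Away (p : ℕ) (T : Matrix (Fin n) (Fin n) ℚ) : Prop :=
  ∀ (q : ℕ) [Fact q.Prime], q ≠ p → UP q (bc q T)

/-- `h` is equivalent to a matrix which is invertible away from `p`. -/
def HH (p : ℕ) [Fact p.Prime] (h : Matrix (Fin n) (Fin n) ℚ_[p]) : Prop :=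
  ∃ T : Matrix (Fin n) (Fin n) ℚ, Away p T ∧ UP p (bc p T * h⁻¹)

lemma HH.transvec {h : Matrix (Fin n) (Fin n) ℚ_[p]} (hdet : h.det ≠ 0) (hh : HH p h)
    (t : TransvectionStruct (Fin n) ℚ_[p]) : HH p (h * t.toMatrix) := by
  obtain ⟨T, hT1, hT2⟩ := hh
  obtain ⟨i, j, hij, c⟩ := t
  rw [TransvectionStruct.toMatrix_mk]
  set Tp := bc p T with hTp
  have hTdet : Tp.det ≠ 0 := by
    intro h0
    have := hT2.2
    rw [det_mul, h0, zero_mul, norm_zero] at this
    exact zero_ne_one this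
  have hTu : IsUnit Tp.det := isUnit_iff_ne_zero.2 hTdet
  set R : ℝ := ∑ a, ∑ b, ‖Tp a b‖ with hR
  set R' : ℝ := ∑ a, ∑ b, ‖Tp⁻¹ a b‖ with hR'
  have hRa : ∀ a b, ‖Tp a b‖ ≤ R := fun a b =>
    (Finset.single_le_sum (f := fun b => ‖Tp a b‖) (fun _ _ => norm_nonneg _)
      (Finset.mem_univ b)).trans
    (Finset.single_le_sum (f := fun a => ∑ b, ‖Tp a b‖)
      (fun _ _ => Finset.sum_nonneg fun _ _ => norm_nonneg _) (Finset.mem_univ a))
  have hRa' : ∀ a b, ‖Tp⁻¹ a b‖ ≤ R' := fun a b =>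
    (Finset.single_le_sum (f := fun b => ‖Tp⁻¹ a b‖) (fun _ _ => norm_nonneg _)
      (Finset.mem_univ b)).trans
    (Finset.single_le_sum (f := fun a => ∑ b, ‖Tp⁻¹ a b‖)
      (fun _ _ => Finset.sum_nonneg fun _ _ => norm_nonneg _) (Finset.mem_univ a))
  have hR0 : 0 ≤ R := Finset.sum_nonneg fun _ _ => Finset.sum_nonneg fun _ _ => norm_nonneg _
  have hR0' : 0 ≤ R' := Finset.sum_nonneg fun _ _ => Finset.sum_nonneg fun _ _ => norm_nonneg _
  obtain ⟨c', hc1, hc2⟩ := exists_approx c (ε := ((R + 1) * (R' + 1))⁻¹) (by positivity)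
  refine ⟨T * Matrix.transvection i j c', ?_, ?_⟩
  · intro q _ hqp
    rw [bc_mul]
    refine (hT1 q hqp).mul ?_
    unfold bc
    rw [map_transvection]
    exact UP.transvection hij (hc2 q hqp)
  · set e := algebraMap ℚ ℚ_[p] c' - c with he
    set M := Tp * Matrix.transvection i j e * Tp⁻¹ with hM
    have hMU : UP p M := by
      refine ⟨fun a b => ?_, ?_⟩
      · have h1 : M = 1 + Tp * Matrix.single i j e * Tp⁻¹ := by
          rw [hM, Matrix.transvection, Matrix.mul_add, Matrix.mul_one, Matrix.add_mul,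
            Matrix.mul_nonsing_inv _ hTu]
        rw [h1, Matrix.add_apply]
        refine norm_add_le_one (UP.one.1 a b) ?_
        have h2 : (Tp * Matrix.single i j e * Tp⁻¹) a b = Tp a i * e * Tp⁻¹ j b := by
          rw [Matrix.mul_apply, Finset.sum_eq_single j]
          · rw [Matrix.mul_single_apply_same]
          · intro k _ hk
            rw [Matrix.mul_single_apply_of_ne _ _ _ _ _ hk, zero_mul]
          · intro h; exact absurd (Finset.mem_univ j) h
        rw [h2, norm_mul, norm_mul]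
        calc ‖Tp a i‖ * ‖e‖ * ‖Tp⁻¹ j b‖ ≤ (R + 1) * ((R + 1) * (R' + 1))⁻¹ * (R' + 1) := by
              gcongr
              · exact (hRa a i).trans (by linarith)
              · exact (hRa' j b).trans (by linarith)
          _ = 1 := by field_simp
      · rw [hM, det_mul, det_mul, det_transvection_of_ne _ _ hij, mul_one, ← det_mul,
          Matrix.mul_nonsing_inv _ hTu, det_one, norm_one]
    have hEdet : (h * Matrix.transvection i j c).det ≠ 0 := by
      rw [det_mul, det_transvection_of_ne _ _ hij, mul_one]; exact hdet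
    have hEu : IsUnit (h * Matrix.transvection i j c).det := isUnit_iff_ne_zero.2 hEdet
    have hhu : IsUnit h.det := isUnit_iff_ne_zero.2 hdet
    have h3 : M * (Tp * h⁻¹) * (h * Matrix.transvection i j c) =
        bc p (T * Matrix.transvection i j c') := by
      have h4 : M * (Tp * h⁻¹) * (h * Matrix.transvection i j c) =
          Tp * Matrix.transvection i j e * (Tp⁻¹ * Tp) * (h⁻¹ * h) *
            Matrix.transvection i j c := by
        rw [hM]; simp only [Matrix.mul_assoc]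
      rw [h4, Matrix.nonsing_inv_mul _ hTu, Matrix.nonsing_inv_mul _ hhu, Matrix.mul_one,
        Matrix.mul_one, Matrix.mul_assoc, Matrix.transvection_mul_transvection_same _ _ hij,
        bc_mul]
      unfold bc
      rw [map_transvection, he, sub_add_cancel]
    rw [← h3, Matrix.mul_assoc, Matrix.mul_nonsing_inv _ hEu, Matrix.mul_one]
    exact hMU.mul hT2

lemma HH.list {h : Matrix (Fin n) (Fin n) ℚ_[p]} (hdet : h.det ≠ 0) (hh : HH p h)
    (L : List (TransvectionStruct (Fin n) ℚ_[p])) :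
    HH p (h * (L.map TransvectionStruct.toMatrix).prod) := by
  induction L generalizing h with
  | nil => simpa using hh
  | cons t L ih =>
    rw [List.map_cons, List.prod_cons, ← Matrix.mul_assoc]
    exact ih (by rw [det_mul, TransvectionStruct.det, mul_one]; exact hdet) (hh.transvec hdet t)

lemma HH.diagPow {h : Matrix (Fin n) (Fin n) ℚ_[p]} (hh : HH p h)
    (v : Fin n → ℤ) : HH p (h * diagonal fun i => (p : ℚ_[p]) ^ v i) := by
  obtain ⟨T, hT1, hT2⟩ := hh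
  have hmap : ∀ (q : ℕ) [Fact q.Prime], bc q (diagonal fun i => (p : ℚ) ^ v i) =
      diagonal fun i => (p : ℚ_[q]) ^ v i := by
    intro q _
    unfold bc
    rw [Matrix.diagonal_map (map_zero _)]
    congr 1
    funext i
    simp only [map_zpow₀, map_natCast]
  refine ⟨T * diagonal fun i => (p : ℚ) ^ v i, ?_, ?_⟩
  · intro q hq hqp
    rw [bc_mul, hmap]
    refine (hT1 q hqp).mul (UP.diag fun i => ?_)
    have h1 : ‖(p : ℚ_[q])‖ = 1 := by
      rw [Padic.norm_natCast_eq_one_iff]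
      exact (Nat.coprime_primes hq.out hp.out).2 hqp
    rw [norm_zpow, h1, _root_.one_zpow]
  · have hp' : (p : ℚ_[p]) ≠ 0 := by exact_mod_cast hp.out.ne_zero
    have hD : IsUnit (diagonal fun i => (p : ℚ_[p]) ^ v i).det := by
      rw [det_diagonal, isUnit_iff_ne_zero]
      exact Finset.prod_ne_zero_iff.2 fun i _ => zpow_ne_zero _ hp'
    rw [bc_mul, hmap, Matrix.mul_inv_rev, Matrix.mul_assoc, ← Matrix.mul_assoc (diagonal _),
      Matrix.mul_nonsing_inv _ hD, Matrix.one_mul]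
    exact hT2

lemma HH.ofUnits {u : Fin n → ℚ_[p]} (hu : ∀ i, ‖u i‖ = 1) : HH p (diagonal u) := by
  refine ⟨1, fun q _ _ => by rw [bc_one]; exact UP.one, ?_⟩
  have hu0 : ∀ i, u i ≠ 0 := fun i h => by
    have := hu i; rw [h, norm_zero] at this; exact zero_ne_one this
  have hD : IsUnit (diagonal u).det := by
    rw [det_diagonal, isUnit_iff_ne_zero]
    exact Finset.prod_ne_zero_iff.2 fun i _ => hu0 i
  have h1 : (diagonal u)⁻¹ = diagonal fun i => (u i)⁻¹ := by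
    apply Matrix.inv_eq_right_inv
    rw [Matrix.diagonal_mul_diagonal, ← Matrix.diagonal_one]
    congr 1
    funext i
    exact mul_inv_cancel₀ (hu0 i)
  rw [bc_one, Matrix.one_mul, h1]
  exact UP.diag fun i => by rw [norm_inv, hu i, inv_one]

/-- a unit diagonal matrix can be moved to the left of transvections -/
lemma list_mul_diag {u : Fin n → ℚ_[p]} (hu : ∀ i, u i ≠ 0)
    (L : List (TransvectionStruct (Fin n) ℚ_[p])) :
    ∃ L' : List (TransvectionStruct (Fin n) ℚ_[p]),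
      (L.map TransvectionStruct.toMatrix).prod * diagonal u =
        diagonal u * (L'.map TransvectionStruct.toMatrix).prod := by
  induction L with
  | nil => exact ⟨[], by simp⟩
  | cons t L ih =>
    obtain ⟨L', hL'⟩ := ih
    obtain ⟨i, j, hij, c⟩ := t
    refine ⟨⟨i, j, hij, (u i)⁻¹ * c * u j⟩ :: L', ?_⟩
    rw [List.map_cons, List.prod_cons, List.map_cons, List.prod_cons, Matrix.mul_assoc, hL',
      ← Matrix.mul_assoc, ← Matrix.mul_assoc, TransvectionStruct.toMatrix_mk,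
      TransvectionStruct.toMatrix_mk]
    congr 1
    ext a b
    rw [Matrix.mul_diagonal, Matrix.diagonal_mul, Matrix.transvection, Matrix.transvection,
      Matrix.add_apply, Matrix.add_apply, Matrix.one_apply, Matrix.single_apply,
      Matrix.single_apply]
    by_cases hab : a = b
    · subst hab
      by_cases h1 : i = a ∧ j = a
      · exact absurd (h1.1.trans h1.2.symm) hij
      · simp [h1]
    · by_cases h1 : i = a ∧ j = b
      · obtain ⟨rfl, rfl⟩ := h1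
        simp only [hab, if_false, if_true, and_self, zero_mul, zero_add, mul_zero]
        field_simp [hu i]
      · simp [h1, hab]

lemma HH.all {h : Matrix (Fin n) (Fin n) ℚ_[p]} (hdet : h.det ≠ 0) : HH p h := by
  obtain ⟨L, L', D, hL⟩ := Matrix.Pivot.exists_list_transvec_mul_diagonal_mul_list_transvec h
  have hD : ∀ i, D i ≠ 0 := by
    intro i hi
    apply hdet
    rw [hL, det_mul, det_mul, det_diagonal, Finset.prod_eq_zero (Finset.mem_univ i) hi, mul_zero,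
      zero_mul]
  have hp' : (p : ℚ_[p]) ≠ 0 := by exact_mod_cast hp.out.ne_zero
  set v : Fin n → ℤ := fun i => (D i).valuation with hv
  set u : Fin n → ℚ_[p] := fun i => D i / (p : ℚ_[p]) ^ v i with hu
  have hu1 : ∀ i, ‖u i‖ = 1 := by
    intro i
    simp only [hu, hv]
    rw [norm_div, Padic.norm_eq_zpow_neg_valuation (hD i), norm_zpow, Padic.norm_p, _root_.inv_zpow,
      _root_.zpow_neg, div_self]
    exact inv_ne_zero (zpow_ne_zero _ (by exact_mod_cast hp.out.ne_zero))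
  have hu0 : ∀ i, u i ≠ 0 := fun i => div_ne_zero (hD i) (zpow_ne_zero _ hp')
  have hDu : diagonal D = diagonal u * diagonal fun i => (p : ℚ_[p]) ^ v i := by
    rw [Matrix.diagonal_mul_diagonal]
    congr 1
    funext i
    simp only [hu]
    rw [div_mul_cancel₀ _ (zpow_ne_zero _ hp')]
  obtain ⟨L'', hL''⟩ := list_mul_diag hu0 L
  have h1 : h = diagonal u * (L''.map TransvectionStruct.toMatrix).prod *
      (diagonal fun i => (p : ℚ_[p]) ^ v i) * (L'.map TransvectionStruct.toMatrix).prod := by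
    rw [hL, hDu, ← Matrix.mul_assoc, hL'']
  have hdu : (diagonal u).det ≠ 0 := by
    rw [det_diagonal]; exact Finset.prod_ne_zero_iff.2 fun i _ => hu0 i
  rw [h1]
  refine HH.list ?_ (HH.diagPow (HH.list hdu (HH.ofUnits hu1) L'') v) L'
  rw [det_mul, det_mul, TransvectionStruct.det_toMatrix_prod, mul_one, det_diagonal (d := fun i => (p : ℚ_[p]) ^ v i)]
  exact mul_ne_zero hdu (Finset.prod_ne_zero_iff.2 fun i _ => zpow_ne_zero _ hp')

end

end Glue

open Glue in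
theorem glue {n : ℕ} (S : Finset ℕ)
    (g : ∀ (p : ℕ) [Fact p.Prime], Matrix (Fin n) (Fin n) ℚ_[p])
    (hg : ∀ (p : ℕ) [Fact p.Prime], p ∈ S → (g p).det ≠ 0) :
    ∃ G : Matrix (Fin n) (Fin n) ℚ, G.det ≠ 0 ∧
      (∀ (p : ℕ) [Fact p.Prime], p ∈ S →
        (∀ i j, ‖(G.map (algebraMap ℚ ℚ_[p]) * (g p)⁻¹) i j‖ ≤ 1) ∧
        ‖(G.map (algebraMap ℚ ℚ_[p]) * (g p)⁻¹).det‖ = 1) ∧
      (∀ (p : ℕ) [Fact p.Prime], p ∉ S →
        (∀ i j, ‖(G.map (algebraMap ℚ ℚ_[p])) i j‖ ≤ 1) ∧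
        ‖(G.map (algebraMap ℚ ℚ_[p])).det‖ = 1) := by
  classical
  change ∃ G : Matrix (Fin n) (Fin n) ℚ, G.det ≠ 0 ∧
      (∀ (p : ℕ) [Fact p.Prime], p ∈ S → UP p (bc p G * (g p)⁻¹)) ∧
      (∀ (p : ℕ) [Fact p.Prime], p ∉ S → UP p (bc p G))
  induction S using Finset.induction_on with
  | empty =>
    refine ⟨1, by simp, fun p _ hp => absurd hp (Finset.notMem_empty p), fun p _ _ => ?_⟩
    rw [bc_one]; exact UP.one
  | insert a S ha ih =>
    obtain ⟨G, hG0, hG1, hG2⟩ := ih (fun p _ hp => hg p (Finset.mem_insert_of_mem hp))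
    by_cases hprime : a.Prime
    · have : Fact a.Prime := ⟨hprime⟩
      have hGa : (bc a G).det ≠ 0 := by
        rw [bc_det]
        exact (map_ne_zero_iff _ (algebraMap ℚ ℚ_[a]).injective).2 hG0
      have hGu : IsUnit (bc a G).det := isUnit_iff_ne_zero.2 hGa
      have hga := hg a (Finset.mem_insert_self a S)
      have hdet : (g a * (bc a G)⁻¹).det ≠ 0 := by
        rw [det_mul, Matrix.det_nonsing_inv, Ring.inverse_eq_inv']
        exact mul_ne_zero hga (inv_ne_zero hGa)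
      obtain ⟨T, hT1, hT2⟩ := HH.all hdet
      have hinv : (g a * (bc a G)⁻¹)⁻¹ = bc a G * (g a)⁻¹ := by
        rw [Matrix.mul_inv_rev, Matrix.nonsing_inv_nonsing_inv _ hGu]
      rw [hinv] at hT2
      have hTdet : T.det ≠ 0 := by
        intro h0
        have h1 := hT2.2
        rw [det_mul, bc_det, h0, map_zero, zero_mul, norm_zero] at h1
        exact zero_ne_one h1
      refine ⟨T * G, by rw [det_mul]; exact mul_ne_zero hTdet hG0, ?_, ?_⟩
      · intro p _ hp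
        rw [bc_mul, Matrix.mul_assoc]
        by_cases hpa : p = a
        · subst hpa; exact hT2
        · exact (hT1 p hpa).mul (hG1 p ((Finset.mem_insert.1 hp).resolve_left hpa))
      · intro p _ hp
        rw [Finset.mem_insert, not_or] at hp
        rw [bc_mul]
        exact (hT1 p hp.1).mul (hG2 p hp.2)
    · refine ⟨G, hG0, ?_, ?_⟩
      · intro p hpp hp
        refine hG1 p ((Finset.mem_insert.1 hp).resolve_left ?_)
        rintro rfl; exact hprime hpp.out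
      · intro p _ hp
        rw [Finset.mem_insert, not_or] at hp
        exact hG2 p hp.2

end Stoll308.BG
end

section
set_option autoImplicit false

/-!
Finiteness: the elements of a number field with even valuations outside a finite set of primes are
in finitely many square classes, up to squares (Minkowski's theorem).
-/

namespace Stoll308.Gen

open Finset NumberField NumberField.InfinitePlace NumberField.mixedEmbedding MeasureTheory
open scoped nonZeroDivisors NNReal ENNReal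

/-- Every ideal is `b c²` with `b` the product of the primes of odd multiplicity. -/
lemma exists_decomp {R : Type*} [CommRing R] [IsDedekindDomain R] {I M : Ideal R} (hI : I ≠ 0)
    (h : ∀ q : Ideal R, Prime q → Odd ((UniqueFactorizationMonoid.normalizedFactors I).count q) →
      q ∣ M) : ∃ b c : Ideal R, I = b * c ^ 2 ∧ b ∣ M := by
  classical
  set s := UniqueFactorizationMonoid.normalizedFactors I with hs
  refine ⟨∏ q ∈ s.toFinset, q ^ (s.count q % 2), ∏ q ∈ s.toFinset, q ^ (s.count q / 2), ?_, ?_⟩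
  · rw [← prod_pow, ← prod_mul_distrib]
    have h1 : I = s.prod := (Ideal.prod_normalizedFactors_eq_self hI).symm
    conv_lhs => rw [h1, prod_multiset_count]
    refine prod_congr rfl fun q _ => ?_
    rw [← pow_mul, ← pow_add]
    congr 1
    omega
  · have h2 : ∏ q ∈ s.toFinset, q ^ (s.count q % 2) =
        ∏ q ∈ s.toFinset.filter (fun q => Odd (s.count q)), q := by
      rw [prod_filter]
      refine prod_congr rfl fun q _ => ?_
      split_ifs with h3
      · rw [Nat.odd_iff.1 h3, pow_one]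
      · rw [Nat.not_odd_iff.1 h3, pow_zero]
    rw [h2]
    apply Finset.prod_primes_dvd
    · intro q hq
      rw [mem_filter, Multiset.mem_toFinset] at hq
      exact UniqueFactorizationMonoid.prime_of_normalized_factor q hq.1
    · intro q hq
      rw [mem_filter, Multiset.mem_toFinset] at hq
      exact h q (UniqueFactorizationMonoid.prime_of_normalized_factor q hq.1) hq.2

variable (K : Type*) [Field K] [NumberField K]

theorem exists_square_reps (Bd : ℝ) : ∃ S : Set K, S.Finite ∧ ∀ x : 𝓞 K, x ≠ 0 →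
    ∀ b c : Ideal (𝓞 K), Ideal.span {x} = b * c ^ 2 → (Ideal.absNorm b : ℝ) ≤ Bd →
      ∃ ε ∈ S, ∃ γ : K, γ ≠ 0 ∧ (x : K) = ε * γ ^ 2 := by
  classical
  set V : ℝ≥0∞ := volume (ZSpan.fundamentalDomain (latticeBasis K)) *
    (2 : ℝ≥0∞) ^ (Module.finrank ℝ (mixedSpace K)) with hV
  have hVtop : V ≠ ⊤ := by
    have h1 := minkowskiBound_lt_top K (1 : (FractionalIdeal (𝓞 K)⁰ K)ˣ)
    unfold minkowskiBound at h1
    rw [volume_fundamentalDomain_fractionalIdealLatticeBasis] at h1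
    simp only [Units.val_one, map_one, Rat.cast_one, ENNReal.ofReal_one, one_mul] at h1
    exact h1.ne
  set v : ℝ := V.toReal with hv
  have hv0 : 0 ≤ v := ENNReal.toReal_nonneg
  have hVv : V = ENNReal.ofReal v := (ENNReal.ofReal_toReal hVtop).symm
  set t : ℝ≥0 := Real.toNNReal (v * Real.sqrt Bd + 1) with ht
  have ht' : (t : ℝ) = v * Real.sqrt Bd + 1 := by
    rw [ht, Real.coe_toNNReal _ (by positivity)]
  have ht1 : (1 : ℝ) ≤ t := by
    rw [ht']
    have : 0 ≤ v * Real.sqrt Bd := by positivity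
    linarith
  refine ⟨{z : K | IsIntegral ℤ z ∧ ∀ φ : K →+* ℂ, ‖φ z‖ ≤ (t : ℝ) ^ 2},
    Embeddings.finite_of_norm_le K ℂ _, ?_⟩
  intro x hx b c hbc hb
  have hxK : (x : K) ≠ 0 := RingOfIntegers.coe_ne_zero_iff.2 hx
  have hspan : Ideal.span {x} ≠ 0 := by
    rw [Ideal.zero_eq_bot, Ne, Ideal.span_singleton_eq_bot]
    exact hx
  have hc0 : c ≠ 0 := by
    rintro rfl
    apply hspan
    rw [hbc]
    simp
  have hb0 : b ≠ 0 := by
    rintro rfl
    apply hspan
    rw [hbc]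
    simp
  have hcF : (c : FractionalIdeal (𝓞 K)⁰ K) ≠ 0 := by
    rw [Ne, FractionalIdeal.coeIdeal_eq_zero]
    exact hc0
  set J : (FractionalIdeal (𝓞 K)⁰ K)ˣ := (Units.mk0 (c : FractionalIdeal (𝓞 K)⁰ K) hcF)⁻¹ with hJ
  have hNc : (0 : ℝ) < Ideal.absNorm c := by
    have : Ideal.absNorm c ≠ 0 := by
      rw [Ne, Ideal.absNorm_eq_zero_iff]
      exact hc0
    exact_mod_cast Nat.pos_of_ne_zero this
  have hNb : (0 : ℝ) < Ideal.absNorm b := by
    have : Ideal.absNorm b ≠ 0 := by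
      rw [Ne, Ideal.absNorm_eq_zero_iff]
      exact hb0
    exact_mod_cast Nat.pos_of_ne_zero this
  have hJN : ((FractionalIdeal.absNorm (J : FractionalIdeal (𝓞 K)⁰ K) : ℚ) : ℝ) =
      (Ideal.absNorm c : ℝ)⁻¹ := by
    have h1 : (J : FractionalIdeal (𝓞 K)⁰ K) = (c : FractionalIdeal (𝓞 K)⁰ K)⁻¹ := by
      rw [hJ]; simp
    rw [h1, map_inv₀, FractionalIdeal.coeIdeal_absNorm]
    simp
  -- the box
  have hwx : ∀ w : InfinitePlace K, 0 < w (x : K) := fun w => (pos_iff (w := w)).2 hxK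
  set r : InfinitePlace K → ℝ≥0 := fun w => Real.toNNReal (Real.sqrt (w (x : K))) with hr
  have hrr : ∀ w, (r w : ℝ) = Real.sqrt (w (x : K)) := fun w =>
    Real.coe_toNNReal _ (Real.sqrt_nonneg _)
  have hr0 : ∀ w, 0 < r w := fun w => by
    rw [← NNReal.coe_pos, hrr]
    exact Real.sqrt_pos.2 (hwx w)
  have hrsq : ∀ w, (r w : ℝ) ^ 2 = w (x : K) := fun w => by
    rw [hrr, Real.sq_sqrt (hwx w).le]
  set F : InfinitePlace K → ℝ≥0 := fun w => t / r w with hF
  have hprodr : (∏ w, (r w : ℝ) ^ (mult w)) = Real.sqrt (Ideal.absNorm b) * Ideal.absNorm c := by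
    have h1 : (∏ w, (r w : ℝ) ^ (mult w)) ^ 2 = (Ideal.absNorm b) * (Ideal.absNorm c : ℝ) ^ 2 := by
      rw [← prod_pow]
      have h2 : ∏ w : InfinitePlace K, (((r w : ℝ) ^ (mult w)) ^ 2) =
          ∏ w : InfinitePlace K, w (x : K) ^ mult w := by
        refine prod_congr rfl fun w _ => ?_
        rw [← hrsq w]
        ring
      rw [h2, prod_eq_abs_norm]
      have h3 := Ideal.absNorm_span_singleton (S := 𝓞 K) x
      rw [hbc, map_mul, map_pow] at h3
      have h4 : |(Algebra.norm ℚ (x : K))| = (((Algebra.norm ℤ x).natAbs : ℕ) : ℚ) := by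
        rw [← Algebra.coe_norm_int, Nat.cast_natAbs, Int.cast_abs]
      rw [h4, ← h3]
      push_cast
      ring
    have h5 : 0 ≤ ∏ w, (r w : ℝ) ^ (mult w) := by positivity
    rw [← Real.sqrt_sq h5, h1, Real.sqrt_mul (Nat.cast_nonneg _), Real.sqrt_sq hNc.le]
  have hprodF : (∏ w, (F w : ℝ) ^ (mult w)) =
      (t : ℝ) ^ (Module.finrank ℚ K) / (Real.sqrt (Ideal.absNorm b) * Ideal.absNorm c) := by
    rw [← hprodr]
    have h1 : ∀ w, (F w : ℝ) ^ (mult w) = (t : ℝ) ^ (mult w) / (r w : ℝ) ^ (mult w) := fun w => by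
      rw [hF]
      simp only [NNReal.coe_div, div_pow]
    rw [prod_congr rfl fun w _ => h1 w, prod_div_distrib, prod_pow_eq_pow_sum, sum_mult_eq]
  have hmain : minkowskiBound K J < volume (convexBodyLT K F) := by
    unfold minkowskiBound
    rw [volume_fundamentalDomain_fractionalIdealLatticeBasis, convexBodyLT_volume, mul_assoc, ← hV,
      hJN, hVv, ← ENNReal.ofReal_mul (by positivity)]
    have h1 : ENNReal.ofReal (∏ w, (F w : ℝ) ^ (mult w)) ≤
        (convexBodyLTFactor K : ℝ≥0∞) * ((∏ w, (F w) ^ (mult w) : ℝ≥0) : ℝ≥0∞) := by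
      have h2 : ENNReal.ofReal (∏ w, (F w : ℝ) ^ (mult w)) =
          ((∏ w, (F w) ^ (mult w) : ℝ≥0) : ℝ≥0∞) := by
        have h3 : (∏ w, (F w : ℝ) ^ (mult w)) = ((∏ w, (F w) ^ (mult w) : ℝ≥0) : ℝ) := by
          push_cast; rfl
        rw [h3, ENNReal.ofReal_coe_nnreal]
      rw [h2]
      have h4 : (1 : ℝ≥0∞) ≤ (convexBodyLTFactor K : ℝ≥0∞) := by
        exact_mod_cast one_le_convexBodyLTFactor K
      calc ((∏ w, (F w) ^ (mult w) : ℝ≥0) : ℝ≥0∞) = 1 * ((∏ w, (F w) ^ (mult w) : ℝ≥0) : ℝ≥0∞) := by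
            rw [one_mul]
        _ ≤ _ := by gcongr
    refine lt_of_lt_of_le ?_ h1
    rw [hprodF]
    have hn : Module.finrank ℚ K ≠ 0 := Module.finrank_pos.ne'
    have hsb : 0 < Real.sqrt (Ideal.absNorm b) := Real.sqrt_pos.2 hNb
    have h5 : v * Real.sqrt (Ideal.absNorm b) < (t : ℝ) ^ (Module.finrank ℚ K) := by
      calc v * Real.sqrt (Ideal.absNorm b) ≤ v * Real.sqrt Bd :=
            mul_le_mul_of_nonneg_left (Real.sqrt_le_sqrt hb) hv0
        _ < (t : ℝ) := by rw [ht']; linarith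
        _ ≤ (t : ℝ) ^ (Module.finrank ℚ K) := le_self_pow₀ ht1 hn
    rw [ENNReal.ofReal_lt_ofReal_iff (by positivity)]
    rw [lt_div_iff₀ (by positivity)]
    calc (Ideal.absNorm c : ℝ)⁻¹ * v * (Real.sqrt (Ideal.absNorm b) * Ideal.absNorm c)
        = v * Real.sqrt (Ideal.absNorm b) := by field_simp
      _ < _ := h5
  obtain ⟨γ, hγJ, hγ0, hγ⟩ := exists_ne_zero_mem_ideal_lt K J hmain
  -- the representative
  refine ⟨(x : K) * γ ^ 2, ⟨?_, ?_⟩, γ⁻¹, inv_ne_zero hγ0, ?_⟩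
  · -- integrality
    have h1 : (J : FractionalIdeal (𝓞 K)⁰ K) = (c : FractionalIdeal (𝓞 K)⁰ K)⁻¹ := by
      rw [hJ]; simp
    rw [h1] at hγJ
    have h2 : (x : K) ∈ (c : FractionalIdeal (𝓞 K)⁰ K) ^ 2 := by
      have h3 : x ∈ c ^ 2 := by
        have h4 : Ideal.span {x} ≤ c ^ 2 := by
          rw [hbc]
          exact Ideal.mul_le_right
        exact h4 (Ideal.mem_span_singleton_self x)
      rw [← FractionalIdeal.coeIdeal_pow, FractionalIdeal.mem_coeIdeal]
      exact ⟨x, h3, rfl⟩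
    have h5 : γ ^ 2 ∈ ((c : FractionalIdeal (𝓞 K)⁰ K)⁻¹) ^ 2 := by
      rw [sq, sq]
      exact FractionalIdeal.mul_mem_mul hγJ hγJ
    have h6 := FractionalIdeal.mul_mem_mul h2 h5
    rw [← mul_pow, mul_inv_cancel₀ hcF, one_pow, FractionalIdeal.mem_one_iff] at h6
    obtain ⟨y, hy⟩ := h6
    rw [← hy]
    exact RingOfIntegers.isIntegral_coe y
  · intro φ
    have h1 := hγ (InfinitePlace.mk φ)
    have h2 : ‖φ ((x : K) * γ ^ 2)‖ = InfinitePlace.mk φ (x : K) * (InfinitePlace.mk φ γ) ^ 2 := by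
      rw [map_mul, map_pow, norm_mul, norm_pow]
      rfl
    rw [h2, ← hrsq]
    have h3 : (F (InfinitePlace.mk φ) : ℝ) = t / r (InfinitePlace.mk φ) := by
      rw [hF]; simp
    rw [h3, lt_div_iff₀ (by exact_mod_cast hr0 _)] at h1
    have h4 : 0 ≤ InfinitePlace.mk φ γ := apply_nonneg _ _
    calc (r (InfinitePlace.mk φ) : ℝ) ^ 2 * InfinitePlace.mk φ γ ^ 2
        = (InfinitePlace.mk φ γ * r (InfinitePlace.mk φ)) ^ 2 := by ring
      _ ≤ (t : ℝ) ^ 2 := pow_le_pow_left₀ (by positivity) h1.le 2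
  · field_simp

end Stoll308.Gen
end

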