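import Mathlib

section
set_option autoImplicit false

/-! The number of ideals of given norm is multiplicative. -/

namespace Stoll308.Cheb

open Ideal NumberField

variable (K : Type*) [Field K] [NumberField K]

/-- the number of ideals of norm `n` -/
noncomputable def aK (n : ℕ) : ℕ := Nat.card {I : Ideal (𝓞 K) // absNorm I = n}

variable {K}

lemma natCast_mem (I : Ideal (𝓞 K)) {m : ℕ} (h : absNorm I = m) : (m : 𝓞 K) ∈ I := by
  rw [← h]; exact absNorm_mem I

lemma top_of_coprime {I J : Ideal (𝓞 K)} {m n : ℕ} (hmn : Nat.Coprime m n) (hI : (m : 𝓞 K) ∈ I)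
    (hJ : (n : 𝓞 K) ∈ J) : I ⊔ J = ⊤ := by
  rw [Ideal.eq_top_iff_one]
  have h1 := (Nat.isCoprime_iff_coprime.2 hmn)
  obtain ⟨a, b, hab⟩ := h1
  have h2 : (1 : 𝓞 K) = (a : 𝓞 K) * (m : 𝓞 K) + (b : 𝓞 K) * (n : 𝓞 K) := by
    have := congrArg (fun z : ℤ => (z : 𝓞 K)) hab
    push_cast at this
    exact this.symm
  rw [h2]
  exact Submodule.add_mem_sup (I.mul_mem_left _ hI) (J.mul_mem_left _ hJ)

lemma recover {I J : Ideal (𝓞 K)} {m n : ℕ} (hmn : Nat.Coprime m n) (hI : absNorm I = m)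
    (hJ : absNorm J = n) : I * J ⊔ span {(m : 𝓞 K)} = I := by
  apply le_antisymm
  · refine sup_le Ideal.mul_le_left ?_
    rw [span_singleton_le_iff_mem]
    exact natCast_mem I hI
  · have h1 : J ⊔ span {(m : 𝓞 K)} = ⊤ := by
      rw [sup_comm]
      exact top_of_coprime hmn (mem_span_singleton_self _) (natCast_mem J hJ)
    calc I = I * (J ⊔ span {(m : 𝓞 K)}) := by rw [h1, Ideal.mul_top]
      _ = I * J ⊔ I * span {(m : 𝓞 K)} := Ideal.mul_sup _ _ _
      _ ≤ I * J ⊔ span {(m : 𝓞 K)} := sup_le_sup le_rfl Ideal.mul_le_right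

lemma split_ideal {A : Ideal (𝓞 K)} {m n : ℕ} (hmn : Nat.Coprime m n) (hA : absNorm A = m * n) :
    (A ⊔ span {(m : 𝓞 K)}) * (A ⊔ span {(n : 𝓞 K)}) = A := by
  have hmem : ((m * n : ℕ) : 𝓞 K) ∈ A := natCast_mem A hA
  apply le_antisymm
  · rw [Ideal.sup_mul, Ideal.mul_sup, Ideal.mul_sup]
    refine sup_le (sup_le (Ideal.mul_le_left : A * A ≤ A) ?_) (sup_le ?_ ?_)
    · first | exact Ideal.mul_le_left | exact Ideal.mul_le_right
    · first | exact Ideal.mul_le_left | exact Ideal.mul_le_right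
    · rw [span_singleton_mul_span_singleton, span_singleton_le_iff_mem]
      push_cast at hmem
      exact hmem
  · have h1 : span {(m : 𝓞 K)} ⊔ span {(n : 𝓞 K)} = ⊤ :=
      top_of_coprime hmn (mem_span_singleton_self _) (mem_span_singleton_self _)
    calc A = A * (span {(m : 𝓞 K)} ⊔ span {(n : 𝓞 K)}) := by rw [h1, Ideal.mul_top]
      _ = A * span {(m : 𝓞 K)} ⊔ A * span {(n : 𝓞 K)} := Ideal.mul_sup _ _ _
      _ ≤ _ := by
        refine sup_le ?_ ?_
        · rw [mul_comm]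
          exact Ideal.mul_mono le_sup_right le_sup_left
        · exact Ideal.mul_mono le_sup_left le_sup_right

lemma norm_coprime {A : Ideal (𝓞 K)} {m n : ℕ} (hmn : Nat.Coprime m n) :
    Nat.Coprime (absNorm (A ⊔ span {(m : 𝓞 K)})) n := by
  have h1 : absNorm (A ⊔ span {(m : 𝓞 K)}) ∣ absNorm (span {(m : 𝓞 K)}) :=
    absNorm_dvd_absNorm_of_le le_sup_right
  rw [absNorm_span_natCast] at h1
  exact Nat.Coprime.coprime_dvd_left h1 (hmn.pow_left _)

lemma norm_split {A : Ideal (𝓞 K)} {m n : ℕ} (hmn : Nat.Coprime m n) (hm : m ≠ 0) (_hn : n ≠ 0)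
    (hA : absNorm A = m * n) :
    absNorm (A ⊔ span {(m : 𝓞 K)}) = m ∧ absNorm (A ⊔ span {(n : 𝓞 K)}) = n := by
  set x := absNorm (A ⊔ span {(m : 𝓞 K)}) with hx
  set y := absNorm (A ⊔ span {(n : 𝓞 K)}) with hy
  have h1 : x * y = m * n := by
    rw [hx, hy, ← map_mul, split_ideal hmn hA, hA]
  have h2 : Nat.Coprime x n := norm_coprime hmn
  have h3 : Nat.Coprime y m := norm_coprime hmn.symm
  have hxm : x ∣ m := h2.dvd_of_dvd_mul_right (h1 ▸ Dvd.intro _ rfl)
  have hmx : m ∣ x := h3.symm.dvd_of_dvd_mul_right (h1 ▸ Dvd.intro _ rfl)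
  have hxe : x = m := Nat.dvd_antisymm hxm hmx
  refine ⟨hxe, ?_⟩
  rw [hxe] at h1
  exact Nat.eq_of_mul_eq_mul_left (Nat.pos_of_ne_zero hm) h1

variable (K)

/-- **multiplicativity** -/
theorem aK_mul {m n : ℕ} (hmn : Nat.Coprime m n) (hm : m ≠ 0) (hn : n ≠ 0) :
    aK K (m * n) = aK K m * aK K n := by
  unfold aK
  rw [← Nat.card_prod]
  symm
  refine Nat.card_congr (Equiv.ofBijective
    (fun q : {I : Ideal (𝓞 K) // absNorm I = m} × {I : Ideal (𝓞 K) // absNorm I = n} =>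
      (⟨q.1.1 * q.2.1, by rw [map_mul, q.1.2, q.2.2]⟩ : {I : Ideal (𝓞 K) // absNorm I = m * n}))
    ⟨?_, ?_⟩)
  · rintro ⟨⟨I, hI⟩, ⟨J, hJ⟩⟩ ⟨⟨I', hI'⟩, ⟨J', hJ'⟩⟩ h
    simp only [Subtype.mk.injEq] at h
    have h1 := recover hmn hI hJ
    have h2 := recover hmn hI' hJ'
    have h3 := recover hmn.symm hJ hI
    have h4 := recover hmn.symm hJ' hI'
    rw [h, h2] at h1
    rw [mul_comm J I, h, mul_comm I' J', h4] at h3
    simp only [Prod.mk.injEq, Subtype.mk.injEq]
    exact ⟨h1.symm, h3.symm⟩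
  · rintro ⟨A, hA⟩
    obtain ⟨h1, h2⟩ := norm_split hmn hm hn hA
    exact ⟨⟨⟨_, h1⟩, ⟨_, h2⟩⟩, Subtype.ext (split_ideal hmn hA)⟩

lemma aK_one : aK K 1 = 1 := by
  unfold aK
  rw [Nat.card_eq_one_iff_unique]
  refine ⟨⟨fun a b => ?_⟩, ⟨⟨⊤, absNorm_top⟩⟩⟩
  apply Subtype.ext
  rw [absNorm_eq_one_iff.1 a.2, absNorm_eq_one_iff.1 b.2]

lemma p_dvd_absNorm {p : ℕ} (hp : p.Prime) {P : Ideal (𝓞 K)} (hP : P.IsPrime)
    (hmem : (p : 𝓞 K) ∈ P) : p ∣ absNorm P := by
  have h1 : absNorm P ∣ absNorm (span {(p : 𝓞 K)}) :=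
    absNorm_dvd_absNorm_of_le (by rw [span_singleton_le_iff_mem]; exact hmem)
  rw [absNorm_span_natCast] at h1
  obtain ⟨k, _, hk⟩ := (Nat.dvd_prime_pow hp).1 h1
  rcases Nat.eq_zero_or_pos k with h0 | h0
  · rw [h0, pow_zero, absNorm_eq_one_iff] at hk
    exact absurd hk hP.ne_top
  · rw [hk]
    exact dvd_pow_self p h0.ne'

open UniqueFactorizationMonoid in
lemma mem_factors_of {p e : ℕ} (hp : p.Prime) {I P : Ideal (𝓞 K)} (hI : absNorm I = p ^ e)
    (hP : P ∈ normalizedFactors I) : P.IsPrime ∧ (p : 𝓞 K) ∈ P := by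
  have h0 : I ≠ ⊥ := by
    rintro rfl
    rw [absNorm_bot] at hI
    exact (pow_ne_zero e hp.ne_zero) hI.symm
  have hprime : Prime P := prime_of_normalized_factor P hP
  have hPp : P.IsPrime := Ideal.isPrime_of_prime hprime
  refine ⟨hPp, ?_⟩
  have h1 : P ∣ I := dvd_of_mem_normalizedFactors hP
  have h2 : ((p ^ e : ℕ) : 𝓞 K) ∈ P := Ideal.le_of_dvd h1 (natCast_mem I hI)
  push_cast at h2
  exact hPp.mem_of_pow_mem _ h2

open UniqueFactorizationMonoid in
open Classical in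
/-- the primes above `p` -/
noncomputable def SP (p : ℕ) : Finset (Ideal (𝓞 K)) := (normalizedFactors (span {(p : 𝓞 K)})).toFinset

open UniqueFactorizationMonoid in
lemma mem_SP {p : ℕ} (hp : p.Prime) {P : Ideal (𝓞 K)} : P ∈ SP K p ↔ P.IsPrime ∧ (p : 𝓞 K) ∈ P := by
  classical
  have hne : span {(p : 𝓞 K)} ≠ ⊥ := by
    rw [Ne, span_singleton_eq_bot]
    exact_mod_cast hp.ne_zero
  unfold SP
  rw [Multiset.mem_toFinset]
  constructor
  · intro h
    have hprime : Prime P := prime_of_normalized_factor P h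
    refine ⟨Ideal.isPrime_of_prime hprime, ?_⟩
    exact Ideal.le_of_dvd (dvd_of_mem_normalizedFactors h) (mem_span_singleton_self _)
  · rintro ⟨h1, h2⟩
    have h3 : P ∣ span {(p : 𝓞 K)} := by
      rw [Ideal.dvd_iff_le, span_singleton_le_iff_mem]; exact h2
    have hP0 : P ≠ ⊥ := fun h => hne (by rw [h] at h3; exact zero_dvd_iff.1 h3)
    rw [mem_normalizedFactors_iff' hne]
    exact ⟨(Ideal.prime_of_isPrime hP0 h1).irreducible, normalize_eq P, h3⟩

lemma pow_card_le {M : Multiset ℕ} {p : ℕ} (h : ∀ x ∈ M, p ≤ x) : p ^ M.card ≤ M.prod := by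
  induction M using Multiset.induction_on with
  | empty => simp
  | cons a M ih =>
    rw [Multiset.card_cons, Multiset.prod_cons, pow_succ, mul_comm]
    exact Nat.mul_le_mul (h a (Multiset.mem_cons_self _ _))
      (ih fun x hx => h x (Multiset.mem_cons_of_mem hx))

open UniqueFactorizationMonoid in
lemma card_factors_le {p e : ℕ} (hp : p.Prime) {I : Ideal (𝓞 K)} (hI : absNorm I = p ^ e) :
    Multiset.card (normalizedFactors I) ≤ e := by
  have h0 : I ≠ ⊥ := by
    rintro rfl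
    rw [absNorm_bot] at hI
    exact (pow_ne_zero e hp.ne_zero) hI.symm
  have h1 : ((normalizedFactors I).map absNorm).prod = p ^ e := by
    rw [← map_multiset_prod, Ideal.prod_normalizedFactors_eq_self h0, hI]
  have h2 : p ^ Multiset.card ((normalizedFactors I).map (absNorm : Ideal (𝓞 K) → ℕ)) ≤
      ((normalizedFactors I).map (absNorm : Ideal (𝓞 K) → ℕ)).prod := by
    refine pow_card_le fun x hx => ?_
    rw [Multiset.mem_map] at hx
    obtain ⟨P, hP, rfl⟩ := hx
    obtain ⟨h3, h4⟩ := mem_factors_of K hp hI hP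
    have h5 := p_dvd_absNorm K hp h3 h4
    refine Nat.le_of_dvd (Nat.pos_of_ne_zero ?_) h5
    rw [Ne, absNorm_eq_zero_iff]
    rintro rfl
    exact (prime_of_normalized_factor _ hP).ne_zero rfl
  rw [Multiset.card_map] at h2
  have h3 : ((normalizedFactors I).map (absNorm : Ideal (𝓞 K) → ℕ)).prod = p ^ e := h1
  rw [h3] at h2
  exact (Nat.pow_le_pow_iff_right hp.one_lt).1 h2

open UniqueFactorizationMonoid in
lemma card_SP {p : ℕ} (hp : p.Prime) : (SP K p).card ≤ Module.finrank ℤ (𝓞 K) := by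
  classical
  have h1 : absNorm (span {(p : 𝓞 K)}) = p ^ Module.finrank ℤ (𝓞 K) := absNorm_span_natCast p
  exact (Multiset.toFinset_card_le _).trans (card_factors_le K hp h1)

open UniqueFactorizationMonoid in
lemma aK_pow_le {p : ℕ} (hp : p.Prime) (e : ℕ) : aK K (p ^ e) ≤ (e + 1) ^ Module.finrank ℤ (𝓞 K) := by
  classical
  have h1 : aK K (p ^ e) ≤ Nat.card (SP K p → Fin (e + 1)) := by
    unfold aK
    refine Nat.card_le_card_of_injective
      (fun I : {I : Ideal (𝓞 K) // absNorm I = p ^ e} => fun P : SP K p =>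
        (⟨Multiset.count P.1 (normalizedFactors I.1), Nat.lt_succ_of_le
          ((Multiset.count_le_card _ _).trans (card_factors_le K hp I.2))⟩ : Fin (e + 1))) ?_
    rintro ⟨I, hI⟩ ⟨J, hJ⟩ h
    have hne : ∀ {I : Ideal (𝓞 K)}, absNorm I = p ^ e → I ≠ ⊥ := by
      rintro I hI rfl
      rw [absNorm_bot] at hI
      exact (pow_ne_zero e hp.ne_zero) hI.symm
    have h2 : normalizedFactors I = normalizedFactors J := by
      ext P
      by_cases hP : P ∈ SP K p
      · have h3 := congrFun h ⟨P, hP⟩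
        simpa using h3
      · have h4 : ∀ {I : Ideal (𝓞 K)}, absNorm I = p ^ e → Multiset.count P (normalizedFactors I) = 0 := by
          intro I hI
          rw [Multiset.count_eq_zero]
          exact fun hc => hP ((mem_SP K hp).2 (mem_factors_of K hp hI hc))
        rw [h4 hI, h4 hJ]
    apply Subtype.ext
    change I = J
    rw [← Ideal.prod_normalizedFactors_eq_self (hne hI), h2,
      Ideal.prod_normalizedFactors_eq_self (hne hJ)]
  refine h1.trans ?_
  rw [Nat.card_fun, Nat.card_eq_fintype_card, Nat.card_eq_fintype_card, Fintype.card_fin,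
    Fintype.card_coe]
  exact Nat.pow_le_pow_right (by omega) (card_SP K hp)

end Stoll308.Cheb
end

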