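import Mathlib
import Pool.Agent.Work.BCM.C24
import Pool.Agent.Work.MP_2b9663_nt.MV

section
set_option autoImplicit false

/-! The Dirichlet series of the number of primes of degree one of a number field. -/

namespace Stoll308.Cheb

open Filter Topology NumberField Ideal Finset
open Pool.Agent.Work.MP_2b9663_nt

variable (K : Type*) [Field K] [NumberField K]

/-- the terms of the Dedekind zeta function -/
noncomputable def tK (ε : ℝ) (n : ℕ) : ℝ := (aK K n : ℝ) * (n : ℝ) ^ (-(1 + ε))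

lemma tK_zero {ε : ℝ} (hε : 0 < ε) : tK K ε 0 = 0 := by
  unfold tK
  rw [Nat.cast_zero, Real.zero_rpow (by linarith), mul_zero]

lemma tK_one (ε : ℝ) : tK K ε 1 = 1 := by
  unfold tK
  rw [aK_one, Nat.cast_one, Real.one_rpow, mul_one]

lemma tK_nonneg (ε : ℝ) (n : ℕ) : 0 ≤ tK K ε n := by
  unfold tK; positivity

lemma tK_mul {ε : ℝ} (hε : 0 < ε) {m n : ℕ} (h : Nat.Coprime m n) :
    tK K ε (m * n) = tK K ε m * tK K ε n := by
  rcases Nat.eq_zero_or_pos m with rfl | hm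
  · rw [zero_mul, tK_zero K hε, zero_mul]
  rcases Nat.eq_zero_or_pos n with rfl | hn
  · rw [mul_zero, tK_zero K hε, mul_zero]
  unfold tK
  rw [aK_mul K h hm.ne' hn.ne']
  push_cast
  rw [Real.mul_rpow (Nat.cast_nonneg _) (Nat.cast_nonneg _)]
  ring

lemma term_eq (ε : ℝ) (n : ℕ) : LSeries.term (fun n ↦ (Nat.card {I : Ideal (𝓞 K) // absNorm I = n} : ℂ))
    ((1 + ε : ℝ) : ℂ) n = if n = 0 then 0 else ((tK K ε n : ℝ) : ℂ) := by
  rw [LSeries.term_def]
  split_ifs with h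
  · rfl
  · unfold tK aK
    push_cast
    rw [Complex.ofReal_cpow (Nat.cast_nonneg _)]
    push_cast
    rw [Complex.cpow_neg, div_eq_mul_inv]

lemma hasSum_iff {ε : ℝ} (hε : 0 < ε) : LSeries.term (fun n ↦ (Nat.card {I : Ideal (𝓞 K) // absNorm I = n} : ℂ))
    ((1 + ε : ℝ) : ℂ) = fun n => ((tK K ε n : ℝ) : ℂ) := by
  funext n
  rw [term_eq]
  split_ifs with h
  · rw [h, tK_zero K hε, Complex.ofReal_zero]
  · rfl

lemma dedekind_eq {ε : ℝ} (hε : 0 < ε) :
    dedekindZeta K ((1 + ε : ℝ) : ℂ) = ((∑' n, tK K ε n : ℝ) : ℂ) := by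
  unfold dedekindZeta LSeries
  rw [hasSum_iff K hε, Complex.ofReal_tsum]

lemma tendsto_res : Tendsto (fun ε : ℝ => ε * ∑' n, tK K ε n) (𝓝[>] 0) (𝓝 (dedekindZeta_residue K)) := by
  have h1 := tendsto_sub_one_mul_dedekindZeta_nhdsGT K
  have h2 : Tendsto (fun ε : ℝ => 1 + ε) (𝓝[>] 0) (𝓝[>] 1) := by
    rw [tendsto_nhdsWithin_iff]
    refine ⟨?_, ?_⟩
    · have : Tendsto (fun ε : ℝ => 1 + ε) (𝓝 0) (𝓝 (1 + 0)) := tendsto_const_nhds.add tendsto_id
      rw [add_zero] at this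
      exact this.mono_left nhdsWithin_le_nhds
    · filter_upwards [self_mem_nhdsWithin] with ε hε
      have : (0 : ℝ) < ε := hε
      change (1 : ℝ) < 1 + ε
      linarith
  have h3 := h1.comp h2
  have h4 := (Complex.continuous_re.tendsto _).comp h3
  rw [Complex.ofReal_re] at h4
  refine h4.congr' ?_
  filter_upwards [self_mem_nhdsWithin] with ε hε
  have hε' : (0 : ℝ) < ε := hε
  simp only [Function.comp]
  rw [dedekind_eq K hε']
  rw [← Complex.ofReal_one, ← Complex.ofReal_sub, ← Complex.ofReal_mul, Complex.ofReal_re]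
  ring

lemma ev_summable : ∀ᶠ ε in 𝓝[>] (0 : ℝ), Summable (tK K ε) := by
  have h1 := (tendsto_res K).eventually (lt_mem_nhds (dedekindZeta_residue_pos K))
  filter_upwards [h1] with ε h2
  by_contra h
  rw [tsum_eq_zero_of_not_summable h, mul_zero] at h2
  exact lt_irrefl _ h2

/-- the degree -/
noncomputable abbrev dK : ℕ := Module.finrank ℤ (𝓞 K)

/-- a constant -/
noncomputable def AK : ℝ := ∑' e : ℕ, ((e : ℝ) + 3) ^ dK K * (1 / 2) ^ e

lemma AK_summable : Summable (fun e : ℕ => ((e : ℝ) + 3) ^ dK K * (1 / 2) ^ e) := by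
  have h1 : Summable (fun e : ℕ => ((e : ℝ)) ^ dK K * (1 / 2 : ℝ) ^ e) :=
    summable_pow_mul_geometric_of_norm_lt_one _ (by norm_num)
  have h2 := (summable_nat_add_iff 3).2 h1
  have h3 := h2.mul_left (8 : ℝ)
  refine h3.congr fun e => ?_
  push_cast
  rw [pow_add]
  ring

lemma AK_nonneg : 0 ≤ AK K := tsum_nonneg fun e => by positivity

/-- the power of `p` -/
noncomputable def xp (ε : ℝ) (p : Nat.Primes) : ℝ := ((p : ℕ) : ℝ) ^ (-(1 + ε))

lemma xp_pos (ε : ℝ) (p : Nat.Primes) : 0 < xp ε p := by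
  unfold xp
  exact Real.rpow_pos_of_pos (by exact_mod_cast p.2.pos) _

lemma xp_le {ε : ℝ} (hε : 0 < ε) (p : Nat.Primes) : xp ε p ≤ ((p : ℕ) : ℝ) ^ (-1 : ℝ) :=
  Real.rpow_le_rpow_of_exponent_le (by exact_mod_cast p.2.one_le) (by linarith)

lemma xp_le_half {ε : ℝ} (hε : 0 < ε) (p : Nat.Primes) : xp ε p ≤ 1 / 2 := by
  refine (xp_le hε p).trans ?_
  rw [Real.rpow_neg_one, one_div]
  have : (2 : ℝ) ≤ ((p : ℕ) : ℝ) := by exact_mod_cast p.2.two_le
  exact inv_anti₀ (by norm_num) this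

lemma xp_sq_le {ε : ℝ} (hε : 0 < ε) (p : Nat.Primes) : xp ε p ^ 2 ≤ ((p : ℕ) : ℝ) ^ (-2 : ℝ) := by
  calc xp ε p ^ 2 ≤ (((p : ℕ) : ℝ) ^ (-1 : ℝ)) ^ 2 :=
        pow_le_pow_left₀ (xp_pos ε p).le (xp_le hε p) 2
    _ = ((p : ℕ) : ℝ) ^ (-2 : ℝ) := by
        rw [← Real.rpow_natCast, ← Real.rpow_mul (Nat.cast_nonneg _)]
        norm_num

lemma tK_pow (ε : ℝ) (p : Nat.Primes) (e : ℕ) :
    tK K ε ((p : ℕ) ^ e) = (aK K ((p : ℕ) ^ e) : ℝ) * xp ε p ^ e := by
  unfold tK xp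
  rw [Nat.cast_pow, ← Real.rpow_natCast, ← Real.rpow_natCast, ← Real.rpow_mul (Nat.cast_nonneg _),
    ← Real.rpow_mul (Nat.cast_nonneg _)]
  congr 2
  ring

lemma aK_pow_le' (p : Nat.Primes) (e : ℕ) : (aK K ((p : ℕ) ^ e) : ℝ) ≤ ((e : ℝ) + 1) ^ dK K := by
  exact_mod_cast aK_pow_le K p.2 e

/-- the tail of the local factor -/
noncomputable def RK (ε : ℝ) (p : Nat.Primes) : ℝ := ∑' e : ℕ, tK K ε ((p : ℕ) ^ (e + 2))

lemma tail_le {ε : ℝ} (hε : 0 < ε) (p : Nat.Primes) (e : ℕ) :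
    tK K ε ((p : ℕ) ^ (e + 2)) ≤ xp ε p ^ 2 * (((e : ℝ) + 3) ^ dK K * (1 / 2) ^ e) := by
  rw [tK_pow]
  have h1 := aK_pow_le' K p (e + 2)
  have h2 : xp ε p ^ (e + 2) ≤ xp ε p ^ 2 * (1 / 2) ^ e := by
    rw [pow_add, mul_comm]
    exact mul_le_mul_of_nonneg_left (pow_le_pow_left₀ (xp_pos ε p).le (xp_le_half hε p) e) (by positivity)
  calc (aK K ((p : ℕ) ^ (e + 2)) : ℝ) * xp ε p ^ (e + 2)
      ≤ ((((e + 2 : ℕ) : ℝ)) + 1) ^ dK K * (xp ε p ^ 2 * (1 / 2) ^ e) :=
        mul_le_mul h1 h2 (pow_nonneg (xp_pos ε p).le _) (by positivity)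
    _ = xp ε p ^ 2 * (((e : ℝ) + 3) ^ dK K * (1 / 2) ^ e) := by
        push_cast
        rw [show (e : ℝ) + 2 + 1 = (e : ℝ) + 3 by ring]
        ring

lemma tail_summable {ε : ℝ} (hε : 0 < ε) (p : Nat.Primes) :
    Summable (fun e : ℕ => tK K ε ((p : ℕ) ^ (e + 2))) :=
  Summable.of_nonneg_of_le (fun e => tK_nonneg K ε _) (tail_le K hε p) ((AK_summable K).mul_left _)

lemma RK_nonneg (ε : ℝ) (p : Nat.Primes) : 0 ≤ RK K ε p := tsum_nonneg fun e => tK_nonneg K ε _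

lemma RK_le {ε : ℝ} (hε : 0 < ε) (p : Nat.Primes) : RK K ε p ≤ AK K * xp ε p ^ 2 := by
  unfold RK AK
  rw [mul_comm, ← tsum_mul_left]
  exact (tail_summable K hε p).tsum_le_tsum (tail_le K hε p) ((AK_summable K).mul_left _)

lemma local_eq {ε : ℝ} (hε : 0 < ε) (p : Nat.Primes) :
    ∑' e : ℕ, tK K ε ((p : ℕ) ^ e) = 1 + ((aK K p : ℝ) * xp ε p + RK K ε p) := by
  have h1 : Summable (fun e : ℕ => tK K ε ((p : ℕ) ^ e)) :=
    (summable_nat_add_iff 2).1 (tail_summable K hε p)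
  rw [← h1.sum_add_tsum_nat_add 2]
  unfold RK
  rw [sum_range_succ, sum_range_succ, sum_range_zero, pow_zero, tK_one]
  have := tK_pow K ε p 1
  rw [pow_one, pow_one] at this
  rw [pow_one, this]
  ring

/-- the constant -/
noncomputable def CK : ℝ := AK K + (2 ^ dK K + AK K) ^ 2

lemma aK_le (p : Nat.Primes) : (aK K p : ℝ) ≤ 2 ^ dK K := by
  have := aK_pow_le' K p 1
  rw [pow_one] at this
  refine this.trans (le_of_eq ?_)
  norm_num

lemma y_le {ε : ℝ} (hε : 0 < ε) (p : Nat.Primes) :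
    (aK K p : ℝ) * xp ε p + RK K ε p ≤ (2 ^ dK K + AK K) * xp ε p := by
  have h1 := mul_le_mul_of_nonneg_right (aK_le K p) (xp_pos ε p).le
  have h2 := RK_le K hε p
  have h3 := xp_le_half hε p
  have h4 : AK K * xp ε p ^ 2 ≤ AK K * xp ε p := by
    refine mul_le_mul_of_nonneg_left ?_ (AK_nonneg K)
    have := xp_pos ε p
    nlinarith
  linarith

lemma y_nonneg (ε : ℝ) (p : Nat.Primes) : 0 ≤ (aK K p : ℝ) * xp ε p + RK K ε p :=
  add_nonneg (mul_nonneg (Nat.cast_nonneg _) (xp_pos ε p).le) (RK_nonneg K ε p)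

lemma log_local {ε : ℝ} (hε : 0 < ε) (p : Nat.Primes) :
    |Real.log (∑' e : ℕ, tK K ε ((p : ℕ) ^ e)) - (aK K p : ℝ) * xp ε p| ≤
      CK K * ((p : ℕ) : ℝ) ^ (-2 : ℝ) := by
  rw [local_eq K hε p]
  set y := (aK K p : ℝ) * xp ε p + RK K ε p with hy
  have h0 : 0 ≤ y := y_nonneg K ε p
  have h1 : Real.log (1 + y) ≤ y := by
    have := Real.log_le_sub_one_of_pos (show 0 < 1 + y by linarith)
    linarith
  have h2 : y - y ^ 2 ≤ Real.log (1 + y) := by
    have h3 := Real.one_sub_inv_le_log_of_pos (show 0 < 1 + y by linarith)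
    refine le_trans ?_ h3
    have h4 : 1 - (1 + y)⁻¹ = y / (1 + y) := by field_simp; ring
    rw [h4, le_div_iff₀ (by linarith)]
    nlinarith [mul_nonneg h0 (mul_nonneg h0 h0)]
  have h5 : y ≤ (2 ^ dK K + AK K) * xp ε p := y_le K hε p
  have h6 : y ^ 2 ≤ (2 ^ dK K + AK K) ^ 2 * xp ε p ^ 2 := by
    rw [← mul_pow]; exact pow_le_pow_left₀ h0 h5 2
  have h7 := RK_le K hε p
  have h8 := RK_nonneg K ε p
  have h9 := xp_sq_le hε p
  have h10 : CK K * xp ε p ^ 2 ≤ CK K * ((p : ℕ) : ℝ) ^ (-2 : ℝ) :=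
    mul_le_mul_of_nonneg_left h9 (add_nonneg (AK_nonneg K) (sq_nonneg _))
  have h11 : CK K * xp ε p ^ 2 = AK K * xp ε p ^ 2 + (2 ^ dK K + AK K) ^ 2 * xp ε p ^ 2 := by
    unfold CK; ring
  have h12 : 0 ≤ AK K * xp ε p ^ 2 := mul_nonneg (AK_nonneg K) (sq_nonneg _)
  have h13 : 0 ≤ (2 ^ dK K + AK K) ^ 2 * xp ε p ^ 2 := by positivity
  rw [abs_le]
  constructor <;> linarith

lemma log_summable {ε : ℝ} (hε : 0 < ε) :
    Summable (fun p : Nat.Primes => Real.log (∑' e : ℕ, tK K ε ((p : ℕ) ^ e))) := by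
  have h1 : Summable (fun p : Nat.Primes => xp ε p) := Nat.Primes.summable_rpow.mpr (by linarith)
  refine Summable.of_nonneg_of_le (fun p => ?_) (fun p => ?_) (h1.mul_left (2 ^ dK K + AK K))
  · rw [local_eq K hε p]
    exact Real.log_nonneg (by linarith [y_nonneg K ε p])
  · rw [local_eq K hε p]
    have h2 := Real.log_le_sub_one_of_pos (show 0 < 1 + ((aK K p : ℝ) * xp ε p + RK K ε p) by
      linarith [y_nonneg K ε p])
    have := y_le K hε p
    linarith

lemma log_zeta {ε : ℝ} (hε : 0 < ε) (hs : Summable (tK K ε)) :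
    ∑' p : Nat.Primes, Real.log (∑' e : ℕ, tK K ε ((p : ℕ) ^ e)) = Real.log (∑' n, tK K ε n) := by
  have h1 : HasProd (fun p : Nat.Primes => ∑' e, tK K ε ((p : ℕ) ^ e)) (∑' n, tK K ε n) := by
    refine EulerProduct.eulerProduct_hasProd (tK_one K ε) (fun {m n} h => tK_mul K hε h) ?_
      (tK_zero K hε)
    refine hs.congr fun n => ?_
    rw [Real.norm_of_nonneg (tK_nonneg K ε n)]
  have h2 := Real.rexp_tsum_eq_tprod (f := fun p : Nat.Primes => ∑' e, tK K ε ((p : ℕ) ^ e))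
    (fun p => by rw [local_eq K hε p]; linarith [y_nonneg K ε p]) (log_summable K hε)
  rw [h1.tprod_eq] at h2
  rw [← h2, Real.log_exp]

/-- **The primes of degree one have the expected Dirichlet density.** -/
theorem LA_aK : LA (PS (fun p => (aK K p : ℝ))) 1 := by
  have hres := dedekindZeta_residue_pos K
  have h1 := tendsto_res K
  have h2 : Tendsto (fun ε : ℝ => Real.log (ε * ∑' n, tK K ε n)) (𝓝[>] 0)
      (𝓝 (Real.log (dedekindZeta_residue K))) := h1.log hres.ne'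
  have h3 := h2.abs.eventually (gt_mem_nhds (lt_add_one |Real.log (dedekindZeta_residue K)|))
  refine ⟨CK K * P2 + (|Real.log (dedekindZeta_residue K)| + 1), ?_⟩
  filter_upwards [h3, ev_summable K, self_mem_nhdsWithin, h1.eventually (lt_mem_nhds hres)]
    with ε h4 hs hε hpos
  have hε' : (0 : ℝ) < ε := hε
  have hz : 0 < ∑' n, tK K ε n := by
    by_contra hc
    push Not at hc
    have := mul_nonpos_of_nonneg_of_nonpos hε'.le hc
    linarith
  have h5 : Real.log (ε * ∑' n, tK K ε n) = Real.log ε + Real.log (∑' n, tK K ε n) :=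
    Real.log_mul hε'.ne' hz.ne'
  have hx : Summable (fun p : Nat.Primes => (aK K p : ℝ) * xp ε p) := by
    have := PS_summable (c := fun p => (aK K p : ℝ)) (B := 2 ^ dK K)
      (fun p => by rw [abs_of_nonneg (Nat.cast_nonneg _)]; exact aK_le K p) hε'
    exact this
  have h6 : |∑' p : Nat.Primes, Real.log (∑' e : ℕ, tK K ε ((p : ℕ) ^ e)) -
      PS (fun p => (aK K p : ℝ)) ε| ≤ CK K * P2 := by
    have h7 : PS (fun p => (aK K p : ℝ)) ε = ∑' p : Nat.Primes, (aK K p : ℝ) * xp ε p := rfl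
    rw [h7, ← (log_summable K hε').tsum_sub hx]
    have hd : Summable (fun p : Nat.Primes => CK K * ((p : ℕ) : ℝ) ^ (-2 : ℝ)) :=
      P2_summable.mul_left _
    have h8 : Summable (fun p : Nat.Primes => |Real.log (∑' e : ℕ, tK K ε ((p : ℕ) ^ e)) -
        (aK K p : ℝ) * xp ε p|) :=
      Summable.of_nonneg_of_le (fun p => abs_nonneg _) (log_local K hε') hd
    calc |∑' p : Nat.Primes, (Real.log (∑' e : ℕ, tK K ε ((p : ℕ) ^ e)) - (aK K p : ℝ) * xp ε p)|
        ≤ ∑' p : Nat.Primes, |Real.log (∑' e : ℕ, tK K ε ((p : ℕ) ^ e)) - (aK K p : ℝ) * xp ε p| := by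
          have := norm_tsum_le_tsum_norm (f := fun p : Nat.Primes =>
            Real.log (∑' e : ℕ, tK K ε ((p : ℕ) ^ e)) - (aK K p : ℝ) * xp ε p) (by simpa using h8)
          simpa using this
      _ ≤ ∑' p : Nat.Primes, CK K * ((p : ℕ) : ℝ) ^ (-2 : ℝ) := h8.tsum_le_tsum (log_local K hε') hd
      _ = CK K * P2 := by rw [tsum_mul_left]; rfl
  rw [log_zeta K hε' hs] at h6
  have h9 : PS (fun p => (aK K p : ℝ)) ε + 1 * Real.log ε =
      -(Real.log (∑' n, tK K ε n) - PS (fun p => (aK K p : ℝ)) ε) +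
        Real.log (ε * ∑' n, tK K ε n) := by rw [h5]; ring
  rw [h9]
  refine (abs_add_le _ _).trans (add_le_add ?_ h4.le)
  rw [abs_neg]
  exact h6

/-- the mean value of the number of primes of degree one -/
theorem MV_aK : MV (fun p => (aK K p : ℝ)) 1 :=
  ⟨⟨2 ^ dK K, fun p => by rw [abs_of_nonneg (Nat.cast_nonneg _)]; exact aK_le K p⟩, LA_aK K⟩

end Stoll308.Cheb
end

section
set_option autoImplicit false

/-! The number of primes of degree one above `p` as a number of roots, Frobenius elements. -/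

namespace Stoll308.Cheb

open Ideal NumberField Polynomial

section homs

variable (K : Type*) [Field K] [NumberField K]

lemma absNorm_ker {p : ℕ} [hp : Fact p.Prime] (φ : 𝓞 K →+* ZMod p) :
    absNorm (RingHom.ker φ) = p := by
  rw [Ideal.absNorm_apply, Submodule.cardQuot_apply]
  have e := RingHom.quotientKerEquivOfSurjective (ZMod.ringHom_surjective φ)
  exact (Nat.card_congr e.toEquiv).trans (Nat.card_zmod p)

theorem aK_eq_homs (p : ℕ) [hp : Fact p.Prime] : aK K p = Nat.card (𝓞 K →+* ZMod p) := by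
  unfold aK
  symm
  refine Nat.card_congr (Equiv.ofBijective
    (fun φ : 𝓞 K →+* ZMod p => (⟨RingHom.ker φ, absNorm_ker K φ⟩ :
      {I : Ideal (𝓞 K) // absNorm I = p})) ⟨?_, ?_⟩)
  · intro φ ψ h
    simp only [Subtype.mk.injEq] at h
    ext x
    obtain ⟨n, hn⟩ := ZMod.intCast_surjective (φ x)
    have h1 : x - (n : 𝓞 K) ∈ RingHom.ker φ := by
      rw [RingHom.mem_ker, map_sub, map_intCast, hn, sub_self]
    rw [h, RingHom.mem_ker, map_sub, map_intCast, hn] at h1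
    exact (sub_eq_zero.1 h1).symm
  · rintro ⟨I, hI⟩
    have h1 : Nat.card (𝓞 K ⧸ I) = p := by
      rw [← hI, Ideal.absNorm_apply, Submodule.cardQuot_apply]
    have hfin : Finite (𝓞 K ⧸ I) := Nat.finite_of_card_ne_zero (by rw [h1]; exact hp.out.ne_zero)
    have := Fintype.ofFinite (𝓞 K ⧸ I)
    rw [Nat.card_eq_fintype_card] at h1
    let e := ZMod.ringEquivOfPrime (𝓞 K ⧸ I) hp.out h1
    refine ⟨(e.symm : (𝓞 K ⧸ I) →+* ZMod p).comp (Ideal.Quotient.mk I), ?_⟩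
    apply Subtype.ext
    ext x
    simp only [RingHom.mem_ker, RingHom.comp_apply]
    rw [RingHom.coe_coe, map_eq_zero_iff _ e.symm.injective, Ideal.Quotient.eq_zero_iff_mem]

end homs

section roots

variable {K : Type*} [Field K] [NumberField K]

/-- the number of roots of `f` modulo `p` -/
noncomputable def nroots (f : ℤ[X]) (p : ℕ) : ℕ :=
  Nat.card {r : ZMod p // (f.map (Int.castRingHom (ZMod p))).IsRoot r}

open RingOfIntegers in
theorem homs_eq_roots (θ : 𝓞 K) (p : ℕ) [hp : Fact p.Prime] (hpe : ¬ p ∣ exponent θ) :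
    Nat.card (𝓞 K →+* ZMod p) = nroots (minpoly ℤ θ) p := by
  unfold nroots
  have hroot : ∀ φ : 𝓞 K →+* ZMod p,
      ((minpoly ℤ θ).map (Int.castRingHom (ZMod p))).IsRoot (φ θ) := by
    intro φ
    rw [IsRoot.def, eval_map]
    have h1 : (Int.castRingHom (ZMod p)) = φ.comp (Int.castRingHom (𝓞 K)) := RingHom.ext_int _ _
    rw [h1, ← hom_eval₂]
    have h2 : eval₂ (Int.castRingHom (𝓞 K)) θ (minpoly ℤ θ) = 0 := minpoly.aeval ℤ θ
    rw [h2, map_zero]
  refine Nat.card_congr (Equiv.ofBijective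
    (fun φ : 𝓞 K →+* ZMod p => (⟨φ θ, hroot φ⟩ :
      {r : ZMod p // ((minpoly ℤ θ).map (Int.castRingHom (ZMod p))).IsRoot r})) ⟨?_, ?_⟩)
  · intro φ ψ h
    simp only [Subtype.mk.injEq] at h
    ext x
    obtain ⟨y, hy⟩ := Ideal.Quotient.mk_surjective
      ((ZModXQuotSpanEquivQuotSpan hpe).symm (Ideal.Quotient.mk _ x))
    obtain ⟨Q, hQ⟩ := map_surjective _ (ZMod.ringHom_surjective (Int.castRingHom (ZMod p))) y
    rw [← hQ] at hy
    have h1 := congrArg (ZModXQuotSpanEquivQuotSpan hpe) hy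
    rw [ZModXQuotSpanEquivQuotSpan_mk_apply, RingEquiv.apply_symm_apply] at h1
    have h2 : aeval θ Q - x ∈ span {(p : 𝓞 K)} := (Ideal.Quotient.eq.1 h1)
    rw [mem_span_singleton'] at h2
    obtain ⟨z, hz⟩ := h2
    have h3 : x = aeval θ Q - z * p := by rw [hz]; ring
    have h4 : ∀ χ : 𝓞 K →+* ZMod p, χ x = eval₂ (Int.castRingHom (ZMod p)) (χ θ) Q := by
      intro χ
      have h5 : (Int.castRingHom (ZMod p)) = χ.comp (Int.castRingHom (𝓞 K)) :=
        RingHom.ext_int _ _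
      rw [h3, map_sub, map_mul, map_natCast, CharP.cast_eq_zero, mul_zero, sub_zero, h5,
        ← hom_eval₂]
      rfl
    rw [h4, h4, h]
  · rintro ⟨r, hr⟩
    have h0 : ∀ a ∈ span {(minpoly ℤ θ).map (Int.castRingHom (ZMod p))}, evalRingHom r a = 0 := by
      intro a ha
      rw [mem_span_singleton'] at ha
      obtain ⟨b, hb⟩ := ha
      rw [← hb, map_mul, coe_evalRingHom]
      rw [IsRoot.def] at hr
      simp [hr]
    let ψ : (ZMod p)[X] ⧸ span {(minpoly ℤ θ).map (Int.castRingHom (ZMod p))} →+* ZMod p :=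
      Ideal.Quotient.lift _ (evalRingHom r) h0
    refine ⟨(ψ.comp ((ZModXQuotSpanEquivQuotSpan hpe).symm.toRingHom)).comp
      (Ideal.Quotient.mk (span {(p : 𝓞 K)})), ?_⟩
    apply Subtype.ext
    have h1 := ZModXQuotSpanEquivQuotSpan_mk_apply hpe X
    rw [aeval_X, Polynomial.map_X] at h1
    change ψ ((ZModXQuotSpanEquivQuotSpan hpe).symm (Ideal.Quotient.mk (span {(p : 𝓞 K)}) θ)) = r
    rw [← h1, RingEquiv.symm_apply_apply]
    simp [ψ]

/-- The exponent of a primitive element is not zero. -/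
theorem exponent_ne_zero (θ : 𝓞 K) (h : Algebra.adjoin ℚ {(θ : K)} = ⊤) :
    RingOfIntegers.exponent θ ≠ 0 := by
  have hint : IsIntegral ℚ (θ : K) := IsIntegral.of_finite ℚ _
  let B : PowerBasis ℚ K := PowerBasis.ofAdjoinEqTop hint h
  have hgen : B.gen = (θ : K) := PowerBasis.ofAdjoinEqTop_gen hint h
  have hgi : IsIntegral ℤ B.gen := by rw [hgen]; exact θ.isIntegral_coe
  have hd : IsIntegral ℤ (Algebra.discr ℚ B.basis) := by
    apply Algebra.discr_isIntegral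
    intro i
    rw [B.coe_basis]
    exact hgi.pow _
  obtain ⟨d, hd⟩ := IsIntegrallyClosed.isIntegral_iff.1 hd
  have hd0 : d ≠ 0 := by
    rintro rfl
    have := Algebra.discr_not_zero_of_basis ℚ B.basis
    rw [← hd] at this
    simp at this
  rw [RingOfIntegers.exponent_eq_sInf]
  have hmem : ∀ x : 𝓞 K, ((d.natAbs : 𝓞 K)) * x ∈ Algebra.adjoin ℤ {θ} := by
    intro x
    have h1 := Algebra.discr_mul_isIntegral_mem_adjoin ℚ (B := B) hgi (z := (x : K))
      x.isIntegral_coe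
    rw [← hd, hgen] at h1
    have h2 : Algebra.adjoin ℤ {(θ : K)} =
        (Algebra.adjoin ℤ {θ}).map (IsScalarTower.toAlgHom ℤ (𝓞 K) K) := by
      rw [AlgHom.map_adjoin, Set.image_singleton]
      rfl
    rw [h2, Subalgebra.mem_map] at h1
    obtain ⟨y, hy, hyx⟩ := h1
    have h3 : y = (d : 𝓞 K) * x := by
      apply RingOfIntegers.ext
      refine hyx.trans ?_
      simp [Algebra.smul_def]
    rw [h3] at hy
    clear hd
    rcases d.eq_nat_or_neg with ⟨n, h4 | h4⟩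
    · subst h4
      rw [Int.cast_natCast] at hy
      rw [Int.natAbs_natCast]
      exact hy
    · subst h4
      rw [Int.cast_neg, Int.cast_natCast, neg_mul] at hy
      have := (Algebra.adjoin ℤ {θ}).neg_mem hy
      rw [neg_neg] at this
      rw [Int.natAbs_neg, Int.natAbs_natCast]
      exact this
  have hne : {e : ℕ | 0 < e ∧ (e : 𝓞 K) ∈ conductor ℤ θ}.Nonempty := by
    refine ⟨d.natAbs, Int.natAbs_pos.2 hd0, ?_⟩
    intro x
    exact hmem x
  have := Nat.sInf_mem hne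
  exact this.1.ne'

end roots

section frob

variable (L : Type*) [Field L] [NumberField L]

/-- `σ` is a Frobenius element at the prime `P` of `L` above `p`. -/
structure IsFrob (p : ℕ) (P : Ideal (𝓞 L)) (σ : L ≃ₐ[ℚ] L) : Prop where
  prime : P.IsPrime
  mem : (p : 𝓞 L) ∈ P
  spec : ∀ x : 𝓞 L, σ • x - x ^ p ∈ P

theorem exists_frob [IsGalois ℚ L] (p : ℕ) [hp : Fact p.Prime] :
    ∃ (P : Ideal (𝓞 L)) (σ : L ≃ₐ[ℚ] L), IsFrob L p P σ := by
  have hne : span {(p : 𝓞 L)} ≠ ⊤ := by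
    intro h
    have h1 : absNorm (span {(p : 𝓞 L)}) = 1 := by rw [h, absNorm_top]
    rw [absNorm_span_natCast] at h1
    have h2 : 0 < Module.finrank ℤ (𝓞 L) := Module.finrank_pos
    exact absurd h1 (Nat.one_lt_pow h2.ne' hp.out.one_lt).ne'
  obtain ⟨P, hP, hle⟩ := Ideal.exists_le_maximal _ hne
  have hmem : (p : 𝓞 L) ∈ P := hle (mem_span_singleton_self _)
  have hP0 : P ≠ ⊥ := by
    rintro rfl
    rw [Ideal.mem_bot] at hmem
    exact hp.out.ne_zero (by exact_mod_cast hmem)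
  have hfin : Finite (𝓞 L ⧸ P) := Ideal.finiteQuotientOfFreeOfNeBot P hP0
  have hunder : P.under ℤ = span {(p : ℤ)} := by
    have h1 : (span {(p : ℤ)}).IsMaximal := Int.ideal_span_isMaximal_of_prime p
    symm
    apply h1.eq_of_le
    · exact (Ideal.IsPrime.under ℤ P).ne_top
    · rw [span_singleton_le_iff_mem, Ideal.mem_comap]
      simpa using hmem
  have hcard : Nat.card (ℤ ⧸ P.under ℤ) = p := by
    rw [hunder]
    exact (Nat.card_congr (Int.quotientSpanNatEquivZMod p).toEquiv).trans (Nat.card_zmod p)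
  have : IsGaloisGroup (L ≃ₐ[ℚ] L) ℤ (𝓞 L) := IsGaloisGroup.of_isFractionRing _ ℤ (𝓞 L) ℚ L
  obtain ⟨σ, hσ⟩ := IsArithFrobAt.exists_of_isInvariant ℤ (L ≃ₐ[ℚ] L) P
  refine ⟨P, σ, hP.isPrime, hmem, fun x => ?_⟩
  have := hσ x
  rw [hcard] at this
  exact this

end frob

section count

variable {L : Type*} [Field L] [NumberField L] {p : ℕ} [hp : Fact p.Prime] {P : Ideal (𝓞 L)}
  {σ : L ≃ₐ[ℚ] L}

lemma IsFrob.int_mem (h : IsFrob L p P σ) (n : ℤ) : (n : 𝓞 L) ∈ P ↔ (p : ℤ) ∣ n := by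
  constructor
  · intro hn
    by_contra hcon
    have h1 : IsCoprime (p : ℤ) n := (Nat.prime_iff_prime_int.1 hp.out).coprime_iff_not_dvd.2 hcon
    obtain ⟨a, b, hab⟩ := h1
    have h2 : (1 : 𝓞 L) = (a : 𝓞 L) * (p : 𝓞 L) + (b : 𝓞 L) * (n : 𝓞 L) := by
      have := congrArg (fun z : ℤ => (z : 𝓞 L)) hab
      push_cast at this
      exact this.symm
    have h3 : (1 : 𝓞 L) ∈ P := by
      rw [h2]
      exact P.add_mem (P.mul_mem_left _ h.mem) (P.mul_mem_left _ hn)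
    exact h.prime.ne_top ((Ideal.eq_top_iff_one P).2 h3)
  · rintro ⟨k, rfl⟩
    push_cast
    exact P.mul_mem_right _ h.mem

/-- an element fixed by Frobenius modulo `P` is congruent to an integer -/
lemma IsFrob.exists_int (h : IsFrob L p P σ) {x : 𝓞 L} (hx : x ^ p - x ∈ P) :
    ∃ n : ℤ, x - n ∈ P := by
  have hP0 : P ≠ ⊥ := by
    rintro rfl
    have := h.mem
    rw [Ideal.mem_bot] at this
    exact hp.out.ne_zero (by exact_mod_cast this)
  have hpr := h.prime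
  have hmax : P.IsMaximal := hpr.isMaximal hP0
  let _ := Ideal.Quotient.field P
  have hchar : CharP (𝓞 L ⧸ P) p := by
    refine ⟨fun k => ?_⟩
    have h1 := h.int_mem (k : ℤ)
    rw [Int.natCast_dvd_natCast] at h1
    rw [← h1, ← Ideal.Quotient.eq_zero_iff_mem]
    simp
  have h1 : Ideal.Quotient.mk P x ∈ (⊥ : Subfield (𝓞 L ⧸ P)) := by
    rw [Subfield.mem_bot_iff_pow_eq_self (𝓞 L ⧸ P) p, ← map_pow, Ideal.Quotient.eq]
    exact hx
  rw [mem_bot_iff_intCast p] at h1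
  obtain ⟨n, hn⟩ := h1
  refine ⟨n, ?_⟩
  rw [← Ideal.Quotient.eq, ← hn]
  simp

variable {ι : Type*} [Fintype ι] {θ : ι → 𝓞 L} {f : ℤ[X]}

/-- `σ` fixes `θ_i` if and only if `θ_i` is congruent to an integer. -/
lemma IsFrob.fix_iff (h : IsFrob L p P σ) (hfac : f.map (Int.castRingHom (𝓞 L)) =
    ∏ i, (X - C (θ i))) (hd : ∀ i j, i ≠ j → θ i - θ j ∉ P) (i : ι) :
    σ • θ i = θ i ↔ ∃ n : ℤ, θ i - n ∈ P := by
  constructor
  · intro h1
    apply h.exists_int
    have h2 := h.spec (θ i)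
    rw [h1] at h2
    have := P.neg_mem h2
    rwa [neg_sub] at this
  · rintro ⟨n, hn⟩
    -- `σ θ_i` is a root
    have h1 : ∃ j, σ • θ i = θ j := by
      have h2 : eval₂ (Int.castRingHom (𝓞 L)) (σ • θ i) f = 0 := by
        have h3 : eval₂ (Int.castRingHom (𝓞 L)) (θ i) f = 0 := by
          rw [← eval_map, hfac, eval_prod]
          exact Finset.prod_eq_zero (Finset.mem_univ i) (by simp)
        have h4 := congrArg (MulSemiringAction.toRingHom (L ≃ₐ[ℚ] L) (𝓞 L) σ) h3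
        rw [hom_eval₂, map_zero] at h4
        have h5 : (MulSemiringAction.toRingHom (L ≃ₐ[ℚ] L) (𝓞 L) σ).comp
          (Int.castRingHom (𝓞 L)) = Int.castRingHom (𝓞 L) := RingHom.ext_int _ _
        rw [h5] at h4
        exact h4
      rw [← eval_map, hfac, eval_prod, Finset.prod_eq_zero_iff] at h2
      obtain ⟨j, _, hj⟩ := h2
      refine ⟨j, ?_⟩
      simpa [sub_eq_zero] using hj
    obtain ⟨j, hj⟩ := h1
    by_contra hcon
    have hij : j ≠ i := by
      rintro rfl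
      exact hcon hj
    apply hd j i hij
    rw [← hj]
    have hq : Ideal.Quotient.mk P (θ i) = Ideal.Quotient.mk P (n : 𝓞 L) := Ideal.Quotient.eq.2 hn
    have h3 : Ideal.Quotient.mk P (σ • θ i) = Ideal.Quotient.mk P (θ i ^ p) :=
      Ideal.Quotient.eq.2 (h.spec _)
    rw [← Ideal.Quotient.eq, h3, map_pow, hq, ← map_pow, Ideal.Quotient.eq, ← Int.cast_pow,
      ← Int.cast_sub, h.int_mem]
    have := ZMod.pow_card ((n : ℤ) : ZMod p)
    rw [← sub_eq_zero, ← Int.cast_pow, ← Int.cast_sub, ZMod.intCast_zmod_eq_zero_iff_dvd] at this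
    exact this

lemma IsFrob.root_iff (h : IsFrob L p P σ) (hfac : f.map (Int.castRingHom (𝓞 L)) =
    ∏ i, (X - C (θ i))) (n : ℤ) :
    (f.map (Int.castRingHom (ZMod p))).IsRoot (n : ZMod p) ↔ ∃ i, θ i - n ∈ P := by
  have hpr := h.prime
  have h1 : ((f.eval n : ℤ) : 𝓞 L) = ∏ i, ((n : 𝓞 L) - θ i) := by
    have h2 : eval (n : 𝓞 L) (f.map (Int.castRingHom (𝓞 L))) = ((f.eval n : ℤ) : 𝓞 L) := by
      rw [eval_intCast_map (Int.castRingHom (𝓞 L)) f n, eq_intCast, Int.cast_id]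
    rw [← h2, hfac, eval_prod]
    simp
  have h3 : (f.map (Int.castRingHom (ZMod p))).IsRoot (n : ZMod p) ↔ (p : ℤ) ∣ f.eval n := by
    rw [IsRoot.def, ← ZMod.intCast_zmod_eq_zero_iff_dvd]
    have := eval_intCast_map (Int.castRingHom (ZMod p)) f n
    rw [this, eq_intCast, Int.cast_id]
  rw [h3, ← h.int_mem, h1, hpr.prod_mem_iff]
  constructor
  · rintro ⟨i, _, hi⟩
    refine ⟨i, ?_⟩
    have := P.neg_mem hi
    rwa [neg_sub] at this
  · rintro ⟨i, hi⟩
    refine ⟨i, Finset.mem_univ i, ?_⟩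
    have := P.neg_mem hi
    rwa [neg_sub] at this

/-- The number of roots modulo `p` is the number of roots fixed by Frobenius. -/
theorem IsFrob.nroots_eq (h : IsFrob L p P σ) (hfac : f.map (Int.castRingHom (𝓞 L)) =
    ∏ i, (X - C (θ i))) (hd : ∀ i j, i ≠ j → θ i - θ j ∉ P) :
    nroots f p = Nat.card {i // σ • θ i = θ i} := by
  classical
  unfold nroots
  symm
  have hex : ∀ i : {i // σ • θ i = θ i}, ∃ n : ℤ, θ i.1 - n ∈ P :=
    fun i => (h.fix_iff hfac hd i.1).1 i.2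
  choose n hn using hex
  refine Nat.card_congr (Equiv.ofBijective (fun i : {i // σ • θ i = θ i} =>
    (⟨(n i : ZMod p), (h.root_iff hfac (n i)).2 ⟨i.1, hn i⟩⟩ :
      {r : ZMod p // (f.map (Int.castRingHom (ZMod p))).IsRoot r})) ⟨?_, ?_⟩)
  · intro i j hij
    simp only [Subtype.mk.injEq] at hij
    rw [← sub_eq_zero, ← Int.cast_sub, ZMod.intCast_zmod_eq_zero_iff_dvd, ← h.int_mem] at hij
    by_contra hne
    apply hd i.1 j.1 (fun h => hne (Subtype.ext h))
    have : θ i.1 - θ j.1 = (θ i.1 - n i) + ((n i - n j : ℤ) : 𝓞 L) - (θ j.1 - n j) := by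
      push_cast; ring
    rw [this]
    exact P.sub_mem (P.add_mem (hn i) hij) (hn j)
  · rintro ⟨r, hr⟩
    obtain ⟨m, rfl⟩ := ZMod.intCast_surjective r
    obtain ⟨i, hi⟩ := (h.root_iff hfac m).1 hr
    refine ⟨⟨i, (h.fix_iff hfac hd i).2 ⟨m, hi⟩⟩, ?_⟩
    apply Subtype.ext
    simp only
    rw [← sub_eq_zero, ← Int.cast_sub, ZMod.intCast_zmod_eq_zero_iff_dvd, ← h.int_mem]
    have : ((n ⟨i, (h.fix_iff hfac hd i).2 ⟨m, hi⟩⟩ - m : ℤ) : 𝓞 L) = (θ i - m) -
        (θ i - n ⟨i, (h.fix_iff hfac hd i).2 ⟨m, hi⟩⟩) := by push_cast; ring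
    rw [this]
    exact P.sub_mem hi (hn ⟨i, (h.fix_iff hfac hd i).2 ⟨m, hi⟩⟩)

end count

section orbit

variable {L : Type*} [Field L] [NumberField L]

lemma IsFrob.not_mem {p : ℕ} [hp : Fact p.Prime] {P : Ideal (𝓞 L)} {σ : L ≃ₐ[ℚ] L}
    (h : IsFrob L p P σ) {x : 𝓞 L} (hx : ¬ p ∣ absNorm (span {x})) : x ∉ P := by
  intro hmem
  apply hx
  have h1 : absNorm P ∣ absNorm (span {x}) := absNorm_dvd_absNorm_of_le (by
    rwa [span_singleton_le_iff_mem])
  exact (p_dvd_absNorm L hp.out h.prime h.mem).trans h1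

variable [IsGalois ℚ L]

/-- The minimal polynomial is the product over the orbit. -/
theorem minpoly_factor (α : 𝓞 L) (s : Finset (𝓞 L))
    (hs : ∀ x, x ∈ s ↔ x ∈ MulAction.orbit (L ≃ₐ[ℚ] L) α) :
    (minpoly ℤ α).map (Int.castRingHom (𝓞 L)) = ∏ x : s, (X - C x.1) := by
  rw [Finset.prod_coe_sort s (fun x => X - C x)]
  apply Polynomial.map_injective (algebraMap (𝓞 L) L) RingOfIntegers.coe_injective
  have h1 : (algebraMap (𝓞 L) L).comp (Int.castRingHom (𝓞 L)) =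
      (algebraMap ℚ L).comp (algebraMap ℤ ℚ) := RingHom.ext_int _ _
  rw [Polynomial.map_map, h1, ← Polynomial.map_map,
    ← minpoly.isIntegrallyClosed_eq_field_fractions ℚ L α.isIntegral]
  have hint : IsIntegral ℚ (algebraMap (𝓞 L) L α) := IsIntegral.of_finite ℚ _
  have hmon : ((minpoly ℚ (algebraMap (𝓞 L) L α)).map (algebraMap ℚ L)).Monic :=
    (minpoly.monic hint).map _
  have hsep : ((minpoly ℚ (algebraMap (𝓞 L) L α)).map (algebraMap ℚ L)).Separable :=
    Polynomial.Separable.map (IsGalois.separable ℚ (algebraMap (𝓞 L) L α))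
  rw [(IsGalois.splits ℚ (algebraMap (𝓞 L) L α)).eq_prod_roots_of_monic hmon, Polynomial.map_prod]
  have hroots : ((minpoly ℚ (algebraMap (𝓞 L) L α)).map (algebraMap ℚ L)).roots =
      (s.map ⟨algebraMap (𝓞 L) L, RingOfIntegers.coe_injective⟩).val := by
    rw [Multiset.Nodup.ext (nodup_roots hsep) (Finset.nodup _)]
    intro a
    rw [mem_roots hmon.ne_zero, IsRoot.def, eval_map, Finset.mem_val, Finset.mem_map]
    constructor
    · intro ha
      have h2 : minpoly ℚ a = minpoly ℚ (algebraMap (𝓞 L) L α) :=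
        (minpoly.eq_of_irreducible_of_monic (minpoly.irreducible hint) ha
          (minpoly.monic hint)).symm
      rw [Normal.minpoly_eq_iff_mem_orbit] at h2
      obtain ⟨g, hg⟩ := h2
      refine ⟨g • α, (hs _).2 ⟨g, rfl⟩, ?_⟩
      rw [← hg]
      rfl
    · rintro ⟨x, hx, rfl⟩
      obtain ⟨g, rfl⟩ := (hs x).1 hx
      have h2 : minpoly ℚ (g (algebraMap (𝓞 L) L α)) = minpoly ℚ (algebraMap (𝓞 L) L α) :=
        minpoly.algEquiv_eq g _
      rw [← h2]
      exact minpoly.aeval ℚ (g (algebraMap (𝓞 L) L α))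
  rw [hroots, Finset.map_val, Multiset.map_map]
  calc (Multiset.map ((fun a => X - C a) ∘ _) s.val).prod
      = ∏ x ∈ s, (X - C (algebraMap (𝓞 L) L x)) := rfl
    _ = ∏ x ∈ s, Polynomial.map (algebraMap (𝓞 L) L) (X - C x) :=
        Finset.prod_congr rfl fun x _ => by simp

lemma exists_integral_primitive (K : Type*) [Field K] [NumberField K] :
    ∃ α : 𝓞 K, Algebra.adjoin ℚ {(α : K)} = ⊤ := by
  obtain ⟨a, ha⟩ := Field.exists_primitive_element ℚ K
  have halg : IsAlgebraic ℤ a :=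
    (IsFractionRing.isAlgebraic_iff ℤ ℚ K).2 (Algebra.IsAlgebraic.isAlgebraic a)
  obtain ⟨y, hy, hint⟩ := halg.exists_integral_multiple
  refine ⟨⟨y • a, hint⟩, ?_⟩
  change Algebra.adjoin ℚ {y • a} = ⊤
  have h1 : Algebra.adjoin ℚ {a} = ⊤ := by
    rw [← IntermediateField.adjoin_simple_toSubalgebra_of_isAlgebraic
      (Algebra.IsAlgebraic.isAlgebraic a), ha]
    exact IntermediateField.top_toSubalgebra
  rw [eq_top_iff, ← h1]
  apply Algebra.adjoin_le
  rw [Set.singleton_subset_iff, SetLike.mem_coe]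
  have h2 : a = (y : ℚ)⁻¹ • (y • a) := by
    rw [← Int.cast_smul_eq_zsmul ℚ y a, smul_smul, inv_mul_cancel₀ (by exact_mod_cast hy), one_smul]
  have h3 := (Algebra.adjoin ℚ {y • a}).smul_mem
    (Algebra.self_mem_adjoin_singleton ℚ (y • a)) ((y : ℚ)⁻¹)
  rwa [← h2] at h3

/-- **Degree one primes in the fixed field of `H`** -/
theorem aK_fixed (H : Subgroup (L ≃ₐ[ℚ] L)) : ∃ N : ℕ, N ≠ 0 ∧ ∀ (p : ℕ) [Fact p.Prime],
    ¬ p ∣ N → ∀ (P : Ideal (𝓞 L)) (σ : L ≃ₐ[ℚ] L), IsFrob L p P σ →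
      aK (IntermediateField.fixedField H) p = Nat.card {x : (L ≃ₐ[ℚ] L) ⧸ H // σ • x = x} := by
  classical
  set K := IntermediateField.fixedField H with hK
  obtain ⟨α₀, hα₀⟩ := exists_integral_primitive K
  set α : 𝓞 L := algebraMap (𝓞 K) (𝓞 L) α₀ with hα
  have hfin : (MulAction.orbit (L ≃ₐ[ℚ] L) α).Finite := Set.finite_range _
  set s := hfin.toFinset with hs
  have hmem : ∀ x, x ∈ s ↔ x ∈ MulAction.orbit (L ≃ₐ[ℚ] L) α := fun x => by
    rw [hs, Set.Finite.mem_toFinset]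
  have hcoe : (algebraMap (𝓞 L) L α) = algebraMap K L (α₀ : K) := by
    rw [hα, ← IsScalarTower.algebraMap_apply (𝓞 K) (𝓞 L) L]
    exact IsScalarTower.algebraMap_apply (𝓞 K) K L α₀
  have hstab : MulAction.stabilizer (L ≃ₐ[ℚ] L) α = H := by
    ext g
    rw [MulAction.mem_stabilizer_iff, ← IntermediateField.fixingSubgroup_fixedField H, ← hK,
      IntermediateField.mem_fixingSubgroup_iff]
    constructor
    · intro hg x hx
      have h1 : (⟨x, hx⟩ : K) ∈ Algebra.adjoin ℚ {(α₀ : K)} := by rw [hα₀]; trivial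
      have h2 : ∀ z ∈ Algebra.adjoin ℚ {(α₀ : K)}, g (algebraMap K L z) = algebraMap K L z := by
        intro z hz
        induction hz using Algebra.adjoin_induction with
        | mem z hz =>
          rw [Set.mem_singleton_iff] at hz
          rw [hz, ← hcoe]
          exact congrArg (algebraMap (𝓞 L) L) hg
        | algebraMap r => simp
        | add a b _ _ ha hb => rw [map_add, map_add, ha, hb]
        | mul a b _ _ ha hb => rw [map_mul, map_mul, ha, hb]
      exact h2 _ h1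
    · intro hg
      apply RingOfIntegers.ext
      have h1 : ((g • α : 𝓞 L) : L) = g (algebraMap (𝓞 L) L α) := rfl
      rw [h1, hcoe]
      exact hg _ (α₀ : K).2
  have hmin : minpoly ℤ α = minpoly ℤ α₀ :=
    minpoly.algebraMap_eq (FaithfulSMul.algebraMap_injective (𝓞 K) (𝓞 L)) α₀
  refine ⟨RingOfIntegers.exponent α₀ * ∏ x ∈ s, ∏ y ∈ s.erase x, absNorm (span {x - y}),
    mul_ne_zero (exponent_ne_zero α₀ hα₀) ?_, ?_⟩
  · rw [Finset.prod_ne_zero_iff]
    intro x _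
    rw [Finset.prod_ne_zero_iff]
    intro y hy
    rw [Finset.mem_erase] at hy
    rw [absNorm_ne_zero_iff_mem_nonZeroDivisors, mem_nonZeroDivisors_iff_ne_zero, Ne,
      Ideal.zero_eq_bot, span_singleton_eq_bot, sub_eq_zero]
    exact fun h => hy.1 h.symm
  · intro p hp hpN P σ h
    rw [aK_eq_homs, homs_eq_roots α₀ p fun hd => hpN (hd.mul_right _), ← hmin,
      h.nroots_eq (minpoly_factor α s hmem)]
    · have h1 : Nat.card {x : (L ≃ₐ[ℚ] L) ⧸ H // σ • x = x} =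
          Nat.card {x : (L ≃ₐ[ℚ] L) ⧸ MulAction.stabilizer (L ≃ₐ[ℚ] L) α // σ • x = x} := by
        rw [hstab]
      rw [h1]
      let e : (L ≃ₐ[ℚ] L) ⧸ MulAction.stabilizer (L ≃ₐ[ℚ] L) α ≃ s :=
        (MulAction.orbitEquivQuotientStabilizer (L ≃ₐ[ℚ] L) α).symm.trans
          (Equiv.subtypeEquivRight hmem).symm
      have he : ∀ g : L ≃ₐ[ℚ] L, ((e (QuotientGroup.mk g)).1 : 𝓞 L) = g • α := by
        intro g
        exact MulAction.orbitEquivQuotientStabilizer_symm_apply (L ≃ₐ[ℚ] L) α g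
      symm
      refine Nat.card_congr (Equiv.subtypeEquiv e ?_)
      intro q
      obtain ⟨g, rfl⟩ := QuotientGroup.mk_surjective q
      rw [← e.injective.eq_iff, Subtype.ext_iff, he]
      have h2 : σ • (QuotientGroup.mk g : (L ≃ₐ[ℚ] L) ⧸ MulAction.stabilizer (L ≃ₐ[ℚ] L) α) =
        QuotientGroup.mk (σ * g) := rfl
      rw [h2, he, mul_smul]
    · rintro ⟨x, hx⟩ ⟨y, hy⟩ hxy
      apply h.not_mem
      intro hd
      apply hpN
      apply Dvd.dvd.mul_left
      refine hd.trans (dvd_trans ?_ (Finset.dvd_prod_of_mem _ hx))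
      exact Finset.dvd_prod_of_mem (fun y => absNorm (span {x - y}))
        (Finset.mem_erase.2 ⟨fun h => hxy (Subtype.ext h.symm), hy⟩)

end orbit

end Stoll308.Cheb
end

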