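import Mathlib
import Pool.Agent.Work.BCM.C02
import Pool.Agent.Work.BCM.C22
import Pool.Agent.Work.BCM.C25
import Pool.Agent.Work.MP_2b9663_nt.MV
import Pool.Agent.Work.MP_713a1e_co.Sieve

section
set_option autoImplicit false

/-!
The number of polynomials which come from the reduced pairs of one dyadic cell.
-/

namespace Stoll308.BG

open Polynomial Finset Matrix

namespace CuspCell

lemma fpol_coeff {R : Type*} [CommRing R] {n : ℕ} (a : R) (b : Fin n → R) (i : Fin n) :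
    (fpol a b).coeff (n - 1 - (i : ℕ)) = b i := by
  unfold fpol
  rw [coeff_add, finsetSum_coeff, coeff_C_mul, coeff_X_pow, if_neg (by omega), mul_zero, zero_add,
    Finset.sum_eq_single i]
  · rw [coeff_C_mul, coeff_X_pow, if_pos rfl, mul_one]
  · intro j _ hj
    rw [coeff_C_mul, coeff_X_pow, if_neg, mul_zero]
    intro h
    apply hj
    ext
    omega
  · intro h
    exact absurd (mem_univ i) h

lemma fpol_inj {R : Type*} [CommRing R] {n : ℕ} {a : R} {b b' : Fin n → R}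
    (h : fpol a b = fpol a b') : b = b' := by
  funext i
  rw [← fpol_coeff a b i, ← fpol_coeff a b' i, h]

/-- The pair determines the polynomial. -/
lemma char_inj {n : ℕ} {c c' : Fin n → ℤ} {A B : Matrix (Fin n) (Fin n) ℤ}
    (h : HasChar c A B) (h' : HasChar c' A B) : c = c' := by
  have h1 : C A.det * FZ ℤ c = C A.det * FZ ℤ c' := by rw [← h.2, ← h'.2]
  have h2 : (C A.det : ℤ[X]) ≠ 0 := C_ne_zero.2 h.1
  have h3 := mul_left_cancel₀ h2 h1
  simpa using fpol_inj h3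

/-- Unimodular changes of the basis. -/
lemma char_congr {n : ℕ} {c : Fin n → ℤ} {A B W : Matrix (Fin n) (Fin n) ℤ} (hW : W.det = 1)
    (h : HasChar c A B) : HasChar c (W * A * Wᵀ) (W * B * Wᵀ) := by
  obtain ⟨h1, h2⟩ := h
  have hd : (W * A * Wᵀ).det = A.det := by
    rw [det_mul, det_mul, det_transpose, hW, one_mul, mul_one]
  refine ⟨by rw [hd]; exact h1, ?_⟩
  have e : (X : ℤ[X]) • (W * A * Wᵀ).map C - (W * B * Wᵀ).map C =
      W.map C * ((X : ℤ[X]) • A.map C - B.map C) * (W.map C)ᵀ := by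
    rw [Matrix.map_mul, Matrix.map_mul, Matrix.map_mul, Matrix.map_mul, Matrix.mul_sub,
      Matrix.sub_mul, Matrix.mul_smul, Matrix.smul_mul, transpose_map]
  have hWC : (W.map (C : ℤ → ℤ[X])).det = 1 := by
    have := RingHom.map_det (C : ℤ →+* ℤ[X]) W
    rw [hW, map_one] at this
    exact this.symm
  rw [e, det_mul, det_mul, det_transpose, hWC, one_mul, mul_one, h2, hd]

/-- A matrix with a large zero block is singular. -/
lemma zero_block {n : ℕ} {A : Matrix (Fin n) (Fin n) ℤ} (hA : A.det ≠ 0) (i : Fin n) :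
    ∃ i' j' : Fin n, i' ≤ i ∧ j' ≤ Fin.rev i ∧ A i' j' ≠ 0 := by
  by_contra hcon
  push Not at hcon
  apply hA
  rw [det_apply]
  refine Finset.sum_eq_zero fun σ _ => ?_
  -- some column `k ≤ rev i` is sent to a row `≤ i`
  obtain ⟨k, hk1, hk2⟩ : ∃ k : Fin n, k ≤ Fin.rev i ∧ σ k ≤ i := by
    by_contra hno
    push Not at hno
    have hsub : (Finset.Iic (Fin.rev i)).image σ ⊆ Finset.Ioi i := by
      intro x hx
      rw [Finset.mem_image] at hx
      obtain ⟨k, hk, rfl⟩ := hx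
      rw [Finset.mem_Iic] at hk
      rw [Finset.mem_Ioi]
      exact hno k hk
    have h1 := Finset.card_le_card hsub
    rw [Finset.card_image_of_injective _ σ.injective, Fin.card_Iic, Fin.card_Ioi, Fin.val_rev] at h1
    have := i.2
    omega
  have h0 : A (σ k) k = 0 := hcon (σ k) k hk2 hk1
  have hp : ∏ x, A (σ x) x = 0 := Finset.prod_eq_zero (mem_univ k) h0
  rw [hp, smul_zero]

lemma one_le_abs_cast {z : ℤ} (h : z ≠ 0) : (1 : ℝ) ≤ |(z : ℝ)| := by
  have := Int.one_le_abs h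
  exact_mod_cast this

/-- The conditions for the scale of a nonempty cell. -/
lemma conds {n : ℕ} (hn : 3 ≤ n) {K M : ℝ} (hM : 1 ≤ M) {c : Fin n → ℤ}
    (hF : Irreducible (FZ ℚ c)) {A B : Matrix (Fin n) (Fin n) ℤ} {t : Fin n → ℝ}
    (h : RPair K M c A B t) {τ : Fin n → ℤ}
    (ht : ∀ i, (2 : ℝ) ^ (τ i) ≤ t i ∧ t i < (2 : ℝ) ^ (τ i + 1)) (s : Fin n → ℝ)
    (hs : ∀ i, s i = (2 : ℝ) ^ (τ i + 1)) :
    (∀ i j, i ≤ j → s i ≤ s j) ∧ (∏ i, s i ≤ 2 ^ n * K) ∧ (∀ i, 1 ≤ s i * s (Fin.rev i)) ∧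
      (∀ i j : Fin n, (i : ℕ) + j = n - 2 → 1 ≤ M * (s i * s j)) ∧
      (Odd n → ∀ i : Fin n, (i : ℕ) + 1 = n / 2 → 1 ≤ M * s i ^ 2) ∧
      (Even n → ∀ i : Fin n, (i : ℕ) + 1 = n / 2 → 1 ≤ s i) := by
  have hts : ∀ i, t i ≤ s i := fun i => by rw [hs]; exact (ht i).2.le
  have hst : ∀ i, s i ≤ 2 * t i := fun i => by
    rw [hs, zpow_add_one₀ two_ne_zero, mul_comm]
    exact mul_le_mul_of_nonneg_left (ht i).1 zero_le_two
  have hs0 : ∀ i, 0 < s i := fun i => (h.pos i).trans_le (hts i)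
  have hτ : ∀ i j, i ≤ j → τ i ≤ τ j := by
    intro i j hij
    have h1 : (2 : ℝ) ^ (τ i) < (2 : ℝ) ^ (τ j + 1) :=
      lt_of_le_of_lt (ht i).1 (lt_of_le_of_lt (h.mono i j hij) (ht j).2)
    have h2 := (zpow_lt_zpow_iff_right₀ (one_lt_two (α := ℝ))).1 h1
    omega
  have hmono : ∀ i j, i ≤ j → s i ≤ s j := by
    intro i j hij
    rw [hs, hs]
    exact zpow_le_zpow_right₀ (one_le_two (α := ℝ)) (by have := hτ i j hij; omega)
  have hM0 : 0 < M := by linarith
  -- nonzero entries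
  have hAe : ∀ i j i' j' : Fin n, i' ≤ i → j' ≤ j → A i' j' ≠ 0 → 1 ≤ s i * s j := by
    intro i j i' j' hi hj hne
    calc (1 : ℝ) ≤ |(A i' j' : ℝ)| := one_le_abs_cast hne
      _ ≤ t i' * t j' := h.hA i' j'
      _ ≤ s i' * s j' := mul_le_mul (hts _) (hts _) (h.pos _).le (hs0 _).le
      _ ≤ s i * s j := mul_le_mul (hmono _ _ hi) (hmono _ _ hj) (hs0 _).le (hs0 _).le
  have hBe : ∀ i j i' j' : Fin n, i' ≤ i → j' ≤ j → B i' j' ≠ 0 → 1 ≤ M * (s i * s j) := by
    intro i j i' j' hi hj hne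
    calc (1 : ℝ) ≤ |(B i' j' : ℝ)| := one_le_abs_cast hne
      _ ≤ M * (t i' * t j') := h.hB i' j'
      _ ≤ M * (s i' * s j') := by
          apply mul_le_mul_of_nonneg_left _ hM0.le
          exact mul_le_mul (hts _) (hts _) (h.pos _).le (hs0 _).le
      _ ≤ M * (s i * s j) := by
          apply mul_le_mul_of_nonneg_left _ hM0.le
          exact mul_le_mul (hmono _ _ hi) (hmono _ _ hj) (hs0 _).le (hs0 _).le
  have hABe : ∀ i j i' j' : Fin n, i' ≤ i → j' ≤ j → (A i' j' ≠ 0 ∨ B i' j' ≠ 0) →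
      1 ≤ M * (s i * s j) := by
    intro i j i' j' hi hj hne
    rcases hne with hne | hne
    · have h1 := hAe i j i' j' hi hj hne
      nlinarith
    · exact hBe i j i' j' hi hj hne
  refine ⟨hmono, ?_, ?_, ?_, ?_, ?_⟩
  · calc ∏ i, s i ≤ ∏ i, (2 * t i) :=
          Finset.prod_le_prod (fun i _ => (hs0 i).le) fun i _ => hst i
      _ = 2 ^ n * ∏ i, t i := by
          rw [Finset.prod_mul_distrib, Finset.prod_const, Finset.card_univ, Fintype.card_fin]
      _ ≤ 2 ^ n * K := mul_le_mul_of_nonneg_left h.prod (by positivity)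
  · intro i
    obtain ⟨i', j', hi, hj, hne⟩ := zero_block h.char.1 i
    exact hAe i (Fin.rev i) i' j' hi hj hne
  · intro i j hij
    obtain ⟨i', j', hi, hj, hne⟩ := block_ne c hF A B h.char ((i : ℕ) + 1) (by omega) (by omega)
    refine hABe i j i' j' (Fin.le_def.2 (by omega)) (Fin.le_def.2 (by omega)) hne
  · intro hodd i hi
    obtain ⟨i', j', hi', hj', hne⟩ := h.odd hodd
    have := hABe i i i' j' (Fin.le_def.2 (by omega)) (Fin.le_def.2 (by omega)) hne
    rwa [pow_two]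
  · intro heven i hi
    obtain ⟨i', j', hi', hj', hne⟩ := h.even heven
    have h1 := hAe i i i' j' (Fin.le_def.2 (by omega)) (Fin.le_def.2 (by omega)) hne
    by_contra hlt
    push Not at hlt
    have := hs0 i
    nlinarith

/-- Products of opposite lengths are bounded. -/
lemma pair_le {n : ℕ} {K : ℝ} {s : Fin n → ℝ}
    (hs0 : ∀ i, 0 < s i) (hprod : ∏ i, s i ≤ K)
    (hrev : ∀ i, 1 ≤ s i * s (Fin.rev i)) (i : Fin n) : s i * s (Fin.rev i) ≤ K ^ 2 := by
  have hP0 : 0 ≤ ∏ i, s i := Finset.prod_nonneg fun i _ => (hs0 i).le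
  have hsq : ∏ i, (s i * s (Fin.rev i)) ≤ K ^ 2 := by
    rw [Finset.prod_mul_distrib]
    have e : ∏ i, s (Fin.rev i) = ∏ i, s i := Equiv.prod_comp Fin.revPerm (fun i => s i)
    rw [e, pow_two]
    exact mul_le_mul hprod hprod hP0 (hP0.trans hprod)
  refine le_trans ?_ hsq
  rw [← Finset.mul_prod_erase univ (fun i => s i * s (Fin.rev i)) (mem_univ i)]
  have h1 : (1 : ℝ) ≤ ∏ j ∈ univ.erase i, (s j * s (Fin.rev j)) := by
    refine Finset.induction_on (univ.erase i) ?_ ?_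
    · simp
    · intro a S ha ih
      rw [Finset.prod_insert ha]
      exact one_le_mul_of_one_le_of_one_le (hrev a) ih
  have h2 : 0 < s i * s (Fin.rev i) := mul_pos (hs0 _) (hs0 _)
  nlinarith

/-- The lower bound for the lengths. -/
lemma chain {n : ℕ} (hn : 3 ≤ n) {K M : ℝ} (hK : 1 ≤ K) (hM : 1 ≤ M) {s : Fin n → ℝ}
    (hs0 : ∀ i, 0 < s i) (hmono : ∀ i j, i ≤ j → s i ≤ s j) (hprod : ∏ i, s i ≤ K)
    (hrev : ∀ i, 1 ≤ s i * s (Fin.rev i))
    (h3 : ∀ i j : Fin n, (i : ℕ) + j = n - 2 → 1 ≤ M * (s i * s j)) :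
    ∀ (d : ℕ) (i : Fin n), (i : ℕ) + d = n - 1 → 1 ≤ (K ^ 2 * M) ^ d * s i := by
  have hK0 : 0 < K := by linarith
  have hM0 : 0 < M := by linarith
  intro d
  induction d with
  | zero =>
    intro i hi
    rw [pow_zero, one_mul]
    have h1 := hrev i
    have h2 : s (Fin.rev i) ≤ s i := hmono _ _ (by rw [Fin.le_def, Fin.val_rev]; omega)
    by_contra hlt
    push Not at hlt
    have := hs0 i
    have := hs0 (Fin.rev i)
    nlinarith
  | succ d ih =>
    intro i hi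
    have hi1 : (i : ℕ) + 1 < n := by omega
    obtain ⟨j, hj⟩ : ∃ j : Fin n, (j : ℕ) = (i : ℕ) + 1 := ⟨⟨(i : ℕ) + 1, hi1⟩, rfl⟩
    have h1 := ih j (by omega)
    have h2 := h3 i (Fin.rev j) (by rw [Fin.val_rev]; omega)
    have h4 := pair_le hs0 hprod hrev j
    have h5 := hs0 i
    have h6 := hs0 j
    have h7 := hs0 (Fin.rev j)
    have h8 : s j ≤ K ^ 2 * M * s i := by
      have h9 : s j * 1 ≤ s j * (M * (s i * s (Fin.rev j))) := mul_le_mul_of_nonneg_left h2 h6.le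
      have h10 : M * s i * (s j * s (Fin.rev j)) ≤ M * s i * K ^ 2 :=
        mul_le_mul_of_nonneg_left h4 (mul_pos hM0 h5).le
      nlinarith
    calc (1 : ℝ) ≤ (K ^ 2 * M) ^ d * s j := h1
      _ ≤ (K ^ 2 * M) ^ d * (K ^ 2 * M * s i) := mul_le_mul_of_nonneg_left h8 (by positivity)
      _ = (K ^ 2 * M) ^ (d + 1) * s i := by ring

/-- The number of the polynomials of a cell. -/
lemma count {n : ℕ} (hn : 3 ≤ n) {K M : ℝ} (hM : 1 ≤ M) {s : Fin n → ℝ}
    (hs0 : ∀ i, 0 < s i) (T : Finset (Fin n → ℤ))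
    (hT : ∀ c ∈ T, Irreducible (FZ ℚ c) ∧ ∃ (A B : Matrix (Fin n) (Fin n) ℤ) (t : Fin n → ℝ),
        RPair K M c A B t ∧ ∀ i, t i ≤ s i) :
    (T.card : ℝ) * ∏ i, ∏ j ∈ univ.filter (· < i), (s i / s j) ≤
      (3 * (n : ℝ) ^ 2) ^ (2 * Fintype.card (Ix n)) *
      ((∏ p : Ix n, max 1 (s p.1.1 * s p.1.2)) *
        (∏ p : Ix n, max 1 (M * (s p.1.1 * s p.1.2)))) := by
  classical
  have hM0 : 0 < M := by linarith
  have hT' : ∀ c : Fin n → ℤ, ∃ p : Matrix (Fin n) (Fin n) ℤ × Matrix (Fin n) (Fin n) ℤ,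
      c ∈ T → Irreducible (FZ ℚ c) ∧ HasChar c p.1 p.2 ∧ p.1.IsSymm ∧ p.2.IsSymm ∧
        (∀ i j, |(p.1 i j : ℝ)| ≤ 1 * (s i * s j)) ∧
        ∀ i j, |(p.2 i j : ℝ)| ≤ M * (s i * s j) := by
    intro c
    by_cases hc : c ∈ T
    · obtain ⟨hF, A, B, t, h, ht⟩ := hT c hc
      refine ⟨(A, B), fun _ => ⟨hF, h.char, h.symA, h.symB, fun i j => ?_, fun i j => ?_⟩⟩
      · rw [one_mul]
        exact (h.hA i j).trans (mul_le_mul (ht _) (ht _) (h.pos _).le (hs0 _).le)
      · refine (h.hB i j).trans (mul_le_mul_of_nonneg_left ?_ hM0.le)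
        exact mul_le_mul (ht _) (ht _) (h.pos _).le (hs0 _).le
    · exact ⟨(0, 0), fun h => absurd h hc⟩
  choose P hP using hT'
  have hinj : Set.InjOn P T := by
    intro c hc c' hc' he
    have h1 := (hP c hc).2.1
    have h2 := (hP c' hc').2.1
    rw [← he] at h2
    exact char_inj h1 h2
  have hcount := unip_count s hs0 1 M zero_le_one hM0.le (T.image P) (by
      intro p hp
      rw [Finset.mem_image] at hp
      obtain ⟨c, hc, rfl⟩ := hp
      exact (hP c hc).2.2) (by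
      intro p hp q hq W hW1 hW2 hA hB
      rw [Finset.mem_image] at hp hq
      obtain ⟨c, hc, rfl⟩ := hp
      obtain ⟨c', hc', rfl⟩ := hq
      have hdet : W.det = 1 := Unip.LU.det ⟨hW1, hW2⟩
      have h1 := char_congr hdet (hP c hc).2.1
      rw [hA, hB] at h1
      have h2 := char_inj h1 (hP c' hc').2.1
      subst h2
      exact ⟨rfl, stab c (hP c hc).1 _ _ W (hP c hc).2.1 hW1 hW2 hA hB⟩)
  rw [Finset.card_image_of_injOn hinj] at hcount
  refine hcount.trans ?_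
  have hn1 : (1 : ℝ) ≤ (n : ℝ) ^ 2 := by
    have : (1 : ℝ) ≤ n := by exact_mod_cast (by omega : 1 ≤ n)
    exact one_le_pow₀ this
  have hfac : ∀ x : ℝ, 2 * (n : ℝ) ^ 2 * x + 1 ≤ 3 * (n : ℝ) ^ 2 * max 1 x := by
    intro x
    have h1 : x ≤ max 1 x := le_max_right _ _
    have h2 : 1 ≤ max 1 x := le_max_left _ _
    nlinarith
  have hprod : ∀ (a : ℝ), 0 ≤ a → ∏ p : Ix n, (2 * (n : ℝ) ^ 2 * a * (s p.1.1 * s p.1.2) + 1) ≤
      (3 * (n : ℝ) ^ 2) ^ Fintype.card (Ix n) * ∏ p : Ix n, max 1 (a * (s p.1.1 * s p.1.2)) := by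
    intro a ha
    calc ∏ p : Ix n, (2 * (n : ℝ) ^ 2 * a * (s p.1.1 * s p.1.2) + 1)
        ≤ ∏ p : Ix n, (3 * (n : ℝ) ^ 2 * max 1 (a * (s p.1.1 * s p.1.2))) := by
          refine Finset.prod_le_prod (fun p _ => ?_) (fun p _ => ?_)
          · have := mul_pos (hs0 p.1.1) (hs0 p.1.2)
            positivity
          · have := hfac (a * (s p.1.1 * s p.1.2))
            linarith
      _ = _ := by rw [Finset.prod_mul_distrib, Finset.prod_const, Finset.card_univ]
  have h1 := hprod 1 zero_le_one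
  have h2 := hprod M hM0.le
  simp only [one_mul] at h1
  have e1 : ∏ p : Ix n, (2 * (n : ℝ) ^ 2 * 1 * (s p.1.1 * s p.1.2) + 1) ≤
      (3 * (n : ℝ) ^ 2) ^ Fintype.card (Ix n) * ∏ p : Ix n, max 1 (s p.1.1 * s p.1.2) := h1
  have hQ0 : ∀ a : ℝ, (0:ℝ) ≤ ∏ p : Ix n, max 1 (a * (s p.1.1 * s p.1.2)) := fun a =>
    Finset.prod_nonneg fun p _ => zero_le_one.trans (le_max_left _ _)
  have hQ1 : (0:ℝ) ≤ ∏ p : Ix n, max 1 (s p.1.1 * s p.1.2) :=
    Finset.prod_nonneg fun p _ => zero_le_one.trans (le_max_left _ _)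
  calc _ ≤ ((3 * (n : ℝ) ^ 2) ^ Fintype.card (Ix n) * ∏ p : Ix n, max 1 (s p.1.1 * s p.1.2)) *
      ((3 * (n : ℝ) ^ 2) ^ Fintype.card (Ix n) *
        ∏ p : Ix n, max 1 (M * (s p.1.1 * s p.1.2))) := by
        refine mul_le_mul e1 h2 (Finset.prod_nonneg fun p _ => ?_) (by positivity)
        have := mul_pos (hs0 p.1.1) (hs0 p.1.2)
        positivity
    _ = _ := by ring

end CuspCell

open CuspCell in
theorem cell (n : ℕ) (hn : 3 ≤ n) (K : ℝ) (hK : 1 ≤ K) :
    ∃ (C : ℝ) (Q : ℕ), 0 < C ∧ ∀ (M : ℝ) (τ : Fin n → ℤ), 1 ≤ M → ∀ T : Finset (Fin n → ℤ),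
      T.Nonempty →
      (∀ c ∈ T, Irreducible (FZ ℚ c) ∧ ∃ (A B : Matrix (Fin n) (Fin n) ℤ) (t : Fin n → ℝ),
        RPair K M c A B t ∧ ∀ i, (2 : ℝ) ^ (τ i) ≤ t i ∧ t i < (2 : ℝ) ^ (τ i + 1)) →
      (∀ i, τ ⟨0, by omega⟩ ≤ τ i) ∧ (∀ i, τ i ≤ Q * (1 + |τ ⟨0, by omega⟩|)) ∧
      (2 : ℝ) ^ (-τ ⟨0, by omega⟩) ≤ C * M ^ Q ∧
      (T.card : ℝ) ≤ C * M ^ (n * (n + 1) / 2) *
        √(max ((2 : ℝ) ^ (τ ⟨0, by omega⟩)) (1 / M)) := by
  obtain ⟨K', hK'⟩ : ∃ K' : ℝ, K' = 2 ^ n * K := ⟨_, rfl⟩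
  have hK'1 : 1 ≤ K' := by
    rw [hK']
    exact one_le_mul_of_one_le_of_one_le (one_le_pow₀ one_le_two) hK
  have hK'0 : 0 < K' := by linarith
  obtain ⟨C₀, hC₀, hexpo⟩ := expo n hn K' hK'1
  obtain ⟨q, hq⟩ : ∃ q : ℕ, K' ^ 2 < 2 ^ q := pow_unbounded_of_one_lt _ one_lt_two
  have h0n : 0 < n := by omega
  obtain ⟨z, hz⟩ : ∃ z : Fin n, z = ⟨0, h0n⟩ := ⟨_, rfl⟩
  obtain ⟨D, hD⟩ : ∃ D : ℝ, D = (3 * (n : ℝ) ^ 2) ^ (2 * Fintype.card (Ix n)) := ⟨_, rfl⟩
  have hD0 : 0 < D := by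
    rw [hD]
    have : (0 : ℝ) < n := by exact_mod_cast h0n
    positivity
  refine ⟨2 * (K' ^ 2) ^ (n - 1) + 2 * D * C₀, q + n, by positivity, ?_⟩
  intro M τ hM T hTne hT
  rw [← hz]
  have hM0 : 0 < M := by linarith
  obtain ⟨s, hs⟩ : ∃ s : Fin n → ℝ, ∀ i, s i = (2 : ℝ) ^ (τ i + 1) := ⟨_, fun _ => rfl⟩
  have hs0 : ∀ i, 0 < s i := fun i => by rw [hs]; positivity
  obtain ⟨c₀, hc₀⟩ := hTne
  obtain ⟨hF₀, A₀, B₀, t₀, hR₀, ht₀⟩ := hT c₀ hc₀
  obtain ⟨hmono, hprod, hrev, h3, h4, h5⟩ := conds hn hM hF₀ hR₀ ht₀ s hs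
  rw [← hK'] at hprod
  have hsz : s z = 2 * (2 : ℝ) ^ (τ z) := by
    rw [hs, zpow_add_one₀ two_ne_zero, mul_comm]
  have hchain := chain hn hK'1 hM hs0 hmono hprod hrev h3 (n - 1) z (by rw [hz]; simp)
  refine ⟨fun i => ?_, fun i => ?_, ?_, ?_⟩
  · have h1 := hmono z i (by rw [hz, Fin.le_def]; simp)
    rw [hs, hs, zpow_le_zpow_iff_right₀ (one_lt_two (α := ℝ))] at h1
    omega
  · have h1 := pair_le hs0 hprod hrev z
    have h2 : s i ≤ s (Fin.rev z) := hmono _ _ (by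
      rw [Fin.le_def, Fin.val_rev, hz]
      have := i.2
      simp only
      omega)
    have h6 : s z * s i < 2 ^ q :=
      lt_of_le_of_lt ((mul_le_mul_of_nonneg_left h2 (hs0 z).le).trans h1) hq
    rw [hs, hs, ← zpow_add₀ two_ne_zero, ← zpow_natCast,
      zpow_lt_zpow_iff_right₀ (one_lt_two (α := ℝ))] at h6
    have h7 := neg_abs_le (τ z)
    have h8 : (0 : ℤ) ≤ |τ z| := abs_nonneg _
    have h9 : ((q + n : ℕ) : ℤ) * (1 + |τ z|) = q + n + (q + n) * |τ z| := by push_cast; ring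
    rw [h9]
    have h10 : (3 : ℤ) ≤ n := by exact_mod_cast hn
    have h11 : (0 : ℤ) ≤ q := by positivity
    nlinarith
  · have h1 : (2 : ℝ) ^ (-τ z) * (2 : ℝ) ^ (τ z) = 1 := by
      rw [← zpow_add₀ two_ne_zero]; simp
    have h2 : (0 : ℝ) < (2 : ℝ) ^ (-τ z) := by positivity
    have h6 : (2 : ℝ) ^ (-τ z) ≤ 2 * (K' ^ 2 * M) ^ (n - 1) := by
      rw [hsz] at hchain
      calc (2 : ℝ) ^ (-τ z) = (2 : ℝ) ^ (-τ z) * 1 := (mul_one _).symm
        _ ≤ (2 : ℝ) ^ (-τ z) * ((K' ^ 2 * M) ^ (n - 1) * (2 * (2 : ℝ) ^ (τ z))) :=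
            mul_le_mul_of_nonneg_left hchain h2.le
        _ = ((2 : ℝ) ^ (-τ z) * (2 : ℝ) ^ (τ z)) * (2 * (K' ^ 2 * M) ^ (n - 1)) := by ring
        _ = _ := by rw [h1, one_mul]
    calc (2 : ℝ) ^ (-τ z) ≤ 2 * (K' ^ 2 * M) ^ (n - 1) := h6
      _ = 2 * (K' ^ 2) ^ (n - 1) * M ^ (n - 1) := by rw [mul_pow]; ring
      _ ≤ (2 * (K' ^ 2) ^ (n - 1) + 2 * D * C₀) * M ^ (q + n) := by
          refine mul_le_mul ?_ (pow_le_pow_right₀ hM (by omega)) (by positivity) (by positivity)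
          have : 0 < 2 * D * C₀ := by positivity
          linarith
  · have hcount := count hn hM hs0 T (fun c hc => by
      obtain ⟨hF, A, B, t, h, ht⟩ := hT c hc
      exact ⟨hF, A, B, t, h, fun i => by rw [hs]; exact (ht i).2.le⟩)
    rw [← hD] at hcount
    have hKM : ∀ x : ℝ, 0 ≤ x → 1 ≤ M * x → 1 ≤ K' * M * x := by
      intro x hx h
      have : M * x ≤ K' * (M * x) := le_mul_of_one_le_left (by positivity) hK'1
      rw [mul_assoc]
      linarith
    have hexp := hexpo M s hM hs0 hmono hprod hrev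
      (fun i j hij => hKM _ (mul_pos (hs0 i) (hs0 j)).le (h3 i j hij))
      (fun ho i hi => hKM _ (sq_nonneg _) (h4 ho i hi))
      h5
    rw [← hz] at hexp
    obtain ⟨V, hV⟩ : ∃ V : ℝ, V = ∏ i, ∏ j ∈ univ.filter (· < i), (s i / s j) := ⟨_, rfl⟩
    have hV0 : 0 < V := by
      rw [hV]
      exact Finset.prod_pos fun i _ => Finset.prod_pos fun j _ => div_pos (hs0 i) (hs0 j)
    rw [← hV] at hcount hexp
    have hsqrt : √(max (s z) (1 / M)) ≤ 2 * √(max ((2 : ℝ) ^ (τ z)) (1 / M)) := by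
      have h1 : max (s z) (1 / M) ≤ 2 ^ 2 * max ((2 : ℝ) ^ (τ z)) (1 / M) := by
        have h2 : (2 : ℝ) ^ (τ z) ≤ max ((2 : ℝ) ^ (τ z)) (1 / M) := le_max_left _ _
        have h3 : 1 / M ≤ max ((2 : ℝ) ^ (τ z)) (1 / M) := le_max_right _ _
        have h4 : 0 < 1 / M := by positivity
        rw [hsz]
        refine max_le ?_ ?_
        · linarith
        · linarith
      calc √(max (s z) (1 / M)) ≤ √(2 ^ 2 * max ((2 : ℝ) ^ (τ z)) (1 / M)) :=
            Real.sqrt_le_sqrt h1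
        _ = 2 * √(max ((2 : ℝ) ^ (τ z)) (1 / M)) := by
            rw [Real.sqrt_mul (by norm_num), Real.sqrt_sq (by norm_num)]
    have h6 : (T.card : ℝ) * V ≤ (2 * D * C₀ * M ^ (n * (n + 1) / 2) *
        √(max ((2 : ℝ) ^ (τ z)) (1 / M))) * V := by
      calc (T.card : ℝ) * V ≤ D * (C₀ * M ^ (n * (n + 1) / 2) * V * √(max (s z) (1 / M))) :=
            hcount.trans (mul_le_mul_of_nonneg_left hexp hD0.le)
        _ ≤ D * (C₀ * M ^ (n * (n + 1) / 2) * V * (2 * √(max ((2 : ℝ) ^ (τ z)) (1 / M)))) := by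
            refine mul_le_mul_of_nonneg_left (mul_le_mul_of_nonneg_left hsqrt ?_) hD0.le
            positivity
        _ = _ := by ring
    have h7 := le_of_mul_le_mul_right h6 hV0
    refine h7.trans ?_
    refine mul_le_mul_of_nonneg_right (mul_le_mul_of_nonneg_right ?_ (by positivity))
      (Real.sqrt_nonneg _)
    have : 0 < 2 * (K' ^ 2) ^ (n - 1) := by positivity
    linarith

end Stoll308.BG
end

section
set_option autoImplicit false

/-! Mean values of class functions at Frobenius elements. -/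

namespace Stoll308.Cheb

open Finset

section group

variable {G : Type*} [Group G]

/-- fixed points of `σ` on `G/H` -/
noncomputable def fx (H : Subgroup G) (σ : G) : ℝ := (Nat.card {x : G ⧸ H // σ • x = x} : ℝ)

lemma fx_nonneg (H : Subgroup G) (σ : G) : 0 ≤ fx H σ := by unfold fx; positivity

lemma fx_conj (H : Subgroup G) (g σ : G) : fx H (g * σ * g⁻¹) = fx H σ := by
  unfold fx
  norm_cast
  refine Nat.card_congr (Equiv.subtypeEquiv (MulAction.toPerm g⁻¹) ?_)
  intro x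
  rw [MulAction.toPerm_apply]
  constructor
  · intro h
    calc σ • g⁻¹ • x = g⁻¹ • ((g * σ * g⁻¹) • x) := by
          rw [smul_smul, smul_smul]; group
      _ = g⁻¹ • x := by rw [h]
  · intro h
    calc (g * σ * g⁻¹) • x = g • (σ • g⁻¹ • x) := by rw [smul_smul, smul_smul, mul_assoc]
      _ = x := by rw [h, smul_inv_smul]

lemma fx_div (H : Subgroup G) {σ τ : G} (h : Subgroup.zpowers σ = Subgroup.zpowers τ) :
    fx H σ = fx H τ := by
  unfold fx
  norm_cast
  have key : ∀ {σ τ : G}, Subgroup.zpowers σ = Subgroup.zpowers τ → ∀ x : G ⧸ H,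
      σ • x = x → τ • x = x := by
    intro σ τ h x hx
    have h1 : τ ∈ Subgroup.zpowers σ := h ▸ Subgroup.mem_zpowers τ
    obtain ⟨k, rfl⟩ := Subgroup.mem_zpowers_iff.1 h1
    have h2 : σ ∈ MulAction.stabilizer G x := hx
    exact (MulAction.stabilizer G x).zpow_mem h2 k
  exact Nat.card_congr (Equiv.subtypeEquivRight fun x => ⟨key h x, key h.symm x⟩)

lemma fx_ne_zero {τ σ : G} (h : fx (Subgroup.zpowers τ) σ ≠ 0) :
    ∃ g : G, g⁻¹ * σ * g ∈ Subgroup.zpowers τ := by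
  unfold fx at h
  have h := Nat.card_ne_zero.1 (Nat.cast_ne_zero.1 h)
  obtain ⟨⟨x, hx⟩⟩ := h.1
  obtain ⟨g, rfl⟩ := QuotientGroup.mk_surjective x
  refine ⟨g, ?_⟩
  have h2 : (QuotientGroup.mk (σ * g) : G ⧸ Subgroup.zpowers τ) = QuotientGroup.mk g := hx
  have h3 := QuotientGroup.eq.1 h2.symm
  rwa [← mul_assoc] at h3

variable [Fintype G]

lemma fx_self_pos (τ : G) : 0 < fx (Subgroup.zpowers τ) τ := by
  unfold fx
  have : 0 < Nat.card {x : G ⧸ Subgroup.zpowers τ // τ • x = x} := by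
    rw [Nat.card_pos_iff]
    refine ⟨⟨⟨QuotientGroup.mk 1, ?_⟩⟩, inferInstance⟩
    have h2 : τ • (QuotientGroup.mk 1 : G ⧸ Subgroup.zpowers τ) = QuotientGroup.mk (τ * 1) := rfl
    rw [h2, QuotientGroup.eq]
    simp
  exact_mod_cast this

theorem class_induction (V : (G → ℝ) → Prop) (hadd : ∀ f g, V f → V g → V (f + g))
    (hsmul : ∀ (c : ℝ) f, V f → V (c • f)) (h0 : V 0)
    (hfix : ∀ τ, V (fx (Subgroup.zpowers τ))) (φ : G → ℝ)
    (hconj : ∀ g σ, φ (g * σ * g⁻¹) = φ σ)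
    (hdiv : ∀ σ τ, Subgroup.zpowers σ = Subgroup.zpowers τ → φ σ = φ τ) : V φ := by
  classical
  have hsum : ∀ (s : Finset G) (f : G → G → ℝ), (∀ τ ∈ s, V (f τ)) → V (∑ τ ∈ s, f τ) := by
    intro s f
    induction s using Finset.induction_on with
    | empty => intro _; simpa using h0
    | insert a s ha ih =>
      intro h
      rw [Finset.sum_insert ha]
      exact hadd _ _ (h a (Finset.mem_insert_self _ _))
        (ih fun τ hτ => h τ (Finset.mem_insert_of_mem hτ))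
  have claim : ∀ n : ℕ, ∀ φ : G → ℝ, (∀ g σ, φ (g * σ * g⁻¹) = φ σ) →
      (∀ σ τ, Subgroup.zpowers σ = Subgroup.zpowers τ → φ σ = φ τ) →
      (∀ σ, n ≤ orderOf σ → φ σ = 0) → V φ := by
    intro n
    induction n with
    | zero =>
      intro φ _ _ h
      have : φ = 0 := funext fun σ => h σ (Nat.zero_le _)
      rw [this]; exact h0
    | succ n ih =>
      intro φ hc hd h
      set s := (univ : Finset G).filter (fun τ => orderOf τ = n) with hs
      set w : G → ℝ := fun σ => ∑ τ ∈ s, fx (Subgroup.zpowers τ) σ with hw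
      set ψ : G → ℝ := ∑ τ ∈ s, (φ τ / w τ) • fx (Subgroup.zpowers τ) with hψ
      have hψa : ∀ σ, ψ σ = ∑ τ ∈ s, (φ τ / w τ) * fx (Subgroup.zpowers τ) σ := by
        intro σ
        rw [hψ, Finset.sum_apply]
        rfl
      have hψV : V ψ := hsum _ _ fun τ _ => hsmul _ _ (hfix τ)
      have hwc : ∀ g σ, w (g * σ * g⁻¹) = w σ := fun g σ => by
        simp only [hw, fx_conj]
      have hwd : ∀ σ τ, Subgroup.zpowers σ = Subgroup.zpowers τ → w σ = w τ := fun σ τ h => by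
        simp only [hw]
        exact Finset.sum_congr rfl fun _ _ => fx_div _ h
      have hψc : ∀ g σ, ψ (g * σ * g⁻¹) = ψ σ := fun g σ => by
        simp only [hψa, fx_conj]
      have hψd : ∀ σ τ, Subgroup.zpowers σ = Subgroup.zpowers τ → ψ σ = ψ τ := fun σ τ h => by
        simp only [hψa]
        exact Finset.sum_congr rfl fun _ _ => by rw [fx_div _ h]
      have hkey : ∀ σ, n ≤ orderOf σ → φ σ - ψ σ = 0 := by
        intro σ hσ
        rcases hσ.eq_or_lt with h1 | h1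
        · have hσs : σ ∈ s := by rw [hs, mem_filter]; exact ⟨mem_univ _, h1.symm⟩
          have hwpos : 0 < w σ := by
            refine lt_of_lt_of_le (fx_self_pos σ) ?_
            exact Finset.single_le_sum (f := fun τ => fx (Subgroup.zpowers τ) σ)
              (fun τ _ => fx_nonneg _ _) hσs
          have h2 : ∀ τ ∈ s, (φ τ / w τ) * fx (Subgroup.zpowers τ) σ =
              (φ σ / w σ) * fx (Subgroup.zpowers τ) σ := by
            intro τ hτ
            by_cases h3 : fx (Subgroup.zpowers τ) σ = 0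
            · rw [h3, mul_zero, mul_zero]
            · obtain ⟨g, hg⟩ := fx_ne_zero h3
              have h4 : Subgroup.zpowers (g⁻¹ * σ * g) = Subgroup.zpowers τ := by
                apply Subgroup.eq_of_le_of_card_ge
                · rwa [Subgroup.zpowers_le]
                · rw [Nat.card_zpowers, Nat.card_zpowers]
                  have h5 : orderOf (g⁻¹ * σ * g) = orderOf σ := by
                    have := orderOf_injective (MulAut.conj g⁻¹).toMonoidHom
                      (MulAut.conj g⁻¹).injective σ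
                    simpa using this
                  rw [h5, ← h1]
                  rw [hs, mem_filter] at hτ
                  exact hτ.2.le
              have h6 : φ τ = φ σ := by
                rw [← hd _ _ h4]
                have := hc g⁻¹ σ
                rwa [inv_inv] at this
              have h7 : w τ = w σ := by
                rw [← hwd _ _ h4]
                have := hwc g⁻¹ σ
                rwa [inv_inv] at this
              rw [h6, h7]
          rw [hψa, Finset.sum_congr rfl h2, ← Finset.mul_sum]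
          change φ σ - φ σ / w σ * w σ = 0
          rw [div_mul_cancel₀ _ hwpos.ne', sub_self]
        · rw [h σ h1, hψa, Finset.sum_eq_zero, sub_zero]
          intro τ hτ
          have h3 : fx (Subgroup.zpowers τ) σ = 0 := by
            by_contra h3
            obtain ⟨g, hg⟩ := fx_ne_zero h3
            have h5 : orderOf (g⁻¹ * σ * g) = orderOf σ := by
              have := orderOf_injective (MulAut.conj g⁻¹).toMonoidHom
                (MulAut.conj g⁻¹).injective σ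
              simpa using this
            have h6 := orderOf_dvd_of_mem_zpowers hg
            rw [h5] at h6
            rw [hs, mem_filter] at hτ
            rw [hτ.2] at h6
            have hn : 0 < n := by
              rw [← hτ.2]; exact orderOf_pos τ
            exact absurd (Nat.le_of_dvd hn h6) (by omega)
          rw [h3, mul_zero]
      have hfin := ih (φ - ψ) (fun g σ => by
          simp only [Pi.sub_apply]
          rw [hc, hψc]) (fun σ τ h => by
          simp only [Pi.sub_apply]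
          rw [hd _ _ h, hψd _ _ h]) hkey
      have := hadd _ _ hfin hψV
      rwa [sub_add_cancel] at this
  refine claim (Fintype.card G + 1) φ hconj hdiv fun σ hσ => ?_
  have := orderOf_le_card_univ (x := σ)
  omega

lemma sum_fx (H : Subgroup G) : ∑ σ, fx H σ = Fintype.card G := by
  classical
  have h := MulAction.sum_card_fixedBy_eq_card_orbits_mul_card_group G (G ⧸ H)
  have h1 : Fintype.card (Quotient (MulAction.orbitRel G (G ⧸ H))) = 1 := by
    rw [Fintype.card_eq_one_iff_nonempty_unique]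
    have hs : Subsingleton (Quotient (MulAction.orbitRel G (G ⧸ H))) :=
      (MulAction.pretransitive_iff_subsingleton_quotient G (G ⧸ H)).1 inferInstance
    exact ⟨⟨Quotient.mk _ (QuotientGroup.mk 1)⟩, fun a => Subsingleton.elim _ _⟩
  rw [h1, one_mul] at h
  rw [← h]
  push_cast
  refine Finset.sum_congr rfl fun σ _ => ?_
  unfold fx
  rw [← Nat.card_eq_fintype_card]
  rfl

end group

section mean

open NumberField Pool.Agent.Work.MP_2b9663_nt

variable (L : Type*) [Field L] [NumberField L] [IsGalois ℚ L]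

/-- A Frobenius element and a prime ideal of `L` above `p`, chosen once and for all. -/
theorem exists_frob' (p : Nat.Primes) : ∃ (σ : L ≃ₐ[ℚ] L) (P : Ideal (𝓞 L)), IsFrob L p P σ := by
  have : Fact (p : ℕ).Prime := ⟨p.2⟩
  obtain ⟨P, σ, h⟩ := exists_frob L (p : ℕ)
  exact ⟨σ, P, h⟩

/-- the chosen Frobenius element -/
noncomputable def frob (p : Nat.Primes) : L ≃ₐ[ℚ] L := (exists_frob' L p).choose

/-- the chosen prime ideal -/
noncomputable def frobP (p : Nat.Primes) : Ideal (𝓞 L) := (exists_frob' L p).choose_spec.choose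

lemma frob_spec (p : Nat.Primes) : IsFrob L p (frobP L p) (frob L p) :=
  (exists_frob' L p).choose_spec.choose_spec

lemma finite_dvd {N : ℕ} (hN : N ≠ 0) : ∃ T : Finset Nat.Primes, ∀ p : Nat.Primes,
    (p : ℕ) ∣ N → p ∈ T := by
  have h : {p : Nat.Primes | (p : ℕ) ∣ N}.Finite := by
    apply Set.Finite.of_finite_image (f := fun p : Nat.Primes => (p : ℕ))
    · refine (Nat.divisors N).finite_toSet.subset ?_
      rintro _ ⟨p, hp, rfl⟩
      rw [Finset.mem_coe, Nat.mem_divisors]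
      exact ⟨hp, hN⟩
    · exact fun p _ q _ h => Subtype.ext h
  exact ⟨h.toFinset, fun p hp => by rw [Set.Finite.mem_toFinset]; exact hp⟩

lemma BD_class {G : Type*} [Finite G] (φ : G → ℝ) (F : Nat.Primes → G) :
    BD (fun p => φ (F p)) := by
  have := Fintype.ofFinite G
  refine ⟨∑ g, |φ g|, fun p => ?_⟩
  exact Finset.single_le_sum (f := fun g => |φ g|) (fun g _ => abs_nonneg _) (Finset.mem_univ _)

theorem MV_fx (H : Subgroup (L ≃ₐ[ℚ] L)) : MV (fun p => fx H (frob L p)) 1 := by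
  obtain ⟨N, hN, h⟩ := aK_fixed (L := L) H
  obtain ⟨T, hT⟩ := finite_dvd hN
  refine (MV_aK (IntermediateField.fixedField H)).congr (BD_class _ _) T ?_
  intro p hp
  have : Fact (p : ℕ).Prime := ⟨p.2⟩
  have := h p (fun hd => hp (hT p hd)) (frobP L p) (frob L p) (frob_spec L p)
  unfold fx
  exact_mod_cast this

/-- **Mean value of a function of the Frobenius which is constant on divisions.** -/
theorem MV_class (φ : (L ≃ₐ[ℚ] L) → ℝ) (hconj : ∀ g σ, φ (g * σ * g⁻¹) = φ σ)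
    (hdiv : ∀ σ τ, Subgroup.zpowers σ = Subgroup.zpowers τ → φ σ = φ τ) :
    MV (fun p => φ (frob L p)) ((∑ σ, φ σ) / Fintype.card (L ≃ₐ[ℚ] L)) := by
  have hc : (Fintype.card (L ≃ₐ[ℚ] L) : ℝ) ≠ 0 := by exact_mod_cast Fintype.card_ne_zero
  refine class_induction (fun φ => MV (fun p => φ (frob L p))
    ((∑ σ, φ σ) / Fintype.card (L ≃ₐ[ℚ] L))) ?_ ?_ ?_ ?_ φ hconj hdiv
  · intro f g hf hg
    have := hf.add hg
    simp only [Pi.add_apply, Finset.sum_add_distrib, add_div]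
    exact this
  · intro c f hf
    have := hf.const_mul c
    simp only [Pi.smul_apply, smul_eq_mul, ← Finset.mul_sum, mul_div_assoc]
    exact this
  · simp only [Pi.zero_apply, Finset.sum_const_zero, zero_div]
    exact MV.zero
  · intro τ
    rw [sum_fx, div_self hc]
    exact MV_fx L _

end mean

end Stoll308.Cheb
end

section
/-! Partial sums of `c p / p` over primes from the behaviour of the Dirichlet series at `1`. -/

set_option autoImplicit false

namespace Stoll308.MeanSum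

open Finset Filter Topology
open Pool.Agent.Work.MP_2b9663_nt
open Pool.Agent.Work.MP_40574a_nt.Mertens

/-- the primes up to `X` -/
abbrev PR (X : ℕ) : Finset ℕ := (Icc 1 X).filter Nat.Prime

lemma mem_PR {X p : ℕ} : p ∈ PR X ↔ p.Prime ∧ p ≤ X := by
  rw [PR, mem_filter, mem_Icc]
  exact ⟨fun h => ⟨h.2, h.1.2⟩, fun h => ⟨⟨h.1.one_le, h.2⟩, h.1⟩⟩

lemma sum_smallPrimes (X : ℕ) (f : ℕ → ℝ) :
    ∑ p ∈ smallPrimes (X + 1), f (p : ℕ) = ∑ p ∈ PR X, f p := by
  refine sum_bij (fun p _ => (p : ℕ)) ?_ ?_ ?_ ?_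
  · intro p hp
    rw [mem_smallPrimes] at hp
    exact mem_PR.2 ⟨p.2, by omega⟩
  · intro p _ q _ h
    exact Nat.Primes.coe_nat_injective h
  · intro p hp
    obtain ⟨h1, h2⟩ := mem_PR.1 hp
    exact ⟨⟨p, h1⟩, by rw [mem_smallPrimes]; change p < X + 1; omega, rfl⟩
  · intro p _
    rfl

/-- Mertens' second theorem, lower bound. -/
lemma sum_inv_ge {X : ℕ} (hX : 2 ≤ X) :
    Real.log (Real.log X) - 2 ≤ ∑ p ∈ PR X, 1 / (p : ℝ) := by
  have hX2 : (2 : ℝ) ≤ X := by exact_mod_cast hX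
  have hlog : 0 < Real.log X := Real.log_pos (by linarith)
  have h1 := Pool.Agent.Work.MP_713a1e_co.mertens_third_upper hX2
  have hPB : PB 1 (X : ℝ) = PR X := by
    ext p
    unfold PB
    rw [Nat.floor_one, Nat.floor_natCast, mem_filter, mem_Ioc, mem_PR]
    constructor
    · rintro ⟨⟨_, h2⟩, h3⟩
      exact ⟨h3, h2⟩
    · rintro ⟨h1, h2⟩
      exact ⟨⟨h1.one_lt, h2⟩, h1⟩
  rw [hPB] at h1
  have hpos : ∀ q ∈ PR X, 0 < 1 - 1 / (q : ℝ) := fun q hq =>
    Pool.Agent.Work.MP_713a1e_co.one_sub_inv_pos (mem_PR.1 hq).1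
  have h2 : Real.log (∏ q ∈ PR X, (1 - 1 / (q : ℝ))) ≤ Real.log (1 / Real.log X) :=
    Real.log_le_log (prod_pos hpos) h1
  rw [Real.log_prod (fun q hq => (hpos q hq).ne'), one_div, Real.log_inv] at h2
  have h3 : ∀ q ∈ PR X, -(1 / (q : ℝ)) - 2 * (1 / ((q : ℝ) * (q : ℝ))) ≤ Real.log (1 - 1 / (q : ℝ)) := by
    intro q hq
    have hq2 : (2 : ℝ) ≤ q := by exact_mod_cast (mem_PR.1 hq).1.two_le
    have hy : 0 < 1 - 1 / (q : ℝ) := hpos q hq
    have h4 := Real.one_sub_inv_le_log_of_pos hy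
    have h5 : 1 / (q : ℝ) ≤ 1 / 2 := one_div_le_one_div_of_le (by norm_num) hq2
    refine le_trans ?_ h4
    set x := 1 / (q : ℝ) with hx
    have hx0 : 0 < x := by positivity
    have h6 : 1 / ((q : ℝ) * (q : ℝ)) = x * x := by rw [hx]; ring
    rw [h6]
    have h7 : (1 - x)⁻¹ ≤ 1 + x + 2 * (x * x) := by
      rw [inv_le_iff_one_le_mul₀ hy]
      nlinarith [mul_pos hx0 hx0, mul_pos (mul_pos hx0 hx0) hx0]
    linarith
  have h4 := sum_le_sum h3
  have h5 : ∑ q ∈ PR X, 1 / ((q : ℝ) * (q : ℝ)) ≤ 1 := by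
    have h6 : ∀ N : ℕ, 1 ≤ N → ∑ q ∈ PR N, 1 / ((q : ℝ) * (q : ℝ)) ≤ 1 - 1 / N := by
      intro N hN
      induction N, hN using Nat.le_induction with
      | base =>
        have : PR 1 = ∅ := by
          ext p
          rw [mem_PR]
          constructor
          · rintro ⟨h1, h2⟩
            have := h1.two_le
            omega
          · intro h
            simp at h
        rw [this]
        simp
      | succ N hN ih =>
        have hNpos : (0 : ℝ) < N := by exact_mod_cast hN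
        have h7 : ∑ q ∈ PR (N + 1), 1 / ((q : ℝ) * (q : ℝ)) ≤
            ∑ q ∈ PR N, 1 / ((q : ℝ) * (q : ℝ)) + 1 / (((N + 1 : ℕ) : ℝ) * ((N + 1 : ℕ) : ℝ)) := by
          have : PR (N + 1) ⊆ insert (N + 1) (PR N) := by
            intro p hp
            rw [mem_PR] at hp
            rw [mem_insert, mem_PR]
            rcases Nat.lt_or_ge p (N + 1) with h | h
            · exact Or.inr ⟨hp.1, by omega⟩
            · exact Or.inl (by omega)
          refine (sum_le_sum_of_subset_of_nonneg this fun _ _ _ => by positivity).trans ?_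
          rw [sum_insert (by rw [mem_PR]; omega)]
          linarith
        have h8 : 1 / (((N + 1 : ℕ) : ℝ) * ((N + 1 : ℕ) : ℝ)) ≤ 1 / (N : ℝ) - 1 / ((N + 1 : ℕ) : ℝ) := by
          push_cast
          rw [div_sub_div _ _ hNpos.ne' (by positivity), div_le_div_iff₀ (by positivity) (by positivity)]
          nlinarith
        linarith
    have h7 := h6 X (by omega)
    have : 0 ≤ 1 / (X : ℝ) := by positivity
    linarith
  rw [sum_sub_distrib, sum_neg_distrib, ← mul_sum] at h4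
  linarith

lemma sum_log_div_le {X : ℕ} (hX : 1 ≤ X) :
    ∑ p ∈ PR X, Real.log p / p ≤ Real.log X + Real.log 4 := by
  have h := upper_nat hX
  rw [A_nat] at h
  refine le_trans (le_of_eq ?_) h
  refine sum_congr ?_ fun _ _ => rfl
  ext p
  rw [mem_PR, mem_filter, mem_Icc]
  exact ⟨fun h => ⟨⟨Nat.zero_le _, h.2⟩, h.1⟩, fun h => ⟨h.2, h.1.2⟩⟩

/-- the difference between a partial sum and the Dirichlet series -/
lemma diff_le {c : ℕ → ℝ} {B : ℝ} (hc : ∀ p : Nat.Primes, |c p| ≤ B) {ε : ℝ} (hε : 0 < ε)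
    {X : ℕ} (hX : 1 ≤ X) :
    |∑ p ∈ PR X, c p / p - PS (fun p => c p) ε| ≤
      B * (2 * (ε * (Real.log X + Real.log 4)) + (PS (fun _ => 1) ε - ∑ p ∈ PR X, 1 / (p : ℝ))) := by
  have hs := PS_summable (c := fun p : Nat.Primes => c p) hc hε
  have hs1 : Summable (fun p : Nat.Primes => (1 : ℝ) * ((p : ℕ) : ℝ) ^ (-(1 + ε))) :=
    PS_summable (c := fun _ => 1) (B := 1) (fun p => by simp) hε
  have h1 := hs.sum_add_tsum_compl (s := smallPrimes (X + 1))
  have h2 := hs1.sum_add_tsum_compl (s := smallPrimes (X + 1))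
  have hB : 0 ≤ B := (abs_nonneg _).trans (hc ⟨2, Nat.prime_two⟩)
  set T := ∑' p : ↑((smallPrimes (X + 1) : Set Nat.Primes))ᶜ, c p * (((p : Nat.Primes) : ℕ) : ℝ) ^ (-(1 + ε)) with hT
  set T1 := ∑' p : ↑((smallPrimes (X + 1) : Set Nat.Primes))ᶜ, (1 : ℝ) * (((p : Nat.Primes) : ℕ) : ℝ) ^ (-(1 + ε)) with hT1
  have h3 : |T| ≤ B * T1 := by
    rw [hT, hT1, ← tsum_mul_left]
    have h4 : Summable (fun p : ↑((smallPrimes (X + 1) : Set Nat.Primes))ᶜ =>
        B * ((1 : ℝ) * (((p : Nat.Primes) : ℕ) : ℝ) ^ (-(1 + ε)))) :=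
      (hs1.mul_left B).subtype _
    have h5 : ∀ p : ↑((smallPrimes (X + 1) : Set Nat.Primes))ᶜ,
        ‖c p * (((p : Nat.Primes) : ℕ) : ℝ) ^ (-(1 + ε))‖ ≤
        B * ((1 : ℝ) * (((p : Nat.Primes) : ℕ) : ℝ) ^ (-(1 + ε))) := by
      intro p
      rw [Real.norm_eq_abs, abs_mul, abs_of_nonneg (Real.rpow_nonneg (Nat.cast_nonneg _) _), one_mul]
      exact mul_le_mul_of_nonneg_right (hc p) (Real.rpow_nonneg (Nat.cast_nonneg _) _)
    have h6 := tsum_of_norm_bounded h4.hasSum h5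
    rw [Real.norm_eq_abs] at h6
    exact h6
  have e1 : ∑ p ∈ smallPrimes (X + 1), c p * ((p : ℕ) : ℝ) ^ (-(1 + ε)) =
      ∑ p ∈ PR X, c p * (p : ℝ) ^ (-(1 + ε)) := sum_smallPrimes X (fun p => c p * (p : ℝ) ^ (-(1 + ε)))
  have e2 : ∑ p ∈ smallPrimes (X + 1), (1 : ℝ) * ((p : ℕ) : ℝ) ^ (-(1 + ε)) =
      ∑ p ∈ PR X, (1 : ℝ) * (p : ℝ) ^ (-(1 + ε)) := sum_smallPrimes X (fun p => (1 : ℝ) * (p : ℝ) ^ (-(1 + ε)))
  have h1' : ∑ p ∈ PR X, c p * (p : ℝ) ^ (-(1 + ε)) + T = PS (fun p => c p) ε := by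
    rw [← e1]; exact h1
  have h2' : ∑ p ∈ PR X, (1 : ℝ) * (p : ℝ) ^ (-(1 + ε)) + T1 = PS (fun _ => 1) ε := by
    rw [← e2]; exact h2
  have h4 : ∀ p ∈ PR X, 1 / (p : ℝ) - (p : ℝ) ^ (-(1 + ε)) ≤ ε * (Real.log p / p) ∧
      0 ≤ 1 / (p : ℝ) - (p : ℝ) ^ (-(1 + ε)) := by
    intro p hp
    have hp1 : (1 : ℝ) ≤ p := by exact_mod_cast (mem_PR.1 hp).1.one_le
    have hp0 : (0 : ℝ) < p := by linarith
    have h5 : (p : ℝ) ^ (-(1 + ε)) = 1 / (p : ℝ) * (p : ℝ) ^ (-ε) := by
      rw [neg_add, Real.rpow_add hp0, Real.rpow_neg_one, one_div]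
    have h6 : 1 - ε * Real.log p ≤ (p : ℝ) ^ (-ε) := by
      rw [Real.rpow_def_of_pos hp0]
      have := Real.add_one_le_exp (Real.log p * -ε)
      linarith
    have h7 : (p : ℝ) ^ (-ε) ≤ 1 := Real.rpow_le_one_of_one_le_of_nonpos hp1 (by linarith)
    rw [h5]
    have h8 : 0 ≤ 1 / (p : ℝ) := by positivity
    constructor
    · have : ε * (Real.log p / p) = 1 / (p : ℝ) * (ε * Real.log p) := by ring
      rw [this]
      nlinarith
    · nlinarith
  have h5 : ∑ p ∈ PR X, (1 / (p : ℝ) - (p : ℝ) ^ (-(1 + ε))) ≤ ε * (Real.log X + Real.log 4) := by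
    refine (sum_le_sum fun p hp => (h4 p hp).1).trans ?_
    rw [← mul_sum]
    exact mul_le_mul_of_nonneg_left (sum_log_div_le hX) hε.le
  have h6 : |∑ p ∈ PR X, c p / p - ∑ p ∈ PR X, c p * (p : ℝ) ^ (-(1 + ε))| ≤
      B * ∑ p ∈ PR X, (1 / (p : ℝ) - (p : ℝ) ^ (-(1 + ε))) := by
    rw [← sum_sub_distrib, mul_sum]
    refine (abs_sum_le_sum_abs _ _).trans (sum_le_sum fun p hp => ?_)
    have : c p / p - c p * (p : ℝ) ^ (-(1 + ε)) = c p * (1 / (p : ℝ) - (p : ℝ) ^ (-(1 + ε))) := by ring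
    rw [this, abs_mul, abs_of_nonneg (h4 p hp).2]
    exact mul_le_mul_of_nonneg_right (hc ⟨p, (mem_PR.1 hp).1⟩) (h4 p hp).2
  have h7 : T1 = (PS (fun _ => 1) ε - ∑ p ∈ PR X, 1 / (p : ℝ)) +
      ∑ p ∈ PR X, (1 / (p : ℝ) - (p : ℝ) ^ (-(1 + ε))) := by
    rw [← h2', sum_sub_distrib]
    simp only [one_mul]
    ring
  have h8 : ∑ p ∈ PR X, c p / p - PS (fun p => c p) ε =
      (∑ p ∈ PR X, c p / p - ∑ p ∈ PR X, c p * (p : ℝ) ^ (-(1 + ε))) - T := by
    rw [← h1']; ring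
  rw [h8]
  refine (abs_sub _ _).trans ?_
  rw [h7] at h3
  nlinarith

/-- **Partial sums over primes.** If the Dirichlet series of `c` over the primes behaves like
`-κ log ε` at `1 + ε`, then `∑_{p ≤ X} c p / p = κ log log X + O(1)`. -/
theorem mv_sum {c : ℕ → ℝ} {κ : ℝ} (h : MV (fun p => c p) κ) :
    ∃ C : ℝ, 0 < C ∧ ∀ X : ℕ, 3 ≤ X →
      |∑ p ∈ PR X, c p / p - κ * Real.log (Real.log X)| ≤ C := by
  obtain ⟨⟨B, hB⟩, C1, hC1⟩ := h
  obtain ⟨C2, hC2⟩ := LA_one
  have hB0 : 0 ≤ B := (abs_nonneg _).trans (hB ⟨2, Nat.prime_two⟩)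
  have htend : Tendsto (fun X : ℕ => (1 : ℝ) / Real.log X) atTop (𝓝[>] 0) := by
    rw [tendsto_nhdsWithin_iff]
    constructor
    · have h1 : Tendsto (fun X : ℕ => Real.log X) atTop atTop :=
        Real.tendsto_log_atTop.comp tendsto_natCast_atTop_atTop
      simp only [one_div]
      exact h1.inv_tendsto_atTop
    · filter_upwards [eventually_ge_atTop 2] with X hX
      have : (1 : ℝ) < X := by exact_mod_cast hX
      exact div_pos one_pos (Real.log_pos this)
  have h3 : ∀ᶠ X : ℕ in atTop, |∑ p ∈ PR X, c p / p - κ * Real.log (Real.log X)| ≤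
      C1 + B * (2 * (1 + Real.log 4) + (C2 + 2)) := by
    filter_upwards [htend.eventually hC1, htend.eventually hC2, eventually_ge_atTop 3]
      with X h4 h5 hX
    have hX1 : (3 : ℝ) ≤ X := by exact_mod_cast hX
    have hlog : 1 ≤ Real.log X := by
      have : Real.log (Real.exp 1) ≤ Real.log X :=
        Real.log_le_log (Real.exp_pos 1) ((Real.exp_one_lt_d9.le.trans (by norm_num)).trans hX1)
      rwa [Real.log_exp] at this
    have hlog0 : 0 < Real.log X := by linarith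
    have hε : 0 < 1 / Real.log X := div_pos one_pos hlog0
    have h6 := diff_le (c := c) hB hε (X := X) (by omega)
    have h7 : Real.log (1 / Real.log X) = -Real.log (Real.log X) := by
      rw [one_div, Real.log_inv]
    rw [h7] at h4 h5
    have h8 := sum_inv_ge (X := X) (by omega)
    have h9 : 1 / Real.log X * (Real.log X + Real.log 4) ≤ 1 + Real.log 4 := by
      have : Real.log 4 ≤ Real.log 4 * Real.log X := le_mul_of_one_le_right (Real.log_nonneg (by norm_num)) hlog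
      rw [one_div, inv_mul_le_iff₀ hlog0]
      nlinarith
    have h10 := (abs_le.1 h5).2
    have h11 : 2 * (1 / Real.log X * (Real.log X + Real.log 4)) +
        (PS (fun _ => 1) (1 / Real.log X) - ∑ p ∈ PR X, 1 / (p : ℝ)) ≤
        2 * (1 + Real.log 4) + (C2 + 2) := by linarith
    have h12 := mul_le_mul_of_nonneg_left h11 hB0
    have h13 : ∑ p ∈ PR X, c p / p - κ * Real.log (Real.log X) =
        (∑ p ∈ PR X, c p / p - PS (fun p => c p) (1 / Real.log X)) +
        (PS (fun p => c p) (1 / Real.log X) + κ * -Real.log (Real.log X)) := by ring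
    rw [h13]
    exact (abs_add_le _ _).trans (by linarith)
  obtain ⟨N, hN⟩ := eventually_atTop.1 h3
  set F : ℕ → ℝ := fun X => |∑ p ∈ PR X, c p / p - κ * Real.log (Real.log X)| with hF
  refine ⟨|C1 + B * (2 * (1 + Real.log 4) + (C2 + 2))| + ∑ k ∈ range N, F k + 1, ?_, ?_⟩
  · have : 0 ≤ ∑ k ∈ range N, F k := sum_nonneg fun k _ => abs_nonneg _
    have := abs_nonneg (C1 + B * (2 * (1 + Real.log 4) + (C2 + 2)))
    linarith
  · intro X _
    rcases Nat.lt_or_ge X N with h4 | h4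
    · have h5 : F X ≤ ∑ k ∈ range N, F k :=
        single_le_sum (f := F) (fun k _ => abs_nonneg _) (mem_range.2 h4)
      have := abs_nonneg (C1 + B * (2 * (1 + Real.log 4) + (C2 + 2)))
      change F X ≤ _
      linarith
    · have h5 := (hN X h4).trans (le_abs_self _)
      have : 0 ≤ ∑ k ∈ range N, F k := sum_nonneg fun k _ => abs_nonneg _
      linarith

end Stoll308.MeanSum
end

section
set_option autoImplicit false

/-!
Quadratic twists `C_t : t y² = f(x)` of a hyperelliptic curve, `f` monic irreducible of even degree: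
local solubility and the fake `2`-Selmer set.
-/

namespace Stoll308.Gen

open Polynomial Finset NumberTheorySymbols

/-- The curve `C_t : t y² = f(x)` (`f` monic of even degree) has a point over the field `F`: an
affine one, or one at infinity, which means that `t` is a square in `F`. -/
def HasPoint (f : ℤ[X]) (t : ℤ) (F : Type*) [Field F] : Prop :=
  (∃ x y : F, (t : F) * y ^ 2 = (f.map (Int.castRingHom F)).eval x) ∨ IsSquare (t : F)

/-- `C_t` has points over all completions of `ℚ`. -/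
def ELS (f : ℤ[X]) (t : ℤ) : Prop :=
  (∀ (p : ℕ) [Fact p.Prime], HasPoint f t ℚ_[p]) ∧ HasPoint f t ℝ

/-- The class of `δ ∈ (F[X]/f)ˣ` modulo squares and modulo `Fˣ` is the image `x - X` of an affine
point `(x, y)`, `y ≠ 0`, of `C_t` over `F`. -/
def LocalImage (f : ℤ[X]) (t : ℤ) (δ : ℚ[X]) (F : Type*) [Field F] [Algebra ℚ F] : Prop :=
  ∃ (x y c : F) (s : F[X]), y ≠ 0 ∧ c ≠ 0 ∧
    (t : F) * y ^ 2 = (f.map (Int.castRingHom F)).eval x ∧
    f.map (Int.castRingHom F) ∣ (C x - X) - C c * δ.map (algebraMap ℚ F) * s ^ 2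

/-- The fake `2`-Selmer set of `C_t` is nonempty: some `δ ∈ (ℚ[X]/f)ˣ` is in the local image at all
places of `ℚ`. -/
def Sel (f : ℤ[X]) (t : ℤ) : Prop :=
  ∃ δ : ℚ[X], IsCoprime δ (f.map (Int.castRingHom ℚ)) ∧
    (∀ (p : ℕ) [Fact p.Prime], LocalImage f t δ ℚ_[p]) ∧ LocalImage f t δ ℝ

/-- The roots of `f` modulo `p`. -/
def R (f : ℤ[X]) (p : ℕ) : Finset ℕ := (range p).filter fun a => (p : ℤ) ∣ f.eval (a : ℤ)

/-- The roots of `f` modulo `p` used for the conditions at `p` if the chosen root is `ρ`: all the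
other roots, one of which is left out if `f` splits completely modulo `p`. -/
noncomputable def J (f : ℤ[X]) (p ρ : ℕ) : Finset ℕ :=
  if (R f p).card < f.natDegree then (R f p).erase ρ
  else ((R f p).erase ρ).erase (((R f p).erase ρ).sup id)

/-- The polynomial with the coefficients `g`. -/
noncomputable def poly {n : ℕ} {A : Type*} [CommRing A] (g : Fin n → A) : A[X] :=
  ∑ i, C (g i) * X ^ (i : ℕ)

/-- The value of the polynomial with coefficients `g`. -/
def ev {n : ℕ} {A : Type*} [CommRing A] (g : Fin n → A) (a : A) : A := ∑ i, g i * a ^ (i : ℕ)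

/-- The norm of `g(θ)`: the resultant of `f` and the polynomial with coefficients `g`. -/
noncomputable def Nm (f : ℤ[X]) {n : ℕ} {A : Type*} [CommRing A] (g : Fin n → A) : A :=
  resultant (f.map (Int.castRingHom A)) (poly g) f.natDegree n

/-- The quadratic character `g ↦ (g(a) g(ρ) N(g) / p)`. -/
noncomputable def W (f : ℤ[X]) (p ρ a : ℕ) {n : ℕ} (g : Fin n → ℤ) : ℤ :=
  J(ev g (a : ℤ) * ev g (ρ : ℤ) * Nm f g | p)

/-- The primes `> C₀` dividing `t`. -/
def bigPrimes (C₀ : ℕ) (t : ℤ) : Finset ℕ := t.natAbs.primeFactors.filter fun p => C₀ < p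

/-- `(T, ρ)` is a valid datum: `T` is a finite set of primes `> C₀`, and `ρ p` is a root of `f`
modulo `p` for `p ∈ T`. -/
def Valid (f : ℤ[X]) (C₀ : ℕ) (T : Finset ℕ) (ρ : ℕ → ℕ) : Prop :=
  ∀ p ∈ T, p.Prime ∧ C₀ < p ∧ ρ p ∈ R f p

/-- Small elements of the ideals of `ℤ[θ]`, and the relations satisfied by the twists with
nonempty fake `2`-Selmer set. -/
structure RelData (f : ℤ[X]) where
  C₀ : ℕ
  m : ℕ
  g : Finset ℕ → (ℕ → ℕ) → (Fin f.natDegree → ℤ)
  κ : Finset ℕ → (ℕ → ℕ) → ℤ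
  c : Fin m → ℤ → Finset ℕ → (ℕ → ℕ) → ℕ → ℕ → ℤ
  g_congr : ∀ T ρ ρ', (∀ p ∈ T, ρ p = ρ' p) → g T ρ = g T ρ'
  κ_congr : ∀ T ρ ρ', (∀ p ∈ T, ρ p = ρ' p) → κ T ρ = κ T ρ'
  c_congr : ∀ e s T ρ ρ' p a, (∀ p ∈ T, ρ p = ρ' p) → c e s T ρ p a = c e s T ρ' p a
  c_le : ∀ e s T ρ p a, |c e s T ρ p a| ≤ 1
  g_le : ∀ T ρ, Valid f C₀ T ρ → ∀ i, |g T ρ i| ^ f.natDegree ≤ ((∏ p ∈ T, p : ℕ) : ℤ)
  g_res : ∀ T ρ, Valid f C₀ T ρ → Nm f (g T ρ) = κ T ρ * ((∏ p ∈ T, p : ℕ) : ℤ)
  κ_ne : ∀ T ρ, Valid f C₀ T ρ → κ T ρ ≠ 0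
  κ_le : ∀ T ρ, Valid f C₀ T ρ → |κ T ρ| ≤ C₀
  g_inj : ∀ T ρ T' ρ', Valid f C₀ T ρ → Valid f C₀ T' ρ' → g T ρ = g T' ρ' →
    T = T' ∧ ∀ p ∈ T, ρ p = ρ' p
  rel : ∀ t : ℤ, Squarefree t → Sel f t → ∃ ρ : ℕ → ℕ, Valid f C₀ (bigPrimes C₀ t) ρ ∧
    ∀ T₁ T₂ : Finset ℕ, Disjoint T₁ T₂ → T₁ ∪ T₂ = bigPrimes C₀ t →
      ∃ e : Fin m, ∀ p ∈ T₁, ∀ a ∈ R f p, a ≠ ρ p →
        c e (t / ((∏ p ∈ bigPrimes C₀ t, p : ℕ) : ℤ)) T₁ ρ p a *
          (J(κ T₂ ρ | p) * W f p (ρ p) a (g T₂ ρ)) = 1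

/-- The characters are nontrivial: for `p > C₀`, a root `ρ` of `f` modulo `p` and a nonempty subset
`A` of `J f p ρ`. -/
def NonTriv (f : ℤ[X]) (C₀ : ℕ) : Prop :=
  ∀ p : ℕ, p.Prime → C₀ < p → ∀ ρ ∈ R f p, ∀ A ⊆ J f p ρ, A.Nonempty →
    ∑ g : Fin f.natDegree → Fin p, ∏ a ∈ A, W f p ρ a (fun i => ((g i : ℕ) : ℤ)) = 0

/-- Mertens for the primes modulo which `f` splits into distinct linear factors (lower bound). -/
def SplitMert (f : ℤ[X]) : Prop :=
  ∃ κ B : ℝ, 0 < κ ∧ ∀ x y : ℝ, 3 ≤ x → x ≤ y →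
    κ * (Real.log (Real.log y) - Real.log (Real.log x)) - B ≤
      ∑ p ∈ (Icc 1 ⌊y⌋₊).filter (fun p : ℕ => p.Prime ∧ x < (p : ℝ) ∧
        (R f p).card = f.natDegree), 1 / (p : ℝ)

/-- The primes up to `X` modulo which `f` has a root. -/
def rootPrimes (f : ℤ[X]) (X : ℕ) : Finset ℕ :=
  (Icc 1 X).filter fun p => p.Prime ∧ (R f p).Nonempty

/-- The number of roots of `f` modulo `p`. -/
noncomputable def nr (f : ℤ[X]) (p : ℕ) : ℝ := ((R f p).card : ℝ)

/-- The weight of a prime at which the conditions are imposed. -/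
noncomputable def wt (f : ℤ[X]) (p : ℕ) : ℝ := ∑ ρ ∈ R f p, (1 / 2 : ℝ) ^ (J f p ρ).card

end Stoll308.Gen
end

section
set_option autoImplicit false

/-! Mertens for the primes modulo which a polynomial splits completely. -/

namespace Stoll308.Cheb

open Finset NumberField Polynomial Pool.Agent.Work.MP_2b9663_nt Stoll308.MeanSum

open Classical in
/-- a function of the primes as a function on `ℕ` -/
noncomputable def ex (c : Nat.Primes → ℝ) (n : ℕ) : ℝ := if h : n.Prime then c ⟨n, h⟩ else 0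

lemma ex_apply (c : Nat.Primes → ℝ) (p : Nat.Primes) : ex c (p : ℕ) = c p := by
  unfold ex
  rw [dif_pos p.2]
  rfl

theorem mertens {c : Nat.Primes → ℝ} {κ : ℝ} (h : MV c κ) :
    ∃ C : ℝ, 0 < C ∧ ∀ X : ℕ, 3 ≤ X →
      |∑ p ∈ PR X, ex c p / p - κ * Real.log (Real.log X)| ≤ C := by
  apply mv_sum
  simp only [ex_apply]
  exact h

section split

variable {L : Type*} [Field L]

/-- A monic polynomial which splits into distinct factors over `L`. -/
theorem factor_of_splits {f : ℤ[X]} (hf : f.Monic) (hs : (f.map (Int.castRingHom L)).Splits)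
    (hsep : (f.map (Int.castRingHom L)).Separable) (s : Finset (𝓞 L))
    (hmem : ∀ x, x ∈ s ↔ eval₂ (Int.castRingHom (𝓞 L)) x f = 0) :
    f.map (Int.castRingHom (𝓞 L)) = ∏ x : s, (X - C x.1) := by
  rw [Finset.prod_coe_sort s (fun x => X - C x)]
  apply Polynomial.map_injective (algebraMap (𝓞 L) L) RingOfIntegers.coe_injective
  have h1 : (algebraMap (𝓞 L) L).comp (Int.castRingHom (𝓞 L)) = Int.castRingHom L :=
    RingHom.ext_int _ _
  have hmon : (f.map (Int.castRingHom L)).Monic := hf.map _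
  rw [Polynomial.map_map, h1, hs.eq_prod_roots_of_monic hmon, Polynomial.map_prod]
  have hroots : (f.map (Int.castRingHom L)).roots =
      (s.map ⟨algebraMap (𝓞 L) L, RingOfIntegers.coe_injective⟩).val := by
    rw [Multiset.Nodup.ext (nodup_roots hsep) (Finset.nodup _)]
    intro a
    rw [mem_roots hmon.ne_zero, IsRoot.def, eval_map, Finset.mem_val, Finset.mem_map]
    constructor
    · intro ha
      have hint : IsIntegral ℤ a := ⟨f, hf, ha⟩
      obtain ⟨x, hx⟩ : ∃ x : 𝓞 L, algebraMap (𝓞 L) L x = a := ⟨⟨a, hint⟩, rfl⟩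
      refine ⟨x, (hmem _).2 ?_, hx⟩
      apply RingOfIntegers.coe_injective (K := L)
      rw [map_zero, hom_eval₂, h1, hx]
      exact ha
    · rintro ⟨x, hx, rfl⟩
      have h2 := (hmem x).1 hx
      have h3 := congrArg (algebraMap (𝓞 L) L) h2
      rw [hom_eval₂, h1, map_zero] at h3
      exact h3
  rw [hroots, Finset.map_val, Multiset.map_map]
  calc (Multiset.map ((fun a => X - C a) ∘ _) s.val).prod
      = ∏ x ∈ s, (X - C (algebraMap (𝓞 L) L x)) := rfl
    _ = ∏ x ∈ s, Polynomial.map (algebraMap (𝓞 L) L) (X - C x) :=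
        Finset.prod_congr rfl fun x _ => by simp

end split

/-- the bad number of a family of distinct algebraic integers -/
theorem exists_bad {L : Type*} [Field L] [NumberField L] {ι : Type*} [Fintype ι] {θ : ι → 𝓞 L}
    (hinj : Function.Injective θ) : ∃ N : ℕ, N ≠ 0 ∧ ∀ (p : ℕ) [Fact p.Prime], ¬ p ∣ N →
      ∀ (P : Ideal (𝓞 L)) (σ : L ≃ₐ[ℚ] L), IsFrob L p P σ → ∀ i j, i ≠ j → θ i - θ j ∉ P := by
  classical
  refine ⟨∏ i, ∏ j ∈ univ.erase i, Ideal.absNorm (Ideal.span {θ i - θ j}), ?_, ?_⟩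
  · rw [Finset.prod_ne_zero_iff]
    intro i _
    rw [Finset.prod_ne_zero_iff]
    intro j hj
    rw [Finset.mem_erase] at hj
    rw [Ideal.absNorm_ne_zero_iff_mem_nonZeroDivisors, mem_nonZeroDivisors_iff_ne_zero, Ne,
      Ideal.zero_eq_bot, Ideal.span_singleton_eq_bot, sub_eq_zero]
    exact fun h => hj.1 (hinj h.symm)
  · intro p hp hpN P σ h i j hij
    apply h.not_mem
    intro hd
    apply hpN
    refine hd.trans (dvd_trans ?_ (Finset.dvd_prod_of_mem _ (mem_univ i)))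
    exact Finset.dvd_prod_of_mem (fun j => Ideal.absNorm (Ideal.span {θ i - θ j}))
      (Finset.mem_erase.2 ⟨hij.symm, mem_univ j⟩)

lemma card_R (f : ℤ[X]) (p : ℕ) [hp : Fact p.Prime] : (Gen.R f p).card = nroots f p := by
  classical
  have hNe : NeZero p := ⟨hp.out.ne_zero⟩
  have key : ∀ n : ℤ, (f.map (Int.castRingHom (ZMod p))).IsRoot (n : ZMod p) ↔
      (p : ℤ) ∣ f.eval n := by
    intro n
    rw [IsRoot.def, ← ZMod.intCast_zmod_eq_zero_iff_dvd,
      eval_intCast_map (Int.castRingHom (ZMod p)) f n, eq_intCast, Int.cast_id]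
  unfold nroots Gen.R
  rw [Nat.card_eq_fintype_card, Fintype.card_subtype]
  refine Finset.card_bij (fun a _ => (a : ZMod p)) ?_ ?_ ?_
  · intro a ha
    rw [mem_filter] at ha ⊢
    refine ⟨mem_univ _, ?_⟩
    have := (key (a : ℤ)).2 ha.2
    rwa [Int.cast_natCast] at this
  · intro a ha b hb hab
    rw [mem_filter, mem_range] at ha hb
    rw [ZMod.natCast_eq_natCast_iff] at hab
    exact Nat.ModEq.eq_of_lt_of_lt hab ha.1 hb.1
  · intro b hb
    rw [mem_filter] at hb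
    refine ⟨b.val, ?_, ZMod.natCast_zmod_val b⟩
    rw [mem_filter, mem_range]
    refine ⟨ZMod.val_lt b, ?_⟩
    rw [← key, Int.cast_natCast, ZMod.natCast_zmod_val]
    exact hb.2

theorem exists_splitting_aux (F : ℚ[X]) (hsep : F.Separable) (L : Type) [Field L]
    [inst : Algebra ℚ L] [IsSplittingField ℚ L F] : ∃ (_ : NumberField L),
      @IsGalois ℚ _ L _ DivisionRing.toRatAlgebra ∧
      (F.map (@algebraMap ℚ L _ _ DivisionRing.toRatAlgebra)).Splits := by
  have hG : @IsGalois ℚ _ L _ inst := IsGalois.of_separable_splitting_field hsep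
  have hs := IsSplittingField.splits L F
  have hfd : FiniteDimensional ℚ L := IsSplittingField.finiteDimensional L F
  have hc : CharZero L := algebraRat.charZero L
  have e : inst = DivisionRing.toRatAlgebra := Subsingleton.elim _ _
  subst e
  exact ⟨⟨⟩, hG, hs⟩

theorem exists_splitting (F : ℚ[X]) (hsep : F.Separable) : ∃ (L : Type) (_ : Field L)
    (_ : NumberField L) (_ : IsGalois ℚ L), (F.map (algebraMap ℚ L)).Splits := by
  obtain ⟨h1, h2, h3⟩ := @exists_splitting_aux F hsep F.SplittingField _ _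
    (IsSplittingField.splittingField F)
  exact ⟨F.SplittingField, inferInstance, h1, h2, h3⟩

/-- A Galois number field over which `f` splits. -/
theorem exists_factor (f : ℤ[X]) (hf : f.Monic)
    (hsepQ : (f.map (Int.castRingHom ℚ)).Separable) : ∃ (L : Type) (_ : Field L)
    (_ : NumberField L) (_ : IsGalois ℚ L) (s : Finset (𝓞 L)),
      f.map (Int.castRingHom (𝓞 L)) = ∏ x : s, (X - C x.1) ∧ s.card = f.natDegree := by
  classical
  obtain ⟨L, _, _, hG, hs0⟩ := exists_splitting (f.map (Int.castRingHom ℚ)) hsepQ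
  have h1 : f.map (Int.castRingHom L) = (f.map (Int.castRingHom ℚ)).map (algebraMap ℚ L) := by
    rw [Polynomial.map_map]
    congr 1
    exact RingHom.ext_int _ _
  have hs : (f.map (Int.castRingHom L)).Splits := by
    rw [h1]
    exact hs0
  have hsep : (f.map (Int.castRingHom L)).Separable := by
    rw [h1]
    exact Polynomial.Separable.map hsepQ
  set f' := f.map (Int.castRingHom (𝓞 L)) with hf'
  have hmon' : f'.Monic := hf.map _
  set s := f'.roots.toFinset with hsdef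
  have hmem : ∀ x, x ∈ s ↔ eval₂ (Int.castRingHom (𝓞 L)) x f = 0 := by
    intro x
    rw [hsdef, Multiset.mem_toFinset, mem_roots hmon'.ne_zero, IsRoot.def, hf', eval_map]
  have hfac := factor_of_splits hf hs hsep s hmem
  refine ⟨L, inferInstance, inferInstance, hG, s, hfac, ?_⟩
  have h2 : (f.map (Int.castRingHom (𝓞 L))).natDegree = f.natDegree := hf.natDegree_map _
  rw [← h2, hfac, natDegree_prod_of_monic _ _ fun i _ => monic_X_sub_C _]
  simp

/-- **Mertens for the primes modulo which `f` splits completely.** -/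
theorem splitMert (f : ℤ[X]) (hf : f.Monic)
    (hsepQ : (f.map (Int.castRingHom ℚ)).Separable) : Gen.SplitMert f := by
  classical
  obtain ⟨L, _, _, hG, s, hfac, hcard⟩ := exists_factor f hf hsepQ
  obtain ⟨N, hN, hbad⟩ := exists_bad (L := L) (ι := s) (θ := fun x => x.1)
    Subtype.val_injective
  have hgood : ∀ p : Nat.Primes, ¬ (p : ℕ) ∣ N → frob L p = 1 → (Gen.R f p).card = f.natDegree := by
    intro p hp h1
    have : Fact (p : ℕ).Prime := ⟨p.2⟩
    rw [card_R, (frob_spec L p).nroots_eq hfac (hbad p hp _ _ (frob_spec L p)), h1, ← hcard]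
    rw [Nat.card_congr (Equiv.subtypeUnivEquiv fun x : s => one_smul _ x.1)]
    simp
  have hMV := MV_class L (fun σ => if σ = 1 then (1 : ℝ) else 0) (by
      intro g σ
      have : g * σ * g⁻¹ = 1 ↔ σ = 1 := by simp [mul_inv_eq_one]
      simp only [this]) (by
      intro σ τ h
      have : σ = 1 ↔ τ = 1 := by
        rw [← Subgroup.zpowers_eq_bot, h, Subgroup.zpowers_eq_bot]
      simp only [this])
  obtain ⟨C, hC, hM⟩ := mertens hMV
  rw [sum_ite_eq' univ 1, if_pos (mem_univ _)] at hM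
  set κ : ℝ := 1 / (Fintype.card (L ≃ₐ[ℚ] L)) with hκ
  have hκ0 : 0 < κ := by
    rw [hκ]
    have : 0 < Fintype.card (L ≃ₐ[ℚ] L) := Fintype.card_pos
    positivity
  set c := fun p : Nat.Primes => if frob L p = 1 then (1 : ℝ) else 0 with hc
  refine ⟨κ, 2 * C + ∑ p ∈ N.primeFactors, 1 / (p : ℝ) + 1 + κ, hκ0, fun x y hx hxy => ?_⟩
  have hy : 3 ≤ y := hx.trans hxy
  have hX3 : 3 ≤ ⌊x⌋₊ := Nat.le_floor (by exact_mod_cast hx)
  have hY3 : 3 ≤ ⌊y⌋₊ := Nat.le_floor (by exact_mod_cast hy)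
  have h1 := (abs_le.1 (hM ⌊x⌋₊ hX3)).2
  have h2 := (abs_le.1 (hM ⌊y⌋₊ hY3)).1
  have hXY : ⌊x⌋₊ ≤ ⌊y⌋₊ := Nat.floor_mono hxy
  -- the sum over the interval
  have h3 : ∑ p ∈ PR ⌊y⌋₊, ex c p / p - ∑ p ∈ PR ⌊x⌋₊, ex c p / p =
      ∑ p ∈ (PR ⌊y⌋₊) \ (PR ⌊x⌋₊), ex c p / p := by
    rw [sum_sdiff_eq_sub]
    intro p hp
    rw [mem_PR] at hp ⊢
    exact ⟨hp.1, hp.2.trans hXY⟩
  have h4 : ∑ p ∈ (PR ⌊y⌋₊) \ (PR ⌊x⌋₊), ex c p / p ≤
      (∑ p ∈ (Icc 1 ⌊y⌋₊).filter (fun p : ℕ => p.Prime ∧ x < (p : ℝ) ∧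
        (Gen.R f p).card = f.natDegree), 1 / (p : ℝ)) + ∑ p ∈ N.primeFactors, 1 / (p : ℝ) := by
    rw [← sum_filter_add_sum_filter_not ((PR ⌊y⌋₊) \ (PR ⌊x⌋₊)) (fun p : ℕ => ¬ p ∣ N)]
    apply add_le_add
    · have h5 : ∀ p ∈ ((PR ⌊y⌋₊) \ (PR ⌊x⌋₊)).filter (fun p : ℕ => ¬ p ∣ N),
          ex c p / p ≤ if (Gen.R f p).card = f.natDegree then 1 / (p : ℝ) else 0 := by
        intro p hp
        rw [mem_filter, mem_sdiff, mem_PR] at hp
        have hpp := hp.1.1.1
        have h6 : ex c p = c ⟨p, hpp⟩ := ex_apply c ⟨p, hpp⟩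
        rw [h6]
        simp only [hc]
        split_ifs with h7 h8 h8
        · exact le_rfl
        · exact absurd (hgood ⟨p, hpp⟩ hp.2 h7) h8
        · rw [zero_div]; positivity
        · rw [zero_div]
      refine (sum_le_sum h5).trans ?_
      rw [← sum_filter]
      apply sum_le_sum_of_subset_of_nonneg
      · intro p hp
        rw [mem_filter, mem_filter, mem_sdiff, mem_PR, mem_PR] at hp
        obtain ⟨⟨⟨⟨hpp, hpy⟩, hpx⟩, _⟩, hR⟩ := hp
        rw [mem_filter, mem_Icc]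
        refine ⟨⟨hpp.one_le, hpy⟩, hpp, ?_, hR⟩
        by_contra hcon
        push Not at hcon
        exact hpx ⟨hpp, Nat.le_floor hcon⟩
      · intro p _ _
        positivity
    · have h5 : ∀ p ∈ ((PR ⌊y⌋₊) \ (PR ⌊x⌋₊)).filter (fun p : ℕ => ¬ ¬ p ∣ N),
          ex c p / p ≤ 1 / (p : ℝ) := by
        intro p hp
        rw [mem_filter, mem_sdiff, mem_PR] at hp
        have hpp := hp.1.1.1
        have h6 : ex c p = c ⟨p, hpp⟩ := ex_apply c ⟨p, hpp⟩
        rw [h6]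
        have h7 : c ⟨p, hpp⟩ ≤ 1 := by
          simp only [hc]
          split_ifs <;> norm_num
        exact div_le_div_of_nonneg_right h7 (Nat.cast_nonneg p)
      refine (sum_le_sum h5).trans ?_
      apply sum_le_sum_of_subset_of_nonneg
      · intro p hp
        rw [mem_filter, mem_sdiff, mem_PR, not_not] at hp
        rw [Nat.mem_primeFactors]
        exact ⟨hp.1.1.1, hp.2, hN⟩
      · intro p _ _
        positivity
  -- comparison of the double logarithms
  have hx1 : (3 : ℝ) ≤ ⌊x⌋₊ := by exact_mod_cast hX3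
  have hy1 : (3 : ℝ) ≤ ⌊y⌋₊ := by exact_mod_cast hY3
  have hlog3 : 1 ≤ Real.log 3 := by
    have : Real.log (Real.exp 1) ≤ Real.log 3 :=
      Real.log_le_log (Real.exp_pos 1) (Real.exp_one_lt_d9.le.trans (by norm_num))
    rwa [Real.log_exp] at this
  have h5 : Real.log (Real.log ⌊x⌋₊) ≤ Real.log (Real.log x) := by
    apply Real.log_le_log
    · exact Real.log_pos (by linarith)
    · exact Real.log_le_log (by linarith) (Nat.floor_le (by linarith))
  have h6 : Real.log (Real.log y) - 1 ≤ Real.log (Real.log ⌊y⌋₊) := by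
    have h7 : y ≤ 2 * ⌊y⌋₊ := by
      have := Nat.lt_floor_add_one y
      linarith
    have h8 : 1 ≤ Real.log ⌊y⌋₊ := hlog3.trans (Real.log_le_log (by norm_num) hy1)
    have h9 : Real.log y ≤ 2 * Real.log ⌊y⌋₊ := by
      have h10 : Real.log y ≤ Real.log (2 * ⌊y⌋₊) := Real.log_le_log (by linarith) h7
      rw [Real.log_mul (by norm_num) (by linarith)] at h10
      have h11 : Real.log 2 ≤ 1 := by
        have := Real.log_two_lt_d9
        linarith
      linarith
    have h12 : Real.log (Real.log y) ≤ Real.log (2 * Real.log ⌊y⌋₊) :=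
      Real.log_le_log (Real.log_pos (by linarith)) h9
    rw [Real.log_mul (by norm_num) (by linarith)] at h12
    have h11 : Real.log 2 ≤ 1 := by
      have := Real.log_two_lt_d9
      linarith
    linarith
  have h13 := mul_le_mul_of_nonneg_left h5 hκ0.le
  have h14 := mul_le_mul_of_nonneg_left h6 hκ0.le
  have h15 : κ * (Real.log (Real.log y) - 1) = κ * Real.log (Real.log y) - κ := by ring
  have h16 : κ * (Real.log (Real.log y) - Real.log (Real.log x)) =
    κ * Real.log (Real.log y) - κ * Real.log (Real.log x) := by ring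
  rw [h16]
  linarith

end Stoll308.Cheb
end

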