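import Mathlib
import Pool.Agent.Work.BCM.C02
import Pool.Agent.Work.BCM.C24
import Pool.Agent.Work.BCM.C26
import Pool.Agent.Work.MP_2b9663_nt.MV
import Pool.Agent.Work.MP_2b9663_nt.Weil
import Pool.Agent.Work.MP_308fa9_nt.BF.Defs
import Pool.Agent.Work.MP_308fa9_nt.Gen.IrrDefs
import Pool.Agent.Work.MP_40574a_nt.Mertens
import Pool.Agent.Work.MP_92f640_nt.LConv

section
set_option autoImplicit false

/-!
Working definitions for the full family, `n` odd.
-/

namespace Stoll308.OF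

open Polynomial Finset Matrix BG

/-- The coefficients of the monic polynomial with the roots `a₀ θ`. -/
def mcf {n : ℕ} (a : Fin (n + 1) → ℤ) : Fin n → ℤ := fun i => a 0 ^ (i : ℕ) * a i.succ

/-- The product of the primes which divide `κ` exactly once. -/
def sfp (κ : ℤ) : ℕ := ∏ p ∈ κ.natAbs.primeFactors.filter (fun p => ¬ p ^ 2 ∣ κ.natAbs), p

/-- The matrix is `- w wᵀ` modulo `p`. -/
def Rk1 {n : ℕ} (p : ℕ) (B : Matrix (Fin n) (Fin n) ℤ) : Prop :=
  ∃ w : Fin n → ℤ, ∀ i j, (p : ℤ) ∣ B i j + w i * w j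

/-- A reduced pair: `K` is a constant, `H` the height, `t` the lengths of the basis. -/
structure RPair {n : ℕ} (K H : ℝ) (a : Fin (n + 1) → ℤ) (A B : Matrix (Fin n) (Fin n) ℤ)
    (t : Fin n → ℝ) : Prop where
  symA : A.IsSymm
  symB : B.IsSymm
  char : HasChar (mcf a) A B
  pos : ∀ i, 0 < t i
  hA : ∀ i j, |(A i j : ℝ)| ≤ t i * t j
  hB : ∀ i j, |(B i j : ℝ)| ≤ K * H * (t i * t j)
  mono : ∀ i j, i ≤ j → t i ≤ t j
  prod : ∏ i, t i ≤ K
  sq : H ≤ K * sfp (a 0)
  rk1 : ∀ p : ℕ, p.Prime → p ∣ sfp (a 0) → Rk1 p B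

lemma sfp_pos (κ : ℤ) : 0 < sfp κ := by
  unfold sfp
  exact Finset.prod_pos fun p hp => (Nat.prime_of_mem_primeFactors (mem_filter.1 hp).1).pos

lemma sfp_squarefree (κ : ℤ) : Squarefree (sfp κ) := by
  unfold sfp
  refine Finset.squarefree_prod_of_pairwise_isCoprime ?_ ?_
  · intro p hp q hq hpq
    exact Nat.coprime_iff_isRelPrime.1 ((Nat.coprime_primes (Nat.prime_of_mem_primeFactors (mem_filter.1 hp).1)
      (Nat.prime_of_mem_primeFactors (mem_filter.1 hq).1)).2 hpq)
  · intro p hp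
    exact (Nat.prime_of_mem_primeFactors (mem_filter.1 hp).1).prime.squarefree

lemma sfp_dvd {κ : ℤ} : (sfp κ : ℤ) ∣ κ := by
  rw [Int.natCast_dvd]
  unfold sfp
  exact (Finset.prod_dvd_prod_of_subset _ _ _ (filter_subset _ _)).trans
    (Nat.prod_primeFactors_dvd _)

end Stoll308.OF
end

section
set_option autoImplicit false

/-!
Resultants with a monic polynomial: the norm form `Nm`, its base change, and its prime factors.
-/

namespace Stoll308.Gen

open Polynomial Finset NumberTheorySymbols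

section poly

variable {n : ℕ} {A B : Type*} [CommRing A] [CommRing B]

lemma poly_map (φ : A →+* B) (g : Fin n → A) : (poly g).map φ = poly (fun i => φ (g i)) := by
  simp [poly, Polynomial.map_sum]

lemma poly_natDegree_le (g : Fin n → A) : (poly g).natDegree ≤ n := by
  unfold poly
  refine natDegree_sum_le_of_forall_le _ _ (fun i _ => ?_)
  exact (natDegree_C_mul_X_pow_le _ _).trans i.2.le

lemma poly_degree_lt (g : Fin n → A) : (poly g).degree < n := by
  unfold poly
  refine (Polynomial.degree_sum_le _ _).trans_lt ?_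
  rw [Finset.sup_lt_iff (WithBot.bot_lt_coe _)]
  intro i _
  refine (degree_C_mul_X_pow_le _ _).trans_lt ?_
  exact_mod_cast i.2

lemma poly_coeff (g : Fin n → A) (i : Fin n) : (poly g).coeff (i : ℕ) = g i := by
  unfold poly
  rw [finsetSum_coeff, Finset.sum_eq_single i]
  · simp
  · intro j _ hj
    rw [coeff_C_mul_X_pow, if_neg (fun h => hj (Fin.ext h.symm))]
  · simp

lemma poly_coeff' (g : Fin n → A) (k : ℕ) (hk : n ≤ k) : (poly g).coeff k = 0 := by
  apply coeff_eq_zero_of_degree_lt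
  exact (poly_degree_lt g).trans_le (by exact_mod_cast hk)

lemma poly_of_degree_lt (q : A[X]) (hq : q.degree < n) : poly (fun i : Fin n => q.coeff i) = q := by
  ext k
  by_cases hk : k < n
  · exact poly_coeff (fun i : Fin n => q.coeff i) ⟨k, hk⟩
  · rw [poly_coeff' _ _ (not_lt.1 hk)]
    symm
    apply coeff_eq_zero_of_degree_lt
    exact hq.trans_le (by exact_mod_cast (not_lt.1 hk))

lemma poly_eval (g : Fin n → A) (a : A) : (poly g).eval a = ev g a := by
  simp [poly, ev, eval_finsetSum]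

lemma ev_map (φ : A →+* B) (g : Fin n → A) (a : A) : φ (ev g a) = ev (fun i => φ (g i)) (φ a) := by
  simp [ev]

lemma map_cast_map (f : ℤ[X]) (φ : A →+* B) :
    (f.map (Int.castRingHom A)).map φ = f.map (Int.castRingHom B) := by
  rw [Polynomial.map_map]
  congr 1
  exact RingHom.ext_int _ _

lemma Nm_map (f : ℤ[X]) (φ : A →+* B) (g : Fin n → A) :
    φ (Nm f g) = Nm f (fun i => φ (g i)) := by
  unfold Nm
  rw [← resultant_map_map, poly_map, map_cast_map]

lemma Nm_cast (f : ℤ[X]) (g : Fin n → ℤ) : ((Nm f g : ℤ) : A) = Nm f (fun i => (g i : A)) := by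
  have h := Nm_map f (Int.castRingHom A) g
  simpa using h

lemma ev_cast (g : Fin n → ℤ) (a : ℤ) : ((ev g a : ℤ) : A) = ev (fun i => (g i : A)) (a : A) := by
  have h := ev_map (Int.castRingHom A) g a
  simpa using h

end poly

/-- `W` only depends on `g` modulo `p`. -/
lemma W_congr (f : ℤ[X]) (p ρ a : ℕ) {n : ℕ} (g g' : Fin n → ℤ)
    (h : ∀ i, (p : ℤ) ∣ g i - g' i) : W f p ρ a g = W f p ρ a g' := by
  unfold W
  have hc : ∀ i, ((g i : ℤ) : ZMod p) = ((g' i : ℤ) : ZMod p) := by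
    intro i
    have := (ZMod.intCast_zmod_eq_zero_iff_dvd (g i - g' i) p).2 (h i)
    rw [Int.cast_sub, sub_eq_zero] at this
    exact this
  have hg : (fun i => ((g i : ℤ) : ZMod p)) = fun i => ((g' i : ℤ) : ZMod p) := funext hc
  have key : ((ev g (a : ℤ) * ev g (ρ : ℤ) * Nm f g : ℤ) : ZMod p) =
      ((ev g' (a : ℤ) * ev g' (ρ : ℤ) * Nm f g' : ℤ) : ZMod p) := by
    push_cast
    rw [ev_cast, ev_cast, ev_cast, ev_cast, Nm_cast, Nm_cast, hg]
  rw [ZMod.intCast_eq_intCast_iff] at key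
  rw [jacobiSym.mod_left, key, ← jacobiSym.mod_left]

section res

variable {A : Type*} [CommRing A]

/-- For monic `f` the padding of `g` does not matter. -/
lemma res_pad (f g : A[X]) (hf : f.Monic) (n : ℕ) (hn : g.natDegree ≤ n) :
    resultant f g f.natDegree n = resultant f g := by
  obtain ⟨k, rfl⟩ := Nat.exists_eq_add_of_le hn
  rw [resultant_add_right_deg _ _ _ _ _ le_rfl]
  simp [hf]

lemma res_mul_right (f g h : A[X]) (hf : f.Monic) :
    resultant f (g * h) = resultant f g * resultant f h := by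
  rw [← resultant_mul_right f g h _ le_rfl, res_pad f (g * h) hf _ natDegree_mul_le]

lemma res_add_mul (f g h : A[X]) (hf : f.Monic) :
    resultant f (g + f * h) = resultant f g := by
  set n := max (max g.natDegree (g + f * h).natDegree) (h.natDegree + f.natDegree) with hn
  rw [← res_pad f (g + f * h) hf n (by omega), ← res_pad f g hf n (by omega)]
  exact resultant_add_mul_right f g h _ n (by omega) le_rfl

lemma res_mul_left (f₁ f₂ g : A[X]) (h₁ : f₁.Monic) (h₂ : f₂.Monic) :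
    resultant (f₁ * f₂) g = resultant f₁ g * resultant f₂ g := by
  have h := resultant_mul_left f₁ f₂ g g.natDegree le_rfl
  rwa [← h₁.natDegree_mul h₂] at h

lemma res_X_sub_C (a : A) (g : A[X]) [Nontrivial A] : resultant (X - C a) g = g.eval a := by
  have h := resultant_X_sub_C_left g g.natDegree a le_rfl
  rwa [← natDegree_X_sub_C a] at h

lemma res_congr (f g h : A[X]) (hf : f.Monic) (hd : f ∣ g - h) :
    resultant f g = resultant f h := by
  obtain ⟨q, hq⟩ := hd
  have : g = h + f * q := by rw [← hq]; ring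
  rw [this, res_add_mul f h q hf]

end res

end Stoll308.Gen
end

section
set_option autoImplicit false

/-!
Values of a squarefree polynomial modulo a large prime take both quadratic characters.
-/

namespace Stoll308.Gen

open Finset Polynomial

variable {p : ℕ} [hp : Fact p.Prime]

open Pool.Agent.Work.MP_2b9663_nt in
/-- For a large prime `p` a squarefree nonconstant polynomial over `𝔽_p` takes values of both
quadratic characters. -/
theorem exists_value (hp2 : p ≠ 2) (h : (ZMod p)[X]) (hsf : Squarefree h) (hd : 1 ≤ h.natDegree)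
    (hbig : (2 * h.natDegree + 2) ^ 2 ≤ p) {ε : ℤ} (hε : ε = 1 ∨ ε = -1) :
    ∃ x : ZMod p, quadraticChar (ZMod p) (h.eval x) = ε := by
  classical
  have hp2' : ringChar (ZMod p) ≠ 2 := by
    rw [ZMod.ringChar_zmod_n]
    exact hp2
  set d := h.natDegree with hdd
  have hw := weil_bound hp2' hsf (by rw [← hdd]; exact hd)
  rw [← hdd, ZMod.card] at hw
  by_contra hcon
  push Not at hcon
  have hf0 : h ≠ 0 := by
    intro h0
    rw [h0] at hdd
    simp at hdd
    omega
  -- the values of the character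
  have hval : ∀ x, quadraticChar (ZMod p) (h.eval x) = if h.eval x = 0 then 0 else -ε := by
    intro x
    split_ifs with h0
    · rw [h0]; simp
    · have h1 := hcon x
      rcases quadraticChar_dichotomy h0 with h | h <;> rcases hε with h' | h'
      · exact absurd (h.trans h'.symm) h1
      · rw [h, h']; norm_num
      · rw [h, h']
      · exact absurd (h.trans h'.symm) h1
  have hsum : charSum (ZMod p) h = -ε * ((univ.filter fun x => h.eval x ≠ 0).card : ℤ) := by
    unfold charSum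
    rw [sum_congr rfl fun x _ => hval x, card_filter]
    push_cast
    rw [mul_sum]
    refine sum_congr rfl fun x _ => ?_
    by_cases h : eval x h = 0
    · simp [h]
    · simp [h]
  have hcard : p ≤ (univ.filter fun x => h.eval x ≠ 0).card + d := by
    have h1 : (univ.filter fun x : ZMod p => h.eval x = 0).card ≤ d := by
      rw [hdd]
      refine le_trans ?_ (card_roots' h)
      refine le_trans ?_ (Multiset.toFinset_card_le _)
      apply card_le_card
      intro x hx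
      rw [mem_filter] at hx
      rw [Multiset.mem_toFinset, mem_roots hf0]
      exact hx.2
    have h2 := card_filter_add_card_filter_not (s := (univ : Finset (ZMod p)))
      (fun x : ZMod p => h.eval x = 0)
    rw [card_univ, ZMod.card] at h2
    have h3 : (univ.filter fun x : ZMod p => ¬ h.eval x = 0) =
        univ.filter fun x : ZMod p => h.eval x ≠ 0 := rfl
    rw [h3] at h2
    omega
  have habs : |(charSum (ZMod p) h : ℝ)| = ((univ.filter fun x => h.eval x ≠ 0).card : ℝ) := by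
    rw [hsum]
    push_cast
    rw [abs_mul, abs_neg]
    have : |(ε : ℝ)| = 1 := by rcases hε with h | h <;> rw [h] <;> simp
    rw [this, one_mul, abs_of_nonneg (Nat.cast_nonneg _)]
  rw [habs] at hw
  have h4 : ((d - 1 : ℕ) : ℝ) = d - 1 := by
    rw [Nat.cast_sub (by omega)]; push_cast; ring
  rw [h4] at hw
  have h5 : (p : ℝ) ≤ ((univ.filter fun x => h.eval x ≠ 0).card : ℝ) + d := by
    exact_mod_cast hcard
  have h6 : (2 * (d : ℝ) + 2) ≤ Real.sqrt p := by
    apply Real.le_sqrt_of_sq_le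
    exact_mod_cast hbig
  have h7 : Real.sqrt p * Real.sqrt p = p := Real.mul_self_sqrt (Nat.cast_nonneg p)
  have h8 : (1 : ℝ) ≤ d := by exact_mod_cast hd
  nlinarith

end Stoll308.Gen
end

section
set_option autoImplicit false

/-!
The characters `∏_{a ∈ A} W f p ρ a` are nontrivial.
-/

namespace Stoll308.Gen

open Polynomial Finset NumberTheorySymbols

/-- `f` modulo `p`. -/
noncomputable abbrev fp (f : ℤ[X]) (p : ℕ) : (ZMod p)[X] := f.map (Int.castRingHom (ZMod p))

section roots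

variable (f : ℤ[X]) (p : ℕ)

lemma mem_R {f : ℤ[X]} {p a : ℕ} : a ∈ R f p ↔ a < p ∧ (fp f p).eval (a : ZMod p) = 0 := by
  unfold R fp
  rw [mem_filter, mem_range]
  apply and_congr_right
  intro _
  rw [← ZMod.intCast_zmod_eq_zero_iff_dvd]
  have : (f.map (Int.castRingHom (ZMod p))).eval ((a : ℕ) : ZMod p) =
      ((f.eval (a : ℤ) : ℤ) : ZMod p) := by
    have h := eval_map_apply (p := f) (f := Int.castRingHom (ZMod p)) (a : ℤ)
    rwa [eq_intCast, eq_intCast, Int.cast_natCast] at h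
  rw [this]

lemma cast_inj_of_lt {p a b : ℕ} (ha : a < p) (hb : b < p) (h : (a : ZMod p) = b) : a = b := by
  rw [ZMod.natCast_eq_natCast_iff'] at h
  rwa [Nat.mod_eq_of_lt ha, Nat.mod_eq_of_lt hb] at h

lemma card_R_le_deg {f : ℤ[X]} {p : ℕ} [Fact p.Prime] (hf : f.Monic) :
    (R f p).card ≤ f.natDegree := by
  classical
  have hm : (fp f p).Monic := hf.map _
  have h1 : (R f p).card ≤ (fp f p).roots.toFinset.card := by
    apply card_le_card_of_injOn (fun a => ((a : ℕ) : ZMod p))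
    · intro a ha
      simp only [mem_coe, Multiset.mem_toFinset]
      rw [mem_roots hm.ne_zero]
      exact (mem_R.1 ha).2
    · intro a ha b hb hab
      exact cast_inj_of_lt (mem_R.1 ha).1 (mem_R.1 hb).1 hab
  refine h1.trans ((Multiset.toFinset_card_le _).trans ((card_roots' _).trans ?_))
  exact natDegree_map_le

end roots

section sum

variable {f : ℤ[X]} {p : ℕ} [hp : Fact p.Prime]

/-- The bijection `g ↦ u g` modulo `f`. -/
noncomputable def mulMap (f : ℤ[X]) (p : ℕ) (u : (ZMod p)[X]) (g : Fin f.natDegree → ZMod p) :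
    Fin f.natDegree → ZMod p :=
  fun i => ((u * poly g) %ₘ (fp f p)).coeff i

lemma poly_mulMap (hf : f.Monic) (u : (ZMod p)[X]) (g : Fin f.natDegree → ZMod p) :
    poly (mulMap f p u g) = (u * poly g) %ₘ (fp f p) := by
  have hm : (fp f p).Monic := hf.map _
  apply poly_of_degree_lt
  have h := degree_modByMonic_lt (u * poly g) hm
  rwa [degree_eq_natDegree hm.ne_zero, hf.natDegree_map] at h

lemma poly_injective {n : ℕ} {A : Type*} [CommRing A] :
    Function.Injective (poly : (Fin n → A) → A[X]) := by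
  intro g g' h
  funext i
  rw [← poly_coeff g i, ← poly_coeff g' i, h]

lemma mulMap_injective (hf : f.Monic) {u : (ZMod p)[X]} (hu : IsCoprime u (fp f p)) :
    Function.Injective (mulMap f p u) := by
  have hm : (fp f p).Monic := hf.map _
  intro g g' h
  have h1 : (u * poly g) %ₘ (fp f p) = (u * poly g') %ₘ (fp f p) := by
    rw [← poly_mulMap hf, ← poly_mulMap hf, h]
  have h2 : fp f p ∣ u * (poly g - poly g') := by
    rw [← modByMonic_eq_zero_iff_dvd hm, mul_sub, sub_modByMonic, h1, sub_self]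
  have h3 : fp f p ∣ poly g - poly g' := (hu.symm).dvd_of_dvd_mul_left h2
  apply poly_injective
  rw [← sub_eq_zero]
  apply eq_zero_of_dvd_of_degree_lt h3
  refine (degree_sub_le _ _).trans_lt ?_
  rw [degree_eq_natDegree hm.ne_zero, hf.natDegree_map]
  exact max_lt (poly_degree_lt _) (poly_degree_lt _)

end sum

section unit

variable {f : ℤ[X]} {p : ℕ} [hp : Fact p.Prime]

/-- Chinese remainder theorem for polynomials over a field: `u ≡ v` mod `k`, `u ≡ w` mod `h`. -/
lemma exists_crt {F : Type*} [Field F] {k h : F[X]} (hc : IsCoprime k h) (v w : F[X]) :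
    ∃ u : F[X], k ∣ u - v ∧ h ∣ u - w := by
  obtain ⟨s, t, hst⟩ := hc
  refine ⟨w * (s * k) + v * (t * h), ⟨(w - v) * s, ?_⟩, ⟨(v - w) * t, ?_⟩⟩
  · linear_combination v * hst
  · linear_combination w * hst

lemma eval_eq_of_dvd {F : Type*} [Field F] {k u v : F[X]} {a : F} (h : k ∣ u - v)
    (ha : k.eval a = 0) : u.eval a = v.eval a := by
  obtain ⟨s, hs⟩ := h
  have h1 : (u - v).eval a = 0 := by rw [hs, eval_mul, ha, zero_mul]
  rwa [eval_sub, sub_eq_zero] at h1

lemma res_one {F : Type*} [Field F] {k : F[X]} (_hk : k.Monic) : resultant k 1 = 1 := by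
  rw [resultant_one_right]
  simp

/-- The linear factors of the roots in a set. -/
lemma prod_roots_dvd (hf : f.Monic) {S : Finset ℕ} (hS : S ⊆ R f p) :
    (∏ a ∈ S, (X - C (a : ZMod p))) ∣ fp f p := by
  classical
  have hm : (fp f p).Monic := hf.map _
  apply Finset.prod_dvd_of_coprime
  · intro a ha b hb hab
    apply isCoprime_X_sub_C_of_isUnit_sub
    rw [isUnit_iff_ne_zero, sub_ne_zero]
    intro h
    exact hab (cast_inj_of_lt (mem_R.1 (hS ha)).1 (mem_R.1 (hS hb)).1 h)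
  · intro a ha
    rw [dvd_iff_isRoot]
    exact (mem_R.1 (hS ha)).2

end unit

/-- Clearing denominators. -/
lemma exists_clear (a : ℚ[X]) : ∃ d : ℤ, d ≠ 0 ∧ ∃ a' : ℤ[X],
    a'.map (Int.castRingHom ℚ) = C (d : ℚ) * a := by
  obtain ⟨d1, hd1, h1⟩ := IsLocalization.integerNormalization_spec (nonZeroDivisors ℤ) a
  refine ⟨d1, nonZeroDivisors.ne_zero hd1,
    IsLocalization.integerNormalization (nonZeroDivisors ℤ) a, ?_⟩
  change Polynomial.map (algebraMap ℤ ℚ) _ = _
  rw [h1]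
  ext i
  simp

end Stoll308.Gen
end

section
set_option autoImplicit false

/-!
Hensel lifts of the roots of `f` modulo `p`, units of `ℤ_p` and squares.
-/

namespace Stoll308.Gen

open Polynomial Finset NumberTheorySymbols

variable {p : ℕ} [hp : Fact p.Prime]

/-- `f` over `ℤ_p`. -/
noncomputable abbrev fz (f : ℤ[X]) (p : ℕ) [Fact p.Prime] : ℤ_[p][X] :=
  f.map (Int.castRingHom ℤ_[p])

/-- `f` over `ℚ_p`. -/
noncomputable abbrev fq (f : ℤ[X]) (p : ℕ) [Fact p.Prime] : ℚ_[p][X] :=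
  f.map (Int.castRingHom ℚ_[p])

/-- The reduction `ℤ_p → 𝔽_p`. -/
noncomputable abbrev rd (p : ℕ) [Fact p.Prime] : ℤ_[p] →+* ZMod p := PadicInt.toZMod

lemma fz_map (f : ℤ[X]) : (fz f p).map (rd p) = fp f p := map_cast_map f _

lemma fz_map' (f : ℤ[X]) : (fz f p).map (algebraMap ℤ_[p] ℚ_[p]) = fq f p := map_cast_map f _

lemma rd_eq_zero_iff {x : ℤ_[p]} : rd p x = 0 ↔ ‖x‖ < 1 := by
  rw [← RingHom.mem_ker, PadicInt.ker_toZMod, IsLocalRing.mem_maximalIdeal, PadicInt.mem_nonunits]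

lemma rd_eq_zero_iff_dvd {x : ℤ_[p]} : rd p x = 0 ↔ (p : ℤ_[p]) ∣ x := by
  rw [rd_eq_zero_iff, PadicInt.norm_lt_one_iff_dvd]

lemma rd_ne_zero_iff {x : ℤ_[p]} : rd p x ≠ 0 ↔ IsUnit x := by
  rw [Ne, rd_eq_zero_iff, PadicInt.isUnit_iff, not_lt]
  exact ⟨fun h => le_antisymm (PadicInt.norm_le_one x) h, fun h => h.ge⟩

lemma rd_intCast (m : ℤ) : rd p (m : ℤ_[p]) = (m : ZMod p) := by simp

/-- The `α` is a root of `f` lifting `a`. -/
def Lift (f : ℤ[X]) (p : ℕ) [Fact p.Prime] (a : ℕ) (α : ℤ_[p]) : Prop :=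
  (fz f p).eval α = 0 ∧ rd p α = (a : ZMod p)

lemma deriv_ne_zero_of_sep {f : ℤ[X]} (hsep : (fp f p).Separable) {a : ZMod p}
    (ha : (fp f p).eval a = 0) : (derivative (fp f p)).eval a ≠ 0 := by
  intro h
  obtain ⟨u, v, huv⟩ := hsep
  have := congrArg (eval a) huv
  rw [eval_add, eval_mul, eval_mul, ha, h] at this
  simp at this

lemma exists_lift {f : ℤ[X]} (hsep : (fp f p).Separable) {a : ℕ} (ha : a ∈ R f p) :
    ∃ α : ℤ_[p], Lift f p a α := by
  have h0 : rd p ((fz f p).eval (a : ℤ_[p])) = 0 := by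
    rw [← eval_map_apply, fz_map]
    simpa using (mem_R.1 ha).2
  have h1 : rd p ((derivative (fz f p)).eval (a : ℤ_[p])) ≠ 0 := by
    rw [← eval_map_apply, ← derivative_map, fz_map]
    have := deriv_ne_zero_of_sep hsep (mem_R.1 ha).2
    simpa using this
  have h2 : ‖(derivative (fz f p)).eval (a : ℤ_[p])‖ = 1 :=
    PadicInt.isUnit_iff.1 (rd_ne_zero_iff.1 h1)
  obtain ⟨z, hz, hz', -⟩ := hensels_lemma (p := p) (R := ℤ_[p]) (F := fz f p) (a := (a : ℤ_[p]))
    (by
      rw [coe_aeval_eq_eval, h2]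
      simpa using rd_eq_zero_iff.1 h0)
  rw [coe_aeval_eq_eval] at hz hz'
  refine ⟨z, hz, ?_⟩
  rw [h2] at hz'
  have := rd_eq_zero_iff.2 hz'
  rw [map_sub, sub_eq_zero] at this
  simpa using this

lemma root_mem_R {f : ℤ[X]} {α : ℤ_[p]} (h : (fz f p).eval α = 0) : (rd p α).val ∈ R f p := by
  rw [mem_R]
  refine ⟨ZMod.val_lt _, ?_⟩
  rw [ZMod.natCast_zmod_val, ← fz_map, eval_map_apply, h, map_zero]

/-- Splitting off a root. -/
lemma exists_factor {f : ℤ[X]} (hf : f.Monic) {α : ℤ_[p]} (h : (fz f p).eval α = 0) :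
    ∃ k : ℤ_[p][X], k.Monic ∧ fz f p = (X - C α) * k := by
  have hm : (fz f p).Monic := hf.map _
  obtain ⟨k, hk⟩ := dvd_iff_isRoot.2 h
  exact ⟨k, (monic_X_sub_C α).of_mul_monic_left (hk ▸ hm), hk⟩

lemma factor_coprime {f : ℤ[X]} (hsep : (fp f p).Separable) {α : ℤ_[p]} {k : ℤ_[p][X]}
    (hk : fz f p = (X - C α) * k) : IsCoprime (X - C (rd p α)) (k.map (rd p)) := by
  have h1 : fp f p = (X - C (rd p α)) * k.map (rd p) := by
    rw [← fz_map, hk, Polynomial.map_mul, Polynomial.map_sub, map_X, map_C]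
  rw [h1] at hsep
  exact hsep.isCoprime

lemma factor_eval_unit {f : ℤ[X]} (hsep : (fp f p).Separable) {α : ℤ_[p]} {k : ℤ_[p][X]}
    (hk : fz f p = (X - C α) * k) {x : ℤ_[p]} (hx : rd p x = rd p α) : IsUnit (k.eval x) := by
  rw [← rd_ne_zero_iff, ← eval_map_apply, hx]
  intro h
  obtain ⟨u, v, huv⟩ := factor_coprime hsep hk
  have := congrArg (eval (rd p α)) huv
  rw [eval_add, eval_mul, eval_mul, h] at this
  simp at this

lemma lift_unique {f : ℤ[X]} (hf : f.Monic) (hsep : (fp f p).Separable) {α β : ℤ_[p]}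
    (hα : (fz f p).eval α = 0) (hβ : (fz f p).eval β = 0) (h : rd p α = rd p β) : α = β := by
  obtain ⟨k, -, hk⟩ := exists_factor hf hα
  have h1 := factor_eval_unit hsep hk h.symm
  rw [hk, eval_mul, eval_sub, eval_X, eval_C] at hβ
  rcases mul_eq_zero.1 hβ with h2 | h2
  · exact (sub_eq_zero.1 h2).symm
  · rw [h2] at h1
    exact absurd h1 not_isUnit_zero

lemma Lift.unique {f : ℤ[X]} (hf : f.Monic) (hsep : (fp f p).Separable) {a : ℕ} {α β : ℤ_[p]}
    (hα : Lift f p a α) (hβ : Lift f p a β) : α = β :=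
  lift_unique hf hsep hα.1 hβ.1 (hα.2.trans hβ.2.symm)

/-- A unit which is a square modulo `p` is a square. -/
lemma isSquare_of_rd (hp2 : p ≠ 2) {u : ℤ_[p]} (hu : IsUnit u) (h : IsSquare (rd p u)) :
    IsSquare u := by
  obtain ⟨s, hs⟩ := h
  have hu0 := rd_ne_zero_iff.2 hu
  have hs0 : s ≠ 0 := by
    rintro rfl
    exact hu0 (by simpa using hs)
  set a : ℤ_[p] := ((s.val : ℕ) : ℤ_[p]) with ha
  have hra : rd p a = s := by
    rw [ha]; simp
  have h2 : ‖(2 : ℤ_[p])‖ = 1 := by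
    rw [← PadicInt.isUnit_iff, ← rd_ne_zero_iff]
    have : rd p (2 : ℤ_[p]) = ((2 : ℕ) : ZMod p) := by
      rw [show (2 : ℤ_[p]) = ((2 : ℕ) : ℤ_[p]) by norm_num, map_natCast]
    rw [this, Ne, ZMod.natCast_eq_zero_iff]
    intro h
    have := (Nat.prime_dvd_prime_iff_eq hp.out Nat.prime_two).1 h
    exact hp2 this
  have ha1 : ‖a‖ = 1 := by
    rw [← PadicInt.isUnit_iff, ← rd_ne_zero_iff, hra]
    exact hs0
  obtain ⟨z, hz, -⟩ := hensels_lemma (p := p) (R := ℤ_[p]) (F := X ^ 2 - C u) (a := a)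
    (by
      rw [coe_aeval_eq_eval]
      simp only [eval_sub, eval_pow, eval_X, eval_C, derivative_sub, derivative_X_pow,
        derivative_C, sub_zero, eval_mul, Nat.cast_ofNat, Nat.add_one_sub_one, pow_one, map_ofNat,
        eval_ofNat]
      rw [norm_mul, h2, ha1, one_mul, one_pow, ← rd_eq_zero_iff, map_sub, map_pow, hra, hs]
      ring)
  rw [coe_aeval_eq_eval] at hz
  simp only [eval_sub, eval_pow, eval_X, eval_C] at hz
  exact ⟨z, by rw [← sq]; exact (sub_eq_zero.1 hz).symm⟩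

/-- A unit is a square in `ℚ_p` iff its reduction is a square. -/
lemma isSquare_coe_iff (hp2 : p ≠ 2) {u : ℤ_[p]} (hu : IsUnit u) :
    IsSquare (u : ℚ_[p]) ↔ IsSquare (rd p u) := by
  constructor
  · rintro ⟨s, hs⟩
    have h1 : ‖s‖ = 1 := by
      have h2 : ‖s‖ * ‖s‖ = 1 := by
        rw [← norm_mul, ← hs, ← PadicInt.norm_def, PadicInt.isUnit_iff.1 hu]
      nlinarith [norm_nonneg s]
    obtain ⟨s', rfl⟩ : ∃ s' : ℤ_[p], (s' : ℚ_[p]) = s := ⟨⟨s, h1.le⟩, rfl⟩
    refine ⟨rd p s', ?_⟩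
    rw [← map_mul]
    congr 1
    apply PadicInt.ext
    rw [PadicInt.coe_mul]
    exact hs
  · intro h
    obtain ⟨s, hs⟩ := isSquare_of_rd hp2 hu h
    exact ⟨(s : ℚ_[p]), by rw [hs, PadicInt.coe_mul]⟩

end Stoll308.Gen
end

section
set_option autoImplicit false

/-!
Thue elements: small elements of `ℤ[θ]` vanishing at prescribed roots modulo prescribed primes.
-/

namespace Stoll308.Gen

open Polynomial Finset NumberTheorySymbols

/-- The small elements. -/
def ThueP (f : ℤ[X]) (T : Finset ℕ) (ρ : ℕ → ℕ) (g : Fin f.natDegree → ℤ) : Prop :=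
  g ≠ 0 ∧ (∀ i, |g i| ^ f.natDegree ≤ ((∏ p ∈ T, p : ℕ) : ℤ)) ∧
    ∀ p ∈ T, (p : ℤ) ∣ ev g (ρ p : ℤ)

lemma ThueP_congr (f : ℤ[X]) (T : Finset ℕ) (ρ ρ' : ℕ → ℕ) (h : ∀ p ∈ T, ρ p = ρ' p) :
    ThueP f T ρ = ThueP f T ρ' := by
  funext g
  unfold ThueP
  apply propext
  refine and_congr_right fun _ => and_congr_right fun _ => ?_
  refine forall₂_congr fun p hp => ?_
  rw [h p hp]

/-- A chosen Thue element. -/
noncomputable def thue (f : ℤ[X]) (T : Finset ℕ) (ρ : ℕ → ℕ) : Fin f.natDegree → ℤ :=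
  Classical.epsilon (ThueP f T ρ)

lemma thue_congr (f : ℤ[X]) (T : Finset ℕ) (ρ ρ' : ℕ → ℕ) (h : ∀ p ∈ T, ρ p = ρ' p) :
    thue f T ρ = thue f T ρ' := by
  unfold thue
  rw [ThueP_congr f T ρ ρ' h]

lemma exists_thue (f : ℤ[X]) (hn : 1 ≤ f.natDegree) (T : Finset ℕ) (ρ : ℕ → ℕ)
    (hT : ∀ p ∈ T, p.Prime) : ∃ g, ThueP f T ρ g := by
  classical
  set n := f.natDegree with hnn
  set N := ∏ p ∈ T, p with hN
  -- the size of the box
  obtain ⟨m, hm1, hm2⟩ : ∃ m : ℕ, m ^ n ≤ N ∧ N < (m + 1) ^ n := by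
    have hex : ∃ k : ℕ, N < (k + 1) ^ n := by
      refine ⟨N, ?_⟩
      calc N < N + 1 := Nat.lt_succ_self _
        _ ≤ (N + 1) ^ n := Nat.le_self_pow (by omega) _
    refine ⟨Nat.find hex, ?_, Nat.find_spec hex⟩
    rcases Nat.eq_zero_or_pos (Nat.find hex) with h0 | h0
    · rw [h0, zero_pow (by omega)]; exact Nat.zero_le _
    · have h1 := Nat.find_min hex (m := Nat.find hex - 1) (by omega)
      rw [not_lt, Nat.sub_add_cancel h0] at h1
      exact h1
  have hfin : ∀ p : T, NeZero (p : ℕ) := fun p => ⟨(hT p p.2).ne_zero⟩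
  have hcard : Fintype.card (∀ p : T, ZMod (p : ℕ)) < Fintype.card (Fin n → Fin (m + 1)) := by
    rw [Fintype.card_pi, Fintype.card_fun]
    simp only [ZMod.card, Fintype.card_fin]
    have : ∏ p : T, (p : ℕ) = N := by
      rw [hN]
      exact prod_coe_sort T (fun p => p)
    rw [this]
    exact hm2
  obtain ⟨G, G', hne, heq⟩ := Fintype.exists_ne_map_eq_of_card_lt
    (fun (G : Fin n → Fin (m + 1)) (p : T) => ∑ i, ((G i : ℕ) : ZMod (p : ℕ)) *
      ((ρ p : ℕ) : ZMod (p : ℕ)) ^ (i : ℕ)) hcard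
  refine ⟨fun i => ((G i : ℕ) : ℤ) - ((G' i : ℕ) : ℤ), ?_, ?_, ?_⟩
  · intro h
    apply hne
    funext i
    have h1 := congrFun h i
    simp only [Pi.zero_apply] at h1
    apply Fin.ext
    omega
  · intro i
    have h1 : |((G i : ℕ) : ℤ) - ((G' i : ℕ) : ℤ)| ≤ m := by
      have h2 := (G i).2
      have h3 := (G' i).2
      rw [abs_le]
      constructor <;> omega
    calc |((G i : ℕ) : ℤ) - ((G' i : ℕ) : ℤ)| ^ n ≤ (m : ℤ) ^ n :=
          pow_le_pow_left₀ (abs_nonneg _) h1 n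
      _ ≤ (N : ℤ) := by exact_mod_cast hm1
  · intro p hp
    rw [← ZMod.intCast_zmod_eq_zero_iff_dvd]
    have h1 := congrFun heq ⟨p, hp⟩
    simp only at h1
    unfold ev
    push_cast
    rw [sum_congr rfl fun i _ => sub_mul _ _ _, sum_sub_distrib, sub_eq_zero]
    exact h1

lemma thue_spec (f : ℤ[X]) (hn : 1 ≤ f.natDegree) (T : Finset ℕ) (ρ : ℕ → ℕ)
    (hT : ∀ p ∈ T, p.Prime) : ThueP f T ρ (thue f T ρ) :=
  Classical.epsilon_spec (exists_thue f hn T ρ hT)

/-- The resultant of `f` and an integral polynomial with small coefficients. -/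
noncomputable def resConst (f : ℤ[X]) : ℝ :=
  ((f.map (Int.castRingHom ℂ)).roots.map fun z => ∑ i : Fin f.natDegree, ‖z‖ ^ (i : ℕ)).prod

lemma abs_Nm_le (f : ℤ[X]) (hf : f.Monic) (g : Fin f.natDegree → ℤ) (M : ℝ) (hM : 0 ≤ M)
    (hg : ∀ i, |(g i : ℝ)| ≤ M) : |((Nm f g : ℤ) : ℝ)| ≤ M ^ f.natDegree * resConst f := by
  have hm : (f.map (Int.castRingHom ℂ)).Monic := hf.map _
  have h1 : (((Nm f g : ℤ) : ℂ)) = ((f.map (Int.castRingHom ℂ)).roots.map
      (poly (fun i => (g i : ℂ))).eval).prod := by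
    rw [Nm_cast]
    unfold Nm
    have h := resultant_eq_prod_eval (f.map (Int.castRingHom ℂ)) (poly (fun i => (g i : ℂ)))
      f.natDegree (poly_natDegree_le _) (IsAlgClosed.splits _)
    rw [hf.natDegree_map, hm.leadingCoeff, one_pow, one_mul] at h
    rw [← h]
  have h2 : |((Nm f g : ℤ) : ℝ)| = ‖((Nm f g : ℤ) : ℂ)‖ := by
    rw [Complex.norm_intCast]
  have hcard : Multiset.card (f.map (Int.castRingHom ℂ)).roots = f.natDegree := by
    rw [← (IsAlgClosed.splits (f.map (Int.castRingHom ℂ))).natDegree_eq_card_roots,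
      hf.natDegree_map]
  rw [h2, h1]
  have h3 : ∀ s : Multiset ℂ, ‖(s.map (poly (fun i => (g i : ℂ))).eval).prod‖ ≤
      M ^ (Multiset.card s) * (s.map fun z => ∑ i : Fin f.natDegree, ‖z‖ ^ (i : ℕ)).prod := by
    intro s
    induction s using Multiset.induction with
    | empty => simp
    | cons z s ih =>
      rw [Multiset.map_cons, Multiset.prod_cons, Multiset.map_cons, Multiset.prod_cons,
        Multiset.card_cons, norm_mul, pow_succ]
      have h4 : ‖(poly (fun i => (g i : ℂ))).eval z‖ ≤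
          M * ∑ i : Fin f.natDegree, ‖z‖ ^ (i : ℕ) := by
        rw [poly_eval]
        unfold ev
        refine (norm_sum_le _ _).trans ?_
        rw [mul_sum]
        refine sum_le_sum fun i _ => ?_
        rw [norm_mul, norm_pow, Complex.norm_intCast]
        exact mul_le_mul_of_nonneg_right (hg i) (by positivity)
      have h5 : (0 : ℝ) ≤ (s.map fun z => ∑ i : Fin f.natDegree, ‖z‖ ^ (i : ℕ)).prod := by
        apply Multiset.prod_nonneg
        intro a ha
        rw [Multiset.mem_map] at ha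
        obtain ⟨w, -, rfl⟩ := ha
        positivity
      calc _ ≤ (M * ∑ i : Fin f.natDegree, ‖z‖ ^ (i : ℕ)) * (M ^ (Multiset.card s) *
            (s.map fun z => ∑ i : Fin f.natDegree, ‖z‖ ^ (i : ℕ)).prod) :=
            mul_le_mul h4 ih (norm_nonneg _) (by positivity)
        _ = _ := by ring
  have h6 := h3 (f.map (Int.castRingHom ℂ)).roots
  rw [hcard] at h6
  exact h6

section irr

variable {f : ℤ[X]}

lemma Nm_eq_res (hf : f.Monic) {A : Type*} [CommRing A] [Nontrivial A]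
    (g : Fin f.natDegree → A) :
    Nm f g = resultant (f.map (Int.castRingHom A)) (poly g) := by
  rw [← res_pad (f.map (Int.castRingHom A)) (poly g) (hf.map _) f.natDegree
    (poly_natDegree_le _)]
  unfold Nm
  congr 1
  exact (hf.natDegree_map _).symm

lemma irr_rat (hf : f.Monic) (hirr : Irreducible f) : Irreducible (f.map (Int.castRingHom ℚ)) := by
  have h := (hf.irreducible_iff_irreducible_map_fraction_map (K := ℚ)).1 hirr
  simpa using h

lemma Nm_ne_zero (hf : f.Monic) (hirr : Irreducible f) (g : Fin f.natDegree → ℤ) (hg : g ≠ 0) :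
    Nm f g ≠ 0 := by
  have hm : (f.map (Int.castRingHom ℚ)).Monic := hf.map _
  have hirr' := irr_rat hf hirr
  intro h
  have h1 : ((Nm f g : ℤ) : ℚ) = 0 := by rw [h]; simp
  rw [Nm_cast, Nm_eq_res hf] at h1
  apply resultant_ne_zero (f.map (Int.castRingHom ℚ)) (poly (fun i => (g i : ℚ))) _ h1
  rw [hirr'.coprime_iff_not_dvd]
  intro hd
  have h2 := eq_zero_of_dvd_of_degree_lt hd (by
    rw [degree_eq_natDegree hm.ne_zero, hf.natDegree_map]; exact poly_degree_lt _)
  apply hg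
  funext i
  have h3 := poly_coeff (fun i => (g i : ℚ)) i
  rw [h2, coeff_zero] at h3
  have h4 : ((g i : ℤ) : ℚ) = 0 := h3.symm
  simpa using h4

/-- A common root modulo `p` makes the norm divisible by `p`. -/
lemma dvd_Nm (hf : f.Monic) {p : ℕ} [Fact p.Prime] {a : ℕ} (ha : a ∈ R f p)
    (g : Fin f.natDegree → ℤ) (hg : (p : ℤ) ∣ ev g (a : ℤ)) : (p : ℤ) ∣ Nm f g := by
  have hm : (fp f p).Monic := hf.map _
  rw [← ZMod.intCast_zmod_eq_zero_iff_dvd, Nm_cast, Nm_eq_res hf]
  by_contra h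
  have h1 := (isUnit_resultant_iff_isCoprime hm).1 (isUnit_iff_ne_zero.2 h)
  obtain ⟨u, v, huv⟩ := h1
  have h2 := congrArg (eval (a : ZMod p)) huv
  have h3 : (poly (fun i => (g i : ZMod p))).eval (a : ZMod p) = 0 := by
    rw [poly_eval]
    have := (ZMod.intCast_zmod_eq_zero_iff_dvd (ev g (a : ℤ)) p).2 hg
    rw [ev_cast] at this
    simpa using this
  rw [eval_add, eval_mul, eval_mul, (mem_R.1 ha).2, h3] at h2
  simp at h2

lemma Nm_padic (hf : f.Monic) {p : ℕ} [Fact p.Prime] (g : Fin f.natDegree → ℤ) :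
    ((Nm f g : ℤ) : ℤ_[p]) = resultant (fz f p) (poly (fun i => (g i : ℤ_[p]))) := by
  rw [Nm_cast, Nm_eq_res hf]

lemma dvd_ev_padic {p : ℕ} [Fact p.Prime] {n : ℕ} (g : Fin n → ℤ) {a : ℕ} {α : ℤ_[p]}
    (h : rd p α = a) : rd p ((poly (fun i => (g i : ℤ_[p]))).eval α) = 0 ↔
      (p : ℤ) ∣ ev g (a : ℤ) := by
  rw [poly_eval, ev_map, h, ← ZMod.intCast_zmod_eq_zero_iff_dvd, ev_cast]
  simp

/-- Two common roots modulo `p` make the norm divisible by `p²`. -/
lemma sq_dvd_Nm (hf : f.Monic) {p : ℕ} [Fact p.Prime] (hsep : (fp f p).Separable) {a b : ℕ}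
    (ha : a ∈ R f p) (hb : b ∈ R f p) (hab : a ≠ b) (g : Fin f.natDegree → ℤ)
    (hga : (p : ℤ) ∣ ev g (a : ℤ)) (hgb : (p : ℤ) ∣ ev g (b : ℤ)) : ((p : ℤ) ^ 2) ∣ Nm f g := by
  obtain ⟨α, hα⟩ := exists_lift hsep ha
  obtain ⟨β, hβ⟩ := exists_lift hsep hb
  obtain ⟨k, hkm, hk⟩ := exists_factor hf hα.1
  have hne : α ≠ β := by
    rintro rfl
    exact hab (cast_inj_of_lt (mem_R.1 ha).1 (mem_R.1 hb).1 (hα.2.symm.trans hβ.2))
  have hkβ : k.eval β = 0 := by
    have h1 := hβ.1
    rw [hk, eval_mul, eval_sub, eval_X, eval_C] at h1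
    rcases mul_eq_zero.1 h1 with h2 | h2
    · exact absurd (sub_eq_zero.1 h2).symm hne
    · exact h2
  obtain ⟨l, hl⟩ := dvd_iff_isRoot.2 hkβ
  have hlm : l.Monic := (monic_X_sub_C β).of_mul_monic_left (hl ▸ hkm)
  have h1 := Nm_padic (p := p) hf g
  rw [hk, res_mul_left _ _ _ (monic_X_sub_C α) hkm, hl, res_mul_left _ _ _ (monic_X_sub_C β) hlm,
    res_X_sub_C, res_X_sub_C] at h1
  have h2 := rd_eq_zero_iff_dvd.1 ((dvd_ev_padic g hα.2).2 hga)
  have h3 := rd_eq_zero_iff_dvd.1 ((dvd_ev_padic g hβ.2).2 hgb)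
  have h4 : ((p : ℤ_[p]) ^ 2) ∣ ((Nm f g : ℤ) : ℤ_[p]) := by
    rw [h1, sq, ← mul_assoc]
    exact Dvd.dvd.mul_right (mul_dvd_mul h2 h3) _
  have h5 := (PadicInt.pow_p_dvd_int_iff 2 (Nm f g)).1 h4
  exact_mod_cast h5

end irr

end Stoll308.Gen
end

section
set_option autoImplicit false

/-!
The cofactor `κ` of the norm of a Thue element, and injectivity.
-/

namespace Stoll308.Gen

open Polynomial Finset NumberTheorySymbols

/-- The bound `C₀` is good for `f`. -/
structure GoodBound (f : ℤ[X]) (C₀ : ℕ) : Prop where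
  monic : f.Monic
  irr : Irreducible f
  deg : 1 ≤ f.natDegree
  two : 2 ≤ C₀
  sep : ∀ p : ℕ, p.Prime → C₀ < p → (fp f p).Separable
  res : resConst f ≤ C₀

/-- The cofactor of the norm of a Thue element. -/
noncomputable def kap (f : ℤ[X]) (T : Finset ℕ) (ρ : ℕ → ℕ) : ℤ :=
  Nm f (thue f T ρ) / ((∏ p ∈ T, p : ℕ) : ℤ)

lemma kap_congr (f : ℤ[X]) (T : Finset ℕ) (ρ ρ' : ℕ → ℕ) (h : ∀ p ∈ T, ρ p = ρ' p) :
    kap f T ρ = kap f T ρ' := by
  unfold kap
  rw [thue_congr f T ρ ρ' h]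

section

variable {f : ℤ[X]} {C₀ : ℕ} (hG : GoodBound f C₀) {T : Finset ℕ} {ρ : ℕ → ℕ}
  (hV : Valid f C₀ T ρ)

include hG

lemma GoodBound.ne_two {p : ℕ} (hp : C₀ < p) : p ≠ 2 := by
  have := hG.two
  omega

include hV

lemma thue_spec' : ThueP f T ρ (thue f T ρ) :=
  thue_spec f hG.deg T ρ fun p hp => (hV p hp).1

lemma prod_dvd_Nm : ((∏ p ∈ T, p : ℕ) : ℤ) ∣ Nm f (thue f T ρ) := by
  push_cast
  apply Finset.prod_dvd_of_coprime
  · intro p hp q hq hpq
    have h1 := (Nat.coprime_primes (hV p hp).1 (hV q hq).1).2 hpq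
    exact Nat.isCoprime_iff_coprime.2 h1
  · intro p hp
    have : Fact p.Prime := ⟨(hV p hp).1⟩
    exact dvd_Nm hG.monic (hV p hp).2.2 _ ((thue_spec' hG hV).2.2 p hp)

omit hG in
lemma prod_pos' : 0 < ∏ p ∈ T, p := prod_pos fun p hp => (hV p hp).1.pos

lemma kap_mul : Nm f (thue f T ρ) = kap f T ρ * ((∏ p ∈ T, p : ℕ) : ℤ) := by
  unfold kap
  rw [Int.ediv_mul_cancel (prod_dvd_Nm hG hV)]

lemma kap_ne : kap f T ρ ≠ 0 := by
  intro h
  have h1 := kap_mul hG hV
  rw [h, zero_mul] at h1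
  exact Nm_ne_zero hG.monic hG.irr _ (thue_spec' hG hV).1 h1

lemma kap_le : |kap f T ρ| ≤ (C₀ : ℤ) := by
  set n := f.natDegree with hn
  set N := ∏ p ∈ T, p with hN
  have hN0 : 0 < N := prod_pos' hV
  have hspec := thue_spec' hG hV
  obtain ⟨i₀, -, hi₀⟩ := exists_max_image (univ : Finset (Fin n)) (fun i => |thue f T ρ i|)
    ⟨⟨0, hG.deg⟩, mem_univ _⟩
  have h1 := abs_Nm_le f hG.monic (thue f T ρ) (|(thue f T ρ i₀ : ℝ)|) (abs_nonneg _)
    (fun i => by exact_mod_cast hi₀ i (mem_univ i))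
  have h2 : |(thue f T ρ i₀ : ℝ)| ^ n ≤ N := by
    have := hspec.2.1 i₀
    exact_mod_cast this
  have h3 : 0 ≤ resConst f := by
    unfold resConst
    apply Multiset.prod_nonneg
    intro a ha
    rw [Multiset.mem_map] at ha
    obtain ⟨w, -, rfl⟩ := ha
    positivity
  have h4 : |((Nm f (thue f T ρ) : ℤ) : ℝ)| ≤ N * C₀ :=
    h1.trans (mul_le_mul h2 hG.res h3 (Nat.cast_nonneg _))
  rw [kap_mul hG hV] at h4
  push_cast at h4
  rw [abs_mul] at h4
  have h5 : |(((N : ℕ) : ℝ))| = N := abs_of_nonneg (Nat.cast_nonneg _)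
  have h6 : |(kap f T ρ : ℝ)| * N ≤ N * C₀ := by
    rw [hN] at h5 h4 ⊢
    push_cast at h5 h4 ⊢
    rw [h5] at h4
    exact h4
  have h7 : (0 : ℝ) < N := by exact_mod_cast hN0
  have h8 : |(kap f T ρ : ℝ)| ≤ C₀ := by
    rw [mul_comm (N : ℝ)] at h6
    exact le_of_mul_le_mul_right h6 h7
  exact_mod_cast h8

lemma not_dvd_kap {p : ℕ} (hpC : C₀ < p) : ¬ (p : ℤ) ∣ kap f T ρ := by
  intro h
  have h1 := Int.le_of_dvd (abs_pos.2 (kap_ne hG hV)) ((dvd_abs _ _).2 h)
  have h2 := kap_le hG hV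
  omega

lemma dvd_Nm_thue_iff {p : ℕ} (hp : p.Prime) (hpC : C₀ < p) :
    (p : ℤ) ∣ Nm f (thue f T ρ) ↔ p ∈ T := by
  have hp' : Prime (p : ℤ) := Nat.prime_iff_prime_int.1 hp
  rw [kap_mul hG hV, hp'.dvd_mul]
  constructor
  · rintro (h | h)
    · exact absurd h (not_dvd_kap hG hV hpC)
    · rw [Int.natCast_dvd_natCast, hp.prime.dvd_finsetProd_iff] at h
      obtain ⟨q, hq, hpq⟩ := h
      rwa [(Nat.prime_dvd_prime_iff_eq hp (hV q hq).1).1 hpq]
  · intro h
    right
    rw [Int.natCast_dvd_natCast]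
    exact dvd_prod_of_mem _ h

lemma not_sq_dvd_Nm_thue {p : ℕ} (hpT : p ∈ T) : ¬ ((p : ℤ) ^ 2) ∣ Nm f (thue f T ρ) := by
  classical
  have hp := (hV p hpT).1
  have hp' : Prime (p : ℤ) := Nat.prime_iff_prime_int.1 hp
  rw [kap_mul hG hV, ← mul_prod_erase T _ hpT]
  push_cast
  intro h
  have h1 : (p : ℤ) ∣ kap f T ρ * ∏ q ∈ T.erase p, (q : ℤ) := by
    rw [sq, mul_left_comm] at h
    exact Int.dvd_of_mul_dvd_mul_left (by exact_mod_cast hp.ne_zero) h
  rcases hp'.dvd_mul.1 h1 with h2 | h2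
  · exact not_dvd_kap hG hV (hV p hpT).2.1 h2
  · rw [← Nat.cast_prod, Int.natCast_dvd_natCast, hp.prime.dvd_finsetProd_iff] at h2
    obtain ⟨q, hq, hpq⟩ := h2
    have := (Nat.prime_dvd_prime_iff_eq hp (hV q (mem_of_mem_erase hq)).1).1 hpq
    exact ne_of_mem_erase hq this.symm

/-- Injectivity of the Thue elements. -/
lemma thue_inj {T' : Finset ℕ} {ρ' : ℕ → ℕ} (hV' : Valid f C₀ T' ρ')
    (h : thue f T ρ = thue f T' ρ') : T = T' ∧ ∀ p ∈ T, ρ p = ρ' p := by
  have hTT : T = T' := by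
    ext p
    constructor
    · intro hp
      rw [← dvd_Nm_thue_iff hG hV' (hV p hp).1 (hV p hp).2.1, ← h,
        dvd_Nm_thue_iff hG hV (hV p hp).1 (hV p hp).2.1]
      exact hp
    · intro hp
      rw [← dvd_Nm_thue_iff hG hV (hV' p hp).1 (hV' p hp).2.1, h,
        dvd_Nm_thue_iff hG hV' (hV' p hp).1 (hV' p hp).2.1]
      exact hp
  subst hTT
  refine ⟨rfl, fun p hp => ?_⟩
  by_contra hne
  have : Fact p.Prime := ⟨(hV p hp).1⟩
  apply not_sq_dvd_Nm_thue hG hV hp
  refine sq_dvd_Nm hG.monic (hG.sep p (hV p hp).1 (hV p hp).2.1) (hV p hp).2.2 (hV' p hp).2.2 hne _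
    ((thue_spec' hG hV).2.2 p hp) ?_
  rw [h]
  exact (thue_spec' hG hV').2.2 p hp

/-- A Thue element is coprime to `f` modulo the primes not in `T`. -/
lemma thue_coprime {p : ℕ} (hp : p.Prime) (hpC : C₀ < p) (hpT : p ∉ T) :
    IsCoprime (poly (fun i => (thue f T ρ i : ZMod p))) (fp f p) := by
  have : Fact p.Prime := ⟨hp⟩
  have hm : (fp f p).Monic := hG.monic.map _
  apply IsCoprime.symm
  rw [← isUnit_resultant_iff_isCoprime hm, ← Nm_eq_res hG.monic, ← Nm_cast, isUnit_iff_ne_zero, Ne,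
    ZMod.intCast_zmod_eq_zero_iff_dvd, dvd_Nm_thue_iff hG hV hp hpC]
  exact hpT

/-- At the primes of `T` a Thue element is `p` times a unit at the root, and coprime to the
cofactor. -/
lemma thue_local {p : ℕ} [Fact p.Prime] (hpT : p ∈ T) {α : ℤ_[p]} (hα : Lift f p (ρ p) α)
    {k : ℤ_[p][X]} (hkm : k.Monic) (hk : fz f p = (X - C α) * k) :
    (∃ v : ℤ_[p], IsUnit v ∧ (poly (fun i => (thue f T ρ i : ℤ_[p]))).eval α = p * v) ∧
      IsCoprime (poly (fun i => (thue f T ρ i : ZMod p))) (k.map (rd p)) := by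
  have h1 := Nm_padic (p := p) hG.monic (thue f T ρ)
  rw [hk, res_mul_left _ _ _ (monic_X_sub_C α) hkm, res_X_sub_C] at h1
  have h2 := rd_eq_zero_iff_dvd.1 ((dvd_ev_padic (thue f T ρ) hα.2).2
    ((thue_spec' hG hV).2.2 p hpT))
  obtain ⟨v, hv⟩ := h2
  have hns : ¬ ((p : ℤ_[p]) ^ 2) ∣ ((Nm f (thue f T ρ) : ℤ) : ℤ_[p]) := by
    intro h
    apply not_sq_dvd_Nm_thue hG hV hpT
    have h5 := (PadicInt.pow_p_dvd_int_iff 2 (Nm f (thue f T ρ))).1 h
    exact_mod_cast h5
  rw [h1, hv] at hns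
  have hvr : IsUnit (v * resultant k (poly (fun i => (thue f T ρ i : ℤ_[p])))) := by
    rw [← rd_ne_zero_iff, Ne, rd_eq_zero_iff_dvd]
    intro h
    apply hns
    obtain ⟨w, hw⟩ := h
    exact ⟨w, by rw [mul_assoc, hw]; ring⟩
  rw [IsUnit.mul_iff] at hvr
  refine ⟨⟨v, hvr.1, hv⟩, ?_⟩
  apply IsCoprime.symm
  have hkm' : (k.map (rd p)).Monic := hkm.map _
  rw [← isUnit_resultant_iff_isCoprime hkm']
  have h3 : resultant (k.map (rd p)) (poly (fun i => (thue f T ρ i : ZMod p))) =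
      rd p (resultant k (poly (fun i => (thue f T ρ i : ℤ_[p])))) := by
    have h4 : poly (fun i => (thue f T ρ i : ZMod p)) =
        (poly (fun i => (thue f T ρ i : ℤ_[p]))).map (rd p) := by
      rw [poly_map]
      simp
    rw [h4]
    have h5 := resultant_map_map k (poly (fun i => (thue f T ρ i : ℤ_[p]))) k.natDegree
      (poly (fun i => (thue f T ρ i : ℤ_[p]))).natDegree (rd p)
    rw [← h5, ← hkm.natDegree_map (rd p), res_pad _ _ hkm' _ natDegree_map_le]
  rw [h3]
  exact hvr.2.map _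

end

end Stoll308.Gen
end

section
set_option autoImplicit false

/-!
The component of `ℚ_p[X]/f` at a root of `f` in `ℤ_p`.
-/

namespace Stoll308.Gen

open Polynomial Finset NumberTheorySymbols

variable {p : ℕ} [hp : Fact p.Prime] (f : ℤ[X])

/-- `ℚ_p[X] → ℚ_p[X]/f`. -/
noncomputable abbrev mkq (f : ℤ[X]) (p : ℕ) [Fact p.Prime] :
    ℚ_[p][X] →+* AdjoinRoot (fq f p) := AdjoinRoot.mk (fq f p)

/-- `ℤ_p[X] → ℚ_p[X]/f`. -/
noncomputable abbrev mkz (f : ℤ[X]) (p : ℕ) [Fact p.Prime] :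
    ℤ_[p][X] →+* AdjoinRoot (fq f p) :=
  (mkq f p).comp (mapRingHom (algebraMap ℤ_[p] ℚ_[p]))

lemma mkz_f : mkz f p (fz f p) = 0 := by
  change mkq f p ((fz f p).map (algebraMap ℤ_[p] ℚ_[p])) = 0
  rw [fz_map']
  exact AdjoinRoot.mk_self

lemma mkz_eq_of_dvd {a b : ℤ_[p][X]} (h : fz f p ∣ a - b) : mkz f p a = mkz f p b := by
  obtain ⟨q, hq⟩ := h
  rw [← sub_eq_zero, ← map_sub, hq, map_mul, mkz_f, zero_mul]

/-- Integral units modulo `f`. -/
def UU (f : ℤ[X]) (p : ℕ) [Fact p.Prime] (z : AdjoinRoot (fq f p)) : Prop :=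
  ∃ u : ℤ_[p][X], IsCoprime (u.map (rd p)) (fp f p) ∧ mkz f p u = z

variable {f}

lemma UU.mul {z w : AdjoinRoot (fq f p)} (hz : UU f p z) (hw : UU f p w) : UU f p (z * w) := by
  obtain ⟨u, hu, rfl⟩ := hz
  obtain ⟨v, hv, rfl⟩ := hw
  refine ⟨u * v, ?_, map_mul _ _ _⟩
  rw [Polynomial.map_mul]
  exact hu.mul_left hv

lemma UU.C {v : ℤ_[p]} (hv : IsUnit v) : UU f p (mkz f p (C v)) := by
  refine ⟨Polynomial.C v, ?_, rfl⟩
  rw [map_C]
  have : IsUnit (Polynomial.C (rd p v) : (ZMod p)[X]) :=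
    Polynomial.isUnit_C.2 (isUnit_iff_ne_zero.2 (rd_ne_zero_iff.2 hv))
  obtain ⟨w, hw⟩ := this.exists_left_inv
  exact ⟨w, 0, by rw [hw]; ring⟩

section comp

variable {α : ℤ_[p]} {k : ℤ_[p][X]} {κ : ℤ_[p]}

/-- The idempotent of the root `α`. -/
noncomputable abbrev ee (k : ℤ_[p][X]) (κ : ℤ_[p]) : ℤ_[p][X] := C κ * k

lemma ee_ann (hk : fz f p = (X - C α) * k) (g : ℤ_[p][X]) :
    mkz f p (g * ee k κ) = mkz f p (C (g.eval α) * ee k κ) := by
  apply mkz_eq_of_dvd
  obtain ⟨q, hq⟩ := X_sub_C_dvd_sub_C_eval (a := α) (p := g)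
  refine ⟨C κ * q, ?_⟩
  rw [← sub_mul, hq, hk]
  ring

lemma ee_idem (hk : fz f p = (X - C α) * k) (hκ : κ * k.eval α = 1) :
    mkz f p (ee k κ) * mkz f p (ee k κ) = mkz f p (ee k κ) := by
  rw [← map_mul, ee_ann hk, eval_mul, eval_C, hκ, C_1, one_mul]

/-- The element which is `c` at the root `α` and `1` elsewhere. -/
noncomputable def PP (f : ℤ[X]) (k : ℤ_[p][X]) (κ : ℤ_[p]) (c : ℚ_[p]) : AdjoinRoot (fq f p) :=
  1 + (mkq f p (C c) - 1) * mkz f p (ee k κ)

lemma PP_mul (hk : fz f p = (X - C α) * k) (hκ : κ * k.eval α = 1) (c d : ℚ_[p]) :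
    PP f k κ c * PP f k κ d = PP f k κ (c * d) := by
  unfold PP
  rw [C_mul, map_mul (mkq f p)]
  linear_combination (mkq f p (C c) - 1) * (mkq f p (C d) - 1) * ee_idem hk hκ

lemma PP_one : PP f k κ (1 : ℚ_[p]) = 1 := by
  unfold PP
  rw [C_1, map_one, sub_self, zero_mul, add_zero]

/-- Splitting an integral element into its part at `α` and a unit. -/
lemma PP_decomp (hk : fz f p = (X - C α) * k) (hκ : κ * k.eval α = 1) (g : ℤ_[p][X])
    {q v : ℤ_[p]} (h : g.eval α = q * v) :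
    mkz f p g = PP f k κ (q : ℚ_[p]) * mkz f p (C v * ee k κ + g * (1 - ee k κ)) := by
  have h1 := ee_ann (κ := κ) hk g
  have h2 := ee_idem hk hκ
  have h3 : mkq f p (C (q : ℚ_[p])) = mkz f p (C q) := by
    change _ = mkq f p ((C q).map (algebraMap ℤ_[p] ℚ_[p]))
    rw [map_C]
    rfl
  unfold PP
  rw [h3]
  rw [h, C_mul, map_mul, map_mul (mkz f p) (C q * C v), map_mul (mkz f p) (C q)] at h1
  simp only [map_add, map_mul, map_sub, map_one] at h1 h2 ⊢
  linear_combination h1 + (mkz f p (C q) - 1) * (mkz f p g - mkz f p (C v)) * h2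

lemma PP_coprime (hk : fz f p = (X - C α) * k)
    (hκ : κ * k.eval α = 1) (g : ℤ_[p][X]) {v : ℤ_[p]} (hv : IsUnit v)
    (hg : IsCoprime (g.map (rd p)) (k.map (rd p))) :
    IsCoprime ((C v * ee k κ + g * (1 - ee k κ)).map (rd p)) (fp f p) := by
  have hf : fp f p = (X - C (rd p α)) * k.map (rd p) := by
    rw [← fz_map, hk, Polynomial.map_mul, Polynomial.map_sub, map_X, map_C]
  rw [hf]
  apply IsCoprime.mul_right
  · -- at the root
    have h1 : ((C v * ee k κ + g * (1 - ee k κ)).map (rd p)).eval (rd p α) = rd p v := by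
      rw [eval_map_apply]
      congr 1
      simp only [eval_add, eval_mul, eval_C, eval_sub, eval_one]
      linear_combination (v - g.eval α) * hκ
    obtain ⟨q, hq⟩ := X_sub_C_dvd_sub_C_eval (a := rd p α)
      (p := (C v * ee k κ + g * (1 - ee k κ)).map (rd p))
    rw [h1] at hq
    have h2 : (C v * ee k κ + g * (1 - ee k κ)).map (rd p) = C (rd p v) + (X - C (rd p α)) * q := by
      rw [← hq]; ring
    rw [h2]
    have h3 : IsCoprime (C (rd p v)) (X - C (rd p α)) := by
      have : IsUnit (C (rd p v) : (ZMod p)[X]) :=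
        Polynomial.isUnit_C.2 (isUnit_iff_ne_zero.2 (rd_ne_zero_iff.2 hv))
      obtain ⟨w, hw⟩ := this.exists_left_inv
      exact ⟨w, 0, by rw [hw]; ring⟩
    exact h3.add_mul_left_left _
  · -- modulo `k`
    have h2 : (C v * ee k κ + g * (1 - ee k κ)).map (rd p) = g.map (rd p) +
        k.map (rd p) * (C (rd p κ) * (C (rd p v) - g.map (rd p))) := by
      simp only [Polynomial.map_add, Polynomial.map_mul, Polynomial.map_sub, Polynomial.map_one,
        map_C]
      ring
    rw [h2]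
    exact hg.add_mul_left_left _

end comp

end Stoll308.Gen
end

section
set_option autoImplicit false

/-!
The class of `x - θ` for a point `(x, y)` of `t y² = f(x)` over `ℚ_p`, `p` a good prime.
-/

namespace Stoll308.Gen

open Polynomial Finset NumberTheorySymbols

variable {p : ℕ} [hp : Fact p.Prime] {f : ℤ[X]}

lemma p_ne_zero_q : (p : ℚ_[p]) ≠ 0 := by exact_mod_cast hp.out.ne_zero

lemma exists_unit_mul (x : ℚ_[p]) (hx : x ≠ 0) :
    ∃ u : ℤ_[p], IsUnit u ∧ x = (p : ℚ_[p]) ^ x.valuation * u := by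
  have hp0 : (0 : ℝ) < p := by exact_mod_cast hp.out.pos
  have h1 : ‖x * (p : ℚ_[p]) ^ (-x.valuation)‖ = 1 := by
    rw [norm_mul, Padic.norm_p_zpow, Padic.norm_eq_zpow_neg_valuation hx, neg_neg, ← zpow_add₀ hp0.ne']
    simp
  refine ⟨(PadicInt.mkUnits h1 : ℤ_[p]), Units.isUnit _, ?_⟩
  rw [PadicInt.mkUnits_eq, mul_left_comm, ← zpow_add₀ p_ne_zero_q]
  simp

lemma valuation_unit {u : ℤ_[p]} (hu : IsUnit u) : (u : ℚ_[p]).valuation = 0 := by
  have h1 := PadicInt.isUnit_iff.1 hu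
  have hu0 : (u : ℚ_[p]) ≠ 0 := by
    rw [PadicInt.coe_ne_zero]
    rintro rfl
    exact not_isUnit_zero hu
  have h2 := Padic.norm_eq_zpow_neg_valuation hu0
  rw [← PadicInt.norm_def, h1] at h2
  have hp1 : (1 : ℝ) < p := by exact_mod_cast hp.out.one_lt
  have h3 : (p : ℝ) ^ (0 : ℤ) = (p : ℝ) ^ (-(u : ℚ_[p]).valuation) := by simpa using h2
  have h4 := zpow_right_injective₀ (by linarith) hp1.ne' h3
  omega

lemma unit_ne_zero {u : ℤ_[p]} (hu : IsUnit u) : (u : ℚ_[p]) ≠ 0 := by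
  rw [PadicInt.coe_ne_zero]
  rintro rfl
  exact not_isUnit_zero hu

lemma valuation_unit_mul {u : ℤ_[p]} (hu : IsUnit u) (m : ℤ) :
    ((p : ℚ_[p]) ^ m * u).valuation = m := by
  rw [Padic.valuation_mul (zpow_ne_zero _ p_ne_zero_q) (unit_ne_zero hu), valuation_unit hu]
  simp

lemma mem_int_of_valuation {x : ℚ_[p]} (hx : 0 ≤ x.valuation) : ∃ x₀ : ℤ_[p], (x₀ : ℚ_[p]) = x := by
  by_cases h0 : x = 0
  · exact ⟨0, by rw [h0]; rfl⟩
  obtain ⟨u, hu, h⟩ := exists_unit_mul x h0
  obtain ⟨m, hm⟩ := Int.eq_ofNat_of_zero_le hx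
  refine ⟨(p : ℤ_[p]) ^ m * u, ?_⟩
  rw [h, hm]
  push_cast
  rw [zpow_natCast]

lemma fq_eval_coe (x₀ : ℤ_[p]) : (fq f p).eval (x₀ : ℚ_[p]) = (((fz f p).eval x₀ : ℤ_[p]) : ℚ_[p]) := by
  rw [← fz_map']
  exact eval_map_apply (algebraMap ℤ_[p] ℚ_[p]) x₀

lemma mkz_apply (q : ℤ_[p][X]) : mkz f p q = mkq f p (q.map (algebraMap ℤ_[p] ℚ_[p])) := rfl

lemma mkz_X_sub (x₀ : ℤ_[p]) : mkq f p (C (x₀ : ℚ_[p]) - X) = mkz f p (C x₀ - X) := by
  rw [mkz_apply, Polynomial.map_sub, map_C, map_X]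
  rfl

/-- The point is not integral. -/
lemma caseA (hf : f.Monic) {x : ℚ_[p]} (hx : x.valuation < 0) :
    ((fq f p).eval x).valuation = x.valuation * f.natDegree ∧
    ∃ u, UU f p u ∧ mkq f p (C x - X) = mkq f p (C ((p : ℚ_[p]) ^ x.valuation)) * u := by
  have hx0 : x ≠ 0 := by
    rintro rfl
    simp at hx
  obtain ⟨x₀, hx₀, hxx⟩ := exists_unit_mul x hx0
  set m : ℕ := (-x.valuation).toNat with hm
  have hmv : x.valuation = -(m : ℤ) := by omega
  have hm1 : 1 ≤ m := by omega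
  have hpr : rd p ((p : ℤ_[p]) ^ m) = 0 := by
    rw [map_pow, map_natCast, CharP.cast_eq_zero, zero_pow (by omega)]
  have hxx' : (p : ℚ_[p]) ^ m * x = x₀ := by
    rw [hxx, hmv, ← mul_assoc, ← zpow_natCast, ← zpow_add₀ p_ne_zero_q]
    simp
  constructor
  · -- the valuation of `f(x)`
    have h1 := scaleRoots_eval₂_mul (p := fz f p) (algebraMap ℤ_[p] ℚ_[p]) x ((p : ℤ_[p]) ^ m)
    rw [eval₂_eq_eval_map, eval₂_eq_eval_map, fz_map', hf.natDegree_map] at h1
    have h2 : algebraMap ℤ_[p] ℚ_[p] ((p : ℤ_[p]) ^ m) = (p : ℚ_[p]) ^ m := by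
      simp
    rw [h2, hxx'] at h1
    have h3 : (((fz f p).scaleRoots ((p : ℤ_[p]) ^ m)).map (algebraMap ℤ_[p] ℚ_[p])).eval
        (x₀ : ℚ_[p]) = ((((fz f p).scaleRoots ((p : ℤ_[p]) ^ m)).eval x₀ : ℤ_[p]) : ℚ_[p]) :=
      eval_map_apply (algebraMap ℤ_[p] ℚ_[p]) x₀
    rw [h3] at h1
    have h4 : IsUnit (((fz f p).scaleRoots ((p : ℤ_[p]) ^ m)).eval x₀) := by
      rw [← rd_ne_zero_iff, ← eval_map_apply, map_scaleRoots, hpr, scaleRoots_zero, fz_map]
      · rw [eval_smul, eval_pow, eval_X, (hf.map (Int.castRingHom (ZMod p))).leadingCoeff, one_smul]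
        exact pow_ne_zero _ (rd_ne_zero_iff.2 hx₀)
      · rw [(hf.map (Int.castRingHom ℤ_[p])).leadingCoeff, map_one]
        exact one_ne_zero
    have h5 : (fq f p).eval x = (p : ℚ_[p]) ^ (-(m : ℤ) * f.natDegree) *
        ((((fz f p).scaleRoots ((p : ℤ_[p]) ^ m)).eval x₀ : ℤ_[p]) : ℚ_[p]) := by
      rw [h1, ← mul_assoc, ← pow_mul, ← zpow_natCast, ← zpow_add₀ p_ne_zero_q]
      have : (-(m : ℤ) * f.natDegree + ((m * f.natDegree : ℕ) : ℤ)) = 0 := by
        push_cast; ring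
      rw [this, zpow_zero, one_mul]
    rw [h5, valuation_unit_mul h4, hmv]
  · refine ⟨mkz f p (C x₀ - C ((p : ℤ_[p]) ^ m) * X), ⟨_, ?_, rfl⟩, ?_⟩
    · rw [Polynomial.map_sub, Polynomial.map_mul, map_C, map_C, hpr, C_0, zero_mul, sub_zero]
      have : IsUnit (Polynomial.C (rd p x₀) : (ZMod p)[X]) :=
        Polynomial.isUnit_C.2 (isUnit_iff_ne_zero.2 (rd_ne_zero_iff.2 hx₀))
      obtain ⟨w, hw⟩ := this.exists_left_inv
      exact ⟨w, 0, by rw [hw]; ring⟩
    · rw [mkz_apply, ← map_mul]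
      congr 1
      rw [Polynomial.map_sub, Polynomial.map_mul, map_C, map_C, map_X, mul_sub, ← mul_assoc,
        ← C_mul, ← C_mul]
      have h6 : (p : ℚ_[p]) ^ x.valuation * algebraMap ℤ_[p] ℚ_[p] x₀ = x := hxx.symm
      have h7 : (p : ℚ_[p]) ^ x.valuation * algebraMap ℤ_[p] ℚ_[p] ((p : ℤ_[p]) ^ m) = 1 := by
        rw [map_pow, map_natCast, hmv, ← zpow_natCast, ← zpow_add₀ p_ne_zero_q]
        simp
      rw [h6, h7, C_1, one_mul]

/-- The point is integral and does not reduce to a Weierstrass point. -/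
lemma caseB (hf : f.Monic) {x₀ : ℤ_[p]} (hx : IsUnit ((fz f p).eval x₀)) :
    UU f p (mkq f p (C (x₀ : ℚ_[p]) - X)) := by
  rw [mkz_X_sub]
  refine ⟨_, ?_, rfl⟩
  have hm : (fp f p).Monic := hf.map _
  rw [Polynomial.map_sub, map_C, map_X]
  apply IsCoprime.symm
  have h1 : IsUnit (resultant (fp f p) (X - C (rd p x₀))) := by
    have h2 := resultant_X_sub_C_right (fp f p) (fp f p).natDegree (rd p x₀) le_rfl
    rw [res_pad (fp f p) _ hm 1 (natDegree_X_sub_C_le _)] at h2
    rw [h2]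
    apply IsUnit.mul
    · exact isUnit_one.neg.pow _
    · rw [isUnit_iff_ne_zero, ← fz_map, eval_map_apply]
      exact rd_ne_zero_iff.2 hx
  have h3 := (isUnit_resultant_iff_isCoprime hm).1 h1
  have h4 : C (rd p x₀) - X = -(X - C (rd p x₀)) := by ring
  rw [h4]
  exact h3.neg_right

/-- The point is integral and reduces to a Weierstrass point. -/
lemma caseC (hsep : (fp f p).Separable) {x₀ : ℤ_[p]}
    (hx : ¬ IsUnit ((fz f p).eval x₀)) (hx0 : (fz f p).eval x₀ ≠ 0) :
    ∃ α : ℤ_[p], (fz f p).eval α = 0 ∧ rd p x₀ = rd p α ∧ ∀ (k : ℤ_[p][X]) (κ : ℤ_[p]), k.Monic →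
      fz f p = (X - C α) * k → κ * k.eval α = 1 →
        ∃ (m : ℕ) (v : ℤ_[p]), 1 ≤ m ∧ IsUnit v ∧ x₀ - α = p ^ m * v ∧
          ((fq f p).eval (x₀ : ℚ_[p])).valuation = m ∧
          ∃ u, UU f p u ∧ mkq f p (C (x₀ : ℚ_[p]) - X) = PP f k κ ((p : ℚ_[p]) ^ m) * u := by
  have h0 : (fp f p).eval (rd p x₀) = 0 := by
    rw [← fz_map, eval_map_apply]
    by_contra h
    exact hx (rd_ne_zero_iff.1 h)
  have ha : (rd p x₀).val ∈ R f p := by
    rw [mem_R, ZMod.natCast_zmod_val]
    exact ⟨ZMod.val_lt _, h0⟩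
  obtain ⟨α, hα0, hα⟩ := exists_lift hsep ha
  rw [ZMod.natCast_zmod_val] at hα
  refine ⟨α, hα0, hα.symm, fun k κ hkm hk hκ => ?_⟩
  have hne : x₀ - α ≠ 0 := by
    intro h
    rw [sub_eq_zero] at h
    exact hx0 (h ▸ hα0)
  have hneq : ((x₀ - α : ℤ_[p]) : ℚ_[p]) ≠ 0 := PadicInt.coe_ne_zero.2 hne
  obtain ⟨v, hv, hxv⟩ := exists_unit_mul _ hneq
  obtain ⟨m, hm⟩ := Int.eq_ofNat_of_zero_le (PadicInt.valuation_coe_nonneg (x := x₀ - α))
  rw [hm, zpow_natCast] at hxv
  have hxv' : x₀ - α = p ^ m * v := by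
    apply PadicInt.ext
    rw [hxv]
    push_cast
    rfl
  have hm1 : 1 ≤ m := by
    rcases Nat.eq_zero_or_pos m with h | h
    · exfalso
      rw [h, pow_zero, one_mul] at hxv'
      have h1 : rd p (x₀ - α) = 0 := by rw [map_sub, hα, sub_self]
      rw [hxv'] at h1
      exact rd_ne_zero_iff.2 hv h1
    · exact h
  have hkx : IsUnit (k.eval x₀) := factor_eval_unit hsep hk hα.symm
  refine ⟨m, v, hm1, hv, hxv', ?_, ?_⟩
  · rw [fq_eval_coe, hk, eval_mul, eval_sub, eval_X, eval_C, hxv', mul_assoc]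
    push_cast
    have h2 : ((v : ℚ_[p]) * ((k.eval x₀ : ℤ_[p]) : ℚ_[p])) = ((v * k.eval x₀ : ℤ_[p]) : ℚ_[p]) := by
      push_cast; rfl
    rw [h2, ← zpow_natCast, valuation_unit_mul (hv.mul hkx)]
  · refine ⟨_, ⟨_, PP_coprime hk hκ (C x₀ - X) hv ?_, rfl⟩, ?_⟩
    · -- coprime to `k`
      have hkm' : (k.map (rd p)).Monic := hkm.map _
      rw [Polynomial.map_sub, map_C, map_X]
      apply IsCoprime.symm
      have h1 : IsUnit (resultant (k.map (rd p)) (X - C (rd p x₀))) := by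
        have h2 := resultant_X_sub_C_right (k.map (rd p)) (k.map (rd p)).natDegree (rd p x₀) le_rfl
        rw [res_pad (k.map (rd p)) _ hkm' 1 (natDegree_X_sub_C_le _)] at h2
        rw [h2]
        apply IsUnit.mul
        · exact isUnit_one.neg.pow _
        · rw [isUnit_iff_ne_zero, eval_map_apply]
          exact rd_ne_zero_iff.2 hkx
      have h3 := (isUnit_resultant_iff_isCoprime hkm').1 h1
      have h4 : C (rd p x₀) - X = -(X - C (rd p x₀)) := by ring
      rw [h4]
      exact h3.neg_right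
    · rw [mkz_X_sub, PP_decomp hk hκ (C x₀ - X) (q := (p : ℤ_[p]) ^ m) (v := v) (by
        rw [eval_sub, eval_C, eval_X, hxv'])]
      push_cast
      rfl

end Stoll308.Gen
end

section
set_option autoImplicit false

/-!
Finite sets of functions with finite support and the sum-product formula.
-/

namespace Stoll308.Gen

open Finset

section piF

variable {α : Type*}

open Classical in
/-- The functions with values in `t p` for `p ∈ S` and the value `d` outside `S`. -/
noncomputable def piF (S : Finset ℕ) (t : ℕ → Finset α) (d : α) : Finset (ℕ → α) :=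
  (Fintype.piFinset (fun p : S => t p)).image (fun r q => if h : q ∈ S then r ⟨q, h⟩ else d)

lemma mem_piF {S : Finset ℕ} {t : ℕ → Finset α} {d : α} {x : ℕ → α} :
    x ∈ piF S t d ↔ (∀ p ∈ S, x p ∈ t p) ∧ ∀ p, p ∉ S → x p = d := by
  classical
  unfold piF
  rw [mem_image]
  constructor
  · rintro ⟨r, hr, rfl⟩
    rw [Fintype.mem_piFinset] at hr
    refine ⟨fun p hp => ?_, fun p hp => ?_⟩
    · simp only [hp, dite_true]
      exact hr ⟨p, hp⟩
    · simp only [hp, dite_false]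
  · rintro ⟨h1, h2⟩
    refine ⟨fun p => x p, ?_, ?_⟩
    · rw [Fintype.mem_piFinset]
      exact fun p => h1 p p.2
    · funext q
      by_cases hq : q ∈ S
      · simp only [hq, dite_true]
      · simp only [hq, dite_false]
        exact (h2 q hq).symm

lemma sum_prod_piF (S : Finset ℕ) (t : ℕ → Finset α) (d : α) (f : ℕ → α → ℝ) :
    ∑ x ∈ piF S t d, ∏ p ∈ S, f p (x p) = ∏ p ∈ S, ∑ a ∈ t p, f p a := by
  classical
  unfold piF
  rw [sum_image]
  · rw [← prod_coe_sort S (fun p => ∑ a ∈ t p, f p a), prod_univ_sum]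
    refine sum_congr rfl fun r _ => ?_
    rw [← prod_coe_sort S]
    refine prod_congr rfl fun p _ => ?_
    simp only [p.2, dite_true, Subtype.coe_eta]
  · intro r _ r' _ h
    funext p
    have := congrFun h p
    simpa only [p.2, dite_true, Subtype.coe_eta] using this

lemma card_piF (S : Finset ℕ) (t : ℕ → Finset α) (d : α) :
    (piF S t d).card = ∏ p ∈ S, (t p).card := by
  have h := sum_prod_piF S t d (fun _ _ => 1)
  simp only [prod_const_one, sum_const, nsmul_eq_mul, mul_one] at h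
  exact_mod_cast h

end piF

/-- The data `r` over a set of primes `S`: `r p = 0`, or `r p = ρ + 1` where `ρ` is a root of `f`
modulo `p`. -/
noncomputable def Dat (f : Polynomial ℤ) (S : Finset ℕ) : Finset (ℕ → ℕ) :=
  piF S (fun p => insert 0 ((R f p).image Nat.succ)) 0

/-- The support of a datum. -/
def supp (S : Finset ℕ) (r : ℕ → ℕ) : Finset ℕ := S.filter fun p => r p ≠ 0

/-- The roots of a datum. -/
def rt (r : ℕ → ℕ) : ℕ → ℕ := fun p => r p - 1

lemma sum_insert_succ (s : Finset ℕ) (w : ℕ → ℝ) :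
    ∑ x ∈ insert 0 (s.image Nat.succ), w x = w 0 + ∑ a ∈ s, w (a + 1) := by
  rw [sum_insert]
  · rw [sum_image (fun _ _ _ _ h => Nat.succ_injective h)]
  · intro h
    obtain ⟨a, _, ha⟩ := mem_image.1 h
    exact Nat.succ_ne_zero a ha

lemma sum_Dat (f : Polynomial ℤ) (S : Finset ℕ) (w : ℕ → ℕ → ℝ) :
    ∑ r ∈ Dat f S, ∏ p ∈ S, w p (r p) = ∏ p ∈ S, (w p 0 + ∑ a ∈ R f p, w p (a + 1)) := by
  unfold Dat
  rw [sum_prod_piF]
  exact prod_congr rfl fun p _ => sum_insert_succ _ _

lemma rt_mem {f : Polynomial ℤ} {S : Finset ℕ} {r : ℕ → ℕ} (hr : r ∈ Dat f S) {p : ℕ}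
    (hp : p ∈ supp S r) : rt r p ∈ R f p ∧ r p = rt r p + 1 := by
  have h := (mem_piF.1 hr).1 p (mem_filter.1 hp).1
  rcases mem_insert.1 h with h | h
  · exact absurd h (mem_filter.1 hp).2
  · obtain ⟨a, ha, ha'⟩ := mem_image.1 h
    have : rt r p = a := by
      unfold rt
      omega
    rw [this]
    exact ⟨ha, by omega⟩

/-- The product over the support as a product over `S`. -/
lemma prod_supp (S : Finset ℕ) (r : ℕ → ℕ) (w : ℕ → ℝ) :
    ∏ p ∈ supp S r, w p = ∏ p ∈ S, (if r p = 0 then 1 else w p) := by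
  unfold supp
  rw [prod_filter]
  refine prod_congr rfl fun p _ => ?_
  by_cases h : r p = 0 <;> simp [h]

end Stoll308.Gen
end

section
set_option autoImplicit false

/-!
Sums over boxes of products of periodic functions.
-/

namespace Stoll308.Gen

open Finset

variable {n : ℕ}

/-- The box `|g_i| ≤ B`. -/
noncomputable def bx (n B : ℕ) : Finset (Fin n → ℤ) :=
  Fintype.piFinset fun _ => Icc (-(B : ℤ)) B

lemma mem_bx {B : ℕ} {g : Fin n → ℤ} : g ∈ bx n B ↔ ∀ i, |g i| ≤ B := by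
  unfold bx
  rw [Fintype.mem_piFinset]
  refine forall_congr' fun i => ?_
  rw [mem_Icc, abs_le]

lemma card_bx (n B : ℕ) : (bx n B).card = (2 * B + 1) ^ n := by
  unfold bx
  rw [Fintype.card_piFinset, prod_const, card_univ, Fintype.card_fin, Int.card_Icc]
  congr 1
  omega

/-- `F` depends only on the residues modulo `q`. -/
def Per (q : ℕ) (F : (Fin n → ℤ) → ℝ) : Prop :=
  ∀ g h : Fin n → ℤ, (∀ i, (q : ℤ) ∣ g i - h i) → F g = F h

lemma card_face (B w : ℕ) (lo hi : ℤ) (hw : hi - lo + 1 ≤ w) (i : Fin n) :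
    ((bx n B).filter fun g => lo ≤ g i ∧ g i ≤ hi).card ≤ w * (2 * B + 1) ^ (n - 1) := by
  classical
  have hsub : ((bx n B).filter fun g => lo ≤ g i ∧ g i ≤ hi) ⊆
      Fintype.piFinset (fun j : Fin n => if j = i then Icc lo hi else Icc (-(B : ℤ)) B) := by
    intro g hg
    rw [mem_filter, mem_bx] at hg
    rw [Fintype.mem_piFinset]
    intro j
    by_cases hj : j = i
    · rw [if_pos hj, hj, mem_Icc]
      exact hg.2
    · rw [if_neg hj, mem_Icc, ← abs_le]
      exact hg.1 j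
  refine (card_le_card hsub).trans ?_
  rw [Fintype.card_piFinset]
  have h1 : ∀ j : Fin n, (if j = i then Icc lo hi else Icc (-(B : ℤ)) B).card ≤
      if j = i then w else 2 * B + 1 := by
    intro j
    by_cases hj : j = i
    · rw [if_pos hj, if_pos hj, Int.card_Icc]
      omega
    · rw [if_neg hj, if_neg hj, Int.card_Icc]
      omega
  refine (prod_le_prod' fun j _ => h1 j).trans ?_
  rw [prod_ite, prod_const, prod_const]
  have e1 : (univ.filter fun j : Fin n => j = i).card = 1 := by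
    rw [filter_eq' univ i, if_pos (mem_univ i), card_singleton]
  have e2 : (univ.filter fun j : Fin n => ¬ j = i).card = n - 1 := by
    rw [filter_not, card_sdiff_of_subset (filter_subset _ _), e1, card_univ, Fintype.card_fin]
  rw [e1, e2, pow_one]

/-- The sum over a shifted box differs little from the sum over the box. -/
lemma shift_bx (B q : ℕ) (G : (Fin n → ℤ) → ℝ) (hG : ∀ g, |G g| ≤ 1) (w : Fin n → ℤ)
    (hw0 : ∀ i, 0 ≤ w i) (hw : ∀ i, w i ≤ q) :
    |∑ g ∈ bx n B, G (g + w) - ∑ g ∈ bx n B, G g| ≤ 2 * (n * q * (2 * B + 1) ^ (n - 1)) := by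
  classical
  have e1 : ∑ g ∈ bx n B, G (g + w) =
      ∑ g ∈ (bx n B).filter (fun g => g + w ∈ bx n B), G (g + w) +
      ∑ g ∈ (bx n B).filter (fun g => ¬ g + w ∈ bx n B), G (g + w) :=
    (sum_filter_add_sum_filter_not _ _ _).symm
  have e2 : ∑ g ∈ bx n B, G g =
      ∑ g ∈ (bx n B).filter (fun g => g - w ∈ bx n B), G g +
      ∑ g ∈ (bx n B).filter (fun g => ¬ g - w ∈ bx n B), G g :=
    (sum_filter_add_sum_filter_not _ _ _).symm
  have e3 : ∑ g ∈ (bx n B).filter (fun g => g + w ∈ bx n B), G (g + w) =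
      ∑ g ∈ (bx n B).filter (fun g => g - w ∈ bx n B), G g := by
    refine sum_bij (fun g _ => g + w) ?_ ?_ ?_ ?_
    · intro g hg
      rw [mem_filter] at hg ⊢
      refine ⟨hg.2, ?_⟩
      rw [add_sub_cancel_right]
      exact hg.1
    · intro g _ g' _ h
      exact add_right_cancel h
    · intro g hg
      rw [mem_filter] at hg
      refine ⟨g - w, ?_, sub_add_cancel g w⟩
      rw [mem_filter, sub_add_cancel]
      exact ⟨hg.2, hg.1⟩
    · intro g _
      rfl
  have hb : ∀ (s : Finset (Fin n → ℤ)) (G' : (Fin n → ℤ) → ℝ) (hG' : ∀ g, |G' g| ≤ 1)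
      (hs : s.card ≤ n * (q * (2 * B + 1) ^ (n - 1))),
      |∑ g ∈ s, G' g| ≤ n * q * (2 * B + 1) ^ (n - 1) := by
    intro s G' hG' hs
    refine (abs_sum_le_sum_abs _ _).trans ((sum_le_sum fun g _ => hG' g).trans ?_)
    rw [sum_const, nsmul_eq_mul, mul_one]
    have : (s.card : ℝ) ≤ ((n * (q * (2 * B + 1) ^ (n - 1)) : ℕ) : ℝ) := by exact_mod_cast hs
    refine this.trans (le_of_eq ?_)
    push_cast
    ring
  have c1 : ((bx n B).filter fun g => ¬ g + w ∈ bx n B).card ≤
      n * (q * (2 * B + 1) ^ (n - 1)) := by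
    have hsub : ((bx n B).filter fun g => ¬ g + w ∈ bx n B) ⊆
        univ.biUnion fun i : Fin n =>
          (bx n B).filter fun g => (B : ℤ) - w i + 1 ≤ g i ∧ g i ≤ B := by
      intro g hg
      rw [mem_filter] at hg
      have h2 := hg.2
      rw [mem_bx] at h2
      push Not at h2
      obtain ⟨i, hi⟩ := h2
      rw [mem_biUnion]
      refine ⟨i, mem_univ i, ?_⟩
      rw [mem_filter]
      refine ⟨hg.1, ?_⟩
      have h3 := abs_le.1 (mem_bx.1 hg.1 i)
      rw [Pi.add_apply] at hi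
      have h4 := hw0 i
      rcases lt_abs.1 hi with h | h
      · constructor <;> omega
      · omega
    refine (card_le_card hsub).trans (card_biUnion_le.trans ?_)
    refine (sum_le_sum fun i _ => card_face B q _ _ ?_ i).trans ?_
    · have := hw i
      omega
    · rw [sum_const, card_univ, Fintype.card_fin, smul_eq_mul]
  have c2 : ((bx n B).filter fun g => ¬ g - w ∈ bx n B).card ≤
      n * (q * (2 * B + 1) ^ (n - 1)) := by
    have hsub : ((bx n B).filter fun g => ¬ g - w ∈ bx n B) ⊆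
        univ.biUnion fun i : Fin n =>
          (bx n B).filter fun g => -(B : ℤ) ≤ g i ∧ g i ≤ -(B : ℤ) + w i - 1 := by
      intro g hg
      rw [mem_filter] at hg
      have h2 := hg.2
      rw [mem_bx] at h2
      push Not at h2
      obtain ⟨i, hi⟩ := h2
      rw [mem_biUnion]
      refine ⟨i, mem_univ i, ?_⟩
      rw [mem_filter]
      refine ⟨hg.1, ?_⟩
      have h3 := abs_le.1 (mem_bx.1 hg.1 i)
      rw [Pi.sub_apply] at hi
      have h4 := hw0 i
      rcases lt_abs.1 hi with h | h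
      · omega
      · constructor <;> omega
    refine (card_le_card hsub).trans (card_biUnion_le.trans ?_)
    refine (sum_le_sum fun i _ => card_face B q _ _ ?_ i).trans ?_
    · have := hw i
      omega
    · rw [sum_const, card_univ, Fintype.card_fin, smul_eq_mul]
  rw [e1, e2, e3, add_sub_add_left_eq_sub]
  have h1 := hb _ (fun g => G (g + w)) (fun g => hG _) c1
  have h2 := hb _ G hG c2
  refine (abs_sub _ _).trans ?_
  linarith

/-- The sum of a function with mean value `0` over a shifted and dilated system of residues. -/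
lemma sum_shift_eq_zero {p q : ℕ} (hp : p.Prime) (hpq : Nat.Coprime p q)
    (F : (Fin n → ℤ) → ℝ) (hF : Per p F)
    (h0 : ∑ v : Fin n → Fin p, F (fun i => ((v i : ℕ) : ℤ)) = 0) (g : Fin n → ℤ) :
    ∑ v : Fin n → Fin p, F (g + fun i => (q : ℤ) * ((v i : ℕ) : ℤ)) = 0 := by
  classical
  have : Fact p.Prime := ⟨hp⟩
  have : NeZero p := ⟨hp.ne_zero⟩
  -- transport to `ZMod p`
  let Fb : (Fin n → ZMod p) → ℝ := fun v => F (fun i => ((v i).val : ℤ))
  have hFb : ∀ g : Fin n → ℤ, F g = Fb (fun i => ((g i : ℤ) : ZMod p)) := by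
    intro g
    refine hF _ _ fun i => ?_
    rw [← ZMod.intCast_eq_intCast_iff_dvd_sub]
    rw [Int.cast_natCast, ZMod.natCast_zmod_val]
  let e : (Fin n → Fin p) ≃ (Fin n → ZMod p) :=
    Equiv.arrowCongr (Equiv.refl _) (ZMod.finEquiv p).toEquiv
  have he : ∀ (v : Fin n → Fin p) (i : Fin n), e v i = (((v i : ℕ) : ℤ) : ZMod p) := by
    intro v i
    have h : e v i = (ZMod.finEquiv p) (v i) := rfl
    have hval : ((ZMod.finEquiv p) (v i)).val = (v i : ℕ) := by
      revert v i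
      cases p with
      | zero => exact absurd rfl hp.ne_zero
      | succ k => intros; rfl
    rw [h, Int.cast_natCast, ← hval, ZMod.natCast_zmod_val]
  have hq : (q : ZMod p) ≠ 0 := by
    intro h
    rw [ZMod.natCast_eq_zero_iff] at h
    have := Nat.dvd_gcd (dvd_refl p) h
    rw [hpq] at this
    exact hp.one_lt.ne' (Nat.dvd_one.1 this)
  have h1 : ∑ v : Fin n → ZMod p, Fb v = 0 := by
    rw [← h0, ← Equiv.sum_comp e]
    refine sum_congr rfl fun v _ => ?_
    rw [hFb]
    congr 1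
    funext i
    exact he v i
  let e2 : (Fin n → ZMod p) ≃ (Fin n → ZMod p) :=
    Equiv.arrowCongr (Equiv.refl _) (Equiv.mulLeft₀ (q : ZMod p) hq)
  have he2 : ∀ (v : Fin n → ZMod p) (i : Fin n), e2 v i = q * v i := fun v i => rfl
  have h2 : ∑ v : Fin n → ZMod p, Fb ((fun i => ((g i : ℤ) : ZMod p)) + e2 v) = 0 := by
    rw [Equiv.sum_comp e2 (fun v => Fb ((fun i => ((g i : ℤ) : ZMod p)) + v))]
    rw [← h1]
    exact Equiv.sum_comp (Equiv.addLeft (fun i => ((g i : ℤ) : ZMod p))) Fb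
  rw [← h2, ← Equiv.sum_comp e]
  refine sum_congr rfl fun v _ => ?_
  rw [hFb]
  congr 1
  funext i
  rw [Pi.add_apply, Pi.add_apply, he2, he]
  push_cast
  ring

/-- X1: the sum over a box of the product of a function with mean value `0` modulo `p` and a
function modulo `q`, `p ∤ q`. -/
theorem bx_sum {p q : ℕ} (hp : p.Prime) (hq : q ≠ 0) (hpq : Nat.Coprime p q)
    (F H : (Fin n → ℤ) → ℝ) (hF : Per p F) (hH : Per q H) (hF1 : ∀ g, |F g| ≤ 1)
    (hH1 : ∀ g, |H g| ≤ 1)
    (h0 : ∑ v : Fin n → Fin p, F (fun i => ((v i : ℕ) : ℤ)) = 0) (B : ℕ) :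
    |∑ g ∈ bx n B, F g * H g| ≤ 2 * (n * (p * q) * (2 * B + 1) ^ (n - 1)) := by
  classical
  have : NeZero p := ⟨hp.ne_zero⟩
  set E : ℝ := 2 * (n * (p * q) * (2 * B + 1) ^ (n - 1)) with hE
  set S := ∑ g ∈ bx n B, F g * H g with hS
  -- the shifted sums
  have h1 : ∀ v : Fin n → Fin p,
      |∑ g ∈ bx n B, F (g + fun i => (q : ℤ) * ((v i : ℕ) : ℤ)) * H g - S| ≤ E := by
    intro v
    have h := shift_bx B (p * q) (fun g => F g * H g) (fun g => by
      rw [abs_mul]
      exact mul_le_one₀ (hF1 g) (abs_nonneg _) (hH1 g)) (fun i => (q : ℤ) * ((v i : ℕ) : ℤ))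
      (fun i => by positivity) (fun i => by
        have : (v i : ℕ) ≤ p := (v i).2.le
        push_cast
        rw [mul_comm (p : ℤ)]
        exact mul_le_mul_of_nonneg_left (by exact_mod_cast this) (by positivity))
    rw [hE]
    refine le_trans (le_of_eq ?_) (h.trans (le_of_eq ?_))
    · congr 2
      refine sum_congr rfl fun g _ => ?_
      congr 1
      refine hH _ _ fun i => ?_
      rw [Pi.add_apply, sub_add_cancel_left]
      exact (dvd_neg).2 (dvd_mul_right _ _)
    · push_cast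
      ring
  have h2 : ∑ v : Fin n → Fin p, ∑ g ∈ bx n B, F (g + fun i => (q : ℤ) * ((v i : ℕ) : ℤ)) * H g
      = 0 := by
    rw [sum_comm]
    refine sum_eq_zero fun g _ => ?_
    rw [← sum_mul, sum_shift_eq_zero hp hpq F hF h0 g, zero_mul]
  have h3 : |∑ v : Fin n → Fin p, (∑ g ∈ bx n B,
      F (g + fun i => (q : ℤ) * ((v i : ℕ) : ℤ)) * H g - S)| ≤ ∑ _v : Fin n → Fin p, E :=
    (abs_sum_le_sum_abs _ _).trans (sum_le_sum fun v _ => h1 v)
  rw [sum_sub_distrib, h2, zero_sub, abs_neg, sum_const, sum_const, nsmul_eq_mul, nsmul_eq_mul,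
    abs_mul, Nat.abs_cast] at h3
  have hc : (0 : ℝ) < ((univ : Finset (Fin n → Fin p)).card : ℝ) := by
    have : 0 < (univ : Finset (Fin n → Fin p)).card := by
      rw [card_univ]
      exact Fintype.card_pos
    exact_mod_cast this
  exact le_of_mul_le_mul_left h3 hc

lemma Per.prod {D : Finset ℕ} {F : ℕ → (Fin n → ℤ) → ℝ} (hF : ∀ p ∈ D, Per p (F p)) :
    Per (∏ p ∈ D, p) (fun g => ∏ p ∈ D, F p g) := by
  intro g h hgh
  refine prod_congr rfl fun p hp => hF p hp g h fun i => ?_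
  exact dvd_trans (by exact_mod_cast dvd_prod_of_mem (fun p => p) hp) (hgh i)

lemma Per.mul {q q' : ℕ} {F G : (Fin n → ℤ) → ℝ} (hF : Per q F) (hG : Per q' G) :
    Per (q * q') (fun g => F g * G g) := by
  intro g h hgh
  have h1 : F g = F h := hF g h fun i => dvd_trans (by push_cast; exact dvd_mul_right _ _) (hgh i)
  have h2 : G g = G h := hG g h fun i => dvd_trans (by push_cast; exact dvd_mul_left _ _) (hgh i)
  simp only [h1, h2]

lemma abs_prod_le_one {D : Finset ℕ} {F : ℕ → (Fin n → ℤ) → ℝ} (hF : ∀ p ∈ D, ∀ g, |F p g| ≤ 1)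
    (g : Fin n → ℤ) : |∏ p ∈ D, F p g| ≤ 1 := by
  rw [abs_prod]
  exact prod_le_one (fun _ _ => abs_nonneg _) fun p hp => hF p hp g

/-- Two products of functions modulo the primes of two different sets. -/
lemma bx_pair {D D' : Finset ℕ} (hD : ∀ p ∈ D, p.Prime) (hD' : ∀ p ∈ D', p.Prime)
    (F F' : ℕ → (Fin n → ℤ) → ℝ) (hF : ∀ p ∈ D, Per p (F p)) (hF' : ∀ p ∈ D', Per p (F' p))
    (h1 : ∀ p ∈ D, ∀ g, |F p g| ≤ 1) (h1' : ∀ p ∈ D', ∀ g, |F' p g| ≤ 1)
    (h0 : ∀ p ∈ D, ∑ v : Fin n → Fin p, F p (fun i => ((v i : ℕ) : ℤ)) = 0) (B : ℕ)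
    {p : ℕ} (hp : p ∈ D) (hp' : p ∉ D') :
    |∑ g ∈ bx n B, (∏ p ∈ D, F p g) * ∏ p ∈ D', F' p g| ≤
      2 * (n * ((∏ p ∈ D, (p : ℝ)) * ∏ p ∈ D', (p : ℝ)) * (2 * B + 1) ^ (n - 1)) := by
  classical
  have hcop : Nat.Coprime p ((∏ p ∈ D.erase p, p) * ∏ p ∈ D', p) := by
    refine Nat.Coprime.mul_right ?_ ?_
    · refine Nat.Coprime.prod_right fun x hx => ?_
      rw [mem_erase] at hx
      exact (Nat.coprime_primes (hD p hp) (hD x hx.2)).2 (Ne.symm hx.1)
    · refine Nat.Coprime.prod_right fun x hx => ?_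
      refine (Nat.coprime_primes (hD p hp) (hD' x hx)).2 ?_
      rintro rfl
      exact hp' hx
  have hne : (∏ p ∈ D.erase p, p) * ∏ p ∈ D', p ≠ 0 := by
    refine mul_ne_zero ?_ ?_
    · exact prod_ne_zero_iff.2 fun x hx => (hD x (mem_erase.1 hx).2).ne_zero
    · exact prod_ne_zero_iff.2 fun x hx => (hD' x hx).ne_zero
  have h := bx_sum (hD p hp) hne hcop (F p)
    (fun g => (∏ p ∈ D.erase p, F p g) * ∏ p ∈ D', F' p g) (hF p hp)
    (Per.mul (Per.prod fun x hx => hF x (mem_erase.1 hx).2) (Per.prod hF')) (h1 p hp)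
    (fun g => by
      rw [abs_mul]
      exact mul_le_one₀ (abs_prod_le_one (fun x hx => h1 x (mem_erase.1 hx).2) g) (abs_nonneg _)
        (abs_prod_le_one h1' g)) (h0 p hp) B
  refine le_trans (le_of_eq ?_) (h.trans (le_of_eq ?_))
  · congr 1
    refine sum_congr rfl fun g _ => ?_
    rw [← mul_assoc, mul_prod_erase D (fun x => F x g) hp]
  · have e : (∏ p ∈ D, (p : ℝ)) = p * ∏ p ∈ D.erase p, (p : ℝ) :=
      (mul_prod_erase D (fun x => (x : ℝ)) hp).symm
    rw [e]
    push_cast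
    ring

/-- X2: mean square over a box of a linear combination of products of periodic functions. -/
theorem bx_sq {ι : Type*} (I : Finset ι) (γ : ι → ℝ) (D : ι → Finset ℕ)
    (F : ι → ℕ → (Fin n → ℤ) → ℝ) (hD : ∀ i ∈ I, ∀ p ∈ D i, p.Prime)
    (hF : ∀ i ∈ I, ∀ p ∈ D i, Per p (F i p)) (h1 : ∀ i ∈ I, ∀ p ∈ D i, ∀ g, |F i p g| ≤ 1)
    (h0 : ∀ i ∈ I, ∀ p ∈ D i, ∑ v : Fin n → Fin p, F i p (fun i => ((v i : ℕ) : ℤ)) = 0)
    (B : ℕ) :
    ∑ g ∈ bx n B, (∑ i ∈ I, γ i * ∏ p ∈ D i, F i p g) ^ 2 ≤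
      ∑ i ∈ I, ∑ j ∈ I, |γ i| * |γ j| * (if D i = D j then (2 * B + 1 : ℝ) ^ n else
        2 * (n * ((∏ p ∈ D i, (p : ℝ)) * ∏ p ∈ D j, (p : ℝ)) * (2 * B + 1) ^ (n - 1))) := by
  classical
  have e1 : ∑ g ∈ bx n B, (∑ i ∈ I, γ i * ∏ p ∈ D i, F i p g) ^ 2 =
      ∑ i ∈ I, ∑ j ∈ I, γ i * γ j *
        ∑ g ∈ bx n B, (∏ p ∈ D i, F i p g) * ∏ p ∈ D j, F j p g := by
    have e0 : ∀ g ∈ bx n B, (∑ i ∈ I, γ i * ∏ p ∈ D i, F i p g) ^ 2 =
        ∑ i ∈ I, ∑ j ∈ I, (γ i * ∏ p ∈ D i, F i p g) * (γ j * ∏ p ∈ D j, F j p g) := by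
      intro g _
      rw [pow_two, sum_mul_sum]
    rw [sum_congr rfl e0, sum_comm]
    refine sum_congr rfl fun i _ => ?_
    rw [sum_comm]
    refine sum_congr rfl fun j _ => ?_
    rw [mul_sum]
    refine sum_congr rfl fun g _ => ?_
    ring
  rw [e1]
  refine sum_le_sum fun i hi => sum_le_sum fun j hj => ?_
  refine (le_abs_self _).trans ?_
  rw [abs_mul, abs_mul]
  refine mul_le_mul_of_nonneg_left ?_ (mul_nonneg (abs_nonneg _) (abs_nonneg _))
  by_cases hij : D i = D j
  · rw [if_pos hij]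
    refine (abs_sum_le_sum_abs _ _).trans ((sum_le_sum (g := fun _ => (1 : ℝ))
      fun g _ => ?_).trans ?_)
    · rw [abs_mul]
      exact mul_le_one₀ (abs_prod_le_one (h1 i hi) g) (abs_nonneg _)
        (abs_prod_le_one (h1 j hj) g)
    · rw [sum_const, card_bx, nsmul_eq_mul, mul_one]
      push_cast
      exact le_rfl
  · rw [if_neg hij]
    by_cases hsub : D i ⊆ D j
    · obtain ⟨p, hp, hp'⟩ : ∃ p ∈ D j, p ∉ D i := by
        by_contra hcon
        push Not at hcon
        exact hij (Subset.antisymm hsub hcon)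
      have h := bx_pair (hD j hj) (hD i hi) (F j) (F i) (hF j hj) (hF i hi) (h1 j hj) (h1 i hi)
        (h0 j hj) B hp hp'
      refine le_trans (le_of_eq ?_) (h.trans (le_of_eq ?_))
      · congr 1
        exact sum_congr rfl fun g _ => mul_comm _ _
      · ring
    · obtain ⟨p, hp, hp'⟩ := not_subset.1 hsub
      exact bx_pair (hD i hi) (hD j hj) (F i) (F j) (hF i hi) (hF j hj) (h1 i hi) (h1 j hj)
        (h0 i hi) B hp hp'

end Stoll308.Gen
end

section
set_option autoImplicit false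

/-! Mertens' first theorem in residue classes (Shapiro's proof). -/

namespace Stoll308.AP

open Finset Filter Topology
open Pool.Agent.Work.MP_92f640_nt

section char
variable {q : ℕ} [NeZero q] (χ : DirichletCharacter ℂ q)

noncomputable def S (N : ℕ) : ℂ := ∑ n ∈ Ioc 0 N, χ (n : ZMod q)

end char

end Stoll308.AP
end

section
set_option autoImplicit false

/-! Mertens' theorems for functions on the primes with a mean value. -/

namespace Stoll308.AP

open Finset Filter Topology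
open Pool.Agent.Work.MP_40574a_nt

/-- `g` has mean value `κ` on the primes: `∑_{p ≤ N} g(p) log p / p = κ log N + O(1)`. -/
def Mert (g : ℕ → ℝ) (κ : ℝ) : Prop :=
  ∃ C : ℝ, ∀ N : ℕ, |∑ p ∈ (Icc 0 N).filter Nat.Prime, g p * (Real.log p / p) - κ * Real.log N| ≤ C

lemma Mert.add {g h : ℕ → ℝ} {κ μ : ℝ} (hg : Mert g κ) (hh : Mert h μ) :
    Mert (fun p => g p + h p) (κ + μ) := by
  obtain ⟨C, hC⟩ := hg
  obtain ⟨D, hD⟩ := hh
  refine ⟨C + D, fun N => ?_⟩
  have h1 : ∑ p ∈ (Icc 0 N).filter Nat.Prime, (g p + h p) * (Real.log p / p) -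
      (κ + μ) * Real.log N =
      (∑ p ∈ (Icc 0 N).filter Nat.Prime, g p * (Real.log p / p) - κ * Real.log N) +
      (∑ p ∈ (Icc 0 N).filter Nat.Prime, h p * (Real.log p / p) - μ * Real.log N) := by
    simp only [add_mul, sum_add_distrib]; ring
  rw [h1]
  exact (abs_add_le _ _).trans (add_le_add (hC N) (hD N))

lemma Mert.one : Mert (fun _ => 1) 1 := by
  obtain ⟨C, hC, h⟩ := Mertens.mertens_first
  refine ⟨C, fun N => ?_⟩
  rcases Nat.eq_zero_or_pos N with rfl | hN
  · simpa [Finset.filter_singleton, Nat.not_prime_zero] using hC.le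
  · have := h N (by exact_mod_cast hN)
    rw [Mertens.A_nat] at this
    simpa using this

/-- The prime powers contribute a bounded amount. -/
lemma prime_powers : ∃ C : ℝ, 0 ≤ C ∧ ∀ N : ℕ,
    ∑ d ∈ (Ioc 0 N).filter (fun d => ¬ d.Prime), ArithmeticFunction.vonMangoldt d / d ≤ C := by
  obtain ⟨C, hC0, hC⟩ := Mertens.lower_nat
  have hlog4 : 0 ≤ Real.log 4 := Real.log_nonneg (by norm_num)
  refine ⟨C + (Real.log 4 + 4), by positivity, fun N => ?_⟩
  rcases Nat.eq_zero_or_pos N with rfl | hN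
  · simp; positivity
  have hNr : (0 : ℝ) < N := by exact_mod_cast hN
  have h1 : (N : ℝ) * ∑ d ∈ Ioc 0 N, ArithmeticFunction.vonMangoldt d / d ≤
      N * Real.log N + (Real.log 4 + 4) * N := by
    have h2 : ∑ d ∈ Ioc 0 N, ArithmeticFunction.vonMangoldt d * ((N / d : ℕ) : ℝ) ≤
        N * Real.log N := by
      rw [← ArithmeticFunction.sum_Ioc_mul_zeta_eq_sum, ArithmeticFunction.vonMangoldt_mul_zeta]
      calc ∑ n ∈ Ioc 0 N, ArithmeticFunction.log n ≤ ∑ n ∈ Ioc 0 N, Real.log N := by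
            refine sum_le_sum fun n hn => ?_
            rw [mem_Ioc] at hn
            rw [ArithmeticFunction.log_apply]
            exact Real.log_le_log (by exact_mod_cast hn.1) (by exact_mod_cast hn.2)
        _ = N * Real.log N := by simp
    have h3 : ∑ d ∈ Ioc 0 N, ArithmeticFunction.vonMangoldt d ≤ (Real.log 4 + 4) * N := by
      have := Chebyshev.psi_le_const_mul_self hNr.le
      rwa [Chebyshev.psi, Nat.floor_natCast] at this
    calc (N : ℝ) * ∑ d ∈ Ioc 0 N, ArithmeticFunction.vonMangoldt d / d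
        = ∑ d ∈ Ioc 0 N, ArithmeticFunction.vonMangoldt d * (N / d) := by
          rw [mul_sum]
          refine sum_congr rfl fun d _ => ?_
          ring
      _ ≤ ∑ d ∈ Ioc 0 N, (ArithmeticFunction.vonMangoldt d * ((N / d : ℕ) : ℝ) +
            ArithmeticFunction.vonMangoldt d) := by
          refine sum_le_sum fun d hd => ?_
          rw [mem_Ioc] at hd
          have hd0 : (0 : ℝ) < d := by exact_mod_cast hd.1
          have h4 : (N : ℝ) / d ≤ ((N / d : ℕ) : ℝ) + 1 := by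
            rw [div_le_iff₀ hd0]
            have : N < d * (N / d + 1) := Nat.lt_mul_div_succ N hd.1
            rw [mul_comm] at this
            exact_mod_cast this.le
          have h5 : 0 ≤ ArithmeticFunction.vonMangoldt d := ArithmeticFunction.vonMangoldt_nonneg
          nlinarith [mul_le_mul_of_nonneg_left h4 h5]
      _ ≤ _ := by
          rw [sum_add_distrib]
          exact add_le_add h2 h3
  have h2 : ∑ d ∈ Ioc 0 N, ArithmeticFunction.vonMangoldt d / d ≤ Real.log N + (Real.log 4 + 4) := by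
    have : (N : ℝ) * ∑ d ∈ Ioc 0 N, ArithmeticFunction.vonMangoldt d / d ≤
        N * (Real.log N + (Real.log 4 + 4)) := by linarith
    exact le_of_mul_le_mul_left this hNr
  have h3 := sum_filter_add_sum_filter_not (Ioc 0 N) Nat.Prime
    (fun d => ArithmeticFunction.vonMangoldt d / (d : ℝ))
  have h4 : ∑ d ∈ (Ioc 0 N).filter Nat.Prime, ArithmeticFunction.vonMangoldt d / (d : ℝ) =
      Mertens.A N := by
    rw [Mertens.A_nat]
    have : (Ioc 0 N).filter Nat.Prime = (Icc 0 N).filter Nat.Prime := by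
      ext p
      simp only [mem_filter, mem_Ioc, mem_Icc]
      constructor
      · rintro ⟨⟨h1, h2⟩, h3⟩; exact ⟨⟨h1.le, h2⟩, h3⟩
      · rintro ⟨⟨h1, h2⟩, h3⟩; exact ⟨⟨h3.pos, h2⟩, h3⟩
    rw [this]
    refine sum_congr rfl fun p hp => ?_
    rw [ArithmeticFunction.vonMangoldt_apply_prime (mem_filter.1 hp).2]
  have h5 := hC N hN
  linarith

section char
variable {q : ℕ} [NeZero q]

end char

end Stoll308.AP
end

section
set_option autoImplicit false

/-! Mertens' second theorem, Chebyshev type lower bounds and quadratic characters. -/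

namespace Stoll308.AP

open Finset Filter Topology NumberTheorySymbols

/-- partial sums -/
noncomputable def psum (g : ℕ → ℝ) (N : ℕ) : ℝ :=
  ∑ p ∈ (Icc 0 N).filter Nat.Prime, g p * (Real.log p / p)

lemma filter_succ (N : ℕ) : (Icc 0 (N + 1)).filter Nat.Prime =
    if (N + 1).Prime then insert (N + 1) ((Icc 0 N).filter Nat.Prime) else (Icc 0 N).filter Nat.Prime := by
  rw [← Finset.insert_Icc_right_eq_Icc_add_one (by omega), filter_insert]

lemma psum_succ (g : ℕ → ℝ) (N : ℕ) :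
    psum g (N + 1) = psum g N + if (N + 1).Prime then g (N + 1) * (Real.log (N + 1 : ℕ) / (N + 1 : ℕ)) else 0 := by
  unfold psum
  rw [filter_succ]
  split_ifs with h
  · rw [sum_insert (by simp), add_comm]
  · rw [add_zero]

lemma sum_inv_succ (g : ℕ → ℝ) (N : ℕ) :
    ∑ p ∈ (Icc 0 (N + 1)).filter Nat.Prime, g p / p =
      ∑ p ∈ (Icc 0 N).filter Nat.Prime, g p / p +
        if (N + 1).Prime then g (N + 1) / (N + 1 : ℕ) else 0 := by
  rw [filter_succ]
  split_ifs with h
  · rw [sum_insert (by simp), add_comm]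
  · rw [add_zero]

lemma abel_loglog (g : ℕ → ℝ) {N : ℕ} (hN : 1 ≤ N) :
    ∑ p ∈ (Icc 0 N).filter Nat.Prime, g p / p =
      psum g N / Real.log (N + 1 : ℕ) +
        ∑ n ∈ Ioc 1 N, psum g n * (1 / Real.log n - 1 / Real.log (n + 1 : ℕ)) := by
  induction N, hN using Nat.le_induction with
  | base =>
    have : (Icc 0 1).filter Nat.Prime = ∅ := by decide
    simp [psum, this]
  | succ N hN ih =>
    rw [sum_inv_succ, ih, sum_Ioc_succ_top (by omega), psum_succ]
    have hl : Real.log (N + 1 : ℕ) ≠ 0 := (Real.log_pos (by exact_mod_cast (by omega : 1 < N + 1))).ne'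
    have hl2 : Real.log (N + 1 + 1 : ℕ) ≠ 0 :=
      (Real.log_pos (by exact_mod_cast (by omega : 1 < N + 1 + 1))).ne'
    split_ifs with h
    · have hN0 : ((N + 1 : ℕ) : ℝ) ≠ 0 := by positivity
      field_simp
      ring
    · field_simp
      ring

lemma log_nat_pos {n : ℕ} (hn : 2 ≤ n) : 0 < Real.log n :=
  Real.log_pos (by exact_mod_cast (by omega : 1 < n))

lemma log2_le {n : ℕ} (hn : 2 ≤ n) : Real.log 2 ≤ Real.log n :=
  Real.log_le_log (by norm_num) (by exact_mod_cast hn)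

/-- comparing `∑ (1 - log n / log (n+1))` with `log log` -/
lemma T_bounds {N : ℕ} (hN : 1 ≤ N) :
    ∑ n ∈ Ioc 1 N, (1 - Real.log n / Real.log (n + 1 : ℕ)) ≤
      Real.log (Real.log (N + 1 : ℕ)) - Real.log (Real.log 2) ∧
    Real.log (Real.log (N + 1 : ℕ)) - Real.log (Real.log 2) - (1 / Real.log 2 ^ 2) * (1 - 1 / N) ≤
      ∑ n ∈ Ioc 1 N, (1 - Real.log n / Real.log (n + 1 : ℕ)) := by
  induction N, hN using Nat.le_induction with
  | base => constructor <;> norm_num
  | succ N hN ih =>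
    obtain ⟨ih1, ih2⟩ := ih
    rw [sum_Ioc_succ_top (by omega)]
    set L := Real.log (N + 1 : ℕ) with hL
    set L' := Real.log (N + 1 + 1 : ℕ) with hL'
    have hLpos : 0 < L := log_nat_pos (by omega)
    have hL'pos : 0 < L' := log_nat_pos (by omega)
    have h2L : Real.log 2 ≤ L := log2_le (by omega)
    have h2L' : Real.log 2 ≤ L' := log2_le (by omega)
    have hlog2 : 0 < Real.log 2 := Real.log_pos (by norm_num)
    have hLL : L ≤ L' := Real.log_le_log (by positivity) (by push_cast; linarith)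
    have h1 : 1 - L / L' ≤ Real.log L' - Real.log L := by
      have := Real.one_sub_inv_le_log_of_pos (x := L' / L) (by positivity)
      rw [Real.log_div hL'pos.ne' hLpos.ne', inv_div] at this
      exact this
    have h2 : Real.log L' - Real.log L ≤ L' / L - 1 := by
      have := Real.log_le_sub_one_of_pos (x := L' / L) (by positivity)
      rwa [Real.log_div hL'pos.ne' hLpos.ne'] at this
    have hNr : (1 : ℝ) ≤ N := by exact_mod_cast hN
    have h3 : L' - L ≤ 1 / ((N : ℝ) + 1) := by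
      rw [hL, hL', ← Real.log_div (by positivity) (by positivity)]
      refine (Real.log_le_sub_one_of_pos (by positivity)).trans (le_of_eq ?_)
      push_cast
      field_simp
      ring
    have h4 : L' / L - 1 - (1 - L / L') ≤ 1 / Real.log 2 ^ 2 * (1 / (N : ℝ) - 1 / ((N : ℝ) + 1)) := by
      have e1 : L' / L - 1 - (1 - L / L') = (L' - L) ^ 2 / (L * L') := by
        field_simp
      have e2 : 1 / (N : ℝ) - 1 / ((N : ℝ) + 1) = 1 / (N * (N + 1)) := by
        field_simp
        ring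
      rw [e1, e2]
      calc (L' - L) ^ 2 / (L * L') ≤ (1 / ((N : ℝ) + 1)) ^ 2 / (Real.log 2 * Real.log 2) := by
            gcongr
        _ = 1 / Real.log 2 ^ 2 * (1 / ((N : ℝ) + 1) ^ 2) := by
            field_simp
        _ ≤ 1 / Real.log 2 ^ 2 * (1 / (N * (N + 1))) := by
            gcongr
            nlinarith
    constructor
    · linarith
    · push_cast at *
      have e3 : 1 / Real.log 2 ^ 2 * (1 - 1 / ((N : ℝ) + 1)) =
          1 / Real.log 2 ^ 2 * (1 - 1 / (N : ℝ)) +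
          1 / Real.log 2 ^ 2 * (1 / (N : ℝ) - 1 / ((N : ℝ) + 1)) := by ring
      rw [e3]
      linarith

/-- **Mertens' second theorem** for functions with a mean value. -/
theorem Mert.loglog {g : ℕ → ℝ} {κ : ℝ} (hg : Mert g κ) : ∃ C : ℝ, 0 ≤ C ∧ ∀ N : ℕ, 2 ≤ N →
    |∑ p ∈ (Icc 0 N).filter Nat.Prime, g p / p - κ * Real.log (Real.log N)| ≤ C := by
  obtain ⟨C, hC⟩ := hg
  have hC0 : 0 ≤ C := (abs_nonneg _).trans (hC 0)
  have hlog2 : 0 < Real.log 2 := Real.log_pos (by norm_num)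
  refine ⟨C / Real.log 2 + |κ| * (1 + Real.log 2 + |Real.log (Real.log 2)| + 1 / Real.log 2 ^ 2),
    by positivity, fun N hN => ?_⟩
  have hN0 : (0 : ℝ) < N := by positivity
  set r : ℕ → ℝ := fun n => psum g n - κ * Real.log n with hr
  have hrC : ∀ n, |r n| ≤ C := hC
  have hps : ∀ n, psum g n = κ * Real.log n + r n := fun n => by rw [hr]; ring
  rw [abel_loglog g (by omega : 1 ≤ N)]
  have hLN : 0 < Real.log N := log_nat_pos hN
  have hLN' : 0 < Real.log (N + 1 : ℕ) := log_nat_pos (by omega)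
  have hmain : psum g N / Real.log (N + 1 : ℕ) +
        ∑ n ∈ Ioc 1 N, psum g n * (1 / Real.log n - 1 / Real.log (n + 1 : ℕ)) -
        κ * Real.log (Real.log N) =
      κ * (Real.log N / Real.log (N + 1 : ℕ) +
        ∑ n ∈ Ioc 1 N, (1 - Real.log n / Real.log (n + 1 : ℕ)) - Real.log (Real.log N)) +
      (r N / Real.log (N + 1 : ℕ) +
        ∑ n ∈ Ioc 1 N, r n * (1 / Real.log n - 1 / Real.log (n + 1 : ℕ))) := by
    have e1 : ∑ n ∈ Ioc 1 N, psum g n * (1 / Real.log n - 1 / Real.log (n + 1 : ℕ)) =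
        κ * ∑ n ∈ Ioc 1 N, (1 - Real.log n / Real.log (n + 1 : ℕ)) +
        ∑ n ∈ Ioc 1 N, r n * (1 / Real.log n - 1 / Real.log (n + 1 : ℕ)) := by
      rw [mul_sum, ← sum_add_distrib]
      refine sum_congr rfl fun n hn => ?_
      rw [mem_Ioc] at hn
      have : Real.log n ≠ 0 := (log_nat_pos (by omega)).ne'
      rw [hps]
      field_simp
    rw [e1, hps N]
    ring
  rw [hmain]
  refine (abs_add_le _ _).trans ?_
  have hb1 : |r N / Real.log (N + 1 : ℕ) +
        ∑ n ∈ Ioc 1 N, r n * (1 / Real.log n - 1 / Real.log (n + 1 : ℕ))| ≤ C / Real.log 2 := by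
    have htel : ∀ N : ℕ, 1 ≤ N → ∑ n ∈ Ioc 1 N, (1 / Real.log n - 1 / Real.log (n + 1 : ℕ)) =
        1 / Real.log 2 - 1 / Real.log (N + 1 : ℕ) := by
      intro N hN
      induction N, hN using Nat.le_induction with
      | base => norm_num
      | succ N hN ih => rw [sum_Ioc_succ_top (by omega), ih]; push_cast; ring
    calc |r N / Real.log (N + 1 : ℕ) +
          ∑ n ∈ Ioc 1 N, r n * (1 / Real.log n - 1 / Real.log (n + 1 : ℕ))|
        ≤ C / Real.log (N + 1 : ℕ) +
          ∑ n ∈ Ioc 1 N, C * (1 / Real.log n - 1 / Real.log (n + 1 : ℕ)) := by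
          refine (abs_add_le _ _).trans (add_le_add ?_ ((abs_sum_le_sum_abs _ _).trans
            (sum_le_sum fun n hn => ?_)))
          · rw [abs_div, abs_of_pos hLN']
            exact div_le_div_of_nonneg_right (hrC N) hLN'.le
          · rw [mem_Ioc] at hn
            have h1 : 0 < Real.log n := log_nat_pos (by omega)
            have h2 : Real.log n ≤ Real.log (n + 1 : ℕ) :=
              Real.log_le_log (by exact_mod_cast (by omega : 0 < n)) (by push_cast; linarith)
            have h3 : 0 ≤ 1 / Real.log n - 1 / Real.log (n + 1 : ℕ) := by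
              rw [sub_nonneg]
              exact one_div_le_one_div_of_le h1 h2
            rw [abs_mul, abs_of_nonneg h3]
            exact mul_le_mul_of_nonneg_right (hrC n) h3
      _ = C / Real.log 2 := by
          rw [← mul_sum, htel N (by omega)]; ring
  have hb2 : |Real.log N / Real.log (N + 1 : ℕ) +
        ∑ n ∈ Ioc 1 N, (1 - Real.log n / Real.log (n + 1 : ℕ)) - Real.log (Real.log N)| ≤
      1 + Real.log 2 + |Real.log (Real.log 2)| + 1 / Real.log 2 ^ 2 := by
    obtain ⟨t1, t2⟩ := T_bounds (by omega : 1 ≤ N)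
    have hle : Real.log N ≤ Real.log (N + 1 : ℕ) :=
      Real.log_le_log hN0 (by push_cast; linarith)
    have hle2 : Real.log (N + 1 : ℕ) ≤ 2 * Real.log N := by
      have e1 : (2 : ℝ) * Real.log N = Real.log ((N : ℝ) ^ 2) := by
        rw [Real.log_pow]; norm_num
      rw [e1]
      refine Real.log_le_log (by positivity) ?_
      have : (2 : ℝ) ≤ N := by exact_mod_cast hN
      push_cast
      nlinarith
    have h5 : Real.log (Real.log (N + 1 : ℕ)) ≤ Real.log 2 + Real.log (Real.log N) := by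
      rw [← Real.log_mul (by norm_num) hLN.ne']
      exact Real.log_le_log hLN' hle2
    have h6 : Real.log (Real.log N) ≤ Real.log (Real.log (N + 1 : ℕ)) := Real.log_le_log hLN hle
    have h7 : 0 ≤ Real.log N / Real.log (N + 1 : ℕ) := by positivity
    have h8 : Real.log N / Real.log (N + 1 : ℕ) ≤ 1 := by rwa [div_le_one hLN']
    have h9 : 0 ≤ 1 / Real.log 2 ^ 2 * (1 / (N : ℝ)) := by positivity
    have h10 := neg_abs_le (Real.log (Real.log 2))
    have h11 := le_abs_self (Real.log (Real.log 2))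
    have h12 : 0 < 1 / Real.log 2 ^ 2 := by positivity
    rw [abs_le]
    constructor
    · have : 1 / Real.log 2 ^ 2 * (1 - 1 / (N : ℝ)) =
        1 / Real.log 2 ^ 2 - 1 / Real.log 2 ^ 2 * (1 / (N : ℝ)) := by ring
      linarith
    · linarith
  rw [abs_mul, add_comm]
  exact add_le_add hb1 (mul_le_mul_of_nonneg_left hb2 (abs_nonneg κ))

end Stoll308.AP
end

section
set_option autoImplicit false

/-! Sums of reciprocals of squarefree numbers composed of primes of a set with a mean value. -/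

namespace Stoll308.AP

open Finset Filter Topology NumberTheorySymbols

open Classical in
/-- the primes `≤ z` with the property `P` -/
noncomputable def PP (P : ℕ → Prop) (z : ℕ) : Finset ℕ :=
  (Icc 0 z).filter (fun p => p.Prime ∧ P p)

lemma mem_PP {P : ℕ → Prop} {z p : ℕ} : p ∈ PP P z ↔ p ≤ z ∧ p.Prime ∧ P p := by
  simp [PP]

lemma exp_le_two {t : ℝ} (h0 : 0 ≤ t) (h1 : t ≤ 1) : Real.exp t ≤ 1 + 2 * t := by
  have h := convexOn_exp.2 (Set.mem_univ (0 : ℝ)) (Set.mem_univ (1 : ℝ))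
    (by linarith : 0 ≤ 1 - t) h0 (by ring)
  simp only [smul_eq_mul, mul_zero, mul_one, zero_add, Real.exp_zero] at h
  have he : Real.exp 1 ≤ 3 := by
    have := Real.exp_one_lt_d9; linarith
  nlinarith

lemma log_one_add_ge {x : ℝ} (h0 : 0 ≤ x) : x - x ^ 2 ≤ Real.log (1 + x) := by
  have h := Real.one_sub_inv_le_log_of_pos (x := 1 + x) (by linarith)
  refine le_trans ?_ h
  have : x - x ^ 2 ≤ x / (1 + x) := by
    rw [le_div_iff₀ (by linarith)]
    nlinarith [pow_nonneg h0 3]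
  calc x - x ^ 2 ≤ x / (1 + x) := this
    _ = 1 - (1 + x)⁻¹ := by field_simp; ring

lemma sum_inv_sq_le (s : Finset ℕ) (hs : ∀ p ∈ s, p.Prime) : ∑ p ∈ s, (1 / (p : ℝ)) ^ 2 ≤ 1 := by
  obtain ⟨N, hN1, hN⟩ : ∃ N : ℕ, 1 ≤ N ∧ s ⊆ Ioc 1 N := by
    refine ⟨s.sup id + 1, by omega, fun p hp => ?_⟩
    rw [mem_Ioc]
    have := Finset.le_sup (f := id) hp
    simp only [id] at this
    exact ⟨(hs p hp).one_lt, by omega⟩
  refine (sum_le_sum_of_subset_of_nonneg hN fun _ _ _ => by positivity).trans ?_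
  have : ∀ N : ℕ, 1 ≤ N → ∑ p ∈ Ioc 1 N, (1 / (p : ℝ)) ^ 2 ≤ 1 - 1 / (N : ℝ) := by
    intro N hN
    induction N, hN using Nat.le_induction with
    | base => norm_num
    | succ N hN ih =>
      rw [sum_Ioc_succ_top (by omega)]
      have hN' : (1 : ℝ) ≤ N := by exact_mod_cast hN
      have h1 : (1 / ((N + 1 : ℕ) : ℝ)) ^ 2 ≤ 1 / (N : ℝ) - 1 / ((N : ℝ) + 1) := by
        have e2 : 1 / (N : ℝ) - 1 / ((N : ℝ) + 1) = 1 / (N * (N + 1)) := by
          field_simp
          ring
        rw [e2, one_div_pow]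
        push_cast
        exact one_div_le_one_div_of_le (by positivity) (by nlinarith)
      push_cast at *
      linarith
  have h2 : 0 ≤ 1 / (N : ℝ) := by positivity
  linarith [this N hN1]

/-- the Euler product over the primes `≤ z` with the property `P` -/
noncomputable def V (P : ℕ → Prop) (z : ℕ) : ℝ := ∏ p ∈ PP P z, (1 + 1 / (p : ℝ))

lemma V_pos (P : ℕ → Prop) (z : ℕ) : 0 < V P z := prod_pos fun p _ => by positivity

lemma V_eq (P : ℕ → Prop) (z : ℕ) :
    V P z = ∑ T ∈ (PP P z).powerset, 1 / ((∏ p ∈ T, p : ℕ) : ℝ) := by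
  unfold V
  simp only [Finset.prod_one_add]
  refine sum_congr rfl fun T _ => ?_
  push_cast
  rw [prod_div_distrib, prod_const_one]

open Classical in
/-- **Rankin's trick**: the squarefree numbers composed of primes `≤ z` in the set which exceed
`z^K` contribute at most one half. -/
lemma rankin (P : ℕ → Prop) : ∃ K : ℕ, ∀ z : ℕ, 3 ≤ z →
    V P z / 2 ≤ ∑ T ∈ (PP P z).powerset.filter (fun T => ∏ p ∈ T, p ≤ z ^ K),
      1 / ((∏ p ∈ T, p : ℕ) : ℝ) := by
  obtain ⟨C, hC⟩ := Mert.one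
  have hC0 : 0 ≤ C := (abs_nonneg _).trans (hC 0)
  obtain ⟨K, hK⟩ := exists_nat_ge (3 + 2 * C)
  refine ⟨K, fun z hz => ?_⟩
  have hz0 : (0 : ℝ) < z := by exact_mod_cast (by omega : 0 < z)
  have hlz : 1 ≤ Real.log z := by
    rw [Real.le_log_iff_exp_le hz0]
    have h3 : (3 : ℝ) ≤ z := by exact_mod_cast hz
    have := Real.exp_one_lt_d9
    linarith
  have hlz0 : 0 < Real.log z := by linarith
  set δ := 1 / Real.log z with hδ
  have hδ0 : 0 < δ := by positivity
  have hprod : ∏ p ∈ PP P z, (1 + (p : ℝ) ^ δ / p) ≤ V P z * Real.exp (2 + 2 * C) := by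
    have h1 : ∏ p ∈ PP P z, (1 + (p : ℝ) ^ δ / p) ≤
        ∏ p ∈ PP P z, ((1 + 1 / (p : ℝ)) * Real.exp (2 * δ * (Real.log p / p))) := by
      refine prod_le_prod (fun p _ => by positivity) fun p hp => ?_
      rw [mem_PP] at hp
      have hp0 : (0 : ℝ) < p := by exact_mod_cast hp.2.1.pos
      have hlp : 0 ≤ Real.log p := Real.log_natCast_nonneg p
      have hlpz : Real.log p ≤ Real.log z := Real.log_le_log hp0 (by exact_mod_cast hp.1)
      have e1 : (p : ℝ) ^ δ ≤ 1 + 2 * (δ * Real.log p) := by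
        rw [Real.rpow_def_of_pos hp0, mul_comm (Real.log _)]
        refine exp_le_two (by positivity) ?_
        rw [hδ, one_div, inv_mul_le_iff₀ hlz0, mul_one]
        exact hlpz
      have e2 : 1 + 2 * δ * (Real.log p / p) ≤ Real.exp (2 * δ * (Real.log p / p)) := by
        have := Real.add_one_le_exp (2 * δ * (Real.log p / p))
        linarith
      calc 1 + (p : ℝ) ^ δ / p ≤ 1 + (1 + 2 * (δ * Real.log p)) / p := by gcongr
        _ = (1 + 1 / (p : ℝ)) + 2 * δ * (Real.log p / p) := by field_simp; ring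
        _ ≤ (1 + 1 / (p : ℝ)) * (1 + 2 * δ * (Real.log p / p)) := by
            have : 0 ≤ (1 / (p : ℝ)) * (2 * δ * (Real.log p / p)) := by positivity
            nlinarith
        _ ≤ (1 + 1 / (p : ℝ)) * Real.exp (2 * δ * (Real.log p / p)) := by gcongr
    refine h1.trans ?_
    rw [prod_mul_distrib, ← Real.exp_sum]
    refine mul_le_mul_of_nonneg_left ?_ (V_pos P z).le
    rw [Real.exp_le_exp, ← mul_sum]
    have h2 : ∑ p ∈ PP P z, Real.log p / p ≤ Real.log z + C := by
      have h3 := (abs_le.1 (hC z)).2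
      simp only [one_mul] at h3
      have h4 : ∑ p ∈ PP P z, Real.log p / p ≤ ∑ p ∈ (Icc 0 z).filter Nat.Prime, Real.log p / p := by
        refine sum_le_sum_of_subset_of_nonneg (fun p hp => ?_) fun p _ _ =>
          div_nonneg (Real.log_natCast_nonneg p) (Nat.cast_nonneg p)
        rw [mem_PP] at hp
        rw [mem_filter, mem_Icc]
        exact ⟨⟨Nat.zero_le _, hp.1⟩, hp.2.1⟩
      linarith
    calc 2 * δ * ∑ p ∈ PP P z, Real.log p / p ≤ 2 * δ * (Real.log z + C) := by gcongr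
      _ = 2 + 2 * C * δ := by rw [hδ]; field_simp
      _ ≤ 2 + 2 * C * 1 := by
          have : δ ≤ 1 := by rw [hδ, div_le_one hlz0]; exact hlz
          gcongr
      _ = 2 + 2 * C := by ring
  have htail : ∑ T ∈ (PP P z).powerset.filter (fun T => ¬ ∏ p ∈ T, p ≤ z ^ K),
      1 / ((∏ p ∈ T, p : ℕ) : ℝ) ≤ V P z / 2 := by
    have h1 : ∑ T ∈ (PP P z).powerset.filter (fun T => ¬ ∏ p ∈ T, p ≤ z ^ K),
        1 / ((∏ p ∈ T, p : ℕ) : ℝ) ≤
        ∑ T ∈ (PP P z).powerset, Real.exp (-K) * ∏ p ∈ T, ((p : ℝ) ^ δ / p) := by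
      refine (sum_le_sum (g := fun T : Finset ℕ => Real.exp (-K) * ∏ p ∈ T, ((p : ℝ) ^ δ / p))
        fun T hT => ?_).trans (sum_le_sum_of_subset_of_nonneg (filter_subset _ _) fun T _ _ =>
          mul_nonneg (Real.exp_pos _).le (prod_nonneg fun p _ =>
            div_nonneg (Real.rpow_nonneg (Nat.cast_nonneg p) _) (Nat.cast_nonneg p)))
      rw [mem_filter, not_le] at hT
      have hT1 : (z : ℝ) ^ K ≤ ((∏ p ∈ T, p : ℕ) : ℝ) := by exact_mod_cast hT.2.le
      have hm0 : (0 : ℝ) < ((∏ p ∈ T, p : ℕ) : ℝ) := lt_of_lt_of_le (by positivity) hT1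
      have e1 : ∏ p ∈ T, ((p : ℝ) ^ δ / p) =
          ((∏ p ∈ T, p : ℕ) : ℝ) ^ δ / ((∏ p ∈ T, p : ℕ) : ℝ) := by
        push_cast
        rw [prod_div_distrib, Real.finsetProd_rpow _ _ fun p _ => Nat.cast_nonneg p]
      have e2 : Real.exp K ≤ ((∏ p ∈ T, p : ℕ) : ℝ) ^ δ := by
        rw [Real.rpow_def_of_pos hm0, Real.exp_le_exp]
        have e3 : (K : ℝ) * Real.log z ≤ Real.log ((∏ p ∈ T, p : ℕ) : ℝ) := by
          rw [← Real.log_pow]
          exact Real.log_le_log (by positivity) hT1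
        calc (K : ℝ) = K * Real.log z * δ := by rw [hδ]; field_simp
          _ ≤ _ := by gcongr
      rw [e1, Real.exp_neg, ← mul_div_assoc]
      refine div_le_div_of_nonneg_right ?_ hm0.le
      rw [inv_mul_eq_div, le_div_iff₀ (Real.exp_pos _), one_mul]
      exact e2
    refine h1.trans ?_
    rw [← mul_sum, ← Finset.prod_one_add]
    calc Real.exp (-K) * ∏ p ∈ PP P z, (1 + (p : ℝ) ^ δ / p)
        ≤ Real.exp (-K) * (V P z * Real.exp (2 + 2 * C)) := by gcongr
      _ = V P z * Real.exp (-K + (2 + 2 * C)) := by rw [Real.exp_add (-(K : ℝ))]; ring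
      _ ≤ V P z * Real.exp (-1) := by
          have := (V_pos P z).le
          gcongr
          linarith
      _ ≤ V P z * (1 / 2) := by
          have := (V_pos P z).le
          gcongr
          rw [Real.exp_neg, ← one_div]
          refine one_div_le_one_div_of_le (by norm_num) ?_
          have := Real.add_one_le_exp (1 : ℝ)
          linarith
      _ = V P z / 2 := by ring
  have hsplit := sum_filter_add_sum_filter_not (PP P z).powerset (fun T => ∏ p ∈ T, p ≤ z ^ K)
    (fun T => 1 / ((∏ p ∈ T, p : ℕ) : ℝ))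
  rw [← V_eq] at hsplit
  linarith

end Stoll308.AP
end

section
set_option autoImplicit false

/-!
Reduction to a monic polynomial.
-/

namespace Stoll308.Irr

open Polynomial Finset Stoll308.Gen

section squarefree

lemma nat_sqfree_dvd {a b k : ℕ} (ha : Squarefree a) (h : a * b = k ^ 2) : a ∣ b := by
  have hak : a ∣ k := by
    rw [← ha.dvd_pow_iff_dvd two_ne_zero, ← h]
    exact dvd_mul_right _ _
  obtain ⟨m, rfl⟩ := hak
  rcases Nat.eq_zero_or_pos a with h0 | h0
  · subst h0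
    exact absurd ha not_squarefree_zero
  · have h1 : b = a * m ^ 2 := by
      have : a * b = a * (a * m ^ 2) := by rw [h]; ring
      exact Nat.eq_of_mul_eq_mul_left h0 this
    rw [h1]
    exact dvd_mul_right _ _

lemma sqfree_unique {s t u v : ℤ} (hs : Squarefree s) (ht : Squarefree t) (hu : u ≠ 0)
    (h : s * u ^ 2 = t * v ^ 2) : s = t := by
  have hsq : IsSquare (s * t) := by
    have h1 : IsSquare ((s * t : ℤ) : ℚ) := by
      refine ⟨(t : ℚ) * v / u, ?_⟩
      have hu' : (u : ℚ) ≠ 0 := by exact_mod_cast hu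
      have h2 : (s : ℚ) * u ^ 2 = t * v ^ 2 := by exact_mod_cast h
      push_cast
      field_simp
      linear_combination (t : ℚ) * h2
    exact Rat.isSquare_intCast_iff.1 h1
  obtain ⟨k, hk⟩ := hsq
  have hnat : s.natAbs * t.natAbs = k.natAbs ^ 2 := by
    rw [← Int.natAbs_mul, hk, Int.natAbs_mul, sq]
  have hs' : Squarefree s.natAbs := Int.squarefree_natAbs.2 hs
  have ht' : Squarefree t.natAbs := Int.squarefree_natAbs.2 ht
  have h1 := nat_sqfree_dvd hs' hnat
  have h2 := nat_sqfree_dvd ht' (by rw [mul_comm]; exact hnat)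
  have h3 := Nat.dvd_antisymm h1 h2
  rcases Int.natAbs_eq_natAbs_iff.1 h3 with h4 | h4
  · exact h4
  · exfalso
    have ht0 : t ≠ 0 := ht.ne_zero
    have : (0 : ℤ) ≤ s * t := by rw [hk]; exact mul_self_nonneg k
    rw [h4] at this
    have h5 : 0 < t * t := mul_self_pos.2 ht0
    linarith

lemma exists_sqfree_part {z : ℤ} (hz : z ≠ 0) : ∃ s m : ℤ, Squarefree s ∧ m ≠ 0 ∧
    z = s * m ^ 2 := by
  obtain ⟨a, b, ha, hb, hab, hsf⟩ := Nat.sq_mul_squarefree_of_pos (Int.natAbs_pos.2 hz)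
  refine ⟨z.sign * a, b, ?_, by exact_mod_cast hb.ne', ?_⟩
  · rw [← Int.squarefree_natAbs, Int.natAbs_mul, Int.natAbs_sign_of_ne_zero hz, one_mul,
      Int.natAbs_natCast]
    exact hsf
  · have h1 := Int.sign_mul_natAbs z
    rw [← hab] at h1
    rw [← h1]
    have h2 : (z.sign * ((b ^ 2 * a : ℕ) : ℤ)).sign = z.sign := by rw [h1]
    rw [h2]
    push_cast
    ring

/-- The squarefree part. -/
noncomputable def sf (z : ℤ) : ℤ :=
  haveI := Classical.propDecidable (z = 0)
  if h : z = 0 then 0 else (exists_sqfree_part h).choose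

lemma sf_spec {z : ℤ} (hz : z ≠ 0) : Squarefree (sf z) ∧ ∃ m : ℤ, m ≠ 0 ∧ z = sf z * m ^ 2 := by
  unfold sf
  rw [dif_neg hz]
  obtain ⟨m, h1, h2, h3⟩ := (exists_sqfree_part hz).choose_spec
  exact ⟨h1, m, h2, h3⟩

end squarefree

section transfer

variable {F : ℤ[X]}

/-- The monic polynomial `c^(n-1) F(x/c)`. -/
noncomputable abbrev mon (F : ℤ[X]) : ℤ[X] := F.integralNormalization

lemma mon_comp (hn : 1 ≤ F.natDegree) :
    (mon F).comp (C F.leadingCoeff * X) = C (F.leadingCoeff ^ (F.natDegree - 1)) * F := by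
  ext i
  rw [comp_C_mul_X_coeff, coeff_C_mul,
    integralNormalization_coeff_mul_leadingCoeff_pow i hn, mul_comm]

variable {K : Type*} [Field K] [CharZero K]

lemma lc_ne (hn : 1 ≤ F.natDegree) : (F.leadingCoeff : K) ≠ 0 := by
  have : F.leadingCoeff ≠ 0 := by
    rw [Ne, leadingCoeff_eq_zero]
    rintro rfl
    simp at hn
  exact_mod_cast this

omit [CharZero K] in
lemma mon_map_comp (hn : 1 ≤ F.natDegree) :
    ((mon F).map (Int.castRingHom K)).comp (C (F.leadingCoeff : K) * X) =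
      C ((F.leadingCoeff : K) ^ (F.natDegree - 1)) * F.map (Int.castRingHom K) := by
  have h := congrArg (Polynomial.map (Int.castRingHom K)) (mon_comp hn)
  rw [Polynomial.map_comp, Polynomial.map_mul, Polynomial.map_mul, map_C, map_C, map_X] at h
  simpa using h

lemma comp_comp_inv (hn : 1 ≤ F.natDegree) (q : K[X]) :
    (q.comp (C (F.leadingCoeff : K) * X)).comp (C (F.leadingCoeff : K)⁻¹ * X) = q := by
  rw [comp_assoc]
  have : (C (F.leadingCoeff : K) * X : K[X]).comp (C (F.leadingCoeff : K)⁻¹ * X) = X := by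
    rw [mul_comp, C_comp, X_comp, ← mul_assoc, ← C_mul, mul_inv_cancel₀ (lc_ne hn), C_1, one_mul]
  rw [this, comp_X]

lemma map_comp_inv (hn : 1 ≤ F.natDegree) :
    (F.map (Int.castRingHom K)).comp (C (F.leadingCoeff : K)⁻¹ * X) =
      C ((F.leadingCoeff : K) ^ (F.natDegree - 1))⁻¹ * (mon F).map (Int.castRingHom K) := by
  have h := congrArg (fun q => q.comp (C (F.leadingCoeff : K)⁻¹ * X)) (mon_map_comp (K := K) hn)
  simp only [comp_comp_inv hn] at h
  rw [mul_comp, C_comp] at h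
  rw [h, ← mul_assoc, ← C_mul, inv_mul_cancel₀ (pow_ne_zero _ (lc_ne hn)), C_1, one_mul]

omit [CharZero K] in
/-- The point transfer. -/
lemma eval_mon (hn : 1 ≤ F.natDegree) (x : K) :
    ((mon F).map (Int.castRingHom K)).eval ((F.leadingCoeff : K) * x) =
      (F.leadingCoeff : K) ^ (F.natDegree - 1) * (F.map (Int.castRingHom K)).eval x := by
  have h := congrArg (eval x) (mon_map_comp (F := F) (K := K) hn)
  rw [eval_comp, eval_mul, eval_C, eval_X, eval_mul, eval_C] at h
  exact h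

lemma point_iff (hn : 1 ≤ F.natDegree) (hev : Even F.natDegree) {t t' : ℤ} {m : K}
    (ht : (t : K) * F.leadingCoeff = t' * m ^ 2) (x y : K) :
    (t : K) * y ^ 2 = (F.map (Int.castRingHom K)).eval x ↔
      (t' : K) * (m * (F.leadingCoeff : K) ^ (F.natDegree / 2 - 1) * y) ^ 2 =
        ((mon F).map (Int.castRingHom K)).eval ((F.leadingCoeff : K) * x) := by
  have hc := lc_ne (K := K) hn
  rw [eval_mon hn]
  obtain ⟨k, hk⟩ := hev
  have hk1 : 1 ≤ k := by omega
  have h1 : F.natDegree / 2 - 1 = k - 1 := by omega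
  have h2 : F.natDegree - 1 = 2 * (k - 1) + 1 := by omega
  rw [h1, h2]
  have h3 : (t' : K) * (m * (F.leadingCoeff : K) ^ (k - 1) * y) ^ 2 =
      (F.leadingCoeff : K) ^ (2 * (k - 1) + 1) * (t * y ^ 2) := by
    calc (t' : K) * (m * (F.leadingCoeff : K) ^ (k - 1) * y) ^ 2
        = (t' * m ^ 2) * (F.leadingCoeff : K) ^ (2 * (k - 1)) * y ^ 2 := by ring
      _ = (t * F.leadingCoeff) * (F.leadingCoeff : K) ^ (2 * (k - 1)) * y ^ 2 := by rw [ht]
      _ = _ := by ring
  rw [h3]
  exact (mul_right_inj' (pow_ne_zero _ hc)).symm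

lemma hasPoint_of_mon (hn : 1 ≤ F.natDegree) (hev : Even F.natDegree) {t t' : ℤ} {m : K}
    (hm : m ≠ 0) (ht : (t : K) * F.leadingCoeff = t' * m ^ 2)
    (h : Gen.HasPoint (mon F) t' K) : HasPoint F t K := by
  have hc := lc_ne (K := K) hn
  rcases h with ⟨x, y, hxy⟩ | h
  · left
    refine ⟨x / F.leadingCoeff, y / (m * (F.leadingCoeff : K) ^ (F.natDegree / 2 - 1)), ?_⟩
    rw [point_iff hn hev ht]
    rw [mul_div_cancel₀ _ (mul_ne_zero hm (pow_ne_zero _ hc)), mul_div_cancel₀ _ hc]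
    exact hxy
  · right
    obtain ⟨z, hz⟩ := h
    exact ⟨z * m, by rw [ht, hz]; ring⟩

lemma localImage_mon [Algebra ℚ K] (hn : 1 ≤ F.natDegree) (hev : Even F.natDegree) {t t' : ℤ}
    {m : K} (hm : m ≠ 0) (ht : (t : K) * F.leadingCoeff = t' * m ^ 2) {δ : ℚ[X]}
    (h : LocalImage F t δ K) :
    Gen.LocalImage (mon F) t' (δ.comp (C (F.leadingCoeff : ℚ)⁻¹ * X)) K := by
  have hc := lc_ne (K := K) hn
  obtain ⟨x, y, c, s, hy, hc0, hxy, hdvd⟩ := h
  refine ⟨(F.leadingCoeff : K) * x, m * (F.leadingCoeff : K) ^ (F.natDegree / 2 - 1) * y,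
    F.leadingCoeff * c, s.comp (C (F.leadingCoeff : K)⁻¹ * X),
    mul_ne_zero (mul_ne_zero hm (pow_ne_zero _ hc)) hy, mul_ne_zero hc hc0,
    (point_iff hn hev ht x y).1 hxy, ?_⟩
  have h1 := map_dvd (compRingHom (C (F.leadingCoeff : K)⁻¹ * X)) hdvd
  simp only [coe_compRingHom_apply] at h1
  rw [map_comp_inv hn] at h1
  have h2 : (mon F).map (Int.castRingHom K) ∣
      C ((F.leadingCoeff : K) ^ (F.natDegree - 1))⁻¹ * (mon F).map (Int.castRingHom K) :=
    dvd_mul_left _ _
  have h3 := (h2.trans h1).mul_left (C (F.leadingCoeff : K))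
  have h4 : (δ.comp (C (F.leadingCoeff : ℚ)⁻¹ * X)).map (algebraMap ℚ K) =
      (δ.map (algebraMap ℚ K)).comp (C (F.leadingCoeff : K)⁻¹ * X) := by
    rw [Polynomial.map_comp, Polynomial.map_mul, map_C, map_X]
    simp
  rw [h4]
  have h5 : (C ((F.leadingCoeff : K) * x) - X) - C ((F.leadingCoeff : K) * c) *
      (δ.map (algebraMap ℚ K)).comp (C (F.leadingCoeff : K)⁻¹ * X) *
        s.comp (C (F.leadingCoeff : K)⁻¹ * X) ^ 2 = C (F.leadingCoeff : K) *
      (C x - X - C c * δ.map (algebraMap ℚ K) * s ^ 2).comp (C (F.leadingCoeff : K)⁻¹ * X) := by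
    have h6 : C (F.leadingCoeff : K) * (C (F.leadingCoeff : K)⁻¹ * X) = (X : K[X]) := by
      rw [← mul_assoc, ← C_mul, mul_inv_cancel₀ hc, C_1, one_mul]
    rw [sub_comp, sub_comp, mul_comp, mul_comp, C_comp, C_comp, X_comp, pow_comp, C_mul, C_mul]
    linear_combination h6
  rw [h5]
  exact h3

end transfer

section global

variable {F : ℤ[X]}

/-- `t c = t' m²` over any field of characteristic zero. -/
lemma cast_rel {K : Type*} [Field K] [CharZero K] {a b : ℤ} {m : ℚ}
    (h : (a : ℚ) = b * m ^ 2) : (a : K) = b * (m : K) ^ 2 := by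
  have := congrArg (Rat.cast : ℚ → K) h
  push_cast at this
  exact this

lemma fakeSel_mon (hn : 1 ≤ F.natDegree) (hev : Even F.natDegree) {t t' : ℤ} {m : ℚ}
    (hm : m ≠ 0) (ht : ((t * F.leadingCoeff : ℤ) : ℚ) = t' * m ^ 2) (h : FakeSel F t) :
    Gen.Sel (mon F) t' := by
  have ht' : ∀ (K : Type) [Field K] [CharZero K], (t : K) * F.leadingCoeff = t' * (m : K) ^ 2 := by
    intro K _ _
    have := cast_rel (K := K) ht
    push_cast at this
    exact this
  obtain ⟨δ, hδ, hp, hr⟩ := h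
  refine ⟨δ.comp (C (F.leadingCoeff : ℚ)⁻¹ * X), ?_, fun p _ => ?_, ?_⟩
  · have h1 := IsCoprime.map hδ (compRingHom (C (F.leadingCoeff : ℚ)⁻¹ * X))
    simp only [coe_compRingHom_apply] at h1
    rw [map_comp_inv hn] at h1
    exact h1.of_isCoprime_of_dvd_right (dvd_mul_left _ _)
  · exact localImage_mon hn hev (by exact_mod_cast hm) (ht' ℚ_[p]) (hp p)
  · exact localImage_mon hn hev (by exact_mod_cast hm) (ht' ℝ) hr

lemma els_of_mon (hn : 1 ≤ F.natDegree) (hev : Even F.natDegree) {t t' : ℤ} {m : ℚ}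
    (hm : m ≠ 0) (ht : ((t * F.leadingCoeff : ℤ) : ℚ) = t' * m ^ 2) (h : Gen.ELS (mon F) t') :
    ELS F t := by
  have ht' : ∀ (K : Type) [Field K] [CharZero K], (t : K) * F.leadingCoeff = t' * (m : K) ^ 2 := by
    intro K _ _
    have := cast_rel (K := K) ht
    push_cast at this
    exact this
  refine ⟨fun p _ => ?_, ?_⟩
  · exact hasPoint_of_mon hn hev (m := (m : ℚ_[p])) (by exact_mod_cast hm) (ht' ℚ_[p]) (h.1 p)
  · exact hasPoint_of_mon hn hev (m := (m : ℝ)) (by exact_mod_cast hm) (ht' ℝ) h.2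

end global

section sums

end sums

end Stoll308.Irr
end

section
set_option autoImplicit false

/-!
Degree one primes of a number field in short multiplicative intervals: definitions.
-/

namespace Stoll308.Low

open Finset NumberField Module

variable (K : Type*) [Field K] [NumberField K]

/-- The index type of an integral basis. -/
abbrev ι := Module.Free.ChooseBasisIndex ℤ (𝓞 K)

/-- The degree of `K`. -/
noncomputable abbrev dg : ℕ := Fintype.card (ι K)

/-- The algebraic integer with coordinates `a`. -/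
noncomputable def al (a : ι K → ℤ) : 𝓞 K := ∑ i, a i • RingOfIntegers.basis K i

/-- The box of integral vectors with entries at most `B` in absolute value. -/
noncomputable def box (B : ℕ) : Finset (ι K → ℤ) := Fintype.piFinset fun _ => Icc (-(B : ℤ)) B

/-- The absolute value of the norm. -/
noncomputable def Na (a : ι K → ℤ) : ℕ := Ideal.absNorm (Ideal.span {al K a})

open Classical in
/-- The number of vectors of the box in the ideal `I`. -/
noncomputable def cnt (I : Ideal (𝓞 K)) (B : ℕ) : ℕ := ((box K B).filter fun a => al K a ∈ I).card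

open Classical in
/-- The number of nonzero vectors of the box in the ideal `I`. -/
noncomputable def cnt0 (I : Ideal (𝓞 K)) (B : ℕ) : ℕ :=
  ((box K B).filter fun a => a ≠ 0 ∧ al K a ∈ I).card

end Stoll308.Low
end

section
set_option autoImplicit false

/-!
Decomposition of the logarithm of the norm over the prime powers.
-/

namespace Stoll308.Low

open Finset NumberField Module UniqueFactorizationMonoid

variable (K : Type*) [Field K] [NumberField K]

open Classical in
/-- The nonzero prime ideals of norm at most `x`. -/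
noncomputable def Pr (x : ℕ) : Finset (Ideal (𝓞 K)) :=
  (Ideal.finite_setOfPred_absNorm_le x).toFinset.filter fun P => P.IsPrime ∧ P ≠ ⊥

variable {K}

open Classical in
/-- The indicator of `I ≤ Q`. -/
noncomputable def hit (I Q : Ideal (𝓞 K)) : ℝ := if I ≤ Q then 1 else 0

lemma mem_Pr {x : ℕ} {P : Ideal (𝓞 K)} :
    P ∈ Pr K x ↔ Ideal.absNorm P ≤ x ∧ P.IsPrime ∧ P ≠ ⊥ := by
  classical
  unfold Pr
  rw [mem_filter, Set.Finite.mem_toFinset]
  rfl

lemma two_le_absNorm {P : Ideal (𝓞 K)} (h : P.IsPrime) (h0 : P ≠ ⊥) : 2 ≤ Ideal.absNorm P := by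
  have h1 : Ideal.absNorm P ≠ 1 := by
    rw [Ne, Ideal.absNorm_eq_one_iff]
    exact h.ne_top
  have h2 : Ideal.absNorm P ≠ 0 := by
    rw [Ne, Ideal.absNorm_eq_zero_iff]
    exact h0
  omega

lemma al_eq_zero {a : ι K → ℤ} : al K a = 0 ↔ a = 0 := by
  constructor
  · intro h
    have := Fintype.linearIndependent_iff.1 (RingOfIntegers.basis K).linearIndependent a h
    exact funext this
  · rintro rfl
    simp [al]

lemma Na_pos' {a : ι K → ℤ} (h : a ≠ 0) : 0 < Na K a := by
  unfold Na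
  rw [Nat.pos_iff_ne_zero, Ne, Ideal.absNorm_eq_zero_iff, Ideal.span_singleton_eq_bot]
  exact fun h0 => h (al_eq_zero.1 h0)

/-- The logarithm of the norm of an ideal. -/
lemma log_absNorm {I : Ideal (𝓞 K)} (hI : I ≠ ⊥) {x : ℕ} (hx : Ideal.absNorm I ≤ x) :
    Real.log (Ideal.absNorm I) = ∑ P ∈ Pr K x, ∑ k ∈ Icc 1 x,
      hit I (P ^ k) * Real.log (Ideal.absNorm P) := by
  classical
  have hprod : (normalizedFactors I).prod = I := Ideal.prod_normalizedFactors_eq_self hI
  have hpr : ∀ P ∈ normalizedFactors I, P.IsPrime ∧ P ≠ ⊥ := by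
    intro P hP
    have h1 := prime_of_normalized_factor P hP
    exact ⟨Ideal.isPrime_of_prime h1, h1.ne_zero⟩
  have hcnt : ∀ P : Ideal (𝓞 K), P.IsPrime → P ≠ ⊥ → ∀ k : ℕ,
      (I ≤ P ^ k ↔ k ≤ (normalizedFactors I).count P) := by
    intro P hP hP0 k
    rw [← Ideal.dvd_iff_le]
    have hPp : Prime P := Ideal.prime_of_isPrime hP0 hP
    have h2 := dvd_iff_normalizedFactors_le_normalizedFactors (pow_ne_zero k hPp.ne_zero) hI
    rw [h2, normalizedFactors_pow, normalizedFactors_irreducible hPp.irreducible,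
      normalize_eq, Multiset.nsmul_singleton, Multiset.le_count_iff_replicate_le]
  have hI0 : 0 < Ideal.absNorm I := by
    rw [Nat.pos_iff_ne_zero, Ne, Ideal.absNorm_eq_zero_iff]
    exact hI
  have hle : ∀ P : Ideal (𝓞 K), P.IsPrime → P ≠ ⊥ → (normalizedFactors I).count P ≤ x := by
    intro P hP hP0
    have h1 := (hcnt P hP hP0 _).2 le_rfl
    have h2 := Ideal.absNorm_dvd_absNorm_of_le h1
    rw [map_pow] at h2
    have h3 := Nat.le_of_dvd hI0 h2
    calc (normalizedFactors I).count P ≤ 2 ^ (normalizedFactors I).count P :=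
          (Nat.lt_two_pow_self).le
      _ ≤ Ideal.absNorm P ^ (normalizedFactors I).count P :=
          Nat.pow_le_pow_left (two_le_absNorm hP hP0) _
      _ ≤ _ := h3.trans hx
  have h1 : Real.log (Ideal.absNorm I) =
      ∑ P ∈ (normalizedFactors I).toFinset,
        ((normalizedFactors I).count P : ℝ) * Real.log (Ideal.absNorm P) := by
    conv_lhs => rw [← hprod]
    rw [map_multiset_prod, prod_multiset_map_count]
    push_cast
    rw [Real.log_prod]
    · exact sum_congr rfl fun P _ => Real.log_pow _ _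
    · intro P hP
      have h2 := hpr P (Multiset.mem_toFinset.1 hP)
      have h3 := two_le_absNorm h2.1 h2.2
      have : (0 : ℝ) < Ideal.absNorm P := by exact_mod_cast (by omega : 0 < Ideal.absNorm P)
      exact pow_ne_zero _ this.ne'
  have h2 : ∀ P : Ideal (𝓞 K), P.IsPrime → P ≠ ⊥ →
      ∑ k ∈ Icc 1 x, hit I (P ^ k) * Real.log (Ideal.absNorm P) =
        ((normalizedFactors I).count P : ℝ) * Real.log (Ideal.absNorm P) := by
    intro P hP hP0
    rw [← sum_mul]
    congr 1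
    unfold hit
    rw [sum_boole]
    congr 1
    have h3 : (Icc 1 x).filter (fun k => I ≤ P ^ k) = Icc 1 ((normalizedFactors I).count P) := by
      ext k
      rw [mem_filter, mem_Icc, mem_Icc, hcnt P hP hP0]
      have := hle P hP hP0
      constructor
      · rintro ⟨⟨h4, _⟩, h5⟩; exact ⟨h4, h5⟩
      · rintro ⟨h4, h5⟩; exact ⟨⟨h4, h5.trans this⟩, h5⟩
    rw [h3, Nat.card_Icc]
    omega
  rw [h1]
  symm
  rw [sum_congr rfl fun P hP => h2 P (mem_Pr.1 hP).2.1 (mem_Pr.1 hP).2.2]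
  symm
  apply sum_subset
  · intro P hP
    have h3 := hpr P (Multiset.mem_toFinset.1 hP)
    refine mem_Pr.2 ⟨?_, h3⟩
    have h4 := dvd_of_mem_normalizedFactors (Multiset.mem_toFinset.1 hP)
    have h5 := Ideal.absNorm_dvd_absNorm_of_le (Ideal.dvd_iff_le.1 h4)
    exact (Nat.le_of_dvd hI0 h5).trans hx
  · intro P _ hP
    rw [Multiset.mem_toFinset] at hP
    rw [Multiset.count_eq_zero_of_notMem hP]
    simp

/-- The sum of the logarithms of the norms over a box. -/
lemma sum_log_eq {B x : ℕ} (hx : ∀ a ∈ box K B, Na K a ≤ x) :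
    ∑ a ∈ (box K B).filter (fun a => a ≠ 0), Real.log (Na K a) =
      ∑ P ∈ Pr K x, ∑ k ∈ Icc 1 x, (cnt0 K (P ^ k) B : ℝ) * Real.log (Ideal.absNorm P) := by
  classical
  have h1 : ∀ a ∈ (box K B).filter (fun a => a ≠ 0), Real.log (Na K a) =
      ∑ P ∈ Pr K x, ∑ k ∈ Icc 1 x,
        hit (Ideal.span {al K a}) (P ^ k) * Real.log (Ideal.absNorm P) := by
    intro a ha
    rw [mem_filter] at ha
    apply log_absNorm _ (hx a ha.1)
    rw [Ne, Ideal.span_singleton_eq_bot]
    exact fun h0 => ha.2 (al_eq_zero.1 h0)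
  rw [sum_congr rfl h1, sum_comm]
  refine sum_congr rfl fun P _ => ?_
  rw [sum_comm]
  refine sum_congr rfl fun k _ => ?_
  rw [← sum_mul]
  congr 1
  unfold hit cnt0
  rw [sum_boole, filter_filter]
  congr 2
  ext a
  rw [mem_filter, mem_filter, Ideal.span_singleton_le_iff_mem]

end Stoll308.Low
end

section
set_option autoImplicit false

/-!
Sums over prime powers of a number field compared with sums of the von Mangoldt function.
-/

namespace Stoll308.Low

open Finset NumberField Module ArithmeticFunction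

variable (K : Type*) [Field K] [NumberField K]

lemma dg_eq : dg K = Module.finrank ℤ (𝓞 K) :=
  (Module.finrank_eq_card_chooseBasisIndex ℤ (𝓞 K)).symm

lemma dg_pos' : 1 ≤ dg K := by
  rw [dg_eq, RingOfIntegers.rank]
  exact Module.finrank_pos

variable {K}

lemma exists_prime {P : Ideal (𝓞 K)} (hP : P.IsPrime) (hP0 : P ≠ ⊥) :
    ∃ p f : ℕ, p.Prime ∧ 1 ≤ f ∧ f ≤ dg K ∧ Ideal.absNorm P = p ^ f ∧ (p : 𝓞 K) ∈ P := by
  have h2 := two_le_absNorm hP hP0
  obtain ⟨p, hp, hmem⟩ : ∃ p : ℕ, p.Prime ∧ (p : 𝓞 K) ∈ P := by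
    have h3 : ((Ideal.absNorm P : ℕ) : 𝓞 K) ∈ P := Ideal.absNorm_mem P
    have h4 : ∀ m : ℕ, m ≠ 0 → (m : 𝓞 K) ∈ P → ∃ p : ℕ, p.Prime ∧ (p : 𝓞 K) ∈ P := by
      intro m
      induction m using Nat.recOnMul with
      | zero => intro h; exact absurd rfl h
      | one =>
        intro _ h
        exact absurd (P.eq_top_iff_one.2 (by simpa using h)) hP.ne_top
      | prime q hq => intro _ h; exact ⟨q, hq, h⟩
      | mul a b iha ihb =>
        intro h0 h
        rw [Nat.cast_mul] at h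
        rcases hP.mem_or_mem h with h5 | h5
        · exact iha (fun h6 => h0 (by rw [h6, zero_mul])) h5
        · exact ihb (fun h6 => h0 (by rw [h6, mul_zero])) h5
    exact h4 _ (by omega) h3
  have h1 : Ideal.absNorm P ∣ Ideal.absNorm (Ideal.span {(p : 𝓞 K)}) :=
    Ideal.absNorm_dvd_absNorm_of_le (by rw [Ideal.span_singleton_le_iff_mem]; exact hmem)
  rw [Ideal.absNorm_span_natCast] at h1
  obtain ⟨f, hf, hf2⟩ := (Nat.dvd_prime_pow hp).1 h1
  refine ⟨p, f, hp, ?_, ?_, hf2, hmem⟩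
  · rcases Nat.eq_zero_or_pos f with h0 | h0
    · rw [h0, pow_zero] at hf2; omega
    · exact h0
  · rw [dg_eq]; exact hf

/-- The sum over prime powers in terms of the von Mangoldt function. -/
lemma sum_pp_le (φ : ℕ → ℝ) (hφ : ∀ q, 0 ≤ φ q) (x y : ℕ) (hy : ∀ q, y < q → φ q = 0)
    (A : ℕ → Prop) (hA : ∀ P : Ideal (𝓞 K), P.IsPrime → P ≠ ⊥ → ∀ k, 1 ≤ k →
      A (Ideal.absNorm P ^ k)) [DecidablePred A] :
    ∑ P ∈ Pr K x, ∑ k ∈ Icc 1 x, Real.log (Ideal.absNorm P) * φ (Ideal.absNorm P ^ k) ≤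
      (dg K : ℝ) ^ 2 * ∑ q ∈ (Ioc 0 y).filter A, vonMangoldt q * φ q := by
  classical
  set S := (Pr K x ×ˢ Icc 1 x).filter fun z => Ideal.absNorm z.1 ^ z.2 ≤ y with hS
  have h1 : ∑ P ∈ Pr K x, ∑ k ∈ Icc 1 x, Real.log (Ideal.absNorm P) * φ (Ideal.absNorm P ^ k) =
      ∑ z ∈ S, Real.log (Ideal.absNorm z.1) * φ (Ideal.absNorm z.1 ^ z.2) := by
    rw [← sum_product', hS, sum_filter]
    refine sum_congr rfl fun z _ => ?_
    split_ifs with h
    · rfl
    · rw [hy _ (not_le.1 h), mul_zero]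
  have hmap : ∀ z ∈ S, Ideal.absNorm z.1 ^ z.2 ∈ (Ioc 0 y).filter A := by
    intro z hz
    rw [hS, mem_filter, mem_product, mem_Pr, mem_Icc] at hz
    rw [mem_filter, mem_Ioc]
    have h2 := two_le_absNorm hz.1.1.2.1 hz.1.1.2.2
    exact ⟨⟨pow_pos (by omega) _, hz.2⟩, hA _ hz.1.1.2.1 hz.1.1.2.2 _ hz.1.2.1⟩
  rw [h1, ← sum_fiberwise_of_maps_to hmap, mul_sum]
  refine sum_le_sum fun q hq => ?_
  have hfib : ∀ z ∈ S.filter (fun z => Ideal.absNorm z.1 ^ z.2 = q),
      Real.log (Ideal.absNorm z.1) * φ (Ideal.absNorm z.1 ^ z.2) ≤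
        (dg K : ℝ) * vonMangoldt q * φ q := by
    intro z hz
    rw [mem_filter, hS, mem_filter, mem_product, mem_Pr, mem_Icc] at hz
    obtain ⟨p, f, hp, hf1, hf2, hf3, -⟩ := exists_prime hz.1.1.1.2.1 hz.1.1.1.2.2
    have h3 : q = p ^ (f * z.2) := by rw [← hz.2, hf3, pow_mul]
    have h4 : vonMangoldt q = Real.log p := by
      rw [h3, vonMangoldt_apply_pow, vonMangoldt_apply_prime hp]
      have : 1 ≤ z.2 := hz.1.1.2.1
      positivity
    rw [hz.2, h4, hf3]
    apply mul_le_mul_of_nonneg_right _ (hφ q)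
    push_cast
    rw [Real.log_pow]
    apply mul_le_mul_of_nonneg_right _ (Real.log_natCast_nonneg p)
    exact_mod_cast hf2
  have hcard : ((S.filter (fun z => Ideal.absNorm z.1 ^ z.2 = q)).card : ℝ) ≤ dg K := by
    rcases (S.filter (fun z => Ideal.absNorm z.1 ^ z.2 = q)).eq_empty_or_nonempty with h0 | ⟨w, hw⟩
    · rw [h0]; simp
    · rw [mem_filter, hS, mem_filter, mem_product, mem_Pr, mem_Icc] at hw
      obtain ⟨p, f, hp, hf1, hf2, hf3, -⟩ := exists_prime hw.1.1.1.2.1 hw.1.1.1.2.2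
      have hwq : q = p ^ (f * w.2) := by rw [← hw.2, hf3, pow_mul]
      have hw0 : f * w.2 ≠ 0 := by
        have : 1 ≤ w.2 := hw.1.1.2.1
        positivity
      have h5 : (S.filter (fun z => Ideal.absNorm z.1 ^ z.2 = q)).card ≤
          (Cheb.SP K p).card := by
        apply card_le_card_of_injOn Prod.fst
        · intro z hz
          rw [mem_coe, mem_filter, hS, mem_filter, mem_product, mem_Pr, mem_Icc] at hz
          rw [mem_coe, Cheb.mem_SP K hp]
          refine ⟨hz.1.1.1.2.1, ?_⟩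
          obtain ⟨p', f', hp', hf1', hf2', hf3', hmem'⟩ := exists_prime hz.1.1.1.2.1 hz.1.1.1.2.2
          have h6 : q = p' ^ (f' * z.2) := by rw [← hz.2, hf3', pow_mul]
          have h7 : p' = p := by
            have h8 : p' ∣ p ^ (f * w.2) := by
              rw [← hwq, h6]
              apply dvd_pow_self
              have : 1 ≤ z.2 := hz.1.1.2.1
              positivity
            exact (Nat.prime_dvd_prime_iff_eq hp' hp).1 (hp'.dvd_of_dvd_pow h8)
          rw [← h7]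
          exact hmem'
        · intro z hz z' hz' heq
          rw [mem_coe, mem_filter, hS, mem_filter, mem_product, mem_Pr, mem_Icc] at hz hz'
          have h2 := two_le_absNorm hz.1.1.1.2.1 hz.1.1.1.2.2
          have h3 : Ideal.absNorm z.1 ^ z.2 = Ideal.absNorm z.1 ^ z'.2 := by
            rw [hz.2, heq, hz'.2]
          exact Prod.ext heq (Nat.pow_right_injective h2 h3)
      calc ((S.filter (fun z => Ideal.absNorm z.1 ^ z.2 = q)).card : ℝ) ≤ (Cheb.SP K p).card := by
            exact_mod_cast h5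
        _ ≤ dg K := by
            rw [dg_eq]
            exact_mod_cast Cheb.card_SP K hp
  calc ∑ z ∈ S.filter (fun z => Ideal.absNorm z.1 ^ z.2 = q),
        Real.log (Ideal.absNorm z.1) * φ (Ideal.absNorm z.1 ^ z.2)
      ≤ ((S.filter (fun z => Ideal.absNorm z.1 ^ z.2 = q)).card : ℝ) *
          ((dg K : ℝ) * vonMangoldt q * φ q) := by
        rw [← nsmul_eq_mul]
        exact sum_le_card_nsmul _ _ _ hfib
    _ ≤ (dg K : ℝ) * ((dg K : ℝ) * vonMangoldt q * φ q) := by
        apply mul_le_mul_of_nonneg_right hcard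
        have := vonMangoldt_nonneg (n := q)
        have := hφ q
        positivity
    _ = _ := by ring

/-- Partial summation against a decreasing weight. -/
lemma sum_antitone_le (a : ℕ → ℝ) (C : ℝ) (hC : ∀ m : ℕ, ∑ q ∈ Ioc 0 m, a q ≤ C * m)
    (w : ℕ → ℝ) (hw : ∀ m, 1 ≤ m → w (m + 1) ≤ w m) (hw0 : ∀ m, 0 ≤ w m) (y : ℕ) :
    ∑ q ∈ Ioc 0 y, a q * w q ≤ C * ∑ q ∈ Ioc 0 y, w q := by
  have key : ∀ y : ℕ, (∑ q ∈ Ioc 0 y, (C - a q)) * w y ≤ ∑ q ∈ Ioc 0 y, (C - a q) * w q := by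
    intro y
    induction y with
    | zero => simp
    | succ y ih =>
      rw [sum_Ioc_succ_top (by omega), sum_Ioc_succ_top (by omega), add_mul]
      refine add_le_add ?_ le_rfl
      rcases Nat.eq_zero_or_pos y with h0 | h0
      · subst h0; simp
      · refine le_trans ?_ ih
        apply mul_le_mul_of_nonneg_left (hw y h0)
        rw [sum_sub_distrib]
        have := hC y
        simp only [sum_const, Nat.card_Ioc, nsmul_eq_mul, Nat.sub_zero]
        linarith
  have h1 : 0 ≤ (∑ q ∈ Ioc 0 y, (C - a q)) * w y := by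
    apply mul_nonneg _ (hw0 y)
    rw [sum_sub_distrib]
    have := hC y
    simp only [sum_const, Nat.card_Ioc, nsmul_eq_mul, Nat.sub_zero]
    linarith
  have h2 := h1.trans (key y)
  have h3 : ∑ q ∈ Ioc 0 y, (C - a q) * w q = C * ∑ q ∈ Ioc 0 y, w q - ∑ q ∈ Ioc 0 y, a q * w q := by
    rw [mul_sum, ← sum_sub_distrib]
    exact sum_congr rfl fun q _ => by ring
  linarith

lemma sum_rpow_le (s : ℝ) (hs : 0 < s) (hs1 : s ≤ 1) (y : ℕ) :
    ∑ q ∈ Ioc 0 y, (q : ℝ) ^ (s - 1) ≤ (y : ℝ) ^ s / s := by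
  induction y with
  | zero => simp; positivity
  | succ y ih =>
    rw [sum_Ioc_succ_top (by omega)]
    have hy0 : (0 : ℝ) < ((y + 1 : ℕ) : ℝ) := by positivity
    have h1 : ((y : ℝ)) ^ s ≤ ((y + 1 : ℕ) : ℝ) ^ s - s * ((y + 1 : ℕ) : ℝ) ^ (s - 1) := by
      have h2 := rpow_one_add_le_one_add_mul_self (s := -(1 / ((y + 1 : ℕ) : ℝ))) (p := s)
        (by
          have : 1 / ((y + 1 : ℕ) : ℝ) ≤ 1 := by
            rw [div_le_one hy0]; push_cast; linarith [Nat.cast_nonneg (α := ℝ) y]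
          linarith) hs.le hs1
      have h3 : (1 + -(1 / ((y + 1 : ℕ) : ℝ))) = (y : ℝ) / ((y + 1 : ℕ) : ℝ) := by
        push_cast; field_simp; ring
      rw [h3, Real.div_rpow (Nat.cast_nonneg _) hy0.le, div_le_iff₀ (Real.rpow_pos_of_pos hy0 _)] at h2
      refine h2.trans (le_of_eq ?_)
      rw [Real.rpow_sub_one hy0.ne']
      field_simp
      ring
    have h4 : ((y + 1 : ℕ) : ℝ) ^ (s - 1) ≤ (((y + 1 : ℕ) : ℝ) ^ s - (y : ℝ) ^ s) / s := by
      rw [le_div_iff₀ hs]; linarith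
    calc _ ≤ (y : ℝ) ^ s / s + (((y + 1 : ℕ) : ℝ) ^ s - (y : ℝ) ^ s) / s := add_le_add ih h4
      _ = _ := by ring

lemma vonMangoldt_le (m : ℕ) : ∑ q ∈ Ioc 0 m, vonMangoldt q ≤ (Real.log 4 + 4) * m := by
  have := Chebyshev.psi_le_const_mul_self (Nat.cast_nonneg (α := ℝ) m)
  rwa [Chebyshev.psi, Nat.floor_natCast] at this

lemma vonMangoldt_rpow_le (s : ℝ) (hs : 0 < s) (hs1 : s ≤ 1) (y : ℕ) :
    ∑ q ∈ Ioc 0 y, vonMangoldt q * (q : ℝ) ^ (s - 1) ≤ (Real.log 4 + 4) * ((y : ℝ) ^ s / s) := by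
  have h4 : 0 ≤ Real.log 4 := Real.log_nonneg (by norm_num)
  refine (sum_antitone_le _ _ vonMangoldt_le (fun q => (q : ℝ) ^ (s - 1)) ?_ ?_ y).trans
    (mul_le_mul_of_nonneg_left (sum_rpow_le s hs hs1 y) (by positivity))
  · intro m hm
    have hm0 : (0 : ℝ) < m := by exact_mod_cast hm
    apply Real.rpow_le_rpow_of_nonpos hm0 _ (by linarith)
    push_cast; linarith
  · intro m; positivity

end Stoll308.Low
end

section
set_option autoImplicit false

/-!
Degree one primes of a number field in short multiplicative intervals: the average of the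
logarithm of the norm over a box.
-/

namespace Stoll308.Low

open Finset NumberField Module

variable (K : Type*) [Field K] [NumberField K]

/-- the image of an integral vector under an embedding -/
noncomputable def em (σ : K →ₐ[ℚ] ℂ) (a : ι K → ℤ) : ℂ := σ (al K a : K)

lemma em_eq (σ : K →ₐ[ℚ] ℂ) (a : ι K → ℤ) :
    em K σ a = ∑ i, (a i : ℂ) * σ (RingOfIntegers.basis K i : K) := by
  unfold em al
  rw [RingOfIntegers.coe_eq_algebraMap, map_sum (algebraMap (𝓞 K) K), map_sum]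
  refine sum_congr rfl fun i _ => ?_
  rw [zsmul_eq_mul, map_mul, map_mul, map_intCast, map_intCast]

lemma card_emb : Fintype.card (K →ₐ[ℚ] ℂ) = dg K := by
  rw [AlgHom.card]
  exact Module.finrank_eq_card_basis (integralBasis K)

lemma nonempty_emb : Nonempty (K →ₐ[ℚ] ℂ) := ⟨IsAlgClosed.lift⟩

lemma na_eq (a : ι K → ℤ) : (Na K a : ℝ) = ∏ σ : K →ₐ[ℚ] ℂ, ‖em K σ a‖ := by
  unfold Na em
  rw [Ideal.absNorm_span_singleton, Nat.cast_natAbs, ← norm_prod,
    ← Algebra.norm_eq_prod_embeddings ℚ ℂ (al K a : K), ← Algebra.coe_norm_int (al K a),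
    eq_ratCast, Rat.cast_intCast, Int.cast_abs, Complex.norm_intCast]

lemma dg_pos : 0 < dg K := by
  rw [← card_emb]
  have := nonempty_emb K
  exact Fintype.card_pos

lemma exists_idx : Nonempty (ι K) := Fintype.card_pos_iff.1 (dg_pos K)

lemma basis_ne (σ : K →ₐ[ℚ] ℂ) (i : ι K) : σ (RingOfIntegers.basis K i : K) ≠ 0 := by
  intro h
  have h1 := (map_eq_zero σ).1 h
  have h2 : RingOfIntegers.basis K i = 0 := by
    exact_mod_cast h1
  exact (RingOfIntegers.basis K).ne_zero i h2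

lemma mem_box {B : ℕ} {a : ι K → ℤ} : a ∈ box K B ↔ ∀ i, |a i| ≤ B := by
  unfold box
  rw [Fintype.mem_piFinset]
  simp only [mem_Icc, abs_le]

lemma card_box (B : ℕ) : (box K B).card = (2 * B + 1) ^ dg K := by
  unfold box
  rw [Fintype.card_piFinset, prod_const, Int.card_Icc, card_univ]
  congr 1
  omega

/-- **L1** -/
theorem Na_le : ∃ C : ℕ, 1 ≤ C ∧ ∀ B : ℕ, ∀ a ∈ box K B, Na K a ≤ C * B ^ dg K := by
  set M : ℝ := ∑ σ : K →ₐ[ℚ] ℂ, ∑ i, ‖σ (RingOfIntegers.basis K i : K)‖ with hM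
  have hM0 : 0 ≤ M := sum_nonneg fun σ _ => sum_nonneg fun i _ => norm_nonneg _
  refine ⟨⌈M ^ dg K⌉₊ + 1, by omega, fun B a ha => ?_⟩
  rw [mem_box] at ha
  have h1 : ∀ σ : K →ₐ[ℚ] ℂ, ‖em K σ a‖ ≤ M * B := by
    intro σ
    rw [em_eq]
    refine (norm_sum_le _ _).trans ?_
    calc ∑ i, ‖(a i : ℂ) * σ (RingOfIntegers.basis K i : K)‖
        ≤ ∑ i, (B : ℝ) * ‖σ (RingOfIntegers.basis K i : K)‖ := by
          refine sum_le_sum fun i _ => ?_
          rw [norm_mul]
          apply mul_le_mul_of_nonneg_right _ (norm_nonneg _)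
          rw [Complex.norm_intCast]
          have := ha i
          have h2 : ((|a i| : ℤ) : ℝ) ≤ ((B : ℤ) : ℝ) := Int.cast_le.2 this
          rwa [Int.cast_abs, Int.cast_natCast] at h2
      _ = (∑ i, ‖σ (RingOfIntegers.basis K i : K)‖) * B := by rw [← mul_sum, mul_comm]
      _ ≤ M * B := by
          apply mul_le_mul_of_nonneg_right _ (Nat.cast_nonneg B)
          exact single_le_sum (f := fun σ : K →ₐ[ℚ] ℂ => ∑ i, ‖σ (RingOfIntegers.basis K i : K)‖)
            (fun σ _ => sum_nonneg fun i _ => norm_nonneg _) (mem_univ σ)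
  have h2 : (Na K a : ℝ) ≤ (M * B) ^ dg K := by
    rw [na_eq]
    calc ∏ σ : K →ₐ[ℚ] ℂ, ‖em K σ a‖ ≤ ∏ _σ : K →ₐ[ℚ] ℂ, (M * B) :=
          prod_le_prod (fun σ _ => norm_nonneg _) fun σ _ => h1 σ
      _ = _ := by rw [prod_const, card_univ, card_emb]
  have h3 : (Na K a : ℝ) ≤ ((⌈M ^ dg K⌉₊ + 1 : ℕ) : ℝ) * (B : ℝ) ^ dg K := by
    refine h2.trans ?_
    rw [mul_pow]
    apply mul_le_mul_of_nonneg_right _ (by positivity)
    push_cast
    linarith [Nat.le_ceil (M ^ dg K)]
  exact_mod_cast h3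

lemma Na_pos {a : ι K → ℤ} (ha : a ≠ 0) : 1 ≤ Na K a := by
  unfold Na
  rw [Nat.one_le_iff_ne_zero, Ideal.absNorm_ne_zero_iff_mem_nonZeroDivisors,
    mem_nonZeroDivisors_iff_ne_zero, Ne, Ideal.zero_eq_bot, Ideal.span_singleton_eq_bot]
  intro h
  apply ha
  unfold al at h
  have := Fintype.linearIndependent_iff.1 (RingOfIntegers.basis K).linearIndependent a h
  exact funext this

section count

variable {K}

/-- the values of one coordinate -/
lemma card_line {i₀ : ι K} (σ : K →ₐ[ℚ] ℂ) (c : ι K → ℤ) {ρ : ℝ} (S : Finset (ι K → ℤ))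
    (hS : ∀ a ∈ S, ‖em K σ a‖ ≤ ρ * ‖σ (RingOfIntegers.basis K i₀ : K)‖ ∧
      Function.update a i₀ 0 = c) : S.card ≤ ⌊2 * ρ⌋₊ + 1 := by
  classical
  rcases S.eq_empty_or_nonempty with rfl | hne
  · simp
  · obtain ⟨m, hm, hmin⟩ := S.exists_min_image (fun a => a i₀) hne
    have hw : 0 < ‖σ (RingOfIntegers.basis K i₀ : K)‖ := norm_pos_iff.2 (basis_ne K σ i₀)
    have hoff : ∀ a ∈ S, ∀ i, i ≠ i₀ → a i = c i := by
      intro a ha i hi
      rw [← (hS a ha).2, Function.update_of_ne hi]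
    have hdiff : ∀ a ∈ S, em K σ a - em K σ m =
        ((a i₀ - m i₀ : ℤ) : ℂ) * σ (RingOfIntegers.basis K i₀ : K) := by
      intro a ha
      rw [em_eq, em_eq, ← sum_sub_distrib, sum_eq_single i₀]
      · push_cast
        ring
      · intro i _ hi
        rw [hoff a ha i hi, hoff m hm i hi, sub_self]
      · intro h
        exact absurd (mem_univ _) h
    have hle : ∀ a ∈ S, (a i₀ - m i₀).toNat ≤ ⌊2 * ρ⌋₊ := by
      intro a ha
      apply Nat.le_floor
      have h1 : ‖em K σ a - em K σ m‖ ≤ 2 * ρ * ‖σ (RingOfIntegers.basis K i₀ : K)‖ := by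
        refine (norm_sub_le _ _).trans ?_
        linarith [(hS a ha).1, (hS m hm).1]
      rw [hdiff a ha, norm_mul] at h1
      have h2 := le_of_mul_le_mul_right h1 hw
      rw [Complex.norm_intCast] at h2
      have h3 : 0 ≤ a i₀ - m i₀ := sub_nonneg.2 (hmin a ha)
      have h4 : (((a i₀ - m i₀).toNat : ℕ) : ℝ) = |((a i₀ - m i₀ : ℤ) : ℝ)| := by
        rw [abs_of_nonneg (by exact_mod_cast h3)]
        have h5 : (((a i₀ - m i₀).toNat : ℕ) : ℤ) = a i₀ - m i₀ := Int.toNat_of_nonneg h3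
        rw [← Int.cast_natCast, h5]
      rw [h4]
      exact h2
    have hcard : S.card ≤ (range (⌊2 * ρ⌋₊ + 1)).card := by
      apply card_le_card_of_injOn (fun a => (a i₀ - m i₀).toNat)
      · intro a ha
        rw [mem_coe, mem_range]
        exact Nat.lt_succ_of_le (hle a ha)
      · intro a ha b hb hab
        rw [mem_coe] at ha hb
        simp only at hab
        have h1 : 0 ≤ a i₀ - m i₀ := sub_nonneg.2 (hmin a ha)
        have h2 : 0 ≤ b i₀ - m i₀ := sub_nonneg.2 (hmin b hb)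
        have h3 : a i₀ = b i₀ := by omega
        funext i
        by_cases hi : i = i₀
        · rw [hi, h3]
        · rw [hoff a ha i hi, hoff b hb i hi]
    rwa [card_range] at hcard

lemma card_em_le (σ : K →ₐ[ℚ] ℂ) (i₀ : ι K) (B : ℕ) {r : ℝ} (hr : 0 ≤ r) :
    (((box K B).filter fun a => ‖em K σ a‖ ≤ r).card : ℝ) ≤
      (2 * r / ‖σ (RingOfIntegers.basis K i₀ : K)‖ + 1) * (2 * B + 1) ^ (dg K - 1) := by
  classical
  have hw : 0 < ‖σ (RingOfIntegers.basis K i₀ : K)‖ := norm_pos_iff.2 (basis_ne K σ i₀)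
  set ρ : ℝ := r / ‖σ (RingOfIntegers.basis K i₀ : K)‖ with hρ
  have hρ0 : 0 ≤ ρ := by positivity
  set S := (box K B).filter fun a => ‖em K σ a‖ ≤ r with hSdef
  have h1 : S.card ≤ (⌊2 * ρ⌋₊ + 1) * (S.image fun a => Function.update a i₀ 0).card := by
    apply card_le_mul_card_image
    intro c _
    apply card_line (i₀ := i₀) σ c
    intro a ha
    rw [mem_filter, hSdef, mem_filter] at ha
    refine ⟨?_, ha.2⟩
    rw [hρ, div_mul_cancel₀ _ hw.ne']
    exact ha.1.2
  have h2 : (S.image fun a => Function.update a i₀ 0).card ≤ (2 * B + 1) ^ (dg K - 1) := by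
    have hsub : (S.image fun a => Function.update a i₀ 0) ⊆
        Fintype.piFinset (Function.update (fun _ => Icc (-(B : ℤ)) B) i₀ {0}) := by
      intro x hx
      rw [mem_image] at hx
      obtain ⟨a, ha, rfl⟩ := hx
      rw [hSdef, mem_filter] at ha
      rw [Fintype.mem_piFinset]
      intro i
      by_cases hi : i = i₀
      · subst hi
        simp
      · rw [Function.update_of_ne hi, Function.update_of_ne hi]
        exact (Fintype.mem_piFinset.1 ha.1) i
    refine (card_le_card hsub).trans ?_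
    rw [Fintype.card_piFinset]
    have h3 : ∀ i, (Function.update (fun _ => Icc (-(B : ℤ)) B) i₀ {0} i).card =
        Function.update (fun _ => 2 * B + 1) i₀ 1 i := by
      intro i
      by_cases hi : i = i₀
      · subst hi
        simp
      · rw [Function.update_of_ne hi, Function.update_of_ne hi, Int.card_Icc]
        omega
    rw [prod_congr rfl fun i _ => h3 i, prod_update_of_mem (mem_univ _), one_mul, prod_const,
      card_sdiff, card_univ]
    simp
  have h3 : (S.card : ℝ) ≤ ((⌊2 * ρ⌋₊ : ℕ) + 1) * (2 * B + 1) ^ (dg K - 1) := by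
    have := h1.trans (Nat.mul_le_mul_left _ h2)
    exact_mod_cast this
  refine h3.trans ?_
  apply mul_le_mul_of_nonneg_right _ (by positivity)
  have := Nat.floor_le (show (0 : ℝ) ≤ 2 * ρ by positivity)
  rw [mul_div_assoc, ← hρ]
  linarith

end count

/-- the number of vectors of small norm -/
lemma card_small : ∃ C : ℝ, 0 < C ∧ ∀ (B : ℕ) (r : ℝ), 0 ≤ r →
    (((box K B).filter fun a => (Na K a : ℝ) ≤ r ^ dg K).card : ℝ) ≤
      (C * r + C) * (2 * B + 1) ^ (dg K - 1) := by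
  classical
  obtain ⟨i₀⟩ := exists_idx K
  set C₁ : ℝ := ∑ σ : K →ₐ[ℚ] ℂ, (2 / ‖σ (RingOfIntegers.basis K i₀ : K)‖ + 1) with hC₁
  have hpos : ∀ σ : K →ₐ[ℚ] ℂ, 0 < ‖σ (RingOfIntegers.basis K i₀ : K)‖ := fun σ =>
    norm_pos_iff.2 (basis_ne K σ i₀)
  have hC0 : 0 < C₁ := by
    apply sum_pos
    · intro σ _
      have := hpos σ
      positivity
    · have := nonempty_emb K
      exact univ_nonempty
  refine ⟨C₁, hC0, fun B r hr => ?_⟩
  have hsub : ((box K B).filter fun a => (Na K a : ℝ) ≤ r ^ dg K) ⊆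
      (univ : Finset (K →ₐ[ℚ] ℂ)).biUnion fun σ => (box K B).filter fun a => ‖em K σ a‖ ≤ r := by
    intro a ha
    rw [mem_filter] at ha
    rw [mem_biUnion]
    by_contra hcon
    push Not at hcon
    have h1 : ∀ σ : K →ₐ[ℚ] ℂ, r < ‖em K σ a‖ := by
      intro σ
      by_contra h
      exact hcon σ (mem_univ _) (mem_filter.2 ⟨ha.1, not_lt.1 h⟩)
    have h2 : r ^ dg K < (Na K a : ℝ) := by
      rw [na_eq, ← card_emb, ← card_univ, ← prod_const]
      rcases hr.eq_or_lt with h0 | h0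
      · rw [← h0]
        rw [prod_const, card_univ, card_emb, zero_pow (dg_pos K).ne']
        exact prod_pos fun σ _ => by rw [h0]; exact h1 σ
      · apply prod_lt_prod (fun _ _ => h0) (fun σ _ => (h1 σ).le)
        have := nonempty_emb K
        obtain ⟨σ⟩ := this
        exact ⟨σ, mem_univ _, h1 σ⟩
    exact absurd ha.2 (not_le.2 h2)
  calc (((box K B).filter fun a => (Na K a : ℝ) ≤ r ^ dg K).card : ℝ)
      ≤ ∑ σ : K →ₐ[ℚ] ℂ, (((box K B).filter fun a => ‖em K σ a‖ ≤ r).card : ℝ) := by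
        have := (card_le_card hsub).trans card_biUnion_le
        exact_mod_cast this
    _ ≤ ∑ σ : K →ₐ[ℚ] ℂ, (2 * r / ‖σ (RingOfIntegers.basis K i₀ : K)‖ + 1) *
          (2 * B + 1) ^ (dg K - 1) := sum_le_sum fun σ _ => card_em_le σ i₀ B hr
    _ ≤ ∑ σ : K →ₐ[ℚ] ℂ, ((2 / ‖σ (RingOfIntegers.basis K i₀ : K)‖ + 1) * r +
          (2 / ‖σ (RingOfIntegers.basis K i₀ : K)‖ + 1)) * (2 * B + 1) ^ (dg K - 1) := by
        refine sum_le_sum fun σ _ => ?_
        apply mul_le_mul_of_nonneg_right _ (by positivity)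
        have := hpos σ
        have h1 : 2 * r / ‖σ (RingOfIntegers.basis K i₀ : K)‖ =
          2 / ‖σ (RingOfIntegers.basis K i₀ : K)‖ * r := by ring
        rw [h1]
        have h2 : 0 ≤ 2 / ‖σ (RingOfIntegers.basis K i₀ : K)‖ := by positivity
        nlinarith
    _ = _ := by rw [← sum_mul, sum_add_distrib, ← sum_mul]

/-- **L2** -/
theorem sum_log_ge : ∃ C : ℝ, ∀ B : ℕ, 1 ≤ B →
    ((2 * B + 1 : ℝ) ^ dg K) * (dg K * Real.log B - C) ≤
      ∑ a ∈ (box K B).filter (fun a => a ≠ 0), Real.log (Na K a) := by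
  classical
  obtain ⟨C, hC, hcard⟩ := card_small K
  set n := dg K with hn
  have hn1 : 1 ≤ n := dg_pos K
  have hl2 : 0 < Real.log 2 := Real.log_pos one_lt_two
  refine ⟨n + n * Real.log 2 * (2 * C + 2 * C), fun B hB => ?_⟩
  have hBR : (1 : ℝ) ≤ B := by exact_mod_cast hB
  set J := Nat.log 2 B with hJ
  have hJ1 : 2 ^ J ≤ B := Nat.pow_log_le_self 2 (by omega)
  have hJ2 : B < 2 ^ (J + 1) := Nat.lt_pow_succ_log_self one_lt_two B
  set Bx := (box K B).filter (fun a => a ≠ 0) with hBx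
  -- pointwise
  have hpt : ∀ a ∈ Bx, n * Real.log B - n * Real.log 2 *
      ((range (J + 1)).filter fun j : ℕ => (Na K a : ℝ) ≤ ((B : ℝ) / 2 ^ j) ^ n).card ≤
        Real.log (Na K a) := by
    intro a ha
    rw [hBx, mem_filter] at ha
    have hN1 : (1 : ℝ) ≤ Na K a := by exact_mod_cast Na_pos K ha.2
    set k := ((range (J + 1)).filter fun j : ℕ => (Na K a : ℝ) ≤ ((B : ℝ) / 2 ^ j) ^ n).card
      with hk
    have hkJ : k ≤ J + 1 := by
      have := card_filter_le (range (J + 1)) (fun j : ℕ => (Na K a : ℝ) ≤ ((B : ℝ) / 2 ^ j) ^ n)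
      rwa [card_range] at this
    have hlt : ((B : ℝ) / 2 ^ k) ^ n < (Na K a : ℝ) := by
      rcases hkJ.lt_or_eq with h | h
      · by_contra hcon
        push Not at hcon
        -- then `0, …, k` are all in the set
        have hsub : range (k + 1) ⊆
            (range (J + 1)).filter fun j : ℕ => (Na K a : ℝ) ≤ ((B : ℝ) / 2 ^ j) ^ n := by
          intro j hj
          rw [mem_range] at hj
          rw [mem_filter, mem_range]
          refine ⟨by omega, hcon.trans ?_⟩
          apply pow_le_pow_left₀ (by positivity)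
          apply div_le_div_of_nonneg_left (by positivity) (by positivity)
          exact pow_le_pow_right₀ one_le_two (by omega)
        have := card_le_card hsub
        rw [card_range] at this
        omega
      · rw [h]
        refine lt_of_lt_of_le ?_ hN1
        apply pow_lt_one₀ (by positivity) _ (by omega)
        rw [div_lt_one (by positivity)]
        exact_mod_cast hJ2
    have hpos : 0 < ((B : ℝ) / 2 ^ k) ^ n := by positivity
    have h1 := Real.log_le_log hpos hlt.le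
    rw [Real.log_pow, Real.log_div (by positivity) (by positivity), Real.log_pow] at h1
    linarith
  -- the sum of the cardinalities
  have hsum : ∑ a ∈ Bx, (((range (J + 1)).filter fun j : ℕ =>
      (Na K a : ℝ) ≤ ((B : ℝ) / 2 ^ j) ^ n).card : ℝ) ≤
        (2 * C + 2 * C) * (2 * B + 1) ^ n := by
    have h1 : ∑ a ∈ Bx, (((range (J + 1)).filter fun j : ℕ =>
        (Na K a : ℝ) ≤ ((B : ℝ) / 2 ^ j) ^ n).card : ℝ) =
          ∑ j ∈ range (J + 1), ((Bx.filter fun a =>
            (Na K a : ℝ) ≤ ((B : ℝ) / 2 ^ j) ^ n).card : ℝ) := by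
      simp only [card_filter, Nat.cast_sum]
      rw [sum_comm]
    rw [h1]
    calc ∑ j ∈ range (J + 1), ((Bx.filter fun a =>
            (Na K a : ℝ) ≤ ((B : ℝ) / 2 ^ j) ^ n).card : ℝ)
        ≤ ∑ j ∈ range (J + 1), (C * ((B : ℝ) / 2 ^ j) + C) * (2 * B + 1) ^ (n - 1) := by
          refine sum_le_sum fun j _ => ?_
          refine le_trans ?_ (hcard B ((B : ℝ) / 2 ^ j) (by positivity))
          have : Bx.filter (fun a => (Na K a : ℝ) ≤ ((B : ℝ) / 2 ^ j) ^ n) ⊆
              (box K B).filter fun a => (Na K a : ℝ) ≤ ((B : ℝ) / 2 ^ j) ^ n :=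
            filter_subset_filter _ (filter_subset _ _)
          exact_mod_cast card_le_card this
      _ = (C * B * ∑ j ∈ range (J + 1), (1 / 2 : ℝ) ^ j + C * (J + 1)) *
            (2 * B + 1) ^ (n - 1) := by
          rw [← sum_mul, sum_add_distrib, mul_sum, sum_const, card_range, nsmul_eq_mul]
          congr 2
          · refine sum_congr rfl fun j _ => ?_
            rw [one_div, inv_pow]
            ring
          · push_cast; ring
      _ ≤ (C * B * 2 + C * (B + 1)) * (2 * B + 1) ^ (n - 1) := by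
          apply mul_le_mul_of_nonneg_right _ (by positivity)
          have hg : ∑ j ∈ range (J + 1), (1 / 2 : ℝ) ^ j ≤ 2 := by
            have := geom_sum_eq (show (1 / 2 : ℝ) ≠ 1 by norm_num) (J + 1)
            rw [this]
            have h3 : (0 : ℝ) < (1 / 2) ^ (J + 1) := by positivity
            rw [div_le_iff_of_neg (by norm_num)]
            linarith
          have hJB : (J : ℝ) ≤ B := by
            have h3 : J < 2 ^ J := Nat.lt_two_pow_self
            have h4 : J ≤ B := by omega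
            exact_mod_cast h4
          have h5 : C * B * ∑ j ∈ range (J + 1), (1 / 2 : ℝ) ^ j ≤ C * B * 2 :=
            mul_le_mul_of_nonneg_left hg (by positivity)
          have h6 : C * ((J : ℝ) + 1) ≤ C * (B + 1) :=
            mul_le_mul_of_nonneg_left (by linarith) hC.le
          linarith
      _ ≤ ((2 * C + 2 * C) * (2 * B + 1)) * (2 * B + 1) ^ (n - 1) := by
          apply mul_le_mul_of_nonneg_right _ (by positivity)
          nlinarith
      _ = _ := by
          rw [mul_assoc]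
          congr 1
          conv_rhs => rw [← Nat.sub_add_cancel hn1, pow_succ]
          ring
  have hcardBx : (Bx.card : ℝ) = (2 * B + 1) ^ n - 1 := by
    have h0 : (0 : ι K → ℤ) ∈ box K B := by
      rw [mem_box]
      intro i
      simp
    have h1 : Bx = (box K B).erase 0 := by
      ext a
      rw [hBx, mem_filter, mem_erase, and_comm]
    rw [h1, card_erase_of_mem h0, card_box, Nat.cast_sub (Nat.one_le_pow _ _ (by omega))]
    push_cast
    rfl
  have hlogB : Real.log B ≤ B := (Real.log_le_sub_one_of_pos (by linarith)).trans (by linarith)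
  have hlogB0 : 0 ≤ Real.log B := Real.log_nonneg hBR
  have hge : (B : ℝ) ≤ (2 * B + 1) ^ n := by
    calc (B : ℝ) ≤ (2 * B + 1) ^ 1 := by rw [pow_one]; linarith
      _ ≤ _ := pow_le_pow_right₀ (by linarith) hn1
  calc ((2 * B + 1 : ℝ) ^ n) * (n * Real.log B - (n + n * Real.log 2 * (2 * C + 2 * C)))
      ≤ ((2 * B + 1) ^ n - 1) * (n * Real.log B) -
          n * Real.log 2 * ((2 * C + 2 * C) * (2 * B + 1) ^ n) := by
        have h1 : (n : ℝ) * Real.log B ≤ n * (2 * B + 1) ^ n :=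
          mul_le_mul_of_nonneg_left (hlogB.trans hge) (by positivity)
        nlinarith
    _ ≤ ∑ a ∈ Bx, (n * Real.log B - n * Real.log 2 *
          ((range (J + 1)).filter fun j : ℕ => (Na K a : ℝ) ≤ ((B : ℝ) / 2 ^ j) ^ n).card) := by
        rw [sum_sub_distrib, sum_const, nsmul_eq_mul, hcardBx, ← mul_sum]
        have : n * Real.log 2 * ∑ a ∈ Bx, (((range (J + 1)).filter fun j : ℕ =>
            (Na K a : ℝ) ≤ ((B : ℝ) / 2 ^ j) ^ n).card : ℝ) ≤
          n * Real.log 2 * ((2 * C + 2 * C) * (2 * B + 1) ^ n) :=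
          mul_le_mul_of_nonneg_left hsum (by positivity)
        linarith
    _ ≤ _ := sum_le_sum hpt

end Stoll308.Low
end

section
set_option autoImplicit false

/-! Lower bound for the number of squarefree `u ≤ X`, `u ≡ 1 mod Q`, all of whose primes split in
one of three quadratic fields. -/

namespace Stoll308.AP

open Finset NumberTheorySymbols

/-- some `D_i` has Jacobi symbol `1` modulo `n` -/
def Res (D : Fin 3 → ℤ) (n : ℕ) : Prop := ∃ i, J(D i | n) = 1

end Stoll308.AP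
end

section
set_option autoImplicit false

/-! Lower bound for the number of squarefree `u ≤ X`, `u ≡ 1 mod Q`, all of whose primes split in
one of three quadratic fields. -/

namespace Stoll308.AP

open Finset NumberTheorySymbols

open Classical in
/-- adding the auxiliary prime if necessary -/
noncomputable def adj (D : Fin 3 → ℤ) (p₁ : ℕ) (T : Finset ℕ) : Finset ℕ :=
  if Res D (∏ p ∈ T, p) then T else insert p₁ T

section adj
variable {D : Fin 3 → ℤ} {p₁ z : ℕ} {T : Finset ℕ}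

end adj

/-- the set that is counted -/
def U (D : Fin 3 → ℤ) (Q u : ℕ) : Prop :=
  Squarefree u ∧ u % Q = 1 % Q ∧ ∀ p : ℕ, p.Prime → p ∣ u → Res D p

end Stoll308.AP
end

section
set_option autoImplicit false

/-! Lower bound for the number of squarefree `u ≤ X`, `u ≡ 1 mod Q`, all of whose primes split in
one of three quadratic fields. -/

namespace Stoll308.AP

open Finset NumberTheorySymbols

lemma exists_root (E X : ℕ) (hE : 0 < E) : ∃ z : ℕ, z ^ E ≤ X ∧ X < (z + 1) ^ E := by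
  have h : ∃ n, X < (n + 1) ^ E := ⟨X, by
    calc X < X + 1 := Nat.lt_succ_self X
      _ ≤ (X + 1) ^ E := Nat.le_self_pow hE.ne' _⟩
  classical
  refine ⟨Nat.find h, ?_, Nat.find_spec h⟩
  rcases Nat.eq_zero_or_pos (Nat.find h) with h0 | hpos
  · rw [h0, zero_pow hE.ne']; exact Nat.zero_le _
  · have := Nat.find_min h (m := Nat.find h - 1) (by omega)
    rw [show Nat.find h - 1 + 1 = Nat.find h by omega] at this
    exact not_lt.1 this

end Stoll308.AP
end

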