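import Mathlib
import Pool.Agent.Work.BCM.C10
import Pool.Agent.Work.BCM.C26
import Pool.Agent.Work.BCM.C38

section
set_option autoImplicit false

/-!
The Hankel matrices of `FZ (mcf a)` (roots `a₀ θ`) and of `mon a` (roots `θ`).
-/

namespace Stoll308.OF

open Polynomial Finset Matrix BG BF

variable {K : Type*} [Field K] {n : ℕ}

/-- `F(a₀ T) = a₀ⁿ · mon(T)`. -/
lemma FZ_mcf_comp (hn : 1 ≤ n) (a : Fin (n + 1) → ℤ) (h : (a 0 : K) ≠ 0) :
    (FZ K (mcf a)).comp (C (a 0 : K) * X) = C ((a 0 : K) ^ n) * mon K a := by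
  have e1 : C ((a 0 : K) ^ n) * mon K a = C ((a 0 : K) ^ (n - 1)) * GZ K a := by
    unfold mon
    rw [← mul_assoc, ← C_mul]
    congr 2
    obtain ⟨m, rfl⟩ : ∃ m, n = m + 1 := ⟨n - 1, by omega⟩
    rw [Nat.add_sub_cancel, pow_succ]
    field_simp
  rw [e1]
  unfold FZ fpol GZ gpol
  rw [Fin.sum_univ_succ, mul_add, Finset.mul_sum]
  simp only [add_comp, mul_comp, C_comp, pow_comp, X_comp, Polynomial.sum_comp]
  congr 1
  · rw [C_1, one_mul, mul_pow, ← C_pow, ← mul_assoc, ← C_mul, ← pow_succ]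
    simp only [Fin.val_zero, Nat.sub_zero]
    congr 3
    omega
  · refine Finset.sum_congr rfl fun i _ => ?_
    have hi := i.isLt
    rw [mul_pow, ← C_pow, ← mul_assoc, ← mul_assoc, ← C_mul, ← C_mul, Fin.val_succ]
    congr 1
    · congr 1
      unfold mcf
      push_cast
      have : n - 1 = (i : ℕ) + (n - 1 - (i : ℕ)) := by omega
      conv_rhs => rw [this, pow_add]
      ring
    · congr 1
      omega

/-- Change of the variable `T = c S` in a remainder. -/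
lemma mod_comp {F M P : K[X]} {c : K} (hc : c ≠ 0) (hF : F.Monic) (hM : M.Monic)
    (hFn : F.natDegree = n) (hMn : M.natDegree = n)
    (h : F.comp (C c * X) = C (c ^ n) * M) :
    (P.comp (C c * X)) %ₘ M = (P %ₘ F).comp (C c * X) := by
  have h1 := modByMonic_add_div P F
  have h2 : P.comp (C c * X) = (P %ₘ F).comp (C c * X) +
      M * (C (c ^ n) * (P /ₘ F).comp (C c * X)) := by
    conv_lhs => rw [← h1]
    rw [add_comp, mul_comp, h]
    ring
  have h3 : ((P %ₘ F).comp (C c * X)).degree < M.degree := by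
    rcases eq_or_ne (P %ₘ F) 0 with h0 | h0
    · rw [h0, zero_comp, degree_zero, degree_eq_natDegree hM.ne_zero]
      exact WithBot.bot_lt_coe _
    · have h4 := degree_modByMonic_lt P hF
      rw [degree_eq_natDegree hF.ne_zero, hFn] at h4
      rw [degree_eq_natDegree hM.ne_zero, hMn]
      refine lt_of_le_of_lt ?_ h4
      refine (degree_le_natDegree).trans ?_
      rw [natDegree_comp, natDegree_C_mul_X c hc, mul_one, degree_eq_natDegree h0]
  rw [h2, add_modByMonic, (modByMonic_eq_self_iff hM).2 h3,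
    (modByMonic_eq_zero_iff_dvd hM).2 (Dvd.intro _ rfl), add_zero]

lemma coeff_comp_C_mul_X (P : K[X]) (c : K) (k : ℕ) :
    (P.comp (C c * X)).coeff k = c ^ k * P.coeff k := by
  rw [comp_C_mul_X_coeff, mul_comm]

/-- The entries of the Hankel matrices. -/
lemma Hank_conv (hn : 1 ≤ n) (a : Fin (n + 1) → ℤ) (h : (a 0 : K) ≠ 0) (δ : K[X]) (i j : Fin n) :
    Hank n (FZ K (mcf a)) δ i j = (a 0 : K) ^ ((i : ℕ) + j) * ((a 0 : K) ^ (n - 1))⁻¹ *
      Hank n (mon K a) (δ.comp (C (a 0 : K) * X)) i j := by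
  have h1 := mod_comp (P := δ * X ^ ((i : ℕ) + j)) h (FZ_monic (R := K) (mcf a))
    (BF.LocLat.mon_monic a h) (FZ_natDegree (mcf a)) (BF.LocLat.mon_natDegree a h)
    (FZ_mcf_comp hn a h)
  have h2 := congrArg (fun q : K[X] => q.coeff (n - 1)) h1
  simp only [coeff_comp_C_mul_X] at h2
  have h3 : (δ * X ^ ((i : ℕ) + j)).comp (C (a 0 : K) * X) =
      (a 0 : K) ^ ((i : ℕ) + j) • (δ.comp (C (a 0 : K) * X) * X ^ ((i : ℕ) + j)) := by
    rw [mul_comp, pow_comp, X_comp, mul_pow, ← C_pow, smul_eq_C_mul]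
    ring
  rw [h3, smul_modByMonic, coeff_smul, smul_eq_mul] at h2
  unfold Hank
  rw [mul_right_comm, h2, mul_right_comm, mul_inv_cancel₀ (pow_ne_zero _ h), one_mul]

end Stoll308.OF
end

section
set_option autoImplicit false

/-!
Sums over the leading coefficient: divisors and large square divisors.
-/

namespace Stoll308.OF

open Finset

lemma card_dvd_Icc (H g : ℕ) (hg : 0 < g) :
    ((((Icc (-(H : ℤ)) H).filter fun κ => κ ≠ 0).filter fun κ => (g : ℤ) ∣ κ).card : ℝ) ≤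
      2 * H / g := by
  have h1 : (((Icc (-(H : ℤ)) H).filter fun κ => κ ≠ 0).filter fun κ => (g : ℤ) ∣ κ) ⊆
      ((Icc 1 (H / g)).image fun k : ℕ => (g : ℤ) * (k : ℤ)) ∪
        ((Icc 1 (H / g)).image fun k : ℕ => -((g : ℤ) * (k : ℤ))) := by
    intro κ hκ
    simp only [mem_filter, mem_Icc] at hκ
    obtain ⟨⟨⟨h1, h2⟩, h3⟩, c, hc⟩ := hκ
    have hg' : (0 : ℤ) < g := by exact_mod_cast hg
    simp only [mem_union, mem_image, mem_Icc]
    have hc0 : c ≠ 0 := by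
      rintro rfl
      exact h3 (by rw [hc]; simp)
    have hcn : 1 ≤ c.natAbs := Nat.one_le_iff_ne_zero.2 (Int.natAbs_ne_zero.2 hc0)
    have hle : c.natAbs ≤ H / g := by
      rw [Nat.le_div_iff_mul_le hg]
      have : κ.natAbs ≤ H := by omega
      rw [hc, Int.natAbs_mul, Int.natAbs_natCast] at this
      rw [mul_comm]; exact this
    rcases lt_or_gt_of_ne hc0 with h | h
    · right
      refine ⟨c.natAbs, ⟨hcn, hle⟩, ?_⟩
      have : ((c.natAbs : ℕ) : ℤ) = -c := by omega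
      rw [this, hc]; ring
    · left
      refine ⟨c.natAbs, ⟨hcn, hle⟩, ?_⟩
      have : ((c.natAbs : ℕ) : ℤ) = c := by omega
      rw [this, hc]
  have h2 := (card_le_card h1).trans (card_union_le _ _)
  have h3 : ((Icc 1 (H / g)).image fun k : ℕ => (g : ℤ) * (k : ℤ)).card ≤ H / g :=
    card_image_le.trans (by simp)
  have h4 : ((Icc 1 (H / g)).image fun k : ℕ => -((g : ℤ) * (k : ℤ))).card ≤ H / g :=
    card_image_le.trans (by simp)
  have h5 : ((H / g : ℕ) : ℝ) ≤ (H : ℝ) / g := Nat.cast_div_le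
  have h6 : ((((Icc (-(H : ℤ)) H).filter fun κ => κ ≠ 0).filter fun κ => (g : ℤ) ∣ κ).card : ℝ) ≤
      ((H / g : ℕ) : ℝ) + ((H / g : ℕ) : ℝ) := by
    exact_mod_cast h2.trans (add_le_add h3 h4)
  calc _ ≤ _ := h6
    _ ≤ (H : ℝ) / g + (H : ℝ) / g := add_le_add h5 h5
    _ = 2 * H / g := by ring

lemma sum_tail_sq_le (D N : ℕ) (hD : 1 ≤ D) :
    ∑ g ∈ Icc (D + 1) N, (1 / (g : ℝ)) ^ 2 ≤ 1 / (D : ℝ) := by
  have hD' : (0 : ℝ) < D := by exact_mod_cast hD
  rcases Nat.lt_or_ge N D with h | h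
  · rw [Icc_eq_empty (by omega), sum_empty]; positivity
  have key : ∑ g ∈ Icc (D + 1) N, (1 / (g : ℝ)) ^ 2 ≤ 1 / (D : ℝ) - 1 / (N : ℝ) := by
    induction N, h using Nat.le_induction with
    | base => simp
    | succ n hn ih =>
      rw [sum_Icc_succ_top (by omega)]
      have hn' : (0 : ℝ) < n := by exact_mod_cast (by omega : 0 < n)
      have : (1 / ((n + 1 : ℕ) : ℝ)) ^ 2 ≤ 1 / (n : ℝ) - 1 / ((n + 1 : ℕ) : ℝ) := by
        push_cast
        rw [div_sub_div _ _ hn'.ne' (by positivity), div_pow, div_le_div_iff₀ (by positivity) (by positivity)]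
        nlinarith
      linarith
  have h0 : (0 : ℝ) ≤ 1 / (N : ℝ) := by positivity
  linarith

lemma exists_sq (κ : ℤ) (hκ : κ ≠ 0) :
    ∃ d : ℕ, 0 < d ∧ ((d ^ 2 : ℕ) : ℤ) ∣ κ ∧ κ.natAbs ≤ sfp κ * d ^ 3 := by
  set n := κ.natAbs with hn
  have hn0 : n ≠ 0 := Int.natAbs_ne_zero.2 hκ
  have hprod : ∏ p ∈ n.primeFactors, p ^ n.factorization p = n := by
    conv_rhs => rw [← Nat.prod_factorization_pow_eq_self hn0]
    rfl
  refine ⟨∏ p ∈ n.primeFactors, p ^ (n.factorization p / 2), ?_, ?_, ?_⟩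
  · exact prod_pos fun p hp => pow_pos (Nat.prime_of_mem_primeFactors hp).pos _
  · rw [Int.natCast_dvd, ← hn, ← prod_pow]
    conv_rhs => rw [← hprod]
    refine prod_dvd_prod_of_dvd _ _ fun p _ => ?_
    rw [← pow_mul]
    exact pow_dvd_pow _ (by omega)
  · have hs : sfp κ = ∏ p ∈ n.primeFactors, if ¬ p ^ 2 ∣ n then p else 1 := by
      unfold sfp
      rw [prod_filter]
    rw [hs, ← prod_pow, ← prod_mul_distrib]
    conv_lhs => rw [← hprod]
    refine prod_le_prod' fun p hp => ?_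
    have hpp := Nat.prime_of_mem_primeFactors hp
    have hp1 : 1 ≤ p := hpp.one_lt.le
    have hv1 : 1 ≤ n.factorization p :=
      hpp.factorization_pos_of_dvd hn0 (Nat.dvd_of_mem_primeFactors hp)
    by_cases h : p ^ 2 ∣ n
    · have hv2 : 2 ≤ n.factorization p := (hpp.pow_dvd_iff_le_factorization hn0).1 h
      simp only [h, not_true_eq_false, if_false, one_mul]
      rw [← pow_mul]
      exact Nat.pow_le_pow_right hp1 (by omega)
    · have hv2 : ¬ 2 ≤ n.factorization p := fun h' =>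
        h ((hpp.pow_dvd_iff_le_factorization hn0).2 h')
      have hv : n.factorization p = 1 := by omega
      simp [h, hv]

theorem sqf_small (ε : ℝ) (hε : 0 < ε) : ∃ S : ℝ, 1 ≤ S ∧ ∀ H : ℕ,
    (((Icc (-(H : ℤ)) H).filter fun κ => κ ≠ 0 ∧ S * sfp κ < |(κ : ℝ)|).card : ℝ) ≤ ε * H := by
  obtain ⟨D, hD⟩ := exists_nat_gt (2 / ε + 1)
  have hD0 : (0 : ℝ) < D := lt_trans (by positivity) hD
  have hD1 : 1 ≤ D := by exact_mod_cast hD0
  have hDe : 2 / (D : ℝ) ≤ ε := by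
    rw [div_le_iff₀ hD0]
    have : 2 / ε ≤ D := by linarith
    rw [div_le_iff₀ hε] at this
    linarith
  refine ⟨(D : ℝ) ^ 3, one_le_pow₀ (by exact_mod_cast hD1), fun H => ?_⟩
  set T := (Icc (-(H : ℤ)) H).filter (fun κ => κ ≠ 0) with hT
  have hsub : ((Icc (-(H : ℤ)) H).filter fun κ => κ ≠ 0 ∧ (D : ℝ) ^ 3 * sfp κ < |(κ : ℝ)|) ⊆
      (Icc (D + 1) H).biUnion fun d => T.filter fun κ => ((d ^ 2 : ℕ) : ℤ) ∣ κ := by
    intro κ hκ
    rw [mem_filter, mem_Icc] at hκ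
    obtain ⟨⟨h1, h2⟩, h3, h4⟩ := hκ
    obtain ⟨d, hd0, hd1, hd2⟩ := exists_sq κ h3
    rw [mem_biUnion]
    have hle : d ^ 2 ≤ κ.natAbs :=
      Nat.le_of_dvd (Int.natAbs_pos.2 h3) (Int.natCast_dvd.1 hd1)
    have hdD : D < d := by
      by_contra hcon
      push Not at hcon
      have e1 : |(κ : ℝ)| = ((κ.natAbs : ℕ) : ℝ) := by
        rw [Nat.cast_natAbs]; push_cast; rfl
      have e2 : ((κ.natAbs : ℕ) : ℝ) ≤ (sfp κ : ℝ) * (d : ℝ) ^ 3 := by exact_mod_cast hd2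
      have e3 : (sfp κ : ℝ) * (d : ℝ) ^ 3 ≤ (sfp κ : ℝ) * (D : ℝ) ^ 3 := by
        refine mul_le_mul_of_nonneg_left ?_ (by positivity)
        exact pow_le_pow_left₀ (by positivity) (by exact_mod_cast hcon) 3
      rw [e1] at h4
      linarith [mul_comm ((D : ℝ) ^ 3) (sfp κ : ℝ)]
    refine ⟨d, mem_Icc.2 ⟨hdD, ?_⟩, mem_filter.2 ⟨mem_filter.2 ⟨mem_Icc.2 ⟨h1, h2⟩, h3⟩, hd1⟩⟩
    have : d ≤ d ^ 2 := by nlinarith
    omega
  have h1 : (((Icc (-(H : ℤ)) H).filter fun κ => κ ≠ 0 ∧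
      (D : ℝ) ^ 3 * sfp κ < |(κ : ℝ)|).card : ℝ) ≤
      ∑ d ∈ Icc (D + 1) H, ((T.filter fun κ => ((d ^ 2 : ℕ) : ℤ) ∣ κ).card : ℝ) := by
    exact_mod_cast (card_le_card hsub).trans card_biUnion_le
  calc _ ≤ _ := h1
    _ ≤ ∑ d ∈ Icc (D + 1) H, (2 * H) * (1 / (d : ℝ)) ^ 2 := by
        refine sum_le_sum fun d hd => ?_
        have hd0 : 0 < d ^ 2 := pow_pos (by have := (mem_Icc.1 hd).1; omega) 2
        refine (card_dvd_Icc H (d ^ 2) hd0).trans (le_of_eq ?_)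
        push_cast
        ring
    _ = 2 * H * ∑ d ∈ Icc (D + 1) H, (1 / (d : ℝ)) ^ 2 := by rw [mul_sum]
    _ ≤ 2 * H * (1 / D) := mul_le_mul_of_nonneg_left (sum_tail_sq_le D H hD1) (by positivity)
    _ = (2 / D) * H := by ring
    _ ≤ ε * H := mul_le_mul_of_nonneg_right hDe (by positivity)

end Stoll308.OF
end

section
set_option autoImplicit false

/-!
Consequences of `LocalImage` at a good prime.
-/

namespace Stoll308.Gen

open Polynomial Finset NumberTheorySymbols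

variable {p : ℕ} [hp : Fact p.Prime] {f : ℤ[X]}

/-- `δ` over `ℚ_p`. -/
noncomputable abbrev dq (δ : ℚ[X]) (p : ℕ) [Fact p.Prime] : ℚ_[p][X] :=
  δ.map (algebraMap ℚ ℚ_[p])

lemma valuation_t_dvd {t : ℤ} (ht : Squarefree t) (hpt : (p : ℤ) ∣ t) :
    (t : ℚ_[p]) ≠ 0 ∧ (t : ℚ_[p]).valuation = 1 := by
  obtain ⟨s, hs⟩ := hpt
  have ht0 : t ≠ 0 := ht.ne_zero
  have hps : ¬ (p : ℤ) ∣ s := by
    intro h
    obtain ⟨r, hr⟩ := h
    have h1 := ht (p : ℤ) ⟨r, by rw [hs, hr]; ring⟩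
    rw [Int.isUnit_iff] at h1
    have := hp.out.two_le
    omega
  have hsu : IsUnit (s : ℤ_[p]) := by
    rw [← rd_ne_zero_iff, rd_intCast, Ne, ZMod.intCast_zmod_eq_zero_iff_dvd]
    exact hps
  refine ⟨by exact_mod_cast ht0, ?_⟩
  have h2 : (t : ℚ_[p]) = (p : ℚ_[p]) ^ (1 : ℤ) * ((s : ℤ_[p]) : ℚ_[p]) := by
    rw [hs]
    push_cast
    simp
  rw [h2, valuation_unit_mul hsu]

lemma valuation_t_not_dvd {t : ℤ} (hpt : ¬ (p : ℤ) ∣ t) :
    (t : ℚ_[p]) ≠ 0 ∧ (t : ℚ_[p]).valuation = 0 := by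
  have hsu : IsUnit (t : ℤ_[p]) := by
    rw [← rd_ne_zero_iff, rd_intCast, Ne, ZMod.intCast_zmod_eq_zero_iff_dvd]
    exact hpt
  have h2 : (t : ℚ_[p]) = ((t : ℤ_[p]) : ℚ_[p]) := by push_cast; rfl
  rw [h2]
  exact ⟨unit_ne_zero hsu, valuation_unit hsu⟩

lemma deriv_eval {α : ℤ_[p]} {k : ℤ_[p][X]} (hk : fz f p = (X - C α) * k) :
    (derivative (fz f p)).eval α = k.eval α := by
  rw [hk, derivative_mul]
  simp

/-- Congruent units have a square product. -/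
lemma isSquare_mul_of_rd_eq (hp2 : p ≠ 2) {u v : ℤ_[p]} (hu : IsUnit u) (h : rd p u = rd p v) :
    IsSquare ((u : ℚ_[p]) * v) := by
  have hv : IsUnit v := by
    rw [← rd_ne_zero_iff, ← h]
    exact rd_ne_zero_iff.2 hu
  have h1 := (isSquare_coe_iff hp2 (hu.mul hv)).2 ⟨rd p u, by rw [map_mul, h]⟩
  rw [PadicInt.coe_mul] at h1
  exact h1

/-- Dividing by a unit constant. -/
lemma exists_const {c : ℚ_[p]} (hc : c ≠ 0) : ∃ d : ℤ_[p], IsUnit d ∧
    (p : ℚ_[p]) ^ c.valuation = d * c := by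
  obtain ⟨u, hu, h⟩ := exists_unit_mul c hc
  obtain ⟨d, hd⟩ := hu.exists_left_inv
  refine ⟨d, IsUnit.of_mul_eq_one u hd, ?_⟩
  have h1 : (d : ℚ_[p]) * u = 1 := by
    rw [← PadicInt.coe_mul, hd]; rfl
  calc (p : ℚ_[p]) ^ c.valuation = (p : ℚ_[p]) ^ c.valuation * (d * u) := by rw [h1, mul_one]
    _ = d * ((p : ℚ_[p]) ^ c.valuation * u) := by ring
    _ = d * c := by rw [← h]

lemma localImage_eq {δ : ℚ[X]} {x c : ℚ_[p]} {s : ℚ_[p][X]}
    (h : f.map (Int.castRingHom ℚ_[p]) ∣ (C x - X) - C c * δ.map (algebraMap ℚ ℚ_[p]) * s ^ 2) :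
    mkq f p (C x - X) = mkq f p (C c) * mkq f p (dq δ p) * mkq f p s ^ 2 := by
  rw [← map_pow, ← map_mul, ← map_mul]
  exact AdjoinRoot.mk_eq_mk.2 h

/-- The key computation: if `x - θ = P u` then `p^e δ w² = P' u'`. -/
lemma transfer {δ : ℚ[X]} {x c : ℚ_[p]} {s : ℚ_[p][X]} (hc : c ≠ 0)
    (h : mkq f p (C x - X) = mkq f p (C c) * mkq f p (dq δ p) * mkq f p s ^ 2)
    {P Q u : AdjoinRoot (fq f p)} {j : ℤ} (v : AdjoinRoot (fq f p)) (hu : UU f p u)
    (hP : mkq f p (C x - X) = mkq f p (C ((p : ℚ_[p]) ^ j)) * P * u) (hQ : P * v ^ 2 = Q) :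
    ∃ (e : ℤ) (w : AdjoinRoot (fq f p)), ∃ u', UU f p u' ∧
      mkq f p (C ((p : ℚ_[p]) ^ e)) * mkq f p (dq δ p) * w ^ 2 = Q * u' := by
  obtain ⟨d, hd, hdc⟩ := exists_const hc
  refine ⟨c.valuation - j, mkq f p s * v, mkz f p (C d) * u, (UU.C hd).mul hu, ?_⟩
  have h1 : mkq f p (C ((p : ℚ_[p]) ^ (c.valuation - j))) =
      mkq f p (C ((p : ℚ_[p]) ^ (-j))) * mkz f p (C d) * mkq f p (C c) := by
    rw [mkz_apply, map_C, ← map_mul, ← map_mul, ← C_mul, ← C_mul]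
    congr 2
    rw [sub_eq_add_neg, zpow_add₀ p_ne_zero_q, hdc]
    change _ = _ * (d : ℚ_[p]) * c
    ring
  have h2 : mkq f p (C ((p : ℚ_[p]) ^ (-j))) * mkq f p (C ((p : ℚ_[p]) ^ j)) = 1 := by
    rw [← map_mul, ← C_mul, ← zpow_add₀ p_ne_zero_q]
    simp
  rw [h1, ← hQ]
  rw [hP] at h
  linear_combination (-(mkq f p (C ((p : ℚ_[p]) ^ (-j)))) * mkz f p (C d) * v ^ 2) * h +
    (mkz f p (C d) * v ^ 2 * P * u) * h2

/-- At a good prime not dividing `t`. -/
theorem local_not_dvd (hf : f.Monic)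
    (hsep : (fp f p).Separable) {t : ℤ} (hpt : ¬ (p : ℤ) ∣ t) {δ : ℚ[X]}
    (h : LocalImage f t δ ℚ_[p]) :
    ∃ (e : ℤ) (w : AdjoinRoot (fq f p)),
      UU f p (mkq f p (C ((p : ℚ_[p]) ^ e)) * mkq f p (dq δ p) * w ^ 2) := by
  obtain ⟨x, y, c, s, hy, hc, hxy, hdvd⟩ := h
  have heq := localImage_eq hdvd
  obtain ⟨ht0, htv⟩ := valuation_t_not_dvd (p := p) hpt
  have hval : (t : ℚ_[p]).valuation + 2 * y.valuation = ((fq f p).eval x).valuation := by
    rw [← hxy, Padic.valuation_mul ht0 (pow_ne_zero 2 hy), Padic.valuation_pow]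
    push_cast; ring
  have hfx : (fq f p).eval x ≠ 0 := by
    rw [← hxy]
    exact mul_ne_zero ht0 (pow_ne_zero 2 hy)
  suffices hs : ∃ (e : ℤ) (w : AdjoinRoot (fq f p)), ∃ u', UU f p u' ∧
      mkq f p (C ((p : ℚ_[p]) ^ e)) * mkq f p (dq δ p) * w ^ 2 = 1 * u' by
    obtain ⟨e, w, u', hu', h'⟩ := hs
    exact ⟨e, w, by rw [h', one_mul]; exact hu'⟩
  by_cases hx : x.valuation < 0
  · obtain ⟨-, u, hu, hu'⟩ := caseA (p := p) hf hx
    refine transfer hc heq (P := 1) (Q := 1) 1 hu (j := x.valuation) ?_ (by ring)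
    rw [hu', mul_one]
  · obtain ⟨x₀, rfl⟩ := mem_int_of_valuation (not_lt.1 hx)
    by_cases hux : IsUnit ((fz f p).eval x₀)
    · refine transfer hc heq (P := 1) (Q := 1) 1 (caseB hf hux) (j := 0) ?_ (by ring)
      rw [zpow_zero, C_1, map_one, one_mul, one_mul]
    · obtain ⟨α, hα, hxα, hk⟩ := caseC hsep hux (by
        intro h0
        apply hfx
        rw [fq_eval_coe, h0]; rfl)
      obtain ⟨k, hkm, hfk⟩ := exists_factor hf hα
      obtain ⟨κ, hκ⟩ := (factor_eval_unit hsep hfk (x := α) rfl).exists_left_inv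
      obtain ⟨m, v, hm1, hv, hxv, hval', u, hu, hu'⟩ := hk k κ hkm hfk hκ
      rw [hval', htv] at hval
      obtain ⟨l, hl⟩ : ∃ l : ℕ, m = 2 * l := by
        have : Even m := by
          rw [← Int.even_coe_nat]
          exact ⟨y.valuation, by omega⟩
        obtain ⟨l, hl⟩ := this
        exact ⟨l, by omega⟩
      refine transfer hc heq (P := PP f k κ ((p : ℚ_[p]) ^ m)) (Q := 1)
        (PP f k κ ((p : ℚ_[p]) ^ (-(l : ℤ)))) hu (j := 0) ?_ ?_
      · rw [hu', zpow_zero, C_1, map_one, one_mul]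
      · rw [sq, PP_mul hfk hκ, PP_mul hfk hκ, ← zpow_natCast, ← zpow_add₀ p_ne_zero_q,
          ← zpow_add₀ p_ne_zero_q, hl]
        push_cast
        rw [show (2 * (l : ℤ) + (-l + -l)) = 0 by ring, zpow_zero, PP_one]

/-- At a good prime dividing `t`. -/
theorem local_dvd (hf : f.Monic) (hev : Even f.natDegree) (hp2 : p ≠ 2)
    (hsep : (fp f p).Separable) {t : ℤ} (ht : Squarefree t) (hpt : (p : ℤ) ∣ t) {δ : ℚ[X]}
    (h : LocalImage f t δ ℚ_[p]) :
    ∃ α : ℤ_[p], (fz f p).eval α = 0 ∧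
      (∀ β : ℤ_[p], (fz f p).eval β = 0 → β ≠ α →
        (dq δ p).eval (α : ℚ_[p]) ≠ 0 ∧ (dq δ p).eval (β : ℚ_[p]) ≠ 0 ∧
        IsSquare ((dq δ p).eval (β : ℚ_[p]) * (dq δ p).eval (α : ℚ_[p]) * t *
          ((((derivative (fz f p)).eval α * (α - β) : ℤ_[p]) : ℚ_[p])))) ∧
      ∀ (k : ℤ_[p][X]) (κ : ℤ_[p]), k.Monic → fz f p = (X - C α) * k → κ * k.eval α = 1 →
        ∃ (e : ℤ) (w : AdjoinRoot (fq f p)), ∃ u, UU f p u ∧
          mkq f p (C ((p : ℚ_[p]) ^ e)) * mkq f p (dq δ p) * w ^ 2 = PP f k κ (p : ℚ_[p]) * u := by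
  obtain ⟨x, y, c, s, hy, hc, hxy, hdvd⟩ := h
  have heq := localImage_eq hdvd
  obtain ⟨ht0, htv⟩ := valuation_t_dvd (p := p) ht hpt
  have hval : (t : ℚ_[p]).valuation + 2 * y.valuation = ((fq f p).eval x).valuation := by
    rw [← hxy, Padic.valuation_mul ht0 (pow_ne_zero 2 hy), Padic.valuation_pow]
    push_cast; ring
  have hfx : (fq f p).eval x ≠ 0 := by
    rw [← hxy]
    exact mul_ne_zero ht0 (pow_ne_zero 2 hy)
  rw [htv] at hval
  by_cases hx : x.valuation < 0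
  · exfalso
    obtain ⟨hA, -⟩ := caseA (p := p) hf hx
    rw [hA] at hval
    obtain ⟨l, hl⟩ := hev
    rw [hl] at hval
    push_cast at hval
    have : (1 : ℤ) = 2 * (x.valuation * l - y.valuation) := by linarith
    omega
  · obtain ⟨x₀, rfl⟩ := mem_int_of_valuation (not_lt.1 hx)
    by_cases hux : IsUnit ((fz f p).eval x₀)
    · exfalso
      rw [fq_eval_coe, valuation_unit hux] at hval
      omega
    · obtain ⟨α, hα, hxα, hk⟩ := caseC hsep hux (by
        intro h0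
        apply hfx
        rw [fq_eval_coe, h0]; rfl)
      refine ⟨α, hα, ?_, ?_⟩
      · -- the relation
        intro β hβ hβα
        obtain ⟨k, hkm, hfk⟩ := exists_factor hf hα
        obtain ⟨κ, hκ⟩ := (factor_eval_unit hsep hfk (x := α) rfl).exists_left_inv
        obtain ⟨m, v, hm1, hv, hxv, -, -⟩ := hk k κ hkm hfk hκ
        have hevα : (x₀ : ℚ_[p]) - α = c * (dq δ p).eval (α : ℚ_[p]) * s.eval (α : ℚ_[p]) ^ 2 := by
          obtain ⟨q, hq⟩ := hdvd
          have h1 := congrArg (eval (α : ℚ_[p])) hq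
          have h2 : (fq f p).eval (α : ℚ_[p]) = 0 := by rw [fq_eval_coe, hα]; rfl
          simp only [eval_sub, eval_mul, eval_C, eval_X, eval_pow] at h1
          have h3 : (Polynomial.map (Int.castRingHom ℚ_[p]) f).eval (α : ℚ_[p]) = 0 := h2
          rw [h3, zero_mul, sub_eq_zero] at h1
          exact h1
        have hevβ : (x₀ : ℚ_[p]) - β = c * (dq δ p).eval (β : ℚ_[p]) * s.eval (β : ℚ_[p]) ^ 2 := by
          obtain ⟨q, hq⟩ := hdvd
          have h1 := congrArg (eval (β : ℚ_[p])) hq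
          have h2 : (fq f p).eval (β : ℚ_[p]) = 0 := by rw [fq_eval_coe, hβ]; rfl
          simp only [eval_sub, eval_mul, eval_C, eval_X, eval_pow] at h1
          have h3 : (Polynomial.map (Int.castRingHom ℚ_[p]) f).eval (β : ℚ_[p]) = 0 := h2
          rw [h3, zero_mul, sub_eq_zero] at h1
          exact h1
        have hrd : rd p β ≠ rd p α := fun h => hβα (lift_unique hf hsep hβ hα h)
        have hu1 : IsUnit (α - β) := by
          rw [← rd_ne_zero_iff, map_sub, sub_ne_zero]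
          exact hrd.symm
        have hu2 : IsUnit (x₀ - β) := by
          rw [← rd_ne_zero_iff, map_sub, sub_ne_zero, hxα]
          exact hrd.symm
        have hxα0 : (x₀ : ℚ_[p]) - α ≠ 0 := by
          rw [← PadicInt.coe_sub, PadicInt.coe_ne_zero, hxv]
          refine mul_ne_zero (pow_ne_zero _ ?_) ?_
          · exact_mod_cast hp.out.ne_zero
          · rintro rfl
            exact not_isUnit_zero hv
        have hxβ0 : (x₀ : ℚ_[p]) - β ≠ 0 := by
          rw [← PadicInt.coe_sub]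
          exact unit_ne_zero hu2
        rw [hevα] at hxα0
        rw [hevβ] at hxβ0
        have hdα : (dq δ p).eval (α : ℚ_[p]) ≠ 0 := right_ne_zero_of_mul (left_ne_zero_of_mul hxα0)
        have hdβ : (dq δ p).eval (β : ℚ_[p]) ≠ 0 := right_ne_zero_of_mul (left_ne_zero_of_mul hxβ0)
        have hsα : s.eval (α : ℚ_[p]) ≠ 0 := by
          have := right_ne_zero_of_mul hxα0
          exact fun h => this (by rw [h]; ring)
        have hsβ : s.eval (β : ℚ_[p]) ≠ 0 := by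
          have := right_ne_zero_of_mul hxβ0
          exact fun h => this (by rw [h]; ring)
        refine ⟨hdα, hdβ, ?_⟩
        -- the two squares
        have hkx := factor_eval_unit hsep hfk (x := x₀) hxα
        have hs1 : IsSquare (((k.eval x₀ : ℤ_[p]) : ℚ_[p]) * ((k.eval α : ℤ_[p]) : ℚ_[p])) := by
          apply isSquare_mul_of_rd_eq hp2 hkx
          rw [← eval_map_apply, ← eval_map_apply, hxα]
        have hs2 : IsSquare (((x₀ - β : ℤ_[p]) : ℚ_[p]) * ((α - β : ℤ_[p]) : ℚ_[p])) := by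
          apply isSquare_mul_of_rd_eq hp2 hu2
          rw [map_sub, map_sub, hxα]
        obtain ⟨r1, hr1⟩ := hs1
        obtain ⟨r2, hr2⟩ := hs2
        have hty : (t : ℚ_[p]) * y ^ 2 = ((x₀ : ℚ_[p]) - α) * ((k.eval x₀ : ℤ_[p]) : ℚ_[p]) := by
          have h1 : (t : ℚ_[p]) * y ^ 2 = (fq f p).eval (x₀ : ℚ_[p]) := hxy
          rw [h1, fq_eval_coe, hfk, eval_mul, eval_sub, eval_X, eval_C]
          push_cast
          rfl
        rw [deriv_eval hfk]
        refine ⟨((x₀ : ℚ_[p]) - α) * r1 * r2 / (y * c * s.eval (α : ℚ_[p]) * s.eval (β : ℚ_[p])), ?_⟩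
        push_cast at hr2 ⊢
        rw [div_mul_div_comm, eq_div_iff (by
          apply mul_ne_zero <;>
          exact mul_ne_zero (mul_ne_zero (mul_ne_zero hy hc) hsα) hsβ)]
        set A := (dq δ p).eval (α : ℚ_[p])
        set B := (dq δ p).eval (β : ℚ_[p])
        set sα := s.eval (α : ℚ_[p])
        set sβ := s.eval (β : ℚ_[p])
        set kx : ℚ_[p] := ((k.eval x₀ : ℤ_[p]) : ℚ_[p])
        set kα : ℚ_[p] := ((k.eval α : ℤ_[p]) : ℚ_[p])
        calc B * A * t * (kα * (α - β)) * (y * c * sα * sβ * (y * c * sα * sβ))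
            = (c * A * sα ^ 2) * (c * B * sβ ^ 2) * (t * y ^ 2) * kα * (α - β) := by ring
          _ = (x₀ - α) * (x₀ - β) * ((x₀ - α) * kx) * kα * (α - β) := by
              rw [← hevα, ← hevβ, hty]
          _ = (x₀ - α) ^ 2 * (kx * kα) * ((x₀ - β) * (α - β)) := by ring
          _ = (x₀ - α) * r1 * r2 * ((x₀ - α) * r1 * r2) := by
              rw [hr1, hr2]; ring
      · intro k κ hkm hfk hκ
        obtain ⟨m, v, hm1, hv, hxv, hval', u, hu, hu'⟩ := hk k κ hkm hfk hκ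
        rw [hval'] at hval
        obtain ⟨l, hl⟩ : ∃ l : ℕ, m = 2 * l + 1 := by
          have : Odd (m : ℤ) := ⟨y.valuation, by omega⟩
          rw [Int.odd_coe_nat] at this
          exact this
        refine transfer hc heq (P := PP f k κ ((p : ℚ_[p]) ^ m)) (Q := PP f k κ (p : ℚ_[p]))
          (PP f k κ ((p : ℚ_[p]) ^ (-(l : ℤ)))) hu (j := 0) ?_ ?_
        · rw [hu', zpow_zero, C_1, map_one, one_mul]
        · rw [sq, PP_mul hfk hκ, PP_mul hfk hκ, ← zpow_natCast, ← zpow_add₀ p_ne_zero_q,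
            ← zpow_add₀ p_ne_zero_q, hl]
          push_cast
          rw [show (2 * (l : ℤ) + 1 + (-l + -l)) = 1 by ring, zpow_one]

end Stoll308.Gen
end

section
set_option autoImplicit false

/-!
From `ℚ_p[X]/f` to `ℚ[X]/f`: approximation.
-/

namespace Stoll308.Gen

open Polynomial Finset NumberTheorySymbols

variable {p : ℕ} [hp : Fact p.Prime] {f : ℤ[X]}

/-- `f` over `ℚ`. -/
noncomputable abbrev fr (f : ℤ[X]) : ℚ[X] := f.map (Int.castRingHom ℚ)

lemma fr_map : (fr f).map (algebraMap ℚ ℚ_[p]) = fq f p := map_cast_map f _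

/-- Integral polynomials. -/
def IsInt (p : ℕ) [Fact p.Prime] (q : ℚ_[p][X]) : Prop :=
  ∃ q₀ : ℤ_[p][X], q₀.map (algebraMap ℤ_[p] ℚ_[p]) = q

lemma IsInt.mul {q r : ℚ_[p][X]} (hq : IsInt p q) (hr : IsInt p r) : IsInt p (q * r) := by
  obtain ⟨q, rfl⟩ := hq
  obtain ⟨r, rfl⟩ := hr
  exact ⟨q * r, Polynomial.map_mul _⟩

lemma IsInt.sub {q r : ℚ_[p][X]} (hq : IsInt p q) (hr : IsInt p r) : IsInt p (q - r) := by
  obtain ⟨q, rfl⟩ := hq
  obtain ⟨r, rfl⟩ := hr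
  exact ⟨q - r, Polynomial.map_sub _⟩

lemma isInt_of_coeff {q : ℚ_[p][X]} (h : ∀ i, ‖q.coeff i‖ ≤ 1) : IsInt p q := by
  have h' : ∀ i, ∃ c : ℤ_[p], (c : ℚ_[p]) = q.coeff i := fun i => ⟨⟨q.coeff i, h i⟩, rfl⟩
  choose c hc using h'
  refine ⟨∑ i ∈ range (q.natDegree + 1), C (c i) * X ^ i, ?_⟩
  rw [Polynomial.map_sum]
  conv_rhs => rw [q.as_sum_range_C_mul_X_pow]
  refine sum_congr rfl fun i _ => ?_
  rw [Polynomial.map_mul, map_C, Polynomial.map_pow, map_X, PadicInt.algebraMap_apply, hc]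

lemma norm_coeff_le {q : ℚ_[p][X]} (h : IsInt p q) (i : ℕ) : ‖q.coeff i‖ ≤ 1 := by
  obtain ⟨q, rfl⟩ := h
  rw [coeff_map]
  exact PadicInt.norm_le_one (q.coeff i)

/-- Every polynomial becomes integral after multiplication by a power of `p`. -/
lemma exists_pow_isInt (q : ℚ_[p][X]) :
    ∃ M : ℕ, ∀ M', M ≤ M' → IsInt p (C ((p : ℚ_[p]) ^ M') * q) := by
  obtain ⟨B, hB⟩ : ∃ B : ℝ, ∀ i, ‖q.coeff i‖ ≤ B := by
    refine ⟨∑ i ∈ range (q.natDegree + 1), ‖q.coeff i‖, fun i => ?_⟩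
    by_cases hi : i ≤ q.natDegree
    · exact single_le_sum (f := fun i => ‖q.coeff i‖) (fun j _ => norm_nonneg _)
        (mem_range.2 (by omega))
    · rw [coeff_eq_zero_of_natDegree_lt (by omega), norm_zero]
      exact sum_nonneg fun _ _ => norm_nonneg _
  have hp1 : (1 : ℝ) < p := by exact_mod_cast hp.out.one_lt
  obtain ⟨M, hM⟩ := pow_unbounded_of_one_lt B hp1
  refine ⟨M, fun M' hM' => isInt_of_coeff fun i => ?_⟩
  rw [coeff_C_mul, norm_mul, norm_pow, Padic.norm_p, inv_pow]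
  have hpp : (0 : ℝ) < (p : ℝ) ^ M' := by positivity
  rw [inv_mul_le_iff₀ hpp, mul_one]
  exact (hB i).trans (hM.le.trans (pow_le_pow_right₀ hp1.le hM'))

/-- Approximation of a polynomial over `ℚ_p` by a polynomial over `ℚ`. -/
lemma exists_approx (W : ℚ_[p][X]) (K : ℕ) :
    ∃ W' : ℚ[X], ∃ V : ℚ_[p][X], IsInt p V ∧
      W = W'.map (algebraMap ℚ ℚ_[p]) + C ((p : ℚ_[p]) ^ K) * V := by
  have hp0 : (0 : ℝ) < p := by exact_mod_cast hp.out.pos
  have hε : (0 : ℝ) < ((p : ℝ) ^ K)⁻¹ := by positivity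
  choose r hr using fun i => Padic.rat_dense p (W.coeff i) hε
  set W' : ℚ[X] := ∑ i ∈ range (W.natDegree + 1), C (r i) * X ^ i with hW'
  have hcoeff : ∀ i, W'.coeff i = if i ≤ W.natDegree then r i else 0 := by
    intro i
    rw [hW', finsetSum_coeff]
    simp only [coeff_C_mul_X_pow]
    by_cases hi : i ≤ W.natDegree
    · rw [if_pos hi, sum_eq_single i]
      · simp
      · intro j _ hj
        rw [if_neg (fun h => hj h.symm)]
      · intro h
        exact absurd (mem_range.2 (by omega)) h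
    · rw [if_neg hi]
      refine sum_eq_zero fun j hj => ?_
      rw [mem_range] at hj
      rw [if_neg (by omega)]
  refine ⟨W', C ((p : ℚ_[p]) ^ K)⁻¹ * (W - W'.map (algebraMap ℚ ℚ_[p])), ?_, ?_⟩
  · apply isInt_of_coeff
    intro i
    rw [coeff_C_mul, coeff_sub, coeff_map, hcoeff, norm_mul, norm_inv, norm_pow, Padic.norm_p,
      inv_pow, inv_inv]
    have hpp : (0 : ℝ) < (p : ℝ) ^ K := by positivity
    split_ifs with hi
    · have h1 := (hr i).le
      have h2 : (algebraMap ℚ ℚ_[p]) (r i) = ((r i : ℚ) : ℚ_[p]) := by simp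
      rw [h2]
      calc (p : ℝ) ^ K * ‖W.coeff i - (r i : ℚ_[p])‖ ≤ (p : ℝ) ^ K * ((p : ℝ) ^ K)⁻¹ :=
            mul_le_mul_of_nonneg_left h1 hpp.le
        _ = 1 := mul_inv_cancel₀ hpp.ne'
    · rw [coeff_eq_zero_of_natDegree_lt (by omega)]
      simp
  · rw [← mul_assoc, ← C_mul, mul_inv_cancel₀ (pow_ne_zero _ p_ne_zero_q), C_1, one_mul]
    ring

/-- A rational polynomial with `p`-integral coefficients has a denominator prime to `p`. -/
lemma exists_den {a : ℚ[X]} (h : IsInt p (a.map (algebraMap ℚ ℚ_[p]))) :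
    ∃ (d : ℤ) (b : ℤ[X]), ¬ (p : ℤ) ∣ d ∧ b.map (Int.castRingHom ℚ) = C (d : ℚ) * a := by
  set d : ℤ := ∏ i ∈ range (a.natDegree + 1), ((a.coeff i).den : ℤ) with hd
  have hden : ∀ i, ¬ (p : ℤ) ∣ ((a.coeff i).den : ℤ) := by
    intro i hdiv
    have h1 := norm_coeff_le h i
    rw [coeff_map] at h1
    have h2 : (algebraMap ℚ ℚ_[p]) (a.coeff i) = ((a.coeff i : ℚ) : ℚ_[p]) := by simp
    rw [h2] at h1
    have h3 := PadicInt.isUnit_den (a.coeff i) h1
    rw [← rd_ne_zero_iff, map_natCast, Ne, ZMod.natCast_eq_zero_iff] at h3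
    exact h3 (Int.natCast_dvd_natCast.1 hdiv)
  have hz : ∀ i ∈ range (a.natDegree + 1), ∃ z : ℤ, (z : ℚ) = d * a.coeff i := by
    intro i hi
    rw [hd, ← mul_prod_erase _ _ hi]
    refine ⟨(∏ j ∈ (range (a.natDegree + 1)).erase i, ((a.coeff j).den : ℤ)) * (a.coeff i).num, ?_⟩
    have h1 := Rat.den_mul_eq_num (a.coeff i)
    push_cast
    rw [← h1]
    ring
  choose! z hz using hz
  refine ⟨d, ∑ i ∈ range (a.natDegree + 1), C (z i) * X ^ i, ?_, ?_⟩
  · rw [hd, Prime.dvd_finsetProd_iff (Nat.prime_iff_prime_int.1 hp.out)]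
    rintro ⟨i, -, hi⟩
    exact hden i hi
  · rw [Polynomial.map_sum]
    conv_rhs => rw [a.as_sum_range_C_mul_X_pow, mul_sum]
    refine sum_congr rfl fun i hi => ?_
    rw [Polynomial.map_mul, map_C, Polynomial.map_pow, map_X, ← mul_assoc, ← C_mul]
    congr 2
    rw [eq_intCast]
    exact hz i hi

/-- The rational form of the statement that `p^e Δ w²` is a unit at `p`. -/
def EvenAt (f : ℤ[X]) (p : ℕ) (Δ : ℚ[X]) : Prop :=
  ∃ (w : ℚ[X]) (a : ℤ[X]) (d : ℤ), ¬ (p : ℤ) ∣ d ∧ IsCoprime (a.map (Int.castRingHom (ZMod p))) (fp f p) ∧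
    fr f ∣ C (d : ℚ) * Δ * w ^ 2 - a.map (Int.castRingHom ℚ)

theorem evenAt_of_UU (hf : f.Monic) {Δ : ℚ[X]} {e : ℤ} {w : AdjoinRoot (fq f p)}
    (h : UU f p (mkq f p (C ((p : ℚ_[p]) ^ e)) * mkq f p (dq Δ p) * w ^ 2)) :
    EvenAt f p (C ((p : ℚ) ^ e) * Δ) := by
  obtain ⟨u, hu, huw⟩ := h
  obtain ⟨W, rfl⟩ := AdjoinRoot.mk_surjective w
  rw [mkz_apply, ← map_pow, ← map_mul, ← map_mul] at huw
  have hdvd := AdjoinRoot.mk_eq_mk.1 huw
  set Y : ℚ[X] := C ((p : ℚ) ^ e) * Δ with hY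
  set YY : ℚ_[p][X] := Y.map (algebraMap ℚ ℚ_[p]) with hYY
  have hYe : YY = C ((p : ℚ_[p]) ^ e) * dq Δ p := by
    rw [hYY, hY, Polynomial.map_mul, map_C]
    simp
  rw [← hYe] at hdvd
  obtain ⟨M₁, hM₁⟩ := exists_pow_isInt YY
  obtain ⟨M₂, hM₂⟩ := exists_pow_isInt W
  set M := max M₁ M₂ with hM
  have hYM := hM₁ M (le_max_left _ _)
  have hWM := hM₂ M (le_max_right _ _)
  obtain ⟨W', V, hV, hWV⟩ := exists_approx W (3 * M + 1)
  -- the difference is `p` times an integral polynomial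
  obtain ⟨I, hI⟩ : ∃ I : ℤ_[p][X], YY * W ^ 2 - YY * (W'.map (algebraMap ℚ ℚ_[p])) ^ 2 =
      (C (p : ℤ_[p]) * I).map (algebraMap ℤ_[p] ℚ_[p]) := by
    have h2 : IsInt p (C ((p : ℚ_[p]) ^ M) *
        (W + W'.map (algebraMap ℚ ℚ_[p]))) := by
      have h3 : C ((p : ℚ_[p]) ^ M) * (W + W'.map (algebraMap ℚ ℚ_[p])) =
          (C ((p : ℚ_[p]) ^ M) * W) * C 2 - C ((p : ℚ_[p]) ^ M) * (C ((p : ℚ_[p]) ^ (3 * M + 1)) * V) := by
        have : W'.map (algebraMap ℚ ℚ_[p]) = W - C ((p : ℚ_[p]) ^ (3 * M + 1)) * V := by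
          rw [hWV]; ring
        rw [this]
        have h2C : (C 2 : ℚ_[p][X]) = 2 := map_ofNat C 2
        rw [h2C]
        ring
      rw [h3]
      have hC : ∀ k : ℕ, IsInt p (C ((p : ℚ_[p]) ^ k)) := fun k =>
        ⟨C ((p : ℤ_[p]) ^ k), by rw [map_C]; simp⟩
      refine (hWM.mul ⟨C 2, by rw [map_C, map_ofNat]⟩).sub ((hC _).mul ((hC _).mul hV))
    obtain ⟨J, hJ⟩ := (hYM.mul h2).mul hV
    refine ⟨C ((p : ℤ_[p]) ^ M) * J, ?_⟩
    rw [Polynomial.map_mul, Polynomial.map_mul, hJ, map_C, map_C]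
    have h4 : YY * W ^ 2 - YY * (W'.map (algebraMap ℚ ℚ_[p])) ^ 2 =
        YY * (W + W'.map (algebraMap ℚ ℚ_[p])) * (C ((p : ℚ_[p]) ^ (3 * M + 1)) * V) := by
      have : C ((p : ℚ_[p]) ^ (3 * M + 1)) * V = W - W'.map (algebraMap ℚ ℚ_[p]) := by
        rw [hWV]; ring
      rw [this]
      ring
    rw [h4]
    have h5 : (C ((p : ℚ_[p]) ^ (3 * M + 1)) : ℚ_[p][X]) =
        C ((algebraMap ℤ_[p] ℚ_[p]) (p : ℤ_[p])) * C ((algebraMap ℤ_[p] ℚ_[p]) ((p : ℤ_[p]) ^ M)) *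
          C ((p : ℚ_[p]) ^ M) * C ((p : ℚ_[p]) ^ M) := by
      rw [← C_mul, ← C_mul, ← C_mul]
      congr 1
      rw [map_pow, map_natCast]
      ring
    rw [h5]
    ring
  -- the reduced polynomial
  set a₀ : ℚ[X] := (Y * W' ^ 2) %ₘ (fr f) with ha₀
  have hfm : (fr f).Monic := hf.map _
  have hzm : (fz f p).Monic := hf.map _
  have hqm : (fq f p).Monic := hf.map _
  have hpm : (fp f p).Monic := hf.map _
  set u' : ℤ_[p][X] := (u - C (p : ℤ_[p]) * I) %ₘ (fz f p) with hu'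
  have hmap : a₀.map (algebraMap ℚ ℚ_[p]) = u'.map (algebraMap ℤ_[p] ℚ_[p]) := by
    rw [ha₀, map_modByMonic _ hfm, fr_map, hu', map_modByMonic _ hzm, fz_map',
      ← sub_eq_zero, ← sub_modByMonic, modByMonic_eq_zero_iff_dvd hqm]
    rw [Polynomial.map_sub, ← hI, Polynomial.map_mul, Polynomial.map_pow, ← hYY]
    have h6 : YY * (W'.map (algebraMap ℚ ℚ_[p])) ^ 2 - (u.map (algebraMap ℤ_[p] ℚ_[p]) -
        (YY * W ^ 2 - YY * (W'.map (algebraMap ℚ ℚ_[p])) ^ 2)) =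
        -(u.map (algebraMap ℤ_[p] ℚ_[p]) - YY * W ^ 2) := by ring
    rw [h6, dvd_neg]
    exact hdvd
  obtain ⟨d, b, hd, hb⟩ := exists_den (p := p) (a := a₀) ⟨u', hmap.symm⟩
  refine ⟨W', b, d, hd, ?_, ?_⟩
  · -- coprimality
    have hbu : b.map (Int.castRingHom ℤ_[p]) = C (d : ℤ_[p]) * u' := by
      apply Polynomial.map_injective (algebraMap ℤ_[p] ℚ_[p])
        (FaithfulSMul.algebraMap_injective ℤ_[p] ℚ_[p])
      rw [map_cast_map, ← map_cast_map b (algebraMap ℚ ℚ_[p]), hb, Polynomial.map_mul,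
        Polynomial.map_mul, hmap, map_C, map_C]
      simp
    have hbr : b.map (Int.castRingHom (ZMod p)) = C (d : ZMod p) * (u.map (rd p) %ₘ fp f p) := by
      rw [← map_cast_map b (rd p), hbu, Polynomial.map_mul, map_C, rd_intCast, hu',
        map_modByMonic _ hzm, fz_map]
      congr 2
      rw [Polynomial.map_sub, Polynomial.map_mul, map_C, map_natCast, CharP.cast_eq_zero, C_0,
        zero_mul, sub_zero]
    rw [hbr]
    have hdu : IsUnit (C (d : ZMod p)) := by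
      rw [Polynomial.isUnit_C, isUnit_iff_ne_zero, Ne, ZMod.intCast_zmod_eq_zero_iff_dvd]
      exact hd
    have h7 : IsCoprime (u.map (rd p) %ₘ fp f p) (fp f p) := by
      have h8 : u.map (rd p) %ₘ fp f p = u.map (rd p) + fp f p * (-(u.map (rd p) /ₘ fp f p)) := by
        have := modByMonic_add_div (u.map (rd p)) (fp f p)
        linear_combination this
      rw [h8]
      exact hu.add_mul_left_left _
    exact (isCoprime_mul_unit_left_left hdu _ _).2 h7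
  · rw [hb, mul_assoc, ← mul_sub]
    apply Dvd.dvd.mul_left
    rw [ha₀]
    refine ⟨(Y * W' ^ 2) /ₘ (fr f), ?_⟩
    have := modByMonic_add_div (Y * W' ^ 2) (fr f)
    linear_combination (-1 : ℚ[X]) * this

end Stoll308.Gen
end

section
set_option autoImplicit false

/-!
Even valuations in the number field `ℚ[X]/f`.
-/

namespace Stoll308.Gen

open Polynomial Finset NumberField UniqueFactorizationMonoid
open scoped nonZeroDivisors

variable {f : ℤ[X]} [hirr : Fact (Irreducible (fr f))]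

/-- The number field. -/
abbrev KK (f : ℤ[X]) : Type := AdjoinRoot (fr f)

lemma aeval_root_int (a : ℤ[X]) : aeval (AdjoinRoot.root (fr f)) a =
    AdjoinRoot.mk (fr f) (a.map (Int.castRingHom ℚ)) := by
  have h := AdjoinRoot.aeval_eq (R := ℚ) (f := fr f) (a.map (Int.castRingHom ℚ))
  rw [aeval_def, eval₂_map] at h
  rw [← h, aeval_def]
  congr 1

lemma isIntegral_root (hf : f.Monic) : IsIntegral ℤ (AdjoinRoot.root (fr f)) := by
  refine ⟨f, hf, ?_⟩
  rw [← aeval_def, aeval_root_int]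
  exact AdjoinRoot.mk_self

/-- The root as an algebraic integer. -/
noncomputable def th (hf : f.Monic) : 𝓞 (KK f) := ⟨AdjoinRoot.root (fr f), isIntegral_root hf⟩

lemma coe_aeval_th (hf : f.Monic) (a : ℤ[X]) :
    algebraMap (𝓞 (KK f)) (KK f) (aeval (th hf) a) =
      AdjoinRoot.mk (fr f) (a.map (Int.castRingHom ℚ)) := by
  have h1 : algebraMap (𝓞 (KK f)) (KK f) (aeval (th hf) a) = aeval (AdjoinRoot.root (fr f)) a :=
    (aeval_algebraMap_apply (KK f) (th hf) a).symm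
  rw [h1, aeval_root_int]

lemma aeval_th_self (hf : f.Monic) : (aeval (th hf) f : 𝓞 (KK f)) = 0 := by
  rw [← RingOfIntegers.coe_eq_zero_iff, coe_aeval_th]
  exact AdjoinRoot.mk_self

/-- A polynomial which is coprime to `f` modulo `p` is not in any prime above `p`. -/
lemma aeval_notMem (hf : f.Monic) {p : ℕ} [Fact p.Prime] {a : ℤ[X]}
    (ha : IsCoprime (a.map (Int.castRingHom (ZMod p))) (fp f p)) {q : Ideal (𝓞 (KK f))}
    (hq : q.IsPrime) (hp : (p : 𝓞 (KK f)) ∈ q) : (aeval (th hf) a : 𝓞 (KK f)) ∉ q := by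
  intro hmem
  obtain ⟨v, w, hvw⟩ := ha
  obtain ⟨v, rfl⟩ := Polynomial.map_surjective (Int.castRingHom (ZMod p))
    (ZMod.ringHom_surjective _) v
  obtain ⟨w, rfl⟩ := Polynomial.map_surjective (Int.castRingHom (ZMod p))
    (ZMod.ringHom_surjective _) w
  have h1 : (v * a + w * f - 1).map (Int.castRingHom (ZMod p)) = 0 := by
    rw [Polynomial.map_sub, Polynomial.map_add, Polynomial.map_mul, Polynomial.map_mul,
      Polynomial.map_one, hvw, sub_self]
  obtain ⟨z, hz⟩ : C (p : ℤ) ∣ v * a + w * f - 1 := by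
    rw [Polynomial.C_dvd_iff_dvd_coeff]
    intro i
    rw [← ZMod.intCast_zmod_eq_zero_iff_dvd]
    have := congrArg (fun r => coeff r i) h1
    simpa only [coeff_map, coeff_zero, eq_intCast] using this
  have h2 := congrArg (aeval (th hf)) hz
  rw [map_sub, map_add, map_mul, map_mul, map_mul, aeval_th_self, mul_zero, add_zero, map_one] at h2
  have h3 : (aeval (th hf) (C (p : ℤ)) : 𝓞 (KK f)) = (p : 𝓞 (KK f)) := by
    rw [aeval_C]; simp
  rw [h3] at h2
  apply hq.ne_top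
  rw [Ideal.eq_top_iff_one]
  have h4 : (1 : 𝓞 (KK f)) = aeval (th hf) v * aeval (th hf) a - p * aeval (th hf) z := by
    rw [← h2]; ring
  rw [h4]
  exact q.sub_mem (q.mul_mem_left _ hmem) (q.mul_mem_right _ hp)

lemma intCast_notMem {p : ℕ} (hpp : p.Prime) {d : ℤ} (hd : ¬ (p : ℤ) ∣ d)
    {q : Ideal (𝓞 (KK f))} (hq : q.IsPrime) (hp : (p : 𝓞 (KK f)) ∈ q) :
    (d : 𝓞 (KK f)) ∉ q := by
  intro hmem
  have h1 : IsCoprime (p : ℤ) d := by
    rw [(Nat.prime_iff_prime_int.1 hpp).irreducible.coprime_iff_not_dvd]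
    exact hd
  obtain ⟨u, v, huv⟩ := h1
  apply hq.ne_top
  rw [Ideal.eq_top_iff_one]
  have h2 : (1 : 𝓞 (KK f)) = (u : 𝓞 (KK f)) * (p : 𝓞 (KK f)) + (v : 𝓞 (KK f)) * (d : 𝓞 (KK f)) := by
    have := congrArg (Int.cast : ℤ → 𝓞 (KK f)) huv
    push_cast at this
    exact this.symm
  rw [h2]
  exact q.add_mem (q.mul_mem_left _ hp) (q.mul_mem_left _ hmem)

/-- The multiplicity of a prime ideal in a principal ideal. -/
noncomputable def vq (q : Ideal (𝓞 (KK f))) (y : 𝓞 (KK f)) : ℕ :=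
  haveI := Classical.decEq (Ideal (𝓞 (KK f)))
  (normalizedFactors (Ideal.span {y})).count q

lemma vq_mul (q : Ideal (𝓞 (KK f))) {y z : 𝓞 (KK f)} (hy : y ≠ 0) (hz : z ≠ 0) :
    vq q (y * z) = vq q y + vq q z := by
  unfold vq
  rw [← Ideal.span_singleton_mul_span_singleton, normalizedFactors_mul, Multiset.count_add]
  · rw [Ideal.zero_eq_bot, Ne, Ideal.span_singleton_eq_bot]; exact hy
  · rw [Ideal.zero_eq_bot, Ne, Ideal.span_singleton_eq_bot]; exact hz

lemma vq_eq_zero {q : Ideal (𝓞 (KK f))} {y : 𝓞 (KK f)} (hy : y ∉ q) : vq q y = 0 := by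
  unfold vq
  rw [Multiset.count_eq_zero]
  intro h
  have h1 := dvd_of_mem_normalizedFactors h
  rw [Ideal.dvd_span_singleton] at h1
  exact hy h1

/-- Parity at the primes where `EvenAt` holds. -/
lemma even_vq (hf : f.Monic) {p : ℕ} [hp : Fact p.Prime] {Δ : ℚ[X]} (hE : EvenAt f p Δ)
    {X₀ : 𝓞 (KK f)} (hX₀ : X₀ ≠ 0) {D : ℤ} (hD : D ≠ 0)
    (hX : algebraMap (𝓞 (KK f)) (KK f) X₀ = AdjoinRoot.mk (fr f) Δ * (D : KK f) ^ 2)
    {q : Ideal (𝓞 (KK f))} (hq : q.IsPrime) (hpq : (p : 𝓞 (KK f)) ∈ q) : Even (vq q X₀) := by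
  obtain ⟨w, a, d, hd, ha, hdvd⟩ := hE
  have hA := aeval_notMem hf ha hq hpq
  have hdq := intCast_notMem hp.out hd hq hpq
  have hA0 : (aeval (th hf) a : 𝓞 (KK f)) ≠ 0 := by
    intro h
    apply hA
    rw [h]
    exact q.zero_mem
  have hd0 : (d : 𝓞 (KK f)) ≠ 0 := by
    intro h
    apply hdq
    rw [h]
    exact q.zero_mem
  have heq := AdjoinRoot.mk_eq_mk.2 hdvd
  rw [map_mul, map_mul, map_pow, ← coe_aeval_th hf] at heq
  have hC : AdjoinRoot.mk (fr f) (C (d : ℚ)) = (d : KK f) := by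
    rw [AdjoinRoot.mk_C]; simp
  rw [hC] at heq
  obtain ⟨w₁, w₂, hw₂, hw⟩ := IsFractionRing.div_surjective (A := 𝓞 (KK f))
    (AdjoinRoot.mk (fr f) w)
  have hw₂0 : w₂ ≠ 0 := nonZeroDivisors.ne_zero hw₂
  have hw₂K : algebraMap (𝓞 (KK f)) (KK f) w₂ ≠ 0 := RingOfIntegers.coe_ne_zero_iff.2 hw₂0
  rw [← hw] at heq
  have hD0 : (D : 𝓞 (KK f)) ≠ 0 := by exact_mod_cast hD
  have key : (d : 𝓞 (KK f)) * X₀ * (w₁ * w₁) = aeval (th hf) a * ((D * w₂) * (D * w₂)) := by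
    apply FaithfulSMul.algebraMap_injective (𝓞 (KK f)) (KK f)
    simp only [map_mul, map_intCast]
    rw [hX, ← heq]
    field_simp
  have hw₁0 : w₁ ≠ 0 := by
    rintro rfl
    rw [mul_zero, mul_zero] at key
    exact mul_ne_zero hA0 (mul_ne_zero (mul_ne_zero hD0 hw₂0) (mul_ne_zero hD0 hw₂0)) key.symm
  have h1 := congrArg (vq q) key
  rw [vq_mul q (mul_ne_zero hd0 hX₀) (mul_ne_zero hw₁0 hw₁0), vq_mul q hd0 hX₀,
    vq_mul q hw₁0 hw₁0, vq_mul q hA0 (mul_ne_zero (mul_ne_zero hD0 hw₂0) (mul_ne_zero hD0 hw₂0)),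
    vq_mul q (mul_ne_zero hD0 hw₂0) (mul_ne_zero hD0 hw₂0), vq_eq_zero hdq, vq_eq_zero hA] at h1
  exact ⟨vq q (D * w₂) - vq q w₁, by omega⟩

/-- A nonzero prime ideal contains a prime number. -/
lemma exists_prime_mem {q : Ideal (𝓞 (KK f))} (hq : q.IsPrime) (hq0 : q ≠ ⊥) :
    ∃ p : ℕ, p.Prime ∧ (p : 𝓞 (KK f)) ∈ q := by
  have h1 : ∀ n : ℕ, n ≠ 0 → (n : 𝓞 (KK f)) ∈ q → ∃ p : ℕ, p.Prime ∧ (p : 𝓞 (KK f)) ∈ q := by
    intro n
    induction n using Nat.strong_induction_on with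
    | _ n ih =>
      intro hn hmem
      have hn1 : n ≠ 1 := by
        rintro rfl
        apply hq.ne_top
        rw [Ideal.eq_top_iff_one]
        simpa using hmem
      obtain ⟨p, hp, m, hm⟩ := Nat.exists_prime_and_dvd hn1
      rw [hm, Nat.cast_mul] at hmem
      rcases hq.mem_or_mem hmem with h | h
      · exact ⟨p, hp, h⟩
      · have hm0 : m ≠ 0 := by
          rintro rfl
          exact hn (by rw [hm, mul_zero])
        refine ih m ?_ hm0 h
        rw [hm]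
        exact (Nat.lt_mul_iff_one_lt_left (Nat.pos_of_ne_zero hm0)).2 hp.one_lt
  refine h1 (Ideal.absNorm q) ?_ (Ideal.absNorm_mem q)
  rw [Ne, Ideal.absNorm_eq_zero_iff]
  exact hq0

/-- Finiteness of the elements with even valuations outside the primes `≤ C₀`, modulo squares. -/
theorem exists_reps (hf : f.Monic) (C₀ : ℕ) : ∃ S : Set (KK f), S.Finite ∧
    ∀ Δ : ℚ[X], AdjoinRoot.mk (fr f) Δ ≠ 0 →
      (∀ (p : ℕ) [Fact p.Prime], C₀ < p → EvenAt f p Δ) →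
        ∃ ε ∈ S, ∃ γ : KK f, γ ≠ 0 ∧ AdjoinRoot.mk (fr f) Δ = ε * γ ^ 2 := by
  classical
  set M : Ideal (𝓞 (KK f)) := Ideal.span {((C₀.factorial : ℕ) : 𝓞 (KK f))} with hM
  obtain ⟨S, hS, hSx⟩ := exists_square_reps (KK f) (Ideal.absNorm M)
  refine ⟨S, hS, fun Δ hΔ hE => ?_⟩
  -- scale to an integral element
  obtain ⟨D, hD, hint⟩ : ∃ D : ℤ, D ≠ 0 ∧ IsIntegral ℤ (AdjoinRoot.mk (fr f) Δ * (D : KK f) ^ 2) := by
    have halg : IsAlgebraic ℤ (AdjoinRoot.mk (fr f) Δ) := by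
      have h1 : IsAlgebraic ℚ (AdjoinRoot.mk (fr f) Δ) := Algebra.IsAlgebraic.isAlgebraic _
      exact (IsFractionRing.isAlgebraic_iff ℤ ℚ (KK f)).2 h1
    obtain ⟨D, hD, hint⟩ := halg.exists_integral_multiple
    refine ⟨D, hD, ?_⟩
    have h2 : AdjoinRoot.mk (fr f) Δ * (D : KK f) ^ 2 =
        (D • AdjoinRoot.mk (fr f) Δ) * (D : KK f) := by
      rw [zsmul_eq_mul]; ring
    rw [h2]
    exact hint.mul (isIntegral_intCast (R := ℤ) D)
  set X₀ : 𝓞 (KK f) := ⟨_, hint⟩ with hX₀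
  have hX : algebraMap (𝓞 (KK f)) (KK f) X₀ = AdjoinRoot.mk (fr f) Δ * (D : KK f) ^ 2 := rfl
  have hDK : (D : KK f) ≠ 0 := by exact_mod_cast hD
  have hX0 : X₀ ≠ 0 := by
    rw [← RingOfIntegers.coe_ne_zero_iff, hX]
    exact mul_ne_zero hΔ (pow_ne_zero 2 hDK)
  have hI : Ideal.span {X₀} ≠ 0 := by
    rw [Ideal.zero_eq_bot, Ne, Ideal.span_singleton_eq_bot]; exact hX0
  obtain ⟨b, c, hbc, hbM⟩ := exists_decomp (I := Ideal.span {X₀}) (M := M) hI (by
    intro q hq hodd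
    by_contra hqM
    have hq' : q.IsPrime := Ideal.isPrime_of_prime hq
    obtain ⟨p, hp, hpq⟩ := exists_prime_mem hq' hq.ne_zero
    have : Fact p.Prime := ⟨hp⟩
    have hpC : C₀ < p := by
      by_contra hle
      apply hqM
      rw [hM, Ideal.dvd_span_singleton]
      have h1 : p ∣ C₀.factorial := (hp.dvd_factorial).2 (not_lt.1 hle)
      obtain ⟨m, hm⟩ := h1
      rw [hm, Nat.cast_mul]
      exact q.mul_mem_right _ hpq
    have h2 := even_vq hf (hE p hpC) hX0 hD hX hq' hpq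
    rw [← Nat.not_odd_iff_even] at h2
    apply h2
    unfold vq
    have e : (Classical.decEq (Ideal (𝓞 (KK f)))) =
        (fun a b => Classical.propDecidable (a = b)) := Subsingleton.elim _ _
    rw [e]
    exact hodd)
  have hbN : (Ideal.absNorm b : ℝ) ≤ Ideal.absNorm M := by
    have h1 : Ideal.absNorm b ∣ Ideal.absNorm M := map_dvd _ hbM
    have h2 : Ideal.absNorm M ≠ 0 := by
      rw [Ne, Ideal.absNorm_eq_zero_iff, hM, Ideal.span_singleton_eq_bot]
      exact_mod_cast Nat.factorial_ne_zero C₀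
    exact_mod_cast Nat.le_of_dvd (Nat.pos_of_ne_zero h2) h1
  obtain ⟨ε, hε, γ, hγ, hx⟩ := hSx X₀ hX0 b c hbc hbN
  refine ⟨ε, hε, γ / D, div_ne_zero hγ hDK, ?_⟩
  rw [RingOfIntegers.coe_eq_algebraMap, hX] at hx
  rw [div_pow, mul_div_assoc', ← hx]
  field_simp

end Stoll308.Gen
end

section
set_option autoImplicit false

/-!
Assembly: `EvenAt` for `r δ g₁ g₂`.
-/

namespace Stoll308.Gen

open Polynomial Finset NumberTheorySymbols

section evenAt

variable {f : ℤ[X]}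

lemma EvenAt.unit_mul {p : ℕ} [hp : Fact p.Prime] {Δ : ℚ[X]} (h : EvenAt f p Δ) {u v : ℤ}
    (hu : ¬ (p : ℤ) ∣ u) (hv : ¬ (p : ℤ) ∣ v) : EvenAt f p (C ((u : ℚ) / v) * Δ) := by
  obtain ⟨w, a, d, hd, ha, hdvd⟩ := h
  have hpp : Prime (p : ℤ) := Nat.prime_iff_prime_int.1 hp.out
  have hv0 : (v : ℚ) ≠ 0 := by
    intro h
    apply hv
    have : v = 0 := by exact_mod_cast h
    rw [this]
    exact dvd_zero _
  refine ⟨w, C u * a, d * v, fun h => ?_, ?_, ?_⟩
  · rcases hpp.dvd_mul.1 h with h | h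
    · exact hd h
    · exact hv h
  · rw [Polynomial.map_mul, map_C]
    have hu' : IsUnit (C ((Int.castRingHom (ZMod p)) u)) := by
      rw [Polynomial.isUnit_C, isUnit_iff_ne_zero, eq_intCast, Ne,
        ZMod.intCast_zmod_eq_zero_iff_dvd]
      exact hu
    exact (isCoprime_mul_unit_left_left hu' _ _).2 ha
  · have h1 : C ((d * v : ℤ) : ℚ) * (C ((u : ℚ) / v) * Δ) * w ^ 2 -
        (C u * a).map (Int.castRingHom ℚ) =
        C (u : ℚ) * (C (d : ℚ) * Δ * w ^ 2 - a.map (Int.castRingHom ℚ)) := by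
      rw [Polynomial.map_mul, map_C, eq_intCast]
      have h2 : C ((d * v : ℤ) : ℚ) * C ((u : ℚ) / v) = C (u : ℚ) * C (d : ℚ) := by
        rw [← C_mul, ← C_mul]
        congr 1
        push_cast
        field_simp
      linear_combination (Δ * w ^ 2) * h2
    rw [h1]
    exact Dvd.dvd.mul_left hdvd _

lemma EvenAt.zpow_mul {p q : ℕ} [hp : Fact p.Prime] {Δ : ℚ[X]} (h : EvenAt f p Δ)
    (hq : q.Prime) (hpq : p ≠ q) (e : ℤ) : EvenAt f p (C ((q : ℚ) ^ e) * Δ) := by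
  have hpp : Prime (p : ℤ) := Nat.prime_iff_prime_int.1 hp.out
  have hk : ∀ k : ℕ, ¬ (p : ℤ) ∣ (q : ℤ) ^ k := by
    intro k hdiv
    have h1 := hpp.dvd_of_dvd_pow hdiv
    rw [Int.natCast_dvd_natCast] at h1
    exact hpq ((Nat.prime_dvd_prime_iff_eq hp.out hq).1 h1)
  have h1 : ¬ (p : ℤ) ∣ 1 := by simpa using hk 0
  rcases Int.eq_nat_or_neg e with ⟨k, hk' | hk'⟩
  · have := h.unit_mul (hk k) h1
    rw [hk', zpow_natCast]
    simpa using this
  · have := h.unit_mul h1 (hk k)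
    rw [hk', zpow_neg, zpow_natCast]
    simpa using this

lemma EvenAt.prod_mul {p : ℕ} [hp : Fact p.Prime] {Δ : ℚ[X]} (h : EvenAt f p Δ) (Q : Finset ℕ)
    (hQ : ∀ q ∈ Q, q.Prime) (hpQ : p ∉ Q) (e : ℕ → ℤ) :
    EvenAt f p (C (∏ q ∈ Q, (q : ℚ) ^ (e q)) * Δ) := by
  classical
  induction Q using Finset.induction_on with
  | empty => simpa using h
  | insert q Q hq ih =>
    rw [prod_insert hq, C_mul, mul_assoc]
    apply (ih (fun r hr => hQ r (mem_insert_of_mem hr)) (fun h => hpQ (mem_insert_of_mem h))).zpow_mul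
      (hQ q (mem_insert_self _ _))
    rintro rfl
    exact hpQ (mem_insert_self _ _)

/-- `EvenAt` for almost all primes. -/
lemma evenAt_almost (hirr : Irreducible (fr f)) {Δ : ℚ[X]} (hΔ : ¬ fr f ∣ Δ) :
    ∃ B : ℕ, ∀ (p : ℕ) [Fact p.Prime], B < p → EvenAt f p Δ := by
  have hco : IsCoprime Δ (fr f) := ((hirr.coprime_iff_not_dvd).2 hΔ).symm
  obtain ⟨u, v, huv⟩ := hco
  obtain ⟨d₁, hd₁, a₁, ha₁⟩ := exists_clear Δ
  obtain ⟨d₂, hd₂, u₁, hu₁⟩ := exists_clear u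
  obtain ⟨d₃, hd₃, v₁, hv₁⟩ := exists_clear v
  have key : C d₃ * u₁ * a₁ + C (d₁ * d₂) * v₁ * f = C (d₁ * d₂ * d₃) := by
    apply Polynomial.map_injective (Int.castRingHom ℚ) Int.cast_injective
    have hcast : ∀ z : ℤ, (Int.castRingHom ℚ) z = (z : ℚ) := fun _ => rfl
    simp only [Polynomial.map_add, Polynomial.map_mul, map_C, ha₁, hu₁, hv₁, hcast, C_mul]

    linear_combination (C (d₁ : ℚ) * C (d₂ : ℚ) * C (d₃ : ℚ)) * huv
  refine ⟨(d₁ * d₂ * d₃).natAbs, fun p hpf hp => ?_⟩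
  have hne : d₁ * d₂ * d₃ ≠ 0 := mul_ne_zero (mul_ne_zero hd₁ hd₂) hd₃
  have hnd : ¬ (p : ℤ) ∣ d₁ * d₂ * d₃ := by
    intro h
    have h1 := Int.natAbs_dvd_natAbs.2 h
    rw [Int.natAbs_natCast] at h1
    exact absurd (Nat.le_of_dvd (Int.natAbs_pos.2 hne) h1) (by omega)
  refine ⟨1, a₁, d₁, fun h => hnd ((h.mul_right d₂).mul_right d₃), ?_, ?_⟩
  · have hc : ((d₁ * d₂ * d₃ : ℤ) : ZMod p) ≠ 0 := by
      rw [Ne, ZMod.intCast_zmod_eq_zero_iff_dvd]
      exact hnd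
    have key' := congrArg (Polynomial.map (Int.castRingHom (ZMod p))) key
    simp only [Polynomial.map_add, Polynomial.map_mul, map_C] at key'
    set c : ZMod p := ((d₁ * d₂ * d₃ : ℤ) : ZMod p) with hcdef
    refine ⟨C c⁻¹ * (C ((Int.castRingHom (ZMod p)) d₃) * u₁.map (Int.castRingHom (ZMod p))),
      C c⁻¹ * (C ((Int.castRingHom (ZMod p)) (d₁ * d₂)) * v₁.map (Int.castRingHom (ZMod p))), ?_⟩
    have h1 : C c⁻¹ * C ((Int.castRingHom (ZMod p)) (d₁ * d₂ * d₃)) = 1 := by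
      rw [← C_mul, eq_intCast, ← hcdef, inv_mul_cancel₀ hc, C_1]
    rw [← h1, ← key']
    ring
  · rw [ha₁, one_pow, mul_one, sub_self]
    exact dvd_zero _

end evenAt

section units

variable {f : ℤ[X]} {C₀ : ℕ} (hG : GoodBound f C₀) {T : Finset ℕ} {ρ : ℕ → ℕ}
  (hV : Valid f C₀ T ρ)

/-- The Thue element over `ℚ`. -/
noncomputable abbrev tq (f : ℤ[X]) (T : Finset ℕ) (ρ : ℕ → ℕ) : ℚ[X] :=
  poly (fun i => (thue f T ρ i : ℚ))

lemma dq_tq (p : ℕ) [Fact p.Prime] :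
    dq (tq f T ρ) p = (poly (fun i => (thue f T ρ i : ℤ_[p]))).map (algebraMap ℤ_[p] ℚ_[p]) := by
  unfold dq tq
  rw [poly_map, poly_map]
  simp

lemma mkq_tq (p : ℕ) [Fact p.Prime] :
    mkq f p (dq (tq f T ρ) p) = mkz f p (poly (fun i => (thue f T ρ i : ℤ_[p]))) := by
  rw [dq_tq, mkz_apply]

lemma rd_poly (p : ℕ) [Fact p.Prime] :
    (poly (fun i => (thue f T ρ i : ℤ_[p]))).map (rd p) =
      poly (fun i => (thue f T ρ i : ZMod p)) := by
  rw [poly_map]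
  simp

include hG hV

lemma UU_tq {p : ℕ} [hp : Fact p.Prime] (hpC : C₀ < p) (hpT : p ∉ T) :
    UU f p (mkq f p (dq (tq f T ρ) p)) := by
  refine ⟨poly (fun i => (thue f T ρ i : ℤ_[p])), ?_, (mkq_tq p).symm⟩
  rw [rd_poly]
  exact thue_coprime hG hV hp.out hpC hpT

lemma PP_tq {p : ℕ} [hp : Fact p.Prime] (hpT : p ∈ T) {α : ℤ_[p]} (hα : Lift f p (ρ p) α)
    {k : ℤ_[p][X]} {κ : ℤ_[p]} (hkm : k.Monic) (hk : fz f p = (X - C α) * k)
    (hκ : κ * k.eval α = 1) :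
    ∃ u, UU f p u ∧ mkq f p (dq (tq f T ρ) p) = PP f k κ (p : ℚ_[p]) * u := by
  obtain ⟨⟨v, hv, hev⟩, hco⟩ := thue_local hG hV hpT hα hkm hk
  refine ⟨_, ⟨_, PP_coprime hk hκ (poly (fun i => (thue f T ρ i : ℤ_[p]))) hv ?_, rfl⟩, ?_⟩
  · rw [rd_poly]
    exact hco
  · rw [mkq_tq, PP_decomp hk hκ _ hev]
    congr 1

end units

section unitAll

variable {f : ℤ[X]} {C₀ : ℕ} (hG : GoodBound f C₀)

include hG

end unitAll

end Stoll308.Gen
end

section
set_option autoImplicit false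

/-!
The relation data of the twists.
-/

namespace Stoll308.Gen

open Polynomial Finset NumberTheorySymbols

section sel

variable {f : ℤ[X]} {C₀ : ℕ} (hG : GoodBound f C₀)

lemma mem_bigPrimes {t : ℤ} (ht : t ≠ 0) {p : ℕ} :
    p ∈ bigPrimes C₀ t ↔ p.Prime ∧ (p : ℤ) ∣ t ∧ C₀ < p := by
  unfold bigPrimes
  rw [mem_filter, Nat.mem_primeFactors, ← Int.natCast_dvd]
  constructor
  · rintro ⟨⟨h1, h2, -⟩, h3⟩
    exact ⟨h1, h2, h3⟩
  · rintro ⟨h1, h2, h3⟩
    exact ⟨⟨h1, h2, by simpa using ht⟩, h3⟩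

lemma prod_bigPrimes_dvd {t : ℤ} :
    ((∏ p ∈ bigPrimes C₀ t, p : ℕ) : ℤ) ∣ t := by
  rw [Int.natCast_dvd]
  refine dvd_trans ?_ (Nat.prod_primeFactors_dvd t.natAbs)
  exact prod_dvd_prod_of_subset _ _ _ (filter_subset _ _)

end sel

section evalHom

variable {f : ℤ[X]} {p : ℕ} [hp : Fact p.Prime]

/-- Evaluation at a root in `ℤ_p`. -/
noncomputable def evHom {α : ℤ_[p]} (hα : (fz f p).eval α = 0) : AdjoinRoot (fr f) →+* ℚ_[p] :=
  AdjoinRoot.lift (algebraMap ℚ ℚ_[p]) (α : ℚ_[p]) (by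
    rw [eval₂_eq_eval_map, fr_map, fq_eval_coe, hα]
    rfl)

lemma evHom_mk {α : ℤ_[p]} (hα : (fz f p).eval α = 0) (q : ℚ[X]) :
    evHom hα (AdjoinRoot.mk (fr f) q) = (dq q p).eval (α : ℚ_[p]) := by
  unfold evHom
  rw [AdjoinRoot.lift_mk, eval₂_eq_eval_map]

lemma dq_tq_eval {T : Finset ℕ} {ρ : ℕ → ℕ} (α : ℤ_[p]) :
    (dq (tq f T ρ) p).eval (α : ℚ_[p]) =
      (((poly (fun i => (thue f T ρ i : ℤ_[p]))).eval α : ℤ_[p]) : ℚ_[p]) := by
  rw [dq_tq]
  exact eval_map_apply (algebraMap ℤ_[p] ℚ_[p]) α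

end evalHom

end Stoll308.Gen
end

section
set_option autoImplicit false

/-!
The relation data of the twists: main theorem of the algebraic part.
-/

namespace Stoll308.Gen

open Polynomial Finset NumberTheorySymbols

section

variable {f : ℤ[X]} {C₀ : ℕ} (hG : GoodBound f C₀)

include hG

lemma fr_irr : Irreducible (fr f) := irr_rat hG.monic hG.irr

lemma mk_tq_ne_zero {T : Finset ℕ} {ρ : ℕ → ℕ} (hV : Valid f C₀ T ρ) :
    AdjoinRoot.mk (fr f) (tq f T ρ) ≠ 0 := by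
  rw [Ne, AdjoinRoot.mk_eq_zero]
  intro hd
  have hm : (fr f).Monic := hG.monic.map _
  have h2 := eq_zero_of_dvd_of_degree_lt hd (by
    rw [degree_eq_natDegree hm.ne_zero, hG.monic.natDegree_map]; exact poly_degree_lt _)
  apply (thue_spec' hG hV).1
  funext i
  have h3 := poly_coeff (fun i => (thue f T ρ i : ℚ)) i
  have h2' : poly (fun i => (thue f T ρ i : ℚ)) = 0 := h2
  rw [h2', coeff_zero] at h3
  have h4 : ((thue f T ρ i : ℤ) : ℚ) = 0 := h3.symm
  simpa using h4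

end

end Stoll308.Gen
end

section
set_option autoImplicit false

/-! Comparison of Euler products. -/

namespace Stoll308.Gen

open Finset Polynomial Stoll308.MeanSum Pool.Agent.Work.MP_2b9663_nt

/-- Mertens with a real cutoff. -/
lemma mertens_real : ∃ C : ℝ, 0 < C ∧ ∀ z : ℝ, 3 ≤ z →
    |∑ p ∈ PR ⌊z⌋₊, 1 / (p : ℝ) - Real.log (Real.log z)| ≤ C := by
  obtain ⟨C, hC, h⟩ := mv_sum (c := fun _ => 1) MV.one
  refine ⟨C + 1, by linarith, fun z hz => ?_⟩
  have hX3 : 3 ≤ ⌊z⌋₊ := Nat.le_floor (by exact_mod_cast hz)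
  have h1 := abs_le.1 (h ⌊z⌋₊ hX3)
  rw [one_mul] at h1
  have hx1 : (3 : ℝ) ≤ ⌊z⌋₊ := by exact_mod_cast hX3
  have hlog3 : 1 ≤ Real.log 3 := by
    have : Real.log (Real.exp 1) ≤ Real.log 3 :=
      Real.log_le_log (Real.exp_pos 1) (Real.exp_one_lt_d9.le.trans (by norm_num))
    rwa [Real.log_exp] at this
  have h5 : Real.log (Real.log ⌊z⌋₊) ≤ Real.log (Real.log z) := by
    apply Real.log_le_log
    · exact Real.log_pos (by linarith)
    · exact Real.log_le_log (by linarith) (Nat.floor_le (by linarith))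
  have h6 : Real.log (Real.log z) - 1 ≤ Real.log (Real.log ⌊z⌋₊) := by
    have h7 : z ≤ 2 * ⌊z⌋₊ := by
      have := Nat.lt_floor_add_one z
      linarith
    have h8 : 1 ≤ Real.log ⌊z⌋₊ := hlog3.trans (Real.log_le_log (by norm_num) hx1)
    have h9 : Real.log z ≤ 2 * Real.log ⌊z⌋₊ := by
      have h10 : Real.log z ≤ Real.log (2 * ⌊z⌋₊) := Real.log_le_log (by linarith) h7
      rw [Real.log_mul (by norm_num) (by linarith)] at h10
      have h11 : Real.log 2 ≤ 1 := by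
        have := Real.log_two_lt_d9
        linarith
      linarith
    have h12 : Real.log (Real.log z) ≤ Real.log (2 * Real.log ⌊z⌋₊) :=
      Real.log_le_log (Real.log_pos (by linarith)) h9
    rw [Real.log_mul (by norm_num) (by linarith)] at h12
    have h11 : Real.log 2 ≤ 1 := by
      have := Real.log_two_lt_d9
      linarith
    linarith
  rw [abs_le]
  constructor <;> linarith [h1.1, h1.2]

lemma prod_le_exp (s : Finset ℕ) (a : ℕ → ℝ) (ha : ∀ p ∈ s, 0 ≤ a p) :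
    ∏ p ∈ s, (1 + a p / p) ≤ Real.exp (∑ p ∈ s, a p / p) := by
  rw [Real.exp_sum]
  refine prod_le_prod (fun p hp => ?_) fun p hp => ?_
  · have := ha p hp
    positivity
  · have := Real.add_one_le_exp (a p / (p : ℝ))
    linarith

lemma prod_ge_exp (s : Finset ℕ) (hs : ∀ p ∈ s, p.Prime) :
    Real.exp (∑ p ∈ s, 1 / (p : ℝ) - 1) ≤ ∏ p ∈ s, (1 + 1 / (p : ℝ)) := by
  have h2 : ∑ p ∈ s, (1 / (p : ℝ)) ^ 2 ≤ 1 := AP.sum_inv_sq_le s hs
  have hpos : 0 < ∏ p ∈ s, (1 + 1 / (p : ℝ)) := prod_pos fun p _ => by positivity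
  rw [← Real.le_log_iff_exp_le hpos, Real.log_prod fun p _ => by positivity]
  calc ∑ p ∈ s, 1 / (p : ℝ) - 1 ≤ ∑ p ∈ s, (1 / (p : ℝ) - (1 / (p : ℝ)) ^ 2) := by
        rw [sum_sub_distrib]; linarith
    _ ≤ _ := sum_le_sum fun p _ => AP.log_one_add_ge (by positivity)

/-- E4 -/
theorem euler_const (A : ℝ) (hA : 0 ≤ A) : ∃ C : ℝ, 0 < C ∧ ∀ X : ℕ, 3 ≤ X →
    ∏ p ∈ (Icc 1 X).filter Nat.Prime, (1 + A / (p : ℝ)) ≤ C * Real.log X ^ A := by
  obtain ⟨C, hC, h⟩ := mertens_real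
  refine ⟨Real.exp (A * C), Real.exp_pos _, fun X hX => ?_⟩
  have hX1 : (3 : ℝ) ≤ X := by exact_mod_cast hX
  have hlog : 0 < Real.log X := Real.log_pos (by linarith)
  refine (prod_le_exp _ (fun _ => A) fun _ _ => hA).trans ?_
  rw [Real.rpow_def_of_pos hlog, ← Real.exp_add, Real.exp_le_exp]
  have h1 := (abs_le.1 (h X hX1)).2
  rw [Nat.floor_natCast] at h1
  have h2 : ∑ p ∈ (Icc 1 X).filter Nat.Prime, A / (p : ℝ) = A * ∑ p ∈ PR X, 1 / (p : ℝ) := by
    rw [mul_sum]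
    exact sum_congr rfl fun p _ => by ring
  rw [h2]
  have h3 := mul_le_mul_of_nonneg_left h1 hA
  linarith [mul_sub A (∑ p ∈ PR X, 1 / (p : ℝ)) (Real.log (Real.log X))]

section weights

variable {f : ℤ[X]}

lemma two_pow_bound {n : ℕ} (hn : 6 ≤ n) : (n : ℝ) * (1 / 2) ^ (n - 2) ≤ 3 / 8 := by
  induction n, hn using Nat.le_induction with
  | base => norm_num
  | succ n hn ih =>
    have h1 : n + 1 - 2 = (n - 2) + 1 := by omega
    rw [h1, pow_succ]
    have h2 : (6 : ℝ) ≤ n := by exact_mod_cast hn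
    have h3 : (0 : ℝ) < (1 / 2) ^ (n - 2) := by positivity
    push_cast
    nlinarith

lemma n_pow_bound (n : ℕ) (hn : 1 ≤ n) : (n : ℝ) * (1 / 2) ^ (n - 1) ≤ 1 := by
  induction n, hn using Nat.le_induction with
  | base => norm_num
  | succ n hn ih =>
    have h1 : n + 1 - 1 = (n - 1) + 1 := by omega
    rw [h1, pow_succ]
    have h2 : (1 : ℝ) ≤ n := by exact_mod_cast hn
    have h3 : (0 : ℝ) < (1 / 2) ^ (n - 1) := by positivity
    push_cast
    nlinarith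

end weights

section main

open Filter Topology

lemma three_le_exp_two : (3 : ℝ) ≤ Real.exp 2 := by
  have := Real.add_one_le_exp (2 : ℝ)
  linarith

end main

end Stoll308.Gen
end

section
set_option autoImplicit false

/-!
Final assembly: from the monic case to the general case.
-/

namespace Stoll308.Irr

open Polynomial Finset Filter Stoll308.Gen Stoll308.MeanSum

/-- The Euler product of the primes with a root. -/
noncomputable def VV (f : ℤ[X]) (X : ℕ) : ℝ := ∏ p ∈ rootPrimes f X, (1 + 1 / (p : ℝ))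

lemma VV_pos (f : ℤ[X]) (X : ℕ) : 0 < VV f X := prod_pos fun p _ => by positivity

/-- The product does not change much from `X / a` to `a X`. -/
lemma VV_le (f : ℤ[X]) (a : ℕ) (ha : 1 ≤ a) : ∃ K : ℝ, 0 < K ∧ ∃ X₀ : ℕ, ∀ X : ℕ, X₀ ≤ X →
    VV f (a * X) ≤ K * VV f (X / a) := by
  obtain ⟨C, hC, hM⟩ := mertens_real
  refine ⟨Real.exp (Real.log 3 + 2 * C), Real.exp_pos _, 3 * a + (4 * a) ^ 3, fun X hX => ?_⟩
  have haR : (1 : ℝ) ≤ a := by exact_mod_cast ha
  set Y := X / a with hY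
  have hYX : Y ≤ a * X := (Nat.div_le_self X a).trans (Nat.le_mul_of_pos_left X (by omega))
  have hY3 : 3 ≤ Y := by
    rw [hY, Nat.le_div_iff_mul_le (by omega)]
    exact le_trans (Nat.le_add_right _ _) hX
  have hY3R : (3 : ℝ) ≤ Y := by exact_mod_cast hY3
  have hXR : ((4 * a : ℕ) : ℝ) ^ 3 ≤ X := by
    exact_mod_cast le_trans (Nat.le_add_left _ _) hX
  have hX0 : (0 : ℝ) < X := lt_of_lt_of_le (by positivity) hXR
  have hYge : (X : ℝ) / (2 * a) ≤ Y := by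
    have h1 : X < a * (Y + 1) := Nat.lt_mul_div_succ X (by omega)
    have h2 : (X : ℝ) < a * (Y + 1) := by exact_mod_cast h1
    rw [div_le_iff₀ (by positivity)]
    nlinarith
  -- logs
  have hlogaX : Real.log ((a * X : ℕ) : ℝ) ≤ 3 * Real.log Y := by
    have h1 : Real.log Y ^ 1 = Real.log Y := pow_one _
    have h2 : 3 * Real.log (Y : ℝ) = Real.log ((Y : ℝ) ^ 3) := by
      rw [Real.log_pow]; norm_num
    rw [h2]
    apply Real.log_le_log
    · push_cast; positivity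
    · push_cast
      have h3 : ((X : ℝ) / (2 * a)) ^ 3 ≤ (Y : ℝ) ^ 3 := pow_le_pow_left₀ (by positivity) hYge 3
      refine le_trans ?_ h3
      rw [div_pow, le_div_iff₀ (by positivity)]
      have h4 : (a : ℝ) * X * (2 * a) ^ 3 = (8 * a ^ 4) * X := by ring
      rw [h4]
      have h5 : (8 * (a : ℝ) ^ 4) ≤ X ^ 2 := by
        have h6 : (1 : ℝ) ≤ X := le_trans (by
          have : (1 : ℝ) ≤ ((4 * a : ℕ) : ℝ) := by exact_mod_cast (by omega : 1 ≤ 4 * a)
          exact one_le_pow₀ this) hXR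
        have h7 : (64 * (a : ℝ) ^ 3) ≤ X := by
          have : (((4 * a : ℕ) : ℝ)) ^ 3 = 64 * (a : ℝ) ^ 3 := by push_cast; ring
          rw [← this]; exact hXR
        have h8 : (a : ℝ) ≤ X := by
          have : (a : ℝ) ≤ a ^ 3 := le_self_pow₀ haR (by norm_num)
          nlinarith [pow_pos (by linarith : (0:ℝ) < a) 3]
        calc 8 * (a : ℝ) ^ 4 ≤ (64 * (a : ℝ) ^ 3) * a := by
              nlinarith [pow_pos (by linarith : (0 : ℝ) < a) 4]
          _ ≤ (X : ℝ) * X := mul_le_mul h7 h8 (by positivity) hX0.le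
          _ = (X : ℝ) ^ 2 := by ring
      calc 8 * (a : ℝ) ^ 4 * X ≤ (X : ℝ) ^ 2 * X := mul_le_mul_of_nonneg_right h5 hX0.le
        _ = (X : ℝ) ^ 3 := by ring
  have hlogY : 0 < Real.log Y := Real.log_pos (by linarith)
  have hlogaX0 : 0 < Real.log ((a * X : ℕ) : ℝ) := by
    apply Real.log_pos
    have : (3 : ℝ) ≤ ((a * X : ℕ) : ℝ) := by exact_mod_cast hY3.trans hYX
    linarith
  have hll : Real.log (Real.log ((a * X : ℕ) : ℝ)) ≤ Real.log 3 + Real.log (Real.log Y) := by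
    rw [← Real.log_mul (by norm_num) hlogY.ne']
    exact Real.log_le_log hlogaX0 hlogaX
  -- the primes in between
  have hsub : rootPrimes f Y ⊆ rootPrimes f (a * X) := by
    intro p hp
    unfold rootPrimes at hp ⊢
    rw [mem_filter, mem_Icc] at hp ⊢
    exact ⟨⟨hp.1.1, hp.1.2.trans hYX⟩, hp.2⟩
  have hsplit : VV f (a * X) = (∏ p ∈ rootPrimes f (a * X) \ rootPrimes f Y, (1 + 1 / (p : ℝ))) *
      VV f Y := by
    unfold VV
    rw [prod_sdiff hsub]
  rw [hsplit]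
  apply mul_le_mul_of_nonneg_right _ (VV_pos f Y).le
  refine (prod_le_exp _ (fun _ => 1) fun _ _ => zero_le_one).trans ?_
  rw [Real.exp_le_exp]
  have h1 : ∑ p ∈ rootPrimes f (a * X) \ rootPrimes f Y, 1 / (p : ℝ) ≤
      ∑ p ∈ PR (a * X) \ PR Y, 1 / (p : ℝ) := by
    apply sum_le_sum_of_subset_of_nonneg
    · intro p hp
      rw [Finset.mem_sdiff] at hp ⊢
      unfold rootPrimes at hp
      rw [mem_filter, mem_Icc, mem_filter, mem_Icc] at hp
      rw [mem_PR, mem_PR]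
      refine ⟨⟨hp.1.2.1, hp.1.1.2⟩, fun h => hp.2 ⟨⟨hp.1.1.1, h.2⟩, hp.1.2⟩⟩
    · intro _ _ _
      positivity
  have hsub2 : PR Y ⊆ PR (a * X) := by
    intro p hp
    rw [mem_PR] at hp ⊢
    exact ⟨hp.1, hp.2.trans hYX⟩
  have h2 := sum_sdiff (f := fun p : ℕ => 1 / (p : ℝ)) hsub2
  have h3 := (abs_le.1 (hM ((a * X : ℕ) : ℝ) (by exact_mod_cast hY3.trans hYX))).2
  have h4 := (abs_le.1 (hM (Y : ℝ) hY3R)).1
  rw [Nat.floor_natCast] at h3 h4
  linarith

end Stoll308.Irr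
end

section
set_option autoImplicit false

/-!
Final assembly with natural density: from the monic case to the general case.
-/

namespace Stoll308.Irr

open Polynomial Finset Filter Stoll308.Gen Stoll308.MeanSum

lemma cnt_mono (P : ℤ → Prop) {X Y : ℕ} (h : X ≤ Y) : cnt P X ≤ cnt P Y := by
  classical
  unfold cnt
  apply card_le_card
  intro t ht
  rw [mem_filter, mem_Icc] at ht ⊢
  have : (X : ℤ) ≤ Y := by exact_mod_cast h
  exact ⟨⟨by linarith [ht.1.1], by linarith [ht.1.2]⟩, ht.2⟩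

/-- Comparison of counts under `t ↦ sf (t c)`. -/
lemma cnt_le {P P' : ℤ → Prop} {c : ℤ} (hc : c ≠ 0)
    (h : ∀ t : ℤ, Squarefree t → P t → P' (sf (t * c))) (X : ℕ) :
    cnt P X ≤ cnt P' (c.natAbs * X) := by
  classical
  have hca : 0 < c.natAbs := Int.natAbs_pos.2 hc
  unfold cnt
  have hspec : ∀ t : ℤ, Squarefree t → Squarefree (sf (t * c)) ∧ ∃ m : ℤ, m ≠ 0 ∧
      t * c = sf (t * c) * m ^ 2 := fun t ht => sf_spec (mul_ne_zero ht.ne_zero hc)
  have hle : ∀ t : ℤ, Squarefree t → |sf (t * c)| ≤ c.natAbs * |t| := by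
    intro t ht
    obtain ⟨-, m, hm, h1⟩ := hspec t ht
    have h2 : |t * c| = |sf (t * c)| * m ^ 2 := by
      conv_lhs => rw [h1]
      rw [abs_mul, abs_of_nonneg (sq_nonneg m)]
    have h3 : 1 ≤ m ^ 2 := by
      have : 0 < m ^ 2 := by positivity
      omega
    have h4 : |t * c| = c.natAbs * |t| := by
      rw [abs_mul, Int.natCast_natAbs]; ring
    rw [← h4, h2]
    nlinarith [abs_nonneg (sf (t * c))]
  apply card_le_card_of_injOn (fun t => sf (t * c))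
  · intro t ht
    rw [mem_coe, mem_filter, mem_Icc] at ht
    rw [mem_coe, mem_filter, mem_Icc]
    have h1 := hle t ht.2.1
    have h2 : |t| ≤ (X : ℤ) := abs_le.2 ht.1
    have h3 : |sf (t * c)| ≤ ((c.natAbs * X : ℕ) : ℤ) := by
      rw [Nat.cast_mul]
      exact h1.trans (mul_le_mul_of_nonneg_left h2 (Int.natCast_nonneg _))
    exact ⟨abs_le.1 h3, (hspec t ht.2.1).1, h t ht.2.1 ht.2.2⟩
  · intro t ht t' ht' heq
    rw [mem_coe, mem_filter] at ht ht'
    obtain ⟨-, m, hm, h1⟩ := hspec t ht.2.1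
    obtain ⟨-, m', hm', h1'⟩ := hspec t' ht'.2.1
    apply sqfree_unique ht.2.1 ht'.2.1 (u := m') (v := m) hm'
    apply mul_right_cancel₀ hc
    simp only at heq
    rw [heq] at h1
    linear_combination m' ^ 2 * h1 - m ^ 2 * h1'

/-- The general case from the monic one, natural density. -/
theorem card_of_monic (F : ℤ[X])
    (hev : Even F.natDegree) (hn : 1 ≤ F.natDegree)
    (hU : ∃ c C : ℝ, 0 < c ∧ ∃ X₀ : ℕ, ∀ X : ℕ, X₀ ≤ X →
      (cnt (Gen.Sel (mon F)) X : ℝ) ≤ C * X * Real.log X ^ (-1 - c) * VV (mon F) X)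
    (hL : ∃ c : ℝ, 0 < c ∧ ∃ X₀ : ℕ, ∀ X : ℕ, X₀ ≤ X →
      c * X / Real.log X * VV (mon F) X ≤ (cnt (Gen.ELS (mon F)) X : ℝ)) :
    (∃ c : ℝ, 0 < c ∧ ∃ X₀ : ℕ, ∀ X : ℕ, X₀ ≤ X →
      c * X / Real.log X ≤ (cnt (ELS F) X : ℝ)) ∧
    (∃ c C : ℝ, 0 < c ∧ ∃ X₀ : ℕ, ∀ X : ℕ, X₀ ≤ X →
      (cnt (FakeSel F) X : ℝ) ≤ C * Real.log X ^ (-c) * cnt (ELS F) X) := by
  have hc0 : F.leadingCoeff ≠ 0 := by
    rw [Ne, leadingCoeff_eq_zero]
    rintro rfl
    simp at hn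
  set a := F.leadingCoeff.natAbs with ha
  have ha1 : 1 ≤ a := Int.natAbs_pos.2 hc0
  have haR : (1 : ℝ) ≤ a := by exact_mod_cast ha1
  -- comparison of counts
  have hsel : ∀ X, cnt (FakeSel F) X ≤ cnt (Gen.Sel (mon F)) (a * X) := by
    intro X
    apply cnt_le hc0
    intro t ht hP
    obtain ⟨-, m, hm, h1⟩ := sf_spec (mul_ne_zero ht.ne_zero hc0)
    refine fakeSel_mon hn hev (m := (m : ℚ)) (by exact_mod_cast hm) ?_ hP
    conv_lhs => rw [h1]
    push_cast; ring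
  have hels : ∀ X, cnt (Gen.ELS (mon F)) X ≤ cnt (ELS F) (a * X) := by
    intro X
    apply cnt_le hc0
    intro t ht hP
    obtain ⟨-, m, hm, h1⟩ := sf_spec (mul_ne_zero ht.ne_zero hc0)
    have hmq : (m : ℚ) ≠ 0 := by exact_mod_cast hm
    have hcq : (F.leadingCoeff : ℚ) ≠ 0 := by exact_mod_cast hc0
    refine els_of_mon hn hev (t' := t) (m := (F.leadingCoeff : ℚ) / m) (div_ne_zero hcq hmq) ?_ hP
    have h2 : (t : ℚ) * F.leadingCoeff = (sf (t * F.leadingCoeff) : ℤ) * (m : ℚ) ^ 2 := by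
      exact_mod_cast h1
    push_cast
    rw [div_pow, mul_div_assoc', eq_div_iff (pow_ne_zero 2 hmq)]
    linear_combination (-(F.leadingCoeff : ℚ)) * h2
  obtain ⟨cL, hcL, X₁, hL⟩ := hL
  obtain ⟨cU, CU, hcU, X₂, hU⟩ := hU
  obtain ⟨K, hK, X₃, hV⟩ := VV_le (mon F) a ha1
  have hlow : ∀ X : ℕ, max (X₁ * a) (3 * a) ≤ X →
      cL / (2 * a) * X / Real.log X * VV (mon F) (X / a) ≤ (cnt (ELS F) X : ℝ) := by
    intro X hX
    have h1 : X₁ ≤ X / a := by
      rw [Nat.le_div_iff_mul_le (by omega)]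
      exact le_trans (le_max_left _ _) hX
    have h3a : 3 ≤ X / a := by
      rw [Nat.le_div_iff_mul_le (by omega)]
      exact le_trans (le_max_right _ _) hX
    have h2 : cnt (Gen.ELS (mon F)) (X / a) ≤ cnt (ELS F) X :=
      (hels (X / a)).trans (cnt_mono _ (Nat.mul_div_le X a))
    refine le_trans ?_ ((hL _ h1).trans (by exact_mod_cast h2))
    apply mul_le_mul_of_nonneg_right _ (VV_pos _ _).le
    have h3R : (3 : ℝ) ≤ ((X / a : ℕ) : ℝ) := by exact_mod_cast h3a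
    have hXa : X / a ≤ X := Nat.div_le_self _ _
    have hXaR : ((X / a : ℕ) : ℝ) ≤ X := by exact_mod_cast hXa
    have hlog1 : 0 < Real.log ((X / a : ℕ) : ℝ) := Real.log_pos (by linarith)
    have hlog2 : Real.log ((X / a : ℕ) : ℝ) ≤ Real.log X := Real.log_le_log (by linarith) hXaR
    apply div_le_div₀ (by positivity) _ hlog1 hlog2
    have h4 : X < a * (X / a + 1) := Nat.lt_mul_div_succ X (by omega)
    have h5 : (X : ℝ) < a * (((X / a : ℕ) : ℝ) + 1) := by exact_mod_cast h4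
    have h6 : (X : ℝ) ≤ 2 * a * ((X / a : ℕ) : ℝ) := by nlinarith
    rw [div_mul_eq_mul_div, div_le_iff₀ (by positivity)]
    nlinarith
  have hVV1 : ∀ X, 1 ≤ VV (mon F) X := by
    intro X
    unfold VV
    have h0 : ∀ p ∈ rootPrimes (mon F) X, (1 : ℝ) ≤ 1 + 1 / (p : ℝ) := by
      intro p _
      have : (0 : ℝ) ≤ 1 / (p : ℝ) := by positivity
      linarith
    calc (1 : ℝ) = ∏ _p ∈ rootPrimes (mon F) X, (1 : ℝ) := by simp
      _ ≤ _ := prod_le_prod (fun _ _ => zero_le_one) h0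
  constructor
  · refine ⟨cL / (2 * a), by positivity, max (X₁ * a) (3 * a), fun X hX => ?_⟩
    refine le_trans ?_ (hlow X hX)
    have hX3 : 3 ≤ X := by
      have h1 : 3 * a ≤ X := le_trans (le_max_right _ _) hX
      nlinarith
    have hX3R : (3 : ℝ) ≤ X := by exact_mod_cast hX3
    have hlogX : 0 < Real.log X := Real.log_pos (by linarith)
    exact le_mul_of_one_le_right (by positivity) (hVV1 _)
  · refine ⟨cU, a * |CU| * K / (cL / (2 * a)), hcU,
      max (max (max (X₁ * a) (3 * a)) X₂) (max X₃ 3), fun X hX => ?_⟩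
    have hX1 : max (X₁ * a) (3 * a) ≤ X := le_trans (le_trans (le_max_left _ _) (le_max_left _ _)) hX
    have hX2 : X₂ ≤ X := le_trans (le_trans (le_max_right _ _) (le_max_left _ _)) hX
    have hX3 : X₃ ≤ X := le_trans (le_trans (le_max_left _ _) (le_max_right _ _)) hX
    have hX4 : 3 ≤ X := le_trans (le_trans (le_max_right _ _) (le_max_right _ _)) hX
    have hX4R : (3 : ℝ) ≤ X := by exact_mod_cast hX4
    have haX : X ≤ a * X := Nat.le_mul_of_pos_left X (by omega)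
    have hlogX : 0 < Real.log X := Real.log_pos (by linarith)
    have hlogaX : Real.log X ≤ Real.log ((a * X : ℕ) : ℝ) :=
      Real.log_le_log (by linarith) (by exact_mod_cast haX)
    have hpow : Real.log ((a * X : ℕ) : ℝ) ^ (-1 - cU) ≤ Real.log X ^ (-1 - cU) :=
      Real.rpow_le_rpow_of_nonpos hlogX hlogaX (by linarith)
    have hpow0 : 0 ≤ Real.log ((a * X : ℕ) : ℝ) ^ (-1 - cU) :=
      Real.rpow_nonneg (hlogX.le.trans hlogaX) _
    have hpow1 : 0 ≤ Real.log X ^ (-1 - cU) := Real.rpow_nonneg hlogX.le _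
    have hsplit : Real.log X ^ (-1 - cU) = Real.log X ^ (-cU) / Real.log X := by
      rw [show -1 - cU = -cU - 1 by ring, Real.rpow_sub_one hlogX.ne']
    have h1 := hU (a * X) (hX2.trans haX)
    have h2 := hV X hX3
    have h3 := hlow X hX1
    have hcLa : 0 < cL / (2 * a) := by positivity
    have hpow2 : 0 ≤ Real.log X ^ (-cU) := Real.rpow_nonneg hlogX.le _
    calc (cnt (FakeSel F) X : ℝ) ≤ cnt (Gen.Sel (mon F)) (a * X) := by exact_mod_cast hsel X
      _ ≤ CU * ((a * X : ℕ) : ℝ) * Real.log ((a * X : ℕ) : ℝ) ^ (-1 - cU) * VV (mon F) (a * X) := h1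
      _ ≤ |CU| * ((a * X : ℕ) : ℝ) * Real.log X ^ (-1 - cU) * (K * VV (mon F) (X / a)) := by
          apply mul_le_mul _ h2 (VV_pos _ _).le (by positivity)
          apply mul_le_mul _ hpow hpow0 (by positivity)
          exact mul_le_mul_of_nonneg_right (le_abs_self _) (by positivity)
      _ = (a * |CU| * K / (cL / (2 * a))) * Real.log X ^ (-cU) *
            (cL / (2 * a) * X / Real.log X * VV (mon F) (X / a)) := by
          rw [hsplit]
          push_cast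
          field_simp
      _ ≤ (a * |CU| * K / (cL / (2 * a))) * Real.log X ^ (-cU) * cnt (ELS F) X := by
          apply mul_le_mul_of_nonneg_left h3
          positivity

lemma cnt_or_le (P Q : ℤ → Prop) (X : ℕ) :
    cnt (fun t => P t ∨ Q t) X ≤ cnt P X + cnt (fun t => ¬ P t ∧ Q t) X := by
  classical
  unfold cnt
  have h : (Icc (-(X : ℤ)) X).filter (fun t => Squarefree t ∧ (P t ∨ Q t)) ⊆
      (Icc (-(X : ℤ)) X).filter (fun t => Squarefree t ∧ P t) ∪
        (Icc (-(X : ℤ)) X).filter (fun t => Squarefree t ∧ (¬ P t ∧ Q t)) := by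
    intro t ht
    rw [mem_filter] at ht
    rw [mem_union, mem_filter, mem_filter]
    by_cases hP : P t
    · exact Or.inl ⟨ht.1, ht.2.1, hP⟩
    · exact Or.inr ⟨ht.1, ht.2.1, hP, ht.2.2.resolve_left hP⟩
  convert! (card_le_card h).trans (card_union_le _ _)

/-- At most one squarefree `t` has the property that `t c` is a square. -/
lemma cnt_square_le (P : ℤ → Prop) (c : ℤ) (hc : c ≠ 0)
    (h : ∀ t, P t → IsSquare ((t : ℚ) * (c : ℚ))) (X : ℕ) : cnt P X ≤ 1 := by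
  classical
  unfold cnt
  rw [card_le_one]
  intro s hs t ht
  rw [mem_filter] at hs ht
  obtain ⟨a, ha⟩ := h s hs.2.2
  obtain ⟨b, hb⟩ := h t ht.2.2
  have hcq : (c : ℚ) ≠ 0 := by exact_mod_cast hc
  have hsq : IsSquare ((s * t : ℤ) : ℚ) := by
    refine ⟨a * b / c, ?_⟩
    have h1 : (s : ℚ) * c * (t * c) = a * b * (a * b) := by rw [ha, hb]; ring
    push_cast
    field_simp
    linear_combination h1
  obtain ⟨k, hk⟩ := Rat.isSquare_intCast_iff.1 hsq
  apply sqfree_unique hs.2.1 ht.2.1 (u := t) (v := k) ht.2.1.ne_zero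
  have h2 : s * t = k * k := hk
  calc s * t ^ 2 = (s * t) * t := by ring
    _ = (k * k) * t := by rw [h2]
    _ = t * k ^ 2 := by ring

end Stoll308.Irr
end

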