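import Mathlib
import Pool.Agent.Work.BCM.C01
import Pool.Agent.Work.BCM.C03

section
set_option autoImplicit false

/-!
Working definitions: monic cubics, local classes, 6-tuples, moves.
-/

namespace Stoll308.BE

open Polynomial Finset

/-- The monic cubic `X³ + b X² + c X + d`. -/
noncomputable def F {R : Type*} [CommRing R] (b c d : R) : R[X] :=
  X ^ 3 + C b * X ^ 2 + C c * X + C d

section tuples

variable {R : Type*} [CommRing R]

/-! A tuple is `t = (q, m, u, v, h, k)`. -/

/-- `b = u + v`. -/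
def tb (t : Fin 6 → R) : R := t 2 + t 3

/-- `p = m² - q (u - v)`. -/
def tp (t : Fin 6 → R) : R := t 1 ^ 2 - t 0 * (t 2 - t 3)

/-- `c = 2uv - u² - 2mh - qk`. -/
def tc (t : Fin 6 → R) : R := 2 * t 2 * t 3 - t 2 ^ 2 - 2 * t 1 * t 4 - t 0 * t 5

/-- `d = -pk - qh² - 2muh - u²(u - v)`. -/
def td (t : Fin 6 → R) : R :=
  -(tp t) * t 5 - t 0 * t 4 ^ 2 - 2 * t 1 * t 2 * t 4 - t 2 ^ 2 * (t 2 - t 3)

lemma tp_map {S : Type*} [CommRing S] (f : R →+* S) (t : Fin 6 → R) :
    tp (fun i => f (t i)) = f (tp t) := by simp [tp]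

lemma tc_map {S : Type*} [CommRing S] (f : R →+* S) (t : Fin 6 → R) :
    tc (fun i => f (t i)) = f (tc t) := by simp [tc, map_ofNat f 2]

lemma td_map {S : Type*} [CommRing S] (f : R →+* S) (t : Fin 6 → R) :
    td (fun i => f (t i)) = f (td t) := by simp [td, tp, map_ofNat f 2]

end tuples

/-- The local condition at the prime `l` fails for the tuple. -/
def Bad (κ : ℤ) (l : ℕ) (t : Fin 6 → ℤ) : Prop :=
  (l : ℤ) ∣ td t ∧ ¬ (l : ℤ) ^ 2 ∣ td t ∧ ¬ (l : ℤ) ∣ tc t ∧
    ∃ _h : Fact l.Prime, legendreSym l (κ * tp t) = -1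

end Stoll308.BE
end

section
set_option autoImplicit false

/-!
The number of bad residue classes modulo `l²`.
-/

namespace Stoll308.BE

open Polynomial Finset

namespace BadCount

/-- Reduction from `ZMod (l ^ 2)` to `ZMod l`. -/
noncomputable def red (l : ℕ) : ZMod (l ^ 2) →+* ZMod l :=
  ZMod.castHom (dvd_pow_self l two_ne_zero) (ZMod l)

lemma cast_tp {S : Type*} [CommRing S] (t : Fin 6 → ℤ) :
    ((tp t : ℤ) : S) = tp (fun i => ((t i : ℤ) : S)) := (tp_map (Int.castRingHom S) t).symm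

lemma cast_tc {S : Type*} [CommRing S] (t : Fin 6 → ℤ) :
    ((tc t : ℤ) : S) = tc (fun i => ((t i : ℤ) : S)) := (tc_map (Int.castRingHom S) t).symm

lemma cast_td {S : Type*} [CommRing S] (t : Fin 6 → ℤ) :
    ((td t : ℤ) : S) = td (fun i => ((t i : ℤ) : S)) := (td_map (Int.castRingHom S) t).symm

/-- The same condition in `ZMod (l ^ 2)`. -/
def BadR (κ : ℤ) (l : ℕ) (t : Fin 6 → ZMod (l ^ 2)) : Prop :=
  red l (td t) = 0 ∧ td t ≠ 0 ∧ red l (tc t) ≠ 0 ∧
    ∃ _h : Fact l.Prime, quadraticChar (ZMod l) ((κ : ZMod l) * red l (tp t)) = -1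

lemma bad_iff (κ : ℤ) (l : ℕ) (t : Fin 6 → ℤ) :
    Bad κ l t ↔ BadR κ l (fun i => (t i : ZMod (l ^ 2))) := by
  unfold Bad BadR
  rw [← cast_td, ← cast_tc, ← cast_tp, map_intCast, map_intCast, map_intCast]
  rw [ZMod.intCast_zmod_eq_zero_iff_dvd, Ne, ZMod.intCast_zmod_eq_zero_iff_dvd, Ne,
    ZMod.intCast_zmod_eq_zero_iff_dvd]
  simp only [legendreSym]
  push_cast
  rfl

end BadCount

open BadCount

namespace BadCount

variable {l : ℕ} [hl : Fact l.Prime]

instance : NeZero (l ^ 2) := ⟨pow_ne_zero 2 hl.out.ne_zero⟩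

omit hl in
lemma red_surj : Function.Surjective (red l) := fun x => ZMod.castHom_surjective _ x

lemma card_fiber (c : ZMod l) : (univ.filter fun x : ZMod (l ^ 2) => red l x = c).card = l := by
  have h1 : ∀ c' : ZMod l, (univ.filter fun x : ZMod (l ^ 2) => red l x = c').card
      = (univ.filter fun x : ZMod (l ^ 2) => red l x = c).card := by
    intro c'
    obtain ⟨y, hy⟩ := red_surj (l := l) (c' - c)
    refine Finset.card_bij' (fun x _ => x - y) (fun x _ => x + y) ?_ ?_ ?_ ?_
    · intro x hx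
      simp only [mem_filter, mem_univ, true_and] at hx ⊢
      rw [map_sub, hx, hy]; ring
    · intro x hx
      simp only [mem_filter, mem_univ, true_and] at hx ⊢
      rw [map_add, hx, hy]; ring
    · intro x _; ring
    · intro x _; ring
  have h2 : (univ : Finset (ZMod (l ^ 2))).card
      = ∑ c' : ZMod l, (univ.filter fun x : ZMod (l ^ 2) => red l x = c').card :=
    Finset.card_eq_sum_card_fiberwise (fun x _ => mem_univ _)
  rw [Finset.sum_congr rfl (fun c' _ => h1 c'), Finset.sum_const, Finset.card_univ,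
    Finset.card_univ, ZMod.card, ZMod.card, smul_eq_mul] at h2
  have h3 : l * l = l * (univ.filter fun x : ZMod (l ^ 2) => red l x = c).card := by
    rw [← h2, pow_two]
  exact (Nat.eq_of_mul_eq_mul_left hl.out.pos h3).symm

lemma card_pre (P : ZMod l → Prop) [DecidablePred P] :
    (univ.filter fun x : ZMod (l ^ 2) => P (red l x)).card
      = (univ.filter P).card * l := by
  classical
  have h := Finset.card_eq_sum_card_fiberwise (f := red l)
    (s := univ.filter fun x : ZMod (l ^ 2) => P (red l x)) (t := univ.filter P)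
    (fun x hx => by
      simp only [coe_filter, mem_univ, true_and, Set.mem_ofPred_eq] at hx ⊢
      exact hx)
  rw [h, Finset.sum_congr rfl (g := fun _ => l), Finset.sum_const, smul_eq_mul]
  intro c hc
  refine Eq.trans ?_ (card_fiber c)
  congr 1
  ext x
  simp only [mem_filter, mem_univ, true_and] at hc ⊢
  constructor
  · rintro ⟨_, h⟩; exact h
  · intro h; exact ⟨h ▸ hc, h⟩

lemma isUnit_of_red {x : ZMod (l ^ 2)} (hx : red l x ≠ 0) : IsUnit x := by
  have h1 : x = ((x.val : ℕ) : ZMod (l ^ 2)) := (ZMod.natCast_zmod_val x).symm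
  rw [h1, ZMod.isUnit_iff_coprime]
  apply Nat.Coprime.pow_right
  rw [Nat.coprime_comm, Nat.Prime.coprime_iff_not_dvd hl.out]
  intro h
  apply hx
  rw [h1, map_natCast]
  exact (ZMod.natCast_eq_zero_iff _ _).2 h

lemma card_unit : (univ.filter fun x : ZMod (l ^ 2) => red l x ≠ 0).card = (l - 1) * l := by
  rw [card_pre (fun y => y ≠ 0)]
  congr 1
  rw [Finset.filter_ne', Finset.card_erase_of_mem (mem_univ _), Finset.card_univ, ZMod.card]

lemma card_ker : (univ.filter fun x : ZMod (l ^ 2) => red l x = 0 ∧ x ≠ 0).card = l - 1 := by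
  have h : (univ.filter fun x : ZMod (l ^ 2) => red l x = 0 ∧ x ≠ 0)
      = (univ.filter fun x : ZMod (l ^ 2) => red l x = 0).erase 0 := by
    ext x
    simp only [mem_filter, mem_univ, true_and, mem_erase]
    tauto
  rw [h, Finset.card_erase_of_mem (by simp), card_fiber]

lemma card_nonres (h2 : l ≠ 2) {κ : ZMod l} (hκ : κ ≠ 0) :
    l - 1 ≤ 2 * (univ.filter fun y : ZMod l => quadraticChar (ZMod l) (κ * y) = -1).card := by
  obtain ⟨a, ha⟩ : ∃ a : ZMod l, quadraticChar (ZMod l) a = -1 := by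
    obtain ⟨a, ha⟩ := FiniteField.exists_nonsquare (F := ZMod l) (by rwa [ZMod.ringChar_zmod_n])
    exact ⟨a, quadraticChar_neg_one_iff_not_isSquare.2 ha⟩
  have ha0 : a ≠ 0 := by
    rintro rfl
    simp at ha
  have h1 : (univ.filter fun y : ZMod l => y ≠ 0).card = l - 1 := by
    rw [Finset.filter_ne', Finset.card_erase_of_mem (mem_univ _), Finset.card_univ, ZMod.card]
  have h3 : (univ.filter fun y : ZMod l => quadraticChar (ZMod l) (κ * y) = 1).card
      ≤ (univ.filter fun y : ZMod l => quadraticChar (ZMod l) (κ * y) = -1).card := by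
    refine Finset.card_le_card_of_injOn (fun y => a * y) ?_ ?_
    · intro y hy
      simp only [coe_filter, mem_univ, true_and, Set.mem_ofPred_eq] at hy ⊢
      rw [mul_left_comm, map_mul, ha, hy]; norm_num
    · intro x _ y _ hxy
      exact mul_left_cancel₀ ha0 hxy
  have h4 : (univ.filter fun y : ZMod l => y ≠ 0) ⊆
      (univ.filter fun y : ZMod l => quadraticChar (ZMod l) (κ * y) = 1) ∪
      (univ.filter fun y : ZMod l => quadraticChar (ZMod l) (κ * y) = -1) := by
    intro y hy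
    simp only [mem_filter, mem_univ, true_and, mem_union] at hy ⊢
    exact quadraticChar_dichotomy (mul_ne_zero hκ hy)
  have h5 := Finset.card_le_card h4
  have h6 := Finset.card_union_le
    (univ.filter fun y : ZMod l => quadraticChar (ZMod l) (κ * y) = 1)
    (univ.filter fun y : ZMod l => quadraticChar (ZMod l) (κ * y) = -1)
  omega

lemma card_quad {a b c : ZMod l} (ha : a ≠ 0) :
    l - 2 ≤ (univ.filter fun y : ZMod l => a * y ^ 2 + b * y + c ≠ 0).card := by
  have h1 : (univ.filter fun y : ZMod l => a * y ^ 2 + b * y + c = 0).card ≤ 2 := by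
    by_contra hcon
    rw [not_le] at hcon
    obtain ⟨x, hx, y, hy, z, hz, hxy, hxz, hyz⟩ := Finset.two_lt_card.1 hcon
    simp only [mem_filter, mem_univ, true_and] at hx hy hz
    have e1 : a * (x + y) + b = 0 := by
      apply mul_left_cancel₀ (sub_ne_zero.2 hxy)
      linear_combination hx - hy
    have e2 : a * (x + z) + b = 0 := by
      apply mul_left_cancel₀ (sub_ne_zero.2 hxz)
      linear_combination hx - hz
    have e3 : a * (y - z) = 0 := by linear_combination e1 - e2
    rcases mul_eq_zero.1 e3 with h | h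
    · exact ha h
    · exact hyz (sub_eq_zero.1 h)
  have h2 := Finset.card_filter_add_card_filter_not
    (s := (univ : Finset (ZMod l))) (fun y => a * y ^ 2 + b * y + c = 0)
  rw [Finset.card_univ, ZMod.card] at h2
  simp only [Ne]
  omega

/-- The base of the parametrisation: `(q, m, u, p, D)`. -/
noncomputable def base (κ : ℤ) (l : ℕ) [Fact l.Prime] :
    Finset (ZMod (l ^ 2) × ZMod (l ^ 2) × ZMod (l ^ 2) × ZMod (l ^ 2) × ZMod (l ^ 2)) :=
  (univ.filter fun x => red l x ≠ 0) ×ˢ univ ×ˢ univ ×ˢ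
    (univ.filter fun x => quadraticChar (ZMod l) ((κ : ZMod l) * red l x) = -1) ×ˢ
    (univ.filter fun x => red l x = 0 ∧ x ≠ 0)

/-- The value of `v`. -/
noncomputable def pv (b : ZMod (l ^ 2) × ZMod (l ^ 2) × ZMod (l ^ 2) × ZMod (l ^ 2) ×
    ZMod (l ^ 2)) : ZMod (l ^ 2) := b.2.2.1 - b.1⁻¹ * (b.2.1 ^ 2 - b.2.2.2.1)

/-- The good values of `h`. -/
noncomputable def goodH (b : ZMod (l ^ 2) × ZMod (l ^ 2) × ZMod (l ^ 2) × ZMod (l ^ 2) ×
    ZMod (l ^ 2)) : Finset (ZMod (l ^ 2)) :=
  univ.filter fun h => red l b.1 ^ 2 * red l h ^ 2 +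
    red l (2 * b.2.1 * b.2.2.1 * b.1 - 2 * b.2.1 * b.2.2.2.1) * red l h +
    red l (b.2.2.2.1 * (2 * b.2.2.1 * pv b - b.2.2.1 ^ 2) + b.1 * b.2.2.1 ^ 2 * (b.2.2.1 - pv b))
      ≠ 0

/-- The tuple. -/
noncomputable def tup (b : ZMod (l ^ 2) × ZMod (l ^ 2) × ZMod (l ^ 2) × ZMod (l ^ 2) ×
    ZMod (l ^ 2)) (h : ZMod (l ^ 2)) : Fin 6 → ZMod (l ^ 2) :=
  ![b.1, b.2.1, b.2.2.1, pv b, h, -(b.2.2.2.1⁻¹ * (b.2.2.2.2 + b.1 * h ^ 2 +
    2 * b.2.1 * b.2.2.1 * h + b.2.2.1 ^ 2 * (b.2.2.1 - pv b)))]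

lemma mem_base {κ : ℤ} {b : ZMod (l ^ 2) × ZMod (l ^ 2) × ZMod (l ^ 2) × ZMod (l ^ 2) ×
    ZMod (l ^ 2)} (hb : b ∈ base κ l) :
    red l b.1 ≠ 0 ∧ quadraticChar (ZMod l) ((κ : ZMod l) * red l b.2.2.2.1) = -1 ∧
      red l b.2.2.2.2 = 0 ∧ b.2.2.2.2 ≠ 0 ∧ red l b.2.2.2.1 ≠ 0 := by
  simp only [base, mem_product, mem_filter, mem_univ, true_and] at hb
  obtain ⟨h1, h2, h3, h4⟩ := hb
  refine ⟨h1, h2, h3, h4, ?_⟩
  intro h
  rw [h] at h2
  simp at h2

lemma tp_tup {κ : ℤ} {b : ZMod (l ^ 2) × ZMod (l ^ 2) × ZMod (l ^ 2) × ZMod (l ^ 2) ×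
    ZMod (l ^ 2)} (hb : b ∈ base κ l) (h : ZMod (l ^ 2)) : tp (tup b h) = b.2.2.2.1 := by
  have hq := ZMod.mul_inv_of_unit _ (isUnit_of_red (mem_base hb).1)
  simp only [tp, tup, Matrix.cons_val, pv]
  linear_combination (b.2.2.2.1 - b.2.1 ^ 2) * hq

lemma td_tup {κ : ℤ} {b : ZMod (l ^ 2) × ZMod (l ^ 2) × ZMod (l ^ 2) × ZMod (l ^ 2) ×
    ZMod (l ^ 2)} (hb : b ∈ base κ l) (h : ZMod (l ^ 2)) : td (tup b h) = b.2.2.2.2 := by
  have hp := ZMod.mul_inv_of_unit _ (isUnit_of_red (mem_base hb).2.2.2.2)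
  rw [td, tp_tup hb]
  simp only [tup, Matrix.cons_val]
  linear_combination (b.2.2.2.2 + b.1 * h ^ 2 +
    2 * b.2.1 * b.2.2.1 * h + b.2.2.1 ^ 2 * (b.2.2.1 - pv b)) * hp

lemma tc_tup {κ : ℤ} {b : ZMod (l ^ 2) × ZMod (l ^ 2) × ZMod (l ^ 2) × ZMod (l ^ 2) ×
    ZMod (l ^ 2)} (hb : b ∈ base κ l) {h : ZMod (l ^ 2)} (hh : h ∈ goodH b) :
    red l (tc (tup b h)) ≠ 0 := by
  have hp := ZMod.mul_inv_of_unit _ (isUnit_of_red (mem_base hb).2.2.2.2)
  simp only [goodH, mem_filter, mem_univ, true_and] at hh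
  intro h0
  apply hh
  have e : b.2.2.2.1 * tc (tup b h) = b.1 ^ 2 * h ^ 2 +
      (2 * b.2.1 * b.2.2.1 * b.1 - 2 * b.2.1 * b.2.2.2.1) * h +
      (b.2.2.2.1 * (2 * b.2.2.1 * pv b - b.2.2.1 ^ 2) + b.1 * b.2.2.1 ^ 2 * (b.2.2.1 - pv b))
      + b.1 * b.2.2.2.2 := by
    simp only [tc, tup, Matrix.cons_val]
    linear_combination b.1 * (b.2.2.2.2 + b.1 * h ^ 2 +
      2 * b.2.1 * b.2.2.1 * h + b.2.2.1 ^ 2 * (b.2.2.1 - pv b)) * hp
  have e2 := congrArg (red l) e
  rw [map_mul, h0, mul_zero, map_add, map_add, map_add, map_mul, map_mul, map_mul, map_pow,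
    map_pow] at e2
  rw [(mem_base hb).2.2.1, mul_zero, add_zero] at e2
  exact e2.symm

lemma badR_tup {κ : ℤ} {b : ZMod (l ^ 2) × ZMod (l ^ 2) × ZMod (l ^ 2) × ZMod (l ^ 2) ×
    ZMod (l ^ 2)} (hb : b ∈ base κ l) {h : ZMod (l ^ 2)} (hh : h ∈ goodH b) :
    BadR κ l (tup b h) := by
  refine ⟨?_, ?_, tc_tup hb hh, hl, ?_⟩
  · rw [td_tup hb]; exact (mem_base hb).2.2.1
  · rw [td_tup hb]; exact (mem_base hb).2.2.2.1
  · rw [tp_tup hb]; exact (mem_base hb).2.1

lemma card_goodH {κ : ℤ} {b : ZMod (l ^ 2) × ZMod (l ^ 2) × ZMod (l ^ 2) × ZMod (l ^ 2) ×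
    ZMod (l ^ 2)} (hb : b ∈ base κ l) : (l - 2) * l ≤ (goodH b).card := by
  unfold goodH
  rw [card_pre (l := l) (fun y => red l b.1 ^ 2 * y ^ 2 +
    red l (2 * b.2.1 * b.2.2.1 * b.1 - 2 * b.2.1 * b.2.2.2.1) * y +
    red l (b.2.2.2.1 * (2 * b.2.2.1 * pv b - b.2.2.1 ^ 2) + b.1 * b.2.2.1 ^ 2 * (b.2.2.1 - pv b))
      ≠ 0)]
  exact Nat.mul_le_mul_right _ (card_quad (pow_ne_zero 2 (mem_base hb).1))

lemma card_base {κ : ℤ} (h2 : l ≠ 2) (hκ : ¬ (l : ℤ) ∣ κ) :
    (l - 1) * l * (l ^ 2 * (l ^ 2 * ((l - 1) * l * (l - 1)))) ≤ 2 * (base κ l).card := by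
  have hκ' : (κ : ZMod l) ≠ 0 := by
    rwa [Ne, ZMod.intCast_zmod_eq_zero_iff_dvd]
  unfold base
  rw [card_product, card_product, card_product, card_product, card_unit, card_ker,
    card_pre (fun y => quadraticChar (ZMod l) ((κ : ZMod l) * y) = -1), Finset.card_univ,
    ZMod.card]
  have h3 := card_nonres h2 hκ'
  generalize (univ.filter fun y : ZMod l => quadraticChar (ZMod l) (κ * y) = -1).card = n at h3 ⊢
  calc (l - 1) * l * (l ^ 2 * (l ^ 2 * ((l - 1) * l * (l - 1))))
      ≤ (l - 1) * l * (l ^ 2 * (l ^ 2 * ((2 * n) * l * (l - 1)))) := by gcongr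
    _ = _ := by ring

open Classical in
lemma card_badR {κ : ℤ} : (base κ l).card * ((l - 2) * l) ≤
    (univ.filter fun t : Fin 6 → ZMod (l ^ 2) => BadR κ l t).card := by
  calc (base κ l).card * ((l - 2) * l)
      ≤ ∑ b ∈ base κ l, (goodH b).card := by
        have := Finset.card_nsmul_le_sum (base κ l) (fun b => (goodH b).card) ((l - 2) * l)
          (fun b hb => card_goodH hb)
        simpa using this
    _ = ((base κ l).sigma goodH).card := (Finset.card_sigma _ _).symm
    _ ≤ _ := by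
        refine Finset.card_le_card_of_injOn (fun x => tup x.1 x.2) ?_ ?_
        · rintro ⟨b, h⟩ hx
          simp only [coe_sigma, Set.mem_sigma_iff, mem_coe] at hx
          simp only [coe_filter, mem_univ, true_and, Set.mem_ofPred_eq]
          exact badR_tup hx.1 hx.2
        · rintro ⟨b, h⟩ hx ⟨b', h'⟩ hx' hxx
          simp only [coe_sigma, Set.mem_sigma_iff, mem_coe] at hx hx'
          simp only at hxx
          have e0 := congrFun hxx 0
          have e1 := congrFun hxx 1
          have e2 := congrFun hxx 2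
          have e4 := congrFun hxx 4
          simp only [tup, Matrix.cons_val] at e0 e1 e2 e4
          have e3 := congrArg tp hxx
          rw [tp_tup hx.1, tp_tup hx'.1] at e3
          have e5 := congrArg td hxx
          rw [td_tup hx.1, td_tup hx'.1] at e5
          obtain ⟨b1, b2, b3, b4, b5⟩ := b
          obtain ⟨c1, c2, c3, c4, c5⟩ := b'
          simp only at e0 e1 e2 e3 e4 e5
          subst e0 e1 e2 e3 e4 e5
          rfl

end BadCount

end Stoll308.BE
end

section
set_option autoImplicit false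

/-!
Points of `y² = α x^(2kn) + b_1 x^(2k(n-1)) + … + b_n` modulo large primes.
-/

namespace Stoll308.BG.Els

open Finset Polynomial

section fpol

variable {R : Type*} [CommRing R] {n : ℕ}

lemma gp_eval (α : R) (b : Fin n → R) (x : R) :
    (fpol α b).eval x = α * x ^ n + ∑ i : Fin n, b i * x ^ (n - 1 - (i : ℕ)) := by
  unfold fpol
  rw [eval_add, eval_finsetSum]
  simp

lemma gp_coeff_lt (α : R) (b : Fin n → R) {j : ℕ} (hj : j < n) :
    (fpol α b).coeff j = b ⟨n - 1 - j, by omega⟩ := by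
  unfold fpol
  rw [coeff_add, finsetSum_coeff, coeff_C_mul, coeff_X_pow, if_neg (by omega), mul_zero, zero_add,
    sum_eq_single (⟨n - 1 - j, by omega⟩ : Fin n)]
  · rw [coeff_C_mul, coeff_X_pow, if_pos (by simp only; omega), mul_one]
  · intro i _ hi
    rw [coeff_C_mul, coeff_X_pow, if_neg, mul_zero]
    intro h
    apply hi
    apply Fin.ext
    simp only
    have := i.2
    omega
  · intro h
    exact absurd (mem_univ _) h

lemma gp_coeff_top (α : R) (b : Fin n → R) : (fpol α b).coeff n = α := by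
  unfold fpol
  rw [coeff_add, finsetSum_coeff, coeff_C_mul, coeff_X_pow, if_pos rfl, mul_one,
    sum_eq_zero, add_zero]
  intro i _
  rw [coeff_C_mul, coeff_X_pow, if_neg, mul_zero]
  have := i.2
  omega

lemma gp_coeff_gt (α : R) (b : Fin n → R) {j : ℕ} (hj : n < j) : (fpol α b).coeff j = 0 := by
  unfold fpol
  rw [coeff_add, finsetSum_coeff, coeff_C_mul, coeff_X_pow, if_neg (by omega), mul_zero, zero_add,
    sum_eq_zero]
  intro i _
  rw [coeff_C_mul, coeff_X_pow, if_neg, mul_zero]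
  have := i.2
  omega

lemma gp_natDegree {α : R} (hα : α ≠ 0) (b : Fin n → R) : (fpol α b).natDegree = n := by
  apply natDegree_eq_of_le_of_coeff_ne_zero
  · rw [natDegree_le_iff_coeff_eq_zero]
    intro N hN
    exact gp_coeff_gt α b hN
  · rw [gp_coeff_top]
    exact hα

end fpol

section field

variable {K : Type*} [Field K]

/-- A nonzero constant times a square, in normal form. -/
lemma normal_sq {f s : K[X]} {c : K} (hf : f ≠ 0) (h : f = C c * s ^ 2) :
    ∃ t : K[X], t.Monic ∧ f = C f.leadingCoeff * t ^ 2 := by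
  have hs0 : s ≠ 0 := by
    rintro rfl
    rw [zero_pow two_ne_zero, mul_zero] at h
    exact hf h
  have hl : s.leadingCoeff ≠ 0 := leadingCoeff_ne_zero.2 hs0
  refine ⟨C s.leadingCoeff⁻¹ * s, ?_, ?_⟩
  · rw [Monic, leadingCoeff_mul, leadingCoeff_C, inv_mul_cancel₀ hl]
  · have h1 : f.leadingCoeff = c * s.leadingCoeff ^ 2 := by
      rw [h, leadingCoeff_mul, leadingCoeff_C, leadingCoeff_pow]
    rw [h1]
    have h2 : C (c * s.leadingCoeff ^ 2) * (C s.leadingCoeff⁻¹ * s) ^ 2 =
        C c * (C s.leadingCoeff * C s.leadingCoeff⁻¹) ^ 2 * s ^ 2 := by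
      rw [C_mul, C_pow]
      ring
    rw [h2, ← C_mul, mul_inv_cancel₀ hl, C_1, one_pow, mul_one]
    exact h

/-- Two polynomials `g(x^(2k))` which are constants times squares, of the same degree `n ≥ 3` and
leading coefficient, are equal if their difference has degree at most one in `x^(2k)`. -/
lemma uniq_sq (h2 : (2 : K) ≠ 0) {k n : ℕ} (hk : 1 ≤ k) (hn : 3 ≤ n) {g₁ g₂ : K[X]}
    (hd₁ : g₁.natDegree = n) (hd₂ : g₂.natDegree = n) (hl : g₁.leadingCoeff = g₂.leadingCoeff)
    (hdiff : (g₁ - g₂).natDegree ≤ 1) {c₁ c₂ : K} {s₁ s₂ : K[X]}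
    (h₁ : expand K (2 * k) g₁ = C c₁ * s₁ ^ 2) (h₂ : expand K (2 * k) g₂ = C c₂ * s₂ ^ 2) :
    g₁ = g₂ := by
  have hk2 : 0 < 2 * k := by omega
  have hg₁ : g₁ ≠ 0 := by
    rintro rfl
    simp at hd₁
    omega
  have hg₂ : g₂ ≠ 0 := by
    rintro rfl
    simp at hd₂
    omega
  have he₁ : expand K (2 * k) g₁ ≠ 0 := (expand_ne_zero hk2).2 hg₁
  have he₂ : expand K (2 * k) g₂ ≠ 0 := (expand_ne_zero hk2).2 hg₂
  obtain ⟨t₁, ht₁, e₁⟩ := normal_sq he₁ h₁
  obtain ⟨t₂, ht₂, e₂⟩ := normal_sq he₂ h₂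
  have hlc : ∀ g : K[X], (expand K (2 * k) g).leadingCoeff = g.leadingCoeff := by
    intro g
    unfold leadingCoeff
    rw [natDegree_expand, coeff_expand_mul hk2]
  rw [hlc] at e₁ e₂
  rw [← hl] at e₂
  set a := g₁.leadingCoeff with ha
  have ha0 : a ≠ 0 := leadingCoeff_ne_zero.2 hg₁
  have hdt₁ : t₁.natDegree = k * n := by
    have := congrArg natDegree e₁
    rw [natDegree_expand, natDegree_C_mul ha0, natDegree_pow, hd₁] at this
    have h3 : 2 * t₁.natDegree = 2 * (k * n) := by rw [← this]; ring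
    omega
  have hdt₂ : t₂.natDegree = k * n := by
    have := congrArg natDegree e₂
    rw [natDegree_expand, natDegree_C_mul ha0, natDegree_pow, hd₂] at this
    have h3 : 2 * t₂.natDegree = 2 * (k * n) := by rw [← this]; ring
    omega
  have hsub : expand K (2 * k) (g₁ - g₂) = C a * ((t₁ - t₂) * (t₁ + t₂)) := by
    rw [map_sub, e₁, e₂]
    ring
  have htt : t₁ = t₂ := by
    by_contra hne
    have hd0 : t₁ - t₂ ≠ 0 := sub_ne_zero.2 hne
    have hsum : (t₁ + t₂).coeff (k * n) = 2 := by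
      rw [coeff_add]
      have h3 : t₁.coeff (k * n) = 1 := by rw [← hdt₁]; exact ht₁
      have h4 : t₂.coeff (k * n) = 1 := by rw [← hdt₂]; exact ht₂
      rw [h3, h4]
      norm_num
    have hs0 : t₁ + t₂ ≠ 0 := by
      intro h0
      rw [h0, coeff_zero] at hsum
      exact h2 hsum.symm
    have hdeg : k * n ≤ (t₁ + t₂).natDegree := by
      apply le_natDegree_of_ne_zero
      rw [hsum]
      exact h2
    have h5 := congrArg natDegree hsub
    rw [natDegree_expand, natDegree_C_mul ha0, natDegree_mul hd0 hs0] at h5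
    have h6 : (g₁ - g₂).natDegree * (2 * k) ≤ 1 * (2 * k) := Nat.mul_le_mul_right _ hdiff
    have h7 : k * 3 ≤ k * n := Nat.mul_le_mul_left _ hn
    omega
  apply expand_injective hk2
  show expand K (2 * k) g₁ = expand K (2 * k) g₂
  rw [e₁, e₂, htt]

end field

end Stoll308.BG.Els
end

section
set_option autoImplicit false

/-!
The bad reductions of `y² = g(x^(2k))`: `g(x^(2k))` a constant times a square.
-/

namespace Stoll308.BG.Els

open Finset Polynomial

/-- The scaled coefficients of the square root of `g/α`. -/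
def U {R : Type*} [CommRing R] (α : R) (β : ℕ → R) : ℕ → R
  | 0 => 0
  | (j + 1) => (4 * α) ^ j * β (j + 1) - ∑ i : Fin j, U α β (i + 1) * U α β (j - i)
decreasing_by
  · have := i.2; omega
  · omega

lemma U_succ {R : Type*} [CommRing R] (α : R) (β : ℕ → R) (j : ℕ) :
    U α β (j + 1) = (4 * α) ^ j * β (j + 1) - ∑ i : Fin j, U α β (i + 1) * U α β (j - i) := by
  rw [U]

lemma U_map {R S : Type*} [CommRing R] [CommRing S] (φ : R →+* S) (α : R) (β : ℕ → R) (j : ℕ) :
    φ (U α β j) = U (φ α) (fun i => φ (β i)) j := by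
  induction j using Nat.strong_induction_on with
  | _ j ih =>
  cases j with
  | zero => rw [U, U, map_zero]
  | succ j =>
    rw [U_succ, U_succ, map_sub, map_mul, map_pow, map_mul, map_ofNat, map_sum]
    congr 1
    refine sum_congr rfl fun i _ => ?_
    rw [map_mul, ih (i + 1) (by have := i.2; omega), ih (j - i) (by omega)]

lemma U_congr {R : Type*} [CommRing R] (α : R) {β β' : ℕ → R} (j : ℕ)
    (h : ∀ i, 1 ≤ i → i ≤ j → β i = β' i) : U α β j = U α β' j := by
  induction j using Nat.strong_induction_on with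
  | _ j ih =>
  cases j with
  | zero => rw [U, U]
  | succ j =>
    rw [U_succ, U_succ, h (j + 1) (by omega) le_rfl]
    congr 1
    refine sum_congr rfl fun i _ => ?_
    have hi := i.2
    rw [ih (i + 1) (by omega) (fun l h1 h2 => h l h1 (by omega)),
      ih (j - i) (by omega) (fun l h1 h2 => h l h1 (by omega))]

/-- Bounds. -/
lemma U_bound (α : ℤ) (j : ℕ) : ∃ A : ℝ, 0 ≤ A ∧ ∀ (X : ℝ), 1 ≤ X → ∀ β : ℕ → ℤ,
    (∀ i, 1 ≤ i → i ≤ j → |(β i : ℝ)| ≤ X ^ i) → |((U α β j : ℤ) : ℝ)| ≤ A * X ^ j := by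
  induction j using Nat.strong_induction_on with
  | _ j ih =>
  cases j with
  | zero =>
    refine ⟨0, le_rfl, ?_⟩
    intro X _ β _
    rw [U]
    simp
  | succ j =>
    choose! A hA0 hA using ih
    refine ⟨|(4 * α : ℝ)| ^ j + ∑ i : Fin j, A (i + 1) * A (j - i), ?_, ?_⟩
    · apply add_nonneg (by positivity)
      apply sum_nonneg
      intro i _
      exact mul_nonneg (hA0 _ (by have := i.2; omega)) (hA0 _ (by omega))
    · intro X hX β hβ
      have hcast : ((U α β (j + 1) : ℤ) : ℝ) = (4 * (α : ℝ)) ^ j * (β (j + 1) : ℝ) -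
          ∑ i : Fin j, ((U α β ((i : ℕ) + 1) : ℤ) : ℝ) * ((U α β (j - (i : ℕ)) : ℤ) : ℝ) := by
        rw [U_succ]
        push_cast
        ring
      rw [hcast]
      calc |(4 * (α : ℝ)) ^ j * (β (j + 1) : ℝ) -
            ∑ i : Fin j, ((U α β ((i : ℕ) + 1) : ℤ) : ℝ) * ((U α β (j - (i : ℕ)) : ℤ) : ℝ)|
          ≤ |(4 * (α : ℝ)) ^ j * (β (j + 1) : ℝ)| +
            |∑ i : Fin j, ((U α β ((i : ℕ) + 1) : ℤ) : ℝ) * ((U α β (j - (i : ℕ)) : ℤ) : ℝ)| :=
              abs_sub _ _
        _ ≤ |(4 * α : ℝ)| ^ j * X ^ (j + 1) +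
            ∑ i : Fin j, A (i + 1) * A (j - i) * X ^ (j + 1) := by
            apply add_le_add
            · rw [abs_mul, abs_pow]
              exact mul_le_mul_of_nonneg_left (hβ (j + 1) (by omega) le_rfl) (by positivity)
            · refine (abs_sum_le_sum_abs _ _).trans (sum_le_sum fun i _ => ?_)
              have hi := i.2
              rw [abs_mul]
              have h1 := hA (i + 1) (by omega) X hX β (fun l h1 h2 => hβ l h1 (by omega))
              have h2 := hA (j - i) (by omega) X hX β (fun l h1 h2 => hβ l h1 (by omega))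
              calc |((U α β ((i : ℕ) + 1) : ℤ) : ℝ)| * |((U α β (j - (i : ℕ)) : ℤ) : ℝ)|
                  ≤ (A (i + 1) * X ^ ((i : ℕ) + 1)) * (A (j - i) * X ^ (j - (i : ℕ))) := by
                    apply mul_le_mul h1 h2 (abs_nonneg _)
                    exact (abs_nonneg _).trans h1
                _ = A (i + 1) * A (j - i) * X ^ (((i : ℕ) + 1) + (j - (i : ℕ))) := by
                    rw [pow_add]
                    ring
                _ = A (i + 1) * A (j - i) * X ^ (j + 1) := by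
                    rw [show ((i : ℕ) + 1) + (j - (i : ℕ)) = j + 1 by omega]
        _ = (|(4 * α : ℝ)| ^ j + ∑ i : Fin j, A (i + 1) * A (j - i)) * X ^ (j + 1) := by
            rw [add_mul, sum_mul]

section field

variable {K : Type*} [Field K]

lemma coeff_sq {α : K} {m : ℕ} {g h : K[X]} (hd : h.natDegree = m)
    (hg : g = C α * h ^ 2) {j : ℕ} (hj : j ≤ m) :
    g.coeff (2 * m - j) = α * ∑ i ∈ range (j + 1), h.coeff (m - i) * h.coeff (m - (j - i)) := by
  have h1 : (h ^ 2).natDegree = 2 * m := by rw [natDegree_pow, hd]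
  have h2 : (h ^ 2).reverse = h.reverse * h.reverse := by
    rw [sq, reverse_mul_of_domain]
  have h3 : (h ^ 2).reverse.coeff j = (h.reverse * h.reverse).coeff j := by rw [h2]
  rw [coeff_reverse, h1, revAt_le (by omega), coeff_mul,
    Finset.Nat.sum_antidiagonal_eq_sum_range_succ (fun a b => h.reverse.coeff a * h.reverse.coeff b)]
    at h3
  rw [hg, coeff_C_mul, h3]
  congr 1
  refine sum_congr rfl fun i hi => ?_
  rw [mem_range] at hi
  rw [coeff_reverse, coeff_reverse, hd, revAt_le (by omega), revAt_le (by omega)]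

lemma four_pow (n : ℕ) : (4 : K) ^ n = 2 ^ (2 * n) := by
  rw [pow_mul]
  norm_num

lemma term_eq (α a b : K) {i l j : ℕ} (h : j = i + l + 1) :
    2 ^ (2 * i + 1) * α ^ (i + 1) * a * (2 ^ (2 * l + 1) * α ^ (l + 1) * b) =
      (4 * α) ^ j * (α * (a * b)) := by
  subst h
  rw [mul_pow, four_pow]
  ring

lemma U_eq {α : K} {m : ℕ} {g h : K[X]} (hh : h.Monic) (hd : h.natDegree = m)
    (hg : g = C α * h ^ 2) : ∀ j, j + 1 ≤ m →
      U α (fun i => g.coeff (2 * m - i)) (j + 1) = 2 ^ (2 * j + 1) * α ^ (j + 1) *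
        h.coeff (m - (j + 1)) := by
  intro j
  induction j using Nat.strong_induction_on with
  | _ j ih =>
  intro hj
  rw [U_succ, coeff_sq hd hg hj, sum_range_succ, sum_range_succ']
  have h0 : h.coeff (m - 0) = 1 := by
    rw [Nat.sub_zero, ← hd]
    exact hh
  rw [Nat.sub_zero, Nat.sub_self, h0]
  have hs : ∑ i : Fin j, U α (fun i => g.coeff (2 * m - i)) (i + 1) *
      U α (fun i => g.coeff (2 * m - i)) (j - i) =
      ∑ i ∈ range j, (4 * α) ^ j * (α * (h.coeff (m - (i + 1)) * h.coeff (m - (j + 1 - (i + 1))))) := by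
    rw [← Fin.sum_univ_eq_sum_range
      (fun i => (4 * α) ^ j * (α * (h.coeff (m - (i + 1)) * h.coeff (m - (j + 1 - (i + 1)))))) j]
    refine sum_congr rfl fun i _ => ?_
    have hi := i.2
    obtain ⟨l, hl⟩ : ∃ l, j - (i : ℕ) = l + 1 := ⟨j - i - 1, by omega⟩
    rw [ih i (by omega) (by omega), hl, ih l (by omega) (by omega)]
    rw [show m - (j + 1 - ((i : ℕ) + 1)) = m - (l + 1) by omega]
    exact term_eq α _ _ (by omega)
  rw [hs, ← mul_sum, ← mul_sum, mul_pow, four_pow, Nat.sub_zero, show h.coeff m = 1 by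
    rw [← h0, Nat.sub_zero]]
  ring

/-- The relation between the last coefficient and the others, `n = 2m`. -/
lemma even_rel {α : K} {m : ℕ} (hm : 1 ≤ m) {g h : K[X]} (hh : h.Monic) (hd : h.natDegree = m)
    (hg : g = C α * h ^ 2) :
    (4 * α) ^ (2 * m - 1) * g.coeff 0 = (U α (fun i => g.coeff (2 * m - i)) m) ^ 2 := by
  obtain ⟨j, rfl⟩ : ∃ j, m = j + 1 := ⟨m - 1, by omega⟩
  rw [U_eq hh hd hg j le_rfl, Nat.sub_self]
  have h0 : g.coeff 0 = α * h.coeff 0 ^ 2 := by
    rw [hg, coeff_C_mul, sq, mul_coeff_zero, sq]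
  rw [h0, show 2 * (j + 1) - 1 = 2 * j + 1 by omega, mul_pow, four_pow]
  ring

/-- `g(x^(2k)) = c s²`, `deg g` even: `g` is a constant times a square. -/
lemma even_struct (h2 : (2 : K) ≠ 0) {k m : ℕ} (hk : 1 ≤ k) (hm : 1 ≤ m) {g : K[X]}
    (hd : g.natDegree = 2 * m) {c : K} {s : K[X]} (h : expand K (2 * k) g = C c * s ^ 2) :
    ∃ t : K[X], t.Monic ∧ t.natDegree = m ∧ g = C g.leadingCoeff * t ^ 2 := by
  have hk2 : 0 < 2 * k := by omega
  have hg : g ≠ 0 := by
    rintro rfl
    simp at hd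
    omega
  have he : expand K (2 * k) g ≠ 0 := (expand_ne_zero hk2).2 hg
  obtain ⟨t, ht, e⟩ := normal_sq he h
  have hlc : (expand K (2 * k) g).leadingCoeff = g.leadingCoeff := by
    unfold leadingCoeff
    rw [natDegree_expand, coeff_expand_mul hk2]
  rw [hlc] at e
  set a := g.leadingCoeff with ha
  have ha0 : a ≠ 0 := leadingCoeff_ne_zero.2 hg
  have hdt : t.natDegree = m * (2 * k) := by
    have := congrArg natDegree e
    rw [natDegree_expand, natDegree_C_mul ha0, natDegree_pow, hd] at this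
    have h3 : 2 * t.natDegree = 2 * (m * (2 * k)) := by rw [← this]; ring
    omega
  have hsq : ∀ j, a * (t ^ 2).coeff j = (expand K (2 * k) g).coeff j := by
    intro j
    rw [e, coeff_C_mul]
  have hsupp := BE.supp_of_sq h2 ht.ne_zero (2 * k) (by rw [hdt]; exact ⟨2 * m, by ring⟩) (by
    intro j hj
    have h1 := hsq j
    rw [coeff_expand hk2, if_neg hj] at h1
    exact (mul_eq_zero.1 h1).resolve_left ha0)
  rw [hdt] at hsupp
  have hexp : expand K (2 * k) (contract (2 * k) t) = t := by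
    ext j
    rw [coeff_expand hk2]
    split_ifs with hj
    · rw [coeff_contract hk2.ne', Nat.div_mul_cancel hj]
    · by_cases hjd : j ≤ m * (2 * k)
      · have h1 := hsupp (m * (2 * k) - j) (by omega) (by
          intro hcon
          apply hj
          have h3 : 2 * k ∣ m * (2 * k) := ⟨m, by ring⟩
          have h4 := Nat.dvd_sub h3 hcon
          rwa [show m * (2 * k) - (m * (2 * k) - j) = j by omega] at h4)
        rw [show m * (2 * k) - (m * (2 * k) - j) = j by omega] at h1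
        exact h1.symm
      · rw [coeff_eq_zero_of_natDegree_lt (by rw [hdt]; omega)]
  have hcd : (contract (2 * k) t).natDegree = m := by
    have h3 := congrArg natDegree hexp
    rw [natDegree_expand, hdt] at h3
    exact Nat.eq_of_mul_eq_mul_right hk2 h3
  refine ⟨contract (2 * k) t, ?_, hcd, ?_⟩
  · rw [Monic, leadingCoeff, hcd, coeff_contract hk2.ne', ← hdt]
    exact ht
  · apply expand_injective hk2
    show expand K (2 * k) g = expand K (2 * k) _
    rw [map_mul, map_pow, hexp, expand_C]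
    exact e

/-- `g(x^(2k)) = c s²`, `deg g` odd: `g(0) = 0`. -/
lemma odd_struct (h2 : (2 : K) ≠ 0) {k n : ℕ} (hk : 1 ≤ k) (hn : ¬ 2 ∣ n) {g : K[X]}
    (hd : g.natDegree = n) {c : K} {s : K[X]} (h : expand K (2 * k) g = C c * s ^ 2) :
    g.coeff 0 = 0 := by
  have hk2 : 0 < 2 * k := by omega
  have hg : g ≠ 0 := by
    rintro rfl
    simp at hd
    omega
  have he : expand K (2 * k) g ≠ 0 := (expand_ne_zero hk2).2 hg
  obtain ⟨t, ht, e⟩ := normal_sq he h
  set a := (expand K (2 * k) g).leadingCoeff with ha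
  have ha0 : a ≠ 0 := leadingCoeff_ne_zero.2 he
  have hdt : t.natDegree = k * n := by
    have := congrArg natDegree e
    rw [natDegree_expand, natDegree_C_mul ha0, natDegree_pow, hd] at this
    have h3 : 2 * t.natDegree = 2 * (k * n) := by rw [← this]; ring
    omega
  have hsupp := BE.supp_of_sq h2 ht.ne_zero (2 * k) (by rw [hdt]; exact ⟨n, by ring⟩) (by
    intro j hj
    have h1 : (expand K (2 * k) g).coeff j = (C a * t ^ 2).coeff j := by rw [← e]
    rw [coeff_expand hk2, if_neg hj, coeff_C_mul] at h1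
    exact (mul_eq_zero.1 h1.symm).resolve_left ha0) t.natDegree le_rfl (by
      rw [hdt]
      rintro ⟨l, hl⟩
      apply hn
      refine ⟨l, ?_⟩
      have h3 : k * n = k * (2 * l) := by rw [hl]; ring
      exact Nat.eq_of_mul_eq_mul_left (by omega) h3)
  rw [Nat.sub_self] at hsupp
  have h1 : (expand K (2 * k) g).coeff 0 = (C a * t ^ 2).coeff 0 := by rw [← e]
  rw [coeff_expand hk2, if_pos (dvd_zero _), Nat.zero_div, coeff_C_mul, sq, mul_coeff_zero, hsupp,
    mul_zero, mul_zero] at h1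
  exact h1

end field

end Stoll308.BG.Els
end

section
set_option autoImplicit false

/-!
Two polynomials over `𝔽_p` which are squares at the same place.
-/

namespace Stoll308.DQ

open Polynomial Finset

open Pool.Agent.Work.MP_2b9663_nt in
/-- The Weil bound for a polynomial which is not a constant times a square. -/
theorem weil_charSum {p : ℕ} [hp : Fact p.Prime] (hp2 : p ≠ 2) (f : (ZMod p)[X])
    (hns : ∀ e s, f ≠ C e * s ^ 2) :
    |(charSum (ZMod p) f : ℝ)| ≤ ((f.natDegree : ℝ) - 1) * Real.sqrt p := by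
  classical
  have hf : f ≠ 0 := fun h => hns 0 0 (by rw [h]; simp)
  obtain ⟨h, s, hsf, hfs⟩ := BE.exists_squarefree_part f hf
  have hp2' : ringChar (ZMod p) ≠ 2 := by
    rw [ZMod.ringChar_zmod_n]
    exact hp2
  have hh0 : h ≠ 0 := by
    rintro rfl
    rw [zero_mul] at hfs
    exact hf hfs
  have hs0 : s ≠ 0 := by
    rintro rfl
    rw [zero_pow two_ne_zero, mul_zero] at hfs
    exact hf hfs
  have hd : 1 ≤ h.natDegree := by
    by_contra hcon
    have h1 : h.natDegree = 0 := by omega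
    obtain ⟨e, he⟩ := natDegree_eq_zero.1 h1
    exact hns e s (by rw [hfs, he])
  have hdeg : f.natDegree = h.natDegree + 2 * s.natDegree := by
    rw [hfs, natDegree_mul hh0 (pow_ne_zero _ hs0), natDegree_pow]
  have hw := weil_bound hp2' hsf hd
  rw [ZMod.card] at hw
  have hZc : (univ.filter fun x : ZMod p => s.eval x = 0).card ≤ s.natDegree := by
    refine le_trans ?_ (card_roots' s)
    refine le_trans ?_ (Multiset.toFinset_card_le _)
    apply card_le_card
    intro x hx
    rw [mem_filter] at hx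
    rw [Multiset.mem_toFinset, mem_roots hs0]
    exact hx.2
  have hdiff : |(charSum (ZMod p) f : ℤ) - charSum (ZMod p) h| ≤ s.natDegree := by
    rw [charSum, charSum, ← sum_sub_distrib]
    refine (abs_sum_le_sum_abs _ _).trans ?_
    have h1 : ∀ x : ZMod p, |quadraticChar (ZMod p) (f.eval x) - quadraticChar (ZMod p) (h.eval x)|
        ≤ if s.eval x = 0 then 1 else 0 := by
      intro x
      by_cases hx : s.eval x = 0
      · rw [if_pos hx, hfs, eval_mul, eval_pow, hx, zero_pow two_ne_zero, mul_zero]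
        rw [quadraticChar_zero, zero_sub, abs_neg]
        by_cases h0 : h.eval x = 0
        · rw [h0, quadraticChar_zero]; simp
        · rcases quadraticChar_dichotomy h0 with h1 | h1
          · rw [h1]; simp
          · rw [h1]; simp
      · rw [if_neg hx, hfs, eval_mul, eval_pow, map_mul, quadraticChar_sq_one' hx, mul_one,
          sub_self, abs_zero]
    refine (sum_le_sum fun x _ => h1 x).trans ?_
    rw [← sum_filter, sum_const, nsmul_eq_mul, mul_one]
    exact_mod_cast hZc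
  have hdiffR : |(charSum (ZMod p) f : ℝ) - (charSum (ZMod p) h : ℝ)| ≤ s.natDegree := by
    exact_mod_cast hdiff
  have h4 : ((h.natDegree - 1 : ℕ) : ℝ) = h.natDegree - 1 := by
    rw [Nat.cast_sub hd]; push_cast; ring
  rw [h4] at hw
  have h7 : (1 : ℝ) ≤ Real.sqrt p := by
    rw [Real.one_le_sqrt]
    exact_mod_cast hp.out.one_lt.le
  have h8 : (f.natDegree : ℝ) = h.natDegree + 2 * s.natDegree := by exact_mod_cast hdeg
  have h10 : (0 : ℝ) ≤ s.natDegree := Nat.cast_nonneg _
  have h11 := abs_sub_abs_le_abs_sub (charSum (ZMod p) f : ℝ) (charSum (ZMod p) h : ℝ)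
  rw [h8]
  nlinarith [mul_nonneg h10 (sub_nonneg.2 h7)]

open Pool.Agent.Work.MP_2b9663_nt in
theorem exists_two_sq {p : ℕ} [hp : Fact p.Prime] (hp2 : p ≠ 2) (f q : (ZMod p)[X])
    (hbig : (2 * (f.natDegree + q.natDegree) + 4) ^ 2 ≤ p)
    (h1 : ∀ e s, f ≠ C e * s ^ 2) (h2 : ∀ e s, q ≠ C e * s ^ 2)
    (h3 : ∀ e s, f * q ≠ C e * s ^ 2) :
    ∃ x y z : ZMod p, y ≠ 0 ∧ z ≠ 0 ∧ y ^ 2 = f.eval x ∧ z ^ 2 = q.eval x := by
  classical
  have hf : f ≠ 0 := fun h => h1 0 0 (by rw [h]; simp)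
  have hq : q ≠ 0 := fun h => h2 0 0 (by rw [h]; simp)
  have w1 := weil_charSum hp2 f h1
  have w2 := weil_charSum hp2 q h2
  have w3 := weil_charSum hp2 (f * q) h3
  rw [natDegree_mul hf hq] at w3
  by_contra hcon
  have hno : ∀ x : ZMod p, ¬ (quadraticChar (ZMod p) (f.eval x) = 1 ∧
      quadraticChar (ZMod p) (q.eval x) = 1) := by
    rintro x ⟨ha, hb⟩
    have hfx : f.eval x ≠ 0 := by
      intro h0
      rw [h0] at ha
      simp at ha
    have hqx : q.eval x ≠ 0 := by
      intro h0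
      rw [h0] at hb
      simp at hb
    rw [quadraticChar_one_iff_isSquare hfx] at ha
    rw [quadraticChar_one_iff_isSquare hqx] at hb
    obtain ⟨y, hy⟩ := ha
    obtain ⟨z, hz⟩ := hb
    apply hcon
    refine ⟨x, y, z, ?_, ?_, by rw [hy, sq], by rw [hz, sq]⟩
    · rintro rfl
      exact hfx (by rw [hy, mul_zero])
    · rintro rfl
      exact hqx (by rw [hz, mul_zero])
  have hZ : ∀ g : (ZMod p)[X], g ≠ 0 →
      (univ.filter fun x : ZMod p => g.eval x = 0).card ≤ g.natDegree := by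
    intro g hg
    refine le_trans ?_ (card_roots' g)
    refine le_trans ?_ (Multiset.toFinset_card_le _)
    apply card_le_card
    intro x hx
    rw [mem_filter] at hx
    rw [Multiset.mem_toFinset, mem_roots hg]
    exact hx.2
  have hle : ∀ x : ZMod p, (1 + quadraticChar (ZMod p) (f.eval x)) *
      (1 + quadraticChar (ZMod p) (q.eval x)) ≤
      2 * (if f.eval x = 0 then 1 else 0) + 2 * (if q.eval x = 0 then 1 else 0) := by
    intro x
    have hn := hno x
    by_cases ha : f.eval x = 0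
    · rw [if_pos ha, ha, quadraticChar_zero]
      by_cases hb : q.eval x = 0
      · rw [if_pos hb, hb, quadraticChar_zero]; norm_num
      · rw [if_neg hb]
        rcases quadraticChar_dichotomy hb with h | h
        · rw [h]; norm_num
        · rw [h]; norm_num
    · rw [if_neg ha]
      by_cases hb : q.eval x = 0
      · rw [if_pos hb, hb, quadraticChar_zero]
        rcases quadraticChar_dichotomy ha with h | h
        · rw [h]; norm_num
        · rw [h]; norm_num
      · rw [if_neg hb]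
        rcases quadraticChar_dichotomy ha with h | h
        · rcases quadraticChar_dichotomy hb with h' | h'
          · exact absurd ⟨h, h'⟩ hn
          · rw [h, h']; norm_num
        · rw [h]; norm_num
  have hsum : ∑ x : ZMod p, (1 + quadraticChar (ZMod p) (f.eval x)) *
      (1 + quadraticChar (ZMod p) (q.eval x)) ≤ 2 * f.natDegree + 2 * q.natDegree := by
    refine (sum_le_sum fun x _ => hle x).trans ?_
    rw [sum_add_distrib, ← mul_sum, ← mul_sum, ← sum_filter, ← sum_filter, sum_const, sum_const,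
      nsmul_eq_mul, nsmul_eq_mul, mul_one, mul_one]
    have ha : ((univ.filter fun x : ZMod p => f.eval x = 0).card : ℤ) ≤ f.natDegree := by
      exact_mod_cast hZ f hf
    have hb : ((univ.filter fun x : ZMod p => q.eval x = 0).card : ℤ) ≤ q.natDegree := by
      exact_mod_cast hZ q hq
    linarith
  have hsum2 : ∑ x : ZMod p, (1 + quadraticChar (ZMod p) (f.eval x)) *
      (1 + quadraticChar (ZMod p) (q.eval x)) =
      (p : ℤ) + charSum (ZMod p) f + charSum (ZMod p) q + charSum (ZMod p) (f * q) := by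
    have : ∀ x : ZMod p, (1 + quadraticChar (ZMod p) (f.eval x)) *
      (1 + quadraticChar (ZMod p) (q.eval x)) = 1 + quadraticChar (ZMod p) (f.eval x) +
        quadraticChar (ZMod p) (q.eval x) + quadraticChar (ZMod p) ((f * q).eval x) := by
      intro x
      rw [eval_mul, map_mul]
      ring
    rw [sum_congr rfl fun x _ => this x, sum_add_distrib, sum_add_distrib, sum_add_distrib]
    simp only [charSum]
    simp
  rw [hsum2] at hsum
  have hmainR : (p : ℝ) + (charSum (ZMod p) f : ℝ) + (charSum (ZMod p) q : ℝ) +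
      (charSum (ZMod p) (f * q) : ℝ) ≤ 2 * f.natDegree + 2 * q.natDegree := by
    exact_mod_cast hsum
  have h6 : (2 * ((f.natDegree : ℝ) + q.natDegree) + 4) ≤ Real.sqrt p := by
    apply Real.le_sqrt_of_sq_le
    exact_mod_cast hbig
  have h7 : Real.sqrt p * Real.sqrt p = p := Real.mul_self_sqrt (Nat.cast_nonneg p)
  have h9 : (0 : ℝ) ≤ f.natDegree := Nat.cast_nonneg _
  have h10 : (0 : ℝ) ≤ q.natDegree := Nat.cast_nonneg _
  have w1' := (abs_le.1 w1).1
  have w2' := (abs_le.1 w2).1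
  have w3' := (abs_le.1 w3).1
  push_cast at w3'
  have h11 : (2 * ((f.natDegree : ℝ) + q.natDegree) + 4) * Real.sqrt p ≤ p := by
    nlinarith [Real.sqrt_nonneg (p : ℝ)]
  nlinarith [Real.sqrt_nonneg (p : ℝ)]

end Stoll308.DQ
end

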