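import Pool.Agent.Work.BCM.C02
import Pool.Agent.Work.BCM.C05

section
set_option autoImplicit false

/-!
The number of bad residue classes modulo `l²`.
-/

namespace Stoll308.BG

open Finset Matrix
open Stoll308.BE.BadCount (red card_fiber card_ker isUnit_of_red)

namespace BadCount

/-- The same condition in `ZMod (l ^ 2)`. -/
def BadR {n : ℕ} (κ : ℤ) (l : ℕ) (A : Matrix (Fin n) (Fin n) (ZMod l))
    (B : Matrix (Fin n) (Fin n) (ZMod (l ^ 2))) : Prop :=
  red l B.det = 0 ∧ B.det ≠ 0 ∧ ((B.map (red l)).adjugate * A).trace ≠ 0 ∧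
    ∃ _h : Fact l.Prime, ∃ i, quadraticChar (ZMod l)
      ((-1) ^ (n - 1) * (B.map (red l)).adjugate i i * A.det * (κ : ZMod l)) = -1

lemma cast_det {n : ℕ} {S : Type*} [CommRing S] (B : Matrix (Fin n) (Fin n) ℤ) :
    ((B.det : ℤ) : S) = (B.map (Int.castRingHom S)).det :=
  (Int.castRingHom S).map_det B

lemma cast_adj {n : ℕ} {S : Type*} [CommRing S] (B : Matrix (Fin n) (Fin n) ℤ) (i j : Fin n) :
    ((B.adjugate i j : ℤ) : S) = (B.map (Int.castRingHom S)).adjugate i j := by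
  have h := (Int.castRingHom S).map_adjugate B
  exact congrFun (congrFun h i) j

lemma map_red {n : ℕ} (l : ℕ) (B : Matrix (Fin n) (Fin n) ℤ) :
    (B.map (Int.castRingHom (ZMod (l ^ 2)))).map (red l) = B.map (Int.castRingHom (ZMod l)) := by
  ext i j
  simp only [Matrix.map_apply, eq_intCast, map_intCast]

lemma cast_trace {n : ℕ} {S : Type*} [CommRing S] (B A : Matrix (Fin n) (Fin n) ℤ) :
    (((B.adjugate * A).trace : ℤ) : S) =
      ((B.map (Int.castRingHom S)).adjugate * A.map (Int.castRingHom S)).trace := by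
  simp only [Matrix.trace, Matrix.diag, Matrix.mul_apply]
  push_cast
  simp only [cast_adj, Matrix.map_apply, eq_intCast]

lemma bad_iff {n : ℕ} (κ : ℤ) (l : ℕ) (A B : Matrix (Fin n) (Fin n) ℤ) :
    Bad κ l A B ↔ BadR κ l (A.map (Int.castRingHom (ZMod l)))
      (B.map (Int.castRingHom (ZMod (l ^ 2)))) := by
  unfold Bad BadR
  rw [map_red, ← cast_det, map_intCast, ← cast_trace, ← cast_det]
  simp only [← cast_adj]
  rw [ZMod.intCast_zmod_eq_zero_iff_dvd, Ne, ZMod.intCast_zmod_eq_zero_iff_dvd, Ne,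
    ZMod.intCast_zmod_eq_zero_iff_dvd]
  simp only [legendreSym]
  push_cast
  rfl

end BadCount

open BadCount

lemma bad_congr {n : ℕ} (κ : ℤ) (l : ℕ) (A : Matrix (Fin n) (Fin n) ℤ) (v v' : Ix n → ℤ)
    (h : ∀ i, ((l ^ 2 : ℕ) : ℤ) ∣ v i - v' i) : Bad κ l A (symM v) ↔ Bad κ l A (symM v') := by
  rw [bad_iff, bad_iff]
  have e : (symM v).map (Int.castRingHom (ZMod (l ^ 2))) =
      (symM v').map (Int.castRingHom (ZMod (l ^ 2))) := by
    ext i j
    simp only [Matrix.map_apply, symM, eq_intCast]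
    have := (ZMod.intCast_zmod_eq_zero_iff_dvd
      (v ⟨(min i j, max i j), min_le_max⟩ - v' ⟨(min i j, max i j), min_le_max⟩) (l ^ 2)).2 (h _)
    rw [Int.cast_sub, sub_eq_zero] at this
    exact this
  rw [e]

namespace BadCount

section bordered

set_option linter.unusedSectionVars false

variable {R : Type*} [CommRing R] {m : ℕ}

/-- The matrix with first row `(a, c)` and first column `(a, b)`. -/
def blk (a : R) (b c : Fin m → R) (S : Matrix (Fin m) (Fin m) R) :
    Matrix (Fin (m + 1)) (Fin (m + 1)) R :=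
  Matrix.of (Fin.cons (Fin.cons a c) fun i => Fin.cons (b i) (S i))

@[simp] lemma blk_zz (a : R) (b c : Fin m → R) (S : Matrix (Fin m) (Fin m) R) :
    blk a b c S 0 0 = a := rfl

@[simp] lemma blk_zs (a : R) (b c : Fin m → R) (S : Matrix (Fin m) (Fin m) R) (j : Fin m) :
    blk a b c S 0 j.succ = c j := rfl

@[simp] lemma blk_sz (a : R) (b c : Fin m → R) (S : Matrix (Fin m) (Fin m) R) (i : Fin m) :
    blk a b c S i.succ 0 = b i := rfl

@[simp] lemma blk_ss (a : R) (b c : Fin m → R) (S : Matrix (Fin m) (Fin m) R) (i j : Fin m) :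
    blk a b c S i.succ j.succ = S i j := rfl

lemma blk_ext {M N : Matrix (Fin (m + 1)) (Fin (m + 1)) R} (h1 : M 0 0 = N 0 0)
    (h2 : ∀ j : Fin m, M 0 j.succ = N 0 j.succ) (h3 : ∀ i : Fin m, M i.succ 0 = N i.succ 0)
    (h4 : ∀ i j : Fin m, M i.succ j.succ = N i.succ j.succ) : M = N := by
  ext i j
  refine Fin.cases ?_ (fun i => ?_) i <;> refine Fin.cases ?_ (fun j => ?_) j
  · exact h1
  · exact h2 j
  · exact h3 i
  · exact h4 i j

lemma det_blk (a : R) (b : Fin m → R) (S : Matrix (Fin m) (Fin m) R) :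
    (blk a b 0 S).det = a * S.det := by
  rw [Matrix.det_succ_row_zero, Fin.sum_univ_succ]
  simp only [Fin.val_zero, pow_zero, one_mul, blk_zz, blk_zs, Pi.zero_apply, mul_zero, zero_mul,
    Finset.sum_const_zero, add_zero]
  congr 1

lemma blk_mul (a a' : R) (b c b' c' : Fin m → R) (S S' : Matrix (Fin m) (Fin m) R) :
    blk a b c S * blk a' b' c' S' = blk (a * a' + c ⬝ᵥ b') (fun i => b i * a' + (S *ᵥ b') i)
      (fun j => a * c' j + (c ᵥ* S') j) (Matrix.of (fun i j => b i * c' j) + S * S') := by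
  apply blk_ext <;> intros <;>
    simp [Matrix.mul_apply, Fin.sum_univ_succ, Matrix.mulVec, Matrix.vecMul, dotProduct]

/-- The bordered matrix with Schur complement `e`. -/
def bord (e : R) (w : Fin m → R) (S : Matrix (Fin m) (Fin m) R) :
    Matrix (Fin (m + 1)) (Fin (m + 1)) R :=
  blk (e + w ⬝ᵥ (S *ᵥ w)) (-(S *ᵥ w)) (-(S *ᵥ w)) S

lemma bord_eq (e : R) (w : Fin m → R) (S : Matrix (Fin m) (Fin m) R) (hS : S.IsSymm) :
    bord e w S = blk 1 0 (-w) 1 * (blk e 0 0 S * blk 1 (-w) 0 1) := by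
  have hv : (-w) ᵥ* S = -(S *ᵥ w) := by
    rw [← Matrix.mulVec_transpose, hS.eq, Matrix.mulVec_neg]
  have h0 : (Matrix.of fun (_ : Fin m) (_ : Fin m) => (0 : R)) = 0 := by ext; rfl
  have h1 : (fun i => -(S *ᵥ w) i) = -(S *ᵥ w) := rfl
  rw [blk_mul, blk_mul, bord]
  apply blk_ext
  · simp [Matrix.mulVec_neg, h1]
  · intro j
    simp [h0, hv]
  · intro i
    simp [Matrix.mulVec_neg]
  · intro i j
    simp [Matrix.add_apply]

lemma det_bord (e : R) (w : Fin m → R) (S : Matrix (Fin m) (Fin m) R) (hS : S.IsSymm) :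
    (bord e w S).det = e * S.det := by
  have h1 : (blk 1 0 (-w) 1 : Matrix (Fin (m + 1)) (Fin (m + 1)) R).det = 1 := by
    have : (blk 1 0 (-w) 1 : Matrix (Fin (m + 1)) (Fin (m + 1)) R) = (blk 1 (-w) 0 1)ᵀ := by
      apply blk_ext <;> intros <;> simp [Matrix.one_apply, eq_comm]
    rw [this, Matrix.det_transpose, det_blk]
    simp
  rw [bord_eq e w S hS, Matrix.det_mul, Matrix.det_mul, h1, det_blk, det_blk]
  simp

lemma adj_blk (S : Matrix (Fin m) (Fin m) R) :
    (blk 0 0 0 S).adjugate = blk S.det 0 0 0 := by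
  have key : ∀ i j : Fin (m + 1), i ≠ 0 ∨ j ≠ 0 → (blk 0 0 0 S).adjugate i j = 0 := by
    intro i j hij
    rw [Matrix.adjugate_apply]
    by_cases hj : j = 0
    · subst hj
      have hi : i ≠ 0 := by tauto
      apply Matrix.det_eq_zero_of_column_eq_zero 0
      intro k
      refine Fin.cases ?_ (fun k => ?_) k
      · rw [Matrix.updateRow_self, Pi.single_apply, if_neg (Ne.symm hi)]
      · rw [Matrix.updateRow_ne (Fin.succ_ne_zero k)]
        rfl
    · apply Matrix.det_eq_zero_of_row_eq_zero 0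
      intro k
      rw [Matrix.updateRow_ne (Ne.symm hj)]
      refine Fin.cases ?_ (fun k => ?_) k <;> rfl
  apply blk_ext
  · rw [Matrix.adjugate_apply]
    have : (blk 0 0 0 S).updateRow 0 (Pi.single 0 1) = blk 1 0 0 S := by
      apply blk_ext
      · simp
      · intro j
        simp
      · intro i
        rw [Matrix.updateRow_ne (Fin.succ_ne_zero i)]
        rfl
      · intro i j
        rw [Matrix.updateRow_ne (Fin.succ_ne_zero i)]
        rfl
    rw [this, det_blk]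
    simp
  · intro j
    rw [key _ _ (Or.inr (Fin.succ_ne_zero j))]; rfl
  · intro j
    rw [key _ _ (Or.inl (Fin.succ_ne_zero j))]; rfl
  · intro i j
    rw [key _ _ (Or.inr (Fin.succ_ne_zero j))]; rfl

lemma adj_unip (w : Fin m → R) :
    (blk 1 (-w) 0 1 : Matrix (Fin (m + 1)) (Fin (m + 1)) R).adjugate = blk 1 w 0 1 := by
  have h1 : (blk 1 (-w) 0 1 : Matrix (Fin (m + 1)) (Fin (m + 1)) R) * blk 1 w 0 1 = 1 := by
    rw [blk_mul]
    apply blk_ext
    · simp
    · intro j
      simp [(Fin.succ_ne_zero j).symm]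
    · intro i
      simp
    · intro i j
      simp [Matrix.one_apply]
  have h2 : (blk 1 (-w) 0 1 : Matrix (Fin (m + 1)) (Fin (m + 1)) R).det = 1 := by
    rw [det_blk]; simp
  calc (blk 1 (-w) 0 1 : Matrix (Fin (m + 1)) (Fin (m + 1)) R).adjugate
      = (blk 1 (-w) 0 1 : Matrix (Fin (m + 1)) (Fin (m + 1)) R).adjugate *
        (blk 1 (-w) 0 1 * blk 1 w 0 1) := by rw [h1, mul_one]
    _ = _ := by rw [← mul_assoc, Matrix.adjugate_mul, h2, one_smul, one_mul]

lemma adj_bord (w : Fin m → R) (S : Matrix (Fin m) (Fin m) R) (hS : S.IsSymm)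
    (i j : Fin (m + 1)) :
    (bord 0 w S).adjugate i j = S.det * ((Fin.cons 1 w : Fin (m + 1) → R) i *
      (Fin.cons 1 w : Fin (m + 1) → R) j) := by
  have ht : (blk 1 0 (-w) 1 : Matrix (Fin (m + 1)) (Fin (m + 1)) R) = (blk 1 (-w) 0 1)ᵀ := by
    apply blk_ext <;> intros <;> simp [Matrix.one_apply, eq_comm]
  have ht' : (blk 1 w 0 1 : Matrix (Fin (m + 1)) (Fin (m + 1)) R)ᵀ = blk 1 0 w 1 := by
    apply blk_ext <;> intros <;> simp [Matrix.one_apply, eq_comm]
  rw [bord_eq 0 w S hS, Matrix.adjugate_mul_distrib, Matrix.adjugate_mul_distrib, adj_blk,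
    adj_unip, ht, ← Matrix.adjugate_transpose, adj_unip, ht', blk_mul, blk_mul]
  refine Fin.cases ?_ (fun i => ?_) i <;> refine Fin.cases ?_ (fun j => ?_) j <;>
    simp <;> ring

end bordered

section quad

open MvPolynomial

variable {l : ℕ} [hl : Fact l.Prime] {m : ℕ}

/-- The value of the form `A` at `(1, w)`. -/
def qv {R : Type*} [CommRing R] (A : Matrix (Fin (m + 1)) (Fin (m + 1)) R) (w : Fin m → R) : R :=
  ∑ i, ∑ j, (Fin.cons 1 w : Fin (m + 1) → R) i * (Fin.cons 1 w : Fin (m + 1) → R) j * A j i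

lemma qv_eq {R : Type*} [CommRing R] (A : Matrix (Fin (m + 1)) (Fin (m + 1)) R) (hA : A.IsSymm)
    (w : Fin m → R) : qv A w = A 0 0 + 2 * ((fun i => A 0 i.succ) ⬝ᵥ w) +
      w ⬝ᵥ ((Matrix.of fun i j : Fin m => A i.succ j.succ) *ᵥ w) := by
  have h : ∀ i : Fin m, A i.succ 0 = A 0 i.succ := fun i => hA.apply _ _
  have h' : ∀ i j : Fin m, A i.succ j.succ = A j.succ i.succ := fun i j => hA.apply _ _
  unfold qv
  simp only [Fin.sum_univ_succ, Fin.cons_zero, Fin.cons_succ, dotProduct, Matrix.mulVec, h,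
    Matrix.of_apply, Finset.mul_sum, Finset.sum_add_distrib, one_mul, mul_one]
  have e1 : ∑ i, w i * A 0 i.succ = ∑ i, A 0 i.succ * w i :=
    Finset.sum_congr rfl fun i _ => mul_comm _ _
  have e2 : ∑ i : Fin m, ∑ j : Fin m, w i * w j * A j.succ i.succ =
      ∑ i : Fin m, ∑ j : Fin m, w i * (A i.succ j.succ * w j) :=
    Finset.sum_congr rfl fun i _ => Finset.sum_congr rfl fun j _ => by rw [h' j i]; ring
  have e3 : ∑ i, 2 * (A 0 (Fin.succ i) * w i) = 2 * ∑ i, A 0 i.succ * w i := by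
    rw [Finset.mul_sum]
  rw [e1, e2, e3]
  ring

lemma qv_ne {A : Matrix (Fin (m + 1)) (Fin (m + 1)) (ZMod l)} (hA : A.IsSymm) (h2 : l ≠ 2)
    (hd : A.det ≠ 0) : ∃ w, qv A w ≠ 0 := by
  by_contra hcon
  push Not at hcon
  have h20 : (2 : ZMod l) ≠ 0 := by
    intro h
    have : ((2 : ℕ) : ZMod l) = 0 := by exact_mod_cast h
    rw [ZMod.natCast_eq_zero_iff] at this
    exact h2 ((Nat.prime_dvd_prime_iff_eq hl.out Nat.prime_two).1 this)
  have h0 : A 0 0 = 0 := by
    have := hcon 0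
    rw [qv_eq A hA] at this
    simpa using this
  have h1 : ∀ j : Fin m, A 0 j.succ = 0 ∧ A j.succ j.succ = 0 := by
    intro j
    have e1 := hcon (Pi.single j 1)
    have e2 := hcon (Pi.single j (-1))
    rw [qv_eq A hA] at e1 e2
    simp only [h0, zero_add, dotProduct_single, Matrix.mulVec_single, mul_one, single_dotProduct,
      one_mul, MulOpposite.op_neg, MulOpposite.op_one, one_smul, Matrix.col_apply,
      Matrix.of_apply, mul_neg, neg_mul, neg_smul, Pi.neg_apply, neg_neg] at e1 e2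
    constructor
    · have e3 : (2 * 2 : ZMod l) * A 0 j.succ = 0 := by linear_combination e1 - e2
      exact (mul_eq_zero.1 e3).resolve_left (mul_ne_zero h20 h20)
    · have e3 : (2 : ZMod l) * A j.succ j.succ = 0 := by linear_combination e1 + e2
      exact (mul_eq_zero.1 e3).resolve_left h20
  have h3 : ∀ j k : Fin m, A j.succ k.succ = 0 := by
    intro j k
    have e1 := hcon (Pi.single j 1 + Pi.single k 1)
    rw [qv_eq A hA] at e1
    have hs : A k.succ j.succ = A j.succ k.succ := hA.apply _ _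
    simp only [h0, zero_add, dotProduct_add, add_dotProduct, Matrix.mulVec_add, dotProduct_single,
      Matrix.mulVec_single, mul_one, single_dotProduct, (h1 _).1, (h1 _).2,
      one_mul, MulOpposite.op_one, one_smul, Matrix.col_apply,
      Matrix.of_apply, add_zero, mul_zero, hs] at e1
    have e3 : (2 : ZMod l) * A j.succ k.succ = 0 := by linear_combination e1
    exact (mul_eq_zero.1 e3).resolve_left h20
  apply hd
  have : A = 0 := by
    apply blk_ext
    · exact h0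
    · intro j; exact (h1 j).1
    · intro j; rw [hA.apply]; exact (h1 j).1
    · intro j k; exact h3 j k
  rw [this, Matrix.det_zero]

/-- The polynomial of `qv`. -/
noncomputable def qp (A : Matrix (Fin (m + 1)) (Fin (m + 1)) (ZMod l)) :
    MvPolynomial (Fin m) (ZMod l) :=
  ∑ i, ∑ j, (Fin.cons 1 X : Fin (m + 1) → MvPolynomial (Fin m) (ZMod l)) i *
    (Fin.cons 1 X : Fin (m + 1) → MvPolynomial (Fin m) (ZMod l)) j * C (A j i)

lemma eval_qp (A : Matrix (Fin (m + 1)) (Fin (m + 1)) (ZMod l)) (w : Fin m → ZMod l) :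
    eval w (qp A) = qv A w := by
  have h : ∀ i : Fin (m + 1),
      eval w ((Fin.cons 1 X : Fin (m + 1) → MvPolynomial (Fin m) (ZMod l)) i) =
      (Fin.cons 1 w : Fin (m + 1) → ZMod l) i := by
    intro i
    refine Fin.cases ?_ (fun i => ?_) i
    · simp
    · simp
  unfold qp qv
  simp only [map_sum, map_mul, h, eval_C]

lemma deg_qp (A : Matrix (Fin (m + 1)) (Fin (m + 1)) (ZMod l)) : (qp A).totalDegree ≤ 2 := by
  have h : ∀ i : Fin (m + 1),
      ((Fin.cons 1 X : Fin (m + 1) → MvPolynomial (Fin m) (ZMod l)) i).totalDegree ≤ 1 := by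
    intro i
    refine Fin.cases ?_ (fun i => ?_) i
    · simp
    · simp
  unfold qp
  refine totalDegree_finsetSum_le fun i _ => totalDegree_finsetSum_le fun j _ => ?_
  refine (totalDegree_mul _ _).trans ?_
  rw [totalDegree_C, add_zero]
  exact (totalDegree_mul _ _).trans (add_le_add (h i) (h j))

lemma card_w {A : Matrix (Fin (m + 1)) (Fin (m + 1)) (ZMod l)} (hA : A.IsSymm) (h2 : l ≠ 2)
    (hd : A.det ≠ 0) (hm : 1 ≤ m) :
    (l - 2) * l ^ (m - 1) ≤ (univ.filter fun w : Fin m → ZMod l => qv A w ≠ 0).card := by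
  obtain ⟨w0, hw0⟩ := qv_ne hA h2 hd
  have hp : qp A ≠ 0 := by
    intro h
    apply hw0
    rw [← eval_qp, h, map_zero]
  have h3 := schwartz_zippel_totalDegree hp (Finset.univ : Finset (ZMod l))
  rw [Finset.card_univ, ZMod.card, Fintype.piFinset_univ] at h3
  simp only [eval_qp] at h3
  have hl0 : (0 : ℚ≥0) < (l : ℚ≥0) := by exact_mod_cast hl.out.pos
  have h4 : ((univ.filter fun w : Fin m → ZMod l => qv A w = 0).card : ℚ≥0) ≤
      (2 * l ^ (m - 1) : ℚ≥0) := by
    rw [div_le_iff₀ (by positivity)] at h3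
    refine h3.trans ?_
    have h5 : ((qp A).totalDegree : ℚ≥0) ≤ 2 := by exact_mod_cast deg_qp A
    have h6 : (l : ℚ≥0) ^ m = l ^ (m - 1) * l := by
      rw [← pow_succ]; congr 1; omega
    rw [h6]
    calc ((qp A).totalDegree : ℚ≥0) / l * (l ^ (m - 1) * l)
        = ((qp A).totalDegree : ℚ≥0) * l ^ (m - 1) := by field_simp
      _ ≤ _ := by gcongr
  have h7 : (univ.filter fun w : Fin m → ZMod l => qv A w = 0).card ≤ 2 * l ^ (m - 1) := by
    exact_mod_cast h4
  have h8 := Finset.card_filter_add_card_filter_not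
    (s := (univ : Finset (Fin m → ZMod l))) (fun w => qv A w = 0)
  rw [Finset.card_univ, Fintype.card_fun, ZMod.card, Fintype.card_fin] at h8
  have h6 : l ^ m = l * l ^ (m - 1) := by
    rw [← pow_succ']; congr 1; omega
  rw [Nat.sub_mul, ← h6]
  simp only [Ne]
  omega

end quad

lemma symM_isSymm {R : Type*} {n : ℕ} (v : Ix n → R) : (symM v).IsSymm := by
  ext i j
  simp only [Matrix.transpose_apply, symM, min_comm, max_comm]

lemma symM_of {R : Type*} {n : ℕ} (B : Matrix (Fin n) (Fin n) R) (h : B.IsSymm) :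
    symM (fun p : Ix n => B p.1.1 p.1.2) = B := by
  ext i j
  simp only [symM]
  rcases le_total i j with h1 | h1
  · rw [min_eq_left h1, max_eq_right h1]
  · rw [min_eq_right h1, max_eq_left h1]
    exact h.apply i j

lemma symM_inj {R : Type*} {n : ℕ} {v v' : Ix n → R} (h : symM v = symM v') : v = v' := by
  funext p
  have h1 := congrFun (congrFun h p.1.1) p.1.2
  simp only [symM] at h1
  have h2 : (⟨(min p.1.1 p.1.2, max p.1.1 p.1.2), min_le_max⟩ : Ix n) = p :=
    Subtype.ext (Prod.ext (min_eq_left p.2) (max_eq_right p.2))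
  rwa [h2] at h1

lemma symM_map {R S : Type*} {n : ℕ} (v : Ix n → R) (f : R → S) :
    (symM v).map f = symM (fun p => f (v p)) := rfl

lemma card_ix (n : ℕ) : Fintype.card (Ix n) = n * (n + 1) / 2 := by
  have h1 : Fintype.card (Ix n) = ∑ j : Fin n, ((j : ℕ) + 1) := by
    rw [Fintype.card_subtype]
    rw [← Finset.card_sigma (Finset.univ : Finset (Fin n)) (fun j : Fin n => Finset.Iic j)
      |>.trans (Finset.sum_congr rfl fun j _ => Fin.card_Iic j)]
    refine Finset.card_bij (fun p _ => (⟨p.2, p.1⟩ : (_ : Fin n) × Fin n)) ?_ ?_ ?_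
    · intro p hp
      rw [mem_filter] at hp
      simpa using hp.2
    · intro p _ q _ h
      simp only [Sigma.mk.injEq, heq_eq_eq] at h
      exact Prod.ext h.2 h.1
    · intro s hs
      rw [mem_sigma, mem_Iic] at hs
      exact ⟨(s.2, s.1), by simpa using hs.2, rfl⟩
  rw [h1, Fin.sum_univ_eq_sum_range (fun j => j + 1) n]
  have h2 : ∑ j ∈ range n, (j + 1) = ∑ j ∈ range (n + 1), j := by
    rw [Finset.sum_range_succ' (fun j => j) n, add_zero]
  rw [h2, Finset.sum_range_id, Nat.add_sub_cancel, mul_comm]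

section count

variable {l : ℕ} [hl : Fact l.Prime] {m : ℕ}

lemma card_lift {ι : Type*} [Fintype ι] [DecidableEq ι] (P : (ι → ZMod l) → Prop)
    [DecidablePred P] :
    (univ.filter fun x : ι → ZMod (l ^ 2) => P (fun i => red l (x i))).card
      = (univ.filter P).card * l ^ Fintype.card ι := by
  have h := Finset.card_eq_sum_card_fiberwise (f := fun (x : ι → ZMod (l ^ 2)) i => red l (x i))
    (s := univ.filter fun x : ι → ZMod (l ^ 2) => P (fun i => red l (x i)))
    (t := univ.filter P)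
    (fun x hx => by
      simp only [coe_filter, mem_univ, true_and, Set.mem_ofPred_eq] at hx ⊢
      exact hx)
  rw [h, Finset.sum_congr rfl (g := fun _ => l ^ Fintype.card ι), Finset.sum_const, smul_eq_mul]
  intro y hy
  have e : (univ.filter fun x : ι → ZMod (l ^ 2) => P (fun i => red l (x i))).filter
      (fun x => (fun i => red l (x i)) = y) =
      Fintype.piFinset fun i => univ.filter fun x : ZMod (l ^ 2) => red l x = y i := by
    ext x
    simp only [mem_filter, mem_univ, true_and, Fintype.mem_piFinset] at hy ⊢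
    constructor
    · rintro ⟨_, h⟩ i
      exact congrFun h i
    · intro h
      have h' : (fun i => red l (x i)) = y := funext h
      exact ⟨h'.symm ▸ hy, h'⟩
  rw [e, Fintype.card_piFinset]
  simp only [card_fiber, Finset.prod_const, Finset.card_univ]

/-- The matrix attached to a triple. -/
noncomputable def asm (x : (Ix m → ZMod (l ^ 2)) × (Fin m → ZMod (l ^ 2)) × ZMod (l ^ 2)) :
    Matrix (Fin (m + 1)) (Fin (m + 1)) (ZMod (l ^ 2)) :=
  bord (x.2.2 * (symM x.1).det⁻¹) x.2.1 (symM x.1)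

omit hl in
lemma asm_symm (x : (Ix m → ZMod (l ^ 2)) × (Fin m → ZMod (l ^ 2)) × ZMod (l ^ 2)) :
    (asm x).IsSymm := by
  have h := symM_isSymm x.1
  unfold asm bord
  apply blk_ext
  · rfl
  · intro j; rfl
  · intro j; rfl
  · intro i j
    exact congrFun (congrFun h i) j

/-- The parameters. -/
noncomputable def base (κ : ℤ) (A : Matrix (Fin (m + 1)) (Fin (m + 1)) (ZMod l)) :
    Finset ((Ix m → ZMod (l ^ 2)) × (Fin m → ZMod (l ^ 2)) × ZMod (l ^ 2)) :=
  (univ.filter fun v : Ix m → ZMod (l ^ 2) => quadraticChar (ZMod l)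
    (((-1) ^ m * A.det * (κ : ZMod l)) * (symM fun p => red l (v p)).det) = -1) ×ˢ
  (univ.filter fun w : Fin m → ZMod (l ^ 2) => qv A (fun i => red l (w i)) ≠ 0) ×ˢ
    (univ.filter fun x => red l x = 0 ∧ x ≠ 0)

lemma mem_base {κ : ℤ} {A : Matrix (Fin (m + 1)) (Fin (m + 1)) (ZMod l)}
    {x : (Ix m → ZMod (l ^ 2)) × (Fin m → ZMod (l ^ 2)) × ZMod (l ^ 2)} (hx : x ∈ base κ A) :
    quadraticChar (ZMod l) (((-1) ^ m * A.det * (κ : ZMod l)) *
      (symM fun p => red l (x.1 p)).det) = -1 ∧ qv A (fun i => red l (x.2.1 i)) ≠ 0 ∧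
      red l x.2.2 = 0 ∧ x.2.2 ≠ 0 ∧ (symM fun p => red l (x.1 p)).det ≠ 0 ∧
      IsUnit (symM x.1).det := by
  simp only [base, mem_product, mem_filter, mem_univ, true_and] at hx
  obtain ⟨h1, h2, h3, h4⟩ := hx
  have h5 : (symM fun p => red l (x.1 p)).det ≠ 0 := by
    intro h
    rw [h, mul_zero] at h1
    simp at h1
  refine ⟨h1, h2, h3, h4, h5, isUnit_of_red ?_⟩
  rw [RingHom.map_det]
  exact h5

lemma det_asm {κ : ℤ} {A : Matrix (Fin (m + 1)) (Fin (m + 1)) (ZMod l)}
    {x : (Ix m → ZMod (l ^ 2)) × (Fin m → ZMod (l ^ 2)) × ZMod (l ^ 2)} (hx : x ∈ base κ A) :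
    (asm x).det = x.2.2 := by
  rw [asm, det_bord _ _ _ (symM_isSymm _), mul_assoc,
    ZMod.inv_mul_of_unit _ (mem_base hx).2.2.2.2.2, mul_one]

lemma map_bord {R S : Type*} [CommRing R] [CommRing S] (f : R →+* S) (e : R) (w : Fin m → R)
    (M : Matrix (Fin m) (Fin m) R) :
    (bord e w M).map f = bord (f e) (fun i => f (w i)) (M.map f) := by
  apply blk_ext
  · simp [bord, dotProduct, Matrix.mulVec]
  · intro j
    simp [bord, dotProduct, Matrix.mulVec]
  · intro j
    simp [bord, dotProduct, Matrix.mulVec]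
  · intro i j
    simp [bord]

lemma badR_asm {κ : ℤ} {A : Matrix (Fin (m + 1)) (Fin (m + 1)) (ZMod l)}
    {x : (Ix m → ZMod (l ^ 2)) × (Fin m → ZMod (l ^ 2)) × ZMod (l ^ 2)} (hx : x ∈ base κ A) :
    BadR κ l A (asm x) := by
  have h := mem_base hx
  have hadj : ∀ i j, ((asm x).map (red l)).adjugate i j =
      (symM fun p => red l (x.1 p)).det *
      ((Fin.cons 1 (fun i => red l (x.2.1 i)) : Fin (m + 1) → ZMod l) i *
      (Fin.cons 1 (fun i => red l (x.2.1 i)) : Fin (m + 1) → ZMod l) j) := by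
    intro i j
    rw [asm, map_bord, map_mul, h.2.2.1, zero_mul, symM_map, adj_bord _ _ (symM_isSymm _)]
  refine ⟨?_, ?_, ?_, hl, 0, ?_⟩
  · rw [det_asm hx]; exact h.2.2.1
  · rw [det_asm hx]; exact h.2.2.2.1
  · have e : (((asm x).map (red l)).adjugate * A).trace =
        (symM fun p => red l (x.1 p)).det * qv A (fun i => red l (x.2.1 i)) := by
      simp only [Matrix.trace, Matrix.diag, Matrix.mul_apply, hadj, qv, Finset.mul_sum]
      refine Finset.sum_congr rfl fun i _ => Finset.sum_congr rfl fun j _ => ?_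
      ring
    rw [e]
    exact mul_ne_zero h.2.2.2.2.1 h.2.1
  · rw [hadj, Nat.add_sub_cancel, Fin.cons_zero, mul_one, mul_one]
    rw [← h.1]
    congr 1
    ring

lemma asm_inj {κ : ℤ} {A : Matrix (Fin (m + 1)) (Fin (m + 1)) (ZMod l)}
    {x y : (Ix m → ZMod (l ^ 2)) × (Fin m → ZMod (l ^ 2)) × ZMod (l ^ 2)} (hx : x ∈ base κ A)
    (hy : y ∈ base κ A) (hxy : asm x = asm y) : x = y := by
  have h1 : symM x.1 = symM y.1 := by
    ext i j
    exact congrFun (congrFun hxy i.succ) j.succ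
  have h2 : symM x.1 *ᵥ x.2.1 = symM x.1 *ᵥ y.2.1 := by
    funext i
    have := congrFun (congrFun hxy i.succ) 0
    simp only [asm, bord, blk_sz, Pi.neg_apply, neg_inj, ← h1] at this
    exact this
  have h3 : x.2.1 = y.2.1 :=
    Matrix.mulVec_injective_of_isUnit
      ((Matrix.isUnit_iff_isUnit_det _).2 (mem_base hx).2.2.2.2.2) h2
  have h4 : x.2.2 = y.2.2 := by
    rw [← det_asm hx, ← det_asm hy, hxy]
  exact Prod.ext (symM_inj h1) (Prod.ext h3 h4)

open Classical in
lemma card_badR {κ : ℤ} {A : Matrix (Fin (m + 1)) (Fin (m + 1)) (ZMod l)} :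
    (base κ A).card ≤
      (univ.filter fun v : Ix (m + 1) → ZMod (l ^ 2) => BadR κ l A (symM v)).card := by
  refine Finset.card_le_card_of_injOn (fun x => fun p : Ix (m + 1) => asm x p.1.1 p.1.2) ?_ ?_
  · intro x hx
    simp only [coe_filter, mem_univ, true_and, Set.mem_ofPred_eq]
    rw [symM_of _ (asm_symm x)]
    exact badR_asm hx
  · intro x hx y hy hxy
    have h := congrArg symM hxy
    simp only at h
    rw [symM_of _ (asm_symm x), symM_of _ (asm_symm y)] at h
    exact asm_inj hx hy h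

lemma card_base {κ : ℤ} {A : Matrix (Fin (m + 1)) (Fin (m + 1)) (ZMod l)} (hm : 1 ≤ m)
    (h2 : l ≠ 2) (hκ : (κ : ZMod l) ≠ 0) (hA : A.IsSymm) (hd : A.det ≠ 0) :
    ((l - 1) ^ m * l ^ (m * (m - 1) / 2)) * l ^ (m * (m + 1) / 2) *
      (((l - 2) * l ^ (m - 1)) * l ^ m * (l - 1)) ≤ 2 * (base κ A).card := by
  unfold base
  rw [card_product, card_product, card_ker,
    card_lift (l := l) (fun v : Ix m → ZMod l => quadraticChar (ZMod l)
      (((-1) ^ m * A.det * (κ : ZMod l)) * (symM v).det) = -1),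
    card_lift (l := l) (fun w : Fin m → ZMod l => qv A w ≠ 0), card_ix, Fintype.card_fin]
  have h3 := BadSym.sym_count h2 m hm (c := (-1) ^ m * A.det * (κ : ZMod l))
    (mul_ne_zero (mul_ne_zero (pow_ne_zero _ (neg_ne_zero.2 one_ne_zero)) hd) hκ)
  have h4 := card_w hA h2 hd hm
  generalize (univ.filter fun v : Ix m → ZMod l => quadraticChar (ZMod l)
      (((-1) ^ m * A.det * (κ : ZMod l)) * (symM v).det) = -1).card = a at h3 ⊢
  generalize (univ.filter fun w : Fin m → ZMod l => qv A w ≠ 0).card = b at h4 ⊢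
  calc _ ≤ (2 * a) * l ^ (m * (m + 1) / 2) * (b * l ^ m * (l - 1)) := by gcongr
    _ = _ := by ring

end count

end BadCount

open Classical in
theorem bad_count {n : ℕ} (hn : 2 ≤ n) (κ : ℤ) (A : Matrix (Fin n) (Fin n) ℤ) (hA : A.IsSymm)
    (l : ℕ) (hl : l.Prime) (h5 : 5 ≤ l) (hκ : ¬ (l : ℤ) ∣ κ) (hd : ¬ (l : ℤ) ∣ A.det) :
    (l : ℝ) ^ (n * (n + 1) - 1) / 2 ^ (n + 3) ≤ ((univ.filter fun v : Ix n → Fin (l ^ 2) =>
      Bad κ l A (symM fun p => ((v p : ℕ) : ℤ))).card : ℝ) := by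
  obtain ⟨m, rfl⟩ : ∃ m, n = m + 1 := ⟨n - 1, by omega⟩
  have hm : 1 ≤ m := by omega
  have : Fact l.Prime := ⟨hl⟩
  set A' : Matrix (Fin (m + 1)) (Fin (m + 1)) (ZMod l) := A.map (Int.castRingHom (ZMod l)) with hA'
  have h1 : (univ.filter fun v : Ix (m + 1) → ZMod (l ^ 2) => BadR κ l A' (symM v)).card ≤
      (univ.filter fun v : Ix (m + 1) → Fin (l ^ 2) =>
        Bad κ l A (symM fun p => ((v p : ℕ) : ℤ))).card := by
    refine Finset.card_le_card_of_injOn (fun t i => ⟨(t i).val, ZMod.val_lt _⟩) ?_ ?_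
    · intro t ht
      simp only [coe_filter, mem_univ, true_and, Set.mem_ofPred_eq] at ht ⊢
      rw [bad_iff]
      have e : (symM fun p => (((t p).val : ℕ) : ℤ)).map (Int.castRingHom (ZMod (l ^ 2))) =
          symM t := by
        rw [symM_map]
        congr 1
        funext p
        rw [eq_intCast, Int.cast_natCast, ZMod.natCast_zmod_val]
      rw [e]
      exact ht
    · intro t _ t' _ htt
      funext i
      have := congrFun htt i
      simp only [Fin.mk.injEq] at this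
      exact ZMod.val_injective _ this
  have h2 := card_badR (l := l) (κ := κ) (A := A')
  have hκ' : (κ : ZMod l) ≠ 0 := by
    rwa [Ne, ZMod.intCast_zmod_eq_zero_iff_dvd]
  have hd' : A'.det ≠ 0 := by
    rw [hA', ← cast_det, Ne, ZMod.intCast_zmod_eq_zero_iff_dvd]
    exact hd
  have hAs : A'.IsSymm := by
    ext i j
    simp only [hA', Matrix.transpose_apply, Matrix.map_apply, hA.apply]
  have h3 := card_base (l := l) (κ := κ) (A := A') hm (by omega) hκ' hAs hd'
  have h4 := h3.trans (Nat.mul_le_mul_left 2 (h2.trans h1))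
  generalize (univ.filter fun v : Ix (m + 1) → Fin (l ^ 2) =>
        Bad κ l A (symM fun p => ((v p : ℕ) : ℤ))).card = N at h4 ⊢
  have h6 : (((l - 1 : ℕ) : ℝ)) = (l : ℝ) - 1 := by
    rw [Nat.cast_sub (by omega)]; simp
  have h7 : (((l - 2 : ℕ) : ℝ)) = (l : ℝ) - 2 := by
    rw [Nat.cast_sub (by omega)]; simp
  have h9 : (5 : ℝ) ≤ l := by exact_mod_cast h5
  have hl0 : (0 : ℝ) < l := by linarith
  have h4' : (((l - 1 : ℕ) : ℝ) ^ m * (l : ℝ) ^ (m * (m - 1) / 2)) * (l : ℝ) ^ (m * (m + 1) / 2) *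
      (((l - 2 : ℕ) : ℝ) * (l : ℝ) ^ (m - 1) * (l : ℝ) ^ m * ((l - 1 : ℕ) : ℝ)) ≤ 2 * (N : ℝ) := by
    exact_mod_cast h4
  rw [h6, h7] at h4'
  have h10 : (l : ℝ) / 2 ≤ l - 1 := by linarith
  have h11 : (l : ℝ) / 2 ≤ l - 2 := by linarith
  have h12 : (((l : ℝ) / 2) ^ m * (l : ℝ) ^ (m * (m - 1) / 2)) * (l : ℝ) ^ (m * (m + 1) / 2) *
      ((l : ℝ) / 2 * (l : ℝ) ^ (m - 1) * (l : ℝ) ^ m * ((l : ℝ) / 2)) ≤ 2 * (N : ℝ) := by
    refine le_trans ?_ h4'
    have : (0 : ℝ) ≤ (l : ℝ) - 1 := by linarith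
    have : (0 : ℝ) ≤ (l : ℝ) - 2 := by linarith
    gcongr
  have hexp : m + (m * (m - 1) / 2 + (m * (m + 1) / 2 + (1 + ((m - 1) + (m + 1))))) =
      (m + 1) * (m + 1 + 1) - 1 := by
    obtain ⟨k, rfl⟩ : ∃ k, m = k + 1 := ⟨m - 1, by omega⟩
    have e1 : 2 ∣ (k + 1) * (k + 1 - 1) := by
      rw [Nat.add_sub_cancel, mul_comm]; exact (Nat.even_mul_succ_self k).two_dvd
    have e2 : 2 ∣ (k + 1) * (k + 1 + 1) := (Nat.even_mul_succ_self (k + 1)).two_dvd
    obtain ⟨a, ha⟩ := e1
    obtain ⟨b, hb⟩ := e2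
    rw [ha, hb, Nat.mul_div_cancel_left _ two_pos, Nat.mul_div_cancel_left _ two_pos]
    rw [Nat.add_sub_cancel] at ha
    have e3 : (k + 1 + 1) * (k + 1 + 1 + 1) = k * k + 5 * k + 6 := by ring
    rw [e3]
    have e4 : (k + 1) * k = k * k + k := by ring
    have e5 : (k + 1) * (k + 1 + 1) = k * k + 3 * k + 2 := by ring
    rw [e4] at ha
    rw [e5] at hb
    omega
  have h13 : (((l : ℝ) / 2) ^ m * (l : ℝ) ^ (m * (m - 1) / 2)) * (l : ℝ) ^ (m * (m + 1) / 2) *
      ((l : ℝ) / 2 * (l : ℝ) ^ (m - 1) * (l : ℝ) ^ m * ((l : ℝ) / 2)) =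
      (l : ℝ) ^ ((m + 1) * (m + 1 + 1) - 1) / 2 ^ (m + 2) := by
    rw [← hexp]
    rw [div_pow, pow_add (2 : ℝ) m 2, pow_add, pow_add, pow_add, pow_add, pow_add, pow_add, pow_one]
    field_simp
  rw [h13] at h12
  have h14 : (l : ℝ) ^ ((m + 1) * (m + 1 + 1) - 1) / 2 ^ (m + 1 + 3) =
      (l : ℝ) ^ ((m + 1) * (m + 1 + 1) - 1) / 2 ^ (m + 2) / 4 := by
    rw [show m + 1 + 3 = (m + 2) + 2 by ring, pow_add (2 : ℝ) (m + 2) 2]
    field_simp
    norm_num
  rw [h14]
  have h15 : (0 : ℝ) ≤ (l : ℝ) ^ ((m + 1) * (m + 1 + 1) - 1) / 2 ^ (m + 2) := by positivity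
  linarith

end Stoll308.BG
end

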