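import Pool.Agent.Work.BCM.C04
import Pool.Agent.Work.BCM.C06

section
set_option autoImplicit false

/-!
Few matrices of a large cube satisfy the local conditions at all primes up to `z`.
-/

namespace Stoll308.BG

open Finset Matrix

/-- the primes of `[5, z]` not dividing `κ`. -/
noncomputable def cubeP (κ : ℤ) (z : ℕ) : Finset ℕ :=
  (Icc 5 z).filter fun l => l.Prime ∧ ¬ (l : ℤ) ∣ κ

lemma cube_sum (κ : ℤ) (hκ : κ ≠ 0) (T : ℝ) : ∃ z : ℕ, T ≤ ∑ l ∈ cubeP κ z, (1 : ℝ) / l := by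
  set f : ℕ → ℝ := Set.indicator {p : ℕ | p.Prime} (fun n : ℕ => (1 : ℝ) / n) with hf
  have hf0 : ∀ n, 0 ≤ f n := fun n => Set.indicator_nonneg (fun _ _ => by positivity) n
  have h1 : Filter.Tendsto (fun n => ∑ i ∈ range n, f i) Filter.atTop Filter.atTop :=
    (not_summable_iff_tendsto_nat_atTop_of_nonneg hf0).1 not_summable_one_div_on_primes
  set E : Finset ℕ := range 5 ∪ κ.natAbs.divisors with hE
  obtain ⟨N, hN⟩ := (h1.eventually_ge_atTop (T + ∑ i ∈ E, f i)).exists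
  refine ⟨N, ?_⟩
  have h2 : ∑ i ∈ range N, f i ≤ ∑ i ∈ cubeP κ N, (1 : ℝ) / i + ∑ i ∈ E, f i := by
    have h3 : ∑ i ∈ range N, f i ≤ ∑ i ∈ cubeP κ N ∪ E, f i := by
      calc ∑ i ∈ range N, f i = ∑ i ∈ (range N).filter (fun i => i.Prime), f i := by
            rw [Finset.sum_filter]
            refine Finset.sum_congr rfl fun i _ => ?_
            split_ifs with h
            · rfl
            · rw [hf, Set.indicator_of_notMem]; exact h
        _ ≤ _ := by
            refine Finset.sum_le_sum_of_subset_of_nonneg ?_ (fun i _ _ => hf0 i)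
            intro i hi
            rw [mem_filter, mem_range] at hi
            rw [mem_union]
            by_cases h5 : i < 5
            · right; rw [hE, mem_union, mem_range]; exact Or.inl h5
            · by_cases hd : (i : ℤ) ∣ κ
              · right
                rw [hE, mem_union, Nat.mem_divisors]
                exact Or.inr ⟨Int.natCast_dvd.1 hd, Int.natAbs_ne_zero.2 hκ⟩
              · left
                rw [cubeP, mem_filter, mem_Icc]
                exact ⟨⟨not_lt.1 h5, hi.1.le⟩, hi.2, hd⟩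
    have h4 := Finset.sum_union_inter (s₁ := cubeP κ N) (s₂ := E) (f := f)
    have h5 : 0 ≤ ∑ i ∈ cubeP κ N ∩ E, f i := Finset.sum_nonneg fun i _ => hf0 i
    have h6 : ∑ i ∈ cubeP κ N, f i ≤ ∑ i ∈ cubeP κ N, (1 : ℝ) / i := by
      refine Finset.sum_le_sum fun i _ => ?_
      rw [hf]
      exact Set.indicator_le_self' (fun _ _ => by positivity) i
    linarith
  linarith

lemma cube_ix (n : ℕ) : Fintype.card (Ix n) = n * (n + 1) / 2 := by
  have h1 : Fintype.card (Ix n) = ∑ j : Fin n, ((j : ℕ) + 1) := by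
    rw [Fintype.card_subtype]
    rw [← Finset.card_sigma (Finset.univ : Finset (Fin n)) (fun j : Fin n => Finset.Iic j)
      |>.trans (Finset.sum_congr rfl fun j _ => Fin.card_Iic j)]
    refine Finset.card_bij (fun p _ => (⟨p.2, p.1⟩ : (_ : Fin n) × Fin n)) ?_ ?_ ?_
    · intro p hp
      rw [mem_filter] at hp
      simpa using hp.2
    · intro p _ q _ h
      simp only [Sigma.mk.injEq, heq_eq_eq] at h
      exact Prod.ext h.2 h.1
    · intro s hs
      rw [mem_sigma, mem_Iic] at hs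
      exact ⟨(s.2, s.1), by simpa using hs.2, rfl⟩
  rw [h1, Fin.sum_univ_eq_sum_range (fun j => j + 1) n]
  have h2 : ∑ j ∈ range n, (j + 1) = ∑ j ∈ range (n + 1), j := by
    rw [Finset.sum_range_succ' (fun j => j) n, add_zero]
  rw [h2, Finset.sum_range_id, Nat.add_sub_cancel, mul_comm]

lemma cube_box {ι : Type*} [Fintype ι] [DecidableEq ι] (S : Finset ℕ) (m : ℕ → ℕ)
    (hm : ∀ l ∈ S, 0 < m l)
    (hcop : ∀ l ∈ S, ∀ l' ∈ S, l ≠ l' → Nat.Coprime (m l) (m l'))
    (A : ℕ → (ι → ℤ) → Prop)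
    (hper : ∀ l ∈ S, ∀ t t' : ι → ℤ, (∀ i, (m l : ℤ) ∣ t i - t' i) → (A l t ↔ A l t'))
    (β : ℕ → ℝ) (hβ1 : ∀ l ∈ S, β l ≤ 1)
    (hβ : ∀ l ∈ S, β l * (m l : ℝ) ^ Fintype.card ι ≤
      ((@Finset.filter _ (fun t : ι → Fin (m l) => A l (fun i => ((t i : ℕ) : ℤ)))
        (fun _ => Classical.propDecidable _) univ).card : ℝ))
    (a : ι → ℤ) (D : ι → ℕ) :
    ((@Finset.filter _ (fun t => ∀ l ∈ S, ¬ A l t)
        (fun _ => Classical.propDecidable _)
        (Fintype.piFinset fun i => Ico (a i) (a i + D i))).card : ℝ) ≤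
      (∏ i, ((D i : ℝ) + ∏ l ∈ S, (m l : ℝ))) * ∏ l ∈ S, (1 - β l) := by
  classical
  set e : ι ≃ Fin (Fintype.card ι) := Fintype.equivFin ι with he
  have h := BE.sieve_box (n := Fintype.card ι) S m hm hcop (fun l t => A l (t ∘ e))
    (fun l hl t t' hh => hper l hl _ _ fun i => hh (e i)) β hβ1 (fun l hl => by
      refine (hβ l hl).trans (Nat.cast_le.2 ?_)
      refine Finset.card_le_card_of_injOn (fun t => t ∘ e.symm) ?_ ?_
      · intro t ht
        have ht' := (@Finset.mem_filter _ _ (_) _ _).1 (Finset.mem_coe.1 ht)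
        refine Finset.mem_coe.2 ((@Finset.mem_filter _ _ (_) _ _).2 ⟨Finset.mem_univ _, ?_⟩)
        have h3 : ((fun i => (((t ∘ e.symm) i : ℕ) : ℤ)) ∘ e) = fun i => ((t i : ℕ) : ℤ) := by
          funext i; simp
        rw [h3]
        exact ht'.2
      · intro t _ t' _ h
        funext i
        have := congrFun h (e i)
        simpa using this)
    (fun i => a (e.symm i)) (fun i => D (e.symm i))
  refine le_trans ?_ (h.trans (le_of_eq ?_))
  · refine Nat.cast_le.2 (Finset.card_le_card_of_injOn (fun t => t ∘ e.symm) ?_ ?_)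
    · intro t ht
      have ht' := (@Finset.mem_filter _ _ (_) _ _).1 (Finset.mem_coe.1 ht)
      refine Finset.mem_coe.2 ((@Finset.mem_filter _ _ (_) _ _).2 ⟨?_, ?_⟩)
      · rw [Fintype.mem_piFinset] at ht' ⊢
        intro i
        exact ht'.1 (e.symm i)
      · intro l hl
        have h3 : ((t ∘ e.symm) ∘ e) = t := by
          funext i; simp
        rw [h3]
        exact ht'.2 l hl
    · intro t _ t' _ h
      funext i
      have := congrFun h (e i)
      simpa using this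
  · congr 1
    exact Fintype.prod_equiv e.symm _ _ fun i => rfl

open Classical in
theorem cube_small {n : ℕ} (hn : 2 ≤ n) (κ : ℤ) (hκ : κ ≠ 0) (A : Matrix (Fin n) (Fin n) ℤ)
    (hA : A.IsSymm) (hd : A.det ≠ 0) (ε : ℝ) (hε : 0 < ε) :
    ∃ (z : ℕ) (D₀ : ℝ), ∀ D : ℝ, D₀ ≤ D →
      (((Fintype.piFinset fun _ : Ix n => Icc (-⌊D⌋) ⌊D⌋).filter
        fun v => ∀ l ∈ Icc 5 z, l.Prime → ¬ (l : ℤ) ∣ κ → ¬ Bad κ l A (symM v)).card : ℝ) ≤
        ε * D ^ (n * (n + 1) / 2) := by
  set N : ℕ := n * (n + 1) / 2 with hN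
  have hN2 : n * (n + 1) = 2 * N := by
    rw [hN, Nat.mul_div_cancel' (Nat.even_mul_succ_self n).two_dvd]
  have hN1 : 1 ≤ n * (n + 1) := by nlinarith
  set B : ℝ := 2 ^ (n + 3) with hB
  have hB0 : 0 < B := by positivity
  have hB1 : 1 ≤ B := one_le_pow₀ (by norm_num)
  obtain ⟨z, hz⟩ := cube_sum (κ * A.det) (mul_ne_zero hκ hd) (B * Real.log (3 ^ N / ε))
  set S := cubeP (κ * A.det) z with hS
  have hSmem : ∀ l ∈ S, 5 ≤ l ∧ l.Prime ∧ ¬ (l : ℤ) ∣ κ ∧ ¬ (l : ℤ) ∣ A.det := by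
    intro l hl
    rw [hS, cubeP, mem_filter, mem_Icc] at hl
    exact ⟨hl.1.1, hl.2.1, fun h => hl.2.2 (Dvd.dvd.mul_right h _),
      fun h => hl.2.2 (Dvd.dvd.mul_left h _)⟩
  set M : ℝ := ∏ l ∈ S, ((l ^ 2 : ℕ) : ℝ) with hM
  have hM0 : 0 ≤ M := Finset.prod_nonneg fun l _ => by positivity
  refine ⟨z, M + 1, fun D hD => ?_⟩
  have hD0 : 0 ≤ D := by linarith
  have hfl : 0 ≤ ⌊D⌋ := Int.floor_nonneg.2 hD0
  set L : ℕ := (2 * ⌊D⌋ + 1).toNat with hL
  have hLz : (L : ℤ) = 2 * ⌊D⌋ + 1 := Int.toNat_of_nonneg (by omega)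
  have hLR : (L : ℝ) ≤ 2 * D + 1 := by
    have h1 : (L : ℝ) = 2 * (⌊D⌋ : ℝ) + 1 := by exact_mod_cast hLz
    have h2 := Int.floor_le D
    linarith
  have hpow : ∀ l : ℕ, 5 ≤ l → 1 / (B * (l : ℝ)) ≤ 1 := by
    intro l h5
    have h6 : (5 : ℝ) ≤ l := by exact_mod_cast h5
    rw [div_le_one (by positivity)]
    nlinarith
  have hbox := cube_box (ι := Ix n) S (fun l => l ^ 2)
    (fun l hl => pow_pos (hSmem l hl).2.1.pos 2)
    (fun l hl l' hl' hne => Nat.Coprime.pow 2 2
      ((Nat.coprime_primes (hSmem l hl).2.1 (hSmem l' hl').2.1).2 hne))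
    (fun l v => Bad κ l A (symM v))
    (fun l _ t t' h => bad_congr κ l A t t' h)
    (fun l => 1 / (B * (l : ℝ)))
    (fun l hl => hpow l (hSmem l hl).1)
    (fun l hl => by
      have h1 := bad_count hn κ A hA l (hSmem l hl).2.1 (hSmem l hl).1 (hSmem l hl).2.2.1
        (hSmem l hl).2.2.2
      have hl0 : (l : ℝ) ≠ 0 := by exact_mod_cast (hSmem l hl).2.1.ne_zero
      have h2 : (1 / (B * (l : ℝ))) * (((l ^ 2 : ℕ) : ℝ)) ^ Fintype.card (Ix n) =
          (l : ℝ) ^ (n * (n + 1) - 1) / 2 ^ (n + 3) := by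
        rw [cube_ix n, ← hN]
        push_cast
        rw [← pow_mul, ← hN2]
        obtain ⟨q, hq⟩ : ∃ q, n * (n + 1) = q + 1 := ⟨n * (n + 1) - 1, by omega⟩
        rw [hq, Nat.add_sub_cancel, ← hB, pow_succ]
        field_simp
      rw [h2]
      refine h1.trans (Nat.cast_le.2 (Finset.card_le_card ?_))
      intro t ht
      exact (@Finset.mem_filter _ _ (_) _ _).2 ((@Finset.mem_filter _ _ (_) _ _).1 ht))
    (fun _ => -⌊D⌋) (fun _ => L)
  refine le_trans (Nat.cast_le.2 (Finset.card_le_card ?_)) (hbox.trans ?_)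
  · intro t ht
    have ht1 := (@Finset.mem_filter _ _ (_) _ _).1 ht
    refine (@Finset.mem_filter _ _ (_) _ _).2 ⟨Fintype.mem_piFinset.2 fun i => ?_, fun l hl => ?_⟩
    · have := Fintype.mem_piFinset.1 ht1.1 i
      rw [mem_Icc] at this
      rw [mem_Ico, hLz]
      omega
    · have h1 := hl
      rw [hS, cubeP, mem_filter] at h1
      exact ht1.2 l h1.1 h1.2.1 (hSmem l hl).2.2.1
  have h1 : (∏ _i : Ix n, ((L : ℝ) + M)) ≤ (3 * D) ^ N := by
    rw [Finset.prod_const, Finset.card_univ, cube_ix n]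
    exact pow_le_pow_left₀ (by positivity) (by linarith) _
  have h2 : ∏ l ∈ S, (1 - 1 / (B * (l : ℝ))) ≤ ε / 3 ^ N := by
    calc ∏ l ∈ S, (1 - 1 / (B * (l : ℝ))) ≤ ∏ l ∈ S, Real.exp (-(1 / (B * (l : ℝ)))) := by
          refine Finset.prod_le_prod (fun l hl => ?_) (fun l _ => ?_)
          · have := hpow l (hSmem l hl).1
            linarith
          · have := Real.add_one_le_exp (-(1 / (B * (l : ℝ))))
            linarith
      _ = Real.exp (-((∑ l ∈ S, (1 : ℝ) / l) / B)) := by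
          rw [← Real.exp_sum]
          congr 1
          rw [Finset.sum_neg_distrib, Finset.sum_div]
          congr 1
          refine Finset.sum_congr rfl fun l _ => ?_
          rw [div_div, mul_comm]
      _ ≤ Real.exp (-(Real.log (3 ^ N / ε))) := by
          apply Real.exp_le_exp.2
          rw [neg_le_neg_iff, le_div_iff₀ hB0, mul_comm]
          exact hz
      _ = ε / 3 ^ N := by
          rw [Real.exp_neg, Real.exp_log (by positivity), inv_div]
  have h3 : 0 ≤ ∏ l ∈ S, (1 - 1 / (B * (l : ℝ))) :=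
    Finset.prod_nonneg fun l hl => by
      have := hpow l (hSmem l hl).1
      linarith
  calc (∏ _i : Ix n, ((L : ℝ) + M)) * ∏ l ∈ S, (1 - 1 / (B * (l : ℝ)))
      ≤ (3 * D) ^ N * (ε / 3 ^ N) := mul_le_mul h1 h2 h3 (by positivity)
    _ = ε * D ^ N := by
        rw [mul_pow]
        field_simp

end Stoll308.BG
end

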