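import Pool.Agent.Work.BCM.C02
import Pool.Agent.Work.BCM.C03
import Pool.Agent.Work.BCM.C06
import Pool.Agent.Work.BCM.C07

section
set_option autoImplicit false

/-!
The number of bad residue classes modulo `l²`.
-/

namespace Stoll308.BF

open Finset Matrix BG
open Stoll308.BE.BadCount (red)

namespace BCount

/-- The same condition in `ZMod (l ^ 2)`. -/
def BadR {n : ℕ} (l : ℕ) (A : Matrix (Fin n) (Fin n) (ZMod l))
    (B : Matrix (Fin n) (Fin n) (ZMod (l ^ 2))) : Prop :=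
  red l B.det = 0 ∧ B.det ≠ 0 ∧ ((B.map (red l)).adjugate * A).trace ≠ 0 ∧
    ∃ _h : Fact l.Prime, ∃ i, quadraticChar (ZMod l)
      ((-1) ^ (n / 2 + 1) * (B.map (red l)).adjugate i i) = -1

lemma bad_iff {n : ℕ} (l : ℕ) (A B : Matrix (Fin n) (Fin n) ℤ) :
    Bad l A B ↔ BadR l (A.map (Int.castRingHom (ZMod l)))
      (B.map (Int.castRingHom (ZMod (l ^ 2)))) := by
  unfold Bad BadR
  rw [BG.BadCount.map_red, ← BG.BadCount.cast_det, map_intCast, ← BG.BadCount.cast_trace]
  simp only [← BG.BadCount.cast_adj]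
  rw [ZMod.intCast_zmod_eq_zero_iff_dvd, Ne, ZMod.intCast_zmod_eq_zero_iff_dvd, Ne,
    ZMod.intCast_zmod_eq_zero_iff_dvd]
  simp only [legendreSym]
  push_cast
  rfl

lemma map_symM {n : ℕ} (m : ℕ) (v v' : Ix n → ℤ) (h : ∀ i, (m : ℤ) ∣ v i - v' i) :
    (symM v).map (Int.castRingHom (ZMod m)) = (symM v').map (Int.castRingHom (ZMod m)) := by
  ext i j
  simp only [Matrix.map_apply, symM, eq_intCast]
  have := (ZMod.intCast_zmod_eq_zero_iff_dvd
    (v ⟨(min i j, max i j), min_le_max⟩ - v' ⟨(min i j, max i j), min_le_max⟩) m).2 (h _)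
  rw [Int.cast_sub, sub_eq_zero] at this
  exact this

/-- Bad in the monic setting implies bad. -/
lemma bad_of {n : ℕ} (hn : 4 ≤ n) (he : Even n) (l : ℕ) (_hl : l.Prime)
    (A B : Matrix (Fin n) (Fin n) ℤ) (hd : ¬ (l : ℤ) ∣ A.det)
    (h : BG.Bad ((-1) ^ (n / 2) * A.det) l A B) : Bad l A B := by
  obtain ⟨h1, h2, h3, hF, i, hi⟩ := h
  refine ⟨h1, h2, h3, hF, i, ?_⟩
  have ho : Odd (n - 1) := by
    obtain ⟨k, hk⟩ := he
    exact ⟨k - 1, by omega⟩
  have e : (-1 : ℤ) ^ (n - 1) * B.adjugate i i * A.det * ((-1) ^ (n / 2) * A.det) =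
      ((-1) ^ (n / 2 + 1) * B.adjugate i i) * A.det ^ 2 := by
    rw [ho.neg_one_pow, pow_succ]
    ring
  rw [e, legendreSym.mul] at hi
  have h4 : (A.det : ZMod l) ≠ 0 := by
    rwa [Ne, ZMod.intCast_zmod_eq_zero_iff_dvd]
  rw [legendreSym.sq_one' l h4, mul_one] at hi
  exact hi

end BCount

open BCount

lemma bad_congr {n : ℕ} (l : ℕ) (v v' : Ix n ⊕ Ix n → ℤ)
    (h : ∀ i, ((l ^ 2 : ℕ) : ℤ) ∣ v i - v' i) :
    Bad l (symM fun p => v (Sum.inl p)) (symM fun p => v (Sum.inr p)) ↔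
      Bad l (symM fun p => v' (Sum.inl p)) (symM fun p => v' (Sum.inr p)) := by
  rw [bad_iff, bad_iff]
  have e1 : (symM fun p => v (Sum.inl p)).map (Int.castRingHom (ZMod l)) =
      (symM fun p => v' (Sum.inl p)).map (Int.castRingHom (ZMod l)) :=
    map_symM l _ _ fun i => dvd_trans (by exact_mod_cast dvd_pow_self l two_ne_zero) (h _)
  have e2 : (symM fun p => v (Sum.inr p)).map (Int.castRingHom (ZMod (l ^ 2))) =
      (symM fun p => v' (Sum.inr p)).map (Int.castRingHom (ZMod (l ^ 2))) :=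
    map_symM (l ^ 2) _ _ fun i => h _
  rw [e1, e2]

namespace BCount

open Classical in
/-- The number of nonsingular classes modulo `l²`. -/
lemma card_nonsing {n : ℕ} (l : ℕ) (hl : l.Prime) :
    (l - 1) ^ n * l ^ (n * (n - 1) / 2) * l ^ (n * (n + 1) / 2) ≤
      (univ.filter fun v : Ix n → Fin (l ^ 2) =>
        ¬ (l : ℤ) ∣ (symM fun p => ((v p : ℕ) : ℤ)).det).card := by
  have : Fact l.Prime := ⟨hl⟩
  have h1 := BG.BadSym.card_nonsing (l := l) n
  have h2 : (Finset.univ : Finset (Ix n → Fin l)).card = l ^ (n * (n + 1) / 2) := by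
    rw [Finset.card_univ, Fintype.card_fun, Fintype.card_fin, BG.cube_ix]
  refine (Nat.mul_le_mul_right _ h1).trans ?_
  rw [← h2, ← Finset.card_product]
  have hlt : ∀ (w : ZMod l) (b : Fin l), w.val + l * (b : ℕ) < l ^ 2 := by
    intro w b
    have h3 := ZMod.val_lt w
    have h4 : (b : ℕ) + 1 ≤ l := b.2
    calc w.val + l * (b : ℕ) < l + l * (b : ℕ) := by omega
      _ = l * ((b : ℕ) + 1) := by ring
      _ ≤ l * l := Nat.mul_le_mul_left _ h4
      _ = l ^ 2 := (pow_two l).symm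
  refine Finset.card_le_card_of_injOn
    (fun q p => (⟨(q.1 p).val + l * (q.2 p : ℕ), hlt _ _⟩ : Fin (l ^ 2))) ?_ ?_
  · rintro ⟨w, b⟩ hq
    have hq' := (Finset.mem_filter.1 (Finset.mem_product.1 (Finset.mem_coe.1 hq)).1).2
    refine Finset.mem_coe.2 (Finset.mem_filter.2 ⟨Finset.mem_univ _, ?_⟩)
    intro hdvd
    apply hq'
    have h5 := (ZMod.intCast_zmod_eq_zero_iff_dvd _ l).2 hdvd
    rw [BG.BadCount.cast_det] at h5
    have e : (symM fun p : Ix n => (((⟨(w p).val + l * (b p : ℕ), hlt _ _⟩ : Fin (l ^ 2)) : ℕ)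
        : ℤ)).map (Int.castRingHom (ZMod l)) = symM w := by
      ext i j
      simp only [Matrix.map_apply, symM, eq_intCast]
      push_cast
      rw [ZMod.natCast_zmod_val, ZMod.natCast_self, zero_mul, add_zero]
    rw [e] at h5
    exact h5
  · rintro ⟨w, b⟩ _ ⟨w', b'⟩ _ h
    have h6 : ∀ p, (w p).val = (w' p).val ∧ (b p : ℕ) = (b' p : ℕ) := by
      intro p
      have h7 := congrArg Fin.val (congrFun h p)
      simp only at h7
      have h8 := ZMod.val_lt (w p)
      have h9 := ZMod.val_lt (w' p)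
      have h10 := congrArg (· % l) h7
      simp only [Nat.add_mul_mod_self_left, Nat.mod_eq_of_lt h8, Nat.mod_eq_of_lt h9] at h10
      refine ⟨h10, ?_⟩
      rw [h10] at h7
      exact Nat.eq_of_mul_eq_mul_left hl.pos (Nat.add_left_cancel h7)
    refine Prod.ext ?_ ?_
    · funext p
      exact ZMod.val_injective l (h6 p).1
    · funext p
      exact Fin.ext (h6 p).2

end BCount

open Classical in
theorem bad_count {n : ℕ} (hn : 4 ≤ n) (he : Even n) (l : ℕ) (hl : l.Prime) (h5 : 5 ≤ l) :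
    (l : ℝ) ^ (2 * (n * (n + 1)) - 1) / 2 ^ (2 * n + 3) ≤
      ((univ.filter fun v : Ix n ⊕ Ix n → Fin (l ^ 2) =>
        Bad l (symM fun p => ((v (Sum.inl p) : ℕ) : ℤ))
          (symM fun p => ((v (Sum.inr p) : ℕ) : ℤ))).card : ℝ) := by
  set SA := univ.filter fun v : Ix n → Fin (l ^ 2) =>
        ¬ (l : ℤ) ∣ (symM fun p => ((v p : ℕ) : ℤ)).det with hSA
  set M : ℝ := (l : ℝ) ^ (n * (n + 1) - 1) / 2 ^ (n + 3) with hM
  have hM0 : 0 ≤ M := by positivity
  have h1 : ∀ v ∈ SA, M ≤ ((univ.filter fun w : Ix n → Fin (l ^ 2) =>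
      Bad l (symM fun p => ((v p : ℕ) : ℤ)) (symM fun p => ((w p : ℕ) : ℤ))).card : ℝ) := by
    intro v hv
    have hd := (Finset.mem_filter.1 hv).2
    have hκ : ¬ (l : ℤ) ∣ (-1) ^ (n / 2) * (symM fun p => ((v p : ℕ) : ℤ)).det := by
      rwa [(isUnit_one.neg.pow _).dvd_mul_left]
    refine (BG.bad_count (by omega) ((-1) ^ (n / 2) * (symM fun p => ((v p : ℕ) : ℤ)).det)
      (symM fun p => ((v p : ℕ) : ℤ)) (BG.BadSym.symM_isSymm _) l hl h5 hκ hd).trans ?_
    refine Nat.cast_le.2 (Finset.card_le_card ?_)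
    intro w hw
    have hw' := (@Finset.mem_filter _ _ (_) _ _).1 hw
    exact (@Finset.mem_filter _ _ (_) _ _).2 ⟨hw'.1, bad_of hn he l hl _ _ hd hw'.2⟩
  have h2 : ∑ v ∈ SA, (univ.filter fun w : Ix n → Fin (l ^ 2) =>
      Bad l (symM fun p => ((v p : ℕ) : ℤ)) (symM fun p => ((w p : ℕ) : ℤ))).card ≤
      (univ.filter fun v : Ix n ⊕ Ix n → Fin (l ^ 2) =>
        Bad l (symM fun p => ((v (Sum.inl p) : ℕ) : ℤ))
          (symM fun p => ((v (Sum.inr p) : ℕ) : ℤ))).card := by
    rw [← Finset.card_sigma]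
    refine Finset.card_le_card_of_injOn (fun s => Sum.elim s.1 s.2) ?_ ?_
    · rintro ⟨v, w⟩ hs
      have hs' := Finset.mem_sigma.1 (Finset.mem_coe.1 hs)
      exact Finset.mem_coe.2 (Finset.mem_filter.2 ⟨Finset.mem_univ _,
        (Finset.mem_filter.1 hs'.2).2⟩)
    · rintro ⟨v, w⟩ _ ⟨v', w'⟩ _ h
      have e1 : v = v' := funext fun p => congrFun h (Sum.inl p)
      have e2 : w = w' := funext fun p => congrFun h (Sum.inr p)
      subst e1 e2
      rfl
  have h3 : (SA.card : ℝ) * M ≤ ((univ.filter fun v : Ix n ⊕ Ix n → Fin (l ^ 2) =>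
        Bad l (symM fun p => ((v (Sum.inl p) : ℕ) : ℤ))
          (symM fun p => ((v (Sum.inr p) : ℕ) : ℤ))).card : ℝ) := by
    refine le_trans ?_ (Nat.cast_le.2 h2)
    rw [Nat.cast_sum, ← nsmul_eq_mul]
    exact Finset.card_nsmul_le_sum _ _ _ h1
  refine le_trans ?_ h3
  have h4 := BCount.card_nonsing (n := n) l hl
  have h6 : ((l : ℝ) / 2) ^ n * (l : ℝ) ^ (n * (n - 1) / 2) * (l : ℝ) ^ (n * (n + 1) / 2) ≤
      (SA.card : ℝ) := by
    have h7 : (((l - 1 : ℕ) : ℝ)) ^ n * (l : ℝ) ^ (n * (n - 1) / 2) *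
        (l : ℝ) ^ (n * (n + 1) / 2) ≤ (SA.card : ℝ) := by exact_mod_cast h4
    refine le_trans ?_ h7
    have h8 : (l : ℝ) / 2 ≤ ((l - 1 : ℕ) : ℝ) := by
      rw [Nat.cast_sub (by omega)]
      have : (5 : ℝ) ≤ l := by exact_mod_cast h5
      push_cast
      linarith
    gcongr
  refine le_trans (le_of_eq ?_) (mul_le_mul_of_nonneg_right h6 hM0)
  have hexp : n + (n * (n - 1) / 2 + (n * (n + 1) / 2 + (n * (n + 1) - 1))) =
      2 * (n * (n + 1)) - 1 := by
    obtain ⟨k, rfl⟩ : ∃ k, n = k + 1 := ⟨n - 1, by omega⟩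
    have e1 : 2 ∣ (k + 1) * (k + 1 - 1) := by
      rw [Nat.add_sub_cancel, mul_comm]; exact (Nat.even_mul_succ_self k).two_dvd
    have e2 : 2 ∣ (k + 1) * (k + 1 + 1) := (Nat.even_mul_succ_self (k + 1)).two_dvd
    obtain ⟨a, ha⟩ := e1
    obtain ⟨b, hb⟩ := e2
    rw [ha, hb, Nat.mul_div_cancel_left _ two_pos, Nat.mul_div_cancel_left _ two_pos]
    rw [Nat.add_sub_cancel] at ha
    have e4 : (k + 1) * k = k * k + k := by ring
    have e5 : (k + 1) * (k + 1 + 1) = k * k + 3 * k + 2 := by ring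
    rw [e4] at ha
    rw [e5] at hb
    omega
  rw [hM, ← hexp, pow_add, pow_add, pow_add, div_pow,
    show 2 * n + 3 = n + (n + 3) by ring, pow_add (2 : ℝ) n (n + 3)]
  field_simp

end Stoll308.BF
end

section
set_option autoImplicit false

namespace Stoll308.BG.LCond

open Polynomial Finset Matrix

section general

variable {K : Type*} [CommRing K] {n : ℕ}

/-- Jacobi's formula. -/
lemma derivative_det (M : Matrix (Fin n) (Fin n) K[X]) :
    derivative M.det = (M.adjugate * M.map (fun q => derivative q)).trace := by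
  have h1 : ∀ i, (M.adjugate * M.map (fun q => derivative q)) i i =
      (M.updateCol i (fun k => derivative (M k i))).det := by
    intro i
    rw [← Matrix.cramer_apply, Matrix.cramer_eq_adjugate_mulVec]
    rfl
  rw [Matrix.trace]
  simp only [Matrix.diag_apply, h1, Matrix.det_apply']
  rw [Finset.sum_comm, derivative_sum]
  refine Finset.sum_congr rfl fun σ _ => ?_
  rw [derivative_intCast_mul, derivative_prod_finset, Finset.mul_sum]
  refine Finset.sum_congr rfl fun i _ => ?_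
  rw [← Finset.mul_prod_erase univ _ (Finset.mem_univ i), Matrix.updateCol_self]
  have h2 : ∏ j ∈ univ.erase i, M.updateCol i (fun k => derivative (M k i)) (σ j) j =
      ∏ j ∈ univ.erase i, M (σ j) j := by
    refine Finset.prod_congr rfl fun j hj => ?_
    rw [Matrix.updateCol_ne (Finset.ne_of_mem_erase hj)]
  rw [h2]
  ring

end general

section field

variable {K : Type*} [Field K] {n : ℕ}

/-- The adjugate of a singular symmetric matrix is a multiple of `v vᵀ`, `v` in the kernel. -/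
lemma adjugate_rank_one (N : Matrix (Fin n) (Fin n) K) (hN : N.IsSymm) (v : Fin n → K)
    (hv : v ≠ 0) (h : N *ᵥ v = 0) : ∃ ρ : K, ∀ i j, N.adjugate i j = ρ * v i * v j := by
  have hdet : N.det = 0 := Matrix.exists_mulVec_eq_zero_iff.mp ⟨v, hv, h⟩
  -- a kernel vector vanishing at `i` kills the entries `adj i j`
  have key : ∀ (z : Fin n → K) (i j : Fin n), N *ᵥ z = 0 → z i = 0 → N.adjugate i j ≠ 0 →
      z = 0 := by
    intro z i j hz hzi hne
    by_contra hz0
    apply hne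
    rw [Matrix.adjugate_apply]
    apply Matrix.exists_mulVec_eq_zero_iff.mp
    refine ⟨z, hz0, ?_⟩
    funext k
    by_cases hk : k = j
    · subst hk
      simp [Matrix.mulVec, Matrix.updateRow_self, single_dotProduct, hzi]
    · simp only [Matrix.mulVec, Matrix.updateRow_ne hk]
      exact congrFun hz k
  by_cases hadj : ∃ k l, N.adjugate k l ≠ 0
  · obtain ⟨k, l, hkl⟩ := hadj
    have hvk : v k ≠ 0 := fun h0 => hv (key v k l h h0 hkl)
    -- every column is a multiple of `v`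
    have hcol : ∀ j m, N.adjugate j m = N.adjugate k m / v k * v j := by
      intro j m
      have h1 : N *ᵥ (fun i => N.adjugate i m) = 0 := by
        funext i
        have h2 := congrFun (congrFun (Matrix.mul_adjugate N) i) m
        rw [hdet] at h2
        simpa [Matrix.mul_apply, Matrix.mulVec, dotProduct] using h2
      have h3 : (fun i => N.adjugate i m) - (N.adjugate k m / v k) • v = 0 := by
        apply key _ k l _ _ hkl
        · rw [Matrix.mulVec_sub, Matrix.mulVec_smul, h1, h, smul_zero, sub_zero]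
        · simp only [Pi.sub_apply, Pi.smul_apply, smul_eq_mul]
          field_simp
          ring
      have h4 := congrFun h3 j
      simp only [Pi.sub_apply, Pi.smul_apply, smul_eq_mul, Pi.zero_apply] at h4
      exact sub_eq_zero.mp h4
    have hsymm : ∀ i j, N.adjugate i j = N.adjugate j i := by
      intro i j
      have h5 : N.adjugateᵀ = N.adjugate := by
        rw [Matrix.adjugate_transpose, hN]
      rw [← Matrix.transpose_apply N.adjugate, h5]
    refine ⟨N.adjugate k k / v k ^ 2, fun i j => ?_⟩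
    rw [hcol i j, hsymm k j, hcol j k]
    field_simp
  · refine ⟨0, fun i j => ?_⟩
    by_contra hne
    exact hadj ⟨i, j, by simpa using hne⟩

end field

section hank

variable {K : Type*} [Field K] {n : ℕ}

/-- The coefficient functional. -/
noncomputable def tau (n : ℕ) (F : K[X]) (q : K[X]) : K := (q %ₘ F).coeff (n - 1)

lemma tau_add (F q r : K[X]) : tau n F (q + r) = tau n F q + tau n F r := by
  unfold tau
  rw [Polynomial.add_modByMonic, coeff_add]

lemma tau_C_mul (F q : K[X]) (a : K) : tau n F (C a * q) = a * tau n F q := by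
  unfold tau
  rw [← Polynomial.smul_eq_C_mul, Polynomial.smul_modByMonic, coeff_smul, smul_eq_mul]

lemma tau_sum {ι : Type*} (s : Finset ι) (F : K[X]) (q : ι → K[X]) :
    tau n F (∑ i ∈ s, q i) = ∑ i ∈ s, tau n F (q i) := by
  classical
  induction s using Finset.induction_on with
  | empty => simp [tau]
  | insert a s ha ih => rw [Finset.sum_insert ha, Finset.sum_insert ha, tau_add, ih]

lemma tau_mul_self (F q : K[X]) (hF : F.Monic) : tau n F (F * q) = 0 := by
  unfold tau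
  rw [Polynomial.self_mul_modByMonic hF, coeff_zero]

/-- Evaluating the functional on multiples of a polynomial of degree `< n`. -/
lemma tau_mul (F q g : K[X]) (hg : g.natDegree < n) :
    tau n F (q * g) = ∑ j : Fin n, tau n F (q * X ^ (j : ℕ)) * g.coeff j := by
  have h1 : g = ∑ j ∈ range n, C (g.coeff j) * X ^ j := g.as_sum_range_C_mul_X_pow' hg
  have h2 : q * g = ∑ j ∈ range n, C (g.coeff j) * (q * X ^ j) := by
    conv_lhs => rw [h1]
    rw [Finset.mul_sum]
    refine Finset.sum_congr rfl fun j _ => by ring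
  rw [h2, tau_sum, ← Fin.sum_univ_eq_sum_range (fun j => tau n F (C (g.coeff j) * (q * X ^ j))) n]
  refine Finset.sum_congr rfl fun j _ => ?_
  rw [tau_C_mul, mul_comm]

lemma hank_apply (F δ : K[X]) (i j : Fin n) :
    Hank n F δ i j = tau n F (δ * X ^ ((i : ℕ) + j)) := rfl

/-- The square class of the diagonal entries of the adjugate at a simple root. -/
lemma adj_square (F δ : K[X]) (hF : F.Monic) (hn : F.natDegree = n) (θ : K)
    (hθ : F.eval θ = 0) (hd : (derivative F).eval θ ≠ 0) (G : Matrix (Fin n) (Fin n) K)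
    (hG : G.det ≠ 0) (A B : Matrix (Fin n) (Fin n) K) (hA : A = G * Hank n F δ * Gᵀ)
    (hB : B = G * Hank n F (X * δ) * Gᵀ) (i : Fin n) :
    IsSquare ((θ • A - B).adjugate i i * A.det * δ.eval θ) := by
  set G0 := F /ₘ (X - C θ) with hG0
  have hfac : (X - C θ) * G0 = F := mul_divByMonic_eq_iff_isRoot.mpr hθ
  have hn1 : 1 ≤ n := by
    rw [← hn]
    by_contra h0
    have h1 : F.natDegree = 0 := by omega
    rw [eq_one_of_monic_natDegree_zero hF h1] at hθ
    simp at hθ
  have hG0m : G0.Monic := by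
    have h1 : ((X - C θ) * G0).Monic := by rw [hfac]; exact hF
    exact (monic_X_sub_C θ).of_mul_monic_left h1
  have hG0d : G0.natDegree = n - 1 := by
    have h1 : ((X - C θ) * G0).natDegree = n := by rw [hfac]; exact hn
    rw [(monic_X_sub_C θ).natDegree_mul hG0m, natDegree_X_sub_C] at h1
    omega
  have hG0lt : G0.natDegree < n := by omega
  have hG0c : G0.coeff (n - 1) = 1 := by rw [← hG0d]; exact hG0m
  have hderiv : (derivative F).eval θ = G0.eval θ := by
    rw [← hfac, derivative_mul, eval_add, eval_mul, eval_mul]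
    simp
  -- multiplication by a polynomial on `G0`
  have hmul : ∀ q : K[X], tau n F (q * G0) = q.eval θ := by
    intro q
    obtain ⟨r, hr⟩ : (X - C θ) ∣ q - C (q.eval θ) := by
      rw [dvd_iff_isRoot]; simp
    have h1 : q * G0 = C (q.eval θ) * G0 + F * r := by
      rw [← hfac]
      linear_combination G0 * hr
    rw [h1, tau_add, tau_C_mul, tau_mul_self F r hF, add_zero]
    unfold tau
    rw [(modByMonic_eq_self_iff hF).mpr, hG0c, mul_one]
    rw [degree_eq_natDegree hG0m.ne_zero, degree_eq_natDegree hF.ne_zero, hn]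
    exact_mod_cast hG0lt
  set w : Fin n → K := fun j => G0.coeff j with hw
  have hHw : ∀ (η : K[X]) (i : Fin n), (Hank n F η *ᵥ w) i = (η * X ^ (i : ℕ)).eval θ := by
    intro η i
    rw [← hmul, tau_mul F (η * X ^ (i : ℕ)) G0 hG0lt]
    simp only [Matrix.mulVec, dotProduct, hank_apply]
    refine Finset.sum_congr rfl fun j _ => ?_
    rw [pow_add, ← mul_assoc]
  have hMw : (θ • Hank n F δ - Hank n F (X * δ)) *ᵥ w = 0 := by
    funext i
    rw [Matrix.sub_mulVec, Matrix.smul_mulVec, Pi.sub_apply, Pi.smul_apply, hHw, hHw]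
    simp only [eval_mul, eval_pow, eval_X, smul_eq_mul, Pi.zero_apply]
    ring
  have hw0 : w ≠ 0 := by
    intro h0
    have h1 := congrFun h0 ⟨n - 1, by omega⟩
    simp only [hw, hG0c, Pi.zero_apply] at h1
    exact one_ne_zero h1
  -- the vector `v`
  have hGt : IsUnit (Gᵀ).det := by rw [Matrix.det_transpose]; exact isUnit_iff_ne_zero.mpr hG
  set v : Fin n → K := (Gᵀ)⁻¹ *ᵥ w with hv
  have hGv : Gᵀ *ᵥ v = w := by
    rw [hv, Matrix.mulVec_mulVec, Matrix.mul_nonsing_inv _ hGt, Matrix.one_mulVec]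
  have hv0 : v ≠ 0 := by
    intro h0
    apply hw0
    rw [← hGv, h0, Matrix.mulVec_zero]
  have hN : θ • A - B = G * (θ • Hank n F δ - Hank n F (X * δ)) * Gᵀ := by
    rw [hA, hB, Matrix.mul_sub, Matrix.sub_mul, Matrix.mul_smul, Matrix.smul_mul]
  have hNv : (θ • A - B) *ᵥ v = 0 := by
    rw [hN, ← Matrix.mulVec_mulVec, hGv, ← Matrix.mulVec_mulVec, hMw, Matrix.mulVec_zero]
  have hsymm : (θ • A - B).IsSymm := by
    rw [hN]
    have h1 : (θ • Hank n F δ - Hank n F (X * δ)).IsSymm := by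
      have h2 := hank_isSymm (n := n) F δ
      have h3 := hank_isSymm (n := n) F (X * δ)
      unfold Matrix.IsSymm at *
      rw [Matrix.transpose_sub, Matrix.transpose_smul, h2, h3]
    unfold Matrix.IsSymm at *
    rw [Matrix.transpose_mul, Matrix.transpose_mul, Matrix.transpose_transpose, h1,
      Matrix.mul_assoc]
  obtain ⟨ρ, hρ⟩ := adjugate_rank_one _ hsymm v hv0 hNv
  -- the trace
  have htr : ((θ • A - B).adjugate * A).trace = A.det * G0.eval θ := by
    have h1 : ((X : K[X]) • A.map C - B.map C).det = C A.det * F := by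
      have h2 : (X : K[X]) • A.map C - B.map C =
          G.map C * ((X : K[X]) • (Hank n F δ).map C - (Hank n F (X * δ)).map C) * (Gᵀ).map C := by
        rw [hA, hB, Matrix.mul_sub, Matrix.sub_mul, Matrix.mul_smul, Matrix.smul_mul]
        simp only [Matrix.map_mul]
      rw [h2, Matrix.det_mul, Matrix.det_mul, hank_char F δ hF hn]
      have h3 : (G.map (C : K →+* K[X])).det = C G.det := by
        rw [← RingHom.mapMatrix_apply, ← RingHom.map_det]
      have h4 : ((Gᵀ).map (C : K →+* K[X])).det = C G.det := by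
        rw [← RingHom.mapMatrix_apply, ← RingHom.map_det, Matrix.det_transpose]
      rw [h3, h4, hA, Matrix.det_mul, Matrix.det_mul, Matrix.det_transpose]
      simp only [map_mul]
      ring
    have h5 := derivative_det ((X : K[X]) • A.map C - B.map C)
    rw [h1, derivative_C_mul] at h5
    have h6 : ((X : K[X]) • A.map C - B.map C).map (fun q => derivative q) = A.map C := by
      ext a b
      simp [Matrix.map_apply, Matrix.sub_apply, Matrix.smul_apply, derivative_mul]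
    rw [h6] at h5
    have h7 := congrArg (Polynomial.eval θ) h5
    rw [eval_mul, eval_C, hderiv] at h7
    rw [h7]
    have h8 : (((X : K[X]) • A.map C - B.map C).map (evalRingHom θ)) = θ • A - B := by
      ext a b
      simp [Matrix.map_apply, Matrix.sub_apply, Matrix.smul_apply]
      try ring
    have h9 : (A.map (C : K →+* K[X])).map (evalRingHom θ) = A := by
      ext a b
      simp
    have h10 : eval θ (((X : K[X]) • A.map C - B.map C).adjugate * A.map C).trace =
        ((((X : K[X]) • A.map C - B.map C).adjugate * A.map C).map (evalRingHom θ)).trace := by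
      simp only [Matrix.trace, Matrix.diag_apply, eval_finsetSum, Matrix.map_apply,
        coe_evalRingHom]
    have h11 : (((X : K[X]) • A.map C - B.map C).adjugate).map (evalRingHom θ) =
        (((X : K[X]) • A.map C - B.map C).map (evalRingHom θ)).adjugate :=
      RingHom.map_adjugate (evalRingHom θ) _
    rw [h10, Matrix.map_mul, h9, h11, h8]
  -- `vᵀ A v`
  have hvAv : v ⬝ᵥ (A *ᵥ v) = δ.eval θ * G0.eval θ := by
    have h1 : v ⬝ᵥ (A *ᵥ v) = w ⬝ᵥ (Hank n F δ *ᵥ w) := by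
      rw [hA, ← Matrix.mulVec_mulVec, hGv, ← Matrix.mulVec_mulVec, Matrix.dotProduct_mulVec v G,
        ← Matrix.mulVec_transpose, hGv]
    rw [h1, dotProduct]
    simp only [hHw, eval_mul, eval_pow, eval_X]
    have h2 : G0.eval θ = ∑ j : Fin n, G0.coeff j * θ ^ (j : ℕ) := by
      rw [eval_eq_sum_range' hG0lt, ← Fin.sum_univ_eq_sum_range (fun j => G0.coeff j * θ ^ j) n]
    rw [h2, Finset.mul_sum]
    refine Finset.sum_congr rfl fun j _ => ?_
    simp only [hw]
    ring
  have htr2 : ((θ • A - B).adjugate * A).trace = ρ * (v ⬝ᵥ (A *ᵥ v)) := by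
    rw [Matrix.trace, dotProduct, Finset.mul_sum]
    refine Finset.sum_congr rfl fun a _ => ?_
    rw [Matrix.diag_apply, Matrix.mul_apply, Matrix.mulVec, dotProduct]
    have hAs : ∀ a b, A a b = A b a := by
      intro a b
      have h1 : Aᵀ = A := by
        rw [hA, Matrix.transpose_mul, Matrix.transpose_mul, Matrix.transpose_transpose,
          hank_isSymm (n := n) F δ, Matrix.mul_assoc]
      rw [← Matrix.transpose_apply A, h1]
    rw [Finset.mul_sum, Finset.mul_sum]
    refine Finset.sum_congr rfl fun b _ => ?_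
    rw [hρ a b, hAs b a]
    ring
  have hfin : ρ * δ.eval θ = A.det := by
    have h1 : ρ * (δ.eval θ * G0.eval θ) = A.det * G0.eval θ := by
      rw [← hvAv, ← htr2, htr]
    have h2 : G0.eval θ ≠ 0 := by rw [← hderiv]; exact hd
    apply mul_right_cancel₀ h2
    linear_combination h1
  refine ⟨ρ * δ.eval θ * v i, ?_⟩
  rw [hρ i i, ← hfin]
  ring

end hank

end Stoll308.BG.LCond
end

section
set_option autoImplicit false

namespace Stoll308.BG.LCond

open Polynomial Finset Matrix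

/-- A unit of `ℤ_l` close to `1` is a square, `l` odd. -/
lemma one_unit_sq (l : ℕ) [hl : Fact l.Prime] (h2 : l ≠ 2) (u : ℤ_[l]) (hu : ‖u - 1‖ < 1) :
    ∃ z : ℤ_[l], z ^ 2 = u := by
  have h3 : ‖(2 : ℤ_[l])‖ = 1 := by
    have h4 : ‖((2 : ℤ) : ℤ_[l])‖ = 1 := by
      rw [PadicInt.norm_intCast_eq_one_iff]
      have : IsCoprime (2 : ℤ) ((l : ℕ) : ℤ) := by
        rw [Int.isCoprime_iff_gcd_eq_one]
        have h5 : Nat.Coprime 2 l := by
          rw [Nat.coprime_primes Nat.prime_two hl.out]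
          exact fun h => h2 h.symm
        exact_mod_cast h5
      exact this
    exact_mod_cast h4
  have hd : (derivative (X ^ 2 - C u)).aeval (1 : ℤ_[l]) = 2 := by
    simp [derivative_pow]
  obtain ⟨z, hz, -⟩ := hensels_lemma (F := (X ^ 2 - C u : ℤ_[l][X])) (a := (1 : ℤ_[l])) (by
    rw [hd, h3]
    simp only [map_sub, map_pow, aeval_X, aeval_C, one_pow, Algebra.algebraMap_self,
      RingHom.id_apply]
    rw [← norm_neg, neg_sub]
    exact hu)
  refine ⟨z, ?_⟩
  simp only [map_sub, map_pow, aeval_X, aeval_C, Algebra.algebraMap_self, RingHom.id_apply] at hz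
  exact sub_eq_zero.mp hz

/-- The integral element is a square of an integral element. -/
lemma int_root (l : ℕ) [hl : Fact l.Prime] (e : ℤ_[l]) (h : IsSquare (e : ℚ_[l])) :
    IsSquare e := by
  obtain ⟨r, hr⟩ := h
  have h1 : ‖r‖ ≤ 1 := by
    have h2 : ‖r‖ * ‖r‖ ≤ 1 := by
      rw [← norm_mul, ← hr]
      exact e.2
    by_contra h3
    push Not at h3
    nlinarith
  refine ⟨⟨r, h1⟩, ?_⟩
  apply Subtype.ext
  exact hr

/-- An integer which is a square in `ℚ_l` is not a non-residue. -/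
lemma not_neg_one (l : ℕ) [hl : Fact l.Prime] (a : ℤ) (e : ℤ_[l]) (h : IsSquare (e : ℚ_[l]))
    (he : PadicInt.toZMod e = (a : ZMod l)) : legendreSym l a ≠ -1 := by
  intro h1
  rw [legendreSym.eq_neg_one_iff] at h1
  apply h1
  obtain ⟨r, hr⟩ := int_root l e h
  refine ⟨PadicInt.toZMod r, ?_⟩
  rw [← he, hr, map_mul]

lemma local_core {n : ℕ} (κ : ℤ) (c : Fin n → ℤ) (δ : ℚ[X]) (l : ℕ)
    [hl : Fact l.Prime] (h2 : l ≠ 2) (hκ : ¬ (l : ℤ) ∣ κ) (hloc : MLoc κ c δ ℚ_[l])
    (h1 : (l : ℤ) ∣ (FZ ℤ c).eval 0) (h3 : ¬ (l : ℤ) ^ 2 ∣ (FZ ℤ c).eval 0)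
    (h4 : ¬ (l : ℤ) ∣ (derivative (FZ ℤ c)).eval 0) :
    ∃ θ : ℤ_[l], ‖θ‖ < 1 ∧ (FZ ℚ_[l] c).eval (θ : ℚ_[l]) = 0 ∧
      (derivative (FZ ℚ_[l] c)).eval (θ : ℚ_[l]) ≠ 0 ∧
      ∃ w : ℚ_[l], w ≠ 0 ∧
        (κ : ℚ_[l]) * (δ.map (algebraMap ℚ ℚ_[l])).eval (θ : ℚ_[l]) = w ^ 2 := by
  have hp0 : (0 : ℝ) < l := by exact_mod_cast hl.out.pos
  have hp1 : (1 : ℝ) < l := by exact_mod_cast hl.out.one_lt
  have hκn : ‖(κ : ℚ_[l])‖ = 1 := by
    have h5 := PadicInt.norm_int_lt_one_iff_dvd (p := l) κ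
    have h6 : ¬ ‖(κ : ℤ_[l])‖ < 1 := fun h => hκ (h5.mp h)
    have h7 := (κ : ℤ_[l]).norm_le_one
    rw [PadicInt.norm_intCast_eq_padic_norm] at h6 h7
    linarith [not_lt.mp h6]
  set F := FZ ℤ_[l] c with hF
  have hFm : F = (FZ ℤ c).map (Int.castRingHom ℤ_[l]) := (FZ_map _ c).symm
  have hFq : FZ ℚ_[l] c = F.map (PadicInt.Coe.ringHom (p := l)) := (FZ_map _ c).symm
  have hF0 : F.eval 0 = (((FZ ℤ c).eval 0 : ℤ) : ℤ_[l]) := by
    rw [hFm, eval_map, ← map_zero (Int.castRingHom ℤ_[l]), eval₂_at_apply]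
    simp
  have hF1 : (derivative F).eval 0 = (((derivative (FZ ℤ c)).eval 0 : ℤ) : ℤ_[l]) := by
    rw [hFm, derivative_map, eval_map, ← map_zero (Int.castRingHom ℤ_[l]), eval₂_at_apply]
    simp
  have hn0 : ‖F.eval 0‖ < 1 := by
    rw [hF0]
    exact (PadicInt.norm_int_lt_one_iff_dvd _).mpr h1
  have hn1 : ‖(derivative F).eval 0‖ = 1 := by
    rw [hF1]
    have h5 : ¬ ‖(((derivative (FZ ℤ c)).eval 0 : ℤ) : ℤ_[l])‖ < 1 := fun h =>
      h4 ((PadicInt.norm_int_lt_one_iff_dvd _).mp h)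
    have h7 := (((derivative (FZ ℤ c)).eval 0 : ℤ) : ℤ_[l]).norm_le_one
    linarith [not_lt.mp h5]
  obtain ⟨θ, hθ, hθn, hθd, -⟩ := hensels_lemma (F := F) (a := (0 : ℤ_[l])) (by
    simp only [coe_aeval_eq_eval]
    rw [hn1]
    simpa using hn0)
  simp only [coe_aeval_eq_eval] at hθ hθn hθd
  rw [hn1, sub_zero] at hθn
  rw [hn1] at hθd
  have hcoe : ∀ (P : ℤ_[l][X]) (a : ℤ_[l]), (P.map (PadicInt.Coe.ringHom (p := l))).eval
      (a : ℚ_[l]) = ((P.eval a : ℤ_[l]) : ℚ_[l]) := by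
    intro P a
    have h5 : (a : ℚ_[l]) = PadicInt.Coe.ringHom (p := l) a := rfl
    rw [h5, eval_map, eval₂_at_apply]
    rfl
  have hroot : (FZ ℚ_[l] c).eval (θ : ℚ_[l]) = 0 := by
    rw [hFq, hcoe, hθ]
    rfl
  refine ⟨θ, hθn, hroot, ?_, ?_⟩
  · rw [hFq, derivative_map, hcoe]
    intro h0
    have h5 : (derivative F).eval θ = 0 := by
      apply Subtype.ext
      exact h0
    rw [h5, norm_zero] at hθd
    exact zero_ne_one hθd
  · obtain ⟨x, y, s, hy, hxy, hdvd⟩ := hloc
    have hyn : ‖y‖ ^ 2 = ‖(FZ ℚ_[l] c).eval (κ * x ^ 2)‖ := by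
      rw [← hxy, norm_mul, norm_pow, hκn, one_pow, one_mul, norm_pow]
    have hx1 : 1 ≤ ‖x‖ := by
      by_contra hx
      push Not at hx
      obtain ⟨t, ht⟩ : (l : ℤ_[l]) ∣ (⟨x, hx.le⟩ : ℤ_[l]) :=
        (PadicInt.norm_lt_one_iff_dvd _).mp hx
      have hxt : x = ((l : ℤ_[l]) * t : ℤ_[l]) := by rw [← ht]
      set a : ℤ_[l] := κ * ((l : ℤ_[l]) * t) ^ 2 with ha
      have hxa : (κ : ℚ_[l]) * x ^ 2 = (a : ℚ_[l]) := by
        rw [hxt, ha]
        push_cast
        ring
      rw [hxa, hFq, hcoe] at hyn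
      obtain ⟨r, hr⟩ := sub_dvd_eval_sub a 0 F
      have hl2 : ‖(l : ℤ_[l]) ^ 2‖ = (l : ℝ) ^ (-(2 : ℕ) : ℤ) := by
        rw [norm_pow, PadicInt.norm_p]
        rw [_root_.zpow_neg, zpow_natCast, inv_pow]
      have h5 : ‖F.eval a - F.eval 0‖ ≤ (l : ℝ) ^ (-(2 : ℕ) : ℤ) := by
        rw [hr, sub_zero, ha, mul_pow]
        have h6 : (κ : ℤ_[l]) * ((l : ℤ_[l]) ^ 2 * t ^ 2) * r =
          (l : ℤ_[l]) ^ 2 * (κ * t ^ 2 * r) := by ring
        rw [h6, norm_mul, hl2]
        have h7 := (κ * t ^ 2 * r : ℤ_[l]).norm_le_one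
        have h8 : (0 : ℝ) < (l : ℝ) ^ (-(2 : ℕ) : ℤ) := by positivity
        nlinarith
      have hlt : (l : ℝ) ^ (-(2 : ℕ) : ℤ) < 1 := by
        rw [_root_.zpow_neg, zpow_natCast]
        apply inv_lt_one_of_one_lt₀
        nlinarith
      have h9 : ‖y‖ ^ 2 < 1 := by
        rw [hyn, ← PadicInt.norm_def]
        have h10 : F.eval a = (F.eval a - F.eval 0) + F.eval 0 := by ring
        rw [h10]
        refine lt_of_le_of_lt (PadicInt.nonarchimedean _ _) ?_
        exact max_lt (lt_of_le_of_lt h5 hlt) hn0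
      have h11 : ‖y‖ ^ 2 ≤ (l : ℝ) ^ (-(2 : ℕ) : ℤ) := by
        have h12 : ‖y‖ < 1 := by
          by_contra h13
          push Not at h13
          nlinarith
        obtain ⟨q, hq⟩ : (l : ℤ_[l]) ∣ (⟨y, h12.le⟩ : ℤ_[l]) :=
          (PadicInt.norm_lt_one_iff_dvd _).mp h12
        have h14 : ‖y‖ = ‖(l : ℤ_[l]) * q‖ := by
          rw [← hq]
          rfl
        rw [h14, ← norm_pow, mul_pow, norm_mul, hl2]
        have h7 := (q ^ 2 : ℤ_[l]).norm_le_one
        have h8 : (0 : ℝ) < (l : ℝ) ^ (-(2 : ℕ) : ℤ) := by positivity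
        nlinarith
      apply h3
      have h15 : ‖F.eval 0‖ ≤ (l : ℝ) ^ (-(2 : ℕ) : ℤ) := by
        have h10 : F.eval 0 = F.eval a + -(F.eval a - F.eval 0) := by ring
        rw [h10]
        refine le_trans (PadicInt.nonarchimedean _ _) ?_
        rw [norm_neg]
        refine max_le ?_ h5
        rw [PadicInt.norm_def, ← hyn]
        exact h11
      rw [hF0] at h15
      exact PadicInt.norm_int_le_pow_iff_dvd.mp h15
    have hx0 : x ≠ 0 := by
      intro h0
      rw [h0, norm_zero] at hx1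
      linarith
    have hκ0 : (κ : ℚ_[l]) ≠ 0 := by
      intro h0
      rw [h0, norm_zero] at hκn
      exact zero_ne_one hκn
    set u : ℚ_[l] := 1 - θ / (κ * x ^ 2) with hu
    have hu1 : ‖u - 1‖ < 1 := by
      have h5 : u - 1 = -(θ / (κ * x ^ 2)) := by rw [hu]; ring
      rw [h5, norm_neg, norm_div, norm_mul, hκn, one_mul, norm_pow]
      have h6 : ‖(θ : ℚ_[l])‖ < 1 := hθn
      have h7 : 1 ≤ ‖x‖ ^ 2 := by nlinarith
      rw [div_lt_one (by linarith)]
      linarith
    have hu2 : ‖u‖ ≤ 1 := by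
      have h5 : u = (u - 1) + 1 := by ring
      rw [h5]
      refine le_trans (Padic.nonarchimedean _ _) ?_
      rw [norm_one]
      exact max_le hu1.le le_rfl
    obtain ⟨z, hz⟩ := one_unit_sq l h2 ⟨u, hu2⟩ hu1
    have hz' : (z : ℚ_[l]) ^ 2 = u := by
      have h5 := congrArg (fun q : ℤ_[l] => (q : ℚ_[l])) hz
      simpa using h5
    have hu0 : u ≠ 0 := by
      intro h0
      rw [h0, zero_sub, norm_neg, norm_one] at hu1
      exact lt_irrefl _ hu1
    have hz0 : (z : ℚ_[l]) ≠ 0 := by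
      intro h0
      apply hu0
      rw [← hz', h0]
      ring
    have hkey : (κ : ℚ_[l]) * (x * z) ^ 2 =
        (δ.map (algebraMap ℚ ℚ_[l])).eval (θ : ℚ_[l]) * (s.eval (θ : ℚ_[l])) ^ 2 := by
      obtain ⟨r, hr⟩ := hdvd
      have h5 := congrArg (Polynomial.eval (θ : ℚ_[l])) hr
      rw [eval_mul, hroot, zero_mul] at h5
      simp only [eval_sub, eval_C, eval_X, eval_mul, eval_pow] at h5
      rw [mul_pow, hz', hu]
      have h6 : (κ : ℚ_[l]) * (x ^ 2 * (1 - θ / (κ * x ^ 2))) = κ * x ^ 2 - θ := by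
        field_simp
      rw [h6]
      linear_combination h5
    have hs0 : s.eval (θ : ℚ_[l]) ≠ 0 := by
      intro h0
      rw [h0] at hkey
      have h5 : (κ : ℚ_[l]) * (x * z) ^ 2 ≠ 0 :=
        mul_ne_zero hκ0 (pow_ne_zero _ (mul_ne_zero hx0 hz0))
      apply h5
      rw [hkey]
      ring
    refine ⟨κ * x * z / s.eval (θ : ℚ_[l]), ?_, ?_⟩
    · exact div_ne_zero (mul_ne_zero (mul_ne_zero hκ0 hx0) hz0) hs0
    · rw [div_pow, eq_div_iff (pow_ne_zero _ hs0)]
      linear_combination (-(κ : ℚ_[l])) * hkey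

lemma FZ_coeff {n : ℕ} (c : Fin n → ℤ) (i : Fin n) : (FZ ℤ c).coeff (n - 1 - (i : ℕ)) = c i := by
  have hi := i.isLt
  have h1 : (FZ ℤ c) = C 1 * X ^ n + ∑ i : Fin n, C (c i) * X ^ (n - 1 - (i : ℕ)) := by
    simp [fpol]
  rw [h1, coeff_add, finsetSum_coeff, coeff_C_mul, coeff_X_pow, if_neg (by omega), mul_zero,
    zero_add, Finset.sum_eq_single i]
  · rw [coeff_C_mul, coeff_X_pow, if_pos rfl, mul_one]
  · intro j _ hj
    rw [coeff_C_mul, coeff_X_pow, if_neg, mul_zero]
    intro h2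
    apply hj
    apply Fin.ext
    have := j.isLt
    omega
  · intro h2
    exact absurd (Finset.mem_univ i) h2

end Stoll308.BG.LCond
end

section
set_option autoImplicit false

/-!
Few pairs of matrices of a large cube satisfy the local conditions at all primes up to `z`.
-/

namespace Stoll308.BF

open Finset Matrix BG

open Classical in
theorem cube_small {n : ℕ} (hn : 4 ≤ n) (he : Even n) (ε : ℝ) (hε : 0 < ε) :
    ∃ (z : ℕ) (D₀ : ℝ), ∀ D : ℝ, D₀ ≤ D →
      (((Fintype.piFinset fun _ : Ix n ⊕ Ix n => Icc (-⌊D⌋) ⌊D⌋).filter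
        fun v => ∀ l ∈ Icc 5 z, l.Prime → ¬ Bad l (symM fun p => v (Sum.inl p))
          (symM fun p => v (Sum.inr p))).card : ℝ) ≤ ε * D ^ (n * (n + 1)) := by
  set N : ℕ := n * (n + 1) with hN
  have hcard : Fintype.card (Ix n ⊕ Ix n) = N := by
    rw [Fintype.card_sum, cube_ix n, ← two_mul, hN,
      Nat.mul_div_cancel' (Nat.even_mul_succ_self n).two_dvd]
  have hN1 : 1 ≤ N := by rw [hN]; nlinarith
  set B : ℝ := 2 ^ (2 * n + 3) with hB
  have hB0 : 0 < B := by positivity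
  have hB1 : 1 ≤ B := one_le_pow₀ (by norm_num)
  obtain ⟨z, hz⟩ := cube_sum 1 one_ne_zero (B * Real.log (3 ^ N / ε))
  set S := cubeP 1 z with hS
  have hSmem : ∀ l ∈ S, 5 ≤ l ∧ l.Prime := by
    intro l hl
    rw [hS, cubeP, mem_filter, mem_Icc] at hl
    exact ⟨hl.1.1, hl.2.1⟩
  set M : ℝ := ∏ l ∈ S, ((l ^ 2 : ℕ) : ℝ) with hM
  have hM0 : 0 ≤ M := Finset.prod_nonneg fun l _ => by positivity
  refine ⟨z, M + 1, fun D hD => ?_⟩
  have hD0 : 0 ≤ D := by linarith
  have hfl : 0 ≤ ⌊D⌋ := Int.floor_nonneg.2 hD0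
  set L : ℕ := (2 * ⌊D⌋ + 1).toNat with hL
  have hLz : (L : ℤ) = 2 * ⌊D⌋ + 1 := Int.toNat_of_nonneg (by omega)
  have hLR : (L : ℝ) ≤ 2 * D + 1 := by
    have h1 : (L : ℝ) = 2 * (⌊D⌋ : ℝ) + 1 := by exact_mod_cast hLz
    have h2 := Int.floor_le D
    linarith
  have hpow : ∀ l : ℕ, 5 ≤ l → 1 / (B * (l : ℝ)) ≤ 1 := by
    intro l h5
    have h6 : (5 : ℝ) ≤ l := by exact_mod_cast h5
    rw [div_le_one (by positivity)]
    nlinarith
  have hbox := cube_box (ι := Ix n ⊕ Ix n) S (fun l => l ^ 2)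
    (fun l hl => pow_pos (hSmem l hl).2.pos 2)
    (fun l hl l' hl' hne => Nat.Coprime.pow 2 2
      ((Nat.coprime_primes (hSmem l hl).2 (hSmem l' hl').2).2 hne))
    (fun l v => Bad l (symM fun p => v (Sum.inl p)) (symM fun p => v (Sum.inr p)))
    (fun l _ t t' h => bad_congr l t t' h)
    (fun l => 1 / (B * (l : ℝ)))
    (fun l hl => hpow l (hSmem l hl).1)
    (fun l hl => by
      have h1 := bad_count hn he l (hSmem l hl).2 (hSmem l hl).1
      have hl0 : (l : ℝ) ≠ 0 := by exact_mod_cast (hSmem l hl).2.ne_zero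
      have h2 : (1 / (B * (l : ℝ))) * (((l ^ 2 : ℕ) : ℝ)) ^ Fintype.card (Ix n ⊕ Ix n) =
          (l : ℝ) ^ (2 * (n * (n + 1)) - 1) / 2 ^ (2 * n + 3) := by
        rw [hcard, ← hN]
        push_cast
        rw [← pow_mul]
        obtain ⟨q, hq⟩ : ∃ q, 2 * N = q + 1 := ⟨2 * N - 1, by omega⟩
        rw [hq, Nat.add_sub_cancel, ← hB, pow_succ]
        field_simp
      rw [h2]
      refine h1.trans (Nat.cast_le.2 (Finset.card_le_card ?_))
      intro t ht
      exact (@Finset.mem_filter _ _ (_) _ _).2 ((@Finset.mem_filter _ _ (_) _ _).1 ht))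
    (fun _ => -⌊D⌋) (fun _ => L)
  refine le_trans (Nat.cast_le.2 (Finset.card_le_card ?_)) (hbox.trans ?_)
  · intro t ht
    have ht1 := (@Finset.mem_filter _ _ (_) _ _).1 ht
    refine (@Finset.mem_filter _ _ (_) _ _).2 ⟨Fintype.mem_piFinset.2 fun i => ?_, fun l hl => ?_⟩
    · have := Fintype.mem_piFinset.1 ht1.1 i
      rw [mem_Icc] at this
      rw [mem_Ico, hLz]
      omega
    · have h1 := hl
      rw [hS, cubeP, mem_filter] at h1
      exact ht1.2 l h1.1 h1.2.1
  have h1 : (∏ _i : Ix n ⊕ Ix n, ((L : ℝ) + M)) ≤ (3 * D) ^ N := by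
    rw [Finset.prod_const, Finset.card_univ, hcard]
    exact pow_le_pow_left₀ (by positivity) (by linarith) _
  have h2 : ∏ l ∈ S, (1 - 1 / (B * (l : ℝ))) ≤ ε / 3 ^ N := by
    calc ∏ l ∈ S, (1 - 1 / (B * (l : ℝ))) ≤ ∏ l ∈ S, Real.exp (-(1 / (B * (l : ℝ)))) := by
          refine Finset.prod_le_prod (fun l hl => ?_) (fun l _ => ?_)
          · have := hpow l (hSmem l hl).1
            linarith
          · have := Real.add_one_le_exp (-(1 / (B * (l : ℝ))))
            linarith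
      _ = Real.exp (-((∑ l ∈ S, (1 : ℝ) / l) / B)) := by
          rw [← Real.exp_sum]
          congr 1
          rw [Finset.sum_neg_distrib, Finset.sum_div]
          congr 1
          refine Finset.sum_congr rfl fun l _ => ?_
          rw [div_div, mul_comm]
      _ ≤ Real.exp (-(Real.log (3 ^ N / ε))) := by
          apply Real.exp_le_exp.2
          rw [neg_le_neg_iff, le_div_iff₀ hB0, mul_comm]
          exact hz
      _ = ε / 3 ^ N := by
          rw [Real.exp_neg, Real.exp_log (by positivity), inv_div]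
  have h3 : 0 ≤ ∏ l ∈ S, (1 - 1 / (B * (l : ℝ))) :=
    Finset.prod_nonneg fun l hl => by
      have := hpow l (hSmem l hl).1
      linarith
  calc (∏ _i : Ix n ⊕ Ix n, ((L : ℝ) + M)) * ∏ l ∈ S, (1 - 1 / (B * (l : ℝ)))
      ≤ (3 * D) ^ N * (ε / 3 ^ N) := mul_le_mul h1 h2 h3 (by positivity)
    _ = ε * D ^ N := by
        rw [mul_pow]
        field_simp

end Stoll308.BF
end

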