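import Pool.Agent.Work.BCM.C02
import Pool.Agent.Work.BCM.C10
import Pool.Agent.Work.BCM.C12

section
set_option autoImplicit false

/-!
The square class of `det A`; consequences for isotropic subspaces.
-/

namespace Stoll308.BG

open Polynomial Finset Matrix

namespace DetCls

/-- An integer which is a square in `ℝ` and in all the `ℚ_p` is a square. -/
lemma int_sq (A : ℤ) (hR : ∃ w : ℝ, (A : ℝ) = w ^ 2)
    (hp : ∀ (p : ℕ) [Fact p.Prime], ∃ w : ℚ_[p], (A : ℚ_[p]) = w ^ 2) : ∃ r : ℤ, A = r ^ 2 := by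
  by_cases hA : A = 0
  · exact ⟨0, by rw [hA]; norm_num⟩
  have hA0 : 0 ≤ A := by
    obtain ⟨w, hw⟩ := hR
    have : (0 : ℝ) ≤ (A : ℝ) := by rw [hw]; positivity
    exact_mod_cast this
  obtain ⟨n, rfl⟩ := Int.eq_ofNat_of_zero_le hA0
  have hn : n ≠ 0 := by
    rintro rfl
    exact hA rfl
  obtain ⟨a, b, hab, hsf⟩ := Nat.sq_mul_squarefree n
  have ha1 : a = 1 := by
    by_contra hne
    obtain ⟨p, hpp, hpa⟩ := Nat.exists_prime_and_dvd hne
    have : Fact p.Prime := ⟨hpp⟩
    obtain ⟨w, hw⟩ := hp p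
    have hv : ((n : ℕ) : ℚ_[p]).valuation = padicValNat p n := Padic.valuation_natCast n
    have hw' : ((n : ℕ) : ℚ_[p]) = w ^ 2 := by
      rw [← hw]
      push_cast
      rfl
    rw [hw', Padic.valuation_pow] at hv
    have ha0 : a ≠ 0 := by
      rintro rfl
      simp at hab
      exact hn hab.symm
    have hb0 : b ≠ 0 := by
      rintro rfl
      simp at hab
      exact hn hab.symm
    rw [← hab, padicValNat.mul (pow_ne_zero _ hb0) ha0, padicValNat.pow] at hv
    have hva : padicValNat p a = 1 := by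
      apply le_antisymm
      · by_contra hcon
        push Not at hcon
        have h1 : p ^ 2 ∣ a := (padicValNat_dvd_iff_le ha0).2 hcon
        have h2 := hsf p (by rw [← sq]; exact h1)
        exact hpp.one_lt.ne' (Nat.isUnit_iff.1 h2)
      · exact one_le_padicValNat_of_dvd ha0 hpa
    rw [hva] at hv
    push_cast at hv
    omega
  refine ⟨b, ?_⟩
  rw [← hab, ha1]
  push_cast
  ring

/-- Over a completion, `(-1)^ε κ^(n-1) det (G Hank δ Gᵀ)` is a square. -/
lemma loc_sq {n : ℕ} (κ : ℤ) (hκ : κ ≠ 0) (c : Fin n → ℤ) (δ : ℚ[X]) (K : Type) [Field K]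
    [Algebra ℚ K] (h : MLoc κ c δ K) (g : ℚ) (D : ℚ) (hD : D = g ^ 2 * (Hank n (FZ ℚ c) δ).det) :
    ∃ w : K, algebraMap ℚ K ((-1) ^ (n * (n - 1) / 2) * (κ : ℚ) ^ (n - 1) * D) = w ^ 2 := by
  obtain ⟨x, y, s, hy, hxy, hs⟩ := h
  have hch : CharZero K := algebraRat.charZero K
  have hκK : (κ : K) ≠ 0 := by exact_mod_cast hκ
  have hmon : (FZ K c).Monic := FZ_monic c
  have hdeg : (FZ K c).natDegree = n := FZ_natDegree c
  have h1 : Hank n (FZ K c) (C (κ * x ^ 2) - X) =
      mulMat n (FZ K c) s * Hank n (FZ K c) (δ.map (algebraMap ℚ K)) *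
        (mulMat n (FZ K c) s)ᵀ := by
    rw [← hank_mul_sq _ _ _ hmon hdeg]
    exact hank_congr _ _ _ hmon hs
  have h2 : (Hank n (FZ K c) (δ.map (algebraMap ℚ K))).det =
      algebraMap ℚ K (Hank n (FZ ℚ c) δ).det := by
    rw [← FZ_map (algebraMap ℚ K) c, hank_map _ _ _ (FZ_monic c), RingHom.map_det]
    rfl
  have h3 := congrArg Matrix.det h1
  rw [hank_lin_det _ hmon hdeg, ← hxy, det_mul, det_mul, det_transpose, h2] at h3
  set M := (mulMat n (FZ K c) s).det with hM
  set H := (Hank n (FZ ℚ c) δ).det with hH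
  have hM0 : M ≠ 0 := by
    intro h0
    rw [h0, zero_mul, zero_mul] at h3
    have h4 : ((-1 : K) ^ (n * (n - 1) / 2)) ≠ 0 := pow_ne_zero _ (neg_ne_zero.2 one_ne_zero)
    have h5 : (κ : K) ^ (n - 1) * y ^ 2 ≠ 0 := mul_ne_zero (pow_ne_zero _ hκK) (pow_ne_zero _ hy)
    exact (mul_ne_zero h4 h5) h3
  refine ⟨algebraMap ℚ K g * (κ : K) ^ (n - 1) * y / M, ?_⟩
  rw [hD]
  simp only [map_mul, map_pow, map_neg, map_one, map_intCast]
  have h6 : ((-1 : K) ^ (n * (n - 1) / 2)) * ((-1 : K) ^ (n * (n - 1) / 2)) = 1 := by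
    rw [← mul_pow]; norm_num
  rw [div_pow, eq_div_iff (pow_ne_zero _ hM0)]
  generalize (-1 : K) ^ (n * (n - 1) / 2) = e at *
  generalize algebraMap ℚ K H = HK at *
  generalize algebraMap ℚ K g = gK at *
  generalize (κ : K) ^ (n - 1) = k1 at *
  linear_combination (-(e * k1 * gK ^ 2)) * h3 + (k1 ^ 2 * gK ^ 2 * y ^ 2) * h6

/-- The determinant of a symmetric matrix with a zero block of half the size. -/
lemma det_half {m : ℕ} (C D : Matrix (Fin m) (Fin m) ℤ) :
    (fromBlocks 0 C Cᵀ D).det = (-1) ^ m * C.det ^ 2 := by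
  set I : Matrix (Fin m) (Fin m) ℤ := 1 with hI
  set Z : Matrix (Fin m) (Fin m) ℤ := 0 with hZ
  have hJ : (fromBlocks Z I I Z).det = (-1) ^ m := by
    have h1 : fromBlocks Z I I Z * fromBlocks I Z I I = fromBlocks I I I Z := by
      rw [fromBlocks_multiply]; simp [hI, hZ]
    have h2 := congrArg Matrix.det h1
    rw [det_mul, det_fromBlocks_zero₁₂, det_fromBlocks_one₁₁] at h2
    simpa [hI, hZ, det_neg] using h2
  have h1 : fromBlocks Z C Cᵀ D * fromBlocks Z I I Z = fromBlocks C Z D Cᵀ := by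
    rw [fromBlocks_multiply]; simp [hI, hZ]
  have h2 := congrArg Matrix.det h1
  rw [det_mul, hJ, hZ, det_fromBlocks_zero₁₂, det_transpose] at h2
  have h3 : ((-1 : ℤ) ^ m) * ((-1) ^ m) = 1 := by rw [← mul_pow]; norm_num
  calc (fromBlocks 0 C Cᵀ D).det = (fromBlocks 0 C Cᵀ D).det * (((-1 : ℤ) ^ m) * ((-1) ^ m)) := by
        rw [h3, mul_one]
    _ = ((fromBlocks 0 C Cᵀ D).det * ((-1 : ℤ) ^ m)) * ((-1) ^ m) := by ring
    _ = _ := by rw [h2]; ring

end DetCls

theorem det_class {n : ℕ} (hn : 2 ≤ n) (κ : ℤ) (hκ : κ ≠ 0) (c : Fin n → ℤ) (δ : ℚ[X])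
    (hδ : IsCoprime δ (FZ ℚ c)) (hloc : ∀ (p : ℕ) [Fact p.Prime], MLoc κ c δ ℚ_[p])
    (hR : MLoc κ c δ ℝ) (A B : Matrix (Fin n) (Fin n) ℤ) (h : IsPair c δ A B) :
    IsSquare ((-1) ^ (n * (n - 1) / 2) * κ ^ (n - 1) * A.det) := by
  obtain ⟨G, hG, hA, hB⟩ := h
  have hD : ((A.det : ℤ) : ℚ) = G.det ^ 2 * (Hank n (FZ ℚ c) δ).det := by
    have h1 := congrArg Matrix.det hA
    rw [det_mul, det_mul, det_transpose] at h1
    have h2 : (A.map (Int.cast : ℤ → ℚ)).det = ((A.det : ℤ) : ℚ) := by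
      have := RingHom.map_det (Int.castRingHom ℚ) A
      simpa using this.symm
    rw [← h2, h1]; ring
  obtain ⟨r, hr⟩ := DetCls.int_sq ((-1) ^ (n * (n - 1) / 2) * κ ^ (n - 1) * A.det) (by
      obtain ⟨w, hw⟩ := DetCls.loc_sq κ hκ c δ ℝ hR G.det _ hD
      refine ⟨w, ?_⟩
      rw [← hw]
      simp) (by
      intro p hp
      obtain ⟨w, hw⟩ := DetCls.loc_sq κ hκ c δ ℚ_[p] (hloc p) G.det _ hD
      refine ⟨w, ?_⟩
      rw [← hw]
      simp)
  exact ⟨r, by rw [hr, sq]⟩

/-- `n` even: no isotropic subspace of dimension `n / 2`. -/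
theorem mid_even {n : ℕ} (hn : 2 ≤ n) (he : Even n) (κ : ℤ) (hκ : ¬ IsSquare κ) (c : Fin n → ℤ)
    (δ : ℚ[X]) (hδ : IsCoprime δ (FZ ℚ c)) (hloc : ∀ (p : ℕ) [Fact p.Prime], MLoc κ c δ ℚ_[p])
    (hR : MLoc κ c δ ℝ) (A B : Matrix (Fin n) (Fin n) ℤ) (h : IsPair c δ A B) :
    ∃ i j : Fin n, (i : ℕ) < n / 2 ∧ (j : ℕ) < n / 2 ∧ A i j ≠ 0 := by
  by_contra hcon
  push Not at hcon
  have hκ0 : κ ≠ 0 := by
    rintro rfl
    exact hκ ⟨0, by simp⟩
  have hsq := det_class hn κ hκ0 c δ hδ hloc hR A B h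
  have hsym : A.IsSymm := h.symmA
  have hA0 : A.det ≠ 0 := (h.hasChar hδ).1
  obtain ⟨m, rfl⟩ := he
  have hm : (m + m) / 2 = m := by omega
  rw [hm] at hcon
  set e := finSumFinEquiv (m := m) (n := m) with he
  set C' : Matrix (Fin m) (Fin m) ℤ := fun i j => A (e (Sum.inl i)) (e (Sum.inr j)) with hC'
  set D' : Matrix (Fin m) (Fin m) ℤ := fun i j => A (e (Sum.inr i)) (e (Sum.inr j)) with hD'
  have hblock : A.submatrix e e = fromBlocks 0 C' C'ᵀ D' := by
    ext i j
    rcases i with i | i <;> rcases j with j | j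
    · simp only [submatrix_apply, fromBlocks_apply₁₁, Matrix.zero_apply]
      apply hcon
      · simp [he]
      · simp [he]
    · rfl
    · simp only [submatrix_apply, fromBlocks_apply₂₁, transpose_apply, hC']
      exact hsym.apply _ _
    · rfl
  have hdet : A.det = (-1) ^ m * C'.det ^ 2 := by
    rw [← det_submatrix_equiv_self e A, hblock, DetCls.det_half]
  have hC0 : C'.det ≠ 0 := by
    intro h0
    apply hA0
    rw [hdet, h0]; simp
  obtain ⟨r, hr⟩ := hsq
  have hexp : (m + m) * (m + m - 1) / 2 = m * (m + m - 1) := by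
    have : (m + m) * (m + m - 1) = 2 * (m * (m + m - 1)) := by ring
    rw [this, Nat.mul_div_cancel_left _ (by norm_num)]
  have hm1 : 1 ≤ m := by omega
  obtain ⟨k, rfl⟩ : ∃ k, m = k + 1 := ⟨m - 1, by omega⟩
  have hs1 : k + 1 + (k + 1) - 1 = 2 * k + 1 := by omega
  rw [hexp, hs1, hdet] at hr
  have hsign : ((-1 : ℤ) ^ ((k + 1) * (2 * k + 1))) * (-1) ^ (k + 1) = 1 := by
    rw [← pow_add]
    have : (k + 1) * (2 * k + 1) + (k + 1) = 2 * ((k + 1) * (k + 1)) := by ring
    rw [this, pow_mul]; simp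
  have hr2 : κ * (κ ^ k * C'.det) ^ 2 = r * r := by
    generalize (-1 : ℤ) ^ ((k + 1) * (2 * k + 1)) = a at hr hsign
    generalize (-1 : ℤ) ^ (k + 1) = b at hr hsign
    generalize C'.det = z at hr
    linear_combination hr - (κ ^ (2 * k + 1) * z ^ 2) * hsign
  have hne : κ ^ k * C'.det ≠ 0 := mul_ne_zero (pow_ne_zero _ hκ0) hC0
  have hdvd : κ ^ k * C'.det ∣ r := by
    rw [← Int.pow_dvd_pow_iff (n := 2) (by norm_num)]
    exact ⟨κ, by rw [sq r, ← hr2]; ring⟩
  obtain ⟨t, rfl⟩ := hdvd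
  apply hκ
  refine ⟨t, ?_⟩
  have h7 : (κ ^ k * C'.det) ^ 2 * κ = (κ ^ k * C'.det) ^ 2 * (t * t) := by
    linear_combination hr2
  exact mul_left_cancel₀ (pow_ne_zero 2 hne) h7

end Stoll308.BG
end

section
set_option autoImplicit false

/-!
`n` odd: a common isotropic subspace of dimension `(n - 1) / 2` makes the class trivial.
-/

namespace Stoll308.BG

open Polynomial Finset Matrix

namespace MidX

section lin

variable {K : Type*} [Field K]

/-- Linear algebra: `W` is the span of the first `m` rows of `G` (`G` invertible of size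
`2 m + 1`), isotropic for `H`, and `W C` is orthogonal to `W`. Then some nonzero `u ∈ W` has
`u C ^ j ∈ W` for all `j < m`. -/
lemma exists_vec {m : ℕ} (hm : 1 ≤ m) {V : Type*} [AddCommGroup V] [Module K V]
    [FiniteDimensional K V]
    (W P : Submodule K V) (hWP : W ≤ P) (hW : Module.finrank K W = m)
    (hP : Module.finrank K P = m + 1) (T : V →ₗ[K] V) (hT : ∀ w ∈ W, T w ∈ P) :
    ∃ u ∈ W, u ≠ 0 ∧ ∀ j < m, (T ^ j) u ∈ W := by
  -- a functional with kernel `W` on `P`
  obtain ⟨φ, hφ⟩ : ∃ φ : V →ₗ[K] K, ∀ x ∈ P, φ x = 0 → x ∈ W := by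
    set W' : Submodule K P := W.comap P.subtype with hW'
    have hfW : Module.finrank K W' = m := by
      rw [← hW]
      exact (Submodule.comapSubtypeEquivOfLe hWP).finrank_eq
    have hlt : W' < ⊤ := by
      rw [lt_top_iff_ne_top]
      intro h
      rw [h, finrank_top, hP] at hfW
      omega
    obtain ⟨f, hf, hle⟩ := Submodule.exists_le_ker_of_lt_top W' hlt
    have hker : Module.finrank K (LinearMap.ker f) = m := by
      have h1 := LinearMap.finrank_range_add_finrank_ker f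
      have h2 : LinearMap.range f = ⊤ := LinearMap.range_eq_top.2 (LinearMap.surjective hf)
      rw [h2, finrank_top, Module.finrank_self, hP] at h1
      omega
    have heq : W' = LinearMap.ker f :=
      Submodule.eq_of_le_of_finrank_eq hle (by rw [hfW, hker])
    obtain ⟨g, hg⟩ := LinearMap.exists_extend f
    refine ⟨g, fun x hx h0 => ?_⟩
    have h3 : f ⟨x, hx⟩ = 0 := by
      rw [← hg]
      exact h0
    have h4 : (⟨x, hx⟩ : P) ∈ W' := by rw [heq]; exact h3
    exact h4
  -- a nonzero vector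
  set Φ : W →ₗ[K] (Fin (m - 1) → K) :=
    LinearMap.pi fun j => (φ ∘ₗ (T ^ ((j : ℕ) + 1))) ∘ₗ W.subtype with hΦ
  have hker : LinearMap.ker Φ ≠ ⊥ := by
    apply LinearMap.ker_ne_bot_of_finrank_lt
    rw [hW, Module.finrank_fin_fun]
    omega
  obtain ⟨u, hu, hu0⟩ := (Submodule.ne_bot_iff _).1 hker
  refine ⟨u, u.2, fun h => hu0 (Subtype.ext h), ?_⟩
  intro j
  induction j with
  | zero => intro _; simp
  | succ j ih =>
    intro hj
    have h1 := ih (by omega)
    have h2 : (T ^ (j + 1)) (u : V) = T ((T ^ j) (u : V)) := by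
      rw [pow_succ']; rfl
    have h3 : (T ^ (j + 1)) (u : V) ∈ P := by
      rw [h2]; exact hT _ h1
    apply hφ _ h3
    have h4 := congrFun (LinearMap.mem_ker.1 hu) ⟨j, by omega⟩
    exact h4

/-- The rows of a matrix. -/
lemma exists_row {n m : ℕ} (hn : n = 2 * m + 1) (hm : 1 ≤ m) (G H Cm : Matrix (Fin n) (Fin n) K)
    (hG : G.det ≠ 0) (hH : H.det ≠ 0)
    (h1 : ∀ i j : Fin n, (i : ℕ) < m → (j : ℕ) < m → (G * H * Gᵀ) i j = 0)
    (h2 : ∀ i j : Fin n, (i : ℕ) < m → (j : ℕ) < m → (G * (Cm * H) * Gᵀ) i j = 0) :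
    ∃ u : Fin n → K, u ≠ 0 ∧
      (∀ i < m, ∀ j < m, (u ᵥ* Cm ^ i) ᵥ* H ⬝ᵥ (u ᵥ* Cm ^ j) = 0) ∧
      (∀ i < m, ∀ j < m, (u ᵥ* Cm ^ (i + 1)) ᵥ* H ⬝ᵥ (u ᵥ* Cm ^ j) = 0) := by
  classical
  have hA : (G * H * Gᵀ).det ≠ 0 := by
    rw [det_mul, det_mul, det_transpose]
    exact mul_ne_zero (mul_ne_zero hG hH) hG
  -- the space `W` in the coordinates of the rows of `G`
  have hGi : G⁻¹ * G = 1 := nonsing_inv_mul G (isUnit_iff_ne_zero.2 hG)
  have hGi' : G * G⁻¹ = 1 := mul_nonsing_inv G (isUnit_iff_ne_zero.2 hG)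
  set D : Matrix (Fin n) (Fin n) K := G * Cm * G⁻¹ with hD
  set A := G * H * Gᵀ with hAd
  have hDA : D * A = G * (Cm * H) * Gᵀ := by
    rw [hD, hAd]
    calc G * Cm * G⁻¹ * (G * H * Gᵀ) = G * Cm * (G⁻¹ * G) * H * Gᵀ := by
          simp only [Matrix.mul_assoc]
      _ = _ := by rw [hGi, Matrix.mul_one]; simp only [Matrix.mul_assoc]
  set hp : (Fin n → K) →ₗ[K] (Fin (m + 1) → K) :=
    LinearMap.funLeft K K (fun j : Fin (m + 1) => (⟨m + j, by omega⟩ : Fin n)) with hhp
  set gp : (Fin n → K) →ₗ[K] (Fin m → K) :=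
    (LinearMap.funLeft K K (fun j : Fin m => (⟨j, by omega⟩ : Fin n))) ∘ₗ A.vecMulLinear with hgp
  set W := LinearMap.ker hp with hW
  set P := LinearMap.ker gp with hP
  have memW : ∀ x, x ∈ W ↔ ∀ j : Fin n, m ≤ (j : ℕ) → x j = 0 := by
    intro x
    rw [hW, LinearMap.mem_ker]
    constructor
    · intro h j hj
      have := congrFun h ⟨(j : ℕ) - m, by omega⟩
      simp only [hhp, LinearMap.funLeft_apply, Pi.zero_apply] at this
      rw [← this]
      congr 1
      apply Fin.ext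
      simp only
      omega
    · intro h
      funext j
      exact h _ (by simp)
  have memP : ∀ x, x ∈ P ↔ ∀ j : Fin n, (j : ℕ) < m → (x ᵥ* A) j = 0 := by
    intro x
    rw [hP, LinearMap.mem_ker]
    constructor
    · intro h j hj
      exact congrFun h ⟨j, hj⟩
    · intro h
      funext j
      exact h _ (by simp)
  have hWP : W ≤ P := by
    intro x hx
    rw [memP]
    rw [memW] at hx
    intro j hj
    rw [vecMul, dotProduct]
    apply Finset.sum_eq_zero
    intro i _
    by_cases hi : (i : ℕ) < m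
    · rw [h1 i j hi hj, mul_zero]
    · rw [hx i (by omega), zero_mul]
  have hT : ∀ w ∈ W, D.vecMulLinear w ∈ P := by
    intro x hx
    rw [memP]
    rw [memW] at hx
    intro j hj
    have h3 : (D.vecMulLinear x) ᵥ* A = x ᵥ* (D * A) := by
      rw [vecMulLinear_apply, vecMul_vecMul]
    rw [h3, hDA, vecMul, dotProduct]
    apply Finset.sum_eq_zero
    intro i _
    by_cases hi : (i : ℕ) < m
    · rw [h2 i j hi hj, mul_zero]
    · rw [hx i (by omega), zero_mul]
  have hfW : Module.finrank K W = m := by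
    have h3 := LinearMap.finrank_range_add_finrank_ker hp
    have h4 : LinearMap.range hp = ⊤ := by
      apply LinearMap.range_eq_top.2
      apply LinearMap.funLeft_surjective_of_injective
      intro a b hab
      have := congrArg Fin.val hab
      simp only at this
      exact Fin.ext (by omega)
    rw [h4, finrank_top, Module.finrank_fin_fun, Module.finrank_fin_fun] at h3
    rw [hW]
    omega
  have hfP : Module.finrank K P = m + 1 := by
    have h3 := LinearMap.finrank_range_add_finrank_ker gp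
    have h4 : LinearMap.range gp = ⊤ := by
      apply LinearMap.range_eq_top.2
      rw [hgp, LinearMap.coe_comp]
      apply Function.Surjective.comp
      · apply LinearMap.funLeft_surjective_of_injective
        intro a b hab
        have := congrArg Fin.val hab
        simp only at this
        exact Fin.ext (by omega)
      · intro y
        refine ⟨y ᵥ* A⁻¹, ?_⟩
        rw [vecMulLinear_apply, vecMul_vecMul, nonsing_inv_mul A (isUnit_iff_ne_zero.2 hA),
          vecMul_one]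
    rw [h4, finrank_top, Module.finrank_fin_fun, Module.finrank_fin_fun] at h3
    rw [hP]
    omega
  obtain ⟨x, hxW, hx0, hx⟩ := exists_vec hm W P hWP hfW hfP
    D.vecMulLinear hT
  have hpow : ∀ j, (D.vecMulLinear ^ j) x = x ᵥ* D ^ j := by
    intro j
    induction j with
    | zero => simp
    | succ j ih =>
      rw [pow_succ', pow_succ, ← vecMul_vecMul, ← ih]
      rfl
  have hDpow : ∀ j, D ^ j * G = G * Cm ^ j := by
    intro j
    induction j with
    | zero => simp
    | succ j ih =>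
      rw [pow_succ', Matrix.mul_assoc, ih, pow_succ', hD]
      calc G * Cm * G⁻¹ * (G * Cm ^ j) = G * Cm * (G⁻¹ * G) * Cm ^ j := by
            simp only [Matrix.mul_assoc]
        _ = _ := by rw [hGi, Matrix.mul_one]; simp only [Matrix.mul_assoc]
  have hiso : ∀ (a b : Fin n → K), a ∈ W → b ∈ P → (b ᵥ* G) ᵥ* H ⬝ᵥ (a ᵥ* G) = 0 := by
    intro a b ha hb
    have h3 : (b ᵥ* G) ᵥ* H ⬝ᵥ (a ᵥ* G) = (b ᵥ* A) ⬝ᵥ a := by
      rw [hAd, ← vecMul_vecMul, ← vecMul_vecMul, ← mulVec_transpose G a, dotProduct_mulVec]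
    rw [h3, dotProduct]
    rw [memW] at ha
    rw [memP] at hb
    apply Finset.sum_eq_zero
    intro i _
    by_cases hi : (i : ℕ) < m
    · rw [hb i hi, zero_mul]
    · rw [ha i (by omega), mul_zero]
  have hrow : ∀ j, (x ᵥ* G) ᵥ* Cm ^ j = (x ᵥ* D ^ j) ᵥ* G := by
    intro j
    rw [vecMul_vecMul, vecMul_vecMul, hDpow]
  refine ⟨x ᵥ* G, ?_, ?_, ?_⟩
  · intro h0
    apply hx0
    have : (x ᵥ* G) ᵥ* G⁻¹ = x := by
      rw [vecMul_vecMul, hGi', vecMul_one]
    rw [← this, h0, zero_vecMul]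
  · intro i hi j hj
    rw [hrow, hrow]
    apply hiso
    · rw [← hpow]; exact hx j hj
    · rw [← hpow]; exact hWP (hx i hi)
  · intro i hi j hj
    rw [hrow, hrow]
    apply hiso
    · rw [← hpow]; exact hx j hj
    · rw [← hpow, pow_succ']
      exact hT _ (hx i hi)

end lin

section pol

variable {K : Type*} [Field K] {n : ℕ}

/-- The coefficient of `θ^(n-1)`, as a linear map. -/
noncomputable def tau (n : ℕ) (F : K[X]) : K[X] →ₗ[K] K :=
  (lcoeff K (n - 1)) ∘ₗ (modByMonicHom F)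

lemma tau_apply (F μ : K[X]) : tau n F μ = (μ %ₘ F).coeff (n - 1) := rfl

lemma tau_congr (F : K[X]) (hF : F.Monic) {μ ν : K[X]} (h : F ∣ μ - ν) :
    tau n F μ = tau n F ν := by
  rw [tau_apply, tau_apply]
  congr 1
  have h1 : (μ - ν) %ₘ F = 0 := (modByMonic_eq_zero_iff_dvd hF).2 h
  rw [sub_modByMonic] at h1
  exact sub_eq_zero.1 h1

/-- The polynomial with the coefficients `u`. -/
noncomputable def pv (u : Fin n → K) : K[X] := ∑ k : Fin n, C (u k) * X ^ (k : ℕ)

lemma pv_coeff (u : Fin n → K) (k : Fin n) : (pv u).coeff k = u k := by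
  unfold pv
  rw [finsetSum_coeff]
  simp only [coeff_C_mul, coeff_X_pow]
  rw [Finset.sum_eq_single k]
  · simp
  · intro j _ hj
    have : (k : ℕ) ≠ (j : ℕ) := fun h => hj (Fin.ext h.symm)
    simp [this]
  · simp

lemma pv_degree_lt (u : Fin n → K) : (pv u).degree < n := by
  unfold pv
  rw [← Polynomial.mem_degreeLT]
  apply Submodule.sum_mem
  intro k _
  rw [Polynomial.mem_degreeLT]
  calc (C (u k) * X ^ (k : ℕ)).degree ≤ ((k : ℕ) : WithBot ℕ) := degree_C_mul_X_pow_le _ _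
    _ < n := by exact_mod_cast k.2

lemma pv_coeffs (P : K[X]) (hP : P.degree < n) : pv (fun k : Fin n => P.coeff k) = P := by
  ext j
  by_cases hj : j < n
  · exact pv_coeff (fun k : Fin n => P.coeff k) ⟨j, hj⟩
  · rw [coeff_eq_zero_of_degree_lt, coeff_eq_zero_of_degree_lt]
    · exact lt_of_lt_of_le hP (by exact_mod_cast (not_lt.1 hj))
    · exact lt_of_lt_of_le (pv_degree_lt _) (by exact_mod_cast (not_lt.1 hj))

lemma hank_form (F δ : K[X]) (u v : Fin n → K) :
    (u ᵥ* Hank n F δ) ⬝ᵥ v = tau n F (δ * pv u * pv v) := by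
  have h1 : δ * pv u * pv v = ∑ i : Fin n, ∑ j : Fin n,
      (u i * v j) • (δ * X ^ ((i : ℕ) + j)) := by
    unfold pv
    rw [mul_assoc, Finset.sum_mul_sum, Finset.mul_sum]
    refine Finset.sum_congr rfl fun i _ => ?_
    rw [Finset.mul_sum]
    refine Finset.sum_congr rfl fun j _ => ?_
    rw [smul_eq_C_mul, C_mul]
    ring
  rw [h1, map_sum]
  simp only [map_sum, map_smul, smul_eq_mul]
  simp only [dotProduct, vecMul, Finset.sum_mul]
  rw [Finset.sum_comm]
  refine Finset.sum_congr rfl fun i _ => Finset.sum_congr rfl fun j _ => ?_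
  rw [tau_apply]
  unfold Hank
  ring

lemma mulMat_row (F s : K[X]) (hF : F.Monic) (hn : F.natDegree = n) (i : Fin n) :
    pv (mulMat n F s i) = (s * X ^ (i : ℕ)) %ₘ F := by
  apply pv_coeffs
  calc ((s * X ^ (i : ℕ)) %ₘ F).degree < F.degree := degree_modByMonic_lt _ hF
    _ = n := by rw [degree_eq_natDegree hF.ne_zero, hn]

lemma pv_vecMul (F s : K[X]) (hF : F.Monic) (hn : F.natDegree = n) (u : Fin n → K) :
    F ∣ s * pv u - pv (u ᵥ* mulMat n F s) := by
  have h1 : pv (u ᵥ* mulMat n F s) = ∑ i : Fin n, C (u i) * ((s * X ^ (i : ℕ)) %ₘ F) := by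
    simp only [← mulMat_row F s hF hn]
    unfold pv
    simp only [Finset.mul_sum]
    rw [Finset.sum_comm]
    refine Finset.sum_congr rfl fun k _ => ?_
    simp only [vecMul, dotProduct, map_sum, Finset.sum_mul]
    refine Finset.sum_congr rfl fun i _ => ?_
    rw [C_mul]; ring
  have h2 : s * pv u = ∑ i : Fin n, C (u i) * (s * X ^ (i : ℕ)) := by
    unfold pv
    rw [Finset.mul_sum]
    refine Finset.sum_congr rfl fun i _ => ?_
    ring
  rw [h1, h2, ← Finset.sum_sub_distrib]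
  apply Finset.dvd_sum
  intro i _
  rw [← mul_sub]
  apply Dvd.dvd.mul_left
  refine ⟨(s * X ^ (i : ℕ)) /ₘ F, ?_⟩
  have := modByMonic_add_div (s * X ^ (i : ℕ)) F
  linear_combination (-1 : K[X]) * this

lemma hank_X (F δ : K[X]) (hF : F.Monic) (hn : F.natDegree = n) :
    Hank n F (X * δ) = mulMat n F X * Hank n F δ := by
  ext i j
  have h1 : (mulMat n F X * Hank n F δ) i j =
      (mulMat n F X i ᵥ* Hank n F δ) ⬝ᵥ (Pi.single j 1) := by
    rw [dotProduct_single, mul_one]
    rfl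
  rw [h1, hank_form, mulMat_row F X hF hn]
  have h2 : pv (Pi.single j (1 : K)) = X ^ (j : ℕ) := by
    unfold pv
    rw [Finset.sum_eq_single j]
    · simp
    · intro k _ hk
      rw [Pi.single_eq_of_ne hk]; simp
    · simp
  rw [h2]
  change tau n F (X * δ * X ^ ((i : ℕ) + j)) = _
  apply tau_congr F hF
  have h3 : F ∣ X * X ^ (i : ℕ) - (X * X ^ (i : ℕ)) %ₘ F := by
    refine ⟨(X * X ^ (i : ℕ)) /ₘ F, ?_⟩
    have := modByMonic_add_div (X * X ^ (i : ℕ)) F
    linear_combination (-1 : K[X]) * this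
  have h4 : X * δ * X ^ ((i : ℕ) + j) - δ * ((X * X ^ (i : ℕ)) %ₘ F) * X ^ (j : ℕ) =
      δ * X ^ (j : ℕ) * (X * X ^ (i : ℕ) - (X * X ^ (i : ℕ)) %ₘ F) := by
    rw [pow_add]; ring
  rw [h4]
  exact Dvd.dvd.mul_left h3 _

/-- `μ` is constant if `tau (μ X^k) = 0` for `k ≤ n - 2`. -/
lemma const_of_tau (F μ : K[X]) (hF : F.Monic) (hn : F.natDegree = n) (hn1 : 1 ≤ n)
    (h : ∀ k, k + 2 ≤ n → tau n F (μ * X ^ k) = 0) : ∃ r : K, F ∣ μ - C r := by
  set ρ := μ %ₘ F with hρ
  have hdeg : ρ.degree < n := by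
    calc ρ.degree < F.degree := degree_modByMonic_lt _ hF
      _ = n := by rw [degree_eq_natDegree hF.ne_zero, hn]
  have hdvd : F ∣ μ - ρ := by
    refine ⟨μ /ₘ F, ?_⟩
    have := modByMonic_add_div μ F
    linear_combination (-1 : K[X]) * this
  have key : ∀ k, k + 2 ≤ n → ∀ j ≤ k, ρ.coeff (n - 1 - j) = 0 := by
    intro k
    induction k with
    | zero =>
      intro hk j hj
      have hj0 : j = 0 := by omega
      subst hj0
      have := h 0 hk
      rw [pow_zero, mul_one, tau_apply] at this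
      simpa using this
    | succ k ih =>
      intro hk j hj
      rcases Nat.lt_or_ge j (k + 1) with hlt | hge
      · exact ih (by omega) j (by omega)
      have hj' : j = k + 1 := by omega
      subst hj'
      have hd : ρ.degree < ((n - 1 - k : ℕ) : WithBot ℕ) := by
        rw [degree_lt_iff_coeff_zero]
        intro i hi
        by_cases hin : i < n
        · have := ih (by omega) (n - 1 - i) (by omega)
          have h5 : n - 1 - (n - 1 - i) = i := by omega
          rwa [h5] at this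
        · exact coeff_eq_zero_of_degree_lt (lt_of_lt_of_le hdeg (by exact_mod_cast (not_lt.1 hin)))
      have h1 := h (k + 1) hk
      have h2 : tau n F (μ * X ^ (k + 1)) = tau n F (ρ * X ^ (k + 1)) := by
        apply tau_congr F hF
        rw [← sub_mul]
        exact Dvd.dvd.mul_right hdvd _
      rw [h2, tau_apply] at h1
      have h3 : (ρ * X ^ (k + 1)) %ₘ F = ρ * X ^ (k + 1) := by
        rw [modByMonic_eq_self_iff hF]
        rw [degree_eq_natDegree hF.ne_zero, hn]
        by_cases hρ0 : ρ = 0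
        · rw [hρ0, zero_mul, degree_zero]
          exact WithBot.bot_lt_coe n
        rw [degree_mul, degree_X_pow, degree_eq_natDegree hρ0]
        rw [degree_eq_natDegree hρ0] at hd
        have hd' : ρ.natDegree < n - 1 - k := by exact_mod_cast hd
        have : ρ.natDegree + (k + 1) < n := by omega
        exact_mod_cast this
      rw [h3] at h1
      have h4 : n - 1 = (n - 1 - (k + 1)) + (k + 1) := by omega
      rw [h4, coeff_mul_X_pow] at h1
      exact h1
  refine ⟨ρ.coeff 0, ?_⟩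
  have h6 : ρ = C (ρ.coeff 0) := by
    ext i
    rw [coeff_C]
    by_cases hi : i = 0
    · rw [if_pos hi, hi]
    · rw [if_neg hi]
      by_cases hin : i < n
      · have := key (n - 1 - i) (by omega) (n - 1 - i) le_rfl
        have h5 : n - 1 - (n - 1 - i) = i := by omega
        rwa [h5] at this
      · exact coeff_eq_zero_of_degree_lt (lt_of_lt_of_le hdeg (by exact_mod_cast (not_lt.1 hin)))
  rw [← h6]
  exact hdvd

end pol

end MidX

/-- `n` odd: a common isotropic subspace of dimension `(n - 1) / 2` makes the class trivial. -/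
theorem mid_odd {n : ℕ} (hn : 2 ≤ n) (ho : Odd n) (κ : ℤ) (hκ : κ ≠ 0) (c : Fin n → ℤ)
    (hF : Irreducible (FZ ℚ c)) (δ : ℚ[X]) (hδ : IsCoprime δ (FZ ℚ c))
    (hloc : ∀ (p : ℕ) [Fact p.Prime], MLoc κ c δ ℚ_[p]) (hR : MLoc κ c δ ℝ)
    (A B : Matrix (Fin n) (Fin n) ℤ) (h : IsPair c δ A B) (ht : ¬ Triv c δ) :
    ∃ i j : Fin n, (i : ℕ) < n / 2 ∧ (j : ℕ) < n / 2 ∧ (A i j ≠ 0 ∨ B i j ≠ 0) := by
  by_contra hcon
  push Not at hcon
  apply ht
  have hcls := det_class hn κ hκ c δ hδ hloc hR A B h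
  obtain ⟨m, hm⟩ := ho
  have hm2 : n / 2 = m := by omega
  have hm1 : 1 ≤ m := by omega
  rw [hm2] at hcon
  obtain ⟨G, hG, hA, hB⟩ := h
  set F := FZ ℚ c with hFdef
  have hmon : F.Monic := FZ_monic c
  have hdeg : F.natDegree = n := FZ_natDegree c
  set H := Hank n F δ with hH
  have hH0 : H.det ≠ 0 := hank_det_ne_zero F δ hmon hdeg hδ
  obtain ⟨u, hu0, hu1, hu2⟩ := MidX.exists_row hm hm1 G H (mulMat n F X) hG hH0 (by
      intro i j hi hj
      rw [← hA, map_apply, (hcon i j hi hj).1, Int.cast_zero]) (by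
      intro i j hi hj
      rw [← MidX.hank_X F δ hmon hdeg, ← hB, map_apply, (hcon i j hi hj).2, Int.cast_zero])
  set w := MidX.pv u with hw
  have hpow : ∀ k, F ∣ X ^ k * w - MidX.pv (u ᵥ* (mulMat n F X) ^ k) := by
    intro k
    induction k with
    | zero => simp [hw]
    | succ k ih =>
      have h1 := MidX.pv_vecMul F X hmon hdeg (u ᵥ* (mulMat n F X) ^ k)
      rw [vecMul_vecMul, ← pow_succ] at h1
      have h2 : X ^ (k + 1) * w - MidX.pv (u ᵥ* (mulMat n F X) ^ (k + 1)) =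
          X * (X ^ k * w - MidX.pv (u ᵥ* (mulMat n F X) ^ k)) +
          (X * MidX.pv (u ᵥ* (mulMat n F X) ^ k) - MidX.pv (u ᵥ* (mulMat n F X) ^ (k + 1))) := by
        ring
      rw [h2]
      exact dvd_add (Dvd.dvd.mul_left ih _) h1
  have hform : ∀ i j, (u ᵥ* (mulMat n F X) ^ i) ᵥ* H ⬝ᵥ (u ᵥ* (mulMat n F X) ^ j) =
      MidX.tau n F (δ * w ^ 2 * X ^ (i + j)) := by
    intro i j
    rw [MidX.hank_form]
    apply MidX.tau_congr F hmon
    obtain ⟨q1, hq1⟩ := hpow i
    obtain ⟨q2, hq2⟩ := hpow j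
    refine ⟨-(δ * (q1 * MidX.pv (u ᵥ* (mulMat n F X) ^ j) + X ^ i * w * q2)), ?_⟩
    rw [pow_add]
    linear_combination (-(δ * MidX.pv (u ᵥ* (mulMat n F X) ^ j))) * hq1 -
      (δ * X ^ i * w) * hq2
  obtain ⟨r, hr⟩ := MidX.const_of_tau F (δ * w ^ 2) hmon hdeg (by omega) (by
    intro k hk
    by_cases hk2 : k ≤ 2 * (m - 1)
    · have h1 := hu1 (k / 2) (by omega) (k - k / 2) (by omega)
      rw [hform] at h1
      have h2 : k / 2 + (k - k / 2) = k := by omega
      rwa [h2] at h1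
    · have h1 := hu2 (m - 1) (by omega) (m - 1) (by omega)
      rw [hform] at h1
      have h2 : m - 1 + 1 + (m - 1) = k := by omega
      rwa [h2] at h1)
  -- `w` is invertible
  have hw0 : ¬ F ∣ w := by
    intro hdvd
    apply hu0
    have h1 : w = 0 := by
      apply eq_zero_of_dvd_of_degree_lt hdvd
      rw [degree_eq_natDegree hmon.ne_zero, hdeg]
      exact MidX.pv_degree_lt u
    funext k
    rw [← MidX.pv_coeff u k, ← hw, h1]
    simp
  have hcop : IsCoprime w F := ((hF.coprime_iff_not_dvd.2 hw0)).symm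
  -- the determinants
  have h1 : Hank n F (C r) = mulMat n F w * H * (mulMat n F w)ᵀ := by
    rw [← hank_mul_sq F δ w hmon hdeg]
    exact hank_congr _ _ _ hmon ((dvd_sub_comm).1 hr)
  have hone : Hank n F (C r) = r • Hank n F 1 := by
    ext i j
    rw [Matrix.smul_apply, smul_eq_mul]
    change MidX.tau n F _ = r * MidX.tau n F _
    have h2 : (C r * X ^ ((i : ℕ) + j) : ℚ[X]) = r • ((1 : ℚ[X]) * X ^ ((i : ℕ) + j)) := by
      rw [smul_eq_C_mul, one_mul]
    rw [h2, map_smul, smul_eq_mul]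
  have hdet1 : (Hank n F 1).det = (-1) ^ (n * (n - 1) / 2) := by
    have h2 := hank_char (n := n) F 1 hmon hdeg
    have h3 := congrArg (eval (0 : ℚ)) h2
    have h4 := hank_lin_det (n := n) F hmon hdeg (0 : ℚ)
    have h5 : ((X : ℚ[X]) • (Hank n F 1).map C - (Hank n F (X * 1)).map C).det.eval 0 =
        (Hank n F (C 0 - X)).det := by
      rw [← coe_evalRingHom, RingHom.map_det]
      congr 1
      ext i j
      simp only [RingHom.mapMatrix_apply, map_apply, Matrix.sub_apply, Matrix.smul_apply, smul_eq_mul,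
        coe_evalRingHom, eval_sub, eval_mul, eval_X, eval_C, zero_mul, zero_sub, mul_one]
      change - MidX.tau n F _ = MidX.tau n F _
      rw [← map_neg]
      congr 1
      rw [C_0]; ring
    rw [h5, h4, eval_mul, eval_C] at h3
    have h6 : F.eval 0 ≠ 0 := by
      intro h0
      have h7 : (X - C (0 : ℚ)) ∣ F := dvd_iff_isRoot.2 h0
      have h8 := hF.isUnit_or_isUnit h7.choose_spec
      rcases h8 with h8 | h8
      · exact not_isUnit_X_sub_C 0 h8
      · have h9 : F.natDegree = 1 := by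
          rw [h7.choose_spec, natDegree_mul (X_sub_C_ne_zero 0) h8.ne_zero, natDegree_X_sub_C,
            natDegree_eq_zero_of_isUnit h8]
        omega
    exact (mul_right_cancel₀ h6 h3).symm
  have h2 := congrArg Matrix.det h1
  rw [hone, det_smul, Fintype.card_fin, hdet1, det_mul, det_mul, det_transpose] at h2
  -- the class
  obtain ⟨t, ht⟩ := hcls
  have hD : ((A.det : ℤ) : ℚ) = G.det ^ 2 * H.det := by
    have h3 := congrArg Matrix.det hA
    rw [det_mul, det_mul, det_transpose] at h3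
    have h4 : (A.map (Int.cast : ℤ → ℚ)).det = ((A.det : ℤ) : ℚ) := by
      have := RingHom.map_det (Int.castRingHom ℚ) A
      simpa using this.symm
    rw [← h4, h3]; ring
  have ht' : ((-1 : ℚ) ^ (n * (n - 1) / 2)) * (κ : ℚ) ^ (n - 1) * (G.det ^ 2 * H.det) = t * t := by
    rw [← hD]
    exact_mod_cast ht
  have hs1 : ((-1 : ℚ) ^ (n * (n - 1) / 2)) * ((-1 : ℚ) ^ (n * (n - 1) / 2)) = 1 := by
    rw [← mul_pow]; norm_num
  have hrn : IsSquare (r ^ n) := by
    set M := (mulMat n F w).det with hM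
    refine ⟨t * M / ((κ : ℚ) ^ m * G.det), ?_⟩
    have hκq : (κ : ℚ) ≠ 0 := by exact_mod_cast hκ
    have h3 : ((κ : ℚ) ^ m * G.det) ≠ 0 := mul_ne_zero (pow_ne_zero _ hκq) hG
    rw [div_mul_div_comm, eq_div_iff (mul_ne_zero h3 h3)]
    generalize (-1 : ℚ) ^ (n * (n - 1) / 2) = e at *
    have h4 : (κ : ℚ) ^ (n - 1) = (κ : ℚ) ^ m * (κ : ℚ) ^ m := by
      rw [← pow_add]; congr 1; omega
    rw [h4] at ht'
    generalize (κ : ℚ) ^ m = k at *
    linear_combination (-(r ^ n * k ^ 2 * G.det ^ 2)) * hs1 + (e * k ^ 2 * G.det ^ 2) * h2 +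
      M ^ 2 * ht'
  have hr0 : r ≠ 0 := by
    rintro rfl
    rw [zero_pow (by omega : n ≠ 0), zero_mul] at h2
    exact mul_ne_zero (mul_ne_zero (mulMat_det_ne_zero F w hmon hdeg hcop) hH0)
      (mulMat_det_ne_zero F w hmon hdeg hcop) h2.symm
  have hrs : IsSquare r := by
    obtain ⟨z, hz⟩ := hrn
    refine ⟨z / r ^ m, ?_⟩
    rw [div_mul_div_comm, eq_div_iff (mul_ne_zero (pow_ne_zero _ hr0) (pow_ne_zero _ hr0)), ← hz,
      hm]
    ring
  obtain ⟨z, hz⟩ := hrs
  -- inverse of `w`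
  obtain ⟨a, b, hab⟩ := hcop
  refine ⟨C z * a, ?_⟩
  obtain ⟨q, hq⟩ := hr
  have hCz : (C r : ℚ[X]) = C z * C z := by rw [hz, C_mul]
  refine ⟨a ^ 2 * q + δ * b * (1 + a * w), ?_⟩
  linear_combination a ^ 2 * hq + a ^ 2 * hCz - δ * (1 + a * w) * hab

end Stoll308.BG
end

section
set_option autoImplicit false

/-!
The Hankel forms of the reversed polynomial.
-/

namespace Stoll308.SC

open Polynomial Finset Matrix BG BF BF.LocLat

section
variable {K : Type*} [Field K] {n : ℕ}

/-- the reversed polynomial -/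
lemma gz_reflect (a : Fin (n + 1) → ℤ) : (GZ K a).reflect n = GZ K (a ∘ Fin.rev) := by
  unfold GZ gpol
  have h : ∀ s : Finset (Fin (n + 1)), (∑ i ∈ s, C (a i : K) * X ^ (n - (i : ℕ))).reflect n =
      ∑ i ∈ s, C (a i : K) * X ^ (i : ℕ) := by
    intro s
    induction s using Finset.cons_induction with
    | empty => simp
    | cons i s hi ih =>
      rw [Finset.sum_cons, Finset.sum_cons, reflect_add, ih, reflect_C_mul_X_pow,
        revAt_le (Nat.sub_le _ _), show n - (n - (i : ℕ)) = i by omega]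
  rw [h, ← Equiv.sum_comp Fin.revPerm]
  refine Finset.sum_congr rfl fun i _ => ?_
  rw [Fin.revPerm_apply]
  show C (a i.rev : K) * X ^ (i.rev : ℕ) = C (a i.rev : K) * X ^ (n - (i : ℕ))
  rw [Fin.val_rev]
  congr 2
  omega

lemma gz_coeff_zero (a : Fin (n + 1) → ℤ) : (GZ K (a ∘ Fin.rev)).coeff 0 = a 0 := by
  rw [← gz_reflect, coeff_reflect, revAt_le (Nat.zero_le _), Nat.sub_zero, GZ_coeff_top]

lemma gz_coeff_n (a : Fin (n + 1) → ℤ) : (GZ K (a ∘ Fin.rev)).coeff n = a (Fin.last n) := by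
  rw [GZ_coeff_top, Function.comp_apply, Fin.rev_zero]

end

/-- `θ*` is invertible modulo `f*`. -/
theorem rev_coprime {K : Type*} [Field K] {n : ℕ} (a : Fin (n + 1) → ℤ) (h0 : (a 0 : K) ≠ 0) :
    IsCoprime (X : K[X]) (GZ K (a ∘ Fin.rev)) := by
  have h := divX_mul_X_add (GZ K (a ∘ Fin.rev))
  rw [gz_coeff_zero] at h
  have hc : C ((a 0 : K)⁻¹) * C (a 0 : K) = 1 := by rw [← C_mul, inv_mul_cancel₀ h0, C_1]
  refine ⟨-(C ((a 0 : K)⁻¹) * divX (GZ K (a ∘ Fin.rev))), C ((a 0 : K)⁻¹), ?_⟩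
  conv_lhs => rw [← h]
  rw [h]
  linear_combination hc - C ((a 0 : K)⁻¹) * h

/-- The class `θ*^(-m) δ(θ)` as a polynomial. -/
theorem exists_rev {K : Type*} [Field K] {n : ℕ} (a : Fin (n + 1) → ℤ) (h0 : (a 0 : K) ≠ 0)
    (δ : K[X]) (m D : ℕ) : ∃ δ' : K[X],
    GZ K (a ∘ Fin.rev) ∣ δ' * X ^ (m + D) - δ.reflect D := by
  obtain ⟨u, v, huv⟩ := (rev_coprime a h0).pow_left (m := m + D)
  refine ⟨δ.reflect D * u, -(δ.reflect D * v), ?_⟩
  linear_combination δ.reflect D * huv

/-- The Hankel matrices of `f` and of the reversed polynomial `f*` (roots `θ* = 1/θ`):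
`δ'(θ*) = θ*^(-n) δ(θ)`. -/
theorem rev_hank {K : Type*} [Field K] {n : ℕ} (hn : 2 ≤ n) (a : Fin (n + 1) → ℤ)
    (h0 : (a 0 : K) ≠ 0) (hl : (a (Fin.last n) : K) ≠ 0) (δ δ' : K[X]) (D : ℕ)
    (hD : δ.natDegree ≤ D)
    (e : GZ K (a ∘ Fin.rev) ∣ δ' * X ^ (n + D) - δ.reflect D) (i j : Fin n) :
    (a 0 : K)⁻¹ * Hank n (mon K a) δ i j =
      -((a (Fin.last n) : K)⁻¹ * Hank n (mon K (a ∘ Fin.rev)) δ' i.rev j.rev) := by
  have hl' : ((a ∘ Fin.rev) 0 : K) ≠ 0 := by
    rw [Function.comp_apply, Fin.rev_zero]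
    exact hl
  set m : ℕ := (i : ℕ) + j with hm
  set f := GZ K a with hf
  set g := GZ K (a ∘ Fin.rev) with hg
  set F := mon K a with hF
  set G := mon K (a ∘ Fin.rev) with hG
  have hFm : F.Monic := mon_monic a h0
  have hFn : F.natDegree = n := mon_natDegree a h0
  have hGm : G.Monic := mon_monic _ hl'
  have hGn : G.natDegree = n := mon_natDegree _ hl'
  have hgG : g = C (a (Fin.last n) : K) * G := by
    have := GZ_eq (K := K) _ hl'
    rw [Function.comp_apply, Fin.rev_zero] at this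
    exact this
  -- division with remainder
  set P := δ * X ^ m with hP
  set R := P %ₘ F with hR
  set Q := P /ₘ F with hQ
  have hPQ : R + F * Q = P := modByMonic_add_div P F
  have hRd : R.natDegree ≤ n - 1 := by
    have h1 : R.natDegree < F.natDegree := natDegree_modByMonic_lt P hFm (by rintro h; rw [h] at hFn; simp at hFn; omega)
    rw [hFn] at h1
    omega
  have hPd : P.natDegree ≤ D + m := by
    refine natDegree_mul_le.trans ?_
    rw [natDegree_X_pow]
    omega
  have hQd : Q.natDegree ≤ D + m := by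
    rw [hQ, natDegree_divByMonic P hFm]
    omega
  -- the reflected identity
  have r1 : P.reflect (D + (m + n)) = δ.reflect D * X ^ n := by
    rw [hP, reflect_mul _ _ hD ((natDegree_X_pow_le m).trans (by omega)), reflect_monomial, revAt_le (by omega), show m + n - m = n by omega]
  have r2 : (F * Q).reflect (n + (D + m)) = C ((a 0 : K)⁻¹) * g * Q.reflect (D + m) := by
    rw [reflect_mul _ _ hFn.le hQd, hF, mon, reflect_C_mul, gz_reflect]
  have r3 : R.reflect ((n - 1) + (D + m + 1)) = R.reflect (n - 1) * X ^ (D + m + 1) := by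
    have h1 := reflect_mul R (1 : K[X]) hRd (G := D + m + 1) (by simp)
    rw [mul_one] at h1
    rw [h1, ← C_1, reflect_C, C_1, one_mul]
  have r4 : R.reflect (n - 1) * X ^ (D + m + 1) + C ((a 0 : K)⁻¹) * g * Q.reflect (D + m) =
      δ.reflect D * X ^ n := by
    rw [← r1, ← hPQ, reflect_add, ← r2, ← r3]
    congr 2 <;> omega
  -- the other side
  set T := δ' * X ^ ((i.rev : ℕ) + j.rev) with hT
  set S := T %ₘ G with hS
  have hTS : S + G * (T /ₘ G) = T := modByMonic_add_div T G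
  have hSd : S.natDegree ≤ n - 1 := by
    have h1 : S.natDegree < G.natDegree := natDegree_modByMonic_lt T hGm (by rintro h; rw [h] at hGn; simp at hGn; omega)
    rw [hGn] at h1
    omega
  have hgS : g ∣ T - S := by
    refine ⟨C ((a (Fin.last n) : K)⁻¹) * (T /ₘ G), ?_⟩
    have hc : C (a (Fin.last n) : K) * C ((a (Fin.last n) : K)⁻¹) = 1 := by
      rw [← C_mul, mul_inv_cancel₀ hl, C_1]
    rw [hgG]
    linear_combination -hTS - G * (T /ₘ G) * hc
  have hexp : (D + m + 1) + (1 + ((i.rev : ℕ) + j.rev)) = n + (n + D) := by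
    rw [Fin.val_rev, Fin.val_rev]
    omega
  have hdiv : g ∣ X ^ (D + m + 1) * (X * S - R.reflect (n - 1)) := by
    obtain ⟨c, hc⟩ := e
    obtain ⟨d, hd⟩ := hgS
    refine ⟨X ^ n * c + C ((a 0 : K)⁻¹) * Q.reflect (D + m) - X ^ (D + m + 1) * X * d, ?_⟩
    have h1 : X ^ (D + m + 1) * X * T = X ^ n * (δ' * X ^ (n + D)) := by
      rw [hT]
      calc X ^ (D + m + 1) * X * (δ' * X ^ ((i.rev : ℕ) + j.rev))
          = δ' * X ^ ((D + m + 1) + (1 + ((i.rev : ℕ) + j.rev))) := by ring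
        _ = X ^ n * (δ' * X ^ (n + D)) := by rw [hexp]; ring
    linear_combination -r4 + h1 - X ^ (D + m + 1) * X * hd + X ^ n * hc
  have hcop : IsCoprime g (X ^ (D + m + 1)) := (rev_coprime a h0).symm.pow_right
  obtain ⟨c, hc⟩ := hcop.dvd_of_dvd_mul_left hdiv
  -- degrees
  have hgd : g.natDegree = n := by
    rw [hgG, natDegree_C_mul hl, hGn]
  have hg0 : g ≠ 0 := by
    intro h
    rw [h, natDegree_zero] at hgd
    omega
  have hcd : c.natDegree = 0 := by
    by_cases hc0 : c = 0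
    · rw [hc0, natDegree_zero]
    · have h1 : (X * S - R.reflect (n - 1)).natDegree ≤ n := by
        refine (natDegree_sub_le _ _).trans (max_le ?_ ?_)
        · refine natDegree_mul_le.trans ?_
          rw [natDegree_X]
          omega
        · refine natDegree_le_iff_coeff_eq_zero.2 fun k hk => ?_
          rw [coeff_reflect, revAt_eq_self_of_lt (by omega)]
          exact coeff_eq_zero_of_natDegree_lt (by omega)
      rw [hc, natDegree_mul hg0 hc0, hgd] at h1
      omega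
  obtain ⟨c', rfl⟩ := natDegree_eq_zero.1 hcd
  have k1 := congrArg (fun q : K[X] => q.coeff n) hc
  have k0 := congrArg (fun q : K[X] => q.coeff 0) hc
  simp only [coeff_sub, coeff_mul_C] at k1 k0
  rw [hg, gz_coeff_n, coeff_reflect, revAt_eq_self_of_lt (by omega),
    coeff_eq_zero_of_natDegree_lt (show R.natDegree < n by omega), sub_zero] at k1
  rw [hg, gz_coeff_zero, coeff_reflect, revAt_le (Nat.zero_le _), Nat.sub_zero,
    mul_coeff_zero, coeff_X_zero, zero_mul, zero_sub] at k0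
  have k2 : (X * S).coeff n = S.coeff (n - 1) := by
    conv_lhs => rw [show n = (n - 1) + 1 by omega]
    rw [coeff_X_mul]
  rw [k2] at k1
  have t1 : Hank n F δ i j = R.coeff (n - 1) := rfl
  have t2 : Hank n G δ' i.rev j.rev = S.coeff (n - 1) := rfl
  rw [t1, t2, k1]
  have k3 : R.coeff (n - 1) = -((a 0 : K) * c') := by linear_combination -k0
  rw [k3]
  field_simp

end Stoll308.SC
end

section
set_option autoImplicit false

/-!
The norm of the class of an odd degree point.
-/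

namespace Stoll308.SC

open Polynomial Finset Matrix BG BF

section swap

variable {L : Type*} [Field L] {n : ℕ}

private lemma mulMat_lin' (F : L[X]) (hF : F.Monic) (hn : F.natDegree = n) (η : L) :
    (mulMat n F (X - C η)).det = (-1) ^ n * F.eval η := by
  have h1 : mulMat n F (X - C η) = -mulMat n F (C η - X) := by
    have h2 : (X - C η : L[X]) = (C η - X) * (-1) := by ring
    have h3 : mulMat n F (-1 : L[X]) = -1 := by
      ext i j
      have h4 := congrFun (congrFun (HankL.mulMat_one F hF hn) i) j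
      have h5 : mulMat n F (-1) i j = ((-1 * X ^ (i : ℕ)) %ₘ F).coeff (j : ℕ) := rfl
      have h6 : mulMat n F 1 i j = ((1 * X ^ (i : ℕ)) %ₘ F).coeff (j : ℕ) := rfl
      have h7 : (-1 * X ^ (i : ℕ) : L[X]) = -(1 * X ^ (i : ℕ)) := by ring
      rw [h5, h7, neg_modByMonic, coeff_neg, ← h6, h4, Matrix.neg_apply]
    rw [h2, HankL.mulMat_mul F _ _ hF hn, h3, Matrix.mul_neg, Matrix.mul_one]
  rw [h1, Matrix.det_neg, HankL.mulMat_lin_det F hF hn, Fintype.card_fin]

private lemma mulMat_prod (F : L[X]) (hF : F.Monic) (hn : F.natDegree = n) (s : Multiset L) :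
    (mulMat n F (s.map fun η => X - C η).prod).det =
      (s.map fun η => (-1) ^ n * F.eval η).prod := by
  induction s using Multiset.induction with
  | empty => simp [HankL.mulMat_one F hF hn]
  | cons η s ih =>
    rw [Multiset.map_cons, Multiset.prod_cons, HankL.mulMat_mul F _ _ hF hn, Matrix.det_mul, ih,
      mulMat_lin' F hF hn, Multiset.map_cons, Multiset.prod_cons]

private lemma eval_roots (F : L[X]) (hF : F.Monic) (hs : F.Splits) (η : L) :
    (-1) ^ F.natDegree * F.eval η = (F.roots.map fun ξ => ξ - η).prod := by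
  have h1 : F = (F.roots.map fun ξ => X - C ξ).prod := by
    have := hs.eq_prod_roots
    rwa [hF.leadingCoeff, C_1, one_mul] at this
  have h2 : F.natDegree = Multiset.card F.roots := hs.natDegree_eq_card_roots
  have h4 : F.eval η = (F.roots.map (eval η ∘ fun ξ => X - C ξ)).prod := by
    have h5 := congrArg (eval η) h1
    rw [eval_multiset_prod, Multiset.map_map] at h5
    exact h5
  have h3 : ∀ s : Multiset L, (-1 : L) ^ (Multiset.card s) *
      (s.map (eval η ∘ fun ξ => X - C ξ)).prod = (s.map fun ξ => ξ - η).prod := by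
    intro s
    induction s using Multiset.induction with
    | empty => simp
    | cons ξ s ih =>
      simp only [Multiset.card_cons, Multiset.map_cons, Multiset.prod_cons, Function.comp_apply,
        eval_sub, eval_X, eval_C] at ih ⊢
      rw [← ih]
      ring
  rw [h2, h4, h3]

private lemma swap_splits {m : ℕ} (F h : L[X]) (hF : F.Monic) (hh : h.Monic)
    (hn : F.natDegree = n) (hm : h.natDegree = m) (hFs : F.Splits) (hhs : h.Splits) :
    (mulMat n F h).det = (-1) ^ (n * m) * (mulMat m h F).det := by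
  have e1 : F = (F.roots.map fun ξ => X - C ξ).prod := by
    have := hFs.eq_prod_roots
    rwa [hF.leadingCoeff, C_1, one_mul] at this
  have e2 : h = (h.roots.map fun ξ => X - C ξ).prod := by
    have := hhs.eq_prod_roots
    rwa [hh.leadingCoeff, C_1, one_mul] at this
  have c1 : Multiset.card F.roots = n := by rw [← hn]; exact hFs.natDegree_eq_card_roots.symm
  have c2 : Multiset.card h.roots = m := by rw [← hm]; exact hhs.natDegree_eq_card_roots.symm
  have d1 : (mulMat n F h).det =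
      (h.roots.map fun η => (F.roots.map fun ξ => ξ - η).prod).prod := by
    have := mulMat_prod F hF hn h.roots
    rw [← e2] at this
    rw [this]
    refine congrArg Multiset.prod (Multiset.map_congr rfl fun η _ => ?_)
    rw [← hn]
    exact eval_roots F hF hFs η
  have d2 : (mulMat m h F).det =
      (F.roots.map fun ξ => (h.roots.map fun η => η - ξ).prod).prod := by
    have := mulMat_prod h hh hm F.roots
    rw [← e1] at this
    rw [this]
    refine congrArg Multiset.prod (Multiset.map_congr rfl fun ξ _ => ?_)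
    rw [← hm]
    exact eval_roots h hh hhs ξ
  rw [d1, d2, Multiset.prod_map_prod_map]
  have d3 : ∀ ξ : L, (h.roots.map fun η => η - ξ).prod =
      (-1) ^ m * (h.roots.map fun η => ξ - η).prod := by
    intro ξ
    rw [← c2]
    have h3 : ∀ s : Multiset L, (s.map fun η => η - ξ).prod =
        (-1) ^ (Multiset.card s) * (s.map fun η => ξ - η).prod := by
      intro s
      induction s using Multiset.induction with
      | empty => simp
      | cons η s ih =>
        simp only [Multiset.card_cons, Multiset.map_cons, Multiset.prod_cons]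
        rw [ih]
        ring
    exact h3 _
  have d4 : (F.roots.map fun ξ => (h.roots.map fun η => η - ξ).prod).prod =
      (-1) ^ (n * m) * (F.roots.map fun ξ => (h.roots.map fun η => ξ - η).prod).prod := by
    rw [Multiset.map_congr rfl (fun ξ _ => d3 ξ), Multiset.prod_map_mul, Multiset.map_const',
      Multiset.prod_replicate, c1, ← pow_mul, mul_comm m n]
  rw [d4, ← mul_assoc, ← pow_add]
  have h5 : (-1 : L) ^ (n * m + n * m) = 1 := Even.neg_one_pow ⟨_, rfl⟩
  rw [h5, one_mul]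

end swap

/-- Reciprocity of the determinants of multiplication. -/
theorem det_mulMat_swap {K : Type*} [Field K] {n m : ℕ} (F h : K[X]) (hF : F.Monic)
    (hh : h.Monic) (hn : F.natDegree = n) (hm : h.natDegree = m) :
    (mulMat n F h).det = (-1) ^ (n * m) * (mulMat m h F).det := by
  let φ : K →+* AlgebraicClosure K := algebraMap K (AlgebraicClosure K)
  have h1 := swap_splits (F.map φ) (h.map φ) (hF.map φ) (hh.map φ) (n := n) (m := m)
    (by rw [hF.natDegree_map, hn]) (by rw [hh.natDegree_map, hm])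
    (IsAlgClosed.splits _) (IsAlgClosed.splits _)
  rw [HankL.mulMat_map φ F h hF, HankL.mulMat_map φ h F hh] at h1
  apply φ.injective
  have h2 : φ (mulMat n F h).det = ((mulMat n F h).map φ).det := by
    rw [RingHom.map_det]; rfl
  have h3 : φ (mulMat m h F).det = ((mulMat m h F).map φ).det := by
    rw [RingHom.map_det]; rfl
  rw [map_mul, map_pow, map_neg, map_one, h2, h3, h1]

private lemma gz_natDegree_le {R : Type*} [CommRing R] {n : ℕ} (a : Fin (n + 1) → ℤ) :
    (GZ R a).natDegree ≤ n := by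
  refine natDegree_sum_le_of_forall_le _ _ fun i _ => ?_
  exact (natDegree_C_mul_X_pow_le _ _).trans (Nat.sub_le _ _)

private lemma gz_coeff_top {R : Type*} [CommRing R] {n : ℕ} (a : Fin (n + 1) → ℤ) :
    (GZ R a).coeff n = a 0 := by
  unfold GZ gpol
  rw [finsetSum_coeff, Finset.sum_eq_single 0]
  · simp
  · intro b _ hb
    have h1 : (b : ℕ) ≠ 0 := fun h => hb (Fin.ext h)
    have h2 := b.isLt
    rw [coeff_C_mul_X_pow, if_neg (by omega)]
  · intro h
    exact absurd (Finset.mem_univ _) h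

private lemma mon_monic' {K : Type*} [Field K] {n : ℕ} (a : Fin (n + 1) → ℤ)
    (h : (a 0 : K) ≠ 0) : (mon K a).Monic := by
  refine monic_of_natDegree_le_of_coeff_eq_one n ?_ ?_
  · exact (natDegree_C_mul_le _ _).trans (gz_natDegree_le a)
  · unfold mon
    rw [coeff_C_mul, gz_coeff_top, inv_mul_cancel₀ h]

private lemma mon_natDegree' {K : Type*} [Field K] {n : ℕ} (a : Fin (n + 1) → ℤ)
    (h : (a 0 : K) ≠ 0) : (mon K a).natDegree = n := by
  refine le_antisymm ((natDegree_C_mul_le _ _).trans (gz_natDegree_le a)) ?_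
  apply le_natDegree_of_ne_zero
  unfold mon
  rw [coeff_C_mul, gz_coeff_top, inv_mul_cancel₀ h]
  exact one_ne_zero

private lemma mulMat_smul {K : Type*} [Field K] {n : ℕ} (F s : K[X]) (c : K) :
    mulMat n F (C c * s) = c • mulMat n F s := by
  ext i j
  have h5 : mulMat n F (C c * s) i j = ((C c * s * X ^ (i : ℕ)) %ₘ F).coeff (j : ℕ) := rfl
  have h6 : mulMat n F s i j = ((s * X ^ (i : ℕ)) %ₘ F).coeff (j : ℕ) := rfl
  rw [h5, Matrix.smul_apply, h6, mul_assoc, ← smul_eq_C_mul, smul_modByMonic, coeff_smul]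

/-- `a₀ N(δ)` is a square. -/
theorem norm_sq {K : Type*} [Field K] {n : ℕ} (he : Even n) (a : Fin (n + 1) → ℤ)
    (h0 : (a 0 : K) ≠ 0) (δ : K[X]) (hloc : OLoc (GZ K a) δ) :
    IsSquare ((a 0 : K) * (mulMat n (mon K a) δ).det) := by
  obtain ⟨⟨h, r, w, s, hmon, hodd, hcop, hs, hr, -, hdvd⟩, -⟩ := hloc
  set F : K[X] := mon K a with hF
  have hFm : F.Monic := mon_monic' a h0
  have hFn : F.natDegree = n := mon_natDegree' a h0
  have hFdef : F = C ((a 0 : K)⁻¹) * GZ K a := rfl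
  have hC : IsUnit (C ((a 0 : K)⁻¹) : K[X]) := by
    rw [isUnit_C]
    exact (isUnit_iff_ne_zero).2 (inv_ne_zero h0)
  have hFdvd : F ∣ GZ K a := by
    refine ⟨C (a 0 : K), ?_⟩
    rw [hFdef, mul_right_comm, ← C_mul, inv_mul_cancel₀ h0, C_1, one_mul]
  obtain ⟨m, hm⟩ : ∃ m, h.natDegree = m := ⟨_, rfl⟩
  rw [hm] at hodd
  -- the determinant of `δ s ^ 2`
  have e1 : mulMat n F (δ * s ^ 2) = mulMat n F (C (-1 : K) * h) := by
    apply HankL.mulMat_congr F _ _ hFm
    refine (hFdvd.trans hdvd).trans ⟨1, ?_⟩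
    rw [C_neg, C_1]
    ring
  have e2 : (mulMat n F δ).det * (mulMat n F s).det ^ 2 = (mulMat n F h).det := by
    have h1 := congrArg Matrix.det e1
    rw [HankL.mulMat_mul F _ _ hFm hFn, pow_two, HankL.mulMat_mul F _ _ hFm hFn, Matrix.det_mul,
      Matrix.det_mul, mulMat_smul, Matrix.det_smul, Fintype.card_fin, he.neg_one_pow,
      one_mul] at h1
    rw [pow_two]
    exact h1
  have e3 : (mulMat n F h).det = (mulMat m h F).det := by
    rw [det_mulMat_swap F h hFm hmon hFn hm, Even.neg_one_pow (he.mul_right m), one_mul]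
  have e4 : (mulMat m h F).det = ((a 0 : K)⁻¹) ^ m * (mulMat m h r).det ^ 2 := by
    rw [hFdef, mulMat_smul, Matrix.det_smul, Fintype.card_fin,
      HankL.mulMat_congr h (GZ K a) (r ^ 2) hmon hr, pow_two r,
      HankL.mulMat_mul h _ _ hmon hm, Matrix.det_mul, pow_two]
  have hscop : IsCoprime s F := by
    rw [hFdef]
    exact (isCoprime_mul_unit_left_right hC _ _).2 hs
  have hsne : (mulMat n F s).det ≠ 0 := mulMat_det_ne_zero F s hFm hFn hscop
  obtain ⟨k, hk⟩ := hodd
  refine ⟨((a 0 : K)⁻¹) ^ k * (mulMat m h r).det / (mulMat n F s).det, ?_⟩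
  have e5 : (mulMat n F δ).det = ((a 0 : K)⁻¹) ^ m * (mulMat m h r).det ^ 2 /
      (mulMat n F s).det ^ 2 := by
    rw [eq_div_iff (pow_ne_zero 2 hsne), e2, e3, e4]
  have hu : (a 0 : K) * (a 0 : K)⁻¹ = 1 := mul_inv_cancel₀ h0
  have e6 : ((a 0 : K)⁻¹) ^ m = (((a 0 : K)⁻¹) ^ k) ^ 2 * (a 0 : K)⁻¹ := by
    rw [hk, pow_succ, pow_mul', ]
  rw [e5, e6]
  have e7 : (a 0 : K) * ((((a 0 : K)⁻¹) ^ k) ^ 2 * (a 0 : K)⁻¹ * (mulMat m h r).det ^ 2 /
      (mulMat n F s).det ^ 2) = ((a 0 : K) * (a 0 : K)⁻¹) * ((((a 0 : K)⁻¹) ^ k) ^ 2 *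
        (mulMat m h r).det ^ 2 / (mulMat n F s).det ^ 2) := by ring
  rw [e7, hu]
  ring

end Stoll308.SC
end

section
set_option autoImplicit false

/-!
The norm of the class.
-/

namespace Stoll308.DQ

open Polynomial Finset Matrix BG BF SC

private lemma nsq_natDegree_le {R : Type*} [CommRing R] {n : ℕ} (a : Fin (n + 1) → ℤ) :
    (GZ R a).natDegree ≤ n := by
  refine natDegree_sum_le_of_forall_le _ _ fun i _ => ?_
  exact (natDegree_C_mul_X_pow_le _ _).trans (Nat.sub_le _ _)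

private lemma nsq_coeff_top {R : Type*} [CommRing R] {n : ℕ} (a : Fin (n + 1) → ℤ) :
    (GZ R a).coeff n = a 0 := by
  unfold GZ gpol
  rw [finsetSum_coeff, Finset.sum_eq_single 0]
  · simp
  · intro b _ hb
    have h1 : (b : ℕ) ≠ 0 := fun h => hb (Fin.ext h)
    have h2 := b.isLt
    rw [coeff_C_mul_X_pow, if_neg (by omega)]
  · intro h
    exact absurd (Finset.mem_univ _) h

private lemma nsq_mon_monic {K : Type*} [Field K] {n : ℕ} (a : Fin (n + 1) → ℤ)
    (h : (a 0 : K) ≠ 0) : (mon K a).Monic := by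
  refine monic_of_natDegree_le_of_coeff_eq_one n ?_ ?_
  · exact (natDegree_C_mul_le _ _).trans (nsq_natDegree_le a)
  · unfold mon
    rw [coeff_C_mul, nsq_coeff_top, inv_mul_cancel₀ h]

private lemma nsq_mon_natDegree {K : Type*} [Field K] {n : ℕ} (a : Fin (n + 1) → ℤ)
    (h : (a 0 : K) ≠ 0) : (mon K a).natDegree = n := by
  refine le_antisymm ((natDegree_C_mul_le _ _).trans (nsq_natDegree_le a)) ?_
  apply le_natDegree_of_ne_zero
  unfold mon
  rw [coeff_C_mul, nsq_coeff_top, inv_mul_cancel₀ h]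
  exact one_ne_zero

private lemma nsq_smul {K : Type*} [Field K] {n : ℕ} (F s : K[X]) (c : K) :
    mulMat n F (C c * s) = c • mulMat n F s := by
  ext i j
  have h5 : mulMat n F (C c * s) i j = ((C c * s * X ^ (i : ℕ)) %ₘ F).coeff (j : ℕ) := rfl
  have h6 : mulMat n F s i j = ((s * X ^ (i : ℕ)) %ₘ F).coeff (j : ℕ) := rfl
  rw [h5, Matrix.smul_apply, h6, mul_assoc, ← smul_eq_C_mul, smul_modByMonic, coeff_smul]

/-- `a₀ N(δ)` is a square. -/
theorem norm_sq {K : Type*} [Field K] {n : ℕ} (he : Even n) (a : Fin (n + 1) → ℤ)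
    (h0 : (a 0 : K) ≠ 0) (δ h : K[X]) (hc : Cls (GZ K a) δ h) :
    IsSquare ((a 0 : K) * (mulMat n (mon K a) δ).det) := by
  obtain ⟨hodd, hcop, ⟨r, hr⟩, s, hs, hdvd⟩ := hc
  set F : K[X] := mon K a with hF
  have hFm : F.Monic := nsq_mon_monic a h0
  have hFn : F.natDegree = n := nsq_mon_natDegree a h0
  have hFdef : F = C ((a 0 : K)⁻¹) * GZ K a := rfl
  have hC : IsUnit (C ((a 0 : K)⁻¹) : K[X]) := by
    rw [isUnit_C]
    exact (isUnit_iff_ne_zero).2 (inv_ne_zero h0)
  have hFdvd : F ∣ GZ K a := by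
    refine ⟨C (a 0 : K), ?_⟩
    rw [hFdef, mul_right_comm, ← C_mul, inv_mul_cancel₀ h0, C_1, one_mul]
  -- the monic multiple of `h`
  have hh0 : h ≠ 0 := by
    rintro rfl
    simp at hodd
  set l : K := h.leadingCoeff with hl
  have hl0 : l ≠ 0 := leadingCoeff_ne_zero.2 hh0
  set g : K[X] := C l⁻¹ * h with hg
  have hgm : g.Monic := by
    rw [Monic, hg, leadingCoeff_mul, leadingCoeff_C, ← hl, inv_mul_cancel₀ hl0]
  have hgh : h = C l * g := by
    rw [hg, ← mul_assoc, ← C_mul, mul_inv_cancel₀ hl0, C_1, one_mul]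
  have hgr : g ∣ GZ K a - r ^ 2 := by
    refine Dvd.dvd.trans ⟨C l, ?_⟩ hr
    rw [mul_comm]
    exact hgh
  have hgd : g.natDegree = h.natDegree := natDegree_C_mul (inv_ne_zero hl0)
  obtain ⟨m, hm⟩ : ∃ m, g.natDegree = m := ⟨_, rfl⟩
  rw [← hgd, hm] at hodd
  obtain ⟨j, hj⟩ := he
  -- the determinant of `δ s ^ 2`
  have e1 : mulMat n F (δ * s ^ 2) = mulMat n F (C l * g) := by
    apply HankL.mulMat_congr F _ _ hFm
    rw [← hgh, ← neg_sub h, dvd_neg]
    exact hFdvd.trans hdvd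
  have e2 : (mulMat n F δ).det * (mulMat n F s).det ^ 2 = l ^ n * (mulMat n F g).det := by
    have h1 := congrArg Matrix.det e1
    rw [HankL.mulMat_mul F _ _ hFm hFn, pow_two, HankL.mulMat_mul F _ _ hFm hFn, Matrix.det_mul,
      Matrix.det_mul, nsq_smul, Matrix.det_smul, Fintype.card_fin] at h1
    rw [pow_two]
    exact h1
  have e3 : (mulMat n F g).det = (mulMat m g F).det := by
    rw [det_mulMat_swap F g hFm hgm hFn hm, Even.neg_one_pow (Even.mul_right ⟨j, hj⟩ m), one_mul]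
  have e4 : (mulMat m g F).det = ((a 0 : K)⁻¹) ^ m * (mulMat m g r).det ^ 2 := by
    rw [hFdef, nsq_smul, Matrix.det_smul, Fintype.card_fin,
      HankL.mulMat_congr g (GZ K a) (r ^ 2) hgm hgr, pow_two r,
      HankL.mulMat_mul g _ _ hgm hm, Matrix.det_mul, pow_two]
  have hscop : IsCoprime s F := by
    rw [hFdef]
    exact (isCoprime_mul_unit_left_right hC _ _).2 hs
  have hsne : (mulMat n F s).det ≠ 0 := mulMat_det_ne_zero F s hFm hFn hscop
  obtain ⟨k, hk⟩ := hodd
  refine ⟨l ^ j * (((a 0 : K)⁻¹) ^ k * (mulMat m g r).det) / (mulMat n F s).det, ?_⟩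
  have e5 : (mulMat n F δ).det = l ^ n * (((a 0 : K)⁻¹) ^ m * (mulMat m g r).det ^ 2) /
      (mulMat n F s).det ^ 2 := by
    rw [eq_div_iff (pow_ne_zero 2 hsne), e2, e3, e4]
  have hu : (a 0 : K) * (a 0 : K)⁻¹ = 1 := mul_inv_cancel₀ h0
  have e6 : ((a 0 : K)⁻¹) ^ m = (((a 0 : K)⁻¹) ^ k) ^ 2 * (a 0 : K)⁻¹ := by
    rw [hk, pow_succ, pow_mul']
  have e8 : l ^ n = (l ^ j) ^ 2 := by
    rw [hj, pow_two, pow_add]
  rw [e5, e6, e8]
  have e7 : (a 0 : K) * ((l ^ j) ^ 2 * ((((a 0 : K)⁻¹) ^ k) ^ 2 * (a 0 : K)⁻¹ *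
      (mulMat m g r).det ^ 2) / (mulMat n F s).det ^ 2) =
      ((a 0 : K) * (a 0 : K)⁻¹) * ((l ^ j) ^ 2 * ((((a 0 : K)⁻¹) ^ k) ^ 2 *
        (mulMat m g r).det ^ 2) / (mulMat n F s).det ^ 2) := by ring
  rw [e7, hu]
  ring

end Stoll308.DQ
end

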