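import Pool.Agent.Work.BCM.C12

section
set_option autoImplicit false

/-!
Change of the representative of a class.
-/

namespace Stoll308.SC

open Polynomial Finset Matrix BG BF

lemma hank_smul {K : Type*} [CommRing K] (n : ℕ) (F δ : K[X]) (u : K) :
    Hank n F (C u * δ) = u • Hank n F δ := by
  ext i j
  rw [Matrix.smul_apply, smul_eq_mul]
  change ((C u * δ * X ^ ((i : ℕ) + j)) %ₘ F).coeff (n - 1) =
    u * ((δ * X ^ ((i : ℕ) + j)) %ₘ F).coeff (n - 1)
  rw [mul_assoc, ← smul_eq_C_mul, smul_modByMonic, coeff_smul, smul_eq_mul]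

/-- Change of the representative of the class: `u δ s² = δ' s'²` modulo `g`. -/
theorem Good.congr {p : ℕ} [Fact p.Prime] {n : ℕ} {g δ δ' : ℚ_[p][X]} (hg : g.Monic)
    (hgn : g.natDegree = n) (h : Good p n g δ) (u : ℚ_[p]) (hu : ‖u‖ = 1) (s s' : ℚ_[p][X])
    (hs : IsCoprime s g) (hs' : IsCoprime s' g) (e : g ∣ C u * δ * s ^ 2 - δ' * s' ^ 2) :
    Good p n g δ' := by
  obtain ⟨G, hG, h1, h2⟩ := h
  have hds := mulMat_det_ne_zero g s hg hgn hs
  have hds' := mulMat_det_ne_zero g s' hg hgn hs'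
  obtain ⟨M, hM⟩ : ∃ M, M = mulMat n g s := ⟨_, rfl⟩
  obtain ⟨M', hM'⟩ : ∃ M', M' = mulMat n g s' := ⟨_, rfl⟩
  rw [← hM] at hds
  rw [← hM'] at hds'
  have hMi : M⁻¹ * M = 1 := nonsing_inv_mul _ (isUnit_iff_ne_zero.2 hds)
  -- the key identity
  have key : ∀ q : ℚ_[p][X], (G * M⁻¹ * M') * Hank n g (q * δ') * (G * M⁻¹ * M')ᵀ =
      u • (G * Hank n g (q * δ) * Gᵀ) := by
    intro q
    have e1 : Hank n g (q * δ' * s' ^ 2) = Hank n g (C u * (q * δ * s ^ 2)) := by
      apply hank_congr _ _ _ hg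
      obtain ⟨r, hr⟩ := e
      refine ⟨-(q * r), ?_⟩
      linear_combination (-q) * hr
    rw [hank_mul_sq g (q * δ') s' hg hgn, hank_smul, hank_mul_sq g (q * δ) s hg hgn, ← hM,
      ← hM'] at e1
    have e2 : (G * M⁻¹ * M') * Hank n g (q * δ') * (G * M⁻¹ * M')ᵀ =
        (G * M⁻¹) * (M' * Hank n g (q * δ') * M'ᵀ) * (G * M⁻¹)ᵀ := by
      rw [transpose_mul (G * M⁻¹) M']
      simp only [Matrix.mul_assoc]
    rw [e2, e1, Matrix.mul_smul, Matrix.smul_mul]
    congr 1
    have e3 : (G * M⁻¹) * (M * Hank n g (q * δ) * Mᵀ) * (G * M⁻¹)ᵀ =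
        G * (M⁻¹ * M) * Hank n g (q * δ) * (G * (M⁻¹ * M))ᵀ := by
      rw [transpose_mul, transpose_mul G (M⁻¹ * M), transpose_mul M⁻¹ M]
      simp only [Matrix.mul_assoc]
    rw [e3, hMi, Matrix.mul_one]
  refine ⟨G * M⁻¹ * M', ?_, ?_, ?_⟩
  · rw [det_mul, det_mul]
    refine mul_ne_zero (mul_ne_zero hG ?_) hds'
    intro h0
    have h3 := congrArg Matrix.det hMi
    rw [det_mul, h0, zero_mul, det_one] at h3
    exact zero_ne_one h3
  · intro k i j
    rw [key, Matrix.smul_apply, norm_smul, hu, one_mul]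
    exact h1 k i j
  · have h3 := key 1
    rw [one_mul, one_mul] at h3
    rw [h3, det_smul, norm_mul, norm_pow, hu, one_pow, one_mul]
    exact h2

/-- A polynomial with integral coefficients comes from `ℤ_p[X]`. -/
theorem exists_toQ {p : ℕ} [Fact p.Prime] (f : ℚ_[p][X]) (hf : ∀ i, ‖f.coeff i‖ ≤ 1) :
    ∃ g : ℤ_[p][X], toQ g = f ∧ g.natDegree = f.natDegree ∧ (f.Monic → g.Monic) := by
  have hinj : Function.Injective (algebraMap ℤ_[p] ℚ_[p]) := FaithfulSMul.algebraMap_injective _ _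
  have h1 : f ∈ Polynomial.lifts (algebraMap ℤ_[p] ℚ_[p]) := by
    rw [lifts_iff_coeff_lifts]
    intro i
    exact ⟨⟨f.coeff i, hf i⟩, rfl⟩
  obtain ⟨g, hg⟩ := (mem_lifts _).1 h1
  have h2 : g.natDegree = f.natDegree := by
    rw [← hg, natDegree_map_eq_of_injective hinj]
  refine ⟨g, hg, h2, fun hm => ?_⟩
  rw [← hg] at hm
  exact Polynomial.monic_of_injective hinj hm

/-- Divisibility by a monic integral polynomial. -/
theorem toQ_dvd {p : ℕ} [Fact p.Prime] {h f : ℤ_[p][X]} (hh : h.Monic) (e : toQ h ∣ toQ f) :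
    h ∣ f := by
  have hinj : Function.Injective (algebraMap ℤ_[p] ℚ_[p]) := FaithfulSMul.algebraMap_injective _ _
  exact (Polynomial.map_dvd_map _ hinj hh).1 e

end Stoll308.SC
end

section
set_option autoImplicit false

/-!
Irreducible polynomials over `ℚ_p` are integral or have an integral reversal.
-/

namespace Stoll308.SC

open Polynomial Finset

/-- The spectral value of a monic irreducible polynomial over `ℚ_p`. -/
theorem spectralValue_irr (p : ℕ) [Fact p.Prime] (π : ℚ_[p][X]) (hm : π.Monic)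
    (hirr : Irreducible π) :
    spectralValue π = ‖π.coeff 0‖ ^ (1 / π.natDegree : ℝ) := by
  have hfact : Fact (Irreducible π) := ⟨hirr⟩
  have hfin : FiniteDimensional ℚ_[p] (AdjoinRoot π) :=
    (AdjoinRoot.powerBasis hirr.ne_zero).finite
  have hmin : minpoly ℚ_[p] (AdjoinRoot.root π) = π := by
    rw [AdjoinRoot.minpoly_root hirr.ne_zero, hm.leadingCoeff, inv_one, C_1, mul_one]
  have h := spectralNorm.spectralNorm_eq_norm_coeff_zero_rpow ℚ_[p] (AdjoinRoot π)
    (AdjoinRoot.root π)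
  rw [spectralNorm, hmin] at h
  exact h

theorem slope (p : ℕ) [Fact p.Prime] (π : ℚ_[p][X]) (hm : π.Monic) (hirr : Irreducible π) :
    (∀ i, ‖π.coeff i‖ ≤ 1) ∨ ∀ i, 0 < i → ‖π.coeff i‖ < ‖π.coeff 0‖ := by
  have hsv := spectralValue_irr p π hm hirr
  have hdeg : 0 < π.natDegree := hirr.natDegree_pos
  rcases le_or_gt ‖π.coeff 0‖ 1 with hc | hc
  · left
    rw [← spectralValue_le_one_iff hm, hsv]
    exact Real.rpow_le_one (norm_nonneg _) hc (by positivity)
  · right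
    intro i hi
    rcases lt_trichotomy i π.natDegree with h | h | h
    · have h1 : spectralValueTerms π i ≤ spectralValue π :=
        le_ciSup (spectralValueTerms_bddAbove π) i
      rw [spectralValueTerms_of_lt_natDegree _ h, hsv] at h1
      have hpos : (0 : ℝ) < (π.natDegree : ℝ) - i := by
        rw [sub_pos]; exact_mod_cast h
      have h2 : ‖π.coeff i‖ ≤ ‖π.coeff 0‖ ^ ((π.natDegree - i : ℝ) / π.natDegree) := by
        have h3 := Real.rpow_le_rpow (Real.rpow_nonneg (norm_nonneg _) _) h1 hpos.le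
        rw [← Real.rpow_mul (norm_nonneg _), ← Real.rpow_mul (norm_nonneg _),
          one_div_mul_cancel hpos.ne', Real.rpow_one] at h3
        rwa [show (1 / (π.natDegree : ℝ)) * ((π.natDegree : ℝ) - i) =
          ((π.natDegree : ℝ) - i) / π.natDegree by ring] at h3
      refine h2.trans_lt ?_
      calc ‖π.coeff 0‖ ^ ((π.natDegree - i : ℝ) / π.natDegree) < ‖π.coeff 0‖ ^ (1 : ℝ) := by
            apply Real.rpow_lt_rpow_of_exponent_lt hc
            have hd : (0 : ℝ) < π.natDegree := by exact_mod_cast hdeg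
            rw [div_lt_one hd]
            have : (0 : ℝ) < i := by exact_mod_cast hi
            linarith
        _ = ‖π.coeff 0‖ := Real.rpow_one _
    · rw [h, hm.coeff_natDegree, norm_one]
      exact hc
    · rw [coeff_eq_zero_of_natDegree_lt h, norm_zero]
      linarith

theorem slope_toQ_mul {p : ℕ} [Fact p.Prime] (f g : ℤ_[p][X]) : toQ (f * g) = toQ f * toQ g :=
  Polynomial.map_mul _

theorem slope_toQ_one {p : ℕ} [Fact p.Prime] (G : ℤ_[p][X]) :
    toQ (1 + C (p : ℤ_[p]) * G) = 1 + C (p : ℚ_[p]) * toQ G := by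
  simp only [toQ, Polynomial.map_add, Polynomial.map_mul, Polynomial.map_one, map_natCast,
    Polynomial.map_natCast]

theorem norm_div_p_le {p : ℕ} [Fact p.Prime] {y : ℚ_[p]} (hy : ‖y‖ < 1) : ‖y / p‖ ≤ 1 := by
  have h1 : (p : ℤ_[p]) ∣ (⟨y, hy.le⟩ : ℤ_[p]) := by
    rw [← PadicInt.norm_lt_one_iff_dvd]
    exact hy
  obtain ⟨w, hw⟩ := h1
  have h2 : y = (p : ℚ_[p]) * (w : ℚ_[p]) := by
    have := congrArg (fun z : ℤ_[p] => (z : ℚ_[p])) hw
    simpa using this
  have hp0 : (p : ℚ_[p]) ≠ 0 := by exact_mod_cast (Fact.out : p.Prime).ne_zero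
  rw [h2, mul_div_cancel_left₀ _ hp0]
  exact w.2

theorem split_irr (p : ℕ) [Fact p.Prime] (π : ℚ_[p][X]) (hm : π.Monic) (hirr : Irreducible π) :
    ∃ (v : ℚ_[p]) (H G : ℤ_[p][X]), v ≠ 0 ∧ H.Monic ∧
      π = C v * toQ H * toQ (1 + C (p : ℤ_[p]) * G) := by
  have hp0 : (p : ℚ_[p]) ≠ 0 := by exact_mod_cast (Fact.out : p.Prime).ne_zero
  rcases slope p π hm hirr with h | h
  · obtain ⟨H, hH, -, hHm⟩ := exists_toQ π h
    exact ⟨1, H, 0, one_ne_zero, hHm hm, by rw [hH]; simp⟩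
  · have h0 : π.coeff 0 ≠ 0 := by
      intro h1
      have h2 := h π.natDegree hirr.natDegree_pos
      rw [h1, norm_zero] at h2
      exact absurd h2 (not_lt.2 (norm_nonneg _))
    obtain ⟨G, hG, -, -⟩ := exists_toQ (C ((π.coeff 0 * p)⁻¹) * (π - C (π.coeff 0))) (by
      intro i
      rw [coeff_C_mul, coeff_sub, coeff_C]
      split_ifs with hi
      · rw [hi, sub_self, mul_zero, norm_zero]
        exact zero_le_one
      · rw [sub_zero]
        have h3 : (π.coeff 0 * p)⁻¹ * π.coeff i = (π.coeff i / π.coeff 0) / p := by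
          field_simp
        rw [h3]
        apply norm_div_p_le
        rw [norm_div, div_lt_one (norm_pos_iff.2 h0)]
        exact h i (Nat.pos_of_ne_zero hi))
    refine ⟨π.coeff 0, 1, G, h0, monic_one, ?_⟩
    have h1 : toQ (1 : ℤ_[p][X]) = 1 := Polynomial.map_one _
    rw [slope_toQ_one, hG, h1, mul_one, mul_add, mul_one, ← mul_assoc, ← mul_assoc, ← C_mul,
      ← C_mul, mul_inv_cancel₀ (mul_ne_zero h0 hp0), C_1, one_mul]
    ring

theorem split_poly (p : ℕ) [Fact p.Prime] (f : ℚ_[p][X]) (hf : f ≠ 0) :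
    ∃ (v : ℚ_[p]) (H G : ℤ_[p][X]), v ≠ 0 ∧ H.Monic ∧
      f = C v * toQ H * toQ (1 + C (p : ℤ_[p]) * G) := by
  induction f using WfDvdMonoid.induction_on_irreducible with
  | zero => exact absurd rfl hf
  | unit u hu =>
    obtain ⟨v, hv, rfl⟩ := Polynomial.isUnit_iff.1 hu
    exact ⟨v, 1, 0, hv.ne_zero, monic_one, by simp⟩
  | mul a i ha hi ih =>
    obtain ⟨v, H, G, hv, hH, e⟩ := ih ha
    have hlc : i.leadingCoeff ≠ 0 := leadingCoeff_ne_zero.2 hi.ne_zero
    have hm : (i * C (i.leadingCoeff)⁻¹).Monic := monic_mul_leadingCoeff_inv hi.ne_zero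
    have hirr : Irreducible (i * C (i.leadingCoeff)⁻¹) := by
      rw [irreducible_mul_isUnit (isUnit_C.2 (isUnit_iff_ne_zero.2 (inv_ne_zero hlc)))]
      exact hi
    obtain ⟨v', H', G', hv', hH', e'⟩ := split_irr p _ hm hirr
    have hi' : i = C i.leadingCoeff * (C v' * toQ H' * toQ (1 + C (p : ℤ_[p]) * G')) := by
      rw [← e', mul_comm i, ← mul_assoc, ← C_mul, mul_inv_cancel₀ hlc, C_1, one_mul]
    refine ⟨i.leadingCoeff * v' * v, H' * H, G + G' + C (p : ℤ_[p]) * (G * G'),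
      mul_ne_zero (mul_ne_zero hlc hv') hv, hH'.mul hH, ?_⟩
    have h1 : (1 + C (p : ℤ_[p]) * (G + G' + C (p : ℤ_[p]) * (G * G'))) =
        (1 + C (p : ℤ_[p]) * G) * (1 + C (p : ℤ_[p]) * G') := by ring
    rw [h1, slope_toQ_mul, slope_toQ_mul, C_mul, C_mul]
    nth_rw 1 [hi']
    rw [e]
    ring

end Stoll308.SC
end

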