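import Pool.Agent.Work.BCM.C13
import Pool.Agent.Work.BCM.C14
import Pool.Agent.Work.BCM.C15

section
set_option autoImplicit false

/-!
The self-dual lattice of an integral factorisation.
-/

namespace Stoll308.SC

open Polynomial Finset Matrix BG BF

namespace SelfDual

section ring

variable {K : Type*} [CommRing K] {n : ℕ}

/-- the polynomial of a vector of coefficients -/
noncomputable def P (v : Fin n → K) : K[X] := ∑ i : Fin n, C (v i) * X ^ (i : ℕ)

lemma P_coeff (v : Fin n → K) (i : Fin n) : (P v).coeff (i : ℕ) = v i := by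
  rw [P, finsetSum_coeff, Finset.sum_eq_single i]
  · simp
  · intro b _ hb
    rw [coeff_C_mul, coeff_X_pow, if_neg, mul_zero]
    intro h
    exact hb (Fin.ext h.symm)
  · intro h
    exact absurd (Finset.mem_univ _) h

lemma P_degree (v : Fin n → K) : (P v).degree < n := by
  rcases Nat.eq_zero_or_pos n with h0 | hpos
  · subst h0
    rw [P, Finset.univ_eq_empty, Finset.sum_empty, degree_zero]
    exact WithBot.bot_lt_coe _
  · refine (degree_sum_le _ _).trans_lt ?_
    rw [Finset.sup_lt_iff (WithBot.bot_lt_coe _)]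
    intro i _
    refine (degree_C_mul_X_pow_le _ _).trans_lt ?_
    exact_mod_cast i.2

lemma tau_congr (F a b : K[X]) (hF : F.Monic) (h : F ∣ a - b) :
    HankL.tau n F a = HankL.tau n F b := by
  rw [HankL.tau_apply, HankL.tau_apply, modByMonic_eq_of_dvd_sub hF h]

lemma P_mod [Nontrivial K] (F : K[X]) (hF : F.Monic) (hn : F.natDegree = n) (v : Fin n → K)
    (q : K[X]) (h : F ∣ P v - q) : P v = q %ₘ F := by
  rw [← modByMonic_eq_of_dvd_sub hF h]
  symm
  apply (modByMonic_eq_self_iff hF).2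
  rw [degree_eq_natDegree hF.ne_zero, hn]
  exact P_degree v

/-- a vector representing a class -/
lemma exists_vec [Nontrivial K] (F : K[X]) (hF : F.Monic) (hn : F.natDegree = n) (q : K[X]) :
    ∃ v : Fin n → K, F ∣ P v - q := by
  refine ⟨fun i => (q %ₘ F).coeff i, ?_⟩
  have h : P (fun i : Fin n => (q %ₘ F).coeff i) = q %ₘ F := (HankL.mod_eq_sum F q hF hn).symm
  rw [h]
  refine ⟨-(q /ₘ F), ?_⟩
  linear_combination modByMonic_add_div q F

lemma dot (F δ : K[X]) (v u : Fin n → K) :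
    v ⬝ᵥ (Hank n F δ *ᵥ u) = HankL.tau n F (δ * P v * P u) := by
  have h1 : δ * P v * P u = ∑ i : Fin n, ∑ j : Fin n,
      (v i * u j) • (δ * X ^ ((i : ℕ) + j)) := by
    have e0 : δ * P v = ∑ i : Fin n, δ * (C (v i) * X ^ (i : ℕ)) := by rw [P, Finset.mul_sum]
    rw [e0, Finset.sum_mul]
    refine Finset.sum_congr rfl fun i _ => ?_
    rw [P, Finset.mul_sum]
    refine Finset.sum_congr rfl fun j _ => ?_
    rw [smul_eq_C_mul, C_mul]
    ring
  rw [h1, map_sum, dotProduct]
  refine Finset.sum_congr rfl fun i _ => ?_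
  rw [map_sum, mulVec, dotProduct, Finset.mul_sum]
  refine Finset.sum_congr rfl fun j _ => ?_
  rw [map_smul, HankL.hank_apply, smul_eq_mul]
  ring

lemma conj_apply (G H : Matrix (Fin n) (Fin n) K) (i j : Fin n) :
    (G * H * Gᵀ) i j = G i ⬝ᵥ (H *ᵥ G j) := by
  rw [Matrix.mul_assoc, Matrix.mul_apply, dotProduct]
  refine Finset.sum_congr rfl fun k _ => ?_
  rw [Matrix.mul_apply, mulVec, dotProduct]
  rfl

lemma row_eq (G : Matrix (Fin n) (Fin n) K) (i : Fin n) :
    G i = (Pi.single i 1 : Fin n → K) ᵥ* G := by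
  rw [Matrix.single_one_vecMul]
  rfl

/-- the computation of the form -/
lemma alg_id (Y A B g h h' r c a b a' b' s t : K) (hAB : A * h + B * g = 1)
    (e : c * g = r ^ 2 + h * h') :
    g ∣ Y * A * (a * h + b * r + g * s) * (a' * h + b' * r + g * t) -
      Y * (a * a' * h + (a * b' + a' * b) * r - b * b' * h') := by
  refine ⟨Y * A * ((a * h + b * r) * t + s * (a' * h + b' * r) + g * s * t)
    - Y * B * (a * a' * h + (a * b' + a' * b) * r - b * b' * h') + Y * A * b * b' * c, ?_⟩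
  linear_combination (Y * (a * a' * h + (a * b' + a' * b) * r - b * b' * h')) * hAB -
    (Y * A * b * b') * e

end ring

section padic

variable {p : ℕ} [Fact p.Prime] {n : ℕ}

lemma tau_int (g q : ℤ_[p][X]) (hg : g.Monic) : ‖HankL.tau n (toQ g) (toQ q)‖ ≤ 1 := by
  rw [HankL.tau_apply, toQ, toQ, ← map_modByMonic _ hg, coeff_map]
  exact PadicInt.norm_le_one _

/-- an integral residue -/
lemma coeff_int (g q : ℤ_[p][X]) (hg : g.Monic) (i : ℕ) : ‖((toQ q) %ₘ (toQ g)).coeff i‖ ≤ 1 := by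
  rw [toQ, toQ, ← map_modByMonic _ hg, coeff_map]
  exact PadicInt.norm_le_one _

/-- the powers of `θ` form a self-dual lattice -/
lemma int_of_tau (g : ℤ_[p][X]) (hg : g.Monic) (hgn : g.natDegree = n) (v : Fin n → ℚ_[p])
    (h : ∀ i : Fin n, ‖HankL.tau n (toQ g) (P v * X ^ (i : ℕ))‖ ≤ 1) (i : Fin n) : ‖v i‖ ≤ 1 := by
  have hG : (toQ g).Monic := hg.map _
  have hGn : (toQ g).natDegree = n := by rw [hg.natDegree_map, hgn]
  set H : Matrix (Fin n) (Fin n) ℤ_[p] := Hank n g 1 with hH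
  have hdet : H.det = (-1) ^ (n * (n - 1) / 2) := HankL.hank_one_det g hg hgn
  have hu : IsUnit H.det := by
    rw [hdet]
    exact (isUnit_one.neg).pow _
  have hmap : Hank n (toQ g) 1 = H.map (algebraMap ℤ_[p] ℚ_[p]) := by
    have := hank_map (n := n) (algebraMap ℤ_[p] ℚ_[p]) g 1 hg
    rw [Polynomial.map_one] at this
    exact this
  -- the values
  have h1 : ∀ i : Fin n, (Hank n (toQ g) 1 *ᵥ v) i = HankL.tau n (toQ g) (P v * X ^ (i : ℕ)) := by
    intro i
    have e := dot (toQ g) 1 (Pi.single i 1 : Fin n → ℚ_[p]) v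
    rw [single_one_dotProduct] at e
    rw [e]
    congr 1
    have e2 : P (Pi.single i 1 : Fin n → ℚ_[p]) = X ^ (i : ℕ) := by
      rw [P, Finset.sum_eq_single i]
      · rw [Pi.single_eq_same, C_1, one_mul]
      · intro b _ hb
        rw [Pi.single_eq_of_ne hb, C_0, zero_mul]
      · intro h
        exact absurd (Finset.mem_univ _) h
    rw [e2]
    ring
  have hinv : H⁻¹.map (algebraMap ℤ_[p] ℚ_[p]) * Hank n (toQ g) 1 = 1 := by
    rw [hmap, ← Matrix.map_mul, Matrix.nonsing_inv_mul _ hu, Matrix.map_one _ (map_zero _) (map_one _)]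
  have h2 : v = H⁻¹.map (algebraMap ℤ_[p] ℚ_[p]) *ᵥ (Hank n (toQ g) 1 *ᵥ v) := by
    rw [Matrix.mulVec_mulVec, hinv, Matrix.one_mulVec]
  have h3 : ∀ i : Fin n, ∃ z : ℤ_[p], (Hank n (toQ g) 1 *ᵥ v) i = algebraMap ℤ_[p] ℚ_[p] z := by
    intro i
    refine ⟨⟨(Hank n (toQ g) 1 *ᵥ v) i, ?_⟩, rfl⟩
    rw [h1 i]
    exact h i
  choose z hz using h3
  have h4 : v i = algebraMap ℤ_[p] ℚ_[p] ((H⁻¹ *ᵥ z) i) := by
    have e := congrFun h2 i
    rw [e, mulVec, dotProduct, mulVec, dotProduct, map_sum]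
    refine Finset.sum_congr rfl fun j _ => ?_
    rw [hz j, map_mul, Matrix.map_apply]
  rw [h4]
  exact PadicInt.norm_le_one _

/-- clearing denominators of a polynomial -/
lemma clear (A : ℚ_[p][X]) : ∃ c : ℤ_[p], c ≠ 0 ∧ ∃ B : ℤ_[p][X],
    C (algebraMap ℤ_[p] ℚ_[p] c) * A = toQ B := by
  obtain ⟨c, hcm, hc⟩ := IsLocalization.integerNormalization_spec (nonZeroDivisors ℤ_[p]) A
  refine ⟨c, nonZeroDivisors.ne_zero hcm,
    IsLocalization.integerNormalization (nonZeroDivisors ℤ_[p]) A, ?_⟩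
  rw [toQ, hc]
  ext i
  rw [coeff_C_mul, coeff_smul, Algebra.smul_def]

end padic

end SelfDual

open SelfDual

/-- If `c g = r² + h h'` with integral polynomials, `c` a unit and `g`, `h` monic, then the ideal
generated by `h(θ)` and `r(θ)` in `ℤ_p[θ]` is self-dual for the form `[θ^(n-1)](λ μ / h(θ))`. -/
theorem self_dual {n : ℕ} (hn : 1 ≤ n) (p : ℕ) [Fact p.Prime] (g h r h' : ℤ_[p][X]) (c : ℤ_[p])
    (hc : IsUnit c) (hg : g.Monic) (hgn : g.natDegree = n) (hh : h.Monic)
    (e : C c * g = r ^ 2 + h * h') (hco : IsCoprime (toQ h) (toQ g)) :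
    Good p n (toQ g) (toQ h) := by
  have hG : (toQ g).Monic := hg.map _
  have hGn : (toQ g).natDegree = n := by rw [hg.natDegree_map, hgn]
  obtain ⟨A, B, hAB⟩ := id hco
  -- `A` is the inverse of `h`
  have eQ : C (algebraMap ℤ_[p] ℚ_[p] c) * toQ g = toQ r ^ 2 + toQ h * toQ h' := by
    have := congrArg toQ e
    simpa only [toQ, Polynomial.map_mul, Polynomial.map_add, Polynomial.map_pow, map_C] using this
  have hAg : IsCoprime A (toQ g) := ⟨toQ h, B, by linear_combination hAB⟩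
  have hSdet : (Hank n (toQ g) A).det ≠ 0 := hank_det_ne_zero _ _ hG hGn hAg
  set N : Submodule ℤ_[p] (Fin n → ℚ_[p]) :=
    { carrier := {v | ∃ a b : ℤ_[p][X], toQ g ∣ P v - toQ (a * h + b * r)}
      add_mem' := by
        rintro v u ⟨a, b, hab⟩ ⟨a', b', hab'⟩
        refine ⟨a + a', b + b', ?_⟩
        have h1 : P (v + u) = P v + P u := by
          simp only [P, Pi.add_apply, C_add, add_mul, Finset.sum_add_distrib]
        have h2 := dvd_add hab hab'
        rw [h1]
        convert h2 using 1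
        simp only [toQ, Polynomial.map_mul, Polynomial.map_add]
        ring
      zero_mem' := by
        refine ⟨0, 0, ?_⟩
        have h1 : P (0 : Fin n → ℚ_[p]) = 0 := by
          simp only [P, Pi.zero_apply, C_0, zero_mul, Finset.sum_const_zero]
        rw [h1]
        simp [toQ]
      smul_mem' := by
        rintro z v ⟨a, b, hab⟩
        refine ⟨C z * a, C z * b, ?_⟩
        have h1 : P (z • v) = C (algebraMap ℤ_[p] ℚ_[p] z) * P v := by
          rw [P, P, Finset.mul_sum]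
          refine Finset.sum_congr rfl fun i _ => ?_
          rw [Pi.smul_apply, Algebra.smul_def, C_mul, mul_assoc]
        have h2 := Dvd.dvd.mul_left hab (C (algebraMap ℤ_[p] ℚ_[p] z))
        rw [h1]
        convert h2 using 1
        simp only [toQ, Polynomial.map_mul, Polynomial.map_add, map_C]
        ring } with hNdef
  have memN : ∀ v, v ∈ N ↔ ∃ a b : ℤ_[p][X], toQ g ∣ P v - toQ (a * h + b * r) := fun v => Iff.rfl
  -- the lattice
  obtain ⟨G, hGdet, hGN⟩ := exists_basis p N (by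
    obtain ⟨c1, hc1, A1, hA1⟩ := clear A
    obtain ⟨c2, hc2, B1, hB1⟩ := clear B
    refine ⟨algebraMap ℤ_[p] ℚ_[p] c1 , ?_, ?_⟩
    · intro h0
      exact hc1 ((IsFractionRing.injective ℤ_[p] ℚ_[p]) (h0.trans (map_zero _).symm))
    · intro v hv
      have : ∀ i, ∃ z : ℤ_[p], v i = algebraMap ℤ_[p] ℚ_[p] z := fun i => ⟨⟨v i, hv i⟩, rfl⟩
      choose z hz using this
      rw [memN]
      refine ⟨P z * A1, 0, ?_⟩
      have h1 : P v = toQ (P z) := by
        rw [P, P, toQ, Polynomial.map_sum]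
        refine Finset.sum_congr rfl fun i _ => ?_
        rw [Polynomial.map_mul, Polynomial.map_pow, map_X, map_C, ← hz i]
      have h2 : P (algebraMap ℤ_[p] ℚ_[p] c1 • v) = C (algebraMap ℤ_[p] ℚ_[p] c1) * P v := by
        rw [P, P, Finset.mul_sum]
        refine Finset.sum_congr rfl fun i _ => ?_
        rw [Pi.smul_apply, smul_eq_mul, C_mul, mul_assoc]
      have h3 : toQ (P z * A1 * h + 0 * r) = P v * (C (algebraMap ℤ_[p] ℚ_[p] c1) * A) * toQ h := by
        rw [hA1, h1]
        simp only [toQ, Polynomial.map_mul, zero_mul, add_zero]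
      rw [h2, h3]
      refine ⟨P v * C (algebraMap ℤ_[p] ℚ_[p] c1) * B, ?_⟩
      linear_combination -(P v * C (algebraMap ℤ_[p] ℚ_[p] c1)) * hAB) (by
    refine ⟨1, ?_⟩
    rintro v ⟨a, b, hab⟩ i
    rw [← P_coeff v i, P_mod (toQ g) hG hGn v _ hab]
    exact coeff_int g _ hg _)
  -- values of the form on the lattice
  have hval : ∀ (k : ℕ), ∀ v ∈ N, ∀ u ∈ N, ‖v ⬝ᵥ (Hank n (toQ g) (X ^ k * A) *ᵥ u)‖ ≤ 1 := by
    rintro k v ⟨a, b, hab⟩ u ⟨a', b', hab'⟩
    rw [dot]
    have h1 : HankL.tau n (toQ g) (X ^ k * A * P v * P u) =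
        HankL.tau n (toQ g) (toQ (X ^ k * (a * a' * h + (a * b' + a' * b) * r - b * b' * h'))) := by
      apply tau_congr _ _ _ hG
      obtain ⟨s, hs⟩ := hab
      obtain ⟨t, ht⟩ := hab'
      have e1 : P v = toQ (a * h + b * r) + toQ g * s := by linear_combination hs
      have e2 : P u = toQ (a' * h + b' * r) + toQ g * t := by linear_combination ht
      have e3 : toQ (X ^ k * (a * a' * h + (a * b' + a' * b) * r - b * b' * h')) =
          X ^ k * (toQ a * toQ a' * toQ h + (toQ a * toQ b' + toQ a' * toQ b) * toQ r -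
            toQ b * toQ b' * toQ h') := by
        simp only [toQ, Polynomial.map_mul, Polynomial.map_add, Polynomial.map_sub,
          Polynomial.map_pow, map_X]
      have e4 : toQ (a * h + b * r) = toQ a * toQ h + toQ b * toQ r := by
        simp only [toQ, Polynomial.map_mul, Polynomial.map_add]
      have e5 : toQ (a' * h + b' * r) = toQ a' * toQ h + toQ b' * toQ r := by
        simp only [toQ, Polynomial.map_mul, Polynomial.map_add]
      rw [e1, e2, e3, e4, e5]
      exact alg_id _ _ _ _ _ _ _ _ _ _ _ _ _ _ hAB eQ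
    rw [h1]
    exact tau_int g _ hg
  have hrow : ∀ i, G i ∈ N := by
    intro i
    rw [hGN]
    refine ⟨Pi.single i 1, ?_, row_eq G i⟩
    intro j
    by_cases hij : j = i
    · rw [hij, Pi.single_eq_same, norm_one]
    · rw [Pi.single_eq_of_ne hij, norm_zero]
      exact zero_le_one
  -- the dual lattice
  have hdual := gram_det p N G (Hank n (toQ g) A) hGdet hSdet hGN 1 (by
    intro v hv
    rw [one_smul]
    -- `v` is integral
    have hint : ∀ i, ‖v i‖ ≤ 1 := by
      apply int_of_tau g hg hgn v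
      intro i
      obtain ⟨u, hu⟩ := exists_vec (n := n) (toQ g) hG hGn (toQ (X ^ (i : ℕ) * h))
      have h1 := hv u ⟨X ^ (i : ℕ), 0, by simpa only [zero_mul, add_zero] using hu⟩
      rw [dot] at h1
      have h2 : HankL.tau n (toQ g) (A * P v * P u) =
          HankL.tau n (toQ g) (P v * X ^ (i : ℕ)) := by
        apply tau_congr _ _ _ hG
        obtain ⟨s, hs⟩ := hu
        have e1 : P u = X ^ (i : ℕ) * toQ h + toQ g * s := by
          have e2 : toQ (X ^ (i : ℕ) * h) = X ^ (i : ℕ) * toQ h := by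
            simp only [toQ, Polynomial.map_mul, Polynomial.map_pow, map_X]
          rw [← e2]
          linear_combination hs
        rw [e1]
        refine ⟨A * P v * s - B * P v * X ^ (i : ℕ), ?_⟩
        linear_combination (P v * X ^ (i : ℕ)) * hAB
      rw [h2] at h1
      exact h1
    have : ∀ i, ∃ z : ℤ_[p], v i = algebraMap ℤ_[p] ℚ_[p] z := fun i => ⟨⟨v i, hint i⟩, rfl⟩
    choose z hz using this
    set lam : ℤ_[p][X] := P z with hlam
    have hPv : P v = toQ lam := by
      rw [hlam, P, P, toQ, Polynomial.map_sum]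
      refine Finset.sum_congr rfl fun i _ => ?_
      rw [Polynomial.map_mul, Polynomial.map_pow, map_X, map_C, ← hz i]
    -- `λ r / h` is integral
    obtain ⟨w, hw⟩ := exists_vec (n := n) (toQ g) hG hGn (A * toQ lam * toQ r)
    have hwint : ∀ i, ‖w i‖ ≤ 1 := by
      apply int_of_tau g hg hgn w
      intro i
      obtain ⟨u, hu⟩ := exists_vec (n := n) (toQ g) hG hGn (toQ (X ^ (i : ℕ) * r))
      have h1 := hv u ⟨0, X ^ (i : ℕ), by simpa only [zero_mul, zero_add] using hu⟩
      rw [dot] at h1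
      have h2 : HankL.tau n (toQ g) (A * P v * P u) =
          HankL.tau n (toQ g) (P w * X ^ (i : ℕ)) := by
        apply tau_congr _ _ _ hG
        obtain ⟨s, hs⟩ := hu
        obtain ⟨t, ht⟩ := hw
        have e1 : P u = X ^ (i : ℕ) * toQ r + toQ g * s := by
          have e2 : toQ (X ^ (i : ℕ) * r) = X ^ (i : ℕ) * toQ r := by
            simp only [toQ, Polynomial.map_mul, Polynomial.map_pow, map_X]
          rw [← e2]
          linear_combination hs
        have e3 : P w = A * toQ lam * toQ r + toQ g * t := by linear_combination ht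
        rw [e1, e3, hPv]
        refine ⟨A * toQ lam * s - t * X ^ (i : ℕ), ?_⟩
        ring
      rw [h2] at h1
      exact h1
    have : ∀ i, ∃ z : ℤ_[p], w i = algebraMap ℤ_[p] ℚ_[p] z := fun i => ⟨⟨w i, hwint i⟩, rfl⟩
    choose z' hz' using this
    set mu : ℤ_[p][X] := P z' with hmu
    have hPw : P w = toQ mu := by
      rw [hmu, P, P, toQ, Polynomial.map_sum]
      refine Finset.sum_congr rfl fun i _ => ?_
      rw [Polynomial.map_mul, Polynomial.map_pow, map_X, map_C, ← hz' i]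
    have hdiv : g ∣ lam * r - h * mu := by
      apply toQ_dvd hg
      obtain ⟨t, ht⟩ := hw
      rw [hPw] at ht
      refine ⟨B * toQ lam * toQ r - toQ h * t, ?_⟩
      simp only [toQ, Polynomial.map_mul, Polynomial.map_sub] at ht hAB ⊢
      linear_combination (-(map (algebraMap ℤ_[p] ℚ_[p]) lam * map (algebraMap ℤ_[p] ℚ_[p]) r)) *
        hAB - (map (algebraMap ℤ_[p] ℚ_[p]) h) * ht
    obtain ⟨nu, hnu⟩ := hdiv
    have hkey : r * (C c * lam - r * nu) = h * (C c * mu + h' * nu) := by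
      linear_combination (C c) * hnu + nu * e
    have hcoQ : IsCoprime (toQ h) (toQ r) := by
      have hcQ : IsUnit (C (algebraMap ℤ_[p] ℚ_[p] c)) := by
        apply IsUnit.map C
        exact hc.map (algebraMap ℤ_[p] ℚ_[p])
      have h1 : IsCoprime (toQ h) (C (algebraMap ℤ_[p] ℚ_[p] c) * toQ g) :=
        (isCoprime_mul_unit_left_right hcQ _ _).2 hco
      rw [eQ] at h1
      have h2 : IsCoprime (toQ h) (toQ r ^ 2) := by
        have := IsCoprime.of_add_mul_left_right h1
        exact this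
      exact (IsCoprime.pow_right_iff (by norm_num)).1 h2
    have hdiv2 : h ∣ C c * lam - r * nu := by
      apply toQ_dvd hh
      apply hcoQ.dvd_of_dvd_mul_left
      refine ⟨toQ (C c * mu + h' * nu), ?_⟩
      rw [toQ, toQ, toQ, toQ, ← Polynomial.map_mul, ← Polynomial.map_mul, hkey]
    obtain ⟨rho, hrho⟩ := hdiv2
    obtain ⟨c', hc'⟩ := hc.exists_left_inv
    have hlam2 : lam = (C c' * rho) * h + (C c' * nu) * r := by
      have h1 : (C c' : ℤ_[p][X]) * C c = 1 := by rw [← C_mul, hc', C_1]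
      linear_combination (C c') * hrho - lam * h1
    refine ⟨C c' * rho, C c' * nu, ?_⟩
    rw [hPv, ← hlam2, sub_self]
    exact dvd_zero _)
  rw [norm_one, one_pow] at hdual
  -- integrality of the determinant
  have hent : ∀ (k : ℕ) (i j : Fin n), ‖(G * Hank n (toQ g) (X ^ k * A) * Gᵀ) i j‖ ≤ 1 := by
    intro k i j
    rw [conj_apply]
    exact hval k _ (hrow i) _ (hrow j)
  have hdet1 : ‖(G * Hank n (toQ g) A * Gᵀ).det‖ ≤ 1 := by
    have h0 : ∀ i j, ∃ z : ℤ_[p], (G * Hank n (toQ g) A * Gᵀ) i j = algebraMap ℤ_[p] ℚ_[p] z := by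
      intro i j
      refine ⟨⟨(G * Hank n (toQ g) A * Gᵀ) i j, ?_⟩, rfl⟩
      have := hent 0 i j
      rwa [pow_zero, one_mul] at this
    choose Z hZ using h0
    have h1 : G * Hank n (toQ g) A * Gᵀ = (Matrix.of Z).map (algebraMap ℤ_[p] ℚ_[p]) := by
      ext i j
      rw [hZ i j]
      rfl
    have h2 := (algebraMap ℤ_[p] ℚ_[p]).map_det (Matrix.of Z)
    rw [h1]
    rw [RingHom.mapMatrix_apply] at h2
    rw [← h2]
    exact PadicInt.norm_le_one _
  have hgood : Good p n (toQ g) A := ⟨G, hGdet, hent, le_antisymm hdet1 hdual⟩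
  refine Good.congr hG hGn hgood 1 norm_one (toQ h) 1 hco isCoprime_one_left ?_
  refine ⟨-(B * toQ h), ?_⟩
  rw [C_1]
  linear_combination (toQ h) * hAB

end Stoll308.SC
end

section
set_option autoImplicit false

/-!
The self-dual lattice of the class of an odd degree point.
-/

namespace Stoll308.SC

open Polynomial Finset Matrix BG BF

namespace Core

theorem exists_coprime {K : Type*} [Field K] [CharZero K] (g r h : K[X]) (hg : g ≠ 0)
    (hco : IsCoprime h g) : ∃ t : ℕ, IsCoprime (r + C (t : K) * h) g := by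
  classical
  by_contra hcon
  push Not at hcon
  have key : ∀ t : ℕ, ∃ q ∈ UniqueFactorizationMonoid.normalizedFactors g,
      q ∣ r + C (t : K) * h := by
    intro t
    by_contra h1
    push Not at h1
    refine hcon t (isCoprime_of_irreducible_dvd (fun h => hg h.2) ?_)
    intro z hz hz1 hz2
    obtain ⟨q, hq, hzq⟩ :=
      UniqueFactorizationMonoid.exists_mem_normalizedFactors_of_dvd hg hz hz2
    exact h1 q hq (hzq.symm.dvd.trans hz1)
  choose q hq hdvd using key
  obtain ⟨t, t', hne, heq⟩ := Finite.exists_ne_map_eq_of_infinite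
    (fun t : ℕ => (⟨q t, Multiset.mem_toFinset.2 (hq t)⟩ :
      {x // x ∈ (UniqueFactorizationMonoid.normalizedFactors g).toFinset}))
  have hqq : q t = q t' := congrArg Subtype.val heq
  have h1 : q t ∣ C ((t : K) - t') * h := by
    have h2 := dvd_sub (hdvd t) (hqq ▸ hdvd t')
    have e : r + C (t : K) * h - (r + C (t' : K) * h) = C ((t : K) - t') * h := by
      rw [C_sub]; ring
    rwa [e] at h2
  have hirr := UniqueFactorizationMonoid.irreducible_of_normalized_factor _ (hq t)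
  have hc0 : (t : K) - t' ≠ 0 := sub_ne_zero.2 (fun h => hne (Nat.cast_injective h))
  have h3 : q t ∣ h := by
    have hu : IsUnit (C ((t : K) - t')) := isUnit_C.2 (isUnit_iff_ne_zero.2 hc0)
    exact (hu.dvd_mul_left).1 h1
  have h4 : q t ∣ g := UniqueFactorizationMonoid.dvd_of_mem_normalizedFactors (hq t)
  exact hirr.not_isUnit (hco.isUnit_of_dvd' h3 h4)

theorem coeff_zero_sq {K : Type*} [Field K] (V w : K[X]) (hV : V.Monic) (h : V ∣ X - w ^ 2) :
    ∃ N : K, V.coeff 0 = (-1) ^ V.natDegree * N ^ 2 := by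
  by_cases hd : V.natDegree = 0
  · have h1 : V = 1 := by
      have := eq_C_of_natDegree_eq_zero hd
      rw [this] at hV ⊢
      rw [Monic, leadingCoeff_C] at hV
      rw [hV, C_1]
    exact ⟨1, by rw [h1]; simp⟩
  · set pb := AdjoinRoot.powerBasis' hV with hpb
    have : Nontrivial (AdjoinRoot V) := by
      refine AdjoinRoot.nontrivial V ?_
      intro h0
      exact hd (natDegree_eq_of_degree_eq_some h0)
    have h1 : (AdjoinRoot.root V) = AdjoinRoot.mk V w ^ 2 := by
      rw [← map_pow, ← AdjoinRoot.mk_X, AdjoinRoot.mk_eq_mk]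
      exact h
    have h2 := Algebra.PowerBasis.norm_gen_eq_coeff_zero_minpoly pb
    have h3 : pb.gen = AdjoinRoot.root V := rfl
    rw [h3, AdjoinRoot.minpoly_root hV.ne_zero, hV.leadingCoeff, inv_one, C_1, mul_one] at h2
    have h4 : pb.dim = V.natDegree := rfl
    rw [h4, h1, map_pow] at h2
    refine ⟨Algebra.norm K (AdjoinRoot.mk V w), ?_⟩
    rw [h2, ← mul_assoc, ← pow_add, ← two_mul, pow_mul]
    simp

theorem sqrt_one_add (p : ℕ) [Fact p.Prime] (hp : p ≠ 2) (x : ℤ_[p]) :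
    ∃ s : ℤ_[p], s ^ 2 = 1 + (p : ℤ_[p]) * x := by
  obtain ⟨s, t, h1, -⟩ := sq_root p hp X (C x) monic_X
  refine ⟨s.eval 0, ?_⟩
  obtain ⟨q, hq⟩ := h1
  have h2 := congrArg (eval (0 : ℤ_[p])) hq
  simp only [eval_sub, eval_add, eval_one, eval_mul, eval_C, eval_pow, eval_X, zero_mul] at h2
  exact (sub_eq_zero.1 h2).symm

/-- The reduction modulo `p` of a polynomial with integral coefficients. -/
noncomputable abbrev red (p : ℕ) [Fact p.Prime] (f : ℤ_[p][X]) : (ZMod p)[X] :=
  f.map PadicInt.toZMod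

theorem toQ_inj {p : ℕ} [Fact p.Prime] {f g : ℤ_[p][X]} (h : toQ f = toQ g) : f = g :=
  map_injective _ (FaithfulSMul.algebraMap_injective ℤ_[p] ℚ_[p]) h

theorem red_p (p : ℕ) [Fact p.Prime] : red p (C (p : ℤ_[p])) = 0 := by
  rw [red, map_C, map_natCast, ZMod.natCast_self, C_0]

theorem toZMod_eq_zero {p : ℕ} [Fact p.Prime] {x : ℤ_[p]} (h : ‖x‖ < 1) :
    PadicInt.toZMod x = 0 := by
  have h1 : x ∈ IsLocalRing.maximalIdeal ℤ_[p] := by
    rw [IsLocalRing.mem_maximalIdeal, PadicInt.mem_nonunits]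
    exact h
  rw [← PadicInt.ker_toZMod] at h1
  exact h1

theorem isUnit_of_toZMod_ne {p : ℕ} [Fact p.Prime] {x : ℤ_[p]}
    (h : (PadicInt.toZMod x : ZMod p) ≠ 0) : IsUnit x := by
  by_contra hu
  exact h (toZMod_eq_zero (PadicInt.not_isUnit_iff.1 hu))

/-- If the reduction is not zero then the constant of `split_poly` is a unit. -/
theorem split_unit {p : ℕ} [Fact p.Prime] {F H G : ℤ_[p][X]} {v : ℚ_[p]} (hv : v ≠ 0)
    (hH : H.Monic) (e : toQ F = C v * toQ H * toQ (1 + C (p : ℤ_[p]) * G)) (hF : red p F ≠ 0) :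
    ∃ v0 : ℤ_[p], IsUnit v0 ∧ (v0 : ℚ_[p]) = v ∧ F = C v0 * H * (1 + C (p : ℤ_[p]) * G) := by
  rcases le_or_gt ‖v‖ 1 with h1 | h1
  · obtain ⟨v0, hv0⟩ : ∃ z : ℤ_[p], (algebraMap ℤ_[p] ℚ_[p]) z = v := ⟨⟨v, h1⟩, rfl⟩
    have e1 : F = C v0 * H * (1 + C (p : ℤ_[p]) * G) := by
      apply toQ_inj
      have e2 : toQ (C v0 * H * (1 + C (p : ℤ_[p]) * G)) =
          toQ (C v0) * toQ H * toQ (1 + C (p : ℤ_[p]) * G) := by
        rw [toQ, Polynomial.map_mul, Polynomial.map_mul]
      have e3 : toQ (C v0) = C v := by rw [toQ, map_C, hv0]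
      rw [e, e2, e3]
    refine ⟨v0, isUnit_of_toZMod_ne ?_, hv0, e1⟩
    intro h0
    apply hF
    rw [e1, red, Polynomial.map_mul, Polynomial.map_mul, map_C, h0, C_0, zero_mul, zero_mul]
  · exfalso
    have h2 : ‖v⁻¹‖ < 1 := by
      rw [norm_inv]
      exact inv_lt_one_of_one_lt₀ h1
    obtain ⟨z, hz, hzn⟩ : ∃ z : ℤ_[p], (algebraMap ℤ_[p] ℚ_[p]) z = v⁻¹ ∧ ‖z‖ < 1 :=
      ⟨⟨v⁻¹, h2.le⟩, rfl, h2⟩
    have e1 : C z * F = H * (1 + C (p : ℤ_[p]) * G) := by
      apply toQ_inj
      have e3 : C v⁻¹ * C v = (1 : ℚ_[p][X]) := by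
        rw [← C_mul, inv_mul_cancel₀ hv, C_1]
      have e4 : toQ (C z * F) = C v⁻¹ * toQ F := by
        rw [toQ, Polynomial.map_mul, map_C, hz]
      have e5 : toQ (H * (1 + C (p : ℤ_[p]) * G)) = toQ H * toQ (1 + C (p : ℤ_[p]) * G) :=
        Polynomial.map_mul _
      rw [e4, e5, e]
      calc C v⁻¹ * (C v * toQ H * toQ (1 + C (p : ℤ_[p]) * G))
          = (C v⁻¹ * C v) * (toQ H * toQ (1 + C (p : ℤ_[p]) * G)) := by ring
        _ = _ := by rw [e3, one_mul]
    have e4 := congrArg (red p) e1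
    rw [red, Polynomial.map_mul, map_C, toZMod_eq_zero hzn, C_0, zero_mul,
      red, Polynomial.map_mul, Polynomial.map_add, Polynomial.map_mul, Polynomial.map_one] at e4
    have e5 := red_p p
    rw [red] at e5
    rw [e5, zero_mul, add_zero, mul_one] at e4
    exact (hH.map (PadicInt.toZMod (p := p))).ne_zero e4.symm

theorem toQ_P {p : ℕ} [Fact p.Prime] (G : ℤ_[p][X]) :
    toQ (1 + C (p : ℤ_[p]) * G) = 1 + toQ (C (p : ℤ_[p])) * toQ G := by
  rw [toQ, Polynomial.map_add, Polynomial.map_mul, Polynomial.map_one]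

end Core

open Stoll308.SC.Core

/-- The case of an integral `h`: induction on the degree. -/
theorem core_int {n : ℕ} (hn : 1 ≤ n) (p : ℕ) [Fact p.Prime] (hp : p ≠ 2) (g : ℤ_[p][X])
    (c : ℤ_[p]) (hc : IsUnit c) (hg : g.Monic) (hgn : g.natDegree = n) (h : ℤ_[p][X])
    (r : ℚ_[p][X]) (hh : h.Monic) (hco : IsCoprime (toQ h) (toQ g))
    (h1 : toQ h ∣ toQ (C c * g) - r ^ 2) : Good p n (toQ g) (toQ h) := by
  classical
  induction hd : h.natDegree using Nat.strong_induction_on generalizing h r with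
  | _ d ih =>
  have hhm : (toQ h).Monic := hh.map _
  have hgm : (toQ g).Monic := hg.map _
  set r1 := r %ₘ toQ h with hr1
  have hrr : toQ h ∣ r - r1 := by
    rw [hr1]
    have := modByMonic_add_div r (toQ h)
    exact ⟨r /ₘ toQ h, by rw [eq_comm, ← sub_eq_iff_eq_add'.2 this.symm]⟩
  have hdiv1 : toQ h ∣ toQ (C c * g) - r1 ^ 2 := by
    have e : toQ (C c * g) - r1 ^ 2 = (toQ (C c * g) - r ^ 2) + (r - r1) * (r + r1) := by ring
    rw [e]
    exact dvd_add h1 (hrr.mul_right _)
  by_cases hint : ∀ i, ‖r1.coeff i‖ ≤ 1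
  · obtain ⟨R, hR, -, -⟩ := exists_toQ r1 hint
    have h2 : toQ h ∣ toQ (C c * g - R ^ 2) := by
      have e : toQ (C c * g - R ^ 2) = toQ (C c * g) - r1 ^ 2 := by
        rw [← hR]
        simp only [toQ, Polynomial.map_sub, Polynomial.map_pow]
      rw [e]
      exact hdiv1
    obtain ⟨h', hh'⟩ := toQ_dvd hh h2
    exact self_dual hn p g h R h' c hc hg hgn hh (by rw [← hh']; ring) hco
  · push Not at hint
    obtain ⟨i1, hi1⟩ := hint
    -- a coefficient of maximal norm
    have hne : r1.support.Nonempty := by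
      refine ⟨i1, mem_support_iff.2 ?_⟩
      intro h0
      rw [h0, norm_zero] at hi1
      linarith
    obtain ⟨i0, hi0, hmax⟩ := Finset.exists_max_image r1.support (fun i => ‖r1.coeff i‖) hne
    set a := r1.coeff i0 with ha
    have hmax' : ∀ i, ‖r1.coeff i‖ ≤ ‖a‖ := by
      intro i
      by_cases hi : i ∈ r1.support
      · exact hmax i hi
      · rw [notMem_support_iff.1 hi, norm_zero]
        exact norm_nonneg _
    have ha1 : 1 < ‖a‖ := lt_of_lt_of_le hi1 (hmax' i1)
    have ha0 : a ≠ 0 := by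
      intro h0
      rw [h0, norm_zero] at ha1
      linarith
    have hb1 : ‖a⁻¹‖ < 1 := by
      rw [norm_inv]
      exact inv_lt_one_of_one_lt₀ ha1
    set b : ℤ_[p] := ⟨a⁻¹, hb1.le⟩ with hb
    have hbQ : (algebraMap ℤ_[p] ℚ_[p]) b = a⁻¹ := rfl
    have hbz : PadicInt.toZMod b = (0 : ZMod p) := toZMod_eq_zero hb1
    obtain ⟨R0, hR0, hR0d, -⟩ := exists_toQ (C a⁻¹ * r1) (by
      intro i
      rw [coeff_C_mul, norm_mul, norm_inv]
      rw [inv_mul_le_one₀ (by linarith)]
      exact hmax' i)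
    obtain ⟨t, ht⟩ := exists_coprime (toQ g) r1 (toQ h) hgm.ne_zero hco
    set r2 := r1 + C (t : ℚ_[p]) * toQ h with hr2
    set R1 : ℤ_[p][X] := R0 + C (b * t) * h with hR1
    have hR1Q : toQ R1 = C a⁻¹ * r2 := by
      rw [hR1, hr2, toQ, Polynomial.map_add, ← toQ, hR0, Polynomial.map_mul, map_C, map_mul, hbQ,
        map_natCast, C_mul]
      ring
    have hdiv2 : toQ h ∣ toQ (C c * g) - r2 ^ 2 := by
      have e : toQ (C c * g) - r2 ^ 2 = (toQ (C c * g) - r1 ^ 2) -
          toQ h * (C (t : ℚ_[p]) * (r1 + r2)) := by rw [hr2]; ring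
      rw [e]
      exact dvd_sub hdiv1 (dvd_mul_right _ _)
    have hQ1 : toQ (C (b ^ 2 * c) * g - R1 ^ 2) = C (a⁻¹ ^ 2) * (toQ (C c * g) - r2 ^ 2) := by
      have e1 : toQ (C (b ^ 2 * c) * g) = C (a⁻¹ ^ 2) * toQ (C c * g) := by
        rw [toQ, toQ, Polynomial.map_mul, Polynomial.map_mul, map_C, map_C, map_mul, map_pow, hbQ,
          C_mul]
        ring
      have e2 : toQ (C (b ^ 2 * c) * g - R1 ^ 2) = toQ (C (b ^ 2 * c) * g) - toQ R1 ^ 2 := by
        rw [toQ, Polynomial.map_sub, Polynomial.map_pow]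
      rw [e2, e1, hR1Q, C_pow]
      ring
    have hdiv3 : toQ h ∣ toQ (C (b ^ 2 * c) * g - R1 ^ 2) := by
      rw [hQ1]
      exact hdiv2.mul_left _
    obtain ⟨H0, hH0⟩ := toQ_dvd hh hdiv3
    -- reductions modulo `p`
    have hR1red : red p R1 = red p R0 := by
      rw [hR1, red, Polynomial.map_add, Polynomial.map_mul, map_C, map_mul, hbz, zero_mul, C_0,
        zero_mul, add_zero]
    have hredeq : red p h * red p H0 = - (red p R0) ^ 2 := by
      have e := congrArg (red p) hH0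
      have e1 : red p (h * H0) = red p h * red p H0 := Polynomial.map_mul _
      have e2 : red p (C (b ^ 2 * c) * g) = 0 := by
        rw [red, Polynomial.map_mul, map_C, map_mul, map_pow, hbz, zero_pow two_ne_zero, zero_mul,
          C_0, zero_mul]
      have e3 : red p (C (b ^ 2 * c) * g - R1 ^ 2) = red p (C (b ^ 2 * c) * g) - red p R1 ^ 2 := by
        rw [red, Polynomial.map_sub, Polynomial.map_pow]
      rw [e1, e3, e2, hR1red] at e
      rw [← e, zero_sub]
    have hR0ne : red p R0 ≠ 0 := by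
      intro h0
      have e1 := congrArg (fun f => f.coeff i0) h0
      simp only [red, coeff_map, coeff_zero] at e1
      have e2 : R0.coeff i0 = 1 := by
        have e3 := congrArg (fun f => f.coeff i0) hR0
        simp only [toQ, coeff_map, coeff_C_mul] at e3
        rw [← ha, inv_mul_cancel₀ ha0] at e3
        exact (FaithfulSMul.algebraMap_injective ℤ_[p] ℚ_[p]) (by rw [e3, map_one])
      rw [e2, map_one] at e1
      exact one_ne_zero e1
    have hhred : (red p h).Monic := hh.map _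
    have hH0ne : red p H0 ≠ 0 := by
      intro h0
      rw [h0, mul_zero] at hredeq
      exact hR0ne (pow_eq_zero_iff (two_ne_zero)|>.1 (neg_eq_zero.1 hredeq.symm))
    have hdeg : d + (red p H0).natDegree = 2 * (red p R0).natDegree := by
      have e1 := congrArg natDegree hredeq
      rw [natDegree_mul hhred.ne_zero hH0ne, natDegree_neg, natDegree_pow,
        hh.natDegree_map, hd] at e1
      exact e1
    have hdegR : (red p R0).natDegree < d := by
      have e1 : (red p R0).natDegree ≤ R0.natDegree := natDegree_map_le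
      have e2 : (C a⁻¹ * r1).natDegree = r1.natDegree :=
        natDegree_C_mul (inv_ne_zero ha0)
      have e3 : r1.natDegree < (toQ h).natDegree := by
        refine natDegree_modByMonic_lt _ hhm ?_
        intro h1'
        have : r1 = 0 := by rw [hr1, h1', modByMonic_one]
        rw [this] at hne
        simp at hne
      rw [hh.natDegree_map, hd] at e3
      omega
    obtain ⟨v, H, G, hv, hH, e⟩ := split_poly p (toQ H0) (by
      intro h0
      apply hH0ne
      have : H0 = 0 := toQ_inj (by rw [h0]; simp)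
      rw [this]; simp)
    obtain ⟨v0, hv0, hv0Q, eH0⟩ := split_unit hv hH e hH0ne
    have hHdeg : H.natDegree < d := by
      have e1 : red p H0 = C (PadicInt.toZMod v0) * red p H := by
        rw [eH0, red, Polynomial.map_mul, Polynomial.map_mul, map_C, Polynomial.map_add,
          Polynomial.map_mul, Polynomial.map_one]
        have e5 := red_p p
        rw [red] at e5
        rw [e5, zero_mul, add_zero, mul_one]
      have e2 : PadicInt.toZMod v0 ≠ (0 : ZMod p) := by
        intro h0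
        rw [h0, C_0, zero_mul] at e1
        exact hH0ne e1
      have e3 : (red p H0).natDegree = H.natDegree := by
        rw [e1, natDegree_C_mul e2, hH.natDegree_map]
      omega
    -- the new factor
    have hHH0 : toQ H ∣ toQ H0 := ⟨C v * toQ (1 + C (p : ℤ_[p]) * G), by rw [e]; ring⟩
    have hR1co : IsCoprime (toQ R1) (toQ g) := by
      rw [hR1Q]
      have hu : IsUnit (C a⁻¹ : ℚ_[p][X]) := isUnit_C.2 (isUnit_iff_ne_zero.2 (inv_ne_zero ha0))
      exact (isCoprime_mul_unit_left_left hu _ _).2 ht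
    have hH0Q : toQ h * toQ H0 = toQ (C (b ^ 2 * c)) * toQ g - toQ R1 ^ 2 := by
      simp only [toQ, ← Polynomial.map_mul, ← hH0, Polynomial.map_sub, Polynomial.map_pow]
    have hH0co : IsCoprime (toQ H0) (toQ g) := by
      have h3 : IsCoprime (toQ h * toQ H0) (toQ g) := by
        have h4 : IsCoprime (-(toQ R1 ^ 2)) (toQ g) := (hR1co.pow_left).neg_left
        have h5 := h4.add_mul_right_left (toQ (C (b ^ 2 * c)))
        rw [hH0Q]
        have e : toQ (C (b ^ 2 * c)) * toQ g - toQ R1 ^ 2 =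
            -(toQ R1 ^ 2) + toQ (C (b ^ 2 * c)) * toQ g := by ring
        rw [e]
        exact h5
      exact h3.of_mul_left_right
    have hHco : IsCoprime (toQ H) (toQ g) := hH0co.of_isCoprime_of_dvd_left hHH0
    have hHdiv : toQ H ∣ toQ (C c * g) - r2 ^ 2 := by
      have hu : IsUnit (C (a⁻¹ ^ 2) : ℚ_[p][X]) :=
        isUnit_C.2 (isUnit_iff_ne_zero.2 (pow_ne_zero _ (inv_ne_zero ha0)))
      rw [← hu.dvd_mul_left, ← hQ1]
      have e : toQ (C (b ^ 2 * c) * g - R1 ^ 2) = toQ h * toQ H0 := by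
        simp only [toQ, ← Polynomial.map_mul, ← hH0]
      rw [e]
      exact hHH0.mul_left _
    have hGood : Good p n (toQ g) (toQ H) := ih _ hHdeg H r2 hH hHco hHdiv rfl
    obtain ⟨S, T, hS, hT⟩ := sq_root p hp g G hg
    have hSco : IsCoprime (toQ S) (toQ g) := by
      obtain ⟨q, hq⟩ := hT
      refine ⟨toQ T, -toQ q, ?_⟩
      have := congrArg toQ hq
      simp only [toQ, Polynomial.map_sub, Polynomial.map_mul, Polynomial.map_one] at this ⊢
      linear_combination this
    have hvnorm : ‖(-v : ℚ_[p])‖ = 1 := by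
      rw [norm_neg, ← hv0Q]
      exact PadicInt.isUnit_iff.1 hv0
    refine Good.congr hgm (by rw [hg.natDegree_map, hgn]) hGood (-v) hvnorm
      (toQ S * toQ R1) (toQ H0) (hSco.mul_left hR1co) hH0co ?_
    obtain ⟨q, hq⟩ := hS
    have hqQ : (1 + toQ (C (p : ℤ_[p])) * toQ G) - toQ S ^ 2 = toQ g * toQ q := by
      have := congrArg toQ hq
      simp only [toQ, Polynomial.map_sub, Polynomial.map_mul, Polynomial.map_one,
        Polynomial.map_add, Polynomial.map_pow] at this ⊢
      exact this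
    have eQ : toQ H0 = C v * toQ H * (1 + toQ (C (p : ℤ_[p])) * toQ G) := by
      rw [e, toQ_P]
    refine ⟨C v * toQ H * toQ q * toQ R1 ^ 2 - toQ (C (b ^ 2 * c)) * toQ H0, ?_⟩
    rw [C_neg]
    have k1 : toQ h * toQ H0 ^ 2 = (toQ (C (b ^ 2 * c)) * toQ g - toQ R1 ^ 2) * toQ H0 := by
      rw [← hH0Q]; ring
    have k2 : toQ H0 = C v * toQ H * (toQ S ^ 2 + toQ g * toQ q) := by
      rw [eQ, ← hqQ]; ring
    rw [k1]
    linear_combination (-(toQ R1 ^ 2)) * (k2) * (-1)

theorem core {n : ℕ} (hn : 1 ≤ n) (p : ℕ) [Fact p.Prime] (hp : p ≠ 2) (g : ℤ_[p][X])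
    (c : ℤ_[p]) (hc : IsUnit c) (hg : g.Monic) (hgn : g.natDegree = n) (h r w : ℚ_[p][X])
    (hh : h.Monic) (hco : IsCoprime h (toQ g)) (h1 : h ∣ toQ (C c * g) - r ^ 2)
    (h2 : h ∣ X - w ^ 2) : Good p n (toQ g) h := by
  obtain ⟨v, H, G, hv, hH, e⟩ := split_poly p h hh.ne_zero
  have hHh : toQ H ∣ h := ⟨C v * toQ (1 + C (p : ℤ_[p]) * G), by rw [e]; ring⟩
  have hGood : Good p n (toQ g) (toQ H) :=
    core_int hn p hp g c hc hg hgn H r hH (hco.of_isCoprime_of_dvd_left hHh) (hHh.trans h1)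
  obtain ⟨S, T, hS, hT⟩ := sq_root p hp g G hg
  have eP : toQ (1 + C (p : ℤ_[p]) * G) = 1 + C (p : ℚ_[p]) * toQ G := by
    have e1 : toQ (C (p : ℤ_[p])) = C (p : ℚ_[p]) := by
      rw [toQ, map_C]
      congr 1
    rw [toQ_P, e1]
  set V : ℚ_[p][X] := C v * toQ (1 + C (p : ℤ_[p]) * G) with hVdef
  have eV : h = toQ H * V := by rw [e, hVdef]; ring
  have hHm : (toQ H).Monic := hH.map _
  have hVm : V.Monic := hHm.of_mul_monic_left (eV ▸ hh)
  have hVw : V ∣ X - w ^ 2 := (Dvd.intro_left _ eV.symm).trans h2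
  obtain ⟨N, hN⟩ := Core.coeff_zero_sq V w hVm hVw
  obtain ⟨σ, hσ⟩ := Core.sqrt_one_add p hp (G.coeff 0)
  set τ : ℚ_[p] := (σ : ℚ_[p]) with hτ
  have hτ2 : τ ^ 2 = 1 + (p : ℚ_[p]) * (G.coeff 0 : ℚ_[p]) := by
    have := congrArg (fun z : ℤ_[p] => (z : ℚ_[p])) hσ
    simpa using this
  have hτ0 : τ ≠ 0 := by
    intro h0
    rw [h0] at hτ2
    have hlt : ‖(p : ℚ_[p]) * (G.coeff 0 : ℚ_[p])‖ < 1 := by
      rw [norm_mul]
      have h3 : ‖(p : ℚ_[p])‖ < 1 := Padic.norm_p_lt_one
      have h4 : ‖(G.coeff 0 : ℚ_[p])‖ ≤ 1 := PadicInt.norm_le_one _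
      calc ‖(p : ℚ_[p])‖ * ‖(G.coeff 0 : ℚ_[p])‖ ≤ ‖(p : ℚ_[p])‖ * 1 := by gcongr
        _ < 1 := by rw [mul_one]; exact h3
    have h5 : (p : ℚ_[p]) * (G.coeff 0 : ℚ_[p]) = -1 := by
      linear_combination -hτ2
    rw [h5, norm_neg, norm_one] at hlt
    exact lt_irrefl _ hlt
  have hV0 : V.coeff 0 = v * τ ^ 2 := by
    rw [hVdef, coeff_C_mul, eP, coeff_add, coeff_one_zero, coeff_C_mul, hτ2]
    simp only [toQ, coeff_map]
    rfl
  have hε2 : ((-1 : ℚ_[p]) ^ V.natDegree) * ((-1 : ℚ_[p]) ^ V.natDegree) = 1 := by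
    rw [← mul_pow]; simp
  have hvκ : v = (-1) ^ V.natDegree * (N / τ) ^ 2 := by
    rw [hV0] at hN
    rw [div_pow, mul_div_assoc', eq_div_iff (pow_ne_zero 2 hτ0)]
    exact hN
  have hκ0 : N / τ ≠ 0 := by
    intro h0
    rw [h0] at hvκ
    exact hv (by rw [hvκ]; ring)
  have hgm : (toQ g).Monic := hg.map _
  have hSco : IsCoprime (toQ S) (toQ g) := by
    obtain ⟨q, hq⟩ := hT
    refine ⟨toQ T, -toQ q, ?_⟩
    have := congrArg toQ hq
    simp only [toQ, Polynomial.map_sub, Polynomial.map_mul, Polynomial.map_one] at this ⊢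
    linear_combination this
  have hu : IsUnit (C (N / τ) : ℚ_[p][X]) := isUnit_C.2 (isUnit_iff_ne_zero.2 hκ0)
  refine Good.congr hgm (by rw [hg.natDegree_map, hgn]) hGood ((-1) ^ V.natDegree)
    (by rw [norm_pow, norm_neg, norm_one, one_pow])
    (C (N / τ) * toQ S) 1 ((isCoprime_mul_unit_left_left hu _ _).2 hSco) isCoprime_one_left ?_
  obtain ⟨q, hq⟩ := hS
  have hqQ : (1 + C (p : ℚ_[p]) * toQ G) - toQ S ^ 2 = toQ g * toQ q := by
    have h3 := congrArg toQ hq
    have e1 : toQ (1 + C (p : ℤ_[p]) * G - S ^ 2) = toQ (1 + C (p : ℤ_[p]) * G) - toQ S ^ 2 := by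
      rw [toQ, Polynomial.map_sub, Polynomial.map_pow]
    have e2 : toQ (g * q) = toQ g * toQ q := Polynomial.map_mul _
    rw [e1, eP, e2] at h3
    exact h3
  have eh : h = C v * toQ H * (1 + C (p : ℚ_[p]) * toQ G) := by rw [e, eP]
  have eC : C v = C ((-1) ^ V.natDegree) * C (N / τ) ^ 2 := by
    rw [← C_pow, ← C_mul, ← hvκ]
  refine ⟨-(C v * toQ H * toQ q), ?_⟩
  have k2 : h = C v * toQ H * (toQ S ^ 2 + toQ g * toQ q) := by
    rw [eh, ← hqQ]; ring
  rw [k2, eC]
  ring

end Stoll308.SC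
end

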