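import Pool.Agent.Work.BCM.C10
import Pool.Agent.Work.BCM.C12
import Pool.Agent.Work.BCM.C13
import Pool.Agent.Work.BCM.C14
import Pool.Agent.Work.BCM.C16
import Pool.Agent.Work.BCM.C19

section
set_option autoImplicit false

/-!
The Gauss norm.
-/

namespace Stoll308.DQ

open Polynomial Finset SC

theorem gauss_split (p : ℕ) [Fact p.Prime] (h : ℚ_[p][X]) (v : ℚ_[p]) (H G : ℤ_[p][X])
    (hH : H.Monic) (e : h = C v * toQ H * toQ (1 + C (p : ℤ_[p]) * G)) :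
    (∀ i, ‖h.coeff i‖ ≤ ‖v‖) ∧ ∃ i, ‖h.coeff i‖ = ‖v‖ := by
  have e1 : h = C v * toQ (H * (1 + C (p : ℤ_[p]) * G)) := by
    rw [e, slope_toQ_mul, mul_assoc]
  have hc : ∀ i, h.coeff i = v * (((H * (1 + C (p : ℤ_[p]) * G)).coeff i : ℤ_[p]) : ℚ_[p]) := by
    intro i
    rw [e1, coeff_C_mul, toQ, coeff_map]
    rfl
  constructor
  · intro i
    rw [hc, norm_mul]
    calc ‖v‖ * ‖(((H * (1 + C (p : ℤ_[p]) * G)).coeff i : ℤ_[p]) : ℚ_[p])‖ ≤ ‖v‖ * 1 :=
          mul_le_mul_of_nonneg_left (PadicInt.norm_le_one _) (norm_nonneg _)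
      _ = ‖v‖ := mul_one _
  · refine ⟨H.natDegree, ?_⟩
    have h1 : (H * (1 + C (p : ℤ_[p]) * G)).coeff H.natDegree =
        1 + (p : ℤ_[p]) * (H * G).coeff H.natDegree := by
      rw [show H * (1 + C (p : ℤ_[p]) * G) = H + C (p : ℤ_[p]) * (H * G) by ring, coeff_add,
        coeff_C_mul, hH.coeff_natDegree]
    have h2 : ‖(p : ℤ_[p]) * (H * G).coeff H.natDegree‖ < 1 := by
      rw [PadicInt.norm_lt_one_iff_dvd]
      exact Dvd.intro _ rfl
    have h3 : ‖(1 : ℤ_[p]) + (p : ℤ_[p]) * (H * G).coeff H.natDegree‖ = 1 := by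
      rw [PadicInt.norm_add_eq_max_of_ne (by rw [norm_one]; exact h2.ne'), norm_one]
      exact max_eq_left h2.le
    rw [hc, h1, norm_mul]
    have h4 : ‖(((1 : ℤ_[p]) + (p : ℤ_[p]) * (H * G).coeff H.natDegree : ℤ_[p]) : ℚ_[p])‖ = 1 := h3
    rw [h4, mul_one]

theorem Prim.ne_zero {p : ℕ} [Fact p.Prime] {h : ℚ_[p][X]} (hh : Prim p h) : h ≠ 0 := by
  rintro rfl
  obtain ⟨i, hi⟩ := hh.2
  rw [coeff_zero, norm_zero] at hi
  exact zero_ne_one hi

theorem Prim.split {p : ℕ} [Fact p.Prime] {h : ℚ_[p][X]} (hh : Prim p h) :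
    ∃ (v : ℚ_[p]) (H G : ℤ_[p][X]), ‖v‖ = 1 ∧ H.Monic ∧
      h = C v * toQ H * toQ (1 + C (p : ℤ_[p]) * G) := by
  obtain ⟨v, H, G, -, hH, e⟩ := split_poly p h hh.ne_zero
  obtain ⟨h1, j, h2⟩ := gauss_split p h v H G hH e
  obtain ⟨i, hi⟩ := hh.2
  refine ⟨v, H, G, le_antisymm ?_ ?_, hH, e⟩
  · rw [← h2]
    exact hh.1 j
  · rw [← hi]
    exact h1 i

theorem Prim.reflect {p : ℕ} [Fact p.Prime] {h : ℚ_[p][X]} (hh : Prim p h) (N : ℕ)
    (hN : h.natDegree ≤ N) : Prim p (h.reflect N) := by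
  constructor
  · intro i
    rw [coeff_reflect]
    exact hh.1 _
  · obtain ⟨i, hi⟩ := hh.2
    refine ⟨revAt N i, ?_⟩
    rw [coeff_reflect, revAt_invol]
    exact hi

theorem Prim.unit_mul {p : ℕ} [Fact p.Prime] {h : ℚ_[p][X]} (hh : Prim p h) (u : ℚ_[p])
    (hu : ‖u‖ = 1) : Prim p (C u * h) := by
  constructor
  · intro i
    rw [coeff_C_mul, norm_mul, hu, one_mul]
    exact hh.1 i
  · obtain ⟨i, hi⟩ := hh.2
    exact ⟨i, by rw [coeff_C_mul, norm_mul, hu, one_mul, hi]⟩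

theorem exists_prim (p : ℕ) [Fact p.Prime] (h : ℚ_[p][X]) (h0 : h ≠ 0) :
    ∃ k : ℤ, Prim p (C ((p : ℚ_[p]) ^ k) * h) := by
  obtain ⟨v, H, G, hv, hH, e⟩ := split_poly p h h0
  obtain ⟨h1, j, h2⟩ := gauss_split p h v H G hH e
  have hp : (0 : ℝ) < p := by exact_mod_cast (Fact.out : p.Prime).pos
  have hn : ‖(p : ℚ_[p]) ^ (-v.valuation)‖ * ‖v‖ = 1 := by
    rw [norm_zpow, Padic.norm_p, Padic.norm_eq_zpow_neg_valuation hv, inv_zpow', neg_neg,
      ← zpow_add₀ hp.ne', add_neg_cancel, zpow_zero]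
  refine ⟨-v.valuation, fun i => ?_, j, ?_⟩
  · rw [coeff_C_mul, norm_mul, ← hn]
    exact mul_le_mul_of_nonneg_left (h1 i) (norm_nonneg _)
  · rw [coeff_C_mul, norm_mul, h2, hn]

end Stoll308.DQ
end

section
set_option autoImplicit false

/-!
The self-dual lattice at a prime which does not divide `2 a₀`.
-/

namespace Stoll308.SC

open Polynomial Finset Matrix BG BF

lemma norm_int_eq_one {p : ℕ} [Fact p.Prime] {z : ℤ} (h : ¬ (p : ℤ) ∣ z) :
    ‖(z : ℚ_[p])‖ = 1 := by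
  refine le_antisymm (Padic.norm_int_le_one z) ?_
  by_contra h1
  exact h (Padic.norm_intCast_lt_one_iff.1 (not_le.1 h1))

/-- If `p` does not divide the leading coefficient, then the monic multiple is integral. -/
lemma exists_mon {n : ℕ} (p : ℕ) [Fact p.Prime] (a : Fin (n + 1) → ℤ) (h0 : ¬ (p : ℤ) ∣ a 0) :
    ∃ (g : ℤ_[p][X]) (c : ℤ_[p]), IsUnit c ∧ g.Monic ∧ g.natDegree = n ∧
      toQ g = mon ℚ_[p] a ∧ toQ (C c * g) = GZ ℚ_[p] a := by
  have h1 := norm_int_eq_one h0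
  have h2 : ((a 0 : ℤ) : ℚ_[p]) ≠ 0 := by
    intro h
    rw [h, norm_zero] at h1
    exact zero_ne_one h1
  have hm : (mon ℚ_[p] a).Monic := BF.LocLat.mon_monic a h2
  have hn : (mon ℚ_[p] a).natDegree = n := BF.LocLat.mon_natDegree a h2
  obtain ⟨g, hg, hgn, hgm⟩ := exists_toQ (mon ℚ_[p] a) (by
    intro i
    unfold mon
    rw [coeff_C_mul, norm_mul, norm_inv, h1, inv_one, one_mul]
    have h3 : GZ ℚ_[p] a = (GZ ℤ a).map (Int.castRingHom ℚ_[p]) := (BF.LocLat.GZ_map _ a).symm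
    rw [h3, coeff_map]
    exact Padic.norm_int_le_one _)
  refine ⟨g, ((a 0 : ℤ) : ℤ_[p]), ?_, hgm hm, by rw [hgn, hn], hg, ?_⟩
  · rw [PadicInt.isUnit_iff, PadicInt.norm_def]
    exact_mod_cast h1
  · rw [BF.LocLat.GZ_eq a h2, ← hg]
    unfold toQ
    rw [Polynomial.map_mul, map_C, map_intCast]

theorem good_unit {n : ℕ} (hn : 2 ≤ n) (p : ℕ) [Fact p.Prime] (hp : p ≠ 2) (a : Fin (n + 1) → ℤ)
    (h0 : ¬ (p : ℤ) ∣ a 0) (δ : ℚ_[p][X]) (hloc : OLoc (GZ ℚ_[p] a) δ) :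
    Good p n (mon ℚ_[p] a) δ := by
  obtain ⟨⟨h, r, w, s, hh, -, hco, hsco, h1, h2, h3⟩, -⟩ := hloc
  obtain ⟨g, c, hc, hg, hgn, hgm, hgf⟩ := exists_mon p a h0
  have hz : ((a 0 : ℤ) : ℚ_[p]) ≠ 0 := by
    intro h
    have h1 := norm_int_eq_one h0
    rw [h, norm_zero] at h1
    exact zero_ne_one h1
  have hdvd : mon ℚ_[p] a ∣ GZ ℚ_[p] a := Dvd.intro_left _ (BF.LocLat.GZ_eq a hz).symm
  have hco' : IsCoprime h (mon ℚ_[p] a) := hco.of_isCoprime_of_dvd_right hdvd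
  have hsco' : IsCoprime s (mon ℚ_[p] a) := hsco.of_isCoprime_of_dvd_right hdvd
  rw [← hgf] at h1
  have hG : Good p n (mon ℚ_[p] a) h := by
    rw [← hgm] at hco' ⊢
    exact core (by omega) p hp g c hc hg hgn h r w hh hco' h1 h2
  refine hG.congr (BF.LocLat.mon_monic a hz) (BF.LocLat.mon_natDegree a hz) (-1) (by simp) 1 s
    isCoprime_one_left hsco' ?_
  have e : C (-1) * h * 1 ^ 2 - δ * s ^ 2 = -(h + δ * s ^ 2) := by
    rw [C_neg, C_1]
    ring
  rw [e]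
  exact (hdvd.trans h3).neg_right

end Stoll308.SC
end

section
set_option autoImplicit false

/-!
The self-dual lattice at a prime which does not divide `2 a₀`.
-/

namespace Stoll308.DQ

open Polynomial Finset Matrix BG BF SC

/-- The class of a primitive polynomial `h` modulo which `c g` is a square. -/
theorem good_of_prim {n : ℕ} (hn : 1 ≤ n) (p : ℕ) [Fact p.Prime] (hp : p ≠ 2) (g : ℤ_[p][X])
    (c : ℤ_[p]) (hc : IsUnit c) (hg : g.Monic) (hgn : g.natDegree = n) (h r : ℚ_[p][X])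
    (hh : Prim p h) (hco : IsCoprime h (toQ g)) (h1 : h ∣ toQ (C c * g) - r ^ 2)
    (δ s₁ s₂ : ℚ_[p][X]) (hs₁ : IsCoprime s₁ (toQ g)) (hs₂ : IsCoprime s₂ (toQ g))
    (e : toQ g ∣ h * s₁ ^ 2 - δ * s₂ ^ 2) : Good p n (toQ g) δ := by
  obtain ⟨v, H, G, hv, hH, eh⟩ := hh.split
  have hHh : toQ H ∣ h := ⟨C v * toQ (1 + C (p : ℤ_[p]) * G), by rw [eh]; ring⟩
  have hGood : Good p n (toQ g) (toQ H) :=
    core_int hn p hp g c hc hg hgn H r hH (hco.of_isCoprime_of_dvd_left hHh) (hHh.trans h1)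
  obtain ⟨S, T, ⟨q, hq⟩, ⟨q', hq'⟩⟩ := sq_root p hp g G hg
  have hS : toQ (1 + C (p : ℤ_[p]) * G) - toQ S ^ 2 = toQ g * toQ q := by
    have h3 := congrArg toQ hq
    rwa [toQ, Polynomial.map_sub, Polynomial.map_pow, toQ, Polynomial.map_mul] at h3
  have hSco : IsCoprime (toQ S) (toQ g) := by
    refine ⟨toQ T, -toQ q', ?_⟩
    have h3 := congrArg toQ hq'
    rw [toQ, Polynomial.map_sub, Polynomial.map_mul, Polynomial.map_one, toQ,
      Polynomial.map_mul] at h3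
    linear_combination h3
  refine hGood.congr (hg.map _) (by rw [hg.natDegree_map, hgn]) v hv (toQ S * s₁) s₂
    (hSco.mul_left hs₁) hs₂ ?_
  obtain ⟨d, hd⟩ := e
  refine ⟨d - C v * toQ H * s₁ ^ 2 * toQ q, ?_⟩
  linear_combination hd - s₁ ^ 2 * (C v * toQ H * hS) - s₁ ^ 2 * eh

theorem good_unit {n : ℕ} (hn : 2 ≤ n) (p : ℕ) [Fact p.Prime] (hp : p ≠ 2) (a : Fin (n + 1) → ℤ)
    (h0 : ¬ (p : ℤ) ∣ a 0) (δ h : ℚ_[p][X]) (hh : Prim p h) (hc : Cls (GZ ℚ_[p] a) δ h) :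
    Good p n (mon ℚ_[p] a) δ := by
  obtain ⟨-, hco, ⟨r, hr⟩, s, hs, e⟩ := hc
  obtain ⟨g, c, hc, hg, hgn, hgm, hgf⟩ := exists_mon p a h0
  have hz : ((a 0 : ℤ) : ℚ_[p]) ≠ 0 := by
    intro h
    have h1 := norm_int_eq_one h0
    rw [h, norm_zero] at h1
    exact zero_ne_one h1
  have hdvd : mon ℚ_[p] a ∣ GZ ℚ_[p] a := Dvd.intro_left _ (BF.LocLat.GZ_eq a hz).symm
  have hco' := hco.of_isCoprime_of_dvd_right hdvd
  have hs' := hs.of_isCoprime_of_dvd_right hdvd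
  have e' := hdvd.trans e
  rw [← hgf] at hr
  rw [← hgm] at hco' hs' e' ⊢
  refine good_of_prim (by omega) p hp g c hc hg hgn h r hh hco' hr δ 1 s isCoprime_one_left hs' ?_
  rwa [one_pow, mul_one]

end Stoll308.DQ
end

section
set_option autoImplicit false

/-!
A lattice which is integral for all forms, of bounded determinant.
-/

namespace Stoll308.SC

open Polynomial Finset Matrix BG BF

namespace MaxLat

open SelfDual

variable {p : ℕ} [Fact p.Prime] {n : ℕ}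

/-- stability under the multiplication by `θ` -/
def Stab (g : ℚ_[p][X]) (N : Submodule ℤ_[p] (Fin n → ℚ_[p])) : Prop :=
  ∀ v ∈ N, ∀ w : Fin n → ℚ_[p], g ∣ P w - X * P v → w ∈ N

/-- integrality for the form -/
def Integ (S : Matrix (Fin n) (Fin n) ℚ_[p]) (N : Submodule ℤ_[p] (Fin n → ℚ_[p])) : Prop :=
  ∀ v ∈ N, ∀ u ∈ N, ‖v ⬝ᵥ (S *ᵥ u)‖ ≤ 1

lemma norm_add_le_of {a b : ℚ_[p]} {c : ℝ} (ha : ‖a‖ ≤ c) (hb : ‖b‖ ≤ c) : ‖a + b‖ ≤ c :=
  (Padic.nonarchimedean a b).trans (max_le ha hb)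

lemma norm_smul_le_of (z : ℤ_[p]) {a : ℚ_[p]} {c : ℝ} (ha : ‖a‖ ≤ c) :
    ‖(algebraMap ℤ_[p] ℚ_[p] z) * a‖ ≤ c := by
  rw [norm_mul]
  have h1 : ‖(algebraMap ℤ_[p] ℚ_[p] z)‖ ≤ 1 := PadicInt.norm_le_one z
  calc ‖(algebraMap ℤ_[p] ℚ_[p] z)‖ * ‖a‖ ≤ 1 * ‖a‖ := by gcongr
    _ ≤ c := by rw [one_mul]; exact ha

/-- the dual lattice -/
def dual (S : Matrix (Fin n) (Fin n) ℚ_[p]) (N : Submodule ℤ_[p] (Fin n → ℚ_[p])) :
    Submodule ℤ_[p] (Fin n → ℚ_[p]) where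
  carrier := {v | ∀ u ∈ N, ‖v ⬝ᵥ (S *ᵥ u)‖ ≤ 1}
  add_mem' := by
    intro v w hv hw u hu
    rw [add_dotProduct]
    exact norm_add_le_of (hv u hu) (hw u hu)
  zero_mem' := by
    intro u _
    rw [zero_dotProduct, norm_zero]
    exact zero_le_one
  smul_mem' := by
    intro z v hv u hu
    have h1 : (z • v) ⬝ᵥ (S *ᵥ u) = (algebraMap ℤ_[p] ℚ_[p] z) * (v ⬝ᵥ (S *ᵥ u)) := by
      rw [smul_dotProduct, Algebra.smul_def]
    rw [h1]
    exact norm_smul_le_of z (hv u hu)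

/-- the ball of radius `r` -/
def ball (p : ℕ) [Fact p.Prime] (n : ℕ) (r : ℝ) (hr : 0 ≤ r) :
    Submodule ℤ_[p] (Fin n → ℚ_[p]) where
  carrier := {v | ∀ i, ‖v i‖ ≤ r}
  add_mem' := by
    intro v w hv hw i
    exact norm_add_le_of (hv i) (hw i)
  zero_mem' := by
    intro i
    rw [Pi.zero_apply, norm_zero]
    exact hr
  smul_mem' := by
    intro z v hv i
    rw [Pi.smul_apply, Algebra.smul_def]
    exact norm_smul_le_of z (hv i)

lemma P_smul (c : ℚ_[p]) (v : Fin n → ℚ_[p]) : P (c • v) = C c * P v := by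
  rw [P, P, Finset.mul_sum]
  refine Finset.sum_congr rfl fun i _ => ?_
  rw [Pi.smul_apply, smul_eq_mul, C_mul, mul_assoc]

lemma P_add (v u : Fin n → ℚ_[p]) : P (v + u) = P v + P u := by
  simp only [P, Pi.add_apply, C_add, add_mul, Finset.sum_add_distrib]

lemma exists_int (v : Fin n → ℚ_[p]) (hv : ∀ i, ‖v i‖ ≤ 1) :
    ∃ z : Fin n → ℤ_[p], P v = toQ (P z) := by
  have : ∀ i, ∃ z : ℤ_[p], v i = algebraMap ℤ_[p] ℚ_[p] z := fun i => ⟨⟨v i, hv i⟩, rfl⟩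
  choose z hz using this
  refine ⟨z, ?_⟩
  rw [P, P, toQ, Polynomial.map_sum]
  refine Finset.sum_congr rfl fun i _ => ?_
  rw [Polynomial.map_mul, Polynomial.map_pow, map_X, map_C, ← hz i]

lemma ball_stab (g : ℤ_[p][X]) (hg : g.Monic) (hgn : g.natDegree = n) (c : ℚ_[p]) (hc : c ≠ 0) :
    Stab (toQ g) (ball p n ‖c‖ (norm_nonneg c)) := by
  have hG : (toQ g).Monic := hg.map _
  have hGn : (toQ g).natDegree = n := by rw [hg.natDegree_map, hgn]
  intro v hv w hw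
  have hc0 : 0 < ‖c‖ := norm_pos_iff.2 hc
  obtain ⟨z, hz⟩ := exists_int (c⁻¹ • v) (fun i => by
    rw [Pi.smul_apply, smul_eq_mul, norm_mul, norm_inv]
    rw [inv_mul_le_iff₀ hc0, mul_one]
    exact hv i)
  have hPv : P v = C c * toQ (P z) := by
    rw [← hz, P_smul, ← mul_assoc, ← C_mul, mul_inv_cancel₀ hc, C_1, one_mul]
  intro i
  rw [← P_coeff w i, P_mod (toQ g) hG hGn w _ hw, hPv]
  have e1 : X * (C c * toQ (P z)) = c • toQ (X * P z) := by
    rw [smul_eq_C_mul, toQ, toQ, Polynomial.map_mul, map_X]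
    ring
  rw [e1, smul_modByMonic, coeff_smul, smul_eq_mul, norm_mul]
  have h2 := coeff_int g (X * P z) hg (i : ℕ)
  calc ‖c‖ * ‖((toQ (X * P z)) %ₘ (toQ g)).coeff i‖ ≤ ‖c‖ * 1 := by gcongr
    _ = ‖c‖ := mul_one _

lemma stab_pow {g : ℚ_[p][X]} (hg : g.Monic) (hgn : g.natDegree = n)
    {N : Submodule ℤ_[p] (Fin n → ℚ_[p])} (h : Stab g N) (k : ℕ) :
    ∀ v ∈ N, ∃ w ∈ N, g ∣ P w - X ^ k * P v := by
  induction k with
  | zero =>
    intro v hv
    exact ⟨v, hv, by rw [pow_zero, one_mul, sub_self]; exact dvd_zero _⟩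
  | succ k ih =>
    intro v hv
    obtain ⟨w, hw, h1⟩ := ih v hv
    obtain ⟨w', hw'⟩ := exists_vec (n := n) g hg hgn (X * P w)
    refine ⟨w', h w hw w' hw', ?_⟩
    have h2 := dvd_add hw' (Dvd.dvd.mul_left h1 X)
    convert h2 using 1
    ring

lemma dual_stab {g δ : ℚ_[p][X]} (hg : g.Monic) (hgn : g.natDegree = n)
    {N : Submodule ℤ_[p] (Fin n → ℚ_[p])} (h : Stab g N) : Stab g (dual (Hank n g δ) N) := by
  intro v hv w hw u hu
  obtain ⟨u', hu'⟩ := exists_vec (n := n) g hg hgn (X * P u)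
  have h1 := hv u' (h u hu u' hu')
  rw [dot] at h1 ⊢
  have h2 : HankL.tau n g (δ * P w * P u) = HankL.tau n g (δ * P v * P u') := by
    apply tau_congr _ _ _ hg
    obtain ⟨s, hs⟩ := hw
    obtain ⟨t, ht⟩ := hu'
    refine ⟨δ * (s * P u) - δ * P v * t, ?_⟩
    linear_combination δ * P u * hs - δ * P v * ht
  rw [h2]
  exact h1

lemma sup_stab {g : ℚ_[p][X]} (hg : g.Monic) (hgn : g.natDegree = n)
    {N N' : Submodule ℤ_[p] (Fin n → ℚ_[p])} (h : Stab g N) (h' : Stab g N') :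
    Stab g (N ⊔ N') := by
  intro v hv w hw
  obtain ⟨a, ha, b, hb, rfl⟩ := Submodule.mem_sup.1 hv
  obtain ⟨a', ha'⟩ := exists_vec (n := n) g hg hgn (X * P a)
  have h1 : g ∣ P (w - a') - X * P b := by
    have e : P (w - a') = P w - P a' := by
      simp only [P, Pi.sub_apply, C_sub, sub_mul, Finset.sum_sub_distrib]
    rw [P_add] at hw
    have := dvd_sub hw ha'
    rw [e]
    convert this using 1
    ring
  rw [show w = a' + (w - a') by abel]
  exact Submodule.add_mem_sup (h a ha a' ha') (h' b hb _ h1)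

/-- the multiples by a constant -/
lemma smul_stab {g : ℚ_[p][X]} (hg : g.Monic) (hgn : g.natDegree = n)
    {N : Submodule ℤ_[p] (Fin n → ℚ_[p])} (h : Stab g N) (z : ℤ_[p]) :
    Stab g (N.map (LinearMap.lsmul ℤ_[p] (Fin n → ℚ_[p]) z)) := by
  intro v hv w hw
  obtain ⟨a, ha, rfl⟩ := Submodule.mem_map.1 hv
  obtain ⟨a', ha'⟩ := exists_vec (n := n) g hg hgn (X * P a)
  refine Submodule.mem_map.2 ⟨a', h a ha a' ha', ?_⟩
  have e0 : ∀ u : Fin n → ℚ_[p], (LinearMap.lsmul ℤ_[p] (Fin n → ℚ_[p]) z) u =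
      (algebraMap ℤ_[p] ℚ_[p] z) • u := by
    intro u
    rw [LinearMap.lsmul_apply]
    ext i
    rw [Pi.smul_apply, Pi.smul_apply, Algebra.smul_def, smul_eq_mul]
  rw [e0] at hw ⊢
  rw [P_smul] at hw
  -- both have the same residue
  have h1 : g ∣ P w - C (algebraMap ℤ_[p] ℚ_[p] z) * P a' := by
    have := dvd_sub hw (Dvd.dvd.mul_left ha' (C (algebraMap ℤ_[p] ℚ_[p] z)))
    convert this using 1
    ring
  rw [← P_smul] at h1
  have h2 : P w = P ((algebraMap ℤ_[p] ℚ_[p] z) • a') := by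
    rw [P_mod g hg hgn w _ h1, modByMonic_eq_self_iff hg]
    rw [degree_eq_natDegree hg.ne_zero, hgn]
    exact P_degree _
  ext i
  rw [← P_coeff w i, h2, P_coeff]

/-- the dual of a ball is bounded -/
lemma dual_bdd (S : Matrix (Fin n) (Fin n) ℚ_[p]) (hS : S.det ≠ 0) (c : ℚ_[p]) (hc : c ≠ 0) :
    ∃ M : ℝ, 0 ≤ M ∧ ∀ v ∈ dual S (ball p n ‖c‖ (norm_nonneg c)), ∀ i, ‖v i‖ ≤ M := by
  have hc0 : 0 < ‖c‖ := norm_pos_iff.2 hc
  refine ⟨∑ i, ∑ j, ‖c‖⁻¹ * ‖S⁻¹ j i‖, by positivity, ?_⟩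
  intro v hv i
  have h1 : ∀ j, ‖(v ᵥ* S) j‖ ≤ ‖c‖⁻¹ := by
    intro j
    have h2 := hv (c • Pi.single j 1) (by
      intro i'
      rw [Pi.smul_apply, smul_eq_mul, norm_mul]
      by_cases h : i' = j
      · rw [h, Pi.single_eq_same, norm_one, mul_one]
      · rw [Pi.single_eq_of_ne h, norm_zero, mul_zero]
        exact norm_nonneg _)
    rw [mulVec_smul, dotProduct_smul, dotProduct_mulVec, dotProduct_single_one, smul_eq_mul,
      norm_mul] at h2
    rw [inv_eq_one_div, le_div_iff₀ hc0]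
    linarith
  have h3 : v = (v ᵥ* S) ᵥ* S⁻¹ := by
    rw [vecMul_vecMul, mul_nonsing_inv _ (isUnit_iff_ne_zero.2 hS), vecMul_one]
  have h4 : ‖v i‖ ≤ ∑ j, ‖c‖⁻¹ * ‖S⁻¹ j i‖ := by
    rw [h3, vecMul, dotProduct]
    refine (norm_sum_le _ _).trans (Finset.sum_le_sum fun j _ => ?_)
    rw [norm_mul]
    exact mul_le_mul_of_nonneg_right (h1 j) (norm_nonneg _)
  exact h4.trans (Finset.single_le_sum (f := fun i => ∑ j, ‖c‖⁻¹ * ‖S⁻¹ j i‖)
    (fun i _ => by positivity) (Finset.mem_univ i))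

/-- a small power of `p` -/
lemma exists_pow_small (p : ℕ) [hp : Fact p.Prime] (M r : ℝ) (hM : 0 ≤ M) (hr : 0 < r) :
    ∃ K : ℕ, ‖(p : ℚ_[p]) ^ K‖ * M ≤ r := by
  have hlt : ‖(p : ℚ_[p])‖ < 1 := Padic.norm_p_lt_one
  obtain ⟨K, hK⟩ := exists_pow_lt_of_lt_one (show 0 < r / (M + 1) by positivity) hlt
  refine ⟨K, ?_⟩
  rw [norm_pow]
  rw [lt_div_iff₀ (by positivity)] at hK
  have : ‖(p : ℚ_[p])‖ ^ K * M ≤ ‖(p : ℚ_[p])‖ ^ K * (M + 1) := by gcongr; linarith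
  linarith

/-- a ball on which the form is integral -/
lemma ball_integ (S : Matrix (Fin n) (Fin n) ℚ_[p]) :
    ∃ c : ℚ_[p], c ≠ 0 ∧ Integ S (ball p n ‖c‖ (norm_nonneg c)) := by
  have hp0 : (p : ℚ_[p]) ≠ 0 := by
    exact_mod_cast (Fact.out : p.Prime).ne_zero
  obtain ⟨K, hK⟩ := exists_pow_small p (∑ i, ∑ j, ‖S i j‖) 1 (by positivity) one_pos
  refine ⟨(p : ℚ_[p]) ^ K, pow_ne_zero _ hp0, ?_⟩
  intro v hv u hu
  set c : ℚ_[p] := (p : ℚ_[p]) ^ K with hc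
  have hc1 : ‖c‖ ≤ 1 := by
    rw [hc, norm_pow]
    exact pow_le_one₀ (norm_nonneg _) Padic.norm_p_lt_one.le
  rw [dotProduct]
  refine (norm_sum_le _ _).trans ?_
  have h1 : ∀ i, ‖v i * (S *ᵥ u) i‖ ≤ ‖c‖ * ∑ j, ‖S i j‖ := by
    intro i
    rw [norm_mul, mulVec, dotProduct]
    have h2 : ‖∑ j, S i j * u j‖ ≤ ∑ j, ‖S i j‖ := by
      refine (norm_sum_le _ _).trans (Finset.sum_le_sum fun j _ => ?_)
      rw [norm_mul]
      calc ‖S i j‖ * ‖u j‖ ≤ ‖S i j‖ * 1 := by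
            gcongr
            exact (hu j).trans hc1
        _ = _ := mul_one _
    exact mul_le_mul (hv i) h2 (norm_nonneg _) (norm_nonneg _)
  calc ∑ i, ‖v i * (S *ᵥ u) i‖ ≤ ∑ i, ‖c‖ * ∑ j, ‖S i j‖ := Finset.sum_le_sum fun i _ => h1 i
    _ = ‖c‖ * ∑ i, ∑ j, ‖S i j‖ := by rw [Finset.mul_sum]
    _ ≤ 1 := hK

lemma integ_symm (S : Matrix (Fin n) (Fin n) ℚ_[p]) (hS : S.IsSymm) (v u : Fin n → ℚ_[p]) :
    v ⬝ᵥ (S *ᵥ u) = u ⬝ᵥ (S *ᵥ v) := by
  rw [dotProduct_mulVec, ← mulVec_transpose, hS.eq, dotProduct_comm]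

/-- the main argument -/
lemma exists_max (g : ℤ_[p][X]) (hg : g.Monic) (hgn : g.natDegree = n) (δ : ℚ_[p][X])
    (hδ : IsCoprime δ (toQ g)) :
    ∃ (N : Submodule ℤ_[p] (Fin n → ℚ_[p])) (c : ℚ_[p]), c ≠ 0 ∧
      ball p n ‖c‖ (norm_nonneg c) ≤ N ∧ Stab (toQ g) N ∧ Integ (Hank n (toQ g) δ) N ∧
      ∀ v ∈ dual (Hank n (toQ g) δ) N, (p : ℚ_[p]) • v ∈ N := by
  have hG : (toQ g).Monic := hg.map _
  have hGn : (toQ g).natDegree = n := by rw [hg.natDegree_map, hgn]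
  set S := Hank n (toQ g) δ with hS
  have hSdet : S.det ≠ 0 := hank_det_ne_zero _ _ hG hGn hδ
  have hsymm : S.IsSymm := hank_isSymm _ _
  obtain ⟨c, hc, hcI⟩ := ball_integ S
  set B := ball p n ‖c‖ (norm_nonneg c) with hB
  have hc0 : 0 < ‖c‖ := norm_pos_iff.2 hc
  obtain ⟨N, hBN, hmax⟩ := zorn_le_nonempty₀
    {N : Submodule ℤ_[p] (Fin n → ℚ_[p]) | B ≤ N ∧ Stab (toQ g) N ∧ Integ S N} (by
      intro ch hch hchain y hy
      have hne : ch.Nonempty := ⟨y, hy⟩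
      have hdir : DirectedOn (· ≤ ·) ch := hchain.directedOn
      refine ⟨sSup ch, ⟨?_, ?_, ?_⟩, fun z hz => le_sSup hz⟩
      · exact (hch hy).1.trans (le_sSup hy)
      · intro v hv w hw
        obtain ⟨N, hN, hvN⟩ := (Submodule.mem_sSup_of_directed hne hdir).1 hv
        exact (Submodule.mem_sSup_of_directed hne hdir).2 ⟨N, hN, (hch hN).2.1 v hvN w hw⟩
      · intro v hv u hu
        obtain ⟨N, hN, hvN⟩ := (Submodule.mem_sSup_of_directed hne hdir).1 hv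
        obtain ⟨N', hN', huN⟩ := (Submodule.mem_sSup_of_directed hne hdir).1 hu
        obtain ⟨N'', hN'', h1, h2⟩ := hdir N hN N' hN'
        exact (hch hN'').2.2 v (h1 hvN) u (h2 huN)) B
      ⟨le_rfl, ball_stab g hg hgn c hc, hcI⟩
  obtain ⟨hN1, hN2⟩ := hmax
  obtain ⟨-, hstab, hint⟩ := hN1
  refine ⟨N, c, hc, hBN, hstab, hint, ?_⟩
  -- a power of `p` maps the dual into `N`
  obtain ⟨M, hM0, hM⟩ := dual_bdd S hSdet c hc
  obtain ⟨K, hK⟩ := exists_pow_small p M ‖c‖ hM0 hc0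
  have hdualB : ∀ v ∈ dual S N, v ∈ dual S B := fun v hv u hu => hv u (hBN hu)
  have hex : ∃ k : ℕ, ∀ v ∈ dual S N, (p : ℚ_[p]) ^ k • v ∈ N := by
    refine ⟨K, fun v hv => hBN ?_⟩
    intro i
    rw [Pi.smul_apply, smul_eq_mul, norm_mul]
    calc ‖(p : ℚ_[p]) ^ K‖ * ‖v i‖ ≤ ‖(p : ℚ_[p]) ^ K‖ * M := by
          gcongr
          exact hM v (hdualB v hv) i
      _ ≤ ‖c‖ := hK
  classical
  set k := Nat.find hex with hk
  have hkspec : ∀ v ∈ dual S N, (p : ℚ_[p]) ^ k • v ∈ N := Nat.find_spec hex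
  have hcoe : ∀ (j : ℕ) (v : Fin n → ℚ_[p]), (p : ℚ_[p]) ^ j • v = ((p : ℤ_[p]) ^ j) • v := by
    intro j v
    ext i
    rw [Pi.smul_apply, Pi.smul_apply, smul_eq_mul, Algebra.smul_def, map_pow, map_natCast]
  have hk1 : k ≤ 1 := by
    by_contra hcon
    push Not at hcon
    -- the bigger lattice
    set N' := N ⊔ (dual S N).map (LinearMap.lsmul ℤ_[p] (Fin n → ℚ_[p]) ((p : ℤ_[p]) ^ (k - 1)))
      with hN'
    have hst : Stab (toQ g) N' :=
      sup_stab hG hGn hstab (smul_stab hG hGn (dual_stab hG hGn hstab) _)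
    have hin : Integ S N' := by
      intro v hv u hu
      obtain ⟨a, ha, b, hb, rfl⟩ := Submodule.mem_sup.1 hv
      obtain ⟨a', ha', b', hb', rfl⟩ := Submodule.mem_sup.1 hu
      obtain ⟨x, hx, rfl⟩ := Submodule.mem_map.1 hb
      obtain ⟨x', hx', rfl⟩ := Submodule.mem_map.1 hb'
      rw [LinearMap.lsmul_apply, LinearMap.lsmul_apply, ← hcoe, ← hcoe]
      set P1 : ℚ_[p] := (p : ℚ_[p]) ^ (k - 1) with hP1
      have hP1n : ‖P1‖ ≤ 1 := by
        rw [hP1, norm_pow]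
        exact pow_le_one₀ (norm_nonneg _) Padic.norm_p_lt_one.le
      have e1 : (a + P1 • x) ⬝ᵥ (S *ᵥ (a' + P1 • x')) =
          a ⬝ᵥ (S *ᵥ a') + P1 * (x' ⬝ᵥ (S *ᵥ a)) + (P1 * (x ⬝ᵥ (S *ᵥ a')) +
            P1 * (P1 * (x ⬝ᵥ (S *ᵥ x')))) := by
        rw [mulVec_add, mulVec_smul, add_dotProduct, dotProduct_add, dotProduct_add,
          dotProduct_smul, smul_dotProduct, smul_dotProduct, dotProduct_smul,
          integ_symm S hsymm a x']
        simp only [smul_eq_mul]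
      rw [e1]
      have t1 : ‖P1 * (x' ⬝ᵥ (S *ᵥ a))‖ ≤ 1 := by
        rw [norm_mul]
        exact mul_le_one₀ hP1n (norm_nonneg _) (hx' a ha)
      have t2 : ‖P1 * (x ⬝ᵥ (S *ᵥ a'))‖ ≤ 1 := by
        rw [norm_mul]
        exact mul_le_one₀ hP1n (norm_nonneg _) (hx a' ha')
      have t3 : ‖P1 * (P1 * (x ⬝ᵥ (S *ᵥ x')))‖ ≤ 1 := by
        -- `p^(k-1) p^(k-1) = p^(k-2) p^k`
        have h1 : P1 * (P1 * (x ⬝ᵥ (S *ᵥ x'))) =
            (p : ℚ_[p]) ^ (k - 2) * (x ⬝ᵥ (S *ᵥ ((p : ℚ_[p]) ^ k • x'))) := by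
          rw [mulVec_smul, dotProduct_smul, smul_eq_mul, hP1, ← mul_assoc, ← mul_assoc,
            ← pow_add, ← pow_add]
          congr 2
          omega
        rw [h1, norm_mul, norm_pow]
        exact mul_le_one₀ (pow_le_one₀ (norm_nonneg _) Padic.norm_p_lt_one.le)
          (norm_nonneg _) (hx _ (hkspec x' hx'))
      exact norm_add_le_of (norm_add_le_of (hint a ha a' ha') t1) (norm_add_le_of t2 t3)
    have hle : N' ≤ N := hN2 ⟨hBN.trans le_sup_left, hst, hin⟩ le_sup_left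
    have hbad : ∀ v ∈ dual S N, (p : ℚ_[p]) ^ (k - 1) • v ∈ N := by
      intro v hv
      apply hle
      refine Submodule.mem_sup_right (Submodule.mem_map.2 ⟨v, hv, ?_⟩)
      rw [LinearMap.lsmul_apply, hcoe]
    exact Nat.find_min hex (show k - 1 < k by omega) hbad
  intro v hv
  have h1 := hkspec v hv
  rcases Nat.le_one_iff_eq_zero_or_eq_one.1 hk1 with h | h
  · rw [h, pow_zero, one_smul] at h1
    have h2 := N.smul_mem (p : ℤ_[p]) h1
    have h3 := hcoe 1 v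
    rw [pow_one, pow_one] at h3
    rwa [h3]
  · rw [h, pow_one] at h1
    exact h1

end MaxLat

theorem max_lattice {n : ℕ} (hn : 1 ≤ n) (p : ℕ) [Fact p.Prime] (g : ℤ_[p][X]) (hg : g.Monic)
    (hgn : g.natDegree = n) (δ : ℚ_[p][X]) (hδ : IsCoprime δ (toQ g)) :
    ∃ G : Matrix (Fin n) (Fin n) ℚ_[p], G.det ≠ 0 ∧
      (∀ (k : ℕ) (i j : Fin n), ‖(G * Hank n (toQ g) (X ^ k * δ) * Gᵀ) i j‖ ≤ 1) ∧
      ((p : ℝ) ^ n)⁻¹ ≤ ‖(G * Hank n (toQ g) δ * Gᵀ).det‖ := by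
  have hG' : (toQ g).Monic := hg.map _
  have hGn : (toQ g).natDegree = n := by rw [hg.natDegree_map, hgn]
  have hSdet : (Hank n (toQ g) δ).det ≠ 0 := hank_det_ne_zero _ _ hG' hGn hδ
  obtain ⟨N, c, hc, hB, hstab, hint, hdual⟩ := MaxLat.exists_max g hg hgn δ hδ
  obtain ⟨M, -, hM⟩ := MaxLat.dual_bdd (Hank n (toQ g) δ) hSdet c hc
  obtain ⟨G, hG, hGN⟩ := exists_basis p N (by
    refine ⟨c, hc, fun v hv => hB ?_⟩
    intro i
    rw [Pi.smul_apply, smul_eq_mul, norm_mul]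
    calc ‖c‖ * ‖v i‖ ≤ ‖c‖ * 1 := by gcongr; exact hv i
      _ = ‖c‖ := mul_one _) (by
    refine ⟨M, fun v hv i => hM v ?_ i⟩
    intro u hu
    exact hint v hv u (hB hu))
  refine ⟨G, hG, ?_, ?_⟩
  · intro k i j
    have hrow : ∀ i, G i ∈ N := by
      intro i
      rw [hGN]
      refine ⟨Pi.single i 1, ?_, SelfDual.row_eq G i⟩
      intro j
      by_cases hij : j = i
      · rw [hij, Pi.single_eq_same, norm_one]
      · rw [Pi.single_eq_of_ne hij, norm_zero]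
        exact zero_le_one
    rw [SelfDual.conj_apply, SelfDual.dot]
    obtain ⟨w, hw, hw'⟩ := MaxLat.stab_pow hG' hGn hstab k (G i) (hrow i)
    have h1 := hint w hw (G j) (hrow j)
    rw [SelfDual.dot] at h1
    have h2 : HankL.tau n (toQ g) (X ^ k * δ * SelfDual.P (G i) * SelfDual.P (G j)) =
        HankL.tau n (toQ g) (δ * SelfDual.P w * SelfDual.P (G j)) := by
      apply SelfDual.tau_congr _ _ _ hG'
      obtain ⟨s, hs⟩ := hw'
      refine ⟨-(δ * s * SelfDual.P (G j)), ?_⟩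
      linear_combination (-(δ * SelfDual.P (G j))) * hs
    rw [h2]
    exact h1
  · have h1 := gram_det p N G (Hank n (toQ g) δ) hG hSdet hGN (p : ℚ_[p]) hdual
    refine le_trans (le_of_eq ?_) h1
    rw [Padic.norm_p, inv_pow]

end Stoll308.SC
end

section
set_option autoImplicit false

/-!
The class of a prime is not good at a good prime.
-/

namespace Stoll308.DQ

open Polynomial Finset Matrix BG BF SC

namespace NotGood

open SelfDual

variable {p : ℕ} [hp : Fact p.Prime] {n : ℕ}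

/-- scaling of a vector which is not integral -/
lemma exists_scale (v : Fin n → ℚ_[p]) (h : ¬ ∀ i, ‖v i‖ ≤ 1) :
    ∃ k : ℕ, 1 ≤ k ∧ (∀ i, ‖(p : ℚ_[p]) ^ k * v i‖ ≤ 1) ∧ ∃ i, ‖(p : ℚ_[p]) ^ k * v i‖ = 1 := by
  push Not at h
  obtain ⟨i₁, hi₁⟩ := h
  haveI : Nonempty (Fin n) := ⟨i₁⟩
  obtain ⟨i₀, hi₀⟩ := Finite.exists_max (fun i => ‖v i‖)
  have h1 : 1 < ‖v i₀‖ := hi₁.trans_le (hi₀ i₁)
  have hne : v i₀ ≠ 0 := by
    intro h0
    rw [h0, norm_zero] at h1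
    linarith
  have hp1 : (1 : ℝ) < p := by exact_mod_cast hp.out.one_lt
  have hp0 : (0 : ℝ) < p := by linarith
  have h2 := Padic.norm_eq_zpow_neg_valuation hne
  have h3 : (v i₀).valuation < 0 := by
    by_contra hcon
    push Not at hcon
    have h4 : ((p : ℝ)) ^ (-(v i₀).valuation) ≤ 1 := by
      apply zpow_le_one_of_nonpos₀ hp1.le
      omega
    rw [← h2] at h4
    linarith
  obtain ⟨k, hk⟩ := Int.eq_ofNat_of_zero_le (show 0 ≤ -(v i₀).valuation by omega)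
  have hk1 : 1 ≤ k := by omega
  have h5 : ‖(p : ℚ_[p]) ^ k‖ * ‖v i₀‖ = 1 := by
    rw [h2, hk, Padic.norm_p_pow, _root_.zpow_neg, inv_mul_cancel₀]
    exact zpow_ne_zero _ hp0.ne'
  refine ⟨k, hk1, ?_, i₀, ?_⟩
  · intro i
    rw [norm_mul, ← h5]
    exact mul_le_mul_of_nonneg_left (hi₀ i) (norm_nonneg _)
  · rw [norm_mul, h5]

lemma row_int (g δ : ℤ_[p][X]) (hg : g.Monic) (hgn : g.natDegree = n)
    (hsq : Squarefree (g.map (PadicInt.toZMod : ℤ_[p] →+* ZMod p))) (hδ : IsCoprime δ g)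
    (v : Fin n → ℚ_[p])
    (h : ∀ k : ℕ, ‖HankL.tau n (toQ g) (X ^ k * (C (p : ℚ_[p]) * toQ δ) * P v * P v)‖ ≤ 1) :
    ∀ i, ‖v i‖ ≤ 1 := by
  have hG : (toQ g).Monic := hg.map _
  have hGn : (toQ g).natDegree = n := by rw [hg.natDegree_map, hgn]
  -- the class of `p δ λ²` is integral
  obtain ⟨w, hw⟩ := exists_vec (n := n) (toQ g) hG hGn (C (p : ℚ_[p]) * toQ δ * P v * P v)
  have hwint : ∀ i, ‖w i‖ ≤ 1 := by
    apply int_of_tau g hg hgn w
    intro i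
    have h1 : HankL.tau n (toQ g) (P w * X ^ (i : ℕ)) =
        HankL.tau n (toQ g) (X ^ (i : ℕ) * (C (p : ℚ_[p]) * toQ δ) * P v * P v) := by
      apply tau_congr _ _ _ hG
      have h2 := Dvd.dvd.mul_left hw (X ^ (i : ℕ))
      convert h2 using 1
      ring
    rw [h1]
    exact h i
  obtain ⟨z, hz⟩ := MaxLat.exists_int w hwint
  obtain ⟨A, B, hAB⟩ := hδ
  have hABQ : toQ A * toQ δ + toQ B * toQ g = 1 := by
    have := congrArg toQ hAB
    simpa only [toQ, Polynomial.map_mul, Polynomial.map_add, Polynomial.map_one] using this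
  have h1 : toQ g ∣ toQ (A * P z) - C (p : ℚ_[p]) * P v ^ 2 := by
    rw [hz] at hw
    obtain ⟨s, hs⟩ := hw
    have e1 : toQ (A * P z) = toQ A * toQ (P z) := by
      simp only [toQ, Polynomial.map_mul]
    refine ⟨toQ A * s - C (p : ℚ_[p]) * P v ^ 2 * toQ B, ?_⟩
    rw [e1]
    linear_combination (toQ A) * hs + (C (p : ℚ_[p]) * P v ^ 2) * hABQ
  by_contra hcon
  obtain ⟨k, hk1, hk2, i₀, hi₀⟩ := exists_scale v hcon
  have hp0 : (p : ℚ_[p]) ≠ 0 := by exact_mod_cast hp.out.ne_zero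
  obtain ⟨l, hl⟩ := MaxLat.exists_int (p := p) ((p : ℚ_[p]) ^ k • v) (fun i => hk2 i)
  rw [MaxLat.P_smul] at hl
  -- `λ'² = p^(2k-1) μ` modulo `g`
  have h2 : toQ g ∣ toQ (P l ^ 2 - C (p : ℤ_[p]) ^ (2 * k - 1) * (A * P z)) := by
    have e1 : toQ (P l ^ 2 - C (p : ℤ_[p]) ^ (2 * k - 1) * (A * P z)) =
        (C ((p : ℚ_[p]) ^ k) * P v) ^ 2 - C ((p : ℚ_[p]) ^ (2 * k - 1)) * toQ (A * P z) := by
      rw [hl]
      simp only [toQ, Polynomial.map_mul, Polynomial.map_sub, Polynomial.map_pow,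
        Polynomial.map_natCast, map_natCast, C_pow]
    have e2 : (C ((p : ℚ_[p]) ^ k) * P v) ^ 2 - C ((p : ℚ_[p]) ^ (2 * k - 1)) * toQ (A * P z) =
        -(C ((p : ℚ_[p]) ^ (2 * k - 1)) * (toQ (A * P z) - C (p : ℚ_[p]) * P v ^ 2)) := by
      have e3 : (p : ℚ_[p]) ^ (2 * k - 1) * p = (p ^ k) ^ 2 := by
        rw [← pow_succ, ← pow_mul]
        congr 1
        omega
      have e4 : C ((p : ℚ_[p]) ^ (2 * k - 1)) * C (p : ℚ_[p]) = C ((p : ℚ_[p]) ^ k) ^ 2 := by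
        rw [← C_mul, e3, C_pow]
      linear_combination (-(P v ^ 2)) * e4
    rw [e1, e2]
    exact (Dvd.dvd.mul_left h1 _).neg_right
  have h3 : g ∣ P l ^ 2 - C (p : ℤ_[p]) ^ (2 * k - 1) * (A * P z) :=
    (map_dvd_map (algebraMap ℤ_[p] ℚ_[p]) (IsFractionRing.injective ℤ_[p] ℚ_[p]) hg).1 h2
  set φ : ℤ_[p] →+* ZMod p := PadicInt.toZMod with hφ
  have h4 : g.map φ ∣ (P l).map φ ^ 2 := by
    have h5 := Polynomial.map_dvd φ h3
    rw [Polynomial.map_sub, Polynomial.map_pow, Polynomial.map_mul, Polynomial.map_pow, map_C,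
      map_natCast, CharP.cast_eq_zero, C_0, zero_pow (by omega), zero_mul, sub_zero] at h5
    exact h5
  have h5 : g.map φ ∣ (P l).map φ := (hsq.dvd_pow_iff_dvd two_ne_zero).1 h4
  have h6 : (P l).map φ = 0 := by
    apply Polynomial.eq_zero_of_dvd_of_degree_lt h5
    have h7 : (g.map φ).degree = n := by
      rw [hg.degree_map, degree_eq_natDegree hg.ne_zero, hgn]
    rw [h7]
    exact (degree_map_le).trans_lt (P_degree l)
  have h7 : φ (l i₀) = 0 := by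
    have := congrArg (fun q : (ZMod p)[X] => q.coeff (i₀ : ℕ)) h6
    simp only [coeff_map, coeff_zero] at this
    rwa [P_coeff] at this
  have h8 : ‖l i₀‖ = 1 := by
    have h9 := congrArg (fun q : ℚ_[p][X] => q.coeff (i₀ : ℕ)) hl
    simp only [coeff_C_mul, toQ, coeff_map] at h9
    rw [P_coeff, P_coeff] at h9
    have h10 : ‖(algebraMap ℤ_[p] ℚ_[p] (l i₀))‖ = 1 := by
      rw [← h9]
      exact hi₀
    exact h10
  have h9 : IsUnit (l i₀) := PadicInt.isUnit_iff.2 h8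
  exact (h9.map φ).ne_zero h7

end NotGood

open NotGood SelfDual in
/-- At an unramified prime, `p` times a unit has no self-dual lattice. -/
theorem not_good {n : ℕ} (hn : 1 ≤ n) (p : ℕ) [Fact p.Prime] (g : ℤ_[p][X]) (hg : g.Monic)
    (hgn : g.natDegree = n) (hsq : Squarefree (g.map (PadicInt.toZMod : ℤ_[p] →+* ZMod p)))
    (δ : ℤ_[p][X]) (hδ : IsCoprime δ g) : ¬ Good p n (toQ g) (C (p : ℚ_[p]) * toQ δ) := by
  rintro ⟨G, hG0, hG1, hG2⟩
  have hint : ∀ i j, ‖G i j‖ ≤ 1 := by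
    intro i
    apply row_int g δ hg hgn hsq hδ (G i)
    intro k
    have h1 := hG1 k i i
    rw [conj_apply, dot] at h1
    exact h1
  have hex : ∀ i j, ∃ z : ℤ_[p], G i j = algebraMap ℤ_[p] ℚ_[p] z :=
    fun i j => ⟨⟨G i j, hint i j⟩, rfl⟩
  choose Z hZ using hex
  have hGZ : G = (Matrix.of Z).map (algebraMap ℤ_[p] ℚ_[p]) := by
    ext i j
    rw [Matrix.map_apply, Matrix.of_apply, ← hZ]
  have hGd : ‖G.det‖ ≤ 1 := by
    have h1 : G.det = algebraMap ℤ_[p] ℚ_[p] (Matrix.of Z).det := by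
      rw [hGZ, RingHom.map_det, RingHom.mapMatrix_apply]
    rw [h1]
    exact PadicInt.norm_le_one _
  have hS : Hank n (toQ g) (C (p : ℚ_[p]) * toQ δ) =
      (p : ℚ_[p]) • (Hank n g δ).map (algebraMap ℤ_[p] ℚ_[p]) := by
    rw [← hank_map (n := n) (algebraMap ℤ_[p] ℚ_[p]) g δ hg]
    exact hank_smul _ _ _ _
  have hSd : ‖(Hank n (toQ g) (C (p : ℚ_[p]) * toQ δ)).det‖ ≤ ‖(p : ℚ_[p])‖ := by
    rw [hS, Matrix.det_smul, Fintype.card_fin, norm_mul, norm_pow]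
    have h1 : ((Hank n g δ).map (algebraMap ℤ_[p] ℚ_[p])).det =
        algebraMap ℤ_[p] ℚ_[p] (Hank n g δ).det := by
      rw [RingHom.map_det, RingHom.mapMatrix_apply]
    rw [h1]
    have h2 : ‖algebraMap ℤ_[p] ℚ_[p] (Hank n g δ).det‖ ≤ 1 := PadicInt.norm_le_one _
    have h3 : ‖(p : ℚ_[p])‖ ^ n ≤ ‖(p : ℚ_[p])‖ :=
      pow_le_of_le_one (norm_nonneg _) Padic.norm_p_lt_one.le (by omega)
    calc ‖(p : ℚ_[p])‖ ^ n * ‖algebraMap ℤ_[p] ℚ_[p] (Hank n g δ).det‖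
        ≤ ‖(p : ℚ_[p])‖ * 1 := mul_le_mul h3 h2 (norm_nonneg _) (norm_nonneg _)
      _ = ‖(p : ℚ_[p])‖ := mul_one _
  rw [det_mul, det_mul, det_transpose, norm_mul, norm_mul] at hG2
  have h4 : ‖G.det‖ * ‖(Hank n (toQ g) (C (p : ℚ_[p]) * toQ δ)).det‖ * ‖G.det‖ ≤
      1 * ‖(p : ℚ_[p])‖ * 1 := by
    gcongr
  have h5 : ‖(p : ℚ_[p])‖ < 1 := Padic.norm_p_lt_one
  rw [hG2] at h4
  linarith

end Stoll308.DQ
end

section
set_option autoImplicit false

/-!
The class at the primes which divide the leading coefficient.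
-/

namespace Stoll308.SC

open Polynomial Finset Matrix BG BF BF.LocLat

section
variable {K : Type*} [Field K]

lemma reflect_one' (N : ℕ) : (1 : K[X]).reflect N = X ^ N := by
  rw [← C_1, reflect_C, C_1, one_mul]

/-- reflected divisibility -/
lemma reflect_dvd {h P : K[X]} {N : ℕ} (h0 : h ≠ 0) (hd : h ∣ P) (hP : P.natDegree ≤ N) :
    h.reflect h.natDegree ∣ P.reflect N := by
  by_cases hP0 : P = 0
  · rw [hP0, reflect_zero]
    exact dvd_zero _
  · obtain ⟨Q, rfl⟩ := hd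
    have hQ0 : Q ≠ 0 := right_ne_zero_of_mul hP0
    rw [natDegree_mul h0 hQ0] at hP
    have e : N = h.natDegree + (N - h.natDegree) := by omega
    rw [e, reflect_mul _ _ le_rfl (by omega : Q.natDegree ≤ N - h.natDegree)]
    exact dvd_mul_right _ _

/-- reflected coprimality -/
lemma reflect_coprime {s F : K[X]} {E n : ℕ} (hc : IsCoprime s F) (hs : s.natDegree ≤ E)
    (hF : F.natDegree ≤ n) (hX : IsCoprime X (F.reflect n)) :
    IsCoprime (s.reflect E) (F.reflect n) := by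
  obtain ⟨a, b, hab⟩ := hc
  set M := a.natDegree + b.natDegree with hM
  have h1 : (a * s).reflect (M + n + E) = a.reflect (M + n) * s.reflect E :=
    reflect_mul _ _ (by omega) hs
  have h2 : (b * F).reflect (M + E + n) = b.reflect (M + E) * F.reflect n :=
    reflect_mul _ _ (by omega) hF
  have h3 : a.reflect (M + n) * s.reflect E + b.reflect (M + E) * F.reflect n =
      X ^ (M + n + E) := by
    rw [← h1, ← h2, ← reflect_one', ← hab, reflect_add, show M + E + n = M + n + E by ring]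
  obtain ⟨u, v, huv⟩ := hX.pow_left (m := M + n + E)
  exact ⟨u * a.reflect (M + n), u * b.reflect (M + E) + v, by linear_combination huv + u * h3⟩

lemma reflect_sq {s : K[X]} {E : ℕ} (hs : s.natDegree ≤ E) :
    (s ^ 2).reflect (2 * E) = (s.reflect E) ^ 2 := by
  rw [sq, sq, two_mul, reflect_mul _ _ hs hs]

lemma natDegree_sq_le {s : K[X]} {E : ℕ} (hs : s.natDegree ≤ E) : (s ^ 2).natDegree ≤ 2 * E :=
  natDegree_pow_le.trans (by omega)

/-- the reflected polynomial of a larger size -/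
lemma reflect_up {P : K[X]} {N : ℕ} (hP : P.natDegree ≤ N) (k : ℕ) :
    P.reflect (N + k) = P.reflect N * X ^ k := by
  have := reflect_mul P (1 : K[X]) hP (G := k) (by simp)
  rwa [mul_one, reflect_one'] at this

lemma reflect_X_one : (X : K[X]).reflect 1 = 1 := by
  have h := reflect_monomial (R := K) 1 1
  rw [pow_one, revAt_le le_rfl, Nat.sub_self, pow_zero] at h
  exact h

/-- If `θ` is a square modulo the monic polynomial `h`, so is `1/θ` modulo the reversed one. -/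
lemma sqX_rev {h w : K[X]} (hh : h.Monic) (hw : h ∣ X - w ^ 2) :
    ∃ w₁ t₁ : K[X], h.reflect h.natDegree ∣ X - w₁ ^ 2 ∧ h.reflect h.natDegree ∣ w₁ * t₁ - 1 := by
  set g := h.reflect h.natDegree with hg
  have hg0 : g.coeff 0 = 1 := by
    rw [hg, coeff_reflect, revAt_le (Nat.zero_le _), Nat.sub_zero]
    exact hh
  have hdx := divX_mul_X_add g
  rw [hg0, C_1] at hdx
  set t : K[X] := -divX g with ht
  have h1 : g ∣ X * t - 1 := ⟨-1, by rw [ht]; linear_combination -hdx⟩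
  set W := w.natDegree + 1 with hW
  have h2 : g ∣ X ^ (2 * W - 1) - (w.reflect W) ^ 2 := by
    have h3 := reflect_dvd (N := 2 * W) hh.ne_zero hw ?_
    · rw [reflect_sub, reflect_sq (by omega), show 2 * W = 1 + (2 * W - 1) by omega,
        reflect_up (by rw [natDegree_X]), reflect_X_one, one_mul] at h3
      exact h3
    · refine (natDegree_sub_le _ _).trans (max_le ?_ (natDegree_sq_le (by omega)))
      rw [natDegree_X]
      omega
  rw [← AdjoinRoot.mk_eq_zero, map_sub, sub_eq_zero, map_mul, map_one] at h1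
  rw [← AdjoinRoot.mk_eq_zero, map_sub, sub_eq_zero, map_pow, map_pow] at h2
  refine ⟨w.reflect W * t ^ (W - 1), w.reflect W * t ^ (W - 1) * t, ?_, ?_⟩
  · rw [← AdjoinRoot.mk_eq_zero, map_sub, sub_eq_zero, map_pow, map_mul, map_pow, mul_pow, ← h2]
    generalize AdjoinRoot.mk g X = x at h1
    generalize AdjoinRoot.mk g t = y at h1
    rw [← pow_mul, show (W - 1) * 2 = 2 * W - 2 by omega]
    have e : 2 * W - 1 = (2 * W - 2) + 1 := by omega
    calc x = x * (x * y) ^ (2 * W - 2) := by rw [h1, one_pow, mul_one]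
      _ = x ^ (2 * W - 1) * y ^ (2 * W - 2) := by rw [e, mul_pow]; ring
  · rw [← AdjoinRoot.mk_eq_zero, map_sub, sub_eq_zero, map_one]
    simp only [map_mul, map_pow]
    generalize AdjoinRoot.mk g X = x at h1 h2
    generalize AdjoinRoot.mk g t = y at h1
    generalize AdjoinRoot.mk g (w.reflect W) = z at h2
    have e : 2 * W - 1 = (2 * W - 2) + 1 := by omega
    calc z * y ^ (W - 1) * (z * y ^ (W - 1) * y) = z ^ 2 * (y ^ (W - 1) * y ^ (W - 1) * y) := by ring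
      _ = x ^ (2 * W - 1) * y ^ (2 * W - 1) := by
        rw [← h2, ← pow_add, ← pow_succ, show W - 1 + (W - 1) + 1 = 2 * W - 1 by omega]
      _ = 1 := by rw [← mul_pow, h1, one_pow]

/-- The square root of `f` modulo `h`, reversed. -/
lemma sqF_rev {h f r w₁ t₁ : K[X]} {n : ℕ} (hh : h.Monic) (hf : f.natDegree ≤ n)
    (hr : h ∣ f - r ^ 2) (hw : h.reflect h.natDegree ∣ X - w₁ ^ 2)
    (ht : h.reflect h.natDegree ∣ w₁ * t₁ - 1) :
    ∃ r₁ : K[X], h.reflect h.natDegree ∣ f.reflect n - r₁ ^ 2 := by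
  set g := h.reflect h.natDegree with hg
  set R := r.natDegree + n with hR
  have h2 : g ∣ f.reflect n * X ^ (2 * R - n) - (r.reflect R) ^ 2 := by
    have h3 := reflect_dvd (N := 2 * R) hh.ne_zero hr ?_
    · rw [reflect_sub, reflect_sq (by omega), show 2 * R = n + (2 * R - n) by omega,
        reflect_up hf] at h3
      exact h3
    · exact (natDegree_sub_le _ _).trans (max_le (by omega) (natDegree_sq_le (by omega)))
  refine ⟨r.reflect R * t₁ ^ (2 * R - n), ?_⟩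
  rw [← AdjoinRoot.mk_eq_zero, map_sub, sub_eq_zero, map_pow] at hw
  rw [← AdjoinRoot.mk_eq_zero, map_sub, sub_eq_zero, map_mul, map_one] at ht
  rw [← AdjoinRoot.mk_eq_zero, map_sub, sub_eq_zero, map_mul, map_pow, map_pow] at h2
  rw [← AdjoinRoot.mk_eq_zero, map_sub, sub_eq_zero, map_pow, map_mul, map_pow, mul_pow, ← h2, hw]
  generalize AdjoinRoot.mk g w₁ = x at ht
  generalize AdjoinRoot.mk g t₁ = y at ht
  generalize AdjoinRoot.mk g (f.reflect n) = F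
  rw [← pow_mul, ← pow_mul, mul_comm (2 * R - n) 2, mul_assoc, ← mul_pow, ht, one_pow, mul_one]

/-- the constant coefficient is a square up to the sign -/
lemma coeff_zero_sq {F w : K[X]} (hF : F.Monic) (hw : F ∣ X - w ^ 2) :
    ∃ ε l : K, (ε = 1 ∨ ε = -1) ∧ F.coeff 0 = ε * l ^ 2 := by
  set n := F.natDegree with hn
  have h1 := HankL.mulMat_lin_det (n := n) F hF rfl (0 : K)
  have h2 : mulMat n F (C 0 - X) = mulMat n F (-1) * (mulMat n F w * mulMat n F w) := by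
    rw [← HankL.mulMat_mul F w w hF rfl, ← HankL.mulMat_mul F (-1) _ hF rfl]
    apply HankL.mulMat_congr F _ _ hF
    obtain ⟨c, hc⟩ := hw
    exact ⟨-c, by rw [C_0]; linear_combination -hc⟩
  have h3 : mulMat n F (-1) * mulMat n F (-1) = 1 := by
    rw [← HankL.mulMat_mul F (-1) (-1) hF rfl, neg_one_mul, neg_neg, HankL.mulMat_one F hF rfl]
  have h4 := congrArg Matrix.det h3
  rw [Matrix.det_mul, Matrix.det_one] at h4
  refine ⟨(mulMat n F (-1)).det, (mulMat n F w).det, mul_self_eq_one_iff.1 h4, ?_⟩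
  rw [coeff_zero_eq_eval_zero, ← h1, h2, Matrix.det_mul, Matrix.det_mul, sq]

lemma lead_reflect {F : K[X]} (h0 : F.coeff 0 ≠ 0) :
    (F.reflect F.natDegree).leadingCoeff = F.coeff 0 := by
  have h1 : (F.reflect F.natDegree).leadingCoeff = F.trailingCoeff := reverse_leadingCoeff F
  have h2 : F.natTrailingDegree = 0 := natTrailingDegree_eq_zero.2 (Or.inr h0)
  rw [h1, trailingCoeff, h2]

/-- the leading coefficient of the reversed polynomial -/
lemma lead_sq {h w : K[X]} (hh : h.Monic) (hw : h ∣ X - w ^ 2) :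
    ∃ ε l : K, (ε = 1 ∨ ε = -1) ∧ l ≠ 0 ∧ (h.reflect h.natDegree).leadingCoeff = ε * l ^ 2 := by
  have key : ∀ F : K[X], F.Monic → F ∣ X - w ^ 2 → F.coeff 0 ≠ 0 →
      ∃ ε l : K, (ε = 1 ∨ ε = -1) ∧ l ≠ 0 ∧ (F.reflect F.natDegree).leadingCoeff = ε * l ^ 2 := by
    intro F hF hFw h0
    obtain ⟨ε, l, h1, h2⟩ := coeff_zero_sq hF hFw
    refine ⟨ε, l, h1, ?_, by rw [lead_reflect h0, h2]⟩
    rintro rfl
    exact h0 (by rw [h2]; ring)
  by_cases h0 : h.coeff 0 = 0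
  · obtain ⟨h₁, rfl⟩ := X_dvd_iff.2 h0
    have hm : h₁.Monic := by
      have h3 := hh
      unfold Monic at h3 ⊢
      rwa [leadingCoeff_mul, leadingCoeff_X, one_mul] at h3
    have h1 : h₁.coeff 0 ≠ 0 := by
      intro h4
      obtain ⟨h₂, rfl⟩ := X_dvd_iff.2 h4
      obtain ⟨c, hc⟩ := hw
      have hXw : (X : K[X]) ∣ w := by
        apply (Prime.dvd_of_dvd_pow (n := 2) prime_X)
        exact ⟨1 - X * h₂ * c, by linear_combination -hc⟩
      obtain ⟨w', rfl⟩ := hXw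
      have h5 : (X : K[X]) * (1 - X * w' ^ 2 - X * h₂ * c) = 0 := by linear_combination hc
      rcases mul_eq_zero.1 h5 with h6 | h6
      · exact X_ne_zero h6
      · have := congrArg (fun q : K[X] => q.eval 0) h6
        simp at this
    obtain ⟨ε, l, e1, e2, e3⟩ := key h₁ hm ((dvd_mul_left _ _).trans hw) h1
    refine ⟨ε, l, e1, e2, ?_⟩
    rw [← e3, natDegree_mul X_ne_zero hm.ne_zero, natDegree_X, reflect_mul _ _ (by rw [natDegree_X])
      le_rfl, reflect_X_one, one_mul]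
  · exact key h hh hw h0

end

/-- The class `θ*^(-ν) δ(θ)`, `ν` odd, has a self-dual lattice if `p` does not divide the constant
coefficient. -/
theorem good_rev {n : ℕ} (hn : 2 ≤ n) (p : ℕ) [Fact p.Prime] (hp : p ≠ 2) (a : Fin (n + 1) → ℤ)
    (h0 : a 0 ≠ 0) (hl : ¬ (p : ℤ) ∣ a (Fin.last n)) (δ : ℚ_[p][X])
    (hloc : OLoc (GZ ℚ_[p] a) δ) (ν D : ℕ) (hν : Odd ν) (hD : δ.natDegree ≤ D) (D₁ : ℚ_[p][X])
    (e : GZ ℚ_[p] (a ∘ Fin.rev) ∣ D₁ * X ^ (ν + D) - δ.reflect D) :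
    Good p n (mon ℚ_[p] (a ∘ Fin.rev)) D₁ := by
  obtain ⟨⟨h, r, w, s, hh, hodd, hcop, hscop, hr, hw, hf⟩, -⟩ := hloc
  have h0' : (a 0 : ℚ_[p]) ≠ 0 := by exact_mod_cast h0
  have hrl : (a ∘ Fin.rev) 0 = a (Fin.last n) := by rw [Function.comp_apply, Fin.rev_zero]
  have hln : ‖(a (Fin.last n) : ℚ_[p])‖ = 1 := by
    refine le_antisymm (Padic.norm_int_le_one _) ?_
    by_contra hcon
    exact hl ((Padic.norm_intCast_lt_one_iff).1 (not_le.1 hcon))
  have hl0 : (a (Fin.last n) : ℚ_[p]) ≠ 0 := by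
    intro h1
    rw [h1, norm_zero] at hln
    exact zero_ne_one hln
  set f := GZ ℚ_[p] a with hfdef
  set g := GZ ℚ_[p] (a ∘ Fin.rev) with hg
  set G := mon ℚ_[p] (a ∘ Fin.rev) with hG
  have hfn : f.natDegree ≤ n := GZ_natDegree_le a
  have hfg : f.reflect n = g := gz_reflect a
  have hX : IsCoprime (X : ℚ_[p][X]) g := rev_coprime a h0'
  have hgG : g = C (a (Fin.last n) : ℚ_[p]) * G := by
    have := GZ_eq (K := ℚ_[p]) (a ∘ Fin.rev) (by rw [hrl]; exact hl0)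
    rwa [hrl] at this
  have hGm : G.Monic := mon_monic _ (by rw [hrl]; exact hl0)
  have hGn : G.natDegree = n := mon_natDegree _ (by rw [hrl]; exact hl0)
  -- the reversed identities
  obtain ⟨w₁, t₁, hw₁, ht₁⟩ := sqX_rev hh hw
  obtain ⟨r₁, hr₁⟩ := sqF_rev hh hfn hr hw₁ ht₁
  rw [hfg] at hr₁
  obtain ⟨ε, l, hε, hl1, hlead⟩ := lead_sq hh hw
  set m := h.natDegree with hm
  set H := h.reflect m with hH
  have hH0 : H ≠ 0 := by
    intro h1
    rw [h1, leadingCoeff_zero] at hlead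
    rcases hε with rfl | rfl
    · exact hl1 (pow_eq_zero_iff (two_ne_zero) |>.1 (by linear_combination -hlead))
    · exact hl1 (pow_eq_zero_iff (two_ne_zero) |>.1 (by linear_combination hlead))
  have hHl : H.leadingCoeff ≠ 0 := leadingCoeff_ne_zero.2 hH0
  set hs : ℚ_[p][X] := C (H.leadingCoeff⁻¹) * H with hhs
  have hsm : hs.Monic := by
    rw [hhs, mul_comm]
    exact monic_mul_leadingCoeff_inv hH0
  have hHs : H = C H.leadingCoeff * hs := by
    rw [hhs, ← mul_assoc, ← C_mul, mul_inv_cancel₀ hHl, C_1, one_mul]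
  have hsH : hs ∣ H := ⟨C H.leadingCoeff, by rw [mul_comm]; exact hHs⟩
  have hHg : IsCoprime H g := by
    have := reflect_coprime hcop (E := m) (n := n) le_rfl hfn (by rw [hfg]; exact hX)
    rwa [hfg] at this
  have hsg : IsCoprime hs g := by
    rw [hHs] at hHg
    exact hHg.of_mul_left_right
  have hsG : IsCoprime hs G := by
    rw [hgG] at hsg
    exact hsg.of_mul_right_right
  -- integral coefficients
  have hint : ∀ i, ‖G.coeff i‖ ≤ 1 := by
    intro i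
    have h1 : G.coeff i = (a (Fin.last n) : ℚ_[p])⁻¹ * g.coeff i := by
      rw [hgG, coeff_C_mul, ← mul_assoc, inv_mul_cancel₀ hl0, one_mul]
    have h2 : ∃ z : ℤ, g.coeff i = z := by
      refine ⟨(GZ ℤ (a ∘ Fin.rev)).coeff i, ?_⟩
      rw [hg, ← GZ_map (Int.castRingHom ℚ_[p]), coeff_map]
      rfl
    obtain ⟨z, hz⟩ := h2
    rw [h1, norm_mul, norm_inv, hln, inv_one, one_mul, hz]
    exact Padic.norm_int_le_one z
  obtain ⟨g₀, hg₀, hg₀n, hg₀m⟩ := exists_toQ G hint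
  have hc : IsUnit ((a (Fin.last n) : ℤ_[p])) := by
    rw [PadicInt.isUnit_iff, PadicInt.norm_intCast_eq_padic_norm]
    exact hln
  have hcg : toQ (C (a (Fin.last n) : ℤ_[p]) * g₀) = g := by
    rw [hgG, ← hg₀, toQ, Polynomial.map_mul, map_C]
    simp
  have hgood : Good p n G hs := by
    have := core (by omega : 1 ≤ n) p hp g₀ _ hc (hg₀m hGm) (hg₀n.trans hGn) hs r₁ w₁ hsm
      (by rw [hg₀]; exact hsG) (by rw [hcg]; exact hsH.trans hr₁) (hsH.trans hw₁)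
    rwa [hg₀] at this
  -- the class of `D₁`
  set E := s.natDegree + m with hE
  set sr := s.reflect E with hsr
  have hsrg : IsCoprime sr g := by
    have := reflect_coprime hscop (E := E) (n := n) (by omega) hfn (by rw [hfg]; exact hX)
    rwa [hfg] at this
  have hmain : g ∣ H * X ^ (D + 2 * E - m) + D₁ * X ^ (ν + D) * sr ^ 2 := by
    have hfnn : f.natDegree = n := by
      refine le_antisymm hfn (le_natDegree_of_ne_zero ?_)
      rw [hfdef, GZ_coeff_top]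
      exact h0'
    have hf0 : f ≠ 0 := by
      intro h1
      rw [h1, natDegree_zero] at hfnn
      omega
    have h3 := reflect_dvd (N := D + 2 * E) hf0 hf ?_
    · rw [hfnn, hfg, reflect_add, reflect_mul _ _ hD (natDegree_sq_le (by omega)),
        reflect_sq (by omega)] at h3
      have h4 : h.reflect (D + 2 * E) = H * X ^ (D + 2 * E - m) := by
        conv_lhs => rw [show D + 2 * E = m + (D + 2 * E - m) by omega]
        exact reflect_up le_rfl _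
      rw [h4] at h3
      obtain ⟨c, hc⟩ := h3
      obtain ⟨d, hd⟩ := e
      exact ⟨c + d * sr ^ 2, by linear_combination hc + sr ^ 2 * hd⟩
    · refine (natDegree_add_le _ _).trans (max_le (by omega) ?_)
      exact natDegree_mul_le.trans (Nat.add_le_add hD (natDegree_sq_le (by omega)))
  obtain ⟨i, j, hij⟩ : ∃ i j : ℕ, g ∣ H * (X ^ i) ^ 2 + D₁ * (X ^ j * sr) ^ 2 := by
    obtain ⟨k, hk⟩ := hν
    obtain ⟨k', hk'⟩ := hodd
    rcases Nat.even_or_odd' (D + 2 * E - m) with ⟨i, hi | hi⟩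
    · refine ⟨i, (ν + D) / 2, ?_⟩
      have h5 : ν + D = 2 * ((ν + D) / 2) := by omega
      have h6 : H * (X ^ i) ^ 2 + D₁ * (X ^ ((ν + D) / 2) * sr) ^ 2 =
          H * X ^ (D + 2 * E - m) + D₁ * X ^ (ν + D) * sr ^ 2 := by
        rw [hi]
        conv_rhs => rw [h5]
        ring
      rw [h6]
      exact hmain
    · refine ⟨i + 1, (ν + D + 1) / 2, ?_⟩
      have h5 : ν + D + 1 = 2 * ((ν + D + 1) / 2) := by omega
      have h6 : H * (X ^ (i + 1)) ^ 2 + D₁ * (X ^ ((ν + D + 1) / 2) * sr) ^ 2 =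
          X * (H * X ^ (D + 2 * E - m) + D₁ * X ^ (ν + D) * sr ^ 2) := by
        have h7 : (X : ℚ_[p][X]) * X ^ (ν + D) = (X ^ ((ν + D + 1) / 2)) ^ 2 := by
          rw [← pow_succ', ← pow_mul]
          congr 1
          omega
        rw [hi]
        linear_combination -(D₁ * sr ^ 2) * h7
      rw [h6]
      exact Dvd.dvd.mul_left hmain _
  refine Good.congr hGm hGn hgood (-ε) ?_ (C l * X ^ i) (X ^ j * sr) ?_ ?_ ?_
  · rcases hε with rfl | rfl <;> simp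
  · have h1 : IsCoprime (C l) G := ⟨C l⁻¹, 0, by rw [zero_mul, add_zero, ← C_mul, inv_mul_cancel₀ hl1, C_1]⟩
    have h2 : IsCoprime (X ^ i) G := by
      rw [hgG] at hX
      exact hX.of_mul_right_right.pow_left
    exact h1.mul_left h2
  · have h2 : IsCoprime (X ^ j) G := by
      rw [hgG] at hX
      exact hX.of_mul_right_right.pow_left
    rw [hgG] at hsrg
    exact h2.mul_left hsrg.of_mul_right_right
  · have h1 : G ∣ g := ⟨C (a (Fin.last n) : ℚ_[p]), by rw [mul_comm]; exact hgG⟩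
    refine h1.trans ?_
    obtain ⟨c, hc⟩ := hij
    refine ⟨-c, ?_⟩
    have h2 : H = C ε * C l ^ 2 * hs := by
      conv_lhs => rw [hHs, hlead]
      rw [C_mul, C_pow]
    rw [C_neg]
    linear_combination (X ^ i) ^ 2 * h2 - hc

end Stoll308.SC
end

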