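import Pool.Agent.Work.BCM.C02
import Pool.Agent.Work.BCM.C08
import Pool.Agent.Work.BCM.C12

section
set_option autoImplicit false

/-!
Irreducible factors of odd multiplicity of a characteristic polynomial.
-/

namespace Stoll308.SC

open Polynomial Finset

namespace OddSq

/-- The determinant of a scalar plus a nilpotent endomorphism. -/
theorem det_scalar_add_nilpotent {L V : Type*} [Field L] [AddCommGroup V] [Module L V]
    [Module.Finite L V] (c : L) (N : Module.End L V) (hN : IsNilpotent N) :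
    LinearMap.det (algebraMap L (Module.End L V) c + N) = c ^ Module.finrank L V := by
  have h := LinearMap.eval_charpoly (-N) c
  rw [IsNilpotent.charpoly_eq_X_pow_finrank hN.neg] at h
  rw [sub_neg_eq_add, eval_pow, eval_X] at h
  exact h.symm

/-- If `Y² = F(Φ)` and the generalized eigenspace of `Φ` at `α` has odd dimension, then `F(α)`
is a square. -/
theorem sq_of_odd_eigenspace {L V : Type*} [Field L] [AddCommGroup V] [Module L V]
    [Module.Finite L V] (Φ Y : Module.End L V) (hc : Commute Φ Y) (F : L[X])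
    (e : Y * Y = aeval Φ F) (α : L) (ho : Odd (Module.finrank L (Φ.maxGenEigenspace α))) :
    ∃ c : L, F.eval α = c ^ 2 := by
  by_cases h0 : F.eval α = 0
  · exact ⟨0, by simp [h0]⟩
  obtain ⟨G, hG⟩ := X_sub_C_dvd_sub_C_eval (a := α) (p := F)
  have hcG : Commute Φ (aeval Φ G) := by
    have : Commute (aeval Φ (X : L[X])) (aeval Φ G) := by
      rw [Commute, SemiconjBy, ← map_mul, ← map_mul, mul_comm]
    simpa using this
  have hΦ : Commute Φ (Φ - algebraMap L (Module.End L V) α) :=
    Algebra.mul_sub_algebraMap_commutes Φ α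
  have m1 := Module.End.mapsTo_maxGenEigenspace_of_comm hc α
  have m2 := Module.End.mapsTo_maxGenEigenspace_of_comm hcG α
  have m3 := Module.End.mapsTo_maxGenEigenspace_of_comm hΦ α
  have hN := Φ.isNilpotent_restrict_maxGenEigenspace_sub_algebraMap α
  set W := Φ.maxGenEigenspace α with hW
  set N : Module.End L W := (Φ - algebraMap L (Module.End L V) α).restrict m3 with hNdef
  set G' : Module.End L W := (aeval Φ G).restrict m2
  set Y' : Module.End L W := Y.restrict m1
  have hcom : Commute N G' := by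
    have : Commute (Φ - algebraMap L (Module.End L V) α) (aeval Φ G) :=
      hcG.sub_left (Algebra.commutes α (aeval Φ G))
    exact LinearMap.restrict_commute this m3 m2
  have hnil : IsNilpotent (N * G') := hcom.isNilpotent_mul_right hN
  have key : Y' * Y' = algebraMap L (Module.End L W) (F.eval α) + N * G' := by
    apply LinearMap.ext
    intro x
    apply Subtype.ext
    have h1 := LinearMap.congr_fun e (x : V)
    have h2 : aeval Φ F = algebraMap L (Module.End L V) (F.eval α) +
        (Φ - algebraMap L (Module.End L V) α) * aeval Φ G := by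
      have : F = C (F.eval α) + (X - C α) * G := by rw [← hG]; ring
      conv_lhs => rw [this]
      simp
    rw [h2] at h1
    exact h1
  have hd := congrArg LinearMap.det key
  rw [map_mul, det_scalar_add_nilpotent _ _ hnil] at hd
  obtain ⟨k, hk⟩ := ho
  refine ⟨LinearMap.det Y' / (F.eval α) ^ k, ?_⟩
  rw [hk] at hd
  rw [div_pow, eq_div_iff (pow_ne_zero 2 (pow_ne_zero k h0)), sq (LinearMap.det Y'), hd]
  ring

/-- The multiplicity of a root of a power. -/
theorem rootMultiplicity_pow' {L : Type*} [Field L] (q : L[X]) (hq : q ≠ 0) (α : L) (m : ℕ) :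
    (q ^ m).rootMultiplicity α = m * q.rootMultiplicity α := by
  induction m with
  | zero => simp
  | succ m ih =>
    rw [pow_succ, rootMultiplicity_mul (mul_ne_zero (pow_ne_zero m hq) hq), ih]
    ring

/-- The multiplicity of a root of an irreducible polynomial is the multiplicity of the
polynomial. -/
theorem rootMultiplicity_adjoinRoot {K : Type*} [Field K] [CharZero K] (π χ : K[X])
    [Fact (Irreducible π)] (hχ0 : χ ≠ 0) :
    (χ.map (AdjoinRoot.of π)).rootMultiplicity (AdjoinRoot.root π) = multiplicity π χ := by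
  have hπ : Irreducible π := Fact.out
  have hfin : FiniteMultiplicity π χ :=
    FiniteMultiplicity.of_not_isUnit hπ.not_isUnit hχ0
  obtain ⟨g, hg, hg'⟩ := hfin.exists_eq_pow_mul_and_not_dvd
  set m := multiplicity π χ with hm
  have hsep : π.Separable := hπ.separable
  have hr : (π.map (AdjoinRoot.of π)).IsRoot (AdjoinRoot.root π) := AdjoinRoot.isRoot_root π
  have hπ1 : (π.map (AdjoinRoot.of π)).rootMultiplicity (AdjoinRoot.root π) = 1 := by
    have h1 : 0 < (π.map (AdjoinRoot.of π)).rootMultiplicity (AdjoinRoot.root π) := by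
      rw [rootMultiplicity_pos (map_ne_zero hπ.ne_zero)]
      exact hr
    have h2 := rootMultiplicity_le_one_of_separable (hsep.map (f := AdjoinRoot.of π))
      (AdjoinRoot.root π)
    omega
  have hg1 : (g.map (AdjoinRoot.of π)).rootMultiplicity (AdjoinRoot.root π) = 0 := by
    apply rootMultiplicity_eq_zero
    intro h
    apply hg'
    have h2 : (g.map (AdjoinRoot.of π)).eval (AdjoinRoot.root π) = 0 := h
    rw [← AdjoinRoot.algebraMap_eq, eval_map_algebraMap, AdjoinRoot.aeval_eq,
      AdjoinRoot.mk_eq_zero] at h2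
    exact h2
  have hg0 : g ≠ 0 := by
    rintro rfl
    simp at hg'
  rw [hg, Polynomial.map_mul, Polynomial.map_pow, rootMultiplicity_mul, hg1, add_zero,
    rootMultiplicity_pow' _ (map_ne_zero hπ.ne_zero), hπ1, mul_one]
  exact mul_ne_zero (pow_ne_zero _ (map_ne_zero hπ.ne_zero)) (map_ne_zero hg0)

end OddSq

open OddSq

/-- If `y² = F(t)` in a finite commutative algebra, then `F` is a square modulo every irreducible
factor of odd multiplicity of the characteristic polynomial of the multiplication by `t`. -/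
theorem sq_mod_odd {K : Type*} [Field K] [CharZero K] {E : Type*} [CommRing E] [Algebra K E]
    [Module.Finite K E] (t y : E) (F : K[X]) (e : y ^ 2 = aeval t F) (π : K[X])
    (hπ : Irreducible π) (hodd : Odd (multiplicity π (LinearMap.mulLeft K t).charpoly)) :
    ∃ r : K[X], π ∣ F - r ^ 2 := by
  have : Fact (Irreducible π) := ⟨hπ⟩
  have hχ0 : (LinearMap.mulLeft K t).charpoly ≠ 0 := (LinearMap.charpoly_monic _).ne_zero
  have hmult := rootMultiplicity_adjoinRoot π (LinearMap.mulLeft K t).charpoly hχ0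
  set L := AdjoinRoot π with hL
  set β := Module.End.baseChangeHom K L E with hβ
  set lm := Algebra.lmul K E with hlm
  have h1 : (β (lm t)).charpoly = (LinearMap.mulLeft K t).charpoly.map (AdjoinRoot.of π) :=
    LinearMap.charpoly_baseChange (A := L) (LinearMap.mulLeft K t)
  have hc : Commute (β (lm t)) (β (lm y)) := by
    rw [Commute, SemiconjBy, ← map_mul, ← map_mul, ← map_mul, ← map_mul, mul_comm]
  have h2 : β (lm y) * β (lm y) = aeval (β (lm t)) (F.map (AdjoinRoot.of π)) := by
    rw [← map_mul, ← map_mul, ← sq, e, ← AdjoinRoot.algebraMap_eq, aeval_map_algebraMap,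
      ← aeval_algHom_apply, ← aeval_algHom_apply]
  obtain ⟨c, hc'⟩ := sq_of_odd_eigenspace (β (lm t)) (β (lm y)) hc _ h2 (AdjoinRoot.root π)
    (by rw [LinearMap.finrank_maxGenEigenspace_eq, h1, hmult]; exact hodd)
  obtain ⟨r, rfl⟩ := AdjoinRoot.mk_surjective c
  refine ⟨r, ?_⟩
  rw [← AdjoinRoot.mk_eq_zero, map_sub, map_pow, ← hc', ← AdjoinRoot.algebraMap_eq,
    eval_map_algebraMap, AdjoinRoot.aeval_eq, sub_self]

/-- If `F(t)` is invertible then `F` is prime to the characteristic polynomial of `t`. -/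
theorem charpoly_coprime {K : Type*} [Field K] {E : Type*} [CommRing E] [Algebra K E]
    [Module.Finite K E] (t : E) (F : K[X]) (h : IsUnit (aeval t F)) :
    IsCoprime (LinearMap.mulLeft K t).charpoly F := by
  apply isCoprime_of_irreducible_dvd
  · rintro ⟨h0, -⟩
    exact (LinearMap.charpoly_monic (LinearMap.mulLeft K t)).ne_zero h0
  intro π hπ h1 h2
  have : Fact (Irreducible π) := ⟨hπ⟩
  set L := AdjoinRoot π with hL
  set β := Module.End.baseChangeHom K L E with hβ
  set lm := Algebra.lmul K E with hlm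
  have h3 : (β (lm t)).charpoly = (LinearMap.mulLeft K t).charpoly.map (AdjoinRoot.of π) :=
    LinearMap.charpoly_baseChange (A := L) (LinearMap.mulLeft K t)
  have h4 : (β (lm t)).charpoly.IsRoot (AdjoinRoot.root π) := by
    rw [h3, IsRoot, ← AdjoinRoot.algebraMap_eq, eval_map_algebraMap, AdjoinRoot.aeval_eq,
      AdjoinRoot.mk_eq_zero]
    exact h1
  rw [← Module.End.hasEigenvalue_iff_isRoot_charpoly] at h4
  obtain ⟨v, hv⟩ := h4.exists_hasEigenvector
  have h5 : aeval (β (lm t)) (F.map (AdjoinRoot.of π)) v =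
      (F.map (AdjoinRoot.of π)).eval (AdjoinRoot.root π) • v := by
    exact Module.End.aeval_apply_of_hasEigenvector hv
  have h6 : (F.map (AdjoinRoot.of π)).eval (AdjoinRoot.root π) = 0 := by
    rw [← AdjoinRoot.algebraMap_eq, eval_map_algebraMap, AdjoinRoot.aeval_eq,
      AdjoinRoot.mk_eq_zero]
    exact h2
  rw [h6, zero_smul, ← AdjoinRoot.algebraMap_eq, aeval_map_algebraMap, aeval_algHom_apply,
    aeval_algHom_apply] at h5
  have h7 : IsUnit (β (lm (aeval t F))) := (h.map lm).map β
  obtain ⟨u, hu⟩ := h7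
  apply hv.2
  have h8 : (↑u⁻¹ * ↑u : Module.End L _) v = v := by
    rw [Units.inv_mul]; rfl
  rw [hu, Module.End.mul_apply, h5, map_zero] at h8
  exact h8.symm

namespace OddSq

/-- The even and the odd part of a polynomial. -/
theorem even_odd_parts {K : Type*} [Field K] (f : K[X]) :
    ∃ u v : K[X], f = expand K 2 u + X * expand K 2 v := by
  induction f using Polynomial.induction_on' with
  | add p q hp hq =>
    obtain ⟨u, v, h⟩ := hp
    obtain ⟨u', v', h'⟩ := hq
    refine ⟨u + u', v + v', ?_⟩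
    rw [h, h', map_add, map_add]
    ring
  | monomial n c =>
    obtain ⟨k, hk⟩ := Nat.even_or_odd' n
    rcases hk with hk | hk
    · refine ⟨monomial k c, 0, ?_⟩
      rw [hk, expand_monomial, map_zero, mul_zero, add_zero, mul_comm]
    · refine ⟨0, monomial k c, ?_⟩
      rw [hk, expand_monomial, map_zero, zero_add, X_mul_monomial, mul_comm]

end OddSq

end Stoll308.SC
end

section
set_option autoImplicit false

/-!
The local condition in terms of polynomials.
-/

namespace Stoll308.SC

open Polynomial Finset BF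

/-- Separation of the irreducible factors of odd multiplicity; a property `Q i` which holds modulo
the irreducible factors of odd multiplicity in the form `F i` is a square. -/
theorem exists_sqfree {K : Type*} [Field K] (χ : K[X]) (hχ : χ.Monic) (F₁ F₂ : K[X])
    (h : ∀ π : K[X], Irreducible π → Odd (multiplicity π χ) →
      (∃ r : K[X], π ∣ F₁ - r ^ 2) ∧ ∃ w : K[X], π ∣ F₂ - w ^ 2) :
    ∃ h V r w : K[X], h.Monic ∧ V.Monic ∧ χ = h * V ^ 2 ∧ h ∣ F₁ - r ^ 2 ∧ h ∣ F₂ - w ^ 2 := by
  induction hd : χ.natDegree using Nat.strong_induction_on generalizing χ with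
  | _ d ih =>
  by_cases hdeg : χ.natDegree = 0
  · have h1 : χ = 1 := hχ.natDegree_eq_zero.1 hdeg
    exact ⟨1, 1, 0, 0, monic_one, monic_one, by rw [h1]; ring, one_dvd _, one_dvd _⟩
  obtain ⟨π, hπm, hπi, hπd⟩ := exists_monic_irreducible_factor χ (fun hu =>
    hdeg (natDegree_eq_zero_of_isUnit hu))
  have hπp : Prime π := hπi.prime
  have hπ0 : 0 < π.natDegree := hπi.natDegree_pos
  obtain ⟨χ₁, rfl⟩ := hπd
  have hχ₁ : χ₁.Monic := hπm.of_mul_monic_left hχ
  have hmul : ∀ (σ : K[X]), Irreducible σ → ∀ A B : K[X], A.Monic → B.Monic →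
      multiplicity σ (A * B) = multiplicity σ A + multiplicity σ B := by
    intro σ hσ A B hA hB
    exact multiplicity_mul hσ.prime
      (FiniteMultiplicity.of_not_isUnit hσ.not_isUnit (hA.mul hB).ne_zero)
  have hnd : (π * χ₁).natDegree = π.natDegree + χ₁.natDegree := hπm.natDegree_mul hχ₁
  by_cases h2 : π ∣ χ₁
  · obtain ⟨χ₂, rfl⟩ := h2
    have hχ₂ : χ₂.Monic := hπm.of_mul_monic_left hχ₁
    have hnd₂ : (π * χ₂).natDegree = π.natDegree + χ₂.natDegree := hπm.natDegree_mul hχ₂
    obtain ⟨h', V, r, w, e1, e2, e3, e4, e5⟩ := ih χ₂.natDegree (by omega) χ₂ hχ₂ (by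
      intro σ hσ ho
      apply h σ hσ
      rw [hmul σ hσ _ _ hπm hχ₁, hmul σ hσ _ _ hπm hχ₂]
      obtain ⟨k, hk⟩ := ho
      exact ⟨multiplicity σ π + k, by omega⟩) rfl
    refine ⟨h', π * V, r, w, e1, hπm.mul e2, ?_, e4, e5⟩
    rw [e3]; ring
  · obtain ⟨h', V, r, w, e1, e2, e3, e4, e5⟩ := ih χ₁.natDegree (by omega) χ₁ hχ₁ (by
      intro σ hσ ho
      apply h σ hσ
      rw [hmul σ hσ _ _ hπm hχ₁]
      have h3 : multiplicity σ π = 0 := by
        rw [multiplicity_eq_zero]
        intro h4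
        have h5 : Associated σ π := hσ.associated_of_dvd hπi h4
        apply h2
        have h6 : σ ∣ χ₁ := by
          by_contra h7
          rw [multiplicity_eq_zero.2 h7] at ho
          exact absurd ho (by decide)
        exact h5.dvd_iff_dvd_left.1 h6
      rw [h3, zero_add]
      exact ho) rfl
    have hcop : IsCoprime h' π := by
      rw [isCoprime_comm]
      apply (hπi.coprime_iff_not_dvd).2
      intro h4
      exact h2 (e3 ▸ Dvd.dvd.mul_right h4 _)
    have hπ1 : multiplicity π (π * χ₁) = 1 := by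
      rw [hmul π hπi _ _ hπm hχ₁, multiplicity_self, multiplicity_eq_zero.2 h2]
    obtain ⟨⟨r₀, hr₀⟩, w₀, hw₀⟩ := h π hπi (by rw [hπ1]; decide)
    have crt : ∀ (F r r₀ : K[X]), h' ∣ F - r ^ 2 → π ∣ F - r₀ ^ 2 → ∃ R, π * h' ∣ F - R ^ 2 := by
      intro F r r₀ h3 h4
      obtain ⟨u, v, huv⟩ := hcop
      refine ⟨r₀ * (u * h') + r * (v * π), ?_⟩
      have h5 : IsCoprime π h' := ⟨v, u, by rw [add_comm]; exact huv⟩
      apply h5.mul_dvd
      · have : F - (r₀ * (u * h') + r * (v * π)) ^ 2 =
            (F - r₀ ^ 2) + π * (v * (r₀ + (r₀ * (u * h') + r * (v * π))) * (r₀ - r)) := by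
          linear_combination (-(r₀ * (r₀ + (r₀ * (u * h') + r * (v * π))))) * huv
        rw [this]
        exact dvd_add h4 (Dvd.intro _ rfl)
      · have : F - (r₀ * (u * h') + r * (v * π)) ^ 2 =
            (F - r ^ 2) + h' * (u * (r + (r₀ * (u * h') + r * (v * π))) * (r - r₀)) := by
          linear_combination (-(r * (r + (r₀ * (u * h') + r * (v * π))))) * huv
        rw [this]
        exact dvd_add h3 (Dvd.intro _ rfl)
    obtain ⟨R, hR⟩ := crt F₁ r r₀ e4 hr₀
    obtain ⟨W, hW⟩ := crt F₂ w w₀ e5 hw₀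
    refine ⟨π * h', V, R, W, hπm.mul e1, e2, ?_, hR, hW⟩
    rw [e3]; ring

end Stoll308.SC
end

section
set_option autoImplicit false

/-!
Rational squares.
-/

namespace Stoll308.SC

open Polynomial Finset Matrix BG BF

private theorem zmod_sq (c : ℤ) (p : ℕ) [Fact p.Prime] (h : IsSquare (c : ℚ_[p])) :
    IsSquare (c : ZMod p) := by
  obtain ⟨x, hx⟩ := h
  have h1 : ‖x‖ ≤ 1 := by
    have h2 : ‖x‖ * ‖x‖ ≤ 1 := by
      rw [← norm_mul, ← hx]
      exact Padic.norm_int_le_one c
    nlinarith [norm_nonneg x]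
  set z : ℤ_[p] := ⟨x, h1⟩ with hz
  have h3 : z * z = (c : ℤ_[p]) := by
    apply Subtype.ext
    push_cast
    exact hx.symm
  refine ⟨PadicInt.toZMod z, ?_⟩
  rw [← map_mul, h3, map_intCast]

private theorem k1 : ∀ r : ZMod 3, r * r ≠ ((-1 : ℤ) : ZMod 3) := by decide

private theorem k2 : ∀ r : ZMod 3, r * r ≠ ((2 : ℤ) : ZMod 3) := by decide

private theorem k3 : ∀ r : ZMod 5, r * r ≠ ((-2 : ℤ) : ZMod 5) := by decide

private theorem val_even (p : ℕ) [Fact p.Prime] (x : ℚ_[p]) (c : ℤ) (hc : c ≠ 0)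
    (h : (c : ℚ_[p]) = x * x) : Even (padicValInt p c) := by
  have hx : x ≠ 0 := by
    rintro rfl
    apply hc
    have : (c : ℚ_[p]) = 0 := by simpa using h
    exact_mod_cast this
  have h1 : Padic.valuation (c : ℚ_[p]) = padicValInt p c := Padic.valuation_intCast c
  rw [h, Padic.valuation_mul hx hx] at h1
  have h2 : Even (padicValInt p c : ℤ) := ⟨x.valuation, h1.symm⟩
  exact_mod_cast h2

/-- A rational number which is a square in `ℚ_p` for all odd `p` is a square. -/
theorem rat_sq (q : ℚ) (h : ∀ (p : ℕ) [Fact p.Prime], p ≠ 2 → IsSquare (q : ℚ_[p])) :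
    IsSquare q := by
  by_cases hq : q = 0
  · subst hq
    exact ⟨0, by simp⟩
  set n : ℤ := q.num * q.den with hn
  have hden : (q.den : ℚ) ≠ 0 := by exact_mod_cast q.den_nz
  have hnum : q.num ≠ 0 := by simpa using hq
  have hn0 : n ≠ 0 := mul_ne_zero hnum (by exact_mod_cast q.den_nz)
  have hnq : (n : ℚ) = q * (q.den : ℚ) ^ 2 := by
    have h1 : (q.num : ℚ) = q * q.den := by
      rw [mul_comm, Rat.den_mul_eq_num]
    rw [hn]
    push_cast
    rw [h1]
    ring
  -- the integer `n` is a square in `ℚ_p`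
  have hsq : ∀ (p : ℕ) [Fact p.Prime], p ≠ 2 → IsSquare (n : ℚ_[p]) := by
    intro p _ hp
    obtain ⟨x, hx⟩ := h p hp
    refine ⟨x * (q.den : ℚ_[p]), ?_⟩
    have h2 : ((n : ℚ) : ℚ_[p]) = ((q * (q.den : ℚ) ^ 2 : ℚ) : ℚ_[p]) := by rw [hnq]
    push_cast at h2
    rw [h2, hx]
    ring
  obtain ⟨s, m, hsm, hs⟩ := Nat.sq_mul_squarefree n.natAbs
  have hm0 : m ≠ 0 := by
    rintro rfl
    apply hn0
    rw [← Int.natAbs_eq_zero, ← hsm]
    simp
  have hs0 : s ≠ 0 := by
    rintro rfl
    apply hn0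
    rw [← Int.natAbs_eq_zero, ← hsm]
    simp
  -- the squarefree part divides 2
  have hs2 : ∀ p : ℕ, p.Prime → p ∣ s → p = 2 := by
    intro p hp hps
    by_contra hp2
    have : Fact p.Prime := ⟨hp⟩
    obtain ⟨x, hx⟩ := hsq p hp2
    have h1 : Even (padicValInt p n) := val_even p x n hn0 hx
    rw [padicValInt, ← hsm, padicValNat.mul (pow_ne_zero 2 hm0) hs0, padicValNat.pow] at h1
    have h3 : padicValNat p s = 1 := by
      apply le_antisymm
      · rw [← Nat.factorization_def s hp]
        exact (Nat.squarefree_iff_factorization_le_one hs0).1 hs p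
      · exact one_le_padicValNat_of_dvd hs0 hps
    rw [h3] at h1
    rcases h1 with ⟨r, hr⟩
    omega
  have hs12 : s = 1 ∨ s = 2 := by
    have h1 : s ∣ 2 := by
      rw [← Nat.prod_primeFactors_of_squarefree hs]
      have h3 : s.primeFactors ⊆ {2} := by
        intro p hp
        rw [Finset.mem_singleton]
        exact hs2 p (Nat.prime_of_mem_primeFactors hp) (Nat.dvd_of_mem_primeFactors hp)
      have h4 := Finset.prod_dvd_prod_of_subset _ _ (fun p : ℕ => p) h3
      simpa using h4
    exact (Nat.dvd_prime Nat.prime_two).1 h1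
  -- it suffices to treat `c = n / m^2`
  obtain ⟨c, hc, hnc⟩ : ∃ c : ℤ, (c = 1 ∨ c = -1 ∨ c = 2 ∨ c = -2) ∧ n = (m : ℤ) ^ 2 * c := by
    have h5 : n.natAbs = m ^ 2 * s := hsm.symm
    rcases Int.natAbs_eq n with h6 | h6
    · refine ⟨(s : ℤ), ?_, ?_⟩
      · rcases hs12 with rfl | rfl <;> simp
      · rw [h6, h5]; push_cast; ring
    · refine ⟨-(s : ℤ), ?_, ?_⟩
      · rcases hs12 with rfl | rfl <;> simp
      · rw [h6, h5]; push_cast; ring
  have hcsq : ∀ (p : ℕ) [Fact p.Prime], p ≠ 2 → IsSquare (c : ZMod p) := by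
    intro p _ hp
    apply zmod_sq
    obtain ⟨x, hx⟩ := hsq p hp
    refine ⟨x / m, ?_⟩
    have h7 : (m : ℚ_[p]) ≠ 0 := by exact_mod_cast hm0
    rw [hnc] at hx
    push_cast at hx
    field_simp
    linear_combination hx
  have : Fact (Nat.Prime 3) := ⟨Nat.prime_three⟩
  have : Fact (Nat.Prime 5) := ⟨Nat.prime_five⟩
  have h3 := hcsq 3 (by norm_num)
  have h5 := hcsq 5 (by norm_num)
  have hc1 : c = 1 := by
    rcases hc with rfl | rfl | rfl | rfl
    · rfl
    · obtain ⟨r, hr⟩ := h3
      exact absurd hr.symm (k1 r)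
    · obtain ⟨r, hr⟩ := h3
      exact absurd hr.symm (k2 r)
    · obtain ⟨r, hr⟩ := h5
      exact absurd hr.symm (k3 r)
  refine ⟨(m : ℚ) / q.den, ?_⟩
  have h8 : (m : ℚ) ^ 2 = q * (q.den : ℚ) ^ 2 := by
    rw [← hnq, hnc, hc1]
    push_cast
    ring
  field_simp
  linear_combination -h8

end Stoll308.SC
end

section
set_option autoImplicit false

/-!
The norm of a value of a binary form.
-/

namespace Stoll308.DQ

open Polynomial Finset Matrix BG

/-- The determinant of `M² - d N²` for commuting matrices. -/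
theorem det_sq_form {K : Type*} [Field K] {k : ℕ} (M N : Matrix (Fin k) (Fin k) K)
    (hc : M * N = N * M) (d : K) : ∃ U V : K, (M * M - d • (N * N)).det = U ^ 2 - d * V ^ 2 := by
  set CM : Matrix (Fin k) (Fin k) K[X] := (C : K →+* K[X]).mapMatrix M with hCM
  set CN : Matrix (Fin k) (Fin k) K[X] := (C : K →+* K[X]).mapMatrix N with hCN
  have hc' : CM * CN = CN * CM := by rw [hCM, hCN, ← map_mul, ← map_mul, hc]
  set P : K[X] := (CM + (X : K[X]) • CN).det with hP
  set R : K[X] := (CM * CM - (X : K[X]) • (CN * CN)).det with hR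
  have hmapc : ∀ (φ : K[X] →+* K[X]), (∀ c, φ (C c) = C c) → ∀ L : Matrix (Fin k) (Fin k) K,
      φ.mapMatrix ((C : K →+* K[X]).mapMatrix L) = (C : K →+* K[X]).mapMatrix L := by
    intro φ hφ L
    ext1 i j
    simp [hφ]
  have hsm : ∀ (φ : K[X] →+* K[X]) (L : Matrix (Fin k) (Fin k) K[X]),
      φ.mapMatrix ((X : K[X]) • L) = φ X • φ.mapMatrix L := by
    intro φ L
    ext1 i j
    simp
  have h1 : expand K 2 R = P * P.comp (-X) := by
    have e1 : (expand K 2).toRingHom (X : K[X]) = X * X := by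
      change expand K 2 X = _
      rw [expand_X, sq]
    have e2 : expand K 2 R = (CM * CM - (X * X : K[X]) • (CN * CN)).det := by
      change (expand K 2).toRingHom _ = _
      rw [hR, RingHom.map_det, map_sub, hsm, map_mul, map_mul,
        hmapc _ (fun c => expand_C 2 c) M, hmapc _ (fun c => expand_C 2 c) N, e1]
    have e3 : P.comp (-X) = (CM - (X : K[X]) • CN).det := by
      change (compRingHom (-X)) _ = _
      rw [hP, RingHom.map_det, map_add, hsm, hmapc _ (fun c => by simp) M,
        hmapc _ (fun c => by simp) N]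
      have e4 : compRingHom (-X) (X : K[X]) = -X := by simp
      rw [e4, neg_smul, ← sub_eq_add_neg]
    rw [e2, e3, hP, ← Matrix.det_mul]
    congr 1
    rw [add_mul, mul_sub, mul_sub, Matrix.mul_smul, Matrix.smul_mul, Matrix.smul_mul,
      Matrix.mul_smul, smul_smul, hc']
    abel
  obtain ⟨u, v, huv⟩ := SC.OddSq.even_odd_parts P
  have h3 : P.comp (-X) = expand K 2 u - X * expand K 2 v := by
    have e : ∀ w : K[X], (expand K 2 w).comp (-X) = expand K 2 w := by
      intro w
      rw [expand_eq_comp_X_pow, comp_assoc]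
      congr 1
      simp
    rw [huv, add_comp, mul_comp, X_comp, e, e]
    ring
  have h4 : R = u ^ 2 - X * v ^ 2 := by
    apply expand_injective (R := K) (n := 2) (by norm_num)
    rw [h1, h3, huv, map_sub, map_mul, map_pow, map_pow, expand_X]
    ring
  have h5 : R.eval d = (M * M - d • (N * N)).det := by
    have h6 := RingHom.map_det (evalRingHom d) (CM * CM - (X : K[X]) • (CN * CN))
    rw [coe_evalRingHom] at h6
    rw [hR, h6]
    congr 1
    rw [hCM, hCN, ← map_mul, ← map_mul]
    ext1 i j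
    simp only [RingHom.mapMatrix_apply, Matrix.map_apply, Matrix.sub_apply, Matrix.smul_apply,
      smul_eq_mul, coe_evalRingHom, eval_sub, eval_mul, eval_X, eval_C]
  refine ⟨u.eval d, v.eval d, ?_⟩
  rw [← h5, h4]
  simp

/-- The norm of `β² - d γ²` is of the form `U² - d V²`. -/
theorem norm_form {K : Type*} [Field K] {k : ℕ} (π : K[X]) (hπ : π.Monic) (hk : π.natDegree = k)
    (β γ : K[X]) (d : K) :
    ∃ U V : K, (mulMat k π (β ^ 2 - C d * γ ^ 2)).det = U ^ 2 - d * V ^ 2 := by
  have h1 : mulMat k π (β ^ 2 - C d * γ ^ 2) = mulMat k π β * mulMat k π β -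
      d • (mulMat k π γ * mulMat k π γ) := by
    rw [← HankL.mulMat_mul π β β hπ hk, ← HankL.mulMat_mul π γ γ hπ hk, ← sq, ← sq]
    ext i j
    have h2 : mulMat k π (β ^ 2 - C d * γ ^ 2) i j =
        (((β ^ 2 - C d * γ ^ 2) * X ^ (i : ℕ)) %ₘ π).coeff j := rfl
    rw [h2, sub_mul, mul_assoc, ← smul_eq_C_mul, sub_modByMonic, smul_modByMonic, coeff_sub,
      coeff_smul]
    rfl
  rw [h1]
  apply det_sq_form
  rw [← HankL.mulMat_mul π β γ hπ hk, ← HankL.mulMat_mul π γ β hπ hk, mul_comm]

/-- `U² - d V²` has even valuation if `d` is a nonsquare unit. -/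
theorem norm_even (p : ℕ) [Fact p.Prime] (hp : p ≠ 2) (d U V : ℚ_[p]) (hd : ‖d‖ = 1)
    (hns : ¬ IsSquare d) (h0 : U ^ 2 - d * V ^ 2 ≠ 0) : Even (U ^ 2 - d * V ^ 2).valuation := by
  have hp1 : (1 : ℝ) < p := by exact_mod_cast (Fact.out : p.Prime).one_lt
  have hval : ∀ x y : ℚ_[p], x ≠ 0 → y ≠ 0 → ‖x‖ = ‖y‖ → x.valuation = y.valuation := by
    intro x y hx hy h
    rw [Padic.norm_eq_zpow_neg_valuation hx, Padic.norm_eq_zpow_neg_valuation hy] at h
    have := zpow_right_injective₀ (by linarith) (by linarith) h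
    omega
  have hsq : ∀ x : ℚ_[p], Even (x ^ 2).valuation := by
    intro x
    rw [Padic.valuation_pow]
    exact ⟨x.valuation, by push_cast; ring⟩
  by_cases hV : V = 0
  · rw [hV]
    simpa using hsq U
  have hd0 : d ≠ 0 := by
    rintro rfl
    rw [norm_zero] at hd
    exact zero_ne_one hd
  set w := U / V with hw
  have hUV : U ^ 2 - d * V ^ 2 = V ^ 2 * (w ^ 2 - d) := by
    rw [hw]
    field_simp
  have hwd : w ^ 2 - d ≠ 0 := by
    intro h
    rw [hUV, h, mul_zero] at h0
    exact h0 rfl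
  rw [hUV, Padic.valuation_mul (pow_ne_zero 2 hV) hwd]
  refine (hsq V).add ?_
  have hadd : ∀ x y : ℚ_[p], ‖x‖ ≠ ‖y‖ → ‖x - y‖ = max ‖x‖ ‖y‖ := by
    intro x y h
    rw [sub_eq_add_neg, Padic.add_eq_max_of_ne (by rwa [norm_neg]), norm_neg]
  rcases lt_trichotomy ‖w‖ 1 with h | h | h
  · have h1 : ‖w ^ 2‖ < 1 := by
      rw [norm_pow]
      exact pow_lt_one₀ (norm_nonneg _) h two_ne_zero
    have h2 : ‖w ^ 2 - d‖ = ‖(1 : ℚ_[p])‖ := by
      rw [hadd _ _ (by rw [hd]; exact h1.ne), hd, max_eq_right h1.le, norm_one]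
    rw [hval _ _ hwd one_ne_zero h2, Padic.valuation_one]
    exact ⟨0, by norm_num⟩
  · -- the unit case
    have hw0 : w ≠ 0 := by
      intro h1
      rw [h1, norm_zero] at h
      exact zero_ne_one h
    have h1 : ‖w ^ 2‖ = 1 := by rw [norm_pow, h, one_pow]
    have h2 : ‖w ^ 2 - d‖ ≤ 1 := by
      rw [sub_eq_add_neg]
      refine (Padic.nonarchimedean _ _).trans ?_
      rw [norm_neg, h1, hd, max_self]
    rcases h2.lt_or_eq with h3 | h3
    · exfalso
      apply hns
      have h4 : ‖d / w ^ 2‖ ≤ 1 := by rw [norm_div, hd, h1, div_one]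
      have h5 : ‖d / w ^ 2 - 1‖ < 1 := by
        have h6 : d / w ^ 2 - 1 = -((w ^ 2 - d) / w ^ 2) := by
          field_simp
          ring
        rw [h6, norm_neg, norm_div, h1, div_one]
        exact h3
      obtain ⟨z, hz⟩ := BG.LCond.one_unit_sq p hp ⟨d / w ^ 2, h4⟩ h5
      have hz' : (z : ℚ_[p]) ^ 2 = d / w ^ 2 := by
        have h7 := congrArg (fun q : ℤ_[p] => (q : ℚ_[p])) hz
        simpa using h7
      refine ⟨w * z, ?_⟩
      rw [← sq, mul_pow, hz']
      field_simp
    · rw [hval _ _ hwd one_ne_zero (by rw [h3, norm_one]), Padic.valuation_one]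
      exact ⟨0, by norm_num⟩
  · have h1 : 1 < ‖w ^ 2‖ := by
      rw [norm_pow]
      exact one_lt_pow₀ h two_ne_zero
    have h2 : ‖w ^ 2 - d‖ = ‖w ^ 2‖ := by
      rw [hadd _ _ (by rw [hd]; exact h1.ne'), hd, max_eq_left h1.le]
    have hw2 : w ^ 2 ≠ 0 := by
      intro h3
      rw [h3, norm_zero] at h1
      linarith
    rw [hval _ _ hwd hw2 h2]
    exact hsq w

end Stoll308.DQ
end

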