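import Pool.Agent.Work.BCM.C03
import Pool.Agent.Work.BCM.C08
import Pool.Agent.Work.BCM.C11
import Pool.Agent.Work.BCM.C12
import Pool.Agent.Work.BCM.C13
import Pool.Agent.Work.BCM.C15
import Pool.Agent.Work.BCM.C26
import Pool.Agent.Work.MP_308fa9_nt.FQ.Defs

section
set_option autoImplicit false

/-!
The number of residue classes modulo `l²` which are bad at `0`.
-/

namespace Stoll308.DQ

open Finset Matrix BG BF
open Stoll308.BE.BadCount (red isUnit_of_red)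

namespace BadA

/-- The condition for one pair in `ZMod (l ^ 2)`, with the sign `s` of the character. -/
def BadS {n : ℕ} (s : ℤ) (l : ℕ) (A B : Matrix (Fin n) (Fin n) (ZMod (l ^ 2))) : Prop :=
  red l B.det = 0 ∧ B.det ≠ 0 ∧ red l (B.adjugate * A).trace ≠ 0 ∧
    ∃ _h : Fact l.Prime, ∃ i, quadraticChar (ZMod l)
      ((-1) ^ (n / 2 + 1) * red l (B.adjugate i i)) = s

/-- The condition for two pairs in `ZMod (l ^ 2)`. -/
def Bad0R {n m : ℕ} (l : ℕ) (A B : Matrix (Fin n) (Fin n) (ZMod (l ^ 2)))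
    (A' B' : Matrix (Fin m) (Fin m) (ZMod (l ^ 2))) : Prop :=
  red l B.det = 0 ∧ red l B'.det = 0 ∧ red l (B.adjugate * A).trace ≠ 0 ∧
    red l (B'.adjugate * A').trace ≠ 0 ∧
    B.det * (B'.adjugate * A').trace - B'.det * (B.adjugate * A).trace ≠ 0 ∧
    ∃ _h : Fact l.Prime, ∃ i j, quadraticChar (ZMod l)
      ((-1) ^ ((n + m) / 2) * (red l (B.adjugate i i) * red l (B'.adjugate j j))) = -1

lemma badS_iff {n : ℕ} (l : ℕ) (A B : Matrix (Fin n) (Fin n) ℤ) :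
    BF.Bad l A B ↔ BadS (-1) l (A.map (Int.castRingHom (ZMod (l ^ 2))))
      (B.map (Int.castRingHom (ZMod (l ^ 2)))) := by
  unfold BF.Bad BadS
  rw [← BG.BadCount.cast_det, ← BG.BadCount.cast_trace]
  simp only [← BG.BadCount.cast_adj, map_intCast]
  rw [ZMod.intCast_zmod_eq_zero_iff_dvd, Ne, ZMod.intCast_zmod_eq_zero_iff_dvd, Ne,
    ZMod.intCast_zmod_eq_zero_iff_dvd]
  simp only [legendreSym]
  push_cast
  rfl

lemma bad0_iff {n m : ℕ} (l : ℕ) (A B : Matrix (Fin n) (Fin n) ℤ)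
    (A' B' : Matrix (Fin m) (Fin m) ℤ) :
    Bad0 l A B A' B' ↔ Bad0R l (A.map (Int.castRingHom (ZMod (l ^ 2))))
      (B.map (Int.castRingHom (ZMod (l ^ 2)))) (A'.map (Int.castRingHom (ZMod (l ^ 2))))
      (B'.map (Int.castRingHom (ZMod (l ^ 2)))) := by
  unfold Bad0 Bad0R
  rw [← BG.BadCount.cast_det, ← BG.BadCount.cast_det, ← BG.BadCount.cast_trace,
    ← BG.BadCount.cast_trace, ← Int.cast_mul, ← Int.cast_mul, ← Int.cast_sub]
  simp only [← BG.BadCount.cast_adj, map_intCast]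
  rw [ZMod.intCast_zmod_eq_zero_iff_dvd, ZMod.intCast_zmod_eq_zero_iff_dvd, Ne,
    ZMod.intCast_zmod_eq_zero_iff_dvd, Ne, ZMod.intCast_zmod_eq_zero_iff_dvd, Ne,
    ZMod.intCast_zmod_eq_zero_iff_dvd]
  simp only [legendreSym]
  push_cast
  rfl

lemma map_eq {n : ℕ} (k : ℕ) (A A₁ : Matrix (Fin n) (Fin n) ℤ)
    (h : ∀ i j, (k : ℤ) ∣ A i j - A₁ i j) :
    A.map (Int.castRingHom (ZMod k)) = A₁.map (Int.castRingHom (ZMod k)) := by
  ext i j
  simp only [Matrix.map_apply, eq_intCast]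
  have := (ZMod.intCast_zmod_eq_zero_iff_dvd (A i j - A₁ i j) k).2 (h i j)
  rw [Int.cast_sub, sub_eq_zero] at this
  exact this

end BadA

open BadA

/-- The condition depends only on the matrices modulo `l²`. -/
theorem bad0_congr {n m : ℕ} (l : ℕ) (A B A₁ B₁ : Matrix (Fin n) (Fin n) ℤ)
    (A' B' A₁' B₁' : Matrix (Fin m) (Fin m) ℤ)
    (hA : ∀ i j, ((l ^ 2 : ℕ) : ℤ) ∣ A i j - A₁ i j)
    (hB : ∀ i j, ((l ^ 2 : ℕ) : ℤ) ∣ B i j - B₁ i j)
    (hA' : ∀ i j, ((l ^ 2 : ℕ) : ℤ) ∣ A' i j - A₁' i j)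
    (hB' : ∀ i j, ((l ^ 2 : ℕ) : ℤ) ∣ B' i j - B₁' i j) :
    Bad0 l A B A' B' ↔ Bad0 l A₁ B₁ A₁' B₁' := by
  rw [bad0_iff, bad0_iff, map_eq _ A A₁ hA, map_eq _ B B₁ hB, map_eq _ A' A₁' hA',
    map_eq _ B' B₁' hB']

namespace BadA

section scale

variable {l : ℕ} {n m : ℕ}

/-- The first matrix of a vector. -/
def mA {R : Type*} (x : Ix n ⊕ Ix n → R) : Matrix (Fin n) (Fin n) R := symM fun p => x (Sum.inl p)

/-- The second matrix of a vector. -/
def mB {R : Type*} (x : Ix n ⊕ Ix n → R) : Matrix (Fin n) (Fin n) R := symM fun p => x (Sum.inr p)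

/-- The second matrix is multiplied by `c`. -/
def scal {R : Type*} [Mul R] (c : R) (x : Ix n ⊕ Ix n → R) : Ix n ⊕ Ix n → R :=
  Sum.elim (fun p => x (Sum.inl p)) (fun p => c * x (Sum.inr p))

lemma mA_scal {R : Type*} [CommRing R] (c : R) (x : Ix n ⊕ Ix n → R) : mA (scal c x) = mA x := rfl

lemma mB_scal {R : Type*} [CommRing R] (c : R) (x : Ix n ⊕ Ix n → R) :
    mB (scal c x) = c • mB x := rfl

lemma scal_inj {R : Type*} [CommRing R] {c : R} (hc : IsUnit c) :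
    Function.Injective (scal c : (Ix n ⊕ Ix n → R) → (Ix n ⊕ Ix n → R)) := by
  intro x y h
  funext i
  have h1 := congrFun h i
  rcases i with p | p
  · exact h1
  · exact hc.mul_left_cancel h1

lemma det_smul' {R : Type*} [CommRing R] (c : R) (B : Matrix (Fin n) (Fin n) R) :
    (c • B).det = c ^ n * B.det := by
  rw [Matrix.det_smul, Fintype.card_fin]

lemma adj_smul' {R : Type*} [CommRing R] (c : R) (B : Matrix (Fin n) (Fin n) R) (i j : Fin n) :
    (c • B).adjugate i j = c ^ (n - 1) * B.adjugate i j := by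
  rw [Matrix.adjugate_smul, Fintype.card_fin]
  rfl

lemma tr_smul' {R : Type*} [CommRing R] (c : R) (A B : Matrix (Fin n) (Fin n) R) :
    ((c • B).adjugate * A).trace = c ^ (n - 1) * (B.adjugate * A).trace := by
  rw [Matrix.adjugate_smul, Fintype.card_fin, Matrix.smul_mul, Matrix.trace_smul, smul_eq_mul]

variable [hl : Fact l.Prime]

lemma badS_scal {s : ℤ} {c : ZMod (l ^ 2)} (hc : red l c ≠ 0) {x : Ix n ⊕ Ix n → ZMod (l ^ 2)}
    (h : BadS s l (mA x) (mB x)) :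
    BadS (quadraticChar (ZMod l) (red l c ^ (n - 1)) * s) l (mA (scal c x)) (mB (scal c x)) := by
  obtain ⟨h1, h2, h3, hF, i, hi⟩ := h
  have hu : IsUnit c := isUnit_of_red hc
  rw [mA_scal, mB_scal]
  refine ⟨?_, ?_, ?_, hF, i, ?_⟩
  · rw [det_smul', map_mul, h1, mul_zero]
  · rw [det_smul']
    intro h4
    exact h2 ((hu.pow n).mul_right_eq_zero.1 h4)
  · rw [tr_smul', map_mul, map_pow]
    exact mul_ne_zero (pow_ne_zero _ hc) h3
  · rw [adj_smul', map_mul (red l), map_pow, mul_left_comm, map_mul (quadraticChar (ZMod l)), hi]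

end scale

section count

variable {l : ℕ} [hl : Fact l.Prime] {n m : ℕ}

open Classical in
/-- The pairs with the sign `s`. -/
noncomputable def TS (s : ℤ) (l n : ℕ) [Fact l.Prime] : Finset (Ix n ⊕ Ix n → ZMod (l ^ 2)) :=
  univ.filter fun x => BadS s l (mA x) (mB x)

lemma mem_TS {s : ℤ} {x : Ix n ⊕ Ix n → ZMod (l ^ 2)} :
    x ∈ TS s l n ↔ BadS s l (mA x) (mB x) := by
  classical
  unfold TS
  rw [mem_filter]
  exact ⟨fun h => h.2, fun h => ⟨mem_univ _, h⟩⟩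

open Classical in
lemma card_TS_neg (hn : 4 ≤ n) (he : Even n) (h5 : 5 ≤ l) :
    (l : ℝ) ^ (2 * (n * (n + 1)) - 1) / 2 ^ (2 * n + 3) ≤ ((TS (-1) l n).card : ℝ) := by
  refine (BF.bad_count hn he l hl.out h5).trans (Nat.cast_le.2 ?_)
  refine Finset.card_le_card_of_injOn (fun v i => (((v i : Fin (l ^ 2)) : ℕ) : ZMod (l ^ 2))) ?_ ?_
  · intro v hv
    have hv' := (Finset.mem_filter.1 (Finset.mem_coe.1 hv)).2
    refine Finset.mem_coe.2 (mem_TS.2 ?_)
    rw [badS_iff, BG.BadCount.symM_map, BG.BadCount.symM_map] at hv'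
    simp only [eq_intCast, Int.cast_natCast] at hv'
    exact hv'
  · intro v _ v' _ h
    funext i
    have h1 := congrFun h i
    simp only at h1
    have h2 := (ZMod.natCast_eq_natCast_iff' _ _ _).1 h1
    rw [Nat.mod_eq_of_lt (v i).2, Nat.mod_eq_of_lt (v' i).2] at h2
    exact Fin.ext h2

lemma card_TS_pos (he : Even n) (hn : 1 ≤ n) (h2 : l ≠ 2) : (TS (-1) l n).card ≤ (TS 1 l n).card := by
  obtain ⟨a, ha⟩ := FiniteField.exists_nonsquare (F := ZMod l) (by rwa [ZMod.ringChar_zmod_n])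
  have ha1 : quadraticChar (ZMod l) a = -1 := quadraticChar_neg_one_iff_not_isSquare.2 ha
  have ha0 : a ≠ 0 := by
    rintro rfl
    simp at ha1
  obtain ⟨c, hc⟩ := Stoll308.BE.BadCount.red_surj (l := l) a
  have hc0 : red l c ≠ 0 := by rwa [hc]
  refine Finset.card_le_card_of_injOn (scal c) ?_ (scal_inj (isUnit_of_red hc0)).injOn
  intro x hx
  refine Finset.mem_coe.2 (mem_TS.2 ?_)
  have h3 := badS_scal hc0 (mem_TS.1 (Finset.mem_coe.1 hx))
  have h4 : quadraticChar (ZMod l) (red l c ^ (n - 1)) = -1 := by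
    have ho : Odd (n - 1) := by
      obtain ⟨k, hk⟩ := he
      exact ⟨k - 1, by omega⟩
    rw [hc, map_pow, ha1, ho.neg_one_pow]
  rwa [h4, neg_one_mul, neg_neg] at h3

/-- The determinant modulo `l ^ 2`. -/
noncomputable def fd (l : ℕ) (x : (Ix n ⊕ Ix n → ZMod (l ^ 2)) × (Ix m ⊕ Ix m → ZMod (l ^ 2))) :
    ZMod (l ^ 2) :=
  (mB x.1).det * ((mB x.2).adjugate * mA x.2).trace -
    (mB x.2).det * ((mB x.1).adjugate * mA x.1).trace

open Classical in
lemma half (hn : 1 ≤ n) (h5 : 5 ≤ l) : (TS (-1) l n ×ˢ TS 1 l m).card ≤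
    2 * ((TS (-1) l n ×ˢ TS 1 l m).filter fun x => fd l x ≠ 0).card := by
  have h4 : red l (4 : ZMod (l ^ 2)) ≠ 0 := by
    have e : (4 : ZMod (l ^ 2)) = ((4 : ℕ) : ZMod (l ^ 2)) := by norm_num
    rw [e, map_natCast, Ne, ZMod.natCast_eq_zero_iff]
    intro h
    exact absurd (Nat.le_of_dvd (by norm_num) h) (by omega)
  have h3 : IsUnit (3 : ZMod (l ^ 2)) := by
    apply isUnit_of_red
    have e : (3 : ZMod (l ^ 2)) = ((3 : ℕ) : ZMod (l ^ 2)) := by norm_num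
    rw [e, map_natCast, Ne, ZMod.natCast_eq_zero_iff]
    intro h
    exact absurd (Nat.le_of_dvd (by norm_num) h) (by omega)
  have hu4 : IsUnit (4 : ZMod (l ^ 2)) := isUnit_of_red h4
  have hq : quadraticChar (ZMod l) (red l (4 : ZMod (l ^ 2)) ^ (n - 1)) = 1 := by
    have h20 : (2 : ZMod l) ≠ 0 := by
      have e : (2 : ZMod l) = ((2 : ℕ) : ZMod l) := by norm_num
      rw [e, Ne, ZMod.natCast_eq_zero_iff]
      intro h
      exact absurd (Nat.le_of_dvd (by norm_num) h) (by omega)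
    have e : red l (4 : ZMod (l ^ 2)) = 2 ^ 2 := by
      rw [map_ofNat]; norm_num
    rw [e, map_pow, quadraticChar_sq_one' h20, one_pow]
  have h6 : ((TS (-1) l n ×ˢ TS 1 l m).filter fun x => ¬ fd l x ≠ 0).card ≤
      ((TS (-1) l n ×ˢ TS 1 l m).filter fun x => fd l x ≠ 0).card := by
    refine Finset.card_le_card_of_injOn (fun x => (scal 4 x.1, x.2)) ?_ ?_
    · rintro ⟨x, x'⟩ hx
      obtain ⟨hx1, hx2⟩ := Finset.mem_filter.1 (Finset.mem_coe.1 hx)
      obtain ⟨hx3, hx4⟩ := Finset.mem_product.1 hx1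
      rw [not_not] at hx2
      simp only at hx3 hx4
      refine Finset.mem_coe.2 (Finset.mem_filter.2 ⟨Finset.mem_product.2 ⟨?_, hx4⟩, ?_⟩)
      · have h7 := badS_scal h4 (mem_TS.1 hx3)
        rw [hq, one_mul] at h7
        exact mem_TS.2 h7
      · unfold fd at hx2 ⊢
        simp only at hx2 ⊢
        rw [mB_scal, mA_scal, det_smul', tr_smul']
        intro h8
        have e : (4 : ZMod (l ^ 2)) ^ n = 4 ^ (n - 1) * 4 := by
          rw [← pow_succ, Nat.sub_add_cancel hn]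
        rw [e] at h8
        have h9 : (4 : ZMod (l ^ 2)) ^ (n - 1) * (3 * ((mB x).det *
            ((mB x').adjugate * mA x').trace)) = 0 := by
          linear_combination h8 - 4 ^ (n - 1) * hx2
        have h10 := (hu4.pow (n - 1)).mul_right_eq_zero.1 h9
        have h11 := h3.mul_right_eq_zero.1 h10
        have h12 := mem_TS.1 hx4
        have h13 := (isUnit_of_red h12.2.2.1).mul_left_eq_zero.1 h11
        exact (mem_TS.1 hx3).2.1 h13
    · rintro ⟨x, x'⟩ _ ⟨y, y'⟩ _ h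
      simp only [Prod.mk.injEq] at h
      exact Prod.ext (scal_inj hu4 h.1) h.2
  have h7 := Finset.card_filter_add_card_filter_not (s := TS (-1) l n ×ˢ TS 1 l m)
    (fun x => fd l x ≠ 0)
  omega

end count

lemma arith (l n m : ℕ) (hn : 1 ≤ n) (hm : 1 ≤ m) {a b N : ℝ}
    (h1 : (l : ℝ) ^ (2 * (n * (n + 1)) - 1) / 2 ^ (2 * n + 3) ≤ a)
    (h2 : (l : ℝ) ^ (2 * (m * (m + 1)) - 1) / 2 ^ (2 * m + 3) ≤ b) (h3 : a * b ≤ 2 * N) :
    (l : ℝ) ^ (2 * (n * (n + 1) + m * (m + 1)) - 2) / 2 ^ (2 * n + 2 * m + 7) ≤ N := by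
  have h6 : (l : ℝ) ^ (2 * (n * (n + 1)) - 1) / 2 ^ (2 * n + 3) *
      ((l : ℝ) ^ (2 * (m * (m + 1)) - 1) / 2 ^ (2 * m + 3)) ≤ a * b := by
    have h0 : (0 : ℝ) ≤ (l : ℝ) ^ (2 * (n * (n + 1)) - 1) / 2 ^ (2 * n + 3) := by positivity
    exact mul_le_mul h1 h2 (by positivity) (h0.trans h1)
  have hexp : 2 * (n * (n + 1) + m * (m + 1)) - 2 =
      (2 * (n * (n + 1)) - 1) + (2 * (m * (m + 1)) - 1) := by
    have : 1 ≤ n * (n + 1) := Nat.mul_pos (by omega) (by omega)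
    have : 1 ≤ m * (m + 1) := Nat.mul_pos (by omega) (by omega)
    omega
  have h7 : (l : ℝ) ^ (2 * (n * (n + 1) + m * (m + 1)) - 2) / 2 ^ (2 * n + 2 * m + 7) * 2 =
      (l : ℝ) ^ (2 * (n * (n + 1)) - 1) / 2 ^ (2 * n + 3) *
      ((l : ℝ) ^ (2 * (m * (m + 1)) - 1) / 2 ^ (2 * m + 3)) := by
    have e2 : (2 : ℝ) ^ (2 * n + 2 * m + 7) = 2 ^ (2 * n + 3) * 2 ^ (2 * m + 3) * 2 := by
      rw [← pow_add, ← pow_succ]
      congr 1
      ring
    rw [hexp, pow_add, e2]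
    generalize (l : ℝ) ^ (2 * (n * (n + 1)) - 1) = x
    generalize (l : ℝ) ^ (2 * (m * (m + 1)) - 1) = y
    have hu : (2 : ℝ) ^ (2 * n + 3) ≠ 0 := by positivity
    have hv : (2 : ℝ) ^ (2 * m + 3) ≠ 0 := by positivity
    generalize (2 : ℝ) ^ (2 * n + 3) = u at hu ⊢
    generalize (2 : ℝ) ^ (2 * m + 3) = v at hv ⊢
    field_simp
  have h8 := (h7.le.trans h6).trans h3
  linarith

end BadA

open Classical in
theorem bad0_count {n m : ℕ} (hn : 4 ≤ n) (he : Even n) (hm : 4 ≤ m) (hem : Even m) (l : ℕ)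
    (hl : l.Prime) (h5 : 5 ≤ l) :
    (l : ℝ) ^ (2 * (n * (n + 1) + m * (m + 1)) - 2) / 2 ^ (2 * n + 2 * m + 7) ≤
      ((univ.filter fun v : (Ix n ⊕ Ix n) ⊕ (Ix m ⊕ Ix m) → Fin (l ^ 2) =>
        Bad0 l (symM fun p => ((v (Sum.inl (Sum.inl p)) : ℕ) : ℤ))
          (symM fun p => ((v (Sum.inl (Sum.inr p)) : ℕ) : ℤ))
          (symM fun p => ((v (Sum.inr (Sum.inl p)) : ℕ) : ℤ))
          (symM fun p => ((v (Sum.inr (Sum.inr p)) : ℕ) : ℤ))).card : ℝ) := by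
  have : Fact l.Prime := ⟨hl⟩
  have h1 := card_TS_neg (l := l) hn he h5
  have h2 := (card_TS_neg (l := l) hm hem h5).trans
    (Nat.cast_le.2 (card_TS_pos (l := l) hem (by omega) (by omega)))
  have h3 := half (l := l) (n := n) (m := m) (by omega) h5
  have h4 : ((TS (-1) l n ×ˢ TS 1 l m).filter fun x => fd l x ≠ 0).card ≤
      (univ.filter fun v : (Ix n ⊕ Ix n) ⊕ (Ix m ⊕ Ix m) → Fin (l ^ 2) =>
        Bad0 l (symM fun p => ((v (Sum.inl (Sum.inl p)) : ℕ) : ℤ))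
          (symM fun p => ((v (Sum.inl (Sum.inr p)) : ℕ) : ℤ))
          (symM fun p => ((v (Sum.inr (Sum.inl p)) : ℕ) : ℤ))
          (symM fun p => ((v (Sum.inr (Sum.inr p)) : ℕ) : ℤ))).card := by
    refine Finset.card_le_card_of_injOn (fun x i => ⟨((Sum.elim x.1 x.2 i : ZMod (l ^ 2))).val,
      ZMod.val_lt _⟩) ?_ ?_
    · rintro ⟨x, x'⟩ hx
      obtain ⟨hx1, hx2⟩ := Finset.mem_filter.1 (Finset.mem_coe.1 hx)
      obtain ⟨hx3, hx4⟩ := Finset.mem_product.1 hx1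
      have hx3 := mem_TS.1 hx3
      have hx4 := mem_TS.1 hx4
      refine Finset.mem_coe.2 (Finset.mem_filter.2 ⟨Finset.mem_univ _, ?_⟩)
      rw [bad0_iff, BG.BadCount.symM_map, BG.BadCount.symM_map, BG.BadCount.symM_map,
        BG.BadCount.symM_map]
      simp only [eq_intCast, Int.cast_natCast, ZMod.natCast_zmod_val, Sum.elim_inl, Sum.elim_inr]
      obtain ⟨a1, a2, a3, hF, i, hi⟩ := hx3
      obtain ⟨b1, b2, b3, _, j, hj⟩ := hx4
      refine ⟨a1, b1, a3, b3, hx2, hF, i, j, ?_⟩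
      have e : ((-1 : ZMod l)) ^ ((n + m) / 2) * (red l ((mB x).adjugate i i) *
          red l ((mB x').adjugate j j)) = ((-1) ^ (n / 2 + 1) * red l ((mB x).adjugate i i)) *
          ((-1) ^ (m / 2 + 1) * red l ((mB x').adjugate j j)) := by
        have e1 : (n + m) / 2 = n / 2 + m / 2 := by
          obtain ⟨k, hk⟩ := he
          obtain ⟨k', hk'⟩ := hem
          omega
        rw [e1, pow_add]
        ring
      have h6 : quadraticChar (ZMod l) ((-1 : ZMod l) ^ ((n + m) / 2) *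
          (red l ((mB x).adjugate i i) * red l ((mB x').adjugate j j))) = -1 := by
        rw [e, map_mul, hi, hj, mul_one]
      exact h6
    · rintro ⟨x, x'⟩ _ ⟨y, y'⟩ _ h
      have h6 : ∀ i, Sum.elim x x' i = Sum.elim y y' i := by
        intro i
        have h7 := congrFun h i
        simp only [Fin.mk.injEq] at h7
        exact ZMod.val_injective _ h7
      exact Prod.ext (funext fun p => h6 (Sum.inl p)) (funext fun p => h6 (Sum.inr p))
  generalize (univ.filter fun v : (Ix n ⊕ Ix n) ⊕ (Ix m ⊕ Ix m) → Fin (l ^ 2) =>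
        Bad0 l (symM fun p => ((v (Sum.inl (Sum.inl p)) : ℕ) : ℤ))
          (symM fun p => ((v (Sum.inl (Sum.inr p)) : ℕ) : ℤ))
          (symM fun p => ((v (Sum.inr (Sum.inl p)) : ℕ) : ℤ))
          (symM fun p => ((v (Sum.inr (Sum.inr p)) : ℕ) : ℤ))).card = N at h4 ⊢
  have h5' : ((TS (-1) l n).card : ℝ) * ((TS 1 l m).card : ℝ) ≤ 2 * (N : ℝ) := by
    rw [Finset.card_product] at h3
    exact_mod_cast h3.trans (Nat.mul_le_mul_left 2 h4)
  exact arith l n m (by omega) (by omega) h1 h2 h5'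

end Stoll308.DQ
end

section
set_option autoImplicit false

/-!
Working definitions.
-/

namespace Stoll308.FQ

open Polynomial Finset Matrix BG BF

/-- The determinant of `B` is exactly divisible by `l`, `0` is a simple root modulo `l` of the
characteristic polynomial of the pair, and the class at this root has the sign `s`. -/
def BadZ {n : ℕ} (s : ℤ) (l : ℕ) (A B : Matrix (Fin n) (Fin n) ℤ) : Prop :=
  (l : ℤ) ∣ B.det ∧ ¬ (l : ℤ) ^ 2 ∣ B.det ∧ ¬ (l : ℤ) ∣ (B.adjugate * A).trace ∧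
    ∃ _h : Fact l.Prime, ∃ i, legendreSym l ((-1) ^ (n / 2 + 1) * B.adjugate i i) = s

/-- The prime `l` has a simple root of `q`, given by the integer `r` modulo `l²`. -/
def Root {m : ℕ} (b : Fin (m + 1) → ℤ) (l : ℕ) (r : ℤ) : Prop :=
  (l : ℤ) ^ 2 ∣ (GZ ℤ b).eval r ∧ ¬ (l : ℤ) ∣ (derivative (GZ ℤ b)).eval r

open Classical in
/-- The sum of the inverses of the primes in `S` diverges. -/
def Dense (S : Set ℕ) : Prop :=
  ∀ T : ℝ, ∃ z : ℕ, T ≤ ∑ l ∈ (Icc 5 z).filter (fun l => l.Prime ∧ l ∈ S), (1 : ℝ) / l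

end Stoll308.FQ
end

section
set_option autoImplicit false

/-!
Few polynomials come from reduced pairs with lengths of the same size which satisfy all local
conditions.
-/

namespace Stoll308.BF

open Polynomial Finset Matrix BG

open Classical in
theorem large_t {n : ℕ} (hn : 4 ≤ n) (he : Even n) (K R : ℝ) (hK : 1 ≤ K) (hR : 1 ≤ R) (ε : ℝ)
    (hε : 0 < ε) : ∃ H₀ : ℝ, ∀ H : ℝ, H₀ ≤ H → ∀ T : Finset (Fin (n + 1) → ℤ),
      (∀ a ∈ T, ∃ (A B : Matrix (Fin n) (Fin n) ℤ) (t : Fin n → ℝ), RPair K H a A B t ∧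
        (∀ i j, t j ≤ R * t i) ∧ ∀ l : ℕ, l ≠ 2 → ¬ Bad l A B) →
      (T.card : ℝ) ≤ ε * H ^ (n + 1) := by
  obtain ⟨Q, hQ⟩ : ∃ Q : ℝ, Q = R ^ (2 * n) * K := ⟨_, rfl⟩
  have hQ1 : 1 ≤ Q := by
    rw [hQ]
    exact one_le_mul_of_one_le_of_one_le (one_le_pow₀ hR) hK
  have hQ0 : 0 < Q := by linarith
  obtain ⟨z, D₀, hz⟩ := cube_small hn he (ε / Q ^ (n + 1)) (by positivity)
  refine ⟨max 1 (|D₀| ^ n), ?_⟩
  intro H hH T hT
  have hH1 : 1 ≤ H := (le_max_left _ _).trans hH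
  have hHD : |D₀| ^ n ≤ H := (le_max_right _ _).trans hH
  obtain ⟨D, hD⟩ : ∃ D : ℝ, D = (Q * H) ^ ((n : ℝ)⁻¹) := ⟨_, rfl⟩
  have hD0 : 0 ≤ D := by rw [hD]; positivity
  have hn0 : n ≠ 0 := by omega
  have hDn : D ^ n = Q * H := by
    rw [hD]
    exact Real.rpow_inv_natCast_pow (by positivity) hn0
  have hD₀ : D₀ ≤ D := by
    refine (le_abs_self _).trans ?_
    apply le_of_pow_le_pow_left₀ hn0 hD0
    rw [hDn]
    calc |D₀| ^ n ≤ H := hHD
      _ ≤ Q * H := le_mul_of_one_le_left (by linarith) hQ1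
  have h1 := hz D hD₀
  -- the lengths
  have htt : ∀ (a : Fin (n + 1) → ℤ) (A B : Matrix (Fin n) (Fin n) ℤ) (t : Fin n → ℝ),
      RPair K H a A B t → (∀ i j, t j ≤ R * t i) → ∀ i j, t i * t j ≤ D := by
    intro a A B t h ht i j
    have hpos := h.pos
    have e1 : ∀ j, t j ^ n ≤ R ^ n * ∏ i, t i := by
      intro j
      calc t j ^ n = ∏ _i : Fin n, t j := by
            rw [Finset.prod_const, Finset.card_univ, Fintype.card_fin]
        _ ≤ ∏ i : Fin n, (R * t i) :=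
            Finset.prod_le_prod (fun _ _ => (hpos j).le) (fun i _ => ht i j)
        _ = R ^ n * ∏ i, t i := by
            rw [Finset.prod_mul_distrib, Finset.prod_const, Finset.card_univ, Fintype.card_fin]
    apply le_of_pow_le_pow_left₀ hn0 hD0
    rw [hDn, mul_pow]
    have hp : 0 < ∏ i, t i := Finset.prod_pos fun i _ => hpos i
    calc t i ^ n * t j ^ n ≤ (R ^ n * ∏ i, t i) * (R ^ n * ∏ i, t i) :=
          mul_le_mul (e1 i) (e1 j) (pow_pos (hpos j) n).le (by positivity)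
      _ = R ^ (2 * n) * (∏ i, t i) ^ 2 := by ring
      _ ≤ R ^ (2 * n) * (K * H) := by
          gcongr
          exact h.prod
      _ = Q * H := by rw [hQ]; ring
  set S := ((Fintype.piFinset fun _ : Ix n ⊕ Ix n => Icc (-⌊D⌋) ⌊D⌋).filter
        fun v => ∀ l ∈ Icc 5 z, l.Prime → ¬ Bad l (symM fun p => v (Sum.inl p))
          (symM fun p => v (Sum.inr p))) with hS
  have hch : ∀ a : Fin (n + 1) → ℤ, ∃ v : Ix n ⊕ Ix n → ℤ, a ∈ T →
      v ∈ S ∧ HasChar a (symM fun p => v (Sum.inl p)) (symM fun p => v (Sum.inr p)) := by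
    intro a
    by_cases ha : a ∈ T
    swap
    · exact ⟨0, fun h => absurd h ha⟩
    obtain ⟨A, B, t, hP, ht, hl⟩ := hT a ha
    have hA : (symM fun p : Ix n => A p.1.1 p.1.2) = A := symM_of_isSymm A hP.symA
    have hB : (symM fun p : Ix n => B p.1.1 p.1.2) = B := symM_of_isSymm B hP.symB
    refine ⟨Sum.elim (fun p => A p.1.1 p.1.2) (fun p => B p.1.1 p.1.2), fun _ => ⟨?_, ?_⟩⟩
    · rw [hS]
      simp only [mem_filter, Fintype.mem_piFinset, mem_Icc, Sum.elim_inl, Sum.elim_inr]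
      constructor
      · rintro (p | p)
        · have h2 := abs_le.1 ((hP.hA p.1.1 p.1.2).trans (htt a A B t hP ht _ _))
          simp only [Sum.elim_inl]
          constructor
          · have : -(A p.1.1 p.1.2) ≤ ⌊D⌋ := by
              rw [Int.le_floor]; push_cast; linarith
            linarith
          · rw [Int.le_floor]; exact h2.2
        · have h2 := abs_le.1 ((hP.hB p.1.1 p.1.2).trans (htt a A B t hP ht _ _))
          simp only [Sum.elim_inr]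
          constructor
          · have : -(B p.1.1 p.1.2) ≤ ⌊D⌋ := by
              rw [Int.le_floor]; push_cast; linarith
            linarith
          · rw [Int.le_floor]; exact h2.2
      · intro l hl5 _
        rw [hA, hB]
        exact hl l (by omega)
    · simp only [Sum.elim_inl, Sum.elim_inr]
      rw [hA, hB]
      exact hP.char
  choose v hv using hch
  have hinj : Set.InjOn v T := by
    intro a ha a' ha' h
    have h1 := (hv a ha).2
    have h2 := (hv a' ha').2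
    rw [h] at h1
    exact h1.inj h2
  have hcard : T.card ≤ S.card :=
    Finset.card_le_card_of_injOn v (fun a ha => (hv a ha).1) hinj
  calc (T.card : ℝ) ≤ (S.card : ℝ) := by exact_mod_cast hcard
    _ ≤ ε / Q ^ (n + 1) * D ^ (n * (n + 1)) := h1
    _ = ε * H ^ (n + 1) := by
        rw [pow_mul, hDn, mul_pow]
        have hQn : Q ^ (n + 1) ≠ 0 := (pow_pos hQ0 _).ne'
        field_simp

end Stoll308.BF
end

section
set_option autoImplicit false

/-!
Square roots modulo an irreducible polynomial all whose roots are near `θ`.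
-/

namespace Stoll308.DQ

open Polynomial Finset SC

/-- all lower coefficients of the shifted polynomial are divisible by `p` -/
theorem taylor_small (p : ℕ) [Fact p.Prime] (π : ℚ_[p][X]) (hm : π.Monic)
    (hirr : Irreducible π) (θ : ℚ_[p]) (hθ : ‖π.eval θ‖ < 1) (i : ℕ) (hi : i < π.natDegree) :
    ‖(taylor θ π).coeff i‖ < 1 := by
  have hm' : (taylor θ π).Monic := by
    rw [Monic, leadingCoeff_taylor]
    exact hm
  have hirr' : Irreducible (taylor θ π) := by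
    have := (MulEquiv.irreducible_iff (taylorEquiv θ).toMulEquiv (x := π)).2 hirr
    exact this
  have hsv := spectralValue_irr p _ hm' hirr'
  have hdeg : 0 < π.natDegree := hirr.natDegree_pos
  rw [natDegree_taylor, taylor_coeff_zero] at hsv
  have hlt : spectralValue (taylor θ π) < 1 := by
    rw [hsv]
    exact Real.rpow_lt_one (norm_nonneg _) hθ (by positivity)
  have h1 : spectralValueTerms (taylor θ π) i ≤ spectralValue (taylor θ π) :=
    le_ciSup (spectralValueTerms_bddAbove (taylor θ π)) i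
  rw [spectralValueTerms_of_lt_natDegree _ (by rwa [natDegree_taylor]), natDegree_taylor] at h1
  by_contra hcon
  push Not at hcon
  have hpos : (0 : ℝ) < (π.natDegree : ℝ) - i := by
    rw [sub_pos]; exact_mod_cast hi
  have h2 : (1 : ℝ) ≤ ‖(taylor θ π).coeff i‖ ^ (1 / (π.natDegree - i : ℝ)) :=
    Real.one_le_rpow hcon (by positivity)
  linarith

/-- `π` is integral and congruent to `(X - θ)^k` -/
theorem exists_lift (p : ℕ) [Fact p.Prime] (π : ℚ_[p][X]) (hm : π.Monic)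
    (hirr : Irreducible π) (θ : ℤ_[p]) (hθ : ‖π.eval (θ : ℚ_[p])‖ < 1) :
    ∃ g R : ℤ_[p][X], toQ g = π ∧ g.Monic ∧
      (X - C θ) ^ π.natDegree = g + C (p : ℤ_[p]) * R := by
  have hinj : Function.Injective (algebraMap ℤ_[p] ℚ_[p]) := FaithfulSMul.algebraMap_injective _ _
  have hm' : (taylor (θ : ℚ_[p]) π).Monic := by
    rw [Monic, leadingCoeff_taylor]
    exact hm
  have hsm := taylor_small p π hm hirr (θ : ℚ_[p]) hθ
  obtain ⟨g', hg', hgd, hgm⟩ := exists_toQ (taylor (θ : ℚ_[p]) π) (by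
    intro i
    rcases lt_trichotomy i π.natDegree with h | h | h
    · exact (hsm i h).le
    · have h1 : (taylor (θ : ℚ_[p]) π).coeff i = 1 := by
        rw [h, ← natDegree_taylor π (θ : ℚ_[p])]
        exact hm'
      rw [h1, norm_one]
    · rw [coeff_eq_zero_of_natDegree_lt (by rwa [natDegree_taylor]), norm_zero]
      norm_num)
  rw [natDegree_taylor] at hgd
  have hgm' := hgm hm'
  -- `g' = X^k - p R'`
  have hR' : ∃ R' : ℤ_[p][X], X ^ π.natDegree = g' + C (p : ℤ_[p]) * R' := by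
    have h1 : C (p : ℤ_[p]) ∣ X ^ π.natDegree - g' := by
      rw [C_dvd_iff_dvd_coeff]
      intro i
      rw [coeff_sub, coeff_X_pow]
      rcases lt_trichotomy i π.natDegree with h | h | h
      · rw [if_neg h.ne, zero_sub, dvd_neg, ← PadicInt.norm_lt_one_iff_dvd]
        have h2 : ((g'.coeff i : ℤ_[p]) : ℚ_[p]) = (taylor (θ : ℚ_[p]) π).coeff i := by
          rw [← hg', coeff_map]
          rfl
        rw [PadicInt.norm_def, h2]
        exact hsm i h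
      · rw [if_pos h, h, ← hgd]
        have h3 : g'.coeff g'.natDegree = 1 := hgm'
        rw [h3, sub_self]
        exact dvd_zero _
      · rw [if_neg h.ne', coeff_eq_zero_of_natDegree_lt (by rwa [hgd]), sub_zero]
        exact dvd_zero _
    obtain ⟨R', hR'⟩ := h1
    exact ⟨R', by rw [← hR']; ring⟩
  obtain ⟨R', hR'⟩ := hR'
  refine ⟨taylor (-θ) g', taylor (-θ) R', ?_, ?_, ?_⟩
  · rw [toQ, map_taylor]
    change taylor _ (toQ g') = π
    rw [hg', taylor_taylor]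
    have h1 : (algebraMap ℤ_[p] ℚ_[p]) (-θ) + (θ : ℚ_[p]) = 0 := by
      rw [map_neg]
      exact neg_add_cancel _
    rw [h1, taylor_zero]
  · rw [Monic, leadingCoeff_taylor]
    exact hgm'
  · have h1 := congrArg (taylor (-θ)) hR'
    rw [taylor_X_pow, map_add, taylor_mul, taylor_C, C_neg, ← sub_eq_add_neg] at h1
    exact h1

theorem unit_sq (p : ℕ) [Fact p.Prime] (hp : p ≠ 2) (π : ℚ_[p][X]) (hm : π.Monic)
    (hirr : Irreducible π) (θ : ℤ_[p]) (hθ : ‖π.eval (θ : ℚ_[p])‖ < 1) (F : ℤ_[p][X])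
    (hF : IsUnit (F.eval θ)) :
    ∃ β : ℚ_[p][X], ¬ π ∣ β ∧ π ∣ toQ F - C ((F.eval θ : ℤ_[p]) : ℚ_[p]) * β ^ 2 := by
  have hpp : p.Prime := Fact.out
  obtain ⟨g, R, hgπ, hgm, hR⟩ := exists_lift p π hm hirr θ hθ
  set k := π.natDegree with hk
  have hk0 : 0 < k := hirr.natDegree_pos
  -- `F = u (1 + (X - θ) E)`
  obtain ⟨u, hu⟩ := hF
  obtain ⟨E₁, hE₁⟩ : (X - C θ) ∣ F - C (F.eval θ) := X_sub_C_dvd_sub_C_eval
  set E : ℤ_[p][X] := C ((u⁻¹ : ℤ_[p]ˣ) : ℤ_[p]) * E₁ with hE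
  have hFE : F = C (F.eval θ) * (1 + (X - C θ) * E) := by
    have h1 : C (F.eval θ) * C ((u⁻¹ : ℤ_[p]ˣ) : ℤ_[p]) = 1 := by
      rw [← C_mul, ← hu, Units.mul_inv, C_1]
    calc F = C (F.eval θ) + (X - C θ) * E₁ := by rw [← hE₁]; ring
      _ = C (F.eval θ) + (C (F.eval θ) * C ((u⁻¹ : ℤ_[p]ˣ) : ℤ_[p])) * ((X - C θ) * E₁) := by
          rw [h1, one_mul]
      _ = _ := by rw [hE]; ring
  set A : ℤ_[p][X] := 1 + (X - C θ) * E with hA
  -- a large power of `A` is `1 + p G` modulo `g`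
  obtain ⟨r, hr⟩ := exists_add_pow_prime_pow_eq hpp (1 : ℤ_[p][X]) ((X - C θ) * E) k
  have hkp : k ≤ p ^ k := (Nat.lt_pow_self hpp.one_lt).le
  obtain ⟨j, hj⟩ := Nat.exists_eq_add_of_le hkp
  obtain ⟨s, t, hs, hst⟩ := sq_root p hp g
    ((X - C θ) * E * r + (R * (X - C θ) ^ j * E ^ (p ^ k))) hgm
  have hAg : AdjoinRoot.mk g (A ^ p ^ k) = AdjoinRoot.mk g s ^ 2 := by
    rw [← map_pow, AdjoinRoot.mk_eq_mk]
    have h1 : A ^ p ^ k - s ^ 2 = ((1 + C (p : ℤ_[p]) *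
        ((X - C θ) * E * r + (R * (X - C θ) ^ j * E ^ (p ^ k)))) - s ^ 2) +
        g * ((X - C θ) ^ j * E ^ (p ^ k)) := by
      have h2 : (X - C θ) ^ p ^ k = (g + C (p : ℤ_[p]) * R) * (X - C θ) ^ j := by
        rw [← hR, ← pow_add, ← hj]
      have h3 : ((p : ℕ) : ℤ_[p][X]) = C (p : ℤ_[p]) := by simp
      rw [hA, hr, one_pow, mul_pow, h2, h3]
      ring
    rw [h1]
    exact dvd_add hs (dvd_mul_right _ _)
  have hst' : AdjoinRoot.mk g s * AdjoinRoot.mk g t = 1 := by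
    rw [← map_mul, ← map_one (AdjoinRoot.mk g), AdjoinRoot.mk_eq_mk]
    exact hst
  -- `p^k` is odd
  have hodd : Odd (p ^ k) := (hpp.odd_of_ne_two hp).pow
  obtain ⟨m, hm2⟩ := hodd
  set a := AdjoinRoot.mk g A with ha
  set σ := AdjoinRoot.mk g s with hσ
  set τ := AdjoinRoot.mk g t with hτ
  have haσ : a ^ (2 * m + 1) = σ ^ 2 := by
    rw [ha, ← map_pow, ← hm2, hAg]
  set A' : ℤ_[p][X] := A ^ (2 * m) * t ^ 2 with hA'
  set a' := AdjoinRoot.mk g A' with ha'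
  have haa' : a * a' = 1 := by
    have h1 : a' = a ^ (2 * m) * τ ^ 2 := by rw [ha', hA', map_mul, map_pow, map_pow]
    rw [h1]
    calc a * (a ^ (2 * m) * τ ^ 2) = a ^ (2 * m + 1) * τ ^ 2 := by ring
      _ = (σ * τ) ^ 2 := by rw [haσ]; ring
      _ = 1 := by rw [hst', one_pow]
  set B : ℤ_[p][X] := s * A' ^ m with hB
  have hBsq : AdjoinRoot.mk g (B ^ 2) = AdjoinRoot.mk g A := by
    rw [map_pow, hB, map_mul, map_pow]
    change (σ * a' ^ m) ^ 2 = a
    calc (σ * a' ^ m) ^ 2 = σ ^ 2 * a' ^ (2 * m) := by ring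
      _ = a * (a * a') ^ (2 * m) := by rw [← haσ]; ring
      _ = a := by rw [haa', one_pow, mul_one]
  rw [AdjoinRoot.mk_eq_mk] at hBsq
  have haa2 : g ∣ A * A' - 1 := by
    rw [← AdjoinRoot.mk_eq_mk, map_mul, map_one]
    exact haa'
  have hdv : ∀ x : ℤ_[p][X], g ∣ x → π ∣ toQ x := by
    intro x hx
    rw [← hgπ]
    exact Polynomial.map_dvd _ hx
  have e1 : π ∣ toQ B ^ 2 - toQ A := by
    have := hdv _ hBsq
    rwa [toQ, Polynomial.map_sub, Polynomial.map_pow] at this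
  have e2 : π ∣ toQ A * toQ A' - 1 := by
    have := hdv _ haa2
    rwa [toQ, Polynomial.map_sub, Polynomial.map_mul, Polynomial.map_one] at this
  refine ⟨toQ B, ?_, ?_⟩
  · intro hπ
    have h1 : π ∣ toQ A := by
      have h2 : π ∣ toQ B ^ 2 := dvd_pow hπ two_ne_zero
      have h3 := dvd_sub h2 e1
      rwa [sub_sub_cancel] at h3
    have h4 : π ∣ 1 := by
      have h5 := dvd_sub (h1.mul_right (toQ A')) e2
      rwa [sub_sub_cancel] at h5
    exact hirr.not_isUnit (isUnit_of_dvd_one h4)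
  · have h1 : toQ F = C ((F.eval θ : ℤ_[p]) : ℚ_[p]) * toQ A := by
      conv_lhs => rw [hFE]
      rw [toQ, Polynomial.map_mul, map_C]
      rfl
    rw [h1, ← mul_sub]
    refine Dvd.dvd.mul_left ?_ _
    rw [← neg_sub, dvd_neg]
    exact e1

end Stoll308.DQ
end

section
set_option autoImplicit false

/-!
The number of bad residue classes modulo `l²`.
-/

namespace Stoll308.DQ

open Finset Matrix BG BF

namespace BadB

lemma sub_dvd {n : ℕ} (k t : ℤ) (x x' y y' : Ix n → ℤ) (hx : ∀ i, k ∣ x i - x' i)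
    (hy : ∀ i, k ∣ y i - y' i) (i j : Fin n) :
    k ∣ (symM y - t • symM x) i j - (symM y' - t • symM x') i j := by
  simp only [Matrix.sub_apply, Matrix.smul_apply, smul_eq_mul, symM]
  have e : ∀ p : Ix n, y p - t * x p - (y' p - t * x' p) = (y p - y' p) - t * (x p - x' p) := by
    intro p; ring
  rw [e]
  exact dvd_sub (hy _) ((hx _).mul_left t)

end BadB

open BadB

theorem bad_congr {n m : ℕ} (l : ℕ) (v v' : (Ix n ⊕ Ix n) ⊕ (Ix m ⊕ Ix m) → ℤ)
    (h : ∀ i, ((l ^ 2 : ℕ) : ℤ) ∣ v i - v' i) :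
    Bad l (symM fun p => v (Sum.inl (Sum.inl p))) (symM fun p => v (Sum.inl (Sum.inr p)))
        (symM fun p => v (Sum.inr (Sum.inl p))) (symM fun p => v (Sum.inr (Sum.inr p))) ↔
      Bad l (symM fun p => v' (Sum.inl (Sum.inl p))) (symM fun p => v' (Sum.inl (Sum.inr p)))
        (symM fun p => v' (Sum.inr (Sum.inl p))) (symM fun p => v' (Sum.inr (Sum.inr p))) := by
  unfold Bad
  refine exists_congr fun t => ?_
  exact bad0_congr l _ _ _ _ _ _ _ _ (fun i j => h _)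
    (sub_dvd _ _ _ _ _ _ (fun i => h _) (fun i => h _)) (fun i j => h _)
    (sub_dvd _ _ _ _ _ _ (fun i => h _) (fun i => h _))

namespace BadB

open Polynomial in
/-- The number of roots of the characteristic polynomial. -/
lemma roots_le {n : ℕ} (l : ℕ) (hl : l.Prime) (A B : Matrix (Fin n) (Fin n) ℤ) (S : Finset ℕ)
    (hS : ∀ t ∈ S, t < l ∧ (l : ℤ) ∣ (B - (t : ℤ) • A).det ∧
      ¬ (l : ℤ) ∣ ((B - (t : ℤ) • A).adjugate * A).trace) : S.card ≤ n := by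
  have : Fact l.Prime := ⟨hl⟩
  rcases S.eq_empty_or_nonempty with rfl | ⟨t₀, ht₀⟩
  · simp
  set f := Int.castRingHom (ZMod l) with hf
  set P : (ZMod l)[X] := ((X : (ZMod l)[X]) • (-(A.map f)).map C + (B.map f).map C).det with hP
  have hmap : ∀ t : ℕ, ((X : (ZMod l)[X]) • (-(A.map f)).map C + (B.map f).map C).map
      (evalRingHom (t : ZMod l)) = (B - (t : ℤ) • A).map f := by
    intro t
    ext i j
    simp only [Matrix.map_apply, Matrix.add_apply, Matrix.smul_apply, Matrix.neg_apply,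
      Matrix.sub_apply, smul_eq_mul, map_mul, map_sub, coe_evalRingHom, eval_X, eval_C,
      map_neg, map_natCast, eval_add, eval_mul, eval_neg]
    ring
  have heval : ∀ t : ℕ, P.eval (t : ZMod l) = (((B - (t : ℤ) • A).det : ℤ) : ZMod l) := by
    intro t
    have h1 := RingHom.map_det (evalRingHom (t : ZMod l))
      ((X : (ZMod l)[X]) • (-(A.map f)).map C + (B.map f).map C)
    rw [RingHom.mapMatrix_apply, hmap] at h1
    rw [BG.BadCount.cast_det, ← h1]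
    rfl
  have hder : (derivative P).eval (t₀ : ZMod l) =
      -((((B - (t₀ : ℤ) • A).adjugate * A).trace : ℤ) : ZMod l) := by
    rw [hP, BG.LCond.derivative_det]
    have h6 : ((X : (ZMod l)[X]) • (-(A.map f)).map C + (B.map f).map C).map
        (fun q => derivative q) = (-(A.map f)).map C := by
      ext a b
      simp [Matrix.map_apply, Matrix.add_apply, Matrix.smul_apply, derivative_mul]
    rw [h6, BG.BadCount.cast_trace, ← hf, ← hmap t₀, ← Matrix.trace_neg, ← Matrix.mul_neg]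
    have h9 : ((-(A.map f)).map (C : ZMod l →+* (ZMod l)[X])).map
        (evalRingHom (t₀ : ZMod l)) = -(A.map f) := by
      ext a b
      simp
    have h11 := RingHom.map_adjugate (evalRingHom (t₀ : ZMod l))
      ((X : (ZMod l)[X]) • (-(A.map f)).map C + (B.map f).map C)
    rw [RingHom.mapMatrix_apply, RingHom.mapMatrix_apply] at h11
    rw [← h11]
    have h12 : ((X : (ZMod l)[X]) • (-(A.map f)).map C + (B.map f).map C).adjugate.map
        (evalRingHom (t₀ : ZMod l)) * -(A.map f) =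
        (((X : (ZMod l)[X]) • (-(A.map f)).map C + (B.map f).map C).adjugate *
          (-(A.map f)).map C).map (evalRingHom (t₀ : ZMod l)) := by
      rw [Matrix.map_mul, h9]
    rw [h12]
    simp only [Matrix.trace, Matrix.diag_apply, eval_finsetSum, Matrix.map_apply,
      coe_evalRingHom]
  have hP0 : P ≠ 0 := by
    intro h0
    rw [h0] at hder
    simp only [derivative_zero, eval_zero] at hder
    have h1 := neg_eq_zero.1 hder.symm
    rw [ZMod.intCast_zmod_eq_zero_iff_dvd] at h1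
    exact (hS t₀ ht₀).2.2 h1
  have hdeg : P.natDegree ≤ n := by
    have := natDegree_det_X_add_C_le (-(A.map f)) (B.map f)
    rwa [Fintype.card_fin] at this
  calc S.card ≤ P.roots.toFinset.card := by
        refine Finset.card_le_card_of_injOn (fun t => (t : ZMod l)) ?_ ?_
        · intro t ht
          have ht' := Finset.mem_coe.1 ht
          rw [Finset.mem_coe, Multiset.mem_toFinset, mem_roots hP0, IsRoot, heval,
            ZMod.intCast_zmod_eq_zero_iff_dvd]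
          exact (hS t ht').2.1
        · intro t ht t' ht' h
          have h2 := (ZMod.natCast_eq_natCast_iff' _ _ _).1 h
          rwa [Nat.mod_eq_of_lt (hS t (Finset.mem_coe.1 ht)).1,
            Nat.mod_eq_of_lt (hS t' (Finset.mem_coe.1 ht')).1] at h2
    _ ≤ Multiset.card P.roots := Multiset.toFinset_card_le _
    _ ≤ P.natDegree := card_roots' P
    _ ≤ n := hdeg

section trans

variable {l n m : ℕ}

/-- The translation `B ↦ B + t A`. -/
def tr (hl : 0 < l) (t : ℕ) (x : Ix n ⊕ Ix n → Fin (l ^ 2)) : Ix n ⊕ Ix n → Fin (l ^ 2) :=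
  Sum.elim (fun p => x (Sum.inl p)) fun p =>
    ⟨((x (Sum.inr p) : ℕ) + t * (x (Sum.inl p) : ℕ)) % l ^ 2, Nat.mod_lt _ (pow_pos hl 2)⟩

lemma tr_inj (hl : 0 < l) (t : ℕ) :
    Function.Injective (tr hl t : (Ix n ⊕ Ix n → Fin (l ^ 2)) → (Ix n ⊕ Ix n → Fin (l ^ 2))) := by
  intro x y h
  have h1 : ∀ p, x (Sum.inl p) = y (Sum.inl p) := fun p => congrFun h (Sum.inl p)
  funext i
  rcases i with p | p
  · exact h1 p
  · have h2 := congrArg Fin.val (congrFun h (Sum.inr p))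
    simp only [tr, Sum.elim_inr, h1 p] at h2
    have h3 : (x (Sum.inr p) : ℕ) ≡ (y (Sum.inr p) : ℕ) [MOD l ^ 2] := Nat.ModEq.add_right_cancel' _ h2
    refine Fin.ext ?_
    unfold Nat.ModEq at h3
    rwa [Nat.mod_eq_of_lt (x (Sum.inr p)).2, Nat.mod_eq_of_lt (y (Sum.inr p)).2] at h3

lemma tr_dvd (hl : 0 < l) (t : ℕ) (x : Ix n ⊕ Ix n → Fin (l ^ 2)) (i j : Fin n) :
    ((l ^ 2 : ℕ) : ℤ) ∣ (symM fun p => ((x (Sum.inr p) : ℕ) : ℤ)) i j -
      ((symM fun p => ((tr hl t x (Sum.inr p) : ℕ) : ℤ)) -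
        (t : ℤ) • (symM fun p => ((tr hl t x (Sum.inl p) : ℕ) : ℤ))) i j := by
  simp only [Matrix.sub_apply, Matrix.smul_apply, smul_eq_mul, symM, tr, Sum.elim_inl,
    Sum.elim_inr]
  generalize x (Sum.inr ⟨(min i j, max i j), min_le_max⟩) = b
  generalize x (Sum.inl ⟨(min i j, max i j), min_le_max⟩) = a
  have h1 := Int.emod_add_mul_ediv (((b : ℕ) : ℤ) + t * ((a : ℕ) : ℤ)) ((l ^ 2 : ℕ) : ℤ)
  refine ⟨(((b : ℕ) : ℤ) + t * ((a : ℕ) : ℤ)) / ((l ^ 2 : ℕ) : ℤ), ?_⟩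
  rw [Int.natCast_mod]
  push_cast at h1 ⊢
  linear_combination -h1

/-- The bad classes at `0`. -/
def Z (l : ℕ) (v : (Ix n ⊕ Ix n) ⊕ (Ix m ⊕ Ix m) → Fin (l ^ 2)) : Prop :=
  Bad0 l (symM fun p => ((v (Sum.inl (Sum.inl p)) : ℕ) : ℤ))
    (symM fun p => ((v (Sum.inl (Sum.inr p)) : ℕ) : ℤ))
    (symM fun p => ((v (Sum.inr (Sum.inl p)) : ℕ) : ℤ))
    (symM fun p => ((v (Sum.inr (Sum.inr p)) : ℕ) : ℤ))

/-- The bad classes at `t`. -/
def R (l t : ℕ) (v : (Ix n ⊕ Ix n) ⊕ (Ix m ⊕ Ix m) → Fin (l ^ 2)) : Prop :=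
  Bad0 l (symM fun p => ((v (Sum.inl (Sum.inl p)) : ℕ) : ℤ))
    ((symM fun p => ((v (Sum.inl (Sum.inr p)) : ℕ) : ℤ)) -
      (t : ℤ) • symM fun p => ((v (Sum.inl (Sum.inl p)) : ℕ) : ℤ))
    (symM fun p => ((v (Sum.inr (Sum.inl p)) : ℕ) : ℤ))
    ((symM fun p => ((v (Sum.inr (Sum.inr p)) : ℕ) : ℤ)) -
      (t : ℤ) • symM fun p => ((v (Sum.inr (Sum.inl p)) : ℕ) : ℤ))

/-- The bad classes. -/
def W (l : ℕ) (v : (Ix n ⊕ Ix n) ⊕ (Ix m ⊕ Ix m) → Fin (l ^ 2)) : Prop :=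
  Bad l (symM fun p => ((v (Sum.inl (Sum.inl p)) : ℕ) : ℤ))
    (symM fun p => ((v (Sum.inl (Sum.inr p)) : ℕ) : ℤ))
    (symM fun p => ((v (Sum.inr (Sum.inl p)) : ℕ) : ℤ))
    (symM fun p => ((v (Sum.inr (Sum.inr p)) : ℕ) : ℤ))

/-- The translation of the two pairs. -/
def tr2 (hl : 0 < l) (t : ℕ) (v : (Ix n ⊕ Ix n) ⊕ (Ix m ⊕ Ix m) → Fin (l ^ 2)) :
    (Ix n ⊕ Ix n) ⊕ (Ix m ⊕ Ix m) → Fin (l ^ 2) :=
  Sum.elim (tr hl t fun i => v (Sum.inl i)) (tr hl t fun i => v (Sum.inr i))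

lemma tr2_inj (hl : 0 < l) (t : ℕ) : Function.Injective (tr2 (n := n) (m := m) hl t) := by
  intro v w h
  have h1 : tr hl t (fun i => v (Sum.inl i)) = tr hl t (fun i => w (Sum.inl i)) :=
    funext fun i => congrFun h (Sum.inl i)
  have h2 : tr hl t (fun i => v (Sum.inr i)) = tr hl t (fun i => w (Sum.inr i)) :=
    funext fun i => congrFun h (Sum.inr i)
  have h3 := tr_inj hl t h1
  have h4 := tr_inj hl t h2
  funext i
  rcases i with i | i
  · exact congrFun h3 i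
  · exact congrFun h4 i

lemma R_tr2 (hl : 0 < l) (t : ℕ) (v : (Ix n ⊕ Ix n) ⊕ (Ix m ⊕ Ix m) → Fin (l ^ 2)) (h : Z l v) :
    R l t (tr2 hl t v) := by
  unfold Z at h
  unfold R
  refine (bad0_congr l _ _ _ _ _ _ _ _ ?_ ?_ ?_ ?_).1 h
  · intro i j
    exact ⟨0, by rw [mul_zero, sub_eq_zero]; rfl⟩
  · intro i j
    exact tr_dvd hl t (fun i => v (Sum.inl i)) i j
  · intro i j
    exact ⟨0, by rw [mul_zero, sub_eq_zero]; rfl⟩
  · intro i j
    exact tr_dvd hl t (fun i => v (Sum.inr i)) i j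

open Classical in
lemma card_R (hl : 0 < l) (t : ℕ) :
    (univ.filter fun v : (Ix n ⊕ Ix n) ⊕ (Ix m ⊕ Ix m) → Fin (l ^ 2) => Z l v).card ≤
      (univ.filter fun v : (Ix n ⊕ Ix n) ⊕ (Ix m ⊕ Ix m) → Fin (l ^ 2) => R l t v).card := by
  refine Finset.card_le_card_of_injOn (tr2 hl t) ?_ (tr2_inj hl t).injOn
  intro v hv
  have hv' := (Finset.mem_filter.1 (Finset.mem_coe.1 hv)).2
  exact Finset.mem_coe.2 (Finset.mem_filter.2 ⟨Finset.mem_univ _, R_tr2 hl t v hv'⟩)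

lemma R_W (t : ℕ) (v : (Ix n ⊕ Ix n) ⊕ (Ix m ⊕ Ix m) → Fin (l ^ 2)) (h : R l t v) : W l v :=
  ⟨(t : ℤ), h⟩

lemma card_ones {α : Type*} [Fintype α] (P Q : α → Prop) [DecidablePred P] [DecidablePred Q]
    (h : ∀ x, P x → Q x) : (univ.filter P).card = ∑ x ∈ univ.filter Q, if P x then 1 else 0 := by
  rw [← Finset.card_filter, Finset.filter_filter]
  congr 1
  exact Finset.filter_congr fun v _ => ⟨fun h' => ⟨h v h', h'⟩, fun h' => h'.2⟩

open Classical in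
lemma sum_R (hl : l.Prime) :
    ∑ t ∈ range l, (univ.filter fun v : (Ix n ⊕ Ix n) ⊕ (Ix m ⊕ Ix m) → Fin (l ^ 2) =>
      R l t v).card ≤
      (univ.filter fun v : (Ix n ⊕ Ix n) ⊕ (Ix m ⊕ Ix m) → Fin (l ^ 2) => W l v).card * n := by
  have e : ∀ t : ℕ, (univ.filter fun v : (Ix n ⊕ Ix n) ⊕ (Ix m ⊕ Ix m) → Fin (l ^ 2) =>
      R l t v).card =
      ∑ v ∈ univ.filter (fun v : (Ix n ⊕ Ix n) ⊕ (Ix m ⊕ Ix m) → Fin (l ^ 2) => W l v),
        if R l t v then 1 else 0 := fun t => card_ones _ _ (R_W t)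
  rw [Finset.sum_congr rfl fun t _ => e t, Finset.sum_comm]
  refine Finset.sum_le_card_nsmul _ _ _ fun v _ => ?_
  rw [← Finset.card_filter]
  refine roots_le l hl (symM fun p => ((v (Sum.inl (Sum.inl p)) : ℕ) : ℤ))
    (symM fun p => ((v (Sum.inl (Sum.inr p)) : ℕ) : ℤ)) _ fun t ht => ?_
  obtain ⟨ht1, ht2⟩ := Finset.mem_filter.1 ht
  exact ⟨Finset.mem_range.1 ht1, ht2.1, ht2.2.2.1⟩

end trans

end BadB

open Classical in
theorem bad_count {n m : ℕ} (hn : 4 ≤ n) (he : Even n) (hm : 4 ≤ m) (hem : Even m) (l : ℕ)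
    (hl : l.Prime) (h5 : 5 ≤ l) :
    (l : ℝ) ^ (2 * (n * (n + 1) + m * (m + 1)) - 1) / (n * 2 ^ (2 * n + 2 * m + 7)) ≤
      ((univ.filter fun v : (Ix n ⊕ Ix n) ⊕ (Ix m ⊕ Ix m) → Fin (l ^ 2) =>
        Bad l (symM fun p => ((v (Sum.inl (Sum.inl p)) : ℕ) : ℤ))
          (symM fun p => ((v (Sum.inl (Sum.inr p)) : ℕ) : ℤ))
          (symM fun p => ((v (Sum.inr (Sum.inl p)) : ℕ) : ℤ))
          (symM fun p => ((v (Sum.inr (Sum.inr p)) : ℕ) : ℤ))).card : ℝ) := by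
  have h1 := bad0_count hn he hm hem l hl h5
  have h2 : l * (univ.filter fun v : (Ix n ⊕ Ix n) ⊕ (Ix m ⊕ Ix m) → Fin (l ^ 2) => Z l v).card ≤
      (univ.filter fun v : (Ix n ⊕ Ix n) ⊕ (Ix m ⊕ Ix m) → Fin (l ^ 2) => W l v).card * n := by
    refine le_trans ?_ (sum_R hl)
    have h3 := Finset.card_nsmul_le_sum (range l) (fun t => (univ.filter fun v :
      (Ix n ⊕ Ix n) ⊕ (Ix m ⊕ Ix m) → Fin (l ^ 2) => R l t v).card) _
      (fun t _ => card_R (n := n) (m := m) hl.pos t)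
    rwa [Finset.card_range, smul_eq_mul] at h3
  change (l : ℝ) ^ (2 * (n * (n + 1) + m * (m + 1)) - 2) / 2 ^ (2 * n + 2 * m + 7) ≤
    ((univ.filter fun v : (Ix n ⊕ Ix n) ⊕ (Ix m ⊕ Ix m) → Fin (l ^ 2) => Z l v).card : ℝ) at h1
  change _ ≤ ((univ.filter fun v : (Ix n ⊕ Ix n) ⊕ (Ix m ⊕ Ix m) → Fin (l ^ 2) =>
    W l v).card : ℝ)
  generalize (univ.filter fun v : (Ix n ⊕ Ix n) ⊕ (Ix m ⊕ Ix m) → Fin (l ^ 2) =>
    Z l v).card = a at h1 h2
  generalize (univ.filter fun v : (Ix n ⊕ Ix n) ⊕ (Ix m ⊕ Ix m) → Fin (l ^ 2) =>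
    W l v).card = b at h2 ⊢
  have h3 : (l : ℝ) * a ≤ b * n := by exact_mod_cast h2
  have hexp : 2 * (n * (n + 1) + m * (m + 1)) - 1 =
      (2 * (n * (n + 1) + m * (m + 1)) - 2) + 1 := by
    have : 1 ≤ n * (n + 1) := Nat.mul_pos (by omega) (by omega)
    omega
  have hn0 : (0 : ℝ) < n := by exact_mod_cast (by omega : 0 < n)
  rw [hexp, pow_succ, mul_comm (n : ℝ), ← div_div, div_le_iff₀ hn0, mul_comm _ (l : ℝ),
    mul_div_assoc]
  exact (mul_le_mul_of_nonneg_left h1 (Nat.cast_nonneg l)).trans h3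

end Stoll308.DQ
end

section
set_option autoImplicit false

/-!
The primes modulo which `q` splits.
-/

namespace Stoll308.FQ

open Polynomial Finset BF

namespace SplitAux

lemma gz_map {R S : Type*} [CommRing R] [CommRing S] {n : ℕ} (f : R →+* S)
    (a : Fin (n + 1) → ℤ) : (GZ R a).map f = GZ S a := BF.PairEx.GZ_map f a

lemma simple_of_card {K : Type*} [Field K] {m : ℕ} (Q : K[X]) (hQ : Q ≠ 0)
    (hn : Q.natDegree ≤ m) (T : Finset K) (hT : T.card = m) (hr : ∀ a ∈ T, Q.eval a = 0) :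
    (∀ a ∈ T, (derivative Q).eval a ≠ 0) ∧ (∀ x, Q.eval x = 0 → x ∈ T) ∧ Q.Splits := by
  classical
  have hsub : T ⊆ Q.roots.toFinset := by
    intro a ha
    rw [Multiset.mem_toFinset, mem_roots hQ]
    exact hr a ha
  have h1 : Q.roots.toFinset.card ≤ Multiset.card Q.roots := Multiset.toFinset_card_le _
  have h2 : Multiset.card Q.roots ≤ Q.natDegree := card_roots' Q
  have h3 := Finset.card_le_card hsub
  have heq : T = Q.roots.toFinset := Finset.eq_of_subset_of_card_le hsub (by omega)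
  have hnd : Q.roots.Nodup := Multiset.toFinset_card_eq_card_iff_nodup.1 (by omega)
  refine ⟨?_, ?_, ?_⟩
  · intro a ha h0
    have h4 : 1 < Q.rootMultiplicity a :=
      (one_lt_rootMultiplicity_iff_isRoot hQ).2 ⟨hr a ha, h0⟩
    rw [← count_roots] at h4
    have := Multiset.nodup_iff_count_le_one.1 hnd a
    omega
  · intro x hx
    rw [heq, Multiset.mem_toFinset, mem_roots hQ]
    exact hx
  · rw [splits_iff_card_roots]
    omega

lemma gz_ne_zero {K : Type*} [Field K] {m : ℕ} (b : Fin (m + 1) → ℤ) (h : ((b 0 : ℤ) : K) ≠ 0) :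
    GZ K b ≠ 0 := by
  intro h0
  have h1 := BF.PairEx.GZ_coeff (R := K) b
  rw [h0, coeff_zero] at h1
  exact h h1.symm

lemma gz_natDegree {m : ℕ} (b : Fin (m + 1) → ℤ) (h0 : b 0 ≠ 0) : (GZ ℤ b).natDegree = m := by
  apply natDegree_eq_of_le_of_coeff_ne_zero (BF.PairEx.GZ_natDegree_le b)
  rw [BF.PairEx.GZ_coeff]
  exact_mod_cast h0

lemma gz_lead {m : ℕ} (b : Fin (m + 1) → ℤ) (h0 : b 0 ≠ 0) : (GZ ℤ b).leadingCoeff = b 0 := by
  rw [leadingCoeff, gz_natDegree b h0, BF.PairEx.GZ_coeff]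
  exact Int.cast_id

/-- The monic polynomial with the roots `b 0 * ρ`. -/
noncomputable def f1 {m : ℕ} (b : Fin (m + 1) → ℤ) : ℤ[X] := integralNormalization (GZ ℤ b)

lemma gzZ_ne {m : ℕ} (b : Fin (m + 1) → ℤ) (h0 : b 0 ≠ 0) : GZ ℤ b ≠ 0 := by
  intro h
  have h1 := BF.PairEx.GZ_coeff (R := ℤ) b
  rw [h, coeff_zero] at h1
  exact h0 (by exact_mod_cast h1.symm)

lemma f1_monic {m : ℕ} (b : Fin (m + 1) → ℤ) (h0 : b 0 ≠ 0) : (f1 b).Monic :=
  monic_integralNormalization (gzZ_ne b h0)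

lemma f1_natDegree {m : ℕ} (b : Fin (m + 1) → ℤ) (h0 : b 0 ≠ 0) : (f1 b).natDegree = m := by
  have h : (f1 b).degree = (GZ ℤ b).degree := degree_integralNormalization
  rw [natDegree_eq_of_degree_eq h, gz_natDegree b h0]

lemma f1_eval {m : ℕ} (hm : 1 ≤ m) (b : Fin (m + 1) → ℤ) (h0 : b 0 ≠ 0) {S : Type*} [CommRing S]
    (x : S) : ((f1 b).map (Int.castRingHom S)).eval ((b 0 : S) * x) =
      (b 0 : S) ^ (m - 1) * (GZ S b).eval x := by
  have h := integralNormalization_eval₂_leadingCoeff_mul (p := GZ ℤ b)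
    (by rw [gz_natDegree b h0]; exact hm) (Int.castRingHom S) x
  rw [gz_lead b h0, gz_natDegree b h0, eq_intCast] at h
  rw [eval_map, ← gz_map (Int.castRingHom S) b, eval_map]
  exact h

lemma f1_sep {m : ℕ} (hm : 1 ≤ m) (b : Fin (m + 1) → ℤ) (h0 : b 0 ≠ 0)
    (hsq : Squarefree (GZ ℚ b)) : ((f1 b).map (Int.castRingHom ℚ)).Separable := by
  have h0' : ((b 0 : ℤ) : ℚ) ≠ 0 := by exact_mod_cast h0
  have hsep : (GZ ℚ b).Separable := (PerfectField.separable_iff_squarefree).2 hsq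
  have e : (f1 b).map (Int.castRingHom ℚ) =
      C (((b 0 : ℤ) : ℚ) ^ (m - 1)) * (GZ ℚ b).comp (C (((b 0 : ℤ) : ℚ)⁻¹) * X) := by
    apply Polynomial.funext
    intro x
    have h := f1_eval hm b h0 (S := ℚ) (((b 0 : ℤ) : ℚ)⁻¹ * x)
    rw [← mul_assoc, mul_inv_cancel₀ h0', one_mul] at h
    rw [h, eval_mul, eval_C, eval_comp, eval_mul, eval_C, eval_X]
  rw [e]
  obtain ⟨u, v, huv⟩ := hsep
  set L : ℚ[X] := C (((b 0 : ℤ) : ℚ)⁻¹) * X with hL
  set c : ℚ := ((b 0 : ℤ) : ℚ) ^ (m - 1) with hc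
  have hc0 : c ≠ 0 := pow_ne_zero _ h0'
  have hdL : derivative L = C (((b 0 : ℤ) : ℚ)⁻¹) := by
    rw [hL, derivative_C_mul, derivative_X, mul_one]
  refine ⟨C c⁻¹ * u.comp L, C (c⁻¹ * ((b 0 : ℤ) : ℚ)) * v.comp L, ?_⟩
  have h2 := congrArg (fun q : ℚ[X] => q.comp L) huv
  simp only [add_comp, mul_comp, one_comp] at h2
  rw [derivative_C_mul, derivative_comp, hdL, ← h2]
  have h4 : (C c⁻¹ : ℚ[X]) * C c = 1 := by
    rw [← C_mul, inv_mul_cancel₀ hc0, C_1]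
  have h5 : (C (c⁻¹ * ((b 0 : ℤ) : ℚ)) : ℚ[X]) * (C c * C (((b 0 : ℤ) : ℚ)⁻¹)) = 1 := by
    rw [← C_mul, ← C_mul]
    have : c⁻¹ * ((b 0 : ℤ) : ℚ) * (c * (((b 0 : ℤ) : ℚ)⁻¹)) = 1 := by
      field_simp
    rw [this, C_1]
  linear_combination (u.comp L * (GZ ℚ b).comp L) * h4 +
    (v.comp L * (derivative (GZ ℚ b)).comp L) * h5

/-- The roots of `q` modulo a prime at which `f1` splits. -/
lemma exists_roots {m : ℕ} (hm : 1 ≤ m) (b : Fin (m + 1) → ℤ) (h0 : b 0 ≠ 0) (l : ℕ)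
    [hl : Fact l.Prime] (hlb : ¬ (l : ℤ) ∣ b 0)
    (hR : (Gen.R (f1 b) l).card = (f1 b).natDegree) :
    ∃ T : Finset (ZMod l), T.card = m ∧ ∀ a ∈ T, (GZ (ZMod l) b).eval a = 0 := by
  classical
  have hb : ((b 0 : ℤ) : ZMod l) ≠ 0 := by
    intro h
    exact hlb ((ZMod.intCast_zmod_eq_zero_iff_dvd _ _).1 h)
  rw [Cheb.card_R, f1_natDegree b h0] at hR
  unfold Cheb.nroots at hR
  rw [Nat.card_eq_fintype_card, Fintype.card_subtype] at hR
  set T0 := Finset.filter (fun r => ((f1 b).map (Int.castRingHom (ZMod l))).IsRoot r)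
    Finset.univ with hT0
  refine ⟨T0.image (fun r => ((b 0 : ℤ) : ZMod l)⁻¹ * r), ?_, ?_⟩
  · rw [Finset.card_image_of_injective _ (mul_right_injective₀ (inv_ne_zero hb))]
    exact hR
  · intro a ha
    obtain ⟨r, hr, rfl⟩ := Finset.mem_image.1 ha
    rw [hT0, Finset.mem_filter] at hr
    have h := f1_eval hm b h0 (S := ZMod l) (((b 0 : ℤ) : ZMod l)⁻¹ * r)
    rw [← mul_assoc, mul_inv_cancel₀ hb, one_mul, hr.2] at h
    exact (mul_eq_zero.1 h.symm).resolve_left (pow_ne_zero _ hb)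

lemma eval_toZMod {l : ℕ} [Fact l.Prime] {m : ℕ} (b : Fin (m + 1) → ℤ) (x : ℤ_[l]) :
    PadicInt.toZMod ((GZ ℤ_[l] b).eval x) = (GZ (ZMod l) b).eval (PadicInt.toZMod x) := by
  rw [← gz_map (PadicInt.toZMod (p := l)) b, eval_map, eval₂_at_apply]

lemma derivative_toZMod {l : ℕ} [Fact l.Prime] {m : ℕ} (b : Fin (m + 1) → ℤ) (x : ℤ_[l]) :
    PadicInt.toZMod ((derivative (GZ ℤ_[l] b)).eval x) =
      (derivative (GZ (ZMod l) b)).eval (PadicInt.toZMod x) := by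
  rw [← gz_map (PadicInt.toZMod (p := l)) b, derivative_map, eval_map, eval₂_at_apply]

lemma norm_lt_of_toZMod {l : ℕ} [Fact l.Prime] {x : ℤ_[l]} (h : PadicInt.toZMod x = 0) :
    ‖x‖ < 1 := by
  have h1 : x ∈ RingHom.ker (PadicInt.toZMod (p := l)) := h
  rw [PadicInt.ker_toZMod] at h1
  exact PadicInt.mem_nonunits.1 ((IsLocalRing.mem_maximalIdeal _).1 h1)

lemma norm_eq_of_toZMod {l : ℕ} [Fact l.Prime] {x : ℤ_[l]} (h : PadicInt.toZMod x ≠ 0) :
    ‖x‖ = 1 := by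
  by_contra h1
  apply h
  have h2 : x ∈ RingHom.ker (PadicInt.toZMod (p := l)) := by
    rw [PadicInt.ker_toZMod]
    exact (IsLocalRing.mem_maximalIdeal _).2
      (PadicInt.mem_nonunits.2 (lt_of_le_of_ne (PadicInt.norm_le_one x) h1))
  exact h2

/-- Hensel. -/
lemma lift_root {l : ℕ} [hl : Fact l.Prime] {m : ℕ} (b : Fin (m + 1) → ℤ) (a : ZMod l)
    (h1 : (GZ (ZMod l) b).eval a = 0) (h2 : (derivative (GZ (ZMod l) b)).eval a ≠ 0) :
    ∃ ρ : ℤ_[l], (GZ ℤ_[l] b).eval ρ = 0 ∧ IsUnit ((derivative (GZ ℤ_[l] b)).eval ρ) ∧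
      PadicInt.toZMod ρ = a := by
  have hNe : NeZero l := ⟨hl.out.ne_zero⟩
  obtain ⟨x, hx⟩ : ∃ x : ℤ_[l], x = ((a.val : ℕ) : ℤ_[l]) := ⟨_, rfl⟩
  have hxa : PadicInt.toZMod x = a := by
    rw [hx, map_natCast, ZMod.natCast_zmod_val]
  have e1 : ‖(GZ ℤ_[l] b).eval x‖ < 1 := by
    apply norm_lt_of_toZMod
    rw [eval_toZMod, hxa, h1]
  have e2 : ‖(derivative (GZ ℤ_[l] b)).eval x‖ = 1 := by
    apply norm_eq_of_toZMod
    rw [derivative_toZMod, hxa]
    exact h2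
  obtain ⟨z, hz, hz', hz'', -⟩ := hensels_lemma (p := l) (R := ℤ_[l]) (F := GZ ℤ_[l] b)
    (a := x) (by
      simp only [coe_aeval_eq_eval]
      rw [e2, one_pow]
      exact e1)
  simp only [coe_aeval_eq_eval] at hz hz' hz''
  rw [e2] at hz' hz''
  refine ⟨z, hz, PadicInt.isUnit_iff.2 hz'', ?_⟩
  rw [← hxa, ← sub_eq_zero, ← map_sub]
  have h3 : z - x ∈ RingHom.ker (PadicInt.toZMod (p := l)) := by
    rw [PadicInt.ker_toZMod]
    exact (IsLocalRing.mem_maximalIdeal _).2 (PadicInt.mem_nonunits.2 hz')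
  exact h3

/-- The statement at one prime. -/
lemma at_prime {m : ℕ} (hm : 1 ≤ m) (b : Fin (m + 1) → ℤ) (h0 : b 0 ≠ 0) (l : ℕ)
    [hl : Fact l.Prime] (hlb : ¬ (l : ℤ) ∣ b 0)
    (hR : (Gen.R (f1 b) l).card = (f1 b).natDegree)
    (g : ℚ[X]) (hg : g ∣ GZ ℚ b) (hg1 : 1 ≤ g.natDegree) :
    ∃ ρ : ℤ_[l], (g.map (algebraMap ℚ ℚ_[l])).eval (ρ : ℚ_[l]) = 0 ∧
      IsUnit ((derivative (GZ ℤ_[l] b)).eval ρ) := by
  classical
  have hb : ((b 0 : ℤ) : ZMod l) ≠ 0 := by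
    intro h
    exact hlb ((ZMod.intCast_zmod_eq_zero_iff_dvd _ _).1 h)
  have hbq : ((b 0 : ℤ) : ℚ_[l]) ≠ 0 := by exact_mod_cast h0
  obtain ⟨T, hT, hTr⟩ := exists_roots hm b h0 l hlb hR
  have hsim := (simple_of_card (GZ (ZMod l) b) (gz_ne_zero b hb) (BF.PairEx.GZ_natDegree_le b)
    T hT hTr).1
  have hlift : ∀ a : T, ∃ ρ : ℤ_[l], (GZ ℤ_[l] b).eval ρ = 0 ∧
      IsUnit ((derivative (GZ ℤ_[l] b)).eval ρ) ∧ PadicInt.toZMod ρ = a.1 :=
    fun a => lift_root b a.1 (hTr a.1 a.2) (hsim a.1 a.2)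
  choose ρ h1 h2 h3 using hlift
  have hinj : Function.Injective (fun a : T => (ρ a : ℚ_[l])) := by
    intro a a' h
    have : ρ a = ρ a' := Subtype.ext h
    apply Subtype.ext
    rw [← h3 a, ← h3 a', this]
  obtain ⟨U, hU⟩ : ∃ U : Finset ℚ_[l], U = (Finset.univ : Finset T).image
    (fun a : T => (ρ a : ℚ_[l])) := ⟨_, rfl⟩
  have hUc : U.card = m := by
    rw [hU, Finset.card_image_of_injective _ hinj, Finset.card_univ, Fintype.card_coe, hT]
  have hUr : ∀ x ∈ U, (GZ ℚ_[l] b).eval x = 0 := by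
    intro x hx
    rw [hU] at hx
    obtain ⟨a, -, rfl⟩ := Finset.mem_image.1 hx
    have h4 : GZ ℚ_[l] b = (GZ ℤ_[l] b).map (PadicInt.Coe.ringHom (p := l)) :=
      (gz_map _ b).symm
    rw [h4, eval_map]
    have h5 : eval₂ (PadicInt.Coe.ringHom (p := l)) ((ρ a : ℤ_[l]) : ℚ_[l]) (GZ ℤ_[l] b) =
        PadicInt.Coe.ringHom (p := l) ((GZ ℤ_[l] b).eval (ρ a)) := by
      rw [← eval₂_at_apply]
      rfl
    rw [h5, h1 a, map_zero]
  have hq0 := gz_ne_zero (K := ℚ_[l]) b hbq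
  obtain ⟨-, hmem, hspl⟩ := simple_of_card (GZ ℚ_[l] b) hq0 (BF.PairEx.GZ_natDegree_le b) U hUc hUr
  have hgd : g.map (algebraMap ℚ ℚ_[l]) ∣ GZ ℚ_[l] b := by
    have := Polynomial.map_dvd (algebraMap ℚ ℚ_[l]) hg
    rwa [gz_map] at this
  have hgs : (g.map (algebraMap ℚ ℚ_[l])).Splits := hspl.of_dvd hq0 hgd
  obtain ⟨x, hx⟩ := hgs.exists_eval_eq_zero (by
    rw [degree_map]
    intro h
    have := natDegree_eq_zero_iff_degree_le_zero.2 h.le
    omega)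
  have hxU : x ∈ U := hmem x (by
    obtain ⟨k, hk⟩ := hgd
    rw [hk, eval_mul, hx, zero_mul])
  rw [hU] at hxU
  obtain ⟨a, -, rfl⟩ := Finset.mem_image.1 hxU
  exact ⟨ρ a, hx, h2 a⟩

lemma dense_mono {S S' : Set ℕ} (h : S ⊆ S') (hS : Dense S) : Dense S' := by
  classical
  intro T
  obtain ⟨z, hz⟩ := hS T
  refine ⟨z, hz.trans ?_⟩
  refine Finset.sum_le_sum_of_subset_of_nonneg ?_ fun _ _ _ => by positivity
  intro l hl
  rw [Finset.mem_filter] at hl ⊢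
  exact ⟨hl.1, hl.2.1, h hl.2.2⟩

lemma dense_of {S : Set ℕ} (h : ∀ T : ℝ, ∃ (z : ℕ) (F : Finset ℕ),
    (∀ l ∈ F, 5 ≤ l ∧ l ≤ z ∧ l.Prime ∧ l ∈ S) ∧ T ≤ ∑ l ∈ F, (1 : ℝ) / l) : Dense S := by
  classical
  intro T
  obtain ⟨z, F, hF, hT⟩ := h T
  refine ⟨z, hT.trans ?_⟩
  refine Finset.sum_le_sum_of_subset_of_nonneg ?_ fun _ _ _ => by positivity
  intro l hl
  obtain ⟨h1, h2, h3, h4⟩ := hF l hl
  rw [Finset.mem_filter, Finset.mem_Icc]
  exact ⟨⟨h1, h2⟩, h3, h4⟩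

/-- The primes at which `f1` splits are dense. -/
lemma dense_split {m : ℕ} (hm : 1 ≤ m) (b : Fin (m + 1) → ℤ) (h0 : b 0 ≠ 0)
    (hsq : Squarefree (GZ ℚ b)) :
    Dense {l | l.Prime ∧ ¬ (l : ℤ) ∣ b 0 ∧ (Gen.R (f1 b) l).card = (f1 b).natDegree} := by
  classical
  obtain ⟨κ, B, hκ, hM⟩ := Cheb.splitMert (f1 b) (f1_monic b h0) (f1_sep hm b h0 hsq)
  apply dense_of
  intro T
  obtain ⟨x, hx⟩ : ∃ x : ℝ, x = ((max 5 (b 0).natAbs : ℕ) : ℝ) := ⟨_, rfl⟩
  have hx5 : 5 ≤ x := by rw [hx]; exact_mod_cast le_max_left _ _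
  have htend : Filter.Tendsto (fun y : ℝ => Real.log (Real.log y)) Filter.atTop Filter.atTop :=
    Real.tendsto_log_atTop.comp Real.tendsto_log_atTop
  obtain ⟨y, hy1, hy2⟩ := ((htend.eventually_ge_atTop
    ((T + B) / κ + Real.log (Real.log x))).and (Filter.eventually_ge_atTop x)).exists
  have h1 := hM x y (by linarith) hy2
  have h2 : T ≤ κ * (Real.log (Real.log y) - Real.log (Real.log x)) - B := by
    have : (T + B) / κ ≤ Real.log (Real.log y) - Real.log (Real.log x) := by linarith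
    rw [div_le_iff₀ hκ] at this
    linarith
  refine ⟨⌊y⌋₊, _, ?_, h2.trans h1⟩
  intro l hl
  rw [Finset.mem_filter, Finset.mem_Icc] at hl
  obtain ⟨⟨-, hly⟩, hlp, hlx, hlR⟩ := hl
  have hlx' : max 5 (b 0).natAbs < l := by
    rw [hx] at hlx
    exact_mod_cast hlx
  refine ⟨by omega, hly, hlp, hlp, ?_, hlR⟩
  intro hd
  have h3 : l ∣ (b 0).natAbs := Int.natCast_dvd.1 hd
  have h4 := Nat.le_of_dvd (Int.natAbs_pos.2 h0) h3
  omega

end SplitAux

open SplitAux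

/-- The primes modulo which `g` has a root which is a simple root of `q`. -/
theorem dense_root_factor {m : ℕ} (b : Fin (m + 1) → ℤ) (h0 : b 0 ≠ 0)
    (hsq : Squarefree (GZ ℚ b)) (g : ℚ[X]) (hg : g ∣ GZ ℚ b) (hg1 : 1 ≤ g.natDegree) :
    Dense {l | ∃ _ : Fact l.Prime, ∃ ρ : ℤ_[l], (g.map (algebraMap ℚ ℚ_[l])).eval (ρ : ℚ_[l]) = 0 ∧
      IsUnit ((derivative (GZ ℤ_[l] b)).eval ρ)} := by
  have h0' : ((b 0 : ℤ) : ℚ) ≠ 0 := by exact_mod_cast h0
  have hm : 1 ≤ m := by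
    have h1 := natDegree_le_of_dvd hg (gz_ne_zero b h0')
    have h2 := BF.PairEx.GZ_natDegree_le (R := ℚ) b
    omega
  refine dense_mono ?_ (dense_split hm b h0 hsq)
  rintro l ⟨hp, hlb, hR⟩
  have hl : Fact l.Prime := ⟨hp⟩
  exact ⟨hl, at_prime hm b h0 l hlb hR g hg hg1⟩

theorem dense_root {m : ℕ} (hm : 1 ≤ m) (b : Fin (m + 1) → ℤ) (h0 : b 0 ≠ 0)
    (hsq : Squarefree (GZ ℚ b)) : Dense {l | ∃ r : ℤ, Root b l r} := by
  have h0' : ((b 0 : ℤ) : ℚ) ≠ 0 := by exact_mod_cast h0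
  have hdeg : (GZ ℚ b).natDegree = m := by
    apply natDegree_eq_of_le_of_coeff_ne_zero (BF.PairEx.GZ_natDegree_le b)
    rw [BF.PairEx.GZ_coeff]
    exact h0'
  refine dense_mono ?_ (dense_root_factor b h0 hsq (GZ ℚ b) dvd_rfl (by rw [hdeg]; exact hm))
  rintro l ⟨hl, ρ, h1, h2⟩
  -- `ρ` is a root in `ℤ_l`
  have h3 : (GZ ℤ_[l] b).eval ρ = 0 := by
    have h4 : (GZ ℚ b).map (algebraMap ℚ ℚ_[l]) =
        (GZ ℤ_[l] b).map (PadicInt.Coe.ringHom (p := l)) := by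
      rw [gz_map, gz_map]
    rw [h4, eval_map] at h1
    have h5 : eval₂ (PadicInt.Coe.ringHom (p := l)) (ρ : ℚ_[l]) (GZ ℤ_[l] b) =
        PadicInt.Coe.ringHom (p := l) ((GZ ℤ_[l] b).eval ρ) := by
      rw [← eval₂_at_apply]
      rfl
    rw [h5] at h1
    exact Subtype.ext h1
  obtain ⟨r, hr⟩ : ∃ r : ℤ, r = ((PadicInt.appr ρ 2 : ℕ) : ℤ) := ⟨_, rfl⟩
  have hspec := PadicInt.appr_spec 2 ρ
  rw [Ideal.mem_span_singleton] at hspec
  have hrρ : (l : ℤ_[l]) ^ 2 ∣ ρ - (r : ℤ_[l]) := by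
    rw [hr, Int.cast_natCast]
    exact hspec
  have hcast : ∀ f : ℤ[X], (f.map (Int.castRingHom ℤ_[l])).eval (r : ℤ_[l]) =
      ((f.eval r : ℤ) : ℤ_[l]) := by
    intro f
    rw [eval_intCast_map, eq_intCast, Int.cast_id]
  refine ⟨r, ?_, ?_⟩
  · have h6 : (l : ℤ_[l]) ^ 2 ∣ (GZ ℤ_[l] b).eval ρ - (GZ ℤ_[l] b).eval (r : ℤ_[l]) :=
      hrρ.trans (sub_dvd_eval_sub _ _ _)
    rw [h3, zero_sub, dvd_neg, ← gz_map (Int.castRingHom ℤ_[l]) b, hcast] at h6
    exact (PadicInt.pow_p_dvd_int_iff 2 _).1 h6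
  · intro hd
    have h6 : (l : ℤ_[l]) ∣ (derivative (GZ ℤ_[l] b)).eval ρ -
        (derivative (GZ ℤ_[l] b)).eval (r : ℤ_[l]) :=
      ((dvd_pow_self _ two_ne_zero).trans hrρ).trans (sub_dvd_eval_sub _ _ _)
    have h7 : (l : ℤ_[l]) ∣ (derivative (GZ ℤ_[l] b)).eval (r : ℤ_[l]) := by
      rw [← gz_map (Int.castRingHom ℤ_[l]) b, derivative_map, hcast]
      obtain ⟨k, hk⟩ := hd
      rw [hk]
      push_cast
      exact dvd_mul_right _ _
    have h8 : (l : ℤ_[l]) ∣ (derivative (GZ ℤ_[l] b)).eval ρ := by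
      have := dvd_add h6 h7
      rwa [sub_add_cancel] at this
    have h9 := isUnit_of_dvd_unit h8 h2
    exact PadicInt.p_nonunit h9

end Stoll308.FQ
end

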