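import Mathlib
import Pool.Agent.Work.BCM.C27

section
set_option autoImplicit false

/-!
Weak approximation for `ℚ` at finitely many primes.
-/

namespace Stoll308.BE

lemma primes_fact (p : Nat.Primes) : Fact (p : ℕ).Prime := ⟨p.2⟩

attribute [local instance] primes_fact

/-- Weak approximation for `ℚ` at finitely many primes. -/
theorem weak_approx (S : Finset Nat.Primes) (x : ∀ p : Nat.Primes, ℚ_[(p : ℕ)])
    (ε : Nat.Primes → ℝ) (hε : ∀ p, 0 < ε p) :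
    ∃ r : ℚ, ∀ p ∈ S, ‖((r : ℚ) : ℚ_[(p : ℕ)]) - x p‖ < ε p := by
  classical
  -- denominators
  have hk : ∀ p : Nat.Primes, ∃ k : ℕ, ‖((p : ℕ) : ℚ_[(p : ℕ)]) ^ k * x p‖ ≤ 1 := by
    intro p
    have hp1 : ‖((p : ℕ) : ℚ_[(p : ℕ)])‖ < 1 := Padic.norm_p_lt_one
    obtain ⟨k, hk⟩ := exists_pow_lt_of_lt_one (show 0 < (‖x p‖ + 1)⁻¹ by positivity) hp1
    refine ⟨k, ?_⟩
    rw [norm_mul, norm_pow]
    have h1 : 0 < ‖x p‖ + 1 := by positivity
    calc ‖((p : ℕ) : ℚ_[(p : ℕ)])‖ ^ k * ‖x p‖ ≤ (‖x p‖ + 1)⁻¹ * (‖x p‖ + 1) := by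
          apply mul_le_mul hk.le (by linarith) (norm_nonneg _) (by positivity)
      _ = 1 := inv_mul_cancel₀ h1.ne'
  choose k hk using hk
  set D : ℕ := ∏ p ∈ S, (p : ℕ) ^ k p with hD
  have hD0 : D ≠ 0 := Finset.prod_ne_zero_iff.mpr fun p _ => pow_ne_zero _ p.2.ne_zero
  have hDx : ∀ p ∈ S, ‖(D : ℚ_[(p : ℕ)]) * x p‖ ≤ 1 := by
    intro p hp
    obtain ⟨E, hE⟩ : (p : ℕ) ^ k p ∣ D := Finset.dvd_prod_of_mem _ hp
    rw [hE]
    push_cast
    rw [mul_comm (((p : ℕ) : ℚ_[(p : ℕ)]) ^ k p), mul_assoc, norm_mul]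
    exact mul_le_one₀ (by exact_mod_cast Padic.norm_int_le_one (p := (p : ℕ)) (E : ℤ))
      (norm_nonneg _) (hk p)
  have hM : ∀ p : Nat.Primes, ∃ M : ℕ, ‖((p : ℕ) : ℚ_[(p : ℕ)])‖ ^ M <
      ε p * ‖(D : ℚ_[(p : ℕ)])‖ := by
    intro p
    have hp1 : ‖((p : ℕ) : ℚ_[(p : ℕ)])‖ < 1 := Padic.norm_p_lt_one
    have hDp : 0 < ‖(D : ℚ_[(p : ℕ)])‖ := norm_pos_iff.mpr (by exact_mod_cast hD0)
    exact exists_pow_lt_of_lt_one (mul_pos (hε p) hDp) hp1
  choose M hM using hM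
  have ha : ∀ p : Nat.Primes, ∃ a : ℕ, p ∈ S → ‖(D : ℚ_[(p : ℕ)]) * x p - a‖ ≤
      ‖((p : ℕ) : ℚ_[(p : ℕ)])‖ ^ M p := by
    intro p
    by_cases hp : p ∈ S
    · set z : ℤ_[(p : ℕ)] := ⟨(D : ℚ_[(p : ℕ)]) * x p, hDx p hp⟩ with hz
      refine ⟨z.appr (M p), fun _ => ?_⟩
      have h1 := PadicInt.appr_spec (M p) z
      rw [Ideal.mem_span_singleton] at h1
      obtain ⟨y, hy⟩ := h1
      have h2 : (D : ℚ_[(p : ℕ)]) * x p - (z.appr (M p) : ℕ) =
          ((p : ℕ) : ℚ_[(p : ℕ)]) ^ M p * (y : ℚ_[(p : ℕ)]) := by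
        have h3 := congrArg (fun w : ℤ_[(p : ℕ)] => (w : ℚ_[(p : ℕ)])) hy
        simp only [PadicInt.coe_sub, PadicInt.coe_mul, PadicInt.coe_pow, PadicInt.coe_natCast] at h3
        rw [← h3, hz]
      rw [h2, norm_mul, norm_pow]
      exact mul_le_of_le_one_right (by positivity) (PadicInt.norm_le_one y)
    · exact ⟨0, fun h => absurd h hp⟩
  choose a ha using ha
  obtain ⟨c, hc⟩ := Nat.chineseRemainderOfFinset a (fun p : Nat.Primes => (p : ℕ) ^ M p) S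
    (fun p _ => pow_ne_zero _ p.2.ne_zero) (by
      intro p _ q _ hpq
      exact Nat.Coprime.pow _ _ ((Nat.coprime_primes p.2 q.2).mpr
        (fun h => hpq (Subtype.ext h))))
  refine ⟨(c : ℚ) / D, fun p hp => ?_⟩
  have hDp0 : (D : ℚ_[(p : ℕ)]) ≠ 0 := by exact_mod_cast hD0
  have hDp : 0 < ‖(D : ℚ_[(p : ℕ)])‖ := norm_pos_iff.mpr hDp0
  have h1 : ‖(c : ℚ_[(p : ℕ)]) - a p‖ ≤ ‖((p : ℕ) : ℚ_[(p : ℕ)])‖ ^ M p := by
    have h2 := (Nat.modEq_iff_dvd.mp (hc p hp).symm)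
    obtain ⟨y, hy⟩ := h2
    have h3 : (c : ℚ_[(p : ℕ)]) - a p = ((p : ℕ) : ℚ_[(p : ℕ)]) ^ M p * (y : ℤ) := by
      have h4 := congrArg (fun w : ℤ => (w : ℚ_[(p : ℕ)])) hy
      push_cast at h4
      exact h4
    rw [h3, norm_mul, norm_pow]
    exact mul_le_of_le_one_right (by positivity) (Padic.norm_int_le_one y)
  have h5 : (((c : ℚ) / D : ℚ) : ℚ_[(p : ℕ)]) - x p =
      ((c - a p) - (D * x p - a p)) / (D : ℚ_[(p : ℕ)]) := by
    push_cast
    field_simp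
    ring
  rw [h5, norm_div, div_lt_iff₀ hDp]
  refine lt_of_le_of_lt ?_ (hM p)
  calc ‖((c : ℚ_[(p : ℕ)]) - a p) - (D * x p - a p)‖
      ≤ max ‖(c : ℚ_[(p : ℕ)]) - a p‖ ‖(D : ℚ_[(p : ℕ)]) * x p - a p‖ := by
        rw [sub_eq_add_neg ((c : ℚ_[(p : ℕ)]) - a p)]
        exact (Padic.nonarchimedean _ _).trans (by rw [norm_neg])
    _ ≤ _ := max_le h1 (ha p hp)

end Stoll308.BE
end

section
set_option autoImplicit false

/-!
Approximation of local points of the curve `w² = q(t)`.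
-/

namespace Stoll308.FQ

open Polynomial Finset BF Topology

private lemma map_GZ {R S : Type*} [CommRing R] [CommRing S] (φ : R →+* S) {n : ℕ}
    (a : Fin (n + 1) → ℤ) : (GZ R a).map φ = GZ S a := by
  simp [gpol, Polynomial.map_sum]

private lemma eval_gpol {R : Type*} [CommRing R] {n : ℕ} (a : Fin (n + 1) → R) (x : R) :
    (gpol a).eval x = ∑ i : Fin (n + 1), a i * x ^ (n - (i : ℕ)) := by
  unfold gpol
  rw [eval_finsetSum]
  simp

section General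

variable {K : Type*} [NontriviallyNormedField K] [CompleteSpace K] [CharZero K]

/-- The nonzero squares form an open set. -/
private lemma ev_sq {w : K} (hw : w ≠ 0) : ∀ᶠ x in 𝓝 (w ^ 2), IsSquare x := by
  have h1 : HasStrictDerivAt (fun y : K => y ^ 2) (2 * w) w := by
    have h := hasStrictDerivAt_pow 2 w
    simp only [Nat.cast_ofNat, Nat.add_one_sub_one, pow_one] at h
    exact h
  have h2 := h1.map_nhds_eq (mul_ne_zero two_ne_zero hw)
  rw [← h2, Filter.eventually_map]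
  exact Filter.Eventually.of_forall fun y => ⟨y, sq y⟩

/-- Nonzero square values near a point. -/
private lemma ev_eval (g : K[X]) (t w : K) (hw : w ≠ 0) (hg : w ^ 2 = g.eval t) :
    ∀ᶠ x in 𝓝 t, IsSquare (g.eval x) ∧ g.eval x ≠ 0 := by
  have h1 : Filter.Tendsto (fun x => g.eval x) (𝓝 t) (𝓝 (w ^ 2)) := by
    rw [hg]
    exact g.continuous.tendsto t
  exact (h1.eventually (ev_sq hw)).and (h1.eventually_ne (pow_ne_zero 2 hw))

private lemma exists_small (g : K[X]) (hg : g.eval 0 = 1) :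
    ∃ η : K, η ≠ 0 ∧ ∃ w, w ≠ 0 ∧ w ^ 2 = g.eval η := by
  have h1 := ev_eval g 0 1 one_ne_zero (by rw [hg, one_pow])
  have h2 : ∀ᶠ η in 𝓝[≠] (0 : K), η ≠ 0 := eventually_mem_nhdsWithin
  obtain ⟨η, h3, h4⟩ := ((h1.filter_mono nhdsWithin_le_nhds).and h2).exists
  obtain ⟨⟨w, hw⟩, h5⟩ := h3
  refine ⟨η, h4, w, ?_, by rw [hw, sq]⟩
  rintro rfl
  exact h5 (by rw [hw, mul_zero])

private lemma exists_pt {m : ℕ} (hem : Even m) (b : Fin (m + 1) → ℤ) (h0 : b 0 ≠ 0)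
    (hsq : Squarefree (GZ ℚ b)) (h : BasePoint b K) :
    ∃ t w : K, w ≠ 0 ∧ w ^ 2 = (GZ K b).eval t := by
  rcases h with ⟨t, w, hw⟩ | ⟨s, hs⟩
  · by_cases hw0 : w = 0
    · have hq : (GZ K b).eval t = 0 := by rw [← hw, hw0]; ring
      have hsep : (GZ K b).Separable := by
        have h1 : (GZ ℚ b).Separable := PerfectField.separable_iff_squarefree.2 hsq
        have h2 := h1.map (f := algebraMap ℚ K)
        rw [map_GZ] at h2
        exact h2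
      have hd : (derivative (GZ K b)).eval t ≠ 0 := by
        intro h1
        have h2 := hsep
        obtain ⟨u, v, huv⟩ := h2
        have h3 := congrArg (fun g : K[X] => g.eval t) huv
        simp only [eval_add, eval_mul, hq, h1, mul_zero, add_zero, eval_one] at h3
        exact zero_ne_one h3
      obtain ⟨q1, hq1⟩ := dvd_iff_isRoot.2 (show (GZ K b).IsRoot t from hq)
      set d : K := (derivative (GZ K b)).eval t with hdd
      have hd1 : q1.eval t = d := by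
        rw [hdd, hq1]
        simp
      obtain ⟨η, hη, v, hv, hv2⟩ := exists_small (C d⁻¹ * q1.comp (C t + C d * X ^ 2)) (by
        simp [eval_comp, hd1, inv_mul_cancel₀ hd])
      refine ⟨t + d * η ^ 2, d * η * v, mul_ne_zero (mul_ne_zero hd hη) hv, ?_⟩
      rw [mul_pow, hv2, hq1]
      simp only [eval_mul, eval_C, eval_comp, eval_add, eval_pow, eval_X, eval_sub]
      field_simp
      ring
    · exact ⟨t, w, hw0, hw⟩
  · have hb : (b 0 : K) ≠ 0 := by exact_mod_cast h0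
    have hs0 : s ≠ 0 := by
      rintro rfl
      exact hb (by rw [hs, mul_zero])
    obtain ⟨k, hk⟩ := hem
    obtain ⟨η, hη, v, hv, hv2⟩ := exists_small
      (C (b 0 : K)⁻¹ * ∑ i : Fin (m + 1), C (b i : K) * X ^ (i : ℕ)) (by
        rw [eval_mul, eval_finsetSum, Fin.sum_univ_succ]
        simp [inv_mul_cancel₀ hb])
    refine ⟨η⁻¹, s * v / η ^ k, div_ne_zero (mul_ne_zero hs0 hv) (pow_ne_zero _ hη), ?_⟩
    have h1 : (s * v / η ^ k) ^ 2 = b 0 * v ^ 2 / η ^ m := by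
      rw [hs, hk]
      field_simp
      ring
    rw [h1, hv2, eval_gpol]
    rw [eval_mul, eval_finsetSum, eval_C, ← mul_assoc, mul_inv_cancel₀ hb, one_mul, sum_div]
    apply sum_congr rfl
    intro i _
    have hi : (i : ℕ) ≤ m := by omega
    have h2 : η ^ m = η ^ (m - (i : ℕ)) * η ^ (i : ℕ) := by
      rw [← pow_add, Nat.sub_add_cancel hi]
    rw [eval_mul, eval_C, eval_pow, eval_X, h2, inv_pow]
    field_simp

end General

/-- A local point with `w` different from zero. -/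
theorem exists_local {m : ℕ} (hm : 2 ≤ m) (hem : Even m) (b : Fin (m + 1) → ℤ) (h0 : b 0 ≠ 0)
    (hsq : Squarefree (GZ ℚ b)) (p : ℕ) [Fact p.Prime] (h : BasePoint b ℚ_[p]) :
    ∃ t w : ℚ_[p], w ≠ 0 ∧ w ^ 2 = (GZ ℚ_[p] b).eval t :=
  exists_pt hem b h0 hsq h

theorem exists_real {m : ℕ} (hm : 2 ≤ m) (hem : Even m) (b : Fin (m + 1) → ℤ) (h0 : b 0 ≠ 0)
    (hsq : Squarefree (GZ ℚ b)) (h : BasePoint b ℝ) :
    ∃ t w : ℝ, w ≠ 0 ∧ w ^ 2 = (GZ ℝ b).eval t :=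
  exists_pt hem b h0 hsq h

private lemma prm_fact (p : Nat.Primes) : Fact (p : ℕ).Prime := ⟨p.2⟩

attribute [local instance] prm_fact

/-- Weak approximation. -/
theorem weak_approx (Q : ℕ) (t : ∀ (p : ℕ) [Fact p.Prime], ℚ_[p]) (t₀ : ℝ) (ε : ℕ → ℝ)
    (hε : ∀ p, 0 < ε p) (ε₀ : ℝ) (hε₀ : 0 < ε₀) :
    ∃ x : ℚ, (∀ (p : ℕ) [Fact p.Prime], p ≤ Q → ‖(x : ℚ_[p]) - t p‖ < ε p) ∧
      |(x : ℝ) - t₀| < ε₀ := by
  classical
  have hfin : {p : Nat.Primes | (p : ℕ) ≤ Q}.Finite :=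
    (Set.finite_Iic Q).preimage (Subtype.val_injective.injOn)
  obtain ⟨r, hr⟩ := BE.weak_approx hfin.toFinset (fun p : Nat.Primes => t (p : ℕ))
    (fun p => ε (p : ℕ)) (fun p => hε _)
  have hr' : ∀ (p : ℕ) [Fact p.Prime], p ≤ Q → ‖(r : ℚ_[p]) - t p‖ < ε p := by
    intro p hp hpQ
    exact hr ⟨p, hp.1⟩ (by
      rw [Set.Finite.mem_toFinset]
      exact hpQ)
  choose k hk using fun p => exists_pow_lt_of_lt_one (hε p) (by norm_num : (1 / 2 : ℝ) < 1)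
  set M : ℕ := ∑ p ∈ range (Q + 1), k p with hM
  have hMp : ∀ p, p ≤ Q → (1 / 2 : ℝ) ^ M < ε p := by
    intro p hpQ
    have h1 : k p ≤ M := single_le_sum (f := k) (fun _ _ => Nat.zero_le _)
      (mem_range.2 (Nat.lt_succ_of_le hpQ))
    exact lt_of_le_of_lt (pow_le_pow_of_le_one (by norm_num) (by norm_num) h1) (hk p)
  set D : ℕ := Q.factorial ^ M with hD
  have hD0 : (0 : ℝ) < D := by exact_mod_cast pow_pos (Nat.factorial_pos Q) M
  obtain ⟨N, hN⟩ := exists_nat_gt ((D : ℝ) / ε₀)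
  set L : ℕ := 1 + N * Q.factorial with hL
  have hL0 : (0 : ℝ) < L := by
    have : 0 < L := by omega
    exact_mod_cast this
  have hNL : (N : ℝ) ≤ L := by
    have h1 : N ≤ L := by
      have h2 : N * 1 ≤ N * Q.factorial := Nat.mul_le_mul_left _ (Nat.factorial_pos Q)
      omega
    exact_mod_cast h1
  have hDL : (D : ℝ) / L < ε₀ := by
    rw [div_lt_iff₀ hL0]
    rw [div_lt_iff₀ hε₀] at hN
    calc (D : ℝ) < N * ε₀ := hN
      _ ≤ L * ε₀ := mul_le_mul_of_nonneg_right hNL hε₀.le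
      _ = ε₀ * L := mul_comm _ _
  set j : ℤ := ⌊(L : ℝ) * (t₀ - r) / D⌋ with hj
  have hj1 : (j : ℝ) ≤ (L : ℝ) * (t₀ - r) / D := Int.floor_le _
  have hj2 : (L : ℝ) * (t₀ - r) / D < j + 1 := Int.lt_floor_add_one _
  rw [le_div_iff₀ hD0] at hj1
  rw [div_lt_iff₀ hD0] at hj2
  refine ⟨r + D * j / L, ?_, ?_⟩
  · intro p hp hpQ
    have h1 : ((r + D * j / L : ℚ) : ℚ_[p]) - t p =
        ((r : ℚ_[p]) - t p) + (D : ℚ_[p]) * (j : ℚ_[p]) / (L : ℚ_[p]) := by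
      push_cast
      ring
    have hpf : p ∣ Q.factorial := (Nat.Prime.dvd_factorial hp.1).2 hpQ
    have hLn : ‖(L : ℚ_[p])‖ = 1 := by
      have h2 : ¬ (p : ℤ) ∣ (L : ℤ) := by
        intro h3
        have h4 : p ∣ 1 + N * Q.factorial := by
          rw [← hL]
          exact_mod_cast h3
        have h5 : p ∣ 1 := (Nat.dvd_add_left (dvd_mul_of_dvd_right hpf N)).1 h4
        exact hp.1.one_lt.ne' (Nat.dvd_one.1 h5)
      have h3 : ¬ ‖((L : ℤ) : ℚ_[p])‖ < 1 := by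
        rw [Padic.norm_intCast_lt_one_iff]
        exact h2
      have h4 := Padic.norm_int_le_one (p := p) (L : ℤ)
      have h5 := le_antisymm h4 (not_lt.1 h3)
      exact_mod_cast h5
    have hDn : ‖(D : ℚ_[p])‖ ≤ (1 / 2 : ℝ) ^ M := by
      rw [hD, Nat.cast_pow, norm_pow]
      apply pow_le_pow_left₀ (norm_nonneg _)
      obtain ⟨e, he⟩ := hpf
      rw [he, Nat.cast_mul, norm_mul, Padic.norm_p]
      have h2 := Padic.norm_int_le_one (p := p) (e : ℤ)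
      have h3 : ‖(e : ℚ_[p])‖ ≤ 1 := by exact_mod_cast h2
      have h4 : (2 : ℝ) ≤ p := by exact_mod_cast hp.1.two_le
      calc (p : ℝ)⁻¹ * ‖(e : ℚ_[p])‖ ≤ (p : ℝ)⁻¹ * 1 :=
            mul_le_mul_of_nonneg_left h3 (by positivity)
        _ = (p : ℝ)⁻¹ := mul_one _
        _ ≤ 1 / 2 := by
          rw [one_div]
          exact inv_anti₀ (by norm_num) h4
    have h5 : ‖(D : ℚ_[p]) * (j : ℚ_[p]) / (L : ℚ_[p])‖ < ε p := by
      rw [norm_div, hLn, div_one, norm_mul]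
      calc ‖(D : ℚ_[p])‖ * ‖(j : ℚ_[p])‖ ≤ (1 / 2 : ℝ) ^ M * 1 :=
            mul_le_mul hDn (Padic.norm_int_le_one j) (norm_nonneg _) (by positivity)
        _ = (1 / 2 : ℝ) ^ M := mul_one _
        _ < ε p := hMp p hpQ
    rw [h1]
    exact lt_of_le_of_lt (Padic.nonarchimedean _ _) (max_lt (hr' p hpQ) h5)
  · have h1 : (((r + D * j / L : ℚ) : ℝ) - t₀) = (D * j - L * (t₀ - r)) / L := by
      push_cast
      field_simp
      ring
    rw [h1, abs_div, abs_of_pos hL0]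
    refine lt_of_le_of_lt ?_ hDL
    apply div_le_div_of_nonneg_right _ hL0.le
    rw [abs_le]
    constructor <;> nlinarith

theorem exists_value {m : ℕ} (hm : 2 ≤ m) (hem : Even m) (b : Fin (m + 1) → ℤ) (h0 : b 0 ≠ 0)
    (hsq : Squarefree (GZ ℚ b)) (hloc : BaseELS b) (Q : ℕ) :
    ∃ x z : ℤ, IsCoprime x z ∧
      (∀ (p : ℕ) [Fact p.Prime], p ≤ Q →
        IsSquare ((∑ i : Fin (m + 1), b i * x ^ (m - (i : ℕ)) * z ^ (i : ℕ) : ℤ) : ℚ_[p])) ∧
      0 < ∑ i : Fin (m + 1), b i * x ^ (m - (i : ℕ)) * z ^ (i : ℕ) := by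
  classical
  choose t w hw hwt using fun (p : ℕ) (_ : Fact p.Prime) =>
    exists_local hm hem b h0 hsq p (hloc.1 p)
  obtain ⟨t₀, w₀, hw₀, hwt₀⟩ := exists_real hm hem b h0 hsq hloc.2
  have hball : ∀ p : ℕ, ∃ e : ℝ, 0 < e ∧ ∀ (h : Fact p.Prime) (y : ℚ_[p]), ‖y - t p h‖ < e →
      IsSquare ((GZ ℚ_[p] b).eval y) := by
    intro p
    by_cases hp : p.Prime
    · have : Fact p.Prime := ⟨hp⟩
      have h1 := ev_eval (GZ ℚ_[p] b) (t p ⟨hp⟩) (w p ⟨hp⟩) (hw p ⟨hp⟩) (hwt p ⟨hp⟩)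
      obtain ⟨e, he, h2⟩ := Metric.eventually_nhds_iff.1 h1
      refine ⟨e, he, fun _ y hy => ?_⟩
      exact (h2 (by rw [dist_eq_norm]; exact hy)).1
    · exact ⟨1, one_pos, fun h => absurd h.1 hp⟩
  choose ε hε hεs using hball
  have hball0 : ∃ e : ℝ, 0 < e ∧ ∀ y : ℝ, |y - t₀| < e → 0 < (GZ ℝ b).eval y := by
    have h1 := ev_eval (GZ ℝ b) t₀ w₀ hw₀ hwt₀
    obtain ⟨e, he, h2⟩ := Metric.eventually_nhds_iff.1 h1
    refine ⟨e, he, fun y hy => ?_⟩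
    obtain ⟨⟨u, hu⟩, h4⟩ := h2 (y := y) (by rw [Real.dist_eq]; exact hy)
    rw [hu] at h4 ⊢
    exact lt_of_le_of_ne (mul_self_nonneg u) h4.symm
  obtain ⟨ε₀, hε₀, hpos⟩ := hball0
  obtain ⟨y, hy1, hy2⟩ := weak_approx Q (fun p h => t p h) t₀ ε hε ε₀ hε₀
  have hz0 : (y.den : ℤ) ≠ 0 := by exact_mod_cast y.den_ne_zero
  -- the form at numerator and denominator
  have key : ∀ (K : Type) [Field K] [CharZero K],
      ((∑ i : Fin (m + 1), b i * y.num ^ (m - (i : ℕ)) * (y.den : ℤ) ^ (i : ℕ) : ℤ) : K) =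
        (y.den : K) ^ m * (GZ K b).eval (y : K) := by
    intro K _ _
    have hd : (y.den : K) ≠ 0 := by exact_mod_cast y.den_ne_zero
    have h1 : (y : K) = (y.num : K) / (y.den : K) := Rat.cast_def y
    rw [h1, eval_gpol, mul_sum]
    push_cast
    apply sum_congr rfl
    intro i _
    have hi : (i : ℕ) ≤ m := by omega
    have h2 : (y.den : K) ^ m = (y.den : K) ^ (m - (i : ℕ)) * (y.den : K) ^ (i : ℕ) := by
      rw [← pow_add, Nat.sub_add_cancel hi]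
    rw [h2, div_pow]
    field_simp
  refine ⟨y.num, y.den, ?_, ?_, ?_⟩
  · exact Int.isCoprime_iff_gcd_eq_one.2 y.reduced
  · intro p hp hpQ
    rw [key ℚ_[p]]
    obtain ⟨k, hk⟩ := hem
    obtain ⟨u, hu⟩ := hεs p hp (y : ℚ_[p]) (hy1 p hpQ)
    exact ⟨(y.den : ℚ_[p]) ^ k * u, by rw [hu, hk]; ring⟩
  · have h1 := hpos y hy2
    have h2 : (0 : ℝ) < (y.den : ℝ) ^ m * (GZ ℝ b).eval (y : ℝ) := by
      have : (0 : ℝ) < y.den := by exact_mod_cast y.den_pos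
      positivity
    rw [← key ℝ] at h2
    exact_mod_cast h2

end Stoll308.FQ
end

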