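import Mathlib

section
set_option autoImplicit false

/-!
A polynomial whose product with a fixed one is a square is determined by its first coefficients.
-/

namespace Stoll308.DQ

open Polynomial Finset

theorem uniq {K : Type*} [Field K] [IsAlgClosed K] (h2 : (2 : K) ≠ 0) (φ g g' : K[X])
    (hφ : φ ≠ 0) (hg : 3 ≤ g.natDegree) (hd : (g - g').natDegree ≤ 1)
    (h : ∃ (c : K) (s : K[X]), φ * g = C c * s ^ 2)
    (h' : ∃ (c : K) (s : K[X]), φ * g' = C c * s ^ 2) : g = g' := by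
  obtain ⟨c, s, hs⟩ := h
  obtain ⟨c', s', hs'⟩ := h'
  obtain ⟨e, he⟩ := IsAlgClosed.exists_pow_nat_eq (c * c') (n := 2) (by norm_num)
  have h1 : φ ^ 2 * (g * g') = (C e * (s * s')) ^ 2 := by
    calc φ ^ 2 * (g * g') = (φ * g) * (φ * g') := by ring
      _ = (C c * s ^ 2) * (C c' * s' ^ 2) := by rw [hs, hs']
      _ = C (e ^ 2) * (s * s') ^ 2 := by rw [he, C_mul]; ring
      _ = (C e * (s * s')) ^ 2 := by rw [C_pow]; ring
  have h3 : φ ∣ C e * (s * s') :=
    (IsIntegrallyClosed.pow_dvd_pow_iff two_ne_zero).1 ⟨g * g', h1.symm⟩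
  obtain ⟨w, hw⟩ := h3
  have h4 : g * g' = w ^ 2 := by
    have h5 : φ ^ 2 * (g * g') = φ ^ 2 * w ^ 2 := by rw [h1, hw]; ring
    exact mul_left_cancel₀ (pow_ne_zero 2 hφ) h5
  by_contra hne
  set d : K[X] := g - g' with hdd
  have hd0 : d ≠ 0 := sub_ne_zero.2 hne
  have h6 : (2 * g - d - 2 * w) * (2 * g - d + 2 * w) = d ^ 2 := by
    have h7 : g' = g - d := by rw [hdd]; ring
    rw [h7] at h4
    have h8 : (2 * g - d - 2 * w) * (2 * g - d + 2 * w) = d ^ 2 + 4 * (g * (g - d) - w ^ 2) := by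
      ring
    rw [h8, h4, sub_self, mul_zero, add_zero]
  have hab : (2 * g - d - 2 * w) * (2 * g - d + 2 * w) ≠ 0 := by
    rw [h6]
    exact pow_ne_zero 2 hd0
  have hdeg := congrArg natDegree h6
  rw [natDegree_mul (left_ne_zero_of_mul hab) (right_ne_zero_of_mul hab), natDegree_pow] at hdeg
  have hsum : ((2 * g - d - 2 * w) + (2 * g - d + 2 * w)).natDegree ≤ 2 := by
    refine (natDegree_add_le _ _).trans (max_le ?_ ?_) <;> omega
  have h9 : (2 * g - d - 2 * w) + (2 * g - d + 2 * w) = C 4 * g - C 2 * d := by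
    have h10 : (C 4 : K[X]) = 4 := rfl
    have h11 : (C 2 : K[X]) = 2 := rfl
    rw [h10, h11]
    ring
  have h4K : (4 : K) ≠ 0 := by
    have h12 : (4 : K) = 2 * 2 := by norm_num
    rw [h12]
    exact mul_ne_zero h2 h2
  have h13 : (C 4 * g).natDegree = g.natDegree := natDegree_C_mul h4K
  have h14 : (C 2 * d).natDegree ≤ 1 := (natDegree_C_mul_le _ _).trans hd
  have h15 : (C 4 * g - C 2 * d).natDegree = g.natDegree := by
    rw [natDegree_sub_eq_left_of_natDegree_lt (by omega), h13]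
  rw [h9, h15] at hsum
  omega

/-- If `f` is squarefree and `f q` is a constant times a square then `f` divides `q`. -/
theorem dvd_of_sq2 {K : Type*} [Field K] (f q : K[X]) (hf : Squarefree f) (hf0 : f ≠ 0)
    (hq : q ≠ 0) (h : ∃ (c : K) (s : K[X]), f * q = C c * s ^ 2) : f ∣ q := by
  obtain ⟨c, s, hs⟩ := h
  have hc : c ≠ 0 := by
    rintro rfl
    rw [C_0, zero_mul] at hs
    exact mul_ne_zero hf0 hq hs
  have hu : IsUnit (C c : K[X]) := isUnit_C.2 (isUnit_iff_ne_zero.2 hc)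
  have h1 : f ∣ s ^ 2 := (hu.dvd_mul_left).1 ⟨q, hs.symm⟩
  obtain ⟨u, rfl⟩ := (hf.dvd_pow_iff_dvd two_ne_zero).1 h1
  refine ⟨C c * u ^ 2, ?_⟩
  have h2 : f * q = f * (f * (C c * u ^ 2)) := by rw [hs]; ring
  exact mul_left_cancel₀ hf0 h2

end Stoll308.DQ
end

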