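import Mathlib
import Pool.Agent.Work.BCM.C26

section
set_option autoImplicit false

/-!
Few polynomials come from reduced pairs with a short vector.
-/

namespace Stoll308.BG

open Polynomial Finset Matrix

namespace Cusp

lemma sqrt_pow_nat {x : ℝ} (hx : 0 ≤ x) (k : ℕ) : √(x ^ k) = √x ^ k := by
  induction k with
  | zero => simp
  | succ k ih => rw [pow_succ, pow_succ, Real.sqrt_mul (pow_nonneg hx k), ih]

/-- the tail of the geometric part -/
lemma part1 (Q n : ℕ) {δ : ℝ} (hδ : 0 < δ) : ∃ R : ℕ, ∀ b : ℕ,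
    ∑ r ∈ Ico R b, (((Q : ℝ) + 1) * (r + 1)) ^ n * (√2)⁻¹ ^ r ≤ δ := by
  set q : ℝ := (√2)⁻¹ with hq
  have h2 : (1 : ℝ) < √2 := by
    rw [Real.lt_sqrt (by norm_num)]
    norm_num
  have hq0 : 0 < q := by positivity
  have hq1 : q < 1 := inv_lt_one_of_one_lt₀ h2
  have hs1 : Summable fun r : ℕ => (r : ℝ) ^ n * q ^ r :=
    summable_pow_mul_geometric_of_norm_lt_one n (by rw [Real.norm_of_nonneg hq0.le]; exact hq1)
  have hs2 : Summable fun r : ℕ => ((r + 1 : ℕ) : ℝ) ^ n * q ^ (r + 1) :=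
    (summable_nat_add_iff (f := fun r : ℕ => (r : ℝ) ^ n * q ^ r) 1).mpr hs1
  have hs : Summable fun r : ℕ => (((Q : ℝ) + 1) * (r + 1)) ^ n * q ^ r := by
    have h3 := hs2.mul_left (((Q : ℝ) + 1) ^ n * q⁻¹)
    refine h3.congr fun r => ?_
    push_cast
    rw [mul_pow, pow_succ q r]
    field_simp
  have h0 : ∀ r : ℕ, 0 ≤ (((Q : ℝ) + 1) * (r + 1)) ^ n * q ^ r := fun r => by positivity
  have ht := tendsto_sum_nat_add fun r : ℕ => (((Q : ℝ) + 1) * (r + 1)) ^ n * q ^ r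
  obtain ⟨R, hR⟩ := ((ht.eventually (gt_mem_nhds hδ)).exists)
  refine ⟨R, fun b => ?_⟩
  rw [Finset.sum_Ico_eq_sum_range]
  have hsR : Summable fun k : ℕ => (((Q : ℝ) + 1) * ((k + R : ℕ) + 1)) ^ n * q ^ (k + R) :=
    (summable_nat_add_iff (f := fun r : ℕ => (((Q : ℝ) + 1) * (r + 1)) ^ n * q ^ r) R).mpr hs
  have h4 := hsR.sum_le_tsum (Finset.range (b - R)) fun k _ => h0 (k + R)
  refine le_trans (le_of_eq ?_) (h4.trans hR.le)
  refine Finset.sum_congr rfl fun k _ => ?_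
  rw [add_comm R k]

/-- the part coming from `1 / M` -/
lemma part2 (Q n : ℕ) {C δ : ℝ} (hC : 0 < C) (hδ : 0 < δ) : ∃ M₀ : ℝ, 1 ≤ M₀ ∧ ∀ M : ℝ, M₀ ≤ M →
    ((⌊Real.logb 2 (C * M ^ Q)⌋₊ + 1 : ℕ) : ℝ) *
      (((Q : ℝ) + 1) * ((⌊Real.logb 2 (C * M ^ Q)⌋₊ + 1 : ℕ) : ℝ)) ^ n * √(1 / M) ≤ δ := by
  set β : ℝ := |Real.logb 2 C| + 2 * Q + 1 with hβ
  have hβ0 : 0 < β := by positivity
  set γ : ℝ := β ^ (n + 1) * ((Q : ℝ) + 1) ^ n with hγ
  have hγ0 : 0 < γ := by positivity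
  have h1 : ∀ᶠ x : ℝ in Filter.atTop, Real.log x ^ ((n + 1 : ℕ) : ℝ) ≤ (δ / γ) * x ^ (1 / 2 : ℝ) := by
    have h3 := (isLittleO_log_rpow_rpow_atTop ((n + 1 : ℕ) : ℝ)
      (show (0 : ℝ) < 1 / 2 by norm_num)).bound (show (0 : ℝ) < δ / γ by positivity)
    filter_upwards [h3, Filter.eventually_ge_atTop (1 : ℝ)] with x hx hx1
    rwa [Real.norm_of_nonneg (Real.rpow_nonneg (Real.log_nonneg hx1) _),
      Real.norm_of_nonneg (by positivity)] at hx
  obtain ⟨M₁, hM₁⟩ := Filter.eventually_atTop.mp h1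
  refine ⟨max M₁ 3, by linarith [le_max_right M₁ 3], fun M hM => ?_⟩
  have hM3 : 3 ≤ M := (le_max_right _ _).trans hM
  have hM0 : 0 < M := by linarith
  have hMl := hM₁ M ((le_max_left _ _).trans hM)
  rw [Real.rpow_natCast] at hMl
  have hlog1 : 1 ≤ Real.log M := by
    rw [Real.le_log_iff_exp_le hM0]
    have := Real.exp_one_lt_d9
    linarith
  have hlog2 := Real.log_two_gt_d9
  set b : ℝ := ((⌊Real.logb 2 (C * M ^ Q)⌋₊ + 1 : ℕ) : ℝ) with hb
  have hb0 : 0 ≤ b := Nat.cast_nonneg _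
  have hbβ : b ≤ β * Real.log M := by
    have h4 : Real.logb 2 (C * M ^ Q) = Real.logb 2 C + Q * (Real.log M / Real.log 2) := by
      rw [Real.logb_mul hC.ne' (by positivity), Real.logb_pow]
      rfl
    have h5 : Real.log M / Real.log 2 ≤ 2 * Real.log M := by
      rw [div_le_iff₀ (by linarith)]
      nlinarith
    have h6 : Real.logb 2 (C * M ^ Q) ≤ |Real.logb 2 C| + Q * (2 * Real.log M) := by
      rw [h4]
      have := le_abs_self (Real.logb 2 C)
      have := mul_le_mul_of_nonneg_left h5 (Nat.cast_nonneg Q : (0 : ℝ) ≤ Q)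
      linarith
    have h7 : (⌊Real.logb 2 (C * M ^ Q)⌋₊ : ℝ) ≤ |Real.logb 2 C| + Q * (2 * Real.log M) := by
      have h8 : 0 ≤ |Real.logb 2 C| + Q * (2 * Real.log M) := by positivity
      rcases le_total 0 (Real.logb 2 (C * M ^ Q)) with h | h
      · exact (Nat.floor_le h).trans h6
      · rw [Nat.floor_of_nonpos h]
        simpa using h8
    have h9 : |Real.logb 2 C| ≤ |Real.logb 2 C| * Real.log M :=
      le_mul_of_one_le_right (abs_nonneg _) hlog1
    rw [hb, hβ]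
    push_cast
    linarith
  have hsq : √(1 / M) * M ^ (1 / 2 : ℝ) = 1 := by
    rw [← Real.sqrt_eq_rpow, ← Real.sqrt_mul (by positivity), one_div_mul_cancel hM0.ne',
      Real.sqrt_one]
  calc b * (((Q : ℝ) + 1) * b) ^ n * √(1 / M)
      = b ^ (n + 1) * ((Q : ℝ) + 1) ^ n * √(1 / M) := by rw [mul_pow, pow_succ b n]; ring
    _ ≤ (β * Real.log M) ^ (n + 1) * ((Q : ℝ) + 1) ^ n * √(1 / M) := by
        gcongr
    _ = γ * (Real.log M ^ (n + 1) * √(1 / M)) := by rw [mul_pow, hγ]; ring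
    _ ≤ γ * ((δ / γ * M ^ (1 / 2 : ℝ)) * √(1 / M)) := by
        gcongr
    _ = γ * (δ / γ) * (√(1 / M) * M ^ (1 / 2 : ℝ)) := by ring
    _ = δ := by rw [hsq]; field_simp

/-- the sum over the cells -/
lemma cells {n : ℕ} (h0 : 0 < n) {C : ℝ} (Q : ℕ) (hC : 0 < C) {ε : ℝ} (hε : 0 < ε) :
    ∃ (R : ℕ) (M₀ : ℝ), 1 ≤ M₀ ∧ ∀ M : ℝ, M₀ ≤ M → ∀ {α : Type} (T : Finset α)
      (f : α → Fin n → ℤ) (V : ℝ), 0 ≤ V → (∀ c ∈ T, f c ⟨0, h0⟩ ≤ -R) →
      (∀ c ∈ T, ∀ i, f c ⟨0, h0⟩ ≤ f c i) → (∀ c ∈ T, ∀ i, f c i ≤ Q * (1 + |f c ⟨0, h0⟩|)) →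
      (∀ c ∈ T, (2 : ℝ) ^ (-f c ⟨0, h0⟩) ≤ C * M ^ Q) →
      (∀ c ∈ T, ∀ S ⊆ T, (∀ c' ∈ S, f c' = f c) →
        (S.card : ℝ) ≤ C * V * √(max ((2 : ℝ) ^ (f c ⟨0, h0⟩)) (1 / M))) →
      (T.card : ℝ) ≤ ε * V := by
  classical
  obtain ⟨R, hR⟩ := part1 Q n (δ := ε / (2 * C)) (by positivity)
  obtain ⟨M₀, hM₀1, hM₀⟩ := part2 Q n hC (δ := ε / (2 * C)) (by positivity)
  refine ⟨R, M₀, hM₀1, ?_⟩
  intro M hM α T f V hV hfR hmin hmax hpow hcell
  have hM1 : 1 ≤ M := hM₀1.trans hM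
  have hM0 : 0 < M := by linarith
  set b : ℕ := ⌊Real.logb 2 (C * M ^ Q)⌋₊ + 1 with hb
  -- the index `r` of a cell
  set ρ : (Fin n → ℤ) → ℕ := fun τ => (-τ ⟨0, h0⟩).toNat with hρ
  set W : ℕ → ℝ := fun r => C * V * ((√2)⁻¹ ^ r + √(1 / M)) with hW
  have hW0 : ∀ r, 0 ≤ W r := fun r => by rw [hW]; positivity
  have hρc : ∀ c ∈ T, (ρ (f c) : ℤ) = -f c ⟨0, h0⟩ := by
    intro c hc
    have := hfR c hc
    rw [hρ]
    simp only
    rw [Int.toNat_of_nonneg]
    have : (0 : ℤ) ≤ R := Int.natCast_nonneg R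
    linarith
  have hρR : ∀ c ∈ T, ρ (f c) ∈ Ico R b := by
    intro c hc
    rw [Finset.mem_Ico]
    constructor
    · have h1 := hρc c hc
      have h2 := hfR c hc
      have : (R : ℤ) ≤ ρ (f c) := by linarith
      exact_mod_cast this
    · rw [hb, Nat.lt_succ_iff]
      apply Nat.le_floor
      rw [Real.le_logb_iff_rpow_le (by norm_num) (by positivity), Real.rpow_natCast]
      have h1 := hpow c hc
      rw [← hρc c hc, zpow_natCast] at h1
      exact h1
  -- the bound of one cell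
  have hone : ∀ τ ∈ T.image f, ((T.filter fun c => f c = τ).card : ℝ) ≤ W (ρ τ) := by
    intro τ hτ
    rw [Finset.mem_image] at hτ
    obtain ⟨c, hc, rfl⟩ := hτ
    refine (hcell c hc _ (Finset.filter_subset _ _)
      (fun c' hc' => (Finset.mem_filter.mp hc').2)).trans ?_
    rw [hW]
    refine mul_le_mul_of_nonneg_left ?_ (by positivity)
    have h1 : (2 : ℝ) ^ (f c ⟨0, h0⟩) = (2⁻¹ : ℝ) ^ (ρ (f c)) := by
      have h2 : f c ⟨0, h0⟩ = -(ρ (f c) : ℤ) := by rw [hρc c hc]; ring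
      rw [h2, _root_.zpow_neg, zpow_natCast, inv_pow]
    have h3 : √((2⁻¹ : ℝ) ^ (ρ (f c))) = (√2)⁻¹ ^ (ρ (f c)) := by
      rw [← Real.sqrt_inv, sqrt_pow_nat (by norm_num)]
    rw [h1, ← h3]
    rcases le_total ((2⁻¹ : ℝ) ^ (ρ (f c))) (1 / M) with h | h
    · rw [max_eq_right h]
      linarith [Real.sqrt_nonneg ((2⁻¹ : ℝ) ^ (ρ (f c)))]
    · rw [max_eq_left h]
      linarith [Real.sqrt_nonneg (1 / M)]
  -- the number of cells
  have hcount : ∀ r, (((T.image f).filter fun τ => ρ τ = r).card : ℝ) ≤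
      (((Q : ℝ) + 1) * (r + 1)) ^ n := by
    intro r
    have h1 : (T.image f).filter (fun τ => ρ τ = r) ⊆
        Fintype.piFinset fun _ : Fin n => Finset.Icc (-(r : ℤ)) (Q * (1 + r)) := by
      intro τ hτ
      rw [Finset.mem_filter, Finset.mem_image] at hτ
      obtain ⟨⟨c, hc, rfl⟩, hr⟩ := hτ
      rw [Fintype.mem_piFinset]
      intro i
      rw [Finset.mem_Icc]
      have h2 := hρc c hc
      rw [hr] at h2
      have h3 := hmin c hc i
      have h4 := hmax c hc i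
      have h5 : |f c ⟨0, h0⟩| = r := by
        have : f c ⟨0, h0⟩ = -(r : ℤ) := by rw [h2]; ring
        rw [this, abs_neg]
        exact abs_of_nonneg (Int.natCast_nonneg r)
      rw [h5] at h4
      exact ⟨by linarith, h4⟩
    have h2 := Finset.card_le_card h1
    rw [Fintype.card_piFinset] at h2
    simp only [Int.card_Icc, Finset.prod_const, Finset.card_univ, Fintype.card_fin] at h2
    have h3 : ((Q : ℤ) * (1 + r) + 1 - -(r : ℤ)).toNat = (Q + 1) * (r + 1) := by
      have : ((Q : ℤ) * (1 + r) + 1 - -(r : ℤ)) = (((Q + 1) * (r + 1) : ℕ) : ℤ) := by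
        push_cast
        ring
      rw [this, Int.toNat_natCast]
    rw [h3] at h2
    calc (((T.image f).filter fun τ => ρ τ = r).card : ℝ) ≤ (((Q + 1) * (r + 1)) ^ n : ℕ) := by
          exact_mod_cast h2
      _ = (((Q : ℝ) + 1) * (r + 1)) ^ n := by push_cast; ring
  -- summation
  have hTsum : (T.card : ℝ) = ∑ τ ∈ T.image f, ((T.filter fun c => f c = τ).card : ℝ) := by
    rw [Finset.card_eq_sum_card_image f T]
    push_cast
    rfl
  have hmaps : ∀ τ ∈ T.image f, ρ τ ∈ Ico R b := by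
    intro τ hτ
    rw [Finset.mem_image] at hτ
    obtain ⟨c, hc, rfl⟩ := hτ
    exact hρR c hc
  calc (T.card : ℝ) = ∑ τ ∈ T.image f, ((T.filter fun c => f c = τ).card : ℝ) := hTsum
    _ ≤ ∑ τ ∈ T.image f, W (ρ τ) := Finset.sum_le_sum hone
    _ = ∑ r ∈ Ico R b, ∑ τ ∈ (T.image f).filter (fun τ => ρ τ = r), W (ρ τ) :=
        (Finset.sum_fiberwise_of_maps_to hmaps _).symm
    _ = ∑ r ∈ Ico R b, (((T.image f).filter fun τ => ρ τ = r).card : ℝ) * W r := by
        refine Finset.sum_congr rfl fun r _ => ?_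
        rw [Finset.sum_congr rfl fun τ hτ => by rw [(Finset.mem_filter.mp hτ).2],
          Finset.sum_const, nsmul_eq_mul]
    _ ≤ ∑ r ∈ Ico R b, (((Q : ℝ) + 1) * (r + 1)) ^ n * W r :=
        Finset.sum_le_sum fun r _ => mul_le_mul_of_nonneg_right (hcount r) (hW0 r)
    _ = C * V * (∑ r ∈ Ico R b, (((Q : ℝ) + 1) * (r + 1)) ^ n * (√2)⁻¹ ^ r) +
          C * V * ((∑ r ∈ Ico R b, (((Q : ℝ) + 1) * (r + 1)) ^ n) * √(1 / M)) := by
        rw [Finset.sum_mul, Finset.mul_sum, Finset.mul_sum, ← Finset.sum_add_distrib]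
        refine Finset.sum_congr rfl fun r _ => ?_
        rw [hW]
        ring
    _ ≤ C * V * (ε / (2 * C)) + C * V * (ε / (2 * C)) := by
        refine add_le_add (mul_le_mul_of_nonneg_left (hR b) (by positivity))
          (mul_le_mul_of_nonneg_left ?_ (by positivity))
        refine le_trans (mul_le_mul_of_nonneg_right ?_ (Real.sqrt_nonneg _)) (hM₀ M hM)
        calc ∑ r ∈ Ico R b, (((Q : ℝ) + 1) * (r + 1)) ^ n
            ≤ ∑ r ∈ Ico R b, (((Q : ℝ) + 1) * (b : ℝ)) ^ n := by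
              refine Finset.sum_le_sum fun r hr => ?_
              have h1 : (r : ℝ) + 1 ≤ b := by
                have := (Finset.mem_Ico.mp hr).2
                exact_mod_cast this
              gcongr
          _ = ((b - R : ℕ) : ℝ) * (((Q : ℝ) + 1) * (b : ℝ)) ^ n := by
              rw [Finset.sum_const, Nat.card_Ico, nsmul_eq_mul]
          _ ≤ (b : ℝ) * (((Q : ℝ) + 1) * (b : ℝ)) ^ n := by
              refine mul_le_mul_of_nonneg_right ?_ (by positivity)
              exact_mod_cast Nat.sub_le b R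
    _ = ε * V := by field_simp; ring

end Cusp

theorem cusp (n : ℕ) (hn : 3 ≤ n) (K : ℝ) (hK : 1 ≤ K) (ε : ℝ) (hε : 0 < ε) :
    ∃ τ₀ M₀ : ℝ, 0 < τ₀ ∧ ∀ M : ℝ, M₀ ≤ M → ∀ T : Finset (Fin n → ℤ),
      (∀ c ∈ T, Irreducible (FZ ℚ c) ∧ ∃ (A B : Matrix (Fin n) (Fin n) ℤ) (t : Fin n → ℝ),
        RPair K M c A B t ∧ ∃ i, t i ≤ τ₀) →
      (T.card : ℝ) ≤ ε * M ^ (n * (n + 1) / 2) := by
  classical
  obtain ⟨C, Q, hC, hcell⟩ := cell n hn K hK
  obtain ⟨R, M₀, hM₀1, hcells⟩ := Cusp.cells (by omega : 0 < n) Q hC hε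
  refine ⟨(2 : ℝ) ^ (-(R : ℤ)), M₀, by positivity, fun M hM T hT => ?_⟩
  have hM1 : 1 ≤ M := hM₀1.trans hM
  have hirr : ∀ c ∈ T, Irreducible (FZ ℚ c) := fun c hc => (hT c hc).1
  have hex : ∀ c ∈ T, ∃ (A B : Matrix (Fin n) (Fin n) ℤ) (t : Fin n → ℝ),
      RPair K M c A B t ∧ ∃ i, t i ≤ (2 : ℝ) ^ (-(R : ℤ)) := fun c hc => (hT c hc).2
  choose! A B t hR hi using hex
  set f : (Fin n → ℤ) → Fin n → ℤ := fun c i => Int.log 2 (t c i) with hf
  have hbox : ∀ c ∈ T, ∀ i, (2 : ℝ) ^ (f c i) ≤ t c i ∧ t c i < (2 : ℝ) ^ (f c i + 1) := by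
    intro c hc i
    have hpos := (hR c hc).pos i
    have h1 := Int.zpow_log_le_self (b := 2) (by norm_num) hpos
    have h2 := Int.lt_zpow_succ_log_self (b := 2) (by norm_num) (t c i)
    exact ⟨by exact_mod_cast h1, by exact_mod_cast h2⟩
  have hc1 : ∀ c ∈ T, ∀ S ⊆ T, S.Nonempty → (∀ c' ∈ S, f c' = f c) →
      (∀ i, f c ⟨0, by omega⟩ ≤ f c i) ∧ (∀ i, f c i ≤ Q * (1 + |f c ⟨0, by omega⟩|)) ∧
      (2 : ℝ) ^ (-f c ⟨0, by omega⟩) ≤ C * M ^ Q ∧
      (S.card : ℝ) ≤ C * M ^ (n * (n + 1) / 2) *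
        √(max ((2 : ℝ) ^ (f c ⟨0, by omega⟩)) (1 / M)) := by
    intro c hc S hS hSne hSf
    refine hcell M (f c) hM1 S hSne ?_
    intro c' hc'
    refine ⟨hirr c' (hS hc'), A c', B c', t c', hR c' (hS hc'), fun i => ?_⟩
    have := hbox c' (hS hc') i
    rwa [hSf c' hc'] at this
  have hself : ∀ c ∈ T, _ := fun c hc => hc1 c hc {c} (Finset.singleton_subset_iff.mpr hc)
    (Finset.singleton_nonempty c) (fun c' hc' => by rw [Finset.mem_singleton.mp hc'])
  refine hcells M hM T f (M ^ (n * (n + 1) / 2)) (by positivity) ?_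
    (fun c hc => (hself c hc).1) (fun c hc => (hself c hc).2.1)
    (fun c hc => (hself c hc).2.2.1) ?_
  · intro c hc
    obtain ⟨i, hi1⟩ := hi c hc
    have h1 := (hbox c hc i).1.trans hi1
    have h2 : f c i ≤ -(R : ℤ) := (zpow_le_zpow_iff_right₀ (by norm_num : (1 : ℝ) < 2)).mp h1
    exact ((hself c hc).1 i).trans h2
  · intro c hc S hS hSf
    rcases S.eq_empty_or_nonempty with rfl | hne
    · rw [Finset.card_empty]
      push_cast
      positivity
    · exact (hc1 c hc S hS hne hSf).2.2.2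

end Stoll308.BG
end

section
set_option autoImplicit false

/-!
The inequality of the exponents.
-/

namespace Stoll308.BF

open Finset

namespace ExpoAux

lemma flip (N : ℕ) (f : ℕ → ℝ) :
    ∑ j ∈ range (N + 1), f (N - j) = ∑ j ∈ range (N + 1), f j := by
  have := Finset.sum_range_reflect f (N + 1)
  simpa using this

/-- one term of the sum -/
lemma term (m : ℕ) (Y : ℕ → ℝ) (hY : ∀ i j, i ≤ j → j ≤ 2 * m + 1 → Y j ≤ Y i)
    (hc : ∀ i, i ≤ 2 * m → Y i + Y (2 * m - i) ≤ 0) (i j : ℕ) (hj : j ≤ 2 * m + 1) :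
    2 * (if i ≤ j then max 0 (Y i + Y j) else 0) +
        (if i = 0 ∧ j = m ∧ 1 ≤ m then (Y 0 - 2 * Y m + Y (2 * m)) / 2 else 0) ≤
      (if i ≤ j ∧ i + j < 2 * m then Y i - Y (2 * m - j) else 0) +
        (if i ≤ j ∧ i + j < 2 * m then Y j - Y (2 * m - i) else 0) := by
  by_cases hij : i ≤ j
  swap
  · have z1 : ¬(i ≤ j ∧ i + j < 2 * m) := fun h => hij h.1
    have z2 : ¬(i = 0 ∧ j = m ∧ 1 ≤ m) := fun h => hij (by omega)
    rw [if_neg hij, if_neg z1, if_neg z1, if_neg z2]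
    norm_num
  rw [if_pos hij]
  by_cases hs : i + j < 2 * m
  · have z1 : i ≤ j ∧ i + j < 2 * m := ⟨hij, hs⟩
    rw [if_pos z1, if_pos z1]
    have a := hc i (by omega)
    have b := hc j (by omega)
    have c := hY i (2 * m - j) (by omega) (by omega)
    have d := hY j (2 * m - i) (by omega) (by omega)
    by_cases h0 : i = 0 ∧ j = m ∧ 1 ≤ m
    · rw [if_pos h0]
      obtain ⟨rfl, rfl, hm⟩ := h0
      have e1 : 2 * j - j = j := by omega
      rw [e1] at b c ⊢
      rw [Nat.sub_zero] at a d ⊢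
      rcases max_cases 0 (Y 0 + Y j) with ⟨h1, h2⟩ | ⟨h1, h2⟩
      · rw [h1]
        linarith
      · rw [h1]
        linarith
    · rw [if_neg h0]
      rcases max_cases 0 (Y i + Y j) with ⟨h1, h2⟩ | ⟨h1, h2⟩
      · rw [h1]
        linarith
      · rw [h1]
        linarith
  · have z1 : ¬(i ≤ j ∧ i + j < 2 * m) := fun h => hs h.2
    have z2 : ¬(i = 0 ∧ j = m ∧ 1 ≤ m) := fun h => hs (by omega)
    rw [if_neg z1, if_neg z1, if_neg z2]
    have a : Y i + Y j ≤ 0 := by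
      by_cases hi : i ≤ 2 * m
      · have := hc i hi
        have := hY (2 * m - i) j (by omega) hj
        linarith
      · have a1 := hc 0 (by omega)
        have a2 := hY 0 i (by omega) (by omega)
        have a3 := hY (2 * m - 0) j (by omega) hj
        linarith
    rw [max_eq_left a]
    norm_num

lemma core (m : ℕ) (Y : ℕ → ℝ) (hY : ∀ i j, i ≤ j → j ≤ 2 * m + 1 → Y j ≤ Y i)
    (hc : ∀ i, i ≤ 2 * m → Y i + Y (2 * m - i) ≤ 0) :
    2 * (∑ i ∈ range (2 * m + 2), ∑ j ∈ range (2 * m + 2),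
        if i ≤ j then max 0 (Y i + Y j) else 0) + (Y 0 - Y (2 * m + 1)) / 2 ≤
      ∑ i ∈ range (2 * m + 2), ∑ j ∈ range (2 * m + 2), if j < i then Y j - Y i else 0 := by
  set N := 2 * m with hN
  -- the sum of the terms
  have h1 : 2 * (∑ i ∈ range (N + 2), ∑ j ∈ range (N + 2),
        if i ≤ j then max 0 (Y i + Y j) else 0) +
        (if 1 ≤ m then (Y 0 - 2 * Y m + Y N) / 2 else 0) ≤
      (∑ i ∈ range (N + 2), ∑ j ∈ range (N + 2),
        if i ≤ j ∧ i + j < N then Y i - Y (N - j) else 0) +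
      (∑ i ∈ range (N + 2), ∑ j ∈ range (N + 2),
        if i ≤ j ∧ i + j < N then Y j - Y (N - i) else 0) := by
    have e : (if 1 ≤ m then (Y 0 - 2 * Y m + Y N) / 2 else 0) =
        ∑ i ∈ range (N + 2), ∑ j ∈ range (N + 2),
          if i = 0 ∧ j = m ∧ 1 ≤ m then (Y 0 - 2 * Y m + Y N) / 2 else 0 := by
      rw [Finset.sum_eq_single 0]
      · rw [Finset.sum_eq_single m]
        · simp
        · intro j _ hj
          rw [if_neg (fun h => hj h.2.1)]
        · intro h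
          exact absurd (Finset.mem_range.mpr (by omega)) h
      · intro i _ hi
        refine Finset.sum_eq_zero fun j _ => ?_
        rw [if_neg (fun h => hi h.1)]
      · intro h
        exact absurd (Finset.mem_range.mpr (by omega)) h
    rw [e, Finset.mul_sum, ← Finset.sum_add_distrib, ← Finset.sum_add_distrib]
    refine Finset.sum_le_sum fun i _ => ?_
    rw [Finset.mul_sum, ← Finset.sum_add_distrib, ← Finset.sum_add_distrib]
    refine Finset.sum_le_sum fun j hj => ?_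
    exact term m Y hY hc i j (by
      have := Finset.mem_range.mp hj
      omega)
  -- the first half
  have h2 : (∑ i ∈ range (N + 2), ∑ j ∈ range (N + 2),
        if i ≤ j ∧ i + j < N then Y i - Y (N - j) else 0) =
      ∑ a ∈ range (N + 1), ∑ b ∈ range (N + 1), if a < b ∧ a + b ≤ N then Y a - Y b else 0 := by
    rw [Finset.sum_range_succ _ (N + 1)]
    have z : (∑ j ∈ range (N + 2), if N + 1 ≤ j ∧ N + 1 + j < N then Y (N + 1) - Y (N - j) else 0)
        = 0 := Finset.sum_eq_zero fun j _ => if_neg (by omega)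
    rw [z, add_zero]
    refine Finset.sum_congr rfl fun i _ => ?_
    rw [Finset.sum_range_succ, if_neg (by omega), add_zero,
      ← flip N (fun b => if i < b ∧ i + b ≤ N then Y i - Y b else 0)]
    refine Finset.sum_congr rfl fun j hj => ?_
    have hj' := Finset.mem_range.mp hj
    by_cases h : i ≤ j ∧ i + j < N
    · rw [if_pos h, if_pos (by omega)]
    · rw [if_neg h, if_neg (by omega)]
  have h3 : (∑ i ∈ range (N + 2), ∑ j ∈ range (N + 2),
        if i ≤ j ∧ i + j < N then Y j - Y (N - i) else 0) =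
      ∑ a ∈ range (N + 1), ∑ b ∈ range (N + 1), if a < b ∧ N ≤ a + b then Y a - Y b else 0 := by
    rw [Finset.sum_comm, Finset.sum_range_succ _ (N + 1)]
    have z : (∑ i ∈ range (N + 2), if i ≤ N + 1 ∧ i + (N + 1) < N then Y (N + 1) - Y (N - i) else 0)
        = 0 := Finset.sum_eq_zero fun j _ => if_neg (by omega)
    rw [z, add_zero]
    refine Finset.sum_congr rfl fun j hj => ?_
    have hj' := Finset.mem_range.mp hj
    rw [Finset.sum_range_succ, if_neg (by omega), add_zero,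
      ← flip N (fun b => if j < b ∧ N ≤ j + b then Y j - Y b else 0)]
    refine Finset.sum_congr rfl fun i hi => ?_
    have hi' := Finset.mem_range.mp hi
    by_cases h : i ≤ j ∧ i + j < N
    · rw [if_pos h, if_pos (by omega)]
    · rw [if_neg h, if_neg (by omega)]
  have h4 : (∑ a ∈ range (N + 1), ∑ b ∈ range (N + 1),
        if a < b ∧ a + b ≤ N then Y a - Y b else 0) +
      (∑ a ∈ range (N + 1), ∑ b ∈ range (N + 1), if a < b ∧ N ≤ a + b then Y a - Y b else 0) =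
      (∑ a ∈ range (N + 1), ∑ b ∈ range (N + 1), if a < b then Y a - Y b else 0) +
        ∑ a ∈ range m, (Y a - Y (N - a)) := by
    have e : ∑ a ∈ range m, (Y a - Y (N - a)) =
        ∑ a ∈ range (N + 1), ∑ b ∈ range (N + 1), if a < b ∧ a + b = N then Y a - Y b else 0 := by
      have e1 : range m = (range (N + 1)).filter (· < m) := by
        ext k
        rw [Finset.mem_filter, Finset.mem_range, Finset.mem_range]
        omega
      rw [e1, Finset.sum_filter]
      refine Finset.sum_congr rfl fun a ha => ?_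
      have ha' := Finset.mem_range.mp ha
      rw [Finset.sum_eq_single (N - a)]
      · by_cases h : a < m
        · rw [if_pos h, if_pos (by omega)]
        · rw [if_neg h, if_neg (by omega)]
      · intro b _ hb
        rw [if_neg (by omega)]
      · intro h
        exact absurd (Finset.mem_range.mpr (by omega)) h
    rw [e, ← Finset.sum_add_distrib, ← Finset.sum_add_distrib]
    refine Finset.sum_congr rfl fun a _ => ?_
    rw [← Finset.sum_add_distrib, ← Finset.sum_add_distrib]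
    refine Finset.sum_congr rfl fun b _ => ?_
    by_cases hab : a < b
    · rcases lt_trichotomy (a + b) N with h | h | h
      · rw [if_pos ⟨hab, h.le⟩, if_neg (by omega), if_pos hab, if_neg (by omega)]
      · rw [if_pos ⟨hab, h.le⟩, if_pos ⟨hab, h.ge⟩, if_pos hab, if_pos ⟨hab, h⟩]
      · rw [if_neg (by omega), if_pos ⟨hab, h.le⟩, if_pos hab, if_neg (by omega), zero_add,
          add_zero]
    · rw [if_neg (fun h => hab h.1), if_neg (fun h => hab h.1), if_neg hab,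
        if_neg (fun h => hab h.1)]
  -- the right-hand side
  have h5 : (∑ i ∈ range (N + 2), ∑ j ∈ range (N + 2), if j < i then Y j - Y i else 0) =
      (∑ a ∈ range (N + 1), ∑ b ∈ range (N + 1), if a < b then Y a - Y b else 0) +
        ∑ a ∈ range (N + 1), (Y a - Y (N + 1)) := by
    rw [Finset.sum_comm, Finset.sum_range_succ _ (N + 1)]
    have z : (∑ i ∈ range (N + 2), if N + 1 < i then Y (N + 1) - Y i else 0) = 0 :=
      Finset.sum_eq_zero fun j hj => if_neg (by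
        have := Finset.mem_range.mp hj
        omega)
    rw [z, add_zero, ← Finset.sum_add_distrib]
    refine Finset.sum_congr rfl fun a ha => ?_
    have ha' := Finset.mem_range.mp ha
    rw [Finset.sum_range_succ, if_pos ha']
  have h6 : (∑ a ∈ range m, (Y a - Y (N - a))) + (Y m - Y (N + 1)) ≤
      ∑ a ∈ range (N + 1), (Y a - Y (N + 1)) := by
    have e1 : ∑ a ∈ range (m + 1), (Y a - Y (N + 1)) ≤ ∑ a ∈ range (N + 1), (Y a - Y (N + 1)) := by
      refine Finset.sum_le_sum_of_subset_of_nonneg ?_ ?_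
      · intro k hk
        rw [Finset.mem_range] at hk ⊢
        omega
      · intro k hk _
        have := hY k (N + 1) (by
          have := Finset.mem_range.mp hk
          omega) (by omega)
        linarith
    rw [Finset.sum_range_succ] at e1
    have e2 : ∑ a ∈ range m, (Y a - Y (N - a)) ≤ ∑ a ∈ range m, (Y a - Y (N + 1)) := by
      refine Finset.sum_le_sum fun a _ => ?_
      have := hY (N - a) (N + 1) (by omega) (by omega)
      linarith
    linarith
  rw [h5]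
  rw [h2, h3, h4] at h1
  have h7 : Y (N + 1) ≤ Y N := hY N (N + 1) (by omega) (by omega)
  rcases Nat.eq_zero_or_pos m with hm | hm
  · rw [if_neg (by omega)] at h1
    have h8 : Y 0 = Y m := by rw [hm]
    have h9 := hY 0 (N + 1) (by omega) (by omega)
    rw [← h8] at h6
    linarith
  · rw [if_pos (show 1 ≤ m from hm)] at h1
    linarith

end ExpoAux

theorem expo (n : ℕ) (hn : 2 ≤ n) (he : Even n) (y : Fin n → ℝ) (hy : ∀ i j, i ≤ j → y j ≤ y i)
    (hc : ∀ i j : Fin n, (i : ℕ) + j = n - 2 → y i + y j ≤ 0) :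
    2 * ∑ i, ∑ j ∈ univ.filter (i ≤ ·), max 0 (y i + y j) +
        (y ⟨0, by omega⟩ - y ⟨n - 1, by omega⟩) / 2 ≤
      ∑ i, ∑ j ∈ univ.filter (· < i), (y j - y i) := by
  obtain ⟨m, rfl⟩ : ∃ m, n = 2 * m + 2 := by
    obtain ⟨r, hr⟩ := he
    exact ⟨r - 1, by omega⟩
  set Y : ℕ → ℝ := fun k => if h : k < 2 * m + 2 then y ⟨k, h⟩ else 0 with hYd
  have hYv : ∀ k (h : k < 2 * m + 2), Y k = y ⟨k, h⟩ := fun k h => by
    rw [hYd]
    simp only [h, dif_pos]
  have key := ExpoAux.core m Y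
    (fun i j hij hj => by
      rw [hYv i (by omega), hYv j (by omega)]
      exact hy _ _ hij)
    (fun i hi => by
      rw [hYv i (by omega), hYv (2 * m - i) (by omega)]
      exact hc _ _ (by simp only []; omega))
  rw [hYv 0 (by omega), hYv (2 * m + 1) (by omega)] at key
  have e1 : ∑ i, ∑ j ∈ univ.filter (i ≤ ·), max 0 (y i + y j) =
      ∑ i ∈ range (2 * m + 2), ∑ j ∈ range (2 * m + 2),
        if i ≤ j then max 0 (Y i + Y j) else 0 := by
    rw [← Fin.sum_univ_eq_sum_range (fun i => ∑ j ∈ range (2 * m + 2),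
        if i ≤ j then max 0 (Y i + Y j) else 0)]
    refine Finset.sum_congr rfl fun i _ => ?_
    rw [← Fin.sum_univ_eq_sum_range (fun j => if (i : ℕ) ≤ j then max 0 (Y i + Y j) else 0),
      Finset.sum_filter]
    refine Finset.sum_congr rfl fun j _ => ?_
    rw [hYv i i.2, hYv j j.2]
    by_cases h : i ≤ j
    · rw [if_pos h, if_pos (Fin.le_def.mp h)]
    · rw [if_neg h, if_neg (fun h' => h (Fin.le_def.mpr h'))]
  have e2 : ∑ i, ∑ j ∈ univ.filter (· < i), (y j - y i) =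
      ∑ i ∈ range (2 * m + 2), ∑ j ∈ range (2 * m + 2), if j < i then Y j - Y i else 0 := by
    rw [← Fin.sum_univ_eq_sum_range (fun i => ∑ j ∈ range (2 * m + 2),
        if j < i then Y j - Y i else 0)]
    refine Finset.sum_congr rfl fun i _ => ?_
    rw [← Fin.sum_univ_eq_sum_range (fun j => if j < (i : ℕ) then Y j - Y i else 0),
      Finset.sum_filter]
    refine Finset.sum_congr rfl fun j _ => ?_
    rw [hYv i i.2, hYv j j.2]
    by_cases h : j < i
    · rw [if_pos h, if_pos (Fin.lt_def.mp h)]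
    · rw [if_neg h, if_neg (fun h' => h (Fin.lt_def.mpr h'))]
  rw [e1, e2]
  exact key

end Stoll308.BF
end

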