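import Mathlib
import Pool.Agent.Work.BCM.C02
import Pool.Agent.Work.BCM.C03
import Pool.Agent.Work.BCM.C04
import Pool.Agent.Work.BCM.C29

section
set_option autoImplicit false

/-!
Quadratic twists `t y² = ∏ q_j(x,z)` of a hyperelliptic curve all of whose Weierstrass points are
quadratic, their adelic points and the pairing with the constant quaternion algebras `(q_j, c)`.
-/

namespace Stoll308

open Finset

/-- A family of `r` binary quadratic forms `a_j x² + b_j x z + c_j z²` with integer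
coefficients. -/
structure Forms (r : ℕ) where
  a : Fin r → ℤ
  b : Fin r → ℤ
  c : Fin r → ℤ

namespace Forms

variable {r : ℕ}

/-- The value of the `j`-th form at `(x, z)`. -/
def val (q : Forms r) (j : Fin r) {R : Type*} [CommRing R] (x z : R) : R :=
  (q.a j : R) * x ^ 2 + (q.b j : R) * x * z + (q.c j : R) * z ^ 2

/-- The discriminant of the `j`-th form. -/
def disc (q : Forms r) (j : Fin r) : ℤ := q.b j ^ 2 - 4 * q.a j * q.c j

/-- The resultant of the `j`-th and the `k`-th form. -/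
def res (q : Forms r) (j k : Fin r) : ℤ :=
  (q.a j * q.c k - q.a k * q.c j) ^ 2 -
    (q.a j * q.b k - q.a k * q.b j) * (q.b j * q.c k - q.b k * q.c j)

/-- The forms are irreducible over `ℚ`, pairwise coprime, and three of them have pairwise
different splitting fields. -/
structure Good (q : Forms r) : Prop where
  irr : ∀ j, ¬ IsSquare (q.disc j)
  cop : ∀ j k, j ≠ k → q.res j k ≠ 0
  three : ∃ j₁ j₂ j₃, ¬ IsSquare (q.disc j₁ * q.disc j₂) ∧ ¬ IsSquare (q.disc j₁ * q.disc j₃) ∧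
    ¬ IsSquare (q.disc j₂ * q.disc j₃)

/-- A point with coordinates in the field `F` of the smooth projective curve
`C_t : t y² = ∏ q_j(x,z)` in the weighted projective space `ℙ(1,r,1)` (given by coordinates
`(x,y,z)` with `(x,z) ≠ (0,0)`). -/
structure Point (q : Forms r) (t : ℤ) (F : Type*) [Field F] where
  x : F
  y : F
  z : F
  ne : x ≠ 0 ∨ z ≠ 0
  eq : (t : F) * y ^ 2 = ∏ j, q.val j x z

/-- The value at `P`, up to squares, of the function `q_j(x,z)/z²` of the curve `C_t`: it is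
`q_j(x,z)` if this is not `0` and otherwise `t ∏_{k ≠ j} q_k(x,z)`. -/
noncomputable def Point.eval {q : Forms r} {t : ℤ} {F : Type*} [Field F] (P : q.Point t F) (j : Fin r) : F :=
  open Classical in
  if q.val j P.x P.z ≠ 0 then q.val j P.x P.z else (t : F) * ∏ k ∈ univ.erase j, q.val k P.x P.z

/-- An adelic point of `C_t`: a point over `ℝ` and a point over `ℚ_p` for every prime `p`. -/
structure AdelicPoint (q : Forms r) (t : ℤ) where
  real : q.Point t ℝ
  padic : ∀ (p : ℕ) [Fact p.Prime], q.Point t ℚ_[p]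

end Forms

/-- The quaternion algebra `(u, c)` over the field `F` is split: `u X² + c Y² = Z²` has a
nontrivial solution. -/
def Splits {F : Type*} [Field F] (u c : F) : Prop :=
  ∃ X Y Z : F, (X ≠ 0 ∨ Y ≠ 0 ∨ Z ≠ 0) ∧ u * X ^ 2 + c * Y ^ 2 = Z ^ 2

namespace Forms

variable {r : ℕ} {q : Forms r} {t : ℤ}

/-- `C_t` has points over every completion of `ℚ`. -/
def ELS (q : Forms r) (t : ℤ) : Prop := Nonempty (q.AdelicPoint t)

/-- The product of the bad primes: `2`, the leading coefficients, the discriminants and the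
resultants. -/
def bad (q : Forms r) : ℤ :=
  2 * (∏ j, q.a j) * (∏ j, q.disc j) * ∏ j, ∏ k ∈ univ.erase j, q.res j k

/-- The modulus controlling the bad places. -/
def Q (q : Forms r) : ℕ := 8 * q.bad.natAbs

end Forms

end Stoll308
end

section
set_option autoImplicit false

/-!
Few of the polynomials have a square leading coefficient or a small height.
-/

namespace Stoll308.BF

open Polynomial Finset

namespace Redu0

/-- counting a property which implies membership in a product of finite sets -/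
lemma cnt_le_pi (n : ℕ) (P : (Fin (n + 1) → ℤ) → Prop) (H : ℕ) (S : Fin (n + 1) → Finset ℤ)
    (h : ∀ a : Fin (n + 1) → ℤ, (∀ i, |a i| ≤ H) → P a → ∀ i, a i ∈ S i) :
    cnt n P H ≤ ∏ i, (S i).card := by
  classical
  unfold cnt
  rw [← Fintype.card_piFinset]
  apply Finset.card_le_card
  intro a ha
  rw [Finset.mem_filter, Fintype.mem_piFinset] at ha
  rw [Fintype.mem_piFinset]
  refine h a (fun i => ?_) ha.2
  have := Finset.mem_Icc.1 (ha.1 i)
  exact abs_le.2 this

/-- subadditivity of the counting function -/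
lemma cnt_le_add (n : ℕ) (P Q R : (Fin (n + 1) → ℤ) → Prop) (H : ℕ)
    (h : ∀ a, P a → Q a ∨ R a) : cnt n P H ≤ cnt n Q H + cnt n R H := by
  classical
  unfold cnt
  refine le_trans (Finset.card_le_card ?_) (Finset.card_union_le _ _)
  intro a ha
  have ha' := Finset.mem_filter.1 ha
  rcases h a ha'.2 with h1 | h1
  · exact Finset.mem_union_left _ (Finset.mem_filter.2 ⟨ha'.1, h1⟩)
  · exact Finset.mem_union_right _ (Finset.mem_filter.2 ⟨ha'.1, h1⟩)

end Redu0

theorem height_small (n : ℕ) (ε : ℝ) (hε : 0 < ε) :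
    ∃ η : ℝ, 0 < η ∧ ∃ H₀ : ℕ, ∀ H : ℕ, H₀ ≤ H →
      (cnt n (fun a => ∀ i, |(a i : ℝ)| < η * H) H : ℝ) ≤ ε * H ^ (n + 1) := by
  set η : ℝ := min 1 ε / 3 with hη
  have hη0 : 0 < η := by positivity
  have h3 : 3 * η = min 1 ε := by rw [hη]; ring
  refine ⟨η, hη0, ⌈1 / η⌉₊, fun H hH => ?_⟩
  have hH1 : 1 ≤ η * H := by
    have h1 := (Nat.le_ceil (1 / η)).trans (Nat.cast_le.2 hH)
    rw [div_le_iff₀ hη0] at h1
    linarith
  have h0 : (0 : ℤ) ≤ ⌊η * H⌋ := Int.floor_nonneg.2 (by linarith)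
  have hc := Redu0.cnt_le_pi n (fun a => ∀ i, |(a i : ℝ)| < η * H) H
    (fun _ => Icc (-⌊η * H⌋) ⌊η * H⌋) (by
      intro a _ ha i
      rw [Finset.mem_Icc, ← abs_le]
      apply Int.le_floor.2
      have := (ha i).le
      exact_mod_cast this)
  rw [Finset.prod_const, Finset.card_univ, Fintype.card_fin, Int.card_Icc] at hc
  have hcard : (((⌊η * H⌋ + 1 - -⌊η * H⌋).toNat : ℕ) : ℝ) ≤ 3 * η * H := by
    have h1 : (((⌊η * H⌋ + 1 - -⌊η * H⌋).toNat : ℕ) : ℤ) = 2 * ⌊η * H⌋ + 1 := by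
      rw [Int.toNat_of_nonneg (by linarith)]
      ring
    have h2 : (((⌊η * H⌋ + 1 - -⌊η * H⌋).toNat : ℕ) : ℝ) = 2 * (⌊η * H⌋ : ℝ) + 1 := by
      exact_mod_cast h1
    have h3 := Int.floor_le (η * H)
    rw [h2]
    linarith
  have hmin : min 1 ε ≤ 1 := min_le_left _ _
  calc (cnt n (fun a => ∀ i, |(a i : ℝ)| < η * H) H : ℝ)
      ≤ ((((⌊η * H⌋ + 1 - -⌊η * H⌋).toNat : ℕ) : ℝ)) ^ (n + 1) := by exact_mod_cast hc
    _ ≤ (3 * η * H) ^ (n + 1) := pow_le_pow_left₀ (Nat.cast_nonneg _) hcard _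
    _ = (min 1 ε) ^ (n + 1) * H ^ (n + 1) := by rw [h3, mul_pow]
    _ ≤ min 1 ε * H ^ (n + 1) := by
      refine mul_le_mul_of_nonneg_right ?_ (by positivity)
      rw [pow_succ]
      exact mul_le_of_le_one_left (by positivity) (pow_le_one₀ (by positivity) hmin)
    _ ≤ ε * H ^ (n + 1) := mul_le_mul_of_nonneg_right (min_le_right _ _) (by positivity)

/-- few leading coefficients are squares -/
theorem lead_small (n : ℕ) (ε : ℝ) (hε : 0 < ε) :
    ∃ H₀ : ℕ, ∀ H : ℕ, H₀ ≤ H →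
      (cnt n (fun a => a 0 = 0 ∨ IsSquare (a 0)) H : ℝ) ≤ ε * H ^ (n + 1) := by
  set c : ℝ := 2 * 3 ^ n / ε with hc
  refine ⟨max 1 ⌈c ^ 2⌉₊, fun H hH => ?_⟩
  have hH1 : 1 ≤ H := (le_max_left _ _).trans hH
  have hH1' : (1 : ℝ) ≤ H := by exact_mod_cast hH1
  have hcH : c ≤ √(H : ℝ) := by
    apply Real.le_sqrt_of_sq_le
    exact (Nat.le_ceil _).trans (by exact_mod_cast (le_max_right _ _).trans hH)
  have hs1 : 1 ≤ √(H : ℝ) := Real.one_le_sqrt.2 hH1'
  set S : Finset ℤ := (range (Nat.sqrt H + 1)).image fun r : ℕ => (r : ℤ) ^ 2 with hS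
  have hcnt := Redu0.cnt_le_pi n (fun a => a 0 = 0 ∨ IsSquare (a 0)) H
    (Fin.cons S fun _ => Icc (-(H : ℤ)) H) (by
      intro a hb ha i
      refine Fin.cases ?_ (fun j => ?_) i
      · rw [Fin.cons_zero, hS, Finset.mem_image]
        have hsq : IsSquare (a 0) := by
          rcases ha with h | h
          · rw [h]; exact ⟨0, by simp⟩
          · exact h
        obtain ⟨r, hr⟩ := hsq
        refine ⟨r.natAbs, ?_, ?_⟩
        · rw [Finset.mem_range, Nat.lt_succ_iff, Nat.le_sqrt]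
          have h1 := (le_abs_self _).trans (hb 0)
          rw [hr, ← Int.natAbs_mul_self] at h1
          exact_mod_cast h1
        · rw [hr, sq]
          exact Int.natAbs_mul_self
      · rw [Fin.cons_succ, Finset.mem_Icc]
        exact abs_le.1 (hb _))
  rw [Fin.prod_univ_succ, Fin.cons_zero] at hcnt
  simp only [Fin.cons_succ] at hcnt
  rw [Finset.prod_const, Finset.card_univ, Fintype.card_fin, Int.card_Icc] at hcnt
  have e1 : ((H : ℤ) + 1 - -(H : ℤ)).toNat = 2 * H + 1 := by omega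
  rw [e1] at hcnt
  have e2 : S.card ≤ Nat.sqrt H + 1 := by
    rw [hS]
    exact Finset.card_image_le.trans (by rw [Finset.card_range])
  have e3 : (Nat.sqrt H : ℝ) ≤ √(H : ℝ) := Real.nat_sqrt_le_real_sqrt
  have e4 : (S.card : ℝ) ≤ 2 * √(H : ℝ) := by
    have : (S.card : ℝ) ≤ (Nat.sqrt H : ℝ) + 1 := by exact_mod_cast e2
    linarith
  have e5 : ((2 * H + 1 : ℕ) : ℝ) ≤ 3 * H := by
    push_cast
    linarith
  calc (cnt n (fun a => a 0 = 0 ∨ IsSquare (a 0)) H : ℝ)
      ≤ (S.card : ℝ) * ((2 * H + 1 : ℕ) : ℝ) ^ n := by exact_mod_cast hcnt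
    _ ≤ (2 * √(H : ℝ)) * (3 * H) ^ n :=
      mul_le_mul e4 (pow_le_pow_left₀ (Nat.cast_nonneg _) e5 _) (by positivity) (by positivity)
    _ = (2 * 3 ^ n) * √(H : ℝ) * H ^ n := by rw [mul_pow]; ring
    _ = ε * c * √(H : ℝ) * H ^ n := by
      rw [hc]
      field_simp
    _ ≤ ε * √(H : ℝ) * √(H : ℝ) * H ^ n := by gcongr
    _ = ε * (√(H : ℝ) * √(H : ℝ)) * H ^ n := by ring
    _ = ε * H ^ (n + 1) := by
      rw [Real.mul_self_sqrt (by positivity), pow_succ]
      ring

end Stoll308.BF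
end

section
set_option autoImplicit false

/-!
Few of the polynomials are reducible; the size of the roots.
-/

namespace Stoll308.BG

open Polynomial Finset

namespace Redu

/-- counting a property which implies membership in a finite set -/
lemma cnt_le (n : ℕ) (P : (Fin n → ℤ) → Prop) (X : ℕ) (Q : Finset (Fin n → ℤ))
    (h : ∀ b : Fin n → ℤ,
      (∀ i : Fin n, -(X : ℤ) ^ ((i : ℕ) + 1) ≤ b i ∧ b i ≤ (X : ℤ) ^ ((i : ℕ) + 1)) →
      P b → b ∈ Q) :
    cnt n P X ≤ Q.card := by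
  classical
  unfold cnt
  apply Finset.card_le_card
  intro a ha
  rw [Finset.mem_filter, Fintype.mem_piFinset] at ha
  exact h a (fun i => Finset.mem_Icc.1 (ha.1 i)) ha.2

lemma map_FZ {R : Type*} [CommRing R] {n : ℕ} (c : Fin n → ℤ) :
    (FZ ℤ c).map (Int.castRingHom R) = FZ R c := by
  simp [FZ, fpol, Polynomial.map_sum]

/-- Irreducibility modulo a prime. -/
lemma irr_of_mod {n : ℕ} (c : Fin n → ℤ) (l : ℕ) [Fact l.Prime]
    (h : Irreducible (FZ (ZMod l) c)) : Irreducible (FZ ℚ c) := by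
  have hmon : (FZ ℤ c).Monic := (IrrDens.fpol_natDegree _).2
  have h1 : Irreducible (FZ ℤ c) := by
    refine hmon.irreducible_of_irreducible_map (Int.castRingHom (ZMod l)) _ ?_
    rw [map_FZ]
    exact h
  have h2 := (IsPrimitive.Int.irreducible_iff_irreducible_map_cast hmon.isPrimitive).1 h1
  rwa [map_FZ] at h2

lemma prod_pow_box (n : ℕ) (X : ℝ) :
    ∏ i : Fin n, X ^ ((i : ℕ) + 1) = X ^ (n * (n + 1) / 2) := by
  rw [prod_pow_eq_pow_sum]
  congr 1
  rw [Fin.sum_univ_eq_sum_range (fun i => i + 1) n]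
  have h := Finset.sum_range_id_mul_two (n + 1)
  rw [Finset.sum_range_succ', add_zero, Nat.add_sub_cancel] at h
  rw [Nat.mul_comm n (n + 1)]
  omega

end Redu

open Redu in
theorem reducible_small (n : ℕ) (hn : 2 ≤ n) (α : ℤ) (hα : α ≠ 0) (ε : ℝ) (hε : 0 < ε) :
    ∃ X₀ : ℕ, ∀ X : ℕ, X₀ ≤ X →
      (cnt n (fun b => ¬ Irreducible (FZ ℚ fun i => α ^ (i : ℕ) * b i)) X : ℝ) ≤
        ε * X ^ (n * (n + 1) / 2) := by
  classical
  obtain ⟨r, hr⟩ : ∃ r : ℝ, r = 1 - 1 / (2 * n) := ⟨_, rfl⟩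
  have hn0 : (0 : ℝ) < n := by exact_mod_cast (by omega : 0 < n)
  have hr1 : r < 1 := by
    rw [hr]
    have : 0 < 1 / (2 * (n : ℝ)) := by positivity
    linarith
  have hr0 : 0 ≤ r := by
    rw [hr]
    have h1 : (1 : ℝ) ≤ 2 * n := by
      have : (1 : ℝ) ≤ n := by exact_mod_cast (by omega : 1 ≤ n)
      linarith
    have : 1 / (2 * (n : ℝ)) ≤ 1 := (div_le_one (by positivity)).2 h1
    linarith
  obtain ⟨k, hk⟩ : ∃ k : ℕ, r ^ k < ε / 4 ^ n :=
    exists_pow_lt_of_lt_one (by positivity) hr1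
  -- a set of `k` primes
  have hinf : {p : ℕ | p.Prime ∧ n ^ 2 ≤ p ∧ α.natAbs < p}.Infinite := by
    have h1 := Nat.infinite_setOfPred_prime.sdiff (Set.finite_lt_nat (max (n ^ 2) (α.natAbs + 1)))
    refine h1.mono ?_
    intro p hp
    have h2 : max (n ^ 2) (α.natAbs + 1) ≤ p := not_lt.1 hp.2
    exact ⟨hp.1, (le_max_left _ _).trans h2, (le_max_right _ _).trans h2⟩
  obtain ⟨S, hSsub, hScard⟩ := hinf.exists_subset_card_eq k
  have hSp : ∀ l ∈ S, l.Prime ∧ n ^ 2 ≤ l ∧ α.natAbs < l := fun l hl => hSsub hl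
  have hαl : ∀ l ∈ S, ((α : ℤ) : ZMod l) ≠ 0 := by
    intro l hl h
    rw [ZMod.intCast_zmod_eq_zero_iff_dvd] at h
    have h1 := Int.natAbs_dvd_natAbs.2 h
    rw [Int.natAbs_natCast] at h1
    have h2 := Nat.le_of_dvd (Int.natAbs_pos.2 hα) h1
    have h3 := (hSp l hl).2.2
    omega
  obtain ⟨A, hA⟩ : ∃ A : ℕ → (Fin n → ℤ) → Prop,
      ∀ l b, A l b ↔ Irreducible (FZ (ZMod l) (fun i => α ^ (i : ℕ) * b i)) :=
    ⟨fun l b => Irreducible (FZ (ZMod l) (fun i => α ^ (i : ℕ) * b i)), fun _ _ => Iff.rfl⟩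
  obtain ⟨M, hM⟩ : ∃ M : ℕ, M = ∏ l ∈ S, l := ⟨_, rfl⟩
  refine ⟨M + 1, fun X hX => ?_⟩
  have hbox := BE.sieve_box (n := n) S (fun l => l) (fun l hl => (hSp l hl).1.pos)
    (fun l hl l' hl' hne => (Nat.coprime_primes (hSp l hl).1 (hSp l' hl').1).2 hne) A
    (by
      intro l hl t t' htt
      have h1 : ∀ i, ((t i : ℤ) : ZMod l) = ((t' i : ℤ) : ZMod l) := by
        intro i
        rw [ZMod.intCast_eq_intCast_iff_dvd_sub]
        have := htt i
        rwa [← dvd_neg, neg_sub] at this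
      rw [hA, hA]
      have h2 : FZ (ZMod l) (fun i => α ^ (i : ℕ) * t i) =
          FZ (ZMod l) (fun i => α ^ (i : ℕ) * t' i) := by
        unfold FZ
        congr 1
        funext i
        push_cast
        rw [h1 i]
      rw [h2])
    (fun _ => 1 / (2 * n)) (by
      intro l _
      rw [← sub_nonneg, ← hr]
      exact hr0) (by
      intro l hl
      have : Fact l.Prime := ⟨(hSp l hl).1⟩
      have h1 := IrrDens.irr_count l n hn (hSp l hl).2.1
      have h2 : (univ.filter fun b : Fin n → ZMod l => Irreducible (fpol 1 b)).card ≤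
          (univ.filter fun t : Fin n → Fin l => A l (fun i => ((t i : ℕ) : ℤ))).card := by
        refine Finset.card_le_card_of_injOn
          (fun b i => ⟨(((α : ℤ) : ZMod l)⁻¹ ^ (i : ℕ) * b i).val, ZMod.val_lt _⟩) ?_ ?_
        · intro b hb
          rw [mem_coe, mem_filter] at hb
          rw [mem_coe, mem_filter]
          refine ⟨mem_univ _, ?_⟩
          rw [hA]
          have e : (fun i : Fin n => ((α ^ (i : ℕ) *
              (((((α : ℤ) : ZMod l)⁻¹ ^ (i : ℕ) * b i).val : ℕ) : ℤ) : ℤ) : ZMod l)) = b := by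
            funext i
            push_cast
            rw [ZMod.natCast_zmod_val, ← mul_assoc, ← mul_pow, mul_inv_cancel₀ (hαl l hl),
              one_pow, one_mul]
          show Irreducible (fpol 1 fun i : Fin n => ((α ^ (i : ℕ) *
              (((((α : ℤ) : ZMod l)⁻¹ ^ (i : ℕ) * b i).val : ℕ) : ℤ) : ℤ) : ZMod l))
          rw [e]
          exact hb.2
        · intro b _ b' _ he
          funext i
          have h3 := congrArg Fin.val (congrFun he i)
          have h4 := ZMod.val_injective l h3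
          exact mul_left_cancel₀ (pow_ne_zero _ (inv_ne_zero (hαl l hl))) h4
      have h3 : (l : ℝ) ^ n ≤ 2 * n * ((univ.filter fun t : Fin n → Fin l =>
            A l (fun i => ((t i : ℕ) : ℤ))).card : ℝ) := by
        exact_mod_cast h1.trans (Nat.mul_le_mul_left _ h2)
      rw [div_mul_eq_mul_div, one_mul, div_le_iff₀ (by positivity)]
      linarith)
    (fun i => -(X : ℤ) ^ ((i : ℕ) + 1)) (fun i => 2 * X ^ ((i : ℕ) + 1) + 1)
  have hsub : cnt n (fun b => ¬ Irreducible (FZ ℚ fun i => α ^ (i : ℕ) * b i)) X ≤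
      ((Fintype.piFinset fun i : Fin n => Ico (-(X : ℤ) ^ ((i : ℕ) + 1))
        (-(X : ℤ) ^ ((i : ℕ) + 1) + (2 * X ^ ((i : ℕ) + 1) + 1 : ℕ))).filter
        fun t => ∀ l ∈ S, ¬ A l t).card := by
    refine cnt_le n _ X _ fun b hb hP => ?_
    rw [mem_filter, Fintype.mem_piFinset]
    refine ⟨fun i => ?_, fun l hl hAl => ?_⟩
    · have := hb i
      rw [mem_Ico]
      push_cast
      constructor
      · exact this.1
      · linarith [this.2]
    · have : Fact l.Prime := ⟨(hSp l hl).1⟩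
      rw [hA] at hAl
      exact hP (irr_of_mod _ l hAl)
  have hMR : ∏ l ∈ S, ((l : ℕ) : ℝ) = (M : ℝ) := by rw [hM]; push_cast; rfl
  simp only [hMR, Finset.prod_const, hScard, ← hr] at hbox
  have hX1 : (M : ℝ) + 1 ≤ X := by exact_mod_cast hX
  have hM0 : (0 : ℝ) ≤ M := Nat.cast_nonneg _
  have hXX : (1 : ℝ) ≤ X := by linarith
  calc (cnt n (fun b => ¬ Irreducible (FZ ℚ fun i => α ^ (i : ℕ) * b i)) X : ℝ)
      ≤ (∏ i : Fin n, (((2 * X ^ ((i : ℕ) + 1) + 1 : ℕ) : ℝ) + M)) * r ^ k :=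
        le_trans (by exact_mod_cast hsub) hbox
    _ ≤ (4 ^ n * (X : ℝ) ^ (n * (n + 1) / 2)) * (ε / 4 ^ n) := by
        refine mul_le_mul ?_ hk.le (pow_nonneg hr0 _) (by positivity)
        rw [← prod_pow_box]
        calc ∏ i : Fin n, (((2 * X ^ ((i : ℕ) + 1) + 1 : ℕ) : ℝ) + M)
            ≤ ∏ i : Fin n, (4 * (X : ℝ) ^ ((i : ℕ) + 1)) := by
              refine prod_le_prod (fun i _ => by positivity) fun i _ => ?_
              have h1 : (X : ℝ) ≤ (X : ℝ) ^ ((i : ℕ) + 1) := le_self_pow₀ hXX (by omega)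
              push_cast
              linarith
          _ = _ := by rw [prod_mul_distrib, prod_const, card_univ, Fintype.card_fin]
    _ = ε * X ^ (n * (n + 1) / 2) := by
        field_simp

end Stoll308.BG
end

section
set_option autoImplicit false

/-!
Few of the polynomials are reducible, have a square leading coefficient or a small height.
(`height_small` is in `BF.Redu0`, `irr_small` in `BF.ReduIrr`.)
-/

namespace Stoll308.BF

open Polynomial Finset BG

theorem reducible_small (n : ℕ) (hn : 2 ≤ n) (ε : ℝ) (hε : 0 < ε) :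
    ∃ H₀ : ℕ, ∀ H : ℕ, H₀ ≤ H →
      (cnt n (fun a => a 0 = 0 ∨ IsSquare (a 0) ∨ ¬ Irreducible (GZ ℚ a)) H : ℝ) ≤
        ε * H ^ (n + 1) := by
  obtain ⟨H₁, h₁⟩ := irr_small n hn (ε / 2) (half_pos hε)
  obtain ⟨H₂, h₂⟩ := lead_small n (ε / 2) (half_pos hε)
  refine ⟨max H₁ H₂, fun H hH => ?_⟩
  have h1 := h₁ H ((le_max_left _ _).trans hH)
  have h2 := h₂ H ((le_max_right _ _).trans hH)
  have h3 := Redu0.cnt_le_add n (fun a => a 0 = 0 ∨ IsSquare (a 0) ∨ ¬ Irreducible (GZ ℚ a))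
    (fun a => a 0 ≠ 0 ∧ ¬ Irreducible (GZ ℚ a)) (fun a => a 0 = 0 ∨ IsSquare (a 0)) H (by
      intro a ha
      by_cases h0 : a 0 = 0
      · exact Or.inr (Or.inl h0)
      · rcases ha with h | h | h
        · exact Or.inr (Or.inl h)
        · exact Or.inr (Or.inr h)
        · exact Or.inl ⟨h0, h⟩)
  have h4 : (cnt n (fun a => a 0 = 0 ∨ IsSquare (a 0) ∨ ¬ Irreducible (GZ ℚ a)) H : ℝ) ≤
      (cnt n (fun a => a 0 ≠ 0 ∧ ¬ Irreducible (GZ ℚ a)) H : ℝ) +
        (cnt n (fun a => a 0 = 0 ∨ IsSquare (a 0)) H : ℝ) := by exact_mod_cast h3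
  linarith

end Stoll308.BF
end

section
set_option autoImplicit false

/-!
Few polynomials come from reduced pairs with lengths of different size.
-/

namespace Stoll308.BF

open Polynomial Finset Matrix BG

namespace Cusp

/-- Unimodular changes of the basis. -/
lemma char_congr {n : ℕ} {a : Fin (n + 1) → ℤ} {A B W : Matrix (Fin n) (Fin n) ℤ} (hW : W.det = 1)
    (h : HasChar a A B) : HasChar a (W * A * Wᵀ) (W * B * Wᵀ) := by
  unfold HasChar at h ⊢
  have e : (X : ℤ[X]) • (W * A * Wᵀ).map C - (W * B * Wᵀ).map C =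
      W.map C * ((X : ℤ[X]) • A.map C - B.map C) * (W.map C)ᵀ := by
    rw [Matrix.map_mul, Matrix.map_mul, Matrix.map_mul, Matrix.map_mul, Matrix.mul_sub,
      Matrix.sub_mul, Matrix.mul_smul, Matrix.smul_mul, transpose_map]
  have hWC : (W.map (C : ℤ → ℤ[X])).det = 1 := by
    have := RingHom.map_det (C : ℤ →+* ℤ[X]) W
    rw [hW, map_one] at this
    exact this.symm
  rw [e, det_mul, det_mul, det_transpose, hWC, one_mul, mul_one, h]

lemma one_le_abs_cast {z : ℤ} (h : z ≠ 0) : (1 : ℝ) ≤ |(z : ℝ)| := by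
  have := Int.one_le_abs h
  exact_mod_cast this

/-- The sum over the entries of a symmetric matrix. -/
lemma ix_lin {n : ℕ} (y : Fin n → ℝ) : ∑ p : Ix n, (y p.1.1 + y p.1.2) = (n + 1) * ∑ i, y i := by
  rw [BG.Expo.ix_sum (fun i j => y i + y j)]
  have h1 : (∑ i, ∑ j, if i ≤ j then y i + y j else 0) =
      ∑ i, ∑ j, if j ≤ i then y i + y j else 0 := by
    rw [Finset.sum_comm]
    refine Finset.sum_congr rfl fun i _ => Finset.sum_congr rfl fun j _ => ?_
    split_ifs
    · ring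
    · rfl
  have h2 : (∑ i, ∑ j, if i ≤ j then y i + y j else 0) +
      (∑ i, ∑ j, if j ≤ i then y i + y j else 0) = 2 * ((n + 1) * ∑ i, y i) := by
    have e : ∀ i j : Fin n, ((if i ≤ j then y i + y j else 0) + if j ≤ i then y i + y j else 0) =
        y i + y j + if i = j then 2 * y i else 0 := by
      intro i j
      rcases lt_trichotomy i j with h | h | h
      · rw [if_pos h.le, if_neg (not_le.mpr h), if_neg h.ne]
      · subst h
        rw [if_pos le_rfl, if_pos rfl]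
        ring
      · rw [if_neg (not_le.mpr h), if_pos h.le, if_neg h.ne']
        ring
    rw [← Finset.sum_add_distrib]
    have e2 : ∀ i : Fin n, (∑ j, (if i ≤ j then y i + y j else 0)) +
        (∑ j, if j ≤ i then y i + y j else 0) = n * y i + ∑ j, y j + 2 * y i := by
      intro i
      rw [← Finset.sum_add_distrib, Finset.sum_congr rfl fun j _ => e i j, Finset.sum_add_distrib,
        Finset.sum_add_distrib, Finset.sum_ite_eq, if_pos (Finset.mem_univ i), Finset.sum_const,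
        Finset.card_univ, Fintype.card_fin, nsmul_eq_mul]
    rw [Finset.sum_congr rfl fun i _ => e2 i, Finset.sum_add_distrib, Finset.sum_add_distrib,
      ← Finset.mul_sum, ← Finset.mul_sum, Finset.sum_const, Finset.card_univ, Fintype.card_fin,
      nsmul_eq_mul]
    ring
  linarith

/-- The sum over the cells. -/
lemma cells {n : ℕ} (h0 : 0 < n) {C : ℝ} (c₁ : ℕ) (hC : 0 < C) {ε : ℝ} (hε : 0 < ε) :
    ∃ R : ℕ, ∀ {α : Type} (T : Finset α) (f : α → Fin n → ℤ) (V : ℝ) (z l : Fin n) (a : ℤ), 0 ≤ V →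
      (∀ c ∈ T, ∀ i, f c z ≤ f c i) → (∀ c ∈ T, ∀ i, f c i ≤ f c l) →
      (∀ c ∈ T, (R : ℤ) ≤ f c l - f c z) →
      (∀ c ∈ T, a ≤ ∑ i, f c i ∧ ∑ i, f c i ≤ a + c₁) →
      (∀ c ∈ T, ∀ S ⊆ T, (∀ c' ∈ S, f c' = f c) →
        (S.card : ℝ) ≤ C * V * √((2 : ℝ) ^ (f c z - f c l))) →
      (T.card : ℝ) ≤ ε * V := by
  classical
  obtain ⟨R, hR⟩ := BG.Cusp.part1 0 n (δ := ε / (C * (c₁ + 1))) (by positivity)
  refine ⟨R, ?_⟩
  intro α T f V z l a hV hmin hmax hgap hsum hcell
  -- the index `r` of a cell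
  set ρ : (Fin n → ℤ) → ℕ := fun τ => (τ l - τ z).toNat with hρ
  set W : ℕ → ℝ := fun r => C * V * (√2)⁻¹ ^ r with hW
  have hW0 : ∀ r, 0 ≤ W r := fun r => by rw [hW]; positivity
  have hρc : ∀ c ∈ T, (ρ (f c) : ℤ) = f c l - f c z := by
    intro c hc
    rw [hρ]
    simp only
    rw [Int.toNat_of_nonneg]
    have := hmax c hc z
    linarith
  set b : ℕ := (T.image f).sup ρ + 1 with hb
  have hmaps : ∀ τ ∈ T.image f, ρ τ ∈ Ico R b := by
    intro τ hτ
    have h1 : ρ τ ≤ (T.image f).sup ρ := Finset.le_sup hτ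
    rw [Finset.mem_image] at hτ
    obtain ⟨c, hc, rfl⟩ := hτ
    rw [Finset.mem_Ico]
    constructor
    · have h1 := hρc c hc
      have h2 := hgap c hc
      have : (R : ℤ) ≤ ρ (f c) := by linarith
      exact_mod_cast this
    · omega
  -- the bound of one cell
  have hone : ∀ τ ∈ T.image f, ((T.filter fun c => f c = τ).card : ℝ) ≤ W (ρ τ) := by
    intro τ hτ
    rw [Finset.mem_image] at hτ
    obtain ⟨c, hc, rfl⟩ := hτ
    refine (hcell c hc _ (Finset.filter_subset _ _)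
      (fun c' hc' => (Finset.mem_filter.mp hc').2)).trans ?_
    rw [hW]
    refine mul_le_mul_of_nonneg_left (le_of_eq ?_) (by positivity)
    have h1 : (2 : ℝ) ^ (f c z - f c l) = (2⁻¹ : ℝ) ^ (ρ (f c)) := by
      have h2 : f c z - f c l = -(ρ (f c) : ℤ) := by rw [hρc c hc]; ring
      rw [h2, _root_.zpow_neg, zpow_natCast, inv_pow]
    rw [h1, BG.Cusp.sqrt_pow_nat (by norm_num), Real.sqrt_inv]
  -- the number of cells
  have hcount : ∀ r, (((T.image f).filter fun τ => ρ τ = r).card : ℝ) ≤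
      ((((0 : ℕ) : ℝ) + 1) * (r + 1)) ^ n * (c₁ + 1) := by
    intro r
    have h1 : ((T.image f).filter (fun τ => ρ τ = r)).card ≤
        ((Fintype.piFinset fun _ : Fin n => Finset.Icc (0 : ℤ) r) ×ˢ
          Finset.Icc a (a + c₁)).card := by
      refine Finset.card_le_card_of_injOn (fun τ => (fun i => τ i - τ z, ∑ i, τ i)) ?_ ?_
      · intro τ hτ
        rw [Finset.mem_coe, Finset.mem_filter, Finset.mem_image] at hτ
        obtain ⟨⟨c, hc, rfl⟩, hr⟩ := hτ
        have h2 := hρc c hc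
        rw [hr] at h2
        simp only [Finset.coe_product, Set.mem_prod, Finset.mem_coe, Fintype.mem_piFinset,
          Finset.mem_Icc]
        refine ⟨fun i => ⟨?_, ?_⟩, hsum c hc⟩
        · have := hmin c hc i
          linarith
        · have := hmax c hc i
          linarith
      · intro τ _ τ' _ h
        simp only [Prod.mk.injEq] at h
        obtain ⟨hd, hs⟩ := h
        have h3 : ∀ i, τ i - τ z = τ' i - τ' z := fun i => congrFun hd i
        have h4 : (∑ i, (τ i - τ z)) = ∑ i, (τ' i - τ' z) :=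
          Finset.sum_congr rfl fun i _ => h3 i
        rw [Finset.sum_sub_distrib, Finset.sum_sub_distrib, hs, Finset.sum_const, Finset.sum_const,
          Finset.card_univ, Fintype.card_fin, nsmul_eq_mul, nsmul_eq_mul] at h4
        have h5 : (n : ℤ) * (τ z - τ' z) = 0 := by linarith
        have h6 : τ z = τ' z := by
          rcases mul_eq_zero.mp h5 with h | h
          · exact absurd h (by exact_mod_cast h0.ne')
          · linarith
        funext i
        have := h3 i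
        linarith
    rw [Finset.card_product, Fintype.card_piFinset] at h1
    simp only [Int.card_Icc, Finset.prod_const, Finset.card_univ, Fintype.card_fin] at h1
    have h3 : ((r : ℤ) + 1 - 0).toNat = r + 1 := by
      have : ((r : ℤ) + 1 - 0) = ((r + 1 : ℕ) : ℤ) := by
        push_cast
        ring
      rw [this, Int.toNat_natCast]
    have h4 : (a + (c₁ : ℤ) + 1 - a).toNat = c₁ + 1 := by
      have : (a + (c₁ : ℤ) + 1 - a) = ((c₁ + 1 : ℕ) : ℤ) := by
        push_cast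
        ring
      rw [this, Int.toNat_natCast]
    rw [h3, h4] at h1
    calc (((T.image f).filter fun τ => ρ τ = r).card : ℝ) ≤ ((r + 1) ^ n * (c₁ + 1) : ℕ) := by
          exact_mod_cast h1
      _ = ((((0 : ℕ) : ℝ) + 1) * (r + 1)) ^ n * (c₁ + 1) := by push_cast; ring
  -- summation
  have hTsum : (T.card : ℝ) = ∑ τ ∈ T.image f, ((T.filter fun c => f c = τ).card : ℝ) := by
    rw [Finset.card_eq_sum_card_image f T]
    push_cast
    rfl
  calc (T.card : ℝ) = ∑ τ ∈ T.image f, ((T.filter fun c => f c = τ).card : ℝ) := hTsum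
    _ ≤ ∑ τ ∈ T.image f, W (ρ τ) := Finset.sum_le_sum hone
    _ = ∑ r ∈ Ico R b, ∑ τ ∈ (T.image f).filter (fun τ => ρ τ = r), W (ρ τ) :=
        (Finset.sum_fiberwise_of_maps_to hmaps _).symm
    _ = ∑ r ∈ Ico R b, (((T.image f).filter fun τ => ρ τ = r).card : ℝ) * W r := by
        refine Finset.sum_congr rfl fun r _ => ?_
        rw [Finset.sum_congr rfl fun τ hτ => by rw [(Finset.mem_filter.mp hτ).2],
          Finset.sum_const, nsmul_eq_mul]
    _ ≤ ∑ r ∈ Ico R b, (((((0 : ℕ) : ℝ) + 1) * (r + 1)) ^ n * (c₁ + 1)) * W r :=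
        Finset.sum_le_sum fun r _ => mul_le_mul_of_nonneg_right (hcount r) (hW0 r)
    _ = C * V * (c₁ + 1) *
          (∑ r ∈ Ico R b, ((((0 : ℕ) : ℝ) + 1) * (r + 1)) ^ n * (√2)⁻¹ ^ r) := by
        rw [Finset.mul_sum]
        refine Finset.sum_congr rfl fun r _ => ?_
        rw [hW]
        ring
    _ ≤ C * V * (c₁ + 1) * (ε / (C * (c₁ + 1))) :=
        mul_le_mul_of_nonneg_left (hR b) (by positivity)
    _ = ε * V := by field_simp

/-- The number of the polynomials of a cell. -/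
lemma count {n : ℕ} (hn : 1 ≤ n) {K H : ℝ} {s : Fin n → ℝ}
    (hs0 : ∀ i, 0 < s i) (T : Finset (Fin (n + 1) → ℤ))
    (hT : ∀ a ∈ T, a 0 ≠ 0 ∧ Irreducible (GZ ℚ a) ∧
      ∃ (A B : Matrix (Fin n) (Fin n) ℤ) (t : Fin n → ℝ), RPair K H a A B t ∧ ∀ i, t i ≤ s i) :
    (T.card : ℝ) * ∏ i, ∏ j ∈ univ.filter (· < i), (s i / s j) ≤
      (3 * (n : ℝ) ^ 2) ^ (2 * Fintype.card (Ix n)) *
      (∏ p : Ix n, max 1 (s p.1.1 * s p.1.2)) ^ 2 := by
  classical
  have hT' : ∀ a : Fin (n + 1) → ℤ, ∃ p : Matrix (Fin n) (Fin n) ℤ × Matrix (Fin n) (Fin n) ℤ,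
      a ∈ T → (a 0 ≠ 0 ∧ Irreducible (GZ ℚ a)) ∧ HasChar a p.1 p.2 ∧ p.1.IsSymm ∧ p.2.IsSymm ∧
        (∀ i j, |(p.1 i j : ℝ)| ≤ 1 * (s i * s j)) ∧
        ∀ i j, |(p.2 i j : ℝ)| ≤ 1 * (s i * s j) := by
    intro a
    by_cases ha : a ∈ T
    · obtain ⟨h0, hF, A, B, t, h, ht⟩ := hT a ha
      refine ⟨(A, B), fun _ => ⟨⟨h0, hF⟩, h.char, h.symA, h.symB, fun i j => ?_, fun i j => ?_⟩⟩
      · rw [one_mul]
        exact (h.hA i j).trans (mul_le_mul (ht _) (ht _) (h.pos _).le (hs0 _).le)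
      · rw [one_mul]
        exact (h.hB i j).trans (mul_le_mul (ht _) (ht _) (h.pos _).le (hs0 _).le)
    · exact ⟨(0, 0), fun h => absurd h ha⟩
  choose P hP using hT'
  have hinj : Set.InjOn P T := by
    intro c hc c' hc' he
    have h1 := (hP c hc).2.1
    have h2 := (hP c' hc').2.1
    rw [← he] at h2
    exact h1.inj h2
  have hcount := unip_count s hs0 1 1 zero_le_one zero_le_one (T.image P) (by
      intro p hp
      rw [Finset.mem_image] at hp
      obtain ⟨c, hc, rfl⟩ := hp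
      exact (hP c hc).2.2) (by
      intro p hp q hq W hW1 hW2 hA hB
      rw [Finset.mem_image] at hp hq
      obtain ⟨c, hc, rfl⟩ := hp
      obtain ⟨c', hc', rfl⟩ := hq
      have hdet : W.det = 1 := BG.Unip.LU.det ⟨hW1, hW2⟩
      have h1 := char_congr hdet (hP c hc).2.1
      rw [hA, hB] at h1
      have h2 := h1.inj (hP c' hc').2.1
      subst h2
      exact ⟨rfl, stab c (hP c hc).1.1 (hP c hc).1.2 _ _ W (hP c hc).2.1 hW1 hW2 hA hB⟩)
  rw [Finset.card_image_of_injOn hinj] at hcount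
  refine hcount.trans ?_
  have hn1 : (1 : ℝ) ≤ (n : ℝ) ^ 2 := by
    have : (1 : ℝ) ≤ n := by exact_mod_cast hn
    exact one_le_pow₀ this
  have hfac : ∀ x : ℝ, 2 * (n : ℝ) ^ 2 * x + 1 ≤ 3 * (n : ℝ) ^ 2 * max 1 x := by
    intro x
    have h1 : x ≤ max 1 x := le_max_right _ _
    have h2 : 1 ≤ max 1 x := le_max_left _ _
    nlinarith
  have e1 : ∏ p : Ix n, (2 * (n : ℝ) ^ 2 * 1 * (s p.1.1 * s p.1.2) + 1) ≤
      (3 * (n : ℝ) ^ 2) ^ Fintype.card (Ix n) * ∏ p : Ix n, max 1 (s p.1.1 * s p.1.2) := by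
    calc ∏ p : Ix n, (2 * (n : ℝ) ^ 2 * 1 * (s p.1.1 * s p.1.2) + 1)
        ≤ ∏ p : Ix n, (3 * (n : ℝ) ^ 2 * max 1 (s p.1.1 * s p.1.2)) := by
          refine Finset.prod_le_prod (fun p _ => ?_) (fun p _ => ?_)
          · have := mul_pos (hs0 p.1.1) (hs0 p.1.2)
            positivity
          · have := hfac (s p.1.1 * s p.1.2)
            linarith
      _ = _ := by rw [Finset.prod_mul_distrib, Finset.prod_const, Finset.card_univ]
  have hQ1 : (0:ℝ) ≤ ∏ p : Ix n, max 1 (s p.1.1 * s p.1.2) :=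
    Finset.prod_nonneg fun p _ => zero_le_one.trans (le_max_left _ _)
  calc _ ≤ ((3 * (n : ℝ) ^ 2) ^ Fintype.card (Ix n) * ∏ p : Ix n, max 1 (s p.1.1 * s p.1.2)) *
      ((3 * (n : ℝ) ^ 2) ^ Fintype.card (Ix n) * ∏ p : Ix n, max 1 (s p.1.1 * s p.1.2)) := by
        refine mul_le_mul e1 e1 (Finset.prod_nonneg fun p _ => ?_) (by positivity)
        have := mul_pos (hs0 p.1.1) (hs0 p.1.2)
        positivity
    _ = _ := by ring

/-- The bound for one cell. -/
lemma cell {n : ℕ} (hn : 4 ≤ n) (he : Even n) {K H : ℝ} {s : Fin n → ℝ} (hs0 : ∀ i, 0 < s i)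
    (hmono : ∀ i j, i ≤ j → s i ≤ s j)
    (hc : ∀ i j : Fin n, (i : ℕ) + j = n - 2 → 1 ≤ s i * s j)
    (T : Finset (Fin (n + 1) → ℤ))
    (hT : ∀ a ∈ T, a 0 ≠ 0 ∧ Irreducible (GZ ℚ a) ∧
      ∃ (A B : Matrix (Fin n) (Fin n) ℤ) (t : Fin n → ℝ), RPair K H a A B t ∧ ∀ i, t i ≤ s i) :
    (T.card : ℝ) ≤ (3 * (n : ℝ) ^ 2) ^ (2 * Fintype.card (Ix n)) *
      ((∏ i, s i) ^ 2) ^ (n + 1) * √(s ⟨0, by omega⟩ / s ⟨n - 1, by omega⟩) := by
  have hcount := count (by omega) hs0 T hT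
  obtain ⟨y, rfl⟩ : ∃ y : Fin n → ℝ, (fun i => Real.exp (-y i)) = s :=
    ⟨fun i => -Real.log (s i), by
      funext i
      rw [neg_neg, Real.exp_log (hs0 i)]⟩
  have hexp := expo n (by omega) he y
    (fun i j hij => by
      have := hmono i j hij
      simp only [Real.exp_le_exp] at this
      linarith)
    (fun i j hij => by
      have := hc i j hij
      simp only [← Real.exp_add] at this
      rw [← Real.exp_zero, Real.exp_le_exp] at this
      linarith)
  have hexp' : 2 * ∑ p : Ix n, max 0 (y p.1.1 + y p.1.2) +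
        (y ⟨0, by omega⟩ - y ⟨n - 1, by omega⟩) / 2 ≤
      ∑ i, ∑ j ∈ univ.filter (· < i), (y j - y i) := by
    rw [BG.Expo.ix_sum (fun i j => max 0 (y i + y j))]
    have e : (∑ i, ∑ j, if i ≤ j then max 0 (y i + y j) else 0) =
        ∑ i, ∑ j ∈ univ.filter (i ≤ ·), max 0 (y i + y j) := by
      refine Finset.sum_congr rfl fun i _ => ?_
      rw [Finset.sum_filter]
    rw [e]
    exact hexp
  obtain ⟨D, hD⟩ : ∃ D : ℝ, D = (3 * (n : ℝ) ^ 2) ^ (2 * Fintype.card (Ix n)) := ⟨_, rfl⟩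
  have hD0 : 0 ≤ D := by rw [hD]; positivity
  rw [← hD] at hcount ⊢
  have e1 : ∏ p : Ix n, max 1 (Real.exp (-y p.1.1) * Real.exp (-y p.1.2)) =
      Real.exp (∑ p : Ix n, (max 0 (y p.1.1 + y p.1.2) - (y p.1.1 + y p.1.2))) := by
    rw [Real.exp_sum]
    refine Finset.prod_congr rfl fun p _ => ?_
    rw [← Real.exp_add, ← Real.exp_zero, ← Real.exp_monotone.map_max]
    congr 1
    rcases le_total 0 (y p.1.1 + y p.1.2) with h | h
    · rw [max_eq_right h, max_eq_left (by linarith)]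
      ring
    · rw [max_eq_left h, max_eq_right (by linarith)]
      ring
  have e3 : ∏ i, ∏ j ∈ univ.filter (· < i), (Real.exp (-y i) / Real.exp (-y j)) =
      Real.exp (∑ i, ∑ j ∈ univ.filter (· < i), (y j - y i)) := by
    rw [Real.exp_sum]
    refine Finset.prod_congr rfl fun i _ => ?_
    rw [Real.exp_sum]
    refine Finset.prod_congr rfl fun j _ => ?_
    rw [← Real.exp_sub]
    congr 1
    ring
  have e4 : √(Real.exp (-y ⟨0, by omega⟩) / Real.exp (-y ⟨n - 1, by omega⟩)) =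
      Real.exp (-((y ⟨0, by omega⟩ - y ⟨n - 1, by omega⟩) / 2)) := by
    rw [← Real.exp_sub, ← Real.exp_half]
    congr 1
    ring
  have e5 : ((∏ i, Real.exp (-y i)) ^ 2) ^ (n + 1) = Real.exp (-(2 * ((n + 1) * ∑ i, y i))) := by
    rw [← Real.exp_sum, ← Real.exp_nat_mul, ← Real.exp_nat_mul, Finset.sum_neg_distrib]
    congr 1
    push_cast
    ring
  rw [e1, e3, ← Real.exp_nat_mul, Finset.sum_sub_distrib, ix_lin] at hcount
  rw [e4, e5]
  have h1 : (T.card : ℝ) = (T.card : ℝ) *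
      Real.exp (∑ i, ∑ j ∈ univ.filter (· < i), (y j - y i)) *
      Real.exp (-∑ i, ∑ j ∈ univ.filter (· < i), (y j - y i)) := by
    rw [mul_assoc, ← Real.exp_add, add_neg_cancel, Real.exp_zero, mul_one]
  rw [h1]
  refine (mul_le_mul_of_nonneg_right hcount (Real.exp_pos _).le).trans ?_
  rw [mul_assoc, mul_assoc, ← Real.exp_add, ← Real.exp_add]
  refine mul_le_mul_of_nonneg_left (Real.exp_le_exp.mpr ?_) hD0
  push_cast
  linarith

end Cusp

theorem cusp (n : ℕ) (hn : 4 ≤ n) (he : Even n) (K : ℝ) (hK : 1 ≤ K) (η : ℝ) (hη : 0 < η)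
    (ε : ℝ) (hε : 0 < ε) :
    ∃ R H₀ : ℝ, 1 ≤ R ∧ ∀ H : ℝ, H₀ ≤ H → ∀ T : Finset (Fin (n + 1) → ℤ),
      (∀ a ∈ T, a 0 ≠ 0 ∧ Irreducible (GZ ℚ a) ∧ (∃ i, η * H ≤ |(a i : ℝ)|) ∧
        ∃ (A B : Matrix (Fin n) (Fin n) ℤ) (t : Fin n → ℝ),
          RPair K H a A B t ∧ ∃ i j, R * t i < t j) →
      (T.card : ℝ) ≤ ε * H ^ (n + 1) := by
  classical
  have hK0 : 0 < K := by linarith
  obtain ⟨q, hq⟩ : ∃ q : ℕ, K ^ 2 / η < 4 ^ q := pow_unbounded_of_one_lt _ (by norm_num)
  obtain ⟨D, hD⟩ : ∃ D : ℝ, D = (3 * (n : ℝ) ^ 2) ^ (2 * Fintype.card (Ix n)) := ⟨_, rfl⟩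
  have hD0 : 0 < D := by
    rw [hD]
    have : (0 : ℝ) < n := by exact_mod_cast (by omega : 0 < n)
    positivity
  obtain ⟨R, hcells⟩ := Cusp.cells (by omega : 0 < n) (C := D * (4 ^ n * K) ^ (n + 1))
    (q + n + 1) (by positivity) hε
  refine ⟨(2 : ℝ) ^ (R + 1), 1, one_le_pow₀ (by norm_num), fun H hH T hT => ?_⟩
  have hH0 : 0 < H := by linarith
  have hex : ∀ a ∈ T, ∃ (A B : Matrix (Fin n) (Fin n) ℤ) (t : Fin n → ℝ),
      RPair K H a A B t ∧ ∃ i j, (2 : ℝ) ^ (R + 1) * t i < t j := fun a ha => (hT a ha).2.2.2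
  choose! A B t hR hi using hex
  set f : (Fin (n + 1) → ℤ) → Fin n → ℤ := fun a i => Int.log 2 (t a i) with hf
  have hbox : ∀ a ∈ T, ∀ i, (2 : ℝ) ^ (f a i) ≤ t a i ∧ t a i < (2 : ℝ) ^ (f a i + 1) := by
    intro a ha i
    have hpos := (hR a ha).pos i
    have h1 := Int.zpow_log_le_self (b := 2) (by norm_num) hpos
    have h2 := Int.lt_zpow_succ_log_self (b := 2) (by norm_num) (t a i)
    exact ⟨by exact_mod_cast h1, by exact_mod_cast h2⟩
  have hfmono : ∀ a ∈ T, ∀ i j, i ≤ j → f a i ≤ f a j := by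
    intro a ha i j hij
    have h1 : (2 : ℝ) ^ (f a i) < (2 : ℝ) ^ (f a j + 1) :=
      lt_of_le_of_lt (hbox a ha i).1 (lt_of_le_of_lt ((hR a ha).mono i j hij) (hbox a ha j).2)
    have h2 := (zpow_lt_zpow_iff_right₀ (one_lt_two (α := ℝ))).1 h1
    omega
  -- the scale
  set s : (Fin (n + 1) → ℤ) → Fin n → ℝ := fun a i => (2 : ℝ) ^ (f a i + 1) with hs
  have hs0 : ∀ a i, 0 < s a i := fun a i => by rw [hs]; positivity
  have hts : ∀ a ∈ T, ∀ i, t a i ≤ s a i := fun a ha i => (hbox a ha i).2.le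
  have hst : ∀ a ∈ T, ∀ i, s a i ≤ 2 * t a i := fun a ha i => by
    rw [hs]
    simp only
    rw [zpow_add_one₀ two_ne_zero, mul_comm]
    exact mul_le_mul_of_nonneg_left (hbox a ha i).1 zero_le_two
  have hprods : ∀ a, (∏ i, s a i) ^ 2 = (4 : ℝ) ^ (∑ i, f a i + n) := by
    intro a
    have h1 : ∏ i, s a i = (2 : ℝ) ^ (∑ i, f a i + n) := by
      rw [hs]
      simp only
      have h2 : ∀ S : Finset (Fin n), ∏ i ∈ S, (2 : ℝ) ^ (f a i + 1) =
          (2 : ℝ) ^ (∑ i ∈ S, (f a i + 1)) := by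
        intro S
        induction S using Finset.induction_on with
        | empty => simp
        | insert j S hj ih =>
          rw [Finset.prod_insert hj, Finset.sum_insert hj, ih, ← zpow_add₀ two_ne_zero]
      rw [h2, Finset.sum_add_distrib, Finset.sum_const, Finset.card_univ, Fintype.card_fin]
      simp
    rw [h1, ← zpow_natCast, ← _root_.zpow_mul, mul_comm, _root_.zpow_mul]
    norm_num
  have hupper : ∀ a ∈ T, (∏ i, s a i) ^ 2 ≤ 4 ^ n * K * H := by
    intro a ha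
    have h1 : ∏ i, s a i ≤ 2 ^ n * ∏ i, t a i := by
      calc ∏ i, s a i ≤ ∏ i, (2 * t a i) :=
            Finset.prod_le_prod (fun i _ => (hs0 a i).le) fun i _ => hst a ha i
        _ = 2 ^ n * ∏ i, t a i := by
            rw [Finset.prod_mul_distrib, Finset.prod_const, Finset.card_univ, Fintype.card_fin]
    calc (∏ i, s a i) ^ 2 ≤ (2 ^ n * ∏ i, t a i) ^ 2 :=
          pow_le_pow_left₀ (Finset.prod_nonneg fun i _ => (hs0 a i).le) h1 2
      _ = 4 ^ n * (∏ i, t a i) ^ 2 := by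
          rw [mul_pow, ← pow_mul, mul_comm n 2, pow_mul]
          norm_num
      _ ≤ 4 ^ n * (K * H) := mul_le_mul_of_nonneg_left (hR a ha).prod (by positivity)
      _ = 4 ^ n * K * H := by ring
  have hlower : ∀ a ∈ T, η * H / K ≤ (∏ i, s a i) ^ 2 := by
    intro a ha
    obtain ⟨i, hi1⟩ := (hT a ha).2.2.1
    have h1 := (hR a ha).prod' i
    have h2 : (∏ i, t a i) ^ 2 ≤ (∏ i, s a i) ^ 2 :=
      pow_le_pow_left₀ (Finset.prod_nonneg fun i _ => ((hR a ha).pos i).le)
        (Finset.prod_le_prod (fun i _ => ((hR a ha).pos i).le) fun i _ => hts a ha i) 2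
    rw [div_le_iff₀ hK0]
    calc η * H ≤ |(a i : ℝ)| := hi1
      _ ≤ K * (∏ i, t a i) ^ 2 := h1
      _ ≤ K * (∏ i, s a i) ^ 2 := mul_le_mul_of_nonneg_left h2 hK0.le
      _ = (∏ i, s a i) ^ 2 * K := by ring
  have h4 : (1 : ℝ) < 4 := by norm_num
  refine hcells T f (H ^ (n + 1)) ⟨0, by omega⟩ ⟨n - 1, by omega⟩
    (Int.log 4 (η * H / K) - n) (by positivity)
    (fun a ha i => hfmono a ha _ i (Fin.le_def.2 (by simp)))
    (fun a ha i => hfmono a ha i _ (Fin.le_def.2 (by have := i.2; simp only; omega))) ?_ ?_ ?_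
  · -- the gap
    intro a ha
    obtain ⟨i, j, hij⟩ := hi a ha
    have h1 : (2 : ℝ) ^ (R + 1) * t a ⟨0, by omega⟩ < t a ⟨n - 1, by omega⟩ := by
      have h2 := (hR a ha).mono ⟨0, by omega⟩ i (Fin.le_def.2 (by simp))
      have h3 := (hR a ha).mono j ⟨n - 1, by omega⟩
        (Fin.le_def.2 (by have := j.2; simp only; omega))
      have h4 := mul_le_mul_of_nonneg_left h2 (by positivity : (0 : ℝ) ≤ (2 : ℝ) ^ (R + 1))
      linarith
    have h2 : (2 : ℝ) ^ (((R + 1 : ℕ) : ℤ) + f a ⟨0, by omega⟩) <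
        (2 : ℝ) ^ (f a ⟨n - 1, by omega⟩ + 1) := by
      rw [zpow_add₀ two_ne_zero, zpow_natCast]
      refine lt_of_le_of_lt ?_ (h1.trans (hbox a ha _).2)
      exact mul_le_mul_of_nonneg_left (hbox a ha _).1 (by positivity)
    have h3 := (zpow_lt_zpow_iff_right₀ (one_lt_two (α := ℝ))).1 h2
    push_cast at h3
    linarith
  · -- the size
    intro a ha
    have hpos : 0 < η * H / K := by positivity
    have h1 := Int.zpow_log_le_self (b := 4) (by norm_num) hpos
    have h2 := Int.lt_zpow_succ_log_self (b := 4) (by norm_num) (η * H / K)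
    push_cast at h1 h2
    constructor
    · have h3 := h1.trans (hlower a ha)
      rw [hprods a, zpow_le_zpow_iff_right₀ h4] at h3
      linarith
    · have h3 := hupper a ha
      rw [hprods a, zpow_add₀ (by norm_num : (4 : ℝ) ≠ 0), zpow_natCast] at h3
      have h5 : (4 : ℝ) ^ (∑ i, f a i) ≤ K * H := by
        have h6 : (4 : ℝ) ^ (∑ i, f a i) * 4 ^ n ≤ K * H * 4 ^ n := by linarith
        exact le_of_mul_le_mul_right h6 (by positivity)
      have h6 : K * H ≤ 4 ^ q * (η * H / K) := by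
        have h7 : K * H = K ^ 2 / η * (η * H / K) := by field_simp
        rw [h7]
        exact mul_le_mul_of_nonneg_right hq.le hpos.le
      have h7 : (4 : ℝ) ^ (∑ i, f a i) < 4 ^ (((q : ℕ) : ℤ) + (Int.log 4 (η * H / K) + 1)) := by
        rw [zpow_add₀ (by norm_num : (4 : ℝ) ≠ 0), zpow_natCast]
        refine lt_of_le_of_lt (h5.trans h6) ?_
        exact mul_lt_mul_of_pos_left h2 (by positivity)
      rw [zpow_lt_zpow_iff_right₀ h4] at h7
      push_cast
      linarith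
  · -- one cell
    intro a ha S hS hSf
    have hcond : ∀ i j : Fin n, (i : ℕ) + j = n - 2 → 1 ≤ s a i * s a j := by
      intro i j hij
      obtain ⟨i', j', hi', hj', hne⟩ := block_ne a (hT a ha).1 (hT a ha).2.1 (A a) (B a)
        (hR a ha).char ((i : ℕ) + 1) (by omega) (by omega)
      have hle : ∀ x : ℝ, 1 ≤ |x| → |x| ≤ t a i' * t a j' → 1 ≤ s a i * s a j := by
        intro x hx1 hx2
        have h1 : t a i' ≤ s a i :=
          ((hR a ha).mono i' i (Fin.le_def.2 (by omega))).trans (hts a ha i)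
        have h2 : t a j' ≤ s a j :=
          ((hR a ha).mono j' j (Fin.le_def.2 (by omega))).trans (hts a ha j)
        exact (hx1.trans hx2).trans (mul_le_mul h1 h2 ((hR a ha).pos _).le (hs0 a _).le)
      rcases hne with hne | hne
      · exact hle _ (Cusp.one_le_abs_cast hne) ((hR a ha).hA i' j')
      · exact hle _ (Cusp.one_le_abs_cast hne) ((hR a ha).hB i' j')
    have hsmono : ∀ i j, i ≤ j → s a i ≤ s a j := by
      intro i j hij
      exact zpow_le_zpow_right₀ (one_le_two (α := ℝ)) (by have := hfmono a ha i j hij; omega)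
    have h1 := Cusp.cell hn he (K := K) (H := H) (hs0 a) hsmono hcond S (by
      intro a' ha'
      refine ⟨(hT a' (hS ha')).1, (hT a' (hS ha')).2.1, A a', B a', t a', hR a' (hS ha'), ?_⟩
      intro i
      have h2 := hts a' (hS ha') i
      have h3 : s a' i = s a i := by
        rw [hs]
        simp only
        rw [hSf a' ha']
      rwa [h3] at h2)
    rw [← hD] at h1
    refine h1.trans ?_
    have h2 : s a ⟨0, by omega⟩ / s a ⟨n - 1, by omega⟩ =
        (2 : ℝ) ^ (f a ⟨0, by omega⟩ - f a ⟨n - 1, by omega⟩) := by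
      rw [hs]
      simp only
      rw [← zpow_sub₀ two_ne_zero]
      congr 1
      ring
    rw [h2]
    refine mul_le_mul_of_nonneg_right ?_ (Real.sqrt_nonneg _)
    rw [mul_assoc, ← mul_pow]
    refine mul_le_mul_of_nonneg_left ?_ hD0.le
    exact pow_le_pow_left₀ (sq_nonneg _) (hupper a ha) _

end Stoll308.BF
end

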