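import Mathlib
import Pool.Agent.Work.BCM.C01
import Pool.Agent.Work.BCM.C02
import Pool.Agent.Work.BCM.C03
import Pool.Agent.Work.BCM.C05
import Pool.Agent.Work.BCM.C09
import Pool.Agent.Work.BCM.C27
import Pool.Agent.Work.BCM.C30
import Pool.Agent.Work.MP_308fa9_nt.DQ.Defs

section
set_option autoImplicit false

/-!
The curves `y² = f(ψ(x)²)`, `f = α T^n + b₀ T^(n-1) + ... + b_(n-1)`, for a fixed polynomial `ψ`:
local solubility and the Selmer set of the classes of `ψ(x)² - θ`. Definitions of the statement.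
-/

namespace Stoll308.BG

open Polynomial Finset

/-- The affine curve `y² = f(ψ(x)²)` is smooth: its right hand side has no multiple factor. -/
def SmoothP {n : ℕ} (ψ : ℤ[X]) (α : ℤ) (b : Fin n → ℤ) : Prop :=
  Squarefree ((fpol (α : ℚ) (fun i => (b i : ℚ))).comp ((ψ.map (Int.castRingHom ℚ)) ^ 2))

end Stoll308.BG
end

section
set_option autoImplicit false

/-!
Squares and the splitting of quaternion algebras over `ℚ_p`, `p` odd.
-/

namespace Stoll308

section General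

variable {F : Type*} [Field F]

lemma Splits.symm {u c : F} (h : Splits u c) : Splits c u := by
  obtain ⟨X, Y, Z, hne, h⟩ := h
  exact ⟨Y, X, Z, by tauto, by rw [← h]; ring⟩

end General

section Padic

variable {p : ℕ} [hp : Fact p.Prime]

open PadicInt

lemma norm_eq_one_iff_toZMod {e : ℤ_[p]} : ‖e‖ = 1 ↔ toZMod e ≠ 0 := by
  rw [← PadicInt.isUnit_iff, Ne, ← RingHom.mem_ker, ker_toZMod]
  rw [IsLocalRing.mem_maximalIdeal, mem_nonunits_iff, not_not]

lemma norm_two_eq_one (h2 : p ≠ 2) : ‖(2 : ℤ_[p])‖ = 1 := by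
  have : ((2 : ℕ) : ℤ_[p]) = 2 := by norm_num
  rw [← this, PadicInt.norm_natCast_eq_one_iff]
  exact (Nat.coprime_primes hp.out Nat.prime_two).2 h2

/-- A unit whose residue is a square is a square. -/
lemma sq_of_residue (h2 : p ≠ 2) {e : ℤ_[p]} (he : ‖e‖ = 1) (hs : IsSquare (toZMod e)) :
    ∃ w : ℤ_[p], ‖w‖ = 1 ∧ e = w ^ 2 := by
  obtain ⟨r, hr⟩ := hs
  obtain ⟨a, ha⟩ := ZMod.ringHom_surjective (toZMod : ℤ_[p] →+* ZMod p) r
  have hr0 : r ≠ 0 := by
    rintro rfl
    exact (norm_eq_one_iff_toZMod.1 he) (by rw [hr, mul_zero])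
  have ha1 : ‖a‖ = 1 := norm_eq_one_iff_toZMod.2 (by rw [ha]; exact hr0)
  have h1 : ‖a ^ 2 - e‖ < 1 := by
    rw [lt_iff_le_and_ne]
    refine ⟨PadicInt.norm_le_one _, fun h => ?_⟩
    apply norm_eq_one_iff_toZMod.1 h
    rw [map_sub, map_pow, ha, hr]; ring
  have hder : ‖(2 : ℤ_[p]) * a‖ = 1 := by rw [norm_mul, norm_two_eq_one h2, ha1, one_mul]
  obtain ⟨z, hz, -⟩ := hensels_lemma (F := (Polynomial.X ^ 2 - Polynomial.C e : Polynomial ℤ_[p]))
    (a := a) (by
      simp only [map_sub, map_pow, Polynomial.aeval_X, Polynomial.aeval_C,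
        Polynomial.derivative_C, sub_zero,
        Polynomial.derivative_X_pow, map_mul, Algebra.algebraMap_self, RingHom.id_apply]
      simp only [Nat.cast_ofNat, Nat.add_one_sub_one, pow_one]
      rw [hder, one_pow]
      exact h1)
  simp only [map_sub, map_pow, Polynomial.aeval_X, Polynomial.aeval_C, Algebra.algebraMap_self,
    RingHom.id_apply, sub_eq_zero] at hz
  refine ⟨z, ?_, hz.symm⟩
  have : ‖z‖ ^ 2 = 1 := by rw [← norm_pow, hz, he]
  exact (pow_eq_one_iff_of_nonneg (norm_nonneg z) two_ne_zero).1 this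

end Padic

end Stoll308
end

section
set_option autoImplicit false

/-!
The primes at which the reduction of the curve is bad, and local points elsewhere.
-/

namespace Stoll308.BG.Els

open Finset Polynomial PadicInt

/-- The coefficients as a sequence. -/
def bet {R : Type*} [Zero R] {n : ℕ} (b : Fin n → R) (i : ℕ) : R :=
  if h : i - 1 < n then b ⟨i - 1, h⟩ else 0

lemma bet_eq {R : Type*} [Zero R] {n : ℕ} (b : Fin n → R) (i : Fin n) :
    bet b ((i : ℕ) + 1) = b i := by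
  unfold bet
  rw [dif_pos (by have := i.2; omega)]
  rfl

/-- The reduction of `g(x^(2k))` is a constant times a square. -/
def SqRed (k : ℕ) {n : ℕ} (α : ℤ) (b : Fin n → ℤ) (p : ℕ) : Prop :=
  ∃ (c : ZMod p) (s : (ZMod p)[X]),
    expand (ZMod p) (2 * k) (fpol (α : ZMod p) (fun i => (b i : ZMod p))) = C c * s ^ 2

/-- An integer which is divisible by the bad primes. -/
def NN {n : ℕ} (α : ℤ) (b : Fin n → ℤ) : ℤ :=
  if 2 ∣ n then (4 * α) ^ (n - 1) * bet b n - (U α (bet b) (n / 2)) ^ 2 else bet b n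

lemma gp_coeff_zero {R : Type*} [CommRing R] {n : ℕ} (hn : 1 ≤ n) (α : R) (b : Fin n → R) :
    (fpol α b).coeff 0 = b ⟨n - 1, by omega⟩ := by
  rw [gp_coeff_lt α b (by omega : 0 < n)]
  rfl

section

variable {p : ℕ} [hp : Fact p.Prime]

lemma two_ne (hp2 : p ≠ 2) : (2 : ZMod p) ≠ 0 := by
  intro h0
  have h1 : ((2 : ℕ) : ZMod p) = 0 := by exact_mod_cast h0
  rw [ZMod.natCast_eq_zero_iff] at h1
  exact hp2 ((Nat.prime_dvd_prime_iff_eq hp.out Nat.prime_two).1 h1)

lemma bad_dvd {k n : ℕ} (hk : 1 ≤ k) (hn : 1 ≤ n) (hp2 : p ≠ 2) {α : ℤ} (hα : (α : ZMod p) ≠ 0)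
    {b : Fin n → ℤ} (h : SqRed k α b p) : (p : ℤ) ∣ NN α b := by
  obtain ⟨c, s, h⟩ := h
  rw [← ZMod.intCast_zmod_eq_zero_iff_dvd]
  have h2 := two_ne (p := p) hp2
  have hd := gp_natDegree hα (fun i => (b i : ZMod p))
  have hbn : ((bet b n : ℤ) : ZMod p) = (b ⟨n - 1, by omega⟩ : ZMod p) := by
    unfold bet
    rw [dif_pos (by omega)]
  unfold NN
  split_ifs with h2n
  · obtain ⟨m, rfl⟩ := h2n
    have hm : 1 ≤ m := by omega
    obtain ⟨t, ht, htd, hg⟩ := even_struct h2 hk hm hd h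
    have hl : (fpol (α : ZMod p) (fun i => (b i : ZMod p))).leadingCoeff = α := by
      rw [leadingCoeff, hd, gp_coeff_top]
    rw [hl] at hg
    have hr := even_rel hm ht htd hg
    rw [gp_coeff_zero (by omega)] at hr
    rw [Nat.mul_div_cancel_left m two_pos]
    push_cast
    rw [hbn, hr, sub_eq_zero]
    congr 1
    have h3 := U_map (Int.castRingHom (ZMod p)) α (bet b) m
    rw [eq_intCast, eq_intCast] at h3
    rw [h3]
    apply U_congr
    intro i hi1 him
    rw [gp_coeff_lt _ _ (by omega : 2 * m - i < 2 * m), eq_intCast]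
    obtain ⟨i, rfl⟩ : ∃ j, i = j + 1 := ⟨i - 1, by omega⟩
    have h4 := bet_eq b ⟨i, by omega⟩
    simp only at h4
    rw [h4]
    congr 2
    apply Fin.ext
    simp only
    omega
  · rw [hbn, ← gp_coeff_zero (by omega) (α : ZMod p) (fun i => (b i : ZMod p))]
    exact odd_struct h2 hk h2n hd h

lemma bad_uniq {k n : ℕ} (hk : 1 ≤ k) (hn : 3 ≤ n) (hp2 : p ≠ 2) {α : ℤ} (hα : (α : ZMod p) ≠ 0)
    {b b' : Fin n → ℤ} (h : SqRed k α b p) (h' : SqRed k α b' p)
    (hbb : ∀ i : Fin n, (i : ℕ) + 2 < n → b i = b' i) (i : Fin n) :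
    (p : ℤ) ∣ b i - b' i := by
  obtain ⟨c, s, h⟩ := h
  obtain ⟨c', s', h'⟩ := h'
  have h2 := two_ne (p := p) hp2
  have hd := gp_natDegree hα (fun i => (b i : ZMod p))
  have hd' := gp_natDegree hα (fun i => (b' i : ZMod p))
  have hl : (fpol (α : ZMod p) (fun i => (b i : ZMod p))).leadingCoeff = α := by
    rw [leadingCoeff, hd, gp_coeff_top]
  have hl' : (fpol (α : ZMod p) (fun i => (b' i : ZMod p))).leadingCoeff = α := by
    rw [leadingCoeff, hd', gp_coeff_top]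
  have key := uniq_sq h2 hk hn hd hd' (by rw [hl, hl']) (by
    rw [natDegree_le_iff_coeff_eq_zero]
    intro N hN
    rw [coeff_sub, sub_eq_zero]
    rcases lt_trichotomy N n with hlt | rfl | hgt
    · rw [gp_coeff_lt _ _ hlt, gp_coeff_lt _ _ hlt]
      congr 1
      apply hbb
      simp only
      omega
    · rw [gp_coeff_top, gp_coeff_top]
    · rw [gp_coeff_gt _ _ hgt, gp_coeff_gt _ _ hgt]) h h'
  have h3 : (fpol (α : ZMod p) (fun i => (b i : ZMod p))).coeff (n - 1 - i) =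
    (fpol (α : ZMod p) (fun i => (b' i : ZMod p))).coeff (n - 1 - i) := by rw [key]
  have hi := i.2
  rw [gp_coeff_lt _ _ (by omega : n - 1 - (i : ℕ) < n),
    gp_coeff_lt _ _ (by omega : n - 1 - (i : ℕ) < n)] at h3
  have hidx : (⟨n - 1 - (n - 1 - (i : ℕ)), by omega⟩ : Fin n) = i := by
    apply Fin.ext
    simp only
    omega
  rw [hidx] at h3
  rw [← ZMod.intCast_zmod_eq_zero_iff_dvd]
  push_cast
  rw [h3, sub_self]

/-- Points at a large good prime. -/
lemma point_good {k n : ℕ} (hk : 1 ≤ k) (hn : 1 ≤ n) {α : ℤ} (hα : (α : ZMod p) ≠ 0)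
    (hbig : (n * (2 * k) + 2) ^ 2 ≤ p) {b : Fin n → ℤ} (h : ¬ SqRed k α b p) :
    HasPoint k α b ℚ_[p] := by
  have hp2 : p ≠ 2 := by
    rintro rfl
    have : (1 * (2 * 1) + 2) ^ 2 ≤ (n * (2 * k) + 2) ^ 2 := by gcongr
    omega
  have hk2 : 0 < 2 * k := by omega
  set g := fpol (α : ZMod p) (fun i => (b i : ZMod p)) with hg
  have hd : g.natDegree = n := gp_natDegree hα _
  have hg0 : g ≠ 0 := by
    intro h0
    rw [h0] at hd
    simp at hd
    omega
  obtain ⟨x, y, hy, hxy⟩ := BE.exists_sq_value hp2 (expand (ZMod p) (2 * k) g)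
    ((expand_ne_zero hk2).2 hg0) (by rw [natDegree_expand, hd]; exact hbig) (by
      intro e s hes
      exact h ⟨e, s, hes⟩)
  rw [expand_eval, hg, gp_eval] at hxy
  obtain ⟨a, ha⟩ := ZMod.ringHom_surjective (toZMod : ℤ_[p] →+* ZMod p) x
  set V : ℤ_[p] := α * (a ^ (2 * k)) ^ n +
      ∑ i : Fin n, (b i : ℤ_[p]) * (a ^ (2 * k)) ^ (n - 1 - (i : ℕ)) with hV
  have hVm : toZMod V = y ^ 2 := by
    rw [hV, hxy]
    simp only [map_add, map_mul, map_pow, map_intCast, ha, map_sum]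
  have hVu : ‖V‖ = 1 := norm_eq_one_iff_toZMod.2 (by rw [hVm]; exact pow_ne_zero _ hy)
  obtain ⟨w, -, hw⟩ := sq_of_residue hp2 hVu (by rw [hVm]; exact ⟨y, sq y⟩)
  left
  refine ⟨a, w, ?_⟩
  have h1 : ((w ^ 2 : ℤ_[p]) : ℚ_[p]) = (V : ℚ_[p]) := by rw [hw]
  rw [hV] at h1
  push_cast [PadicInt.coe_sum] at h1
  rw [gp_eval]
  exact h1

/-- A `p`-adic square. -/
lemma isSquare_padic {d : ℤ} (hd : ((8 * p : ℕ) : ℤ) ∣ d - 1) : ∃ w : ℚ_[p], w ^ 2 = d := by
  have hp : p.Prime := Fact.out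
  have hsq : ∃ w : ℤ_[p], w ^ 2 = (d : ℤ_[p]) := by
    by_cases hp2 : p = 2
    · subst hp2
      have h8 : ((2 : ℕ) : ℤ) ^ 4 ∣ d - 1 := by
        have : (((8 * 2 : ℕ) : ℕ) : ℤ) = ((2 : ℕ) : ℤ) ^ 4 := by norm_num
        rw [← this]
        exact hd
      have hn : ‖((d - 1 : ℤ) : ℤ_[2])‖ ≤ ((2 : ℕ) : ℝ) ^ (-(4 : ℕ) : ℤ) :=
        PadicInt.norm_int_le_pow_iff_dvd.2 (by exact_mod_cast h8)
      have h2n : ‖(2 : ℤ_[2])‖ = 2⁻¹ := by
        have := PadicInt.norm_p (p := 2)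
        exact_mod_cast this
      obtain ⟨z, hz, -⟩ := hensels_lemma
        (F := (Polynomial.X ^ 2 - Polynomial.C (d : ℤ_[2]) : Polynomial ℤ_[2]))
        (a := (1 : ℤ_[2])) (by
          simp only [map_sub, map_pow, Polynomial.aeval_X, Polynomial.aeval_C,
            Polynomial.derivative_C, sub_zero,
            Polynomial.derivative_X_pow, map_mul, Algebra.algebraMap_self, RingHom.id_apply]
          simp only [Nat.cast_ofNat, Nat.add_one_sub_one, pow_one, mul_one]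
          have h3 : (1 : ℤ_[2]) ^ 2 - (d : ℤ_[2]) = -((d - 1 : ℤ) : ℤ_[2]) := by push_cast; ring
          rw [h3, norm_neg, h2n]
          refine lt_of_le_of_lt hn ?_
          norm_num)
      simp only [map_sub, map_pow, Polynomial.aeval_X, Polynomial.aeval_C, Algebra.algebraMap_self,
        RingHom.id_apply, sub_eq_zero] at hz
      exact ⟨z, hz⟩
    · have hpd : (p : ℤ) ∣ d - 1 := dvd_trans ⟨8, by push_cast; ring⟩ hd
      have h1 : toZMod (d : ℤ_[p]) = 1 := by
        rw [map_intCast]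
        have h2 := (ZMod.intCast_zmod_eq_zero_iff_dvd (d - 1) p).2 hpd
        push_cast at h2
        exact sub_eq_zero.1 h2
      obtain ⟨w, -, hw⟩ := sq_of_residue (e := (d : ℤ_[p])) hp2
        (norm_eq_one_iff_toZMod.2 (by rw [h1]; exact one_ne_zero)) (by rw [h1]; exact ⟨1, by ring⟩)
      exact ⟨w, hw.symm⟩
  obtain ⟨w, hw⟩ := hsq
  refine ⟨w, ?_⟩
  have h1 : ((w ^ 2 : ℤ_[p]) : ℚ_[p]) = ((d : ℤ_[p]) : ℚ_[p]) := by rw [hw]
  push_cast at h1
  exact h1

end

/-- The value at `x = 0`. -/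
lemma val_zero {K : Type*} [Field K] {k n : ℕ} (hk : 1 ≤ k) (hn : 1 ≤ n) (α : ℤ) (b : Fin n → ℤ) :
    (α : K) * ((0 : K) ^ (2 * k)) ^ n +
      ∑ i : Fin n, (b i : K) * ((0 : K) ^ (2 * k)) ^ (n - 1 - (i : ℕ)) =
    b ⟨n - 1, by omega⟩ := by
  rw [zero_pow (by omega), zero_pow (by omega), mul_zero, zero_add,
    sum_eq_single (⟨n - 1, by omega⟩ : Fin n)]
  · simp
  · intro i _ hi
    rw [zero_pow, mul_zero]
    intro h
    apply hi
    apply Fin.ext
    simp only
    have := i.2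
    omega
  · intro h
    exact absurd (mem_univ _) h

/-- A bound for `NN`. -/
lemma NN_bound (n : ℕ) (hn : 1 ≤ n) (α : ℤ) : ∃ A : ℕ, 1 ≤ A ∧ ∀ (X : ℕ), 1 ≤ X →
    ∀ b : Fin n → ℤ, (∀ i : Fin n, |b i| ≤ (X : ℤ) ^ ((i : ℕ) + 1)) →
      (NN α b).natAbs ≤ A * X ^ n := by
  obtain ⟨A, hA0, hA⟩ := U_bound α (n / 2)
  obtain ⟨B, hB⟩ := exists_nat_ge (|(4 * α : ℝ)| ^ (n - 1) + A ^ 2)
  refine ⟨B + 1, by omega, ?_⟩
  intro X hX b hb
  have hX1 : (1 : ℝ) ≤ X := by exact_mod_cast hX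
  have hbet : ∀ i, 1 ≤ i → i ≤ n → |((bet b i : ℤ) : ℝ)| ≤ (X : ℝ) ^ i := by
    intro i h1 h2
    obtain ⟨j, rfl⟩ : ∃ j, i = j + 1 := ⟨i - 1, by omega⟩
    have h3 := bet_eq b ⟨j, by omega⟩
    simp only at h3
    rw [h3]
    have h4 := hb ⟨j, by omega⟩
    simp only at h4
    have h5 : ((|b ⟨j, by omega⟩| : ℤ) : ℝ) ≤ (((X : ℤ) ^ (j + 1) : ℤ) : ℝ) := by
      exact_mod_cast h4
    push_cast at h5
    exact h5
  have hmain : |((NN α b : ℤ) : ℝ)| ≤ ((B : ℝ) + 1) * X ^ n := by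
    unfold NN
    split_ifs with h2n
    · push_cast
      have hU := hA X hX1 (bet b) (fun i h1 h2 => hbet i h1 (by omega))
      have hU2 : |((U α (bet b) (n / 2) : ℤ) : ℝ) ^ 2| ≤ A ^ 2 * X ^ n := by
        rw [abs_pow]
        calc |((U α (bet b) (n / 2) : ℤ) : ℝ)| ^ 2 ≤ (A * (X : ℝ) ^ (n / 2)) ^ 2 := by
              gcongr
          _ = A ^ 2 * X ^ (n / 2 * 2) := by rw [mul_pow, ← pow_mul]
          _ = A ^ 2 * X ^ n := by rw [Nat.div_mul_cancel h2n]
      have h1 : |(4 * (α : ℝ)) ^ (n - 1) * ((bet b n : ℤ) : ℝ)| ≤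
          |(4 * α : ℝ)| ^ (n - 1) * X ^ n := by
        rw [abs_mul, abs_pow]
        exact mul_le_mul_of_nonneg_left (hbet n hn le_rfl) (by positivity)
      calc |(4 * (α : ℝ)) ^ (n - 1) * ((bet b n : ℤ) : ℝ) -
            ((U α (bet b) (n / 2) : ℤ) : ℝ) ^ 2|
          ≤ |(4 * (α : ℝ)) ^ (n - 1) * ((bet b n : ℤ) : ℝ)| +
            |((U α (bet b) (n / 2) : ℤ) : ℝ) ^ 2| := abs_sub _ _
        _ ≤ |(4 * α : ℝ)| ^ (n - 1) * X ^ n + A ^ 2 * X ^ n := add_le_add h1 hU2
        _ = (|(4 * α : ℝ)| ^ (n - 1) + A ^ 2) * X ^ n := by ring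
        _ ≤ ((B : ℝ) + 1) * X ^ n :=
            mul_le_mul_of_nonneg_right (hB.trans (by linarith)) (by positivity)
    · calc |((bet b n : ℤ) : ℝ)| ≤ 1 * (X : ℝ) ^ n := by rw [one_mul]; exact hbet n hn le_rfl
        _ ≤ ((B : ℝ) + 1) * X ^ n := by
            gcongr
            have : (0 : ℝ) ≤ B := Nat.cast_nonneg _
            linarith
  have h6 : (((NN α b).natAbs : ℕ) : ℝ) ≤ (((B + 1) * X ^ n : ℕ) : ℝ) := by
    rw [Nat.cast_natAbs]
    push_cast
    exact hmain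
  exact_mod_cast h6

lemma NN_inj {n : ℕ} (hn : 2 ≤ n) {α : ℤ} (hα : α ≠ 0) {b b' : Fin n → ℤ} (h : NN α b = 0)
    (h' : NN α b' = 0) (hbb : ∀ i : Fin n, (i : ℕ) + 1 < n → b i = b' i) : b = b' := by
  have hlast : b ⟨n - 1, by omega⟩ = b' ⟨n - 1, by omega⟩ := by
    have e1 : ∀ c : Fin n → ℤ, bet c n = c ⟨n - 1, by omega⟩ := by
      intro c
      unfold bet
      rw [dif_pos (by omega)]
    unfold NN at h h'
    split_ifs at h h' with h2n
    · have h3 : U α (bet b) (n / 2) = U α (bet b') (n / 2) := by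
        apply U_congr
        intro i hi1 hi2
        obtain ⟨j, rfl⟩ : ∃ j, i = j + 1 := ⟨i - 1, by omega⟩
        have h4 := bet_eq b ⟨j, by omega⟩
        have h5 := bet_eq b' ⟨j, by omega⟩
        simp only at h4 h5
        rw [h4, h5]
        apply hbb
        simp only
        omega
      rw [← h3, e1] at h'
      rw [e1] at h
      have h6 : (4 * α) ^ (n - 1) * b ⟨n - 1, by omega⟩ =
          (4 * α) ^ (n - 1) * b' ⟨n - 1, by omega⟩ := by linarith
      exact mul_left_cancel₀ (pow_ne_zero _ (by omega)) h6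
    · rw [e1] at h h'
      rw [h, h']
  funext i
  by_cases hi : (i : ℕ) + 1 < n
  · exact hbb i hi
  · have h3 : i = ⟨n - 1, by omega⟩ := by
      apply Fin.ext
      simp only
      have := i.2
      omega
    rw [h3]
    exact hlast

end Stoll308.BG.Els

namespace Stoll308.BG

open Polynomial Finset

theorem point_large (n : ℕ) (hn : 1 ≤ n) (α : ℤ) (hα : α ≠ 0) (k : ℕ) (hk : 1 ≤ k) :
    ∃ P₀ : ℕ, ∀ (p : ℕ) [Fact p.Prime], P₀ ≤ p → ∀ b : Fin n → ℤ, ¬ Els.SqRed k α b p →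
      HasPoint k α b ℚ_[p] := by
  refine ⟨(n * (2 * k) + 2) ^ 2 + α.natAbs + 1, ?_⟩
  intro p hp hbig b hbad
  have hαp : (α : ZMod p) ≠ 0 := by
    intro h0
    rw [ZMod.intCast_zmod_eq_zero_iff_dvd] at h0
    have h1 := Int.natAbs_dvd_natAbs.2 h0
    rw [Int.natAbs_natCast] at h1
    have h2 := Nat.le_of_dvd (Int.natAbs_pos.2 hα) h1
    omega
  exact Els.point_good hk hn hαp (by omega) hbad

theorem point_small {n : ℕ} (α : ℤ) (b : Fin n → ℤ) (k : ℕ) (hk : 1 ≤ k) (i : Fin n)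
    (hi : (i : ℕ) + 1 = n) (p : ℕ) [Fact p.Prime] (hd : ((8 * p : ℕ) : ℤ) ∣ b i - 1) :
    HasPoint k α b ℚ_[p] := by
  obtain ⟨w, hw⟩ := Els.isSquare_padic (p := p) hd
  left
  refine ⟨0, w, ?_⟩
  rw [Els.gp_eval, Els.val_zero hk (by omega), hw]
  congr 2
  apply Fin.ext
  simp only
  omega

theorem point_real {n : ℕ} (α : ℤ) (b : Fin n → ℤ) (k : ℕ) (hk : 1 ≤ k) (i : Fin n)
    (hi : (i : ℕ) + 1 = n) (hd : 0 < b i) : HasPoint k α b ℝ := by
  left
  refine ⟨0, Real.sqrt (b i), ?_⟩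
  rw [Real.sq_sqrt (by exact_mod_cast hd.le), Els.gp_eval, Els.val_zero hk (by omega)]
  congr 2
  apply Fin.ext
  simp only
  omega

end Stoll308.BG
end

section
set_option autoImplicit false

/-!
A positive proportion of the curves is everywhere locally soluble.
-/

namespace Stoll308.BE

open Finset

/-- Upper bound for the number of elements of a residue class in an interval. -/
lemma ap_card_le (a b r v : ℤ) (hr : 0 < r) (hab : a ≤ b) :
    (((Ioc a b).filter fun c => r ∣ c - v).card : ℝ) ≤ (b - a) / r + 1 := by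
  have h1 : (Ioc a b).filter (fun c => r ∣ c - v) = (Ioc a b).filter fun c => c ≡ v [ZMOD r] := by
    apply filter_congr
    intro c _
    rw [Int.modEq_comm, Int.modEq_iff_dvd]
  have h2 := Int.Ioc_filter_modEq_card a b hr v
  have hr' : (0 : ℚ) < r := by exact_mod_cast hr
  have h3 : ((max (⌊((b : ℚ) - v) / r⌋ - ⌊((a : ℚ) - v) / r⌋) 0 : ℤ) : ℚ) ≤ (b - a) / r + 1 := by
    rw [Int.cast_max]
    apply max_le
    · push_cast
      have h4 := Int.floor_le (((b : ℚ) - v) / r)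
      have h5 := Int.lt_floor_add_one (((a : ℚ) - v) / r)
      have h6 : ((b : ℚ) - v) / r - ((a : ℚ) - v) / r = (b - a) / r := by ring
      linarith
    · have : (0 : ℚ) ≤ (b - a) / r := by
        apply div_nonneg _ hr'.le
        rw [sub_nonneg]
        exact_mod_cast hab
      push_cast
      linarith
  have h4 : ((((Ioc a b).filter fun c => c ≡ v [ZMOD r]).card : ℤ) : ℚ) ≤ (b - a) / r + 1 := by
    rw [h2]
    exact h3
  rw [h1]
  have h5 : ((((Ioc a b).filter fun c => c ≡ v [ZMOD r]).card : ℚ) : ℝ) ≤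
      (((b : ℚ) - a) / r + 1 : ℚ) := by
    rw [Rat.cast_le]
    exact_mod_cast h4
  push_cast at h5
  exact h5

/-- Lower bound for the number of elements of a residue class in an interval. -/
lemma ap_card_ge (a b r v : ℤ) (hr : 0 < r) :
    ((b : ℝ) - a) / r - 1 ≤ (((Ioc a b).filter fun c => r ∣ c - v).card : ℝ) := by
  have h1 : (Ioc a b).filter (fun c => r ∣ c - v) = (Ioc a b).filter fun c => c ≡ v [ZMOD r] := by
    apply filter_congr
    intro c _
    rw [Int.modEq_comm, Int.modEq_iff_dvd]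
  have h2 := Int.Ioc_filter_modEq_card a b hr v
  have h3 : ((b : ℚ) - a) / r - 1 ≤
      ((max (⌊((b : ℚ) - v) / r⌋ - ⌊((a : ℚ) - v) / r⌋) 0 : ℤ) : ℚ) := by
    rw [Int.cast_max]
    apply le_max_of_le_left
    push_cast
    have h4 := Int.floor_le (((a : ℚ) - v) / r)
    have h5 := Int.lt_floor_add_one (((b : ℚ) - v) / r)
    have h6 : ((b : ℚ) - v) / r - ((a : ℚ) - v) / r = (b - a) / r := by ring
    linarith
  have h4 : ((b : ℚ) - a) / r - 1 ≤
      ((((Ioc a b).filter fun c => c ≡ v [ZMOD r]).card : ℤ) : ℚ) := by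
    rw [h2]
    exact h3
  rw [h1]
  have h5 : ((((b : ℚ) - a) / r - 1 : ℚ) : ℝ) ≤
      ((((Ioc a b).filter fun c => c ≡ v [ZMOD r]).card : ℚ) : ℝ) := by
    rw [Rat.cast_le]
    exact_mod_cast h4
  push_cast at h5
  exact h5

end Stoll308.BE
end

section
set_option autoImplicit false

/-!
A positive proportion of the curves is everywhere locally soluble.
-/

namespace Stoll308.BG.Els

open Finset

/-- The interval of the coefficient of weight `j`. -/
noncomputable def itv (X j : ℕ) : Finset ℤ := Icc (-(X : ℤ) ^ j) ((X : ℤ) ^ j)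

lemma card_itv (X j : ℕ) : (((itv X j).card : ℕ) : ℝ) = 2 * X ^ j + 1 := by
  unfold itv
  rw [Int.card_Icc]
  have : ((X : ℤ) ^ j + 1 - -(X : ℤ) ^ j).toNat = 2 * X ^ j + 1 := by
    have h : ((X : ℤ) ^ j + 1 - -(X : ℤ) ^ j) = ((2 * X ^ j + 1 : ℕ) : ℤ) := by push_cast; ring
    rw [h, Int.toNat_natCast]
  rw [this]
  push_cast
  ring

/-- The constant coefficients. -/
noncomputable def dset (n M X : ℕ) : Finset ℤ := (Ioc 0 ((X : ℤ) ^ n)).filter fun d => (M : ℤ) ∣ d - 1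

lemma card_dset_ge {M : ℕ} (hM : 0 < M) (n X : ℕ) :
    (X : ℝ) ^ n / M - 1 ≤ ((dset n M X).card : ℝ) := by
  have h1 := BE.ap_card_ge 0 ((X : ℤ) ^ n) M 1 (by exact_mod_cast hM)
  push_cast at h1
  rw [sub_zero] at h1
  exact h1

/-- The family. -/
noncomputable def gset (n M X : ℕ) : Finset (Fin n → ℤ) :=
  Fintype.piFinset fun i : Fin n => if (i : ℕ) + 1 = n then dset n M X else itv X ((i : ℕ) + 1)

/-- The family of the first coefficients. -/
noncomputable def tset (n X : ℕ) : Finset (Fin n → ℤ) :=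
  Fintype.piFinset fun i : Fin n => if (i : ℕ) + 2 < n then itv X ((i : ℕ) + 1) else {0}

/-- The first coefficients. -/
def proj {n : ℕ} (b : Fin n → ℤ) : Fin n → ℤ := fun i => if (i : ℕ) + 2 < n then b i else 0

lemma card_gset (ν M X : ℕ) : (gset (ν + 2) M X).card =
    (tset (ν + 2) X).card * ((itv X (ν + 1)).card * (dset (ν + 2) M X).card) := by
  unfold gset tset
  rw [Fintype.card_piFinset, Fintype.card_piFinset, Fin.prod_univ_castSucc, Fin.prod_univ_castSucc,
    Fin.prod_univ_castSucc, Fin.prod_univ_castSucc]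
  simp only [Fin.val_castSucc, Fin.val_last]
  rw [if_neg (by omega), if_pos trivial, if_neg (by omega), if_neg (by omega), card_singleton,
    mul_one, mul_one, mul_assoc]
  congr 1
  refine prod_congr rfl fun i _ => ?_
  have hi := i.2
  rw [if_neg (by omega), if_pos (by omega)]

lemma prod_pow_succ {x : ℝ} (ν : ℕ) : ∏ i ∈ range ν, x ^ (i + 1) = x ^ (ν * (ν + 1) / 2) := by
  induction ν with
  | zero => simp
  | succ ν ih =>
    rw [prod_range_succ, ih, ← pow_add]
    congr 1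
    have : (ν + 1) * (ν + 1 + 1) = ν * (ν + 1) + 2 * (ν + 1) := by ring
    rw [this, Nat.add_mul_div_left _ _ two_pos]

lemma card_tset_ge (ν X : ℕ) : (X : ℝ) ^ (ν * (ν + 1) / 2) ≤ ((tset (ν + 2) X).card : ℝ) := by
  unfold tset
  rw [Fintype.card_piFinset, Fin.prod_univ_castSucc, Fin.prod_univ_castSucc]
  simp only [Fin.val_castSucc, Fin.val_last]
  rw [if_neg (by omega), if_neg (by omega), card_singleton, mul_one, mul_one]
  push_cast
  rw [← prod_pow_succ, ← Fin.prod_univ_eq_prod_range (fun i => (X : ℝ) ^ (i + 1)) ν]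
  apply prod_le_prod
  · intro i _
    positivity
  · intro i _
    have hi := i.2
    rw [if_pos (by omega), card_itv]
    have : (0 : ℝ) ≤ (X : ℝ) ^ ((i : ℕ) + 1) := by positivity
    linarith

lemma proj_mem {n M X : ℕ} {b : Fin n → ℤ} (hb : b ∈ gset n M X) : proj b ∈ tset n X := by
  unfold gset at hb
  unfold tset
  rw [Fintype.mem_piFinset] at hb ⊢
  intro i
  unfold proj
  have h1 := hb i
  split_ifs with hi
  · rwa [if_neg (by omega)] at h1
  · exact mem_singleton_self _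

lemma proj_eq {n : ℕ} {b b' : Fin n → ℤ} (h : proj b = proj b') (i : Fin n) (hi : (i : ℕ) + 2 < n) :
    b i = b' i := by
  have h1 := congrFun h i
  unfold proj at h1
  rwa [if_pos hi, if_pos hi] at h1

lemma card_le_fiber {β γ : Type*} [DecidableEq γ] (S : Finset β) (T : Finset γ) (f : β → γ)
    (hf : ∀ b ∈ S, f b ∈ T) (F : ℝ) (h : ∀ c ∈ T, ((S.filter fun b => f b = c).card : ℝ) ≤ F) :
    (S.card : ℝ) ≤ T.card * F := by
  rw [card_eq_sum_card_fiberwise hf]
  push_cast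
  refine (sum_le_sum h).trans ?_
  rw [sum_const, nsmul_eq_mul]

open Classical in
/-- The bad vectors at `p`. -/
noncomputable def pbad (k n : ℕ) (α : ℤ) (M X p : ℕ) : Finset (Fin n → ℤ) :=
  (gset n M X).filter fun b => SqRed k α b p

open Classical in
lemma card_pbad_le {k n : ℕ} (hk : 1 ≤ k) (hn : 3 ≤ n) {α : ℤ} {M X p : ℕ} (hM : 0 < M)
    (hp : p.Prime) (hp2 : p ≠ 2) (hα : ¬ (p : ℤ) ∣ α) (hpM : ¬ p ∣ M) :
    ((pbad k n α M X p).card : ℝ) ≤ ((tset n X).card : ℝ) *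
      ((2 * X ^ (n - 1) / p + 2) * (X ^ n / (p * M) + 1)) := by
  have hp0 : (0 : ℝ) < p := by exact_mod_cast hp.pos
  have hp1 : (1 : ℝ) ≤ p := by exact_mod_cast hp.one_lt.le
  have hM0 : (0 : ℝ) < M := by exact_mod_cast hM
  have := Fact.mk hp
  have hαp : (α : ZMod p) ≠ 0 := by
    intro h0
    rw [ZMod.intCast_zmod_eq_zero_iff_dvd] at h0
    exact hα h0
  apply card_le_fiber _ _ proj
  · intro b hb
    unfold pbad at hb
    rw [mem_filter] at hb
    exact proj_mem hb.1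
  · intro c _
    rcases ((pbad k n α M X p).filter fun b => proj b = c).eq_empty_or_nonempty with h | ⟨b₀, hb₀⟩
    · rw [h]
      simp only [card_empty, Nat.cast_zero]
      positivity
    · unfold pbad at hb₀
      rw [mem_filter, mem_filter, gset, Fintype.mem_piFinset] at hb₀
      obtain ⟨⟨hb₀, hbad₀⟩, hc₀⟩ := hb₀
      set u : Fin n := ⟨n - 2, by omega⟩ with hu
      set v : Fin n := ⟨n - 1, by omega⟩ with hv
      have hcop : IsCoprime (p : ℤ) (M : ℤ) := by
        rw [Nat.isCoprime_iff_coprime]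
        exact (Nat.Prime.coprime_iff_not_dvd hp).2 hpM
      have hle : ((pbad k n α M X p).filter fun b => proj b = c).card ≤
          (((Ioc (-(X : ℤ) ^ (n - 1) - 1) ((X : ℤ) ^ (n - 1))).filter
              fun x => (p : ℤ) ∣ x - b₀ u) ×ˢ
            ((Ioc 0 ((X : ℤ) ^ n)).filter fun d => ((p * M : ℕ) : ℤ) ∣ d - b₀ v)).card := by
        apply card_le_card_of_injOn (fun b => (b u, b v))
        · intro b hb
          rw [mem_coe, pbad, mem_filter, mem_filter, gset, Fintype.mem_piFinset] at hb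
          obtain ⟨⟨hb, hbad⟩, hc⟩ := hb
          have huniq := bad_uniq hk hn hp2 hαp hbad hbad₀
            (fun i hi => proj_eq (hc.trans hc₀.symm) i hi)
          have h1 := hb u
          have h2 := hb v
          have h3 := hb₀ v
          rw [if_neg (by simp only [hu]; omega), itv, mem_Icc] at h1
          rw [if_pos (by simp only [hv]; omega), dset, mem_filter] at h2 h3
          have hun : (u : ℕ) + 1 = n - 1 := by simp only [hu]; omega
          rw [hun] at h1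
          rw [mem_coe, mem_product]
          constructor
          · rw [mem_filter, mem_Ioc]
            exact ⟨⟨by linarith [h1.1], h1.2⟩, huniq u⟩
          · rw [mem_filter]
            refine ⟨h2.1, ?_⟩
            push_cast
            apply hcop.mul_dvd (huniq v)
            have h4 := dvd_sub h2.2 h3.2
            have h5 : b v - 1 - (b₀ v - 1) = b v - b₀ v := by ring
            rwa [h5] at h4
        · intro b hb b' hb' hbb
          rw [mem_coe, mem_filter] at hb hb'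
          simp only [Prod.mk.injEq] at hbb
          funext i
          by_cases hi : (i : ℕ) + 2 < n
          · exact proj_eq (hb.2.trans hb'.2.symm) i hi
          · by_cases hi2 : (i : ℕ) = n - 2
            · have : i = u := Fin.ext hi2
              rw [this]
              exact hbb.1
            · have : i = v := Fin.ext (by simp only [hv]; have := i.2; omega)
              rw [this]
              exact hbb.2
      rw [card_product] at hle
      have hX0 : (0 : ℤ) ≤ (X : ℤ) ^ (n - 1) := by positivity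
      have h1 := BE.ap_card_le (-(X : ℤ) ^ (n - 1) - 1) ((X : ℤ) ^ (n - 1)) p (b₀ u)
        (by exact_mod_cast hp.pos) (by linarith)
      have h2 := BE.ap_card_le 0 ((X : ℤ) ^ n) ((p * M : ℕ) : ℤ) (b₀ v)
        (by exact_mod_cast Nat.mul_pos hp.pos hM) (by positivity)
      have hle' : (((pbad k n α M X p).filter fun b => proj b = c).card : ℝ) ≤
          (((Ioc (-(X : ℤ) ^ (n - 1) - 1) ((X : ℤ) ^ (n - 1))).filter
              fun x => (p : ℤ) ∣ x - b₀ u).card : ℝ) *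
            (((Ioc 0 ((X : ℤ) ^ n)).filter fun d => ((p * M : ℕ) : ℤ) ∣ d - b₀ v).card : ℝ) := by
        exact_mod_cast hle
      refine hle'.trans ?_
      push_cast at h1 h2 ⊢
      rw [sub_zero] at h2
      apply mul_le_mul _ h2 (Nat.cast_nonneg _) (by positivity)
      refine h1.trans ?_
      have h3 : ((X : ℝ) ^ (n - 1) - (-(X : ℝ) ^ (n - 1) - 1)) / p =
        2 * X ^ (n - 1) / p + 1 / p := by ring
      have h4 : 1 / (p : ℝ) ≤ 1 := by
        rw [div_le_one hp0]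
        exact hp1
      linarith

open Classical in
/-- The vectors with `NN = 0`. -/
noncomputable def eset (n : ℕ) (α : ℤ) (M X : ℕ) : Finset (Fin n → ℤ) :=
  (gset n M X).filter fun b => NN α b = 0

open Classical in
lemma card_eset_le {n : ℕ} (hn : 3 ≤ n) {α : ℤ} (hα : α ≠ 0) (M X : ℕ) :
    ((eset n α M X).card : ℝ) ≤ ((tset n X).card : ℝ) * (2 * X ^ (n - 1) + 1) := by
  apply card_le_fiber _ _ proj
  · intro b hb
    unfold eset at hb
    rw [mem_filter] at hb
    exact proj_mem hb.1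
  · intro c _
    set u : Fin n := ⟨n - 2, by omega⟩ with hu
    rw [← card_itv X (n - 1)]
    have hle : ((eset n α M X).filter fun b => proj b = c).card ≤ (itv X (n - 1)).card := by
      apply card_le_card_of_injOn (fun b => b u)
      · intro b hb
        rw [mem_coe, eset, mem_filter, mem_filter, gset, Fintype.mem_piFinset] at hb
        have h1 := hb.1.1 u
        rw [if_neg (by simp only [hu]; omega)] at h1
        have hun : (u : ℕ) + 1 = n - 1 := by simp only [hu]; omega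
        rw [hun] at h1
        exact h1
      · intro b hb b' hb' hbb
        rw [mem_coe, eset, mem_filter, mem_filter] at hb hb'
        simp only at hbb
        apply NN_inj (by omega) hα hb.1.2 hb'.1.2
        intro i hi
        by_cases hi2 : (i : ℕ) + 2 < n
        · exact proj_eq (hb.2.trans hb'.2.symm) i hi2
        · have : i = u := Fin.ext (by simp only [hu]; omega)
          rw [this]
          exact hbb
    exact_mod_cast hle

lemma sum_pbad_le {k n : ℕ} (hk : 1 ≤ k) (hn : 3 ≤ n) {α : ℤ} {M X Q A : ℕ} (hM : 0 < M)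
    (hX : 1 ≤ X) (hQ : 4 ≤ Q) (hA : 1 ≤ A) (hQX : Q ≤ A * X ^ n)
    (hQM : ∀ p : ℕ, p.Prime → Q < p → ¬ p ∣ M ∧ ¬ (p : ℤ) ∣ α) :
    ∑ p ∈ (Ioc Q (A * X ^ n)).filter Nat.Prime, ((pbad k n α M X p).card : ℝ) ≤
      ((tset n X).card : ℝ) *
        (X ^ (2 * n - 1) / (2 * M) + 6 * A * (A + n + 1) * X ^ (2 * n - 2)) := by
  have hX1 : (1 : ℝ) ≤ X := by exact_mod_cast hX
  have hM0 : (0 : ℝ) < M := by exact_mod_cast hM
  have hM1 : (1 : ℝ) ≤ M := by exact_mod_cast hM
  have hA1 : (1 : ℝ) ≤ A := by exact_mod_cast hA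
  have hQ4 : (4 : ℝ) ≤ Q := by exact_mod_cast hQ
  have hT : (0 : ℝ) ≤ ((tset n X).card : ℝ) := Nat.cast_nonneg _
  have h1 : ∑ p ∈ (Ioc Q (A * X ^ n)).filter Nat.Prime, ((pbad k n α M X p).card : ℝ) ≤
      ∑ p ∈ (Ioc Q (A * X ^ n)).filter Nat.Prime, ((tset n X).card : ℝ) *
        (2 * X ^ (2 * n - 1) / M * ((p : ℝ) ^ 2)⁻¹ + 6 * A * X ^ n * (p : ℝ)⁻¹) := by
    apply sum_le_sum
    intro p hp
    rw [mem_filter, mem_Ioc] at hp
    have hp0 : (0 : ℝ) < p := by exact_mod_cast hp.2.pos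
    have hpX : (p : ℝ) ≤ A * (X : ℝ) ^ n := by exact_mod_cast hp.1.2
    refine (card_pbad_le hk hn hM hp.2 (by omega) (hQM p hp.2 hp.1.1).2
      (hQM p hp.2 hp.1.1).1).trans ?_
    apply mul_le_mul_of_nonneg_left _ hT
    have e0 : (X : ℝ) ^ (n - 1) * X ^ n = X ^ (2 * n - 1) := by
      rw [← pow_add]
      congr 1
      omega
    calc (2 * (X : ℝ) ^ (n - 1) / p + 2) * (X ^ n / (p * M) + 1)
        = 2 * (X ^ (n - 1) * X ^ n) / M * ((p : ℝ) ^ 2)⁻¹ + 2 * X ^ (n - 1) * (p : ℝ)⁻¹ +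
          2 * (X ^ n * (p : ℝ)⁻¹) * (M : ℝ)⁻¹ + 2 := by
          field_simp
          ring
      _ = 2 * X ^ (2 * n - 1) / M * ((p : ℝ) ^ 2)⁻¹ + 2 * X ^ (n - 1) * (p : ℝ)⁻¹ +
          2 * (X ^ n * (p : ℝ)⁻¹) * (M : ℝ)⁻¹ + 2 := by rw [e0]
      _ ≤ 2 * X ^ (2 * n - 1) / M * ((p : ℝ) ^ 2)⁻¹ + 2 * X ^ n * (p : ℝ)⁻¹ +
          2 * (X ^ n * (p : ℝ)⁻¹) * 1 + 2 * (A * X ^ n * (p : ℝ)⁻¹) := by
          have e1 : (X : ℝ) ^ (n - 1) ≤ X ^ n := pow_le_pow_right₀ hX1 (by omega)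
          have e2 : (M : ℝ)⁻¹ ≤ 1 := inv_le_one_of_one_le₀ hM1
          have e3 : (1 : ℝ) ≤ A * X ^ n * (p : ℝ)⁻¹ := by
            rw [← div_eq_mul_inv, le_div_iff₀ hp0, one_mul]
            exact hpX
          have e5 : 2 * (X : ℝ) ^ (n - 1) * (p : ℝ)⁻¹ ≤ 2 * X ^ n * (p : ℝ)⁻¹ := by gcongr
          have e6 : 2 * ((X : ℝ) ^ n * (p : ℝ)⁻¹) * (M : ℝ)⁻¹ ≤ 2 * (X ^ n * (p : ℝ)⁻¹) * 1 := by
            gcongr
          linarith
      _ ≤ 2 * X ^ (2 * n - 1) / M * ((p : ℝ) ^ 2)⁻¹ + 6 * A * X ^ n * (p : ℝ)⁻¹ := by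
          have e7 : (0 : ℝ) ≤ (X : ℝ) ^ n * (p : ℝ)⁻¹ := by positivity
          have e8 : 1 * ((X : ℝ) ^ n * (p : ℝ)⁻¹) ≤ A * ((X : ℝ) ^ n * (p : ℝ)⁻¹) := by gcongr
          linarith
  have h2 : ∑ p ∈ (Ioc Q (A * X ^ n)).filter Nat.Prime, ((tset n X).card : ℝ) *
        (2 * X ^ (2 * n - 1) / M * ((p : ℝ) ^ 2)⁻¹ + 6 * A * X ^ n * (p : ℝ)⁻¹) ≤
      ∑ p ∈ Ioc Q (A * X ^ n), ((tset n X).card : ℝ) *
        (2 * X ^ (2 * n - 1) / M * ((p : ℝ) ^ 2)⁻¹ + 6 * A * X ^ n * (p : ℝ)⁻¹) := by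
    apply sum_le_sum_of_subset_of_nonneg (filter_subset _ _)
    intro p _ _
    positivity
  have h3 : ∑ p ∈ Ioc Q (A * X ^ n), (((p : ℕ) : ℝ) ^ 2)⁻¹ ≤ 1 / 4 := by
    have h := sum_Ioc_inv_sq_le_sub (α := ℝ) (k := Q) (n := A * X ^ n) (by omega) hQX
    have h4 : (0 : ℝ) ≤ (((A * X ^ n : ℕ) : ℕ) : ℝ)⁻¹ := by positivity
    have h5 : (Q : ℝ)⁻¹ ≤ 1 / 4 := by
      rw [one_div]
      exact inv_anti₀ (by norm_num) hQ4
    linarith
  have h4 : ∑ p ∈ Ioc Q (A * X ^ n), ((p : ℕ) : ℝ)⁻¹ ≤ (A + n + 1) * X := by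
    have h5 : ∑ p ∈ Ioc Q (A * X ^ n), ((p : ℕ) : ℝ)⁻¹ ≤
        ∑ p ∈ Icc 1 (A * X ^ n), ((p : ℕ) : ℝ)⁻¹ := by
      apply sum_le_sum_of_subset_of_nonneg
      · intro p hp
        rw [mem_Ioc] at hp
        rw [mem_Icc]
        omega
      · intro p _ _
        positivity
    have h6 : ((harmonic (A * X ^ n) : ℚ) : ℝ) = ∑ p ∈ Icc 1 (A * X ^ n), ((p : ℕ) : ℝ)⁻¹ := by
      rw [harmonic_eq_sum_Icc]
      push_cast
      rfl
    have h7 := harmonic_le_one_add_log (A * X ^ n)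
    rw [h6] at h7
    have h8 : Real.log ((A * X ^ n : ℕ) : ℝ) = Real.log A + n * Real.log X := by
      push_cast
      rw [Real.log_mul (by positivity) (by positivity), Real.log_pow]
    rw [h8] at h7
    have h9 := Real.log_le_sub_one_of_pos (show (0 : ℝ) < X by linarith)
    have h10 := Real.log_le_sub_one_of_pos (show (0 : ℝ) < A by linarith)
    have hn0 : (0 : ℝ) ≤ n := Nat.cast_nonneg _
    have h11 : (n : ℝ) * Real.log X ≤ n * (X - 1) := mul_le_mul_of_nonneg_left h9 hn0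
    have h12 : (A : ℝ) * 1 ≤ A * X := by gcongr
    nlinarith
  refine h1.trans (h2.trans ?_)
  rw [← mul_sum, sum_add_distrib, ← mul_sum, ← mul_sum]
  apply mul_le_mul_of_nonneg_left _ hT
  calc 2 * (X : ℝ) ^ (2 * n - 1) / M * ∑ p ∈ Ioc Q (A * X ^ n), (((p : ℕ) : ℝ) ^ 2)⁻¹ +
        6 * A * X ^ n * ∑ p ∈ Ioc Q (A * X ^ n), ((p : ℕ) : ℝ)⁻¹
      ≤ 2 * X ^ (2 * n - 1) / M * (1 / 4) + 6 * A * X ^ n * ((A + n + 1) * X) := by gcongr
    _ = X ^ (2 * n - 1) / (2 * M) + 6 * A * (A + n + 1) * X ^ (n + 1) := by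
        rw [pow_succ]
        field_simp
        ring
    _ ≤ X ^ (2 * n - 1) / (2 * M) + 6 * A * (A + n + 1) * X ^ (2 * n - 2) := by
        have : (X : ℝ) ^ (n + 1) ≤ X ^ (2 * n - 2) := pow_le_pow_right₀ hX1 (by omega)
        gcongr

end Stoll308.BG.Els

namespace Stoll308.BG

open Finset

theorem els_many (n : ℕ) (hn : 3 ≤ n) (α : ℤ) (hα : α ≠ 0) (k : ℕ) (hk : 1 ≤ k) :
    ∃ c₀ : ℝ, 0 < c₀ ∧ ∃ X₀ : ℕ, ∀ X : ℕ, X₀ ≤ X →
      c₀ * X ^ (n * (n + 1) / 2) ≤ (cnt n (ELS k α) X : ℝ) := by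
  classical
  obtain ⟨P₀, hP₀⟩ := point_large n (by omega) α hα k hk
  obtain ⟨A, hA1, hA⟩ := Els.NN_bound n (by omega) α
  set Q := P₀ + α.natAbs + 4 with hQ
  set M := 8 * Q.factorial with hMdef
  have hM : 0 < M := Nat.mul_pos (by norm_num) (Nat.factorial_pos _)
  have hM0 : (0 : ℝ) < M := by exact_mod_cast hM
  have hQM : ∀ p : ℕ, p.Prime → Q < p → ¬ p ∣ M ∧ ¬ (p : ℤ) ∣ α := by
    intro p hp hQp
    constructor
    · intro h
      rw [hMdef] at h
      rcases (hp.dvd_mul).1 h with h | h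
      · have h2 : p ∣ 2 ^ 3 := by norm_num; exact h
        have := Nat.le_of_dvd (by norm_num) (hp.dvd_of_dvd_pow h2)
        omega
      · have := (hp.dvd_factorial).1 h
        omega
    · intro h
      have h1 := Int.natAbs_dvd_natAbs.2 h
      rw [Int.natAbs_natCast] at h1
      have h2 := Nat.le_of_dvd (Int.natAbs_pos.2 hα) h1
      omega
  obtain ⟨ν, rfl⟩ : ∃ ν, n = ν + 2 := ⟨n - 2, by omega⟩
  set n := ν + 2 with hnν
  set B : ℕ := 6 * A * (A + n + 1) with hB
  refine ⟨1 / (2 * M), by positivity, 2 * M * (B + 5) + Q, ?_⟩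
  intro X hX
  have hX1 : 1 ≤ X := by
    have : 1 ≤ M * (B + 5) := Nat.mul_pos hM (by omega)
    nlinarith
  have hX1' : (1 : ℝ) ≤ X := by exact_mod_cast hX1
  have hQX : Q ≤ A * X ^ n := by
    calc Q ≤ X := by omega
      _ ≤ X ^ n := Nat.le_self_pow (by omega) X
      _ ≤ A * X ^ n := Nat.le_mul_of_pos_left _ hA1
  have hXM : 2 * M * ((B : ℝ) + 5) ≤ X := by
    have : 2 * M * (B + 5) ≤ X := by omega
    exact_mod_cast this
  set u : Fin n := ⟨n - 1, by omega⟩ with hu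
  have hu1 : (u : ℕ) + 1 = n := by simp only [hu]; omega
  set bad := ((Ioc Q (A * X ^ n)).filter Nat.Prime).biUnion fun p => Els.pbad k n α M X p with hbad
  have hbox : ∀ b ∈ Els.gset n M X, (∀ i : Fin n, |b i| ≤ (X : ℤ) ^ ((i : ℕ) + 1)) ∧ 0 < b u ∧
      (M : ℤ) ∣ b u - 1 := by
    intro b hb
    rw [Els.gset, Fintype.mem_piFinset] at hb
    refine ⟨?_, ?_⟩
    · intro i
      have h1 := hb i
      split_ifs at h1 with hi
      · rw [Els.dset, mem_filter, mem_Ioc] at h1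
        rw [hi, abs_of_pos h1.1.1]
        exact h1.1.2
      · rw [Els.itv, mem_Icc] at h1
        exact abs_le.2 h1
    · have h1 := hb u
      rw [if_pos hu1, Els.dset, mem_filter, mem_Ioc] at h1
      exact ⟨h1.1.1, h1.2⟩
  have hsub : Els.gset n M X \ (bad ∪ Els.eset n α M X) ⊆
      ((Fintype.piFinset fun i : Fin n =>
        Icc (-(X : ℤ) ^ ((i : ℕ) + 1)) ((X : ℤ) ^ ((i : ℕ) + 1))).filter (ELS k α)) := by
    intro b hb
    rw [mem_sdiff, mem_union, not_or] at hb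
    obtain ⟨hb1, hb2, hb3⟩ := hb
    obtain ⟨h1, h2, h3⟩ := hbox b hb1
    rw [mem_filter, Fintype.mem_piFinset]
    refine ⟨fun i => mem_Icc.2 (abs_le.1 (h1 i)), ?_, point_real α b k hk u hu1 h2⟩
    intro p hp
    have hpp : p.Prime := hp.out
    by_cases hpQ : p ≤ Q
    · apply point_small α b k hk u hu1 p
      refine dvd_trans ?_ h3
      rw [Int.natCast_dvd_natCast, hMdef]
      exact Nat.mul_dvd_mul_left 8 (Nat.dvd_factorial hpp.pos hpQ)
    · push Not at hpQ
      apply hP₀ p (by omega)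
      intro hcon
      apply hb2
      have hα0 : (α : ZMod p) ≠ 0 := by
        intro h0
        rw [ZMod.intCast_zmod_eq_zero_iff_dvd] at h0
        exact (hQM p hpp hpQ).2 h0
      have hdvd := Els.bad_dvd hk (by omega) (by omega) hα0 hcon
      have hNN : Els.NN α b ≠ 0 := by
        intro h0
        apply hb3
        rw [Els.eset, mem_filter]
        exact ⟨hb1, h0⟩
      rw [hbad, mem_biUnion]
      refine ⟨p, ?_, ?_⟩
      · rw [mem_filter, mem_Ioc]
        refine ⟨⟨hpQ, ?_⟩, hpp⟩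
        have h4 := Int.natAbs_dvd_natAbs.2 hdvd
        rw [Int.natAbs_natCast] at h4
        exact (Nat.le_of_dvd (Int.natAbs_pos.2 hNN) h4).trans (hA X hX1 b h1)
      · rw [Els.pbad, mem_filter]
        exact ⟨hb1, hcon⟩
  have hcnt : ((Els.gset n M X \ (bad ∪ Els.eset n α M X)).card : ℝ) ≤
      (cnt n (ELS k α) X : ℝ) := by
    unfold cnt
    exact_mod_cast card_le_card hsub
  set T : ℝ := ((Els.tset n X).card : ℝ) with hT
  have hT0 : 0 ≤ T := Nat.cast_nonneg _
  have hTge : (X : ℝ) ^ (ν * (ν + 1) / 2) ≤ T := Els.card_tset_ge ν X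
  have hb1 : T * (2 * X ^ (n - 1) * (X ^ n / M - 1)) ≤ ((Els.gset n M X).card : ℝ) := by
    rw [Els.card_gset]
    push_cast
    rw [Els.card_itv]
    have h1 := Els.card_dset_ge hM n X
    have h0 : (0 : ℝ) ≤ ((Els.dset n M X).card : ℝ) := Nat.cast_nonneg _
    apply mul_le_mul_of_nonneg_left _ hT0
    calc 2 * (X : ℝ) ^ (n - 1) * (X ^ n / M - 1)
        ≤ 2 * X ^ (n - 1) * ((Els.dset n M X).card : ℝ) := by gcongr
      _ ≤ (2 * X ^ (ν + 1) + 1) * ((Els.dset n M X).card : ℝ) := by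
          apply mul_le_mul_of_nonneg_right _ h0
          rw [show n - 1 = ν + 1 by omega]
          linarith
  have hb2 : (bad.card : ℝ) ≤ T * (X ^ (2 * n - 1) / (2 * M) + B * X ^ (2 * n - 2)) := by
    have h1 := card_biUnion_le (s := (Ioc Q (A * X ^ n)).filter Nat.Prime)
      (t := fun p => Els.pbad k n α M X p)
    have h2 : (bad.card : ℝ) ≤ ∑ p ∈ (Ioc Q (A * X ^ n)).filter Nat.Prime,
        ((Els.pbad k n α M X p).card : ℝ) := by exact_mod_cast h1
    refine h2.trans ((Els.sum_pbad_le hk hn hM hX1 (by omega) hA1 hQX hQM).trans (le_of_eq ?_))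
    rw [hB]
    push_cast
    ring
  have hb4 := Els.card_eset_le (n := n) hn hα M X
  have hb3 : ((Els.gset n M X).card : ℝ) ≤
      ((Els.gset n M X \ (bad ∪ Els.eset n α M X)).card : ℝ) +
        ((bad.card : ℝ) + ((Els.eset n α M X).card : ℝ)) := by
    have h1 : Els.gset n M X ⊆ (Els.gset n M X \ (bad ∪ Els.eset n α M X)) ∪
        (bad ∪ Els.eset n α M X) := by
      intro t ht
      rw [mem_union, mem_sdiff]
      by_cases h : t ∈ (bad ∪ Els.eset n α M X)
      · exact Or.inr h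
      · exact Or.inl ⟨ht, h⟩
    have h2 := (card_le_card h1).trans ((card_union_le _ _).trans
      (Nat.add_le_add_left (card_union_le _ _) _))
    exact_mod_cast h2
  have hp1 : (X : ℝ) ^ (n - 1) * X ^ n = X ^ (2 * n - 1) := by
    rw [← pow_add]
    congr 1
    omega
  have hp2 : (X : ℝ) ^ (n - 1) ≤ X ^ (2 * n - 2) := pow_le_pow_right₀ hX1' (by omega)
  have hp3 : (X : ℝ) ^ (2 * n - 2) * X = X ^ (2 * n - 1) := by
    rw [← pow_succ, show 2 * n - 2 + 1 = 2 * n - 1 by omega]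
  have hp4 : (1 : ℝ) ≤ X ^ (2 * n - 2) := one_le_pow₀ hX1'
  -- the main inequality
  have hmain : 1 / (2 * (M : ℝ)) * X ^ (2 * n - 1) ≤
      2 * X ^ (n - 1) * (X ^ n / M - 1) - (X ^ (2 * n - 1) / (2 * M) + B * X ^ (2 * n - 2)) -
        (2 * X ^ (n - 1) + 1) := by
    have e1 : 2 * (X : ℝ) ^ (n - 1) * (X ^ n / M - 1) =
        2 * (X ^ (2 * n - 1) / M) - 2 * X ^ (n - 1) := by
      rw [← hp1]
      ring
    have e2 : (X : ℝ) ^ (2 * n - 1) / (2 * M) = (1 / 2) * (X ^ (2 * n - 1) / M) := by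
      field_simp
    have e3 : 1 / (2 * (M : ℝ)) * X ^ (2 * n - 1) = (1 / 2) * (X ^ (2 * n - 1) / M) := by
      field_simp
    have e4 : ((B : ℝ) + 5) * X ^ (2 * n - 2) ≤ X ^ (2 * n - 1) / M := by
      rw [le_div_iff₀ hM0, ← hp3]
      have h5 : ((B : ℝ) + 5) * M ≤ X := by nlinarith
      calc ((B : ℝ) + 5) * X ^ (2 * n - 2) * M = X ^ (2 * n - 2) * (((B : ℝ) + 5) * M) := by ring
        _ ≤ X ^ (2 * n - 2) * X := by gcongr
    rw [e1, e2, e3]
    linarith
  have hfin : T * (1 / (2 * (M : ℝ)) * X ^ (2 * n - 1)) ≤ (cnt n (ELS k α) X : ℝ) := by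
    have h1 := mul_le_mul_of_nonneg_left hmain hT0
    have h2 : T * (2 * X ^ (n - 1) * (X ^ n / M - 1) -
        (X ^ (2 * n - 1) / (2 * M) + B * X ^ (2 * n - 2)) - (2 * X ^ (n - 1) + 1)) =
        T * (2 * X ^ (n - 1) * (X ^ n / M - 1)) -
        T * (X ^ (2 * n - 1) / (2 * M) + B * X ^ (2 * n - 2)) - T * (2 * X ^ (n - 1) + 1) := by ring
    rw [h2] at h1
    linarith
  refine le_trans ?_ hfin
  have hexp : n * (n + 1) / 2 = ν * (ν + 1) / 2 + (2 * n - 1) := by
    have : n * (n + 1) = ν * (ν + 1) + 2 * (2 * n - 1) := by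
      rw [hnν, show 2 * (ν + 2) - 1 = 2 * ν + 3 by omega]
      ring
    rw [this, Nat.add_mul_div_left _ _ two_pos]
  rw [hexp, pow_add]
  calc 1 / (2 * (M : ℝ)) * (X ^ (ν * (ν + 1) / 2) * X ^ (2 * n - 1))
      = X ^ (ν * (ν + 1) / 2) * (1 / (2 * (M : ℝ)) * X ^ (2 * n - 1)) := by ring
    _ ≤ T * (1 / (2 * (M : ℝ)) * X ^ (2 * n - 1)) := by gcongr

end Stoll308.BG
end

section
set_option autoImplicit false

/-!
Composition with a polynomial: `F(ψ)` is a constant times a square only if `F` is.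
Local points of `y² = f(ψ(x)²)`.
-/

namespace Stoll308.BG.PEls

open Polynomial Finset PadicInt

section closed

variable {K : Type*} [Field K] [IsAlgClosed K]

lemma unit_sq {a d : K[X]} (h : Associated (d ^ 2) a) : ∃ e : K[X], a = e ^ 2 := by
  obtain ⟨u, hu⟩ := h
  obtain ⟨c, hc, hcu⟩ := Polynomial.isUnit_iff.1 u.isUnit
  obtain ⟨z, hz⟩ := IsAlgClosed.exists_pow_nat_eq c two_pos
  refine ⟨d * C z, ?_⟩
  rw [← hu, ← hcu, mul_pow, ← C_pow, hz]

omit [IsAlgClosed K] in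
lemma natDegree_le_of_sq_sub {ψ a b : K[X]} {w v : K} (h2 : (2 : K) ≠ 0) (hwv : w ≠ v)
    (ha : ψ - C w = a ^ 2) (hb : ψ - C v = b ^ 2) : ψ.natDegree = 0 := by
  have h1 : (a - b) * (a + b) = C (v - w) := by
    have : a ^ 2 - b ^ 2 = C (v - w) := by
      rw [← ha, ← hb, C_sub]
      ring
    rw [← this]
    ring
  have hu : IsUnit (C (v - w)) := isUnit_C.2 (isUnit_iff_ne_zero.2 (sub_ne_zero.2 hwv.symm))
  rw [← h1] at hu
  have hu1 := natDegree_eq_zero_of_isUnit (isUnit_of_mul_isUnit_left hu)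
  have hu2 := natDegree_eq_zero_of_isUnit (isUnit_of_mul_isUnit_right hu)
  have h3 : (2 * a).natDegree = 0 := by
    have e : 2 * a = (a - b) + (a + b) := by ring
    have := natDegree_add_le (a - b) (a + b)
    rw [hu1, hu2, ← e] at this
    simpa using this
  have h4 : a.natDegree = 0 := by
    have e : (2 : K[X]) * a = C 2 * a := by
      rw [C_ofNat]
    rw [e, natDegree_C_mul h2] at h3
    exact h3
  have h5 : ψ = a ^ 2 + C w := by rw [← ha]; ring
  rw [h5, natDegree_add_C, natDegree_pow, h4]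

/-- If `F(ψ)` is a constant times a square and `deg F` is even, `F` is a constant times a
square. -/
lemma comp_sq (h2 : (2 : K) ≠ 0) {F ψ s : K[X]} {c : K} (hF : F ≠ 0) (hev : Even F.natDegree)
    (hψ : 1 ≤ ψ.natDegree) (h : F.comp ψ = C c * s ^ 2) : ∃ (c' : K) (t : K[X]), F = C c' * t ^ 2 := by
  obtain ⟨g, t, hsf, hFg⟩ := BE.exists_squarefree_part F hF
  have hg0 : g ≠ 0 := by
    rintro rfl
    rw [zero_mul] at hFg
    exact hF hFg
  have ht0 : t ≠ 0 := by
    rintro rfl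
    rw [zero_pow two_ne_zero, mul_zero] at hFg
    exact hF hFg
  have hgev : Even g.natDegree := by
    have h1 : F.natDegree = g.natDegree + 2 * t.natDegree := by
      rw [hFg, natDegree_mul hg0 (pow_ne_zero _ ht0), natDegree_pow]
    rw [h1] at hev
    exact (Nat.even_add.1 hev).2 ⟨t.natDegree, by ring⟩
  by_cases hgd : g.natDegree = 0
  · obtain ⟨c', hc'⟩ := natDegree_eq_zero.1 hgd
    exact ⟨c', t, by rw [hc']; exact hFg⟩
  exfalso
  -- two distinct roots
  have hψ0 : ∀ q : K[X], q ≠ 0 → q.comp ψ ≠ 0 := by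
    intro q hq h0
    rw [comp_eq_zero_iff] at h0
    rcases h0 with h0 | ⟨-, h0⟩
    · exact hq h0
    · rw [h0, natDegree_C] at hψ
      omega
  obtain ⟨r, hr⟩ : ∃ r : K[X], g.comp ψ = r ^ 2 := by
    obtain ⟨z, hz⟩ := IsAlgClosed.exists_pow_nat_eq c two_pos
    have h1 : g.comp ψ * (t.comp ψ) ^ 2 = (C z * s) ^ 2 := by
      rw [mul_pow, ← C_pow, hz, ← h, hFg, mul_comp, pow_comp]
    have h3 : t.comp ψ ∣ C z * s := by
      rw [← IsIntegrallyClosed.pow_dvd_pow_iff two_ne_zero, ← h1]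
      exact dvd_mul_left _ _
    obtain ⟨r, hr⟩ := h3
    refine ⟨r, ?_⟩
    rw [hr, mul_pow, mul_comm] at h1
    exact mul_left_cancel₀ (pow_ne_zero 2 (hψ0 t ht0)) h1
  have hdeg : g.degree ≠ 0 := by
    intro h0
    exact hgd (natDegree_eq_of_degree_eq_some h0)
  obtain ⟨w, hw⟩ := IsAlgClosed.exists_root g hdeg
  obtain ⟨g₁, hg₁⟩ := dvd_iff_isRoot.2 hw
  have hg₁0 : g₁ ≠ 0 := by
    rintro rfl
    rw [mul_zero] at hg₁
    exact hg0 hg₁
  have hg₁d : g₁.natDegree ≠ 0 := by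
    intro h0
    have h1 : g.natDegree = 1 + g₁.natDegree := by
      rw [hg₁, natDegree_mul (X_sub_C_ne_zero w) hg₁0, natDegree_X_sub_C]
    rw [h0] at h1
    rw [h1] at hgev
    exact absurd hgev (by decide)
  have hdeg₁ : g₁.degree ≠ 0 := by
    intro h0
    exact hg₁d (natDegree_eq_of_degree_eq_some h0)
  obtain ⟨v, hv⟩ := IsAlgClosed.exists_root g₁ hdeg₁
  obtain ⟨g₂, hg₂⟩ := dvd_iff_isRoot.2 hv
  -- `X - w` is coprime to the cofactor
  have hcop : ∀ (x : K) (q : K[X]), g = (X - C x) * q → IsCoprime (X - C x) q := by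
    intro x q hq
    rw [(irreducible_X_sub_C x).coprime_iff_not_dvd]
    intro hdvd
    obtain ⟨q', hq'⟩ := hdvd
    have := hsf (X - C x) ⟨q', by rw [hq, hq']; ring⟩
    exact (irreducible_X_sub_C x).not_isUnit this
  have hwv : w ≠ v := by
    intro h0
    have := hsf (X - C w) ⟨g₂, by rw [hg₁, hg₂, h0]; ring⟩
    exact (irreducible_X_sub_C w).not_isUnit this
  have hsq : ∀ (x : K) (q : K[X]), g = (X - C x) * q → ∃ a : K[X], ψ - C x = a ^ 2 := by
    intro x q hq
    have h1 := (hcop x q hq).map (compRingHom ψ)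
    simp only [coe_compRingHom_apply, sub_comp, X_comp, C_comp] at h1
    have h3 : (ψ - C x) * q.comp ψ = r ^ 2 := by
      rw [← hr, hq, mul_comp, sub_comp, X_comp, C_comp]
    obtain ⟨d, hd⟩ := exists_associated_pow_of_mul_eq_pow' h1 h3
    exact unit_sq hd
  obtain ⟨a, ha⟩ := hsq w g₁ hg₁
  obtain ⟨b, hb⟩ := hsq v ((X - C w) * g₂) (by rw [hg₁, hg₂]; ring)
  have := natDegree_le_of_sq_sub h2 hwv ha hb
  omega

end closed

section char

variable {K : Type*} [Field K] {p : ℕ} [CharP K p]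

lemma cast_eq_zero (m : ℤ) : (m : K) = 0 ↔ (p : ℤ) ∣ m := CharP.intCast_eq_zero_iff K p m

end char

section

variable {p : ℕ} [hp : Fact p.Prime]

end

end Stoll308.BG.PEls
end

section
set_option autoImplicit false

/-!
Full family: local points, and the relations between the coefficients at the bad primes.
-/

namespace Stoll308.BF.Els

open Polynomial Finset PadicInt BG

section gpol

variable {R : Type*} [CommRing R] {n : ℕ}

lemma gz_eval (a : Fin (n + 1) → R) (x : R) :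
    (gpol a).eval x = ∑ i : Fin (n + 1), a i * x ^ (n - (i : ℕ)) := by
  unfold gpol
  rw [eval_finsetSum]
  simp

lemma gz_coeff (a : Fin (n + 1) → R) {j : ℕ} (hj : j ≤ n) :
    (gpol a).coeff j = a ⟨n - j, by omega⟩ := by
  unfold gpol
  rw [finsetSum_coeff, sum_eq_single (⟨n - j, by omega⟩ : Fin (n + 1))]
  · rw [coeff_C_mul, coeff_X_pow, if_pos (by simp only; omega), mul_one]
  · intro i _ hi
    rw [coeff_C_mul, coeff_X_pow, if_neg, mul_zero]
    intro h
    apply hi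
    apply Fin.ext
    simp only
    have := i.2
    omega
  · intro h
    exact absurd (mem_univ _) h

lemma gz_coeff_gt (a : Fin (n + 1) → R) {j : ℕ} (hj : n < j) : (gpol a).coeff j = 0 := by
  unfold gpol
  rw [finsetSum_coeff, sum_eq_zero]
  intro i _
  rw [coeff_C_mul, coeff_X_pow, if_neg, mul_zero]
  omega

lemma gz_natDegree_le (a : Fin (n + 1) → R) : (gpol a).natDegree ≤ n := by
  rw [natDegree_le_iff_coeff_eq_zero]
  intro N hN
  exact gz_coeff_gt a hN

lemma gz_map {S : Type*} [CommRing S] (φ : R →+* S) (a : Fin (n + 1) → R) :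
    (gpol a).map φ = gpol (fun i => φ (a i)) := by
  unfold gpol
  simp [Polynomial.map_sum]

end gpol

/-- `f(T²)` is a constant times a square over `K`. -/
def SqK {n : ℕ} (K : Type*) [Field K] (a : Fin (n + 1) → ℤ) : Prop :=
  ∃ (c : K) (s : K[X]), expand K (2 * 1) (GZ K a) = C c * s ^ 2

/-- First relation: it fixes the coefficient `a_(n-1)`. -/
def RR {n : ℕ} (a : Fin (n + 1) → ℤ) : ℤ :=
  2 ^ (2 * n - 5) * a 0 ^ (n - 2) * BG.Els.bet a n -
    BG.Els.U (a 0) (fun i => BG.Els.bet a (i + 1)) (n / 2 - 1) *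
      BG.Els.U (a 0) (fun i => BG.Els.bet a (i + 1)) (n / 2)

/-- Second relation: it fixes the coefficient `a_n`. -/
def NN {n : ℕ} (a : Fin (n + 1) → ℤ) : ℤ :=
  (4 * a 0) ^ (n - 1) * BG.Els.bet a (n + 1) -
    (BG.Els.U (a 0) (fun i => BG.Els.bet a (i + 1)) (n / 2)) ^ 2

lemma bet_eq {n : ℕ} (a : Fin (n + 1) → ℤ) {i : ℕ} (hi : i ≤ n) :
    BG.Els.bet a (i + 1) = a ⟨i, by omega⟩ := by
  have := BG.Els.bet_eq a ⟨i, by omega⟩
  exact this

lemma rel_one {K : Type*} [Field K] {α : K} {m : ℕ} (hm : 2 ≤ m) {g t : K[X]} (ht : t.Monic)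
    (htd : t.natDegree = m) (hgt : g = C α * t ^ 2) :
    2 ^ (4 * m - 5) * α ^ (2 * m - 2) * g.coeff 1 =
      BG.Els.U α (fun i => g.coeff (2 * m - i)) (m - 1) *
        BG.Els.U α (fun i => g.coeff (2 * m - i)) m := by
  obtain ⟨j, rfl⟩ : ∃ j, m = j + 2 := ⟨m - 2, by omega⟩
  have e1 : BG.Els.U α (fun i => g.coeff (2 * (j + 2) - i)) (j + 2) = _ :=
    BG.Els.U_eq ht htd hgt (j + 1) le_rfl
  have e2 := BG.Els.U_eq ht htd hgt j (by omega)
  have e3 : g.coeff 1 = α * (2 * t.coeff 0 * t.coeff 1) := by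
    rw [hgt, coeff_C_mul, sq, coeff_mul, Finset.Nat.sum_antidiagonal_eq_sum_range_succ
      (fun x y => t.coeff x * t.coeff y), sum_range_succ, sum_range_one]
    simp only [Nat.sub_zero, Nat.sub_self]
    ring
  rw [show j + 2 - 1 = j + 1 by omega, e1, e2, e3, show j + 2 - (j + 1 + 1) = 0 by omega,
    show j + 2 - (j + 1) = 1 by omega, show 4 * (j + 2) - 5 = 4 * j + 3 by omega,
    show 2 * (j + 2) - 2 = 2 * j + 2 by omega]
  ring

section char

variable {K : Type*} [Field K] {p : ℕ} [CharP K p] {n : ℕ}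

lemma rel {m : ℕ} (hm : 2 ≤ m) (h2 : (2 : K) ≠ 0) {a : Fin (2 * m + 1) → ℤ}
    (ha : (a 0 : K) ≠ 0) (h : SqK K a) : (p : ℤ) ∣ RR a ∧ (p : ℤ) ∣ NN a := by
  obtain ⟨c, s, h⟩ := h
  set g : K[X] := GZ K a with hg
  have hg0 : g.coeff (2 * m) = a 0 := by
    rw [hg, gz_coeff _ le_rfl]
    congr 2
    apply Fin.ext
    simp
  have hd : g.natDegree = 2 * m := by
    apply natDegree_eq_of_le_of_coeff_ne_zero (gz_natDegree_le _)
    rw [hg0]
    exact ha
  obtain ⟨t, ht, htd, hgt⟩ := BG.Els.even_struct h2 le_rfl (by omega) hd h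
  have hl : g.leadingCoeff = a 0 := by rw [leadingCoeff, hd, hg0]
  rw [hl] at hgt
  have hU : ∀ j, j ≤ m → ((BG.Els.U (a 0) (fun i => BG.Els.bet a (i + 1)) j : ℤ) : K) =
      BG.Els.U (a 0 : K) (fun i => g.coeff (2 * m - i)) j := by
    intro j hj
    have h3 := BG.Els.U_map (Int.castRingHom K) (a 0) (fun i => BG.Els.bet a (i + 1)) j
    rw [eq_intCast, eq_intCast] at h3
    rw [h3]
    apply BG.Els.U_congr
    intro i hi1 him
    rw [hg, gz_coeff _ (by omega : 2 * m - i ≤ 2 * m), eq_intCast, bet_eq a (by omega : i ≤ 2 * m)]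
    congr 2
    apply Fin.ext
    simp only
    omega
  have hbet1 : ((BG.Els.bet a (2 * m) : ℤ) : K) = g.coeff 1 := by
    obtain ⟨j, hj⟩ : ∃ j, 2 * m = j + 1 := ⟨2 * m - 1, by omega⟩
    rw [hg, gz_coeff _ (by omega : 1 ≤ 2 * m)]
    have h3 := bet_eq a (by omega : 2 * m - 1 ≤ 2 * m)
    rw [show 2 * m - 1 + 1 = 2 * m by omega] at h3
    rw [h3]
  have hbet0 : ((BG.Els.bet a (2 * m + 1) : ℤ) : K) = g.coeff 0 := by
    rw [hg, gz_coeff _ (by omega : 0 ≤ 2 * m), bet_eq a le_rfl]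
    rfl
  have hdiv : 2 * m / 2 = m := Nat.mul_div_cancel_left m two_pos
  constructor
  · rw [← PEls.cast_eq_zero (K := K), RR, hdiv]
    push_cast
    rw [hU m le_rfl, hU (m - 1) (by omega), hbet1, sub_eq_zero]
    have h4 := rel_one hm ht htd hgt
    rw [show 2 * (2 * m) - 5 = 4 * m - 5 by omega]
    exact h4
  · rw [← PEls.cast_eq_zero (K := K), NN, hdiv]
    push_cast
    rw [hU m le_rfl, hbet0, sub_eq_zero]
    exact BG.Els.even_rel (by omega) ht htd hgt

lemma gz_degree {L : Type*} [Field L] (a : Fin (n + 1) → L) {m : ℕ} (hm : m ≤ n)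
    (h1 : ∀ i : Fin (n + 1), (i : ℕ) + m < n → a i = 0) (h2 : a ⟨n - m, by omega⟩ ≠ 0) :
    (gpol a).natDegree = m := by
  apply natDegree_eq_of_le_of_coeff_ne_zero
  · rw [natDegree_le_iff_coeff_eq_zero]
    intro N hN
    by_cases hNn : N ≤ n
    · rw [gz_coeff a hNn]
      apply h1
      simp only
      omega
    · exact gz_coeff_gt a (by omega)
  · rw [gz_coeff a hm]
    exact h2

lemma uniq (hn : 4 ≤ n) (h2 : (2 : K) ≠ 0) {a a' : Fin (n + 1) → ℤ} (h : SqK K a) (h' : SqK K a')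
    (haa : ∀ i : Fin (n + 1), (i : ℕ) + 1 < n → a i = a' i)
    (h01 : ¬ ((a 0 : K) = 0 ∧ (a 1 : K) = 0)) (i : Fin (n + 1)) : (p : ℤ) ∣ a i - a' i := by
  obtain ⟨c, s, h⟩ := h
  obtain ⟨c', s', h'⟩ := h'
  have v1 : ((1 : Fin (n + 1)) : ℕ) = 1 := by
    rw [Fin.val_one', Nat.mod_eq_of_lt (by omega)]
  have e0 : a' 0 = a 0 := (haa 0 (by simp only [Fin.val_zero]; omega)).symm
  have e1 : a' 1 = a 1 := (haa 1 (by rw [v1]; omega)).symm
  have hdiff : (GZ K a - GZ K a').natDegree ≤ 1 := by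
    rw [natDegree_le_iff_coeff_eq_zero]
    intro N hN
    rw [coeff_sub, sub_eq_zero]
    by_cases hNn : N ≤ n
    · rw [gz_coeff _ hNn, gz_coeff _ hNn, haa _ (by simp only; omega)]
    · rw [gz_coeff_gt _ (by omega), gz_coeff_gt _ (by omega)]
  have key : GZ K a = GZ K a' := by
    by_cases h0 : (a 0 : K) = 0
    · have h1 : (a 1 : K) ≠ 0 := fun h1 => h01 ⟨h0, h1⟩
      have hx1 : (⟨n - (n - 1), by omega⟩ : Fin (n + 1)) = 1 := by
        apply Fin.ext
        rw [v1]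
        simp only
        omega
      have hz : ∀ i : Fin (n + 1), (i : ℕ) + (n - 1) < n → i = 0 := by
        intro i hi
        apply Fin.ext
        rw [Fin.val_zero]
        omega
      have hd : (GZ K a).natDegree = n - 1 := by
        apply gz_degree _ (by omega)
        · intro i hi
          rw [hz i hi]
          exact h0
        · rw [hx1]
          exact h1
      have hd' : (GZ K a').natDegree = n - 1 := by
        apply gz_degree _ (by omega)
        · intro i hi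
          rw [hz i hi, e0]
          exact h0
        · rw [hx1, e1]
          exact h1
      refine BG.Els.uniq_sq h2 le_rfl (by omega : 3 ≤ n - 1) hd hd' ?_ hdiff h h'
      rw [leadingCoeff, leadingCoeff, hd, hd', gz_coeff _ (by omega), gz_coeff _ (by omega), hx1, e1]
    · have hx0 : (⟨n - n, by omega⟩ : Fin (n + 1)) = 0 := by
        apply Fin.ext
        simp
      have hd : (GZ K a).natDegree = n := by
        apply gz_degree _ le_rfl
        · intro i hi
          omega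
        · rw [hx0]
          exact h0
      have hd' : (GZ K a').natDegree = n := by
        apply gz_degree _ le_rfl
        · intro i hi
          omega
        · rw [hx0, e0]
          exact h0
      refine BG.Els.uniq_sq h2 le_rfl (by omega : 3 ≤ n) hd hd' ?_ hdiff h h'
      rw [leadingCoeff, leadingCoeff, hd, hd', gz_coeff _ le_rfl, gz_coeff _ le_rfl, hx0, e0]
  have h3 : (GZ K a).coeff (n - i) = (GZ K a').coeff (n - i) := by rw [key]
  have hi := i.2
  rw [gz_coeff _ (by omega), gz_coeff _ (by omega)] at h3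
  have hidx : (⟨n - (n - (i : ℕ)), by omega⟩ : Fin (n + 1)) = i := by
    apply Fin.ext
    simp only
    omega
  rw [hidx] at h3
  rw [← PEls.cast_eq_zero (K := K)]
  push_cast
  rw [h3, sub_self]

end char

/-- Homogeneous bound. -/
lemma U_bound (j : ℕ) : ∃ A : ℝ, 0 ≤ A ∧ ∀ (X : ℝ), 0 ≤ X → ∀ (α : ℤ) (β : ℕ → ℤ),
    |(α : ℝ)| ≤ X → (∀ i, 1 ≤ i → i ≤ j → |(β i : ℝ)| ≤ X) →
    |((BG.Els.U α β j : ℤ) : ℝ)| ≤ A * X ^ j := by
  induction j using Nat.strong_induction_on with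
  | _ j ih =>
  cases j with
  | zero =>
    refine ⟨0, le_rfl, ?_⟩
    intro X _ α β _ _
    rw [BG.Els.U]
    simp
  | succ j =>
    choose! A hA0 hA using ih
    refine ⟨4 ^ j + ∑ i : Fin j, A (i + 1) * A (j - i), ?_, ?_⟩
    · apply add_nonneg (by positivity)
      apply sum_nonneg
      intro i _
      exact mul_nonneg (hA0 _ (by have := i.2; omega)) (hA0 _ (by omega))
    · intro X hX α β hα hβ
      have hcast : ((BG.Els.U α β (j + 1) : ℤ) : ℝ) = (4 * (α : ℝ)) ^ j * (β (j + 1) : ℝ) -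
          ∑ i : Fin j, ((BG.Els.U α β ((i : ℕ) + 1) : ℤ) : ℝ) *
            ((BG.Els.U α β (j - (i : ℕ)) : ℤ) : ℝ) := by
        rw [BG.Els.U_succ]
        push_cast
        ring
      rw [hcast]
      calc |(4 * (α : ℝ)) ^ j * (β (j + 1) : ℝ) -
            ∑ i : Fin j, ((BG.Els.U α β ((i : ℕ) + 1) : ℤ) : ℝ) *
              ((BG.Els.U α β (j - (i : ℕ)) : ℤ) : ℝ)|
          ≤ |(4 * (α : ℝ)) ^ j * (β (j + 1) : ℝ)| +
            |∑ i : Fin j, ((BG.Els.U α β ((i : ℕ) + 1) : ℤ) : ℝ) *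
              ((BG.Els.U α β (j - (i : ℕ)) : ℤ) : ℝ)| := abs_sub _ _
        _ ≤ 4 ^ j * X ^ (j + 1) + ∑ i : Fin j, A (i + 1) * A (j - i) * X ^ (j + 1) := by
            apply add_le_add
            · rw [abs_mul, abs_pow, abs_mul, mul_pow, pow_succ X, ← mul_assoc]
              rw [show |(4 : ℝ)| = 4 by norm_num]
              apply mul_le_mul _ (hβ (j + 1) (by omega) le_rfl) (abs_nonneg _) (by positivity)
              apply mul_le_mul_of_nonneg_left _ (by positivity)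
              exact pow_le_pow_left₀ (abs_nonneg _) hα j
            · refine (abs_sum_le_sum_abs _ _).trans (sum_le_sum fun i _ => ?_)
              have hi := i.2
              rw [abs_mul]
              have h1 := hA (i + 1) (by omega) X hX α β hα (fun l h1 h2 => hβ l h1 (by omega))
              have h2 := hA (j - i) (by omega) X hX α β hα (fun l h1 h2 => hβ l h1 (by omega))
              calc |((BG.Els.U α β ((i : ℕ) + 1) : ℤ) : ℝ)| *
                    |((BG.Els.U α β (j - (i : ℕ)) : ℤ) : ℝ)|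
                  ≤ (A (i + 1) * X ^ ((i : ℕ) + 1)) * (A (j - i) * X ^ (j - (i : ℕ))) := by
                    apply mul_le_mul h1 h2 (abs_nonneg _)
                    exact (abs_nonneg _).trans h1
                _ = A (i + 1) * A (j - i) * X ^ (((i : ℕ) + 1) + (j - (i : ℕ))) := by
                    rw [pow_add]
                    ring
                _ = A (i + 1) * A (j - i) * X ^ (j + 1) := by
                    rw [show ((i : ℕ) + 1) + (j - (i : ℕ)) = j + 1 by omega]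
        _ = (4 ^ j + ∑ i : Fin j, A (i + 1) * A (j - i)) * X ^ (j + 1) := by
            rw [add_mul, sum_mul]

lemma bet_abs {n : ℕ} {a : Fin (n + 1) → ℤ} {X : ℝ} (hX : 0 ≤ X) (ha : ∀ i, |(a i : ℝ)| ≤ X)
    (i : ℕ) : |((BG.Els.bet a i : ℤ) : ℝ)| ≤ X := by
  unfold BG.Els.bet
  split_ifs with h
  · exact ha _
  · simpa using hX

/-- The first relation is homogeneous of degree `n - 1`. -/
lemma RR_bound (n : ℕ) (hn : 4 ≤ n) (he : Even n) : ∃ C : ℝ, 0 ≤ C ∧ ∀ X : ℝ, 0 ≤ X →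
    ∀ a : Fin (n + 1) → ℤ, (∀ i, |(a i : ℝ)| ≤ X) → |((RR a : ℤ) : ℝ)| ≤ C * X ^ (n - 1) := by
  obtain ⟨A, hA0, hA⟩ := U_bound (n / 2 - 1)
  obtain ⟨B, hB0, hB⟩ := U_bound (n / 2)
  refine ⟨2 ^ (2 * n - 5) + A * B, by positivity, ?_⟩
  intro X hX a ha
  have h1 := hA X hX (a 0) (fun i => BG.Els.bet a (i + 1)) (ha 0) (fun i _ _ => bet_abs hX ha _)
  have h2 := hB X hX (a 0) (fun i => BG.Els.bet a (i + 1)) (ha 0) (fun i _ _ => bet_abs hX ha _)
  have hcast : ((RR a : ℤ) : ℝ) = 2 ^ (2 * n - 5) * (a 0 : ℝ) ^ (n - 2) *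
      ((BG.Els.bet a n : ℤ) : ℝ) - ((BG.Els.U (a 0) (fun i => BG.Els.bet a (i + 1)) (n / 2 - 1) : ℤ)
        : ℝ) * ((BG.Els.U (a 0) (fun i => BG.Els.bet a (i + 1)) (n / 2) : ℤ) : ℝ) := by
    unfold RR
    push_cast
    ring
  rw [hcast]
  refine (abs_sub _ _).trans ?_
  rw [add_mul]
  apply add_le_add
  · rw [abs_mul, abs_mul, abs_pow, abs_pow, show n - 1 = (n - 2) + 1 by omega, pow_succ X,
      ← mul_assoc]
    rw [show |(2 : ℝ)| = 2 by norm_num]
    apply mul_le_mul _ (bet_abs hX ha _) (abs_nonneg _) (by positivity)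
    apply mul_le_mul_of_nonneg_left _ (by positivity)
    exact pow_le_pow_left₀ (abs_nonneg _) (ha 0) _
  · rw [abs_mul]
    obtain ⟨m, rfl⟩ := he
    have e1 : (m + m) / 2 = m := by omega
    rw [e1] at h1 h2 ⊢
    have e2 : m + m - 1 = (m - 1) + m := by omega
    rw [e2, pow_add]
    calc _ ≤ (A * X ^ (m - 1)) * (B * X ^ m) := by
          apply mul_le_mul h1 h2 (abs_nonneg _)
          positivity
      _ = A * B * (X ^ (m - 1) * X ^ m) := by ring

section

variable {p : ℕ} [hp : Fact p.Prime] {n : ℕ}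

/-- Points at a large good prime. -/
lemma point_good {ψ : ℤ[X]} (hψ : 1 ≤ ψ.natDegree) (hψp : (ψ.leadingCoeff : ZMod p) ≠ 0)
    (hbig : (n * 2 * ψ.natDegree + 2) ^ 2 ≤ p) (hp2 : p ≠ 2) {a : Fin (n + 1) → ℤ}
    (h : ¬ SqK (AlgebraicClosure (ZMod p)) a) : HasPoint ψ a ℚ_[p] := by
  set ψp : (ZMod p)[X] := ψ.map (Int.castRingHom (ZMod p)) with hψpdef
  have hψd : ψp.natDegree = ψ.natDegree :=
    natDegree_map_of_leadingCoeff_ne_zero _ (by rw [eq_intCast]; exact hψp)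
  set g := GZ (ZMod p) a with hg
  set φ := algebraMap (ZMod p) (AlgebraicClosure (ZMod p)) with hφ
  have hgm : g.map φ = GZ (AlgebraicClosure (ZMod p)) a := by
    rw [hg, gz_map]
    simp only [map_intCast]
  have hg0 : g ≠ 0 := by
    intro h0
    apply h
    refine ⟨0, 0, ?_⟩
    rw [← hgm, h0, Polynomial.map_zero, map_zero]
    simp
  have hd : g.natDegree ≤ n := gz_natDegree_le _
  have hPd : (g.comp (ψp ^ 2)).natDegree = g.natDegree * (2 * ψ.natDegree) := by
    rw [natDegree_comp, natDegree_pow, hψd]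
  have hP0 : g.comp (ψp ^ 2) ≠ 0 := by
    intro h0
    rw [comp_eq_zero_iff] at h0
    rcases h0 with h0 | ⟨-, h0⟩
    · exact hg0 h0
    · have h1 := congrArg natDegree h0
      rw [natDegree_pow, natDegree_C, hψd] at h1
      omega
  obtain ⟨x, y, hy, hxy⟩ := BE.exists_sq_value hp2 (g.comp (ψp ^ 2)) hP0 (by
      refine le_trans ?_ hbig
      rw [hPd]
      apply Nat.pow_le_pow_left
      apply Nat.add_le_add_right
      rw [mul_assoc]
      exact Nat.mul_le_mul_right _ hd) (by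
      intro e s hes
      apply h
      have h2 : (2 : AlgebraicClosure (ZMod p)) ≠ 0 := by
        have := BG.Els.two_ne (p := p) hp2
        intro h0
        apply this
        apply φ.injective
        rw [map_ofNat, map_zero]
        exact h0
      have h3 : (expand (AlgebraicClosure (ZMod p)) (2 * 1) (g.map φ)).comp (ψp.map φ) =
          C (φ e) * (s.map φ) ^ 2 := by
        have h4 := congrArg (Polynomial.map φ) hes
        rw [Polynomial.map_comp, Polynomial.map_pow, Polynomial.map_mul, map_C,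
          Polynomial.map_pow] at h4
        rw [← h4, expand_eq_comp_X_pow, comp_assoc, pow_comp, X_comp]
      have h5 : g.map φ ≠ 0 := (Polynomial.map_ne_zero_iff φ.injective).2 hg0
      have h6 := PEls.comp_sq h2 ((expand_ne_zero (by norm_num)).2 h5)
        (by rw [natDegree_expand]; exact ⟨(g.map φ).natDegree, by ring⟩) (by
        rw [natDegree_map, hψd]
        exact hψ) h3
      rw [hgm] at h6
      exact h6)
  rw [eval_comp, eval_pow, hg, gz_eval] at hxy
  obtain ⟨u, hu⟩ := ZMod.ringHom_surjective (toZMod : ℤ_[p] →+* ZMod p) x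
  set z : ℤ_[p] := aeval u ψ with hz
  have hzm : toZMod z = ψp.eval x := by
    rw [hz, aeval_def, hom_eval₂, hu, hψpdef, eval_map]
    congr 1
    exact RingHom.ext_int _ _
  have hzc : ((z : ℤ_[p]) : ℚ_[p]) = aeval (u : ℚ_[p]) ψ := by
    have h1 := hom_eval₂ ψ (algebraMap ℤ ℤ_[p]) (PadicInt.Coe.ringHom (p := p)) u
    rw [hz, aeval_def, aeval_def]
    have h2 : (PadicInt.Coe.ringHom (p := p)).comp (algebraMap ℤ ℤ_[p]) = algebraMap ℤ ℚ_[p] :=
      RingHom.ext_int _ _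
    rw [h2] at h1
    exact h1
  set V : ℤ_[p] := ∑ i : Fin (n + 1), (a i : ℤ_[p]) * (z ^ 2) ^ (n - (i : ℕ)) with hV
  have hVm : toZMod V = y ^ 2 := by
    rw [hV, hxy]
    simp only [map_mul, map_pow, map_intCast, hzm, map_sum]
  have hVu : ‖V‖ = 1 := norm_eq_one_iff_toZMod.2 (by rw [hVm]; exact pow_ne_zero _ hy)
  obtain ⟨w, -, hw⟩ := sq_of_residue hp2 hVu (by rw [hVm]; exact ⟨y, sq y⟩)
  left
  refine ⟨u, w, ?_⟩
  have h1 : ((w ^ 2 : ℤ_[p]) : ℚ_[p]) = (V : ℚ_[p]) := by rw [hw]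
  rw [hV] at h1
  push_cast [PadicInt.coe_sum] at h1
  rw [gz_eval, ← hzc]
  exact h1

lemma point_small {ψ : ℤ[X]} {a : Fin (n + 1) → ℤ}
    (hd : ((8 * p : ℕ) : ℤ) ∣ (GZ ℤ a).eval ((ψ.coeff 0) ^ 2) - 1) :
    HasPoint ψ a ℚ_[p] := by
  obtain ⟨w, hw⟩ := BG.Els.isSquare_padic (p := p) hd
  left
  refine ⟨0, w, ?_⟩
  rw [hw, ← coeff_zero_eq_aeval_zero', gz_eval, gz_eval]
  simp

end

lemma point_real {n : ℕ} {ψ : ℤ[X]} {a : Fin (n + 1) → ℤ}
    (hd : 0 < (GZ ℤ a).eval ((ψ.coeff 0) ^ 2)) : HasPoint ψ a ℝ := by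
  left
  refine ⟨0, Real.sqrt ((GZ ℤ a).eval ((ψ.coeff 0) ^ 2) : ℤ), ?_⟩
  rw [Real.sq_sqrt (by exact_mod_cast hd.le), ← coeff_zero_eq_aeval_zero', gz_eval, gz_eval]
  simp

end Stoll308.BF.Els
end

section
set_option autoImplicit false

/-!
Local points.
-/

namespace Stoll308.DQ

open Polynomial Finset PadicInt BG BF

/-- The product `f q` is a constant times a square over `K`. -/
def Sq2 {n m : ℕ} (K : Type*) [Field K] (a : Fin (n + 1) → ℤ) (b : Fin (m + 1) → ℤ) : Prop :=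
  ∃ (c : K) (s : K[X]), GZ K a * GZ K b = C c * s ^ 2

namespace ElsPtAux

lemma gz_cast {R S : Type*} [CommRing R] [CommRing S] {n : ℕ} (a : Fin (n + 1) → ℤ) (f : R →+* S) :
    (GZ R a).map f = GZ S a := by
  unfold GZ gpol
  rw [Polynomial.map_sum]
  refine Finset.sum_congr rfl fun i _ => ?_
  rw [Polynomial.map_mul, Polynomial.map_pow, map_X, map_C, map_intCast]

/-- A nonzero square value modulo `p` lifts. -/
lemma lift {n : ℕ} {p : ℕ} [hp : Fact p.Prime] (hp2 : p ≠ 2) (a : Fin (n + 1) → ℤ) {x y : ZMod p}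
    (u : ℤ_[p]) (hu : toZMod u = x) (hy : y ≠ 0) (hxy : y ^ 2 = (GZ (ZMod p) a).eval x) :
    ∃ w : ℚ_[p], w ^ 2 = (GZ ℚ_[p] a).eval (u : ℚ_[p]) := by
  rw [BF.Els.gz_eval] at hxy
  set V : ℤ_[p] := ∑ i : Fin (n + 1), (a i : ℤ_[p]) * u ^ (n - (i : ℕ)) with hV
  have hVm : toZMod V = y ^ 2 := by
    rw [hV, hxy]
    simp only [map_mul, map_pow, map_intCast, hu, map_sum]
  have hVu : ‖V‖ = 1 := norm_eq_one_iff_toZMod.2 (by rw [hVm]; exact pow_ne_zero _ hy)
  obtain ⟨w, -, hw⟩ := sq_of_residue hp2 hVu (by rw [hVm]; exact ⟨y, sq y⟩)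
  refine ⟨w, ?_⟩
  have h1 : ((w ^ 2 : ℤ_[p]) : ℚ_[p]) = (V : ℚ_[p]) := by rw [hw]
  rw [hV] at h1
  push_cast [PadicInt.coe_sum] at h1
  rw [BF.Els.gz_eval]
  exact h1

lemma gz_zero {n : ℕ} {K : Type*} [Field K] (a : Fin (n + 1) → ℤ) :
    (GZ K a).eval 0 = ((a (Fin.last n) : ℤ) : K) := by
  rw [BF.Els.gz_eval, Finset.sum_eq_single (Fin.last n)]
  · simp
  · intro i _ hi
    have h1 : (i : ℕ) < n := by
      have := i.2
      rcases Nat.lt_or_ge (i : ℕ) n with h | h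
      · exact h
      · exfalso
        apply hi
        apply Fin.ext
        rw [Fin.val_last]
        omega
    rw [zero_pow (by omega), mul_zero]
  · intro h
    exact absurd (mem_univ _) h

end ElsPtAux

open ElsPtAux

theorem point_small {n m : ℕ} {p : ℕ} [hp : Fact p.Prime] {a : Fin (n + 1) → ℤ}
    {b : Fin (m + 1) → ℤ} (h1 : ((8 * p : ℕ) : ℤ) ∣ a (Fin.last n) - 1)
    (h2 : ((8 * p : ℕ) : ℤ) ∣ b (Fin.last m) - 1) : HasPoint a b ℚ_[p] := by
  obtain ⟨w, hw⟩ := BG.Els.isSquare_padic (p := p) h1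
  obtain ⟨w', hw'⟩ := BG.Els.isSquare_padic (p := p) h2
  exact Or.inl ⟨0, w, w', by rw [hw, gz_zero], by rw [hw', gz_zero]⟩

theorem point_real {n m : ℕ} {a : Fin (n + 1) → ℤ} {b : Fin (m + 1) → ℤ}
    (h1 : 0 < a (Fin.last n)) (h2 : 0 < b (Fin.last m)) : HasPoint a b ℝ := by
  refine Or.inl ⟨0, Real.sqrt (a (Fin.last n) : ℤ), Real.sqrt (b (Fin.last m) : ℤ), ?_, ?_⟩
  · rw [Real.sq_sqrt (by exact_mod_cast h1.le), gz_zero]
  · rw [Real.sq_sqrt (by exact_mod_cast h2.le), gz_zero]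

end Stoll308.DQ
end

section
set_option autoImplicit false

/-!
Full family: counting.
-/

namespace Stoll308.BF.Els

open Finset

/-- The box of the parameters. -/
noncomputable def box (N h : ℕ) : Finset (Fin N → ℤ) := Fintype.piFinset fun _ => Icc 1 (h : ℤ)

lemma card_box (N h : ℕ) : (box N h).card = h ^ N := by
  unfold box
  rw [Fintype.card_piFinset, prod_const, card_univ, Fintype.card_fin, Int.card_Icc]
  congr 1
  omega

/-- Fibres over the coordinates outside `J`. -/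
lemma card_le_free {N h : ℕ} (J : Finset (Fin N)) (S : Finset (Fin N → ℤ)) (hS : S ⊆ box N h)
    {F : ℝ} (hF0 : 0 ≤ F) (hF : ∀ t₀ ∈ S, ((S.filter fun t => ∀ i, i ∉ J → t i = t₀ i).card : ℝ) ≤ F) :
    (S.card : ℝ) ≤ (h : ℝ) ^ (N - J.card) * F := by
  classical
  set f : (Fin N → ℤ) → (Fin N → ℤ) := fun t i => if i ∈ J then 0 else t i with hf
  set T : Finset (Fin N → ℤ) :=
    Fintype.piFinset fun i => if i ∈ J then {0} else Icc 1 (h : ℤ) with hT
  have hTc : T.card = h ^ (N - J.card) := by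
    rw [hT, Fintype.card_piFinset]
    have h1 : ∀ i : Fin N, (if i ∈ J then ({0} : Finset ℤ) else Icc 1 (h : ℤ)).card =
        if i ∈ J then 1 else h := by
      intro i
      split_ifs
      · exact card_singleton _
      · rw [Int.card_Icc]
        omega
    rw [prod_congr rfl fun i _ => h1 i, prod_ite, prod_const_one, one_mul, prod_const]
    congr 1
    rw [filter_not, card_sdiff_of_subset (filter_subset _ _), card_univ, Fintype.card_fin]
    congr 2
    ext i
    simp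
  have h2 := BG.Els.card_le_fiber S T f (by
    intro t ht
    have h3 := hS ht
    rw [box, Fintype.mem_piFinset] at h3
    rw [hT, Fintype.mem_piFinset]
    intro i
    simp only [hf]
    split_ifs with hi
    · exact mem_singleton_self _
    · exact h3 i) F (by
    intro c _
    rcases (S.filter fun t => f t = c).eq_empty_or_nonempty with h3 | ⟨t₀, ht₀⟩
    · rw [h3]
      simpa using hF0
    · rw [mem_filter] at ht₀
      refine le_trans ?_ (hF t₀ ht₀.1)
      have h4 : (S.filter fun t => f t = c) ⊆ S.filter fun t => ∀ i, i ∉ J → t i = t₀ i := by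
        intro t ht
        rw [mem_filter] at ht ⊢
        refine ⟨ht.1, fun i hi => ?_⟩
        have h5 := congrFun (ht.2.trans ht₀.2.symm) i
        simp only [hf, if_neg hi] at h5
        exact h5
      exact_mod_cast card_le_card h4)
  rw [hTc] at h2
  push_cast at h2
  exact h2

/-- If the coordinates in `J` are determined modulo `p` by the others. -/
lemma card_le_mod {N h p : ℕ} (hp : 0 < p) (J : Finset (Fin N)) (S : Finset (Fin N → ℤ))
    (hS : S ⊆ box N h)
    (hJ : ∀ t ∈ S, ∀ t' ∈ S, (∀ i, i ∉ J → t i = t' i) → ∀ i ∈ J, (p : ℤ) ∣ t i - t' i) :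
    (S.card : ℝ) ≤ (h : ℝ) ^ (N - J.card) * ((h : ℝ) / p + 1) ^ J.card := by
  classical
  apply card_le_free J S hS (by positivity)
  intro t₀ ht₀
  have hle : (S.filter fun t => ∀ i, i ∉ J → t i = t₀ i).card ≤
      (Fintype.piFinset fun i : Fin N => if i ∈ J then
        (Ioc (0 : ℤ) h).filter fun x => (p : ℤ) ∣ x - t₀ i else {t₀ i}).card := by
    apply card_le_card
    intro t ht
    rw [mem_filter] at ht
    rw [Fintype.mem_piFinset]
    intro i
    split_ifs with hi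
    · have h3 := hS ht.1
      rw [box, Fintype.mem_piFinset] at h3
      have h4 := h3 i
      rw [mem_Icc] at h4
      rw [mem_filter, mem_Ioc]
      exact ⟨⟨by linarith [h4.1], h4.2⟩, hJ t ht.1 t₀ ht₀ ht.2 i hi⟩
    · rw [ht.2 i hi]
      exact mem_singleton_self _
  have hle' : ((S.filter fun t => ∀ i, i ∉ J → t i = t₀ i).card : ℝ) ≤
      ((Fintype.piFinset fun i : Fin N => if i ∈ J then
        (Ioc (0 : ℤ) h).filter fun x => (p : ℤ) ∣ x - t₀ i else {t₀ i}).card : ℝ) := by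
    exact_mod_cast hle
  refine hle'.trans ?_
  rw [Fintype.card_piFinset]
  push_cast
  have h1 : ((h : ℝ) / p + 1) ^ J.card = ∏ i : Fin N, if i ∈ J then ((h : ℝ) / p + 1) else 1 := by
    rw [prod_ite, prod_const_one, mul_one, prod_const]
    congr 2
    ext i
    simp
  rw [h1]
  apply prod_le_prod
  · intro i _
    positivity
  · intro i _
    split_ifs with hi
    · have h2 := BE.ap_card_le 0 (h : ℤ) (p : ℤ) (t₀ i) (by exact_mod_cast hp) (by positivity)
      push_cast at h2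
      rw [sub_zero] at h2
      exact h2
    · rw [card_singleton]
      simp

/-- The coefficients. -/
def co {n : ℕ} (M : ℤ) (t : Fin (n + 1) → ℤ) : Fin (n + 1) → ℤ :=
  fun i => M * t i + if (i : ℕ) = n then 1 else 0

lemma co_sub {n : ℕ} (M : ℤ) (t t' : Fin (n + 1) → ℤ) (i : Fin (n + 1)) :
    co M t i - co M t' i = M * (t i - t' i) := by
  unfold co
  ring

lemma co_inj {n : ℕ} {M : ℤ} (hM : M ≠ 0) {t t' : Fin (n + 1) → ℤ} {i : Fin (n + 1)}
    (h : co M t i = co M t' i) : t i = t' i := by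
  have h1 := co_sub M t t' i
  rw [h, sub_self] at h1
  have h2 := (mul_eq_zero.1 h1.symm).resolve_left hM
  linarith

lemma co_lt {n : ℕ} (M : ℤ) (t : Fin (n + 1) → ℤ) {i : Fin (n + 1)} (hi : (i : ℕ) < n) :
    co M t i = M * t i := by
  unfold co
  rw [if_neg (by omega), add_zero]

lemma dvd_of_co {n p : ℕ} (hp : p.Prime) {M : ℤ} (hpM : ¬ (p : ℤ) ∣ M) {t t' : Fin (n + 1) → ℤ}
    {i : Fin (n + 1)} (h : (p : ℤ) ∣ co M t i - co M t' i) : (p : ℤ) ∣ t i - t' i := by
  rw [co_sub] at h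
  exact ((Nat.prime_iff_prime_int.1 hp).dvd_or_dvd h).resolve_left hpM

/-- The value of `f` and the sizes. -/
lemma value {n h : ℕ} {M s : ℤ} (hM : 0 < M) (hs : 0 ≤ s) {t : Fin (n + 1) → ℤ}
    (ht : t ∈ box (n + 1) h) :
    M ∣ (GZ ℤ (co M t)).eval s - 1 ∧ 0 < (GZ ℤ (co M t)).eval s := by
  rw [box, Fintype.mem_piFinset] at ht
  set w : Fin (n + 1) := Fin.last n with hw
  have heval : (GZ ℤ (co M t)).eval s = M * (∑ i : Fin (n + 1), t i * s ^ (n - (i : ℕ))) + 1 := by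
    rw [gz_eval]
    simp only [Int.cast_id]
    have h1 : ∀ i : Fin (n + 1), co M t i * s ^ (n - (i : ℕ)) =
        M * (t i * s ^ (n - (i : ℕ))) + if i = w then 1 else 0 := by
      intro i
      unfold co
      by_cases hi : i = w
      · rw [if_pos hi, if_pos (by rw [hi]; exact Fin.val_last n), hi, hw, Fin.val_last,
          Nat.sub_self, pow_zero]
        ring
      · rw [if_neg hi, if_neg (fun h0 => hi (Fin.ext (by rw [hw, Fin.val_last]; exact h0)))]
        ring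
    rw [sum_congr rfl fun i _ => h1 i, sum_add_distrib, ← mul_sum, sum_ite_eq' univ w,
      if_pos (mem_univ _)]
  rw [heval]
  constructor
  · rw [add_sub_cancel_right]
    exact dvd_mul_right _ _
  · have h1 : 0 ≤ ∑ i : Fin (n + 1), t i * s ^ (n - (i : ℕ)) := by
      apply sum_nonneg
      intro i _
      have := (mem_Icc.1 (ht i)).1
      positivity
    nlinarith [mul_nonneg hM.le h1]

open Classical in
/-- The bad parameters at `p`, first kind. -/
noncomputable def S1 (n : ℕ) (M : ℤ) (h p : ℕ) : Finset (Fin (n + 1) → ℤ) :=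
  (box (n + 1) h).filter fun t => (p : ℤ) ∣ co M t 0 ∧ (p : ℤ) ∣ co M t 1

open Classical in
/-- The bad parameters at `p`, second kind. -/
noncomputable def S2 (n : ℕ) (M : ℤ) (h p : ℕ) : Finset (Fin (n + 1) → ℤ) :=
  (box (n + 1) h).filter fun t => ¬ ((p : ℤ) ∣ co M t 0 ∧ (p : ℤ) ∣ co M t 1) ∧
    ∃ _ : Fact p.Prime, SqK (AlgebraicClosure (ZMod p)) (co M t)

lemma card_S1 {n : ℕ} (hn : 4 ≤ n) {M : ℤ} {h p : ℕ} (hp : p.Prime) (hpM : ¬ (p : ℤ) ∣ M) :
    ((S1 n M h p).card : ℝ) ≤ (h : ℝ) ^ (n - 1) * ((h : ℝ) / p + 1) ^ 2 := by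
  classical
  have h01 : (0 : Fin (n + 1)) ≠ 1 := by
    intro h0
    have := congrArg Fin.val h0
    rw [Fin.val_one', Fin.val_zero, Nat.mod_eq_of_lt (by omega)] at this
    omega
  have hc : ({0, 1} : Finset (Fin (n + 1))).card = 2 := card_pair h01
  have h1 := card_le_mod hp.pos {0, 1} (S1 n M h p) (by unfold S1; exact filter_subset _ _) (by
    intro t ht t' ht' _ i hi
    rw [S1, mem_filter] at ht ht'
    apply dvd_of_co hp hpM
    rw [mem_insert, mem_singleton] at hi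
    rcases hi with rfl | rfl
    · exact dvd_sub ht.2.1 ht'.2.1
    · exact dvd_sub ht.2.2 ht'.2.2)
  rw [hc] at h1
  exact h1

lemma card_S2 {n : ℕ} (hn : 4 ≤ n) {M : ℤ} {h p : ℕ} (hp : p.Prime) (hp2 : p ≠ 2)
    (hpM : ¬ (p : ℤ) ∣ M) :
    ((S2 n M h p).card : ℝ) ≤ (h : ℝ) ^ (n - 1) * ((h : ℝ) / p + 1) ^ 2 := by
  classical
  have := Fact.mk hp
  have h2K : (2 : AlgebraicClosure (ZMod p)) ≠ 0 := by
    intro h0
    apply BG.Els.two_ne (p := p) hp2
    apply (algebraMap (ZMod p) (AlgebraicClosure (ZMod p))).injective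
    rw [map_ofNat, map_zero]
    exact h0
  set u : Fin (n + 1) := ⟨n - 1, by omega⟩ with hu
  set w : Fin (n + 1) := ⟨n, by omega⟩ with hw
  have huw : u ≠ w := by
    intro h0
    have := congrArg Fin.val h0
    simp only [hu, hw] at this
    omega
  have hc : ({u, w} : Finset (Fin (n + 1))).card = 2 := card_pair huw
  have h1 := card_le_mod hp.pos {u, w} (S2 n M h p) (by unfold S2; exact filter_subset _ _) (by
    intro t ht t' ht' htt i hi
    rw [S2, mem_filter] at ht ht'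
    apply dvd_of_co hp hpM
    obtain ⟨-, ht0, _, ht1⟩ := ht
    obtain ⟨-, ht0', _, ht1'⟩ := ht'
    apply uniq (K := AlgebraicClosure (ZMod p)) hn h2K ht1 ht1'
    · intro j hj
      unfold co
      rw [htt j]
      rw [mem_insert, mem_singleton, not_or]
      constructor
      · intro h0
        have := congrArg Fin.val h0
        simp only [hu] at this
        omega
      · intro h0
        have := congrArg Fin.val h0
        simp only [hw] at this
        omega
    · rw [BG.PEls.cast_eq_zero (p := p), BG.PEls.cast_eq_zero (p := p)]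
      exact ht0)
  rw [hc] at h1
  exact h1

open Classical in
/-- The parameters with `RR = 0`. -/
noncomputable def E1 (n : ℕ) (M : ℤ) (h : ℕ) : Finset (Fin (n + 1) → ℤ) :=
  (box (n + 1) h).filter fun t => RR (co M t) = 0

/-- `RR` and `NN` of two vectors with the same first coefficients. -/
lemma U_eq_of {n m : ℕ} {a a' : Fin (n + 1) → ℤ} (j : ℕ) (hj : j < m) (hm : m ≤ n)
    (h : ∀ i : Fin (n + 1), (i : ℕ) < m → a i = a' i) :
    BG.Els.U (a 0) (fun i => BG.Els.bet a (i + 1)) j =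
      BG.Els.U (a' 0) (fun i => BG.Els.bet a' (i + 1)) j := by
  rw [h 0 (by rw [Fin.val_zero]; omega)]
  apply BG.Els.U_congr
  intro i hi1 hi2
  rw [bet_eq a (by omega : i ≤ n), bet_eq a' (by omega : i ≤ n)]
  exact h _ (by simp only; omega)

lemma RR_eq_of {n : ℕ} (hn : 4 ≤ n) {a a' : Fin (n + 1) → ℤ}
    (h : ∀ i : Fin (n + 1), (i : ℕ) < n → a i = a' i) : RR a = RR a' := by
  unfold RR
  rw [U_eq_of (n / 2 - 1) (by omega) le_rfl h, U_eq_of (n / 2) (by omega) le_rfl h,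
    h 0 (by rw [Fin.val_zero]; omega)]
  have h1 : BG.Els.bet a n = BG.Els.bet a' n := by
    obtain ⟨m, rfl⟩ : ∃ m, n = m + 1 := ⟨n - 1, by omega⟩
    rw [bet_eq a (by omega : m ≤ m + 1), bet_eq a' (by omega : m ≤ m + 1)]
    exact h _ (by simp only; omega)
  rw [h1]

lemma RR_sub {n : ℕ} (hn : 4 ≤ n) {a a' : Fin (n + 1) → ℤ}
    (h : ∀ i : Fin (n + 1), (i : ℕ) < n - 1 → a i = a' i) :
    RR a - RR a' = 2 ^ (2 * n - 5) * a 0 ^ (n - 2) * (a ⟨n - 1, by omega⟩ - a' ⟨n - 1, by omega⟩) := by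
  unfold RR
  rw [U_eq_of (n / 2 - 1) (by omega : n / 2 - 1 < n - 1) (by omega) h,
    U_eq_of (n / 2) (by omega : n / 2 < n - 1) (by omega) h, h 0 (by rw [Fin.val_zero]; omega)]
  obtain ⟨m, rfl⟩ : ∃ m, n = m + 1 := ⟨n - 1, by omega⟩
  rw [bet_eq a (by omega : m ≤ m + 1), bet_eq a' (by omega : m ≤ m + 1)]
  simp only [Nat.add_sub_cancel]
  ring

lemma NN_sub {n : ℕ} (hn : 4 ≤ n) {a a' : Fin (n + 1) → ℤ}
    (h : ∀ i : Fin (n + 1), (i : ℕ) < n → a i = a' i) :
    NN a - NN a' = (4 * a 0) ^ (n - 1) * (a (Fin.last n) - a' (Fin.last n)) := by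
  unfold NN
  rw [U_eq_of (n / 2) (by omega) le_rfl h, h 0 (by rw [Fin.val_zero]; omega),
    bet_eq a le_rfl, bet_eq a' le_rfl]
  have h1 : (⟨n, by omega⟩ : Fin (n + 1)) = Fin.last n := rfl
  rw [h1]
  ring

lemma pos_of_box {N h : ℕ} {t : Fin N → ℤ} (ht : t ∈ box N h) (i : Fin N) :
    1 ≤ t i ∧ t i ≤ h := by
  rw [box, Fintype.mem_piFinset] at ht
  exact mem_Icc.1 (ht i)

lemma card_E1 {n : ℕ} (hn : 4 ≤ n) {M : ℤ} (hM : 0 < M) (h : ℕ) :
    ((E1 n M h).card : ℝ) ≤ (h : ℝ) ^ n := by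
  classical
  set u : Fin (n + 1) := ⟨n - 1, by omega⟩ with hu
  have h1 := card_le_free {u} (E1 n M h) (by unfold E1; exact filter_subset _ _) zero_le_one (by
    intro t₀ ht₀
    rw [E1, mem_filter] at ht₀
    have h2 : ((E1 n M h).filter fun t => ∀ i, i ∉ ({u} : Finset (Fin (n + 1))) → t i = t₀ i).card ≤
        1 := by
      rw [card_le_one]
      have key : ∀ t ∈ (E1 n M h).filter fun t => ∀ i, i ∉ ({u} : Finset (Fin (n + 1))) →
          t i = t₀ i, t = t₀ := by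
        intro t ht
        rw [mem_filter, E1, mem_filter] at ht
        obtain ⟨⟨hb, hR⟩, hoff⟩ := ht
        have hoff' : ∀ i, i ≠ u → t i = t₀ i := fun i hi => hoff i (by rwa [mem_singleton])
        have hsub := RR_sub hn (a := co M t) (a' := co M t₀) (by
          intro i hi
          unfold co
          rw [hoff' i (by
            intro h0
            have := congrArg Fin.val h0
            simp only [hu] at this
            omega)])
        rw [hR, ht₀.2, sub_self] at hsub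
        have ha0 : co M t 0 ≠ 0 := by
          rw [co_lt M t (by rw [Fin.val_zero]; omega)]
          have := (pos_of_box hb 0).1
          positivity
        have h3 := (mul_eq_zero.1 hsub.symm).resolve_left (by positivity)
        have h4 : t u = t₀ u := co_inj hM.ne' (sub_eq_zero.1 h3)
        funext i
        by_cases hi : i = u
        · rw [hi]
          exact h4
        · exact hoff' i hi
      intro t ht t' ht'
      rw [key t ht, key t' ht']
    exact_mod_cast h2)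
  rw [card_singleton, mul_one] at h1
  exact h1

open Classical in
/-- The parameters which are bad at a prime `> h`. -/
noncomputable def E2 (n : ℕ) (M : ℤ) (h : ℕ) : Finset (Fin (n + 1) → ℤ) :=
  (box (n + 1) h).filter fun t => RR (co M t) ≠ 0 ∧
    ∃ p : ℕ, p.Prime ∧ h < p ∧ p ≠ 2 ∧ ¬ (p : ℤ) ∣ M ∧ (p : ℤ) ∣ RR (co M t) ∧
      (p : ℤ) ∣ NN (co M t)

/-- The number of primes `> h` which divide a number `< h^n`. -/
lemma card_large {R h n : ℕ} (hR : 0 < R) (hlt : R < h ^ n) :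
    (R.primeFactors.filter fun p => h < p).card ≤ n := by
  by_contra hcon
  push Not at hcon
  have h1 : h ^ (R.primeFactors.filter fun p => h < p).card ≤
      ∏ p ∈ R.primeFactors.filter fun p => h < p, p := by
    apply pow_card_le_prod
    intro p hp
    exact (mem_filter.1 hp).2.le
  have h2 : ∏ p ∈ R.primeFactors.filter (fun p => h < p), p ≤ R := by
    have h3 : ∏ p ∈ R.primeFactors.filter (fun p => h < p), p ∣ R := by
      refine dvd_trans (prod_dvd_prod_of_subset _ _ _ (filter_subset _ _)) ?_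
      exact Nat.prod_primeFactors_dvd R
    exact Nat.le_of_dvd hR h3
  rcases Nat.eq_zero_or_pos h with h0 | h0
  · subst h0
    rcases Nat.eq_zero_or_pos n with h4 | h4
    · subst h4
      omega
    · rw [zero_pow (by omega)] at hlt
      omega
  · have h3 : h ^ n ≤ h ^ (R.primeFactors.filter fun p => h < p).card :=
      Nat.pow_le_pow_right h0 hcon.le
    omega

lemma card_E2 {n : ℕ} (hn : 4 ≤ n) {M : ℤ} {h : ℕ}
    (hR : ∀ t ∈ box (n + 1) h, (RR (co M t)).natAbs < h ^ n) :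
    ((E2 n M h).card : ℝ) ≤ (h : ℝ) ^ n * n := by
  classical
  have h1 := card_le_free {Fin.last n} (E2 n M h) (by unfold E2; exact filter_subset _ _)
    (Nat.cast_nonneg n) (by
    intro t₀ ht₀
    rw [E2, mem_filter] at ht₀
    obtain ⟨hb₀, hR₀, -⟩ := ht₀
    set P : (Fin (n + 1) → ℤ) → ℕ := fun t =>
      if hp : ∃ p : ℕ, p.Prime ∧ h < p ∧ p ≠ 2 ∧ ¬ (p : ℤ) ∣ M ∧ (p : ℤ) ∣ RR (co M t) ∧
        (p : ℤ) ∣ NN (co M t) then hp.choose else 0 with hP
    have hPspec : ∀ t ∈ E2 n M h, (P t).Prime ∧ h < P t ∧ P t ≠ 2 ∧ ¬ ((P t : ℕ) : ℤ) ∣ M ∧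
        ((P t : ℕ) : ℤ) ∣ RR (co M t) ∧ ((P t : ℕ) : ℤ) ∣ NN (co M t) := by
      intro t ht
      rw [E2, mem_filter] at ht
      simp only [hP]
      rw [dif_pos ht.2.2]
      exact ht.2.2.choose_spec
    have hsame : ∀ t : Fin (n + 1) → ℤ,
        (∀ i, i ∉ ({Fin.last n} : Finset (Fin (n + 1))) → t i = t₀ i) →
        ∀ i : Fin (n + 1), (i : ℕ) < n → co M t i = co M t₀ i := by
      intro t ht i hi
      unfold co
      rw [ht i (by
        rw [mem_singleton]
        intro h0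
        rw [h0, Fin.val_last] at hi
        omega)]
    have h2 : ((E2 n M h).filter fun t => ∀ i, i ∉ ({Fin.last n} : Finset (Fin (n + 1))) →
        t i = t₀ i).card ≤ ((RR (co M t₀)).natAbs.primeFactors.filter fun p => h < p).card := by
      apply card_le_card_of_injOn P
      · intro t ht
        rw [mem_coe, mem_filter] at ht
        obtain ⟨q1, q2, -, -, q5, -⟩ := hPspec t ht.1
        rw [RR_eq_of hn (hsame t ht.2)] at q5
        rw [mem_coe, mem_filter, Nat.mem_primeFactors]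
        refine ⟨⟨q1, ?_, Int.natAbs_ne_zero.2 hR₀⟩, q2⟩
        have := Int.natAbs_dvd_natAbs.2 q5
        rwa [Int.natAbs_natCast] at this
      · intro t ht t' ht' hPP
        rw [mem_coe, mem_filter] at ht ht'
        obtain ⟨q1, q2, q3, q4, -, q6⟩ := hPspec t ht.1
        obtain ⟨-, -, -, -, -, q6'⟩ := hPspec t' ht'.1
        rw [← hPP] at q6'
        have hb : t ∈ box (n + 1) h := by
          have := ht.1
          rw [E2, mem_filter] at this
          exact this.1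
        have hb' : t' ∈ box (n + 1) h := by
          have := ht'.1
          rw [E2, mem_filter] at this
          exact this.1
        have h3 := NN_sub hn (a := co M t) (a' := co M t') (fun i hi =>
          (hsame t ht.2 i hi).trans (hsame t' ht'.2 i hi).symm)
        have h4 := dvd_sub q6 q6'
        rw [h3] at h4
        have hpr := Nat.prime_iff_prime_int.1 q1
        have h5 : ¬ ((P t : ℕ) : ℤ) ∣ (4 * co M t 0) ^ (n - 1) := by
          intro h6
          have h7 := hpr.dvd_of_dvd_pow h6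
          rw [co_lt M t (by rw [Fin.val_zero]; omega)] at h7
          rcases hpr.dvd_or_dvd h7 with h8 | h8
          · have h9 : P t ∣ 2 ^ 2 := by
              have : ((P t : ℕ) : ℤ) ∣ ((2 ^ 2 : ℕ) : ℤ) := by push_cast; exact h8
              exact_mod_cast this
            have h10 := (Nat.prime_dvd_prime_iff_eq q1 Nat.prime_two).1 (q1.dvd_of_dvd_pow h9)
            exact q3 h10
          · rcases hpr.dvd_or_dvd h8 with h9 | h9
            · exact q4 h9
            · have h10 := pos_of_box hb 0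
              have h11 := Int.le_of_dvd (by linarith [h10.1]) h9
              have : ((P t : ℕ) : ℤ) > h := by exact_mod_cast q2
              linarith [h10.2]
        have h6 := dvd_of_co q1 q4 ((hpr.dvd_or_dvd h4).resolve_left h5)
        have h7 : t (Fin.last n) = t' (Fin.last n) := by
          have h8 := pos_of_box hb (Fin.last n)
          have h9 := pos_of_box hb' (Fin.last n)
          have h10 : ((P t : ℕ) : ℤ) > h := by exact_mod_cast q2
          have h11 := Int.eq_zero_of_abs_lt_dvd h6 (by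
            rw [abs_lt]
            constructor <;> linarith [h8.1, h8.2, h9.1, h9.2])
          linarith
        funext i
        by_cases hi : i = Fin.last n
        · rw [hi]
          exact h7
        · rw [ht.2 i (by rwa [mem_singleton]), ht'.2 i (by rwa [mem_singleton])]
    have h3 := h2.trans (card_large (Int.natAbs_pos.2 hR₀) (hR t₀ hb₀))
    exact_mod_cast h3)
  rw [card_singleton] at h1
  exact h1

end Stoll308.BF.Els
end

section
set_option autoImplicit false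

/-!
The pairs of polynomials whose product is a constant times a square modulo a prime.
-/

namespace Stoll308.DQ

open Polynomial Finset BG BF

open Classical in
/-- The pairs of parameters with `f q` a constant times a square modulo `p`. -/
noncomputable def S3 (n m : ℕ) (M : ℤ) (h p : ℕ) :
    Finset ((Fin (n + 1) → ℤ) × (Fin (m + 1) → ℤ)) :=
  (BF.Els.box (n + 1) h ×ˢ BF.Els.box (m + 1) h).filter fun x =>
    ¬ ((p : ℤ) ∣ BF.Els.co M x.2 0 ∧ (p : ℤ) ∣ BF.Els.co M x.2 1) ∧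
    ∃ _ : Fact p.Prime, GZ (AlgebraicClosure (ZMod p)) (BF.Els.co M x.1) ≠ 0 ∧
      Sq2 (AlgebraicClosure (ZMod p)) (BF.Els.co M x.1) (BF.Els.co M x.2)

/-- The degree modulo `p`. -/
lemma three_le_deg {m : ℕ} (hm : 4 ≤ m) {K : Type*} [Field K] {b : Fin (m + 1) → ℤ}
    (h : ¬ ((b 0 : K) = 0 ∧ (b 1 : K) = 0)) : 3 ≤ (GZ K b).natDegree := by
  have h1 : ∃ i : Fin (m + 1), (i : ℕ) ≤ 1 ∧ (b i : K) ≠ 0 := by
    by_cases h0 : (b 0 : K) = 0
    · refine ⟨1, ?_, fun h1 => h ⟨h0, h1⟩⟩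
      rw [Fin.val_one', Nat.mod_eq_of_lt (by omega)]
    · exact ⟨0, by rw [Fin.val_zero]; omega, h0⟩
  obtain ⟨i, hi, hb⟩ := h1
  have h2 : (GZ K b).coeff (m - i) = b i := by
    rw [BF.Els.gz_coeff _ (Nat.sub_le _ _)]
    congr 2
    apply Fin.ext
    simp only
    omega
  have h3 : m - (i : ℕ) ≤ (GZ K b).natDegree := le_natDegree_of_ne_zero (by rwa [h2])
  omega

/-- Two members of a fibre. -/
lemma fibre_unique {n m : ℕ} (hm : 4 ≤ m) {p : ℕ} [Fact p.Prime] (hp2 : p ≠ 2)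
    {a : Fin (n + 1) → ℤ} {b b' : Fin (m + 1) → ℤ} (ha : GZ (AlgebraicClosure (ZMod p)) a ≠ 0)
    (hb : Sq2 (AlgebraicClosure (ZMod p)) a b) (hb' : Sq2 (AlgebraicClosure (ZMod p)) a b')
    (hbb : ∀ i : Fin (m + 1), (i : ℕ) + 1 < m → b i = b' i)
    (h01 : ¬ ((p : ℤ) ∣ b 0 ∧ (p : ℤ) ∣ b 1)) (i : Fin (m + 1)) : (p : ℤ) ∣ b i - b' i := by
  have h2K : (2 : AlgebraicClosure (ZMod p)) ≠ 0 := by
    intro h0
    apply BG.Els.two_ne (p := p) hp2
    apply (algebraMap (ZMod p) (AlgebraicClosure (ZMod p))).injective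
    rw [map_ofNat, map_zero]
    exact h0
  have hdiff : (GZ (AlgebraicClosure (ZMod p)) b - GZ (AlgebraicClosure (ZMod p)) b').natDegree ≤
      1 := by
    rw [natDegree_le_iff_coeff_eq_zero]
    intro N hN
    rw [coeff_sub, sub_eq_zero]
    by_cases hNn : N ≤ m
    · rw [BF.Els.gz_coeff _ hNn, BF.Els.gz_coeff _ hNn, hbb _ (by simp only; omega)]
    · rw [BF.Els.gz_coeff_gt _ (by omega), BF.Els.gz_coeff_gt _ (by omega)]
  have hdeg := three_le_deg (K := AlgebraicClosure (ZMod p)) hm (b := b) (by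
    rw [BG.PEls.cast_eq_zero (p := p), BG.PEls.cast_eq_zero (p := p)]
    exact h01)
  have key := uniq h2K (GZ (AlgebraicClosure (ZMod p)) a) _ _ ha hdeg hdiff hb hb'
  have hi := i.2
  have h3 := congrArg (fun g : (AlgebraicClosure (ZMod p))[X] => g.coeff (m - i)) key
  rw [BF.Els.gz_coeff _ (Nat.sub_le _ _), BF.Els.gz_coeff _ (Nat.sub_le _ _)] at h3
  have h4 : (⟨m - (m - (i : ℕ)), by omega⟩ : Fin (m + 1)) = i := by
    apply Fin.ext
    simp only
    omega
  rw [h4] at h3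
  rw [← BG.PEls.cast_eq_zero (K := AlgebraicClosure (ZMod p))]
  push_cast
  rw [h3, sub_self]

/-- For a fixed first polynomial. -/
theorem card_fibre {n m : ℕ} (hm : 4 ≤ m) {M : ℤ} {h p : ℕ} (hp : p.Prime) (hp2 : p ≠ 2)
    (hpM : ¬ (p : ℤ) ∣ M) (t : Fin (n + 1) → ℤ) :
    (((S3 n m M h p).filter fun x => x.1 = t).card : ℝ) ≤
      (h : ℝ) ^ (m - 1) * ((h : ℝ) / p + 1) ^ 2 := by
  classical
  have := Fact.mk hp
  set T : Finset (Fin (m + 1) → ℤ) := ((S3 n m M h p).filter fun x => x.1 = t).image Prod.snd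
    with hT
  have hcard : ((S3 n m M h p).filter fun x => x.1 = t).card = T.card := by
    rw [hT, card_image_of_injOn]
    intro x hx y hy hxy
    rw [mem_coe, mem_filter] at hx hy
    exact Prod.ext (hx.2.trans hy.2.symm) hxy
  rw [hcard]
  have hTm : ∀ b ∈ T, (t, b) ∈ S3 n m M h p := by
    intro b hb
    rw [hT, mem_image] at hb
    obtain ⟨x, hx, rfl⟩ := hb
    rw [mem_filter] at hx
    rw [← hx.2]
    exact hx.1
  set u : Fin (m + 1) := ⟨m - 1, by omega⟩ with hu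
  set w : Fin (m + 1) := ⟨m, by omega⟩ with hw
  have huw : u ≠ w := by
    intro h0
    have := congrArg Fin.val h0
    simp only [hu, hw] at this
    omega
  have hc : ({u, w} : Finset (Fin (m + 1))).card = 2 := card_pair huw
  have h1 := BF.Els.card_le_mod hp.pos {u, w} T (by
    intro b hb
    have h2 := hTm b hb
    rw [S3, mem_filter, mem_product] at h2
    exact h2.1.2) (by
    intro b hb b' hb' hbb i _
    have h2 := hTm b hb
    have h3 := hTm b' hb'
    rw [S3, mem_filter] at h2 h3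
    obtain ⟨-, h01, _, ha, hs⟩ := h2
    obtain ⟨-, -, _, -, hs'⟩ := h3
    apply BF.Els.dvd_of_co hp hpM
    apply fibre_unique hm hp2 ha hs hs' _ h01
    intro j hj
    have h4 : b j = b' j := by
      apply hbb
      rw [mem_insert, mem_singleton, not_or]
      constructor
      · intro h0
        have := congrArg Fin.val h0
        simp only [hu] at this
        omega
      · intro h0
        have := congrArg Fin.val h0
        simp only [hw] at this
        omega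
    simp only [BF.Els.co, h4])
  rw [hc] at h1
  exact h1

end Stoll308.DQ
end

section
set_option autoImplicit false

/-!
The polynomials `f` with `f q` a constant times a square modulo a prime, `q` fixed.
-/

namespace Stoll308.FQ

open Polynomial Finset BG BF DQ

open Classical in
/-- The parameters with `f q` a constant times a square modulo `p`. -/
noncomputable def T3 (n : ℕ) {m : ℕ} (b : Fin (m + 1) → ℤ) (M : ℤ) (h p : ℕ) :
    Finset (Fin (n + 1) → ℤ) :=
  (BF.Els.box (n + 1) h).filter fun t =>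
    ∃ _ : Fact p.Prime, DQ.Sq2 (AlgebraicClosure (ZMod p)) (BF.Els.co M t) b

/-- `q` divides `f` if `q` is squarefree and `f q` is a constant times a square. -/
lemma t3_dvd {n m : ℕ} {K : Type*} [Field K] {a : Fin (n + 1) → ℤ} {b : Fin (m + 1) → ℤ}
    (hb : Squarefree (GZ K b)) (h : DQ.Sq2 K a b) : GZ K b ∣ GZ K a := by
  by_cases hf : GZ K a = 0
  · rw [hf]
    exact dvd_zero _
  · obtain ⟨c, s, hs⟩ := h
    exact dvd_of_sq2 _ _ hb hb.ne_zero hf ⟨c, s, by rw [mul_comm]; exact hs⟩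

/-- If `q` has degree one then the leading coefficient of `f` vanishes. -/
lemma t3_zero {n m : ℕ} {K : Type*} [Field K] (he : Even n) {a : Fin (n + 1) → ℤ}
    {b : Fin (m + 1) → ℤ} (hb : (GZ K b).natDegree = 1) (h : DQ.Sq2 K a b) :
    ((a 0 : ℤ) : K) = 0 := by
  by_contra h0
  have hcoef : (GZ K a).coeff n = ((a 0 : ℤ) : K) := by
    rw [BF.Els.gz_coeff _ le_rfl]
    congr 2
    apply Fin.ext
    simp
  have hn : (GZ K a).natDegree = n :=
    natDegree_eq_of_le_of_coeff_ne_zero (BF.Els.gz_natDegree_le _) (by rwa [hcoef])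
  have hf : GZ K a ≠ 0 := by
    intro hh
    rw [hh, coeff_zero] at hcoef
    exact h0 hcoef.symm
  have hq : GZ K b ≠ 0 := by
    intro hh
    rw [hh, natDegree_zero] at hb
    omega
  obtain ⟨c, s, hs⟩ := h
  have hc : c ≠ 0 := by
    rintro rfl
    rw [C_0, zero_mul] at hs
    exact mul_ne_zero hf hq hs
  have h1 := congrArg natDegree hs
  rw [natDegree_mul hf hq, natDegree_C_mul hc, natDegree_pow, hn, hb] at h1
  obtain ⟨k, hk⟩ := he
  omega

theorem card_T3 {n m : ℕ} (hn : 4 ≤ n) (he : Even n) (hm : 2 ≤ m) (b : Fin (m + 1) → ℤ) {M : ℤ}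
    {h p : ℕ} [hp : Fact p.Prime] (hp2 : p ≠ 2) (hpM : ¬ (p : ℤ) ∣ M)
    (hb : Squarefree (GZ (AlgebraicClosure (ZMod p)) b))
    (hb' : ¬ ((p : ℤ) ∣ b 0 ∧ (p : ℤ) ∣ b 1)) :
    ((T3 n b M h p).card : ℝ) ≤ (h : ℝ) ^ (n - 1) * ((h : ℝ) / p + 1) ^ 2 := by
  classical
  have hbox : T3 n b M h p ⊆ BF.Els.box (n + 1) h := filter_subset _ _
  have hsq : ∀ t ∈ T3 n b M h p,
      DQ.Sq2 (AlgebraicClosure (ZMod p)) (BF.Els.co M t) b := by
    intro t ht
    rw [T3, mem_filter] at ht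
    obtain ⟨-, _, h1⟩ := ht
    exact h1
  have hdeg : 1 ≤ (GZ (AlgebraicClosure (ZMod p)) b).natDegree := by
    have h1 : ∃ i : Fin (m + 1), (i : ℕ) ≤ 1 ∧ ((b i : ℤ) : AlgebraicClosure (ZMod p)) ≠ 0 := by
      by_cases h0 : (p : ℤ) ∣ b 0
      · refine ⟨1, ?_, ?_⟩
        · rw [Fin.val_one', Nat.mod_eq_of_lt (by omega)]
        · rw [Ne, BG.PEls.cast_eq_zero (p := p)]
          exact fun h1 => hb' ⟨h0, h1⟩
      · refine ⟨0, by rw [Fin.val_zero]; omega, ?_⟩
        rw [Ne, BG.PEls.cast_eq_zero (p := p)]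
        exact h0
    obtain ⟨i, hi, hbi⟩ := h1
    have h2 : (GZ (AlgebraicClosure (ZMod p)) b).coeff (m - i) = ((b i : ℤ) : _) := by
      rw [BF.Els.gz_coeff _ (Nat.sub_le _ _)]
      congr 2
      apply Fin.ext
      simp only
      omega
    have h3 : m - (i : ℕ) ≤ (GZ (AlgebraicClosure (ZMod p)) b).natDegree :=
      le_natDegree_of_ne_zero (by rwa [h2])
    omega
  have key : ∀ t ∈ T3 n b M h p, ∀ t' ∈ T3 n b M h p,
      (GZ (AlgebraicClosure (ZMod p)) (BF.Els.co M t) -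
        GZ (AlgebraicClosure (ZMod p)) (BF.Els.co M t')).natDegree <
        (GZ (AlgebraicClosure (ZMod p)) b).natDegree → ∀ i, (p : ℤ) ∣ t i - t' i := by
    intro t ht t' ht' hd i
    have h0 : GZ (AlgebraicClosure (ZMod p)) (BF.Els.co M t) -
        GZ (AlgebraicClosure (ZMod p)) (BF.Els.co M t') = 0 := by
      by_contra hne
      have := natDegree_le_of_dvd
        (dvd_sub (t3_dvd hb (hsq t ht)) (t3_dvd hb (hsq t' ht'))) hne
      omega
    apply BF.Els.dvd_of_co hp.out hpM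
    have hi := i.2
    have h3 := congrArg (fun g : (AlgebraicClosure (ZMod p))[X] => g.coeff (n - i)) h0
    simp only [coeff_sub, coeff_zero] at h3
    rw [BF.Els.gz_coeff _ (Nat.sub_le _ _), BF.Els.gz_coeff _ (Nat.sub_le _ _)] at h3
    have h4 : (⟨n - (n - (i : ℕ)), by omega⟩ : Fin (n + 1)) = i := by
      apply Fin.ext
      simp only
      omega
    rw [h4] at h3
    rw [← BG.PEls.cast_eq_zero (K := AlgebraicClosure (ZMod p))]
    push_cast
    exact h3
  rcases Nat.lt_or_ge 1 (GZ (AlgebraicClosure (ZMod p)) b).natDegree with hd1 | hd1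
  · set u : Fin (n + 1) := ⟨n - 1, by omega⟩ with hu
    set w : Fin (n + 1) := ⟨n, by omega⟩ with hw
    have huw : u ≠ w := by
      intro h0
      have := congrArg Fin.val h0
      simp only [hu, hw] at this
      omega
    have hc : ({u, w} : Finset (Fin (n + 1))).card = 2 := card_pair huw
    have h1 := BF.Els.card_le_mod (h := h) hp.out.pos {u, w} (T3 n b M h p) hbox (by
      intro t ht t' ht' htt i _
      apply key t ht t' ht' (lt_of_le_of_lt ?_ hd1)
      rw [natDegree_le_iff_coeff_eq_zero]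
      intro N hN
      rw [coeff_sub, sub_eq_zero]
      by_cases hNn : N ≤ n
      · have h4 : t ⟨n - N, by omega⟩ = t' ⟨n - N, by omega⟩ := by
          apply htt
          rw [mem_insert, mem_singleton, not_or]
          constructor
          · intro h0
            have := congrArg Fin.val h0
            simp only [hu] at this
            omega
          · intro h0
            have := congrArg Fin.val h0
            simp only [hw] at this
            omega
        rw [BF.Els.gz_coeff _ hNn, BF.Els.gz_coeff _ hNn]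
        simp only [BF.Els.co, h4]
      · rw [BF.Els.gz_coeff_gt _ (by omega), BF.Els.gz_coeff_gt _ (by omega)])
    rw [hc] at h1
    exact h1
  · have hd : (GZ (AlgebraicClosure (ZMod p)) b).natDegree = 1 := le_antisymm hd1 hdeg
    have hz : ∀ t ∈ T3 n b M h p, (p : ℤ) ∣ BF.Els.co M t 0 := by
      intro t ht
      rw [← BG.PEls.cast_eq_zero (K := AlgebraicClosure (ZMod p))]
      exact t3_zero he hd (hsq t ht)
    set u : Fin (n + 1) := 0 with hu
    set w : Fin (n + 1) := ⟨n, by omega⟩ with hw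
    have huw : u ≠ w := by
      intro h0
      have := congrArg Fin.val h0
      simp only [hu, hw, Fin.val_zero] at this
      omega
    have hc : ({u, w} : Finset (Fin (n + 1))).card = 2 := card_pair huw
    have h1 := BF.Els.card_le_mod (h := h) hp.out.pos {u, w} (T3 n b M h p) hbox (by
      intro t ht t' ht' htt i _
      apply key t ht t' ht'
      rw [hd, Nat.lt_one_iff, ← Nat.le_zero, natDegree_le_iff_coeff_eq_zero]
      intro N hN
      rw [coeff_sub, sub_eq_zero]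
      by_cases hNn : N ≤ n
      · rw [BF.Els.gz_coeff _ hNn, BF.Els.gz_coeff _ hNn]
        by_cases hN' : N = n
        · have h5 : (⟨n - N, by omega⟩ : Fin (n + 1)) = 0 := by
            apply Fin.ext
            rw [Fin.val_zero]
            simp only
            omega
          rw [h5, (BG.PEls.cast_eq_zero (p := p) _).2 (hz t ht),
            (BG.PEls.cast_eq_zero (p := p) _).2 (hz t' ht')]
        · have h4 : t ⟨n - N, by omega⟩ = t' ⟨n - N, by omega⟩ := by
            apply htt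
            rw [mem_insert, mem_singleton, not_or]
            constructor
            · intro h0
              have := congrArg Fin.val h0
              simp only [hu, Fin.val_zero] at this
              omega
            · intro h0
              have := congrArg Fin.val h0
              simp only [hw] at this
              omega
          simp only [BF.Els.co, h4]
      · rw [BF.Els.gz_coeff_gt _ (by omega), BF.Els.gz_coeff_gt _ (by omega)])
    rw [hc] at h1
    exact h1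

end Stoll308.FQ
end

section
set_option autoImplicit false

/-!
A positive proportion of the curves is everywhere locally soluble.
-/

namespace Stoll308.BF

open Polynomial Finset BG

theorem els_many (n : ℕ) (hn : 4 ≤ n) (he : Even n) (ψ : ℤ[X]) (hψ : 1 ≤ ψ.natDegree) :
    ∃ c₀ : ℝ, 0 < c₀ ∧ ∃ H₀ : ℕ, ∀ H : ℕ, H₀ ≤ H →
      c₀ * H ^ (n + 1) ≤ (cnt n (ELS ψ) H : ℝ) := by
  classical
  have hψ0 : ψ ≠ 0 := by
    rintro rfl
    simp at hψ
  have hlc : ψ.leadingCoeff ≠ 0 := leadingCoeff_ne_zero.2 hψ0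
  obtain ⟨C, hC0, hC⟩ := Els.RR_bound n hn he
  obtain ⟨Q, hQ⟩ : ∃ Q : ℕ, Q = (n * 2 * ψ.natDegree + 2) ^ 2 + ψ.leadingCoeff.natAbs + 16 :=
    ⟨_, rfl⟩
  obtain ⟨M, hMdef⟩ : ∃ M : ℕ, M = 8 * Q.factorial := ⟨_, rfl⟩
  have hM : 0 < M := by
    rw [hMdef]
    exact Nat.mul_pos (by norm_num) (Nat.factorial_pos _)
  have hMz : (0 : ℤ) < (M : ℤ) := by exact_mod_cast hM
  have hM0 : (0 : ℝ) < M := by exact_mod_cast hM
  have hQM : ∀ p : ℕ, p.Prime → Q < p → ¬ (p : ℤ) ∣ (M : ℤ) := by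
    intro p hp hQp h
    rw [Int.natCast_dvd_natCast, hMdef] at h
    rcases (hp.dvd_mul).1 h with h | h
    · have h2 : p ∣ 2 ^ 3 := by norm_num; exact h
      have := Nat.le_of_dvd (by norm_num) (hp.dvd_of_dvd_pow h2)
      omega
    · have := (hp.dvd_factorial).1 h
      omega
  obtain ⟨C', hC'⟩ : ∃ C' : ℕ, C' = ⌈C * (2 * M) ^ (n - 1)⌉₊ := ⟨_, rfl⟩
  refine ⟨1 / (2 * (4 * M) ^ (n + 1)), by positivity, 4 * M * (Q + C' + 4 * (n + 5) + 2), ?_⟩
  intro H hH
  -- the number of parameters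
  obtain ⟨h, hh⟩ : ∃ h : ℕ, h = H / M - 1 := ⟨_, rfl⟩
  have hHM : 4 * (Q + C' + 4 * (n + 5) + 2) ≤ H / M := by
    rw [Nat.le_div_iff_mul_le hM]
    calc _ = 4 * M * (Q + C' + 4 * (n + 5) + 2) := by ring
      _ ≤ H := hH
  have hhQ : Q < h := by omega
  have hhC : C' < h := by omega
  have hhn : 4 * (n + 5) ≤ h := by omega
  have hh1 : 1 ≤ h := by omega
  have hh1' : (1 : ℝ) ≤ h := by exact_mod_cast hh1
  have hMh : M * (h + 1) ≤ H := by
    have : h + 1 = H / M := by omega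
    rw [this]
    exact Nat.mul_div_le H M
  have hhH : (H : ℝ) / (4 * M) ≤ h := by
    have h1 : H < M * (H / M + 1) := by
      have := Nat.lt_mul_div_succ H hM
      exact this
    have h2 : H / M + 1 ≤ 4 * h := by omega
    have h3 : H ≤ M * (4 * h) := h1.le.trans (Nat.mul_le_mul_left _ h2)
    rw [div_le_iff₀ (by positivity)]
    have h4 : (H : ℝ) ≤ M * (4 * h) := by exact_mod_cast h3
    linarith
  set s : ℤ := (ψ.coeff 0) ^ 2 with hs
  have hs0 : 0 ≤ s := sq_nonneg _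
  -- sizes
  have hco : ∀ t ∈ Els.box (n + 1) h, ∀ i, 0 < Els.co (M : ℤ) t i ∧
      Els.co (M : ℤ) t i ≤ M * (h + 1) := by
    intro t ht i
    have h1 := Els.pos_of_box ht i
    have h2 : (M : ℤ) * 1 ≤ M * t i := mul_le_mul_of_nonneg_left h1.1 hMz.le
    have h3 : (M : ℤ) * t i ≤ M * h := mul_le_mul_of_nonneg_left h1.2 hMz.le
    have h4 : (1 : ℤ) ≤ M := hMz
    unfold Els.co
    constructor
    · split_ifs <;> linarith
    · split_ifs <;> linarith
  have hRR : ∀ t ∈ Els.box (n + 1) h, (Els.RR (Els.co (M : ℤ) t)).natAbs < h ^ n := by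
    intro t ht
    have h1 := hC (M * (h + 1)) (by positivity) (Els.co (M : ℤ) t) (by
      intro i
      have h2 := hco t ht i
      rw [abs_of_pos (by exact_mod_cast h2.1)]
      exact_mod_cast h2.2)
    have h2 : C * ((M : ℝ) * (h + 1)) ^ (n - 1) < (h : ℝ) ^ n := by
      have h3 : (M : ℝ) * (h + 1) ≤ (2 * M) * h := by nlinarith
      have h4 : ((M : ℝ) * (h + 1)) ^ (n - 1) ≤ ((2 * M) * h) ^ (n - 1) :=
        pow_le_pow_left₀ (by positivity) h3 _
      have h5 : C * (2 * M) ^ (n - 1) ≤ C' := by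
        rw [hC']
        exact Nat.le_ceil _
      have h6 : (C' : ℝ) < h := by exact_mod_cast hhC
      have h7 : (0 : ℝ) < (h : ℝ) ^ (n - 1) := by positivity
      have h8 : (h : ℝ) ^ n = h * (h : ℝ) ^ (n - 1) := by
        rw [← pow_succ']
        congr 1
        omega
      calc C * ((M : ℝ) * (h + 1)) ^ (n - 1) ≤ C * ((2 * M) * h) ^ (n - 1) :=
            mul_le_mul_of_nonneg_left h4 hC0
        _ = (C * (2 * M) ^ (n - 1)) * (h : ℝ) ^ (n - 1) := by
            rw [mul_pow]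
            ring
        _ < h * (h : ℝ) ^ (n - 1) := mul_lt_mul_of_pos_right (by linarith) h7
        _ = (h : ℝ) ^ n := h8.symm
    have h3 : (((Els.RR (Els.co (M : ℤ) t)).natAbs : ℕ) : ℝ) < (h : ℝ) ^ n := by
      rw [Nat.cast_natAbs]
      push_cast
      exact lt_of_le_of_lt h1 h2
    exact_mod_cast h3
  set bad := ((Ioc Q h).filter Nat.Prime).biUnion fun p => Els.S1 n M h p ∪ Els.S2 n M h p
    with hbad
  set bad' := bad ∪ (Els.E1 n M h ∪ Els.E2 n M h) with hbad'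
  have hgood : ∀ t ∈ Els.box (n + 1) h \ bad', ELS ψ (Els.co (M : ℤ) t) := by
    intro t ht
    rw [mem_sdiff, hbad', mem_union, mem_union, not_or, not_or] at ht
    obtain ⟨hb, hb1, hb2, hb3⟩ := ht
    obtain ⟨h2, h3⟩ := Els.value hMz hs0 hb
    refine ⟨?_, Els.point_real h3⟩
    intro p hp
    have hpp : p.Prime := hp.out
    by_cases hpQ : p ≤ Q
    · apply Els.point_small
      refine dvd_trans ?_ h2
      rw [Int.natCast_dvd_natCast, hMdef]
      exact Nat.mul_dvd_mul_left 8 (Nat.dvd_factorial hpp.pos hpQ)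
    · push Not at hpQ
      have hp2 : p ≠ 2 := by omega
      have hψp : (ψ.leadingCoeff : ZMod p) ≠ 0 := by
        intro h0
        rw [ZMod.intCast_zmod_eq_zero_iff_dvd] at h0
        have h1 := Int.natAbs_dvd_natAbs.2 h0
        rw [Int.natAbs_natCast] at h1
        have h2 := Nat.le_of_dvd (Int.natAbs_pos.2 hlc) h1
        omega
      apply Els.point_good hψ hψp (by omega) hp2
      intro hcon
      by_cases hph : p ≤ h
      · apply hb1
        rw [hbad, mem_biUnion]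
        refine ⟨p, mem_filter.2 ⟨mem_Ioc.2 ⟨hpQ, hph⟩, hpp⟩, ?_⟩
        rw [mem_union]
        by_cases h01 : (p : ℤ) ∣ Els.co (M : ℤ) t 0 ∧ (p : ℤ) ∣ Els.co (M : ℤ) t 1
        · left
          rw [Els.S1, mem_filter]
          exact ⟨hb, h01⟩
        · right
          rw [Els.S2, mem_filter]
          exact ⟨hb, h01, hp, hcon⟩
      · push Not at hph
        have h2K : (2 : AlgebraicClosure (ZMod p)) ≠ 0 := by
          intro h0
          apply BG.Els.two_ne (p := p) hp2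
          apply (algebraMap (ZMod p) (AlgebraicClosure (ZMod p))).injective
          rw [map_ofNat, map_zero]
          exact h0
        have ha0 : (Els.co (M : ℤ) t 0 : AlgebraicClosure (ZMod p)) ≠ 0 := by
          intro h0
          rw [BG.PEls.cast_eq_zero (p := p), Els.co_lt _ t (by rw [Fin.val_zero]; omega)] at h0
          rcases (Nat.prime_iff_prime_int.1 hpp).dvd_or_dvd h0 with h4 | h4
          · exact hQM p hpp hpQ h4
          · have h5 := Els.pos_of_box hb 0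
            have h6 := Int.le_of_dvd (by linarith [h5.1]) h4
            have h7 : (h : ℤ) < p := by exact_mod_cast hph
            linarith [h5.2]
        have hrel : (p : ℤ) ∣ Els.RR (Els.co (M : ℤ) t) ∧ (p : ℤ) ∣ Els.NN (Els.co (M : ℤ) t) := by
          obtain ⟨m, hm⟩ := he
          have hm2 : n = 2 * m := by omega
          subst hm2
          exact Els.rel (K := AlgebraicClosure (ZMod p)) (by omega) h2K ha0 hcon
        have hR0 : Els.RR (Els.co (M : ℤ) t) ≠ 0 := by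
          intro h0
          apply hb2
          rw [Els.E1, mem_filter]
          exact ⟨hb, h0⟩
        apply hb3
        rw [Els.E2, mem_filter]
        exact ⟨hb, hR0, p, hpp, hph, hp2, hQM p hpp hpQ, hrel.1, hrel.2⟩
  -- the count
  have hinj : ((Els.box (n + 1) h \ bad').card : ℝ) ≤ (cnt n (ELS ψ) H : ℝ) := by
    unfold cnt
    have h1 : (Els.box (n + 1) h \ bad').card ≤
        ((Fintype.piFinset fun _ : Fin (n + 1) => Icc (-(H : ℤ)) (H : ℤ)).filter
          (ELS ψ)).card := by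
      apply card_le_card_of_injOn (Els.co (M : ℤ))
      · intro t ht
        rw [mem_coe] at ht
        have hb := (mem_sdiff.1 ht).1
        rw [mem_coe, mem_filter, Fintype.mem_piFinset]
        refine ⟨fun i => ?_, hgood t ht⟩
        have h2 := hco t hb i
        have h3 : (M : ℤ) * (h + 1) ≤ H := by exact_mod_cast hMh
        rw [mem_Icc]
        constructor <;> linarith [h2.1, h2.2]
      · intro t _ t' _ htt
        funext i
        exact Els.co_inj hMz.ne' (congrFun htt i)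
    exact_mod_cast h1
  have hb3 : ((Els.box (n + 1) h).card : ℝ) ≤
      ((Els.box (n + 1) h \ bad').card : ℝ) + ((bad.card : ℝ) +
        (((Els.E1 n M h).card : ℝ) + ((Els.E2 n M h).card : ℝ))) := by
    have h1 : Els.box (n + 1) h ⊆ (Els.box (n + 1) h \ bad') ∪ bad' := by
      intro t ht
      rw [mem_union, mem_sdiff]
      by_cases h : t ∈ bad'
      · exact Or.inr h
      · exact Or.inl ⟨ht, h⟩
    have h2 := (card_le_card h1).trans ((card_union_le _ _).trans
      (Nat.add_le_add_left ((card_union_le _ _).trans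
        (Nat.add_le_add_left (card_union_le _ _) _)) _))
    exact_mod_cast h2
  rw [Els.card_box] at hb3
  push_cast at hb3
  have hE1 := Els.card_E1 hn hMz h
  have hE2 := Els.card_E2 hn (M := (M : ℤ)) hRR
  have hb2 : (bad.card : ℝ) ≤ (h : ℝ) ^ (n + 1) / 4 + 4 * (h : ℝ) ^ n := by
    have h1 : (bad.card : ℝ) ≤ ∑ p ∈ (Ioc Q h).filter Nat.Prime,
        (((Els.S1 n M h p).card : ℝ) + ((Els.S2 n M h p).card : ℝ)) := by
      have h2 := card_biUnion_le (s := (Ioc Q h).filter Nat.Prime)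
        (t := fun p => Els.S1 n M h p ∪ Els.S2 n M h p)
      have h3 : (bad.card : ℝ) ≤ ∑ p ∈ (Ioc Q h).filter Nat.Prime,
        (((Els.S1 n M h p ∪ Els.S2 n M h p).card : ℕ) : ℝ) := by exact_mod_cast h2
      refine h3.trans (sum_le_sum fun p _ => ?_)
      exact_mod_cast card_union_le _ _
    have h2 : ∑ p ∈ (Ioc Q h).filter Nat.Prime,
        (((Els.S1 n M h p).card : ℝ) + ((Els.S2 n M h p).card : ℝ)) ≤
        ∑ p ∈ Ioc Q h, (h : ℝ) ^ (n - 1) * (4 * (h : ℝ) ^ 2 * ((p : ℝ) ^ 2)⁻¹ + 4) := by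
      refine (sum_le_sum fun p hp => ?_).trans
        (sum_le_sum_of_subset_of_nonneg (filter_subset _ _) fun p _ _ => by positivity)
      rw [mem_filter, mem_Ioc] at hp
      have hp0 : (0 : ℝ) < p := by exact_mod_cast hp.2.pos
      have h3 := Els.card_S1 hn (M := (M : ℤ)) (h := h) hp.2 (hQM p hp.2 hp.1.1)
      have h4 := Els.card_S2 hn (M := (M : ℤ)) (h := h) hp.2 (by omega) (hQM p hp.2 hp.1.1)
      have h5 : ((h : ℝ) / p + 1) ^ 2 ≤ 2 * ((h : ℝ) / p) ^ 2 + 2 := by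
        nlinarith [sq_nonneg ((h : ℝ) / p - 1)]
      have h6 : ((h : ℝ) / p) ^ 2 = (h : ℝ) ^ 2 * ((p : ℝ) ^ 2)⁻¹ := by
        rw [div_pow, div_eq_mul_inv]
      rw [h6] at h5
      have h7 := mul_le_mul_of_nonneg_left h5 (by positivity : (0 : ℝ) ≤ (h : ℝ) ^ (n - 1))
      linarith
    have h3 : ∑ p ∈ Ioc Q h, (((p : ℕ) : ℝ) ^ 2)⁻¹ ≤ 1 / 16 := by
      have hsum := sum_Ioc_inv_sq_le_sub (α := ℝ) (k := Q) (n := h) (by omega) hhQ.le
      have h4 : (0 : ℝ) ≤ (((h : ℕ) : ℕ) : ℝ)⁻¹ := by positivity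
      have hQ16 : (16 : ℝ) ≤ Q := by
        have : 16 ≤ Q := by omega
        exact_mod_cast this
      have h5 : (Q : ℝ)⁻¹ ≤ 1 / 16 := by
        rw [one_div]
        exact inv_anti₀ (by norm_num) hQ16
      linarith
    have h4 : (((Ioc Q h).card : ℕ) : ℝ) ≤ h := by
      rw [Nat.card_Ioc]
      exact_mod_cast Nat.sub_le _ _
    have h5 : (h : ℝ) ^ (n + 1) = (h : ℝ) ^ (n - 1) * (h : ℝ) ^ 2 := by
      rw [← pow_add]
      congr 1
      omega
    have h6 : (h : ℝ) ^ n = (h : ℝ) ^ (n - 1) * h := by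
      rw [← pow_succ]
      congr 1
      omega
    refine h1.trans (h2.trans ?_)
    rw [← mul_sum, sum_add_distrib, ← mul_sum, sum_const, nsmul_eq_mul, h5, h6]
    have h7 : 4 * (h : ℝ) ^ 2 * ∑ p ∈ Ioc Q h, (((p : ℕ) : ℝ) ^ 2)⁻¹ ≤ 4 * (h : ℝ) ^ 2 * (1 / 16) :=
      mul_le_mul_of_nonneg_left h3 (by positivity)
    calc (h : ℝ) ^ (n - 1) * (4 * (h : ℝ) ^ 2 * ∑ p ∈ Ioc Q h, (((p : ℕ) : ℝ) ^ 2)⁻¹ +
          (((Ioc Q h).card : ℕ) : ℝ) * 4)
        ≤ (h : ℝ) ^ (n - 1) * (4 * (h : ℝ) ^ 2 * (1 / 16) + h * 4) := by gcongr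
      _ = (h : ℝ) ^ (n - 1) * (h : ℝ) ^ 2 / 4 + 4 * ((h : ℝ) ^ (n - 1) * h) := by ring
  have hmain : (h : ℝ) ^ (n + 1) / 2 ≤ ((Els.box (n + 1) h \ bad').card : ℝ) := by
    have h1 : ((n : ℝ) + 5) * (h : ℝ) ^ n ≤ (h : ℝ) ^ (n + 1) / 4 := by
      have h2 : 4 * ((n : ℝ) + 5) ≤ h := by exact_mod_cast hhn
      have h3 : (h : ℝ) ^ (n + 1) = h * (h : ℝ) ^ n := pow_succ' _ _
      rw [h3]
      have h4 := mul_le_mul_of_nonneg_right h2 (by positivity : (0 : ℝ) ≤ (h : ℝ) ^ n)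
      linarith
    have h2 : ((n : ℝ) + 5) * (h : ℝ) ^ n = 4 * (h : ℝ) ^ n + (h : ℝ) ^ n + (h : ℝ) ^ n * n := by
      ring
    linarith
  refine le_trans ?_ (hmain.trans hinj)
  have h1 : ((H : ℝ) / (4 * M)) ^ (n + 1) ≤ (h : ℝ) ^ (n + 1) :=
    pow_le_pow_left₀ (by positivity) hhH _
  rw [div_pow] at h1
  calc 1 / (2 * (4 * (M : ℝ)) ^ (n + 1)) * (H : ℝ) ^ (n + 1)
      = (H : ℝ) ^ (n + 1) / (4 * M) ^ (n + 1) / 2 := by
        field_simp
    _ ≤ (h : ℝ) ^ (n + 1) / 2 := by linarith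

end Stoll308.BF
end

section
set_option autoImplicit false

/-!
The polynomials which are not a constant times a square modulo the large primes.
-/

namespace Stoll308.DQ

open Polynomial Finset BG BF

open Classical in
/-- The good parameters: `f(T²)` is not a constant times a square modulo any prime `p > Q`. -/
noncomputable def GB (n : ℕ) (Q h : ℕ) : Finset (Fin (n + 1) → ℤ) :=
  (BF.Els.box (n + 1) h).filter fun t => ∀ (p : ℕ) [Fact p.Prime], Q < p →
    ¬ ((p : ℤ) ∣ BF.Els.co ((8 * Q.factorial : ℕ) : ℤ) t 0 ∧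
      (p : ℤ) ∣ BF.Els.co ((8 * Q.factorial : ℕ) : ℤ) t 1) ∧
    ¬ BF.Els.SqK (AlgebraicClosure (ZMod p)) (BF.Els.co ((8 * Q.factorial : ℕ) : ℤ) t)

/-- the coefficients have the size of the parameters -/
theorem co_size {n h M : ℕ} (hM : 0 < M) {t : Fin (n + 1) → ℤ} (ht : t ∈ BF.Els.box (n + 1) h)
    (i : Fin (n + 1)) : 0 < BF.Els.co (M : ℤ) t i ∧ BF.Els.co (M : ℤ) t i ≤ M * (h + 1) := by
  have hMz : (0 : ℤ) < (M : ℤ) := by exact_mod_cast hM
  have h1 := BF.Els.pos_of_box ht i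
  have h2 : (M : ℤ) * 1 ≤ M * t i := mul_le_mul_of_nonneg_left h1.1 hMz.le
  have h3 : (M : ℤ) * t i ≤ M * h := mul_le_mul_of_nonneg_left h1.2 hMz.le
  have h4 : (1 : ℤ) ≤ M := hMz
  unfold BF.Els.co
  constructor
  · split_ifs <;> linarith
  · split_ifs <;> linarith

theorem good_box (n : ℕ) (hn : 4 ≤ n) (he : Even n) (Q : ℕ) (hQ : 16 ≤ Q) :
    ∃ h₀ : ℕ, ∀ h : ℕ, h₀ ≤ h → (h : ℝ) ^ (n + 1) / 2 ≤ ((GB n Q h).card : ℝ) := by
  classical
  obtain ⟨C, hC0, hC⟩ := BF.Els.RR_bound n hn he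
  obtain ⟨M, hMdef⟩ : ∃ M : ℕ, M = 8 * Q.factorial := ⟨_, rfl⟩
  have hM : 0 < M := by
    rw [hMdef]
    exact Nat.mul_pos (by norm_num) (Nat.factorial_pos _)
  have hMz : (0 : ℤ) < (M : ℤ) := by exact_mod_cast hM
  have hM0 : (0 : ℝ) < M := by exact_mod_cast hM
  have hQM : ∀ p : ℕ, p.Prime → Q < p → ¬ (p : ℤ) ∣ (M : ℤ) := by
    intro p hp hQp h
    rw [Int.natCast_dvd_natCast, hMdef] at h
    rcases (hp.dvd_mul).1 h with h | h
    · have h2 : p ∣ 2 ^ 3 := by norm_num; exact h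
      have := Nat.le_of_dvd (by norm_num) (hp.dvd_of_dvd_pow h2)
      omega
    · have := (hp.dvd_factorial).1 h
      omega
  obtain ⟨C', hC'⟩ : ∃ C' : ℕ, C' = ⌈C * (2 * M) ^ (n - 1)⌉₊ := ⟨_, rfl⟩
  refine ⟨Q + C' + 4 * (n + 5) + 2, ?_⟩
  intro h hH
  have hhQ : Q < h := by omega
  have hhC : C' < h := by omega
  have hhn : 4 * (n + 5) ≤ h := by omega
  have hh1 : 1 ≤ h := by omega
  have hh1' : (1 : ℝ) ≤ h := by exact_mod_cast hh1
  have hco : ∀ t ∈ BF.Els.box (n + 1) h, ∀ i, 0 < BF.Els.co (M : ℤ) t i ∧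
      BF.Els.co (M : ℤ) t i ≤ M * (h + 1) := fun t ht i => co_size hM ht i
  have hRR : ∀ t ∈ BF.Els.box (n + 1) h,
      (BF.Els.RR (BF.Els.co (M : ℤ) t)).natAbs < h ^ n := by
    intro t ht
    have h1 := hC (M * (h + 1)) (by positivity) (BF.Els.co (M : ℤ) t) (by
      intro i
      have h2 := hco t ht i
      rw [abs_of_pos (by exact_mod_cast h2.1)]
      exact_mod_cast h2.2)
    have h2 : C * ((M : ℝ) * (h + 1)) ^ (n - 1) < (h : ℝ) ^ n := by
      have h3 : (M : ℝ) * (h + 1) ≤ (2 * M) * h := by nlinarith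
      have h4 : ((M : ℝ) * (h + 1)) ^ (n - 1) ≤ ((2 * M) * h) ^ (n - 1) :=
        pow_le_pow_left₀ (by positivity) h3 _
      have h5 : C * (2 * M) ^ (n - 1) ≤ C' := by
        rw [hC']
        exact Nat.le_ceil _
      have h6 : (C' : ℝ) < h := by exact_mod_cast hhC
      have h7 : (0 : ℝ) < (h : ℝ) ^ (n - 1) := by positivity
      have h8 : (h : ℝ) ^ n = h * (h : ℝ) ^ (n - 1) := by
        rw [← pow_succ']
        congr 1
        omega
      calc C * ((M : ℝ) * (h + 1)) ^ (n - 1) ≤ C * ((2 * M) * h) ^ (n - 1) :=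
            mul_le_mul_of_nonneg_left h4 hC0
        _ = (C * (2 * M) ^ (n - 1)) * (h : ℝ) ^ (n - 1) := by
            rw [mul_pow]
            ring
        _ < h * (h : ℝ) ^ (n - 1) := mul_lt_mul_of_pos_right (by linarith) h7
        _ = (h : ℝ) ^ n := h8.symm
    have h3 : (((BF.Els.RR (BF.Els.co (M : ℤ) t)).natAbs : ℕ) : ℝ) < (h : ℝ) ^ n := by
      rw [Nat.cast_natAbs]
      push_cast
      exact lt_of_le_of_lt h1 h2
    exact_mod_cast h3
  set bad := ((Ioc Q h).filter Nat.Prime).biUnion fun p => BF.Els.S1 n M h p ∪ BF.Els.S2 n M h p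
    with hbad
  set bad' := bad ∪ (BF.Els.E1 n M h ∪ BF.Els.E2 n M h) with hbad'
  have hgood : BF.Els.box (n + 1) h \ bad' ⊆ GB n Q h := by
    intro t ht
    rw [mem_sdiff, hbad', mem_union, mem_union, not_or, not_or] at ht
    obtain ⟨hb, hb1, hb2, hb3⟩ := ht
    rw [GB, mem_filter, ← hMdef]
    refine ⟨hb, ?_⟩
    intro p hp hpQ
    have hpp : p.Prime := hp.out
    have hp2 : p ≠ 2 := by omega
    have hS1 : ¬ ((p : ℤ) ∣ BF.Els.co (M : ℤ) t 0 ∧ (p : ℤ) ∣ BF.Els.co (M : ℤ) t 1) := by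
      intro h01
      by_cases hph : p ≤ h
      · apply hb1
        rw [hbad, mem_biUnion]
        refine ⟨p, mem_filter.2 ⟨mem_Ioc.2 ⟨hpQ, hph⟩, hpp⟩, ?_⟩
        rw [mem_union]
        left
        rw [BF.Els.S1, mem_filter]
        exact ⟨hb, h01⟩
      · push Not at hph
        have h0 := h01.1
        rw [BF.Els.co_lt _ t (by rw [Fin.val_zero]; omega)] at h0
        rcases (Nat.prime_iff_prime_int.1 hpp).dvd_or_dvd h0 with h4 | h4
        · exact hQM p hpp hpQ h4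
        · have h5 := BF.Els.pos_of_box hb 0
          have h6 := Int.le_of_dvd (by linarith [h5.1]) h4
          have h7 : (h : ℤ) < p := by exact_mod_cast hph
          linarith [h5.2]
    refine ⟨hS1, ?_⟩
    intro hcon
    by_cases hph : p ≤ h
    · apply hb1
      rw [hbad, mem_biUnion]
      refine ⟨p, mem_filter.2 ⟨mem_Ioc.2 ⟨hpQ, hph⟩, hpp⟩, ?_⟩
      rw [mem_union]
      right
      rw [BF.Els.S2, mem_filter]
      exact ⟨hb, hS1, hp, hcon⟩
    · push Not at hph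
      have h2K : (2 : AlgebraicClosure (ZMod p)) ≠ 0 := by
        intro h0
        apply BG.Els.two_ne (p := p) hp2
        apply (algebraMap (ZMod p) (AlgebraicClosure (ZMod p))).injective
        rw [map_ofNat, map_zero]
        exact h0
      have ha0 : (BF.Els.co (M : ℤ) t 0 : AlgebraicClosure (ZMod p)) ≠ 0 := by
        intro h0
        rw [BG.PEls.cast_eq_zero (p := p), BF.Els.co_lt _ t (by rw [Fin.val_zero]; omega)] at h0
        rcases (Nat.prime_iff_prime_int.1 hpp).dvd_or_dvd h0 with h4 | h4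
        · exact hQM p hpp hpQ h4
        · have h5 := BF.Els.pos_of_box hb 0
          have h6 := Int.le_of_dvd (by linarith [h5.1]) h4
          have h7 : (h : ℤ) < p := by exact_mod_cast hph
          linarith [h5.2]
      have hrel : (p : ℤ) ∣ BF.Els.RR (BF.Els.co (M : ℤ) t) ∧
          (p : ℤ) ∣ BF.Els.NN (BF.Els.co (M : ℤ) t) := by
        obtain ⟨m, hm⟩ := he
        have hm2 : n = 2 * m := by omega
        subst hm2
        exact BF.Els.rel (K := AlgebraicClosure (ZMod p)) (by omega) h2K ha0 hcon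
      have hR0 : BF.Els.RR (BF.Els.co (M : ℤ) t) ≠ 0 := by
        intro h0
        apply hb2
        rw [BF.Els.E1, mem_filter]
        exact ⟨hb, h0⟩
      apply hb3
      rw [BF.Els.E2, mem_filter]
      exact ⟨hb, hR0, p, hpp, hph, hp2, hQM p hpp hpQ, hrel.1, hrel.2⟩
  have hb3 : ((BF.Els.box (n + 1) h).card : ℝ) ≤
      ((BF.Els.box (n + 1) h \ bad').card : ℝ) + ((bad.card : ℝ) +
        (((BF.Els.E1 n M h).card : ℝ) + ((BF.Els.E2 n M h).card : ℝ))) := by
    have h1 : BF.Els.box (n + 1) h ⊆ (BF.Els.box (n + 1) h \ bad') ∪ bad' := by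
      intro t ht
      rw [mem_union, mem_sdiff]
      by_cases h : t ∈ bad'
      · exact Or.inr h
      · exact Or.inl ⟨ht, h⟩
    have h2 := (card_le_card h1).trans ((card_union_le _ _).trans
      (Nat.add_le_add_left ((card_union_le _ _).trans
        (Nat.add_le_add_left (card_union_le _ _) _)) _))
    exact_mod_cast h2
  rw [BF.Els.card_box] at hb3
  push_cast at hb3
  have hE1 := BF.Els.card_E1 hn hMz h
  have hE2 := BF.Els.card_E2 hn (M := (M : ℤ)) hRR
  have hb2 : (bad.card : ℝ) ≤ (h : ℝ) ^ (n + 1) / 4 + 4 * (h : ℝ) ^ n := by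
    have h1 : (bad.card : ℝ) ≤ ∑ p ∈ (Ioc Q h).filter Nat.Prime,
        (((BF.Els.S1 n M h p).card : ℝ) + ((BF.Els.S2 n M h p).card : ℝ)) := by
      have h2 := card_biUnion_le (s := (Ioc Q h).filter Nat.Prime)
        (t := fun p => BF.Els.S1 n M h p ∪ BF.Els.S2 n M h p)
      have h3 : (bad.card : ℝ) ≤ ∑ p ∈ (Ioc Q h).filter Nat.Prime,
        (((BF.Els.S1 n M h p ∪ BF.Els.S2 n M h p).card : ℕ) : ℝ) := by exact_mod_cast h2
      refine h3.trans (sum_le_sum fun p _ => ?_)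
      exact_mod_cast card_union_le _ _
    have h2 : ∑ p ∈ (Ioc Q h).filter Nat.Prime,
        (((BF.Els.S1 n M h p).card : ℝ) + ((BF.Els.S2 n M h p).card : ℝ)) ≤
        ∑ p ∈ Ioc Q h, (h : ℝ) ^ (n - 1) * (4 * (h : ℝ) ^ 2 * ((p : ℝ) ^ 2)⁻¹ + 4) := by
      refine (sum_le_sum fun p hp => ?_).trans
        (sum_le_sum_of_subset_of_nonneg (filter_subset _ _) fun p _ _ => by positivity)
      rw [mem_filter, mem_Ioc] at hp
      have hp0 : (0 : ℝ) < p := by exact_mod_cast hp.2.pos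
      have h3 := BF.Els.card_S1 hn (M := (M : ℤ)) (h := h) hp.2 (hQM p hp.2 hp.1.1)
      have h4 := BF.Els.card_S2 hn (M := (M : ℤ)) (h := h) hp.2 (by omega) (hQM p hp.2 hp.1.1)
      have h5 : ((h : ℝ) / p + 1) ^ 2 ≤ 2 * ((h : ℝ) / p) ^ 2 + 2 := by
        nlinarith [sq_nonneg ((h : ℝ) / p - 1)]
      have h6 : ((h : ℝ) / p) ^ 2 = (h : ℝ) ^ 2 * ((p : ℝ) ^ 2)⁻¹ := by
        rw [div_pow, div_eq_mul_inv]
      rw [h6] at h5
      have h7 := mul_le_mul_of_nonneg_left h5 (by positivity : (0 : ℝ) ≤ (h : ℝ) ^ (n - 1))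
      linarith
    have h3 : ∑ p ∈ Ioc Q h, (((p : ℕ) : ℝ) ^ 2)⁻¹ ≤ 1 / 16 := by
      have hsum := sum_Ioc_inv_sq_le_sub (α := ℝ) (k := Q) (n := h) (by omega) hhQ.le
      have h4 : (0 : ℝ) ≤ (((h : ℕ) : ℕ) : ℝ)⁻¹ := by positivity
      have hQ16 : (16 : ℝ) ≤ Q := by exact_mod_cast hQ
      have h5 : (Q : ℝ)⁻¹ ≤ 1 / 16 := by
        rw [one_div]
        exact inv_anti₀ (by norm_num) hQ16
      linarith
    have h4 : (((Ioc Q h).card : ℕ) : ℝ) ≤ h := by
      rw [Nat.card_Ioc]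
      exact_mod_cast Nat.sub_le _ _
    have h5 : (h : ℝ) ^ (n + 1) = (h : ℝ) ^ (n - 1) * (h : ℝ) ^ 2 := by
      rw [← pow_add]
      congr 1
      omega
    have h6 : (h : ℝ) ^ n = (h : ℝ) ^ (n - 1) * h := by
      rw [← pow_succ]
      congr 1
      omega
    refine h1.trans (h2.trans ?_)
    rw [← mul_sum, sum_add_distrib, ← mul_sum, sum_const, nsmul_eq_mul, h5, h6]
    have h7 : 4 * (h : ℝ) ^ 2 * ∑ p ∈ Ioc Q h, (((p : ℕ) : ℝ) ^ 2)⁻¹ ≤ 4 * (h : ℝ) ^ 2 * (1 / 16) :=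
      mul_le_mul_of_nonneg_left h3 (by positivity)
    calc (h : ℝ) ^ (n - 1) * (4 * (h : ℝ) ^ 2 * ∑ p ∈ Ioc Q h, (((p : ℕ) : ℝ) ^ 2)⁻¹ +
          (((Ioc Q h).card : ℕ) : ℝ) * 4)
        ≤ (h : ℝ) ^ (n - 1) * (4 * (h : ℝ) ^ 2 * (1 / 16) + h * 4) := by gcongr
      _ = (h : ℝ) ^ (n - 1) * (h : ℝ) ^ 2 / 4 + 4 * ((h : ℝ) ^ (n - 1) * h) := by ring
  have hmain : (h : ℝ) ^ (n + 1) / 2 ≤ ((BF.Els.box (n + 1) h \ bad').card : ℝ) := by
    have h1 : ((n : ℝ) + 5) * (h : ℝ) ^ n ≤ (h : ℝ) ^ (n + 1) / 4 := by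
      have h2 : 4 * ((n : ℝ) + 5) ≤ h := by exact_mod_cast hhn
      have h3 : (h : ℝ) ^ (n + 1) = h * (h : ℝ) ^ n := pow_succ' _ _
      rw [h3]
      have h4 := mul_le_mul_of_nonneg_right h2 (by positivity : (0 : ℝ) ≤ (h : ℝ) ^ n)
      linarith
    have h2 : ((n : ℝ) + 5) * (h : ℝ) ^ n = 4 * (h : ℝ) ^ n + (h : ℝ) ^ n + (h : ℝ) ^ n * n := by
      ring
    linarith
  refine hmain.trans ?_
  exact_mod_cast card_le_card hgood

open Classical in
/-- Most parameters give irreducible polynomials. -/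
theorem irr_box (n : ℕ) (hn : 4 ≤ n) (M : ℕ) (hM : 0 < M) (ε : ℝ) (hε : 0 < ε) :
    ∃ h₀ : ℕ, ∀ h : ℕ, h₀ ≤ h → (((BF.Els.box (n + 1) h).filter fun t =>
      ¬ Irreducible (GZ ℚ (BF.Els.co (M : ℤ) t))).card : ℝ) ≤ ε * (h : ℝ) ^ (n + 1) := by
  have hMz : (0 : ℤ) < (M : ℤ) := by exact_mod_cast hM
  have hM0 : (0 : ℝ) < M := by exact_mod_cast hM
  obtain ⟨H₀, hH⟩ := BF.reducible_small n (by omega) (ε / (2 * M) ^ (n + 1)) (by positivity)
  refine ⟨H₀ + 1, fun h hh => ?_⟩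
  have h1 := hH (M * (h + 1)) (by nlinarith)
  have hh1 : (1 : ℝ) ≤ h := by exact_mod_cast (by omega : 1 ≤ h)
  have hinj : ((BF.Els.box (n + 1) h).filter fun t =>
      ¬ Irreducible (GZ ℚ (BF.Els.co (M : ℤ) t))).card ≤
      BF.cnt n (fun a => a 0 = 0 ∨ IsSquare (a 0) ∨ ¬ Irreducible (GZ ℚ a)) (M * (h + 1)) := by
    unfold BF.cnt
    apply card_le_card_of_injOn (BF.Els.co (M : ℤ))
    · intro t ht
      rw [mem_coe, mem_filter] at ht
      refine mem_coe.2 ((@mem_filter _ _ (fun a => Classical.propDecidable _) _ _).2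
        ⟨Fintype.mem_piFinset.2 fun i => ?_, Or.inr (Or.inr ht.2)⟩)
      have h2 := co_size hM ht.1 i
      rw [mem_Icc]
      push_cast
      constructor
      · have : (0 : ℤ) ≤ (M : ℤ) * (h + 1) := by positivity
        linarith [h2.1]
      · exact h2.2
    · intro t _ t' _ htt
      funext i
      exact BF.Els.co_inj hMz.ne' (congrFun htt i)
  have h3 : (((BF.Els.box (n + 1) h).filter fun t =>
      ¬ Irreducible (GZ ℚ (BF.Els.co (M : ℤ) t))).card : ℝ) ≤
      ε / (2 * M) ^ (n + 1) * ((M * (h + 1) : ℕ) : ℝ) ^ (n + 1) :=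
    le_trans (by exact_mod_cast hinj) h1
  refine h3.trans ?_
  have h4 : ((M * (h + 1) : ℕ) : ℝ) ≤ 2 * M * h := by
    push_cast
    nlinarith
  have h5 : ((M * (h + 1) : ℕ) : ℝ) ^ (n + 1) ≤ (2 * M * h) ^ (n + 1) :=
    pow_le_pow_left₀ (by positivity) h4 _
  calc ε / (2 * M) ^ (n + 1) * ((M * (h + 1) : ℕ) : ℝ) ^ (n + 1)
      ≤ ε / (2 * M) ^ (n + 1) * (2 * M * h) ^ (n + 1) :=
        mul_le_mul_of_nonneg_left h5 (by positivity)
    _ = ε * (h : ℝ) ^ (n + 1) := by
        rw [mul_pow (2 * (M : ℝ)) h]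
        field_simp

end Stoll308.DQ
end

section
set_option autoImplicit false

/-!
Few of the curves are singular (general `ψ`).
-/

namespace Stoll308.BG

open Polynomial Finset

namespace PSmooth

/-- a multiple factor of `f(ψ²)` comes from a critical point of `ψ` -/
lemma crit {f ψ : ℚ[X]} (hf : Irreducible f) (hd : 2 ≤ f.natDegree)
    (hns : ¬ Squarefree (f.comp (ψ ^ 2))) :
    ∃ x : ℂ, aeval x (derivative ψ) = 0 ∧ aeval ((aeval x ψ) ^ 2) f = 0 := by
  have h1 : ¬ (f.comp (ψ ^ 2)).Separable := fun h => hns h.squarefree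
  rw [separable_def, isCoprime_iff_aeval_ne_zero_of_isAlgClosed ℚ ℂ] at h1
  push Not at h1
  obtain ⟨x, hx1, hx2⟩ := h1
  rw [aeval_comp, map_pow] at hx1
  rw [derivative_comp, map_mul, aeval_comp, derivative_sq, map_pow, map_mul, map_mul] at hx2
  refine ⟨x, ?_, hx1⟩
  have hsep := hf.separable
  rw [separable_def, isCoprime_iff_aeval_ne_zero_of_isAlgClosed ℚ ℂ] at hsep
  have h2 : aeval ((aeval x ψ) ^ 2) (derivative f) ≠ 0 := by
    rcases hsep ((aeval x ψ) ^ 2) with h | h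
    · exact absurd hx1 h
    · exact h
  have h3 : aeval x ψ ≠ 0 := by
    intro h
    rw [h, zero_pow two_ne_zero] at hx1
    have h4 : f.IsRoot 0 := by
      have h5 : aeval (algebraMap ℚ ℂ 0) f = 0 := by rwa [map_zero]
      rw [aeval_algebraMap_apply, map_eq_zero] at h5
      rwa [IsRoot.def, ← coe_aeval_eq_eval]
    have h6 := degree_eq_one_of_irreducible_of_root hf h4
    have h7 : f.natDegree = 1 := natDegree_eq_of_degree_eq_some h6
    omega
  have h8 := (mul_eq_zero.1 hx2).resolve_right h2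
  rcases mul_eq_zero.1 h8 with h9 | h9
  · rcases mul_eq_zero.1 h9 with h10 | h10
    · simp at h10
    · exact absurd h10 h3
  · exact h9

/-- the critical points of `ψ` -/
noncomputable def CP (ψ : ℤ[X]) : Finset ℂ := ((derivative ψ).map (Int.castRingHom ℂ)).roots.toFinset

lemma mem_CP {ψ : ℤ[X]} (hψ : 1 ≤ ψ.natDegree) {x : ℂ}
    (hx : aeval x (derivative (ψ.map (Int.castRingHom ℚ))) = 0) : x ∈ CP ψ := by
  unfold CP
  rw [Multiset.mem_toFinset, mem_roots]
  · rw [IsRoot.def]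
    rw [derivative_map, aeval_def, eval₂_map] at hx
    have e : (algebraMap ℚ ℂ).comp (Int.castRingHom ℚ) = Int.castRingHom ℂ := RingHom.ext_int _ _
    rw [e] at hx
    rw [eval_map]
    exact hx
  · intro h
    have h1 : derivative ψ = 0 := by
      have hinj : Function.Injective (Polynomial.map (Int.castRingHom ℂ)) :=
        map_injective _ (RingHom.injective_int _)
      exact hinj (by rw [h, Polynomial.map_zero])
    have h2 := derivative_eq_zero.1 h1
    omega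

lemma cnt_le_add (n : ℕ) (P Q : (Fin n → ℤ) → Prop) {ι : Type*} (S : Finset ι)
    (R : ι → (Fin n → ℤ) → Prop) (X : ℕ) (h : ∀ a, P a → Q a ∨ ∃ x ∈ S, R x a) :
    cnt n P X ≤ cnt n Q X + ∑ x ∈ S, cnt n (R x) X := by
  classical
  unfold cnt
  refine le_trans (Finset.card_le_card (t := _ ∪ S.biUnion fun x =>
    ((Fintype.piFinset fun i : Fin n =>
      Icc (-(X : ℤ) ^ ((i : ℕ) + 1)) ((X : ℤ) ^ ((i : ℕ) + 1))).filter (R x))) ?_)
    (le_trans (Finset.card_union_le _ _) (Nat.add_le_add_left Finset.card_biUnion_le _))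
  intro a ha
  have ha' := Finset.mem_filter.1 ha
  rcases h a ha'.2 with h1 | ⟨x, hx, h1⟩
  · exact Finset.mem_union_left _ (Finset.mem_filter.2 ⟨ha'.1, h1⟩)
  · exact Finset.mem_union_right _ (Finset.mem_biUnion.2 ⟨x, hx, Finset.mem_filter.2 ⟨ha'.1, h1⟩⟩)

/-- few polynomials have a given root -/
lemma cnt_root (m : ℕ) (α : ℤ) (ξ : ℂ) (X : ℕ) :
    cnt (m + 1) (fun b => aeval ξ (fpol (α : ℚ) (fun i => (b i : ℚ))) = 0) X ≤
      ∏ i : Fin m, (2 * X ^ ((i : ℕ) + 1) + 1) := by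
  classical
  have hc : (Fintype.piFinset fun i : Fin m =>
      Icc (-(X : ℤ) ^ ((i : ℕ) + 1)) ((X : ℤ) ^ ((i : ℕ) + 1))).card =
      ∏ i : Fin m, (2 * X ^ ((i : ℕ) + 1) + 1) := by
    rw [Fintype.card_piFinset]
    refine Finset.prod_congr rfl fun i _ => ?_
    rw [Int.card_Icc]
    have : (X : ℤ) ^ ((i : ℕ) + 1) = ((X ^ ((i : ℕ) + 1) : ℕ) : ℤ) := by push_cast; rfl
    rw [this]
    omega
  rw [← hc]
  unfold cnt
  refine Finset.card_le_card_of_injOn (fun b i => b i.castSucc) ?_ ?_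
  · intro b hb
    have hb' := (Finset.mem_filter.1 (Finset.mem_coe.1 hb)).1
    rw [Fintype.mem_piFinset] at hb'
    rw [Finset.mem_coe, Fintype.mem_piFinset]
    intro i
    have := hb' i.castSucc
    rwa [Fin.val_castSucc] at this
  · intro b hb b' hb' hbb
    have h1 := (Finset.mem_filter.1 (Finset.mem_coe.1 hb)).2
    have h2 := (Finset.mem_filter.1 (Finset.mem_coe.1 hb')).2
    have e : ∀ c : Fin (m + 1) → ℤ, aeval ξ (fpol (α : ℚ) (fun i => (c i : ℚ))) =
        (α : ℂ) * ξ ^ (m + 1) + (∑ i : Fin m, (c i.castSucc : ℂ) * ξ ^ (m - (i : ℕ)) +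
          (c (Fin.last m) : ℂ)) := by
      intro c
      unfold fpol
      rw [map_add, map_mul, aeval_C, map_pow, aeval_X, map_sum, Fin.sum_univ_castSucc]
      simp
    rw [e] at h1 h2
    have h3 : ∀ i : Fin m, b i.castSucc = b' i.castSucc := fun i => congrFun hbb i
    have h4 : ∑ i : Fin m, (b i.castSucc : ℂ) * ξ ^ (m - (i : ℕ)) =
        ∑ i : Fin m, (b' i.castSucc : ℂ) * ξ ^ (m - (i : ℕ)) :=
      Finset.sum_congr rfl fun i _ => by rw [h3 i]
    have h5 : (b (Fin.last m) : ℂ) = (b' (Fin.last m) : ℂ) := by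
      have h6 := h1.trans h2.symm
      rw [h4] at h6
      linear_combination h6
    have h7 : b (Fin.last m) = b' (Fin.last m) := by exact_mod_cast h5
    funext i
    refine Fin.lastCases h7 (fun j => h3 j) i

lemma irr_fpol {n : ℕ} (hn : 1 ≤ n) (α : ℤ) (hα : α ≠ 0) (b : Fin n → ℤ)
    (h : Irreducible (FZ ℚ fun i => α ^ (i : ℕ) * b i)) :
    Irreducible (fpol (α : ℚ) (fun i => (b i : ℚ))) ∧
      (fpol (α : ℚ) (fun i => (b i : ℚ))).natDegree = n := by
  have hα' : (α : ℚ) ≠ 0 := by exact_mod_cast hα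
  have h1 := Transfer.comp_fpol hn (α : ℚ) (fun i => (b i : ℚ)) hα'
  rw [← Transfer.FZ_cast] at h1
  have hu : IsUnit (C (((α : ℚ) ^ (n - 1))⁻¹) : ℚ[X]) :=
    isUnit_C.2 (IsUnit.mk0 _ (inv_ne_zero (pow_ne_zero _ hα')))
  have h2 : Irreducible ((fpol (α : ℚ) (fun i => (b i : ℚ))).comp (C (α : ℚ)⁻¹ * X)) := by
    rw [h1]
    exact (irreducible_isUnit_mul hu).2 h
  refine ⟨?_, ?_⟩
  · refine ⟨fun hun => h2.1 ?_, fun p q hpq => ?_⟩
    · obtain ⟨c, hc, hc'⟩ := Polynomial.isUnit_iff.1 hun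
      rw [← hc', C_comp]
      exact isUnit_C.2 hc
    · have h3 : ∀ p : ℚ[X], IsUnit (p.comp (C (α : ℚ)⁻¹ * X)) → IsUnit p := by
        intro p hp
        obtain ⟨c, hc, hc'⟩ := Polynomial.isUnit_iff.1 hp
        have h4 : (p.comp (C (α : ℚ)⁻¹ * X)).comp (C (α : ℚ) * X) = p := by
          rw [comp_assoc]
          have : (C (α : ℚ)⁻¹ * X : ℚ[X]).comp (C (α : ℚ) * X) = X := by
            rw [mul_comp, C_comp, X_comp, ← mul_assoc, ← C_mul, inv_mul_cancel₀ hα', C_1, one_mul]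
          rw [this, comp_X]
        rw [← h4, ← hc', C_comp]
        exact isUnit_C.2 hc
      have h5 : (fpol (α : ℚ) (fun i => (b i : ℚ))).comp (C (α : ℚ)⁻¹ * X) =
          p.comp (C (α : ℚ)⁻¹ * X) * q.comp (C (α : ℚ)⁻¹ * X) := by
        rw [hpq, mul_comp]
      rcases h2.2 h5 with h6 | h6
      · exact Or.inl (h3 p h6)
      · exact Or.inr (h3 q h6)
  · have h3 := congrArg natDegree h1
    rw [natDegree_comp, natDegree_C_mul_X _ (inv_ne_zero hα'), mul_one,
      natDegree_C_mul (inv_ne_zero (pow_ne_zero _ hα')), (IrrDens.fpol_natDegree _).1] at h3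
    exact h3

end PSmooth

open PSmooth in
theorem singular_small (n : ℕ) (hn : 2 ≤ n) (α : ℤ) (hα : α ≠ 0) (ψ : ℤ[X])
    (hψ : 1 ≤ ψ.natDegree) (ε : ℝ) (hε : 0 < ε) :
    ∃ X₀ : ℕ, ∀ X : ℕ, X₀ ≤ X →
      (cnt n (fun b => ¬ SmoothP ψ α b) X : ℝ) ≤ ε * X ^ (n * (n + 1) / 2) := by
  obtain ⟨X₁, h₁⟩ := reducible_small n hn α hα (ε / 2) (half_pos hε)
  obtain ⟨m, rfl⟩ : ∃ m, n = m + 1 := ⟨n - 1, by omega⟩
  obtain ⟨X₂, h₂⟩ := exists_nat_ge (2 * ((CP ψ).card * 3 ^ m) / ε)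
  refine ⟨max X₁ (X₂ + 1), fun X hX => ?_⟩
  have hX1 := h₁ X ((le_max_left _ _).trans hX)
  have hX2 : X₂ + 1 ≤ X := (le_max_right _ _).trans hX
  have hX3 : (1 : ℝ) ≤ X := by exact_mod_cast (by omega : 1 ≤ X)
  have hX4 : 2 * ((CP ψ).card * 3 ^ m) / ε ≤ X := h₂.trans (by exact_mod_cast (by omega : X₂ ≤ X))
  have h3 := cnt_le_add (m + 1) (fun b => ¬ SmoothP ψ α b)
    (fun b => ¬ Irreducible (FZ ℚ fun i => α ^ (i : ℕ) * b i)) (CP ψ)
    (fun x b => aeval ((aeval x (ψ.map (Int.castRingHom ℚ))) ^ 2)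
      (fpol (α : ℚ) (fun i => (b i : ℚ))) = 0) X (by
      intro b hb
      by_cases hirr : Irreducible (FZ ℚ fun i => α ^ (i : ℕ) * b i)
      · right
        obtain ⟨h4, h5⟩ := irr_fpol (by omega) α hα b hirr
        obtain ⟨x, hx1, hx2⟩ := crit h4 (by omega) hb
        exact ⟨x, mem_CP hψ hx1, hx2⟩
      · exact Or.inl hirr)
  have h4 : ∑ x ∈ CP ψ, cnt (m + 1) (fun b => aeval ((aeval x (ψ.map (Int.castRingHom ℚ))) ^ 2)
      (fpol (α : ℚ) (fun i => (b i : ℚ))) = 0) X ≤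
      (CP ψ).card * ∏ i : Fin m, (2 * X ^ ((i : ℕ) + 1) + 1) := by
    rw [← smul_eq_mul]
    exact Finset.sum_le_card_nsmul _ _ _ fun x _ => cnt_root m α _ X
  have h5 : ((∏ i : Fin m, (2 * X ^ ((i : ℕ) + 1) + 1) : ℕ) : ℝ) ≤
      3 ^ m * (X : ℝ) ^ (m * (m + 1) / 2) := by
    push_cast
    calc ∏ i : Fin m, (2 * (X : ℝ) ^ ((i : ℕ) + 1) + 1) ≤ ∏ i : Fin m, (3 * (X : ℝ) ^ ((i : ℕ) + 1)) := by
          refine Finset.prod_le_prod (fun i _ => by positivity) fun i _ => ?_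
          have := one_le_pow₀ hX3 (n := (i : ℕ) + 1)
          linarith
      _ = _ := by
          rw [Finset.prod_mul_distrib, Redu.prod_pow_box, Finset.prod_const, Finset.card_univ,
            Fintype.card_fin]
  have h6 : (X : ℝ) ^ (m * (m + 1) / 2) * X ≤ (X : ℝ) ^ ((m + 1) * (m + 1 + 1) / 2) := by
    rw [← pow_succ]
    refine pow_le_pow_right₀ hX3 ?_
    have : (m + 1) * (m + 1 + 1) = m * (m + 1) + 2 * (m + 1) := by ring
    rw [this, Nat.add_mul_div_left _ _ (by norm_num)]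
    omega
  have h7 : (cnt (m + 1) (fun b => ¬ SmoothP ψ α b) X : ℝ) ≤
      (cnt (m + 1) (fun b => ¬ Irreducible (FZ ℚ fun i => α ^ (i : ℕ) * b i)) X : ℝ) +
        (CP ψ).card * ((∏ i : Fin m, (2 * X ^ ((i : ℕ) + 1) + 1) : ℕ) : ℝ) := by
    exact_mod_cast h3.trans (Nat.add_le_add_left h4 _)
  have h8 : ((CP ψ).card : ℝ) * ((∏ i : Fin m, (2 * X ^ ((i : ℕ) + 1) + 1) : ℕ) : ℝ) ≤
      ε / 2 * (X : ℝ) ^ ((m + 1) * (m + 1 + 1) / 2) := by
    rw [div_le_iff₀ hε] at hX4
    calc ((CP ψ).card : ℝ) * ((∏ i : Fin m, (2 * X ^ ((i : ℕ) + 1) + 1) : ℕ) : ℝ)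
        ≤ (CP ψ).card * (3 ^ m * (X : ℝ) ^ (m * (m + 1) / 2)) := by gcongr
      _ = ((CP ψ).card * 3 ^ m) * (X : ℝ) ^ (m * (m + 1) / 2) := by ring
      _ ≤ (ε / 2 * X) * (X : ℝ) ^ (m * (m + 1) / 2) := by
          refine mul_le_mul_of_nonneg_right ?_ (by positivity)
          linarith
      _ = ε / 2 * ((X : ℝ) ^ (m * (m + 1) / 2) * X) := by ring
      _ ≤ _ := by gcongr
  linarith

end Stoll308.BG
end

section
set_option autoImplicit false

/-!
The number of bad classes modulo `l²` at one root.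
-/

namespace Stoll308.FQ

open Finset Matrix BG BF DQ

open DQ.BadA in
/-- The same condition in `ZMod (l ^ 2)`. -/
lemma badZ_iff {n : ℕ} (s : ℤ) (l : ℕ) (A B : Matrix (Fin n) (Fin n) ℤ) :
    BadZ s l A B ↔ BadS s l (A.map (Int.castRingHom (ZMod (l ^ 2))))
      (B.map (Int.castRingHom (ZMod (l ^ 2)))) := by
  unfold BadZ BadS
  rw [← BG.BadCount.cast_det, ← BG.BadCount.cast_trace]
  simp only [← BG.BadCount.cast_adj, map_intCast]
  rw [ZMod.intCast_zmod_eq_zero_iff_dvd, Ne, ZMod.intCast_zmod_eq_zero_iff_dvd, Ne,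
    ZMod.intCast_zmod_eq_zero_iff_dvd]
  simp only [legendreSym]
  push_cast
  rfl

lemma badZ_of_dvd {n : ℕ} (s : ℤ) (l : ℕ) (A B A₁ B₁ : Matrix (Fin n) (Fin n) ℤ)
    (hA : ∀ i j, ((l ^ 2 : ℕ) : ℤ) ∣ A i j - A₁ i j)
    (hB : ∀ i j, ((l ^ 2 : ℕ) : ℤ) ∣ B i j - B₁ i j) : BadZ s l A B ↔ BadZ s l A₁ B₁ := by
  rw [badZ_iff, badZ_iff, DQ.BadA.map_eq _ A A₁ hA, DQ.BadA.map_eq _ B B₁ hB]

theorem badZ_congr {n : ℕ} (s : ℤ) (l : ℕ) (r : ℤ) (v v' : Ix n ⊕ Ix n → ℤ)
    (h : ∀ i, ((l ^ 2 : ℕ) : ℤ) ∣ v i - v' i) :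
    BadZ s l (symM fun p => v (Sum.inl p))
        ((symM fun p => v (Sum.inr p)) - r • (symM fun p => v (Sum.inl p))) ↔
      BadZ s l (symM fun p => v' (Sum.inl p))
        ((symM fun p => v' (Sum.inr p)) - r • (symM fun p => v' (Sum.inl p))) :=
  badZ_of_dvd s l _ _ _ _ (fun _ _ => h _)
    (DQ.BadB.sub_dvd _ _ _ _ _ _ (fun _ => h _) (fun _ => h _))

open Classical in
theorem badZ_count {n : ℕ} (hn : 4 ≤ n) (he : Even n) (l : ℕ) (hl : l.Prime) (h5 : 5 ≤ l)
    (s : ℤ) (hs : s = 1 ∨ s = -1) (r : ℤ) :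
    (l : ℝ) ^ (2 * (n * (n + 1)) - 1) / 2 ^ (2 * n + 3) ≤
      ((univ.filter fun v : Ix n ⊕ Ix n → Fin (l ^ 2) =>
        BadZ s l (symM fun p => ((v (Sum.inl p) : ℕ) : ℤ))
          ((symM fun p => ((v (Sum.inr p) : ℕ) : ℤ)) -
            r • (symM fun p => ((v (Sum.inl p) : ℕ) : ℤ)))).card : ℝ) := by
  have : Fact l.Prime := ⟨hl⟩
  have h1 : (l : ℝ) ^ (2 * (n * (n + 1)) - 1) / 2 ^ (2 * n + 3) ≤
      ((DQ.BadA.TS s l n).card : ℝ) := by
    rcases hs with rfl | rfl
    · exact (DQ.BadA.card_TS_neg (l := l) hn he h5).trans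
        (Nat.cast_le.2 (DQ.BadA.card_TS_pos (l := l) he (by omega) (by omega)))
    · exact DQ.BadA.card_TS_neg (l := l) hn he h5
  refine h1.trans (Nat.cast_le.2 ?_)
  have h2 : 0 < l ^ 2 := pow_pos hl.pos 2
  -- `r` as a natural number modulo `l²`
  obtain ⟨t, ht⟩ : ∃ t : ℕ, ((l ^ 2 : ℕ) : ℤ) ∣ (t : ℤ) - r := by
    refine ⟨(r % ((l ^ 2 : ℕ) : ℤ)).toNat, ?_⟩
    have h3 : ((l ^ 2 : ℕ) : ℤ) ≠ 0 := by
      have : (0 : ℤ) < ((l ^ 2 : ℕ) : ℤ) := by exact_mod_cast h2
      exact this.ne'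
    rw [Int.toNat_of_nonneg (Int.emod_nonneg r h3)]
    have h4 := Int.emod_add_mul_ediv r ((l ^ 2 : ℕ) : ℤ)
    exact ⟨-(r / ((l ^ 2 : ℕ) : ℤ)), by linear_combination h4⟩
  refine Finset.card_le_card_of_injOn (fun x => DQ.BadB.tr hl.pos t fun i =>
    ⟨(x i : ZMod (l ^ 2)).val, ZMod.val_lt _⟩) ?_ ?_
  · intro x hx
    have hx' := DQ.BadA.mem_TS.1 (Finset.mem_coe.1 hx)
    refine Finset.mem_coe.2 (Finset.mem_filter.2 ⟨Finset.mem_univ _, ?_⟩)
    have h6 : BadZ s l (symM fun p => (((x (Sum.inl p)).val : ℕ) : ℤ))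
        (symM fun p => (((x (Sum.inr p)).val : ℕ) : ℤ)) := by
      rw [badZ_iff, BG.BadCount.symM_map, BG.BadCount.symM_map]
      simp only [eq_intCast, Int.cast_natCast, ZMod.natCast_zmod_val]
      exact hx'
    refine (badZ_of_dvd s l _ _ _ _ ?_ ?_).1 h6
    · intro i j
      exact ⟨0, by rw [mul_zero, sub_eq_zero]; rfl⟩
    · intro i j
      have h7 := DQ.BadB.tr_dvd hl.pos t (fun i => (⟨(x i : ZMod (l ^ 2)).val,
        ZMod.val_lt _⟩ : Fin (l ^ 2))) i j
      set y := DQ.BadB.tr hl.pos t (fun i => (⟨(x i : ZMod (l ^ 2)).val,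
        ZMod.val_lt _⟩ : Fin (l ^ 2))) with hy
      simp only [Matrix.sub_apply, Matrix.smul_apply, smul_eq_mul] at h7 ⊢
      have h8 := dvd_sub h7 (ht.mul_right ((symM fun p => ((y (Sum.inl p) : ℕ) : ℤ)) i j))
      refine (dvd_of_eq ?_).trans (h8.trans (dvd_of_eq ?_))
      · rfl
      · ring
  · intro x _ y _ h
    have h6 := DQ.BadB.tr_inj hl.pos t h
    funext i
    have h7 := congrFun h6 i
    simp only [Fin.mk.injEq] at h7
    exact ZMod.val_injective _ h7

end Stoll308.FQ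
end

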