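import Pool.Agent.Work.BCM.C08
import Pool.Agent.Work.BCM.C23
import Pool.Agent.Work.BCM.C27

section
set_option autoImplicit false

/-!
The classes at a common root of `f` and `q` modulo `l` agree.
-/

namespace Stoll308.DQ

open Polynomial Finset Matrix BG SC

namespace LinkA

section field

variable {K : Type*} [Field K] {k : ℕ}

lemma det_C (π : K[X]) (hm : π.Monic) (hk : π.natDegree = k) (c : K) :
    (mulMat k π (C c)).det = c ^ k := by
  have h1 : mulMat k π (C c) = c • (1 : Matrix (Fin k) (Fin k) K) := by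
    rw [← HankL.mulMat_one π hm hk]
    ext i j
    have e1 : mulMat k π (C c) i j = ((C c * X ^ (i : ℕ)) %ₘ π).coeff j := rfl
    have e2 : mulMat k π 1 i j = ((1 * X ^ (i : ℕ)) %ₘ π).coeff j := rfl
    rw [Matrix.smul_apply, e1, e2, one_mul, ← smul_eq_C_mul, smul_modByMonic, coeff_smul]
  rw [h1, Matrix.det_smul, Matrix.det_one, mul_one, Fintype.card_fin]

lemma det_mul' (π : K[X]) (hm : π.Monic) (hk : π.natDegree = k) (s t : K[X]) :
    (mulMat k π (s * t)).det = (mulMat k π s).det * (mulMat k π t).det := by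
  rw [HankL.mulMat_mul π s t hm hk, Matrix.det_mul]

/-- the norm of `u (X - ξ)` -/
lemma det_lin (π : K[X]) (hm : π.Monic) (hk : π.natDegree = k) (ξ u : K) :
    (mulMat k π (C u * (X - C ξ))).det = (-u) ^ k * π.eval ξ := by
  have h1 : C u * (X - C ξ) = C (-u) * (C ξ - X) := by
    rw [C_neg]
    ring
  rw [h1, det_mul' π hm hk, det_C π hm hk, HankL.mulMat_lin_det π hm hk]

/-- if `u (X - ξ)` is a square modulo `π`, its norm is a square -/
lemma norm_sq (π : K[X]) (hm : π.Monic) (hk : π.natDegree = k) (ξ u : K) (β : K[X])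
    (h : π ∣ C u * (X - C ξ) - β ^ 2) :
    (-u) ^ k * π.eval ξ = ((mulMat k π β).det) ^ 2 := by
  rw [← det_lin π hm hk, HankL.mulMat_congr π _ _ hm h, pow_two, det_mul' π hm hk, pow_two]

/-- division of squares modulo an irreducible polynomial -/
lemma exists_root (π : K[X]) (hirr : Irreducible π) (F G r β : K[X]) (u ξ : K)
    (hF : F = (X - C ξ) * G) (h1 : π ∣ F - r ^ 2) (hβ : ¬ π ∣ β) (h2 : π ∣ G - C u * β ^ 2) :
    ∃ β' : K[X], π ∣ C u * (X - C ξ) - β' ^ 2 := by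
  have hco : IsCoprime π β := (hirr.coprime_iff_not_dvd).2 hβ
  obtain ⟨x, y, hxy⟩ := hco
  obtain ⟨s, hs⟩ := h1
  obtain ⟨t, ht⟩ := h2
  refine ⟨r * y, ?_⟩
  refine ⟨(1 + y * β) * x * (C u * (X - C ξ)) - (X - C ξ) * y ^ 2 * t + y ^ 2 * s, ?_⟩
  have e1 : r ^ 2 = F - π * s := by linear_combination -hs
  have e2 : C u * β ^ 2 = G - π * t := by linear_combination -ht
  have e3 : y * β = 1 - x * π := by linear_combination hxy
  have e4 : (r * y) ^ 2 = y ^ 2 * (X - C ξ) * G - π * (y ^ 2 * s) := by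
    rw [mul_pow, e1, hF]; ring
  have e5 : y ^ 2 * G = C u * (y * β) ^ 2 + π * (y ^ 2 * t) := by
    have : G = C u * β ^ 2 + π * t := by linear_combination -e2
    rw [this]; ring
  have e6 : (r * y) ^ 2 = C u * (X - C ξ) * (y * β) ^ 2 + (X - C ξ) * (π * (y ^ 2 * t)) -
      π * (y ^ 2 * s) := by
    rw [e4]
    linear_combination (X - C ξ) * e5
  rw [e6]
  linear_combination -(C u * (X - C ξ)) * (1 + y * β) * e3

end field

section padic

variable {l : ℕ} [Fact l.Prime]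

lemma sq_of_close (h2 : l ≠ 2) (x y : ℚ_[l]) (hy : y ≠ 0) (h : ‖x - y‖ < ‖y‖) :
    ∃ z : ℚ_[l], x = y * z ^ 2 := by
  have hy0 : 0 < ‖y‖ := norm_pos_iff.2 hy
  have h1 : ‖x / y - 1‖ < 1 := by
    rw [div_sub_one hy, norm_div, div_lt_one hy0]
    exact h
  have h3 : ‖x / y‖ ≤ 1 := by
    have h4 : x / y = (x / y - 1) + 1 := by ring
    rw [h4]
    refine (Padic.nonarchimedean _ _).trans (max_le h1.le ?_)
    rw [norm_one]
  obtain ⟨z, hz⟩ := BG.LCond.one_unit_sq l h2 ⟨x / y, h3⟩ (by exact h1)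
  refine ⟨z, ?_⟩
  have h5 := congrArg (fun w : ℤ_[l] => (w : ℚ_[l])) hz
  simp only [PadicInt.coe_pow] at h5
  rw [h5]
  field_simp

lemma eval_close (π : ℤ_[l][X]) (θ ρ : ℤ_[l]) (hd : ‖θ - ρ‖ < 1) :
    ‖(toQ π).eval (ρ : ℚ_[l]) - (toQ π).eval (θ : ℚ_[l])‖ < 1 := by
  have h1 : ∀ x : ℤ_[l], (toQ π).eval (x : ℚ_[l]) = ((π.eval x : ℤ_[l]) : ℚ_[l]) := by
    intro x
    have := Polynomial.eval_map_algebraMap π (x : ℚ_[l])
    have h2 : (algebraMap ℤ_[l] ℚ_[l]) x = (x : ℚ_[l]) := rfl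
    rw [toQ, ← h2, Polynomial.eval_map, Polynomial.eval₂_at_apply]
    rfl
  rw [h1, h1, ← PadicInt.coe_sub, ← PadicInt.norm_def]
  obtain ⟨t, ht⟩ := Polynomial.sub_dvd_eval_sub ρ θ π
  rw [ht, norm_mul]
  calc ‖ρ - θ‖ * ‖t‖ ≤ ‖ρ - θ‖ * 1 :=
        mul_le_mul_of_nonneg_left t.norm_le_one (norm_nonneg _)
    _ < 1 := by rw [mul_one, norm_sub_rev]; exact hd

lemma toQ_eval (π : ℤ_[l][X]) (x : ℤ_[l]) :
    (toQ π).eval (x : ℚ_[l]) = ((π.eval x : ℤ_[l]) : ℚ_[l]) := by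
  have h2 : (algebraMap ℤ_[l] ℚ_[l]) x = (x : ℚ_[l]) := rfl
  rw [toQ, ← h2, Polynomial.eval_map, Polynomial.eval₂_at_apply]
  rfl

/-- reversed slope: the values at integral points are the constant coefficient times a square -/
lemma eval_slope (π : ℚ_[l][X]) (h0 : π.coeff 0 ≠ 0)
    (h : ∀ i, 0 < i → ‖π.coeff i‖ < ‖π.coeff 0‖) (θ : ℤ_[l]) :
    ‖π.eval (θ : ℚ_[l]) - π.coeff 0‖ < ‖π.coeff 0‖ := by
  have hpos : 0 < ‖π.coeff 0‖ := norm_pos_iff.2 h0
  have h1 : π.eval (θ : ℚ_[l]) - π.coeff 0 =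
      ∑ i ∈ Finset.range π.natDegree, π.coeff (i + 1) * (θ : ℚ_[l]) ^ (i + 1) := by
    rw [eval_eq_sum_range, Finset.sum_range_succ']
    simp
  rw [h1]
  have key : ∀ s : Finset ℕ,
      ‖∑ i ∈ s, π.coeff (i + 1) * (θ : ℚ_[l]) ^ (i + 1)‖ < ‖π.coeff 0‖ := by
    intro s
    induction s using Finset.induction_on with
    | empty => simpa using hpos
    | insert a s ha ih =>
      rw [Finset.sum_insert ha]
      refine (Padic.nonarchimedean _ _).trans_lt (max_lt ?_ ih)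
      rw [norm_mul, norm_pow]
      calc ‖π.coeff (a + 1)‖ * ‖(θ : ℚ_[l])‖ ^ (a + 1) ≤ ‖π.coeff (a + 1)‖ * 1 := by
            apply mul_le_mul_of_nonneg_left _ (norm_nonneg _)
            exact pow_le_one₀ (norm_nonneg _) θ.2
        _ < ‖π.coeff 0‖ := by rw [mul_one]; exact h _ (Nat.succ_pos a)
  exact key _

end padic

/-- the monic irreducible factors -/
lemma link_irr (l : ℕ) [Fact l.Prime] (h2 : l ≠ 2) (F Q : ℤ_[l][X]) (θ ρ : ℤ_[l])
    (hθ : F.eval θ = 0) (hρ : Q.eval ρ = 0) (hF : IsUnit ((derivative F).eval θ))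
    (hQ : IsUnit ((derivative Q).eval ρ)) (hd : ‖θ - ρ‖ = (l : ℝ)⁻¹) (π : ℚ_[l][X])
    (hm : π.Monic) (hirr : Irreducible π)
    (r w : ℚ_[l][X]) (h1 : π ∣ toQ F - r ^ 2) (h3 : π ∣ toQ Q - w ^ 2) :
    IsSquare (π.eval (θ : ℚ_[l]) * π.eval (ρ : ℚ_[l])) := by
  have hl1 : (1 : ℝ) < l := by exact_mod_cast (Fact.out : l.Prime).one_lt
  have hd1 : ‖θ - ρ‖ < 1 := by
    rw [hd]
    exact inv_lt_one_of_one_lt₀ hl1
  rcases slope l π hm hirr with hint | hsl
  · obtain ⟨π₀, hπ₀, -, hm₀⟩ := exists_toQ π hint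
    have hclose : ‖π.eval (ρ : ℚ_[l]) - π.eval (θ : ℚ_[l])‖ < 1 := by
      rw [← hπ₀]
      exact eval_close π₀ θ ρ hd1
    have hle : ‖π.eval (θ : ℚ_[l])‖ ≤ 1 := by
      rw [← hπ₀, toQ_eval]
      exact (π₀.eval θ).2
    rcases hle.lt_or_eq with hlt | heq
    · -- the roots are near `θ`
      rcases eq_or_ne (π.eval (θ : ℚ_[l])) 0 with hz | hz
      · rw [hz, zero_mul]
        exact ⟨0, by ring⟩
      rcases eq_or_ne (π.eval (ρ : ℚ_[l])) 0 with hz' | hz'
      · rw [hz', mul_zero]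
        exact ⟨0, by ring⟩
      have hlt' : ‖π.eval (ρ : ℚ_[l])‖ < 1 := by
        have h4 : π.eval (ρ : ℚ_[l]) = (π.eval (ρ : ℚ_[l]) - π.eval (θ : ℚ_[l])) +
            π.eval (θ : ℚ_[l]) := by ring
        rw [h4]
        exact (Padic.nonarchimedean _ _).trans_lt (max_lt hclose hlt)
      -- the cofactors
      obtain ⟨F₁, hF₁⟩ : ∃ F₁, F = (X - C θ) * F₁ := by
        obtain ⟨F₁, e⟩ := dvd_iff_isRoot.2 hθ
        exact ⟨F₁, e⟩
      obtain ⟨Q₁, hQ₁⟩ : ∃ Q₁, Q = (X - C ρ) * Q₁ := by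
        obtain ⟨Q₁, e⟩ := dvd_iff_isRoot.2 hρ
        exact ⟨Q₁, e⟩
      have hF₁u : IsUnit (F₁.eval θ) := by
        have : (derivative F).eval θ = F₁.eval θ := by
          rw [hF₁, derivative_mul]
          simp
        rwa [this] at hF
      have hQ₁u : IsUnit (Q₁.eval ρ) := by
        have : (derivative Q).eval ρ = Q₁.eval ρ := by
          rw [hQ₁, derivative_mul]
          simp
        rwa [this] at hQ
      obtain ⟨β, hβ, hβ'⟩ := unit_sq l h2 π hm hirr θ hlt F₁ hF₁u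
      obtain ⟨γ, hγ, hγ'⟩ := unit_sq l h2 π hm hirr ρ hlt' Q₁ hQ₁u
      set u : ℚ_[l] := ((F₁.eval θ : ℤ_[l]) : ℚ_[l]) with hu
      set u' : ℚ_[l] := ((Q₁.eval ρ : ℤ_[l]) : ℚ_[l]) with hu'
      have hun : ‖u‖ = 1 := by
        rw [hu, ← PadicInt.norm_def]
        exact PadicInt.isUnit_iff.1 hF₁u
      have hun' : ‖u'‖ = 1 := by
        rw [hu', ← PadicInt.norm_def]
        exact PadicInt.isUnit_iff.1 hQ₁u
      have hu0 : u ≠ 0 := by
        rw [← norm_pos_iff, hun]; exact one_pos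
      have hu0' : u' ≠ 0 := by
        rw [← norm_pos_iff, hun']; exact one_pos
      have htQF : toQ F = (X - C (θ : ℚ_[l])) * toQ F₁ := by
        rw [hF₁, slope_toQ_mul]
        congr 1
        simp [toQ]
      have htQQ : toQ Q = (X - C (ρ : ℚ_[l])) * toQ Q₁ := by
        rw [hQ₁, slope_toQ_mul]
        congr 1
        simp [toQ]
      obtain ⟨β₁, hβ₁⟩ := exists_root π hirr (toQ F) (toQ F₁) r β u θ htQF h1 hβ hβ'
      obtain ⟨γ₁, hγ₁⟩ := exists_root π hirr (toQ Q) (toQ Q₁) w γ u' ρ htQQ h3 hγ hγ'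
      set k := π.natDegree with hk
      have n1 := norm_sq π hm hk.symm (θ : ℚ_[l]) u β₁ hβ₁
      have n2 := norm_sq π hm hk.symm (ρ : ℚ_[l]) u' γ₁ hγ₁
      set N₁ := (mulMat k π β₁).det with hN₁
      set N₂ := (mulMat k π γ₁).det with hN₂
      rcases Nat.even_or_odd k with ⟨j, hj⟩ | ⟨j, hj⟩
      · have a1 : π.eval (θ : ℚ_[l]) = (N₁ / u ^ j) ^ 2 := by
          rw [div_pow, ← n1, eq_div_iff (pow_ne_zero _ (pow_ne_zero _ hu0))]
          rw [hj, ← two_mul, pow_mul, neg_sq]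
          ring
        have a2 : π.eval (ρ : ℚ_[l]) = (N₂ / u' ^ j) ^ 2 := by
          rw [div_pow, ← n2, eq_div_iff (pow_ne_zero _ (pow_ne_zero _ hu0'))]
          rw [hj, ← two_mul, pow_mul, neg_sq]
          ring
        rw [a1, a2]
        exact ⟨N₁ / u ^ j * (N₂ / u' ^ j), by ring⟩
      · -- odd degree
        have hprod : (u * u') * (π.eval (θ : ℚ_[l]) * π.eval (ρ : ℚ_[l])) =
            (N₁ * N₂ / (u ^ j * u' ^ j)) ^ 2 := by
          rw [div_pow, mul_pow N₁ N₂, ← n1, ← n2,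
            eq_div_iff (pow_ne_zero _ (mul_ne_zero (pow_ne_zero _ hu0) (pow_ne_zero _ hu0')))]
          have hodd : ∀ v : ℚ_[l], (-v) ^ (2 * j + 1) = -(v * (v ^ j) ^ 2) := by
            intro v
            rw [pow_succ, pow_mul, neg_sq]
            ring
          rw [hj, hodd, hodd]
          ring
        by_cases hsq : IsSquare (u * u')
        · obtain ⟨v, hv⟩ := hsq
          have hv0 : v ≠ 0 := by
            rintro rfl
            rw [mul_zero] at hv
            exact (mul_ne_zero hu0 hu0') hv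
          refine ⟨N₁ * N₂ / (u ^ j * u' ^ j) / v, ?_⟩
          rw [hv] at hprod
          have : π.eval (θ : ℚ_[l]) * π.eval (ρ : ℚ_[l]) =
              (N₁ * N₂ / (u ^ j * u' ^ j)) ^ 2 / (v * v) := by
            rw [← hprod]
            field_simp
          rw [this]
          field_simp
        · exfalso
          have hns : ¬ IsSquare (u / u') := by
            rintro ⟨v, hv⟩
            apply hsq
            refine ⟨v * u', ?_⟩
            rw [div_eq_iff hu0'] at hv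
            rw [hv]
            ring
          obtain ⟨U, V, hUV⟩ := norm_form π hm hk.symm β₁ γ₁ (u / u')
          have hdiv : π ∣ C (u * ((ρ : ℚ_[l]) - (θ : ℚ_[l]))) - (β₁ ^ 2 - C (u / u') * γ₁ ^ 2) := by
            obtain ⟨s, hs⟩ := hβ₁
            obtain ⟨t, ht⟩ := hγ₁
            refine ⟨s - C (u / u') * t, ?_⟩
            have e1 : C (u / u') * C u' = C u := by
              rw [← C_mul, div_mul_cancel₀ _ hu0']
            have e2 : C (u * ((ρ : ℚ_[l]) - (θ : ℚ_[l]))) = C u * (C (ρ : ℚ_[l]) - C (θ : ℚ_[l])) := by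
              rw [C_mul, C_sub]
            rw [e2]
            linear_combination hs - C (u / u') * ht - (C (ρ : ℚ_[l]) - X) * e1
          have hN := HankL.mulMat_congr (n := k) π _ _ hm hdiv
          rw [← hN, det_C π hm hk.symm] at hUV
          have hne : (θ : ℚ_[l]) ≠ ρ := by
            intro h
            have : θ = ρ := Subtype.ext h
            rw [this, sub_self, norm_zero] at hd
            have : (0 : ℝ) < (l : ℝ)⁻¹ := inv_pos.2 (by linarith)
            linarith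
          have hx0 : (u * ((ρ : ℚ_[l]) - (θ : ℚ_[l]))) ^ k ≠ 0 :=
            pow_ne_zero _ (mul_ne_zero hu0 (sub_ne_zero.2 hne.symm))
          have hev := norm_even l h2 (u / u') U V (by rw [norm_div, hun, hun', div_one]) hns
            (by rw [← hUV]; exact hx0)
          rw [← hUV] at hev
          have hnorm : ‖(u * ((ρ : ℚ_[l]) - (θ : ℚ_[l]))) ^ k‖ = (l : ℝ) ^ (-(k : ℤ)) := by
            rw [norm_pow, norm_mul, hun, one_mul, ← PadicInt.coe_sub, ← PadicInt.norm_def,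
              norm_sub_rev, hd, inv_pow, _root_.zpow_neg, zpow_natCast]
          rw [Padic.norm_eq_zpow_neg_valuation hx0] at hnorm
          have hval := zpow_right_injective₀ (by linarith) hl1.ne' hnorm
          have hval' : ((u * ((ρ : ℚ_[l]) - (θ : ℚ_[l]))) ^ k).valuation = (k : ℤ) := by
            simpa using hval
          rw [hval', Int.even_coe_nat] at hev
          exact (Nat.not_even_iff_odd.2 ⟨j, hj⟩) hev
    · have hne : π.eval (θ : ℚ_[l]) ≠ 0 := by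
        rw [← norm_pos_iff, heq]; exact one_pos
      obtain ⟨z, hz⟩ := sq_of_close h2 (π.eval (ρ : ℚ_[l])) (π.eval (θ : ℚ_[l])) hne
        (by rw [heq]; exact hclose)
      rw [hz]
      exact ⟨π.eval (θ : ℚ_[l]) * z, by ring⟩
  · have h0 : π.coeff 0 ≠ 0 := by
      rw [← norm_pos_iff]
      have := hsl π.natDegree hirr.natDegree_pos
      exact (norm_nonneg _).trans_lt this
    obtain ⟨z, hz⟩ := sq_of_close h2 _ _ h0 (eval_slope π h0 hsl θ)
    obtain ⟨z', hz'⟩ := sq_of_close h2 _ _ h0 (eval_slope π h0 hsl ρ)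
    rw [hz, hz']
    exact ⟨π.coeff 0 * z * z', by ring⟩

end LinkA

open LinkA in
theorem link (l : ℕ) [Fact l.Prime] (h2 : l ≠ 2) (F Q : ℤ_[l][X]) (θ ρ : ℤ_[l])
    (hθ : F.eval θ = 0) (hρ : Q.eval ρ = 0) (hF : IsUnit ((derivative F).eval θ))
    (hQ : IsUnit ((derivative Q).eval ρ)) (hd : ‖θ - ρ‖ = (l : ℝ)⁻¹) (h : ℚ_[l][X])
    (h1 : ∃ r, h ∣ toQ F - r ^ 2) (h3 : ∃ w, h ∣ toQ Q - w ^ 2) :
    IsSquare (h.eval (θ : ℚ_[l]) * h.eval (ρ : ℚ_[l])) := by
  obtain ⟨r, h1⟩ := h1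
  obtain ⟨w, h3⟩ := h3
  induction h using WfDvdMonoid.induction_on_irreducible with
  | zero => exact ⟨0, by simp⟩
  | unit u hu =>
    obtain ⟨c, -, hc⟩ := isUnit_iff.1 hu
    rw [← hc, eval_C, eval_C]
    exact ⟨c, rfl⟩
  | mul a i ha hi ih =>
    have ih' := ih ((dvd_mul_left a i).trans h1) ((dvd_mul_left a i).trans h3)
    have hi0 := hi.ne_zero
    set π := i * C (i.leadingCoeff)⁻¹ with hπ
    have hm : π.Monic := monic_mul_leadingCoeff_inv hi0
    have hc0 : i.leadingCoeff ≠ 0 := leadingCoeff_ne_zero.2 hi0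
    have hcu : IsUnit (C (i.leadingCoeff)⁻¹ : ℚ_[l][X]) :=
      isUnit_C.2 (isUnit_iff_ne_zero.2 (inv_ne_zero hc0))
    have hassoc : Associated i π := associated_mul_unit_right i _ hcu
    have hirr : Irreducible π := hassoc.irreducible hi
    have hdvd : π ∣ i := hassoc.symm.dvd
    have hk := link_irr l h2 F Q θ ρ hθ hρ hF hQ hd π hm hirr r w
      (hdvd.trans ((dvd_mul_right i a).trans h1)) (hdvd.trans ((dvd_mul_right i a).trans h3))
    have hi' : i = C i.leadingCoeff * π := by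
      rw [hπ, mul_left_comm, ← C_mul, mul_inv_cancel₀ hc0, C_1, mul_one]
    obtain ⟨x, hx⟩ := hk
    obtain ⟨y, hy⟩ := ih'
    refine ⟨i.leadingCoeff * x * y, ?_⟩
    have e1 : ∀ ξ : ℚ_[l], i.eval ξ = i.leadingCoeff * π.eval ξ := by
      intro ξ
      conv_lhs => rw [hi']
      rw [eval_mul, eval_C]
    rw [eval_mul, eval_mul, e1, e1]
    linear_combination (i.leadingCoeff ^ 2 * (a.eval (θ : ℚ_[l]) * a.eval (ρ : ℚ_[l]))) * hx +
      (i.leadingCoeff ^ 2 * (x * x)) * hy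

end Stoll308.DQ
end

section
set_option autoImplicit false

/-!
Few quadruples of matrices of a large box satisfy the local conditions at all primes up to `z`.
-/

namespace Stoll308.DQ

open Finset Matrix BG BF

open Classical in
theorem cube_small {n m : ℕ} (hn : 4 ≤ n) (he : Even n) (hm : 4 ≤ m) (hem : Even m) (ε : ℝ)
    (hε : 0 < ε) :
    ∃ (z : ℕ) (D₀ : ℝ), ∀ D D' : ℝ, D₀ ≤ D → D₀ ≤ D' →
      (((Fintype.piFinset fun i : (Ix n ⊕ Ix n) ⊕ (Ix m ⊕ Ix m) =>
          Icc (-⌊Sum.elim (fun _ => D) (fun _ => D') i⌋)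
            ⌊Sum.elim (fun _ => D) (fun _ => D') i⌋).filter
        fun v => ∀ l ∈ Icc 5 z, l.Prime → ¬ Bad l (symM fun p => v (Sum.inl (Sum.inl p)))
          (symM fun p => v (Sum.inl (Sum.inr p))) (symM fun p => v (Sum.inr (Sum.inl p)))
          (symM fun p => v (Sum.inr (Sum.inr p)))).card : ℝ) ≤
        ε * (D ^ (n * (n + 1)) * D' ^ (m * (m + 1))) := by
  set N₁ : ℕ := n * (n + 1) with hN₁
  set N₂ : ℕ := m * (m + 1) with hN₂
  have hcard₁ : Fintype.card (Ix n ⊕ Ix n) = N₁ := by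
    rw [Fintype.card_sum, cube_ix n, ← two_mul, hN₁,
      Nat.mul_div_cancel' (Nat.even_mul_succ_self n).two_dvd]
  have hcard₂ : Fintype.card (Ix m ⊕ Ix m) = N₂ := by
    rw [Fintype.card_sum, cube_ix m, ← two_mul, hN₂,
      Nat.mul_div_cancel' (Nat.even_mul_succ_self m).two_dvd]
  have hcard : Fintype.card ((Ix n ⊕ Ix n) ⊕ (Ix m ⊕ Ix m)) = N₁ + N₂ := by
    rw [Fintype.card_sum, hcard₁, hcard₂]
  have hN1 : 1 ≤ N₁ + N₂ := by
    have : 1 ≤ N₁ := by rw [hN₁]; nlinarith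
    omega
  set B : ℝ := n * 2 ^ (2 * n + 2 * m + 7) with hB
  have hnR : (4 : ℝ) ≤ n := by exact_mod_cast hn
  have hB1 : 1 ≤ B := by
    have h1 : (1 : ℝ) ≤ 2 ^ (2 * n + 2 * m + 7) := one_le_pow₀ (by norm_num)
    rw [hB]
    nlinarith
  have hB0 : 0 < B := by linarith
  obtain ⟨z, hz⟩ := cube_sum 1 one_ne_zero (B * Real.log (3 ^ (N₁ + N₂) / ε))
  set S := cubeP 1 z with hS
  have hSmem : ∀ l ∈ S, 5 ≤ l ∧ l.Prime := by
    intro l hl
    rw [hS, cubeP, mem_filter, mem_Icc] at hl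
    exact ⟨hl.1.1, hl.2.1⟩
  set M : ℝ := ∏ l ∈ S, ((l ^ 2 : ℕ) : ℝ) with hM
  have hM0 : 0 ≤ M := Finset.prod_nonneg fun l _ => by positivity
  refine ⟨z, M + 1, fun D D' hD hD' => ?_⟩
  have key : ∀ x : ℝ, M + 1 ≤ x →
      (((2 * ⌊x⌋ + 1).toNat : ℕ) : ℤ) = 2 * ⌊x⌋ + 1 ∧
        (((2 * ⌊x⌋ + 1).toNat : ℕ) : ℝ) + M ≤ 3 * x := by
    intro x hx
    have hfl : 0 ≤ ⌊x⌋ := Int.floor_nonneg.2 (by linarith)
    have hLz : (((2 * ⌊x⌋ + 1).toNat : ℕ) : ℤ) = 2 * ⌊x⌋ + 1 := Int.toNat_of_nonneg (by omega)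
    refine ⟨hLz, ?_⟩
    have h1 : (((2 * ⌊x⌋ + 1).toNat : ℕ) : ℝ) = 2 * (⌊x⌋ : ℝ) + 1 := by exact_mod_cast hLz
    have h2 := Int.floor_le x
    linarith
  have hpow : ∀ l : ℕ, 5 ≤ l → 1 / (B * (l : ℝ)) ≤ 1 := by
    intro l h5
    have h6 : (5 : ℝ) ≤ l := by exact_mod_cast h5
    rw [div_le_one (by positivity)]
    nlinarith
  have hbox := cube_box (ι := (Ix n ⊕ Ix n) ⊕ (Ix m ⊕ Ix m)) S (fun l => l ^ 2)
    (fun l hl => pow_pos (hSmem l hl).2.pos 2)
    (fun l hl l' hl' hne => Nat.Coprime.pow 2 2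
      ((Nat.coprime_primes (hSmem l hl).2 (hSmem l' hl').2).2 hne))
    (fun l v => Bad l (symM fun p => v (Sum.inl (Sum.inl p)))
      (symM fun p => v (Sum.inl (Sum.inr p))) (symM fun p => v (Sum.inr (Sum.inl p)))
      (symM fun p => v (Sum.inr (Sum.inr p))))
    (fun l _ t t' h => bad_congr l t t' h)
    (fun l => 1 / (B * (l : ℝ)))
    (fun l hl => hpow l (hSmem l hl).1)
    (fun l hl => by
      have h1 := bad_count hn he hm hem l (hSmem l hl).2 (hSmem l hl).1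
      have hl0 : (l : ℝ) ≠ 0 := by exact_mod_cast (hSmem l hl).2.ne_zero
      have h2 : (1 / (B * (l : ℝ))) * (((l ^ 2 : ℕ) : ℝ)) ^
            Fintype.card ((Ix n ⊕ Ix n) ⊕ (Ix m ⊕ Ix m)) =
          (l : ℝ) ^ (2 * (n * (n + 1) + m * (m + 1)) - 1) / (n * 2 ^ (2 * n + 2 * m + 7)) := by
        rw [hcard, ← hN₁, ← hN₂]
        push_cast
        rw [← pow_mul]
        obtain ⟨q, hq⟩ : ∃ q, 2 * (N₁ + N₂) = q + 1 := ⟨2 * (N₁ + N₂) - 1, by omega⟩
        rw [hq, Nat.add_sub_cancel, ← hB, pow_succ]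
        field_simp
      rw [h2]
      refine h1.trans (Nat.cast_le.2 (Finset.card_le_card ?_))
      intro t ht
      exact (@Finset.mem_filter _ _ (_) _ _).2
        ⟨@Finset.mem_univ _ (_) _, ((@Finset.mem_filter _ _ (_) _ _).1 ht).2⟩)
    (fun i => -⌊Sum.elim (fun _ => D) (fun _ => D') i⌋)
    (fun i => (2 * ⌊Sum.elim (fun _ => D) (fun _ => D') i⌋ + 1).toNat)
  refine le_trans (Nat.cast_le.2 (Finset.card_le_card ?_)) (hbox.trans ?_)
  · intro t ht
    have ht1 := (@Finset.mem_filter _ _ (_) _ _).1 ht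
    refine (@Finset.mem_filter _ _ (_) _ _).2 ⟨Fintype.mem_piFinset.2 fun i => ?_, fun l hl => ?_⟩
    · have h1 := Fintype.mem_piFinset.1 ht1.1 i
      rw [mem_Icc] at h1
      have h2 : (((2 * ⌊Sum.elim (fun _ => D) (fun _ => D') i⌋ + 1).toNat : ℕ) : ℤ) =
          2 * ⌊Sum.elim (fun _ => D) (fun _ => D') i⌋ + 1 := by
        rcases i with i | i
        · exact (key D hD).1
        · exact (key D' hD').1
      rw [mem_Ico, h2]
      constructor
      · exact h1.1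
      · have h3 := h1.2
        omega
    · have h1 := hl
      rw [hS, cubeP, mem_filter] at h1
      exact ht1.2 l h1.1 h1.2.1
  have h1 : (∏ i : (Ix n ⊕ Ix n) ⊕ (Ix m ⊕ Ix m),
      ((((2 * ⌊Sum.elim (fun _ => D) (fun _ => D') i⌋ + 1).toNat : ℕ) : ℝ) + M)) ≤
      (3 * D) ^ N₁ * (3 * D') ^ N₂ := by
    rw [Fintype.prod_sum_type]
    refine mul_le_mul ?_ ?_ (Finset.prod_nonneg fun i _ => by positivity)
      (pow_nonneg (by linarith) _)
    · simp only [Sum.elim_inl]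
      rw [Finset.prod_const, Finset.card_univ, hcard₁]
      exact pow_le_pow_left₀ (by positivity) (key D hD).2 _
    · simp only [Sum.elim_inr]
      rw [Finset.prod_const, Finset.card_univ, hcard₂]
      exact pow_le_pow_left₀ (by positivity) (key D' hD').2 _
  have h2 : ∏ l ∈ S, (1 - 1 / (B * (l : ℝ))) ≤ ε / 3 ^ (N₁ + N₂) := by
    calc ∏ l ∈ S, (1 - 1 / (B * (l : ℝ))) ≤ ∏ l ∈ S, Real.exp (-(1 / (B * (l : ℝ)))) := by
          refine Finset.prod_le_prod (fun l hl => ?_) (fun l _ => ?_)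
          · have := hpow l (hSmem l hl).1
            linarith
          · have := Real.add_one_le_exp (-(1 / (B * (l : ℝ))))
            linarith
      _ = Real.exp (-((∑ l ∈ S, (1 : ℝ) / l) / B)) := by
          rw [← Real.exp_sum]
          congr 1
          rw [Finset.sum_neg_distrib, Finset.sum_div]
          congr 1
          refine Finset.sum_congr rfl fun l _ => ?_
          rw [div_div, mul_comm]
      _ ≤ Real.exp (-(Real.log (3 ^ (N₁ + N₂) / ε))) := by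
          apply Real.exp_le_exp.2
          rw [neg_le_neg_iff, le_div_iff₀ hB0, mul_comm]
          exact hz
      _ = ε / 3 ^ (N₁ + N₂) := by
          rw [Real.exp_neg, Real.exp_log (by positivity), inv_div]
  have h3 : 0 ≤ ∏ l ∈ S, (1 - 1 / (B * (l : ℝ))) :=
    Finset.prod_nonneg fun l hl => by
      have := hpow l (hSmem l hl).1
      linarith
  have hD0 : 0 ≤ D := by linarith
  have hD0' : 0 ≤ D' := by linarith
  calc (∏ i : (Ix n ⊕ Ix n) ⊕ (Ix m ⊕ Ix m),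
        ((((2 * ⌊Sum.elim (fun _ => D) (fun _ => D') i⌋ + 1).toNat : ℕ) : ℝ) + M)) *
          ∏ l ∈ S, (1 - 1 / (B * (l : ℝ)))
      ≤ ((3 * D) ^ N₁ * (3 * D') ^ N₂) * (ε / 3 ^ (N₁ + N₂)) :=
        mul_le_mul h1 h2 h3 (by positivity)
    _ = ε * (D ^ N₁ * D' ^ N₂) := by
        rw [mul_pow, mul_pow, pow_add]
        field_simp

end Stoll308.DQ
end

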