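import Pool.Agent.Work.BCM.C02
import Pool.Agent.Work.BCM.C03
import Pool.Agent.Work.BCM.C05
import Pool.Agent.Work.BCM.C08
import Pool.Agent.Work.BCM.C11
import Pool.Agent.Work.BCM.C15
import Pool.Agent.Work.BCM.C19
import Pool.Agent.Work.BCM.C20
import Pool.Agent.Work.BCM.C23
import Pool.Agent.Work.BCM.C27
import Pool.Agent.Work.BCM.C28
import Pool.Agent.Work.BCM.C31
import Pool.Agent.Work.BCM.C34
import Pool.Agent.Work.BCM.C40
import Pool.Agent.Work.MP_308fa9_nt.EA.Defs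

section
set_option autoImplicit false

/-!
The primes `p > h` for which the first polynomial is not squarefree.
-/

namespace Stoll308.DQ

open Polynomial Finset BG BF

namespace ElsC

/-- The resultant of `f` and `f'` over `ℤ`. -/
noncomputable def res {n : ℕ} (a : Fin (n + 1) → ℤ) : ℤ :=
  resultant (GZ ℤ a) (derivative (GZ ℤ a)) n (n - 1)

lemma gz_map' {R : Type*} [CommRing R] {n : ℕ} (a : Fin (n + 1) → ℤ) :
    (GZ ℤ a).map (Int.castRingHom R) = GZ R a := by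
  simp [gpol, Polynomial.map_sum]

lemma gz_deg {K : Type*} [Field K] {n : ℕ} (a : Fin (n + 1) → ℤ) (h0 : ((a 0 : ℤ) : K) ≠ 0) :
    (GZ K a).natDegree = n := by
  apply natDegree_eq_of_le_of_coeff_ne_zero (BF.Els.gz_natDegree_le _)
  rw [BF.Els.gz_coeff _ le_rfl]
  have : (⟨n - n, by omega⟩ : Fin (n + 1)) = 0 := by
    apply Fin.ext
    simp
  rw [this]
  exact h0

lemma gz_deriv_deg {K : Type*} [Field K] {n : ℕ} (hn : 0 < n) (a : Fin (n + 1) → ℤ)
    (h0 : ((a 0 : ℤ) : K) ≠ 0) (hn0 : (n : K) ≠ 0) :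
    (derivative (GZ K a)).natDegree = n - 1 := by
  apply natDegree_eq_of_le_of_coeff_ne_zero
  · exact (natDegree_derivative_le _).trans (Nat.sub_le_sub_right (BF.Els.gz_natDegree_le _) 1)
  · rw [coeff_derivative, Nat.sub_add_cancel hn, BF.Els.gz_coeff _ le_rfl]
    have : (⟨n - n, by omega⟩ : Fin (n + 1)) = 0 := by
      apply Fin.ext
      simp
    rw [this]
    apply mul_ne_zero h0
    have h1 : ((n - 1 : ℕ) : K) + 1 = (n : K) := by
      have h2 : ((n - 1 + 1 : ℕ) : K) = (n : K) := by rw [Nat.sub_add_cancel hn]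
      rw [← h2]
      push_cast
      ring
    rw [h1]
    exact hn0

lemma res_cast {K : Type*} [Field K] {n : ℕ} (hn : 0 < n) (a : Fin (n + 1) → ℤ)
    (h0 : ((a 0 : ℤ) : K) ≠ 0) (hn0 : (n : K) ≠ 0) :
    ((res a : ℤ) : K) = resultant (GZ K a) (derivative (GZ K a)) := by
  rw [gz_deg a h0, gz_deriv_deg hn a h0 hn0, ← gz_map' (R := K), derivative_map,
    resultant_map_map]
  rfl

lemma res_ne {n : ℕ} (hn : 0 < n) (a : Fin (n + 1) → ℤ) (h0 : a 0 ≠ 0)
    (hirr : Irreducible (GZ ℚ a)) : res a ≠ 0 := by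
  have h1 := res_cast (K := ℚ) hn a (by exact_mod_cast h0) (by exact_mod_cast hn.ne')
  have h2 : IsCoprime (GZ ℚ a) (derivative (GZ ℚ a)) := hirr.separable
  have h3 := resultant_ne_zero _ _ h2
  rw [← h1] at h3
  exact_mod_cast h3

lemma res_dvd {p : ℕ} [hp : Fact p.Prime] {n : ℕ} (hn : 0 < n) (a : Fin (n + 1) → ℤ)
    (h0 : ¬ (p : ℤ) ∣ a 0) (hnp : ¬ p ∣ n)
    (hsq : ¬ Squarefree (GZ (AlgebraicClosure (ZMod p)) a)) : (p : ℤ) ∣ res a := by
  have hC : CharP (AlgebraicClosure (ZMod p)) p := charP_of_injective_algebraMap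
    (algebraMap (ZMod p) (AlgebraicClosure (ZMod p))).injective p
  rw [← CharP.intCast_eq_zero_iff (AlgebraicClosure (ZMod p)) p,
    res_cast hn a ((CharP.intCast_eq_zero_iff _ p _).not.mpr h0)
      ((CharP.cast_eq_zero_iff _ p _).not.mpr hnp), resultant_eq_zero_iff]
  refine ⟨Or.inl ?_, ?_⟩
  · intro h1
    have h2 := gz_deg (K := AlgebraicClosure (ZMod p)) a
      ((CharP.intCast_eq_zero_iff _ p _).not.mpr h0)
    rw [h1, natDegree_zero] at h2
    omega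
  · intro h1
    exact hsq (PerfectField.separable_iff_squarefree.mp h1)

lemma res_bound {n : ℕ} (hn : 0 < n) (a : Fin (n + 1) → ℤ) (B : ℤ) (hB : ∀ i, |a i| ≤ B) :
    |res a| ≤ ((n + (n - 1)).factorial : ℤ) * (n * B) ^ (n + (n - 1)) := by
  have hB0 : 0 ≤ B := (abs_nonneg _).trans (hB 0)
  have hn1 : (1 : ℤ) ≤ n := by exact_mod_cast hn
  have hnB : B ≤ n * B := by nlinarith
  have hc : ∀ j, |(GZ ℤ a).coeff j| ≤ B := by
    intro j
    by_cases hj : j ≤ n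
    · rw [BF.Els.gz_coeff _ hj]
      exact hB _
    · rw [BF.Els.gz_coeff_gt _ (by omega), abs_zero]
      exact hB0
  have hc' : ∀ j, |(derivative (GZ ℤ a)).coeff j| ≤ n * B := by
    intro j
    rw [coeff_derivative]
    by_cases hj : j + 1 ≤ n
    · rw [abs_mul]
      have h1 : |((j : ℤ) + 1)| ≤ n := by
        rw [abs_of_nonneg (by positivity)]
        exact_mod_cast hj
      calc _ ≤ B * n := mul_le_mul (hc _) h1 (abs_nonneg _) hB0
        _ = n * B := mul_comm _ _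
    · rw [BF.Els.gz_coeff_gt _ (by omega), zero_mul, abs_zero]
      positivity
  have h1 : AbsoluteValue.abs (sylvester (GZ ℤ a) (derivative (GZ ℤ a)) n (n - 1)).det ≤
      (Fintype.card (Fin (n + (n - 1)))).factorial •
        ((n : ℤ) * B) ^ (Fintype.card (Fin (n + (n - 1)))) := by
    apply Matrix.det_le
    intro i j
    rw [AbsoluteValue.abs_apply, sylvester, Matrix.of_apply]
    induction j using Fin.addCases with
    | left j =>
      rw [Fin.addCases_left]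
      split_ifs
      · exact hc' _
      · rw [abs_zero]
        positivity
    | right j =>
      rw [Fin.addCases_right]
      split_ifs
      · exact (hc _).trans hnB
      · rw [abs_zero]
        positivity
  rw [Fintype.card_fin, nsmul_eq_mul, AbsoluteValue.abs_apply] at h1
  exact h1

lemma co_abs {n h : ℕ} {M : ℕ} (hM : 0 < M) {t : Fin (n + 1) → ℤ} (ht : t ∈ BF.Els.box (n + 1) h)
    (i : Fin (n + 1)) : |BF.Els.co (M : ℤ) t i| ≤ M * (h + 1) := by
  have hMz : (1 : ℤ) ≤ (M : ℤ) := by exact_mod_cast hM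
  have h1 := BF.Els.pos_of_box ht i
  have h3 : (M : ℤ) * t i ≤ M * h := mul_le_mul_of_nonneg_left h1.2 (by linarith)
  have h4 : (0 : ℤ) ≤ M * t i := mul_nonneg (by linarith) (by linarith)
  unfold BF.Els.co
  rw [abs_le]
  constructor
  · split_ifs <;> nlinarith
  · split_ifs <;> nlinarith

lemma not_dvd_co {n h p M : ℕ} (hp : p.Prime) (hpM : ¬ p ∣ M) (hh : h < p)
    {t : Fin (n + 1) → ℤ} (ht : t ∈ BF.Els.box (n + 1) h) (hn : 0 < n) :
    ¬ (p : ℤ) ∣ BF.Els.co (M : ℤ) t 0 := by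
  rw [BF.Els.co_lt _ _ (by rw [Fin.val_zero]; exact hn)]
  intro h1
  rcases (Nat.prime_iff_prime_int.1 hp).dvd_or_dvd h1 with h2 | h2
  · exact hpM (by exact_mod_cast h2)
  · have h3 := BF.Els.pos_of_box ht 0
    have h4 := Int.le_of_dvd (by linarith [h3.1]) h2
    have h5 : (h : ℤ) < p := by exact_mod_cast hh
    linarith [h3.2]

end ElsC

open ElsC in
/-- The number of primes `> h` modulo which an irreducible polynomial is not squarefree is
bounded. -/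
theorem disc_primes (n : ℕ) (hn : 4 ≤ n) (M : ℕ) (hM : 0 < M) :
    ∃ h₀ : ℕ, ∀ h : ℕ, h₀ ≤ h → ∀ t ∈ BF.Els.box (n + 1) h,
      Irreducible (GZ ℚ (BF.Els.co (M : ℤ) t)) →
      ∃ S : Finset ℕ, S.card ≤ 2 * n ∧ ∀ (p : ℕ) [Fact p.Prime], h < p → ¬ p ∣ M →
        ¬ Squarefree (GZ (AlgebraicClosure (ZMod p)) (BF.Els.co (M : ℤ) t)) → p ∈ S := by
  refine ⟨(n + (n - 1)).factorial * (2 * n * M) ^ (n + (n - 1)) + n + 1, ?_⟩
  intro h hh t ht hirr
  have hh1 : 1 ≤ h := by omega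
  set a := BF.Els.co (M : ℤ) t with ha
  have ha0 : a 0 ≠ 0 := by
    rw [ha, BF.Els.co_lt _ _ (by rw [Fin.val_zero]; omega)]
    apply mul_ne_zero (by exact_mod_cast hM.ne')
    have := (BF.Els.pos_of_box ht 0).1
    omega
  have hne := res_ne (by omega) a ha0 hirr
  refine ⟨(res a).natAbs.primeFactors.filter fun p => h < p, ?_, ?_⟩
  · apply BF.Els.card_large (Int.natAbs_pos.mpr hne)
    have h1 := res_bound (by omega) a (M * (h + 1)) (co_abs hM ht)
    have h2 : ((res a).natAbs : ℤ) < ((h ^ (2 * n) : ℕ) : ℤ) := by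
      rw [Int.natCast_natAbs]
      refine lt_of_le_of_lt h1 ?_
      have h3 : (n : ℤ) * (M * (h + 1)) ≤ (2 * n * M) * h := by
        have : (1 : ℤ) ≤ h := by exact_mod_cast hh1
        have h4 : (0 : ℤ) ≤ (n : ℤ) * M := by positivity
        nlinarith
      have h5 : ((n + (n - 1)).factorial : ℤ) * (n * (M * (h + 1))) ^ (n + (n - 1)) ≤
          ((n + (n - 1)).factorial : ℤ) * ((2 * n * M) * h) ^ (n + (n - 1)) :=
        mul_le_mul_of_nonneg_left (pow_le_pow_left₀ (by positivity) h3 _) (by positivity)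
      refine lt_of_le_of_lt h5 ?_
      rw [mul_pow, ← mul_assoc]
      have h6 : (h ^ (2 * n) : ℕ) = h * h ^ (n + (n - 1)) := by
        rw [← pow_succ']
        congr 1
        omega
      rw [h6]
      push_cast
      have h7 : (0 : ℤ) < (h : ℤ) ^ (n + (n - 1)) := by positivity
      apply mul_lt_mul_of_pos_right _ h7
      have h8 : (n + (n - 1)).factorial * (2 * n * M) ^ (n + (n - 1)) < h := by omega
      exact_mod_cast h8
    exact_mod_cast h2
  · intro p hp hhp hpM hsq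
    rw [mem_filter, Nat.mem_primeFactors]
    have hpn : ¬ p ∣ n := by
      intro h1
      have := Nat.le_of_dvd (by omega) h1
      omega
    have h1 := res_dvd (by omega) a (by
      rw [ha]
      exact not_dvd_co hp.out hpM hhp ht (by omega)) hpn hsq
    refine ⟨⟨hp.out, ?_, Int.natAbs_ne_zero.2 hne⟩, hhp⟩
    have := Int.natAbs_dvd_natAbs.2 h1
    rwa [Int.natAbs_natCast] at this

open Classical ElsC in
theorem card_E4 (n m : ℕ) (hn : 4 ≤ n) (hm : 4 ≤ m) (M : ℕ) (hM : 0 < M) :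
    ∃ h₀ : ℕ, ∀ h : ℕ, h₀ ≤ h →
      (((BF.Els.box (n + 1) h ×ˢ BF.Els.box (m + 1) h).filter fun x =>
        Irreducible (GZ ℚ (BF.Els.co (M : ℤ) x.1)) ∧
        ∃ (p : ℕ) (_ : Fact p.Prime), h < p ∧ p ≠ 2 ∧ ¬ p ∣ M ∧
          ¬ Squarefree (GZ (AlgebraicClosure (ZMod p)) (BF.Els.co (M : ℤ) x.1)) ∧
          Sq2 (AlgebraicClosure (ZMod p)) (BF.Els.co (M : ℤ) x.1)
            (BF.Els.co (M : ℤ) x.2)).card : ℝ) ≤
        8 * n * (h : ℝ) ^ (n + m) := by
  obtain ⟨h₀, hh₀⟩ := disc_primes n hn M hM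
  refine ⟨h₀, fun h hh => ?_⟩
  have hfib := BG.Els.card_le_fiber ((BF.Els.box (n + 1) h ×ˢ BF.Els.box (m + 1) h).filter fun x =>
        Irreducible (GZ ℚ (BF.Els.co (M : ℤ) x.1)) ∧
        ∃ (p : ℕ) (_ : Fact p.Prime), h < p ∧ p ≠ 2 ∧ ¬ p ∣ M ∧
          ¬ Squarefree (GZ (AlgebraicClosure (ZMod p)) (BF.Els.co (M : ℤ) x.1)) ∧
          Sq2 (AlgebraicClosure (ZMod p)) (BF.Els.co (M : ℤ) x.1)
            (BF.Els.co (M : ℤ) x.2)) (BF.Els.box (n + 1) h) Prod.fst (by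
    intro x hx
    rw [mem_filter, mem_product] at hx
    exact hx.1.1) (8 * n * (h : ℝ) ^ (m - 1)) (by
    intro t ht
    by_cases hirr : Irreducible (GZ ℚ (BF.Els.co (M : ℤ) t))
    swap
    · rw [filter_filter, filter_false_of_mem]
      · simp only [card_empty, Nat.cast_zero]
        positivity
      · rintro x - ⟨⟨h1, -⟩, rfl⟩
        exact hirr h1
    obtain ⟨S, hS, hSp⟩ := hh₀ h hh t ht hirr
    set S' := S.filter fun p => p.Prime ∧ h < p ∧ p ≠ 2 ∧ ¬ p ∣ M with hS'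
    have hsub : (((BF.Els.box (n + 1) h ×ˢ BF.Els.box (m + 1) h).filter fun x =>
        Irreducible (GZ ℚ (BF.Els.co (M : ℤ) x.1)) ∧
        ∃ (p : ℕ) (_ : Fact p.Prime), h < p ∧ p ≠ 2 ∧ ¬ p ∣ M ∧
          ¬ Squarefree (GZ (AlgebraicClosure (ZMod p)) (BF.Els.co (M : ℤ) x.1)) ∧
          Sq2 (AlgebraicClosure (ZMod p)) (BF.Els.co (M : ℤ) x.1)
            (BF.Els.co (M : ℤ) x.2)).filter fun x => x.1 = t) ⊆
        S'.biUnion fun p => (S3 n m (M : ℤ) h p).filter fun x => x.1 = t := by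
      intro x hx
      rw [mem_filter, mem_filter] at hx
      obtain ⟨⟨hb, hirr', p, hp, hhp, hp2, hpM, hsq, hSq⟩, hxt⟩ := hx
      have hb' := mem_product.1 hb
      have hnd := not_dvd_co hp.out hpM hhp hb'.1 (by omega)
      have hnd' := not_dvd_co hp.out hpM hhp hb'.2 (by omega)
      rw [mem_biUnion]
      refine ⟨p, ?_, ?_⟩
      · rw [hS', mem_filter]
        refine ⟨?_, hp.out, hhp, hp2, hpM⟩
        apply hSp p hhp hpM
        rw [← hxt]
        exact hsq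
      · rw [mem_filter, S3, mem_filter]
        refine ⟨⟨hb, fun h1 => hnd' h1.1, hp, ?_, hSq⟩, hxt⟩
        intro h1
        have hC : CharP (AlgebraicClosure (ZMod p)) p := charP_of_injective_algebraMap
          (algebraMap (ZMod p) (AlgebraicClosure (ZMod p))).injective p
        have h2 := gz_deg (K := AlgebraicClosure (ZMod p)) (BF.Els.co (M : ℤ) x.1)
          ((CharP.intCast_eq_zero_iff _ p _).not.mpr hnd)
        rw [h1, natDegree_zero] at h2
        omega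
    have h1 : (((BF.Els.box (n + 1) h ×ˢ BF.Els.box (m + 1) h).filter fun x =>
        Irreducible (GZ ℚ (BF.Els.co (M : ℤ) x.1)) ∧
        ∃ (p : ℕ) (_ : Fact p.Prime), h < p ∧ p ≠ 2 ∧ ¬ p ∣ M ∧
          ¬ Squarefree (GZ (AlgebraicClosure (ZMod p)) (BF.Els.co (M : ℤ) x.1)) ∧
          Sq2 (AlgebraicClosure (ZMod p)) (BF.Els.co (M : ℤ) x.1)
            (BF.Els.co (M : ℤ) x.2)).filter fun x => x.1 = t).card ≤
        ∑ p ∈ S', ((S3 n m (M : ℤ) h p).filter fun x => x.1 = t).card :=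
      (card_le_card hsub).trans card_biUnion_le
    have h2 : ∀ p ∈ S', (((S3 n m (M : ℤ) h p).filter fun x => x.1 = t).card : ℝ) ≤
        4 * (h : ℝ) ^ (m - 1) := by
      intro p hp
      rw [hS', mem_filter] at hp
      obtain ⟨-, hpp, hhp, hp2, hpM⟩ := hp
      have h3 := card_fibre hm (M := (M : ℤ)) (h := h) hpp hp2
        (by exact_mod_cast hpM) t
      refine h3.trans ?_
      have h4 : (h : ℝ) / p ≤ 1 := by
        rw [div_le_one (by exact_mod_cast hpp.pos)]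
        exact_mod_cast hhp.le
      have h5 : (0 : ℝ) ≤ (h : ℝ) / p := by positivity
      have h6 : ((h : ℝ) / p + 1) ^ 2 ≤ 4 := by nlinarith
      have h7 : (0 : ℝ) ≤ (h : ℝ) ^ (m - 1) := by positivity
      nlinarith
    calc _ ≤ ((∑ p ∈ S', ((S3 n m (M : ℤ) h p).filter fun x => x.1 = t).card : ℕ) : ℝ) := by
          exact_mod_cast h1
      _ = ∑ p ∈ S', (((S3 n m (M : ℤ) h p).filter fun x => x.1 = t).card : ℝ) := by
          push_cast
          rfl
      _ ≤ ∑ p ∈ S', 4 * (h : ℝ) ^ (m - 1) := sum_le_sum h2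
      _ = S'.card * (4 * (h : ℝ) ^ (m - 1)) := by rw [sum_const, nsmul_eq_mul]
      _ ≤ (2 * n : ℕ) * (4 * (h : ℝ) ^ (m - 1)) := by
          apply mul_le_mul_of_nonneg_right _ (by positivity)
          exact_mod_cast (card_le_card (filter_subset _ _)).trans hS
      _ = 8 * n * (h : ℝ) ^ (m - 1) := by
          push_cast
          ring)
  refine hfib.trans (le_of_eq ?_)
  rw [BF.Els.card_box]
  push_cast
  have h1 : (h : ℝ) ^ (n + m) = (h : ℝ) ^ (n + 1) * (h : ℝ) ^ (m - 1) := by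
    rw [← pow_add]
    congr 1
    omega
  rw [h1]
  ring

end Stoll308.DQ
end

section
set_option autoImplicit false

/-!
The change of variables `t ↦ (p t + q) / (r t + s)`.
-/

namespace Stoll308.FQ

open Polynomial Finset BF

/-- The coefficients of the form `F(p X + q Z, r X + s Z)`. -/
noncomputable def act {n : ℕ} (p q r s : ℤ) (a : Fin (n + 1) → ℤ) : Fin (n + 1) → ℤ :=
  fun j => (∑ i : Fin (n + 1), C (a i) * (C p * X + C q) ^ (n - (i : ℕ)) *
    (C r * X + C s) ^ (i : ℕ)).coeff (n - (j : ℕ))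

namespace ActAux

/-- One term of the transformed polynomial. -/
noncomputable def tm (n : ℕ) (p q r s : ℤ) (i : ℕ) : ℤ[X] :=
  (C p * X + C q) ^ (n - i) * (C r * X + C s) ^ i

lemma lin_coeff {R : Type*} [CommRing R] (u v : R) : (C u * X + C v : R[X]).coeff 1 = u := by
  rw [coeff_add, coeff_C_mul, coeff_X_one, mul_one, coeff_C, if_neg one_ne_zero, add_zero]

lemma tm_coeff {n : ℕ} (p q r s : ℤ) {i : ℕ} (hi : i ≤ n) :
    (tm n p q r s i).coeff n = p ^ (n - i) * r ^ i := by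
  have h1 : ((C p * X + C q : ℤ[X]) ^ (n - i)).natDegree ≤ n - i := by
    have := natDegree_pow_le_of_le (n - i) (natDegree_linear_le (a := p) (b := q))
    rwa [mul_one] at this
  have h2 : ((C r * X + C s : ℤ[X]) ^ i).natDegree ≤ i := by
    have := natDegree_pow_le_of_le i (natDegree_linear_le (a := r) (b := s))
    rwa [mul_one] at this
  have h3 := coeff_mul_add_eq_of_natDegree_le h1 h2
  rw [Nat.sub_add_cancel hi] at h3
  have h4 : ((C p * X + C q : ℤ[X]) ^ (n - i)).coeff (n - i) = p ^ (n - i) := by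
    have := coeff_pow_of_natDegree_le (m := n - i) (natDegree_linear_le (a := p) (b := q))
    rw [mul_one] at this
    rw [this, lin_coeff]
  have h5 : ((C r * X + C s : ℤ[X]) ^ i).coeff i = r ^ i := by
    have := coeff_pow_of_natDegree_le (m := i) (natDegree_linear_le (a := r) (b := s))
    rw [mul_one] at this
    rw [this, lin_coeff]
  rw [tm, h3, h4, h5]

lemma tm_deg {n : ℕ} (p q r s : ℤ) {i : ℕ} (hi : i ≤ n) : (tm n p q r s i).natDegree ≤ n := by
  have h1 : ((C p * X + C q : ℤ[X]) ^ (n - i)).natDegree ≤ n - i := by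
    have := natDegree_pow_le_of_le (n - i) (natDegree_linear_le (a := p) (b := q))
    rwa [mul_one] at this
  have h2 : ((C r * X + C s : ℤ[X]) ^ i).natDegree ≤ i := by
    have := natDegree_pow_le_of_le i (natDegree_linear_le (a := r) (b := s))
    rwa [mul_one] at this
  have h3 := natDegree_mul_le_of_le h1 h2
  rwa [Nat.sub_add_cancel hi] at h3

/-- The transformed polynomial. -/
noncomputable def AP {n : ℕ} (p q r s : ℤ) (a : Fin (n + 1) → ℤ) : ℤ[X] :=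
  ∑ i : Fin (n + 1), C (a i) * tm n p q r s i

lemma act_eq {n : ℕ} (p q r s : ℤ) (a : Fin (n + 1) → ℤ) (j : Fin (n + 1)) :
    act p q r s a j = (AP p q r s a).coeff (n - (j : ℕ)) := by
  unfold act AP tm
  congr 1
  exact sum_congr rfl fun i _ => mul_assoc _ _ _

lemma act_sum {n : ℕ} (p q r s : ℤ) (a : Fin (n + 1) → ℤ) (j : Fin (n + 1)) :
    act p q r s a j = ∑ i : Fin (n + 1), a i * (tm n p q r s i).coeff (n - (j : ℕ)) := by
  rw [act_eq, AP, finsetSum_coeff]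
  exact sum_congr rfl fun i _ => coeff_C_mul _

lemma AP_deg {n : ℕ} (p q r s : ℤ) (a : Fin (n + 1) → ℤ) : (AP p q r s a).natDegree ≤ n := by
  unfold AP
  refine natDegree_sum_le_of_forall_le _ _ (fun i _ => ?_)
  exact (natDegree_C_mul_le _ _).trans (tm_deg p q r s (by have := i.isLt; omega))

lemma GZ_act {n : ℕ} (p q r s : ℤ) (a : Fin (n + 1) → ℤ) :
    GZ ℤ (act p q r s a) = AP p q r s a := by
  ext k
  by_cases hk : k ≤ n
  · rw [BF.Els.gz_coeff _ hk, Int.cast_id, act_eq]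
    congr 1
    simp only
    omega
  · rw [BF.Els.gz_coeff_gt _ (by omega)]
    exact (coeff_eq_zero_of_natDegree_lt (lt_of_le_of_lt (AP_deg p q r s a) (by omega))).symm

lemma GZ_map {R : Type*} [CommRing R] {n : ℕ} (a : Fin (n + 1) → ℤ) :
    (GZ ℤ a).map (Int.castRingHom R) = GZ R a := by
  simp [gpol, Polynomial.map_sum]

lemma GZ_inj {n : ℕ} {a b : Fin (n + 1) → ℤ} (h : GZ ℚ a = GZ ℚ b) : a = b := by
  funext i
  have h1 : (GZ ℚ a).coeff (n - (i : ℕ)) = (GZ ℚ b).coeff (n - (i : ℕ)) := by rw [h]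
  rw [BF.Els.gz_coeff _ (Nat.sub_le _ _), BF.Els.gz_coeff _ (Nat.sub_le _ _)] at h1
  have e : (⟨n - (n - (i : ℕ)), by omega⟩ : Fin (n + 1)) = i := by
    apply Fin.ext
    have := i.isLt
    show n - (n - (i : ℕ)) = i
    omega
  rw [e] at h1
  exact_mod_cast h1

/-- Homogeneous values. -/
lemma hom_eval {K : Type*} [Field K] {n : ℕ} (a : Fin (n + 1) → ℤ) (x z : K) (hz : z ≠ 0) :
    ∑ i : Fin (n + 1), (a i : K) * x ^ (n - (i : ℕ)) * z ^ (i : ℕ) =
      z ^ n * (GZ K a).eval (x / z) := by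
  rw [BF.Els.gz_eval, mul_sum]
  refine sum_congr rfl fun i _ => ?_
  have hi : (i : ℕ) + (n - (i : ℕ)) = n := by have := i.isLt; omega
  have hz' : z ^ n = z ^ (i : ℕ) * z ^ (n - (i : ℕ)) := by rw [← pow_add, hi]
  rw [div_pow, hz']
  field_simp

lemma hom_zero {K : Type*} [Field K] {n : ℕ} (a : Fin (n + 1) → ℤ) (x : K) :
    ∑ i : Fin (n + 1), (a i : K) * x ^ (n - (i : ℕ)) * (0 : K) ^ (i : ℕ) = (a 0 : K) * x ^ n := by
  rw [sum_eq_single (0 : Fin (n + 1))]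
  · simp
  · intro i _ hi
    have : (i : ℕ) ≠ 0 := fun h => hi (Fin.ext h)
    rw [zero_pow this, mul_zero]
  · intro h
    exact absurd (mem_univ _) h

end ActAux

open ActAux

theorem act_zero {n : ℕ} (p q r s : ℤ) (a : Fin (n + 1) → ℤ) :
    act p q r s a 0 = ∑ i : Fin (n + 1), a i * p ^ (n - (i : ℕ)) * r ^ (i : ℕ) := by
  rw [act_sum]
  refine sum_congr rfl fun i _ => ?_
  have hi : (i : ℕ) ≤ n := by have := i.isLt; omega
  rw [Fin.val_zero, Nat.sub_zero, tm_coeff p q r s hi, mul_assoc]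

theorem act_last {n : ℕ} (p q r s : ℤ) (a : Fin (n + 1) → ℤ) :
    act p q r s a (Fin.last n) = ∑ i : Fin (n + 1), a i * q ^ (n - (i : ℕ)) * s ^ (i : ℕ) := by
  rw [act_sum]
  refine sum_congr rfl fun i _ => ?_
  rw [Fin.val_last, Nat.sub_self, coeff_zero_eq_eval_zero, tm]
  simp [mul_assoc]

/-- The value of the transformed polynomial. -/
theorem act_eval {n : ℕ} (p q r s : ℤ) (a : Fin (n + 1) → ℤ) {K : Type*} [Field K] (t : K) :
    (GZ K (act p q r s a)).eval t =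
      ∑ i : Fin (n + 1), (a i : K) * (p * t + q) ^ (n - (i : ℕ)) * (r * t + s) ^ (i : ℕ) := by
  rw [← GZ_map, GZ_act, AP, Polynomial.map_sum, eval_finsetSum]
  refine sum_congr rfl fun i _ => ?_
  simp [tm, mul_assoc]

theorem act_inv {n : ℕ} (p q r s : ℤ) (h : p * s - q * r = 1) (a : Fin (n + 1) → ℤ) :
    act s (-q) (-r) p (act p q r s a) = a := by
  apply GZ_inj
  have hQ : (p : ℚ) * s - q * r = 1 := by exact_mod_cast h
  apply Polynomial.eq_of_infinite_eval_eq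
  refine Set.Infinite.mono (s := {t : ℚ | -(r : ℚ) * t + p ≠ 0}) ?_ ?_
  · intro t ht
    have ht' : (-(r : ℚ)) * t + p ≠ 0 := ht
    show (GZ ℚ (act s (-q) (-r) p (act p q r s a))).eval t = (GZ ℚ a).eval t
    rw [act_eval]
    push_cast
    rw [hom_eval _ _ _ ht', act_eval]
    by_cases hr : (r : ℚ) * ((s * t + -q) / (-r * t + p)) + s = 0
    · exfalso
      rw [mul_div_assoc', div_add' _ _ _ ht', div_eq_zero_iff] at hr
      rcases hr with hr | hr
      · have : (1 : ℚ) = 0 := by linear_combination hr - hQ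
        exact one_ne_zero this
      · exact ht' hr
    · rw [hom_eval _ _ _ hr]
      have e1 : (r : ℚ) * ((s * t + -q) / (-r * t + p)) + s = 1 / (-r * t + p) := by
        rw [mul_div_assoc', div_add' _ _ _ ht']
        congr 1
        linear_combination hQ
      have e2 : (p : ℚ) * ((s * t + -q) / (-r * t + p)) + q = t / (-r * t + p) := by
        rw [mul_div_assoc', div_add' _ _ _ ht']
        congr 1
        linear_combination t * hQ
      rw [e1, e2]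
      have e3 : t / (-(r : ℚ) * t + p) / (1 / (-r * t + p)) = t := by
        rw [div_div_div_cancel_right₀ ht', div_one]
      rw [e3, ← mul_assoc, ← mul_pow]
      have e4 : (-(r : ℚ) * t + p) * (1 / (-r * t + p)) = 1 := mul_one_div_cancel ht'
      rw [e4, one_pow, one_mul]
  · have hfin : {t : ℚ | -(r : ℚ) * t + p = 0}.Finite := by
      by_cases hr : (r : ℚ) = 0
      · have hp : (p : ℚ) ≠ 0 := by
          intro hp
          rw [hr, hp] at hQ
          norm_num at hQ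
        convert Set.finite_empty
        ext t
        simp [hr, hp]
      · refine (Set.finite_singleton ((p : ℚ) / r)).subset ?_
        intro t ht
        have ht' : -(r : ℚ) * t + p = 0 := ht
        rw [Set.mem_singleton_iff, eq_div_iff hr]
        linear_combination -ht'
    exact hfin.infinite_compl

theorem act_bound (n : ℕ) (p q r s : ℤ) : ∃ C : ℕ, 0 < C ∧ ∀ (H : ℕ) (a : Fin (n + 1) → ℤ),
    (∀ i, |a i| ≤ (H : ℤ)) → ∀ i, |act p q r s a i| ≤ ((C * H : ℕ) : ℤ) := by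
  refine ⟨(∑ i : Fin (n + 1), ∑ j : Fin (n + 1),
    ((tm n p q r s i).coeff (n - (j : ℕ))).natAbs) + 1, Nat.succ_pos _, ?_⟩
  intro H a ha j
  have h1 : |act p q r s a j| ≤ ∑ i : Fin (n + 1),
      (H : ℤ) * |(tm n p q r s i).coeff (n - (j : ℕ))| := by
    rw [act_sum]
    refine (abs_sum_le_sum_abs _ _).trans (sum_le_sum fun i _ => ?_)
    rw [abs_mul]
    exact mul_le_mul_of_nonneg_right (ha i) (abs_nonneg _)
  refine h1.trans ?_
  rw [← mul_sum]
  push_cast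
  have h2 : ∑ i : Fin (n + 1), |(tm n p q r s i).coeff (n - (j : ℕ))| ≤
      ∑ i : Fin (n + 1), ∑ j : Fin (n + 1), |(tm n p q r s i).coeff (n - (j : ℕ))| := by
    refine sum_le_sum fun i _ => ?_
    exact single_le_sum (f := fun j : Fin (n + 1) => |(tm n p q r s i).coeff (n - (j : ℕ))|)
      (fun j _ => abs_nonneg _) (mem_univ j)
  have hH : (0 : ℤ) ≤ H := Int.natCast_nonneg H
  nlinarith

namespace ActAux

/-- A homogeneous point gives a point. -/
lemma point_of {n m : ℕ} (he : Even n) (hem : Even m) (a : Fin (n + 1) → ℤ)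
    (b : Fin (m + 1) → ℤ) (K : Type*) [Field K] (x z : K) (hxz : x ≠ 0 ∨ z ≠ 0)
    (ha : IsSquare (∑ i : Fin (n + 1), (a i : K) * x ^ (n - (i : ℕ)) * z ^ (i : ℕ)))
    (hb : IsSquare (∑ i : Fin (m + 1), (b i : K) * x ^ (m - (i : ℕ)) * z ^ (i : ℕ))) :
    DQ.HasPoint a b K := by
  have key : ∀ {k : ℕ} (hk : Even k) {c v u : K}, v ≠ 0 → c = v ^ k * u → IsSquare c →
      IsSquare u := by
    intro k hk c v u hv hc hs
    obtain ⟨j, hj⟩ := hk
    obtain ⟨y, hy⟩ := hs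
    refine ⟨y / v ^ j, ?_⟩
    rw [div_mul_div_comm, ← hy, hc, hj, pow_add]
    field_simp
  by_cases hz : z = 0
  · right
    have hx : x ≠ 0 := by
      rcases hxz with h | h
      · exact h
      · exact absurd hz h
    rw [hz, hom_zero] at ha hb
    exact ⟨key he hx (mul_comm _ _) ha, key hem hx (mul_comm _ _) hb⟩
  · left
    rw [hom_eval _ _ _ hz] at ha hb
    obtain ⟨y, hy⟩ := key he hz rfl ha
    obtain ⟨w, hw⟩ := key hem hz rfl hb
    exact ⟨x / z, y, w, by rw [sq, hy], by rw [sq, hw]⟩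

end ActAux

theorem act_point {n m : ℕ} (he : Even n) (hem : Even m) (p q r s : ℤ) (h : p * s - q * r = 1)
    (a : Fin (n + 1) → ℤ) (b : Fin (m + 1) → ℤ) (K : Type*) [Field K] [CharZero K]
    (hp : DQ.HasPoint (act p q r s a) (act p q r s b) K) : DQ.HasPoint a b K := by
  have hK : (p : K) * s - q * r = 1 := by exact_mod_cast h
  rcases hp with ⟨t, y, w, h1, h2⟩ | ⟨h1, h2⟩
  · rw [act_eval] at h1 h2
    refine point_of he hem a b K (p * t + q) (r * t + s) ?_ ⟨y, by rw [← h1, sq]⟩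
      ⟨w, by rw [← h2, sq]⟩
    by_contra hcon
    push Not at hcon
    obtain ⟨h3, h4⟩ := hcon
    have h5 : t = 0 := by linear_combination (s : K) * h3 - q * h4 - t * hK
    rw [h5, mul_zero, zero_add] at h3 h4
    rw [h3, h4] at hK
    simp at hK
  · rw [act_zero] at h1 h2
    push_cast at h1 h2
    refine point_of he hem a b K p r ?_ h1 h2
    by_contra hcon
    push Not at hcon
    rw [hcon.1, hcon.2] at hK
    simp at hK

theorem act_els {n m : ℕ} (he : Even n) (hem : Even m) (p q r s : ℤ) (h : p * s - q * r = 1)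
    (a : Fin (n + 1) → ℤ) (b : Fin (m + 1) → ℤ)
    (hp : DQ.ELS (act p q r s a) (act p q r s b)) : DQ.ELS a b :=
  ⟨fun l _ => act_point he hem p q r s h a b ℚ_[l] (hp.1 l),
    act_point he hem p q r s h a b ℝ hp.2⟩

namespace ActAux

/-- The transformed polynomial over an algebraically closed field in terms of the roots. -/
lemma GZ_act_roots {K : Type*} [Field K] [IsAlgClosed K] {m : ℕ} (p q r s : ℤ)
    (hK : (p : K) * s - q * r = 1) (b : Fin (m + 1) → ℤ) (h0 : (b 0 : K) ≠ 0)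
    (hsq : Squarefree (GZ K b)) :
    ∃ R : Finset K, R.card = m ∧ GZ K (act p q r s b) =
      C (b 0 : K) * ∏ ρ ∈ R, (C ((p : K) - ρ * r) * X + C ((q : K) - ρ * s)) := by
  classical
  have hdeg : (GZ K b).natDegree = m := DQ.ElsC.gz_deg b h0
  have hlc : (GZ K b).leadingCoeff = (b 0 : K) := by
    rw [leadingCoeff, hdeg, BF.Els.gz_coeff _ le_rfl]
    congr 2
    apply Fin.ext
    simp
  have hne : GZ K b ≠ 0 := fun h => h0 (by rw [← hlc, h, leadingCoeff_zero])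
  have hsp : (GZ K b).Splits := IsAlgClosed.splits _
  have hnd : (GZ K b).roots.Nodup :=
    nodup_roots (PerfectField.separable_iff_squarefree.mpr hsq)
  refine ⟨(GZ K b).roots.toFinset, ?_, ?_⟩
  · rw [Multiset.toFinset_card_of_nodup hnd, ← hsp.natDegree_eq_card_roots, hdeg]
  · have hprod : ∀ u : K, (GZ K b).eval u =
        (b 0 : K) * ∏ ρ ∈ (GZ K b).roots.toFinset, (u - ρ) := by
      intro u
      have h1 := hsp.eq_prod_roots
      rw [hlc] at h1
      have h2 : (GZ K b).eval u = (C (b 0 : K) *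
          ((GZ K b).roots.map fun ρ => X - C ρ).prod).eval u := by
        conv_lhs => rw [h1]
      rw [h2, eval_mul, eval_C, eval_multiset_prod, Multiset.map_map, Finset.prod,
        Multiset.toFinset_val, hnd.dedup]
      simp
    apply Polynomial.eq_of_infinite_eval_eq
    have hfin : {t : K | (r : K) * t + s = 0}.Finite := by
      by_cases hr : (r : K) = 0
      · have hs : (s : K) ≠ 0 := by
          intro hs
          rw [hr, hs] at hK
          simp at hK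
        refine Set.finite_empty.subset ?_
        intro t ht
        have ht' : (r : K) * t + s = 0 := ht
        rw [hr, zero_mul, zero_add] at ht'
        exact absurd ht' hs
      · refine (Set.finite_singleton (-(s : K) / r)).subset ?_
        intro t ht
        have ht' : (r : K) * t + s = 0 := ht
        rw [Set.mem_singleton_iff, eq_div_iff hr]
        linear_combination ht'
    have : Infinite K := IsAlgClosed.instInfinite
    refine Set.Infinite.mono (s := {t : K | (r : K) * t + s = 0}ᶜ) ?_ hfin.infinite_compl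
    intro t ht
    have ht' : (r : K) * t + s ≠ 0 := ht
    show (GZ K (act p q r s b)).eval t = _
    rw [act_eval, hom_eval _ _ _ ht', hprod]
    have hcard : (GZ K b).roots.toFinset.card = m := by
      rw [Multiset.toFinset_card_of_nodup hnd, ← hsp.natDegree_eq_card_roots, hdeg]
    have e1 : ((r : K) * t + s) ^ m = ∏ _ρ ∈ (GZ K b).roots.toFinset, ((r : K) * t + s) := by
      rw [prod_const, hcard]
    rw [mul_left_comm, e1, ← prod_mul_distrib, eval_mul, eval_C, eval_prod]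
    congr 1
    refine prod_congr rfl fun ρ _ => ?_
    simp only [eval_add, eval_mul, eval_C, eval_X]
    rw [mul_sub, mul_div_cancel₀ _ ht']
    ring

end ActAux

/-- The transformed form is squarefree modulo `l`. -/
theorem act_sqf {m : ℕ} (hm : 1 ≤ m) (p q r s : ℤ) (h : p * s - q * r = 1)
    (b : Fin (m + 1) → ℤ) (l : ℕ) [Fact l.Prime] (h0 : ¬ (l : ℤ) ∣ b 0)
    (hsq : Squarefree (GZ (AlgebraicClosure (ZMod l)) b)) :
    Squarefree (GZ (AlgebraicClosure (ZMod l)) (act p q r s b)) ∧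
      ¬ ((l : ℤ) ∣ act p q r s b 0 ∧ (l : ℤ) ∣ act p q r s b 1) := by
  classical
  set K := AlgebraicClosure (ZMod l) with hKdef
  have hC : CharP K l := charP_of_injective_algebraMap (algebraMap (ZMod l) K).injective l
  have hb0 : (b 0 : K) ≠ 0 := (CharP.intCast_eq_zero_iff K l _).not.mpr h0
  have hK : (p : K) * s - q * r = 1 := by
    have h9 : ((p * s - q * r : ℤ) : K) = 1 := by rw [h, Int.cast_one]
    rw [Int.cast_sub, Int.cast_mul, Int.cast_mul] at h9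
    exact h9
  obtain ⟨R, hR, hP⟩ := GZ_act_roots p q r s hK b hb0 hsq
  -- the linear factors
  have hL0 : ∀ ρ : K, (C ((p : K) - ρ * r) * X + C ((q : K) - ρ * s)) ≠ 0 := by
    intro ρ hρ
    have h1 : (p : K) - ρ * r = 0 := by
      have h9 := congrArg (fun P : K[X] => P.coeff 1) hρ
      simp only [coeff_zero] at h9
      rwa [lin_coeff] at h9
    have h2 : (q : K) - ρ * s = 0 := by
      have := congrArg (fun P : K[X] => P.coeff 0) hρ
      simpa using this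
    have : (1 : K) = 0 := by linear_combination s * h1 - r * h2 - hK
    exact one_ne_zero this
  have hLsq : ∀ ρ : K, Squarefree (C ((p : K) - ρ * r) * X + C ((q : K) - ρ * s)) := by
    intro ρ
    by_cases h1 : (p : K) - ρ * r = 0
    · have h2 : (q : K) - ρ * s ≠ 0 := by
        intro h2
        apply hL0 ρ
        rw [h1, h2]
        simp
      rw [h1, C_0, zero_mul, zero_add]
      exact (isUnit_C.2 (isUnit_iff_ne_zero.2 h2)).squarefree
    · exact (irreducible_of_degree_eq_one (degree_linear h1)).squarefree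
  have hcop : (R : Set K).Pairwise (Function.onFun IsCoprime fun ρ =>
      (C ((p : K) - ρ * r) * X + C ((q : K) - ρ * s))) := by
    intro ρ _ ρ' _ hne
    refine ⟨C (-((p : K) - ρ' * r) / (ρ - ρ')), C (((p : K) - ρ * r) / (ρ - ρ')), ?_⟩
    have hd : ρ - ρ' ≠ 0 := sub_ne_zero.2 hne
    have e1 : (-((p : K) - ρ' * r) / (ρ - ρ')) * ((p : K) - ρ * r) +
        (((p : K) - ρ * r) / (ρ - ρ')) * ((p : K) - ρ' * r) = 0 := by ring
    have e2 : (-((p : K) - ρ' * r) / (ρ - ρ')) * ((q : K) - ρ * s) +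
        (((p : K) - ρ * r) / (ρ - ρ')) * ((q : K) - ρ' * s) = 1 := by
      rw [div_mul_eq_mul_div, div_mul_eq_mul_div, ← add_div, div_eq_one_iff_eq hd]
      linear_combination (ρ - ρ') * hK
    calc C (-((p : K) - ρ' * r) / (ρ - ρ')) * (C ((p : K) - ρ * r) * X + C ((q : K) - ρ * s)) +
          C (((p : K) - ρ * r) / (ρ - ρ')) * (C ((p : K) - ρ' * r) * X + C ((q : K) - ρ' * s))
        = C ((-((p : K) - ρ' * r) / (ρ - ρ')) * ((p : K) - ρ * r) +
          (((p : K) - ρ * r) / (ρ - ρ')) * ((p : K) - ρ' * r)) * X +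
          C ((-((p : K) - ρ' * r) / (ρ - ρ')) * ((q : K) - ρ * s) +
          (((p : K) - ρ * r) / (ρ - ρ')) * ((q : K) - ρ' * s)) := by
            simp only [C_add, C_mul]
            ring
      _ = 1 := by rw [e1, e2, C_0, zero_mul, zero_add, C_1]
  have hprodsq : Squarefree (∏ ρ ∈ R, (C ((p : K) - ρ * r) * X + C ((q : K) - ρ * s))) := by
    refine Finset.squarefree_prod_of_pairwise_isCoprime ?_ fun ρ _ => hLsq ρ
    exact fun ρ hρ ρ' hρ' hne => (hcop hρ hρ' hne).isRelPrime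
  have hu : IsUnit (C (b 0 : K)) := isUnit_C.2 (isUnit_iff_ne_zero.2 hb0)
  have hsqf : Squarefree (GZ K (act p q r s b)) := by
    rw [hP]
    exact squarefree_mul_iff.2 ⟨hu.isRelPrime_left, hu.squarefree, hprodsq⟩
  refine ⟨hsqf, ?_⟩
  rintro ⟨h1, h2⟩
  have h1' : ((act p q r s b 0 : ℤ) : K) = 0 := (CharP.intCast_eq_zero_iff K l _).2 h1
  have h2' : ((act p q r s b 1 : ℤ) : K) = 0 := (CharP.intCast_eq_zero_iff K l _).2 h2
  -- the degree
  have hdeg : m - 1 ≤ (GZ K (act p q r s b)).natDegree := by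
    rw [hP, natDegree_C_mul hb0, natDegree_prod _ _ fun ρ _ => hL0 ρ]
    have h3 : ((R.filter fun ρ => (p : K) - ρ * r = 0)).card ≤ 1 := by
      rw [card_le_one]
      intro ρ hρ ρ' hρ'
      rw [mem_filter] at hρ hρ'
      by_contra hne
      have h4 : (ρ - ρ') * (r : K) = 0 := by linear_combination hρ'.2 - hρ.2
      have h5 : (r : K) = 0 := by
        rcases mul_eq_zero.1 h4 with h5 | h5
        · exact absurd (sub_eq_zero.1 h5) hne
        · exact h5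
      have h6 : (p : K) = 0 := by linear_combination hρ.2 + ρ * h5
      rw [h5, h6] at hK
      simp at hK
    have h4 : ∑ ρ ∈ R, (C ((p : K) - ρ * r) * X + C ((q : K) - ρ * s) : K[X]).natDegree =
        ∑ ρ ∈ R, (if (p : K) - ρ * r = 0 then 0 else 1) := by
      refine sum_congr rfl fun ρ _ => ?_
      split_ifs with h5
      · rw [h5, C_0, zero_mul, zero_add, natDegree_C]
      · exact natDegree_linear h5
    have h5 : ∑ ρ ∈ R, (if (p : K) - ρ * r = 0 then 0 else 1) =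
        (R.filter fun ρ => ¬ (p : K) - ρ * r = 0).card := by
      rw [card_filter]
      refine sum_congr rfl fun ρ _ => ?_
      split_ifs <;> simp_all
    have h6 := card_filter_add_card_filter_not (s := R) (fun ρ => (p : K) - ρ * r = 0)
    omega
  have hle : (GZ K (act p q r s b)).natDegree ≤ m := BF.Els.gz_natDegree_le _
  have hne : GZ K (act p q r s b) ≠ 0 := hsqf.ne_zero
  have hlc : (GZ K (act p q r s b)).coeff (GZ K (act p q r s b)).natDegree ≠ 0 :=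
    leadingCoeff_ne_zero.2 hne
  rcases (by omega : (GZ K (act p q r s b)).natDegree = m ∨
    (GZ K (act p q r s b)).natDegree = m - 1) with h3 | h3
  · apply hlc
    rw [h3, BF.Els.gz_coeff _ le_rfl]
    have : (⟨m - m, by omega⟩ : Fin (m + 1)) = 0 := by
      apply Fin.ext
      simp
    rw [this]
    exact h1'
  · apply hlc
    rw [h3, BF.Els.gz_coeff _ (Nat.sub_le _ _)]
    have : (⟨m - (m - 1), by omega⟩ : Fin (m + 1)) = 1 := by
      apply Fin.ext
      rw [Fin.val_one', Nat.mod_eq_of_lt (by omega)]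
      show m - (m - 1) = 1
      omega
    rw [this]
    exact h2'

end Stoll308.FQ
end

section
set_option autoImplicit false

/-!
The global scalar.
-/

namespace Stoll308.DQ

open Polynomial Finset Matrix BG BF SC

section cls

variable {K : Type*} [Field K] {f δ h : K[X]}

lemma sc_isUnit_C {u : K} (hu : u ≠ 0) : IsUnit (C u) := isUnit_C.2 (isUnit_iff_ne_zero.2 hu)

lemma Cls.const_mul (hc : Cls f δ h) {u : K} (hu : u ≠ 0) : Cls f (C u * δ) (C u * h) := by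
  obtain ⟨h1, h2, ⟨r, h3⟩, s, h4, h5⟩ := hc
  refine ⟨?_, ?_, ⟨r, ?_⟩, s, h4, ?_⟩
  · rwa [natDegree_C_mul hu]
  · exact (isCoprime_mul_unit_left_left (sc_isUnit_C hu) h f).2 h2
  · exact (IsUnit.mul_left_dvd (sc_isUnit_C hu)).2 h3
  · have e : C u * h - C u * δ * s ^ 2 = C u * (h - δ * s ^ 2) := by ring
    rw [e]
    exact h5.mul_left _

lemma Cls.sq_mul (hc : Cls f δ h) {u : K} (hu : u ≠ 0) : Cls f (C (u ^ 2) * δ) h := by
  obtain ⟨h1, h2, h3, s, h4, h5⟩ := hc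
  refine ⟨h1, h2, h3, C u⁻¹ * s, ?_, ?_⟩
  · exact (isCoprime_mul_unit_left_left (sc_isUnit_C (inv_ne_zero hu)) s f).2 h4
  · have e0 : C u * C u⁻¹ = (1 : K[X]) := by rw [← C_mul, mul_inv_cancel₀ hu, C_1]
    have e : C (u ^ 2) * δ * (C u⁻¹ * s) ^ 2 = δ * s ^ 2 := by
      rw [C_pow]
      linear_combination (C u * C u⁻¹ + 1) * δ * s ^ 2 * e0
    rw [e]
    exact h5

/-- Remove the factor `v² u`. -/
lemma Cls.red {c v u w : K} (hc : Cls f (C c * δ) h) (hv : v ≠ 0) (hu : u ≠ 0)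
    (e : c = v ^ 2 * (u * w)) : Cls f (C w * δ) (C u⁻¹ * h) := by
  have h1 := (hc.sq_mul (inv_ne_zero hv)).const_mul (inv_ne_zero hu)
  have e1 : C u⁻¹ * (C (v⁻¹ ^ 2) * (C c * δ)) = C w * δ := by
    rw [← mul_assoc, ← mul_assoc, ← C_mul, ← C_mul]
    congr 2
    rw [e]
    field_simp
  rwa [e1] at h1

end cls

theorem ULoc.unit_mul {p : ℕ} [Fact p.Prime] {f q δ ε : ℚ_[p][X]} (h : ULoc p f q δ ε)
    (u : ℚ_[p]) (hu : ‖u‖ = 1) : ULoc p f q (C u * δ) (C u * ε) := by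
  have hu0 : u ≠ 0 := by
    rintro rfl
    rw [norm_zero] at hu
    exact zero_ne_one hu
  obtain ⟨h, h1, h2, h3⟩ := h
  exact ⟨C u * h, h1.unit_mul u hu, h2.const_mul hu0, h3.const_mul hu0⟩

theorem ULoc.sq_mul {p : ℕ} [Fact p.Prime] {f q δ ε : ℚ_[p][X]} (h : ULoc p f q δ ε)
    (u : ℚ_[p]) (hu : u ≠ 0) : ULoc p f q (C (u ^ 2) * δ) (C (u ^ 2) * ε) := by
  obtain ⟨h, h1, h2, h3⟩ := h
  exact ⟨h, h1, h2.sq_mul hu, h3.sq_mul hu⟩

/-- A `p`-adic number is a unit times a power of `p`. -/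
lemma sc_exists_unit {p : ℕ} [hp : Fact p.Prime] {c : ℚ_[p]} (hc : c ≠ 0) :
    ∃ (j : ℤ) (u : ℚ_[p]), ‖u‖ = 1 ∧ c = (p : ℚ_[p]) ^ j * u := by
  have hp0 : (p : ℚ_[p]) ≠ 0 := by
    exact_mod_cast hp.out.ne_zero
  have hpR : (p : ℝ) ≠ 0 := by
    exact_mod_cast hp.out.ne_zero
  have hj := Padic.norm_eq_zpow_neg_valuation hc
  set j : ℤ := c.valuation
  refine ⟨j, (p : ℚ_[p]) ^ (-j) * c, ?_, ?_⟩
  · rw [norm_mul, hj, norm_zpow, Padic.norm_p, _root_.inv_zpow, _root_.zpow_neg, inv_inv]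
    exact mul_inv_cancel₀ (zpow_ne_zero _ hpR)
  · rw [← mul_assoc, ← zpow_add₀ hp0, add_neg_cancel, zpow_zero, one_mul]

theorem uloc_or (p : ℕ) [Fact p.Prime] (f q δ ε : ℚ_[p][X]) (hf : 0 < f.natDegree)
    (h : DLoc f q δ ε) :
    ULoc p f q δ ε ∨ ULoc p f q (C (p : ℚ_[p]) * δ) (C (p : ℚ_[p]) * ε) := by
  have _ := hf
  obtain ⟨h, c, hc, h1, h2⟩ := h
  have hh0 : h ≠ 0 := by
    rintro rfl
    have := h1.1
    rw [natDegree_zero] at this
    exact absurd this (by decide)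
  have hp0 : (p : ℚ_[p]) ≠ 0 := by
    have hp : p.Prime := Fact.out
    exact_mod_cast hp.ne_zero
  obtain ⟨k, hk⟩ := exists_prim p h hh0
  have hk0 : (p : ℚ_[p]) ^ k ≠ 0 := zpow_ne_zero _ hp0
  have h1' := h1.const_mul hk0
  have h2' := h2.const_mul hk0
  rw [← mul_assoc, ← C_mul] at h1' h2'
  obtain ⟨j, u, hu, hj⟩ := sc_exists_unit (mul_ne_zero hk0 hc)
  have hu0 : u ≠ 0 := by
    rintro rfl
    rw [norm_zero] at hu
    exact zero_ne_one hu
  have hui : ‖u⁻¹‖ = 1 := by rw [norm_inv, hu, inv_one]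
  rcases Int.even_or_odd' j with ⟨i, hi | hi⟩
  · left
    have e : (p : ℚ_[p]) ^ k * c = ((p : ℚ_[p]) ^ i) ^ 2 * (u * 1) := by
      rw [hj, hi, mul_one, ← zpow_natCast, ← _root_.zpow_mul, mul_comm i]
      rfl
    have hi0 : (p : ℚ_[p]) ^ i ≠ 0 := zpow_ne_zero _ hp0
    have h3 := h1'.red hi0 hu0 e
    have h4 := h2'.red hi0 hu0 e
    rw [C_1, one_mul] at h3 h4
    exact ⟨_, hk.unit_mul _ hui, h3, h4⟩
  · right
    have e : (p : ℚ_[p]) ^ k * c = ((p : ℚ_[p]) ^ i) ^ 2 * (u * p) := by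
      rw [hj, hi, zpow_add₀ hp0, zpow_one, ← zpow_natCast, ← _root_.zpow_mul, mul_comm i]
      push_cast
      ring
    have hi0 : (p : ℚ_[p]) ^ i ≠ 0 := zpow_ne_zero _ hp0
    exact ⟨_, hk.unit_mul _ hui, h1'.red hi0 hu0 e, h2'.red hi0 hu0 e⟩

/-- An integral multiple of a polynomial with rational coefficients. -/
lemma sc_exists_int (P : ℚ[X]) :
    ∃ (N : ℤ) (P' : ℤ[X]), N ≠ 0 ∧ P'.map (Int.castRingHom ℚ) = C (N : ℚ) * P := by
  obtain ⟨b, hb1, hb⟩ := IsLocalization.integerNormalization_spec (nonZeroDivisors ℤ) P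
  refine ⟨b, IsLocalization.integerNormalization (nonZeroDivisors ℤ) P,
    nonZeroDivisors.ne_zero hb1, ?_⟩
  rw [show Int.castRingHom ℚ = algebraMap ℤ ℚ from rfl, hb]
  rw [← Polynomial.smul_eq_C_mul]
  ext i
  simp

/-- Clear the denominators of a Bezout identity. -/
lemma sc_bezout (A B : ℤ[X]) (h : IsCoprime (A.map (Int.castRingHom ℚ)) (B.map (Int.castRingHom ℚ))) :
    ∃ (N : ℤ) (U V : ℤ[X]), N ≠ 0 ∧ U * A + V * B = C N := by
  obtain ⟨u, v, huv⟩ := h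
  obtain ⟨N1, U, h1, hU⟩ := sc_exists_int u
  obtain ⟨N2, V, h2, hV⟩ := sc_exists_int v
  refine ⟨N1 * N2, C N2 * U, C N1 * V, mul_ne_zero h1 h2, ?_⟩
  apply map_injective (Int.castRingHom ℚ) (Int.castRingHom ℚ).injective_int
  have e1 : (Int.castRingHom ℚ) (N1 * N2) = (N1 : ℚ) * N2 := by simp
  rw [Polynomial.map_add, Polynomial.map_mul, Polynomial.map_mul, Polynomial.map_mul,
    Polynomial.map_mul, map_C, map_C, map_C, hU, hV, e1, C_mul, eq_intCast, eq_intCast]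
  linear_combination C (N1 : ℚ) * C (N2 : ℚ) * huv

/-- For almost all `p` the class of `p δ` is impossible. -/
theorem exists_bad_primes {n : ℕ} (hn : 2 ≤ n) (a : Fin (n + 1) → ℤ) (h0 : a 0 ≠ 0)
    (hF : Irreducible (GZ ℚ a)) (δ : ℚ[X]) (hδ : IsCoprime δ (GZ ℚ a)) :
    ∃ S : Finset ℕ, ∀ (p : ℕ) [Fact p.Prime], p ∉ S →
      ∀ h : ℚ_[p][X], Prim p h →
        ¬ Cls (GZ ℚ_[p] a) (C (p : ℚ_[p]) * δ.map (algebraMap ℚ ℚ_[p])) h := by
  have hsep : (GZ ℚ a).Separable := hF.separable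
  have hmapQ : (GZ ℤ a).map (Int.castRingHom ℚ) = GZ ℚ a := BF.LocLat.GZ_map _ a
  -- the identity for the discriminant
  obtain ⟨N1, U, V, hN1, hUV⟩ := sc_bezout (GZ ℤ a) (derivative (GZ ℤ a)) (by
    rw [← derivative_map, hmapQ]
    exact hsep)
  obtain ⟨N2, D, hN2, hD⟩ := sc_exists_int δ
  have hN2Q : (N2 : ℚ) ≠ 0 := by exact_mod_cast hN2
  obtain ⟨N3, U', V', hN3, hUV'⟩ := sc_bezout D (GZ ℤ a) (by
    rw [hD, hmapQ]
    exact (isCoprime_mul_unit_left_left (sc_isUnit_C hN2Q) _ _).2 hδ)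
  set M : ℤ := 2 * a 0 * N1 * N2 * N3 with hM
  have hM0 : M ≠ 0 := by
    rw [hM]
    exact mul_ne_zero (mul_ne_zero (mul_ne_zero (mul_ne_zero two_ne_zero h0) hN1) hN2) hN3
  refine ⟨M.natAbs.primeFactors, fun p hp hpS h hprim hcls => ?_⟩
  have hpp : p.Prime := hp.out
  have hpM : ¬ (p : ℤ) ∣ M := by
    intro hd
    apply hpS
    rw [Nat.mem_primeFactors]
    exact ⟨hpp, Int.natCast_dvd.1 hd, Int.natAbs_ne_zero.2 hM0⟩
  have hp2 : p ≠ 2 := by
    rintro rfl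
    apply hpM
    rw [hM]
    exact Dvd.dvd.mul_right (Dvd.dvd.mul_right (Dvd.dvd.mul_right (Dvd.dvd.mul_right
      (by norm_num) _) _) _) _
  have hpa : ¬ (p : ℤ) ∣ a 0 := fun hd => hpM (by
    rw [hM]
    exact Dvd.dvd.mul_right (Dvd.dvd.mul_right (Dvd.dvd.mul_right (Dvd.dvd.mul_left hd _) _) _) _)
  have hpN1 : ¬ (p : ℤ) ∣ N1 := fun hd => hpM (by
    rw [hM]
    exact Dvd.dvd.mul_right (Dvd.dvd.mul_right (Dvd.dvd.mul_left hd _) _) _)
  have hpN2 : ¬ (p : ℤ) ∣ N2 := fun hd => hpM (by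
    rw [hM]
    exact Dvd.dvd.mul_right (Dvd.dvd.mul_left hd _) _)
  have hpN3 : ¬ (p : ℤ) ∣ N3 := fun hd => hpM (by
    rw [hM]
    exact Dvd.dvd.mul_left hd _)
  have hunit : ∀ N : ℤ, ¬ (p : ℤ) ∣ N → IsUnit (N : ℤ_[p]) := by
    intro N hN
    rw [PadicInt.isUnit_iff, PadicInt.norm_def]
    have := norm_int_eq_one hN
    exact_mod_cast this
  obtain ⟨g, c, hc, hg, hgn, hgm, hgf⟩ := exists_mon p a hpa
  have hFp : C c * g = (GZ ℤ a).map (Int.castRingHom ℤ_[p]) := by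
    apply Core.toQ_inj
    rw [hgf]
    unfold toQ
    rw [Polynomial.map_map, BF.LocLat.GZ_map]
  -- squarefree modulo `p`
  have hsq : Squarefree (g.map (PadicInt.toZMod : ℤ_[p] →+* ZMod p)) := by
    have hdvd : g.map (PadicInt.toZMod : ℤ_[p] →+* ZMod p) ∣
        (GZ ℤ a).map (Int.castRingHom (ZMod p)) := by
      refine ⟨C ((PadicInt.toZMod : ℤ_[p] →+* ZMod p) c), ?_⟩
      have h1 := congrArg (Polynomial.map (PadicInt.toZMod : ℤ_[p] →+* ZMod p)) hFp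
      rw [Polynomial.map_mul, map_C, Polynomial.map_map] at h1
      rw [mul_comm, h1]
      congr 1
      exact RingHom.ext_int _ _
    refine Squarefree.squarefree_of_dvd hdvd ?_
    apply Polynomial.Separable.squarefree
    have h1 := congrArg (Polynomial.map (Int.castRingHom (ZMod p))) hUV
    rw [Polynomial.map_add, Polynomial.map_mul, Polynomial.map_mul, map_C, ← derivative_map] at h1
    have h2 : (Int.castRingHom (ZMod p)) N1 ≠ 0 := by
      rw [eq_intCast, Ne, ZMod.intCast_zmod_eq_zero_iff_dvd]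
      exact hpN1
    refine ⟨C ((Int.castRingHom (ZMod p)) N1)⁻¹ * U.map (Int.castRingHom (ZMod p)),
      C ((Int.castRingHom (ZMod p)) N1)⁻¹ * V.map (Int.castRingHom (ZMod p)), ?_⟩
    have h3 : C ((Int.castRingHom (ZMod p)) N1)⁻¹ * C ((Int.castRingHom (ZMod p)) N1) =
        (1 : (ZMod p)[X]) := by
      rw [← C_mul, inv_mul_cancel₀ h2, C_1]
    linear_combination C ((Int.castRingHom (ZMod p)) N1)⁻¹ * h1 + h3
  -- `δ` over `ℤ_p`
  obtain ⟨w2, hw2⟩ := (hunit N2 hpN2).exists_left_inv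
  obtain ⟨w3, hw3⟩ := (hunit N3 hpN3).exists_left_inv
  set δ' : ℤ_[p][X] := C w2 * D.map (Int.castRingHom ℤ_[p]) with hδ'
  have hD' : D.map (Int.castRingHom ℤ_[p]) = C (N2 : ℤ_[p]) * δ' := by
    rw [hδ', ← mul_assoc, ← C_mul, mul_comm (N2 : ℤ_[p]), hw2, C_1, one_mul]
  have hδQ : toQ δ' = δ.map (algebraMap ℚ ℚ_[p]) := by
    have h1 : toQ (D.map (Int.castRingHom ℤ_[p])) =
        C (N2 : ℚ_[p]) * δ.map (algebraMap ℚ ℚ_[p]) := by
      have h2 := congrArg (Polynomial.map (algebraMap ℚ ℚ_[p])) hD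
      rw [Polynomial.map_mul, map_C, Polynomial.map_map, map_intCast] at h2
      rw [← h2]
      unfold toQ
      rw [Polynomial.map_map]
      congr 1
    have h2 : (N2 : ℚ_[p]) ≠ 0 := by exact_mod_cast hN2
    have h3 : toQ (D.map (Int.castRingHom ℤ_[p])) = C (N2 : ℚ_[p]) * toQ δ' := by
      rw [hD']
      unfold toQ
      rw [Polynomial.map_mul, map_C, map_intCast]
    rw [h3] at h1
    exact mul_left_cancel₀ (by rwa [Ne, C_eq_zero]) h1
  have hcop : IsCoprime δ' g := by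
    have h1 := congrArg (Polynomial.map (Int.castRingHom ℤ_[p])) hUV'
    rw [Polynomial.map_add, Polynomial.map_mul, Polynomial.map_mul, map_C, hD', ← hFp,
      eq_intCast] at h1
    refine ⟨C w3 * U'.map (Int.castRingHom ℤ_[p]) * C (N2 : ℤ_[p]),
      C w3 * V'.map (Int.castRingHom ℤ_[p]) * C c, ?_⟩
    have h3 : C w3 * C (N3 : ℤ_[p]) = (1 : ℤ_[p][X]) := by
      rw [← C_mul, hw3, C_1]
    linear_combination C w3 * h1 + h3
  have hgood := good_unit hn p hp2 a hpa _ h hprim hcls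
  rw [← hδQ, ← hgm] at hgood
  exact not_good (by omega) p g hg hgn hsq δ' hcop hgood

theorem exists_scale {n m : ℕ} (hn : 2 ≤ n) (a : Fin (n + 1) → ℤ) (b : Fin (m + 1) → ℤ)
    (h0 : a 0 ≠ 0) (hF : Irreducible (GZ ℚ a)) (δ ε : ℚ[X]) (hδ : IsCoprime δ (GZ ℚ a))
    (hloc : ∀ (p : ℕ) [Fact p.Prime], p ≠ 2 → DLoc (GZ ℚ_[p] a) (GZ ℚ_[p] b)
      (δ.map (algebraMap ℚ ℚ_[p])) (ε.map (algebraMap ℚ ℚ_[p]))) :
    ∃ κ : ℚ, κ ≠ 0 ∧ ∀ (p : ℕ) [Fact p.Prime], p ≠ 2 → ULoc p (GZ ℚ_[p] a) (GZ ℚ_[p] b)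
      ((C κ * δ).map (algebraMap ℚ ℚ_[p])) ((C κ * ε).map (algebraMap ℚ ℚ_[p])) := by
  classical
  obtain ⟨S, hS⟩ := exists_bad_primes hn a h0 hF δ hδ
  set T : Finset ℕ := S.filter fun p => ∃ hp : Fact p.Prime, p ≠ 2 ∧
    ¬ ULoc p (GZ ℚ_[p] a) (GZ ℚ_[p] b) (δ.map (algebraMap ℚ ℚ_[p]))
      (ε.map (algebraMap ℚ ℚ_[p])) with hT
  have hTp : ∀ p ∈ T, p.Prime := by
    intro p hp
    rw [hT, mem_filter] at hp
    obtain ⟨-, ⟨hp⟩, -⟩ := hp
    exact hp
  have hunit : ∀ (p : ℕ) [Fact p.Prime] (R : Finset ℕ), (∀ l ∈ R, l.Prime) → p ∉ R →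
      ‖((∏ l ∈ R, (l : ℚ) : ℚ) : ℚ_[p])‖ = 1 := by
    intro p hp R hR hpR
    push_cast
    rw [norm_prod]
    refine prod_eq_one fun l hl => ?_
    have h1 : ¬ (p : ℤ) ∣ (l : ℤ) := by
      intro hd
      rw [Int.natCast_dvd_natCast, Nat.prime_dvd_prime_iff_eq hp.out (hR l hl)] at hd
      rw [hd] at hpR
      exact hpR hl
    have h2 := norm_int_eq_one h1
    exact_mod_cast h2
  refine ⟨∏ p ∈ T, (p : ℚ), ?_, fun p hp hp2 => ?_⟩
  · rw [prod_ne_zero_iff]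
    intro p hp
    have := (hTp p hp).ne_zero
    exact_mod_cast this
  have hdeg : 0 < (GZ ℚ_[p] a).natDegree := by
    have h1 : (GZ ℚ_[p] a).coeff n ≠ 0 := by
      rw [BF.LocLat.GZ_coeff_top]
      exact_mod_cast h0
    have := le_natDegree_of_ne_zero h1
    omega
  have hmul : ∀ (κ : ℚ) (γ : ℚ[X]), (C κ * γ).map (algebraMap ℚ ℚ_[p]) =
      C (κ : ℚ_[p]) * γ.map (algebraMap ℚ ℚ_[p]) := by
    intro κ γ
    rw [Polynomial.map_mul, map_C, eq_ratCast]
  rw [hmul, hmul]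
  by_cases hU : ULoc p (GZ ℚ_[p] a) (GZ ℚ_[p] b) (δ.map (algebraMap ℚ ℚ_[p]))
      (ε.map (algebraMap ℚ ℚ_[p]))
  · have hpT : p ∉ T := by
      intro hpT
      rw [hT, mem_filter] at hpT
      obtain ⟨-, _, -, h2⟩ := hpT
      exact h2 hU
    exact hU.unit_mul _ (hunit p T hTp hpT)
  · have hpS : p ∈ S := by
      by_contra hpS
      rcases uloc_or p _ _ _ _ hdeg (hloc p hp2) with h1 | ⟨h, h1, h2, -⟩
      · exact hU h1
      · exact hS p hpS h h1 h2
    have hpT : p ∈ T := by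
      rw [hT, mem_filter]
      exact ⟨hpS, hp, hp2, hU⟩
    have h1 := (uloc_or p _ _ _ _ hdeg (hloc p hp2)).resolve_left hU
    have h2 := h1.unit_mul _ (hunit p (T.erase p) (fun l hl => hTp l (mem_of_mem_erase hl))
      (notMem_erase p T))
    have h3 : ((∏ l ∈ T, (l : ℚ) : ℚ) : ℚ_[p]) =
        ((∏ l ∈ T.erase p, (l : ℚ) : ℚ) : ℚ_[p]) * (p : ℚ_[p]) := by
      rw [← prod_erase_mul T _ hpT]
      push_cast
      ring
    rw [h3, C_mul, mul_assoc, mul_assoc]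
    exact h2

end Stoll308.DQ
end

section
set_option autoImplicit false

/-!
The polynomial `q` remains squarefree modulo almost all primes.
-/

namespace Stoll308.FQ

open Polynomial Finset BF

theorem sqf_primes {m : ℕ} (b : Fin (m + 1) → ℤ) (h0 : b 0 ≠ 0) (hsq : Squarefree (GZ ℚ b)) :
    ∃ Q : ℕ, ∀ (p : ℕ) [Fact p.Prime], Q < p →
      ¬ (p : ℤ) ∣ b 0 ∧ Squarefree (GZ (AlgebraicClosure (ZMod p)) b) := by
  have hmap : ∀ (R : Type) [CommRing R], (GZ ℤ b).map (Int.castRingHom R) = GZ R b := by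
    intro R _
    simp [GZ, gpol, Polynomial.map_sum]
  have hsep : (GZ ℚ b).Separable := PerfectField.separable_iff_squarefree.2 hsq
  have hc : IsCoprime ((GZ ℤ b).map (Int.castRingHom ℚ))
      ((derivative (GZ ℤ b)).map (Int.castRingHom ℚ)) := by
    rw [← derivative_map, hmap]
    exact hsep
  obtain ⟨N, U, V, hN, h⟩ := DQ.sc_bezout (GZ ℤ b) (derivative (GZ ℤ b)) hc
  refine ⟨(N * b 0).natAbs, fun p hp hQ => ?_⟩
  have hNb : ¬ (p : ℤ) ∣ N * b 0 := by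
    intro hd
    have h1 := Int.natAbs_dvd_natAbs.2 hd
    rw [Int.natAbs_natCast] at h1
    have h2 := Nat.le_of_dvd (Int.natAbs_pos.2 (mul_ne_zero hN h0)) h1
    omega
  refine ⟨fun hd => hNb (Dvd.dvd.mul_left hd _), ?_⟩
  have hN' : ((N : ℤ) : AlgebraicClosure (ZMod p)) ≠ 0 := by
    intro h1
    apply hNb
    refine Dvd.dvd.mul_right ?_ _
    exact (CharP.intCast_eq_zero_iff (AlgebraicClosure (ZMod p)) p N).1 h1
  have h3 := congrArg (Polynomial.map (Int.castRingHom (AlgebraicClosure (ZMod p)))) h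
  rw [Polynomial.map_add, Polynomial.map_mul, Polynomial.map_mul, ← derivative_map, hmap,
    Polynomial.map_C] at h3
  have hs : (GZ (AlgebraicClosure (ZMod p)) b).Separable := by
    refine ⟨C ((N : AlgebraicClosure (ZMod p))⁻¹) *
      U.map (Int.castRingHom (AlgebraicClosure (ZMod p))),
      C ((N : AlgebraicClosure (ZMod p))⁻¹) *
      V.map (Int.castRingHom (AlgebraicClosure (ZMod p))), ?_⟩
    rw [mul_assoc, mul_assoc, ← mul_add, h3, ← C_mul, eq_intCast, inv_mul_cancel₀ hN', C_1]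
  exact hs.squarefree

end Stoll308.FQ
end

section
set_option autoImplicit false

/-!
The primes `p > h` for which the first polynomial is squarefree: then it divides the second one.
-/

namespace Stoll308.DQ

open Polynomial Finset BG BF

/-- The determinant of the shifts of `a` and of the vector `b`: the columns `0, ..., m - n`
and `c`. -/
def RD {n m : ℕ} (a : Fin (n + 1) → ℤ) (b : Fin (m + 1) → ℤ) (c : ℕ) : ℤ :=
  (Matrix.of fun (i j : Fin (m - n + 2)) =>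
    if (i : ℕ) < m - n + 1 then
      (if (j : ℕ) < m - n + 1 then
        (if (i : ℕ) ≤ j then BG.Els.bet a ((j : ℕ) - i + 1) else 0) else
        BG.Els.bet a (c - i + 1)) else
      (if (j : ℕ) < m - n + 1 then BG.Els.bet b ((j : ℕ) + 1) else BG.Els.bet b (c + 1))).det

lemma cast_bet {K : Type*} [Field K] {n : ℕ} (a : Fin (n + 1) → ℤ) (s : ℕ) :
    ((BG.Els.bet a (s + 1) : ℤ) : K) = if s ≤ n then (GZ K a).coeff (n - s) else 0 := by
  unfold BG.Els.bet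
  by_cases h : s ≤ n
  · rw [dif_pos (by omega), if_pos h, BF.Els.gz_coeff _ (Nat.sub_le _ _)]
    congr 2
    apply Fin.ext
    simp only
    omega
  · rw [dif_neg (by omega), if_neg h, Int.cast_zero]

/-- The coefficients of a product. -/
lemma coeff_shift {K : Type*} [Field K] {n m : ℕ} (hnm : n ≤ m) (a : Fin (n + 1) → ℤ) (k : K[X])
    (hk : k.natDegree ≤ m - n) (s : ℕ) (hs : s ≤ m) :
    (GZ K a * k).coeff (m - s) = ∑ i ∈ range (m - n + 1), k.coeff (m - n - i) *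
      (if i ≤ s then ((BG.Els.bet a (s - i + 1) : ℤ) : K) else 0) := by
  have h1 : (GZ K a * k).coeff (m - s) = ∑ i ∈ range (m - n + 1), k.coeff i *
      (if i ≤ m - s then (GZ K a).coeff (m - s - i) else 0) := by
    conv_lhs => rw [as_sum_range_C_mul_X_pow' k (Nat.lt_succ_of_le hk)]
    rw [mul_sum, finsetSum_coeff]
    apply sum_congr rfl
    intro i _
    rw [mul_left_comm, coeff_C_mul, coeff_mul_X_pow']
  rw [h1, ← sum_range_reflect]
  apply sum_congr rfl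
  intro i hi
  rw [mem_range] at hi
  rw [show m - n + 1 - 1 - i = m - n - i by omega]
  congr 1
  by_cases his : i ≤ s
  · rw [if_pos his, cast_bet]
    by_cases h2 : s - i ≤ n
    · rw [if_pos h2, if_pos (by omega)]
      congr 1
      omega
    · rw [if_neg h2, if_neg (by omega)]
  · rw [if_neg his]
    split_ifs
    · exact BF.Els.gz_coeff_gt _ (by omega)
    · rfl

/-- If `f` divides `q` modulo `p` then `p` divides the determinants. -/
theorem RD_dvd {n m : ℕ} (hn : 4 ≤ n) (hnm : n ≤ m) (p : ℕ) [Fact p.Prime]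
    (a : Fin (n + 1) → ℤ) (b : Fin (m + 1) → ℤ)
    (h : GZ (AlgebraicClosure (ZMod p)) a ∣ GZ (AlgebraicClosure (ZMod p)) b) (c : ℕ)
    (hc : m - n + 1 ≤ c) (hcm : c ≤ m) (ha : ¬ (p : ℤ) ∣ a 0) : (p : ℤ) ∣ RD a b c := by
  obtain ⟨k, hk⟩ := h
  have ha' : ((a 0 : ℤ) : AlgebraicClosure (ZMod p)) ≠ 0 := by
    rw [Ne, BG.PEls.cast_eq_zero (p := p)]
    exact ha
  have hfn : (GZ (AlgebraicClosure (ZMod p)) a).natDegree = n := by
    apply natDegree_eq_of_le_of_coeff_ne_zero (BF.Els.gz_natDegree_le _)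
    rw [BF.Els.gz_coeff _ le_rfl]
    convert ha' using 3
    apply Fin.ext
    simp
  have hf0 : GZ (AlgebraicClosure (ZMod p)) a ≠ 0 := by
    intro h0
    rw [h0, natDegree_zero] at hfn
    omega
  have hkd : k.natDegree ≤ m - n := by
    by_cases hk0 : k = 0
    · rw [hk0, natDegree_zero]
      omega
    · have h1 := congrArg natDegree hk
      rw [natDegree_mul hf0 hk0, hfn] at h1
      have h2 : (GZ (AlgebraicClosure (ZMod p)) b).natDegree ≤ m := BF.Els.gz_natDegree_le _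
      omega
  have key : ∀ s ≤ m, ((BG.Els.bet b (s + 1) : ℤ) : AlgebraicClosure (ZMod p)) =
      ∑ i ∈ range (m - n + 1), k.coeff (m - n - i) *
        (if i ≤ s then ((BG.Els.bet a (s - i + 1) : ℤ) : AlgebraicClosure (ZMod p)) else 0) := by
    intro s hs
    rw [← coeff_shift hnm a k hkd s hs, ← hk, cast_bet, if_pos hs]
  rw [← BG.PEls.cast_eq_zero (K := AlgebraicClosure (ZMod p)), RD]
  have e1 := RingHom.map_det (Int.castRingHom (AlgebraicClosure (ZMod p)))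
    (Matrix.of fun (i j : Fin (m - n + 2)) =>
      if (i : ℕ) < m - n + 1 then
        (if (j : ℕ) < m - n + 1 then
          (if (i : ℕ) ≤ j then BG.Els.bet a ((j : ℕ) - i + 1) else 0) else
          BG.Els.bet a (c - i + 1)) else
        (if (j : ℕ) < m - n + 1 then BG.Els.bet b ((j : ℕ) + 1) else BG.Els.bet b (c + 1)))
  rw [eq_intCast] at e1
  rw [e1, ← Matrix.exists_vecMul_eq_zero_iff]
  refine ⟨fun i => if (i : ℕ) < m - n + 1 then k.coeff (m - n - i) else -1, ?_, ?_⟩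
  · intro h0
    have h1 := congrFun h0 (Fin.last _)
    simp at h1
  · funext j
    rw [Matrix.vecMul, dotProduct, Fin.sum_univ_castSucc]
    simp only [RingHom.mapMatrix_apply, Matrix.map_apply, Matrix.of_apply, Fin.val_castSucc,
      Fin.val_last, lt_irrefl, if_false, Pi.zero_apply]
    have h2 : ∀ i : Fin (m - n + 1), (i : ℕ) < m - n + 1 := fun i => i.2
    simp only [h2, if_true]
    by_cases hj : (j : ℕ) < m - n + 1
    · simp only [hj, if_true, eq_intCast]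
      rw [key j (by omega), Fin.sum_univ_eq_sum_range (fun i => k.coeff (m - n - i) *
        (((if i ≤ (j : ℕ) then BG.Els.bet a ((j : ℕ) - i + 1) else 0 : ℤ)) :
          AlgebraicClosure (ZMod p))) (m - n + 1), neg_one_mul, ← sub_eq_add_neg, sub_eq_zero]
      apply sum_congr rfl
      intro i _
      split_ifs
      · rfl
      · rw [Int.cast_zero]
    · simp only [hj, if_false, eq_intCast]
      rw [key c hcm, Fin.sum_univ_eq_sum_range (fun i => k.coeff (m - n - i) *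
        ((BG.Els.bet a (c - i + 1) : ℤ) : AlgebraicClosure (ZMod p))) (m - n + 1), neg_one_mul,
        ← sub_eq_add_neg, sub_eq_zero]
      apply sum_congr rfl
      intro i hi
      rw [mem_range] at hi
      rw [if_pos (by omega)]

/-- Two matrices which differ only in the last entry. -/
lemma det_sub_of_last {N : ℕ} (M M' : Matrix (Fin (N + 1)) (Fin (N + 1)) ℤ)
    (h : ∀ i j, i ≠ Fin.last N ∨ j ≠ Fin.last N → M i j = M' i j) :
    M.det - M'.det = (M (Fin.last N) (Fin.last N) - M' (Fin.last N) (Fin.last N)) *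
      (M.submatrix Fin.castSucc Fin.castSucc).det := by
  have e : ∀ M : Matrix (Fin (N + 1)) (Fin (N + 1)) ℤ, M.det =
      (∑ j : Fin N, (-1) ^ (N + (j : ℕ)) * M (Fin.last N) j.castSucc *
        (M.submatrix (Fin.last N).succAbove j.castSucc.succAbove).det) +
      M (Fin.last N) (Fin.last N) * (M.submatrix Fin.castSucc Fin.castSucc).det := by
    intro M
    rw [Matrix.det_succ_row _ (Fin.last _), Fin.sum_univ_castSucc]
    simp only [Fin.val_castSucc, Fin.val_last, Fin.succAbove_last]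
    rw [← two_mul, pow_mul, neg_one_sq, one_pow, one_mul]
  rw [e M, e M']
  have h1 : (M.submatrix Fin.castSucc Fin.castSucc) = (M'.submatrix Fin.castSucc Fin.castSucc) := by
    ext i j
    simp only [Matrix.submatrix_apply]
    exact h _ _ (Or.inl (Fin.castSucc_lt_last i).ne)
  have h2 : ∀ j : Fin N, (-1) ^ (N + (j : ℕ)) * M (Fin.last N) j.castSucc *
        (M.submatrix (Fin.last N).succAbove j.castSucc.succAbove).det =
      (-1) ^ (N + (j : ℕ)) * M' (Fin.last N) j.castSucc *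
        (M'.submatrix (Fin.last N).succAbove j.castSucc.succAbove).det := by
    intro j
    rw [h _ _ (Or.inr (Fin.castSucc_lt_last j).ne)]
    congr 2
    ext i j'
    simp only [Matrix.submatrix_apply, Fin.succAbove_last]
    exact h _ _ (Or.inl (Fin.castSucc_lt_last i).ne)
  rw [sum_congr rfl fun j _ => h2 j, h1]
  ring

/-- The coefficient `b_c` in the determinant. -/
theorem RD_sub {n m : ℕ} (hnm : n ≤ m) (a : Fin (n + 1) → ℤ) (b b' : Fin (m + 1) → ℤ) (c : ℕ)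
    (hc : m - n + 1 ≤ c) (hcm : c ≤ m)
    (h : ∀ i : Fin (m + 1), (i : ℕ) ≤ m - n → b i = b' i) :
    RD a b c - RD a b' c = a 0 ^ (m - n + 1) * (b ⟨c, by omega⟩ - b' ⟨c, by omega⟩) := by
  have hbet : ∀ (b : Fin (m + 1) → ℤ) (s : ℕ) (hs : s ≤ m), BG.Els.bet b (s + 1) =
      b ⟨s, by omega⟩ := fun b s hs => BF.Els.bet_eq b hs
  unfold RD
  rw [det_sub_of_last]
  · simp only [Matrix.of_apply, Fin.val_last, lt_irrefl, if_false]
    rw [hbet b c hcm, hbet b' c hcm, mul_comm]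
    congr 1
    rw [Matrix.det_of_isUpperTriangular]
    · refine (prod_congr rfl fun i _ => ?_).trans
        (show ∏ _i : Fin (m - n + 1), a 0 = a 0 ^ (m - n + 1) by
          rw [prod_const, card_univ, Fintype.card_fin])
      simp only [Matrix.submatrix_apply, Matrix.of_apply, Fin.val_castSucc, i.2,
        if_true, le_refl, Nat.sub_self]
      exact BG.Els.bet_eq a 0
    · intro i j hij
      simp only [Matrix.submatrix_apply, Matrix.of_apply, Fin.val_castSucc, i.2, j.2,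
        if_true]
      rw [if_neg]
      have : (j : ℕ) < i := hij
      omega
  · intro i j hij
    simp only [Matrix.of_apply]
    by_cases hi : (i : ℕ) < m - n + 1
    · rw [if_pos hi, if_pos hi]
    · rw [if_neg hi, if_neg hi]
      have hi' : i = Fin.last _ := by
        apply Fin.ext
        rw [Fin.val_last]
        have := i.2
        omega
      have hj : (j : ℕ) < m - n + 1 := by
        by_contra h0
        rcases hij with h1 | h1
        · exact h1 hi'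
        · apply h1
          apply Fin.ext
          rw [Fin.val_last]
          have := j.2
          omega
      rw [if_pos hj, if_pos hj, hbet b j (by omega), hbet b' j (by omega)]
      exact h _ (by simp only; omega)

lemma RD_eq_of {n m : ℕ} (hnm : n ≤ m) (a : Fin (n + 1) → ℤ) (b b' : Fin (m + 1) → ℤ) (c : ℕ)
    (hc : m - n + 1 ≤ c) (hcm : c ≤ m)
    (h : ∀ i : Fin (m + 1), (i : ℕ) ≤ c → b i = b' i) : RD a b c = RD a b' c := by
  rw [← sub_eq_zero, RD_sub hnm a b b' c hc hcm (fun i hi => h i (by omega)), h _ le_rfl, sub_self,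
    mul_zero]

/-- The size of the determinant. -/
lemma RD_bound {n m : ℕ} (a : Fin (n + 1) → ℤ) (b : Fin (m + 1) → ℤ) (c : ℕ) {B : ℤ}
    (hB : 0 ≤ B) (ha : ∀ i, |a i| ≤ B) (hb : ∀ i, |b i| ≤ B) :
    |RD a b c| ≤ (m - n + 2).factorial * B ^ (m - n + 2) := by
  have hbeta : ∀ s, |BG.Els.bet a s| ≤ B := by
    intro s
    unfold BG.Els.bet
    split_ifs
    · exact ha _
    · rwa [abs_zero]
  have hbetb : ∀ s, |BG.Els.bet b s| ≤ B := by
    intro s
    unfold BG.Els.bet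
    split_ifs
    · exact hb _
    · rwa [abs_zero]
  have h1 := Matrix.det_le (A := Matrix.of fun (i j : Fin (m - n + 2)) =>
      if (i : ℕ) < m - n + 1 then
        (if (j : ℕ) < m - n + 1 then
          (if (i : ℕ) ≤ j then BG.Els.bet a ((j : ℕ) - i + 1) else 0) else
          BG.Els.bet a (c - i + 1)) else
        (if (j : ℕ) < m - n + 1 then BG.Els.bet b ((j : ℕ) + 1) else BG.Els.bet b (c + 1)))
    (abv := AbsoluteValue.abs) (x := B) (by
      intro i j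
      rw [Matrix.of_apply, AbsoluteValue.abs_apply]
      split_ifs
      · exact hbeta _
      · rwa [abs_zero]
      · exact hbeta _
      · exact hbetb _
      · exact hbetb _)
  rw [Fintype.card_fin, nsmul_eq_mul, AbsoluteValue.abs_apply] at h1
  unfold RD
  exact h1

/-- Fibres over the first vector and the coordinates of the second one outside `J`. -/
lemma card_pairs {n m h : ℕ} (J : Finset (Fin (m + 1)))
    (S : Finset ((Fin (n + 1) → ℤ) × (Fin (m + 1) → ℤ)))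
    (hS : S ⊆ BF.Els.box (n + 1) h ×ˢ BF.Els.box (m + 1) h) {F : ℝ} (hF0 : 0 ≤ F)
    (hF : ∀ x ∈ S, ((S.filter fun y => y.1 = x.1 ∧ ∀ i, i ∉ J → y.2 i = x.2 i).card : ℝ) ≤ F) :
    (S.card : ℝ) ≤ (h : ℝ) ^ (n + 1) * ((h : ℝ) ^ (m + 1 - J.card) * F) := by
  classical
  have h1 := BG.Els.card_le_fiber S (BF.Els.box (n + 1) h) Prod.fst (by
    intro x hx
    exact (mem_product.1 (hS hx)).1) ((h : ℝ) ^ (m + 1 - J.card) * F) (by
    intro c _
    set T : Finset (Fin (m + 1) → ℤ) := (S.filter fun x => x.1 = c).image Prod.snd with hT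
    have hcard : (S.filter fun x => x.1 = c).card = T.card := by
      rw [hT, card_image_of_injOn]
      intro x hx y hy hxy
      rw [mem_coe, mem_filter] at hx hy
      exact Prod.ext (hx.2.trans hy.2.symm) hxy
    have hTm : ∀ b ∈ T, (c, b) ∈ S := by
      intro b hb
      rw [hT, mem_image] at hb
      obtain ⟨x, hx, rfl⟩ := hb
      rw [mem_filter] at hx
      rw [← hx.2]
      exact hx.1
    rw [hcard]
    apply BF.Els.card_le_free J T (fun b hb => (mem_product.1 (hS (hTm b hb))).2) hF0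
    intro b hb
    refine le_trans ?_ (hF (c, b) (hTm b hb))
    rw [Nat.cast_le]
    apply card_le_card_of_injOn (fun b' => (c, b'))
    · intro b' hb'
      rw [mem_coe, mem_filter] at hb' ⊢
      exact ⟨hTm b' hb'.1, rfl, hb'.2⟩
    · intro x _ y _ hxy
      exact (Prod.ext_iff.1 hxy).2)
  rw [BF.Els.card_box] at h1
  push_cast at h1
  exact h1

open Classical in
theorem card_E5 (n m : ℕ) (hn : 4 ≤ n) (hm : 4 ≤ m) (M : ℕ) (hM : 0 < M) :
    ∃ h₀ : ℕ, ∀ h : ℕ, h₀ ≤ h →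
      (((BF.Els.box (n + 1) h ×ˢ BF.Els.box (m + 1) h).filter fun x =>
        ∃ (p : ℕ) (_ : Fact p.Prime), h < p ∧ p ≠ 2 ∧ ¬ p ∣ M ∧
          Squarefree (GZ (AlgebraicClosure (ZMod p)) (BF.Els.co (M : ℤ) x.1)) ∧
          Sq2 (AlgebraicClosure (ZMod p)) (BF.Els.co (M : ℤ) x.1)
            (BF.Els.co (M : ℤ) x.2)).card : ℝ) ≤
        (m + 5) * (h : ℝ) ^ (n + m + 1) := by
  have hMz : (0 : ℤ) < M := by exact_mod_cast hM
  refine ⟨(m - n + 2).factorial * (2 * M) ^ (m - n + 2) + 1, fun h hh => ?_⟩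
  set S := (BF.Els.box (n + 1) h ×ˢ BF.Els.box (m + 1) h).filter fun x =>
        ∃ (p : ℕ) (_ : Fact p.Prime), h < p ∧ p ≠ 2 ∧ ¬ p ∣ M ∧
          Squarefree (GZ (AlgebraicClosure (ZMod p)) (BF.Els.co (M : ℤ) x.1)) ∧
          Sq2 (AlgebraicClosure (ZMod p)) (BF.Els.co (M : ℤ) x.1)
            (BF.Els.co (M : ℤ) x.2) with hS
  have hh1 : 1 ≤ h := by omega
  -- sizes
  have hco : ∀ {N : ℕ} (t : Fin (N + 1) → ℤ), t ∈ BF.Els.box (N + 1) h → ∀ i,
      |BF.Els.co (M : ℤ) t i| ≤ 2 * M * h := by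
    intro N t ht i
    have h1 := BF.Els.pos_of_box ht i
    have h2 : (M : ℤ) * 1 ≤ M * t i := mul_le_mul_of_nonneg_left h1.1 hMz.le
    have h3 : (M : ℤ) * t i ≤ M * h := mul_le_mul_of_nonneg_left h1.2 hMz.le
    have h5 : (1 : ℤ) ≤ h := by exact_mod_cast hh1
    have h6 : (M : ℤ) * 1 ≤ M * h := mul_le_mul_of_nonneg_left h5 hMz.le
    unfold BF.Els.co
    rw [abs_le]
    constructor
    · split_ifs <;> linarith
    · split_ifs <;> linarith
  -- the first coefficients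
  have hz : ∀ {N : ℕ} (hN : 1 ≤ N) (t : Fin (N + 1) → ℤ), t ∈ BF.Els.box (N + 1) h →
      ∀ p : ℕ, p.Prime → h < p → ¬ p ∣ M → ¬ (p : ℤ) ∣ BF.Els.co (M : ℤ) t 0 := by
    intro N hN t ht p hp hhp hpM hd
    rw [BF.Els.co_lt _ t (by rw [Fin.val_zero]; omega)] at hd
    rcases (Nat.prime_iff_prime_int.1 hp).dvd_or_dvd hd with h1 | h1
    · exact hpM (by exact_mod_cast h1)
    · have h2 := BF.Els.pos_of_box ht 0
      have h3 := Int.le_of_dvd (by linarith [h2.1]) h1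
      have h4 : ((p : ℕ) : ℤ) > h := by exact_mod_cast hhp
      linarith [h2.2]
  -- the polynomials
  have hdeg : ∀ {N : ℕ} (t : Fin (N + 1) → ℤ) (p : ℕ) [Fact p.Prime],
      ¬ (p : ℤ) ∣ BF.Els.co (M : ℤ) t 0 →
      (GZ (AlgebraicClosure (ZMod p)) (BF.Els.co (M : ℤ) t)).natDegree = N := by
    intro N t p _ ht
    apply natDegree_eq_of_le_of_coeff_ne_zero (BF.Els.gz_natDegree_le _)
    rw [BF.Els.gz_coeff _ le_rfl]
    have h1 : ((BF.Els.co (M : ℤ) t 0 : ℤ) : AlgebraicClosure (ZMod p)) ≠ 0 := by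
      rw [Ne, BG.PEls.cast_eq_zero (p := p)]
      exact ht
    convert h1 using 3
    apply Fin.ext
    simp
  have hdvd : ∀ x ∈ S, ∃ (p : ℕ) (_ : Fact p.Prime), h < p ∧ ¬ p ∣ M ∧
      GZ (AlgebraicClosure (ZMod p)) (BF.Els.co (M : ℤ) x.1) ∣
        GZ (AlgebraicClosure (ZMod p)) (BF.Els.co (M : ℤ) x.2) := by
    intro x hx
    rw [hS, mem_filter, mem_product] at hx
    obtain ⟨⟨hx1, hx2⟩, p, hp, hhp, hp2, hpM, hsf, hsq⟩ := hx
    refine ⟨p, hp, hhp, hpM, ?_⟩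
    apply dvd_of_sq2 _ _ hsf hsf.ne_zero _ hsq
    intro h0
    have h1 := hdeg x.2 p (hz (by omega) x.2 hx2 p hp.out hhp hpM)
    rw [h0, natDegree_zero] at h1
    omega
  rcases lt_or_ge m n with hnm | hnm
  · have hemp : S = ∅ := by
      rw [eq_empty_iff_forall_notMem]
      intro x hx
      obtain ⟨p, hp, hhp, hpM, hd⟩ := hdvd x hx
      rw [hS, mem_filter, mem_product] at hx
      have h1 := hdeg x.1 p (hz (by omega) x.1 hx.1.1 p hp.out hhp hpM)
      have h2 := hdeg x.2 p (hz (by omega) x.2 hx.1.2 p hp.out hhp hpM)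
      have h3 := natDegree_le_of_dvd hd (by
        intro h0
        rw [h0, natDegree_zero] at h2
        omega)
      omega
    rw [hemp, card_empty, Nat.cast_zero]
    positivity
  -- the two parts
  set A := (BF.Els.box (n + 1) h ×ˢ BF.Els.box (m + 1) h).filter fun x =>
    RD (BF.Els.co (M : ℤ) x.1) (BF.Els.co (M : ℤ) x.2) (m - 1) = 0 with hA
  set B := (BF.Els.box (n + 1) h ×ˢ BF.Els.box (m + 1) h).filter fun x =>
    RD (BF.Els.co (M : ℤ) x.1) (BF.Els.co (M : ℤ) x.2) (m - 1) ≠ 0 ∧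
      ∃ p : ℕ, p.Prime ∧ h < p ∧ ¬ p ∣ M ∧
        (p : ℤ) ∣ RD (BF.Els.co (M : ℤ) x.1) (BF.Els.co (M : ℤ) x.2) (m - 1) ∧
        (p : ℤ) ∣ RD (BF.Els.co (M : ℤ) x.1) (BF.Els.co (M : ℤ) x.2) m with hB
  have hsub : S ⊆ A ∪ B := by
    intro x hx
    obtain ⟨p, hp, hhp, hpM, hd⟩ := hdvd x hx
    rw [hS, mem_filter, mem_product] at hx
    have h1 := hz (by omega) x.1 hx.1.1 p hp.out hhp hpM
    rw [mem_union]
    by_cases h0 : RD (BF.Els.co (M : ℤ) x.1) (BF.Els.co (M : ℤ) x.2) (m - 1) = 0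
    · left
      rw [hA, mem_filter, mem_product]
      exact ⟨hx.1, h0⟩
    · right
      rw [hB, mem_filter, mem_product]
      exact ⟨hx.1, h0, p, hp.out, hhp, hpM,
        RD_dvd hn hnm p _ _ hd (m - 1) (by omega) (by omega) h1,
        RD_dvd hn hnm p _ _ hd m (by omega) le_rfl h1⟩
  have hAb : A ⊆ BF.Els.box (n + 1) h ×ˢ BF.Els.box (m + 1) h := by
    rw [hA]; exact filter_subset _ _
  have hBb : B ⊆ BF.Els.box (n + 1) h ×ˢ BF.Els.box (m + 1) h := by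
    rw [hB]; exact filter_subset _ _
  set u : Fin (m + 1) := ⟨m - 1, by omega⟩ with hu
  have hcA : (A.card : ℝ) ≤ (h : ℝ) ^ (n + 1) * ((h : ℝ) ^ m * 1) := by
    have h1 := card_pairs {u} A hAb zero_le_one (by
      intro x hx
      have h2 : (A.filter fun y => y.1 = x.1 ∧
          ∀ i, i ∉ ({u} : Finset (Fin (m + 1))) → y.2 i = x.2 i).card ≤ 1 := by
        rw [card_le_one]
        have key : ∀ y ∈ A.filter fun y => y.1 = x.1 ∧
            ∀ i, i ∉ ({u} : Finset (Fin (m + 1))) → y.2 i = x.2 i, y = x := by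
          intro y hy
          rw [mem_filter] at hy
          obtain ⟨hyA, hy1, hy2⟩ := hy
          rw [hA, mem_filter, mem_product] at hyA hx
          have hoff : ∀ i, i ≠ u → y.2 i = x.2 i := fun i hi => hy2 i (by rwa [mem_singleton])
          have hsub := RD_sub hnm (BF.Els.co (M : ℤ) x.1) (BF.Els.co (M : ℤ) y.2)
            (BF.Els.co (M : ℤ) x.2) (m - 1) (by omega) (by omega) (by
            intro i hi
            unfold BF.Els.co
            rw [hoff i (by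
              intro h0
              have := congrArg Fin.val h0
              simp only [hu] at this
              omega)])
          have hyR := hyA.2
          rw [hy1] at hyR
          rw [hyR, hx.2, sub_self] at hsub
          have ha0 : BF.Els.co (M : ℤ) x.1 0 ≠ 0 := by
            rw [BF.Els.co_lt _ _ (by rw [Fin.val_zero]; omega)]
            have := (BF.Els.pos_of_box hx.1.1 0).1
            positivity
          have h3 := (mul_eq_zero.1 hsub.symm).resolve_left (pow_ne_zero _ ha0)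
          have h4 : y.2 u = x.2 u := BF.Els.co_inj hMz.ne' (sub_eq_zero.1 h3)
          refine Prod.ext hy1 (funext fun i => ?_)
          by_cases hi : i = u
          · rw [hi]
            exact h4
          · exact hoff i hi
        intro y hy y' hy'
        rw [key y hy, key y' hy']
      exact_mod_cast h2)
    rw [card_singleton, Nat.add_sub_cancel] at h1
    exact h1
  have hR : ∀ x ∈ B, (RD (BF.Els.co (M : ℤ) x.1) (BF.Els.co (M : ℤ) x.2) (m - 1)).natAbs <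
      h ^ (m - n + 3) := by
    intro x hx
    have hx' := mem_product.1 (hBb hx)
    have h1 := RD_bound (BF.Els.co (M : ℤ) x.1) (BF.Els.co (M : ℤ) x.2) (m - 1)
      (by positivity : (0 : ℤ) ≤ 2 * M * h) (hco _ hx'.1) (hco _ hx'.2)
    have h2 : ((RD (BF.Els.co (M : ℤ) x.1) (BF.Els.co (M : ℤ) x.2) (m - 1)).natAbs : ℤ) ≤
        (((m - n + 2).factorial * (2 * M * h) ^ (m - n + 2) : ℕ) : ℤ) := by
      rw [Int.natCast_natAbs]
      push_cast
      exact h1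
    have h3 := Int.ofNat_le.1 h2
    refine lt_of_le_of_lt h3 ?_
    rw [mul_pow, ← mul_assoc, pow_succ h (m - n + 2), mul_comm (h ^ (m - n + 2)) h]
    exact Nat.mul_lt_mul_of_pos_right (by omega) (pow_pos (by omega) _)
  have hcB : (B.card : ℝ) ≤ (h : ℝ) ^ (n + 1) * ((h : ℝ) ^ m * ((m - n + 3 : ℕ) : ℝ)) := by
    have h1 := card_pairs {Fin.last m} B hBb (Nat.cast_nonneg (m - n + 3)) (by
      intro x hx
      have hxB := hx
      rw [hB, mem_filter, mem_product] at hx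
      obtain ⟨⟨hb₀, hb₀'⟩, hR₀, -⟩ := hx
      set P : (Fin (n + 1) → ℤ) × (Fin (m + 1) → ℤ) → ℕ := fun x =>
        if hp : ∃ p : ℕ, p.Prime ∧ h < p ∧ ¬ p ∣ M ∧
          (p : ℤ) ∣ RD (BF.Els.co (M : ℤ) x.1) (BF.Els.co (M : ℤ) x.2) (m - 1) ∧
          (p : ℤ) ∣ RD (BF.Els.co (M : ℤ) x.1) (BF.Els.co (M : ℤ) x.2) m then hp.choose
        else 0 with hP
      have hPspec : ∀ x ∈ B, (P x).Prime ∧ h < P x ∧ ¬ P x ∣ M ∧
          ((P x : ℕ) : ℤ) ∣ RD (BF.Els.co (M : ℤ) x.1) (BF.Els.co (M : ℤ) x.2) (m - 1) ∧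
          ((P x : ℕ) : ℤ) ∣ RD (BF.Els.co (M : ℤ) x.1) (BF.Els.co (M : ℤ) x.2) m := by
        intro x hx
        rw [hB, mem_filter] at hx
        simp only [hP]
        rw [dif_pos hx.2.2]
        exact hx.2.2.choose_spec
      have hsame : ∀ y z : (Fin (n + 1) → ℤ) × (Fin (m + 1) → ℤ),
          (∀ i, i ∉ ({Fin.last m} : Finset (Fin (m + 1))) → y.2 i = z.2 i) →
          ∀ i : Fin (m + 1), (i : ℕ) ≤ m - 1 →
            BF.Els.co (M : ℤ) y.2 i = BF.Els.co (M : ℤ) z.2 i := by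
        intro y z hyz i hi
        unfold BF.Els.co
        rw [hyz i (by
          rw [mem_singleton]
          intro h0
          rw [h0, Fin.val_last] at hi
          omega)]
      have h2 : (B.filter fun y => y.1 = x.1 ∧
          ∀ i, i ∉ ({Fin.last m} : Finset (Fin (m + 1))) → y.2 i = x.2 i).card ≤
          ((RD (BF.Els.co (M : ℤ) x.1) (BF.Els.co (M : ℤ) x.2)
            (m - 1)).natAbs.primeFactors.filter fun p => h < p).card := by
        apply card_le_card_of_injOn P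
        · intro y hy
          rw [mem_coe, mem_filter] at hy
          obtain ⟨q1, q2, -, q5, -⟩ := hPspec y hy.1
          rw [hy.2.1, RD_eq_of hnm _ _ (BF.Els.co (M : ℤ) x.2) (m - 1) (by omega) (by omega)
            (hsame y x hy.2.2)] at q5
          rw [mem_coe, mem_filter, Nat.mem_primeFactors]
          refine ⟨⟨q1, ?_, Int.natAbs_ne_zero.2 hR₀⟩, q2⟩
          have := Int.natAbs_dvd_natAbs.2 q5
          rwa [Int.natAbs_natCast] at this
        · intro y hy y' hy' hPP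
          rw [mem_coe, mem_filter] at hy hy'
          obtain ⟨q1, q2, q4, -, q6⟩ := hPspec y hy.1
          obtain ⟨-, -, -, -, q6'⟩ := hPspec y' hy'.1
          rw [← hPP] at q6'
          have hb := (mem_product.1 (hBb hy.1)).2
          have hb' := (mem_product.1 (hBb hy'.1)).2
          have hyy : ∀ i, i ∉ ({Fin.last m} : Finset (Fin (m + 1))) → y.2 i = y'.2 i :=
            fun i hi => (hy.2.2 i hi).trans (hy'.2.2 i hi).symm
          rw [hy.2.1] at q6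
          rw [hy'.2.1] at q6'
          have h3 := RD_sub hnm (BF.Els.co (M : ℤ) x.1) (BF.Els.co (M : ℤ) y.2)
            (BF.Els.co (M : ℤ) y'.2) m (by omega) le_rfl
            (fun i hi => hsame y y' hyy i (by omega))
          have h4 := dvd_sub q6 q6'
          rw [h3] at h4
          have hpr := Nat.prime_iff_prime_int.1 q1
          have h5 : ¬ ((P y : ℕ) : ℤ) ∣ (BF.Els.co (M : ℤ) x.1 0) ^ (m - n + 1) := fun h6 =>
            hz (by omega) x.1 hb₀ (P y) q1 q2 q4 (hpr.dvd_of_dvd_pow h6)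
          have h6 := BF.Els.dvd_of_co q1 (by exact_mod_cast q4)
            ((hpr.dvd_or_dvd h4).resolve_left h5)
          have h7 : y.2 (Fin.last m) = y'.2 (Fin.last m) := by
            have h8 := BF.Els.pos_of_box hb (Fin.last m)
            have h9 := BF.Els.pos_of_box hb' (Fin.last m)
            have h10 : ((P y : ℕ) : ℤ) > h := by exact_mod_cast q2
            have h11 := Int.eq_zero_of_abs_lt_dvd h6 (by
              have e : (⟨m, by omega⟩ : Fin (m + 1)) = Fin.last m := rfl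
              rw [e, abs_lt]
              constructor <;> linarith [h8.1, h8.2, h9.1, h9.2])
            have e : (⟨m, by omega⟩ : Fin (m + 1)) = Fin.last m := rfl
            rw [e] at h11
            linarith
          refine Prod.ext (hy.2.1.trans hy'.2.1.symm) (funext fun i => ?_)
          by_cases hi : i = Fin.last m
          · rw [hi]
            exact h7
          · exact hyy i (by rwa [mem_singleton])
      have h3 := h2.trans (BF.Els.card_large (Int.natAbs_pos.2 hR₀) (hR x hxB))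
      exact_mod_cast h3)
    rw [card_singleton, Nat.add_sub_cancel] at h1
    exact h1
  have h1 : (S.card : ℝ) ≤ A.card + B.card := by
    exact_mod_cast (card_le_card hsub).trans (card_union_le _ _)
  have h2 : ((m - n + 3 : ℕ) : ℝ) ≤ m + 4 := by
    have : m - n + 3 ≤ m + 4 := by omega
    exact_mod_cast this
  have h3 : (h : ℝ) ^ (n + m + 1) = (h : ℝ) ^ (n + 1) * (h : ℝ) ^ m := by
    rw [← pow_add]
    congr 1
    omega
  have h4 : (0 : ℝ) ≤ (h : ℝ) ^ (n + 1) * (h : ℝ) ^ m := by positivity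
  rw [h3]
  nlinarith

end Stoll308.DQ
end

section
set_option autoImplicit false

/-!
The primes larger than the parameters.
-/

namespace Stoll308.FQ

open Polynomial Finset BG BF DQ

/-- If `f` divides `q` modulo `p` then `p` divides the determinants (`DQ.RD_dvd` for small
degrees). -/
private theorem rd_dvd {n m : ℕ} (hn : 1 ≤ n) (hnm : n ≤ m) (p : ℕ) [Fact p.Prime]
    (a : Fin (n + 1) → ℤ) (b : Fin (m + 1) → ℤ)
    (h : GZ (AlgebraicClosure (ZMod p)) a ∣ GZ (AlgebraicClosure (ZMod p)) b) (c : ℕ)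
    (hc : m - n + 1 ≤ c) (hcm : c ≤ m) (ha : ¬ (p : ℤ) ∣ a 0) : (p : ℤ) ∣ RD a b c := by
  obtain ⟨k, hk⟩ := h
  have ha' : ((a 0 : ℤ) : AlgebraicClosure (ZMod p)) ≠ 0 := by
    rw [Ne, BG.PEls.cast_eq_zero (p := p)]
    exact ha
  have hfn : (GZ (AlgebraicClosure (ZMod p)) a).natDegree = n := by
    apply natDegree_eq_of_le_of_coeff_ne_zero (BF.Els.gz_natDegree_le _)
    rw [BF.Els.gz_coeff _ le_rfl]
    have e : (⟨n - n, by omega⟩ : Fin (n + 1)) = 0 := by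
      apply Fin.ext
      simp
    rw [e]
    exact ha'
  have hf0 : GZ (AlgebraicClosure (ZMod p)) a ≠ 0 := by
    intro h0
    rw [h0, natDegree_zero] at hfn
    omega
  have hkd : k.natDegree ≤ m - n := by
    by_cases hk0 : k = 0
    · rw [hk0, natDegree_zero]
      omega
    · have h1 := congrArg natDegree hk
      rw [natDegree_mul hf0 hk0, hfn] at h1
      have h2 : (GZ (AlgebraicClosure (ZMod p)) b).natDegree ≤ m := BF.Els.gz_natDegree_le _
      omega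
  have key : ∀ s ≤ m, ((BG.Els.bet b (s + 1) : ℤ) : AlgebraicClosure (ZMod p)) =
      ∑ i ∈ range (m - n + 1), k.coeff (m - n - i) *
        (if i ≤ s then ((BG.Els.bet a (s - i + 1) : ℤ) : AlgebraicClosure (ZMod p)) else 0) := by
    intro s hs
    rw [← coeff_shift hnm a k hkd s hs, ← hk, cast_bet, if_pos hs]
  rw [← BG.PEls.cast_eq_zero (K := AlgebraicClosure (ZMod p)), RD]
  have e1 := RingHom.map_det (Int.castRingHom (AlgebraicClosure (ZMod p)))
    (Matrix.of fun (i j : Fin (m - n + 2)) =>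
      if (i : ℕ) < m - n + 1 then
        (if (j : ℕ) < m - n + 1 then
          (if (i : ℕ) ≤ j then BG.Els.bet a ((j : ℕ) - i + 1) else 0) else
          BG.Els.bet a (c - i + 1)) else
        (if (j : ℕ) < m - n + 1 then BG.Els.bet b ((j : ℕ) + 1) else BG.Els.bet b (c + 1)))
  rw [eq_intCast] at e1
  rw [e1, ← Matrix.exists_vecMul_eq_zero_iff]
  refine ⟨fun i => if (i : ℕ) < m - n + 1 then k.coeff (m - n - i) else -1, ?_, ?_⟩
  · intro h0
    have h1 := congrFun h0 (Fin.last _)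
    simp at h1
  · funext j
    rw [Matrix.vecMul, dotProduct, Fin.sum_univ_castSucc]
    simp only [RingHom.mapMatrix_apply, Matrix.map_apply, Matrix.of_apply, Fin.val_castSucc,
      Fin.val_last, lt_irrefl, if_false, Pi.zero_apply]
    have h2 : ∀ i : Fin (m - n + 1), (i : ℕ) < m - n + 1 := fun i => i.2
    simp only [h2, if_true]
    by_cases hj : (j : ℕ) < m - n + 1
    · simp only [hj, if_true, eq_intCast]
      rw [key j (by omega), Fin.sum_univ_eq_sum_range (fun i => k.coeff (m - n - i) *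
        (((if i ≤ (j : ℕ) then BG.Els.bet a ((j : ℕ) - i + 1) else 0 : ℤ)) :
          AlgebraicClosure (ZMod p))) (m - n + 1), neg_one_mul, ← sub_eq_add_neg, sub_eq_zero]
      apply sum_congr rfl
      intro i _
      split_ifs
      · rfl
      · rw [Int.cast_zero]
    · simp only [hj, if_false, eq_intCast]
      rw [key c hcm, Fin.sum_univ_eq_sum_range (fun i => k.coeff (m - n - i) *
        ((BG.Els.bet a (c - i + 1) : ℤ) : AlgebraicClosure (ZMod p))) (m - n + 1), neg_one_mul,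
        ← sub_eq_add_neg, sub_eq_zero]
      apply sum_congr rfl
      intro i hi
      rw [mem_range] at hi
      rw [if_pos (by omega)]

open Classical in
theorem card_T4 (n m : ℕ) (hn : 4 ≤ n) (hm : 2 ≤ m) (b : Fin (m + 1) → ℤ) (h0 : b 0 ≠ 0) (M : ℕ)
    (hM : 0 < M) :
    ∃ (C : ℝ) (h₀ : ℕ), ∀ h : ℕ, h₀ ≤ h →
      (((BF.Els.box (n + 1) h).filter fun t =>
        ∃ (p : ℕ) (_ : Fact p.Prime), h < p ∧ p ≠ 2 ∧ ¬ p ∣ M ∧
          Squarefree (GZ (AlgebraicClosure (ZMod p)) b) ∧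
          DQ.Sq2 (AlgebraicClosure (ZMod p)) (BF.Els.co (M : ℤ) t) b).card : ℝ) ≤
        C * (h : ℝ) ^ n := by
  have hMz : (0 : ℤ) < M := by exact_mod_cast hM
  refine ⟨(n : ℝ) + 5, (n - m + 2).factorial * (2 * M) ^ (n - m + 2) + 1 + ∑ i, (b i).natAbs,
    fun h hh => ?_⟩
  set S := (BF.Els.box (n + 1) h).filter fun t =>
        ∃ (p : ℕ) (_ : Fact p.Prime), h < p ∧ p ≠ 2 ∧ ¬ p ∣ M ∧
          Squarefree (GZ (AlgebraicClosure (ZMod p)) b) ∧
          DQ.Sq2 (AlgebraicClosure (ZMod p)) (BF.Els.co (M : ℤ) t) b with hS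
  have hh1 : 1 ≤ h := by omega
  have hbh : ∀ i, |b i| ≤ h := by
    intro i
    have h1 : (b i).natAbs ≤ ∑ i, (b i).natAbs :=
      single_le_sum (f := fun i => (b i).natAbs) (fun _ _ => Nat.zero_le _) (mem_univ i)
    have h2 : (b i).natAbs ≤ h := by omega
    rw [← Int.natCast_natAbs]
    exact_mod_cast h2
  -- sizes
  have hco : ∀ t : Fin (n + 1) → ℤ, t ∈ BF.Els.box (n + 1) h → ∀ i,
      |BF.Els.co (M : ℤ) t i| ≤ 2 * M * h := by
    intro t ht i
    have h1 := BF.Els.pos_of_box ht i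
    have h2 : (M : ℤ) * 1 ≤ M * t i := mul_le_mul_of_nonneg_left h1.1 hMz.le
    have h3 : (M : ℤ) * t i ≤ M * h := mul_le_mul_of_nonneg_left h1.2 hMz.le
    have h5 : (1 : ℤ) ≤ h := by exact_mod_cast hh1
    have h6 : (M : ℤ) * 1 ≤ M * h := mul_le_mul_of_nonneg_left h5 hMz.le
    unfold BF.Els.co
    rw [abs_le]
    constructor
    · split_ifs <;> linarith
    · split_ifs <;> linarith
  have hbB : ∀ i, |b i| ≤ 2 * M * h := by
    intro i
    have h1 := hbh i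
    have h5 : (0 : ℤ) ≤ h := by positivity
    have h6 : (1 : ℤ) * h ≤ M * h := mul_le_mul_of_nonneg_right (by omega) h5
    linarith
  -- the first coefficients
  have hz : ∀ t : Fin (n + 1) → ℤ, t ∈ BF.Els.box (n + 1) h →
      ∀ p : ℕ, p.Prime → h < p → ¬ p ∣ M → ¬ (p : ℤ) ∣ BF.Els.co (M : ℤ) t 0 := by
    intro t ht p hp hhp hpM hd
    rw [BF.Els.co_lt _ t (by rw [Fin.val_zero]; omega)] at hd
    rcases (Nat.prime_iff_prime_int.1 hp).dvd_or_dvd hd with h1 | h1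
    · exact hpM (by exact_mod_cast h1)
    · have h2 := BF.Els.pos_of_box ht 0
      have h3 := Int.le_of_dvd (by linarith [h2.1]) h1
      have h4 : ((p : ℕ) : ℤ) > h := by exact_mod_cast hhp
      linarith [h2.2]
  have hzb : ∀ p : ℕ, h < p → ¬ (p : ℤ) ∣ b 0 := by
    intro p hhp hd
    have h4 : ((p : ℕ) : ℤ) > h := by exact_mod_cast hhp
    exact h0 (Int.eq_zero_of_abs_lt_dvd hd (lt_of_le_of_lt (hbh 0) h4))
  -- the polynomials
  have hdeg : ∀ {N : ℕ} (a : Fin (N + 1) → ℤ) (p : ℕ) [Fact p.Prime],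
      ¬ (p : ℤ) ∣ a 0 → (GZ (AlgebraicClosure (ZMod p)) a).natDegree = N := by
    intro N a p _ ha
    apply natDegree_eq_of_le_of_coeff_ne_zero (BF.Els.gz_natDegree_le _)
    rw [BF.Els.gz_coeff _ le_rfl]
    have h1 : ((a 0 : ℤ) : AlgebraicClosure (ZMod p)) ≠ 0 := by
      rw [Ne, BG.PEls.cast_eq_zero (p := p)]
      exact ha
    have e : (⟨N - N, by omega⟩ : Fin (N + 1)) = 0 := by
      apply Fin.ext
      simp
    rw [e]
    exact h1
  have hdvd : ∀ t ∈ S, ∃ (p : ℕ) (_ : Fact p.Prime), h < p ∧ ¬ p ∣ M ∧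
      GZ (AlgebraicClosure (ZMod p)) b ∣ GZ (AlgebraicClosure (ZMod p)) (BF.Els.co (M : ℤ) t) := by
    intro t ht
    rw [hS, mem_filter] at ht
    obtain ⟨ht1, p, hp, hhp, hp2, hpM, hsf, c, s, hsq⟩ := ht
    refine ⟨p, hp, hhp, hpM, ?_⟩
    apply dvd_of_sq2 _ _ hsf hsf.ne_zero _ ⟨c, s, by rw [mul_comm]; exact hsq⟩
    intro h1
    have h2 := hdeg (BF.Els.co (M : ℤ) t) p (hz t ht1 p hp.out hhp hpM)
    rw [h1, natDegree_zero] at h2
    omega
  rcases lt_or_ge n m with hnm | hnm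
  · have hemp : S = ∅ := by
      rw [eq_empty_iff_forall_notMem]
      intro t ht
      obtain ⟨p, hp, hhp, hpM, hd⟩ := hdvd t ht
      rw [hS, mem_filter] at ht
      have h1 := hdeg b p (hzb p hhp)
      have h2 := hdeg (BF.Els.co (M : ℤ) t) p (hz t ht.1 p hp.out hhp hpM)
      have h3 := natDegree_le_of_dvd hd (by
        intro h0
        rw [h0, natDegree_zero] at h2
        omega)
      omega
    rw [hemp, card_empty, Nat.cast_zero]
    positivity
  -- the two parts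
  set A := (BF.Els.box (n + 1) h).filter fun t =>
    RD b (BF.Els.co (M : ℤ) t) (n - 1) = 0 with hA
  set B := (BF.Els.box (n + 1) h).filter fun t =>
    RD b (BF.Els.co (M : ℤ) t) (n - 1) ≠ 0 ∧
      ∃ p : ℕ, p.Prime ∧ h < p ∧ ¬ p ∣ M ∧
        (p : ℤ) ∣ RD b (BF.Els.co (M : ℤ) t) (n - 1) ∧
        (p : ℤ) ∣ RD b (BF.Els.co (M : ℤ) t) n with hB
  have hsub : S ⊆ A ∪ B := by
    intro t ht
    obtain ⟨p, hp, hhp, hpM, hd⟩ := hdvd t ht
    rw [hS, mem_filter] at ht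
    rw [mem_union]
    by_cases h0 : RD b (BF.Els.co (M : ℤ) t) (n - 1) = 0
    · left
      rw [hA, mem_filter]
      exact ⟨ht.1, h0⟩
    · right
      rw [hB, mem_filter]
      exact ⟨ht.1, h0, p, hp.out, hhp, hpM,
        rd_dvd (by omega) hnm p _ _ hd (n - 1) (by omega) (by omega) (hzb p hhp),
        rd_dvd (by omega) hnm p _ _ hd n (by omega) le_rfl (hzb p hhp)⟩
  have hAb : A ⊆ BF.Els.box (n + 1) h := by
    rw [hA]; exact filter_subset _ _
  have hBb : B ⊆ BF.Els.box (n + 1) h := by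
    rw [hB]; exact filter_subset _ _
  set u : Fin (n + 1) := ⟨n - 1, by omega⟩ with hu
  have hcA : (A.card : ℝ) ≤ (h : ℝ) ^ n * 1 := by
    have h1 := BF.Els.card_le_free {u} A hAb zero_le_one (by
      intro x hx
      have h2 : (A.filter fun y => ∀ i, i ∉ ({u} : Finset (Fin (n + 1))) → y i = x i).card ≤
          1 := by
        rw [card_le_one]
        have key : ∀ y ∈ A.filter fun y => ∀ i, i ∉ ({u} : Finset (Fin (n + 1))) → y i = x i,
            y = x := by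
          intro y hy
          rw [mem_filter] at hy
          obtain ⟨hyA, hy2⟩ := hy
          rw [hA, mem_filter] at hyA hx
          have hoff : ∀ i, i ≠ u → y i = x i := fun i hi => hy2 i (by rwa [mem_singleton])
          have hsub := RD_sub hnm b (BF.Els.co (M : ℤ) y)
            (BF.Els.co (M : ℤ) x) (n - 1) (by omega) (by omega) (by
            intro i hi
            unfold BF.Els.co
            rw [hoff i (by
              intro h0
              have := congrArg Fin.val h0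
              simp only [hu] at this
              omega)])
          rw [hyA.2, hx.2, sub_self] at hsub
          have h3 := (mul_eq_zero.1 hsub.symm).resolve_left (pow_ne_zero _ h0)
          have h4 : y u = x u := BF.Els.co_inj hMz.ne' (sub_eq_zero.1 h3)
          funext i
          by_cases hi : i = u
          · rw [hi]
            exact h4
          · exact hoff i hi
        intro y hy y' hy'
        rw [key y hy, key y' hy']
      exact_mod_cast h2)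
    rw [card_singleton, Nat.add_sub_cancel] at h1
    exact h1
  have hR : ∀ x ∈ B, (RD b (BF.Els.co (M : ℤ) x) (n - 1)).natAbs < h ^ (n - m + 3) := by
    intro x hx
    have h1 := RD_bound b (BF.Els.co (M : ℤ) x) (n - 1)
      (by positivity : (0 : ℤ) ≤ 2 * M * h) hbB (hco _ (hBb hx))
    have h2 : ((RD b (BF.Els.co (M : ℤ) x) (n - 1)).natAbs : ℤ) ≤
        (((n - m + 2).factorial * (2 * M * h) ^ (n - m + 2) : ℕ) : ℤ) := by
      rw [Int.natCast_natAbs]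
      push_cast
      exact h1
    have h3 := Int.ofNat_le.1 h2
    refine lt_of_le_of_lt h3 ?_
    rw [mul_pow, ← mul_assoc, pow_succ h (n - m + 2), mul_comm (h ^ (n - m + 2)) h]
    exact Nat.mul_lt_mul_of_pos_right (by omega) (pow_pos (by omega) _)
  have hcB : (B.card : ℝ) ≤ (h : ℝ) ^ n * ((n - m + 3 : ℕ) : ℝ) := by
    have h1 := BF.Els.card_le_free {Fin.last n} B hBb (Nat.cast_nonneg (n - m + 3)) (by
      intro x hx
      have hxB := hx
      rw [hB, mem_filter] at hx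
      obtain ⟨hb₀, hR₀, -⟩ := hx
      set P : (Fin (n + 1) → ℤ) → ℕ := fun x =>
        if hp : ∃ p : ℕ, p.Prime ∧ h < p ∧ ¬ p ∣ M ∧
          (p : ℤ) ∣ RD b (BF.Els.co (M : ℤ) x) (n - 1) ∧
          (p : ℤ) ∣ RD b (BF.Els.co (M : ℤ) x) n then hp.choose
        else 0 with hP
      have hPspec : ∀ x ∈ B, (P x).Prime ∧ h < P x ∧ ¬ P x ∣ M ∧
          ((P x : ℕ) : ℤ) ∣ RD b (BF.Els.co (M : ℤ) x) (n - 1) ∧
          ((P x : ℕ) : ℤ) ∣ RD b (BF.Els.co (M : ℤ) x) n := by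
        intro x hx
        rw [hB, mem_filter] at hx
        simp only [hP]
        rw [dif_pos hx.2.2]
        exact hx.2.2.choose_spec
      have hsame : ∀ y z : Fin (n + 1) → ℤ,
          (∀ i, i ∉ ({Fin.last n} : Finset (Fin (n + 1))) → y i = z i) →
          ∀ i : Fin (n + 1), (i : ℕ) ≤ n - 1 →
            BF.Els.co (M : ℤ) y i = BF.Els.co (M : ℤ) z i := by
        intro y z hyz i hi
        unfold BF.Els.co
        rw [hyz i (by
          rw [mem_singleton]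
          intro h0
          rw [h0, Fin.val_last] at hi
          omega)]
      have h2 : (B.filter fun y =>
          ∀ i, i ∉ ({Fin.last n} : Finset (Fin (n + 1))) → y i = x i).card ≤
          ((RD b (BF.Els.co (M : ℤ) x) (n - 1)).natAbs.primeFactors.filter
            fun p => h < p).card := by
        apply card_le_card_of_injOn P
        · intro y hy
          rw [mem_coe, mem_filter] at hy
          obtain ⟨q1, q2, -, q5, -⟩ := hPspec y hy.1
          rw [RD_eq_of hnm _ _ (BF.Els.co (M : ℤ) x) (n - 1) (by omega) (by omega)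
            (hsame y x hy.2)] at q5
          rw [mem_coe, mem_filter, Nat.mem_primeFactors]
          refine ⟨⟨q1, ?_, Int.natAbs_ne_zero.2 hR₀⟩, q2⟩
          have := Int.natAbs_dvd_natAbs.2 q5
          rwa [Int.natAbs_natCast] at this
        · intro y hy y' hy' hPP
          rw [mem_coe, mem_filter] at hy hy'
          obtain ⟨q1, q2, q4, -, q6⟩ := hPspec y hy.1
          obtain ⟨-, -, -, -, q6'⟩ := hPspec y' hy'.1
          rw [← hPP] at q6'
          have hb := hBb hy.1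
          have hb' := hBb hy'.1
          have hyy : ∀ i, i ∉ ({Fin.last n} : Finset (Fin (n + 1))) → y i = y' i :=
            fun i hi => (hy.2 i hi).trans (hy'.2 i hi).symm
          have h3 := RD_sub hnm b (BF.Els.co (M : ℤ) y)
            (BF.Els.co (M : ℤ) y') n (by omega) le_rfl
            (fun i hi => hsame y y' hyy i (by omega))
          have h4 := dvd_sub q6 q6'
          rw [h3] at h4
          have hpr := Nat.prime_iff_prime_int.1 q1
          have h5 : ¬ ((P y : ℕ) : ℤ) ∣ (b 0) ^ (n - m + 1) := fun h6 =>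
            hzb (P y) q2 (hpr.dvd_of_dvd_pow h6)
          have h6 := BF.Els.dvd_of_co q1 (by exact_mod_cast q4)
            ((hpr.dvd_or_dvd h4).resolve_left h5)
          have h7 : y (Fin.last n) = y' (Fin.last n) := by
            have h8 := BF.Els.pos_of_box hb (Fin.last n)
            have h9 := BF.Els.pos_of_box hb' (Fin.last n)
            have h10 : ((P y : ℕ) : ℤ) > h := by exact_mod_cast q2
            have h11 := Int.eq_zero_of_abs_lt_dvd h6 (by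
              have e : (⟨n, by omega⟩ : Fin (n + 1)) = Fin.last n := rfl
              rw [e, abs_lt]
              constructor <;> linarith [h8.1, h8.2, h9.1, h9.2])
            have e : (⟨n, by omega⟩ : Fin (n + 1)) = Fin.last n := rfl
            rw [e] at h11
            linarith
          funext i
          by_cases hi : i = Fin.last n
          · rw [hi]
            exact h7
          · exact hyy i (by rwa [mem_singleton])
      have h3 := h2.trans (BF.Els.card_large (Int.natAbs_pos.2 hR₀) (hR x hxB))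
      exact_mod_cast h3)
    rw [card_singleton, Nat.add_sub_cancel] at h1
    exact h1
  have h1 : (S.card : ℝ) ≤ A.card + B.card := by
    exact_mod_cast (card_le_card hsub).trans (card_union_le _ _)
  have h2 : ((n - m + 3 : ℕ) : ℝ) ≤ n + 4 := by
    have : n - m + 3 ≤ n + 4 := by omega
    exact_mod_cast this
  have h4 : (0 : ℝ) ≤ (h : ℝ) ^ n := by positivity
  nlinarith

end Stoll308.FQ
end

section
set_option autoImplicit false

/-!
A positive proportion is everywhere locally soluble, if `q(0)` is a local square at the small places.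
-/

namespace Stoll308.FQ

open Polynomial Finset BG BF DQ

namespace ElsAux

lemma co_last {n : ℕ} (M : ℤ) (t : Fin (n + 1) → ℤ) :
    BF.Els.co M t (Fin.last n) = M * t (Fin.last n) + 1 := by
  unfold BF.Els.co
  rw [if_pos (Fin.val_last n)]

lemma coeff_gz {m : ℕ} {K : Type*} [Field K] (b : Fin (m + 1) → ℤ) (i : Fin (m + 1)) :
    (GZ K b).coeff (m - i) = (b i : K) := by
  unfold GZ gpol
  rw [finsetSum_coeff, Finset.sum_eq_single i]
  · rw [coeff_C_mul, coeff_X_pow_self, mul_one]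
  · intro j _ hj
    rw [coeff_C_mul, coeff_X_pow, if_neg, mul_zero]
    intro h
    apply hj
    apply Fin.ext
    have h1 := i.2
    have h2 := j.2
    omega
  · intro h
    exact absurd (mem_univ _) h

/-- The polynomial `q` is not a constant times a square modulo the large primes. -/
lemma gz_ne_sq {m : ℕ} (hm : 2 ≤ m) {p : ℕ} [hp : Fact p.Prime] {b : Fin (m + 1) → ℤ}
    (hb : Squarefree (GZ (AlgebraicClosure (ZMod p)) b))
    (hb' : ¬ ((p : ℤ) ∣ b 0 ∧ (p : ℤ) ∣ b 1)) (e : ZMod p) (s : (ZMod p)[X]) :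
    GZ (ZMod p) b ≠ C e * s ^ 2 := by
  intro he
  have h4 := congrArg (Polynomial.map (algebraMap (ZMod p) (AlgebraicClosure (ZMod p)))) he
  rw [ElsPtAux.gz_cast, Polynomial.map_mul, map_C, Polynomial.map_pow] at h4
  have hu : IsUnit (s.map (algebraMap (ZMod p) (AlgebraicClosure (ZMod p)))) := by
    apply hb
    rw [h4]
    exact ⟨C (algebraMap (ZMod p) (AlgebraicClosure (ZMod p)) e), by ring⟩
  have hd : (GZ (AlgebraicClosure (ZMod p)) b).natDegree = 0 := by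
    have h5 : (GZ (AlgebraicClosure (ZMod p)) b).natDegree ≤ 0 := by
      rw [h4]
      refine (natDegree_C_mul_le _ _).trans ?_
      refine natDegree_pow_le.trans ?_
      rw [natDegree_eq_zero_of_isUnit hu, mul_zero]
    omega
  have hc : ∀ i : Fin (m + 1), (i : ℕ) < m → (p : ℤ) ∣ b i := by
    intro i hi
    have h5 := coeff_gz (K := AlgebraicClosure (ZMod p)) b i
    rw [coeff_eq_zero_of_natDegree_lt (by rw [hd]; omega)] at h5
    exact (BG.PEls.cast_eq_zero (p := p) (K := AlgebraicClosure (ZMod p)) (b i)).1 h5.symm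
  apply hb'
  refine ⟨hc 0 (by rw [Fin.val_zero]; omega), hc 1 ?_⟩
  have h1 : ((1 : Fin (m + 1)) : ℕ) = 1 := by
    rw [Fin.val_one']
    exact Nat.mod_eq_of_lt (by omega)
  omega

/-- A local point at a large prime. -/
lemma point_big {n m : ℕ} (hm : 2 ≤ m) {p : ℕ} [hp : Fact p.Prime] (hp2 : p ≠ 2)
    (hbig : (2 * (n + m) + 4) ^ 2 ≤ p) {a : Fin (n + 1) → ℤ} {b : Fin (m + 1) → ℤ}
    (h1 : ¬ BF.Els.SqK (AlgebraicClosure (ZMod p)) a)
    (hb : Squarefree (GZ (AlgebraicClosure (ZMod p)) b))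
    (hb' : ¬ ((p : ℤ) ∣ b 0 ∧ (p : ℤ) ∣ b 1))
    (h3 : ¬ Sq2 (AlgebraicClosure (ZMod p)) a b) : DQ.HasPoint a b ℚ_[p] := by
  have hsq : ∀ e s, GZ (ZMod p) a ≠ C e * s ^ 2 := by
    intro e s he
    apply h1
    have h4 := congrArg (fun g => expand (AlgebraicClosure (ZMod p)) (2 * 1)
      (Polynomial.map (algebraMap (ZMod p) (AlgebraicClosure (ZMod p))) g)) he
    simp only [ElsPtAux.gz_cast, Polynomial.map_mul, map_C, Polynomial.map_pow, map_mul, map_pow,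
      expand_C] at h4
    exact ⟨_, _, h4⟩
  obtain ⟨x, y, z, hy, hz, hxy, hxz⟩ := exists_two_sq hp2 (GZ (ZMod p) a) (GZ (ZMod p) b) (by
      refine le_trans ?_ hbig
      have d1 : (GZ (ZMod p) a).natDegree ≤ n := BF.Els.gz_natDegree_le _
      have d2 : (GZ (ZMod p) b).natDegree ≤ m := BF.Els.gz_natDegree_le _
      exact Nat.pow_le_pow_left (by omega) 2) hsq (gz_ne_sq hm hb hb') (by
      intro e s he
      apply h3
      have h4 := congrArg
        (Polynomial.map (algebraMap (ZMod p) (AlgebraicClosure (ZMod p)))) he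
      rw [Polynomial.map_mul, ElsPtAux.gz_cast, ElsPtAux.gz_cast, Polynomial.map_mul, map_C,
        Polynomial.map_pow] at h4
      exact ⟨_, _, h4⟩)
  obtain ⟨u, hu⟩ := ZMod.ringHom_surjective (PadicInt.toZMod : ℤ_[p] →+* ZMod p) x
  obtain ⟨w, hw⟩ := ElsPtAux.lift hp2 a u hu hy hxy
  obtain ⟨w', hw'⟩ := ElsPtAux.lift hp2 b u hu hz hxz
  exact Or.inl ⟨u, w, w', hw, hw'⟩

/-- A local point at a small prime. -/
lemma point_small {n m : ℕ} {p : ℕ} [hp : Fact p.Prime] {a : Fin (n + 1) → ℤ}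
    {b : Fin (m + 1) → ℤ} (h1 : ((8 * p : ℕ) : ℤ) ∣ a (Fin.last n) - 1)
    (h2 : IsSquare ((b (Fin.last m) : ℤ) : ℚ_[p])) : DQ.HasPoint a b ℚ_[p] := by
  obtain ⟨w, hw⟩ := BG.Els.isSquare_padic (p := p) h1
  obtain ⟨w', hw'⟩ := h2
  exact Or.inl ⟨0, w, w', by rw [hw, ElsPtAux.gz_zero], by rw [ElsPtAux.gz_zero, hw', sq]⟩

lemma not_dvd_M {Q M p : ℕ} (hMdef : M = 8 * Q.factorial) (hpp : p.Prime) (hp2 : 2 < p)
    (hpQ : Q < p) : ¬ p ∣ M := by
  intro h
  rw [hMdef] at h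
  rcases (hpp.dvd_mul).1 h with h | h
  · have h2 : p ∣ 2 ^ 3 := by norm_num; exact h
    have := Nat.le_of_dvd (by norm_num) (hpp.dvd_of_dvd_pow h2)
    omega
  · have := (hpp.dvd_factorial).1 h
    omega

open Classical in
/-- The parameters outside of the exceptional sets give everywhere locally soluble curves. -/
lemma els_of_good {n m : ℕ} (hm : 2 ≤ m) {Q h M : ℕ} (hMdef : M = 8 * Q.factorial)
    (hQ : (2 * (n + m) + 4) ^ 2 + 128 ≤ Q) {t : Fin (n + 1) → ℤ} {b : Fin (m + 1) → ℤ}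
    (hx1 : t ∈ GB n Q h)
    (k1 : ∀ (p : ℕ) [Fact p.Prime], p ≤ Q → IsSquare ((b (Fin.last m) : ℤ) : ℚ_[p]))
    (k2 : 0 < b (Fin.last m))
    (k3 : ∀ (p : ℕ) [Fact p.Prime], Q < p → Squarefree (GZ (AlgebraicClosure (ZMod p)) b) ∧
      ¬ ((p : ℤ) ∣ b 0 ∧ (p : ℤ) ∣ b 1))
    (h3 : ∀ p : ℕ, p.Prime → Q < p → p ≤ h → t ∉ T3 n b (M : ℤ) h p)
    (h4 : ¬ ∃ (p : ℕ) (_ : Fact p.Prime), h < p ∧ p ≠ 2 ∧ ¬ p ∣ M ∧
          Squarefree (GZ (AlgebraicClosure (ZMod p)) b) ∧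
          DQ.Sq2 (AlgebraicClosure (ZMod p)) (BF.Els.co (M : ℤ) t) b) :
    DQ.ELS (BF.Els.co (M : ℤ) t) b := by
  unfold GB at hx1
  rw [mem_filter, ← hMdef] at hx1
  obtain ⟨hb1, hg1⟩ := hx1
  have hM : 0 < M := by
    rw [hMdef]
    exact Nat.mul_pos (by norm_num) (Nat.factorial_pos _)
  refine ⟨?_, point_real (co_size hM hb1 _).1 k2⟩
  intro p hp
  have hpp : p.Prime := hp.out
  by_cases hpQ : p ≤ Q
  · have hd : ((8 * p : ℕ) : ℤ) ∣ (M : ℤ) := by
      rw [Int.natCast_dvd_natCast, hMdef]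
      exact Nat.mul_dvd_mul_left 8 (Nat.dvd_factorial hpp.pos hpQ)
    apply point_small _ (k1 p hpQ)
    rw [co_last, add_sub_cancel_right]
    exact Dvd.dvd.mul_right hd _
  · push Not at hpQ
    have hp2 : p ≠ 2 := by omega
    have hpM : ¬ p ∣ M := not_dvd_M hMdef hpp (by omega) hpQ
    obtain ⟨g1, g2⟩ := hg1 p hpQ
    obtain ⟨g3, g4⟩ := k3 p hpQ
    apply point_big hm hp2 (by omega) g2 g3 g4
    intro hsq
    by_cases hph : p ≤ h
    · apply h3 p hpp hpQ hph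
      unfold T3
      rw [mem_filter]
      exact ⟨hb1, hp, hsq⟩
    · push Not at hph
      exact h4 ⟨p, hp, hph, hp2, hpM, g3, hsq⟩

/-- The sum over the primes `Q < p ≤ h`. -/
lemma card_T3_sum {n m : ℕ} (hn : 4 ≤ n) (he : Even n) (hm : 2 ≤ m) {Q h M : ℕ}
    (hMdef : M = 8 * Q.factorial) (hQ : 128 ≤ Q) (hhQ : Q < h) {b : Fin (m + 1) → ℤ}
    (k3 : ∀ (p : ℕ) [Fact p.Prime], Q < p → Squarefree (GZ (AlgebraicClosure (ZMod p)) b) ∧
      ¬ ((p : ℤ) ∣ b 0 ∧ (p : ℤ) ∣ b 1)) :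
    ((((Ioc Q h).filter Nat.Prime).biUnion fun p => T3 n b (M : ℤ) h p).card : ℝ) ≤
      (h : ℝ) ^ (n + 1) / 32 := by
  classical
  have h2 := card_biUnion_le (s := (Ioc Q h).filter Nat.Prime)
    (t := fun p => T3 n b (M : ℤ) h p)
  have h3 : ((((Ioc Q h).filter Nat.Prime).biUnion fun p => T3 n b (M : ℤ) h p).card : ℝ) ≤
      ∑ p ∈ (Ioc Q h).filter Nat.Prime, ((T3 n b (M : ℤ) h p).card : ℝ) := by exact_mod_cast h2
  have h4 : ∑ p ∈ (Ioc Q h).filter Nat.Prime, ((T3 n b (M : ℤ) h p).card : ℝ) ≤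
      ∑ p ∈ Ioc Q h, 4 * (h : ℝ) ^ (n + 1) * ((p : ℝ) ^ 2)⁻¹ := by
    refine (sum_le_sum fun p hp => ?_).trans
      (sum_le_sum_of_subset_of_nonneg (filter_subset _ _) fun p _ _ => by positivity)
    rw [mem_filter, mem_Ioc] at hp
    obtain ⟨⟨hp1, hp2⟩, hpp⟩ := hp
    have : Fact p.Prime := ⟨hpp⟩
    have hp0 : (0 : ℝ) < p := by exact_mod_cast hpp.pos
    have hpM : ¬ (p : ℤ) ∣ (M : ℤ) := by
      rw [Int.natCast_dvd_natCast]
      exact not_dvd_M hMdef hpp (by omega) hp1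
    obtain ⟨g1, g2⟩ := k3 p hp1
    have h5 := card_T3 (n := n) hn he hm b (M := (M : ℤ)) (h := h) (by omega) hpM g1 g2
    have h6 : (1 : ℝ) ≤ (h : ℝ) / p := by
      rw [le_div_iff₀ hp0, one_mul]
      exact_mod_cast hp2
    have h7 : ((h : ℝ) / p + 1) ^ 2 ≤ 4 * ((h : ℝ) ^ 2 * ((p : ℝ) ^ 2)⁻¹) := by
      have h8 : ((h : ℝ) / p + 1) ^ 2 ≤ (2 * ((h : ℝ) / p)) ^ 2 :=
        pow_le_pow_left₀ (by positivity) (by linarith) 2
      calc _ ≤ _ := h8
        _ = 4 * ((h : ℝ) ^ 2 * ((p : ℝ) ^ 2)⁻¹) := by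
            rw [mul_pow, div_pow, div_eq_mul_inv]
            ring
    have h9 : (h : ℝ) ^ (n + 1) = (h : ℝ) ^ (n - 1) * (h : ℝ) ^ 2 := by
      rw [← pow_add]
      congr 1
      omega
    calc ((T3 n b (M : ℤ) h p).card : ℝ)
        ≤ (h : ℝ) ^ (n - 1) * ((h : ℝ) / p + 1) ^ 2 := h5
      _ ≤ (h : ℝ) ^ (n - 1) * (4 * ((h : ℝ) ^ 2 * ((p : ℝ) ^ 2)⁻¹)) := by
          gcongr
      _ = 4 * (h : ℝ) ^ (n + 1) * ((p : ℝ) ^ 2)⁻¹ := by
          rw [h9]
          ring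
  have h5 : ∑ p ∈ Ioc Q h, (((p : ℕ) : ℝ) ^ 2)⁻¹ ≤ 1 / 128 := by
    have hsum := sum_Ioc_inv_sq_le_sub (α := ℝ) (k := Q) (n := h) (by omega) hhQ.le
    have h4 : (0 : ℝ) ≤ (((h : ℕ) : ℕ) : ℝ)⁻¹ := by positivity
    have hQ16 : (128 : ℝ) ≤ Q := by exact_mod_cast hQ
    have h5 : (Q : ℝ)⁻¹ ≤ 1 / 128 := by
      rw [one_div]
      exact inv_anti₀ (by norm_num) hQ16
    linarith
  refine h3.trans (h4.trans ?_)
  rw [← mul_sum]
  calc 4 * (h : ℝ) ^ (n + 1) * ∑ p ∈ Ioc Q h, (((p : ℕ) : ℝ) ^ 2)⁻¹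
      ≤ 4 * (h : ℝ) ^ (n + 1) * (1 / 128) := mul_le_mul_of_nonneg_left h5 (by positivity)
    _ = (h : ℝ) ^ (n + 1) / 32 := by ring

end ElsAux

open ElsAux

theorem els_core (n m : ℕ) (hn : 4 ≤ n) (he : Even n) (hm : 2 ≤ m) (hem : Even m) (Q : ℕ)
    (hQ : (2 * (n + m) + 4) ^ 2 + 128 ≤ Q) (b : Fin (m + 1) → ℤ) (h0 : b 0 ≠ 0)
    (h1 : ∀ (p : ℕ) [Fact p.Prime], p ≤ Q → IsSquare ((b (Fin.last m) : ℤ) : ℚ_[p]))
    (h2 : 0 < b (Fin.last m))
    (h3 : ∀ (p : ℕ) [Fact p.Prime], Q < p → Squarefree (GZ (AlgebraicClosure (ZMod p)) b) ∧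
      ¬ ((p : ℤ) ∣ b 0 ∧ (p : ℤ) ∣ b 1)) :
    ∃ c₀ : ℝ, 0 < c₀ ∧ ∃ H₀ : ℕ, ∀ H : ℕ, H₀ ≤ H →
      c₀ * H ^ (n + 1) ≤ (BF.cnt n (fun a => DQ.ELS a b) H : ℝ) := by
  classical
  obtain ⟨M, hMdef⟩ : ∃ M : ℕ, M = 8 * Q.factorial := ⟨_, rfl⟩
  have hM : 0 < M := by
    rw [hMdef]
    exact Nat.mul_pos (by norm_num) (Nat.factorial_pos _)
  have hMz : (0 : ℤ) < (M : ℤ) := by exact_mod_cast hM
  have hM0 : (0 : ℝ) < M := by exact_mod_cast hM
  obtain ⟨k₁, hk1⟩ := good_box n hn he Q (by omega)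
  obtain ⟨C₄, k₄, hk4⟩ := card_T4 n m hn hm b h0 M hM
  obtain ⟨C', hC'⟩ : ∃ C' : ℕ, C' = ⌈32 * C₄⌉₊ := ⟨_, rfl⟩
  obtain ⟨K, hK⟩ : ∃ K : ℕ, K = k₁ + k₄ + Q + C' + 2 := ⟨_, rfl⟩
  refine ⟨1 / (4 * (4 * M) ^ (n + 1)), by positivity, 4 * M * K, ?_⟩
  intro H hH
  obtain ⟨h, hh⟩ : ∃ h : ℕ, h = H / M - 1 := ⟨_, rfl⟩
  have hHM : 4 * K ≤ H / M := by
    rw [Nat.le_div_iff_mul_le hM]
    calc _ = 4 * M * K := by ring
      _ ≤ H := hH
  have hKh : K ≤ h := by omega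
  have hh1 : 1 ≤ h := by omega
  have hh1' : (1 : ℝ) ≤ h := by exact_mod_cast hh1
  have hMh : M * (h + 1) ≤ H := by
    have : h + 1 = H / M := by omega
    rw [this]
    exact Nat.mul_div_le H M
  have hhH : (H : ℝ) / (4 * M) ≤ h := by
    have h1 : H < M * (H / M + 1) := Nat.lt_mul_div_succ H hM
    have h2 : H / M + 1 ≤ 4 * h := by omega
    have h3 : H ≤ M * (4 * h) := h1.le.trans (Nat.mul_le_mul_left _ h2)
    rw [div_le_iff₀ (by positivity)]
    have h4 : (H : ℝ) ≤ M * (4 * h) := by exact_mod_cast h3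
    linarith
  -- the exceptional sets
  set G := GB n Q h with hG
  set T₃ := ((Ioc Q h).filter Nat.Prime).biUnion fun p => T3 n b (M : ℤ) h p with hT3
  set T₄ := (BF.Els.box (n + 1) h).filter fun t =>
        ∃ (p : ℕ) (_ : Fact p.Prime), h < p ∧ p ≠ 2 ∧ ¬ p ∣ M ∧
          Squarefree (GZ (AlgebraicClosure (ZMod p)) b) ∧
          DQ.Sq2 (AlgebraicClosure (ZMod p)) (BF.Els.co (M : ℤ) t) b with hT4
  have hGbox : ∀ t ∈ G, t ∈ BF.Els.box (n + 1) h := by
    intro t ht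
    rw [hG] at ht
    unfold GB at ht
    exact (mem_filter.1 ht).1
  set bad := T₃ ∪ T₄ with hbad
  have hgood : ∀ t ∈ G \ bad, DQ.ELS (BF.Els.co (M : ℤ) t) b := by
    intro t ht
    rw [mem_sdiff, hbad, mem_union, not_or] at ht
    obtain ⟨hx1, q3, q4⟩ := ht
    refine els_of_good hm hMdef hQ hx1 h1 h2 h3 ?_ ?_
    · intro p hp h1 h2 h3
      apply q3
      rw [hT3, mem_biUnion]
      exact ⟨p, mem_filter.2 ⟨mem_Ioc.2 ⟨h1, h2⟩, hp⟩, h3⟩
    · intro h1
      apply q4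
      rw [hT4, mem_filter]
      exact ⟨hGbox t hx1, h1⟩
  -- the injection
  have hinj : ((G \ bad).card : ℝ) ≤ (BF.cnt n (fun a => DQ.ELS a b) H : ℝ) := by
    unfold BF.cnt
    have h1 : (G \ bad).card ≤
        ((Fintype.piFinset fun _ : Fin (n + 1) => Icc (-(H : ℤ)) (H : ℤ)).filter
            fun a => DQ.ELS a b).card := by
      apply card_le_card_of_injOn (fun t => BF.Els.co (M : ℤ) t)
      · intro t ht
        rw [mem_coe] at ht
        have hb1 := hGbox t (mem_sdiff.1 ht).1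
        have h3 : (M : ℤ) * (h + 1) ≤ H := by exact_mod_cast hMh
        rw [mem_coe, mem_filter, Fintype.mem_piFinset]
        refine ⟨fun i => ?_, hgood t ht⟩
        have h2 := co_size hM hb1 i
        rw [mem_Icc]
        constructor <;> linarith [h2.1, h2.2]
      · intro t _ t' _ htt
        funext i
        exact BF.Els.co_inj hMz.ne' (congrFun htt i)
    exact_mod_cast h1
  -- the count
  have hcard : (G.card : ℝ) ≤ ((G \ bad).card : ℝ) + ((T₃.card : ℝ) + (T₄.card : ℝ)) := by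
    have h1 : G ⊆ (G \ bad) ∪ bad := by
      intro t ht
      rw [mem_union, mem_sdiff]
      by_cases h : t ∈ bad
      · exact Or.inr h
      · exact Or.inl ⟨ht, h⟩
    have h2 := (card_le_card h1).trans ((card_union_le _ _).trans
      (Nat.add_le_add_left (card_union_le _ _) _))
    exact_mod_cast h2
  have hGc : (h : ℝ) ^ (n + 1) / 2 ≤ (G.card : ℝ) := hk1 h (by omega)
  have hc3 : (T₃.card : ℝ) ≤ (h : ℝ) ^ (n + 1) / 32 :=
    card_T3_sum hn he hm hMdef (by omega) (by omega) h3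
  have hc4 : (T₄.card : ℝ) ≤ (h : ℝ) ^ (n + 1) / 32 := by
    refine (hk4 h (by omega)).trans ?_
    have h1 : 32 * C₄ ≤ h := by
      have h2 : 32 * C₄ ≤ C' := by
        rw [hC']
        exact Nat.le_ceil _
      have h3 : (C' : ℝ) ≤ h := by exact_mod_cast (by omega : C' ≤ h)
      linarith
    have h2 : (h : ℝ) ^ (n + 1) = h * (h : ℝ) ^ n := by ring
    rw [h2]
    have h3 : (0 : ℝ) < (h : ℝ) ^ n := by positivity
    calc C₄ * (h : ℝ) ^ n ≤ h / 32 * (h : ℝ) ^ n := by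
          gcongr
          linarith
      _ = h * (h : ℝ) ^ n / 32 := by ring
  have hmain : (h : ℝ) ^ (n + 1) / 4 ≤ ((G \ bad).card : ℝ) := by
    have h5 : (0 : ℝ) ≤ (h : ℝ) ^ (n + 1) := by positivity
    linarith
  refine le_trans ?_ (hmain.trans hinj)
  have h1 : ((H : ℝ) / (4 * M)) ^ (n + 1) ≤ (h : ℝ) ^ (n + 1) :=
    pow_le_pow_left₀ (by positivity) hhH _
  rw [div_pow] at h1
  calc 1 / (4 * (4 * (M : ℝ)) ^ (n + 1)) * (H : ℝ) ^ (n + 1)
      = (H : ℝ) ^ (n + 1) / (4 * M) ^ (n + 1) / 4 := by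
        field_simp
    _ ≤ (h : ℝ) ^ (n + 1) / 4 := by linarith

end Stoll308.FQ
end

section
set_option autoImplicit false

/-!
A positive proportion of the double covers is everywhere locally soluble.
-/

namespace Stoll308.FQ

open Polynomial Finset BG BF DQ

/-- A matrix with the given second column and nonzero leading coefficient. -/
private lemma exists_mat {m : ℕ} (b : Fin (m + 1) → ℤ) {x z : ℤ} (hxz : IsCoprime x z)
    (hF : ∑ i : Fin (m + 1), b i * x ^ (m - (i : ℕ)) * z ^ (i : ℕ) ≠ 0) :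
    ∃ p r : ℤ, p * z - x * r = 1 ∧
      ∑ i : Fin (m + 1), b i * p ^ (m - (i : ℕ)) * r ^ (i : ℕ) ≠ 0 := by
  obtain ⟨u, v, huv⟩ := hxz
  set P : ℚ[X] := GZ ℚ (act x v z (-u) b) with hP
  have hP0 : P ≠ 0 := by
    intro h
    have h1 := congrArg (fun g : ℚ[X] => g.coeff m) h
    simp only [coeff_zero] at h1
    rw [hP, BF.Els.gz_coeff _ le_rfl] at h1
    have e : (⟨m - m, by omega⟩ : Fin (m + 1)) = 0 := by
      apply Fin.ext
      simp
    rw [e, act_zero] at h1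
    exact hF (by exact_mod_cast h1)
  have hk : ∃ k : ℤ, P.eval (k : ℚ) ≠ 0 := by
    by_contra hcon
    push Not at hcon
    apply hP0
    apply Polynomial.eq_zero_of_infinite_isRoot
    apply (Set.infinite_range_of_injective (Int.cast_injective (α := ℚ))).mono
    rintro _ ⟨k, rfl⟩
    exact hcon k
  obtain ⟨k, hk⟩ := hk
  refine ⟨v + k * x, -u + k * z, by linear_combination huv, ?_⟩
  rw [hP, act_eval] at hk
  intro h
  apply hk
  have h1 := congrArg (fun y : ℤ => (y : ℚ)) h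
  push_cast at h1
  rw [← h1]
  apply sum_congr rfl
  intro i _
  push_cast
  ring

/-- A lower bound for the integer part of a quotient. -/
private lemma div_floor {H C : ℕ} (hC : 0 < C) (h7 : 2 * C ≤ H) :
    (H : ℝ) / (2 * C) ≤ ((H / C : ℕ) : ℝ) := by
  have hCr : (0 : ℝ) < C := by exact_mod_cast hC
  have h5 : H < C * (H / C) + C := by
    have := Nat.lt_mul_div_succ H hC
    rw [mul_add, mul_one] at this
    exact this
  have h6 : (H : ℝ) < C * ((H / C : ℕ) : ℝ) + C := by exact_mod_cast h5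
  have h8 : 2 * (C : ℝ) ≤ H := by exact_mod_cast h7
  rw [div_le_iff₀ (by positivity)]
  calc (H : ℝ) ≤ 2 * (C * ((H / C : ℕ) : ℝ)) := by linarith
    _ = ((H / C : ℕ) : ℝ) * (2 * C) := by ring

theorem els_many (n m : ℕ) (hn : 4 ≤ n) (he : Even n) (hm : 2 ≤ m) (hem : Even m)
    (b : Fin (m + 1) → ℤ) (h0 : b 0 ≠ 0) (hsq : Squarefree (GZ ℚ b)) (hloc : BaseELS b) :
    ∃ c₀ : ℝ, 0 < c₀ ∧ ∃ H₀ : ℕ, ∀ H : ℕ, H₀ ≤ H →
      c₀ * H ^ (n + 1) ≤ (BF.cnt n (fun a => DQ.ELS a b) H : ℝ) := by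
  classical
  obtain ⟨Q₁, hQ₁⟩ := sqf_primes b h0 hsq
  set Q : ℕ := Q₁ + ((2 * (n + m) + 4) ^ 2 + 128) with hQ
  obtain ⟨x, z, hxz, hloc1, hpos⟩ := exists_value hm hem b h0 hsq hloc Q
  obtain ⟨p, r, hdet, hlead⟩ := exists_mat b hxz hpos.ne'
  have hcore := els_core n m hn he hm hem Q (by omega) (act p x r z b)
    (by rw [act_zero]; exact hlead)
    (by
      intro l _ hl
      rw [act_last]
      exact hloc1 l hl)
    (by rw [act_last]; exact hpos)
    (by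
      intro l _ hl
      obtain ⟨h1, h2⟩ := hQ₁ l (by omega)
      exact act_sqf (by omega) p x r z hdet b l h1 h2)
  obtain ⟨c, hc, H₁, hH₁⟩ := hcore
  have hdet' : z * p - -x * -r = 1 := by linear_combination hdet
  obtain ⟨C, hC, hbound⟩ := act_bound n z (-x) (-r) p
  have hinv : ∀ a : Fin (n + 1) → ℤ, act p x r z (act z (-x) (-r) p a) = a := by
    intro a
    have h1 := act_inv z (-x) (-r) p hdet' a
    rw [neg_neg, neg_neg] at h1
    exact h1
  -- the comparison of the counting functions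
  have hcmp : ∀ H H' : ℕ, C * H ≤ H' →
      BF.cnt n (fun a => DQ.ELS a (act p x r z b)) H ≤ BF.cnt n (fun a => DQ.ELS a b) H' := by
    intro H H' hHH
    unfold BF.cnt
    apply card_le_card_of_injOn (act z (-x) (-r) p)
    · intro a ha
      rw [mem_coe, mem_filter, Fintype.mem_piFinset] at ha ⊢
      refine ⟨fun i => ?_, ?_⟩
      · have h1 := hbound H a (fun i => by
          have := mem_Icc.1 (ha.1 i)
          exact abs_le.2 this) i
        have h2 : ((C * H : ℕ) : ℤ) ≤ (H' : ℤ) := by exact_mod_cast hHH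
        rw [mem_Icc]
        exact abs_le.1 (h1.trans h2)
      · apply act_els he hem p x r z hdet
        rw [hinv]
        exact ha.2
    · intro a _ a' _ haa
      rw [← hinv a, ← hinv a', haa]
  refine ⟨c / (2 * C) ^ (n + 1), by positivity, C * (H₁ + 2), fun H hH => ?_⟩
  have hCH : C * (H / C) ≤ H := Nat.mul_div_le H C
  have h1 : H₁ ≤ H / C := by
    rw [Nat.le_div_iff_mul_le hC, mul_comm]
    calc C * H₁ ≤ C * (H₁ + 2) := Nat.mul_le_mul_left _ (by omega)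
      _ ≤ H := hH
  have h2 := hH₁ (H / C) h1
  have h3 : (BF.cnt n (fun a => DQ.ELS a (act p x r z b)) (H / C) : ℝ) ≤
      (BF.cnt n (fun a => DQ.ELS a b) H : ℝ) := by
    exact_mod_cast hcmp _ _ hCH
  refine le_trans ?_ (h2.trans h3)
  have hCr : (0 : ℝ) < C := by exact_mod_cast hC
  have h4 : (H : ℝ) / (2 * C) ≤ ((H / C : ℕ) : ℝ) := by
    apply div_floor hC
    calc 2 * C = C * 2 := mul_comm _ _
      _ ≤ C * (H₁ + 2) := Nat.mul_le_mul_left _ (by omega)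
      _ ≤ H := hH
  have h9 : ((H : ℝ) / (2 * C)) ^ (n + 1) ≤ ((H / C : ℕ) : ℝ) ^ (n + 1) :=
    pow_le_pow_left₀ (by positivity) h4 _
  have h10 : c / (2 * C) ^ (n + 1) * (H : ℝ) ^ (n + 1) = c * ((H : ℝ) / (2 * C)) ^ (n + 1) := by
    rw [div_pow]
    field_simp
  rw [h10]
  exact mul_le_mul_of_nonneg_left h9 hc.le

end Stoll308.FQ
end

section
set_option autoImplicit false

/-!
The class at the primes which divide the leading coefficient.
-/

namespace Stoll308.DQ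

open Polynomial Finset Matrix BG BF SC

/-- The square root of `f` modulo `h`, reversed; `n` is even. -/
theorem sqE_rev {K : Type*} [Field K] {h f r : K[X]} {n : ℕ} (he : Even n) (h0 : h ≠ 0)
    (hf : f.natDegree ≤ n) (hr : h ∣ f - r ^ 2) :
    ∃ r₁ : K[X], h.reflect h.natDegree ∣ f.reflect n - r₁ ^ 2 := by
  set g := h.reflect h.natDegree with hg
  set R := r.natDegree + n with hR
  have h2 : g ∣ f.reflect n * X ^ (2 * R - n) - (r.reflect R) ^ 2 := by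
    have h3 := reflect_dvd (N := 2 * R) h0 hr ?_
    · rw [reflect_sub, reflect_sq (by omega), show 2 * R = n + (2 * R - n) by omega,
        reflect_up hf] at h3
      exact h3
    · exact (natDegree_sub_le _ _).trans (max_le (by omega) (natDegree_sq_le (by omega)))
  have hg0 : g.coeff 0 ≠ 0 := by
    rw [hg, coeff_reflect, revAt_le (Nat.zero_le _), Nat.sub_zero]
    exact leadingCoeff_ne_zero.2 h0
  have hX : IsCoprime (X : K[X]) g := by
    have hdx := divX_mul_X_add g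
    refine ⟨-(C (g.coeff 0)⁻¹ * divX g), C (g.coeff 0)⁻¹, ?_⟩
    have h3 : C (g.coeff 0)⁻¹ * C (g.coeff 0) = (1 : K[X]) := by
      rw [← C_mul, inv_mul_cancel₀ hg0, C_1]
    linear_combination h3 - C (g.coeff 0)⁻¹ * hdx
  obtain ⟨j, hj⟩ : ∃ j, 2 * R - n = j * 2 := by
    obtain ⟨k, hk⟩ := he
    exact ⟨R - k, by omega⟩
  rw [hj, pow_mul] at h2
  obtain ⟨u, w, huw⟩ := hX.pow_left (m := j)
  obtain ⟨c, hc⟩ := h2
  refine ⟨r.reflect R * u, u ^ 2 * c + f.reflect n * w * (2 * (u * X ^ j) + w * g), ?_⟩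
  have e1 : (u * X ^ j + w * g) ^ 2 = 1 := by rw [huw, one_pow]
  linear_combination u ^ 2 * hc - f.reflect n * e1

/-- The class `θ*^(-ν) δ(θ)`, `ν` odd, has a self-dual lattice if `p` does not divide the constant
coefficient. -/
theorem good_rev {n : ℕ} (hn : 2 ≤ n) (he : Even n) (p : ℕ) [Fact p.Prime] (hp : p ≠ 2)
    (a : Fin (n + 1) → ℤ) (h0 : a 0 ≠ 0) (hl : ¬ (p : ℤ) ∣ a (Fin.last n)) (δ h : ℚ_[p][X])
    (hh : Prim p h) (hc : Cls (GZ ℚ_[p] a) δ h) (ν D : ℕ) (hν : Odd ν) (hD : δ.natDegree ≤ D)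
    (D₁ : ℚ_[p][X]) (e : GZ ℚ_[p] (a ∘ Fin.rev) ∣ D₁ * X ^ (ν + D) - δ.reflect D) :
    Good p n (mon ℚ_[p] (a ∘ Fin.rev)) D₁ := by
  obtain ⟨hodd, hcop, ⟨r, hr⟩, s, hscop, hf⟩ := hc
  have h0' : (a 0 : ℚ_[p]) ≠ 0 := by exact_mod_cast h0
  have hrl : (a ∘ Fin.rev) 0 = a (Fin.last n) := by rw [Function.comp_apply, Fin.rev_zero]
  obtain ⟨g₀, c, hc, hg₀, hgn, hgm, hgf⟩ := exists_mon p (a ∘ Fin.rev) (by rw [hrl]; exact hl)
  have hz : (((a ∘ Fin.rev) 0 : ℤ) : ℚ_[p]) ≠ 0 := by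
    intro h
    have h1 := norm_int_eq_one (p := p) (z := (a ∘ Fin.rev) 0) (by rw [hrl]; exact hl)
    rw [h, norm_zero] at h1
    exact zero_ne_one h1
  have hdvd : mon ℚ_[p] (a ∘ Fin.rev) ∣ GZ ℚ_[p] (a ∘ Fin.rev) :=
    Dvd.intro_left _ (BF.LocLat.GZ_eq (a ∘ Fin.rev) hz).symm
  set f := GZ ℚ_[p] a with hfdef
  set g := GZ ℚ_[p] (a ∘ Fin.rev) with hg
  have hfn : f.natDegree ≤ n := BF.LocLat.GZ_natDegree_le a
  have hfg : f.reflect n = g := gz_reflect a
  have hX : IsCoprime (X : ℚ_[p][X]) g := rev_coprime a h0'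
  have hh0 : h ≠ 0 := by
    rintro rfl
    simp at hodd
  have hfnn : f.natDegree = n := by
    refine le_antisymm hfn (le_natDegree_of_ne_zero ?_)
    rw [hfdef, BF.LocLat.GZ_coeff_top]
    exact h0'
  have hf0 : f ≠ 0 := by
    intro h1
    rw [h1, natDegree_zero] at hfnn
    omega
  -- the reversed identities
  obtain ⟨r₁, hr₁⟩ := sqE_rev he hh0 hfn hr
  rw [hfg] at hr₁
  set m := h.natDegree with hm
  set H := h.reflect m with hH
  have hHp : Prim p H := hh.reflect m le_rfl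
  have hHg : IsCoprime H g := by
    have := reflect_coprime hcop (E := m) (n := n) le_rfl hfn (by rw [hfg]; exact hX)
    rwa [hfg] at this
  set E := s.natDegree + m with hE
  set sr := s.reflect E with hsr
  have hsrg : IsCoprime sr g := by
    have := reflect_coprime hscop (E := E) (n := n) (by omega) hfn (by rw [hfg]; exact hX)
    rwa [hfg] at this
  have hmain : g ∣ H * X ^ (D + 2 * E - m) - D₁ * X ^ (ν + D) * sr ^ 2 := by
    have h3 := reflect_dvd (N := D + 2 * E) hf0 hf ?_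
    · rw [hfnn, hfg, reflect_sub, reflect_mul _ _ hD (natDegree_sq_le (by omega)),
        reflect_sq (by omega)] at h3
      have h4 : h.reflect (D + 2 * E) = H * X ^ (D + 2 * E - m) := by
        conv_lhs => rw [show D + 2 * E = m + (D + 2 * E - m) by omega]
        exact reflect_up le_rfl _
      rw [h4] at h3
      obtain ⟨c, hc⟩ := h3
      obtain ⟨d, hd⟩ := e
      exact ⟨c - d * sr ^ 2, by linear_combination hc - sr ^ 2 * hd⟩
    · refine (natDegree_sub_le _ _).trans (max_le (by omega) ?_)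
      exact natDegree_mul_le.trans (Nat.add_le_add hD (natDegree_sq_le (by omega)))
  obtain ⟨i, j, hij⟩ : ∃ i j : ℕ, g ∣ H * (X ^ i) ^ 2 - D₁ * (X ^ j * sr) ^ 2 := by
    obtain ⟨k, hk⟩ := hν
    obtain ⟨k', hk'⟩ := hodd
    rcases Nat.even_or_odd' (D + 2 * E - m) with ⟨i, hi | hi⟩
    · refine ⟨i, (ν + D) / 2, ?_⟩
      have h5 : ν + D = 2 * ((ν + D) / 2) := by omega
      have h6 : H * (X ^ i) ^ 2 - D₁ * (X ^ ((ν + D) / 2) * sr) ^ 2 =
          H * X ^ (D + 2 * E - m) - D₁ * X ^ (ν + D) * sr ^ 2 := by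
        rw [hi]
        conv_rhs => rw [h5]
        ring
      rw [h6]
      exact hmain
    · refine ⟨i + 1, (ν + D + 1) / 2, ?_⟩
      have h6 : H * (X ^ (i + 1)) ^ 2 - D₁ * (X ^ ((ν + D + 1) / 2) * sr) ^ 2 =
          X * (H * X ^ (D + 2 * E - m) - D₁ * X ^ (ν + D) * sr ^ 2) := by
        have h7 : (X : ℚ_[p][X]) * X ^ (ν + D) = (X ^ ((ν + D + 1) / 2)) ^ 2 := by
          rw [← pow_succ', ← pow_mul]
          congr 1
          omega
        rw [hi]
        linear_combination (D₁ * sr ^ 2) * h7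
      rw [h6]
      exact Dvd.dvd.mul_left hmain _
  have hr₂ : H ∣ toQ (C c * g₀) - r₁ ^ 2 := by rw [hgf]; exact hr₁
  have hHg' := hHg.of_isCoprime_of_dvd_right hdvd
  have hX' := hX.of_isCoprime_of_dvd_right hdvd
  have hsrg' := hsrg.of_isCoprime_of_dvd_right hdvd
  have hij' := hdvd.trans hij
  rw [← hgm] at hHg' hX' hsrg' hij' ⊢
  exact good_of_prim (by omega) p hp g₀ c hc hg₀ hgn H r₁ hHp hHg' hr₂ D₁ (X ^ i) (X ^ j * sr)
    hX'.pow_left (hX'.pow_left.mul_left hsrg') hij'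

end Stoll308.DQ
end

section
set_option autoImplicit false

/-!
The local lattice, `n` even.
-/

namespace Stoll308.SC

open Polynomial Finset Matrix BG BF

namespace LocE

/-- The determinant of the multiplication by `X`. -/
lemma mulMat_X_det {K : Type*} [Field K] {n : ℕ} (F : K[X]) (hF : F.Monic)
    (hn : F.natDegree = n) : (mulMat n F X).det = (-1) ^ n * F.coeff 0 := by
  have h1 : mulMat n F (C 0 - X) = -mulMat n F X := by
    ext i j
    rw [Matrix.neg_apply]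
    change (((C 0 - X) * X ^ (i : ℕ)) %ₘ F).coeff j = -((X * X ^ (i : ℕ)) %ₘ F).coeff j
    rw [C_0, zero_sub, neg_mul, ← coeff_neg]
    congr 1
    have := sub_modByMonic (0 : K[X]) (X * X ^ (i : ℕ)) F
    rw [zero_sub, zero_modByMonic, zero_sub] at this
    exact this
  have h2 := HankL.mulMat_lin_det F hF hn (0 : K)
  rw [h1, Matrix.det_neg, Fintype.card_fin, ← coeff_zero_eq_eval_zero] at h2
  rw [← h2, ← mul_assoc, ← mul_pow]
  simp

/-- Reversal of the basis. -/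
lemma rev_conj {K : Type*} [Field K] {n : ℕ} (G H H' : Matrix (Fin n) (Fin n) K)
    (h : ∀ i j, H i j = H' i.rev j.rev) :
    G.submatrix id Fin.rev * H * (G.submatrix id Fin.rev)ᵀ = G * H' * Gᵀ := by
  ext i j
  simp only [Matrix.mul_apply, Matrix.submatrix_apply, Matrix.transpose_apply, id, h]
  rw [← Equiv.sum_comp Fin.revPerm]
  refine Finset.sum_congr rfl fun l _ => ?_
  rw [← Equiv.sum_comp Fin.revPerm]
  simp only [Fin.revPerm_apply, Fin.rev_rev]

end LocE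

open LocE

theorem loc_even {n : ℕ} (hn : 4 ≤ n) (he : Even n) (p : ℕ) [Fact p.Prime] (hp : p ≠ 2)
    (a : Fin (n + 1) → ℤ) (h0 : a 0 ≠ 0) (hl : a (Fin.last n) ≠ 0)
    (hcase : ¬ (p : ℤ) ∣ a 0 ∨ ¬ (p : ℤ) ∣ a (Fin.last n))
    (δ : ℚ_[p][X]) (hloc : OLoc (GZ ℚ_[p] a) δ) :
    ∃ G : Matrix (Fin n) (Fin n) ℚ_[p], G.det ≠ 0 ∧
      (∀ i j, ‖(G * ((a 0 : ℚ_[p])⁻¹ • Hank n (mon ℚ_[p] a) δ) * Gᵀ) i j‖ ≤ 1) ∧
      (∀ i j, ‖(G * ((a 0 : ℚ_[p])⁻¹ • Hank n (mon ℚ_[p] a) (X * δ)) * Gᵀ) i j‖ ≤ 1) ∧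
      ‖(G * ((a 0 : ℚ_[p])⁻¹ • Hank n (mon ℚ_[p] a) δ) * Gᵀ).det‖ = ‖(a 0 : ℚ_[p])‖ := by
  have h0' : ((a 0 : ℤ) : ℚ_[p]) ≠ 0 := by exact_mod_cast h0
  have hl' : ((a (Fin.last n) : ℤ) : ℚ_[p]) ≠ 0 := by exact_mod_cast hl
  rcases hcase with hc | hc
  · obtain ⟨G, hG, h1, h2⟩ := good_unit (by omega) p hp a hc δ hloc
    have hn1 := norm_int_eq_one hc
    have key : ∀ M : Matrix (Fin n) (Fin n) ℚ_[p],
        G * ((a 0 : ℚ_[p])⁻¹ • M) * Gᵀ = (a 0 : ℚ_[p])⁻¹ • (G * M * Gᵀ) := by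
      intro M
      rw [Matrix.mul_smul, Matrix.smul_mul]
    refine ⟨G, hG, ?_, ?_, ?_⟩
    · intro i j
      rw [key, Matrix.smul_apply, norm_smul, norm_inv, hn1, inv_one, one_mul]
      have := h1 0 i j
      rwa [pow_zero, one_mul] at this
    · intro i j
      rw [key, Matrix.smul_apply, norm_smul, norm_inv, hn1, inv_one, one_mul]
      have := h1 1 i j
      rwa [pow_one] at this
    · rw [key, Matrix.det_smul, norm_mul, norm_pow, norm_inv, hn1, inv_one, one_pow, one_mul, h2]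
  · obtain ⟨D, hD⟩ : ∃ D, D = δ.natDegree := ⟨_, rfl⟩
    obtain ⟨D₁, hD₁⟩ := exists_rev a h0' δ (n + 1) D
    have hν : Odd (n + 1) := he.add_one
    obtain ⟨G, hG, h1, h2⟩ := good_rev (by omega) p hp a h0 hc δ hloc (n + 1) D hν hD.ge D₁ hD₁
    have hn1 := norm_int_eq_one hc
    obtain ⟨F, hF⟩ : ∃ F, F = mon ℚ_[p] (a ∘ Fin.rev) := ⟨_, rfl⟩
    rw [← hF] at h1 h2
    have hm0 : (((a ∘ Fin.rev) 0 : ℤ) : ℚ_[p]) ≠ 0 := by
      rw [Function.comp_apply, Fin.rev_zero]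
      exact hl'
    have hFm : F.Monic := by rw [hF]; exact BF.LocLat.mon_monic _ hm0
    have hFn : F.natDegree = n := by rw [hF]; exact BF.LocLat.mon_natDegree _ hm0
    -- the two Hankel matrices
    have r1 : ∀ i j, (a 0 : ℚ_[p])⁻¹ * Hank n (mon ℚ_[p] a) (X * δ) i j =
        -((a (Fin.last n) : ℚ_[p])⁻¹ * Hank n F D₁ i.rev j.rev) := by
      intro i j
      rw [hF]
      refine rev_hank (by omega) a h0' hl' (X * δ) D₁ (D + 1) ?_ ?_ i j
      · refine natDegree_mul_le.trans ?_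
        rw [natDegree_X]
        omega
      · have e1 : (X * δ).reflect (D + 1) = δ.reflect D := by
          rw [add_comm D 1, reflect_mul _ _ (by rw [natDegree_X]) hD.ge]
          have : (X : ℚ_[p][X]).reflect 1 = 1 := by
            have := reflect_monomial 1 1 (R := ℚ_[p])
            rw [pow_one] at this
            rw [this, revAt_le le_rfl, Nat.sub_self, pow_zero]
          rw [this, one_mul]
        rw [e1, show n + (D + 1) = n + 1 + D by ring]
        exact hD₁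
    have r0 : ∀ i j, (a 0 : ℚ_[p])⁻¹ * Hank n (mon ℚ_[p] a) δ i j =
        -((a (Fin.last n) : ℚ_[p])⁻¹ * Hank n F (X * D₁) i.rev j.rev) := by
      intro i j
      rw [hF]
      refine rev_hank (by omega) a h0' hl' δ (X * D₁) D hD.ge ?_ i j
      have e1 : X * D₁ * X ^ (n + D) = D₁ * X ^ (n + 1 + D) := by ring
      rw [e1]
      exact hD₁
    have k1 := rev_conj G ((a 0 : ℚ_[p])⁻¹ • Hank n (mon ℚ_[p] a) (X * δ))
      (-((a (Fin.last n) : ℚ_[p])⁻¹ • Hank n F D₁)) (fun i j => by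
        rw [Matrix.smul_apply, smul_eq_mul, r1, Matrix.neg_apply, Matrix.smul_apply, smul_eq_mul])
    have k0 := rev_conj G ((a 0 : ℚ_[p])⁻¹ • Hank n (mon ℚ_[p] a) δ)
      (-((a (Fin.last n) : ℚ_[p])⁻¹ • Hank n F (X * D₁))) (fun i j => by
        rw [Matrix.smul_apply, smul_eq_mul, r0, Matrix.neg_apply, Matrix.smul_apply, smul_eq_mul])
    have key : ∀ M : Matrix (Fin n) (Fin n) ℚ_[p],
        G * (-((a (Fin.last n) : ℚ_[p])⁻¹ • M)) * Gᵀ =
          (-(a (Fin.last n) : ℚ_[p])⁻¹) • (G * M * Gᵀ) := by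
      intro M
      rw [← neg_smul, Matrix.mul_smul, Matrix.smul_mul]
    have hnn : ‖(-(a (Fin.last n) : ℚ_[p])⁻¹)‖ = 1 := by
      rw [norm_neg, norm_inv, hn1, inv_one]
    refine ⟨G.submatrix id Fin.rev, ?_, ?_, ?_, ?_⟩
    · have : G.submatrix id Fin.rev = G.submatrix id Fin.revPerm := rfl
      rw [this, Matrix.det_permute']
      refine mul_ne_zero ?_ hG
      exact_mod_cast (Units.ne_zero _)
    · intro i j
      rw [k0, key, Matrix.smul_apply, norm_smul, hnn, one_mul]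
      have := h1 1 i j
      rwa [pow_one] at this
    · intro i j
      rw [k1, key, Matrix.smul_apply, norm_smul, hnn, one_mul]
      have := h1 0 i j
      rwa [pow_zero, one_mul] at this
    · rw [k0, key, Matrix.det_smul, norm_mul, norm_pow, hnn, one_pow, one_mul]
      have e1 : Hank n F (X * D₁) = mulMat n F X * Hank n F D₁ := by
        rw [mul_comm X D₁]
        exact HankL.hank_mul F D₁ X hFm hFn
      have e2 : (G * Hank n F (X * D₁) * Gᵀ).det =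
          (mulMat n F X).det * (G * Hank n F D₁ * Gᵀ).det := by
        rw [e1]
        simp only [det_mul]
        ring
      rw [e2, norm_mul, h2, mul_one, mulMat_X_det F hFm hFn, norm_mul, norm_pow, norm_neg,
        norm_one, one_pow, one_mul, hF]
      unfold mon
      rw [coeff_C_mul, gz_coeff_zero, norm_mul, norm_inv, Function.comp_apply, Fin.rev_zero, hn1,
        inv_one, one_mul]

end Stoll308.SC
end

section
set_option autoImplicit false

/-!
The local lattice.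
-/

namespace Stoll308.DQ

open Polynomial Finset Matrix BG BF SC SC.LocE

theorem loc_even {n : ℕ} (hn : 4 ≤ n) (he : Even n) (p : ℕ) [Fact p.Prime] (hp : p ≠ 2)
    (a : Fin (n + 1) → ℤ) (h0 : a 0 ≠ 0) (hl : a (Fin.last n) ≠ 0)
    (hcase : ¬ (p : ℤ) ∣ a 0 ∨ ¬ (p : ℤ) ∣ a (Fin.last n))
    (δ h : ℚ_[p][X]) (hh : Prim p h) (hc : Cls (GZ ℚ_[p] a) δ h) :
    ∃ G : Matrix (Fin n) (Fin n) ℚ_[p], G.det ≠ 0 ∧
      (∀ i j, ‖(G * ((a 0 : ℚ_[p])⁻¹ • Hank n (mon ℚ_[p] a) δ) * Gᵀ) i j‖ ≤ 1) ∧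
      (∀ i j, ‖(G * ((a 0 : ℚ_[p])⁻¹ • Hank n (mon ℚ_[p] a) (X * δ)) * Gᵀ) i j‖ ≤ 1) ∧
      ‖(G * ((a 0 : ℚ_[p])⁻¹ • Hank n (mon ℚ_[p] a) δ) * Gᵀ).det‖ = ‖(a 0 : ℚ_[p])‖ := by
  have h0' : ((a 0 : ℤ) : ℚ_[p]) ≠ 0 := by exact_mod_cast h0
  have hl' : ((a (Fin.last n) : ℤ) : ℚ_[p]) ≠ 0 := by exact_mod_cast hl
  rcases hcase with hcs | hcs
  · obtain ⟨G, hG, h1, h2⟩ := good_unit (by omega) p hp a hcs δ h hh hc
    have hn1 := norm_int_eq_one hcs
    have key : ∀ M : Matrix (Fin n) (Fin n) ℚ_[p],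
        G * ((a 0 : ℚ_[p])⁻¹ • M) * Gᵀ = (a 0 : ℚ_[p])⁻¹ • (G * M * Gᵀ) := by
      intro M
      rw [Matrix.mul_smul, Matrix.smul_mul]
    refine ⟨G, hG, ?_, ?_, ?_⟩
    · intro i j
      rw [key, Matrix.smul_apply, norm_smul, norm_inv, hn1, inv_one, one_mul]
      have := h1 0 i j
      rwa [pow_zero, one_mul] at this
    · intro i j
      rw [key, Matrix.smul_apply, norm_smul, norm_inv, hn1, inv_one, one_mul]
      have := h1 1 i j
      rwa [pow_one] at this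
    · rw [key, Matrix.det_smul, norm_mul, norm_pow, norm_inv, hn1, inv_one, one_pow, one_mul, h2]
  · obtain ⟨D, hD⟩ : ∃ D, D = δ.natDegree := ⟨_, rfl⟩
    obtain ⟨D₁, hD₁⟩ := exists_rev a h0' δ (n + 1) D
    have hν : Odd (n + 1) := he.add_one
    obtain ⟨G, hG, h1, h2⟩ := good_rev (by omega) he p hp a h0 hcs δ h hh hc
      (n + 1) D hν hD.ge D₁ hD₁
    have hn1 := norm_int_eq_one hcs
    obtain ⟨F, hF⟩ : ∃ F, F = mon ℚ_[p] (a ∘ Fin.rev) := ⟨_, rfl⟩
    rw [← hF] at h1 h2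
    have hm0 : (((a ∘ Fin.rev) 0 : ℤ) : ℚ_[p]) ≠ 0 := by
      rw [Function.comp_apply, Fin.rev_zero]
      exact hl'
    have hFm : F.Monic := by rw [hF]; exact BF.LocLat.mon_monic _ hm0
    have hFn : F.natDegree = n := by rw [hF]; exact BF.LocLat.mon_natDegree _ hm0
    -- the two Hankel matrices
    have r1 : ∀ i j, (a 0 : ℚ_[p])⁻¹ * Hank n (mon ℚ_[p] a) (X * δ) i j =
        -((a (Fin.last n) : ℚ_[p])⁻¹ * Hank n F D₁ i.rev j.rev) := by
      intro i j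
      rw [hF]
      refine rev_hank (by omega) a h0' hl' (X * δ) D₁ (D + 1) ?_ ?_ i j
      · refine natDegree_mul_le.trans ?_
        rw [natDegree_X]
        omega
      · have e1 : (X * δ).reflect (D + 1) = δ.reflect D := by
          rw [add_comm D 1, reflect_mul _ _ (by rw [natDegree_X]) hD.ge]
          have : (X : ℚ_[p][X]).reflect 1 = 1 := by
            have := reflect_monomial 1 1 (R := ℚ_[p])
            rw [pow_one] at this
            rw [this, revAt_le le_rfl, Nat.sub_self, pow_zero]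
          rw [this, one_mul]
        rw [e1, show n + (D + 1) = n + 1 + D by ring]
        exact hD₁
    have r0 : ∀ i j, (a 0 : ℚ_[p])⁻¹ * Hank n (mon ℚ_[p] a) δ i j =
        -((a (Fin.last n) : ℚ_[p])⁻¹ * Hank n F (X * D₁) i.rev j.rev) := by
      intro i j
      rw [hF]
      refine rev_hank (by omega) a h0' hl' δ (X * D₁) D hD.ge ?_ i j
      have e1 : X * D₁ * X ^ (n + D) = D₁ * X ^ (n + 1 + D) := by ring
      rw [e1]
      exact hD₁
    have k1 := rev_conj G ((a 0 : ℚ_[p])⁻¹ • Hank n (mon ℚ_[p] a) (X * δ))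
      (-((a (Fin.last n) : ℚ_[p])⁻¹ • Hank n F D₁)) (fun i j => by
        rw [Matrix.smul_apply, smul_eq_mul, r1, Matrix.neg_apply, Matrix.smul_apply, smul_eq_mul])
    have k0 := rev_conj G ((a 0 : ℚ_[p])⁻¹ • Hank n (mon ℚ_[p] a) δ)
      (-((a (Fin.last n) : ℚ_[p])⁻¹ • Hank n F (X * D₁))) (fun i j => by
        rw [Matrix.smul_apply, smul_eq_mul, r0, Matrix.neg_apply, Matrix.smul_apply, smul_eq_mul])
    have key : ∀ M : Matrix (Fin n) (Fin n) ℚ_[p],
        G * (-((a (Fin.last n) : ℚ_[p])⁻¹ • M)) * Gᵀ =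
          (-(a (Fin.last n) : ℚ_[p])⁻¹) • (G * M * Gᵀ) := by
      intro M
      rw [← neg_smul, Matrix.mul_smul, Matrix.smul_mul]
    have hnn : ‖(-(a (Fin.last n) : ℚ_[p])⁻¹)‖ = 1 := by
      rw [norm_neg, norm_inv, hn1, inv_one]
    refine ⟨G.submatrix id Fin.rev, ?_, ?_, ?_, ?_⟩
    · have : G.submatrix id Fin.rev = G.submatrix id Fin.revPerm := rfl
      rw [this, Matrix.det_permute']
      refine mul_ne_zero ?_ hG
      exact_mod_cast (Units.ne_zero _)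
    · intro i j
      rw [k0, key, Matrix.smul_apply, norm_smul, hnn, one_mul]
      have := h1 1 i j
      rwa [pow_one] at this
    · intro i j
      rw [k1, key, Matrix.smul_apply, norm_smul, hnn, one_mul]
      have := h1 0 i j
      rwa [pow_zero, one_mul] at this
    · rw [k0, key, Matrix.det_smul, norm_mul, norm_pow, hnn, one_pow, one_mul]
      have e1 : Hank n F (X * D₁) = mulMat n F X * Hank n F D₁ := by
        rw [mul_comm X D₁]
        exact HankL.hank_mul F D₁ X hFm hFn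
      have e2 : (G * Hank n F (X * D₁) * Gᵀ).det =
          (mulMat n F X).det * (G * Hank n F D₁ * Gᵀ).det := by
        rw [e1]
        simp only [det_mul]
        ring
      rw [e2, norm_mul, h2, mul_one, mulMat_X_det F hFm hFn, norm_mul, norm_pow, norm_neg,
        norm_one, one_pow, one_mul, hF]
      unfold mon
      rw [coeff_C_mul, gz_coeff_zero, norm_mul, norm_inv, Function.comp_apply, Fin.rev_zero, hn1,
        inv_one, one_mul]

end Stoll308.DQ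
end

section
set_option autoImplicit false

/-!
The local lattice at the small primes.
-/

namespace Stoll308.SC

open Polynomial Finset Matrix BG BF

namespace Loc2

/-- The scaling constants: `e² a^(n-2) = c`. -/
lemma exists_scale {K : Type*} [Field K] {n : ℕ} (hn : 3 ≤ n) {a : K} (ha : a ≠ 0) :
    ∃ e c : K, e ≠ 0 ∧ c ≠ 0 ∧ e ^ 2 * a ^ (n - 2) = c := by
  rcases Nat.even_or_odd n with ⟨m, hm⟩ | ⟨m, hm⟩
  · refine ⟨(a ^ (m - 1))⁻¹, 1, inv_ne_zero (pow_ne_zero _ ha), one_ne_zero, ?_⟩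
    have h : n - 2 = (m - 1) * 2 := by omega
    rw [h, pow_mul, ← mul_pow, inv_mul_cancel₀ (pow_ne_zero _ ha), one_pow]
  · refine ⟨(a ^ (m - 1))⁻¹, a, inv_ne_zero (pow_ne_zero _ ha), ha, ?_⟩
    have h : n - 2 = (m - 1) * 2 + 1 := by omega
    rw [h, pow_succ a, pow_mul, ← mul_assoc, ← mul_pow, inv_mul_cancel₀ (pow_ne_zero _ ha),
      one_pow, one_mul]

lemma hank_C_mul {K : Type*} [Field K] (n : ℕ) (F δ : K[X]) (c : K) :
    Hank n F (C c * δ) = c • Hank n F δ := by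
  ext i j
  unfold Hank
  rw [Matrix.smul_apply, mul_assoc, ← smul_eq_C_mul, smul_modByMonic, coeff_smul]

/-- The change of the variable in the Hankel matrices. -/
lemma hank_eq {K : Type*} [Field K] {n : ℕ} (hn : 1 ≤ n) (a : Fin (n + 1) → ℤ)
    (h : (a 0 : K) ≠ 0) (δ δ' : K[X]) (c : K) (hc : δ'.comp (C (a 0 : K) * X) = C c * δ) :
    Hank n (FZ K (OF.mcf a)) δ' = (((a 0 : K) ^ (n - 1))⁻¹ * c) •
      (diagonal (fun i : Fin n => (a 0 : K) ^ (i : ℕ)) * Hank n (mon K a) δ *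
        diagonal (fun i : Fin n => (a 0 : K) ^ (i : ℕ))) := by
  ext i j
  rw [OF.Hank_conv hn a h, hc, hank_C_mul, Matrix.smul_apply, Matrix.smul_apply, smul_eq_mul,
    smul_eq_mul, mul_diagonal, diagonal_mul]
  ring

lemma conj_eq {K : Type*} [Field K] {n : ℕ} (e : K) (v : Fin n → K)
    (G H : Matrix (Fin n) (Fin n) K) :
    (e • (G * diagonal v)) * H * (e • (G * diagonal v))ᵀ =
      (e ^ 2) • (G * (diagonal v * H * diagonal v) * Gᵀ) := by
  rw [transpose_smul, transpose_mul, diagonal_transpose, smul_mul_assoc, smul_mul_assoc,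
    mul_smul_comm, smul_smul, sq]
  congr 1
  simp only [Matrix.mul_assoc]

end Loc2

open Loc2 in
theorem loc_two {n : ℕ} (hn : 3 ≤ n) (p : ℕ) [Fact p.Prime] (a : Fin (n + 1) → ℤ)
    (h0 : a 0 ≠ 0) (δ : ℚ_[p][X]) (hδ : IsCoprime δ (GZ ℚ_[p] a)) :
    ∃ G : Matrix (Fin n) (Fin n) ℚ_[p], G.det ≠ 0 ∧
      (∀ i j, ‖(G * ((a 0 : ℚ_[p])⁻¹ • Hank n (mon ℚ_[p] a) δ) * Gᵀ) i j‖ ≤ 1) ∧
      (∀ i j, ‖(G * Hank n (mon ℚ_[p] a) (X * δ) * Gᵀ) i j‖ ≤ 1) ∧
      ((p : ℝ) ^ n)⁻¹ ≤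
        ‖(G * ((a 0 : ℚ_[p])⁻¹ • Hank n (mon ℚ_[p] a) δ) * Gᵀ).det‖ := by
  have ha : (a 0 : ℚ_[p]) ≠ 0 := by exact_mod_cast h0
  obtain ⟨e, c, he, hc, hec⟩ := exists_scale hn ha
  set α : ℚ_[p] := (a 0 : ℚ_[p]) with hα
  -- the polynomial `δ'`
  set δ' : ℚ_[p][X] := C c * δ.comp (C α⁻¹ * X) with hδ'
  have hcomp : δ'.comp (C α * X) = C c * δ := by
    rw [hδ', mul_comp, C_comp, comp_assoc]
    congr 1
    rw [mul_comp, C_comp, X_comp, ← mul_assoc, ← C_mul, inv_mul_cancel₀ ha, C_1, one_mul, comp_X]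
  have hF : toQ (FZ ℤ_[p] (OF.mcf a)) = FZ ℚ_[p] (OF.mcf a) := FZ_map _ _
  have hcop : IsCoprime δ' (toQ (FZ ℤ_[p] (OF.mcf a))) := by
    rw [hF]
    have h1 : FZ ℚ_[p] (OF.mcf a) =
        (C (α ^ n) * mon ℚ_[p] a).comp (C α⁻¹ * X) := by
      rw [← OF.FZ_mcf_comp (by omega) a ha, comp_assoc]
      have : (C (a 0 : ℚ_[p]) * X).comp (C α⁻¹ * X) = X := by
        rw [mul_comp, C_comp, X_comp, ← mul_assoc, ← C_mul, ← hα, mul_inv_cancel₀ ha, C_1, one_mul]
      rw [this, comp_X]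
    obtain ⟨u, v, huv⟩ := hδ
    refine ⟨C c⁻¹ * u.comp (C α⁻¹ * X), C (α * (α ^ n)⁻¹) * v.comp (C α⁻¹ * X), ?_⟩
    have h2 := congrArg (fun q : ℚ_[p][X] => q.comp (C α⁻¹ * X)) huv
    simp only [add_comp, mul_comp, one_comp] at h2
    have h3 : (mon ℚ_[p] a) = C α⁻¹ * GZ ℚ_[p] a := rfl
    rw [h1, hδ', h3, mul_comp, mul_comp, C_comp, C_comp, ← h2]
    have h4 : (C c⁻¹ : ℚ_[p][X]) * C c = 1 := by
      rw [← C_mul, inv_mul_cancel₀ hc, C_1]
    have h5 : (C (α * (α ^ n)⁻¹) : ℚ_[p][X]) * (C (α ^ n) * C α⁻¹) = 1 := by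
      rw [← C_mul, ← C_mul]
      have : α * (α ^ n)⁻¹ * (α ^ n * α⁻¹) = 1 := by
        field_simp
      rw [this, C_1]
    linear_combination (u.comp (C α⁻¹ * X) * δ.comp (C α⁻¹ * X)) * h4 +
      (v.comp (C α⁻¹ * X) * (GZ ℚ_[p] a).comp (C α⁻¹ * X)) * h5
  obtain ⟨G', hG', hint, hdet⟩ := max_lattice (by omega) p (FZ ℤ_[p] (OF.mcf a))
    (FZ_monic _) (FZ_natDegree _) δ' hcop
  rw [hF] at hint hdet
  set v : Fin n → ℚ_[p] := fun i => α ^ (i : ℕ) with hv
  have hn1 : n - 1 = (n - 2) + 1 := by omega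
  have k0 : (e • (G' * diagonal v)) * ((a 0 : ℚ_[p])⁻¹ • Hank n (mon ℚ_[p] a) δ) *
      (e • (G' * diagonal v))ᵀ = G' * Hank n (FZ ℚ_[p] (OF.mcf a)) δ' * G'ᵀ := by
    rw [conj_eq, hank_eq (by omega) a ha δ δ' c hcomp, mul_smul_comm, smul_mul_assoc,
      mul_smul_comm, smul_mul_assoc, mul_smul_comm, smul_mul_assoc, smul_smul]
    congr 1
    rw [← hα, hn1, pow_succ, ← hec]
    field_simp
    ring
  have k1 : (e • (G' * diagonal v)) * Hank n (mon ℚ_[p] a) (X * δ) *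
      (e • (G' * diagonal v))ᵀ = G' * Hank n (FZ ℚ_[p] (OF.mcf a)) (X * δ') * G'ᵀ := by
    have hcomp' : (X * δ').comp (C (a 0 : ℚ_[p]) * X) = C (α * c) * (X * δ) := by
      rw [mul_comp, X_comp, ← hα, hcomp, C_mul]
      ring
    rw [conj_eq, hank_eq (by omega) a ha (X * δ) (X * δ') (α * c) hcomp', mul_smul_comm,
      smul_mul_assoc]
    congr 1
    rw [← hα, hn1, pow_succ, ← hec]
    field_simp
    ring
  refine ⟨e • (G' * diagonal v), ?_, ?_, ?_, ?_⟩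
  · rw [det_smul, det_mul, det_diagonal]
    exact mul_ne_zero (pow_ne_zero _ he)
      (mul_ne_zero hG' (Finset.prod_ne_zero_iff.2 fun i _ => pow_ne_zero _ ha))
  · intro i j
    rw [k0]
    have := hint 0 i j
    rwa [pow_zero, one_mul] at this
  · intro i j
    rw [k1]
    have := hint 1 i j
    rwa [pow_one] at this
  · rw [k0]
    exact hdet

end Stoll308.SC
end

section
set_option autoImplicit false

/-!
The integral pair, `n` even.
-/

namespace Stoll308.SC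

open Polynomial Finset Matrix BG BF BF.PairEx

namespace PairE

/-- The sign. -/
lemma triangle_even' {K : Type*} [CommRing K] {n : ℕ} (he : Even n) :
    ((-1 : K)) ^ (n * (n - 1) / 2) = (-1) ^ (n / 2) := by
  obtain ⟨m, rfl⟩ := he
  have h1 : (m + m) * (m + m - 1) / 2 = m * (m + m - 1) := by
    rw [show (m + m) * (m + m - 1) = 2 * (m * (m + m - 1)) by ring, Nat.mul_div_cancel_left _
      (by norm_num)]
  have h2 : (m + m) / 2 = m := by omega
  rw [h1, h2]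
  obtain _ | k := m
  · simp
  · have h3 : (k + 1) * (k + 1 + (k + 1) - 1) = 2 * (k * (k + 1)) + (k + 1) := by
      have : k + 1 + (k + 1) - 1 = 2 * k + 1 := by omega
      rw [this]; ring
    rw [h3, pow_add, pow_mul, neg_one_sq, one_pow, one_mul]

/-- A factorial is a unit at the larger primes. -/
lemma norm_factorial_eq_one {p P : ℕ} [Fact p.Prime] (h : P < p) :
    ‖((P.factorial : ℕ) : ℚ_[p])‖ = 1 := by
  refine le_antisymm ?_ ?_
  · exact_mod_cast Padic.norm_int_le_one (p := p) (P.factorial : ℤ)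
  · by_contra h1
    rw [not_le, Padic.norm_natCast_lt_one_iff, (Fact.out : p.Prime).dvd_factorial] at h1
    omega

lemma norm_factorial_le_inv {p P : ℕ} [Fact p.Prime] (h : p ≤ P) :
    ‖((P.factorial : ℕ) : ℚ_[p])‖ ≤ (p : ℝ)⁻¹ := by
  obtain ⟨k, hk⟩ := (Fact.out : p.Prime).dvd_factorial.2 h
  rw [hk, Nat.cast_mul, norm_mul, Padic.norm_p]
  exact mul_le_of_le_one_right (by positivity)
    (by exact_mod_cast Padic.norm_int_le_one (p := p) (k : ℤ))

lemma norm_nat_le_one {p : ℕ} [Fact p.Prime] (k : ℕ) : ‖(k : ℚ_[p])‖ ≤ 1 := by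
  exact_mod_cast Padic.norm_int_le_one (p := p) (k : ℤ)

/-- The determinant of an integral matrix. -/
lemma det_norm_le_one {n p : ℕ} [Fact p.Prime] (M : Matrix (Fin n) (Fin n) ℚ_[p])
    (h : ∀ i j, ‖M i j‖ ≤ 1) : ‖M.det‖ ≤ 1 := by
  obtain ⟨M', hM'⟩ : ∃ M' : Matrix (Fin n) (Fin n) ℤ_[p],
      M = (algebraMap ℤ_[p] ℚ_[p]).mapMatrix M' :=
    ⟨Matrix.of fun i j => (⟨M i j, h i j⟩ : ℤ_[p]), by ext i j; rfl⟩
  rw [hM', ← RingHom.map_det]
  exact PadicInt.norm_le_one _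

end PairE

open PairE

end Stoll308.SC
end

section
set_option autoImplicit false

/-!
The integral pair.
-/

namespace Stoll308.DQ

open Polynomial Finset Matrix BG BF SC BF.PairEx SC.PairE

namespace PairAux

/-- The local lattice at all primes, `n` even. -/
theorem local_pair {n : ℕ} (hn : 4 ≤ n) (he : Even n) (P : ℕ) (hP : 2 ≤ P)
    (a : Fin (n + 1) → ℤ) (h0 : a 0 ≠ 0) (hl : a (Fin.last n) ≠ 0)
    (p : ℕ) [hp : Fact p.Prime]
    (h2 : p ≤ P → ‖((P.factorial : ℚ_[p]) ^ 2)‖ ≤ ‖(a 0 : ℚ_[p])‖)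
    (h3 : P < p → (p : ℤ) ∣ a 0 → ¬ (p : ℤ) ∣ a (Fin.last n))
    (δ : ℚ_[p][X]) (hδ : IsCoprime δ (GZ ℚ_[p] a)) 
    (hloc : p ≠ 2 → ∃ h : ℚ_[p][X], Prim p h ∧ Cls (GZ ℚ_[p] a) δ h) :
    ∃ G : Matrix (Fin n) (Fin n) ℚ_[p], G.det ≠ 0 ∧
      (∀ i j, ‖(G * ((a 0 : ℚ_[p])⁻¹ • Hank n (mon ℚ_[p] a) δ) * Gᵀ) i j‖ ≤ 1) ∧
      (∀ i j, ‖(G * ((a 0 : ℚ_[p])⁻¹ • Hank n (mon ℚ_[p] a) (X * δ)) * Gᵀ) i j‖ ≤ 1) ∧
      ‖(G * ((a 0 : ℚ_[p])⁻¹ • Hank n (mon ℚ_[p] a) δ) * Gᵀ).det‖ ≤ ‖(a 0 : ℚ_[p])‖ ∧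
      ‖((P.factorial : ℕ) : ℚ_[p])‖ ^ (4 * n) * ‖(a 0 : ℚ_[p])‖ ≤
        ‖(G * ((a 0 : ℚ_[p])⁻¹ • Hank n (mon ℚ_[p] a) δ) * Gᵀ).det‖ := by
  have h0' : ((a 0 : ℤ) : ℚ_[p]) ≠ 0 := by exact_mod_cast h0
  rcases le_or_gt p P with hpP | hpP
  · obtain ⟨G, hG, e1, e2, e3⟩ := loc_two (by omega) p a h0 δ hδ
    obtain ⟨f, hf⟩ : ∃ f : ℚ_[p], f = ((P.factorial : ℕ) : ℚ_[p]) := ⟨_, rfl⟩
    have hf0 : f ≠ 0 := by
      rw [hf]; exact_mod_cast (Nat.factorial_pos P).ne'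
    have hf1 : ‖f‖ ≤ (p : ℝ)⁻¹ := by rw [hf]; exact norm_factorial_le_inv hpP
    have hf2 : ‖f‖ ≤ 1 := by rw [hf]; exact norm_nat_le_one _
    have hfa : ‖f‖ ^ 2 ≤ ‖(a 0 : ℚ_[p])‖ := by
      have := h2 hpP
      rwa [norm_pow, ← hf] at this
    have key : ∀ M : Matrix (Fin n) (Fin n) ℚ_[p],
        (f • G) * M * (f • G)ᵀ = (f ^ 2) • (G * M * Gᵀ) := by
      intro M
      rw [Matrix.transpose_smul, Matrix.smul_mul, Matrix.smul_mul, Matrix.mul_smul, smul_smul, sq]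
    have hdet : ‖((f • G) * ((a 0 : ℚ_[p])⁻¹ • Hank n (mon ℚ_[p] a) δ) * (f • G)ᵀ).det‖ =
        ‖f‖ ^ (2 * n) *
          ‖(G * ((a 0 : ℚ_[p])⁻¹ • Hank n (mon ℚ_[p] a) δ) * Gᵀ).det‖ := by
      rw [key, Matrix.det_smul, Fintype.card_fin, norm_mul, norm_pow, norm_pow, pow_mul]
    have hd1 : ‖(G * ((a 0 : ℚ_[p])⁻¹ • Hank n (mon ℚ_[p] a) δ) * Gᵀ).det‖ ≤ 1 :=
      det_norm_le_one _ e1
    refine ⟨f • G, ?_, ?_, ?_, ?_, ?_⟩
    · rw [Matrix.det_smul]
      exact mul_ne_zero (pow_ne_zero _ hf0) hG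
    · intro i j
      rw [key, Matrix.smul_apply, smul_eq_mul, norm_mul, norm_pow]
      exact mul_le_one₀ (pow_le_one₀ (norm_nonneg _) hf2) (norm_nonneg _) (e1 i j)
    · intro i j
      have e4 : (f • G) * ((a 0 : ℚ_[p])⁻¹ • Hank n (mon ℚ_[p] a) (X * δ)) * (f • G)ᵀ =
          (f ^ 2 * (a 0 : ℚ_[p])⁻¹) • (G * Hank n (mon ℚ_[p] a) (X * δ) * Gᵀ) := by
        rw [key, Matrix.mul_smul, Matrix.smul_mul, smul_smul]
      rw [e4, Matrix.smul_apply, smul_eq_mul, norm_mul, norm_mul, norm_pow, norm_inv]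
      refine mul_le_one₀ ?_ (norm_nonneg _) (e2 i j)
      rw [← div_eq_mul_inv]
      exact div_le_one_of_le₀ hfa (norm_nonneg _)
    · rw [hdet]
      calc _ ≤ ‖f‖ ^ (2 * n) * 1 := by gcongr
        _ = ‖f‖ ^ (2 * n) := mul_one _
        _ ≤ ‖f‖ ^ 2 := pow_le_pow_of_le_one (norm_nonneg _) hf2 (by omega)
        _ ≤ _ := hfa
    · rw [hdet, ← hf]
      have ha1 : ‖(a 0 : ℚ_[p])‖ ≤ 1 := Padic.norm_int_le_one _
      calc ‖f‖ ^ (4 * n) * ‖(a 0 : ℚ_[p])‖ ≤ ‖f‖ ^ (4 * n) * 1 := by gcongr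
        _ = ‖f‖ ^ (4 * n) := mul_one _
        _ ≤ ‖f‖ ^ (2 * n + n) := pow_le_pow_of_le_one (norm_nonneg _) hf2 (by omega)
        _ = ‖f‖ ^ (2 * n) * ‖f‖ ^ n := pow_add _ _ _
        _ ≤ ‖f‖ ^ (2 * n) * ((p : ℝ)⁻¹) ^ n := by gcongr
        _ = ‖f‖ ^ (2 * n) * ((p : ℝ) ^ n)⁻¹ := by rw [inv_pow]
        _ ≤ _ := by gcongr
  · have hp2 : p ≠ 2 := by omega
    obtain ⟨h, hh, hcl⟩ := hloc hp2
    obtain ⟨G, hG, e1, e2, e3⟩ := loc_even hn he p hp2 a h0 hl (by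
      by_cases h : (p : ℤ) ∣ a 0
      · exact Or.inr (h3 hpP h)
      · exact Or.inl h) δ h hh hcl
    refine ⟨G, hG, e1, e2, e3.le, ?_⟩
    rw [e3, norm_factorial_eq_one hpP, one_pow, one_mul]

end PairAux

open PairAux

theorem exists_pair {n : ℕ} (hn : 4 ≤ n) (he : Even n) (P : ℕ) (hP : 2 ≤ P)
    (a : Fin (n + 1) → ℤ) (h0 : a 0 ≠ 0) (hl : a (Fin.last n) ≠ 0)
    (h2 : ∀ (p : ℕ) [Fact p.Prime], p ≤ P → ‖((P.factorial : ℚ_[p]) ^ 2)‖ ≤ ‖(a 0 : ℚ_[p])‖)
    (h3 : ∀ p : ℕ, p.Prime → P < p → (p : ℤ) ∣ a 0 → ¬ (p : ℤ) ∣ a (Fin.last n))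
    (δ : ℚ[X]) (hδ : IsCoprime δ (GZ ℚ a))
    (hloc : ∀ (p : ℕ) [Fact p.Prime], p ≠ 2 →
      ∃ h : ℚ_[p][X], Prim p h ∧ Cls (GZ ℚ_[p] a) (δ.map (algebraMap ℚ ℚ_[p])) h) :
    ∃ (A B : Matrix (Fin n) (Fin n) ℤ) (N : ℕ), 0 < N ∧ N ≤ P.factorial ^ (2 * n) ∧
      BF.IsPair a δ A B ∧ A.det = (-1) ^ (n / 2) * ((N : ℤ) ^ 2 * a 0) := by
  have h0' : ((a 0 : ℤ) : ℚ) ≠ 0 := by exact_mod_cast h0
  have hFm : (mon ℚ a).Monic := mon_monic a h0'
  have hFn : (mon ℚ a).natDegree = n := mon_natDegree a h0'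
  have hδF : IsCoprime δ (mon ℚ a) := by
    refine hδ.of_isCoprime_of_dvd_right (mon_dvd a h0' dvd_rfl)
  have hcp : ∀ (p : ℕ) [Fact p.Prime],
      IsCoprime (δ.map (algebraMap ℚ ℚ_[p])) (GZ ℚ_[p] a) := by
    intro p _
    have := hδ.map (mapRingHom (algebraMap ℚ ℚ_[p]))
    rwa [coe_mapRingHom, GZ_map] at this
  obtain ⟨c, hc⟩ : ∃ c : ℚ, c = ((a 0 : ℤ) : ℚ)⁻¹ := ⟨_, rfl⟩
  have hc0 : c ≠ 0 := by rw [hc]; exact inv_ne_zero h0'
  obtain ⟨H, hHdef⟩ : ∃ H, H = c • Hank n (mon ℚ a) δ := ⟨_, rfl⟩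
  obtain ⟨H1, hH1def⟩ : ∃ H, H = c • Hank n (mon ℚ a) (X * δ) := ⟨_, rfl⟩
  have hHk : (Hank n (mon ℚ a) δ).det ≠ 0 := hank_det_ne_zero _ _ hFm hFn hδF
  have hH : H.det ≠ 0 := by
    rw [hHdef, Matrix.det_smul]
    exact mul_ne_zero (pow_ne_zero _ hc0) hHk
  have hmapsmul : ∀ (p : ℕ) [Fact p.Prime] (M : Matrix (Fin n) (Fin n) ℚ),
      (c • M).map (algebraMap ℚ ℚ_[p]) = ((a 0 : ℤ) : ℚ_[p])⁻¹ • M.map (algebraMap ℚ ℚ_[p]) := by
    intro p hp M
    ext i j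
    rw [Matrix.map_apply, Matrix.smul_apply, Matrix.smul_apply, Matrix.map_apply, smul_eq_mul,
      smul_eq_mul, map_mul, hc, map_inv₀, map_intCast]
  have hHp : ∀ (p : ℕ) [Fact p.Prime], H.map (algebraMap ℚ ℚ_[p]) =
      ((a 0 : ℤ) : ℚ_[p])⁻¹ • Hank n (mon ℚ_[p] a) (δ.map (algebraMap ℚ ℚ_[p])) := by
    intro p hp
    rw [hHdef, hmapsmul, ← hank_map _ _ _ hFm, mon_map]
  have hH1p : ∀ (p : ℕ) [Fact p.Prime], H1.map (algebraMap ℚ ℚ_[p]) =
      ((a 0 : ℤ) : ℚ_[p])⁻¹ • Hank n (mon ℚ_[p] a) (X * δ.map (algebraMap ℚ ℚ_[p])) := by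
    intro p hp
    rw [hH1def, hmapsmul, ← hank_map _ _ _ hFm, mon_map, Polynomial.map_mul, Polynomial.map_X]
  obtain ⟨S, hS⟩ := exists_finset ((a 0 : ℤ) : ℚ) h0' H H1 hH
  obtain ⟨f, hf⟩ : ∃ f : ℕ, f = P.factorial := ⟨_, rfl⟩
  have hf0 : 0 < f := by rw [hf]; exact Nat.factorial_pos P
  have hl' : ∀ (p : ℕ) [Fact p.Prime], ∃ g : Matrix (Fin n) (Fin n) ℚ_[p], g.det ≠ 0 ∧
      (∀ i j, ‖(g * H.map (algebraMap ℚ ℚ_[p]) * gᵀ) i j‖ ≤ 1) ∧
      (∀ i j, ‖(g * H1.map (algebraMap ℚ ℚ_[p]) * gᵀ) i j‖ ≤ 1) ∧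
      ‖(g * H.map (algebraMap ℚ ℚ_[p]) * gᵀ).det‖ ≤ ‖((a 0 : ℤ) : ℚ_[p])‖ ∧
      ‖((f : ℕ) : ℚ_[p])‖ ^ (4 * n) * ‖((a 0 : ℤ) : ℚ_[p])‖ ≤
        ‖(g * H.map (algebraMap ℚ ℚ_[p]) * gᵀ).det‖ := by
    intro p hp
    obtain ⟨g, e1, e2, e3, e4, e5⟩ := local_pair hn he P hP a h0 hl p (h2 p) (h3 p hp.out)
      (δ.map (algebraMap ℚ ℚ_[p])) (hcp p) (hloc p)
    rw [← hHp p] at e2 e4 e5
    rw [← hH1p p] at e3
    rw [← hf] at e5
    exact ⟨g, e1, e2, e3, e4, e5⟩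
  choose g hg1 hg2 hg3 hg4 hg5 using hl'
  obtain ⟨G, hG, hGS, hGN⟩ := glue S (fun p _ => g p) (fun p _ _ => hg1 p)
  -- the transformed matrices at each prime
  have key : ∀ (p : ℕ) [Fact p.Prime],
      (∀ i j, ‖((G * H * Gᵀ).map (algebraMap ℚ ℚ_[p])) i j‖ ≤ 1) ∧
      (∀ i j, ‖((G * H1 * Gᵀ).map (algebraMap ℚ ℚ_[p])) i j‖ ≤ 1) ∧
      ‖((G * H * Gᵀ).map (algebraMap ℚ ℚ_[p])).det‖ ≤ ‖((a 0 : ℤ) : ℚ_[p])‖ ∧
      ‖((f : ℕ) : ℚ_[p])‖ ^ (4 * n) * ‖((a 0 : ℤ) : ℚ_[p])‖ ≤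
        ‖((G * H * Gᵀ).map (algebraMap ℚ ℚ_[p])).det‖ := by
    intro p hp
    have hm : ∀ H : Matrix (Fin n) (Fin n) ℚ, (G * H * Gᵀ).map (algebraMap ℚ ℚ_[p]) =
        G.map (algebraMap ℚ ℚ_[p]) * H.map (algebraMap ℚ ℚ_[p]) *
          (G.map (algebraMap ℚ ℚ_[p]))ᵀ := by
      intro H
      rw [Matrix.map_mul, Matrix.map_mul, Matrix.transpose_map]
    rw [hm, hm]
    by_cases hpS : p ∈ S
    · obtain ⟨hU1, hU2⟩ := hGS p hpS
      obtain ⟨U, hU⟩ : ∃ U, U = G.map (algebraMap ℚ ℚ_[p]) * (g p)⁻¹ := ⟨_, rfl⟩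
      rw [← hU] at hU1 hU2
      have hUg : G.map (algebraMap ℚ ℚ_[p]) = U * g p := by
        rw [hU, Matrix.mul_assoc, nonsing_inv_mul _ (isUnit_iff_ne_zero.2 (hg1 p)),
          Matrix.mul_one]
      have he : ∀ V : Matrix (Fin n) (Fin n) ℚ_[p], (U * g p) * V * (U * g p)ᵀ =
          U * (g p * V * (g p)ᵀ) * Uᵀ := by
        intro V
        rw [transpose_mul]
        simp only [Matrix.mul_assoc]
      rw [hUg, he, he]
      refine ⟨norm_congr_le_one hU1 (hg2 p), norm_congr_le_one hU1 (hg3 p), ?_, ?_⟩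
      · rw [norm_congr_det hU2]; exact hg4 p
      · rw [norm_congr_det hU2]; exact hg5 p
    · obtain ⟨hU1, hU2⟩ := hGN p hpS
      obtain ⟨h1, h2, h3⟩ := hS p hpS
      rw [map_intCast] at h3
      refine ⟨norm_congr_le_one hU1 h1, norm_congr_le_one hU1 h2, ?_, ?_⟩
      · rw [norm_congr_det hU2]; exact h3.le
      · rw [norm_congr_det hU2, h3]
        exact mul_le_of_le_one_left (norm_nonneg _)
          (pow_le_one₀ (norm_nonneg _) (norm_nat_le_one _))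
  have hA : ∀ i j, ∃ z : ℤ, (z : ℚ) = (G * H * Gᵀ) i j := fun i j =>
    int_of_norm_le_one _ fun p _ => (key p).1 i j
  have hB : ∀ i j, ∃ z : ℤ, (z : ℚ) = (G * H1 * Gᵀ) i j := fun i j =>
    int_of_norm_le_one _ fun p _ => (key p).2.1 i j
  choose A hA using hA
  choose B hB using hB
  have hAm : (Matrix.of A).map (Int.cast : ℤ → ℚ) = G * H * Gᵀ := by
    ext i j; exact hA i j
  have hBm : (Matrix.of B).map (Int.cast : ℤ → ℚ) = G * H1 * Gᵀ := by
    ext i j; exact hB i j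
  have hdet : (((Matrix.of A).det : ℤ) : ℚ) = (G * H * Gᵀ).det := by
    rw [← hAm]
    exact (Int.castRingHom ℚ).map_det (Matrix.of A)
  -- the norm of the class
  have hsq : IsSquare (((a 0 : ℤ) : ℚ) * (mulMat n (mon ℚ a) δ).det) := by
    apply rat_sq
    intro p _ hp2
    have hp0 : ((a 0 : ℤ) : ℚ_[p]) ≠ 0 := by exact_mod_cast h0
    obtain ⟨h', -, hcl⟩ := hloc p hp2
    have h := norm_sq he a hp0 (δ.map (algebraMap ℚ ℚ_[p])) h' hcl
    have e1 : (mulMat n (mon ℚ_[p] a) (δ.map (algebraMap ℚ ℚ_[p]))).det =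
        algebraMap ℚ ℚ_[p] (mulMat n (mon ℚ a) δ).det := by
      rw [← mon_map (algebraMap ℚ ℚ_[p]) a, HankL.mulMat_map _ _ _ hFm,
        ← RingHom.mapMatrix_apply, ← RingHom.map_det]
    rw [e1] at h
    have e2 : ((((a 0 : ℤ) : ℚ) * (mulMat n (mon ℚ a) δ).det : ℚ) : ℚ_[p]) =
        ((a 0 : ℤ) : ℚ_[p]) * algebraMap ℚ ℚ_[p] (mulMat n (mon ℚ a) δ).det := by
      rw [eq_ratCast]; push_cast; ring
    rw [e2]
    exact h
  obtain ⟨ρ, hρ⟩ := hsq
  obtain ⟨q, hq⟩ : ∃ q : ℚ, q = c ^ (n / 2 + 1) * G.det * ρ := ⟨_, rfl⟩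
  have hdq : (((Matrix.of A).det : ℤ) : ℚ) = (-1) ^ (n / 2) * (q ^ 2 * ((a 0 : ℤ) : ℚ)) := by
    have e1 := HankL.hank_mul (mon ℚ a) 1 δ hFm hFn
    rw [one_mul] at e1
    rw [hdet, hHdef, ← smul_congr, det_smul_congr, e1, det_mul, HankL.hank_one_det _ hFm hFn,
      triangle_even' he]
    have e2 : (mulMat n (mon ℚ a) δ).det = c * (ρ * ρ) := by
      rw [← hρ, hc, ← mul_assoc, inv_mul_cancel₀ h0', one_mul]
    have e3 : ((a 0 : ℤ) : ℚ) * c = 1 := by rw [hc, mul_inv_cancel₀ h0']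
    have e4 : c ^ n * c ^ 2 = (c ^ (n / 2 + 1)) ^ 2 := by
      rw [← pow_add, ← pow_mul]
      congr 1
      obtain ⟨m, rfl⟩ := he
      omega
    rw [e2, hq]
    calc c ^ n * (G.det ^ 2 * (c * (ρ * ρ) * (-1) ^ (n / 2))) =
        (((a 0 : ℤ) : ℚ) * c) * (c ^ n * c) * (G.det ^ 2 * (ρ * ρ) * (-1) ^ (n / 2)) := by
          rw [e3]; ring
      _ = (c ^ n * c ^ 2) * ((a 0 : ℤ) : ℚ) * (G.det ^ 2 * (ρ * ρ) * (-1) ^ (n / 2)) := by ring
      _ = _ := by rw [e4]; ring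
  have hdet0 : (((Matrix.of A).det : ℤ) : ℚ) ≠ 0 := by
    rw [hdet, det_mul, det_mul, det_transpose]
    exact mul_ne_zero (mul_ne_zero hG hH) hG
  have hq0 : q ≠ 0 := by
    rintro rfl
    apply hdet0
    rw [hdq]; ring
  have hnorm : ∀ (p : ℕ) [Fact p.Prime],
      ‖((G * H * Gᵀ).map (algebraMap ℚ ℚ_[p])).det‖ =
        ‖algebraMap ℚ ℚ_[p] q‖ ^ 2 * ‖((a 0 : ℤ) : ℚ_[p])‖ := by
    intro p hp
    have e : ((G * H * Gᵀ).map (algebraMap ℚ ℚ_[p])).det =
        algebraMap ℚ ℚ_[p] (((Matrix.of A).det : ℤ) : ℚ) := by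
      rw [hdet, ← RingHom.mapMatrix_apply, ← RingHom.map_det]
    rw [e, hdq, map_mul, map_mul, map_pow, map_pow, map_neg, map_one, map_intCast, norm_mul,
      norm_mul, norm_pow, norm_pow, norm_neg, norm_one, one_pow, one_mul]
  have hapos : ∀ (p : ℕ) [Fact p.Prime], 0 < ‖((a 0 : ℤ) : ℚ_[p])‖ := by
    intro p _
    rw [norm_pos_iff]
    exact_mod_cast h0
  obtain ⟨z, hz⟩ := int_of_norm_le_one q (by
    intro p hp
    have h := (key p).2.2.1
    rw [hnorm p] at h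
    have h5 : ‖algebraMap ℚ ℚ_[p] q‖ ^ 2 ≤ 1 := by
      by_contra h6
      rw [not_le] at h6
      nlinarith [hapos p]
    exact (sq_le_one_iff₀ (norm_nonneg _)).1 h5)
  obtain ⟨w, hw⟩ := int_of_norm_le_one (((f ^ (2 * n) : ℕ) : ℚ) / q) (by
    intro p hp
    have h := (key p).2.2.2
    rw [hnorm p] at h
    have h5 : (‖((f : ℕ) : ℚ_[p])‖ ^ (2 * n)) ^ 2 ≤ ‖algebraMap ℚ ℚ_[p] q‖ ^ 2 := by
      rw [← pow_mul, show 2 * n * 2 = 4 * n by ring]
      exact le_of_mul_le_mul_right h (hapos p)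
    have h6 : ‖((f : ℕ) : ℚ_[p])‖ ^ (2 * n) ≤ ‖algebraMap ℚ ℚ_[p] q‖ :=
      (sq_le_sq₀ (by positivity) (norm_nonneg _)).1 h5
    rw [map_div₀, norm_div, map_natCast, Nat.cast_pow, norm_pow]
    exact div_le_one_of_le₀ h6 (norm_nonneg _))
  have hz0 : z ≠ 0 := by
    rintro rfl
    apply hq0
    rw [← hz, Int.cast_zero]
  rw [eq_div_iff hq0, ← hz] at hw
  have hw' : w * z = ((f ^ (2 * n) : ℕ) : ℤ) := by exact_mod_cast hw
  refine ⟨Matrix.of A, Matrix.of B, z.natAbs, Int.natAbs_pos.2 hz0, ?_,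
    ⟨G, hG, by rw [hAm, hHdef, smul_congr, hc], by rw [hBm, hH1def, smul_congr, hc]⟩, ?_⟩
  · rw [← hf]
    apply Nat.le_of_dvd (pow_pos hf0 _)
    have : z ∣ ((f ^ (2 * n) : ℕ) : ℤ) := ⟨w, by rw [← hw']; ring⟩
    exact Int.natAbs_dvd_natAbs.2 this
  · rw [Int.natAbs_sq]
    rw [← hz] at hdq
    exact_mod_cast hdq

end Stoll308.DQ
end

section
set_option autoImplicit false

/-!
The local condition for the two pairs.
-/

namespace Stoll308.DQ

open Polynomial Finset Matrix BG BF SC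

namespace LC

lemma coprime_eval {K : Type*} [Field K] {s f : K[X]} {x : K} (h : IsCoprime s f)
    (hf : f.eval x = 0) : s.eval x ≠ 0 := by
  obtain ⟨b, c, hbc⟩ := h
  have h9 := congrArg (fun P : K[X] => P.eval x) hbc
  simp only [eval_add, eval_mul, eval_one] at h9
  rw [hf, mul_zero, add_zero] at h9
  intro h10
  rw [h10, mul_zero] at h9
  exact zero_ne_one h9

/-- The value of `h` at a root of `f`. -/
lemma cls_eval {K : Type*} [Field K] {f δ h : K[X]} {c x : K} (hc : Cls f (C c * δ) h)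
    (hf : f.eval x = 0) : h.eval x ≠ 0 ∧ ∃ s : K, s ≠ 0 ∧ h.eval x = c * δ.eval x * s ^ 2 := by
  obtain ⟨-, hco, -, s, hs, q, hq⟩ := hc
  refine ⟨coprime_eval hco hf, s.eval x, coprime_eval hs hf, ?_⟩
  have h9 := congrArg (Polynomial.eval x) hq
  simp only [eval_sub, eval_mul, eval_pow, eval_C, hf, zero_mul] at h9
  linear_combination h9

/-- A unit which is a square in `ℚ_l` is a square modulo `l`. -/
lemma unit_sq_mod {l : ℕ} [hl : Fact l.Prime] {e : ℤ_[l]} (he : PadicInt.toZMod e ≠ 0)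
    (hs : IsSquare (e : ℚ_[l])) : IsSquare (PadicInt.toZMod e) := by
  obtain ⟨z, hz⟩ := hs
  have hunit : ‖e‖ = 1 := by
    rw [← PadicInt.isUnit_iff]
    by_contra h9
    apply he
    rw [← RingHom.mem_ker, PadicInt.ker_toZMod, IsLocalRing.mem_maximalIdeal, mem_nonunits_iff]
    exact h9
  have h1 : ‖z‖ = 1 := by
    have h2 : ‖z‖ * ‖z‖ = 1 := by
      rw [← norm_mul, ← hz, ← PadicInt.norm_def, hunit]
    nlinarith [norm_nonneg z]
  refine ⟨PadicInt.toZMod (⟨z, h1.le⟩ : ℤ_[l]), ?_⟩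
  rw [← map_mul]
  congr 1
  apply Subtype.ext
  rw [PadicInt.coe_mul]
  exact hz

end LC

open LC in
theorem lcond {n m : ℕ} (hn : 4 ≤ n) (he : Even n) (hm : 4 ≤ m) (hem : Even m)
    (a : Fin (n + 1) → ℤ) (b : Fin (m + 1) → ℤ) (h0 : a 0 ≠ 0) (h0' : b 0 ≠ 0)
    (δ ε : ℚ[X]) (hδ : IsCoprime δ (GZ ℚ a)) (hε : IsCoprime ε (GZ ℚ b))
    (l : ℕ) [hl : Fact l.Prime] (h2 : l ≠ 2)
    (hloc : DLoc (GZ ℚ_[l] a) (GZ ℚ_[l] b) (δ.map (algebraMap ℚ ℚ_[l]))
      (ε.map (algebraMap ℚ ℚ_[l])))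
    (A B : Matrix (Fin n) (Fin n) ℤ) (A' B' : Matrix (Fin m) (Fin m) ℤ)
    (h : BF.IsPair a δ A B) (hdet : A.det = (-1) ^ (n / 2) * a 0)
    (h' : BF.IsPair b ε A' B') (hdet' : A'.det = (-1) ^ (m / 2) * b 0) :
    ¬ Bad l A B A' B' := by
  rintro ⟨t, h1, h1', h3, h3', h5, hl', i, j, hleg⟩
  have hne : (((-1) ^ ((n + m) / 2) * ((B - t • A).adjugate i i *
      (B' - t • A').adjugate j j) : ℤ) : ZMod l) ≠ 0 := by
    intro h9
    rw [(legendreSym.eq_zero_iff l _).mpr h9] at hleg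
    omega
  have hi : ¬ (l : ℤ) ∣ (B - t • A).adjugate i i := by
    intro h9
    apply hne
    rw [ZMod.intCast_zmod_eq_zero_iff_dvd]
    exact Dvd.dvd.mul_left (Dvd.dvd.mul_right h9 _) _
  have hj : ¬ (l : ℤ) ∣ (B' - t • A').adjugate j j := by
    intro h9
    apply hne
    rw [ZMod.intCast_zmod_eq_zero_iff_dvd]
    exact Dvd.dvd.mul_left (Dvd.dvd.mul_left h9 _) _
  obtain ⟨θ, hθt, hθ, hθd, hθi⟩ := adj_class hn he a h0 δ hδ l h2 A B h hdet t h1 h3
  obtain ⟨ρ, hρt, hρ, hρd, hρi⟩ := adj_class hm hem b h0' ε hε l h2 A' B' h' hdet' t h1' h3'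
  obtain ⟨u, c₁, hu, hc₁, huc⟩ := hθi i hi
  obtain ⟨u', c₂, hu', hc₂, huc'⟩ := hρi j hj
  have hdist := root_dist he hem a b l A B A' B' (BF.IsPair.hasChar h0 h hdet)
    (BF.IsPair.hasChar h0' h' hdet') t h5 θ ρ hθt hρt hθ hρ
  obtain ⟨g, c, hc, hcl, hcl'⟩ := hloc
  have hq1 : toQ (GZ ℤ_[l] a) = GZ ℚ_[l] a := BF.LCond.lc_GZ_map _ a
  have hq2 : toQ (GZ ℤ_[l] b) = GZ ℚ_[l] b := BF.LCond.lc_GZ_map _ b
  have hcoe : ∀ (P : ℤ_[l][X]) (x : ℤ_[l]), (toQ P).eval (x : ℚ_[l]) =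
      ((P.eval x : ℤ_[l]) : ℚ_[l]) := by
    intro P x
    have h5 : (x : ℚ_[l]) = algebraMap ℤ_[l] ℚ_[l] x := rfl
    rw [h5, eval_map, eval₂_at_apply]
    rfl
  have hr1 : (GZ ℚ_[l] a).eval (θ : ℚ_[l]) = 0 := by
    rw [← hq1, hcoe, hθ]
    rfl
  have hr2 : (GZ ℚ_[l] b).eval (ρ : ℚ_[l]) = 0 := by
    rw [← hq2, hcoe, hρ]
    rfl
  have hlink := link l h2 (GZ ℤ_[l] a) (GZ ℤ_[l] b) θ ρ hθ hρ hθd hρd hdist g
    (by rw [hq1]; exact hcl.2.2.1) (by rw [hq2]; exact hcl'.2.2.1)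
  obtain ⟨hg1, s, hs, hgs⟩ := cls_eval hcl hr1
  obtain ⟨hg2, s', hs', hgs'⟩ := cls_eval hcl' hr2
  obtain ⟨z, hz⟩ := hlink
  have hsq : IsSquare (((u * u' : ℤ_[l]) : ℚ_[l])) := by
    have hz0 : z ≠ 0 := by
      rintro rfl
      rw [mul_zero] at hz
      exact mul_ne_zero hg1 hg2 hz
    refine ⟨c * s * s' * c₁ * c₂ / z, ?_⟩
    rw [PadicInt.coe_mul]
    set D := (δ.map (algebraMap ℚ ℚ_[l])).eval (θ : ℚ_[l]) with hD
    set E := (ε.map (algebraMap ℚ ℚ_[l])).eval (ρ : ℚ_[l]) with hE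
    have e1 : (c * s * s' * c₁ * c₂ / z) * (c * s * s' * c₁ * c₂ / z) =
        (c * s * s') ^ 2 * c₁ ^ 2 * c₂ ^ 2 / (z * z) := by
      field_simp
    rw [e1, ← huc, ← huc', ← hz, hgs, hgs']
    have hD0 : D ≠ 0 := by
      intro h9
      rw [hgs, h9, mul_zero, zero_mul] at hg1
      exact hg1 rfl
    have hE0 : E ≠ 0 := by
      intro h9
      rw [hgs', h9, mul_zero, zero_mul] at hg2
      exact hg2 rfl
    field_simp
  have hmod : PadicInt.toZMod (u * u') = (((-1) ^ ((n + m) / 2) * ((B - t • A).adjugate i i *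
      (B' - t • A').adjugate j j) : ℤ) : ZMod l) := by
    rw [map_mul, hu, hu', ← Int.cast_mul]
    congr 1
    obtain ⟨k, hk⟩ := he
    obtain ⟨k', hk'⟩ := hem
    have e1 : n / 2 = k := by omega
    have e2 : m / 2 = k' := by omega
    have e3 : (n + m) / 2 = k + k' := by omega
    rw [e1, e2, e3]
    ring
  have hfin := unit_sq_mod (by rw [hmod]; exact hne) hsq
  rw [hmod] at hfin
  have h9 := (legendreSym.eq_one_iff l hne).mpr hfin
  have h10 : legendreSym l ((-1) ^ ((n + m) / 2) * ((B - t • A).adjugate i i *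
      (B' - t • A').adjugate j j)) = -1 := hleg
  rw [h10] at h9
  omega

end Stoll308.DQ
end

section
set_option autoImplicit false

/-!
The integral pair for a fixed polynomial.
-/

namespace Stoll308.FQ

open Polynomial Finset Matrix BG BF SC DQ

namespace PairQAux

open BF.PairEx SC.PairE SC.Loc2

lemma exists_scale2 {K : Type*} [Field K] {n : ℕ} (hn : 2 ≤ n) {a : K} (ha : a ≠ 0) :
    ∃ e c : K, e ≠ 0 ∧ c ≠ 0 ∧ e ^ 2 * a ^ (n - 2) = c := by
  rcases Nat.even_or_odd n with ⟨m, hm⟩ | ⟨m, hm⟩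
  · refine ⟨(a ^ (m - 1))⁻¹, 1, inv_ne_zero (pow_ne_zero _ ha), one_ne_zero, ?_⟩
    have h : n - 2 = (m - 1) * 2 := by omega
    rw [h, pow_mul, ← mul_pow, inv_mul_cancel₀ (pow_ne_zero _ ha), one_pow]
  · refine ⟨(a ^ (m - 1))⁻¹, a, inv_ne_zero (pow_ne_zero _ ha), ha, ?_⟩
    have h : n - 2 = (m - 1) * 2 + 1 := by omega
    rw [h, pow_succ a, pow_mul, ← mul_assoc, ← mul_pow, inv_mul_cancel₀ (pow_ne_zero _ ha),
      one_pow, one_mul]

theorem loc_two2 {n : ℕ} (hn : 2 ≤ n) (p : ℕ) [Fact p.Prime] (a : Fin (n + 1) → ℤ)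
    (h0 : a 0 ≠ 0) (δ : ℚ_[p][X]) (hδ : IsCoprime δ (GZ ℚ_[p] a)) :
    ∃ G : Matrix (Fin n) (Fin n) ℚ_[p], G.det ≠ 0 ∧
      (∀ i j, ‖(G * ((a 0 : ℚ_[p])⁻¹ • Hank n (mon ℚ_[p] a) δ) * Gᵀ) i j‖ ≤ 1) ∧
      (∀ i j, ‖(G * Hank n (mon ℚ_[p] a) (X * δ) * Gᵀ) i j‖ ≤ 1) ∧
      ((p : ℝ) ^ n)⁻¹ ≤
        ‖(G * ((a 0 : ℚ_[p])⁻¹ • Hank n (mon ℚ_[p] a) δ) * Gᵀ).det‖ := by
  have ha : (a 0 : ℚ_[p]) ≠ 0 := by exact_mod_cast h0
  obtain ⟨e, c, he, hc, hec⟩ := exists_scale2 hn ha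
  set α : ℚ_[p] := (a 0 : ℚ_[p]) with hα
  -- the polynomial `δ'`
  set δ' : ℚ_[p][X] := C c * δ.comp (C α⁻¹ * X) with hδ'
  have hcomp : δ'.comp (C α * X) = C c * δ := by
    rw [hδ', mul_comp, C_comp, comp_assoc]
    congr 1
    rw [mul_comp, C_comp, X_comp, ← mul_assoc, ← C_mul, inv_mul_cancel₀ ha, C_1, one_mul, comp_X]
  have hF : toQ (FZ ℤ_[p] (OF.mcf a)) = FZ ℚ_[p] (OF.mcf a) := FZ_map _ _
  have hcop : IsCoprime δ' (toQ (FZ ℤ_[p] (OF.mcf a))) := by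
    rw [hF]
    have h1 : FZ ℚ_[p] (OF.mcf a) =
        (C (α ^ n) * mon ℚ_[p] a).comp (C α⁻¹ * X) := by
      rw [← OF.FZ_mcf_comp (by omega) a ha, comp_assoc]
      have : (C (a 0 : ℚ_[p]) * X).comp (C α⁻¹ * X) = X := by
        rw [mul_comp, C_comp, X_comp, ← mul_assoc, ← C_mul, ← hα, mul_inv_cancel₀ ha, C_1, one_mul]
      rw [this, comp_X]
    obtain ⟨u, v, huv⟩ := hδ
    refine ⟨C c⁻¹ * u.comp (C α⁻¹ * X), C (α * (α ^ n)⁻¹) * v.comp (C α⁻¹ * X), ?_⟩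
    have h2 := congrArg (fun q : ℚ_[p][X] => q.comp (C α⁻¹ * X)) huv
    simp only [add_comp, mul_comp, one_comp] at h2
    have h3 : (mon ℚ_[p] a) = C α⁻¹ * GZ ℚ_[p] a := rfl
    rw [h1, hδ', h3, mul_comp, mul_comp, C_comp, C_comp, ← h2]
    have h4 : (C c⁻¹ : ℚ_[p][X]) * C c = 1 := by
      rw [← C_mul, inv_mul_cancel₀ hc, C_1]
    have h5 : (C (α * (α ^ n)⁻¹) : ℚ_[p][X]) * (C (α ^ n) * C α⁻¹) = 1 := by
      rw [← C_mul, ← C_mul]
      have : α * (α ^ n)⁻¹ * (α ^ n * α⁻¹) = 1 := by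
        field_simp
      rw [this, C_1]
    linear_combination (u.comp (C α⁻¹ * X) * δ.comp (C α⁻¹ * X)) * h4 +
      (v.comp (C α⁻¹ * X) * (GZ ℚ_[p] a).comp (C α⁻¹ * X)) * h5
  obtain ⟨G', hG', hint, hdet⟩ := max_lattice (by omega) p (FZ ℤ_[p] (OF.mcf a))
    (FZ_monic _) (FZ_natDegree _) δ' hcop
  rw [hF] at hint hdet
  set v : Fin n → ℚ_[p] := fun i => α ^ (i : ℕ) with hv
  have hn1 : n - 1 = (n - 2) + 1 := by omega
  have k0 : (e • (G' * diagonal v)) * ((a 0 : ℚ_[p])⁻¹ • Hank n (mon ℚ_[p] a) δ) *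
      (e • (G' * diagonal v))ᵀ = G' * Hank n (FZ ℚ_[p] (OF.mcf a)) δ' * G'ᵀ := by
    rw [conj_eq, hank_eq (by omega) a ha δ δ' c hcomp, mul_smul_comm, smul_mul_assoc,
      mul_smul_comm, smul_mul_assoc, mul_smul_comm, smul_mul_assoc, smul_smul]
    congr 1
    rw [← hα, hn1, pow_succ, ← hec]
    field_simp
    ring
  have k1 : (e • (G' * diagonal v)) * Hank n (mon ℚ_[p] a) (X * δ) *
      (e • (G' * diagonal v))ᵀ = G' * Hank n (FZ ℚ_[p] (OF.mcf a)) (X * δ') * G'ᵀ := by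
    have hcomp' : (X * δ').comp (C (a 0 : ℚ_[p]) * X) = C (α * c) * (X * δ) := by
      rw [mul_comp, X_comp, ← hα, hcomp, C_mul]
      ring
    rw [conj_eq, hank_eq (by omega) a ha (X * δ) (X * δ') (α * c) hcomp', mul_smul_comm,
      smul_mul_assoc]
    congr 1
    rw [← hα, hn1, pow_succ, ← hec]
    field_simp
    ring
  refine ⟨e • (G' * diagonal v), ?_, ?_, ?_, ?_⟩
  · rw [det_smul, det_mul, det_diagonal]
    exact mul_ne_zero (pow_ne_zero _ he)
      (mul_ne_zero hG' (Finset.prod_ne_zero_iff.2 fun i _ => pow_ne_zero _ ha))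
  · intro i j
    rw [k0]
    have := hint 0 i j
    rwa [pow_zero, one_mul] at this
  · intro i j
    rw [k1]
    have := hint 1 i j
    rwa [pow_one] at this
  · rw [k0]
    exact hdet

/-- The local lattice at the primes not dividing the leading coefficient. -/
theorem loc_unit {n : ℕ} (hn : 2 ≤ n) (p : ℕ) [Fact p.Prime] (hp : p ≠ 2)
    (a : Fin (n + 1) → ℤ) (hcs : ¬ (p : ℤ) ∣ a 0)
    (δ h : ℚ_[p][X]) (hh : Prim p h) (hc : Cls (GZ ℚ_[p] a) δ h) :
    ∃ G : Matrix (Fin n) (Fin n) ℚ_[p], G.det ≠ 0 ∧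
      (∀ i j, ‖(G * ((a 0 : ℚ_[p])⁻¹ • Hank n (mon ℚ_[p] a) δ) * Gᵀ) i j‖ ≤ 1) ∧
      (∀ i j, ‖(G * ((a 0 : ℚ_[p])⁻¹ • Hank n (mon ℚ_[p] a) (X * δ)) * Gᵀ) i j‖ ≤ 1) ∧
      ‖(G * ((a 0 : ℚ_[p])⁻¹ • Hank n (mon ℚ_[p] a) δ) * Gᵀ).det‖ = ‖(a 0 : ℚ_[p])‖ := by
  obtain ⟨G, hG, h1, h2⟩ := DQ.good_unit hn p hp a hcs δ h hh hc
  have hn1 : ‖((a 0 : ℤ) : ℚ_[p])‖ = 1 := norm_int_eq_one hcs
  have key : ∀ M : Matrix (Fin n) (Fin n) ℚ_[p],
      G * ((a 0 : ℚ_[p])⁻¹ • M) * Gᵀ = (a 0 : ℚ_[p])⁻¹ • (G * M * Gᵀ) := by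
    intro M
    rw [Matrix.mul_smul, Matrix.smul_mul]
  refine ⟨G, hG, ?_, ?_, ?_⟩
  · intro i j
    rw [key, Matrix.smul_apply, norm_smul, norm_inv, hn1, inv_one, one_mul]
    have := h1 0 i j
    rwa [pow_zero, one_mul] at this
  · intro i j
    rw [key, Matrix.smul_apply, norm_smul, norm_inv, hn1, inv_one, one_mul]
    have := h1 1 i j
    rwa [pow_one] at this
  · rw [key, Matrix.det_smul, norm_mul, norm_pow, norm_inv, hn1, inv_one, one_pow, one_mul, h2]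

/-- The local lattice at all primes, `n` even. -/
theorem local_pair {n : ℕ} (hn : 2 ≤ n) (he : Even n) (P : ℕ) (hP : 2 ≤ P)
    (a : Fin (n + 1) → ℤ) (h0 : a 0 ≠ 0)
    (p : ℕ) [hp : Fact p.Prime]
    (h2 : p ≤ P → ‖((P.factorial : ℚ_[p]) ^ 2)‖ ≤ ‖(a 0 : ℚ_[p])‖)
    (h3 : P < p → ¬ (p : ℤ) ∣ a 0)
    (δ : ℚ_[p][X]) (hδ : IsCoprime δ (GZ ℚ_[p] a)) 
    (hloc : p ≠ 2 → ∃ h : ℚ_[p][X], Prim p h ∧ Cls (GZ ℚ_[p] a) δ h) :
    ∃ G : Matrix (Fin n) (Fin n) ℚ_[p], G.det ≠ 0 ∧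
      (∀ i j, ‖(G * ((a 0 : ℚ_[p])⁻¹ • Hank n (mon ℚ_[p] a) δ) * Gᵀ) i j‖ ≤ 1) ∧
      (∀ i j, ‖(G * ((a 0 : ℚ_[p])⁻¹ • Hank n (mon ℚ_[p] a) (X * δ)) * Gᵀ) i j‖ ≤ 1) ∧
      ‖(G * ((a 0 : ℚ_[p])⁻¹ • Hank n (mon ℚ_[p] a) δ) * Gᵀ).det‖ ≤ ‖(a 0 : ℚ_[p])‖ ∧
      ‖((P.factorial : ℕ) : ℚ_[p])‖ ^ (4 * n) * ‖(a 0 : ℚ_[p])‖ ≤
        ‖(G * ((a 0 : ℚ_[p])⁻¹ • Hank n (mon ℚ_[p] a) δ) * Gᵀ).det‖ := by
  have h0' : ((a 0 : ℤ) : ℚ_[p]) ≠ 0 := by exact_mod_cast h0
  rcases le_or_gt p P with hpP | hpP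
  · obtain ⟨G, hG, e1, e2, e3⟩ := loc_two2 hn p a h0 δ hδ
    obtain ⟨f, hf⟩ : ∃ f : ℚ_[p], f = ((P.factorial : ℕ) : ℚ_[p]) := ⟨_, rfl⟩
    have hf0 : f ≠ 0 := by
      rw [hf]; exact_mod_cast (Nat.factorial_pos P).ne'
    have hf1 : ‖f‖ ≤ (p : ℝ)⁻¹ := by rw [hf]; exact norm_factorial_le_inv hpP
    have hf2 : ‖f‖ ≤ 1 := by rw [hf]; exact norm_nat_le_one _
    have hfa : ‖f‖ ^ 2 ≤ ‖(a 0 : ℚ_[p])‖ := by
      have := h2 hpP
      rwa [norm_pow, ← hf] at this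
    have key : ∀ M : Matrix (Fin n) (Fin n) ℚ_[p],
        (f • G) * M * (f • G)ᵀ = (f ^ 2) • (G * M * Gᵀ) := by
      intro M
      rw [Matrix.transpose_smul, Matrix.smul_mul, Matrix.smul_mul, Matrix.mul_smul, smul_smul, sq]
    have hdet : ‖((f • G) * ((a 0 : ℚ_[p])⁻¹ • Hank n (mon ℚ_[p] a) δ) * (f • G)ᵀ).det‖ =
        ‖f‖ ^ (2 * n) *
          ‖(G * ((a 0 : ℚ_[p])⁻¹ • Hank n (mon ℚ_[p] a) δ) * Gᵀ).det‖ := by
      rw [key, Matrix.det_smul, Fintype.card_fin, norm_mul, norm_pow, norm_pow, pow_mul]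
    have hd1 : ‖(G * ((a 0 : ℚ_[p])⁻¹ • Hank n (mon ℚ_[p] a) δ) * Gᵀ).det‖ ≤ 1 :=
      det_norm_le_one _ e1
    refine ⟨f • G, ?_, ?_, ?_, ?_, ?_⟩
    · rw [Matrix.det_smul]
      exact mul_ne_zero (pow_ne_zero _ hf0) hG
    · intro i j
      rw [key, Matrix.smul_apply, smul_eq_mul, norm_mul, norm_pow]
      exact mul_le_one₀ (pow_le_one₀ (norm_nonneg _) hf2) (norm_nonneg _) (e1 i j)
    · intro i j
      have e4 : (f • G) * ((a 0 : ℚ_[p])⁻¹ • Hank n (mon ℚ_[p] a) (X * δ)) * (f • G)ᵀ =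
          (f ^ 2 * (a 0 : ℚ_[p])⁻¹) • (G * Hank n (mon ℚ_[p] a) (X * δ) * Gᵀ) := by
        rw [key, Matrix.mul_smul, Matrix.smul_mul, smul_smul]
      rw [e4, Matrix.smul_apply, smul_eq_mul, norm_mul, norm_mul, norm_pow, norm_inv]
      refine mul_le_one₀ ?_ (norm_nonneg _) (e2 i j)
      rw [← div_eq_mul_inv]
      exact div_le_one_of_le₀ hfa (norm_nonneg _)
    · rw [hdet]
      calc _ ≤ ‖f‖ ^ (2 * n) * 1 := by gcongr
        _ = ‖f‖ ^ (2 * n) := mul_one _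
        _ ≤ ‖f‖ ^ 2 := pow_le_pow_of_le_one (norm_nonneg _) hf2 (by omega)
        _ ≤ _ := hfa
    · rw [hdet, ← hf]
      have ha1 : ‖(a 0 : ℚ_[p])‖ ≤ 1 := Padic.norm_int_le_one _
      calc ‖f‖ ^ (4 * n) * ‖(a 0 : ℚ_[p])‖ ≤ ‖f‖ ^ (4 * n) * 1 := by gcongr
        _ = ‖f‖ ^ (4 * n) := mul_one _
        _ ≤ ‖f‖ ^ (2 * n + n) := pow_le_pow_of_le_one (norm_nonneg _) hf2 (by omega)
        _ = ‖f‖ ^ (2 * n) * ‖f‖ ^ n := pow_add _ _ _
        _ ≤ ‖f‖ ^ (2 * n) * ((p : ℝ)⁻¹) ^ n := by gcongr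
        _ = ‖f‖ ^ (2 * n) * ((p : ℝ) ^ n)⁻¹ := by rw [inv_pow]
        _ ≤ _ := by gcongr
  · have hp2 : p ≠ 2 := by omega
    obtain ⟨h, hh, hcl⟩ := hloc hp2
    obtain ⟨G, hG, e1, e2, e3⟩ := loc_unit hn p hp2 a (h3 hpP) δ h hh hcl
    refine ⟨G, hG, e1, e2, e3.le, ?_⟩
    rw [e3, norm_factorial_eq_one hpP, one_pow, one_mul]

theorem main {n : ℕ} (hn : 2 ≤ n) (he : Even n) (P : ℕ) (hP : 2 ≤ P)
    (a : Fin (n + 1) → ℤ) (h0 : a 0 ≠ 0)
    (h2 : ∀ (p : ℕ) [Fact p.Prime], p ≤ P → ‖((P.factorial : ℚ_[p]) ^ 2)‖ ≤ ‖(a 0 : ℚ_[p])‖)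
    (h3 : ∀ p : ℕ, p.Prime → P < p → ¬ (p : ℤ) ∣ a 0)
    (δ : ℚ[X]) (hδ : IsCoprime δ (GZ ℚ a))
    (hloc : ∀ (p : ℕ) [Fact p.Prime], p ≠ 2 →
      ∃ h : ℚ_[p][X], Prim p h ∧ Cls (GZ ℚ_[p] a) (δ.map (algebraMap ℚ ℚ_[p])) h) :
    ∃ (A B : Matrix (Fin n) (Fin n) ℤ) (N : ℕ), 0 < N ∧ N ≤ P.factorial ^ (2 * n) ∧
      BF.IsPair a δ A B ∧ A.det = (-1) ^ (n / 2) * ((N : ℤ) ^ 2 * a 0) := by
  have h0' : ((a 0 : ℤ) : ℚ) ≠ 0 := by exact_mod_cast h0
  have hFm : (mon ℚ a).Monic := mon_monic a h0'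
  have hFn : (mon ℚ a).natDegree = n := mon_natDegree a h0'
  have hδF : IsCoprime δ (mon ℚ a) := by
    refine hδ.of_isCoprime_of_dvd_right (mon_dvd a h0' dvd_rfl)
  have hcp : ∀ (p : ℕ) [Fact p.Prime],
      IsCoprime (δ.map (algebraMap ℚ ℚ_[p])) (GZ ℚ_[p] a) := by
    intro p _
    have := hδ.map (mapRingHom (algebraMap ℚ ℚ_[p]))
    rwa [coe_mapRingHom, GZ_map] at this
  obtain ⟨c, hc⟩ : ∃ c : ℚ, c = ((a 0 : ℤ) : ℚ)⁻¹ := ⟨_, rfl⟩
  have hc0 : c ≠ 0 := by rw [hc]; exact inv_ne_zero h0'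
  obtain ⟨H, hHdef⟩ : ∃ H, H = c • Hank n (mon ℚ a) δ := ⟨_, rfl⟩
  obtain ⟨H1, hH1def⟩ : ∃ H, H = c • Hank n (mon ℚ a) (X * δ) := ⟨_, rfl⟩
  have hHk : (Hank n (mon ℚ a) δ).det ≠ 0 := hank_det_ne_zero _ _ hFm hFn hδF
  have hH : H.det ≠ 0 := by
    rw [hHdef, Matrix.det_smul]
    exact mul_ne_zero (pow_ne_zero _ hc0) hHk
  have hmapsmul : ∀ (p : ℕ) [Fact p.Prime] (M : Matrix (Fin n) (Fin n) ℚ),
      (c • M).map (algebraMap ℚ ℚ_[p]) = ((a 0 : ℤ) : ℚ_[p])⁻¹ • M.map (algebraMap ℚ ℚ_[p]) := by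
    intro p hp M
    ext i j
    rw [Matrix.map_apply, Matrix.smul_apply, Matrix.smul_apply, Matrix.map_apply, smul_eq_mul,
      smul_eq_mul, map_mul, hc, map_inv₀, map_intCast]
  have hHp : ∀ (p : ℕ) [Fact p.Prime], H.map (algebraMap ℚ ℚ_[p]) =
      ((a 0 : ℤ) : ℚ_[p])⁻¹ • Hank n (mon ℚ_[p] a) (δ.map (algebraMap ℚ ℚ_[p])) := by
    intro p hp
    rw [hHdef, hmapsmul, ← hank_map _ _ _ hFm, mon_map]
  have hH1p : ∀ (p : ℕ) [Fact p.Prime], H1.map (algebraMap ℚ ℚ_[p]) =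
      ((a 0 : ℤ) : ℚ_[p])⁻¹ • Hank n (mon ℚ_[p] a) (X * δ.map (algebraMap ℚ ℚ_[p])) := by
    intro p hp
    rw [hH1def, hmapsmul, ← hank_map _ _ _ hFm, mon_map, Polynomial.map_mul, Polynomial.map_X]
  obtain ⟨S, hS⟩ := exists_finset ((a 0 : ℤ) : ℚ) h0' H H1 hH
  obtain ⟨f, hf⟩ : ∃ f : ℕ, f = P.factorial := ⟨_, rfl⟩
  have hf0 : 0 < f := by rw [hf]; exact Nat.factorial_pos P
  have hl' : ∀ (p : ℕ) [Fact p.Prime], ∃ g : Matrix (Fin n) (Fin n) ℚ_[p], g.det ≠ 0 ∧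
      (∀ i j, ‖(g * H.map (algebraMap ℚ ℚ_[p]) * gᵀ) i j‖ ≤ 1) ∧
      (∀ i j, ‖(g * H1.map (algebraMap ℚ ℚ_[p]) * gᵀ) i j‖ ≤ 1) ∧
      ‖(g * H.map (algebraMap ℚ ℚ_[p]) * gᵀ).det‖ ≤ ‖((a 0 : ℤ) : ℚ_[p])‖ ∧
      ‖((f : ℕ) : ℚ_[p])‖ ^ (4 * n) * ‖((a 0 : ℤ) : ℚ_[p])‖ ≤
        ‖(g * H.map (algebraMap ℚ ℚ_[p]) * gᵀ).det‖ := by
    intro p hp
    obtain ⟨g, e1, e2, e3, e4, e5⟩ := local_pair hn he P hP a h0 p (h2 p) (h3 p hp.out)
      (δ.map (algebraMap ℚ ℚ_[p])) (hcp p) (hloc p)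
    rw [← hHp p] at e2 e4 e5
    rw [← hH1p p] at e3
    rw [← hf] at e5
    exact ⟨g, e1, e2, e3, e4, e5⟩
  choose g hg1 hg2 hg3 hg4 hg5 using hl'
  obtain ⟨G, hG, hGS, hGN⟩ := glue S (fun p _ => g p) (fun p _ _ => hg1 p)
  -- the transformed matrices at each prime
  have key : ∀ (p : ℕ) [Fact p.Prime],
      (∀ i j, ‖((G * H * Gᵀ).map (algebraMap ℚ ℚ_[p])) i j‖ ≤ 1) ∧
      (∀ i j, ‖((G * H1 * Gᵀ).map (algebraMap ℚ ℚ_[p])) i j‖ ≤ 1) ∧
      ‖((G * H * Gᵀ).map (algebraMap ℚ ℚ_[p])).det‖ ≤ ‖((a 0 : ℤ) : ℚ_[p])‖ ∧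
      ‖((f : ℕ) : ℚ_[p])‖ ^ (4 * n) * ‖((a 0 : ℤ) : ℚ_[p])‖ ≤
        ‖((G * H * Gᵀ).map (algebraMap ℚ ℚ_[p])).det‖ := by
    intro p hp
    have hm : ∀ H : Matrix (Fin n) (Fin n) ℚ, (G * H * Gᵀ).map (algebraMap ℚ ℚ_[p]) =
        G.map (algebraMap ℚ ℚ_[p]) * H.map (algebraMap ℚ ℚ_[p]) *
          (G.map (algebraMap ℚ ℚ_[p]))ᵀ := by
      intro H
      rw [Matrix.map_mul, Matrix.map_mul, Matrix.transpose_map]
    rw [hm, hm]
    by_cases hpS : p ∈ S
    · obtain ⟨hU1, hU2⟩ := hGS p hpS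
      obtain ⟨U, hU⟩ : ∃ U, U = G.map (algebraMap ℚ ℚ_[p]) * (g p)⁻¹ := ⟨_, rfl⟩
      rw [← hU] at hU1 hU2
      have hUg : G.map (algebraMap ℚ ℚ_[p]) = U * g p := by
        rw [hU, Matrix.mul_assoc, nonsing_inv_mul _ (isUnit_iff_ne_zero.2 (hg1 p)),
          Matrix.mul_one]
      have he : ∀ V : Matrix (Fin n) (Fin n) ℚ_[p], (U * g p) * V * (U * g p)ᵀ =
          U * (g p * V * (g p)ᵀ) * Uᵀ := by
        intro V
        rw [transpose_mul]
        simp only [Matrix.mul_assoc]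
      rw [hUg, he, he]
      refine ⟨norm_congr_le_one hU1 (hg2 p), norm_congr_le_one hU1 (hg3 p), ?_, ?_⟩
      · rw [norm_congr_det hU2]; exact hg4 p
      · rw [norm_congr_det hU2]; exact hg5 p
    · obtain ⟨hU1, hU2⟩ := hGN p hpS
      obtain ⟨h1, h2, h3⟩ := hS p hpS
      rw [map_intCast] at h3
      refine ⟨norm_congr_le_one hU1 h1, norm_congr_le_one hU1 h2, ?_, ?_⟩
      · rw [norm_congr_det hU2]; exact h3.le
      · rw [norm_congr_det hU2, h3]
        exact mul_le_of_le_one_left (norm_nonneg _)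
          (pow_le_one₀ (norm_nonneg _) (norm_nat_le_one _))
  have hA : ∀ i j, ∃ z : ℤ, (z : ℚ) = (G * H * Gᵀ) i j := fun i j =>
    int_of_norm_le_one _ fun p _ => (key p).1 i j
  have hB : ∀ i j, ∃ z : ℤ, (z : ℚ) = (G * H1 * Gᵀ) i j := fun i j =>
    int_of_norm_le_one _ fun p _ => (key p).2.1 i j
  choose A hA using hA
  choose B hB using hB
  have hAm : (Matrix.of A).map (Int.cast : ℤ → ℚ) = G * H * Gᵀ := by
    ext i j; exact hA i j
  have hBm : (Matrix.of B).map (Int.cast : ℤ → ℚ) = G * H1 * Gᵀ := by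
    ext i j; exact hB i j
  have hdet : (((Matrix.of A).det : ℤ) : ℚ) = (G * H * Gᵀ).det := by
    rw [← hAm]
    exact (Int.castRingHom ℚ).map_det (Matrix.of A)
  -- the norm of the class
  have hsq : IsSquare (((a 0 : ℤ) : ℚ) * (mulMat n (mon ℚ a) δ).det) := by
    apply rat_sq
    intro p _ hp2
    have hp0 : ((a 0 : ℤ) : ℚ_[p]) ≠ 0 := by exact_mod_cast h0
    obtain ⟨h', -, hcl⟩ := hloc p hp2
    have h := norm_sq he a hp0 (δ.map (algebraMap ℚ ℚ_[p])) h' hcl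
    have e1 : (mulMat n (mon ℚ_[p] a) (δ.map (algebraMap ℚ ℚ_[p]))).det =
        algebraMap ℚ ℚ_[p] (mulMat n (mon ℚ a) δ).det := by
      rw [← mon_map (algebraMap ℚ ℚ_[p]) a, HankL.mulMat_map _ _ _ hFm,
        ← RingHom.mapMatrix_apply, ← RingHom.map_det]
    rw [e1] at h
    have e2 : ((((a 0 : ℤ) : ℚ) * (mulMat n (mon ℚ a) δ).det : ℚ) : ℚ_[p]) =
        ((a 0 : ℤ) : ℚ_[p]) * algebraMap ℚ ℚ_[p] (mulMat n (mon ℚ a) δ).det := by
      rw [eq_ratCast]; push_cast; ring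
    rw [e2]
    exact h
  obtain ⟨ρ, hρ⟩ := hsq
  obtain ⟨q, hq⟩ : ∃ q : ℚ, q = c ^ (n / 2 + 1) * G.det * ρ := ⟨_, rfl⟩
  have hdq : (((Matrix.of A).det : ℤ) : ℚ) = (-1) ^ (n / 2) * (q ^ 2 * ((a 0 : ℤ) : ℚ)) := by
    have e1 := HankL.hank_mul (mon ℚ a) 1 δ hFm hFn
    rw [one_mul] at e1
    rw [hdet, hHdef, ← smul_congr, det_smul_congr, e1, det_mul, HankL.hank_one_det _ hFm hFn,
      triangle_even' he]
    have e2 : (mulMat n (mon ℚ a) δ).det = c * (ρ * ρ) := by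
      rw [← hρ, hc, ← mul_assoc, inv_mul_cancel₀ h0', one_mul]
    have e3 : ((a 0 : ℤ) : ℚ) * c = 1 := by rw [hc, mul_inv_cancel₀ h0']
    have e4 : c ^ n * c ^ 2 = (c ^ (n / 2 + 1)) ^ 2 := by
      rw [← pow_add, ← pow_mul]
      congr 1
      obtain ⟨m, rfl⟩ := he
      omega
    rw [e2, hq]
    calc c ^ n * (G.det ^ 2 * (c * (ρ * ρ) * (-1) ^ (n / 2))) =
        (((a 0 : ℤ) : ℚ) * c) * (c ^ n * c) * (G.det ^ 2 * (ρ * ρ) * (-1) ^ (n / 2)) := by
          rw [e3]; ring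
      _ = (c ^ n * c ^ 2) * ((a 0 : ℤ) : ℚ) * (G.det ^ 2 * (ρ * ρ) * (-1) ^ (n / 2)) := by ring
      _ = _ := by rw [e4]; ring
  have hdet0 : (((Matrix.of A).det : ℤ) : ℚ) ≠ 0 := by
    rw [hdet, det_mul, det_mul, det_transpose]
    exact mul_ne_zero (mul_ne_zero hG hH) hG
  have hq0 : q ≠ 0 := by
    rintro rfl
    apply hdet0
    rw [hdq]; ring
  have hnorm : ∀ (p : ℕ) [Fact p.Prime],
      ‖((G * H * Gᵀ).map (algebraMap ℚ ℚ_[p])).det‖ =
        ‖algebraMap ℚ ℚ_[p] q‖ ^ 2 * ‖((a 0 : ℤ) : ℚ_[p])‖ := by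
    intro p hp
    have e : ((G * H * Gᵀ).map (algebraMap ℚ ℚ_[p])).det =
        algebraMap ℚ ℚ_[p] (((Matrix.of A).det : ℤ) : ℚ) := by
      rw [hdet, ← RingHom.mapMatrix_apply, ← RingHom.map_det]
    rw [e, hdq, map_mul, map_mul, map_pow, map_pow, map_neg, map_one, map_intCast, norm_mul,
      norm_mul, norm_pow, norm_pow, norm_neg, norm_one, one_pow, one_mul]
  have hapos : ∀ (p : ℕ) [Fact p.Prime], 0 < ‖((a 0 : ℤ) : ℚ_[p])‖ := by
    intro p _
    rw [norm_pos_iff]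
    exact_mod_cast h0
  obtain ⟨z, hz⟩ := int_of_norm_le_one q (by
    intro p hp
    have h := (key p).2.2.1
    rw [hnorm p] at h
    have h5 : ‖algebraMap ℚ ℚ_[p] q‖ ^ 2 ≤ 1 := by
      by_contra h6
      rw [not_le] at h6
      nlinarith [hapos p]
    exact (sq_le_one_iff₀ (norm_nonneg _)).1 h5)
  obtain ⟨w, hw⟩ := int_of_norm_le_one (((f ^ (2 * n) : ℕ) : ℚ) / q) (by
    intro p hp
    have h := (key p).2.2.2
    rw [hnorm p] at h
    have h5 : (‖((f : ℕ) : ℚ_[p])‖ ^ (2 * n)) ^ 2 ≤ ‖algebraMap ℚ ℚ_[p] q‖ ^ 2 := by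
      rw [← pow_mul, show 2 * n * 2 = 4 * n by ring]
      exact le_of_mul_le_mul_right h (hapos p)
    have h6 : ‖((f : ℕ) : ℚ_[p])‖ ^ (2 * n) ≤ ‖algebraMap ℚ ℚ_[p] q‖ :=
      (sq_le_sq₀ (by positivity) (norm_nonneg _)).1 h5
    rw [map_div₀, norm_div, map_natCast, Nat.cast_pow, norm_pow]
    exact div_le_one_of_le₀ h6 (norm_nonneg _))
  have hz0 : z ≠ 0 := by
    rintro rfl
    apply hq0
    rw [← hz, Int.cast_zero]
  rw [eq_div_iff hq0, ← hz] at hw
  have hw' : w * z = ((f ^ (2 * n) : ℕ) : ℤ) := by exact_mod_cast hw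
  refine ⟨Matrix.of A, Matrix.of B, z.natAbs, Int.natAbs_pos.2 hz0, ?_,
    ⟨G, hG, by rw [hAm, hHdef, smul_congr, hc], by rw [hBm, hH1def, smul_congr, hc]⟩, ?_⟩
  · rw [← hf]
    apply Nat.le_of_dvd (pow_pos hf0 _)
    have : z ∣ ((f ^ (2 * n) : ℕ) : ℤ) := ⟨w, by rw [← hw']; ring⟩
    exact Int.natAbs_dvd_natAbs.2 this
  · rw [Int.natAbs_sq]
    rw [← hz] at hdq
    exact_mod_cast hdq

end PairQAux

theorem exists_pair {m : ℕ} (hm : 2 ≤ m) (he : Even m) (P : ℕ) (hP : 2 ≤ P)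
    (b : Fin (m + 1) → ℤ) (h0 : b 0 ≠ 0)
    (h2 : ∀ (p : ℕ) [Fact p.Prime], p ≤ P → ‖((P.factorial : ℚ_[p]) ^ 2)‖ ≤ ‖(b 0 : ℚ_[p])‖)
    (h3 : ∀ p : ℕ, p.Prime → P < p → ¬ (p : ℤ) ∣ b 0)
    (δ : ℚ[X]) (hδ : IsCoprime δ (GZ ℚ b))
    (hloc : ∀ (p : ℕ) [Fact p.Prime], p ≠ 2 →
      ∃ h : ℚ_[p][X], Prim p h ∧ Cls (GZ ℚ_[p] b) (δ.map (algebraMap ℚ ℚ_[p])) h) :
    ∃ (A B : Matrix (Fin m) (Fin m) ℤ) (N : ℕ), 0 < N ∧ N ≤ P.factorial ^ (2 * m) ∧
      BF.IsPair b δ A B ∧ A.det = (-1) ^ (m / 2) * ((N : ℤ) ^ 2 * b 0) := by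
  exact PairQAux.main hm he P hP b h0 h2 h3 δ hδ hloc

end Stoll308.FQ
end

section
set_option autoImplicit false

/-!
The bad pairs for a fixed second pair.
-/

namespace Stoll308.FQ

open Polynomial Finset Matrix BG BF

/-- A singular symmetric matrix modulo `l` with nonzero adjugate has a nonzero diagonal cofactor. -/
theorem adj_diag {m : ℕ} (l : ℕ) [Fact l.Prime] (A' B' : Matrix (Fin m) (Fin m) ℤ)
    (hB : B'.IsSymm) (h1 : (l : ℤ) ∣ B'.det) (h2 : ¬ (l : ℤ) ∣ (B'.adjugate * A').trace) :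
    ∃ j, ¬ (l : ℤ) ∣ B'.adjugate j j := by
  have hS : (B'.map (Int.castRingHom (ZMod l))).IsSymm := by
    unfold Matrix.IsSymm
    rw [← Matrix.transpose_map, hB.eq]
  have hdet : (B'.map (Int.castRingHom (ZMod l))).det = 0 := by
    rw [← BG.BadCount.cast_det, ZMod.intCast_zmod_eq_zero_iff_dvd]
    exact h1
  obtain ⟨v, hv, hker⟩ := Matrix.exists_mulVec_eq_zero_iff.mpr hdet
  obtain ⟨ρ, hρ⟩ := BG.LCond.adjugate_rank_one _ hS v hv hker
  have hρ0 : ρ ≠ 0 := by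
    rintro rfl
    apply h2
    rw [← ZMod.intCast_zmod_eq_zero_iff_dvd, BG.BadCount.cast_trace]
    have e : (B'.map (Int.castRingHom (ZMod l))).adjugate = 0 := by
      ext i j
      rw [hρ, zero_mul, zero_mul, Matrix.zero_apply]
    rw [e, Matrix.zero_mul, Matrix.trace_zero]
  obtain ⟨j, hj⟩ : ∃ j, v j ≠ 0 := by
    by_contra h
    push Not at h
    exact hv (funext h)
  refine ⟨j, ?_⟩
  rw [← ZMod.intCast_zmod_eq_zero_iff_dvd, BG.BadCount.cast_adj, hρ]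
  exact mul_ne_zero (mul_ne_zero hρ0 hj) hj

theorem bad_of {n m : ℕ} (he : Even n) (hem : Even m) (l : ℕ) [Fact l.Prime] (h2 : l ≠ 2)
    (A' B' : Matrix (Fin m) (Fin m) ℤ) (hA : A'.IsSymm) (hB : B'.IsSymm) (r : ℤ)
    (h3 : (l : ℤ) ^ 2 ∣ (B' - r • A').det) (h4 : ¬ (l : ℤ) ∣ ((B' - r • A').adjugate * A').trace) :
    ∃ s : ℤ, (s = 1 ∨ s = -1) ∧ ∀ A B : Matrix (Fin n) (Fin n) ℤ,
      BadZ s l A (B - r • A) → DQ.Bad l A B A' B' := by
  have hl : (l : ℤ) ∣ (l : ℤ) ^ 2 := dvd_pow_self _ two_ne_zero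
  have hS : (B' - r • A').IsSymm := by
    unfold Matrix.IsSymm
    rw [Matrix.transpose_sub, Matrix.transpose_smul, hA.eq, hB.eq]
  obtain ⟨j, hj⟩ := adj_diag l A' (B' - r • A') hS (hl.trans h3) h4
  have hj0 : ((((-1) ^ (m / 2 + 1) * (B' - r • A').adjugate j j : ℤ)) : ZMod l) ≠ 0 := by
    rw [Ne, ZMod.intCast_zmod_eq_zero_iff_dvd]
    intro h
    rcases neg_one_pow_eq_or ℤ (m / 2 + 1) with h5 | h5 <;> rw [h5] at h
    · rw [one_mul] at h
      exact hj h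
    · rw [neg_one_mul, dvd_neg] at h
      exact hj h
  have hprime : Prime (l : ℤ) := Nat.prime_iff_prime_int.mp (Fact.out : l.Prime)
  refine ⟨-legendreSym l ((-1) ^ (m / 2 + 1) * (B' - r • A').adjugate j j), ?_, ?_⟩
  · rcases legendreSym.eq_one_or_neg_one l hj0 with h5 | h5 <;> rw [h5]
    · right; rfl
    · left; rfl
  · rintro A B ⟨a1, a2, a3, hF, i, hi⟩
    refine ⟨r, a1, hl.trans h3, a3, h4, ?_, hF, i, j, ?_⟩
    · intro h
      have h5 : (l : ℤ) ^ 2 ∣ (B - r • A).det * ((B' - r • A').adjugate * A').trace := by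
        have h6 := dvd_add h (h3.mul_right (((B - r • A).adjugate * A).trace))
        rwa [sub_add_cancel] at h6
      have hcop : IsCoprime ((l : ℤ) ^ 2) (((B' - r • A').adjugate * A').trace) :=
        ((Prime.coprime_iff_not_dvd hprime).2 h4).pow_left
      exact a2 (hcop.dvd_of_dvd_mul_right h5)
    · have e : (-1 : ℤ) ^ ((n + m) / 2) * ((B - r • A).adjugate i i * (B' - r • A').adjugate j j) =
          ((-1) ^ (n / 2 + 1) * (B - r • A).adjugate i i) *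
          ((-1) ^ (m / 2 + 1) * (B' - r • A').adjugate j j) := by
        have e1 : (n + m) / 2 = n / 2 + m / 2 := by
          obtain ⟨k, hk⟩ := he
          obtain ⟨k', hk'⟩ := hem
          omega
        rw [e1, pow_add]
        ring
      have hi' : legendreSym l ((-1) ^ (n / 2 + 1) * (B - r • A).adjugate i i) =
          -legendreSym l ((-1) ^ (m / 2 + 1) * (B' - r • A').adjugate j j) := hi
      have h7 : legendreSym l ((-1) ^ ((n + m) / 2) *
          ((B - r • A).adjugate i i * (B' - r • A').adjugate j j)) = -1 := by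
        rw [e, legendreSym.mul, hi']
        rcases legendreSym.eq_one_or_neg_one l hj0 with h5 | h5 <;> rw [h5]
        · norm_num
        · norm_num
      exact h7

end Stoll308.FQ
end

section
set_option autoImplicit false

/-!
The local condition, also for a quadratic polynomial `q`.
-/

namespace Stoll308.FQ

open Polynomial Finset Matrix BG BF DQ SC

/-- The value of `δ` at a root of `f` in terms of the pair. -/
theorem adj_class2 {n : ℕ} (hn : 2 ≤ n) (he : Even n) (a : Fin (n + 1) → ℤ) (h0 : a 0 ≠ 0)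
    (δ : ℚ[X]) (hδ : IsCoprime δ (GZ ℚ a)) (l : ℕ) [hl : Fact l.Prime] (h2 : l ≠ 2)
    (A B : Matrix (Fin n) (Fin n) ℤ) (h : BF.IsPair a δ A B) (hdet : A.det = (-1) ^ (n / 2) * a 0)
    (t : ℤ) (h1 : (l : ℤ) ∣ (B - t • A).det)
    (h3 : ¬ (l : ℤ) ∣ ((B - t • A).adjugate * A).trace) :
    ∃ θ : ℤ_[l], PadicInt.toZMod θ = (t : ZMod l) ∧ (GZ ℤ_[l] a).eval θ = 0 ∧
      IsUnit ((derivative (GZ ℤ_[l] a)).eval θ) ∧
      ∀ i, ¬ (l : ℤ) ∣ (B - t • A).adjugate i i → ∃ (u : ℤ_[l]) (c : ℚ_[l]),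
        PadicInt.toZMod u =
          (((-1) ^ (n / 2 + 1) * (B - t • A).adjugate i i : ℤ) : ZMod l) ∧ c ≠ 0 ∧
        (δ.map (algebraMap ℚ ℚ_[l])).eval (θ : ℚ_[l]) * u = c ^ 2 := by
  obtain ⟨hc1, hc2⟩ := char_at he (h.hasChar h0 hdet) t
  have hsg : ∀ (k : ℕ) (b d : ℤ), d ∣ (-1) ^ k * b ↔ d ∣ b := by
    intro k b d
    rcases neg_one_pow_eq_or ℤ k with h | h <;> simp [h]
  rw [hc1, hsg] at h1
  rw [hc2, dvd_neg, hsg] at h3
  set F := GZ ℤ_[l] a with hF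
  have hFm : F = (GZ ℤ a).map (Int.castRingHom ℤ_[l]) := (LCond.lc_GZ_map _ a).symm
  have hFq : GZ ℚ_[l] a = F.map (PadicInt.Coe.ringHom (p := l)) := (LCond.lc_GZ_map _ a).symm
  have hF0 : F.eval (t : ℤ_[l]) = (((GZ ℤ a).eval t : ℤ) : ℤ_[l]) := by
    rw [hFm, eval_map, ← eq_intCast (Int.castRingHom ℤ_[l]) t, eval₂_at_apply]
    simp
  have hF1 : (derivative F).eval (t : ℤ_[l]) = (((derivative (GZ ℤ a)).eval t : ℤ) : ℤ_[l]) := by
    rw [hFm, derivative_map, eval_map, ← eq_intCast (Int.castRingHom ℤ_[l]) t, eval₂_at_apply]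
    simp
  have hn0 : ‖F.eval (t : ℤ_[l])‖ < 1 := by
    rw [hF0]
    exact (PadicInt.norm_int_lt_one_iff_dvd _).mpr h1
  have hn1 : ‖(derivative F).eval (t : ℤ_[l])‖ = 1 := by
    rw [hF1]
    have h5 : ¬ ‖(((derivative (GZ ℤ a)).eval t : ℤ) : ℤ_[l])‖ < 1 := fun h =>
      h3 ((PadicInt.norm_int_lt_one_iff_dvd _).mp h)
    have h7 := (((derivative (GZ ℤ a)).eval t : ℤ) : ℤ_[l]).norm_le_one
    linarith [not_lt.mp h5]
  obtain ⟨θ, hθ, hθn, hθd, -⟩ := hensels_lemma (F := F) (a := (t : ℤ_[l])) (by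
    simp only [coe_aeval_eq_eval]
    rw [hn1]
    simpa using hn0)
  simp only [coe_aeval_eq_eval] at hθ hθn hθd
  rw [hn1] at hθn
  rw [hn1] at hθd
  have hcoe : ∀ (P : ℤ_[l][X]) (a : ℤ_[l]), (P.map (PadicInt.Coe.ringHom (p := l))).eval
      (a : ℚ_[l]) = ((P.eval a : ℤ_[l]) : ℚ_[l]) := by
    intro P a
    have h5 : (a : ℚ_[l]) = PadicInt.Coe.ringHom (p := l) a := rfl
    rw [h5, eval_map, eval₂_at_apply]
    rfl
  have hroot : (GZ ℚ_[l] a).eval (θ : ℚ_[l]) = 0 := by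
    rw [hFq, hcoe, hθ]
    rfl
  have hθd0 : (derivative (GZ ℚ_[l] a)).eval (θ : ℚ_[l]) ≠ 0 := by
    rw [hFq, derivative_map, hcoe]
    intro h0
    have h5 : (derivative F).eval θ = 0 := by
      apply Subtype.ext
      exact h0
    rw [h5, norm_zero] at hθd
    exact zero_ne_one hθd
  have hzm : ∀ x : ℤ_[l], PadicInt.toZMod x = 0 ↔ ‖x‖ < 1 := by
    intro x
    rw [← RingHom.mem_ker, PadicInt.ker_toZMod, IsLocalRing.mem_maximalIdeal, mem_nonunits_iff,
      PadicInt.isUnit_iff]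
    exact ⟨fun h => lt_of_le_of_ne x.norm_le_one h, fun h => ne_of_lt h⟩
  have hθt : PadicInt.toZMod θ = (t : ZMod l) := by
    have h5 := (hzm (θ - t)).2 hθn
    rw [map_sub, map_intCast, sub_eq_zero] at h5
    exact h5
  refine ⟨θ, hθt, hθ, PadicInt.isUnit_iff.2 hθd, ?_⟩
  intro i hi
  obtain ⟨G, hG, hA, hB⟩ := h
  -- over `ℚ_l`
  set φ : ℚ →+* ℚ_[l] := algebraMap ℚ ℚ_[l] with hφ
  have ha0 : ((a 0 : ℤ) : ℚ_[l]) ≠ 0 := by exact_mod_cast h0
  obtain ⟨hm1, hm2⟩ := LCond.lc_mon_monic (K := ℚ_[l]) a ha0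
  have ha0q : ((a 0 : ℤ) : ℚ) ≠ 0 := by exact_mod_cast h0
  obtain ⟨hq1, hq2⟩ := LCond.lc_mon_monic (K := ℚ) a ha0q
  have hmapF : (mon ℚ a).map φ = mon ℚ_[l] a := by
    unfold mon
    rw [Polynomial.map_mul, LCond.lc_GZ_map, Polynomial.map_C, map_inv₀, map_intCast]
  set δ' : ℚ_[l][X] := C ((a 0 : ℚ_[l])⁻¹) * δ.map φ with hδ'
  have hA' : A.map (Int.cast : ℤ → ℚ_[l]) =
      G.map φ * Hank n (mon ℚ_[l] a) δ' * (G.map φ)ᵀ := by
    have h5 : A.map (Int.cast : ℤ → ℚ_[l]) = (A.map (Int.cast : ℤ → ℚ)).map φ := by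
      ext a b
      simp
    have h6 : ∀ (r : ℚ) (M : Matrix (Fin n) (Fin n) ℚ), (r • M).map φ = φ r • M.map φ := by
      intro r M
      ext a b
      simp
    rw [h5, hA, h6, Matrix.map_mul, Matrix.map_mul, hδ', LCond.lc_hank_C_mul, ← hmapF,
      hank_map φ _ _ hq1, Matrix.transpose_map, Matrix.mul_smul, Matrix.smul_mul, map_inv₀,
      map_intCast]
  have hB' : B.map (Int.cast : ℤ → ℚ_[l]) =
      G.map φ * Hank n (mon ℚ_[l] a) (X * δ') * (G.map φ)ᵀ := by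
    have h5 : B.map (Int.cast : ℤ → ℚ_[l]) = (B.map (Int.cast : ℤ → ℚ)).map φ := by
      ext a b
      simp
    have h6 : ∀ (r : ℚ) (M : Matrix (Fin n) (Fin n) ℚ), (r • M).map φ = φ r • M.map φ := by
      intro r M
      ext a b
      simp
    have h7 : X * δ' = C ((a 0 : ℚ_[l])⁻¹) * (X * δ).map φ := by
      rw [hδ', Polynomial.map_mul, Polynomial.map_X]
      ring
    rw [h5, hB, h6, Matrix.map_mul, Matrix.map_mul, h7, LCond.lc_hank_C_mul, ← hmapF,
      hank_map φ _ _ hq1, Matrix.transpose_map, Matrix.mul_smul, Matrix.smul_mul, map_inv₀,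
      map_intCast]
  have hGd : (G.map φ).det ≠ 0 := by
    rw [← RingHom.mapMatrix_apply, ← RingHom.map_det]
    exact (map_ne_zero φ).mpr hG
  have hθm : (mon ℚ_[l] a).eval (θ : ℚ_[l]) = 0 := by
    unfold mon
    rw [eval_mul, hroot, mul_zero]
  have hθdm : (derivative (mon ℚ_[l] a)).eval (θ : ℚ_[l]) ≠ 0 := by
    unfold mon
    rw [derivative_C_mul, eval_mul, eval_C]
    exact mul_ne_zero (inv_ne_zero ha0) hθd0
  obtain ⟨r, hr⟩ := BG.LCond.adj_square (mon ℚ_[l] a) δ' hm1 hm2 (θ : ℚ_[l])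
    hθm hθdm (G.map φ) hGd _ _ hA' hB' i
  -- the integral element
  set N : Matrix (Fin n) (Fin n) ℤ_[l] := θ • A.map (Int.cast : ℤ → ℤ_[l]) -
    B.map (Int.cast : ℤ → ℤ_[l]) with hN'
  have h6 : (A.map (Int.cast : ℤ → ℚ_[l])).det = (-1) ^ (n / 2) * (a 0 : ℚ_[l]) := by
    have h7 := RingHom.map_det (Int.castRingHom ℚ_[l]) A
    rw [RingHom.mapMatrix_apply, hdet] at h7
    simpa using h7.symm
  have hNc : (((-1) ^ (n / 2) * N.adjugate i i : ℤ_[l]) : ℚ_[l]) =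
      (-1) ^ (n / 2) * ((θ : ℚ_[l]) • A.map (Int.cast : ℤ → ℚ_[l]) -
        B.map (Int.cast : ℤ → ℚ_[l])).adjugate i i := by
    have h5 : N.map (PadicInt.Coe.ringHom (p := l)) =
        (θ : ℚ_[l]) • A.map (Int.cast : ℤ → ℚ_[l]) - B.map (Int.cast : ℤ → ℚ_[l]) := by
      ext a b
      rw [hN']
      simp only [Matrix.map_apply, Matrix.sub_apply, Matrix.smul_apply, smul_eq_mul, map_sub,
        map_mul, map_intCast]
      rfl
    rw [← h5, ← RingHom.mapMatrix_apply, ← RingHom.map_adjugate, RingHom.mapMatrix_apply,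
      Matrix.map_apply, PadicInt.coe_mul]
    congr 1
  have h5 : N.map (PadicInt.toZMod (p := l)) =
      ((-1 : ℤ) • (B - t • A)).map (Int.castRingHom (ZMod l)) := by
    ext a b
    rw [hN']
    simp only [Matrix.map_apply, Matrix.sub_apply, Matrix.smul_apply, smul_eq_mul, map_sub,
      map_mul, map_intCast, hθt]
    simp
  have h7 : PadicInt.toZMod (N.adjugate i i) =
      (((-1 : ℤ) • (B - t • A)).adjugate i i : ℤ) := by
    have h8 : PadicInt.toZMod (N.adjugate i i) = (N.map (PadicInt.toZMod (p := l))).adjugate i i := by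
      rw [← RingHom.mapMatrix_apply, ← RingHom.map_adjugate, RingHom.mapMatrix_apply,
        Matrix.map_apply]
    rw [h8, h5, ← RingHom.mapMatrix_apply, ← RingHom.map_adjugate, RingHom.mapMatrix_apply,
      Matrix.map_apply]
    rfl
  have hred : PadicInt.toZMod ((-1) ^ (n / 2) * N.adjugate i i) =
      (((-1) ^ (n / 2 + 1) * (B - t • A).adjugate i i : ℤ) : ZMod l) := by
    rw [map_mul, h7, Matrix.adjugate_smul, Fintype.card_fin, map_pow, map_neg, map_one]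
    have h9 : (-1 : ℤ) ^ (n - 1) = -1 := by
      apply Odd.neg_one_pow
      obtain ⟨k, hk⟩ := he
      exact ⟨k - 1, by omega⟩
    rw [h9]
    simp only [Matrix.smul_apply, smul_eq_mul]
    push_cast
    ring
  -- the square class
  set e : ℤ_[l] := (-1) ^ (n / 2) * N.adjugate i i with he'
  have he0 : (e : ℚ_[l]) ≠ 0 := by
    intro h9
    have h10 : e = 0 := by
      apply Subtype.ext
      exact h9
    rw [h10, map_zero] at hred
    rw [eq_comm, ZMod.intCast_zmod_eq_zero_iff_dvd, hsg] at hred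
    exact hi hred
  have hr' : (δ.map φ).eval (θ : ℚ_[l]) * (e : ℚ_[l]) = r ^ 2 := by
    rw [he', hNc, sq, ← hr, h6, hδ', eval_mul, eval_C]
    field_simp
  have hδθ : (δ.map φ).eval (θ : ℚ_[l]) ≠ 0 := by
    obtain ⟨b, c, hbc⟩ := hδ
    have h9 := congrArg (fun P : ℚ[X] => (P.map φ).eval (θ : ℚ_[l])) hbc
    simp only [Polynomial.map_add, Polynomial.map_mul, eval_add, eval_mul, Polynomial.map_one,
      eval_one] at h9
    rw [LCond.lc_GZ_map, hroot, mul_zero, add_zero] at h9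
    intro h10
    rw [h10, mul_zero] at h9
    exact zero_ne_one h9
  refine ⟨e, r, hred, ?_, hr'⟩
  rintro rfl
  rw [zero_pow two_ne_zero] at hr'
  exact mul_ne_zero hδθ he0 hr'

open DQ.LC in
theorem lcond {n m : ℕ} (hn : 4 ≤ n) (he : Even n) (hm : 2 ≤ m) (hem : Even m)
    (a : Fin (n + 1) → ℤ) (b : Fin (m + 1) → ℤ) (h0 : a 0 ≠ 0) (h0' : b 0 ≠ 0)
    (δ ε : ℚ[X]) (hδ : IsCoprime δ (GZ ℚ a)) (hε : IsCoprime ε (GZ ℚ b))
    (l : ℕ) [hl : Fact l.Prime] (h2 : l ≠ 2)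
    (hloc : DLoc (GZ ℚ_[l] a) (GZ ℚ_[l] b) (δ.map (algebraMap ℚ ℚ_[l]))
      (ε.map (algebraMap ℚ ℚ_[l])))
    (A B : Matrix (Fin n) (Fin n) ℤ) (A' B' : Matrix (Fin m) (Fin m) ℤ)
    (h : BF.IsPair a δ A B) (hdet : A.det = (-1) ^ (n / 2) * a 0)
    (h' : BF.IsPair b ε A' B') (hdet' : A'.det = (-1) ^ (m / 2) * b 0) :
    ¬ DQ.Bad l A B A' B' := by
  rintro ⟨t, h1, h1', h3, h3', h5, hl', i, j, hleg⟩
  have hne : (((-1) ^ ((n + m) / 2) * ((B - t • A).adjugate i i *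
      (B' - t • A').adjugate j j) : ℤ) : ZMod l) ≠ 0 := by
    intro h9
    rw [(legendreSym.eq_zero_iff l _).mpr h9] at hleg
    omega
  have hi : ¬ (l : ℤ) ∣ (B - t • A).adjugate i i := by
    intro h9
    apply hne
    rw [ZMod.intCast_zmod_eq_zero_iff_dvd]
    exact Dvd.dvd.mul_left (Dvd.dvd.mul_right h9 _) _
  have hj : ¬ (l : ℤ) ∣ (B' - t • A').adjugate j j := by
    intro h9
    apply hne
    rw [ZMod.intCast_zmod_eq_zero_iff_dvd]
    exact Dvd.dvd.mul_left (Dvd.dvd.mul_left h9 _) _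
  obtain ⟨θ, hθt, hθ, hθd, hθi⟩ := adj_class2 (by omega) he a h0 δ hδ l h2 A B h hdet t h1 h3
  obtain ⟨ρ, hρt, hρ, hρd, hρi⟩ := adj_class2 hm hem b h0' ε hε l h2 A' B' h' hdet' t h1' h3'
  obtain ⟨u, c₁, hu, hc₁, huc⟩ := hθi i hi
  obtain ⟨u', c₂, hu', hc₂, huc'⟩ := hρi j hj
  have hdist := root_dist he hem a b l A B A' B' (BF.IsPair.hasChar h0 h hdet)
    (BF.IsPair.hasChar h0' h' hdet') t h5 θ ρ hθt hρt hθ hρ
  obtain ⟨g, c, hc, hcl, hcl'⟩ := hloc
  have hq1 : toQ (GZ ℤ_[l] a) = GZ ℚ_[l] a := BF.LCond.lc_GZ_map _ a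
  have hq2 : toQ (GZ ℤ_[l] b) = GZ ℚ_[l] b := BF.LCond.lc_GZ_map _ b
  have hcoe : ∀ (P : ℤ_[l][X]) (x : ℤ_[l]), (toQ P).eval (x : ℚ_[l]) =
      ((P.eval x : ℤ_[l]) : ℚ_[l]) := by
    intro P x
    have h5 : (x : ℚ_[l]) = algebraMap ℤ_[l] ℚ_[l] x := rfl
    rw [h5, eval_map, eval₂_at_apply]
    rfl
  have hr1 : (GZ ℚ_[l] a).eval (θ : ℚ_[l]) = 0 := by
    rw [← hq1, hcoe, hθ]
    rfl
  have hr2 : (GZ ℚ_[l] b).eval (ρ : ℚ_[l]) = 0 := by
    rw [← hq2, hcoe, hρ]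
    rfl
  have hlink := link l h2 (GZ ℤ_[l] a) (GZ ℤ_[l] b) θ ρ hθ hρ hθd hρd hdist g
    (by rw [hq1]; exact hcl.2.2.1) (by rw [hq2]; exact hcl'.2.2.1)
  obtain ⟨hg1, s, hs, hgs⟩ := cls_eval hcl hr1
  obtain ⟨hg2, s', hs', hgs'⟩ := cls_eval hcl' hr2
  obtain ⟨z, hz⟩ := hlink
  have hsq : IsSquare (((u * u' : ℤ_[l]) : ℚ_[l])) := by
    have hz0 : z ≠ 0 := by
      rintro rfl
      rw [mul_zero] at hz
      exact mul_ne_zero hg1 hg2 hz
    refine ⟨c * s * s' * c₁ * c₂ / z, ?_⟩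
    rw [PadicInt.coe_mul]
    set D := (δ.map (algebraMap ℚ ℚ_[l])).eval (θ : ℚ_[l]) with hD
    set E := (ε.map (algebraMap ℚ ℚ_[l])).eval (ρ : ℚ_[l]) with hE
    have e1 : (c * s * s' * c₁ * c₂ / z) * (c * s * s' * c₁ * c₂ / z) =
        (c * s * s') ^ 2 * c₁ ^ 2 * c₂ ^ 2 / (z * z) := by
      field_simp
    rw [e1, ← huc, ← huc', ← hz, hgs, hgs']
    have hD0 : D ≠ 0 := by
      intro h9
      rw [hgs, h9, mul_zero, zero_mul] at hg1
      exact hg1 rfl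
    have hE0 : E ≠ 0 := by
      intro h9
      rw [hgs', h9, mul_zero, zero_mul] at hg2
      exact hg2 rfl
    field_simp
  have hmod : PadicInt.toZMod (u * u') = (((-1) ^ ((n + m) / 2) * ((B - t • A).adjugate i i *
      (B' - t • A').adjugate j j) : ℤ) : ZMod l) := by
    rw [map_mul, hu, hu', ← Int.cast_mul]
    congr 1
    obtain ⟨k, hk⟩ := he
    obtain ⟨k', hk'⟩ := hem
    have e1 : n / 2 = k := by omega
    have e2 : m / 2 = k' := by omega
    have e3 : (n + m) / 2 = k + k' := by omega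
    rw [e1, e2, e3]
    ring
  have hfin := unit_sq_mod (by rw [hmod]; exact hne) hsq
  rw [hmod] at hfin
  have h9 := (legendreSym.eq_one_iff l hne).mpr hfin
  have h10 : legendreSym l ((-1) ^ ((n + m) / 2) * ((B - t • A).adjugate i i *
      (B' - t • A').adjugate j j)) = -1 := hleg
  rw [h10] at h9
  omega

end Stoll308.FQ
end

section
set_option autoImplicit false

/-!
Common square values of several polynomials modulo a large prime.
-/

namespace Stoll308.EA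

open Polynomial Finset

open Pool.Agent.Work.MP_2b9663_nt in
theorem exists_all_sq {p : ℕ} [hp : Fact p.Prime] (hp2 : p ≠ 2) {s : ℕ} (f : Fin s → (ZMod p)[X])
    (hbig : (2 ^ s * (∑ i, (f i).natDegree + 1)) ^ 2 ≤ p)
    (h : ∀ S : Finset (Fin s), S.Nonempty → ∀ e u, ∏ i ∈ S, f i ≠ C e * u ^ 2) :
    ∃ x : ZMod p, ∀ i, ∃ y : ZMod p, y ≠ 0 ∧ y ^ 2 = (f i).eval x := by
  classical
  have hf0 : ∀ i, f i ≠ 0 := by
    intro i hi
    apply h {i} (singleton_nonempty i) 0 0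
    rw [prod_singleton, hi]; simp
  by_contra hcon
  have hno : ∀ x : ZMod p, ¬ ∀ i, quadraticChar (ZMod p) ((f i).eval x) = 1 := by
    intro x hx
    apply hcon
    refine ⟨x, fun i => ?_⟩
    have hi := hx i
    have hfx : (f i).eval x ≠ 0 := by
      intro h0
      rw [h0] at hi
      simp at hi
    rw [quadraticChar_one_iff_isSquare hfx] at hi
    obtain ⟨y, hy⟩ := hi
    refine ⟨y, ?_, by rw [hy, sq]⟩
    rintro rfl
    exact hfx (by rw [hy, mul_zero])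
  have hZ : ∀ g : (ZMod p)[X], g ≠ 0 →
      (univ.filter fun x : ZMod p => g.eval x = 0).card ≤ g.natDegree := by
    intro g hg
    refine le_trans ?_ (card_roots' g)
    refine le_trans ?_ (Multiset.toFinset_card_le _)
    apply card_le_card
    intro x hx
    rw [mem_filter] at hx
    rw [Multiset.mem_toFinset, mem_roots hg]
    exact hx.2
  have hb : ∀ a : ZMod p, 0 ≤ 1 + quadraticChar (ZMod p) a ∧ 1 + quadraticChar (ZMod p) a ≤ 2 := by
    intro a
    by_cases ha : a = 0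
    · rw [ha, quadraticChar_zero]; norm_num
    · rcases quadraticChar_dichotomy ha with h' | h'
      · rw [h']; norm_num
      · rw [h']; norm_num
  have hle : ∀ x : ZMod p, ∏ i, (1 + quadraticChar (ZMod p) ((f i).eval x)) ≤
      2 ^ s * ∑ i, (if (f i).eval x = 0 then (1 : ℤ) else 0) := by
    intro x
    by_cases hz : ∃ i, (f i).eval x = 0
    · obtain ⟨i, hi⟩ := hz
      have h1 : ∏ i, (1 + quadraticChar (ZMod p) ((f i).eval x)) ≤ 2 ^ s := by
        calc ∏ i, (1 + quadraticChar (ZMod p) ((f i).eval x)) ≤ ∏ _i : Fin s, (2 : ℤ) :=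
              prod_le_prod (fun i _ => (hb _).1) (fun i _ => (hb _).2)
          _ = 2 ^ s := by simp
      have h2 : (1 : ℤ) ≤ ∑ i, (if (f i).eval x = 0 then (1 : ℤ) else 0) := by
        calc (1 : ℤ) = if (f i).eval x = 0 then (1 : ℤ) else 0 := by rw [if_pos hi]
          _ ≤ _ := single_le_sum (f := fun i => if (f i).eval x = 0 then (1 : ℤ) else 0)
              (fun j _ => by split_ifs <;> norm_num) (mem_univ i)
      calc _ ≤ (2 : ℤ) ^ s * 1 := by rw [mul_one]; exact h1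
        _ ≤ _ := by
          apply mul_le_mul_of_nonneg_left h2
          positivity
    · have hz' : ∀ i, (f i).eval x ≠ 0 := fun i hi => hz ⟨i, hi⟩
      have hn := hno x
      have : ∃ i, quadraticChar (ZMod p) ((f i).eval x) ≠ 1 := by
        by_contra hc
        exact hn fun i => by_contra fun h' => hc ⟨i, h'⟩
      obtain ⟨i, hi⟩ := this
      have hi' : quadraticChar (ZMod p) ((f i).eval x) = -1 := by
        rcases quadraticChar_dichotomy (hz' i) with h' | h'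
        · exact absurd h' hi
        · exact h'
      rw [prod_eq_zero (mem_univ i) (by rw [hi']; norm_num)]
      apply mul_nonneg (by positivity)
      exact sum_nonneg fun j _ => by split_ifs <;> norm_num
  have hsum : ∑ x : ZMod p, ∏ i, (1 + quadraticChar (ZMod p) ((f i).eval x)) ≤
      2 ^ s * ∑ i, ((f i).natDegree : ℤ) := by
    refine (sum_le_sum fun x _ => hle x).trans ?_
    rw [← mul_sum, sum_comm]
    apply mul_le_mul_of_nonneg_left _ (by positivity)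
    apply sum_le_sum
    intro i _
    rw [← sum_filter, sum_const, nsmul_eq_mul, mul_one]
    exact_mod_cast hZ (f i) (hf0 i)
  have hsum2 : ∑ x : ZMod p, ∏ i, (1 + quadraticChar (ZMod p) ((f i).eval x)) =
      ∑ S ∈ (univ : Finset (Fin s)).powerset, charSum (ZMod p) (∏ i ∈ S, f i) := by
    have h1 : ∀ x : ZMod p, ∏ i, (1 + quadraticChar (ZMod p) ((f i).eval x)) =
        ∑ S ∈ (univ : Finset (Fin s)).powerset,
          quadraticChar (ZMod p) ((∏ i ∈ S, f i).eval x) := by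
      intro x
      rw [prod_one_add]
      refine sum_congr rfl fun S _ => ?_
      rw [eval_prod, map_prod]
    rw [sum_congr rfl fun x _ => h1 x, sum_comm]
    rfl
  have hsum3 : ∑ S ∈ (univ : Finset (Fin s)).powerset, charSum (ZMod p) (∏ i ∈ S, f i) =
      (p : ℤ) + ∑ S ∈ (univ : Finset (Fin s)).powerset.erase ∅,
        charSum (ZMod p) (∏ i ∈ S, f i) := by
    rw [← add_sum_erase _ _ (mem_powerset.2 (empty_subset univ))]
    congr 1
    rw [prod_empty, charSum]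
    simp
  set D : ℝ := ∑ i, ((f i).natDegree : ℝ) with hD
  have hD0 : 0 ≤ D := sum_nonneg fun i _ => Nat.cast_nonneg _
  have hsq0 : 0 ≤ Real.sqrt (p : ℝ) := Real.sqrt_nonneg _
  have hw : ∀ S ∈ (univ : Finset (Fin s)).powerset.erase ∅,
      -(D * Real.sqrt p) ≤ (charSum (ZMod p) (∏ i ∈ S, f i) : ℝ) := by
    intro S hS
    have hS0 : S.Nonempty := nonempty_of_ne_empty (ne_of_mem_erase hS)
    have h1 := (abs_le.1 (DQ.weil_charSum hp2 (∏ i ∈ S, f i) (h S hS0))).1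
    refine le_trans ?_ h1
    rw [neg_le_neg_iff]
    apply mul_le_mul_of_nonneg_right _ hsq0
    have h2 : (((∏ i ∈ S, f i).natDegree : ℕ) : ℝ) ≤ D := by
      rw [natDegree_prod S f fun i _ => hf0 i, hD]
      push_cast
      exact sum_le_sum_of_subset_of_nonneg (subset_univ S) fun i _ _ => Nat.cast_nonneg _
    linarith
  have hwsum : -(((2 : ℝ) ^ s - 1) * (D * Real.sqrt p)) ≤
      ∑ S ∈ (univ : Finset (Fin s)).powerset.erase ∅,
        (charSum (ZMod p) (∏ i ∈ S, f i) : ℝ) := by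
    have h1 := card_nsmul_le_sum _ _ _ hw
    rw [card_erase_of_mem (mem_powerset.2 (empty_subset univ)), card_powerset, card_univ,
      Fintype.card_fin, nsmul_eq_mul, Nat.cast_sub (Nat.one_le_two_pow)] at h1
    push_cast at h1
    linarith
  rw [hsum2, hsum3] at hsum
  have hmainR : (p : ℝ) + ∑ S ∈ (univ : Finset (Fin s)).powerset.erase ∅,
        (charSum (ZMod p) (∏ i ∈ S, f i) : ℝ) ≤ 2 ^ s * D := by
    rw [hD]
    exact_mod_cast hsum
  have h6 : (2 : ℝ) ^ s * (D + 1) ≤ Real.sqrt p := by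
    apply Real.le_sqrt_of_sq_le
    rw [hD]
    exact_mod_cast hbig
  have h7 : Real.sqrt p * Real.sqrt p = p := Real.mul_self_sqrt (Nat.cast_nonneg p)
  have h8 : (1 : ℝ) ≤ 2 ^ s := one_le_pow₀ (by norm_num)
  have h9 : (2 : ℝ) ^ s * (D + 1) * Real.sqrt p ≤ p := by
    calc _ ≤ Real.sqrt p * Real.sqrt p := mul_le_mul_of_nonneg_right h6 hsq0
      _ = p := h7
  have h10 : (2 : ℝ) ^ s * (2 ^ s * (D + 1)) ≤ 2 ^ s * Real.sqrt p :=
    mul_le_mul_of_nonneg_left h6 (by positivity)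
  have h11 : (2 : ℝ) ^ s * (D + 1) ≤ 2 ^ s * (2 ^ s * (D + 1)) := by
    have : 0 ≤ (2 : ℝ) ^ s * (D + 1) := by positivity
    nlinarith
  have h12 : 0 ≤ D * Real.sqrt p := mul_nonneg hD0 hsq0
  nlinarith

end Stoll308.EA
end

section
set_option autoImplicit false

/-!
The number of large primes modulo which two coprime polynomials have a common root is bounded.
-/

namespace Stoll308.EA

open Polynomial Finset BF

namespace ResAux

/-- The resultant of the two polynomials over `ℤ`. -/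
noncomputable def res2 {n m : ℕ} (a : Fin (n + 1) → ℤ) (b : Fin (m + 1) → ℤ) : ℤ :=
  resultant (GZ ℤ a) (GZ ℤ b) n m

lemma res2_cast {K : Type*} [Field K] {n m : ℕ} (a : Fin (n + 1) → ℤ) (b : Fin (m + 1) → ℤ)
    (ha : ((a 0 : ℤ) : K) ≠ 0) (hb : ((b 0 : ℤ) : K) ≠ 0) :
    ((res2 a b : ℤ) : K) = resultant (GZ K a) (GZ K b) := by
  rw [DQ.ElsC.gz_deg a ha, DQ.ElsC.gz_deg b hb, ← DQ.ElsC.gz_map' (R := K) a,
    ← DQ.ElsC.gz_map' (R := K) b, resultant_map_map]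
  rfl

lemma res2_ne {n m : ℕ} (a : Fin (n + 1) → ℤ) (b : Fin (m + 1) → ℤ) (ha : a 0 ≠ 0)
    (hb : b 0 ≠ 0) (hc : IsCoprime (GZ ℚ a) (GZ ℚ b)) : res2 a b ≠ 0 := by
  have h1 := res2_cast (K := ℚ) a b (by exact_mod_cast ha) (by exact_mod_cast hb)
  have h3 := resultant_ne_zero _ _ hc
  rw [← h1] at h3
  exact_mod_cast h3

lemma res2_dvd {p : ℕ} [hp : Fact p.Prime] {n m : ℕ} (hn : 1 ≤ n) (a : Fin (n + 1) → ℤ)
    (b : Fin (m + 1) → ℤ) (ha : ¬ (p : ℤ) ∣ a 0) (hb : ¬ (p : ℤ) ∣ b 0)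
    (hc : ¬ IsCoprime (GZ (AlgebraicClosure (ZMod p)) a) (GZ (AlgebraicClosure (ZMod p)) b)) :
    (p : ℤ) ∣ res2 a b := by
  have hC : CharP (AlgebraicClosure (ZMod p)) p := charP_of_injective_algebraMap
    (algebraMap (ZMod p) (AlgebraicClosure (ZMod p))).injective p
  rw [← CharP.intCast_eq_zero_iff (AlgebraicClosure (ZMod p)) p,
    res2_cast a b ((CharP.intCast_eq_zero_iff _ p _).not.mpr ha)
      ((CharP.intCast_eq_zero_iff _ p _).not.mpr hb), resultant_eq_zero_iff]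
  refine ⟨Or.inl ?_, hc⟩
  intro h1
  have h2 := DQ.ElsC.gz_deg (K := AlgebraicClosure (ZMod p)) a
    ((CharP.intCast_eq_zero_iff _ p _).not.mpr ha)
  rw [h1, natDegree_zero] at h2
  omega

lemma gz_coeff_abs {n : ℕ} (a : Fin (n + 1) → ℤ) (B : ℤ) (hB : ∀ i, |a i| ≤ B) (j : ℕ) :
    |(GZ ℤ a).coeff j| ≤ B := by
  have hB0 : 0 ≤ B := (abs_nonneg _).trans (hB 0)
  by_cases hj : j ≤ n
  · rw [BF.Els.gz_coeff _ hj]
    exact hB _
  · rw [BF.Els.gz_coeff_gt _ (by omega), abs_zero]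
    exact hB0

lemma res2_bound {n m : ℕ} (a : Fin (n + 1) → ℤ) (b : Fin (m + 1) → ℤ) (B : ℤ)
    (ha : ∀ i, |a i| ≤ B) (hb : ∀ i, |b i| ≤ B) :
    |res2 a b| ≤ ((n + m).factorial : ℤ) * B ^ (n + m) := by
  have hB0 : 0 ≤ B := (abs_nonneg _).trans (ha 0)
  have h1 : AbsoluteValue.abs (sylvester (GZ ℤ a) (GZ ℤ b) n m).det ≤
      (Fintype.card (Fin (n + m))).factorial • B ^ (Fintype.card (Fin (n + m))) := by
    apply Matrix.det_le
    intro i j
    rw [AbsoluteValue.abs_apply, sylvester, Matrix.of_apply]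
    induction j using Fin.addCases with
    | left j =>
      rw [Fin.addCases_left]
      split_ifs
      · exact gz_coeff_abs b B hb _
      · rw [abs_zero]
        exact hB0
    | right j =>
      rw [Fin.addCases_right]
      split_ifs
      · exact gz_coeff_abs a B ha _
      · rw [abs_zero]
        exact hB0
  rw [Fintype.card_fin, nsmul_eq_mul, AbsoluteValue.abs_apply] at h1
  exact h1

end ResAux

open ResAux in
theorem res_primes (n m B : ℕ) (hn : 1 ≤ n) (hm : 1 ≤ m) :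
    ∃ h₀ : ℕ, ∀ h : ℕ, h₀ ≤ h → ∀ (a : Fin (n + 1) → ℤ) (b : Fin (m + 1) → ℤ),
      (∀ i, |a i| ≤ (B * h : ℕ)) → (∀ i, |b i| ≤ (B * h : ℕ)) → a 0 ≠ 0 → b 0 ≠ 0 →
      IsCoprime (GZ ℚ a) (GZ ℚ b) →
      ∃ T : Finset ℕ, T.card ≤ n + m + 1 ∧ ∀ (p : ℕ) [Fact p.Prime], h < p →
        ¬ (p : ℤ) ∣ a 0 → ¬ (p : ℤ) ∣ b 0 →
        ¬ IsCoprime (GZ (AlgebraicClosure (ZMod p)) a) (GZ (AlgebraicClosure (ZMod p)) b) →
        p ∈ T := by
  refine ⟨(n + m).factorial * B ^ (n + m) + 1, ?_⟩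
  intro h hh a b ha hb ha0 hb0 hc
  have hne := res2_ne a b ha0 hb0 hc
  refine ⟨(res2 a b).natAbs.primeFactors.filter fun p => h < p, ?_, ?_⟩
  · apply BF.Els.card_large (Int.natAbs_pos.mpr hne)
    have h1 := res2_bound a b _ ha hb
    have h2 : ((res2 a b).natAbs : ℤ) < ((h ^ (n + m + 1) : ℕ) : ℤ) := by
      rw [Int.natCast_natAbs]
      refine lt_of_le_of_lt h1 ?_
      have h3 : (n + m).factorial * (B * h) ^ (n + m) < h ^ (n + m + 1) := by
        rw [mul_pow, ← mul_assoc, pow_succ', mul_comm h]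
        rw [mul_comm ((n + m).factorial * B ^ (n + m))]
        have h4 : 0 < h ^ (n + m) := pow_pos (by omega) _
        exact Nat.mul_lt_mul_of_pos_left (by omega) h4
      exact_mod_cast h3
    exact_mod_cast h2
  · intro p hp hhp hpa hpb hcp
    rw [mem_filter, Nat.mem_primeFactors]
    have h1 := res2_dvd hn a b hpa hpb hcp
    refine ⟨⟨hp.out, ?_, Int.natAbs_ne_zero.2 hne⟩, hhp⟩
    have := Int.natAbs_dvd_natAbs.2 h1
    rwa [Int.natAbs_natCast] at this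

end Stoll308.EA
end

section
set_option autoImplicit false

/-!
The square class of the value of the polynomial at a local point is global.
-/

namespace Stoll308.EA

open Polynomial Finset BF Matrix BG

/-- A rational number is a squarefree integer times a square. -/
lemma rat_squarefree (m : ℚ) (hm : m ≠ 0) :
    ∃ (k : ℤ) (q : ℚ), Squarefree k ∧ q ≠ 0 ∧ m = k * q ^ 2 := by
  set z : ℤ := m.num * m.den with hz
  have hz0 : z ≠ 0 := mul_ne_zero (Rat.num_ne_zero.2 hm) (by exact_mod_cast m.den_nz)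
  obtain ⟨s, b, h1, h2⟩ := Nat.sq_mul_squarefree z.natAbs
  have hb : b ≠ 0 := by
    rintro rfl
    apply hz0
    rw [← Int.natAbs_eq_zero, ← h1]
    simp
  have hden : (m.den : ℚ) ≠ 0 := by exact_mod_cast m.den_nz
  refine ⟨z.sign * s, b / m.den, ?_, ?_, ?_⟩
  · rw [← Int.squarefree_natAbs, Int.natAbs_mul, Int.natAbs_sign_of_ne_zero hz0, one_mul]
    simpa using h2
  · exact div_ne_zero (by exact_mod_cast hb) hden
  · have h3 : (z : ℚ) = z.sign * (b ^ 2 * s) := by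
      have h4 : z = z.sign * ((b : ℤ) ^ 2 * s) := by
        conv_lhs => rw [← Int.sign_mul_natAbs z]
        rw [← h1]
        push_cast
        ring
      exact_mod_cast h4
    have h5 : m * m.den ^ 2 = z := by
      rw [hz]
      push_cast
      have h6 : m * m.den = m.num := Rat.mul_den_eq_num m
      calc m * m.den ^ 2 = (m * m.den) * m.den := by ring
        _ = _ := by rw [h6]
    have h7 : m = z / m.den ^ 2 := by
      rw [eq_div_iff (pow_ne_zero 2 hden)]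
      exact h5
    calc m = (z : ℚ) / m.den ^ 2 := h7
      _ = _ := by
        rw [h3]
        push_cast
        field_simp

/-- The multiplication by a constant. -/
lemma det_mulMat_C {K : Type*} [Field K] {n : ℕ} (F : K[X]) (hF : F.Monic)
    (hn : F.natDegree = n) (c : K) : (mulMat n F (C c)).det = c ^ n := by
  have h1 : mulMat n F (C c) = c • (1 : Matrix (Fin n) (Fin n) K) := by
    rw [← HankL.mulMat_one F hF hn]
    ext i j
    have e1 : mulMat n F (C c) i j = ((C c * X ^ (i : ℕ)) %ₘ F).coeff (j : ℕ) := rfl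
    have e2 : mulMat n F 1 i j = ((1 * X ^ (i : ℕ)) %ₘ F).coeff (j : ℕ) := rfl
    rw [Matrix.smul_apply, e1, e2, one_mul, ← smul_eq_C_mul, smul_modByMonic, coeff_smul]
  rw [h1, det_smul, det_one, mul_one, Fintype.card_fin]

/-- `m = a₀ N(δ)` up to squares. -/
theorem exists_twist {n : ℕ} (hn : 1 ≤ n) (he : Even n) (a : Fin (n + 1) → ℤ) (h0 : a 0 ≠ 0)
    (δ : ℚ[X]) (hδ : IsCoprime δ (GZ ℚ a)) :
    ∃ m : ℤ, Squarefree m ∧ ∀ (p : ℕ) [Fact p.Prime] (t c : ℚ_[p]) (u : ℚ_[p][X]), c ≠ 0 →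
      (GZ ℚ_[p] a).eval t ≠ 0 →
      GZ ℚ_[p] a ∣ (C t - X) - C c * δ.map (algebraMap ℚ ℚ_[p]) * u ^ 2 →
      IsSquare (((m : ℤ) : ℚ_[p]) * (GZ ℚ_[p] a).eval t) := by
  have h0Q : ((a 0 : ℤ) : ℚ) ≠ 0 := by exact_mod_cast h0
  set F : ℚ[X] := mon ℚ a with hF
  have hFm : F.Monic := BF.LocLat.mon_monic a h0Q
  have hFn : F.natDegree = n := BF.LocLat.mon_natDegree a h0Q
  have hFd : F ∣ GZ ℚ a := Dvd.intro_left _ (BF.LocLat.GZ_eq a h0Q).symm
  have hco : IsCoprime δ F := hδ.of_isCoprime_of_dvd_right hFd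
  have hN : (mulMat n F δ).det ≠ 0 := mulMat_det_ne_zero F δ hFm hFn hco
  obtain ⟨k, q, hk, hq, hkq⟩ := rat_squarefree ((a 0 : ℤ) * (mulMat n F δ).det)
    (mul_ne_zero h0Q hN)
  refine ⟨k, hk, ?_⟩
  intro p _ t c u hc ht hdvd
  have h0p : ((a 0 : ℤ) : ℚ_[p]) ≠ 0 := by exact_mod_cast h0
  have hGm : (mon ℚ_[p] a).Monic := BF.LocLat.mon_monic a h0p
  have hGn : (mon ℚ_[p] a).natDegree = n := BF.LocLat.mon_natDegree a h0p
  have hGd : mon ℚ_[p] a ∣ GZ ℚ_[p] a := Dvd.intro_left _ (BF.LocLat.GZ_eq a h0p).symm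
  have hmap : mon ℚ_[p] a = F.map (algebraMap ℚ ℚ_[p]) := by
    rw [hF]
    exact (BF.PairEx.mon_map (algebraMap ℚ ℚ_[p]) a).symm
  have h1 := HankL.mulMat_congr (n := n) (mon ℚ_[p] a) _ _ hGm (hGd.trans hdvd)
  have h2 := congrArg Matrix.det h1
  rw [HankL.mulMat_lin_det _ hGm hGn, HankL.mulMat_mul _ _ _ hGm hGn,
    HankL.mulMat_mul _ _ _ hGm hGn, det_mul, det_mul, sq u, HankL.mulMat_mul _ _ _ hGm hGn,
    det_mul, det_mulMat_C _ hGm hGn] at h2
  have h3 : (mulMat n (mon ℚ_[p] a) (δ.map (algebraMap ℚ ℚ_[p]))).det =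
      algebraMap ℚ ℚ_[p] (mulMat n F δ).det := by
    rw [hmap, HankL.mulMat_map _ _ _ hFm, RingHom.map_det]
    rfl
  rw [h3] at h2
  obtain ⟨e, he⟩ := he
  have h4 : (GZ ℚ_[p] a).eval t = (a 0 : ℚ_[p]) * (mon ℚ_[p] a).eval t := by
    have h5 := congrArg (fun g => g.eval t) (BF.LocLat.GZ_eq a h0p)
    simpa [eval_mul, eval_C] using h5
  have hqp : (algebraMap ℚ ℚ_[p] q) ≠ 0 := (_root_.map_ne_zero _).2 hq
  have h6 : (a 0 : ℚ_[p]) * algebraMap ℚ ℚ_[p] (mulMat n F δ).det =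
      (k : ℚ_[p]) * (algebraMap ℚ ℚ_[p] q) ^ 2 := by
    have h7 := congrArg (algebraMap ℚ ℚ_[p]) hkq
    rw [map_mul, map_mul, map_pow, map_intCast, map_intCast] at h7
    exact h7
  set d := algebraMap ℚ ℚ_[p] (mulMat n F δ).det with hd
  set q' := algebraMap ℚ ℚ_[p] q with hq'
  set v := (mulMat n (mon ℚ_[p] a) u).det with hv
  refine ⟨(a 0 : ℚ_[p]) * d * c ^ e * v / q', ?_⟩
  have hce : c ^ n = c ^ e * c ^ e := by rw [← pow_add, ← he]
  rw [h4, h2, hce]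
  have h8 : (k : ℚ_[p]) = (a 0 : ℚ_[p]) * d / q' ^ 2 := by
    rw [eq_div_iff (pow_ne_zero 2 hqp)]
    exact h6.symm
  rw [h8]
  field_simp

end Stoll308.EA
end

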