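import Pool.Agent.Work.BCM.C02
import Pool.Agent.Work.BCM.C04
import Pool.Agent.Work.BCM.C08
import Pool.Agent.Work.BCM.C10

section
set_option autoImplicit false

/-!
Existence of an integral pair of forms in a class which is locally everywhere the class of a point.
-/

namespace Stoll308.BG

open Polynomial Finset Matrix

namespace PairEx

/-- A rational number which is integral at all primes is an integer. -/
lemma int_of_norm_le_one (q : ℚ)
    (h : ∀ (p : ℕ) [Fact p.Prime], ‖algebraMap ℚ ℚ_[p] q‖ ≤ 1) : ∃ z : ℤ, (z : ℚ) = q := by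
  refine ⟨q.num, ?_⟩
  rw [← Rat.den_eq_one_iff]
  by_contra hd
  obtain ⟨p, hp, hpd⟩ := Nat.exists_prime_and_dvd hd
  have : Fact p.Prime := ⟨hp⟩
  have h1 := h p
  rw [eq_ratCast] at h1
  have h2 : (q : ℚ_[p]) * (q.den : ℚ_[p]) = (q.num : ℚ_[p]) := by
    have := Rat.mul_den_eq_num q
    exact_mod_cast congrArg (fun x : ℚ => (x : ℚ_[p])) this
  have h3 : ‖(q.den : ℚ_[p])‖ < 1 := Padic.norm_natCast_lt_one_iff.2 hpd
  have h4 : ‖(q.num : ℚ_[p])‖ < 1 := by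
    rw [← h2, norm_mul]
    calc ‖(q : ℚ_[p])‖ * ‖(q.den : ℚ_[p])‖ ≤ 1 * ‖(q.den : ℚ_[p])‖ :=
          mul_le_mul_of_nonneg_right h1 (norm_nonneg _)
      _ < 1 := by rw [one_mul]; exact h3
  have h5 : (p : ℤ) ∣ q.num := Padic.norm_intCast_lt_one_iff.1 h4
  have h6 : p ∣ q.num.natAbs := Int.natCast_dvd.1 h5
  have h7 := Nat.dvd_gcd h6 hpd
  rw [Nat.Coprime.gcd_eq_one q.reduced] at h7
  exact hp.one_lt.ne' (Nat.dvd_one.1 h7)

/-- Entries of a product of integral matrices. -/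
lemma norm_mul_le_one {n : ℕ} {p : ℕ} [Fact p.Prime] {U V : Matrix (Fin n) (Fin n) ℚ_[p]}
    (hU : ∀ i j, ‖U i j‖ ≤ 1) (hV : ∀ i j, ‖V i j‖ ≤ 1) (i j : Fin n) : ‖(U * V) i j‖ ≤ 1 := by
  rw [mul_apply]
  refine IsUltrametricDist.norm_sum_le_of_forall_le_of_nonneg zero_le_one fun k _ => ?_
  rw [norm_mul]
  exact mul_le_one₀ (hU i k) (norm_nonneg _) (hV k j)

lemma norm_congr_le_one {n : ℕ} {p : ℕ} [Fact p.Prime] {U V : Matrix (Fin n) (Fin n) ℚ_[p]}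
    (hU : ∀ i j, ‖U i j‖ ≤ 1) (hV : ∀ i j, ‖V i j‖ ≤ 1) (i j : Fin n) :
    ‖(U * V * Uᵀ) i j‖ ≤ 1 :=
  norm_mul_le_one (norm_mul_le_one hU hV) (fun i j => hU j i) i j

lemma norm_congr_det {n : ℕ} {p : ℕ} [Fact p.Prime] {U V : Matrix (Fin n) (Fin n) ℚ_[p]}
    (hU : ‖U.det‖ = 1) : ‖(U * V * Uᵀ).det‖ = ‖V.det‖ := by
  rw [det_mul, det_mul, det_transpose, norm_mul, norm_mul, hU]; ring

/-- The primes at which the identity does not work. -/
lemma exists_finset {n : ℕ} (κ : ℤ) (H H1 : Matrix (Fin n) (Fin n) ℚ) (hH : H.det ≠ 0) :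
    ∃ S : Finset ℕ, ∀ (p : ℕ) [Fact p.Prime], p ∉ S →
      (∀ i j, ‖(H.map (algebraMap ℚ ℚ_[p])) i j‖ ≤ 1) ∧
      (∀ i j, ‖(H1.map (algebraMap ℚ ℚ_[p])) i j‖ ≤ 1) ∧
      ‖((κ : ℚ_[p]) ^ (n - 1))‖ ≤ ‖(H.map (algebraMap ℚ ℚ_[p])).det‖ := by
  obtain ⟨N, hN⟩ : ∃ N : ℕ, N = (∏ i, ∏ j, (H i j).den) * (∏ i, ∏ j, (H1 i j).den) *
    H.det.num.natAbs := ⟨_, rfl⟩
  have hN0 : N ≠ 0 := by
    rw [hN]
    refine mul_ne_zero (mul_ne_zero ?_ ?_) ?_
    · exact Finset.prod_ne_zero_iff.2 fun i _ => Finset.prod_ne_zero_iff.2 fun j _ =>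
        (H i j).den_nz
    · exact Finset.prod_ne_zero_iff.2 fun i _ => Finset.prod_ne_zero_iff.2 fun j _ =>
        (H1 i j).den_nz
    · exact Int.natAbs_ne_zero.2 (Rat.num_ne_zero.2 hH)
  refine ⟨N.primeFactors, ?_⟩
  intro p hp hpN
  have hpN' : ¬ p ∣ N := fun h => hpN (Nat.mem_primeFactors.2 ⟨hp.out, h, hN0⟩)
  rw [hN] at hpN'
  refine ⟨fun i j => ?_, fun i j => ?_, ?_⟩
  · rw [map_apply, eq_ratCast]
    refine Padic.norm_rat_le_one fun h => hpN' ?_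
    refine Dvd.dvd.mul_right (Dvd.dvd.mul_right (h.trans ?_) _) _
    exact (Finset.dvd_prod_of_mem (fun j => (H i j).den) (mem_univ j)).trans
      (Finset.dvd_prod_of_mem (fun i => ∏ j, (H i j).den) (mem_univ i))
  · rw [map_apply, eq_ratCast]
    refine Padic.norm_rat_le_one fun h => hpN' ?_
    refine Dvd.dvd.mul_right (Dvd.dvd.mul_left (h.trans ?_) _) _
    exact (Finset.dvd_prod_of_mem (fun j => (H1 i j).den) (mem_univ j)).trans
      (Finset.dvd_prod_of_mem (fun i => ∏ j, (H1 i j).den) (mem_univ i))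
  · have h1 : ‖((κ : ℚ_[p]) ^ (n - 1))‖ ≤ 1 := by
      rw [norm_pow]
      exact pow_le_one₀ (norm_nonneg _) (Padic.norm_int_le_one κ)
    refine h1.trans ?_
    have h2 : (H.map (algebraMap ℚ ℚ_[p])).det = ((H.det : ℚ) : ℚ_[p]) := by
      rw [← RingHom.mapMatrix_apply, ← RingHom.map_det, eq_ratCast]
    rw [h2]
    have h3 : ((H.det : ℚ) : ℚ_[p]) * (H.det.den : ℚ_[p]) = (H.det.num : ℚ_[p]) := by
      exact_mod_cast congrArg (fun x : ℚ => (x : ℚ_[p])) (Rat.mul_den_eq_num H.det)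
    have h4 : ‖(H.det.num : ℚ_[p])‖ = 1 := by
      refine le_antisymm (Padic.norm_int_le_one _) ?_
      by_contra h
      rw [not_le] at h
      have h5 : (p : ℤ) ∣ H.det.num := Padic.norm_intCast_lt_one_iff.1 h
      exact hpN' (Dvd.dvd.mul_left (Int.natCast_dvd.1 h5) _)
    rw [← h4, ← h3, norm_mul]
    have h6 : ‖(H.det.den : ℚ_[p])‖ ≤ 1 := by
      have := Padic.norm_int_le_one (p := p) (H.det.den : ℤ)
      rwa [Int.cast_natCast] at this
    exact mul_le_of_le_one_right (norm_nonneg _) h6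

end PairEx

open PairEx in
theorem exists_pair {n : ℕ} (hn : 2 ≤ n) (κ : ℤ) (hκ : κ ≠ 0) (c : Fin n → ℤ) (δ : ℚ[X])
    (hδ : IsCoprime δ (FZ ℚ c)) (hloc : ∀ (p : ℕ) [Fact p.Prime], MLoc κ c δ ℚ_[p]) :
    ∃ A B : Matrix (Fin n) (Fin n) ℤ, IsPair c δ A B ∧ A.det ∣ κ ^ (n - 1) := by
  obtain ⟨H, hHdef⟩ : ∃ H, H = Hank n (FZ ℚ c) δ := ⟨_, rfl⟩
  obtain ⟨H1, hH1def⟩ : ∃ H, H = Hank n (FZ ℚ c) (X * δ) := ⟨_, rfl⟩
  have hH : H.det ≠ 0 := by
    rw [hHdef]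
    exact hank_det_ne_zero _ _ (FZ_monic c) (FZ_natDegree c) hδ
  have hHp : ∀ (p : ℕ) [Fact p.Prime], H.map (algebraMap ℚ ℚ_[p]) =
      Hank n (FZ ℚ_[p] c) (δ.map (algebraMap ℚ ℚ_[p])) := by
    intro p hp
    rw [hHdef, ← hank_map _ _ _ (FZ_monic c), FZ_map]
  have hH1p : ∀ (p : ℕ) [Fact p.Prime], H1.map (algebraMap ℚ ℚ_[p]) =
      Hank n (FZ ℚ_[p] c) (X * δ.map (algebraMap ℚ ℚ_[p])) := by
    intro p hp
    rw [hH1def, ← hank_map _ _ _ (FZ_monic c), FZ_map, Polynomial.map_mul, Polynomial.map_X]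
  obtain ⟨S, hS⟩ := exists_finset κ H H1 hH
  have hl : ∀ (p : ℕ) [Fact p.Prime], ∃ g : Matrix (Fin n) (Fin n) ℚ_[p], g.det ≠ 0 ∧
      (∀ i j, ‖(g * H.map (algebraMap ℚ ℚ_[p]) * gᵀ) i j‖ ≤ 1) ∧
      (∀ i j, ‖(g * H1.map (algebraMap ℚ ℚ_[p]) * gᵀ) i j‖ ≤ 1) ∧
      ‖((κ : ℚ_[p]) ^ (n - 1))‖ ≤ ‖(g * H.map (algebraMap ℚ ℚ_[p]) * gᵀ).det‖ := by
    intro p hp
    obtain ⟨g, h1, h2, h3, h4⟩ := loc_lattice hn κ hκ c δ p (hloc p)
    rw [← hHp p] at h2 h4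
    rw [← hH1p p] at h3
    exact ⟨g, h1, h2, h3, h4⟩
  choose g hg1 hg2 hg3 hg4 using hl
  obtain ⟨G, hG, hGS, hGN⟩ := glue S (fun p _ => g p) (fun p _ _ => hg1 p)
  -- the transformed matrices at each prime
  have key : ∀ (p : ℕ) [Fact p.Prime],
      (∀ i j, ‖((G * H * Gᵀ).map (algebraMap ℚ ℚ_[p])) i j‖ ≤ 1) ∧
      (∀ i j, ‖((G * H1 * Gᵀ).map (algebraMap ℚ ℚ_[p])) i j‖ ≤ 1) ∧
      ‖((κ : ℚ_[p]) ^ (n - 1))‖ ≤ ‖((G * H * Gᵀ).map (algebraMap ℚ ℚ_[p])).det‖ := by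
    intro p hp
    have hm : ∀ H : Matrix (Fin n) (Fin n) ℚ, (G * H * Gᵀ).map (algebraMap ℚ ℚ_[p]) =
        G.map (algebraMap ℚ ℚ_[p]) * H.map (algebraMap ℚ ℚ_[p]) *
          (G.map (algebraMap ℚ ℚ_[p]))ᵀ := by
      intro H
      rw [Matrix.map_mul, Matrix.map_mul, Matrix.transpose_map]
    rw [hm, hm]
    by_cases hpS : p ∈ S
    · obtain ⟨hU1, hU2⟩ := hGS p hpS
      obtain ⟨U, hU⟩ : ∃ U, U = G.map (algebraMap ℚ ℚ_[p]) * (g p)⁻¹ := ⟨_, rfl⟩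
      rw [← hU] at hU1 hU2
      have hUg : G.map (algebraMap ℚ ℚ_[p]) = U * g p := by
        rw [hU, Matrix.mul_assoc, nonsing_inv_mul _ (isUnit_iff_ne_zero.2 (hg1 p)),
          Matrix.mul_one]
      have he : ∀ V : Matrix (Fin n) (Fin n) ℚ_[p], (U * g p) * V * (U * g p)ᵀ =
          U * (g p * V * (g p)ᵀ) * Uᵀ := by
        intro V
        rw [transpose_mul]
        simp only [Matrix.mul_assoc]
      rw [hUg, he, he]
      exact ⟨norm_congr_le_one hU1 (hg2 p), norm_congr_le_one hU1 (hg3 p), by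
        rw [norm_congr_det hU2]; exact hg4 p⟩
    · obtain ⟨hU1, hU2⟩ := hGN p hpS
      obtain ⟨h1, h2, h3⟩ := hS p hpS
      exact ⟨norm_congr_le_one hU1 h1, norm_congr_le_one hU1 h2, by
        rw [norm_congr_det hU2]; exact h3⟩
  have hA : ∀ i j, ∃ z : ℤ, (z : ℚ) = (G * H * Gᵀ) i j := fun i j =>
    int_of_norm_le_one _ fun p _ => (key p).1 i j
  have hB : ∀ i j, ∃ z : ℤ, (z : ℚ) = (G * H1 * Gᵀ) i j := fun i j =>
    int_of_norm_le_one _ fun p _ => (key p).2.1 i j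
  choose A hA using hA
  choose B hB using hB
  have hAm : (Matrix.of A).map (Int.cast : ℤ → ℚ) = G * H * Gᵀ := by
    ext i j; exact hA i j
  have hBm : (Matrix.of B).map (Int.cast : ℤ → ℚ) = G * H1 * Gᵀ := by
    ext i j; exact hB i j
  refine ⟨Matrix.of A, Matrix.of B, ⟨G, hG, by rw [hAm, hHdef], by rw [hBm, hH1def]⟩, ?_⟩
  have hdet : (((Matrix.of A).det : ℤ) : ℚ) = (G * H * Gᵀ).det := by
    rw [← hAm]
    exact (Int.castRingHom ℚ).map_det (Matrix.of A)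
  have hdet0 : (((Matrix.of A).det : ℤ) : ℚ) ≠ 0 := by
    rw [hdet, det_mul, det_mul, det_transpose]
    exact mul_ne_zero (mul_ne_zero hG hH) hG
  obtain ⟨z, hz⟩ := int_of_norm_le_one ((κ : ℚ) ^ (n - 1) / ((Matrix.of A).det : ℤ)) (by
    intro p hp
    have h := (key p).2.2
    have e : ((G * H * Gᵀ).map (algebraMap ℚ ℚ_[p])).det =
        algebraMap ℚ ℚ_[p] (((Matrix.of A).det : ℤ) : ℚ) := by
      rw [hdet, ← RingHom.mapMatrix_apply, ← RingHom.map_det]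
    rw [e] at h
    rw [map_div₀, norm_div, div_le_one (norm_pos_iff.2 (by
      rw [Ne, map_eq_zero]; exact hdet0)), map_pow, map_intCast]
    exact h)
  refine ⟨z, ?_⟩
  rw [eq_div_iff hdet0] at hz
  have : ((κ ^ (n - 1) : ℤ) : ℚ) = (((Matrix.of A).det * z : ℤ) : ℚ) := by
    rw [Int.cast_pow, Int.cast_mul, ← hz, mul_comm]
  exact Int.cast_injective this

end Stoll308.BG
end

section
set_option autoImplicit false

/-!
The local condition at a prime dividing the constant coefficient exactly once.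
-/

namespace Stoll308.BG

open Polynomial Finset Matrix

namespace LCond

/-- The constant and the linear coefficient of the characteristic polynomial. -/
lemma char_coeffs {n : ℕ} (c : Fin n → ℤ) (A B : Matrix (Fin n) (Fin n) ℤ) (h : HasChar c A B) :
    (-1) ^ n * B.det = A.det * (FZ ℤ c).eval 0 ∧
      (-1) ^ (n - 1) * (B.adjugate * A).trace = A.det * (derivative (FZ ℤ c)).eval 0 := by
  obtain ⟨-, hc⟩ := h
  have h8 : (((X : ℤ[X]) • A.map C - B.map C).map (evalRingHom (0 : ℤ))) = (-1 : ℤ) • B := by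
    ext a b
    simp [Matrix.map_apply, Matrix.sub_apply, Matrix.smul_apply]
  have h9 : (A.map (C : ℤ →+* ℤ[X])).map (evalRingHom (0 : ℤ)) = A := by
    ext a b
    simp
  constructor
  · have h1 := congrArg (evalRingHom (0 : ℤ)) hc
    rw [RingHom.map_det, RingHom.mapMatrix_apply, h8, Matrix.det_smul, Fintype.card_fin,
      map_mul] at h1
    simpa using h1
  · have h5 := derivative_det ((X : ℤ[X]) • A.map C - B.map C)
    rw [hc, derivative_C_mul] at h5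
    have h6 : ((X : ℤ[X]) • A.map C - B.map C).map (fun q => derivative q) = A.map C := by
      ext a b
      simp [Matrix.map_apply, Matrix.sub_apply, Matrix.smul_apply, derivative_mul]
    rw [h6] at h5
    have h7 := congrArg (Polynomial.eval (0 : ℤ)) h5
    rw [eval_mul, eval_C] at h7
    rw [h7]
    have h10 : eval (0 : ℤ) (((X : ℤ[X]) • A.map C - B.map C).adjugate * A.map C).trace =
        ((((X : ℤ[X]) • A.map C - B.map C).adjugate * A.map C).map (evalRingHom (0 : ℤ))).trace := by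
      simp only [Matrix.trace, Matrix.diag_apply, eval_finsetSum, Matrix.map_apply,
        coe_evalRingHom]
    have h11 : (((X : ℤ[X]) • A.map C - B.map C).adjugate).map (evalRingHom (0 : ℤ)) =
        (((X : ℤ[X]) • A.map C - B.map C).map (evalRingHom (0 : ℤ))).adjugate :=
      RingHom.map_adjugate (evalRingHom (0 : ℤ)) _
    rw [h10, Matrix.map_mul, h9, h11, h8, Matrix.adjugate_smul, Fintype.card_fin,
      Matrix.smul_mul, Matrix.trace_smul, smul_eq_mul]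

end LCond

open LCond

theorem lcond {n : ℕ} (hn : 2 ≤ n) (κ : ℤ) (c : Fin n → ℤ) (δ : ℚ[X])
    (hδ : IsCoprime δ (FZ ℚ c)) (l : ℕ) [hl : Fact l.Prime] (h2 : l ≠ 2) (hκ : ¬ (l : ℤ) ∣ κ)
    (hloc : MLoc κ c δ ℚ_[l]) (A B : Matrix (Fin n) (Fin n) ℤ) (h : IsPair c δ A B)
    (hdet : A.det ∣ κ ^ (n - 1)) : ¬ Bad κ l A B := by
  rintro ⟨hB1, hB2, htr, hl', i, hi⟩
  have hlp : Prime (l : ℤ) := Nat.prime_iff_prime_int.mp hl.out
  obtain ⟨hc1, hc2⟩ := char_coeffs c A B (h.hasChar hδ)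
  have hdetl : ¬ (l : ℤ) ∣ A.det := fun hd => hκ (hlp.dvd_of_dvd_pow (hd.trans hdet))
  have h1 : (l : ℤ) ∣ (FZ ℤ c).eval 0 := by
    have h5 : (l : ℤ) ∣ A.det * (FZ ℤ c).eval 0 := by
      rw [← hc1]
      exact Dvd.dvd.mul_left hB1 _
    exact (hlp.dvd_or_dvd h5).resolve_left hdetl
  have h3 : ¬ (l : ℤ) ^ 2 ∣ (FZ ℤ c).eval 0 := by
    intro h5
    apply hB2
    have h6 : (l : ℤ) ^ 2 ∣ (-1) ^ n * B.det := by
      rw [hc1]
      exact Dvd.dvd.mul_left h5 _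
    have h7 : (l : ℤ) ^ 2 ∣ (-1) ^ n * ((-1) ^ n * B.det) := Dvd.dvd.mul_left h6 _
    rw [← mul_assoc, ← mul_pow] at h7
    simpa using h7
  have h4 : ¬ (l : ℤ) ∣ (derivative (FZ ℤ c)).eval 0 := by
    intro h5
    apply htr
    have h6 : (l : ℤ) ∣ (-1) ^ (n - 1) * (B.adjugate * A).trace := by
      rw [hc2]
      exact Dvd.dvd.mul_left h5 _
    have h7 : (l : ℤ) ∣ (-1) ^ (n - 1) * ((-1) ^ (n - 1) * (B.adjugate * A).trace) :=
      Dvd.dvd.mul_left h6 _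
    rw [← mul_assoc, ← mul_pow] at h7
    simpa using h7
  obtain ⟨θ, hθn, hθ, hθd, w, hw0, hw⟩ := local_core κ c δ l h2 hκ hloc h1 h3 h4
  obtain ⟨G, hG, hA, hB⟩ := h
  -- over `ℚ_l`
  set φ : ℚ →+* ℚ_[l] := algebraMap ℚ ℚ_[l] with hφ
  have hFm : (FZ ℚ c).Monic := FZ_monic c
  have hmapF : (FZ ℚ c).map φ = FZ ℚ_[l] c := FZ_map φ c
  have hA' : A.map (Int.cast : ℤ → ℚ_[l]) =
      G.map φ * Hank n (FZ ℚ_[l] c) (δ.map φ) * (G.map φ)ᵀ := by
    have h5 : A.map (Int.cast : ℤ → ℚ_[l]) = (A.map (Int.cast : ℤ → ℚ)).map φ := by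
      ext a b
      simp
    rw [h5, hA, Matrix.map_mul, Matrix.map_mul, ← hmapF, hank_map φ _ _ hFm,
      Matrix.transpose_map]
  have hB' : B.map (Int.cast : ℤ → ℚ_[l]) =
      G.map φ * Hank n (FZ ℚ_[l] c) (X * δ.map φ) * (G.map φ)ᵀ := by
    have h5 : B.map (Int.cast : ℤ → ℚ_[l]) = (B.map (Int.cast : ℤ → ℚ)).map φ := by
      ext a b
      simp
    have h6 : X * δ.map φ = (X * δ).map φ := by simp
    rw [h5, hB, Matrix.map_mul, Matrix.map_mul, ← hmapF, h6, hank_map φ _ _ hFm,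
      Matrix.transpose_map]
  have hGd : (G.map φ).det ≠ 0 := by
    rw [← RingHom.mapMatrix_apply, ← RingHom.map_det]
    exact (map_ne_zero φ).mpr hG
  obtain ⟨r, hr⟩ := adj_square (FZ ℚ_[l] c) (δ.map φ) (FZ_monic c) (FZ_natDegree c) (θ : ℚ_[l])
    hθ hθd (G.map φ) hGd _ _ hA' hB' i
  have hδ0 : (δ.map φ).eval (θ : ℚ_[l]) ≠ 0 := by
    intro h0
    rw [h0, mul_zero] at hw
    exact pow_ne_zero 2 hw0 hw.symm
  -- the integral element
  set N : Matrix (Fin n) (Fin n) ℤ_[l] := θ • A.map (Int.cast : ℤ → ℤ_[l]) -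
    B.map (Int.cast : ℤ → ℤ_[l]) with hN
  have hNc : ((N.adjugate i i * ((A.det : ℤ) : ℤ_[l]) * ((κ : ℤ) : ℤ_[l]) : ℤ_[l]) : ℚ_[l]) =
      ((θ : ℚ_[l]) • A.map (Int.cast : ℤ → ℚ_[l]) - B.map (Int.cast : ℤ → ℚ_[l])).adjugate i i *
        (A.map (Int.cast : ℤ → ℚ_[l])).det * κ := by
    have h5 : N.map (PadicInt.Coe.ringHom (p := l)) =
        (θ : ℚ_[l]) • A.map (Int.cast : ℤ → ℚ_[l]) - B.map (Int.cast : ℤ → ℚ_[l]) := by
      ext a b
      rw [hN]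
      simp only [Matrix.map_apply, Matrix.sub_apply, Matrix.smul_apply, smul_eq_mul, map_sub,
        map_mul, map_intCast]
      rfl
    have h6 : (A.map (Int.cast : ℤ → ℚ_[l])).det = ((A.det : ℤ) : ℚ_[l]) := by
      have h7 := RingHom.map_det (Int.castRingHom ℚ_[l]) A
      rw [RingHom.mapMatrix_apply] at h7
      exact h7.symm
    rw [← h5, h6, ← RingHom.mapMatrix_apply, ← RingHom.map_adjugate, RingHom.mapMatrix_apply,
      Matrix.map_apply]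
    simp only [PadicInt.coe_mul, PadicInt.coe_intCast]
    rfl
  have hsq : IsSquare ((N.adjugate i i * ((A.det : ℤ) : ℤ_[l]) * ((κ : ℤ) : ℤ_[l]) : ℤ_[l]) :
      ℚ_[l]) := by
    rw [hNc]
    refine ⟨r * w / (δ.map φ).eval (θ : ℚ_[l]), ?_⟩
    have h5 : r * w / (δ.map φ).eval (θ : ℚ_[l]) * (r * w / (δ.map φ).eval (θ : ℚ_[l])) =
        (r * r) * w ^ 2 / ((δ.map φ).eval (θ : ℚ_[l])) ^ 2 := by
      field_simp
    rw [h5, ← hr, ← hw, eq_div_iff (pow_ne_zero 2 hδ0)]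
    ring
  apply not_neg_one l ((-1) ^ (n - 1) * B.adjugate i i * A.det * κ) _ hsq _ hi
  have hθ0 : PadicInt.toZMod θ = 0 := by
    rw [← RingHom.mem_ker, PadicInt.ker_toZMod]
    rw [IsLocalRing.mem_maximalIdeal, mem_nonunits_iff, PadicInt.isUnit_iff]
    exact ne_of_lt hθn
  have h5 : N.map (PadicInt.toZMod (p := l)) = ((-1 : ℤ) • B).map (Int.castRingHom (ZMod l)) := by
    ext a b
    rw [hN]
    simp only [Matrix.map_apply, Matrix.sub_apply, Matrix.smul_apply, smul_eq_mul, map_sub,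
      map_mul, map_intCast, hθ0, zero_mul, zero_sub]
    simp
  have h6 : PadicInt.toZMod (N.adjugate i i) =
      (((-1 : ℤ) • B).adjugate i i : ℤ) := by
    have h7 : PadicInt.toZMod (N.adjugate i i) = (N.map (PadicInt.toZMod (p := l))).adjugate i i := by
      rw [← RingHom.mapMatrix_apply, ← RingHom.map_adjugate, RingHom.mapMatrix_apply,
        Matrix.map_apply]
    rw [h7, h5, ← RingHom.mapMatrix_apply, ← RingHom.map_adjugate, RingHom.mapMatrix_apply,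
      Matrix.map_apply]
    rfl
  rw [map_mul, map_mul, h6, Matrix.adjugate_smul, Fintype.card_fin, map_intCast, map_intCast]
  simp only [Matrix.smul_apply, smul_eq_mul]
  push_cast
  ring

/-- The condition for the trivial class; `c i` is the constant coefficient, `c j` the coefficient of
`T`. -/
theorem lcond_triv {n : ℕ} (hn : 2 ≤ n) (κ : ℤ) (c : Fin n → ℤ) (δ : ℚ[X])
    (hδ : IsCoprime δ (FZ ℚ c)) (l : ℕ) [hl : Fact l.Prime] (h2 : l ≠ 2) (hκ : ¬ (l : ℤ) ∣ κ)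
    (hloc : MLoc κ c δ ℚ_[l]) (ht : Triv c δ) (i j : Fin n) (hi : (i : ℕ) + 1 = n)
    (hj : (j : ℕ) + 2 = n) (h1 : (l : ℤ) ∣ c i) (h3 : ¬ (l : ℤ) ^ 2 ∣ c i)
    (h4 : ¬ (l : ℤ) ∣ c j) : legendreSym l κ ≠ -1 := by
  have e0 : (FZ ℤ c).eval 0 = c i := by
    rw [← coeff_zero_eq_eval_zero, ← FZ_coeff c i]
    congr 1
    omega
  have e1 : (derivative (FZ ℤ c)).eval 0 = c j := by
    rw [← coeff_zero_eq_eval_zero, coeff_derivative, ← FZ_coeff c j]
    have h5 : n - 1 - (j : ℕ) = 0 + 1 := by omega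
    rw [h5]
    simp
  obtain ⟨θ, hθn, hθ, hθd, w, hw0, hw⟩ := local_core κ c δ l h2 hκ hloc (by rw [e0]; exact h1)
    (by rw [e0]; exact h3) (by rw [e1]; exact h4)
  obtain ⟨s, q, hq⟩ := ht
  set φ : ℚ →+* ℚ_[l] := algebraMap ℚ ℚ_[l] with hφ
  have h5 : (δ.map φ).eval (θ : ℚ_[l]) = (s.map φ).eval (θ : ℚ_[l]) ^ 2 := by
    have h6 := congrArg (fun p : ℚ[X] => (p.map φ).eval (θ : ℚ_[l])) hq
    simp only [Polynomial.map_sub, Polynomial.map_mul, Polynomial.map_pow, eval_sub, eval_mul,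
      eval_pow] at h6
    rw [FZ_map φ c, hθ, zero_mul] at h6
    exact sub_eq_zero.mp h6
  have h0 : (s.map φ).eval (θ : ℚ_[l]) ≠ 0 := by
    intro h0
    rw [h5, h0] at hw
    exact pow_ne_zero 2 hw0 (by rw [← hw]; ring)
  refine not_neg_one l κ ((κ : ℤ) : ℤ_[l]) ?_ (by simp)
  refine ⟨w / (s.map φ).eval (θ : ℚ_[l]), ?_⟩
  rw [div_mul_div_comm, eq_div_iff (mul_ne_zero h0 h0)]
  rw [h5] at hw
  push_cast
  linear_combination hw

end Stoll308.BG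
end

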