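import Pool.Agent.Work.BCM.C02
import Pool.Agent.Work.BCM.C17
import Pool.Agent.Work.BCM.C18
import Pool.Agent.Work.BCM.C19

section
set_option autoImplicit false

/-!
The majorant of a pair.
-/

namespace Stoll308.BG

open Polynomial Finset Matrix

namespace Major

lemma exists_roots {n : ℕ} (c : Fin n → ℤ) (hF : Irreducible (FZ ℚ c)) :
    ∃ θ : Fin n → ℂ, Function.Injective θ ∧ ∀ z : ℂ, (FZ ℂ c).eval z = 0 ↔ ∃ i, θ i = z := by
  classical
  have hm : (FZ ℚ c).map (algebraMap ℚ ℂ) = FZ ℂ c := FZ_map _ c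
  have hsep : (FZ ℂ c).Separable := by
    rw [← hm]
    exact hF.separable.map
  have h0 : FZ ℂ c ≠ 0 := (FZ_monic c).ne_zero
  have hcard : (FZ ℂ c).roots.toFinset.card = n := by
    rw [Multiset.toFinset_card_of_nodup (nodup_roots hsep),
      (IsAlgClosed.splits (FZ ℂ c)).natDegree_eq_card_roots.symm, FZ_natDegree]
  let e := Finset.equivFinOfCardEq hcard
  refine ⟨fun i => (e.symm i : ℂ), fun i j hij => e.symm.injective (Subtype.ext hij), fun z => ?_⟩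
  constructor
  · intro hz
    have hz' : z ∈ (FZ ℂ c).roots.toFinset := by
      rw [Multiset.mem_toFinset, mem_roots h0]
      exact hz
    exact ⟨e ⟨z, hz'⟩, by simp⟩
  · rintro ⟨i, rfl⟩
    have := (e.symm i).2
    rw [Multiset.mem_toFinset, mem_roots h0] at this
    exact this

lemma eval_conj (p : ℚ[X]) (z : ℂ) : (p.map (algebraMap ℚ ℂ)).eval ((starRingEnd ℂ) z) =
    (starRingEnd ℂ) ((p.map (algebraMap ℚ ℂ)).eval z) := by
  have h : (p.map (algebraMap ℚ ℂ)).map (starRingEnd ℂ) = p.map (algebraMap ℚ ℂ) := by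
    rw [Polynomial.map_map]
    congr 1
    exact Subsingleton.elim _ _
  conv_lhs => rw [← h]
  rw [eval_map, eval₂_at_apply]

variable {n : ℕ}

/-- the denominators -/
noncomputable def den (θ : Fin n → ℂ) (k : Fin n) : ℂ := ∏ j ∈ univ.erase k, (θ k - θ j)

lemma hank_eq (c : Fin n → ℤ) (θ : Fin n → ℂ) (hθ : Function.Injective θ)
    (hr : ∀ i, (FZ ℂ c).eval (θ i) = 0) (δ : ℂ[X]) :
    Hank n (FZ ℂ c) δ = (Matrix.of fun (j k : Fin n) => θ k ^ (j : ℕ)) *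
      diagonal (fun k => δ.eval (θ k) / den θ k) *
      (Matrix.of fun (j k : Fin n) => θ k ^ (j : ℕ))ᵀ := by
  classical
  ext i j
  have hmon := FZ_monic (R := ℂ) c
  have hdeg : ((δ * X ^ ((i : ℕ) + j)) %ₘ FZ ℂ c).degree < #(univ : Finset (Fin n)) := by
    refine (degree_modByMonic_lt _ hmon).trans_le ?_
    rw [degree_eq_natDegree hmon.ne_zero, FZ_natDegree, card_univ, Fintype.card_fin]
  have h1 := Lagrange.coeff_eq_sum (s := (univ : Finset (Fin n))) (v := θ) (hθ.injOn) hdeg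
  rw [card_univ, Fintype.card_fin] at h1
  unfold Hank
  rw [h1, Matrix.mul_apply]
  refine sum_congr rfl (fun k _ => ?_)
  have h2 : ((δ * X ^ ((i : ℕ) + j)) %ₘ FZ ℂ c).eval (θ k) =
      δ.eval (θ k) * θ k ^ ((i : ℕ) + j) := by
    have h3 := modByMonic_add_div (δ * X ^ ((i : ℕ) + j)) (FZ ℂ c)
    have h4 := congrArg (fun q => q.eval (θ k)) h3
    simp only [eval_add, eval_mul, hr k, zero_mul, add_zero, eval_pow, eval_X] at h4
    exact h4
  rw [h2, Matrix.mul_diagonal, Matrix.transpose_apply, Matrix.of_apply, Matrix.of_apply]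
  unfold den
  rw [pow_add]
  ring

lemma quad (W : Matrix (Fin n) (Fin n) ℂ) (D : Fin n → ℂ) (u v : Fin n → ℂ) :
    u ⬝ᵥ (W * diagonal D * Wᵀ) *ᵥ v = ∑ k, D k * (u ᵥ* W) k * (v ᵥ* W) k := by
  rw [← mulVec_mulVec, ← mulVec_mulVec, dotProduct_mulVec, mulVec_transpose, dotProduct]
  refine sum_congr rfl (fun k _ => ?_)
  rw [mulVec_diagonal]
  ring

lemma quadH (W : Matrix (Fin n) (Fin n) ℂ) (D : Fin n → ℂ) (u v : Fin n → ℂ)
    (hv : ∀ i, (starRingEnd ℂ) (v i) = v i) :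
    u ⬝ᵥ (W * diagonal D * Wᴴ) *ᵥ v =
      ∑ k, D k * (u ᵥ* W) k * (starRingEnd ℂ) ((v ᵥ* W) k) := by
  rw [← mulVec_mulVec, ← mulVec_mulVec, dotProduct_mulVec, dotProduct]
  refine sum_congr rfl (fun k _ => ?_)
  rw [mulVec_diagonal]
  have : (Wᴴ *ᵥ v) k = (starRingEnd ℂ) ((v ᵥ* W) k) := by
    simp only [mulVec, vecMul, dotProduct, conjTranspose_apply, map_sum, map_mul]
    refine sum_congr rfl (fun i _ => ?_)
    rw [hv i, mul_comm]
    rfl
  rw [this]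
  ring

end Major

theorem majorant {n : ℕ} (hn : 2 ≤ n) (c : Fin n → ℤ) (hF : Irreducible (FZ ℚ c)) (δ : ℚ[X])
    (hδ : IsCoprime δ (FZ ℚ c)) (A B : Matrix (Fin n) (Fin n) ℤ) (h : IsPair c δ A B)
    (M : ℝ) (hM : ∀ θ : ℂ, (FZ ℂ c).eval θ = 0 → ‖θ‖ ≤ M) :
    ∃ P : Matrix (Fin n) (Fin n) ℝ, P.PosDef ∧ P.det = |(A.det : ℝ)| ∧
      (∀ u v : Fin n → ℝ, (u ⬝ᵥ (A.map (Int.cast : ℤ → ℝ)) *ᵥ v) ^ 2 ≤
        (u ⬝ᵥ P *ᵥ u) * (v ⬝ᵥ P *ᵥ v)) ∧
      (∀ u v : Fin n → ℝ, (u ⬝ᵥ (B.map (Int.cast : ℤ → ℝ)) *ᵥ v) ^ 2 ≤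
        M ^ 2 * ((u ⬝ᵥ P *ᵥ u) * (v ⬝ᵥ P *ᵥ v))) := by
  classical
  have _ := hn
  obtain ⟨θ, hθ, hroot⟩ := Major.exists_roots c hF
  have hr : ∀ i, (FZ ℂ c).eval (θ i) = 0 := fun i => (hroot _).2 ⟨i, rfl⟩
  obtain ⟨G, hG, hGA, hGB⟩ := h
  have hAdet : A.det ≠ 0 := (IsPair.hasChar ⟨G, hG, hGA, hGB⟩ hδ).1
  -- the conjugation of the roots
  have hm : (FZ ℚ c).map (algebraMap ℚ ℂ) = FZ ℂ c := FZ_map _ c
  have hσ0 : ∀ i, ∃ j, θ j = (starRingEnd ℂ) (θ i) := by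
    intro i
    rw [← hroot, ← hm, Major.eval_conj, hm, hr i, map_zero]
  choose σ0 hσ0 using hσ0
  have hσinj : Function.Injective σ0 := by
    intro i j hij
    apply hθ
    have h1 := hσ0 i
    rw [hij, hσ0 j] at h1
    exact (starRingEnd ℂ).injective h1.symm
  let σ : Equiv.Perm (Fin n) := Equiv.ofBijective σ0 (Finite.injective_iff_bijective.1 hσinj)
  have hσ : ∀ i, θ (σ i) = (starRingEnd ℂ) (θ i) := hσ0
  set D : Fin n → ℂ := fun k => (δ.map (algebraMap ℚ ℂ)).eval (θ k) / Major.den θ k with hD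
  have hden : ∀ k, Major.den θ (σ k) = (starRingEnd ℂ) (Major.den θ k) := by
    intro k
    unfold Major.den
    rw [map_prod]
    symm
    refine Finset.prod_equiv σ (fun j => ?_) (fun j _ => ?_)
    · simp
    · rw [map_sub, hσ, hσ]
  have hDσ : ∀ k, ‖D (σ k)‖ = ‖D k‖ := by
    intro k
    simp only [hD]
    rw [hσ, Major.eval_conj, hden, ← map_div₀]
    exact Complex.norm_conj _
  set V : Matrix (Fin n) (Fin n) ℂ := Matrix.of fun (j k : Fin n) => θ k ^ (j : ℕ) with hV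
  set W : Matrix (Fin n) (Fin n) ℂ := G.map (algebraMap ℚ ℂ) * V with hW
  have hWσ : ∀ i k, W i (σ k) = (starRingEnd ℂ) (W i k) := by
    intro i k
    simp only [hW, Matrix.mul_apply, map_sum, map_mul]
    refine sum_congr rfl (fun j _ => ?_)
    rw [hV, Matrix.of_apply, Matrix.of_apply, hσ, map_pow, Matrix.map_apply]
    congr 1
    simp
  have hA : A.map (Int.cast : ℤ → ℂ) = W * diagonal D * Wᵀ := by
    have h1 : A.map (Int.cast : ℤ → ℂ) =
        (A.map (Int.cast : ℤ → ℚ)).map (algebraMap ℚ ℂ) := by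
      ext i j
      simp
    rw [h1, hGA, Matrix.map_mul, Matrix.map_mul, ← hank_map _ _ _ (FZ_monic c), hm,
      Major.hank_eq c θ hθ hr, hW, Matrix.transpose_map, Matrix.transpose_mul]
    simp only [Matrix.mul_assoc, hD, hV]
  have hB : B.map (Int.cast : ℤ → ℂ) = W * diagonal (fun k => θ k * D k) * Wᵀ := by
    have h1 : B.map (Int.cast : ℤ → ℂ) =
        (B.map (Int.cast : ℤ → ℚ)).map (algebraMap ℚ ℂ) := by
      ext i j
      simp
    have h2 : (fun k => θ k * D k) =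
        fun k => ((X * δ).map (algebraMap ℚ ℂ)).eval (θ k) / Major.den θ k := by
      funext k
      simp only [hD, Polynomial.map_mul, Polynomial.map_X, eval_mul, eval_X]
      ring
    rw [h1, hGB, Matrix.map_mul, Matrix.map_mul, ← hank_map _ _ _ (FZ_monic c), hm,
      Major.hank_eq c θ hθ hr, hW, Matrix.transpose_map, Matrix.transpose_mul, h2]
    simp only [Matrix.mul_assoc, hV]
  set E : Fin n → ℂ := fun k => (‖D k‖ : ℂ) with hE
  set Q : Matrix (Fin n) (Fin n) ℂ := W * diagonal E * Wᴴ with hQ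
  have hQe : ∀ i j, Q i j = ∑ k, E k * (W i k * (starRingEnd ℂ) (W j k)) := by
    intro i j
    rw [hQ, Matrix.mul_apply]
    refine sum_congr rfl (fun k _ => ?_)
    rw [Matrix.mul_diagonal, Matrix.conjTranspose_apply]
    simp only [RCLike.star_def]
    ring
  have hQr : ∀ i j, (starRingEnd ℂ) (Q i j) = Q i j := by
    intro i j
    rw [hQe, map_sum, ← Equiv.sum_comp σ]
    refine sum_congr rfl (fun k _ => ?_)
    rw [map_mul, map_mul, hWσ, hWσ]
    simp only [hE, hDσ, Complex.conj_conj, Complex.conj_ofReal]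
  set P : Matrix (Fin n) (Fin n) ℝ := Q.map Complex.re with hP
  have hPQ : P.map (Complex.ofRealHom) = Q := by
    ext i j
    rw [hP, Matrix.map_apply, Matrix.map_apply]
    exact Complex.conj_eq_iff_re.1 (hQr i j)
  have hdP : (P.det : ℂ) = Q.det := by
    rw [← hPQ]
    exact (RingHom.map_det Complex.ofRealHom P)
  have hdA : ((A.det : ℝ) : ℂ) = W.det * (∏ k, D k) * W.det := by
    have h1 : ((A.det : ℝ) : ℂ) = (A.map (Int.cast : ℤ → ℂ)).det := by
      have := RingHom.map_det (Int.castRingHom ℂ) A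
      simpa using this
    rw [h1, hA, Matrix.det_mul, Matrix.det_mul, Matrix.det_diagonal, Matrix.det_transpose]
  have hdQ : Q.det = W.det * (∏ k, E k) * (starRingEnd ℂ) W.det := by
    rw [hQ, Matrix.det_mul, Matrix.det_mul, Matrix.det_diagonal, Matrix.det_conjTranspose]
    rfl
  have hnd : W.det * (∏ k, D k) * W.det ≠ 0 := by
    rw [← hdA]
    exact_mod_cast hAdet
  have hWdet : W.det ≠ 0 := right_ne_zero_of_mul hnd
  have hDne : ∀ k, D k ≠ 0 := by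
    have := right_ne_zero_of_mul (left_ne_zero_of_mul hnd)
    intro k
    exact Finset.prod_ne_zero_iff.1 this k (mem_univ k)
  -- the values
  have hcast : ∀ (R : Matrix (Fin n) (Fin n) ℝ) (u v : Fin n → ℝ),
      ((u ⬝ᵥ R *ᵥ v : ℝ) : ℂ) = (fun i => (u i : ℂ)) ⬝ᵥ (R.map Complex.ofRealHom) *ᵥ
        (fun i => (v i : ℂ)) := by
    intro R u v
    simp [dotProduct, mulVec]
  set a : (Fin n → ℝ) → Fin n → ℂ := fun u => (fun i => (u i : ℂ)) ᵥ* W with ha
  have hPu : ∀ u : Fin n → ℝ, u ⬝ᵥ P *ᵥ u = ∑ k, ‖D k‖ * ‖a u k‖ ^ 2 := by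
    intro u
    have h1 : ((u ⬝ᵥ P *ᵥ u : ℝ) : ℂ) = ((∑ k, ‖D k‖ * ‖a u k‖ ^ 2 : ℝ) : ℂ) := by
      rw [hcast, hPQ, hQ, Major.quadH _ _ _ _ (fun i => Complex.conj_ofReal _)]
      push_cast
      refine sum_congr rfl (fun k _ => ?_)
      rw [mul_assoc, Complex.mul_conj, Complex.normSq_eq_norm_sq]
      push_cast
      rfl
    exact_mod_cast h1
  have hAu : ∀ u v : Fin n → ℝ, ((u ⬝ᵥ (A.map (Int.cast : ℤ → ℝ)) *ᵥ v : ℝ) : ℂ) =
      ∑ k, D k * a u k * a v k := by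
    intro u v
    have h1 : (A.map (Int.cast : ℤ → ℝ)).map Complex.ofRealHom = A.map (Int.cast : ℤ → ℂ) := by
      ext i j
      simp
    rw [hcast, h1, hA, Major.quad]
  have hBu : ∀ u v : Fin n → ℝ, ((u ⬝ᵥ (B.map (Int.cast : ℤ → ℝ)) *ᵥ v : ℝ) : ℂ) =
      ∑ k, θ k * D k * a u k * a v k := by
    intro u v
    have h1 : (B.map (Int.cast : ℤ → ℝ)).map Complex.ofRealHom = B.map (Int.cast : ℤ → ℂ) := by
      ext i j
      simp
    rw [hcast, h1, hB, Major.quad]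
  have hCS : ∀ u v : Fin n → ℝ, (∑ k, ‖D k‖ * ‖a u k‖ * ‖a v k‖) ^ 2 ≤
      (u ⬝ᵥ P *ᵥ u) * (v ⬝ᵥ P *ᵥ v) := by
    intro u v
    rw [hPu, hPu]
    refine Finset.sum_sq_le_sum_mul_sum_of_sq_le_mul _ (fun k _ => by positivity)
      (fun k _ => by positivity) (fun k _ => le_of_eq (by ring))
  refine ⟨P, ?_, ?_, ?_, ?_⟩
  · refine Matrix.PosDef.of_dotProduct_mulVec_pos ?_ (fun u hu => ?_)
    · ext i j
      rw [Matrix.conjTranspose_apply, star_trivial]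
      have h1 : Q j i = Q i j := by
        rw [← hQr j i, hQe, hQe, map_sum]
        refine sum_congr rfl (fun k _ => ?_)
        simp only [map_mul, hE, Complex.conj_ofReal, Complex.conj_conj]
        ring
      rw [hP, Matrix.map_apply, Matrix.map_apply, h1]
    · rw [star_trivial, hPu]
      have hne : a u ≠ 0 := by
        intro h0
        apply hu
        have h1 : (fun i => (u i : ℂ)) = 0 := by
          refine Matrix.eq_zero_of_vecMul_eq_zero hWdet h0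
        funext i
        have := congrFun h1 i
        simpa using this
      obtain ⟨k, hk⟩ := Function.ne_iff.1 hne
      refine Finset.sum_pos' (fun k _ => by positivity) ⟨k, mem_univ k, ?_⟩
      have h1 : 0 < ‖D k‖ := norm_pos_iff.2 (hDne k)
      have h2 : 0 < ‖a u k‖ := norm_pos_iff.2 hk
      positivity
  · have h1 : |(A.det : ℝ)| = ‖((A.det : ℝ) : ℂ)‖ := by
      rw [Complex.norm_real, Real.norm_eq_abs]
    have h2 : ((P.det : ℝ) : ℂ) = ((|(A.det : ℝ)| : ℝ) : ℂ) := by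
      rw [hdP, hdQ, h1, hdA, norm_mul, norm_mul, norm_prod]
      have : W.det * (starRingEnd ℂ) W.det = ((‖W.det‖ ^ 2 : ℝ) : ℂ) := by
        rw [Complex.mul_conj, Complex.normSq_eq_norm_sq]
      calc W.det * (∏ k, E k) * (starRingEnd ℂ) W.det
          = (W.det * (starRingEnd ℂ) W.det) * ∏ k, E k := by ring
        _ = _ := by
          rw [this]
          push_cast
          simp only [hE]
          ring
    exact_mod_cast h2
  · intro u v
    refine le_trans ?_ (hCS u v)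
    rw [← sq_abs]
    refine pow_le_pow_left₀ (abs_nonneg _) ?_ 2
    rw [← Real.norm_eq_abs, ← Complex.norm_real, hAu]
    refine (norm_sum_le _ _).trans (le_of_eq ?_)
    refine sum_congr rfl (fun k _ => ?_)
    rw [norm_mul, norm_mul]
  · intro u v
    have h3 : |u ⬝ᵥ (B.map (Int.cast : ℤ → ℝ)) *ᵥ v| ≤ M * ∑ k, ‖D k‖ * ‖a u k‖ * ‖a v k‖ := by
      rw [← Real.norm_eq_abs, ← Complex.norm_real, hBu, Finset.mul_sum]
      refine (norm_sum_le _ _).trans (sum_le_sum (fun k _ => ?_))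
      rw [norm_mul, norm_mul, norm_mul]
      have h4 := hM (θ k) (hr k)
      calc ‖θ k‖ * ‖D k‖ * ‖a u k‖ * ‖a v k‖ = ‖θ k‖ * (‖D k‖ * ‖a u k‖ * ‖a v k‖) := by ring
        _ ≤ M * (‖D k‖ * ‖a u k‖ * ‖a v k‖) :=
            mul_le_mul_of_nonneg_right h4 (by positivity)
    calc (u ⬝ᵥ (B.map (Int.cast : ℤ → ℝ)) *ᵥ v) ^ 2
        = |u ⬝ᵥ (B.map (Int.cast : ℤ → ℝ)) *ᵥ v| ^ 2 := (sq_abs _).symm
      _ ≤ (M * ∑ k, ‖D k‖ * ‖a u k‖ * ‖a v k‖) ^ 2 := pow_le_pow_left₀ (abs_nonneg _) h3 2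
      _ = M ^ 2 * (∑ k, ‖D k‖ * ‖a u k‖ * ‖a v k‖) ^ 2 := by ring
      _ ≤ _ := mul_le_mul_of_nonneg_left (hCS u v) (sq_nonneg _)

end Stoll308.BG
end

section
set_option autoImplicit false

/-!
A class which is locally everywhere the class of a point is either trivial or the class of a
reduced pair which satisfies all the local conditions.
-/

namespace Stoll308.BG

open Polynomial Finset Matrix

lemma rep_conj_apply {R : Type*} [CommRing R] {n : ℕ} (U A : Matrix (Fin n) (Fin n) R)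
    (i j : Fin n) : (U * A * Uᵀ) i j = U i ⬝ᵥ A *ᵥ U j := by
  rw [Matrix.mul_assoc, Matrix.mul_apply]
  simp only [dotProduct, mulVec, Matrix.mul_apply, transpose_apply]

lemma rep_row_ne {n : ℕ} (U : Matrix (Fin n) (Fin n) ℤ) (hU : IsUnit U.det) (i : Fin n) :
    (fun j => ((U i j : ℤ) : ℝ)) ≠ 0 := by
  intro h
  have h1 : U.det = 0 := by
    apply Matrix.det_eq_zero_of_row_eq_zero i
    intro j
    have h2 : ((U i j : ℤ) : ℝ) = 0 := congrFun h j
    exact_mod_cast h2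
  rw [h1] at hU
  exact not_isUnit_zero hU

theorem red_of_mloc {n : ℕ} (hn : 3 ≤ n) (κ : ℤ) (hκ : ¬ IsSquare κ) : ∃ K : ℝ, 1 ≤ K ∧
    ∀ c : Fin n → ℤ, Irreducible (FZ ℚ c) → ∀ M : ℝ, 0 ≤ M →
      (∀ θ : ℂ, (FZ ℂ c).eval θ = 0 → ‖θ‖ ≤ M) → ∀ δ : ℚ[X], IsCoprime δ (FZ ℚ c) →
      (∀ (p : ℕ) [Fact p.Prime], MLoc κ c δ ℚ_[p]) → MLoc κ c δ ℝ →
      (∀ (l : ℕ) (_ : Fact l.Prime), l ≠ 2 → ¬ (l : ℤ) ∣ κ → ∀ i j : Fin n, (i : ℕ) + 1 = n →
        (j : ℕ) + 2 = n → (l : ℤ) ∣ c i → ¬ (l : ℤ) ^ 2 ∣ c i → ¬ (l : ℤ) ∣ c j →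
          legendreSym l κ ≠ -1) ∨
      ∃ (A B : Matrix (Fin n) (Fin n) ℤ) (t : Fin n → ℝ), RPair K M c A B t ∧
        A.det ∣ κ ^ (n - 1) ∧ ∀ l : ℕ, l ≠ 2 → ¬ (l : ℤ) ∣ κ → ¬ Bad κ l A B := by
  have hκ0 : κ ≠ 0 := by
    rintro rfl
    exact hκ ⟨0, by simp⟩
  have hκ1 : (1 : ℝ) ≤ |(κ : ℝ)| := by
    have := Int.one_le_abs hκ0
    exact_mod_cast this
  obtain ⟨K₀, hK₀, hred⟩ := red_basis n
  have hKκ : 1 ≤ K₀ * |(κ : ℝ)| ^ (n - 1) := one_le_mul_of_one_le_of_one_le hK₀ (one_le_pow₀ hκ1)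
  refine ⟨√(K₀ * |(κ : ℝ)| ^ (n - 1)), Real.one_le_sqrt.2 hKκ, ?_⟩
  intro c hF M hM0 hM δ hδ hloc hR
  by_cases htriv : Triv c δ
  · left
    intro l hl h2 hlκ i j hi hj h1 h3 h4
    exact lcond_triv (by omega) κ c δ hδ l h2 hlκ (hloc l) htriv i j hi hj h1 h3 h4
  right
  obtain ⟨A₀, B₀, hpair, hdet⟩ := exists_pair (by omega) κ hκ0 c δ hδ hloc
  obtain ⟨P, hP, hPdet, hPA, hPB⟩ := majorant (by omega) c hF δ hδ A₀ B₀ hpair M hM
  obtain ⟨U, hU, hsort, hprod⟩ := hred P hP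
  have hpair' := hpair.conj hU
  set Q := U.map (Int.cast : ℤ → ℝ) * P * (U.map (Int.cast : ℤ → ℝ))ᵀ with hQ
  have hQii : ∀ i, Q i i = (fun j => ((U i j : ℤ) : ℝ)) ⬝ᵥ P *ᵥ (fun j => ((U i j : ℤ) : ℝ)) := by
    intro i
    rw [hQ, rep_conj_apply]
    rfl
  have hQpos : ∀ i, 0 < Q i i := by
    intro i
    rw [hQii]
    have h1 := hP.dotProduct_mulVec_pos (rep_row_ne U hU i)
    simpa using h1
  have hdetA : (U * A₀ * Uᵀ).det = A₀.det := by
    rw [det_mul, det_mul, det_transpose]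
    have h1 : U.det * U.det = 1 := by
      rcases Int.isUnit_iff.1 hU with h | h <;> rw [h] <;> norm_num
    calc U.det * A₀.det * U.det = U.det * U.det * A₀.det := by ring
      _ = A₀.det := by rw [h1, one_mul]
  have hcastA : ∀ (A' : Matrix (Fin n) (Fin n) ℤ) (i j : Fin n),
      (((U * A' * Uᵀ) i j : ℤ) : ℝ) = (fun j => ((U i j : ℤ) : ℝ)) ⬝ᵥ
        (A'.map (Int.cast : ℤ → ℝ)) *ᵥ (fun k => ((U j k : ℤ) : ℝ)) := by
    intro A' i j
    rw [rep_conj_apply]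
    simp only [dotProduct, mulVec, Matrix.map_apply]
    push_cast
    rfl
  have hdetκ : |(A₀.det : ℝ)| ≤ |(κ : ℝ)| ^ (n - 1) := by
    have h1 : |A₀.det| ≤ |κ ^ (n - 1)| :=
      Int.le_of_dvd (abs_pos.2 (pow_ne_zero _ hκ0)) ((abs_dvd_abs _ _).2 hdet)
    rw [abs_pow] at h1
    exact_mod_cast h1
  refine ⟨U * A₀ * Uᵀ, U * B₀ * Uᵀ, fun i => √(Q i i), ?_, ?_, ?_⟩
  · refine ⟨hpair'.symmA, hpair'.symmB, hpair'.hasChar hδ, fun i => Real.sqrt_pos.2 (hQpos i),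
      ?_, ?_, ?_, ?_, ?_, ?_⟩
    · intro i j
      rw [hcastA, ← Real.sqrt_mul (hQpos i).le]
      apply Real.abs_le_sqrt
      rw [hQii i, hQii j]
      exact hPA _ _
    · intro i j
      rw [hcastA, ← Real.sqrt_mul (hQpos i).le]
      have h1 : M * √(Q i i * Q j j) = √(M ^ 2 * (Q i i * Q j j)) := by
        rw [Real.sqrt_mul (sq_nonneg M), Real.sqrt_sq hM0]
      rw [h1]
      apply Real.abs_le_sqrt
      rw [hQii i, hQii j]
      exact hPB _ _
    · intro i j hij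
      exact Real.sqrt_le_sqrt (hsort i j hij)
    · rw [← Real.sqrt_prod _ (fun i _ => (hQpos i).le)]
      apply Real.sqrt_le_sqrt
      refine hprod.trans ?_
      rw [hPdet]
      gcongr
    · intro ho
      exact mid_odd (by omega) ho κ hκ0 c hF δ hδ hloc hR _ _ hpair' htriv
    · intro he
      exact mid_even (by omega) he κ hκ c δ hδ hloc hR _ _ hpair'
  · rw [hdetA]
    exact hdet
  · intro l h2 hlκ hbad
    obtain ⟨_, _, _, hl, _⟩ := id hbad
    have := hl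
    exact lcond (by omega) κ c δ hδ l h2 hlκ (hloc l) _ _ hpair' (by rw [hdetA]; exact hdet) hbad

end Stoll308.BG
end

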