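import Pool.Agent.Work.BCM.C03
import Pool.Agent.Work.BCM.C23
import Pool.Agent.Work.BCM.C30
import Pool.Agent.Work.BCM.C31

section
set_option autoImplicit false

/-!
Few of the curves are singular.
-/

namespace Stoll308.BF

open Polynomial Finset BG

namespace Singular

lemma cnt_le_add (n : ℕ) (P Q : (Fin (n + 1) → ℤ) → Prop) {ι : Type*} (S : Finset ι)
    (R : ι → (Fin (n + 1) → ℤ) → Prop) (H : ℕ) (h : ∀ a, P a → Q a ∨ ∃ x ∈ S, R x a) :
    cnt n P H ≤ cnt n Q H + ∑ x ∈ S, cnt n (R x) H := by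
  classical
  unfold cnt
  refine le_trans (Finset.card_le_card (t := _ ∪ S.biUnion fun x =>
    ((Fintype.piFinset fun _ : Fin (n + 1) => Icc (-(H : ℤ)) (H : ℤ)).filter (R x))) ?_)
    (le_trans (Finset.card_union_le _ _) (Nat.add_le_add_left Finset.card_biUnion_le _))
  intro a ha
  have ha' := Finset.mem_filter.1 ha
  rcases h a ha'.2 with h1 | ⟨x, hx, h1⟩
  · exact Finset.mem_union_left _ (Finset.mem_filter.2 ⟨ha'.1, h1⟩)
  · exact Finset.mem_union_right _ (Finset.mem_biUnion.2 ⟨x, hx, Finset.mem_filter.2 ⟨ha'.1, h1⟩⟩)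

/-- few polynomials have a given root -/
lemma cnt_root (n : ℕ) (ξ : ℂ) (H : ℕ) :
    cnt n (fun a => aeval ξ (GZ ℚ a) = 0) H ≤ (2 * H + 1) ^ n := by
  classical
  have hc : (Fintype.piFinset fun _ : Fin n => Icc (-(H : ℤ)) (H : ℤ)).card = (2 * H + 1) ^ n := by
    rw [Fintype.card_piFinset, Finset.prod_const, Finset.card_univ, Fintype.card_fin, Int.card_Icc]
    congr 1
    omega
  rw [← hc]
  unfold cnt
  refine Finset.card_le_card_of_injOn (fun b i => b i.castSucc) ?_ ?_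
  · intro b hb
    have hb' := (Finset.mem_filter.1 (Finset.mem_coe.1 hb)).1
    rw [Fintype.mem_piFinset] at hb'
    rw [Finset.mem_coe, Fintype.mem_piFinset]
    exact fun i => hb' i.castSucc
  · intro b hb b' hb' hbb
    have h1 := (Finset.mem_filter.1 (Finset.mem_coe.1 hb)).2
    have h2 := (Finset.mem_filter.1 (Finset.mem_coe.1 hb')).2
    have e : ∀ c : Fin (n + 1) → ℤ, aeval ξ (GZ ℚ c) =
        ∑ i : Fin n, (c i.castSucc : ℂ) * ξ ^ (n - (i : ℕ)) + (c (Fin.last n) : ℂ) := by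
      intro c
      unfold GZ gpol
      rw [map_sum, Fin.sum_univ_castSucc]
      simp
    rw [e] at h1 h2
    have h3 : ∀ i : Fin n, b i.castSucc = b' i.castSucc := fun i => congrFun hbb i
    have h4 : ∑ i : Fin n, (b i.castSucc : ℂ) * ξ ^ (n - (i : ℕ)) =
        ∑ i : Fin n, (b' i.castSucc : ℂ) * ξ ^ (n - (i : ℕ)) :=
      Finset.sum_congr rfl fun i _ => by rw [h3 i]
    have h5 : (b (Fin.last n) : ℂ) = (b' (Fin.last n) : ℂ) := by
      have h6 := h1.trans h2.symm
      rw [h4] at h6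
      linear_combination h6
    have h7 : b (Fin.last n) = b' (Fin.last n) := by exact_mod_cast h5
    funext i
    refine Fin.lastCases h7 (fun j => h3 j) i

end Singular

open Singular BG.PSmooth in
theorem singular_small (n : ℕ) (hn : 2 ≤ n) (ψ : ℤ[X]) (hψ : 1 ≤ ψ.natDegree) (ε : ℝ)
    (hε : 0 < ε) : ∃ H₀ : ℕ, ∀ H : ℕ, H₀ ≤ H →
      (cnt n (fun a => ¬ Smooth ψ a) H : ℝ) ≤ ε * H ^ (n + 1) := by
  obtain ⟨H₁, h₁⟩ := reducible_small n hn (ε / 2) (half_pos hε)
  obtain ⟨H₂, h₂⟩ := exists_nat_ge (2 * ((CP ψ).card * 3 ^ n) / ε)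
  refine ⟨max H₁ (H₂ + 1), fun H hH => ?_⟩
  have hH1 := h₁ H ((le_max_left _ _).trans hH)
  have hH2 : H₂ + 1 ≤ H := (le_max_right _ _).trans hH
  have hH3 : (1 : ℝ) ≤ H := by exact_mod_cast (by omega : 1 ≤ H)
  have hH4 : 2 * ((CP ψ).card * 3 ^ n) / ε ≤ H := h₂.trans (by exact_mod_cast (by omega : H₂ ≤ H))
  have h3 := Singular.cnt_le_add n (fun a => ¬ Smooth ψ a)
    (fun a => a 0 = 0 ∨ IsSquare (a 0) ∨ ¬ Irreducible (GZ ℚ a)) (CP ψ)
    (fun x a => aeval ((aeval x (ψ.map (Int.castRingHom ℚ))) ^ 2) (GZ ℚ a) = 0) H (by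
      intro a ha
      by_cases h0 : a 0 = 0
      · exact Or.inl (Or.inl h0)
      by_cases hirr : Irreducible (GZ ℚ a)
      · right
        have h4 : ¬ Squarefree ((GZ ℚ a).comp ((ψ.map (Int.castRingHom ℚ)) ^ 2)) :=
          fun h => ha ⟨h0, h⟩
        obtain ⟨x, hx1, hx2⟩ := crit hirr (by rw [Irr.GZ_natDegree a h0]; exact hn) h4
        exact ⟨x, mem_CP hψ hx1, hx2⟩
      · exact Or.inl (Or.inr (Or.inr hirr)))
  have h4 : ∑ x ∈ CP ψ, cnt n (fun a => aeval ((aeval x (ψ.map (Int.castRingHom ℚ))) ^ 2)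
      (GZ ℚ a) = 0) H ≤ (CP ψ).card * (2 * H + 1) ^ n := by
    rw [← smul_eq_mul]
    exact Finset.sum_le_card_nsmul _ _ _ fun x _ => Singular.cnt_root n _ H
  have h5 : (((2 * H + 1) ^ n : ℕ) : ℝ) ≤ 3 ^ n * (H : ℝ) ^ n := by
    push_cast
    rw [← mul_pow]
    refine pow_le_pow_left₀ (by positivity) ?_ _
    linarith
  have h7 : (cnt n (fun a => ¬ Smooth ψ a) H : ℝ) ≤
      (cnt n (fun a => a 0 = 0 ∨ IsSquare (a 0) ∨ ¬ Irreducible (GZ ℚ a)) H : ℝ) +
        (CP ψ).card * (((2 * H + 1) ^ n : ℕ) : ℝ) := by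
    exact_mod_cast h3.trans (Nat.add_le_add_left h4 _)
  have h8 : ((CP ψ).card : ℝ) * (((2 * H + 1) ^ n : ℕ) : ℝ) ≤ ε / 2 * (H : ℝ) ^ (n + 1) := by
    rw [div_le_iff₀ hε] at hH4
    calc ((CP ψ).card : ℝ) * (((2 * H + 1) ^ n : ℕ) : ℝ)
        ≤ (CP ψ).card * (3 ^ n * (H : ℝ) ^ n) := by gcongr
      _ = ((CP ψ).card * 3 ^ n) * (H : ℝ) ^ n := by ring
      _ ≤ (ε / 2 * H) * (H : ℝ) ^ n := by
          refine mul_le_mul_of_nonneg_right ?_ (by positivity)
          linarith
      _ = ε / 2 * (H : ℝ) ^ (n + 1) := by ring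
  linarith

end Stoll308.BF
end

section
set_option autoImplicit false

/-!
Points over number fields of odd degree.
-/

namespace Stoll308.SC

open Polynomial Finset Matrix BG BF

lemma op_GZ_map {R S : Type*} [CommRing R] [CommRing S] (φ : R →+* S) {n : ℕ}
    (a : Fin (n + 1) → ℤ) : (GZ R a).map φ = GZ S a := by
  simp [GZ, gpol, Polynomial.map_sum]

lemma op_GZ_eval {n : ℕ} (a : Fin (n + 1) → ℤ) (k : Type*) [Field k] [Algebra ℚ k] (t : k) :
    (GZ k a).eval t = aeval t (GZ ℚ a) := by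
  rw [← op_GZ_map (algebraMap ℚ k) a, eval_map_algebraMap]

/-- The leading coefficient of `f`. -/
lemma op_coeff_n {R : Type*} [CommRing R] {n : ℕ} (a : Fin (n + 1) → ℤ) :
    (GZ R a).coeff n = a 0 := by
  simp only [GZ, gpol, finsetSum_coeff, coeff_C_mul_X_pow]
  rw [Finset.sum_eq_single (0 : Fin (n + 1))]
  · simp
  · intro i _ hi
    have : (i : ℕ) ≠ 0 := fun h => hi (Fin.ext h)
    have h2 := i.isLt
    rw [if_neg (by omega)]
  · simp

/-- The constant coefficient of `f`. -/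
lemma op_coeff_zero {R : Type*} [CommRing R] {n : ℕ} (a : Fin (n + 1) → ℤ) :
    (GZ R a).coeff 0 = a (Fin.last n) := by
  simp only [GZ, gpol, finsetSum_coeff, coeff_C_mul_X_pow]
  rw [Finset.sum_eq_single (Fin.last n)]
  · simp
  · intro i _ hi
    have : (i : ℕ) ≠ n := fun h => hi (Fin.ext h)
    have h2 := i.isLt
    rw [if_neg (by omega)]
  · simp

lemma op_natDegree_le {R : Type*} [CommRing R] {n : ℕ} (a : Fin (n + 1) → ℤ) :
    (GZ R a).natDegree ≤ n := by
  refine natDegree_sum_le_of_forall_le _ _ fun i _ => ?_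
  exact (natDegree_C_mul_X_pow_le _ _).trans (Nat.sub_le _ _)

lemma op_natDegree {n : ℕ} (a : Fin (n + 1) → ℤ) (h0 : a 0 ≠ 0) :
    (GZ ℚ a).natDegree = n := by
  refine natDegree_eq_of_le_of_coeff_ne_zero (op_natDegree_le a) ?_
  rw [op_coeff_n]
  exact_mod_cast h0

/-- An element of `ℚ` with an odd power which is a square is a square. -/
lemma op_sq_of_pow {K : Type*} [Field K] (q c : K) (m : ℕ) (hm : Odd m) (h : q ^ m = c ^ 2) :
    IsSquare q := by
  obtain ⟨j, rfl⟩ := hm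
  by_cases hq : q = 0
  · exact ⟨0, by simp [hq]⟩
  refine ⟨c / q ^ j, ?_⟩
  rw [← sq, div_pow, ← h, eq_div_iff (pow_ne_zero _ (pow_ne_zero _ hq))]
  ring

/-- The points at infinity. -/
lemma op_inf (c : ℤ) (k : Type*) [Field k] [Algebra ℚ k] (ho : Odd (Module.finrank ℚ k))
    (h : IsSquare (c : k)) : IsSquare c := by
  obtain ⟨b, hb⟩ := h
  have h1 : Algebra.norm ℚ (algebraMap ℚ k (c : ℚ)) = (c : ℚ) ^ Module.finrank ℚ k :=
    Algebra.norm_algebraMap _
  have h2 : algebraMap ℚ k (c : ℚ) = b * b := by rw [map_intCast, hb]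
  rw [h2, map_mul, ← sq] at h1
  have := op_sq_of_pow _ _ _ ho h1.symm
  exact Rat.isSquare_intCast_iff.mp this

/-- The norm of an element and its minimal polynomial. -/
lemma op_norm {K k : Type*} [Field K] [Field k] [Algebra K k] [Module.Finite K k]
    [Algebra.IsSeparable K k] (t : k) :
    Algebra.norm K t = ((-1) ^ (minpoly K t).natDegree * (minpoly K t).coeff 0) ^
      Module.finrank (IntermediateField.adjoin K {t}) k := by
  have hint : IsIntegral K t := Algebra.IsIntegral.isIntegral t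
  rw [Algebra.norm_eq_norm_adjoin K t]
  congr 1
  have h3 := Algebra.PowerBasis.norm_gen_eq_coeff_zero_minpoly
    (IntermediateField.adjoin.powerBasis hint)
  rw [IntermediateField.adjoin.powerBasis_gen, IntermediateField.adjoin.powerBasis_dim,
    IntermediateField.minpoly_gen] at h3
  exact h3

/-- The degree of an element divides. -/
lemma op_deg {K k : Type*} [Field K] [Field k] [Algebra K k] [Module.Finite K k] (t : k) :
    (minpoly K t).natDegree * Module.finrank (IntermediateField.adjoin K {t}) k =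
      Module.finrank K k := by
  have hint : IsIntegral K t := Algebra.IsIntegral.isIntegral t
  rw [← IntermediateField.adjoin.finrank hint]
  exact Module.finrank_mul_finrank K (IntermediateField.adjoin K {t}) k

lemma op_aeval {k E : Type*} [CommRing k] [CommRing E] (ι : k →+* E) (x : k) (ψ : ℤ[X]) :
    aeval (ι x) ψ = ι (aeval x ψ) := by
  rw [aeval_def, aeval_def, hom_eval₂]
  congr 1
  exact Subsingleton.elim _ _

/-- The ramification points of the curve over the line. -/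
lemma op_ram {n : ℕ} (a : Fin (n + 1) → ℤ) (h0 : a 0 ≠ 0) (hF : Irreducible (GZ ℚ a))
    (k : Type*) [Field k] [Algebra ℚ k] (ho : Odd (Module.finrank ℚ k)) (z : k)
    (h : aeval (z ^ 2) (GZ ℚ a) = 0) : Odd n ∧ IsSquare (-(a 0 * a (Fin.last n))) := by
  have hfin : Module.Finite ℚ k := Module.finite_of_finrank_pos ho.pos
  have h0' : (a 0 : ℚ) ≠ 0 := by exact_mod_cast h0
  set t := z ^ 2 with ht
  have hint : IsIntegral ℚ t := Algebra.IsIntegral.isIntegral t
  have hlc : (GZ ℚ a).leadingCoeff = a 0 := by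
    rw [leadingCoeff, op_natDegree a h0, op_coeff_n]
  have hmin : minpoly ℚ t = GZ ℚ a * C (a 0 : ℚ)⁻¹ := by
    have := minpoly.eq_of_irreducible hF h
    rw [hlc] at this
    exact this.symm
  have hdeg : (minpoly ℚ t).natDegree = n := by
    rw [hmin, natDegree_mul_C (inv_ne_zero h0'), op_natDegree a h0]
  have hmul := op_deg (K := ℚ) t
  rw [hdeg] at hmul
  rw [← hmul, Nat.odd_mul] at ho
  obtain ⟨hn, hm⟩ := ho
  refine ⟨hn, ?_⟩
  have h1 := op_norm (K := ℚ) t
  rw [hdeg, hn.neg_one_pow, hmin, coeff_mul_C, op_coeff_zero] at h1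
  rw [ht, map_pow] at h1
  have h2 := op_sq_of_pow _ _ _ hm h1.symm
  obtain ⟨c, hc⟩ := h2
  rw [← Rat.isSquare_intCast_iff]
  refine ⟨a 0 * c, ?_⟩
  have h5 : ((-(a 0 * a (Fin.last n)) : ℤ) : ℚ) =
      (a 0 : ℚ) * (a 0 : ℚ) * (-1 * ((a (Fin.last n) : ℚ) * (a 0 : ℚ)⁻¹)) := by
    push_cast
    field_simp
  rw [h5, hc]
  ring

/-- A point over a number field of odd degree which is not a ramification point of the curve over
the line (so `y ≠ 0`) gives an element of the odd Selmer set. -/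
theorem oddSel_of_point {n : ℕ} (hn : 2 ≤ n) (ψ : ℤ[X]) (a : Fin (n + 1) → ℤ) (h0 : a 0 ≠ 0)
    (hsq : ¬ IsSquare (a 0)) (hF : Irreducible (GZ ℚ a))
    (hn' : Odd n → ¬ IsSquare (-(a 0 * a (Fin.last n)))) (k : Type) [Field k] [Algebra ℚ k]
    (ho : Odd (Module.finrank ℚ k)) (h : HasPoint ψ a k) : OddSel ψ a := by
  rcases h with ⟨x, y, hxy⟩ | h
  · have hfin : Module.Finite ℚ k := Module.finite_of_finrank_pos ho.pos
    rw [op_GZ_eval] at hxy
    have hy : y ≠ 0 := by
      rintro rfl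
      rw [zero_pow two_ne_zero] at hxy
      obtain ⟨h1, h2⟩ := op_ram a h0 hF k ho (aeval x ψ) hxy.symm
      exact hn' h1 h2
    refine ⟨-(LinearMap.mulLeft ℚ ((aeval x ψ) ^ 2)).charpoly, ?_, ?_⟩
    · refine IsCoprime.neg_left (charpoly_coprime _ _ ?_)
      rw [← hxy]
      exact (isUnit_iff_ne_zero.mpr hy).pow 2
    · intro p _ hp
      let ι : k →ₐ[ℚ] TensorProduct ℚ ℚ_[p] k := Algebra.TensorProduct.includeRight
      have hx := op_aeval ι.toRingHom x ψ
      have hx' : ∀ u, ι.toRingHom u = ι u := fun u => rfl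
      rw [hx', hx'] at hx
      refine ⟨TensorProduct ℚ ℚ_[p] k, inferInstance, inferInstance, inferInstance, ι x, ι y, 1,
        ?_, ?_, ?_, ?_⟩
      · rw [Module.finrank_baseChange]
        exact ho
      · exact (isUnit_iff_ne_zero.mpr hy).map ι
      · rw [hx, ← map_pow, ← map_pow, hxy, ← op_GZ_map (algebraMap ℚ ℚ_[p]) a,
          aeval_map_algebraMap, aeval_algHom_apply]
      · rw [hx, ← map_pow]
        have h3 : (LinearMap.mulLeft ℚ_[p] (ι ((aeval x ψ) ^ 2))).charpoly =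
            (LinearMap.mulLeft ℚ ((aeval x ψ) ^ 2)).charpoly.map (algebraMap ℚ ℚ_[p]) := by
          rw [← LinearMap.charpoly_baseChange]
          congr 1
          ext u
          simp [ι]
        rw [h3, Polynomial.map_neg, one_pow, mul_one, sub_self]
        exact dvd_zero _
  · exact absurd (op_inf _ k ho h) hsq

end Stoll308.SC
end

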