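import Pool.Agent.Work.BCM.C07
import Pool.Agent.Work.BCM.C12
import Pool.Agent.Work.BCM.C27
import Pool.Agent.Work.BCM.C30
import Pool.Agent.Work.BCM.C31
import Pool.Agent.Work.BCM.C32
import Pool.Agent.Work.BCM.C33
import Pool.Agent.Work.BCM.C34

section
set_option autoImplicit false

/-!
The theorem for the full family.
-/

namespace Stoll308.BF

open Polynomial Finset Matrix BG

lemma cnt_mono {n : ℕ} {P Q : (Fin (n + 1) → ℤ) → Prop} (H : ℕ)
    (h : ∀ a : Fin (n + 1) → ℤ, (∀ i, |a i| ≤ (H : ℤ)) → P a → Q a) :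
    cnt n P H ≤ cnt n Q H := by
  classical
  unfold cnt
  apply card_le_card
  intro b hb
  simp only [mem_filter, Fintype.mem_piFinset, mem_Icc] at hb ⊢
  exact ⟨hb.1, h b (fun i => abs_le.2 (hb.1 i)) hb.2⟩

lemma cnt_or {n : ℕ} (P Q : (Fin (n + 1) → ℤ) → Prop) (H : ℕ) :
    cnt n (fun b => P b ∨ Q b) H ≤ cnt n P H + cnt n Q H := by
  classical
  unfold cnt
  refine le_trans (card_le_card ?_) (card_union_le _ _)
  intro t ht
  simp only [mem_filter, mem_union] at ht ⊢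
  rcases ht.2 with h | h
  · exact Or.inl ⟨ht.1, h⟩
  · exact Or.inr ⟨ht.1, h⟩

lemma cnt_le_of_card {n : ℕ} (P : (Fin (n + 1) → ℤ) → Prop) (H : ℕ) (R : ℝ)
    (h : ∀ T : Finset (Fin (n + 1) → ℤ), (∀ a ∈ T, P a) → (T.card : ℝ) ≤ R) :
    (cnt n P H : ℝ) ≤ R := by
  classical
  unfold cnt
  apply h
  intro a ha
  simp only [mem_filter] at ha
  exact ha.2

lemma local_mloc {n : ℕ} {ψ : ℤ[X]} {a : Fin (n + 1) → ℤ} {δ : ℚ[X]} {K : Type*} [Field K]
    [Algebra ℚ K] (h : LocalImage ψ a δ K) : MLoc a δ K := by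
  obtain ⟨x, y, s, hy, h1, h2⟩ := h
  exact ⟨aeval x ψ, y, s, hy, h1, h2⟩

lemma eval_map_GZ {n : ℕ} (a : Fin (n + 1) → ℤ) {K L : Type*} [Field K] [Field L] (f : K →+* L)
    (x : K) : (GZ L a).eval (f x) = f ((GZ K a).eval x) := by
  rw [← PairEx.GZ_map f a, eval_map, eval₂_hom]

theorem sel_of_point {n : ℕ} (hn : 2 ≤ n) (ψ : ℤ[X]) (a : Fin (n + 1) → ℤ) (h0 : a 0 ≠ 0)
    (hsq : ¬ IsSquare (a 0)) (hF : Irreducible (GZ ℚ a)) (h : HasPoint ψ a ℚ) : Sel ψ a := by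
  obtain ⟨x, y, hxy⟩ | hs := h
  swap
  · exact absurd (Rat.isSquare_intCast_iff.mp hs) hsq
  have hdeg := Irr.GZ_natDegree a h0
  have hy : y ≠ 0 := by
    rintro rfl
    have h1 : (GZ ℚ a).IsRoot ((aeval x ψ) ^ 2) := by
      rw [IsRoot, ← hxy]
      ring
    have h2 : (GZ ℚ a).natDegree = 1 :=
      natDegree_eq_of_degree_eq_some (degree_eq_one_of_irreducible_of_root hF h1)
    rw [hdeg] at h2
    omega
  have key : ∀ (K : Type) [Field K] [Algebra ℚ K],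
      LocalImage ψ a (C ((aeval x ψ) ^ 2) - X) K := by
    intro K _ _
    have hψ : aeval (algebraMap ℚ K x) ψ = algebraMap ℚ K (aeval x ψ) := by
      rw [aeval_def, aeval_def, hom_eval₂]
      congr 1
      exact RingHom.ext_int _ _
    refine ⟨algebraMap ℚ K x, algebraMap ℚ K y, 1, ?_, ?_, ?_⟩
    · exact (map_ne_zero (algebraMap ℚ K)).mpr hy
    · rw [hψ, ← map_pow, ← map_pow, eval_map_GZ, hxy]
    · rw [hψ]
      simp
  refine ⟨C ((aeval x ψ) ^ 2) - X, ?_, fun p hp => key ℚ_[p], key ℝ⟩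
  obtain ⟨q, hq⟩ := X_sub_C_dvd_sub_C_eval (a := (aeval x ψ) ^ 2) (p := GZ ℚ a)
  rw [← hxy] at hq
  have hy2 : (C (y ^ 2)⁻¹ : ℚ[X]) * C (y ^ 2) = 1 := by
    rw [← C_mul, inv_mul_cancel₀ (pow_ne_zero 2 hy), C_1]
  refine ⟨C (y ^ 2)⁻¹ * q, C (y ^ 2)⁻¹, ?_⟩
  linear_combination (C (y ^ 2)⁻¹) * hq + hy2

theorem sel_small (n : ℕ) (hn : 4 ≤ n) (he : Even n) (ψ : ℤ[X]) (ε : ℝ) (hε : 0 < ε) :
    ∃ H₀ : ℕ, ∀ H : ℕ, H₀ ≤ H →
      (cnt n (fun a => Sel ψ a ∨ HasPoint ψ a ℚ) H : ℝ) ≤ ε * H ^ (n + 1) := by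
  obtain ⟨K, hK, hred⟩ := red_of_mloc hn he
  obtain ⟨H₁, h1⟩ := reducible_small n (by omega) (ε / 4) (by positivity)
  obtain ⟨η, hη, H₂, h2⟩ := height_small n (ε / 4) (by positivity)
  obtain ⟨R, H₃, hR, h3⟩ := cusp n hn he K hK η hη (ε / 4) (by positivity)
  obtain ⟨H₄, h4⟩ := large_t hn he K R hK hR (ε / 4) (by positivity)
  refine ⟨H₁ + H₂ + ⌈|H₃|⌉₊ + ⌈|H₄|⌉₊ + 1, ?_⟩
  intro H hH
  have g1 := h1 H (by omega)
  have g2 := h2 H (by omega)
  have hH₃ : H₃ ≤ H := by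
    have e1 : |H₃| ≤ ⌈|H₃|⌉₊ := Nat.le_ceil _
    have e2 : ((⌈|H₃|⌉₊ : ℕ) : ℝ) ≤ H := by
      have : ⌈|H₃|⌉₊ ≤ H := by omega
      exact_mod_cast this
    linarith [le_abs_self H₃]
  have hH₄ : H₄ ≤ H := by
    have e1 : |H₄| ≤ ⌈|H₄|⌉₊ := Nat.le_ceil _
    have e2 : ((⌈|H₄|⌉₊ : ℕ) : ℝ) ≤ H := by
      have : ⌈|H₄|⌉₊ ≤ H := by omega
      exact_mod_cast this
    linarith [le_abs_self H₄]
  have g3 := cnt_le_of_card _ H _ (h3 H hH₃)
  have g4 := cnt_le_of_card _ H _ (h4 H hH₄)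
  set P1 : (Fin (n + 1) → ℤ) → Prop := fun a => a 0 = 0 ∨ IsSquare (a 0) ∨
    ¬ Irreducible (GZ ℚ a) with hP1
  set P2 : (Fin (n + 1) → ℤ) → Prop := fun a => ∀ i, |(a i : ℝ)| < η * H with hP2
  set P3 : (Fin (n + 1) → ℤ) → Prop := fun a => a 0 ≠ 0 ∧ Irreducible (GZ ℚ a) ∧
    (∃ i, η * H ≤ |(a i : ℝ)|) ∧ ∃ (A B : Matrix (Fin n) (Fin n) ℤ) (t : Fin n → ℝ),
          RPair K H a A B t ∧ ∃ i j, R * t i < t j with hP3
  set P4 : (Fin (n + 1) → ℤ) → Prop := fun a => ∃ (A B : Matrix (Fin n) (Fin n) ℤ)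
    (t : Fin n → ℝ), RPair K H a A B t ∧ (∀ i j, t j ≤ R * t i) ∧
      ∀ l : ℕ, l ≠ 2 → ¬ Bad l A B with hP4
  have hle : cnt n (fun a => Sel ψ a ∨ HasPoint ψ a ℚ) H ≤
      cnt n P1 H + (cnt n P2 H + (cnt n P3 H + cnt n P4 H)) := by
    refine le_trans (cnt_mono (Q := fun b => P1 b ∨ P2 b ∨ P3 b ∨ P4 b) H ?_) ?_
    · intro a ha h
      by_cases hg : P1 a
      · exact Or.inl hg
      right
      rw [hP1] at hg
      simp only [not_or, not_not] at hg
      obtain ⟨h0, hsq, hF⟩ := hg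
      have hSel : Sel ψ a := by
        rcases h with h | h
        · exact h
        · exact sel_of_point (by omega) ψ a h0 hsq hF h
      by_cases hη2 : ∃ i, η * H ≤ |(a i : ℝ)|
      swap
      · left
        push Not at hη2
        exact hη2
      right
      obtain ⟨δ, hδ, hl, hR'⟩ := hSel
      obtain ⟨A, B, t, h5, h6⟩ := hred a h0 hF H (fun i => by exact_mod_cast ha i) δ hδ
        (fun p _ => local_mloc (hl p)) (local_mloc hR')
      by_cases ht : ∃ i j, R * t i < t j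
      · exact Or.inl ⟨h0, hF, hη2, A, B, t, h5, ht⟩
      · push Not at ht
        exact Or.inr ⟨A, B, t, h5, ht, h6⟩
    · refine (cnt_or _ _ H).trans ?_
      gcongr
      refine (cnt_or _ _ H).trans ?_
      gcongr
      exact cnt_or _ _ H
  calc ((cnt n (fun a => Sel ψ a ∨ HasPoint ψ a ℚ) H : ℕ) : ℝ)
      ≤ ((cnt n P1 H + (cnt n P2 H + (cnt n P3 H + cnt n P4 H)) : ℕ) : ℝ) := by
        exact_mod_cast hle
    _ ≤ ε * H ^ (n + 1) := by
        push_cast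
        linarith

theorem main (n : ℕ) (hn : 4 ≤ n) (he : Even n) (ψ : ℤ[X]) (hψ : 1 ≤ ψ.natDegree) :
    (∃ c₀ : ℝ, 0 < c₀ ∧ ∃ H₀ : ℕ, ∀ H : ℕ, H₀ ≤ H →
      c₀ * H ^ (n + 1) ≤ (cnt n (fun a => ELS ψ a ∧ Smooth ψ a) H : ℝ)) ∧
    ∀ ε : ℝ, 0 < ε → ∃ H₀ : ℕ, ∀ H : ℕ, H₀ ≤ H →
      (cnt n (fun a => Sel ψ a ∨ HasPoint ψ a ℚ) H : ℝ) ≤ ε * H ^ (n + 1) := by
  refine ⟨?_, fun ε hε => sel_small n hn he ψ ε hε⟩
  obtain ⟨c, hc, H₁, h1⟩ := els_many n hn he ψ hψ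
  obtain ⟨H₂, h2⟩ := singular_small n (by omega) ψ hψ (c / 2) (by positivity)
  refine ⟨c / 2, by positivity, H₁ + H₂, ?_⟩
  intro H hH
  have g1 := h1 H (by omega)
  have g2 := h2 H (by omega)
  have h3 : cnt n (ELS ψ) H ≤ cnt n (fun a => ELS ψ a ∧ Smooth ψ a) H +
      cnt n (fun a => ¬ Smooth ψ a) H := by
    refine le_trans (cnt_mono (Q := fun a => (ELS ψ a ∧ Smooth ψ a) ∨ ¬ Smooth ψ a) H ?_)
      (cnt_or _ _ H)
    intro b _ hb
    by_cases h : Smooth ψ b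
    · exact Or.inl ⟨hb, h⟩
    · exact Or.inr h
  have h4 : (cnt n (ELS ψ) H : ℝ) ≤ cnt n (fun a => ELS ψ a ∧ Smooth ψ a) H +
      cnt n (fun a => ¬ Smooth ψ a) H := by exact_mod_cast h3
  linarith

end Stoll308.BF
end

section
set_option autoImplicit false

/-!
Few polynomials have two coefficients divisible by a large prime.
-/

namespace Stoll308.SC

open Polynomial Finset Matrix BG BF

/-- Counting the vectors whose coordinates `i ≠ j` are in given sets. -/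
lemma cnt_two (n : ℕ) (P : (Fin (n + 1) → ℤ) → Prop) (H : ℕ) (hH : 1 ≤ H) (i j : Fin (n + 1))
    (hij : i ≠ j) (A B : Finset ℤ) (α β : ℝ) (hA : (A.card : ℝ) ≤ 3 * H * α)
    (hB : (B.card : ℝ) ≤ 3 * H * β)
    (h : ∀ a : Fin (n + 1) → ℤ, (∀ k, |a k| ≤ H) → P a → a i ∈ A ∧ a j ∈ B) :
    (cnt n P H : ℝ) ≤ α * β * (3 * (H : ℝ)) ^ (n + 1) := by
  classical
  have hH' : (1 : ℝ) ≤ H := by exact_mod_cast hH
  have h1 := Redu0.cnt_le_pi n P H
    (fun k => if k = i then A else if k = j then B else Icc (-(H : ℤ)) H) (by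
      intro a ha hP k
      obtain ⟨h2, h3⟩ := h a ha hP
      by_cases hk : k = i
      · simp only [hk, if_true]; exact h2
      · by_cases hk' : k = j
        · simp only [hk', if_true, if_neg (Ne.symm hij)]; exact h3
        · simp only [hk, hk', if_false]
          exact Finset.mem_Icc.2 (abs_le.1 (ha k)))
  have h2 : ((∏ k : Fin (n + 1), (if k = i then A else if k = j then B else
      Icc (-(H : ℤ)) (H : ℤ)).card : ℕ) : ℝ) ≤
      ∏ k : Fin (n + 1), (3 * (H : ℝ)) * ((if k = i then α else 1) * (if k = j then β else 1)) := by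
    rw [Nat.cast_prod]
    refine Finset.prod_le_prod (fun k _ => Nat.cast_nonneg _) fun k _ => ?_
    by_cases hk : k = i
    · have hk' : k ≠ j := by rw [hk]; exact hij
      simp only [hk, if_true]
      rw [if_neg hij]
      simpa using hA
    · by_cases hk' : k = j
      · simp only [hk', if_true, if_neg (Ne.symm hij)]
        simpa using hB
      · simp only [hk, hk', if_false]
        rw [Int.card_Icc]
        have e1 : ((H : ℤ) + 1 - -(H : ℤ)).toNat = 2 * H + 1 := by omega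
        rw [e1]
        push_cast
        linarith
  have h3 : ∏ k : Fin (n + 1), (3 * (H : ℝ)) * ((if k = i then α else 1) *
      (if k = j then β else 1)) = α * β * (3 * (H : ℝ)) ^ (n + 1) := by
    have e1 : ∏ k : Fin (n + 1), (if k = i then α else 1) = α := by
      rw [Finset.prod_ite_eq' Finset.univ i (fun _ => α), if_pos (Finset.mem_univ _)]
    have e2 : ∏ k : Fin (n + 1), (if k = j then β else 1) = β := by
      rw [Finset.prod_ite_eq' Finset.univ j (fun _ => β), if_pos (Finset.mem_univ _)]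
    have e3 : ∏ k : Fin (n + 1), ((if k = i then α else 1) * (if k = j then β else 1)) = α * β := by
      rw [Finset.prod_mul_distrib, e1, e2]
    have e4 : ∏ _k : Fin (n + 1), (3 * (H : ℝ)) = (3 * (H : ℝ)) ^ (n + 1) := by
      rw [Finset.prod_const, Finset.card_univ, Fintype.card_fin]
    rw [← e3, ← e4, ← Finset.prod_mul_distrib]
    exact Finset.prod_congr rfl fun k _ => mul_comm _ _
  calc (cnt n P H : ℝ) ≤ _ := by exact_mod_cast h1
    _ ≤ _ := h2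
    _ = _ := h3

/-- The number of multiples of `p`. -/
lemma card_mult (p H : ℕ) (hp : 1 ≤ p) (hpH : p ≤ H) :
    (((Icc (-(H : ℤ)) (H : ℤ)).filter fun x => (p : ℤ) ∣ x).card : ℝ) ≤ 3 * H * (p : ℝ)⁻¹ := by
  have hp0 : (0 : ℤ) < p := by exact_mod_cast hp
  have h1 : ((Icc (-(H : ℤ)) (H : ℤ)).filter fun x => (p : ℤ) ∣ x) ⊆
      (Icc (-((H / p : ℕ) : ℤ)) ((H / p : ℕ) : ℤ)).image fun k => (p : ℤ) * k := by
    intro x hx
    obtain ⟨h2, k, rfl⟩ := Finset.mem_filter.1 hx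
    rw [Finset.mem_Icc] at h2
    refine Finset.mem_image.2 ⟨k, ?_, rfl⟩
    rw [Finset.mem_Icc]
    push_cast
    constructor
    · have : -k ≤ (H : ℤ) / p := by
        rw [Int.le_ediv_iff_mul_le hp0]
        linarith
      linarith
    · rw [Int.le_ediv_iff_mul_le hp0]
      linarith
  have h2 := (Finset.card_le_card h1).trans Finset.card_image_le
  rw [Int.card_Icc] at h2
  have e1 : (((H / p : ℕ) : ℤ) + 1 - -((H / p : ℕ) : ℤ)).toNat = 2 * (H / p) + 1 := by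
    omega
  rw [e1] at h2
  have h3 : ((H / p : ℕ) : ℝ) ≤ H / p := Nat.cast_div_le
  have h4 : (1 : ℝ) ≤ (H : ℝ) / p := by
    rw [le_div_iff₀ (by exact_mod_cast hp)]
    rw [one_mul]
    exact_mod_cast hpH
  calc (((Icc (-(H : ℤ)) (H : ℤ)).filter fun x => (p : ℤ) ∣ x).card : ℝ)
      ≤ ((2 * (H / p) + 1 : ℕ) : ℝ) := by exact_mod_cast h2
    _ = 2 * ((H / p : ℕ) : ℝ) + 1 := by push_cast; ring
    _ ≤ 3 * ((H : ℝ) / p) := by linarith
    _ = 3 * H * (p : ℝ)⁻¹ := by rw [div_eq_mul_inv]; ring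

theorem excl_small (n : ℕ) (i : Fin (n + 1)) (hi : i ≠ 0) (ε : ℝ) (hε : 0 < ε) :
    ∃ P₀ : ℕ, ∀ P : ℕ, P₀ ≤ P → ∀ H : ℕ,
      (cnt n (fun a => a 0 ≠ 0 ∧ ∃ p : ℕ, p.Prime ∧ P < p ∧ (p : ℤ) ∣ a 0 ∧ (p : ℤ) ∣ a i) H : ℝ) ≤
        ε * H ^ (n + 1) := by
  classical
  refine ⟨max 1 ⌈3 ^ (n + 1) / ε⌉₊, fun P hP H => ?_⟩
  have hP1 : 1 ≤ P := (le_max_left _ _).trans hP
  have hP2 : 3 ^ (n + 1) / ε ≤ P :=
    (Nat.le_ceil _).trans (by exact_mod_cast (le_max_right _ _).trans hP)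
  have h1 : cnt n (fun a => a 0 ≠ 0 ∧ ∃ p : ℕ, p.Prime ∧ P < p ∧ (p : ℤ) ∣ a 0 ∧ (p : ℤ) ∣ a i) H ≤
      cnt n (fun a => ∃ p ∈ Finset.Ioc P H, (p : ℤ) ∣ a 0 ∧ (p : ℤ) ∣ a i) H := by
    refine cnt_mono H fun a ha hP => ?_
    obtain ⟨h0, p, hp, hPp, h2, h3⟩ := hP
    refine ⟨p, Finset.mem_Ioc.2 ⟨hPp, ?_⟩, h2, h3⟩
    have h4 := Int.le_of_dvd (abs_pos.2 h0) ((dvd_abs _ _).2 h2)
    have h5 := h4.trans (ha 0)
    exact_mod_cast h5
  have h2 := Singular.cnt_le_add n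
    (fun a => ∃ p ∈ Finset.Ioc P H, (p : ℤ) ∣ a 0 ∧ (p : ℤ) ∣ a i) (fun _ => False)
    (Finset.Ioc P H) (fun p a => (p : ℤ) ∣ a 0 ∧ (p : ℤ) ∣ a i) H (fun a ha => Or.inr ha)
  have h3 : BF.cnt n (fun _ => False) H = 0 := by
    unfold BF.cnt
    simp
  rw [h3, zero_add] at h2
  have h4 : ∀ p ∈ Finset.Ioc P H, (cnt n (fun a => (p : ℤ) ∣ a 0 ∧ (p : ℤ) ∣ a i) H : ℝ) ≤
      ((p : ℝ) ^ 2)⁻¹ * (3 * (H : ℝ)) ^ (n + 1) := by
    intro p hp
    rw [Finset.mem_Ioc] at hp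
    have hp1 : 1 ≤ p := by omega
    have hc := card_mult p H hp1 hp.2
    refine (cnt_two n _ H (by omega) 0 i hi.symm _ _ _ _ hc hc ?_).trans (le_of_eq ?_)
    · intro a ha hd
      exact ⟨Finset.mem_filter.2 ⟨Finset.mem_Icc.2 (abs_le.1 (ha 0)), hd.1⟩,
        Finset.mem_filter.2 ⟨Finset.mem_Icc.2 (abs_le.1 (ha i)), hd.2⟩⟩
    · rw [sq, mul_inv]
  have h5 : (cnt n (fun a => a 0 ≠ 0 ∧ ∃ p : ℕ, p.Prime ∧ P < p ∧ (p : ℤ) ∣ a 0 ∧
      (p : ℤ) ∣ a i) H : ℝ) ≤ ∑ p ∈ Finset.Ioc P H, ((p : ℝ) ^ 2)⁻¹ * (3 * (H : ℝ)) ^ (n + 1) := by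
    refine (Nat.cast_le.2 (h1.trans h2)).trans ?_
    rw [Nat.cast_sum]
    exact Finset.sum_le_sum h4
  refine h5.trans ?_
  rw [← Finset.sum_mul]
  rcases le_total P H with hPH | hPH
  · have h6 : ∑ p ∈ Finset.Ioc P H, ((p : ℝ) ^ 2)⁻¹ ≤ (P : ℝ)⁻¹ := by
      refine (sum_Ioc_inv_sq_le_sub (by omega) hPH).trans ?_
      have : (0 : ℝ) ≤ (H : ℝ)⁻¹ := by positivity
      linarith
    have hP0 : (0 : ℝ) < P := by exact_mod_cast hP1
    calc (∑ p ∈ Finset.Ioc P H, ((p : ℝ) ^ 2)⁻¹) * (3 * (H : ℝ)) ^ (n + 1)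
        ≤ (P : ℝ)⁻¹ * (3 * (H : ℝ)) ^ (n + 1) :=
          mul_le_mul_of_nonneg_right h6 (by positivity)
      _ = (3 ^ (n + 1) * (P : ℝ)⁻¹) * H ^ (n + 1) := by rw [mul_pow]; ring
      _ ≤ ε * H ^ (n + 1) := by
        refine mul_le_mul_of_nonneg_right ?_ (by positivity)
        rw [div_le_iff₀ hε] at hP2
        rw [← div_eq_mul_inv, div_le_iff₀ hP0]
        linarith
  · rw [Finset.Ioc_eq_empty (by omega), Finset.sum_empty, zero_mul]
    positivity

end Stoll308.SC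
end

section
set_option autoImplicit false

/-!
Few pairs of polynomials come from reduced pairs with lengths of the same size which satisfy all
local conditions.
-/

namespace Stoll308.DQ

open Polynomial Finset Matrix BG BF

/-- The products of two lengths. -/
lemma len_le {n : ℕ} (hn0 : n ≠ 0) {K R H D : ℝ} (hR : 1 ≤ R) (hD0 : 0 ≤ D)
    (hDn : D ^ n = R ^ (2 * n) * K * H) {a : Fin (n + 1) → ℤ} {A B : Matrix (Fin n) (Fin n) ℤ}
    {t : Fin n → ℝ} (h : BF.RPair K H a A B t) (ht : ∀ i j, t j ≤ R * t i) (i j : Fin n) :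
    t i * t j ≤ D := by
  have hpos := h.pos
  have e1 : ∀ j, t j ^ n ≤ R ^ n * ∏ i, t i := by
    intro j
    calc t j ^ n = ∏ _i : Fin n, t j := by
          rw [Finset.prod_const, Finset.card_univ, Fintype.card_fin]
      _ ≤ ∏ i : Fin n, (R * t i) :=
          Finset.prod_le_prod (fun _ _ => (hpos j).le) (fun i _ => ht i j)
      _ = R ^ n * ∏ i, t i := by
          rw [Finset.prod_mul_distrib, Finset.prod_const, Finset.card_univ, Fintype.card_fin]
  apply le_of_pow_le_pow_left₀ hn0 hD0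
  rw [hDn, mul_pow]
  have hp : 0 < ∏ i, t i := Finset.prod_pos fun i _ => hpos i
  calc t i ^ n * t j ^ n ≤ (R ^ n * ∏ i, t i) * (R ^ n * ∏ i, t i) :=
        mul_le_mul (e1 i) (e1 j) (pow_pos (hpos j) n).le (by positivity)
    _ = R ^ (2 * n) * (∏ i, t i) ^ 2 := by ring
    _ ≤ R ^ (2 * n) * (K * H) := by
        gcongr
        exact h.prod
    _ = R ^ (2 * n) * K * H := by ring

/-- The entries. -/
lemma mem_box {x : ℤ} {D : ℝ} (h : |(x : ℝ)| ≤ D) : x ∈ Icc (-⌊D⌋) ⌊D⌋ := by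
  have h2 := abs_le.1 h
  rw [mem_Icc]
  constructor
  · have : -x ≤ ⌊D⌋ := by
      rw [Int.le_floor]; push_cast; linarith
    linarith
  · rw [Int.le_floor]; exact h2.2

open Classical in
theorem large_t {n m : ℕ} (hn : 4 ≤ n) (he : Even n) (hm : 4 ≤ m) (hem : Even m) (K R : ℝ)
    (hK : 1 ≤ K) (hR : 1 ≤ R) (ε : ℝ) (hε : 0 < ε) :
    ∃ H₀ : ℝ, ∀ H H' : ℝ, H₀ ≤ H → H₀ ≤ H' →
      ∀ T : Finset ((Fin (n + 1) → ℤ) × (Fin (m + 1) → ℤ)),
      (∀ x ∈ T, ∃ (A B : Matrix (Fin n) (Fin n) ℤ) (t : Fin n → ℝ)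
          (A' B' : Matrix (Fin m) (Fin m) ℤ) (t' : Fin m → ℝ),
        BF.RPair K H x.1 A B t ∧ BF.RPair K H' x.2 A' B' t' ∧ (∀ i j, t j ≤ R * t i) ∧
        (∀ i j, t' j ≤ R * t' i) ∧ ∀ l : ℕ, l ≠ 2 → ¬ Bad l A B A' B') →
      (T.card : ℝ) ≤ ε * (H ^ (n + 1) * H' ^ (m + 1)) := by
  obtain ⟨Q, hQ⟩ : ∃ Q : ℝ, Q = R ^ (2 * n) * K := ⟨_, rfl⟩
  obtain ⟨Q', hQ'⟩ : ∃ Q' : ℝ, Q' = R ^ (2 * m) * K := ⟨_, rfl⟩
  have hQ1 : 1 ≤ Q := by
    rw [hQ]
    exact one_le_mul_of_one_le_of_one_le (one_le_pow₀ hR) hK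
  have hQ1' : 1 ≤ Q' := by
    rw [hQ']
    exact one_le_mul_of_one_le_of_one_le (one_le_pow₀ hR) hK
  have hQ0 : 0 < Q := by linarith
  have hQ0' : 0 < Q' := by linarith
  obtain ⟨z, D₀, hz⟩ := cube_small hn he hm hem (ε / (Q ^ (n + 1) * Q' ^ (m + 1))) (by positivity)
  refine ⟨max 1 (max (|D₀| ^ n) (|D₀| ^ m)), ?_⟩
  intro H H' hH hH' T hT
  have hH1 : 1 ≤ H := (le_max_left _ _).trans hH
  have hH1' : 1 ≤ H' := (le_max_left _ _).trans hH'
  have hHD : |D₀| ^ n ≤ H := ((le_max_left _ _).trans (le_max_right _ _)).trans hH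
  have hHD' : |D₀| ^ m ≤ H' := ((le_max_right _ _).trans (le_max_right _ _)).trans hH'
  have hn0 : n ≠ 0 := by omega
  have hm0 : m ≠ 0 := by omega
  obtain ⟨D, hD⟩ : ∃ D : ℝ, D = (Q * H) ^ ((n : ℝ)⁻¹) := ⟨_, rfl⟩
  obtain ⟨D', hD'⟩ : ∃ D' : ℝ, D' = (Q' * H') ^ ((m : ℝ)⁻¹) := ⟨_, rfl⟩
  have hD0 : 0 ≤ D := by rw [hD]; positivity
  have hD0' : 0 ≤ D' := by rw [hD']; positivity
  have hDn : D ^ n = Q * H := by
    rw [hD]
    exact Real.rpow_inv_natCast_pow (by positivity) hn0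
  have hDn' : D' ^ m = Q' * H' := by
    rw [hD']
    exact Real.rpow_inv_natCast_pow (by positivity) hm0
  have hD₀ : D₀ ≤ D := by
    refine (le_abs_self _).trans ?_
    apply le_of_pow_le_pow_left₀ hn0 hD0
    rw [hDn]
    calc |D₀| ^ n ≤ H := hHD
      _ ≤ Q * H := le_mul_of_one_le_left (by linarith) hQ1
  have hD₀' : D₀ ≤ D' := by
    refine (le_abs_self _).trans ?_
    apply le_of_pow_le_pow_left₀ hm0 hD0'
    rw [hDn']
    calc |D₀| ^ m ≤ H' := hHD'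
      _ ≤ Q' * H' := le_mul_of_one_le_left (by linarith) hQ1'
  have h1 := hz D D' hD₀ hD₀'
  set S := ((Fintype.piFinset fun i : (Ix n ⊕ Ix n) ⊕ (Ix m ⊕ Ix m) =>
          Icc (-⌊Sum.elim (fun _ => D) (fun _ => D') i⌋)
            ⌊Sum.elim (fun _ => D) (fun _ => D') i⌋).filter
        fun v => ∀ l ∈ Icc 5 z, l.Prime → ¬ Bad l (symM fun p => v (Sum.inl (Sum.inl p)))
          (symM fun p => v (Sum.inl (Sum.inr p))) (symM fun p => v (Sum.inr (Sum.inl p)))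
          (symM fun p => v (Sum.inr (Sum.inr p)))) with hS
  have hch : ∀ x : (Fin (n + 1) → ℤ) × (Fin (m + 1) → ℤ),
      ∃ v : (Ix n ⊕ Ix n) ⊕ (Ix m ⊕ Ix m) → ℤ, x ∈ T →
      v ∈ S ∧ HasChar x.1 (symM fun p => v (Sum.inl (Sum.inl p)))
        (symM fun p => v (Sum.inl (Sum.inr p))) ∧
      HasChar x.2 (symM fun p => v (Sum.inr (Sum.inl p)))
        (symM fun p => v (Sum.inr (Sum.inr p))) := by
    intro x
    by_cases hx : x ∈ T
    swap
    · exact ⟨0, fun h => absurd h hx⟩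
    obtain ⟨A, B, t, A', B', t', hP, hP', ht, ht', hl⟩ := hT x hx
    have hA : (symM fun p : Ix n => A p.1.1 p.1.2) = A := symM_of_isSymm A hP.symA
    have hB : (symM fun p : Ix n => B p.1.1 p.1.2) = B := symM_of_isSymm B hP.symB
    have hA' : (symM fun p : Ix m => A' p.1.1 p.1.2) = A' := symM_of_isSymm A' hP'.symA
    have hB' : (symM fun p : Ix m => B' p.1.1 p.1.2) = B' := symM_of_isSymm B' hP'.symB
    have hlen := len_le hn0 hR hD0 (by rw [hDn, hQ]) hP ht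
    have hlen' := len_le hm0 hR hD0' (by rw [hDn', hQ']) hP' ht'
    refine ⟨Sum.elim (Sum.elim (fun p => A p.1.1 p.1.2) (fun p => B p.1.1 p.1.2))
      (Sum.elim (fun p => A' p.1.1 p.1.2) (fun p => B' p.1.1 p.1.2)), fun _ => ⟨?_, ?_, ?_⟩⟩
    · rw [hS]
      simp only [mem_filter, Fintype.mem_piFinset, Sum.elim_inl, Sum.elim_inr]
      constructor
      · rintro ((p | p) | (p | p))
        · simp only [Sum.elim_inl]
          exact mem_box ((hP.hA p.1.1 p.1.2).trans (hlen _ _))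
        · simp only [Sum.elim_inl, Sum.elim_inr]
          exact mem_box ((hP.hB p.1.1 p.1.2).trans (hlen _ _))
        · simp only [Sum.elim_inl, Sum.elim_inr]
          exact mem_box ((hP'.hA p.1.1 p.1.2).trans (hlen' _ _))
        · simp only [Sum.elim_inr]
          exact mem_box ((hP'.hB p.1.1 p.1.2).trans (hlen' _ _))
      · intro l hl5 _
        rw [hA, hB, hA', hB']
        rw [mem_Icc] at hl5
        exact hl l (by omega)
    · simp only [Sum.elim_inl, Sum.elim_inr]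
      rw [hA, hB]
      exact hP.char
    · simp only [Sum.elim_inl, Sum.elim_inr]
      rw [hA', hB']
      exact hP'.char
  choose v hv using hch
  have hinj : Set.InjOn v T := by
    intro x hx x' hx' h
    obtain ⟨-, h1, h2⟩ := hv x hx
    obtain ⟨-, h1', h2'⟩ := hv x' hx'
    rw [h] at h1 h2
    exact Prod.ext (h1.inj h1') (h2.inj h2')
  have hcard : T.card ≤ S.card :=
    Finset.card_le_card_of_injOn v (fun a ha => (hv a ha).1) hinj
  calc (T.card : ℝ) ≤ (S.card : ℝ) := by exact_mod_cast hcard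
    _ ≤ ε / (Q ^ (n + 1) * Q' ^ (m + 1)) * (D ^ (n * (n + 1)) * D' ^ (m * (m + 1))) := h1
    _ = ε * (H ^ (n + 1) * H' ^ (m + 1)) := by
        rw [pow_mul, hDn, mul_pow, pow_mul, hDn', mul_pow]
        have hQn : Q ^ (n + 1) ≠ 0 := (pow_pos hQ0 _).ne'
        have hQm : Q' ^ (m + 1) ≠ 0 := (pow_pos hQ0' _).ne'
        field_simp

end Stoll308.DQ
end

section
set_option autoImplicit false

/-!
The reduced pair, squarefree version.
-/

namespace Stoll308.FQ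

open Polynomial Finset Matrix BG BF

lemma exists_roots {n : ℕ} (a : Fin (n + 1) → ℤ) (h0 : a 0 ≠ 0) (hF : Squarefree (GZ ℚ a)) :
    ∃ θ : Fin n → ℂ, Function.Injective θ ∧ (∀ i, (GZ ℂ a).eval (θ i) = 0) ∧
      (GZ ℂ a).roots = (univ : Finset (Fin n)).val.map θ := by
  classical
  have hm : (GZ ℚ a).map (algebraMap ℚ ℂ) = GZ ℂ a := BF.Major.gz_map _ a
  have h0' : (a 0 : ℂ) ≠ 0 := by exact_mod_cast h0
  have hsep : (GZ ℂ a).Separable := by
    rw [← hm]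
    exact (PerfectField.separable_iff_squarefree.2 hF).map
  have hne : GZ ℂ a ≠ 0 := hsep.ne_zero
  have hcard : (GZ ℂ a).roots.toFinset.card = n := by
    rw [Multiset.toFinset_card_of_nodup (nodup_roots hsep),
      (IsAlgClosed.splits (GZ ℂ a)).natDegree_eq_card_roots.symm, BF.Major.gz_natDegree a h0']
  let e := Finset.equivFinOfCardEq hcard
  have hinj : Function.Injective (fun i => (e.symm i : ℂ)) :=
    fun i j hij => e.symm.injective (Subtype.ext hij)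
  have hmem : ∀ i, ((e.symm i : ℂ)) ∈ (GZ ℂ a).roots := fun i => by
    have := (e.symm i).2
    rwa [Multiset.mem_toFinset] at this
  refine ⟨fun i => (e.symm i : ℂ), hinj, fun i => ?_, ?_⟩
  · have := hmem i
    rw [mem_roots hne] at this
    exact this
  · refine (Multiset.Nodup.ext (nodup_roots hsep) ?_).2 (fun z => ?_)
    · exact Multiset.Nodup.map hinj (Finset.nodup _)
    · constructor
      · intro hz
        have hz' : z ∈ (GZ ℂ a).roots.toFinset := by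
          rwa [Multiset.mem_toFinset]
        rw [Multiset.mem_map]
        refine ⟨e ⟨z, hz'⟩, ?_, by simp⟩
        exact Finset.mem_univ (e ⟨z, hz'⟩)
      · intro hz
        rw [Multiset.mem_map] at hz
        obtain ⟨i, _, rfl⟩ := hz
        exact hmem i

theorem majorant {n : ℕ} (hn : 2 ≤ n) (a : Fin (n + 1) → ℤ) (h0 : a 0 ≠ 0)
    (hF : Squarefree (GZ ℚ a)) (δ : ℚ[X]) (hδ : IsCoprime δ (GZ ℚ a))
    (A B : Matrix (Fin n) (Fin n) ℤ) (h : IsPair a δ A B)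
    (hdet : A.det = (-1) ^ (n / 2) * a 0) (H : ℝ) (hH : ∀ i, |(a i : ℝ)| ≤ H) :
    ∃ P : Matrix (Fin n) (Fin n) ℝ, P.PosDef ∧ P.det ≤ (n + 1) * H ∧
      (∀ i, |(a i : ℝ)| ≤ 2 ^ n * P.det) ∧
      (∀ u v : Fin n → ℝ, (u ⬝ᵥ (A.map (Int.cast : ℤ → ℝ)) *ᵥ v) ^ 2 ≤
        (u ⬝ᵥ P *ᵥ u) * (v ⬝ᵥ P *ᵥ v)) ∧
      (∀ u v : Fin n → ℝ, (u ⬝ᵥ (B.map (Int.cast : ℤ → ℝ)) *ᵥ v) ^ 2 ≤
        (u ⬝ᵥ P *ᵥ u) * (v ⬝ᵥ P *ᵥ v)) := by
  classical
  have _ := hn
  have _ := hδ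
  have h0' : (a 0 : ℂ) ≠ 0 := by exact_mod_cast h0
  have h0Q : (a 0 : ℚ) ≠ 0 := by exact_mod_cast h0
  obtain ⟨θ, hθ, hr, hroots⟩ := exists_roots a h0 hF
  obtain ⟨G, hG, hGA, hGB⟩ := h
  have hAdet : A.det ≠ 0 := by
    rw [hdet]
    exact mul_ne_zero (pow_ne_zero _ (by norm_num)) h0
  -- the conjugation of the roots
  have hm : (GZ ℚ a).map (algebraMap ℚ ℂ) = GZ ℂ a := BF.Major.gz_map _ a
  have hmm : (mon ℚ a).map (algebraMap ℚ ℂ) = mon ℂ a := BF.Major.mon_map _ a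
  have hmr : ∀ i, (mon ℂ a).eval (θ i) = 0 := fun i => (BF.Major.mon_eval a h0' _).2 (hr i)
  have hσ0 : ∀ i, ∃ j, θ j = (starRingEnd ℂ) (θ i) := by
    intro i
    have h1 : (GZ ℂ a).eval ((starRingEnd ℂ) (θ i)) = 0 := by
      rw [← hm, BG.Major.eval_conj, hm, hr i, map_zero]
    have h2 : (starRingEnd ℂ) (θ i) ∈ (GZ ℂ a).roots := by
      rw [mem_roots]
      · exact h1
      · rw [← leadingCoeff_ne_zero, BF.Major.gz_lead a h0']
        exact h0'
    rw [hroots, Multiset.mem_map] at h2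
    obtain ⟨j, _, hj⟩ := h2
    exact ⟨j, hj⟩
  choose σ0 hσ0 using hσ0
  have hσinj : Function.Injective σ0 := by
    intro i j hij
    apply hθ
    have h1 := hσ0 i
    rw [hij, hσ0 j] at h1
    exact (starRingEnd ℂ).injective h1.symm
  let σ : Equiv.Perm (Fin n) := Equiv.ofBijective σ0 (Finite.injective_iff_bijective.1 hσinj)
  have hσ : ∀ i, θ (σ i) = (starRingEnd ℂ) (θ i) := hσ0
  set D : Fin n → ℂ := fun k =>
    (a 0 : ℂ)⁻¹ * ((δ.map (algebraMap ℚ ℂ)).eval (θ k) / BG.Major.den θ k) with hD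
  have hden : ∀ k, BG.Major.den θ (σ k) = (starRingEnd ℂ) (BG.Major.den θ k) := by
    intro k
    unfold BG.Major.den
    rw [map_prod]
    symm
    refine Finset.prod_equiv σ (fun j => ?_) (fun j _ => ?_)
    · simp
    · rw [map_sub, hσ, hσ]
  have hDσ : ∀ k, ‖D (σ k)‖ = ‖D k‖ := by
    intro k
    simp only [hD]
    rw [hσ, BG.Major.eval_conj, hden, ← map_div₀, norm_mul, norm_mul]
    congr 1
    exact Complex.norm_conj _
  have hθσ : ∀ k, ‖θ (σ k)‖ = ‖θ k‖ := by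
    intro k
    rw [hσ]
    exact Complex.norm_conj _
  set V : Matrix (Fin n) (Fin n) ℂ := Matrix.of fun (j k : Fin n) => θ k ^ (j : ℕ) with hV
  set W : Matrix (Fin n) (Fin n) ℂ := G.map (algebraMap ℚ ℂ) * V with hW
  have hWσ : ∀ i k, W i (σ k) = (starRingEnd ℂ) (W i k) := by
    intro i k
    simp only [hW, Matrix.mul_apply, map_sum, map_mul]
    refine sum_congr rfl (fun j _ => ?_)
    rw [hV, Matrix.of_apply, Matrix.of_apply, hσ, map_pow, Matrix.map_apply]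
    congr 1
    simp
  have hgen : ∀ (M : Matrix (Fin n) (Fin n) ℤ) (η : ℚ[X]),
      M.map (Int.cast : ℤ → ℚ) = (a 0 : ℚ)⁻¹ • (G * Hank n (mon ℚ a) η * Gᵀ) →
      M.map (Int.cast : ℤ → ℂ) = W * diagonal (fun k =>
        (a 0 : ℂ)⁻¹ * ((η.map (algebraMap ℚ ℂ)).eval (θ k) / BG.Major.den θ k)) * Wᵀ := by
    intro M η hM
    have h1 : M.map (Int.cast : ℤ → ℂ) =
        (M.map (Int.cast : ℤ → ℚ)).map (algebraMap ℚ ℂ) := by
      ext i j
      simp
    have h2 : (diagonal (fun k =>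
        (a 0 : ℂ)⁻¹ * ((η.map (algebraMap ℚ ℂ)).eval (θ k) / BG.Major.den θ k)) :
        Matrix (Fin n) (Fin n) ℂ) = (a 0 : ℂ)⁻¹ • diagonal (fun k =>
          (η.map (algebraMap ℚ ℂ)).eval (θ k) / BG.Major.den θ k) := by
      rw [← Matrix.diagonal_smul]
      rfl
    have h3 : ((a 0 : ℚ)⁻¹ • (G * Hank n (mon ℚ a) η * Gᵀ)).map (algebraMap ℚ ℂ) =
        (a 0 : ℂ)⁻¹ • ((G * Hank n (mon ℚ a) η * Gᵀ).map (algebraMap ℚ ℂ)) := by
      ext i j
      rw [Matrix.map_apply, Matrix.smul_apply, Matrix.smul_apply, Matrix.map_apply,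
        smul_eq_mul, smul_eq_mul, map_mul, map_inv₀, map_intCast]
    rw [h1, hM, h3, Matrix.map_mul, Matrix.map_mul,
      ← hank_map _ _ _ (BF.Major.mon_monic a h0Q), hmm,
      BF.Major.hank_eq (mon ℂ a) (BF.Major.mon_monic a h0') (BF.Major.mon_natDegree a h0') θ hθ hmr, hW,
      Matrix.transpose_map, Matrix.transpose_mul, h2]
    simp only [Matrix.mul_assoc, hV, Matrix.mul_smul, Matrix.smul_mul]
  have hA : A.map (Int.cast : ℤ → ℂ) = W * diagonal D * Wᵀ := hgen A δ hGA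
  have hB : B.map (Int.cast : ℤ → ℂ) = W * diagonal (fun k => θ k * D k) * Wᵀ := by
    rw [hgen B (X * δ) hGB]
    congr 3
    funext k
    simp only [hD, Polynomial.map_mul, Polynomial.map_X, eval_mul, eval_X]
    ring
  set e : Fin n → ℝ := fun k => max 1 ‖θ k‖ * ‖D k‖ with he
  set E : Fin n → ℂ := fun k => (e k : ℂ) with hE
  have heσ : ∀ k, e (σ k) = e k := by
    intro k
    simp only [he, hDσ, hθσ]
  have he0 : ∀ k, 0 ≤ e k := fun k => by
    simp only [he]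
    positivity
  set Q : Matrix (Fin n) (Fin n) ℂ := W * diagonal E * Wᴴ with hQ
  have hQe : ∀ i j, Q i j = ∑ k, E k * (W i k * (starRingEnd ℂ) (W j k)) := by
    intro i j
    rw [hQ, Matrix.mul_apply]
    refine sum_congr rfl (fun k _ => ?_)
    rw [Matrix.mul_diagonal, Matrix.conjTranspose_apply]
    simp only [RCLike.star_def]
    ring
  have hQr : ∀ i j, (starRingEnd ℂ) (Q i j) = Q i j := by
    intro i j
    rw [hQe, map_sum, ← Equiv.sum_comp σ]
    refine sum_congr rfl (fun k _ => ?_)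
    rw [map_mul, map_mul, hWσ, hWσ]
    simp only [hE, heσ, Complex.conj_conj, Complex.conj_ofReal]
  set P : Matrix (Fin n) (Fin n) ℝ := Q.map Complex.re with hP
  have hPQ : P.map (Complex.ofRealHom) = Q := by
    ext i j
    rw [hP, Matrix.map_apply, Matrix.map_apply]
    exact Complex.conj_eq_iff_re.1 (hQr i j)
  have hdP : (P.det : ℂ) = Q.det := by
    rw [← hPQ]
    exact (RingHom.map_det Complex.ofRealHom P)
  have hdA : ((A.det : ℝ) : ℂ) = W.det * (∏ k, D k) * W.det := by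
    have h1 : ((A.det : ℝ) : ℂ) = (A.map (Int.cast : ℤ → ℂ)).det := by
      have := RingHom.map_det (Int.castRingHom ℂ) A
      simpa using this
    rw [h1, hA, Matrix.det_mul, Matrix.det_mul, Matrix.det_diagonal, Matrix.det_transpose]
  have hdQ : Q.det = W.det * (∏ k, E k) * (starRingEnd ℂ) W.det := by
    rw [hQ, Matrix.det_mul, Matrix.det_mul, Matrix.det_diagonal, Matrix.det_conjTranspose]
    rfl
  have hnd : W.det * (∏ k, D k) * W.det ≠ 0 := by
    rw [← hdA]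
    exact_mod_cast hAdet
  have hWdet : W.det ≠ 0 := right_ne_zero_of_mul hnd
  have hDne : ∀ k, D k ≠ 0 := by
    have := right_ne_zero_of_mul (left_ne_zero_of_mul hnd)
    intro k
    exact Finset.prod_ne_zero_iff.1 this k (mem_univ k)
  have hepos : ∀ k, 0 < e k := fun k => by
    have h1 : 0 < ‖D k‖ := norm_pos_iff.2 (hDne k)
    simp only [he]
    positivity
  -- the determinant
  have hPdet : P.det = (GZ ℂ a).mahlerMeasure := by
    have h1 : ‖((A.det : ℝ) : ℂ)‖ = |(a 0 : ℝ)| := by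
      rw [Complex.norm_real, Real.norm_eq_abs, hdet]
      push_cast
      rw [abs_mul, abs_pow, abs_neg, abs_one, one_pow, one_mul]
    have h2 : ((P.det : ℝ) : ℂ) = (((GZ ℂ a).mahlerMeasure : ℝ) : ℂ) := by
      rw [hdP, hdQ, BF.Major.mahler_eq a h0 θ hroots, ← h1, hdA, norm_mul, norm_mul, norm_prod]
      have : W.det * (starRingEnd ℂ) W.det = ((‖W.det‖ ^ 2 : ℝ) : ℂ) := by
        rw [Complex.mul_conj, Complex.normSq_eq_norm_sq]
      calc W.det * (∏ k, E k) * (starRingEnd ℂ) W.det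
          = (W.det * (starRingEnd ℂ) W.det) * ∏ k, E k := by ring
        _ = _ := by
          rw [this]
          simp only [hE, he]
          push_cast
          rw [Finset.prod_mul_distrib]
          ring
    exact_mod_cast h2
  -- the values
  have hcast : ∀ (R : Matrix (Fin n) (Fin n) ℝ) (u v : Fin n → ℝ),
      ((u ⬝ᵥ R *ᵥ v : ℝ) : ℂ) = (fun i => (u i : ℂ)) ⬝ᵥ (R.map Complex.ofRealHom) *ᵥ
        (fun i => (v i : ℂ)) := by
    intro R u v
    simp [dotProduct, mulVec]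
  set b : (Fin n → ℝ) → Fin n → ℂ := fun u => (fun i => (u i : ℂ)) ᵥ* W with hb
  have hPu : ∀ u : Fin n → ℝ, u ⬝ᵥ P *ᵥ u = ∑ k, e k * ‖b u k‖ ^ 2 := by
    intro u
    have h1 : ((u ⬝ᵥ P *ᵥ u : ℝ) : ℂ) = ((∑ k, e k * ‖b u k‖ ^ 2 : ℝ) : ℂ) := by
      rw [hcast, hPQ, hQ, BG.Major.quadH _ _ _ _ (fun i => Complex.conj_ofReal _)]
      push_cast
      refine sum_congr rfl (fun k _ => ?_)
      rw [mul_assoc, Complex.mul_conj, Complex.normSq_eq_norm_sq]
      push_cast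
      rfl
    exact_mod_cast h1
  have hAu : ∀ u v : Fin n → ℝ, ((u ⬝ᵥ (A.map (Int.cast : ℤ → ℝ)) *ᵥ v : ℝ) : ℂ) =
      ∑ k, D k * b u k * b v k := by
    intro u v
    have h1 : (A.map (Int.cast : ℤ → ℝ)).map Complex.ofRealHom = A.map (Int.cast : ℤ → ℂ) := by
      ext i j
      simp
    rw [hcast, h1, hA, BG.Major.quad]
  have hBu : ∀ u v : Fin n → ℝ, ((u ⬝ᵥ (B.map (Int.cast : ℤ → ℝ)) *ᵥ v : ℝ) : ℂ) =
      ∑ k, θ k * D k * b u k * b v k := by
    intro u v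
    have h1 : (B.map (Int.cast : ℤ → ℝ)).map Complex.ofRealHom = B.map (Int.cast : ℤ → ℂ) := by
      ext i j
      simp
    rw [hcast, h1, hB, BG.Major.quad]
  have hCS : ∀ u v : Fin n → ℝ, (∑ k, e k * ‖b u k‖ * ‖b v k‖) ^ 2 ≤
      (u ⬝ᵥ P *ᵥ u) * (v ⬝ᵥ P *ᵥ v) := by
    intro u v
    rw [hPu, hPu]
    refine Finset.sum_sq_le_sum_mul_sum_of_sq_le_mul _
      (fun k _ => mul_nonneg (he0 k) (by positivity))
      (fun k _ => mul_nonneg (he0 k) (by positivity)) (fun k _ => le_of_eq (by ring))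
  refine ⟨P, ?_, ?_, ?_, ?_, ?_⟩
  · refine Matrix.PosDef.of_dotProduct_mulVec_pos ?_ (fun u hu => ?_)
    · ext i j
      rw [Matrix.conjTranspose_apply, star_trivial]
      have h1 : Q j i = Q i j := by
        rw [← hQr j i, hQe, hQe, map_sum]
        refine sum_congr rfl (fun k _ => ?_)
        simp only [map_mul, hE, Complex.conj_ofReal, Complex.conj_conj]
        ring
      rw [hP, Matrix.map_apply, Matrix.map_apply, h1]
    · rw [star_trivial, hPu]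
      have hne : b u ≠ 0 := by
        intro h0
        apply hu
        have h1 : (fun i => (u i : ℂ)) = 0 := by
          refine Matrix.eq_zero_of_vecMul_eq_zero hWdet h0
        funext i
        have := congrFun h1 i
        simpa using this
      obtain ⟨k, hk⟩ := Function.ne_iff.1 hne
      refine Finset.sum_pos' (fun k _ => mul_nonneg (he0 k) (by positivity))
        ⟨k, mem_univ k, ?_⟩
      have h1 : 0 < e k := hepos k
      have h2 : 0 < ‖b u k‖ := norm_pos_iff.2 hk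
      positivity
  · rw [hPdet]
    exact BF.Major.mahler_le a H hH
  · intro i
    rw [hPdet]
    exact BF.Major.coeff_le a h0 i
  · intro u v
    refine le_trans ?_ (hCS u v)
    rw [← sq_abs]
    refine pow_le_pow_left₀ (abs_nonneg _) ?_ 2
    rw [← Real.norm_eq_abs, ← Complex.norm_real, hAu]
    refine (norm_sum_le _ _).trans (sum_le_sum (fun k _ => ?_))
    rw [norm_mul, norm_mul]
    refine mul_le_mul_of_nonneg_right (mul_le_mul_of_nonneg_right ?_ (norm_nonneg _))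
      (norm_nonneg _)
    simp only [he]
    exact le_mul_of_one_le_left (norm_nonneg _) (le_max_left _ _)
  · intro u v
    refine le_trans ?_ (hCS u v)
    rw [← sq_abs]
    refine pow_le_pow_left₀ (abs_nonneg _) ?_ 2
    rw [← Real.norm_eq_abs, ← Complex.norm_real, hBu]
    refine (norm_sum_le _ _).trans (sum_le_sum (fun k _ => ?_))
    rw [norm_mul, norm_mul, norm_mul]
    refine mul_le_mul_of_nonneg_right (mul_le_mul_of_nonneg_right ?_ (norm_nonneg _))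
      (norm_nonneg _)
    simp only [he]
    exact mul_le_mul_of_nonneg_right (le_max_right _ _) (norm_nonneg _)

theorem red_of_pair {n : ℕ} (hn : 2 ≤ n) (he : Even n) : ∃ K : ℝ, 1 ≤ K ∧
    ∀ a : Fin (n + 1) → ℤ, a 0 ≠ 0 → Squarefree (GZ ℚ a) → ∀ H : ℝ, (∀ i, |(a i : ℝ)| ≤ H) →
      ∀ δ : ℚ[X], IsCoprime δ (GZ ℚ a) →
      ∀ A₀ B₀ : Matrix (Fin n) (Fin n) ℤ, BF.IsPair a δ A₀ B₀ →
      A₀.det = (-1) ^ (n / 2) * a 0 →
      ∃ (A B : Matrix (Fin n) (Fin n) ℤ) (t : Fin n → ℝ), BF.RPair K H a A B t ∧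
        BF.IsPair a δ A B ∧ A.det = (-1) ^ (n / 2) * a 0 := by
  obtain ⟨K₀, hK₀, hred⟩ := red_basis n
  have hf1 : (1 : ℝ) ≤ n.factorial := by exact_mod_cast n.factorial_pos
  refine ⟨K₀ * (n + 1) * (2 ^ n * n.factorial), ?_, ?_⟩
  · have h1 : (1 : ℝ) ≤ n + 1 := by
      have : (0 : ℝ) ≤ n := Nat.cast_nonneg n
      linarith
    have h2 : (1 : ℝ) ≤ 2 ^ n := one_le_pow₀ (by norm_num)
    exact one_le_mul_of_one_le_of_one_le (one_le_mul_of_one_le_of_one_le hK₀ h1)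
      (one_le_mul_of_one_le_of_one_le h2 hf1)
  intro a h0 hF H hH δ hδ A₀ B₀ hpair hdet
  obtain ⟨P, hP, hPH, hPa, hPA, hPB⟩ := majorant hn a h0 hF δ hδ A₀ B₀ hpair hdet H hH
  obtain ⟨U, hU, hsort, hprod⟩ := hred P hP
  have hpair' := hpair.conj hU
  have hQact : U.map (Int.cast : ℤ → ℝ) * P * (U.map (Int.cast : ℤ → ℝ))ᵀ = act U P := rfl
  rw [hQact] at hsort hprod
  have hQpd := act_posDef U P hU hP
  have hQdet := act_det U P hU
  set Q := act U P with hQ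
  have hQii : ∀ i, Q i i = (fun j => ((U i j : ℤ) : ℝ)) ⬝ᵥ P *ᵥ (fun j => ((U i j : ℤ) : ℝ)) := by
    intro i
    exact act_diag U P i
  have hQpos : ∀ i, 0 < Q i i := fun i => hQpd.diag_pos
  have hdetA : (U * A₀ * Uᵀ).det = A₀.det := by
    rw [det_mul, det_mul, det_transpose]
    have h1 : U.det * U.det = 1 := by
      rcases Int.isUnit_iff.1 hU with h | h <;> rw [h] <;> norm_num
    calc U.det * A₀.det * U.det = U.det * U.det * A₀.det := by ring
      _ = A₀.det := by rw [h1, one_mul]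
  have hcastA : ∀ (A' : Matrix (Fin n) (Fin n) ℤ) (i j : Fin n),
      (((U * A' * Uᵀ) i j : ℤ) : ℝ) = (fun j => ((U i j : ℤ) : ℝ)) ⬝ᵥ
        (A'.map (Int.cast : ℤ → ℝ)) *ᵥ (fun k => ((U j k : ℤ) : ℝ)) := by
    intro A' i j
    rw [rep_conj_apply]
    simp only [dotProduct, mulVec, Matrix.map_apply]
    push_cast
    rfl
  have hsqP : (∏ i, √(Q i i)) ^ 2 = ∏ i, Q i i := by
    rw [← Finset.prod_pow]
    exact Finset.prod_congr rfl fun i _ => Real.sq_sqrt (hQpos i).le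
  have hPpos : 0 < P.det := hP.det_pos
  have hH0 : 0 ≤ H := (abs_nonneg _).trans (hH 0)
  have hn0 : (0 : ℝ) ≤ n := Nat.cast_nonneg n
  have h2f : (1 : ℝ) ≤ 2 ^ n * n.factorial :=
    one_le_mul_of_one_le_of_one_le (one_le_pow₀ (by norm_num)) hf1
  refine ⟨U * A₀ * Uᵀ, U * B₀ * Uᵀ, fun i => √(Q i i), ?_, hpair', by rw [hdetA, hdet]⟩
  · refine ⟨hpair'.symmA, hpair'.symmB, hpair'.hasChar h0 (by rw [hdetA, hdet]),
      fun i => Real.sqrt_pos.2 (hQpos i), ?_, ?_, ?_, ?_, ?_⟩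
    · intro i j
      rw [hcastA, ← Real.sqrt_mul (hQpos i).le]
      apply Real.abs_le_sqrt
      rw [hQii i, hQii j]
      exact hPA _ _
    · intro i j
      rw [hcastA, ← Real.sqrt_mul (hQpos i).le]
      apply Real.abs_le_sqrt
      rw [hQii i, hQii j]
      exact hPB _ _
    · intro i j hij
      exact Real.sqrt_le_sqrt (hsort i j hij)
    · rw [hsqP]
      calc ∏ i, Q i i ≤ K₀ * P.det := hprod
        _ ≤ K₀ * ((n + 1) * H) := by gcongr
        _ = K₀ * (n + 1) * 1 * H := by ring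
        _ ≤ K₀ * (n + 1) * (2 ^ n * n.factorial) * H := by gcongr
    · intro i
      rw [hsqP]
      have h3 : P.det ≤ (n.factorial : ℝ) * ∏ i, Q i i := by
        rw [← hQdet]
        exact det_le_prod Q hQpd
      have h4 : 0 < ∏ i, Q i i := Finset.prod_pos fun i _ => hQpos i
      calc |(a i : ℝ)| ≤ 2 ^ n * P.det := hPa i
        _ ≤ 2 ^ n * ((n.factorial : ℝ) * ∏ i, Q i i) := by gcongr
        _ = 1 * (2 ^ n * n.factorial) * ∏ i, Q i i := by ring
        _ ≤ K₀ * (n + 1) * (2 ^ n * n.factorial) * ∏ i, Q i i := by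
            gcongr
            exact one_le_mul_of_one_le_of_one_le hK₀ (by linarith)

end Stoll308.FQ
end

section
set_option autoImplicit false

/-!
Few polynomials come from reduced pairs with lengths of the same size which satisfy the local
conditions.
-/

namespace Stoll308.FQ

open Polynomial Finset Matrix BG BF

theorem large_t {n : ℕ} (hn : 4 ≤ n) (he : Even n) (K R : ℝ) (hK : 1 ≤ K) (hR : 1 ≤ R)
    (S : Set ℕ) (hS : Dense S) (r s : ℕ → ℤ) (hs : ∀ l, s l = 1 ∨ s l = -1) (ε : ℝ)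
    (hε : 0 < ε) : ∃ H₀ : ℝ, ∀ H : ℝ, H₀ ≤ H → ∀ T : Finset (Fin (n + 1) → ℤ),
      (∀ a ∈ T, ∃ (A B : Matrix (Fin n) (Fin n) ℤ) (t : Fin n → ℝ), RPair K H a A B t ∧
        (∀ i j, t j ≤ R * t i) ∧ ∀ l : ℕ, l.Prime → 5 ≤ l → l ∈ S →
          ¬ BadZ (s l) l A (B - r l • A)) →
      (T.card : ℝ) ≤ ε * H ^ (n + 1) := by
  classical
  obtain ⟨Q, hQ⟩ : ∃ Q : ℝ, Q = R ^ (2 * n) * K := ⟨_, rfl⟩
  have hQ1 : 1 ≤ Q := by
    rw [hQ]
    exact one_le_mul_of_one_le_of_one_le (one_le_pow₀ hR) hK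
  have hQ0 : 0 < Q := by linarith
  obtain ⟨D₀, hz⟩ := cube_small hn he S hS r s hs (ε / Q ^ (n + 1)) (by positivity)
  refine ⟨max 1 (|D₀| ^ n), ?_⟩
  intro H hH T hT
  have hH1 : 1 ≤ H := (le_max_left _ _).trans hH
  have hHD : |D₀| ^ n ≤ H := (le_max_right _ _).trans hH
  obtain ⟨D, hD⟩ : ∃ D : ℝ, D = (Q * H) ^ ((n : ℝ)⁻¹) := ⟨_, rfl⟩
  have hD0 : 0 ≤ D := by rw [hD]; positivity
  have hn0 : n ≠ 0 := by omega
  have hDn : D ^ n = Q * H := by
    rw [hD]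
    exact Real.rpow_inv_natCast_pow (by positivity) hn0
  have hD₀ : D₀ ≤ D := by
    refine (le_abs_self _).trans ?_
    apply le_of_pow_le_pow_left₀ hn0 hD0
    rw [hDn]
    calc |D₀| ^ n ≤ H := hHD
      _ ≤ Q * H := le_mul_of_one_le_left (by linarith) hQ1
  have h1 := hz D hD₀
  -- the lengths
  have htt : ∀ (a : Fin (n + 1) → ℤ) (A B : Matrix (Fin n) (Fin n) ℤ) (t : Fin n → ℝ),
      RPair K H a A B t → (∀ i j, t j ≤ R * t i) → ∀ i j, t i * t j ≤ D := by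
    intro a A B t h ht i j
    have hpos := h.pos
    have e1 : ∀ j, t j ^ n ≤ R ^ n * ∏ i, t i := by
      intro j
      calc t j ^ n = ∏ _i : Fin n, t j := by
            rw [Finset.prod_const, Finset.card_univ, Fintype.card_fin]
        _ ≤ ∏ i : Fin n, (R * t i) :=
            Finset.prod_le_prod (fun _ _ => (hpos j).le) (fun i _ => ht i j)
        _ = R ^ n * ∏ i, t i := by
            rw [Finset.prod_mul_distrib, Finset.prod_const, Finset.card_univ, Fintype.card_fin]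
    apply le_of_pow_le_pow_left₀ hn0 hD0
    rw [hDn, mul_pow]
    have hp : 0 < ∏ i, t i := Finset.prod_pos fun i _ => hpos i
    calc t i ^ n * t j ^ n ≤ (R ^ n * ∏ i, t i) * (R ^ n * ∏ i, t i) :=
          mul_le_mul (e1 i) (e1 j) (pow_pos (hpos j) n).le (by positivity)
      _ = R ^ (2 * n) * (∏ i, t i) ^ 2 := by ring
      _ ≤ R ^ (2 * n) * (K * H) := by
          gcongr
          exact h.prod
      _ = Q * H := by rw [hQ]; ring
  set F := ((Fintype.piFinset fun _ : Ix n ⊕ Ix n => Icc (-⌊D⌋) ⌊D⌋).filter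
        fun v => ∀ l : ℕ, l.Prime → 5 ≤ l → l ∈ S →
          ¬ BadZ (s l) l (symM fun p => v (Sum.inl p))
            ((symM fun p => v (Sum.inr p)) - r l • (symM fun p => v (Sum.inl p)))) with hF
  have hch : ∀ a : Fin (n + 1) → ℤ, ∃ v : Ix n ⊕ Ix n → ℤ, a ∈ T →
      v ∈ F ∧ HasChar a (symM fun p => v (Sum.inl p)) (symM fun p => v (Sum.inr p)) := by
    intro a
    by_cases ha : a ∈ T
    swap
    · exact ⟨0, fun h => absurd h ha⟩
    obtain ⟨A, B, t, hP, ht, hl⟩ := hT a ha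
    have hA : (symM fun p : Ix n => A p.1.1 p.1.2) = A := symM_of_isSymm A hP.symA
    have hB : (symM fun p : Ix n => B p.1.1 p.1.2) = B := symM_of_isSymm B hP.symB
    refine ⟨Sum.elim (fun p => A p.1.1 p.1.2) (fun p => B p.1.1 p.1.2), fun _ => ⟨?_, ?_⟩⟩
    · rw [hF]
      simp only [mem_filter, Fintype.mem_piFinset, mem_Icc, Sum.elim_inl, Sum.elim_inr]
      constructor
      · rintro (p | p)
        · have h2 := abs_le.1 ((hP.hA p.1.1 p.1.2).trans (htt a A B t hP ht _ _))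
          simp only [Sum.elim_inl]
          constructor
          · have : -(A p.1.1 p.1.2) ≤ ⌊D⌋ := by
              rw [Int.le_floor]; push_cast; linarith
            linarith
          · rw [Int.le_floor]; exact h2.2
        · have h2 := abs_le.1 ((hP.hB p.1.1 p.1.2).trans (htt a A B t hP ht _ _))
          simp only [Sum.elim_inr]
          constructor
          · have : -(B p.1.1 p.1.2) ≤ ⌊D⌋ := by
              rw [Int.le_floor]; push_cast; linarith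
            linarith
          · rw [Int.le_floor]; exact h2.2
      · intro l hlp hl5 hlS
        rw [hA, hB]
        exact hl l hlp hl5 hlS
    · simp only [Sum.elim_inl, Sum.elim_inr]
      rw [hA, hB]
      exact hP.char
  choose v hv using hch
  have hinj : Set.InjOn v T := by
    intro a ha a' ha' h
    have h1 := (hv a ha).2
    have h2 := (hv a' ha').2
    rw [h] at h1
    exact h1.inj h2
  have hcard : T.card ≤ F.card :=
    Finset.card_le_card_of_injOn v (fun a ha => (hv a ha).1) hinj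
  calc (T.card : ℝ) ≤ (F.card : ℝ) := by exact_mod_cast hcard
    _ ≤ ε / Q ^ (n + 1) * D ^ (n * (n + 1)) := h1
    _ = ε * H ^ (n + 1) := by
        rw [pow_mul, hDn, mul_pow]
        have hQn : Q ^ (n + 1) ≠ 0 := (pow_pos hQ0 _).ne'
        field_simp

end Stoll308.FQ
end

section
set_option autoImplicit false

/-!
The points with `w = 0` over the fields of odd degree.
-/

namespace Stoll308.FQ

open Polynomial Finset BG BF

namespace ZeroAux

/-- A square root over a field of odd degree. -/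
lemma exists_factor {n m : ℕ} (a : Fin (n + 1) → ℤ) (b : Fin (m + 1) → ℤ) (k : Type) [Field k]
    [Algebra ℚ k] (ho : Odd (Module.finrank ℚ k)) (t y : k) (ht : (GZ k b).eval t = 0)
    (hy : y ^ 2 = (GZ k a).eval t) :
    ∃ g : ℚ[X], Irreducible g ∧ g ∣ GZ ℚ b ∧ ∃ u : ℚ[X], g ∣ GZ ℚ a - u ^ 2 := by
  have hfin : Module.Finite ℚ k := Module.finite_of_finrank_pos ho.pos
  rw [SC.op_GZ_eval] at ht hy
  have hint : IsIntegral ℚ t := Algebra.IsIntegral.isIntegral t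
  set K := IntermediateField.adjoin ℚ {t} with hK
  have hmem : ∀ f : ℚ[X], aeval t f ∈ K := by
    intro f
    have h1 : aeval t f ∈ Algebra.adjoin ℚ {t} := by
      rw [Algebra.adjoin_singleton_eq_range_aeval]
      exact ⟨f, rfl⟩
    exact IntermediateField.algebra_adjoin_le_adjoin ℚ {t} h1
  have hyK : y ∈ K := by
    let c : K := ⟨aeval t (GZ ℚ a), hmem _⟩
    have h1 : aeval y (X ^ 2 - C c : K[X]) = 0 := by
      rw [map_sub, map_pow, aeval_X, aeval_C, hy]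
      exact sub_self _
    have hne : (X ^ 2 - C c : K[X]) ≠ 0 := (monic_X_pow_sub_C c two_ne_zero).ne_zero
    have h2 : (minpoly K y).natDegree ≤ 2 := by
      refine (natDegree_le_of_dvd (minpoly.dvd K y h1) hne).trans ?_
      rw [natDegree_X_pow_sub_C]
    have h3 := SC.op_deg (K := K) y
    have h4 : Module.finrank ℚ K * Module.finrank K k = Module.finrank ℚ k :=
      Module.finrank_mul_finrank ℚ K k
    have h5 : Odd (minpoly K y).natDegree := by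
      rw [← h4, Nat.odd_mul, ← h3, Nat.odd_mul] at ho
      exact ho.2.1
    have h6 : (minpoly K y).natDegree = 1 := by
      obtain ⟨j, hj⟩ := h5
      omega
    obtain ⟨z, hz⟩ := minpoly.natDegree_eq_one_iff.1 h6
    rw [← hz]
    exact z.2
  have h7 : y ∈ Algebra.adjoin ℚ {t} := by
    have h8 : y ∈ K.toSubalgebra := hyK
    rwa [hK, IntermediateField.adjoin_simple_toSubalgebra_of_isAlgebraic hint.isAlgebraic] at h8
  rw [Algebra.adjoin_singleton_eq_range_aeval] at h7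
  obtain ⟨u, hu⟩ := h7
  refine ⟨minpoly ℚ t, minpoly.irreducible hint, minpoly.dvd ℚ t ht, u, minpoly.dvd ℚ t ?_⟩
  have h9 : aeval t u = y := hu
  rw [map_sub, map_pow, ← hy, h9, sub_self]

/-- The local condition. -/
lemma not_exact {n : ℕ} (a : Fin (n + 1) → ℤ) (l : ℕ) [hl : Fact l.Prime] (ρ : ℤ_[l]) (r : ℤ)
    (hr : (l : ℤ_[l]) ^ 2 ∣ ρ - (r : ℤ_[l])) (g u : ℚ[X])
    (hg : (g.map (algebraMap ℚ ℚ_[l])).eval (ρ : ℚ_[l]) = 0) (hu : g ∣ GZ ℚ a - u ^ 2)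
    (h1 : (l : ℤ) ∣ (GZ ℤ a).eval r) : (l : ℤ) ^ 2 ∣ (GZ ℤ a).eval r := by
  obtain ⟨w, hw⟩ : ∃ w, w = (u.map (algebraMap ℚ ℚ_[l])).eval (ρ : ℚ_[l]) := ⟨_, rfl⟩
  have hF : (((GZ ℤ_[l] a).eval ρ : ℤ_[l]) : ℚ_[l]) = w ^ 2 := by
    obtain ⟨k, hk⟩ := hu
    have h2 := congrArg (fun f : ℚ[X] => (f.map (algebraMap ℚ ℚ_[l])).eval (ρ : ℚ_[l])) hk
    simp only [Polynomial.map_sub, Polynomial.map_mul, Polynomial.map_pow, eval_sub, eval_mul,
      eval_pow, hg, zero_mul] at h2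
    have h4 : (GZ ℚ a).map (algebraMap ℚ ℚ_[l]) =
        (GZ ℤ_[l] a).map (PadicInt.Coe.ringHom (p := l)) := by
      rw [SplitAux.gz_map, SplitAux.gz_map]
    rw [h4, eval_map] at h2
    have h5 : eval₂ (PadicInt.Coe.ringHom (p := l)) (ρ : ℚ_[l]) (GZ ℤ_[l] a) =
        PadicInt.Coe.ringHom (p := l) ((GZ ℤ_[l] a).eval ρ) := by
      rw [← eval₂_at_apply]
      rfl
    rw [h5, ← hw] at h2
    exact sub_eq_zero.1 h2
  have hwn : ‖w‖ ≤ 1 := by
    have h3 : ‖w‖ ^ 2 ≤ 1 := by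
      rw [← norm_pow, ← hF]
      exact PadicInt.norm_le_one _
    nlinarith [norm_nonneg w]
  obtain ⟨w', hw'⟩ : ∃ w' : ℤ_[l], (w' : ℚ_[l]) = w := ⟨⟨w, hwn⟩, rfl⟩
  have hF' : (GZ ℤ_[l] a).eval ρ = w' ^ 2 := by
    apply Subtype.ext
    rw [hF, ← hw']
    rfl
  have hcast : ∀ f : ℤ[X], (f.map (Int.castRingHom ℤ_[l])).eval (r : ℤ_[l]) =
      ((f.eval r : ℤ) : ℤ_[l]) := by
    intro f
    rw [eval_intCast_map, eq_intCast, Int.cast_id]
  have h6 : (l : ℤ_[l]) ^ 2 ∣ (GZ ℤ_[l] a).eval ρ - (((GZ ℤ a).eval r : ℤ) : ℤ_[l]) := by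
    have h6' : (l : ℤ_[l]) ^ 2 ∣ (GZ ℤ_[l] a).eval ρ - (GZ ℤ_[l] a).eval (r : ℤ_[l]) :=
      hr.trans (sub_dvd_eval_sub _ _ _)
    rwa [← SplitAux.gz_map (Int.castRingHom ℤ_[l]) a, hcast,
      SplitAux.gz_map (Int.castRingHom ℤ_[l]) a] at h6'
  have h7 : (l : ℤ_[l]) ∣ (((GZ ℤ a).eval r : ℤ) : ℤ_[l]) := by
    obtain ⟨k, hk⟩ := h1
    rw [hk]
    push_cast
    exact dvd_mul_right _ _
  have h8 : (l : ℤ_[l]) ∣ w' ^ 2 := by
    rw [← hF']
    have h := dvd_add ((dvd_pow_self _ two_ne_zero).trans h6) h7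
    rwa [sub_add_cancel] at h
  have h9 := PadicInt.prime_p.dvd_of_dvd_pow h8
  have h10 : (l : ℤ_[l]) ^ 2 ∣ (GZ ℤ_[l] a).eval ρ := by
    rw [hF']
    exact pow_dvd_pow_of_dvd h9 2
  have h11 : (l : ℤ_[l]) ^ 2 ∣ (((GZ ℤ a).eval r : ℤ) : ℤ_[l]) := by
    have h := dvd_sub h10 h6
    rwa [sub_sub_cancel] at h
  exact (PadicInt.pow_p_dvd_int_iff 2 _).1 h11

lemma gz_eval {n : ℕ} (a : Fin (n + 1) → ℤ) (r : ℤ) :
    (GZ ℤ a).eval r = ∑ i : Fin (n + 1), a i * r ^ (n - (i : ℕ)) := by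
  rw [GZ, gpol, eval_finsetSum]
  refine Finset.sum_congr rfl fun i _ => ?_
  simp

lemma gz_eval_last {n : ℕ} (a : Fin (n + 1) → ℤ) (r : ℤ) :
    (GZ ℤ a).eval r = ∑ i : Fin n, a i.castSucc * r ^ (n - (i : ℕ)) + a (Fin.last n) := by
  rw [gz_eval, Fin.sum_univ_castSucc]
  simp

lemma per (n : ℕ) (M r : ℤ) (t t' : Fin (n + 1) → ℤ) (h : ∀ i, M ∣ t i - t' i) :
    M ∣ (GZ ℤ t).eval r - (GZ ℤ t').eval r := by
  rw [gz_eval, gz_eval, ← Finset.sum_sub_distrib]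
  refine Finset.dvd_sum fun i _ => ?_
  rw [← sub_mul]
  exact (h i).mul_right _

open Classical in
/-- The number of residue vectors. -/
lemma count {n l : ℕ} (hl : l.Prime) (r : ℤ) :
    (l - 1) * (l ^ 2) ^ n ≤ ((univ : Finset (Fin (n + 1) → Fin (l ^ 2))).filter fun t =>
      (l : ℤ) ∣ (GZ ℤ (fun i => ((t i : ℕ) : ℤ))).eval r ∧
        ¬ (l : ℤ) ^ 2 ∣ (GZ ℤ (fun i => ((t i : ℕ) : ℤ))).eval r).card := by
  have hl0 : 0 < l := hl.pos
  have hM0 : 0 < l ^ 2 := pow_pos hl0 2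
  have hMz : (0 : ℤ) < ((l ^ 2 : ℕ) : ℤ) := by exact_mod_cast hM0
  let s : (Fin n → Fin (l ^ 2)) → ℤ := fun v => ∑ i : Fin n, ((v i : ℕ) : ℤ) * r ^ (n - (i : ℕ))
  let x : (Fin n → Fin (l ^ 2)) → Fin (l - 1) → Fin (l ^ 2) := fun v j =>
    ⟨(((l : ℤ) * ((j : ℕ) + 1) - s v) % ((l ^ 2 : ℕ) : ℤ)).toNat, by
      have h1 := Int.emod_nonneg ((l : ℤ) * ((j : ℕ) + 1) - s v) hMz.ne'
      have h2 := Int.emod_lt_of_pos ((l : ℤ) * ((j : ℕ) + 1) - s v) hMz
      omega⟩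
  have hx : ∀ v j, (((x v j : Fin (l ^ 2)) : ℕ) : ℤ) =
      ((l : ℤ) * ((j : ℕ) + 1) - s v) % ((l ^ 2 : ℕ) : ℤ) := by
    intro v j
    exact Int.toNat_of_nonneg (Int.emod_nonneg _ hMz.ne')
  have hxd : ∀ v j, ((l ^ 2 : ℕ) : ℤ) ∣ (s v + (((x v j : Fin (l ^ 2)) : ℕ) : ℤ)) -
      (l : ℤ) * ((j : ℕ) + 1) := by
    intro v j
    rw [hx]
    have h1 := Int.emod_add_mul_ediv ((l : ℤ) * ((j : ℕ) + 1) - s v) ((l ^ 2 : ℕ) : ℤ)
    refine ⟨-(((l : ℤ) * ((j : ℕ) + 1) - s v) / ((l ^ 2 : ℕ) : ℤ)), ?_⟩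
    linarith
  have hev : ∀ v j, (GZ ℤ (fun i => (((Fin.snoc (α := fun _ => Fin (l ^ 2)) v (x v j)
      : Fin (n + 1) → Fin (l ^ 2)) i : ℕ) : ℤ))).eval r =
      s v + (((x v j : Fin (l ^ 2)) : ℕ) : ℤ) := by
    intro v j
    rw [gz_eval_last]
    simp only [Fin.snoc_castSucc, Fin.snoc_last]
    rfl
  have hcard : (l - 1) * (l ^ 2) ^ n =
      ((univ : Finset ((Fin n → Fin (l ^ 2)) × Fin (l - 1)))).card := by
    rw [Finset.card_univ, Fintype.card_prod, Fintype.card_fun, Fintype.card_fin, Fintype.card_fin,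
      Fintype.card_fin, mul_comm]
  rw [hcard]
  refine Finset.card_le_card_of_injOn
    (fun p => Fin.snoc (α := fun _ => Fin (l ^ 2)) p.1 (x p.1 p.2)) ?_ ?_
  · rintro ⟨v, j⟩ _
    rw [Finset.mem_coe, Finset.mem_filter]
    refine ⟨Finset.mem_univ _, ?_⟩
    simp only [hev]
    have hd := hxd v j
    have hll : ((l ^ 2 : ℕ) : ℤ) = (l : ℤ) ^ 2 := by push_cast; ring
    rw [hll] at hd
    constructor
    · have h1 : (l : ℤ) ∣ (s v + (((x v j : Fin (l ^ 2)) : ℕ) : ℤ)) - (l : ℤ) * ((j : ℕ) + 1) :=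
        (dvd_pow_self _ two_ne_zero).trans hd
      have h2 := dvd_add h1 (dvd_mul_right (l : ℤ) (((j : ℕ) : ℤ) + 1))
      rwa [sub_add_cancel] at h2
    · intro h1
      have h2 : (l : ℤ) ^ 2 ∣ (l : ℤ) * ((j : ℕ) + 1) := by
        have := dvd_sub h1 hd
        rwa [sub_sub_cancel] at this
      have h3 : (l : ℤ) ∣ ((j : ℕ) + 1 : ℤ) := by
        rw [pow_two] at h2
        exact Int.dvd_of_mul_dvd_mul_left (by exact_mod_cast hl0.ne') h2
      have h4 := Int.le_of_dvd (by positivity) h3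
      have h5 := j.isLt
      omega
  · rintro ⟨v, j⟩ _ ⟨v', j'⟩ _ h
    simp only at h
    have e1 : v = v' := by
      have := congrArg (Fin.init (α := fun _ => Fin (l ^ 2))) h
      rwa [Fin.init_snoc, Fin.init_snoc] at this
    subst e1
    have e2 : x v j = x v j' := by
      have := congrFun h (Fin.last n)
      rwa [Fin.snoc_last, Fin.snoc_last] at this
    have hd := hxd v j
    have hd' := hxd v j'
    rw [e2] at hd
    have h1 := dvd_sub hd' hd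
    have h2 : ((l ^ 2 : ℕ) : ℤ) ∣ (l : ℤ) * ((j : ℕ) - (j' : ℕ)) := by
      have e3 : (l : ℤ) * ((j : ℕ) - (j' : ℕ)) = (s v + (((x v j' : Fin (l ^ 2)) : ℕ) : ℤ)) -
          (l : ℤ) * ((j' : ℕ) + 1) - ((s v + (((x v j' : Fin (l ^ 2)) : ℕ) : ℤ)) -
          (l : ℤ) * ((j : ℕ) + 1)) := by ring
      rw [e3]
      exact h1
    have h3 : (l : ℤ) ∣ (((j : ℕ) : ℤ) - ((j' : ℕ) : ℤ)) := by
      have e4 : ((l ^ 2 : ℕ) : ℤ) = (l : ℤ) * (l : ℤ) := by push_cast; ring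
      rw [e4] at h2
      exact Int.dvd_of_mul_dvd_mul_left (by exact_mod_cast hl0.ne') h2
    have h5 := j.isLt
    have h5' := j'.isLt
    have h6 : ((j : ℕ) : ℤ) - ((j' : ℕ) : ℤ) = 0 := by
      apply Int.eq_zero_of_abs_lt_dvd h3
      rw [abs_lt]
      constructor <;> omega
    have h7 : j = j' := by
      apply Fin.ext
      omega
    rw [h7]

open Classical in
/-- The count for one factor. -/
theorem zero_factor {n m : ℕ} (b : Fin (m + 1) → ℤ) (h0 : b 0 ≠ 0)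
    (hsq : Squarefree (GZ ℚ b)) (g : ℚ[X]) (hg : g ∣ GZ ℚ b) (hg1 : 1 ≤ g.natDegree) (ε : ℝ)
    (hε : 0 < ε) :
    ∃ H₀ : ℕ, ∀ H : ℕ, H₀ ≤ H →
      (BF.cnt n (fun a => ∃ u : ℚ[X], g ∣ GZ ℚ a - u ^ 2) H : ℝ) ≤ ε * H ^ (n + 1) := by
  obtain ⟨S, hS⟩ : ∃ S : Set ℕ, S = {l | ∃ _ : Fact l.Prime, ∃ ρ : ℤ_[l],
    (g.map (algebraMap ℚ ℚ_[l])).eval (ρ : ℚ_[l]) = 0 ∧
      IsUnit ((derivative (GZ ℤ_[l] b)).eval ρ)} := ⟨_, rfl⟩
  have hD : Dense S := by
    rw [hS]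
    exact dense_root_factor b h0 hsq g hg hg1
  have hr : ∀ l : ℕ, ∃ r : ℤ, l ∈ S → ∀ a : Fin (n + 1) → ℤ, (∃ u : ℚ[X], g ∣ GZ ℚ a - u ^ 2) →
      (l : ℤ) ∣ (GZ ℤ a).eval r → (l : ℤ) ^ 2 ∣ (GZ ℤ a).eval r := by
    intro l
    by_cases hl : l ∈ S
    · rw [hS] at hl
      obtain ⟨hp, ρ, h1, -⟩ := hl
      obtain ⟨r, hr⟩ : ∃ r : ℤ, r = ((PadicInt.appr ρ 2 : ℕ) : ℤ) := ⟨_, rfl⟩
      have hspec := PadicInt.appr_spec 2 ρ
      rw [Ideal.mem_span_singleton] at hspec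
      have hrρ : (l : ℤ_[l]) ^ 2 ∣ ρ - (r : ℤ_[l]) := by
        rw [hr, Int.cast_natCast]
        exact hspec
      refine ⟨r, fun _ a ha hd => ?_⟩
      obtain ⟨u, hu⟩ := ha
      exact not_exact a l ρ r hrρ g u h1 hu hd
    · exact ⟨0, fun h => absurd h hl⟩
  choose r hr using hr
  set N : ℕ := n + 1 with hN
  obtain ⟨z, hz⟩ := hD (2 * Real.log (3 ^ N / ε))
  set F := (Icc 5 z).filter (fun l => l.Prime ∧ l ∈ S) with hF
  have hSmem : ∀ l ∈ F, 5 ≤ l ∧ l.Prime := by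
    intro l hl
    rw [hF, mem_filter, mem_Icc] at hl
    exact ⟨hl.1.1, hl.2.1⟩
  have hSmem' : ∀ l ∈ F, l ∈ S := by
    intro l hl
    rw [hF, mem_filter] at hl
    exact hl.2.2
  obtain ⟨M, hM⟩ : ∃ M : ℕ, M = ∏ l ∈ F, l ^ 2 := ⟨_, rfl⟩
  have hMR : ∏ l ∈ F, ((l ^ 2 : ℕ) : ℝ) = (M : ℝ) := by
    rw [hM]
    push_cast
    rfl
  refine ⟨M + 1, fun H hH => ?_⟩
  have hpow : ∀ l : ℕ, 5 ≤ l → 1 / (2 * (l : ℝ)) ≤ 1 := by
    intro l h5
    have h6 : (5 : ℝ) ≤ l := by exact_mod_cast h5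
    rw [div_le_one (by positivity)]
    nlinarith
  have hbox := cube_box (ι := Fin (n + 1)) F (fun l => l ^ 2)
    (fun l hl => pow_pos (hSmem l hl).2.pos 2)
    (fun l hl l' hl' hne => Nat.Coprime.pow 2 2
      ((Nat.coprime_primes (hSmem l hl).2 (hSmem l' hl').2).2 hne))
    (fun l a => (l : ℤ) ∣ (GZ ℤ a).eval (r l) ∧ ¬ (l : ℤ) ^ 2 ∣ (GZ ℤ a).eval (r l))
    (fun l _ t t' h => by
      have h1 := per n ((l ^ 2 : ℕ) : ℤ) (r l) t t' h
      have e4 : ((l ^ 2 : ℕ) : ℤ) = (l : ℤ) ^ 2 := by push_cast; ring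
      rw [e4] at h1
      have h2 : (l : ℤ) ∣ (GZ ℤ t).eval (r l) - (GZ ℤ t').eval (r l) :=
        (dvd_pow_self _ two_ne_zero).trans h1
      rw [← dvd_iff_dvd_of_dvd_sub h1, ← dvd_iff_dvd_of_dvd_sub h2])
    (fun l => 1 / (2 * (l : ℝ)))
    (fun l hl => hpow l (hSmem l hl).1)
    (fun l hl => by
      have hlp := (hSmem l hl).2
      have h5 := (hSmem l hl).1
      have h1 := count (n := n) hlp (r l)
      have hl0 : (l : ℝ) ≠ 0 := by exact_mod_cast hlp.ne_zero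
      have h2 : (1 / (2 * (l : ℝ))) * (((l ^ 2 : ℕ) : ℝ)) ^ Fintype.card (Fin (n + 1)) ≤
          (((l - 1) * (l ^ 2) ^ n : ℕ) : ℝ) := by
        rw [Fintype.card_fin]
        push_cast
        rw [Nat.cast_sub (by omega : 1 ≤ l), pow_succ]
        have h6 : (5 : ℝ) ≤ l := by exact_mod_cast h5
        have h7 : 1 / (2 * (l : ℝ)) * (((l : ℝ) ^ 2) ^ n * (l : ℝ) ^ 2) =
            ((l : ℝ) / 2) * ((l : ℝ) ^ 2) ^ n := by
          field_simp
        rw [h7]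
        refine mul_le_mul_of_nonneg_right ?_ (by positivity)
        push_cast
        linarith
      refine h2.trans (Nat.cast_le.2 (h1.trans (Finset.card_le_card ?_)))
      intro t ht
      exact (@Finset.mem_filter _ _ (_) _ _).2 ((@Finset.mem_filter _ _ (_) _ _).1 ht))
    (fun _ => -(H : ℤ)) (fun _ => 2 * H + 1)
  unfold BF.cnt
  refine le_trans (Nat.cast_le.2 (Finset.card_le_card ?_)) (hbox.trans ?_)
  · intro t ht
    have ht1 := (@Finset.mem_filter _ _ (_) _ _).1 ht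
    refine (@Finset.mem_filter _ _ (_) _ _).2 ⟨Fintype.mem_piFinset.2 fun i => ?_, fun l hl => ?_⟩
    · have := Fintype.mem_piFinset.1 ht1.1 i
      rw [mem_Icc] at this
      rw [mem_Ico]
      push_cast
      omega
    · rintro ⟨h1, h2⟩
      exact h2 (hr l (hSmem' l hl) t ht1.2 h1)
  have hH1 : (M : ℝ) + 1 ≤ H := by exact_mod_cast hH
  have hM0 : (0 : ℝ) ≤ M := Nat.cast_nonneg _
  have h1 : (∏ _i : Fin (n + 1), (((2 * H + 1 : ℕ) : ℝ) + ∏ l ∈ F, ((l ^ 2 : ℕ) : ℝ))) ≤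
      (3 * (H : ℝ)) ^ N := by
    rw [Finset.prod_const, Finset.card_univ, Fintype.card_fin, hMR]
    refine pow_le_pow_left₀ (by positivity) ?_ _
    push_cast
    linarith
  have h2 : ∏ l ∈ F, (1 - 1 / (2 * (l : ℝ))) ≤ ε / 3 ^ N := by
    calc ∏ l ∈ F, (1 - 1 / (2 * (l : ℝ))) ≤ ∏ l ∈ F, Real.exp (-(1 / (2 * (l : ℝ)))) := by
          refine Finset.prod_le_prod (fun l hl => ?_) (fun l _ => ?_)
          · have := hpow l (hSmem l hl).1
            linarith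
          · have := Real.add_one_le_exp (-(1 / (2 * (l : ℝ))))
            linarith
      _ = Real.exp (-((∑ l ∈ F, (1 : ℝ) / l) / 2)) := by
          rw [← Real.exp_sum]
          congr 1
          rw [Finset.sum_neg_distrib, Finset.sum_div]
          congr 1
          refine Finset.sum_congr rfl fun l _ => ?_
          rw [div_div, mul_comm]
      _ ≤ Real.exp (-(Real.log (3 ^ N / ε))) := by
          apply Real.exp_le_exp.2
          rw [neg_le_neg_iff, le_div_iff₀ two_pos, mul_comm]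
          exact hz
      _ = ε / 3 ^ N := by
          rw [Real.exp_neg, Real.exp_log (by positivity), inv_div]
  have h3 : 0 ≤ ∏ l ∈ F, (1 - 1 / (2 * (l : ℝ))) :=
    Finset.prod_nonneg fun l hl => by
      have := hpow l (hSmem l hl).1
      linarith
  calc (∏ _i : Fin (n + 1), (((2 * H + 1 : ℕ) : ℝ) + ∏ l ∈ F, ((l ^ 2 : ℕ) : ℝ))) *
        ∏ l ∈ F, (1 - 1 / (2 * (l : ℝ)))
      ≤ (3 * (H : ℝ)) ^ N * (ε / 3 ^ N) := mul_le_mul h1 h2 h3 (by positivity)
    _ = ε * H ^ N := by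
        rw [mul_pow]
        field_simp

end ZeroAux

open ZeroAux

/-- For most `f` the value at a root of `q` in a field of odd degree is not a square. -/
theorem zero_small {n m : ℕ} (hn : 1 ≤ n) (b : Fin (m + 1) → ℤ) (h0 : b 0 ≠ 0)
    (hsq : Squarefree (GZ ℚ b)) (ε : ℝ) (hε : 0 < ε) :
    ∃ H₀ : ℕ, ∀ H : ℕ, H₀ ≤ H →
      (BF.cnt n (fun a => ∃ (k : Type) (_ : Field k) (_ : Algebra ℚ k),
        Odd (Module.finrank ℚ k) ∧ ∃ t y : k, (GZ k b).eval t = 0 ∧ y ^ 2 = (GZ k a).eval t) H : ℝ) ≤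
        ε * H ^ (n + 1) := by
  classical
  have hq0 : GZ ℚ b ≠ 0 := SplitAux.gz_ne_zero b (by exact_mod_cast h0)
  set Gs := (UniqueFactorizationMonoid.normalizedFactors (GZ ℚ b)).toFinset with hGs
  have hG : ∀ G ∈ Gs, G ∣ GZ ℚ b ∧ 1 ≤ G.natDegree := by
    intro G hG
    rw [hGs, Multiset.mem_toFinset] at hG
    have hirr := UniqueFactorizationMonoid.irreducible_of_normalized_factor G hG
    exact ⟨UniqueFactorizationMonoid.dvd_of_mem_normalizedFactors hG, hirr.natDegree_pos⟩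
  set δ : ℝ := ε / (Gs.card + 1) with hδ
  have hδ0 : 0 < δ := by positivity
  have hex : ∀ G : ℚ[X], ∃ H₀ : ℕ, G ∈ Gs → ∀ H : ℕ, H₀ ≤ H →
      (BF.cnt n (fun a => ∃ u : ℚ[X], G ∣ GZ ℚ a - u ^ 2) H : ℝ) ≤ δ * H ^ (n + 1) := by
    intro G
    by_cases h : G ∈ Gs
    · obtain ⟨H₀, hH₀⟩ := zero_factor (n := n) b h0 hsq G (hG G h).1 (hG G h).2 δ hδ0
      exact ⟨H₀, fun _ => hH₀⟩
    · exact ⟨0, fun h' => absurd h' h⟩
  choose H₀ hH₀ using hex
  refine ⟨Gs.sup H₀, fun H hH => ?_⟩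
  have h1 : BF.cnt n (fun a => ∃ (k : Type) (_ : Field k) (_ : Algebra ℚ k),
        Odd (Module.finrank ℚ k) ∧ ∃ t y : k, (GZ k b).eval t = 0 ∧ y ^ 2 = (GZ k a).eval t) H ≤
      ∑ G ∈ Gs, BF.cnt n (fun a => ∃ u : ℚ[X], G ∣ GZ ℚ a - u ^ 2) H := by
    unfold BF.cnt
    refine le_trans (Finset.card_le_card ?_) Finset.card_biUnion_le
    intro a ha
    obtain ⟨ha1, k, hk1, hk2, ho, t, y, ht, hy⟩ := (@Finset.mem_filter _ _ (_) _ _).1 ha
    obtain ⟨g, hirr, hgb, u, hu⟩ := exists_factor a b k ho t y ht hy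
    obtain ⟨G, hGm, hass⟩ :=
      UniqueFactorizationMonoid.exists_mem_normalizedFactors_of_dvd hq0 hirr hgb
    refine Finset.mem_biUnion.2 ⟨G, ?_, ?_⟩
    · rw [hGs, Multiset.mem_toFinset]
      exact hGm
    · exact (@Finset.mem_filter _ _ (_) _ _).2 ⟨ha1, u, (hass.symm.dvd).trans hu⟩
  have h2 : (∑ G ∈ Gs, BF.cnt n (fun a => ∃ u : ℚ[X], G ∣ GZ ℚ a - u ^ 2) H : ℝ) ≤
      ∑ _G ∈ Gs, δ * (H : ℝ) ^ (n + 1) := by
    refine Finset.sum_le_sum fun G hG => hH₀ G hG H ?_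
    exact (Finset.le_sup (f := H₀) hG).trans hH
  refine (show (_ : ℝ) ≤ _ by exact_mod_cast h1).trans (h2.trans ?_)
  rw [Finset.sum_const, nsmul_eq_mul, ← mul_assoc]
  refine mul_le_mul_of_nonneg_right ?_ (by positivity)
  rw [hδ, mul_div_assoc', div_le_iff₀ (by positivity)]
  nlinarith [(Nat.cast_nonneg Gs.card : (0 : ℝ) ≤ Gs.card)]

end Stoll308.FQ
end

section
set_option autoImplicit false

/-!
The Selmer set over a number field of odd degree.
-/

namespace Stoll308.SC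

open Polynomial Finset Matrix BG BF

namespace OddNorm

section

variable {K : Type*} [Field K] {E : Type*} [CommRing E] [Algebra K E] {ι : Type*} [Fintype ι]
  [DecidableEq ι] (b : Module.Basis ι K E)

/-- The matrix over `K[X]` of the multiplication by an element of `E[X]`. -/
noncomputable def Phi : E[X] →+* Matrix ι ι K[X] :=
  (matPolyEquiv (R := K) (n := ι)).symm.toRingEquiv.toRingHom.comp
    (mapRingHom (Algebra.leftMulMatrix b : E →+* Matrix ι ι K))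

/-- The norm from `E[X]` to `K[X]`. -/
noncomputable def nm (u : E[X]) : K[X] := (Phi b u).det

lemma matPolyEquiv_Phi (u : E[X]) :
    matPolyEquiv (Phi b u) = u.map (Algebra.leftMulMatrix b : E →+* Matrix ι ι K) := by
  change matPolyEquiv (matPolyEquiv.symm _) = _
  rw [AlgEquiv.apply_symm_apply]
  rfl

lemma Phi_coeff (u : E[X]) (i j : ι) (m : ℕ) :
    (Phi b u i j).coeff m = Algebra.leftMulMatrix b (u.coeff m) i j := by
  rw [← matPolyEquiv_coeff_apply, matPolyEquiv_Phi, coeff_map]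
  rfl

lemma nm_one : nm b 1 = 1 := by
  unfold nm
  rw [map_one, Matrix.det_one]

lemma nm_mul (u v : E[X]) : nm b (u * v) = nm b u * nm b v := by
  unfold nm
  rw [map_mul, Matrix.det_mul]

lemma nm_sq (u : E[X]) : nm b (u ^ 2) = nm b u ^ 2 := by
  rw [sq, sq, nm_mul]

/-- The image of a polynomial with coefficients in `K`. -/
lemma Phi_map (f : K[X]) : Phi b (f.map (algebraMap K E)) = Matrix.scalar ι f := by
  apply matPolyEquiv.injective
  rw [matPolyEquiv_Phi]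
  have h : Matrix.scalar ι f = f • (1 : Matrix ι ι K[X]) := by
    rw [Matrix.smul_one_eq_diagonal]; rfl
  rw [h, matPolyEquiv_smul_one, Polynomial.map_map]
  congr 1
  ext c : 1
  exact (Algebra.leftMulMatrix b).commutes c

lemma nm_congr (f : K[X]) (u q : E[X]) :
    f ∣ nm b (u + f.map (algebraMap K E) * q) - nm b u := by
  unfold nm
  rw [← Ideal.mem_span_singleton, ← Ideal.Quotient.mk_eq_mk_iff_sub_mem, RingHom.map_det,
    RingHom.map_det]
  congr 1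
  rw [map_add, map_mul, Phi_map, map_add, map_mul]
  have : (Ideal.Quotient.mk (Ideal.span {f})).mapMatrix (Matrix.scalar ι f) = 0 := by
    ext i j
    by_cases h : i = j
    · subst h
      simp
    · simp [h]
  rw [this, zero_mul, add_zero]

lemma nm_lin [Module.Finite K E] (z : E) : nm b (C z - X) =
    (-1) ^ Fintype.card ι * (LinearMap.mulLeft K z).charpoly := by
  have h1 : Phi b (C z - X) = -(Algebra.leftMulMatrix b z).charmatrix := by
    apply matPolyEquiv.injective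
    rw [matPolyEquiv_Phi, map_neg, matPolyEquiv_charmatrix, Polynomial.map_sub, map_C, map_X,
      neg_sub]
    rfl
  unfold nm
  rw [h1, Matrix.det_neg]
  congr 1
  change (Algebra.leftMulMatrix b z).charpoly = _
  rw [Algebra.leftMulMatrix_apply, ← LinearMap.charpoly_toMatrix (LinearMap.mulLeft K z) b]
  rfl

end

section

variable {K L : Type*} [Field K] [Field L] [Algebra K L] {E : Type*} [CommRing E] [Algebra K E]
  {ι : Type*} [Fintype ι] [DecidableEq ι] (b : Module.Basis ι K E)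

open TensorProduct

lemma leftMulMatrix_baseChange (x : E) :
    Algebra.leftMulMatrix (b.baseChange L) ((1 : L) ⊗ₜ[K] x) =
      (Algebra.leftMulMatrix b x).map (algebraMap K L) := by
  ext i j
  rw [Algebra.leftMulMatrix_eq_repr_mul, Matrix.map_apply, Algebra.leftMulMatrix_eq_repr_mul,
    Module.Basis.baseChange_apply, Algebra.TensorProduct.tmul_mul_tmul, one_mul,
    Module.Basis.baseChange_repr_tmul, Algebra.smul_def, mul_one]

lemma nm_baseChange (u : E[X]) :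
    nm (b.baseChange L)
      (u.map (Algebra.TensorProduct.includeRight : E →ₐ[K] L ⊗[K] E).toRingHom) =
      (nm b u).map (algebraMap K L) := by
  unfold nm
  change _ = mapRingHom (algebraMap K L) (Phi b u).det
  rw [RingHom.map_det]
  congr 1
  ext i j m
  rw [Phi_coeff, RingHom.mapMatrix_apply, Matrix.map_apply, coe_mapRingHom, coeff_map, coeff_map,
    Phi_coeff]
  exact congrFun (congrFun (leftMulMatrix_baseChange (L := L) b (u.coeff m)) i) j

end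

end OddNorm

open OddNorm TensorProduct in
/-- The norm of the class from `k` to `ℚ`. -/
theorem oddSel_of_selOver {n : ℕ} (ψ : ℤ[X]) (a : Fin (n + 1) → ℤ) (k : Type) [Field k]
    [Algebra ℚ k] (ho : Odd (Module.finrank ℚ k)) (h : SelOver ψ a k) : OddSel ψ a := by
  have hfin : Module.Finite ℚ k := Module.finite_of_finrank_pos ho.pos
  have GZ_map : ∀ {R S : Type} [CommRing R] [CommRing S] (f : R →+* S),
      (GZ R a).map f = GZ S a := by
    intro R S _ _ f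
    unfold GZ gpol
    rw [Polynomial.map_sum]
    refine Finset.sum_congr rfl fun i _ => ?_
    rw [Polynomial.map_mul, Polynomial.map_pow, map_X, map_C, map_intCast]
  obtain ⟨δ, hδ, hloc⟩ := h
  set b := Module.finBasis ℚ k with hb
  refine ⟨nm b δ, ?_, ?_⟩
  · obtain ⟨u, v, huv⟩ := hδ
    have h1 : u * δ = 1 + (GZ ℚ a).map (algebraMap ℚ k) * (-v) := by
      rw [GZ_map]
      linear_combination huv
    obtain ⟨q, hq⟩ := nm_congr b (GZ ℚ a) 1 (-v)
    rw [← h1, nm_mul, nm_one] at hq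
    exact ⟨nm b u, -q, by linear_combination hq⟩
  · intro p _ hp
    obtain ⟨x, y, s, hy, he, q, hq⟩ := hloc p hp
    have hfe : GZ (ℚ_[p] ⊗[ℚ] k) a = (GZ ℚ_[p] a).map (algebraMap ℚ_[p] (ℚ_[p] ⊗[ℚ] k)) :=
      (GZ_map _).symm
    have hrank : Module.finrank ℚ_[p] (ℚ_[p] ⊗[ℚ] k) = Module.finrank ℚ k :=
      Module.finrank_baseChange
    refine ⟨ℚ_[p] ⊗[ℚ] k, inferInstance, inferInstance, inferInstance, x, y,
      nm (b.baseChange ℚ_[p]) s, ?_, hy, ?_, ?_⟩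
    · rw [hrank]; exact ho
    · rw [he, hfe, eval_map_algebraMap]
      rfl
    · rw [sub_eq_iff_eq_add, hfe] at hq
      obtain ⟨r, hr⟩ := nm_congr (b.baseChange ℚ_[p]) (GZ ℚ_[p] a)
        (δ.map (Algebra.TensorProduct.includeRight : k →ₐ[ℚ] ℚ_[p] ⊗[ℚ] k).toRingHom * s ^ 2) q
      rw [add_comm, ← hq, nm_lin, nm_mul, nm_baseChange, nm_sq, Fintype.card_fin,
        ho.neg_one_pow, neg_one_mul] at hr
      exact ⟨r, hr⟩

end Stoll308.SC
end

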