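import Mathlib
import Pool.Agent.Work.BCM.C02
import Pool.Agent.Work.BCM.C03
import Pool.Agent.Work.BCM.C08
import Pool.Agent.Work.BCM.C10
import Pool.Agent.Work.BCM.C12
import Pool.Agent.Work.BCM.C18
import Pool.Agent.Work.BCM.C21
import Pool.Agent.Work.BCM.C22
import Pool.Agent.Work.BCM.C26
import Pool.Agent.Work.BCM.C27
import Pool.Agent.Work.BCM.C29
import Pool.Agent.Work.BCM.C31
import Pool.Agent.Work.BCM.C35
import Pool.Agent.Work.BCM.C38
import Pool.Agent.Work.BCM.C40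
import Pool.Agent.Work.BCM.C41
import Pool.Agent.Work.MP_2b9663_nt.Weil

section
set_option autoImplicit false

/-!
Multiples of the polynomial by a square.
-/

namespace Stoll308.SC

open Polynomial Finset Matrix BG BF

/-- The polynomial `N² f`. -/
def sc {n : ℕ} (N : ℕ) (a : Fin (n + 1) → ℤ) : Fin (n + 1) → ℤ := fun i => (N : ℤ) ^ 2 * a i

lemma GZ_sc (R : Type*) [CommRing R] {n : ℕ} (N : ℕ) (a : Fin (n + 1) → ℤ) :
    GZ R (sc N a) = C ((N : R) ^ 2) * GZ R a := by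
  unfold GZ gpol sc
  rw [Finset.mul_sum]
  refine Finset.sum_congr rfl fun i _ => ?_
  push_cast
  rw [C_mul, mul_assoc]

lemma isUnit_sc {K : Type*} [Field K] [CharZero K] {N : ℕ} (hN : 0 < N) :
    IsUnit (C ((N : K) ^ 2)) := by
  rw [isUnit_C, isUnit_iff_ne_zero]
  exact pow_ne_zero _ (by exact_mod_cast hN.ne')

lemma mon_sc {K : Type*} [Field K] [CharZero K] {n : ℕ} {N : ℕ} (hN : 0 < N)
    (a : Fin (n + 1) → ℤ) : mon K (sc N a) = mon K a := by
  have hN' : (N : K) ^ 2 ≠ 0 := pow_ne_zero _ (by exact_mod_cast hN.ne')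
  unfold mon
  rw [GZ_sc, ← mul_assoc, ← C_mul]
  congr 2
  unfold sc
  push_cast
  rw [mul_inv, mul_comm ((N : K) ^ 2)⁻¹, mul_assoc, inv_mul_cancel₀ hN', mul_one]

lemma IsPair.sc {n : ℕ} {a : Fin (n + 1) → ℤ} {δ : ℚ[X]} {A B : Matrix (Fin n) (Fin n) ℤ}
    (h : BF.IsPair a δ A B) {N : ℕ} (hN : 0 < N) : BF.IsPair (SC.sc N a) δ A B := by
  obtain ⟨G, hG, hA, hB⟩ := h
  have hN' : (N : ℚ) ≠ 0 := by exact_mod_cast hN.ne'
  have key : ∀ M : Matrix (Fin n) (Fin n) ℚ, ((SC.sc N a 0 : ℤ) : ℚ)⁻¹ •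
      (((N : ℚ) • G) * M * ((N : ℚ) • G)ᵀ) = (a 0 : ℚ)⁻¹ • (G * M * Gᵀ) := by
    intro M
    rw [Matrix.transpose_smul, Matrix.mul_smul, Matrix.smul_mul, Matrix.smul_mul, smul_smul,
      smul_smul]
    congr 1
    unfold SC.sc
    push_cast
    rw [mul_inv]
    field_simp
  refine ⟨(N : ℚ) • G, ?_, ?_, ?_⟩
  · rw [Matrix.det_smul]
    exact mul_ne_zero (pow_ne_zero _ hN') hG
  · rw [mon_sc hN, key]
    exact hA
  · rw [mon_sc hN, key]
    exact hB

lemma cnt_scale {n : ℕ} (P P' : (Fin (n + 1) → ℤ) → Prop) (N : ℕ) (hN : 0 < N) (H : ℕ) (R : ℝ)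
    (hP : ∀ a, P a → P' (sc N a))
    (h : ∀ T : Finset (Fin (n + 1) → ℤ), (∀ a ∈ T, P' a) → (T.card : ℝ) ≤ R) :
    (cnt n P H : ℝ) ≤ R := by
  classical
  refine cnt_le_of_card P H R fun T hT => ?_
  have hinj : Function.Injective (sc (n := n) N) := by
    intro a b hab
    funext i
    have h1 := congrFun hab i
    unfold sc at h1
    exact mul_left_cancel₀ (pow_ne_zero 2 (by exact_mod_cast hN.ne')) h1
  rw [← card_image_of_injective T hinj]
  apply h
  intro b hb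
  obtain ⟨a, ha, rfl⟩ := mem_image.1 hb
  exact hP a (hT a ha)

lemma cnt_exists {n : ℕ} (Q : ℕ → (Fin (n + 1) → ℤ) → Prop) (M H : ℕ) :
    cnt n (fun a => ∃ N, 0 < N ∧ N ≤ M ∧ Q N a) H ≤ ∑ N ∈ Icc 1 M, cnt n (Q N) H := by
  classical
  unfold BF.cnt
  refine le_trans (card_le_card ?_) (card_biUnion_le (s := Icc 1 M))
  intro a ha
  simp only [mem_filter, mem_biUnion, mem_Icc] at ha ⊢
  obtain ⟨h1, N, h2, h3, h4⟩ := ha
  exact ⟨N, ⟨h2, h3⟩, h1, h4⟩

end Stoll308.SC
end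

section
set_option autoImplicit false

/-!
Counting pairs.
-/

namespace Stoll308.DQ

open Polynomial Finset BF SC

lemma cnt_mono {n m : ℕ} {P Q : (Fin (n + 1) → ℤ) → (Fin (m + 1) → ℤ) → Prop} (H : ℕ)
    (h : ∀ (a : Fin (n + 1) → ℤ) (b : Fin (m + 1) → ℤ), (∀ i, |a i| ≤ (H : ℤ)) →
      (∀ i, |b i| ≤ (H : ℤ)) → P a b → Q a b) : cnt n m P H ≤ cnt n m Q H := by
  classical
  unfold cnt
  apply card_le_card
  intro x hx
  simp only [mem_filter, mem_product, Fintype.mem_piFinset, mem_Icc] at hx ⊢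
  exact ⟨hx.1, h x.1 x.2 (fun i => abs_le.2 (hx.1.1 i)) (fun i => abs_le.2 (hx.1.2 i)) hx.2⟩

lemma cnt_or {n m : ℕ} (P Q : (Fin (n + 1) → ℤ) → (Fin (m + 1) → ℤ) → Prop) (H : ℕ) :
    cnt n m (fun a b => P a b ∨ Q a b) H ≤ cnt n m P H + cnt n m Q H := by
  classical
  unfold cnt
  refine le_trans (card_le_card ?_) (card_union_le _ _)
  intro t ht
  simp only [mem_filter, mem_union] at ht ⊢
  rcases ht.2 with h | h
  · exact Or.inl ⟨ht.1, h⟩
  · exact Or.inr ⟨ht.1, h⟩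

/-- The number of vectors. -/
lemma card_box (n H : ℕ) :
    ((Fintype.piFinset fun _ : Fin (n + 1) => Icc (-(H : ℤ)) (H : ℤ)).card : ℝ) =
      (2 * (H : ℝ) + 1) ^ (n + 1) := by
  rw [Fintype.card_piFinset, prod_const, card_univ, Fintype.card_fin, Int.card_Icc]
  push_cast
  congr 1
  have h : (((H : ℤ) + 1 - -(H : ℤ)).toNat : ℤ) = 2 * H + 1 := by
    rw [Int.toNat_of_nonneg (by omega)]
    ring
  exact_mod_cast congrArg (Int.cast : ℤ → ℝ) h

lemma cnt_fst {n m : ℕ} (P : (Fin (n + 1) → ℤ) → Prop) (H : ℕ) :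
    (cnt n m (fun a _ => P a) H : ℝ) = (BF.cnt n P H : ℝ) * (2 * (H : ℝ) + 1) ^ (m + 1) := by
  classical
  rw [← card_box m H]
  unfold cnt BF.cnt
  rw [← Nat.cast_mul, ← card_product]
  congr 2
  ext x
  simp only [mem_filter, mem_product]
  tauto

lemma cnt_snd {n m : ℕ} (P : (Fin (m + 1) → ℤ) → Prop) (H : ℕ) :
    (cnt n m (fun _ b => P b) H : ℝ) = (2 * (H : ℝ) + 1) ^ (n + 1) * (BF.cnt m P H : ℝ) := by
  classical
  rw [← card_box n H]
  unfold cnt BF.cnt
  rw [← Nat.cast_mul, ← card_product]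
  congr 2
  ext x
  simp only [mem_filter, mem_product]
  tauto

/-- Pairs, scaled by `N²` and `N'²`. -/
lemma cnt_scale {n m : ℕ} (P P' : (Fin (n + 1) → ℤ) → (Fin (m + 1) → ℤ) → Prop) (N N' : ℕ)
    (hN : 0 < N) (hN' : 0 < N') (H : ℕ) (R : ℝ)
    (hP : ∀ a b, P a b → P' (sc N a) (sc N' b))
    (h : ∀ T : Finset ((Fin (n + 1) → ℤ) × (Fin (m + 1) → ℤ)), (∀ x ∈ T, P' x.1 x.2) →
      (T.card : ℝ) ≤ R) :
    (cnt n m P H : ℝ) ≤ R := by
  classical
  unfold cnt
  have hinj : ∀ {k : ℕ} {N : ℕ}, 0 < N → Function.Injective (sc (n := k) N) := by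
    intro k N hN a b hab
    funext i
    have h1 := congrFun hab i
    unfold sc at h1
    exact mul_left_cancel₀ (pow_ne_zero 2 (by exact_mod_cast hN.ne')) h1
  have hinj2 : Function.Injective (Prod.map (sc (n := n) N) (sc (n := m) N')) :=
    (hinj hN).prodMap (hinj hN')
  rw [← card_image_of_injective _ hinj2]
  apply h
  intro x hx
  obtain ⟨y, hy, rfl⟩ := mem_image.1 hx
  exact hP y.1 y.2 (mem_filter.1 hy).2

lemma cnt_exists {n m : ℕ} (Q : ℕ → ℕ → (Fin (n + 1) → ℤ) → (Fin (m + 1) → ℤ) → Prop)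
    (M M' H : ℕ) :
    cnt n m (fun a b => ∃ N N', 0 < N ∧ N ≤ M ∧ 0 < N' ∧ N' ≤ M' ∧ Q N N' a b) H ≤
      ∑ N ∈ Icc 1 M, ∑ N' ∈ Icc 1 M', cnt n m (Q N N') H := by
  classical
  unfold cnt
  rw [← sum_product']
  refine le_trans (card_le_card ?_) (card_biUnion_le (s := Icc 1 M ×ˢ Icc 1 M'))
  intro a ha
  simp only [mem_filter, mem_biUnion, mem_Icc, mem_product] at ha ⊢
  obtain ⟨h1, N, N', h2, h3, h4, h5, h6⟩ := ha
  exact ⟨(N, N'), ⟨⟨h2, h3⟩, ⟨h4, h5⟩⟩, h1, h6⟩

end Stoll308.DQ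
end

section
set_option autoImplicit false

/-!
The second form at a prime which divides the leading coefficient exactly once.
-/

namespace Stoll308.SC

open Polynomial Finset Matrix BG BF

namespace LocInf

lemma coeff_GZ {R : Type*} [CommRing R] {n : ℕ} (b : Fin (n + 1) → ℤ) {j : ℕ} (hj : j ≤ n) :
    (GZ R b).coeff j = (b ⟨n - j, by omega⟩ : R) := by
  unfold GZ gpol
  rw [finsetSum_coeff, Finset.sum_eq_single ⟨n - j, by omega⟩]
  · have e : n - (n - j) = j := by omega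
    rw [coeff_C_mul, coeff_X_pow]
    simp only
    rw [e, if_pos rfl, mul_one]
  · intro i _ hi
    rw [coeff_C_mul, coeff_X_pow, if_neg, mul_zero]
    intro h
    apply hi
    apply Fin.ext
    have := i.isLt
    show (i : ℕ) = n - j
    omega
  · intro h
    exact absurd (Finset.mem_univ _) h

variable {p : ℕ} [hpf : Fact p.Prime]

end LocInf

open LocInf

end Stoll308.SC
end

section
set_option autoImplicit false

/-!
Double counting in a cell, for the pairs with a given first nonzero diagonal entry of `B`.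
-/

namespace Stoll308.OF

open Polynomial Finset Matrix BG

namespace Cnt

end Cnt

open Cnt

end Stoll308.OF
end

section
set_option autoImplicit false

/-!
The theorem for the full family.
-/

namespace Stoll308.OF

open Polynomial Finset Matrix BG

open Classical in
lemma cnt_lead {n : ℕ} (P : ℤ → Prop) (H : ℕ) (hH : 1 ≤ H) :
    (BF.cnt n (fun a => P (a 0)) H : ℝ) ≤
      (((Icc (-(H : ℤ)) H).filter P).card : ℝ) * (3 * (H : ℝ)) ^ n := by
  have h1 : BF.cnt n (fun a => P (a 0)) H ≤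
      (((Icc (-(H : ℤ)) H).filter P) ×ˢ
        (Fintype.piFinset fun _ : Fin n => Icc (-(H : ℤ)) (H : ℤ))).card := by
    unfold BF.cnt
    refine card_le_card_of_injOn (fun a => (a 0, fun i : Fin n => a i.succ)) ?_ ?_
    · intro a ha
      simp only [coe_filter, Fintype.mem_piFinset, Set.mem_ofPred_eq] at ha
      simp only [coe_product, Set.mem_prod, mem_coe, mem_filter, Fintype.mem_piFinset]
      exact ⟨⟨ha.1 0, ha.2⟩, fun i => ha.1 i.succ⟩
    · intro a _ b _ h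
      simp only [Prod.mk.injEq] at h
      funext i
      exact Fin.cases h.1 (fun j => congrFun h.2 j) i
  rw [card_product, Fintype.card_piFinset, prod_const, Finset.card_univ, Fintype.card_fin,
    Int.card_Icc] at h1
  have h2 : (((H : ℤ) + 1 - -(H : ℤ)).toNat : ℝ) ≤ 3 * H := by
    have h3 : ((H : ℤ) + 1 - -(H : ℤ)).toNat = 2 * H + 1 := by omega
    rw [h3]
    have : (1 : ℝ) ≤ H := by exact_mod_cast hH
    push_cast
    linarith
  have h4 : (BF.cnt n (fun a => P (a 0)) H : ℝ) ≤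
      (((Icc (-(H : ℤ)) H).filter P).card : ℝ) *
        (((H : ℤ) + 1 - -(H : ℤ)).toNat : ℝ) ^ n := by exact_mod_cast h1
  refine h4.trans (mul_le_mul_of_nonneg_left ?_ (Nat.cast_nonneg _))
  exact pow_le_pow_left₀ (Nat.cast_nonneg _) h2 n

/-- Few leading coefficients have a large square divisor. -/
lemma sqf_cnt (n : ℕ) (ε : ℝ) (hε : 0 < ε) : ∃ S : ℝ, 1 ≤ S ∧ ∀ H : ℕ, 1 ≤ H →
    (BF.cnt n (fun a => a 0 ≠ 0 ∧ S * sfp (a 0) < |(a 0 : ℝ)|) H : ℝ) ≤
      ε * (H : ℝ) ^ (n + 1) := by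
  obtain ⟨S, hS, h⟩ := sqf_small (ε / 3 ^ n) (by positivity)
  refine ⟨S, hS, fun H hH => ?_⟩
  have h1 := cnt_lead (n := n) (fun κ : ℤ => κ ≠ 0 ∧ S * sfp κ < |(κ : ℝ)|) H hH
  refine h1.trans ?_
  have h2 := h H
  calc _ ≤ (ε / 3 ^ n * H) * (3 * (H : ℝ)) ^ n := by
        refine mul_le_mul_of_nonneg_right ?_ (by positivity)
        refine le_trans (le_of_eq ?_) h2
        congr 2
        ext x
        simp
    _ = ε * (H : ℝ) ^ (n + 1) := by
        rw [mul_pow, pow_succ]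
        field_simp

end Stoll308.OF
end

section
set_option autoImplicit false

/-!
No large zero block, squarefree version: a zero block of size `r` times `m - r` makes the square of a
determinant of size `r` (of degree `r`) a divisor of the characteristic polynomial.
-/

namespace Stoll308.FQ

open Polynomial Finset Matrix BG BF

/-- the indices in three blocks -/
def eqv3 (ρ μ : ℕ) : Fin ρ ⊕ (Fin μ ⊕ Fin ρ) ≃ Fin (ρ + (μ + ρ)) :=
  (Equiv.sumCongr (Equiv.refl _) finSumFinEquiv).trans finSumFinEquiv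

theorem eqv3_inl {ρ μ : ℕ} (i : Fin ρ) : ((eqv3 ρ μ (Sum.inl i) : Fin _) : ℕ) = i := by
  simp [eqv3]

theorem eqv3_mid {ρ μ : ℕ} (i : Fin μ) : ((eqv3 ρ μ (Sum.inr (Sum.inl i)) : Fin _) : ℕ) = ρ + i := by
  simp [eqv3]

/-- exchange of the first and the last block -/
def swp (ρ μ : ℕ) : Equiv.Perm (Fin ρ ⊕ (Fin μ ⊕ Fin ρ)) where
  toFun := Sum.elim (fun i => Sum.inr (Sum.inr i)) (Sum.elim (fun i => Sum.inr (Sum.inl i)) Sum.inl)
  invFun := Sum.elim (fun i => Sum.inr (Sum.inr i)) (Sum.elim (fun i => Sum.inr (Sum.inl i)) Sum.inl)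
  left_inv := by rintro (i | i | i) <;> rfl
  right_inv := by rintro (i | i | i) <;> rfl

/-- the corner block -/
def crn {R : Type*} {ρ μ : ℕ} (T : Matrix (Fin (ρ + (μ + ρ))) (Fin (ρ + (μ + ρ))) R) :
    Matrix (Fin ρ) (Fin ρ) R :=
  fun i j => T (eqv3 ρ μ (Sum.inl i)) (eqv3 ρ μ (Sum.inr (Sum.inr j)))

/-- the middle block -/
def mdl {R : Type*} {ρ μ : ℕ} (T : Matrix (Fin (ρ + (μ + ρ))) (Fin (ρ + (μ + ρ))) R) :
    Matrix (Fin μ) (Fin μ) R :=
  fun i j => T (eqv3 ρ μ (Sum.inr (Sum.inl i))) (eqv3 ρ μ (Sum.inr (Sum.inl j)))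

theorem block_det {R : Type*} [CommRing R] {ρ μ : ℕ}
    (T : Matrix (Fin (ρ + (μ + ρ))) (Fin (ρ + (μ + ρ))) R) (hsym : ∀ i j, T i j = T j i)
    (h0 : ∀ i j : Fin (ρ + (μ + ρ)), (i : ℕ) < ρ → (j : ℕ) < μ + ρ → T i j = 0) :
    ∃ ε : ℤˣ, T.det = ((ε : ℤ) : R) * ((crn T).det ^ 2 * (mdl T).det) := by
  set e := eqv3 ρ μ with he
  set N : Matrix (Fin ρ ⊕ (Fin μ ⊕ Fin ρ)) (Fin ρ ⊕ (Fin μ ⊕ Fin ρ)) R :=
    (T.submatrix e e).submatrix id (swp ρ μ) with hN
  have h1 : N.det = ((Equiv.Perm.sign (swp ρ μ) : ℤ) : R) * T.det := by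
    rw [hN, Matrix.det_permute', Matrix.det_submatrix_equiv_self]
  have h2 : N = Matrix.fromBlocks (crn T) 0
      (Matrix.of fun i j => T (e (Sum.inr i)) (e (Sum.inr (Sum.inr j))))
      (Matrix.fromBlocks (mdl T) 0
        (Matrix.of fun i j => T (e (Sum.inr (Sum.inr i))) (e (Sum.inr (Sum.inl j)))) (crn T)ᵀ) := by
    ext i j
    rcases i with i | i | i <;> rcases j with j | j | j
    · rfl
    · exact h0 _ _ (by
        change ((e (Sum.inl i) : Fin _) : ℕ) < ρ
        rw [he, eqv3_inl]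
        exact i.2) (by
        change ((e (Sum.inr (Sum.inl j)) : Fin _) : ℕ) < _
        rw [he, eqv3_mid]
        have := j.2
        omega)
    · exact h0 _ _ (by
        change ((e (Sum.inl i) : Fin _) : ℕ) < ρ
        rw [he, eqv3_inl]
        exact i.2) (by
        change ((e (Sum.inl j) : Fin _) : ℕ) < _
        rw [he, eqv3_inl]
        have := j.2
        omega)
    · rfl
    · rfl
    · change T (e (Sum.inr (Sum.inl i))) (e (Sum.inl j)) = 0
      rw [hsym]
      exact h0 _ _ (by rw [he, eqv3_inl]; exact j.2) (by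
        rw [he, eqv3_mid]
        have := i.2
        have := j.2
        omega)
    · rfl
    · rfl
    · change T (e (Sum.inr (Sum.inr i))) (e (Sum.inl j)) = _
      rw [hsym]
      rfl
  rw [h2, Matrix.det_fromBlocks_zero₁₂, Matrix.det_fromBlocks_zero₁₂, Matrix.det_transpose] at h1
  refine ⟨Equiv.Perm.sign (swp ρ μ), ?_⟩
  have h3 : (((Equiv.Perm.sign (swp ρ μ) : ℤˣ) : ℤ) : R) *
      (((Equiv.Perm.sign (swp ρ μ) : ℤˣ) : ℤ) : R) = 1 := by
    rw [← Int.cast_mul, ← Units.val_mul, Int.units_mul_self]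
    simp
  calc T.det = (((Equiv.Perm.sign (swp ρ μ) : ℤˣ) : ℤ) : R) *
      ((((Equiv.Perm.sign (swp ρ μ) : ℤˣ) : ℤ) : R) * T.det) := by
        rw [← mul_assoc, h3, one_mul]
    _ = _ := by rw [← h1]; ring

theorem block_aux {ρ μ : ℕ} (b : Fin (ρ + (μ + ρ) + 1) → ℤ) (h0 : b 0 ≠ 0)
    (hsq : Squarefree (GZ ℚ b))
    (A B : Matrix (Fin (ρ + (μ + ρ))) (Fin (ρ + (μ + ρ))) ℤ) (hA : A.IsSymm) (hB : B.IsSymm)
    (h : HasChar b A B) (h1 : 1 ≤ ρ) :
    ∃ i j : Fin (ρ + (μ + ρ)), (i : ℕ) < ρ ∧ (j : ℕ) < μ + ρ ∧ (A i j ≠ 0 ∨ B i j ≠ 0) := by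
  by_contra hcon
  push Not at hcon
  set T : Matrix (Fin (ρ + (μ + ρ))) (Fin (ρ + (μ + ρ))) ℤ[X] := (X : ℤ[X]) • A.map C - B.map C
    with hT
  have hTij : ∀ i j, T i j = X * C (A i j) - C (B i j) := fun i j => rfl
  obtain ⟨ε, hε⟩ := block_det T (fun i j => by
      rw [hTij, hTij, hA.apply, hB.apply]) (fun i j hi hj => by
      rw [hTij, (hcon i j hi hj).1, (hcon i j hi hj).2]
      simp)
  have hP : crn T = (X : ℤ[X]) • (crn A).map C + (-(crn B)).map C := by
    ext1 i j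
    change T _ _ = X * C (A _ _) + C (-(B _ _))
    rw [hTij, C_neg, sub_eq_add_neg]
  have hN : mdl T = (X : ℤ[X]) • (mdl A).map C + (-(mdl B)).map C := by
    ext1 i j
    change T _ _ = X * C (A _ _) + C (-(B _ _))
    rw [hTij, C_neg, sub_eq_add_neg]
  have hdN : (mdl T).det.natDegree ≤ μ := by
    rw [hN]
    exact (Polynomial.natDegree_det_X_add_C_le _ _).trans_eq (Fintype.card_fin μ)
  have hchar : T.det = C ((-1) ^ ((ρ + (μ + ρ)) / 2)) * GZ ℤ b := h
  have hmap : Polynomial.map (Int.castRingHom ℚ) (GZ ℤ b) = GZ ℚ b := by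
    simp [GZ, gpol, Polynomial.map_sum]
  -- over the rationals
  have hQ : C ((-1 : ℚ) ^ ((ρ + (μ + ρ)) / 2)) * GZ ℚ b =
      ((ε : ℤ) : ℚ[X]) * (((crn T).det.map (Int.castRingHom ℚ)) ^ 2 *
        ((mdl T).det.map (Int.castRingHom ℚ))) := by
    have h3 := congrArg (Polynomial.map (Int.castRingHom ℚ)) (hchar.symm.trans hε)
    rw [Polynomial.map_mul, hmap, Polynomial.map_C, Polynomial.map_mul, Polynomial.map_mul,
      Polynomial.map_pow, Polynomial.map_intCast] at h3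
    simpa using h3
  have hone : ∀ k : ℕ, (C ((-1 : ℚ) ^ k) : ℚ[X]) * C ((-1) ^ k) = 1 := by
    intro k
    rw [← C_mul, ← mul_pow, neg_one_mul, neg_neg, one_pow, C_1]
  have hG : GZ ℚ b = C ((-1 : ℚ) ^ ((ρ + (μ + ρ)) / 2)) * (((ε : ℤ) : ℚ[X]) *
      (((crn T).det.map (Int.castRingHom ℚ)) ^ 2 * ((mdl T).det.map (Int.castRingHom ℚ)))) := by
    rw [← hQ, ← mul_assoc, hone, one_mul]
  have hdvd : (crn T).det.map (Int.castRingHom ℚ) * (crn T).det.map (Int.castRingHom ℚ) ∣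
      GZ ℚ b := by
    rw [hG]
    exact ⟨C ((-1 : ℚ) ^ ((ρ + (μ + ρ)) / 2)) * (((ε : ℤ) : ℚ[X]) *
      ((mdl T).det.map (Int.castRingHom ℚ))), by ring⟩
  have hunit := hsq _ hdvd
  have hdP : ((crn T).det.map (Int.castRingHom ℚ)).natDegree = 0 :=
    natDegree_eq_zero_of_isUnit hunit
  have hdeg := Irr.GZ_natDegree b h0
  have hle : (GZ ℚ b).natDegree ≤ μ := by
    rw [hG]
    refine (natDegree_C_mul_le _ _).trans ?_
    refine natDegree_mul_le.trans ?_
    rw [natDegree_intCast, zero_add]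
    refine natDegree_mul_le.trans ?_
    refine (add_le_add (natDegree_pow_le) (natDegree_map_le.trans hdN)).trans ?_
    rw [hdP]
    simp
  omega

theorem block_ne {m : ℕ} (b : Fin (m + 1) → ℤ) (h0 : b 0 ≠ 0) (hsq : Squarefree (GZ ℚ b))
    (A B : Matrix (Fin m) (Fin m) ℤ) (hA : A.IsSymm) (hB : B.IsSymm) (h : HasChar b A B) (r : ℕ)
    (h1 : 1 ≤ r) (h2 : r < m) :
    ∃ i j : Fin m, (i : ℕ) < r ∧ (j : ℕ) < m - r ∧ (A i j ≠ 0 ∨ B i j ≠ 0) := by
  rcases le_total r (m - r) with hr | hr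
  · obtain ⟨μ, rfl⟩ : ∃ μ, m = r + (μ + r) := ⟨m - 2 * r, by omega⟩
    obtain ⟨i, j, hi, hj, hij⟩ := block_aux b h0 hsq A B hA hB h h1
    exact ⟨i, j, hi, by omega, hij⟩
  · obtain ⟨ρ, rfl⟩ : ∃ ρ, r = m - ρ := ⟨m - r, by omega⟩
    obtain ⟨μ, rfl⟩ : ∃ μ, m = ρ + (μ + ρ) := ⟨m - 2 * ρ, by omega⟩
    obtain ⟨i, j, hi, hj, hij⟩ := block_aux b h0 hsq A B hA hB h (by omega)
    refine ⟨j, i, by omega, by omega, ?_⟩
    rw [hA.apply, hB.apply] at hij
    exact hij

end Stoll308.FQ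
end

section
set_option autoImplicit false

/-!
The classes of the fixed polynomial come from finitely many pairs of matrices.
-/

namespace Stoll308.FQ

open Polynomial Finset Matrix BG BF SC DQ

/-- The entries of a reduced pair of a squarefree polynomial are bounded. -/
lemma rpair_le {m : ℕ} (hm : 2 ≤ m) (a : Fin (m + 1) → ℤ) (h0 : a 0 ≠ 0)
    (hsq : Squarefree (GZ ℚ a)) (K H : ℝ) (A B : Matrix (Fin m) (Fin m) ℤ) (t : Fin m → ℝ)
    (h : RPair K H a A B t) (i j : Fin m) : t i * t j ≤ K * H := by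
  obtain ⟨l, rfl⟩ : ∃ l, m = l + 1 := ⟨m - 1, by omega⟩
  have hentry : ∀ i j : Fin (l + 1), (A i j ≠ 0 ∨ B i j ≠ 0) → 1 ≤ t i * t j := by
    intro i j hij
    rcases hij with h1 | h1
    · refine le_trans ?_ (h.hA i j)
      have h2 := Int.one_le_abs h1
      exact_mod_cast h2
    · refine le_trans ?_ (h.hB i j)
      have h2 := Int.one_le_abs h1
      exact_mod_cast h2
  have hblock : ∀ k : Fin l, 1 ≤ t k.castSucc * t (Fin.rev k).castSucc := by
    intro k
    obtain ⟨i, j, hi, hj, hij⟩ := block_ne a h0 hsq A B h.symA h.symB h.char (k + 1) (by omega)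
      (by have := k.2; omega)
    refine (hentry i j hij).trans ?_
    have h1 : i ≤ k.castSucc := by
      rw [Fin.le_def, Fin.val_castSucc]
      omega
    have h2 : j ≤ (Fin.rev k).castSucc := by
      rw [Fin.le_def, Fin.val_castSucc, Fin.val_rev]
      omega
    exact mul_le_mul (h.mono _ _ h1) (h.mono _ _ h2) (h.pos _).le (h.pos _).le
  have hprod : (1 : ℝ) ≤ (∏ k : Fin l, t k.castSucc) ^ 2 := by
    have h1 : ∏ k : Fin l, t (Fin.rev k).castSucc = ∏ k : Fin l, t k.castSucc :=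
      Equiv.prod_comp Fin.revPerm (fun k => t k.castSucc)
    have h2 : (∏ k : Fin l, t k.castSucc) ^ 2 = ∏ k : Fin l, (t k.castSucc * t (Fin.rev k).castSucc) := by
      rw [Finset.prod_mul_distrib, h1, sq]
    rw [h2]
    exact Finset.prod_induction _ (fun x : ℝ => 1 ≤ x)
      (fun x y hx hy => one_le_mul_of_one_le_of_one_le hx hy) le_rfl (fun k _ => hblock k)
  have hlast : ∀ i, t i ≤ t (Fin.last l) := fun i => h.mono _ _ (Fin.le_last i)
  calc t i * t j ≤ t (Fin.last l) * t (Fin.last l) :=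
        mul_le_mul (hlast i) (hlast j) (h.pos _).le (h.pos _).le
    _ = 1 * t (Fin.last l) ^ 2 := by ring
    _ ≤ (∏ k : Fin l, t k.castSucc) ^ 2 * t (Fin.last l) ^ 2 := by
        gcongr
    _ = (∏ i, t i) ^ 2 := by rw [Fin.prod_univ_castSucc, mul_pow]
    _ ≤ K * H := h.prod

theorem fin_pairs {m : ℕ} (hm : 2 ≤ m) (he : Even m) (b : Fin (m + 1) → ℤ) (h0 : b 0 ≠ 0)
    (hsq : Squarefree (GZ ℚ b)) :
    ∃ (M : ℕ) (F : Finset (Matrix (Fin m) (Fin m) ℤ × Matrix (Fin m) (Fin m) ℤ)),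
      ∀ δ : ℚ[X], IsCoprime δ (GZ ℚ b) →
      (∀ (p : ℕ) [Fact p.Prime], p ≠ 2 →
        ∃ h : ℚ_[p][X], Prim p h ∧ Cls (GZ ℚ_[p] b) (δ.map (algebraMap ℚ ℚ_[p])) h) →
      ∃ N : ℕ, 0 < N ∧ N ≤ M ∧ ∃ x ∈ F, BF.IsPair (sc N b) δ x.1 x.2 ∧
        x.1.det = (-1) ^ (m / 2) * sc N b 0 := by
  classical
  obtain ⟨P, hP2, hPb⟩ : ∃ P : ℕ, 2 ≤ P ∧ (b 0).natAbs ≤ P :=
    ⟨max 2 (b 0).natAbs, le_max_left _ _, le_max_right _ _⟩
  have h2 : ∀ (p : ℕ) [Fact p.Prime], p ≤ P →
      ‖((P.factorial : ℚ_[p]) ^ 2)‖ ≤ ‖(b 0 : ℚ_[p])‖ := by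
    intro p _ _
    have h3 : (b 0) ∣ ((P.factorial : ℕ) : ℤ) := by
      rw [← Int.natAbs_dvd]
      exact_mod_cast Nat.dvd_factorial (Int.natAbs_pos.2 h0) hPb
    obtain ⟨c, hc⟩ := h3
    have h4 : (P.factorial : ℚ_[p]) = (b 0 : ℚ_[p]) * (c : ℚ_[p]) := by
      have := congrArg (Int.cast : ℤ → ℚ_[p]) hc
      push_cast at this
      exact this
    have h5 : ‖(P.factorial : ℚ_[p])‖ ≤ 1 := by
      exact_mod_cast Padic.norm_int_le_one (p := p) (P.factorial : ℤ)
    have h6 : ‖(c : ℚ_[p])‖ ≤ 1 := Padic.norm_int_le_one c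
    rw [norm_pow, sq]
    calc ‖(P.factorial : ℚ_[p])‖ * ‖(P.factorial : ℚ_[p])‖
        ≤ ‖(P.factorial : ℚ_[p])‖ * 1 := by gcongr
      _ = ‖(b 0 : ℚ_[p])‖ * ‖(c : ℚ_[p])‖ := by rw [mul_one, h4, norm_mul]
      _ ≤ ‖(b 0 : ℚ_[p])‖ * 1 := by gcongr
      _ = ‖(b 0 : ℚ_[p])‖ := mul_one _
  have h3 : ∀ p : ℕ, p.Prime → P < p → ¬ (p : ℤ) ∣ b 0 := by
    intro p _ hp hdvd
    have := Nat.le_of_dvd (Int.natAbs_pos.2 h0) (Int.natCast_dvd.1 hdvd)
    omega
  obtain ⟨K, hK, hred⟩ := red_of_pair hm he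
  obtain ⟨Hb, hHb⟩ : ∃ Hb : ℝ, ∀ i, |(b i : ℝ)| ≤ Hb :=
    ⟨∑ i, |(b i : ℝ)|, fun i => Finset.single_le_sum (f := fun i => |(b i : ℝ)|)
      (fun _ _ => abs_nonneg _) (mem_univ i)⟩
  have hHb0 : 0 ≤ Hb := (abs_nonneg _).trans (hHb 0)
  obtain ⟨M, hM⟩ : ∃ M : ℕ, M = P.factorial ^ (2 * m) := ⟨_, rfl⟩
  obtain ⟨H, hH⟩ : ∃ H : ℝ, H = (M : ℝ) ^ 2 * Hb := ⟨_, rfl⟩
  obtain ⟨D, hD⟩ : ∃ D : ℕ, K * H ≤ D := ⟨⌈K * H⌉₊, Nat.le_ceil _⟩
  let S : Finset (Matrix (Fin m) (Fin m) ℤ) :=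
    (Fintype.piFinset fun _ : Fin m => Fintype.piFinset fun _ : Fin m => Icc (-(D : ℤ)) D).image
      Matrix.of
  have hS : ∀ A : Matrix (Fin m) (Fin m) ℤ, (∀ i j, |(A i j : ℝ)| ≤ K * H) → A ∈ S := by
    intro A hA
    refine mem_image.2 ⟨fun i j => A i j, ?_, rfl⟩
    rw [Fintype.mem_piFinset]
    intro i
    rw [Fintype.mem_piFinset]
    intro j
    have h4 : |(A i j : ℝ)| ≤ D := (hA i j).trans hD
    have h5 : |A i j| ≤ (D : ℤ) := by exact_mod_cast h4
    rw [mem_Icc]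
    exact abs_le.1 h5
  refine ⟨M, S ×ˢ S, fun δ hδ hloc => ?_⟩
  obtain ⟨A₀, B₀, N, hN, hNM, hpair, hdet⟩ := exists_pair hm he P hP2 b h0 h2 h3 δ hδ hloc
  rw [← hM] at hNM
  refine ⟨N, hN, hNM, ?_⟩
  have hN0 : (N : ℤ) ≠ 0 := by exact_mod_cast hN.ne'
  have h0' : sc N b 0 ≠ 0 := mul_ne_zero (pow_ne_zero _ hN0) h0
  have hun : IsUnit (C ((N : ℚ) ^ 2)) := isUnit_sc hN
  have hsq' : Squarefree (GZ ℚ (sc N b)) := by
    rw [GZ_sc]
    exact hsq.squarefree_of_dvd (hun.mul_left_dvd.2 dvd_rfl)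
  have hδ' : IsCoprime δ (GZ ℚ (sc N b)) := by
    rw [GZ_sc]
    exact (isCoprime_mul_unit_left_right hun _ _).2 hδ
  have hH' : ∀ i, |(sc N b i : ℝ)| ≤ H := by
    intro i
    unfold sc
    push_cast
    rw [abs_mul, abs_pow, Nat.abs_cast, hH]
    have : (N : ℝ) ≤ M := by exact_mod_cast hNM
    gcongr
    exact hHb i
  obtain ⟨A, B, t, hR, hpr, hd⟩ := hred (sc N b) h0' hsq' H hH' δ hδ' A₀ B₀
    (SC.IsPair.sc hpair hN) hdet
  refine ⟨(A, B), ?_, hpr, hd⟩
  rw [mem_product]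
  exact ⟨hS _ fun i j => (hR.hA i j).trans (rpair_le hm _ h0' hsq' K H A B t hR i j),
    hS _ fun i j => (hR.hB i j).trans (rpair_le hm _ h0' hsq' K H A B t hR i j)⟩

end Stoll308.FQ
end

section
set_option autoImplicit false

/-!
Local analysis of a point of `C_t` over `ℚ_p` at a good prime `p`.
-/

namespace Stoll308

open Finset PadicInt

variable {r : ℕ} {q : Forms r} {t : ℤ}

/-- The resultant vanishes at a common zero. -/
lemma res_eq_zero {F : Type*} [Field F] {j k : Fin r} {x z : F} (hxz : x ≠ 0 ∨ z ≠ 0)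
    (hj : q.val j x z = 0) (hk : q.val k x z = 0) : ((q.res j k : ℤ) : F) = 0 := by
  unfold Forms.val at hj hk
  unfold Forms.res
  push_cast
  set a := (q.a j : F)
  set b := (q.b j : F)
  set c := (q.c j : F)
  set a' := (q.a k : F)
  set b' := (q.b k : F)
  set c' := (q.c k : F)
  have h1 : z * ((a * b' - a' * b) * x + (a * c' - a' * c) * z) = 0 := by
    linear_combination a * hk - a' * hj
  have h2 : x * ((a * c' - a' * c) * x + (b * c' - b' * c) * z) = 0 := by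
    linear_combination c' * hj - c * hk
  by_cases hx : x = 0
  · have hz : z ≠ 0 := by tauto
    subst hx
    have h3 : (a * c' - a' * c) = 0 := by
      have : z ^ 2 * (a * c' - a' * c) = 0 := by linear_combination h1
      rcases mul_eq_zero.1 this with h | h
      · exact absurd (pow_eq_zero_iff two_ne_zero |>.1 h) hz
      · exact h
    have h4 : c = 0 := by
      have : z ^ 2 * c = 0 := by linear_combination hj
      rcases mul_eq_zero.1 this with h | h
      · exact absurd (pow_eq_zero_iff two_ne_zero |>.1 h) hz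
      · exact h
    have h5 : c' = 0 := by
      have : z ^ 2 * c' = 0 := by linear_combination hk
      rcases mul_eq_zero.1 this with h | h
      · exact absurd (pow_eq_zero_iff two_ne_zero |>.1 h) hz
      · exact h
    rw [h3, h4, h5]; ring
  · by_cases hz : z = 0
    · subst hz
      have h4 : a = 0 := by
        have : x ^ 2 * a = 0 := by linear_combination hj
        rcases mul_eq_zero.1 this with h | h
        · exact absurd (pow_eq_zero_iff two_ne_zero |>.1 h) hx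
        · exact h
      have h5 : a' = 0 := by
        have : x ^ 2 * a' = 0 := by linear_combination hk
        rcases mul_eq_zero.1 this with h | h
        · exact absurd (pow_eq_zero_iff two_ne_zero |>.1 h) hx
        · exact h
      rw [h4, h5]; ring
    · have h3 : (a * b' - a' * b) * x + (a * c' - a' * c) * z = 0 :=
        (mul_eq_zero.1 h1).resolve_left hz
      have h4 : (a * c' - a' * c) * x + (b * c' - b' * c) * z = 0 :=
        (mul_eq_zero.1 h2).resolve_left hx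
      have h5 : x * ((a * c' - a' * c) ^ 2 - (a * b' - a' * b) * (b * c' - b' * c)) = 0 := by
        linear_combination (a * c' - a' * c) * h4 - (b * c' - b' * c) * h3
      exact (mul_eq_zero.1 h5).resolve_left hx

section bad

lemma two_dvd_bad : (2 : ℤ) ∣ q.bad := by
  unfold Forms.bad
  rw [mul_assoc, mul_assoc]
  exact dvd_mul_right _ _

lemma a_dvd_bad (j : Fin r) : q.a j ∣ q.bad := by
  unfold Forms.bad
  apply Dvd.dvd.mul_right
  apply Dvd.dvd.mul_right
  apply Dvd.dvd.mul_left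
  exact Finset.dvd_prod_of_mem _ (mem_univ j)

lemma disc_dvd_bad (j : Fin r) : q.disc j ∣ q.bad := by
  unfold Forms.bad
  apply Dvd.dvd.mul_right
  apply Dvd.dvd.mul_left
  exact Finset.dvd_prod_of_mem _ (mem_univ j)

lemma res_dvd_bad {j k : Fin r} (h : j ≠ k) : q.res j k ∣ q.bad := by
  unfold Forms.bad
  apply Dvd.dvd.mul_left
  refine dvd_trans ?_ (Finset.dvd_prod_of_mem _ (mem_univ j))
  exact Finset.dvd_prod_of_mem _ (mem_erase.2 ⟨h.symm, mem_univ k⟩)

end bad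

section point

variable {p : ℕ} [hp : Fact p.Prime]

end point

end Stoll308
end

section
set_option autoImplicit false

/-!
Points on `t y² = ∏ q_j(x,1)` modulo large primes.
-/

namespace Stoll308

open Finset Polynomial

variable {r : ℕ} {q : Forms r}

/-- The polynomial `q_j(X,1)` modulo `p`. -/
noncomputable def qp (q : Forms r) (K : Type*) [Field K] (j : Fin r) : K[X] :=
  C (q.a j : K) * X ^ 2 + C (q.b j : K) * X + C (q.c j : K)

lemma qp_eval {K : Type*} [Field K] (j : Fin r) (x : K) : (qp q K j).eval x = q.val j x 1 := by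
  unfold qp Forms.val
  simp

lemma qp_aeval {K L : Type*} [Field K] [Field L] [Algebra K L] (j : Fin r) (x : L) :
    aeval x (qp q K j) = q.val j x 1 := by
  unfold qp Forms.val
  simp

variable {p : ℕ} [hp : Fact p.Prime]

omit hp in
lemma cast_ne_zero_of_dvd_bad (hbad : ¬ (p : ℤ) ∣ q.bad) {n : ℤ} (h : n ∣ q.bad) {K : Type*}
    [Field K] [CharP K p] : (n : K) ≠ 0 := by
  intro h0
  rw [CharP.intCast_eq_zero_iff K p] at h0
  exact hbad (h0.trans h)

lemma qp_natDegree (hbad : ¬ (p : ℤ) ∣ q.bad) (j : Fin r) :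
    (qp q (ZMod p) j).natDegree = 2 := by
  unfold qp
  exact natDegree_quadratic (cast_ne_zero_of_dvd_bad hbad (a_dvd_bad j))

lemma qp_separable (hbad : ¬ (p : ℤ) ∣ q.bad) (j : Fin r) :
    (qp q (ZMod p) j).Separable := by
  have hd : ((q.disc j : ℤ) : ZMod p) ≠ 0 := cast_ne_zero_of_dvd_bad hbad (disc_dvd_bad j)
  have hder : derivative (qp q (ZMod p) j) = C (2 * (q.a j : ZMod p)) * X + C (q.b j : ZMod p) := by
    unfold qp
    simp only [derivative_add, derivative_mul, derivative_C, zero_mul, zero_add, derivative_X_pow,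
      derivative_X, mul_one, add_zero, C_mul]
    simp only [Nat.cast_ofNat, map_ofNat, Nat.add_one_sub_one, pow_one]
    ring
  refine ⟨C (-4 * (q.a j : ZMod p) / (q.disc j : ℤ)),
    C (1 / ((q.disc j : ℤ) : ZMod p)) * (C (2 * (q.a j : ZMod p)) * X + C (q.b j : ZMod p)), ?_⟩
  rw [hder]
  have h1 : (1 : (ZMod p)[X]) = C (1 / ((q.disc j : ℤ) : ZMod p)) * C ((q.disc j : ℤ) : ZMod p) := by
    rw [← C_mul, one_div, inv_mul_cancel₀ hd, C_1]
  have h2 : C (-4 * (q.a j : ZMod p) / (q.disc j : ℤ)) =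
      C (1 / ((q.disc j : ℤ) : ZMod p)) * C (-4 * (q.a j : ZMod p)) := by
    rw [← C_mul]; congr 1; ring
  have h3 : ((q.disc j : ℤ) : ZMod p) = (q.b j : ZMod p) ^ 2 - 4 * q.a j * q.c j := by
    unfold Forms.disc; push_cast; ring
  rw [h2, h1, mul_assoc, mul_assoc, ← mul_add]
  congr 1
  rw [h3]
  unfold qp
  simp only [C_mul, C_sub, C_pow, C_neg, map_ofNat]
  ring

lemma qp_coprime (hbad : ¬ (p : ℤ) ∣ q.bad) {j k : Fin r} (hjk : j ≠ k) :
    IsCoprime (qp q (ZMod p) j) (qp q (ZMod p) k) := by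
  rw [Polynomial.isCoprime_iff_aeval_ne_zero_of_isAlgClosed (ZMod p) (AlgebraicClosure (ZMod p))]
  intro x
  by_contra hcon
  push Not at hcon
  rw [qp_aeval, qp_aeval] at hcon
  have := res_eq_zero (q := q) (j := j) (k := k) (x := x) (z := 1) (Or.inr one_ne_zero)
    hcon.1 hcon.2
  have hch : CharP (AlgebraicClosure (ZMod p)) p := by
    exact charP_of_injective_algebraMap (algebraMap (ZMod p) _).injective p
  exact cast_ne_zero_of_dvd_bad hbad (res_dvd_bad hjk) this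

lemma fp_separable (hbad : ¬ (p : ℤ) ∣ q.bad) : (∏ j, qp q (ZMod p) j).Separable :=
  separable_prod' (fun _ _ _ _ h => qp_coprime hbad h) fun j _ => qp_separable hbad j

lemma fp_natDegree (hbad : ¬ (p : ℤ) ∣ q.bad) : (∏ j, qp q (ZMod p) j).natDegree = 2 * r := by
  rw [natDegree_prod _ _ fun j _ => ?_]
  · rw [sum_congr rfl fun j _ => qp_natDegree hbad j]
    simp [mul_comm]
  · intro h0
    have := qp_natDegree hbad j
    rw [h0] at this
    simp at this

open Pool.Agent.Work.MP_2b9663_nt in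
/-- For a large good prime the product of the forms takes values of both quadratic characters. -/
theorem exists_value (hr : 0 < r) (hbad : ¬ (p : ℤ) ∣ q.bad) (hbig : (4 * r + 2) ^ 2 ≤ p)
    {ε : ℤ} (hε : ε = 1 ∨ ε = -1) :
    ∃ x : ZMod p, quadraticChar (ZMod p) (∏ j, q.val j x 1) = ε := by
  classical
  have hp2 : ringChar (ZMod p) ≠ 2 := by
    rw [ZMod.ringChar_zmod_n]
    rintro rfl
    exact hbad two_dvd_bad
  set f := ∏ j, qp q (ZMod p) j with hf
  have hdeg := fp_natDegree (q := q) hbad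
  rw [← hf] at hdeg
  have hw := weil_bound hp2 (fp_separable hbad).squarefree (by rw [← hf, hdeg]; omega)
  rw [← hf, hdeg, ZMod.card] at hw
  by_contra hcon
  push Not at hcon
  have heval : ∀ x, f.eval x = ∏ j, q.val j x 1 := by
    intro x
    rw [hf, eval_prod]
    exact prod_congr rfl fun j _ => qp_eval j x
  have hf0 : f ≠ 0 := by
    intro h
    rw [h] at hdeg
    simp at hdeg
    omega
  -- the values of the character
  have hval : ∀ x, quadraticChar (ZMod p) (f.eval x) = if f.eval x = 0 then 0 else -ε := by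
    intro x
    split_ifs with h0
    · rw [h0]; simp
    · have h1 := hcon x
      rw [← heval] at h1
      rcases quadraticChar_dichotomy h0 with h | h <;> rcases hε with h' | h'
      · exact absurd (h.trans h'.symm) h1
      · rw [h, h']; norm_num
      · rw [h, h']
      · exact absurd (h.trans h'.symm) h1
  have hsum : charSum (ZMod p) f = -ε * ((univ.filter fun x => f.eval x ≠ 0).card : ℤ) := by
    unfold charSum
    rw [sum_congr rfl fun x _ => hval x, card_filter]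
    push_cast
    rw [mul_sum]
    refine sum_congr rfl fun x _ => ?_
    by_cases h : eval x f = 0
    · simp [h]
    · simp [h]
  have hcard : p ≤ (univ.filter fun x => f.eval x ≠ 0).card + 2 * r := by
    have h1 : (univ.filter fun x : ZMod p => f.eval x = 0).card ≤ 2 * r := by
      rw [← hdeg]
      refine le_trans ?_ (card_roots' f)
      refine le_trans ?_ (Multiset.toFinset_card_le _)
      apply card_le_card
      intro x hx
      rw [mem_filter] at hx
      rw [Multiset.mem_toFinset, mem_roots hf0]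
      exact hx.2
    have h2 := card_filter_add_card_filter_not (s := (univ : Finset (ZMod p)))
      (fun x : ZMod p => f.eval x = 0)
    rw [card_univ, ZMod.card] at h2
    have h3 : (univ.filter fun x : ZMod p => ¬ f.eval x = 0) =
        univ.filter fun x : ZMod p => f.eval x ≠ 0 := rfl
    rw [h3] at h2
    omega
  have habs : |(charSum (ZMod p) f : ℝ)| = ((univ.filter fun x => f.eval x ≠ 0).card : ℝ) := by
    rw [hsum]
    push_cast
    rw [abs_mul, abs_neg]
    have : |(ε : ℝ)| = 1 := by rcases hε with h | h <;> rw [h] <;> simp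
    rw [this, one_mul, abs_of_nonneg (Nat.cast_nonneg _)]
  rw [habs] at hw
  have h4 : ((2 * r - 1 : ℕ) : ℝ) = 2 * r - 1 := by
    rw [Nat.cast_sub (by omega)]; push_cast; ring
  rw [h4] at hw
  have h5 : (p : ℝ) ≤ ((univ.filter fun x => f.eval x ≠ 0).card : ℝ) + 2 * r := by
    exact_mod_cast hcard
  have h6 : (4 * (r : ℝ) + 2) ≤ Real.sqrt p := by
    apply Real.le_sqrt_of_sq_le
    exact_mod_cast hbig
  have h7 : Real.sqrt p * Real.sqrt p = p := Real.mul_self_sqrt (Nat.cast_nonneg p)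
  have h8 : (1 : ℝ) ≤ r := by exact_mod_cast hr
  nlinarith

end Stoll308
end

section
set_option autoImplicit false

/-!
An adelic point orthogonal to all the quaternion algebras `(q_j, c)` gives descent data.
-/

namespace Stoll308

open Finset PadicInt

variable {r : ℕ} {q : Forms r} {t : ℤ}

/-- Natural numbers prime to `l` that are congruent modulo `8 l` are equal up to squares. -/
lemma sq_ratio {l : ℕ} [hl : Fact l.Prime] {m n Q : ℕ} (hQ : 8 * l ∣ Q) (hmn : n % Q = m % Q)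
    (hm : Nat.Coprime m l) : ∃ w : ℚ_[l], w ≠ 0 ∧ (n : ℚ_[l]) = m * w ^ 2 := by
  have hmu : ‖(m : ℤ_[l])‖ = 1 := PadicInt.norm_natCast_eq_one_iff.2 hm.symm
  obtain ⟨v, hv⟩ : ∃ v : ℤ_[l], (m : ℤ_[l]) * v = 1 :=
    (PadicInt.isUnit_iff.2 hmu).exists_right_inv
  have hvn : ‖v‖ = 1 := by
    have := congrArg norm hv
    rw [norm_mul, hmu, one_mul, norm_one] at this
    exact this
  -- the norm of the difference
  have hd : ((8 * l : ℕ) : ℤ) ∣ (n : ℤ) - m := by
    have h1 : (n : ℤ) ≡ m [ZMOD Q] := by exact_mod_cast (show n ≡ m [MOD Q] from hmn)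
    have h2 := (Int.modEq_iff_dvd.1 h1.symm)
    exact (Int.natCast_dvd_natCast.2 hQ).trans h2
  have hnorm : ‖((n : ℤ_[l]) - m)‖ ≤ ‖((8 * l : ℕ) : ℤ_[l])‖ := by
    obtain ⟨s, hs⟩ := hd
    have : (n : ℤ_[l]) - m = ((8 * l : ℕ) : ℤ_[l]) * (s : ℤ_[l]) := by exact_mod_cast hs
    rw [this, norm_mul]
    exact mul_le_of_le_one_right (norm_nonneg _) (PadicInt.norm_le_one _)
  have h4 : ‖((8 * l : ℕ) : ℤ_[l])‖ < ‖(2 : ℤ_[l])‖ ^ 2 := by
    have h5 : ((8 * l : ℕ) : ℤ_[l]) = 2 ^ 2 * (2 * (l : ℤ_[l])) := by push_cast; ring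
    rw [h5, norm_mul, norm_pow]
    have h6 : ‖(2 : ℤ_[l]) * (l : ℤ_[l])‖ < 1 := by
      rw [norm_mul]
      have h7 : ‖(l : ℤ_[l])‖ < 1 := by
        rw [PadicInt.norm_p]
        exact inv_lt_one_of_one_lt₀ (by exact_mod_cast hl.out.one_lt)
      calc ‖(2 : ℤ_[l])‖ * ‖(l : ℤ_[l])‖ ≤ 1 * ‖(l : ℤ_[l])‖ :=
            mul_le_mul_of_nonneg_right (PadicInt.norm_le_one _) (norm_nonneg _)
        _ < 1 := by rw [one_mul]; exact h7
    have h8 : 0 < ‖(2 : ℤ_[l])‖ ^ 2 := by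
      have : (2 : ℤ_[l]) ≠ 0 := two_ne_zero
      have := norm_pos_iff.2 this
      positivity
    calc ‖(2 : ℤ_[l])‖ ^ 2 * ‖(2 : ℤ_[l]) * (l : ℤ_[l])‖ < ‖(2 : ℤ_[l])‖ ^ 2 * 1 :=
          mul_lt_mul_of_pos_left h6 h8
      _ = _ := mul_one _
  set u : ℤ_[l] := (n : ℤ_[l]) * v with hu
  have hu1 : ‖(1 : ℤ_[l]) ^ 2 - u‖ < ‖(2 : ℤ_[l])‖ ^ 2 := by
    have : (1 : ℤ_[l]) ^ 2 - u = -(((n : ℤ_[l]) - m) * v) := by
      rw [hu, sub_mul, hv]; ring
    rw [this, norm_neg, norm_mul, hvn, mul_one]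
    exact lt_of_le_of_lt hnorm h4
  obtain ⟨z, hz, -⟩ := hensels_lemma (F := (Polynomial.X ^ 2 - Polynomial.C u : Polynomial ℤ_[l]))
    (a := 1) (by
      simp only [map_sub, map_pow, Polynomial.aeval_X, Polynomial.aeval_C,
        Polynomial.derivative_C, sub_zero,
        Polynomial.derivative_X_pow, map_mul]
      simp only [Nat.cast_ofNat, Nat.add_one_sub_one, pow_one, mul_one]
      exact hu1)
  simp only [map_sub, map_pow, Polynomial.aeval_X, Polynomial.aeval_C, Algebra.algebraMap_self,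
    RingHom.id_apply, sub_eq_zero] at hz
  have hm0 : (m : ℚ_[l]) ≠ 0 := by
    intro h
    rw [PadicInt.norm_def] at hmu
    push_cast at hmu
    rw [h, norm_zero] at hmu
    exact zero_ne_one hmu
  have hn : (n : ℤ_[l]) = m * z ^ 2 := by
    rw [hz, hu, mul_left_comm, hv, mul_one]
  have hn' : (n : ℚ_[l]) = m * (z : ℚ_[l]) ^ 2 := by
    have := congrArg (fun x : ℤ_[l] => (x : ℚ_[l])) hn
    push_cast at this
    exact this
  refine ⟨z, ?_, hn'⟩
  intro h0
  -- `n` is a unit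
  have : z = 0 := Subtype.ext h0
  rw [this] at hz
  have h9 : u = 0 := by rw [← hz]; ring
  rw [h9, sub_zero, one_pow, norm_one] at hu1
  have h10 : ‖(2 : ℤ_[l])‖ ^ 2 ≤ 1 := pow_le_one₀ (norm_nonneg _) (PadicInt.norm_le_one _)
  linarith

end Stoll308
end

section
set_option autoImplicit false

/-!
Many twists have points everywhere locally.
-/

namespace Stoll308

open Finset PadicInt

variable {r : ℕ} {q : Forms r} {t : ℤ}

section local_points

variable {p : ℕ} [hp : Fact p.Prime]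

end local_points

/-- Squarefree part of a nonzero integer. -/
lemma exists_sqfree_part {n : ℤ} (hn : n ≠ 0) : ∃ (t : ℤ) (y : ℤ), Squarefree t ∧ y ≠ 0 ∧
    t * y ^ 2 = n := by
  obtain ⟨a, b, hab, hsq⟩ := Nat.sq_mul_squarefree n.natAbs
  have hn' : n.natAbs ≠ 0 := Int.natAbs_ne_zero.2 hn
  have hb : b ≠ 0 := by
    rintro rfl
    apply hn'
    rw [← hab]; ring
  refine ⟨n.sign * a, b, ?_, by exact_mod_cast hb, ?_⟩
  · rw [← Int.squarefree_natAbs, Int.natAbs_mul, Int.natAbs_sign_of_ne_zero hn, one_mul,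
      Int.natAbs_natCast]
    exact hsq
  · have h1 : (n.natAbs : ℤ) = (b : ℤ) ^ 2 * a := by exact_mod_cast hab.symm
    calc n.sign * (a : ℤ) * (b : ℤ) ^ 2 = n.sign * ((b : ℤ) ^ 2 * a) := by ring
      _ = n.sign * (n.natAbs : ℤ) := by rw [h1]
      _ = n := Int.sign_mul_natAbs n

end Stoll308
end

section
set_option autoImplicit false

/-!
Many twists of `y² = f(x)` have points everywhere locally: the local part.
-/

namespace Stoll308.Gen

open Polynomial Finset NumberTheorySymbols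

/-- `f` is separable modulo all large primes. -/
lemma exists_separable_of_map (f : ℤ[X]) (hsep : (f.map (Int.castRingHom ℚ)).Separable) :
    ∃ B : ℕ, ∀ p : ℕ, p.Prime → B < p → (fp f p).Separable := by
  obtain ⟨a, b, hab⟩ := hsep
  obtain ⟨d₁, hd₁, a₁, ha₁⟩ := exists_clear a
  obtain ⟨d₂, hd₂, b₁, hb₁⟩ := exists_clear b
  set d := d₁ * d₂ with hd
  obtain ⟨a', ha'⟩ : ∃ a', a' = C d₂ * a₁ := ⟨_, rfl⟩
  obtain ⟨b', hb'⟩ : ∃ b', b' = C d₁ * b₁ := ⟨_, rfl⟩
  have hd0 : d ≠ 0 := mul_ne_zero hd₁ hd₂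
  have key : a' * f + b' * derivative f = C d := by
    apply Polynomial.map_injective (Int.castRingHom ℚ) Int.cast_injective
    rw [Polynomial.map_add, Polynomial.map_mul, Polynomial.map_mul, ha', hb', Polynomial.map_mul,
      Polynomial.map_mul, map_C, map_C, ha₁, hb₁, map_C, ← derivative_map]
    have : (C ((Int.castRingHom ℚ) d) : ℚ[X]) = C (d₁ : ℚ) * C (d₂ : ℚ) * 1 := by
      rw [hd, ← C_mul]; simp
    rw [this, ← hab]
    simp only [eq_intCast]
    ring
  refine ⟨d.natAbs, fun p hp hpd => ?_⟩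
  have : Fact p.Prime := ⟨hp⟩
  have hdp : (d : ZMod p) ≠ 0 := by
    intro h
    rw [ZMod.intCast_zmod_eq_zero_iff_dvd] at h
    have h1 := Int.natAbs_dvd_natAbs.2 h
    rw [Int.natAbs_natCast] at h1
    exact absurd (Nat.le_of_dvd (Int.natAbs_pos.2 hd0) h1) (by omega)
  have key' := congrArg (Polynomial.map (Int.castRingHom (ZMod p))) key
  rw [Polynomial.map_add, Polynomial.map_mul, Polynomial.map_mul, map_C, ← derivative_map] at key'
  refine ⟨C (d : ZMod p)⁻¹ * a'.map (Int.castRingHom (ZMod p)),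
    C (d : ZMod p)⁻¹ * b'.map (Int.castRingHom (ZMod p)), ?_⟩
  have h1 : C (d : ZMod p)⁻¹ * C ((Int.castRingHom (ZMod p)) d) = 1 := by
    rw [← C_mul]
    simp [inv_mul_cancel₀ hdp]
  rw [← h1, ← key']
  ring

/-- A monic nonconstant polynomial takes a positive value at an integer. -/
lemma exists_pos_value (f : ℤ[X]) (hf : f.Monic) (h1 : 1 ≤ f.natDegree) :
    ∃ x : ℤ, 0 < f.eval x := by
  have hm : (f.map (Int.castRingHom ℝ)).Monic := hf.map _
  have hd : (f.map (Int.castRingHom ℝ)).natDegree = f.natDegree := hf.natDegree_map _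
  have ht := Polynomial.tendsto_atTop_of_leadingCoeff_nonneg (f.map (Int.castRingHom ℝ))
    (by rw [← natDegree_pos_iff_degree_pos, hd]; omega)
    (by rw [hm.leadingCoeff]; exact zero_le_one)
  have ht2 := ht.comp (tendsto_natCast_atTop_atTop (R := ℝ))
  obtain ⟨n, hn⟩ := (ht2.eventually (Filter.eventually_gt_atTop 0)).exists
  refine ⟨n, ?_⟩
  have h : (f.map (Int.castRingHom ℝ)).eval ((n : ℕ) : ℝ) = ((f.eval (n : ℤ) : ℤ) : ℝ) := by
    simp
  simp only [Function.comp] at hn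
  rw [h] at hn
  exact_mod_cast hn

/-- If `v` is a nonzero square in `F`, the twist by `t₀ v` has a point over `F`. -/
lemma hasPoint_of_sq {f : ℤ[X]} {x₀ y₀ : ℤ} {t₀ v : ℕ} (hty : (t₀ : ℤ) * y₀ ^ 2 = f.eval x₀)
    {F : Type*} [Field F] {s : F} (hs : s ≠ 0) (hv : (v : F) = s ^ 2) :
    HasPoint f ((t₀ * v : ℕ) : ℤ) F := by
  refine Or.inl ⟨(x₀ : F), (y₀ : F) / s, ?_⟩
  have h1 : (f.map (Int.castRingHom F)).eval ((x₀ : ℤ) : F) = ((f.eval x₀ : ℤ) : F) := by
    simp
  rw [h1, ← hty]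
  push_cast
  rw [hv]
  field_simp

section padic

variable {p : ℕ} [hp : Fact p.Prime]

lemma fq_eval_coe' (f : ℤ[X]) (x : ℤ_[p]) :
    (f.map (Int.castRingHom ℚ_[p])).eval (x : ℚ_[p]) = (((fz f p).eval x : ℤ_[p]) : ℚ_[p]) := by
  have h := Polynomial.eval_map_apply (f := (algebraMap ℤ_[p] ℚ_[p])) (p := fz f p) (x := x)
  rw [fz_map'] at h
  exact h

/-- A root modulo a good prime gives a point with `y = 0`. -/
lemma hasPoint_of_root {f : ℤ[X]} (hsep : (fp f p).Separable) (hR : (R f p).Nonempty) (t : ℤ) :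
    HasPoint f t ℚ_[p] := by
  obtain ⟨a, ha⟩ := hR
  obtain ⟨α, hα, -⟩ := exists_lift hsep ha
  refine Or.inl ⟨(α : ℚ_[p]), 0, ?_⟩
  rw [fq_eval_coe', hα]
  simp

/-- Points for units `t` at large primes. -/
lemma hasPoint_of_unit {f : ℤ[X]} (hf : f.Monic) (hd : 1 ≤ f.natDegree)
    (hsep : (fp f p).Separable) (hp2 : p ≠ 2) (hbig : (2 * f.natDegree + 2) ^ 2 ≤ p) {t : ℤ}
    (ht : ¬ (p : ℤ) ∣ t) : HasPoint f t ℚ_[p] := by
  have hnd : (fp f p).natDegree = f.natDegree := hf.natDegree_map _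
  have ht0 : (t : ZMod p) ≠ 0 := by
    rwa [Ne, ZMod.intCast_zmod_eq_zero_iff_dvd]
  have hε : quadraticChar (ZMod p) (t : ZMod p) = 1 ∨ quadraticChar (ZMod p) (t : ZMod p) = -1 :=
    quadraticChar_dichotomy ht0
  obtain ⟨x, hx⟩ := exists_value (p := p) hp2 (fp f p) hsep.squarefree (by rw [hnd]; exact hd)
    (by rw [hnd]; exact hbig) hε
  have hprod : quadraticChar (ZMod p) ((fp f p).eval x * (t : ZMod p)) = 1 := by
    rw [map_mul, hx]
    rcases hε with h | h <;> rw [h] <;> norm_num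
  have hne : (fp f p).eval x * (t : ZMod p) ≠ 0 := by
    intro h0
    rw [h0] at hprod
    simp at hprod
  have hsq : IsSquare ((fp f p).eval x * (t : ZMod p)) := by
    rcases (quadraticChar_one_iff_isSquare hne).1 hprod with ⟨s, hs⟩
    exact ⟨s, hs⟩
  set X₀ : ℤ_[p] := ((x.val : ℕ) : ℤ_[p]) with hX₀
  have hrX : rd p X₀ = x := by rw [hX₀]; simp
  set u : ℤ_[p] := (fz f p).eval X₀ * (t : ℤ_[p]) with hu
  have hru : rd p u = (fp f p).eval x * (t : ZMod p) := by
    rw [hu, map_mul, rd_intCast, ← eval_map_apply, fz_map, hrX]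
  have huu : IsUnit u := rd_ne_zero_iff.1 (by rw [hru]; exact hne)
  obtain ⟨s, hs⟩ := isSquare_of_rd hp2 huu (by rw [hru]; exact hsq)
  have htQ : (t : ℚ_[p]) ≠ 0 := by
    intro h0
    have : t = 0 := by exact_mod_cast h0
    exact ht (by rw [this]; exact dvd_zero _)
  refine Or.inl ⟨(X₀ : ℚ_[p]), (s : ℚ_[p]) / t, ?_⟩
  rw [fq_eval_coe']
  have h1 : (((fz f p).eval X₀ : ℤ_[p]) : ℚ_[p]) * (t : ℚ_[p]) = (s : ℚ_[p]) * s := by
    have := congrArg (fun z : ℤ_[p] => (z : ℚ_[p])) (hu.symm.trans hs)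
    simp only [PadicInt.coe_mul, PadicInt.coe_intCast] at this
    exact this
  field_simp
  rw [mul_comm, h1]
  try ring

end padic

/-- **The local part of the lower bound.** -/
theorem els_local (f : ℤ[X]) (hf : f.Monic) (hsep : (f.map (Int.castRingHom ℚ)).Separable)
    (_hev : Even f.natDegree) (h2 : 2 ≤ f.natDegree) :
    ∃ t₀ Q C₁ : ℕ, 0 < t₀ ∧ Squarefree t₀ ∧ 0 < Q ∧ t₀ ≤ C₁ ∧ Q ≤ C₁ ∧ ∀ v : ℕ,
      (∀ p : ℕ, p.Prime → p ∣ v → C₁ < p ∧ (R f p).Nonempty) → Squarefree v →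
      (∃ a : ℕ, Nat.Coprime a Q ∧ v ≡ a ^ 2 [MOD Q]) → ELS f ((t₀ * v : ℕ) : ℤ) := by
  obtain ⟨x₀, hx₀⟩ := exists_pos_value f hf (by omega)
  obtain ⟨t, y₀, htsq, hy₀, hty⟩ := exists_sqfree_part hx₀.ne'
  have ht : 0 < t := by
    have h1 : 0 < y₀ ^ 2 := by positivity
    by_contra hcon
    push Not at hcon
    have : t * y₀ ^ 2 ≤ 0 := mul_nonpos_of_nonpos_of_nonneg hcon h1.le
    omega
  obtain ⟨t₀, rfl⟩ : ∃ t₀ : ℕ, t = (t₀ : ℤ) := ⟨t.toNat, (Int.toNat_of_nonneg ht.le).symm⟩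
  have ht₀ : 0 < t₀ := by exact_mod_cast ht
  obtain ⟨B, hB⟩ := exists_separable_of_map f hsep
  set C' : ℕ := max (max B 2) (max ((2 * f.natDegree + 2) ^ 2) t₀) with hC'
  set Q : ℕ := 8 * C'.factorial with hQ
  have hQpos : 0 < Q := by positivity
  have hC'Q : C' ≤ Q := by
    have := Nat.self_le_factorial C'
    omega
  refine ⟨t₀, Q, Q, ht₀, Int.squarefree_natCast.1 htsq, hQpos, by omega, le_refl _,
    fun v hv hvsq ⟨a, haQ, hva⟩ => ⟨?_, ?_⟩⟩
  · intro p hp
    by_cases hpC : p ≤ C'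
    · have h8 : 8 * p ∣ Q := Nat.mul_dvd_mul_left 8 (hp.out.dvd_factorial.2 hpC)
      have hap : Nat.Coprime (a ^ 2) p :=
        Nat.Coprime.pow_left 2 (haQ.coprime_dvd_right ((Dvd.intro_left 8 rfl).trans h8))
      obtain ⟨w, hw, hvw⟩ := sq_ratio (l := p) h8 hva hap
      have ha0 : a ≠ 0 := by
        rintro rfl
        rw [zero_pow two_ne_zero, Nat.coprime_zero_left] at hap
        exact hp.out.one_lt.ne' hap
      refine hasPoint_of_sq (s := (a : ℚ_[p]) * w) hty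
        (mul_ne_zero (by exact_mod_cast ha0) hw) ?_
      rw [hvw]
      push_cast
      ring
    · push Not at hpC
      have hsp : (fp f p).Separable := hB p hp.out (by omega)
      by_cases hpv : p ∣ v
      · exact hasPoint_of_root hsp (hv p hp.out hpv).2 _
      · refine hasPoint_of_unit hf (by omega) hsp (by omega) (by omega) ?_
        intro hdvd
        rw [Int.natCast_dvd_natCast, hp.out.dvd_mul] at hdvd
        rcases hdvd with h | h
        · have := Nat.le_of_dvd ht₀ h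
          omega
        · exact hpv h
  · have hvpos : 0 < v := Nat.pos_of_ne_zero hvsq.ne_zero
    refine hasPoint_of_sq (s := Real.sqrt v) hty
      (Real.sqrt_pos.2 (by exact_mod_cast hvpos)).ne' ?_
    rw [Real.sq_sqrt (Nat.cast_nonneg v)]

end Stoll308.Gen
end

section
set_option autoImplicit false

/-!
Degree one primes of a number field in short multiplicative intervals: the argument, given the
counting lemmas.
-/

namespace Stoll308.Low

open Finset NumberField Module ArithmeticFunction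

variable {K : Type*} [Field K] [NumberField K]

lemma pow_diff (n : ℕ) {u : ℝ} (h0 : 0 ≤ u) (h1 : u ≤ 1) :
    (1 + u) ^ n - (1 - u) ^ n ≤ 2 ^ (n + 1) * u := by
  have h2 : (1 + u) ^ n ≤ 1 + (2 ^ n - 1) * u := by
    induction n with
    | zero => simp
    | succ n ih =>
      have hp : (1 : ℝ) ≤ 2 ^ n := one_le_pow₀ (by norm_num)
      have hu2 : u ^ 2 ≤ u := by nlinarith
      calc (1 + u) ^ (n + 1) = (1 + u) ^ n * (1 + u) := pow_succ _ _
        _ ≤ (1 + (2 ^ n - 1) * u) * (1 + u) := mul_le_mul_of_nonneg_right ih (by linarith)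
        _ = 1 + 2 ^ n * u + (2 ^ n - 1) * u ^ 2 := by ring
        _ ≤ 1 + 2 ^ n * u + (2 ^ n - 1) * u := by
            have := mul_le_mul_of_nonneg_left hu2 (by linarith : (0 : ℝ) ≤ 2 ^ n - 1)
            linarith
        _ = 1 + (2 ^ (n + 1) - 1) * u := by ring
  have h3 : 1 + (n : ℝ) * (-u) ≤ (1 + -u) ^ n := one_add_mul_le_pow (by linarith) n
  have h4 : (n : ℝ) ≤ 2 ^ n := by exact_mod_cast (Nat.lt_two_pow_self (n := n)).le
  rw [← sub_eq_add_neg] at h3
  have h5 : (2 : ℝ) ^ (n + 1) = 2 ^ n + 2 ^ n := by ring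
  nlinarith

lemma cnt0_le_cnt (I : Ideal (𝓞 K)) (B : ℕ) : cnt0 K I B ≤ cnt K I B := by
  classical
  unfold cnt0 cnt
  apply card_le_card
  intro a ha
  rw [mem_filter] at ha ⊢
  exact ⟨ha.1, ha.2.2⟩

lemma cnt_le_cnt0 (I : Ideal (𝓞 K)) (B : ℕ) : cnt K I B ≤ cnt0 K I B + 1 := by
  classical
  unfold cnt0 cnt
  have h : (box K B).filter (fun a => al K a ∈ I) ⊆
      (box K B).filter (fun a => a ≠ 0 ∧ al K a ∈ I) ∪ {0} := by
    intro a ha
    rw [mem_filter] at ha
    rw [mem_union, mem_filter, mem_singleton]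
    by_cases h0 : a = 0
    · exact Or.inr h0
    · exact Or.inl ⟨ha.1, h0, ha.2⟩
  calc _ ≤ _ := card_le_card h
    _ ≤ _ := card_union_le _ _
    _ = _ := by rw [card_singleton]

/-- Covering: every class modulo `I` has a representative in the box of size `D`. -/
def Cov (I : Ideal (𝓞 K)) (D : ℕ) : Prop :=
  ∀ g : 𝓞 K, ∃ e : ι K → ℤ, (∀ i, |e i| ≤ (D : ℤ)) ∧ g - al K e ∈ I

lemma absNorm_pos' {I : Ideal (𝓞 K)} (hI : I ≠ ⊥) : 0 < Ideal.absNorm I := by
  rw [Nat.pos_iff_ne_zero, Ne, Ideal.absNorm_eq_zero_iff]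
  exact hI

/-- The comparison of the densities in two boxes. -/
lemma diff_le
    (h5 : ∀ (I : Ideal (𝓞 K)) (D B : ℕ), I ≠ ⊥ → Cov I D →
      Ideal.absNorm I * cnt K I B ≤ (2 * (B + D) + 1) ^ dg K)
    (h6 : ∀ (I : Ideal (𝓞 K)) (D B : ℕ), I ≠ ⊥ → Cov I D → D ≤ B →
      (2 * (B - D) + 1) ^ dg K ≤ Ideal.absNorm I * cnt K I B)
    {I : Ideal (𝓞 K)} (hI : I ≠ ⊥) {b B D : ℕ} (hb : 1 ≤ b) (hbB : b ≤ B) (hD : Cov I D)
    (hDb : D ≤ b) :
    (cnt0 K I B : ℝ) / (2 * B + 1) ^ dg K - (cnt0 K I b : ℝ) / (2 * b + 1) ^ dg K ≤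
      2 ^ (dg K + 1) * ((D : ℝ) / b) / Ideal.absNorm I + 1 / (b : ℝ) ^ dg K := by
  set n := dg K
  set q := Ideal.absNorm I
  have hq : 0 < q := absNorm_pos' hI
  have hqR : (0 : ℝ) < q := by exact_mod_cast hq
  have hbR : (1 : ℝ) ≤ b := by exact_mod_cast hb
  have hBR : (b : ℝ) ≤ B := by exact_mod_cast hbB
  have hDR : (D : ℝ) ≤ b := by exact_mod_cast hDb
  have hD0 : (0 : ℝ) ≤ D := Nat.cast_nonneg _
  set u : ℝ := 2 * D / (2 * b + 1) with hu
  have hu0 : 0 ≤ u := by positivity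
  have hu1 : u ≤ 1 := by
    rw [hu, div_le_one (by positivity)]; linarith
  have hub : u ≤ D / b := by
    rw [hu, div_le_div_iff₀ (by positivity) (by positivity)]; nlinarith
  -- upper bound
  have e1 : (cnt0 K I B : ℝ) / (2 * B + 1) ^ n ≤ (1 + u) ^ n / q := by
    have h1 : (q : ℝ) * cnt0 K I B ≤ (2 * (B + D) + 1) ^ n := by
      have h2 := (Nat.mul_le_mul_left q (cnt0_le_cnt I B)).trans (h5 I D B hI hD)
      exact_mod_cast h2
    rw [div_le_div_iff₀ (by positivity) hqR]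
    have h3 : (2 * ((B : ℝ) + D) + 1) ≤ (1 + u) * (2 * B + 1) := by
      have h4 : 2 * (D : ℝ) = u * (2 * b + 1) := by
        rw [hu]; field_simp
      nlinarith
    calc (cnt0 K I B : ℝ) * q = q * cnt0 K I B := mul_comm _ _
      _ ≤ (2 * ((B : ℝ) + D) + 1) ^ n := h1
      _ ≤ ((1 + u) * (2 * B + 1)) ^ n := pow_le_pow_left₀ (by positivity) h3 n
      _ = _ := mul_pow _ _ _
  -- lower bound
  have e2 : (1 - u) ^ n / q - 1 / (b : ℝ) ^ n ≤ (cnt0 K I b : ℝ) / (2 * b + 1) ^ n := by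
    have h1 : ((2 * ((b : ℝ) - D) + 1)) ^ n ≤ q * (cnt0 K I b + 1) := by
      have h2 := (h6 I D b hI hD hDb).trans (Nat.mul_le_mul_left q (cnt_le_cnt0 I b))
      have h3 : (((2 * (b - D) + 1) ^ n : ℕ) : ℝ) ≤ ((q * (cnt0 K I b + 1) : ℕ) : ℝ) := by
        exact_mod_cast h2
      push_cast [Nat.cast_sub hDb] at h3
      exact h3
    have h3 : (2 * ((b : ℝ) - D) + 1) = (1 - u) * (2 * b + 1) := by
      have h4 : 2 * (D : ℝ) = u * (2 * b + 1) := by
        rw [hu]; field_simp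
      linear_combination (-1 : ℝ) * h4
    rw [h3, mul_pow] at h1
    have hpos : (0 : ℝ) < (2 * b + 1) ^ n := by positivity
    have h5' : (1 - u) ^ n / q ≤ (cnt0 K I b + 1) / (2 * b + 1) ^ n := by
      rw [div_le_div_iff₀ hqR hpos]
      linarith
    have h6' : 1 / (2 * (b : ℝ) + 1) ^ n ≤ 1 / (b : ℝ) ^ n := by
      apply one_div_le_one_div_of_le (by positivity)
      exact pow_le_pow_left₀ (by positivity) (by linarith) n
    rw [add_div] at h5'
    linarith
  have e3 := pow_diff n hu0 hu1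
  have e4 : ((1 + u) ^ n - (1 - u) ^ n) / q ≤ 2 ^ (n + 1) * ((D : ℝ) / b) / q := by
    apply div_le_div_of_nonneg_right _ hqR.le
    refine e3.trans ?_
    exact mul_le_mul_of_nonneg_left hub (by positivity)
  rw [sub_div] at e4
  linarith

lemma card_box' (B : ℕ) : (box K B).card = (2 * B + 1) ^ dg K := by
  unfold box
  rw [Fintype.card_piFinset, prod_const, card_univ, Int.card_Icc]
  congr 1
  omega

lemma Na_le_of_mem_pow {P : Ideal (𝓞 K)} {k : ℕ} {a : ι K → ℤ} (ha : a ≠ 0)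
    (h : al K a ∈ P ^ k) : Ideal.absNorm P ^ k ≤ Na K a := by
  have h1 : Ideal.absNorm (P ^ k) ∣ Na K a := by
    unfold Na
    apply Ideal.absNorm_dvd_absNorm_of_le
    rw [Ideal.span_singleton_le_iff_mem]
    exact h
  rw [map_pow] at h1
  exact Nat.le_of_dvd (Na_pos' ha) h1

/-- The integers which are norms of prime ideal powers. -/
def PPn (K : Type*) [Field K] [NumberField K] (q : ℕ) : Prop :=
  ∃ (P : Ideal (𝓞 K)) (k : ℕ), P.IsPrime ∧ P ≠ ⊥ ∧ 1 ≤ k ∧ Ideal.absNorm P ^ k = q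

/-- The main inequality. -/
lemma main_ineq
    {C₀ : ℕ} (hC₀ : 1 ≤ C₀) (h1 : ∀ B : ℕ, ∀ a ∈ box K B, Na K a ≤ C₀ * B ^ dg K)
    {C₁ : ℝ} (h2 : ∀ B : ℕ, 1 ≤ B → ((2 * B + 1 : ℝ) ^ dg K) * (dg K * Real.log B - C₁) ≤
      ∑ a ∈ (box K B).filter (fun a => a ≠ 0), Real.log (Na K a))
    {C₂ : ℝ} (hC₂ : 0 < C₂) (h3 : ∀ I : Ideal (𝓞 K), I ≠ ⊥ → ∀ B : ℕ,
      (cnt0 K I B : ℝ) ≤ C₂ * (2 * B + 1 : ℝ) ^ dg K / Ideal.absNorm I)
    {C₃ : ℕ} (hC₃ : 1 ≤ C₃) (h4 : ∀ (I : Ideal (𝓞 K)), I ≠ ⊥ → ∀ m : ℕ,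
      Ideal.absNorm I ≤ m ^ dg K → Cov I (C₃ * m))
    (h5 : ∀ (I : Ideal (𝓞 K)) (D B : ℕ), I ≠ ⊥ → Cov I D →
      Ideal.absNorm I * cnt K I B ≤ (2 * (B + D) + 1) ^ dg K)
    (h6 : ∀ (I : Ideal (𝓞 K)) (D B : ℕ), I ≠ ⊥ → Cov I D → D ≤ B →
      (2 * (B - D) + 1) ^ dg K ≤ Ideal.absNorm I * cnt K I B)
    [DecidablePred (PPn K)] {b J : ℕ} (hb : 1 ≤ b) (hJ : 1 ≤ J) :
    dg K * Real.log J - C₁ - Real.log C₀ -
        (dg K : ℝ) ^ 2 * (2 ^ (dg K + 1) * (Real.log 4 + 4) * dg K + (Real.log 4 + 4)) ≤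
      (dg K : ℝ) ^ 2 * (C₂ * ∑ q ∈ ((Ioc 0 (C₀ * (J * b) ^ dg K)).filter (PPn K)).filter
        (fun q => (b / (2 * C₃)) ^ dg K < q), vonMangoldt q / q) := by
  classical
  set n := dg K with hn
  have hn1 : 1 ≤ n := dg_pos' K
  have hnR : (1 : ℝ) ≤ n := by exact_mod_cast hn1
  set B := J * b with hB
  set x := C₀ * B ^ n with hx
  set m := b / (2 * C₃) with hm
  set y := m ^ n with hy
  set s : ℝ := 1 / n with hs
  have hs0 : 0 < s := by positivity
  have hs1 : s ≤ 1 := by rw [hs, div_le_one (by linarith)]; exact hnR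
  have hlog4 : 0 ≤ Real.log 4 := Real.log_nonneg (by norm_num)
  have hbB : b ≤ B := Nat.le_mul_of_pos_left b (by omega)
  have hB1 : 1 ≤ B := hb.trans hbB
  have hbR : (1 : ℝ) ≤ b := by exact_mod_cast hb
  have hBR : (1 : ℝ) ≤ B := by exact_mod_cast hB1
  have hC₃R : (1 : ℝ) ≤ C₃ := by exact_mod_cast hC₃
  have hmb : m ≤ b := Nat.div_le_self _ _
  have h2m : 2 * C₃ * m ≤ b := by rw [hm]; exact Nat.mul_div_le b (2 * C₃)
  have hyx : y ≤ x := by
    calc y = m ^ n := rfl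
      _ ≤ B ^ n := Nat.pow_le_pow_left (hmb.trans hbB) n
      _ ≤ C₀ * B ^ n := Nat.le_mul_of_pos_left _ (by omega)
  have hxB : ∀ a ∈ box K B, Na K a ≤ x := h1 B
  have hxb : ∀ a ∈ box K b, Na K a ≤ x := fun a ha =>
    (h1 b a ha).trans (Nat.mul_le_mul_left _ (Nat.pow_le_pow_left hbB n))
  have hSB := sum_log_eq hxB
  have hSb := sum_log_eq hxb
  -- the upper bound for the small box
  have hup : ∑ a ∈ (box K b).filter (fun a => a ≠ 0), Real.log (Na K a) ≤
      (2 * (b : ℝ) + 1) ^ n * (Real.log C₀ + n * Real.log b) := by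
    have hterm : ∀ a ∈ (box K b).filter (fun a => a ≠ 0),
        Real.log (Na K a) ≤ Real.log C₀ + n * Real.log b := by
      intro a ha
      rw [mem_filter] at ha
      have h7 : (Na K a : ℝ) ≤ C₀ * (b : ℝ) ^ n := by exact_mod_cast h1 b a ha.1
      have h8 : (0 : ℝ) < Na K a := by exact_mod_cast Na_pos' ha.2
      have h9 : (0 : ℝ) < C₀ := by exact_mod_cast (by omega : 0 < C₀)
      calc Real.log (Na K a) ≤ Real.log (C₀ * (b : ℝ) ^ n) := Real.log_le_log h8 h7
        _ = _ := by rw [Real.log_mul h9.ne' (by positivity), Real.log_pow]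
    refine (sum_le_card_nsmul _ _ _ hterm).trans ?_
    rw [nsmul_eq_mul]
    apply mul_le_mul_of_nonneg_right
    · have h7 := card_le_card (filter_subset (fun a => a ≠ 0) (box K b))
      rw [card_box'] at h7
      exact_mod_cast h7
    · have h9 : (1 : ℝ) ≤ C₀ := by exact_mod_cast hC₀
      have := Real.log_nonneg h9
      have := Real.log_nonneg hbR
      positivity
  have hlow := h2 B hB1
  have hpB : (0 : ℝ) < (2 * (B : ℝ) + 1) ^ n := by positivity
  have hpb : (0 : ℝ) < (2 * (b : ℝ) + 1) ^ n := by positivity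
  -- the weight
  set φ₁ : ℕ → ℝ := fun q => 2 ^ (n + 2) * C₃ / b * (q : ℝ) ^ (s - 1) + 1 / (b : ℝ) ^ n with hφ₁
  set φ : ℕ → ℝ := fun q => if q ≤ y then φ₁ q else if q ≤ x then C₂ / q else 0 with hφ
  have hφ₁0 : ∀ q, 0 ≤ φ₁ q := fun q => by positivity
  have hφ0 : ∀ q, 0 ≤ φ q := by
    intro q
    simp only [hφ]
    split_ifs
    · exact hφ₁0 q
    · positivity
    · exact le_rfl
  have hφx : ∀ q, x < q → φ q = 0 := by
    intro q hq
    simp only [hφ]
    rw [if_neg (by omega), if_neg (by omega)]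
  -- the comparison for one prime power
  have hcmp : ∀ P ∈ Pr K x, ∀ k ∈ Icc 1 x,
      (cnt0 K (P ^ k) B : ℝ) / (2 * B + 1) ^ n - (cnt0 K (P ^ k) b : ℝ) / (2 * b + 1) ^ n ≤
        φ (Ideal.absNorm P ^ k) := by
    intro P hP k hk
    obtain ⟨-, hPp, hP0⟩ := mem_Pr.1 hP
    rw [mem_Icc] at hk
    have hI : P ^ k ≠ ⊥ := pow_ne_zero k hP0
    have hNI : Ideal.absNorm (P ^ k) = Ideal.absNorm P ^ k := map_pow _ _ _
    set q := Ideal.absNorm P ^ k with hq
    have hq1 : 1 ≤ q := Nat.one_le_pow _ _ (by have := two_le_absNorm hPp hP0; omega)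
    have hqR : (1 : ℝ) ≤ q := by exact_mod_cast hq1
    have hcb : (0 : ℝ) ≤ (cnt0 K (P ^ k) b : ℝ) / (2 * b + 1) ^ n := by positivity
    by_cases hqy : q ≤ y
    · simp only [hφ]
      rw [if_pos hqy]
      set mq := ⌈(q : ℝ) ^ s⌉₊ with hmq
      have hqs1 : 1 ≤ (q : ℝ) ^ s := Real.one_le_rpow hqR hs0.le
      have h7 : q ≤ mq ^ n := by
        have h8 : (q : ℝ) ^ s ≤ mq := Nat.le_ceil _
        have h9 : ((q : ℝ) ^ s) ^ n = q := by
          rw [← Real.rpow_natCast, ← Real.rpow_mul (by linarith), hs,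
            one_div_mul_cancel (by linarith), Real.rpow_one]
        have h10 : ((q : ℝ) ^ s) ^ n ≤ (mq : ℝ) ^ n := pow_le_pow_left₀ (by positivity) h8 n
        rw [h9] at h10
        exact_mod_cast h10
      have h8 : mq ≤ m := by
        apply Nat.ceil_le.2
        have h9 : (q : ℝ) ≤ (m : ℝ) ^ n := by exact_mod_cast hqy
        calc (q : ℝ) ^ s ≤ ((m : ℝ) ^ n) ^ s := Real.rpow_le_rpow (by linarith) h9 hs0.le
          _ = m := by
            rw [← Real.rpow_natCast, ← Real.rpow_mul (Nat.cast_nonneg _), hs,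
              mul_one_div_cancel (by linarith), Real.rpow_one]
      have h9 : C₃ * mq ≤ b := by
        calc C₃ * mq ≤ C₃ * m := Nat.mul_le_mul_left _ h8
          _ ≤ 2 * C₃ * m := by nlinarith
          _ ≤ b := h2m
      have h10 := diff_le h5 h6 hI hb hbB (h4 _ hI mq (by rw [hNI]; exact h7)) h9
      rw [hNI] at h10
      refine h10.trans ?_
      simp only [hφ₁]
      apply add_le_add _ le_rfl
      have h11 : (mq : ℝ) ≤ 2 * (q : ℝ) ^ s := by
        have := (Nat.ceil_lt_add_one (by positivity : 0 ≤ (q : ℝ) ^ s)).le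
        linarith
      rw [Real.rpow_sub_one (by linarith)]
      push_cast
      rw [div_le_iff₀ (by linarith)]
      have h12 : (2 : ℝ) ^ (n + 2) = 2 * 2 ^ (n + 1) := by ring
      rw [h12]
      calc (2 : ℝ) ^ (n + 1) * (C₃ * mq / b) ≤ 2 ^ (n + 1) * (C₃ * (2 * (q : ℝ) ^ s) / b) := by
            gcongr
        _ = _ := by
            have : (q : ℝ) ≠ 0 := by linarith
            have : (b : ℝ) ≠ 0 := by linarith
            field_simp
    · by_cases hqx : q ≤ x
      · simp only [hφ]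
        rw [if_neg hqy, if_pos hqx]
        have h7 := h3 _ hI B
        rw [hNI] at h7
        have h8 : (cnt0 K (P ^ k) B : ℝ) / (2 * B + 1) ^ n ≤ C₂ / q := by
          rw [div_le_div_iff₀ hpB (by linarith)]
          rw [le_div_iff₀ (by linarith)] at h7
          exact h7
        linarith
      · simp only [hφ]
        rw [if_neg hqy, if_neg hqx]
        have h7 : cnt0 K (P ^ k) B = 0 := by
          unfold cnt0
          rw [card_eq_zero, filter_eq_empty_iff]
          rintro a ha ⟨ha0, ham⟩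
          exact hqx ((Na_le_of_mem_pow ha0 ham).trans (hxB a ha))
        rw [h7]
        simp only [Nat.cast_zero, zero_div]
        linarith
  -- the sum
  have hmain : (n * Real.log B - C₁) - (Real.log C₀ + n * Real.log b) ≤
      ∑ P ∈ Pr K x, ∑ k ∈ Icc 1 x, Real.log (Ideal.absNorm P) * φ (Ideal.absNorm P ^ k) := by
    have e1 : n * Real.log B - C₁ ≤ (∑ P ∈ Pr K x, ∑ k ∈ Icc 1 x,
        (cnt0 K (P ^ k) B : ℝ) * Real.log (Ideal.absNorm P)) / (2 * B + 1) ^ n := by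
      rw [← hSB, le_div_iff₀ hpB, mul_comm]
      exact hlow
    have e2 : (∑ P ∈ Pr K x, ∑ k ∈ Icc 1 x,
        (cnt0 K (P ^ k) b : ℝ) * Real.log (Ideal.absNorm P)) / (2 * b + 1) ^ n ≤
          Real.log C₀ + n * Real.log b := by
      rw [← hSb, div_le_iff₀ hpb, mul_comm]
      exact hup
    calc (n * Real.log B - C₁) - (Real.log C₀ + n * Real.log b)
        ≤ (∑ P ∈ Pr K x, ∑ k ∈ Icc 1 x,
            (cnt0 K (P ^ k) B : ℝ) * Real.log (Ideal.absNorm P)) / (2 * B + 1) ^ n -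
          (∑ P ∈ Pr K x, ∑ k ∈ Icc 1 x,
            (cnt0 K (P ^ k) b : ℝ) * Real.log (Ideal.absNorm P)) / (2 * b + 1) ^ n := by
          linarith
      _ = ∑ P ∈ Pr K x, ∑ k ∈ Icc 1 x, Real.log (Ideal.absNorm P) *
            ((cnt0 K (P ^ k) B : ℝ) / (2 * B + 1) ^ n -
              (cnt0 K (P ^ k) b : ℝ) / (2 * b + 1) ^ n) := by
          rw [sum_div, sum_div, ← sum_sub_distrib]
          refine sum_congr rfl fun P _ => ?_
          rw [sum_div, sum_div, ← sum_sub_distrib]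
          refine sum_congr rfl fun k _ => ?_
          ring
      _ ≤ _ := by
          refine sum_le_sum fun P hP => sum_le_sum fun k hk => ?_
          exact mul_le_mul_of_nonneg_left (hcmp P hP k hk) (Real.log_natCast_nonneg _)
  have hpp := sum_pp_le (K := K) φ hφ0 x x hφx (PPn K)
    (fun P hP hP0 k hk => ⟨P, k, hP, hP0, hk, rfl⟩)
  -- splitting
  have hsplit : ∑ q ∈ (Ioc 0 x).filter (PPn K), vonMangoldt q * φ q ≤
      ∑ q ∈ Ioc 0 y, vonMangoldt q * φ₁ q +
        C₂ * ∑ q ∈ ((Ioc 0 x).filter (PPn K)).filter (fun q => y < q), vonMangoldt q / q := by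
    rw [← sum_filter_add_sum_filter_not ((Ioc 0 x).filter (PPn K)) (fun q => q ≤ y)]
    apply add_le_add
    · calc ∑ q ∈ ((Ioc 0 x).filter (PPn K)).filter (fun q => q ≤ y), vonMangoldt q * φ q
          = ∑ q ∈ ((Ioc 0 x).filter (PPn K)).filter (fun q => q ≤ y), vonMangoldt q * φ₁ q := by
            refine sum_congr rfl fun q hq => ?_
            simp only [hφ]
            rw [if_pos (mem_filter.1 hq).2]
        _ ≤ _ := by
            apply sum_le_sum_of_subset_of_nonneg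
            · intro q hq
              rw [mem_filter, mem_filter, mem_Ioc] at hq
              rw [mem_Ioc]
              exact ⟨hq.1.1.1, hq.2⟩
            · intro q _ _
              exact mul_nonneg vonMangoldt_nonneg (hφ₁0 q)
    · rw [mul_sum]
      have h7 : ((Ioc 0 x).filter (PPn K)).filter (fun q => ¬ q ≤ y) =
          ((Ioc 0 x).filter (PPn K)).filter (fun q => y < q) := by
        apply filter_congr
        intro q _
        exact not_le
      rw [h7]
      refine sum_le_sum fun q hq => ?_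
      rw [mem_filter, mem_filter, mem_Ioc] at hq
      simp only [hφ]
      rw [if_neg (not_le.2 hq.2), if_pos hq.1.1.2]
      apply le_of_eq
      ring
  -- the small part
  have hsmall : ∑ q ∈ Ioc 0 y, vonMangoldt q * φ₁ q ≤
      2 ^ (n + 1) * (Real.log 4 + 4) * n + (Real.log 4 + 4) := by
    have e1 : ∑ q ∈ Ioc 0 y, vonMangoldt q * φ₁ q =
        2 ^ (n + 2) * C₃ / b * ∑ q ∈ Ioc 0 y, vonMangoldt q * (q : ℝ) ^ (s - 1) +
          1 / (b : ℝ) ^ n * ∑ q ∈ Ioc 0 y, vonMangoldt q := by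
      rw [mul_sum, mul_sum, ← sum_add_distrib]
      refine sum_congr rfl fun q _ => ?_
      simp only [hφ₁]
      ring
    rw [e1]
    have e2 := vonMangoldt_rpow_le s hs0 hs1 y
    have e3 := vonMangoldt_le y
    have e4 : (y : ℝ) ^ s = m := by
      rw [hy]
      push_cast
      rw [← Real.rpow_natCast, ← Real.rpow_mul (Nat.cast_nonneg _), hs,
        mul_one_div_cancel (by linarith), Real.rpow_one]
    have e5 : (2 : ℝ) * C₃ * m ≤ b := by exact_mod_cast h2m
    have e6 : (y : ℝ) ≤ (b : ℝ) ^ n := by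
      rw [hy]
      push_cast
      exact pow_le_pow_left₀ (Nat.cast_nonneg _) (by exact_mod_cast hmb) n
    apply add_le_add
    · calc 2 ^ (n + 2) * C₃ / b * ∑ q ∈ Ioc 0 y, vonMangoldt q * (q : ℝ) ^ (s - 1)
          ≤ 2 ^ (n + 2) * C₃ / b * ((Real.log 4 + 4) * ((y : ℝ) ^ s / s)) :=
            mul_le_mul_of_nonneg_left e2 (by positivity)
        _ = (2 ^ (n + 1) * (Real.log 4 + 4) * n) * (2 * C₃ * m / b) := by
            rw [e4, hs]
            field_simp
            ring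
        _ ≤ (2 ^ (n + 1) * (Real.log 4 + 4) * n) * 1 := by
            apply mul_le_mul_of_nonneg_left _ (by positivity)
            rw [div_le_one (by linarith)]
            exact e5
        _ = _ := mul_one _
    · calc 1 / (b : ℝ) ^ n * ∑ q ∈ Ioc 0 y, vonMangoldt q
          ≤ 1 / (b : ℝ) ^ n * ((Real.log 4 + 4) * y) := mul_le_mul_of_nonneg_left e3 (by positivity)
        _ = (Real.log 4 + 4) * (y / (b : ℝ) ^ n) := by ring
        _ ≤ (Real.log 4 + 4) * 1 := by
            apply mul_le_mul_of_nonneg_left _ (by positivity)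
            rw [div_le_one (by positivity)]
            exact e6
        _ = _ := mul_one _
  have hlogB : Real.log B = Real.log J + Real.log b := by
    rw [hB]
    push_cast
    have hJ0 : (J : ℝ) ≠ 0 := by exact_mod_cast (by omega : J ≠ 0)
    rw [Real.log_mul hJ0 (by linarith)]
  have hn2 : (0 : ℝ) ≤ (n : ℝ) ^ 2 := by positivity
  have hfin := (hmain.trans hpp).trans (mul_le_mul_of_nonneg_left
    (hsplit.trans (add_le_add hsmall le_rfl)) hn2)
  rw [hlogB] at hfin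
  rw [mul_add] at hfin
  linarith

end Stoll308.Low
end

section
set_option autoImplicit false

/-!
Degree one primes of a number field in `(X/M, X]`, given the counting lemmas.
-/

namespace Stoll308.Low

open Finset NumberField Module ArithmeticFunction

variable {K : Type*} [Field K] [NumberField K]

lemma aK_ne_zero_of_PPn {q : ℕ} (hq : q.Prime) (h : PPn K q) : Cheb.aK K q ≠ 0 := by
  obtain ⟨P, k, hP, hP0, hk, hPk⟩ := h
  have h2 := two_le_absNorm hP hP0
  have hk1 : k = 1 := by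
    rw [← hPk] at hq
    exact (Nat.Prime.eq_one_of_pow hq)
  rw [hk1, pow_one] at hPk
  unfold Cheb.aK
  have hfin : Finite {I : Ideal (𝓞 K) // Ideal.absNorm I = q} := by
    have := Ideal.finite_setOf_absNorm_eq (S := 𝓞 K) q
    exact this
  have hne : Nonempty {I : Ideal (𝓞 K) // Ideal.absNorm I = q} := ⟨⟨P, hPk⟩⟩
  exact (Nat.card_pos).ne'

/-- The primes of degree one in `(X/M, X]`. -/
theorem primes_of_counts
    (h1 : ∃ C₀ : ℕ, 1 ≤ C₀ ∧ ∀ B : ℕ, ∀ a ∈ box K B, Na K a ≤ C₀ * B ^ dg K)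
    (h2 : ∃ C₁ : ℝ, ∀ B : ℕ, 1 ≤ B → ((2 * B + 1 : ℝ) ^ dg K) * (dg K * Real.log B - C₁) ≤
      ∑ a ∈ (box K B).filter (fun a => a ≠ 0), Real.log (Na K a))
    (h3 : ∃ C₂ : ℝ, 0 < C₂ ∧ ∀ I : Ideal (𝓞 K), I ≠ ⊥ → ∀ B : ℕ,
      (cnt0 K I B : ℝ) ≤ C₂ * (2 * B + 1 : ℝ) ^ dg K / Ideal.absNorm I)
    (h4 : ∃ C₃ : ℕ, 1 ≤ C₃ ∧ ∀ (I : Ideal (𝓞 K)), I ≠ ⊥ → ∀ m : ℕ,
      Ideal.absNorm I ≤ m ^ dg K → Cov I (C₃ * m))
    (h5 : ∀ (I : Ideal (𝓞 K)) (D B : ℕ), I ≠ ⊥ → Cov I D →
      Ideal.absNorm I * cnt K I B ≤ (2 * (B + D) + 1) ^ dg K)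
    (h6 : ∀ (I : Ideal (𝓞 K)) (D B : ℕ), I ≠ ⊥ → Cov I D → D ≤ B →
      (2 * (B - D) + 1) ^ dg K ≤ Ideal.absNorm I * cnt K I B) :
    ∃ M : ℕ, 1 ≤ M ∧ ∃ X₀ : ℕ, ∀ X : ℕ, X₀ ≤ X →
      (X : ℝ) / (M * Real.log X) ≤
        (((Ioc (X / M) X).filter (fun p => p.Prime ∧ Cheb.aK K p ≠ 0)).card : ℝ) := by
  classical
  obtain ⟨C₀, hC₀, h1⟩ := h1
  obtain ⟨C₁, h2⟩ := h2
  obtain ⟨C₂, hC₂, h3⟩ := h3
  obtain ⟨C₃, hC₃, h4⟩ := h4
  obtain ⟨C₆, hC₆, h7⟩ := AP.prime_powers
  set n := dg K with hn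
  have hn1 : 1 ≤ n := dg_pos' K
  have hnR : (1 : ℝ) ≤ n := by exact_mod_cast hn1
  set T : ℝ := C₁ + Real.log C₀ +
    (n : ℝ) ^ 2 * (2 ^ (n + 1) * (Real.log 4 + 4) * n + (Real.log 4 + 4)) +
      (n : ℝ) ^ 2 * (C₂ * (C₆ + 1)) with hT
  obtain ⟨J, hJ1, hJ⟩ : ∃ J : ℕ, 1 ≤ J ∧ T ≤ Real.log J := by
    obtain ⟨J, hJ⟩ := exists_nat_ge (Real.exp T)
    have hJ0 : (0 : ℝ) < J := lt_of_lt_of_le (Real.exp_pos _) hJ
    refine ⟨J, by exact_mod_cast hJ0, ?_⟩
    rw [Real.le_log_iff_exp_le hJ0]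
    exact hJ
  have hJR : (1 : ℝ) ≤ J := by exact_mod_cast hJ1
  have hJn : T ≤ n * Real.log J := by
    have := Real.log_nonneg hJR
    nlinarith
  -- the sum over primes
  have hsum : ∀ b : ℕ, 1 ≤ b → 1 ≤ ∑ q ∈ (Ioc ((b / (2 * C₃)) ^ n) (C₀ * (J * b) ^ n)).filter
      (fun p => p.Prime ∧ Cheb.aK K p ≠ 0), Real.log q / q := by
    intro b hb
    have e1 := main_ineq hC₀ h1 h2 hC₂ h3 hC₃ h4 h5 h6 hb hJ1
    rw [← hn] at e1
    set S := ((Ioc 0 (C₀ * (J * b) ^ n)).filter (PPn K)).filter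
      (fun q => (b / (2 * C₃)) ^ n < q) with hS
    have e2 : C₆ + 1 ≤ ∑ q ∈ S, vonMangoldt q / q := by
      have e3 : (n : ℝ) ^ 2 * (C₂ * (C₆ + 1)) ≤ (n : ℝ) ^ 2 * (C₂ * ∑ q ∈ S, vonMangoldt q / q) := by
        linarith
      have e4 : (0 : ℝ) < (n : ℝ) ^ 2 := by positivity
      have e5 := le_of_mul_le_mul_left e3 e4
      exact le_of_mul_le_mul_left e5 hC₂
    rw [← sum_filter_add_sum_filter_not S Nat.Prime] at e2
    have e3 : ∑ q ∈ S.filter (fun q => ¬ q.Prime), vonMangoldt q / q ≤ C₆ := by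
      refine le_trans ?_ (h7 (C₀ * (J * b) ^ n))
      apply sum_le_sum_of_subset_of_nonneg
      · intro q hq
        rw [hS, mem_filter, mem_filter, mem_filter] at hq
        rw [mem_filter]
        exact ⟨hq.1.1.1, hq.2⟩
      · intro q _ _
        have := vonMangoldt_nonneg (n := q)
        positivity
    have e4 : ∑ q ∈ S.filter Nat.Prime, vonMangoldt q / q ≤
        ∑ q ∈ (Ioc ((b / (2 * C₃)) ^ n) (C₀ * (J * b) ^ n)).filter
          (fun p => p.Prime ∧ Cheb.aK K p ≠ 0), Real.log q / q := by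
      calc ∑ q ∈ S.filter Nat.Prime, vonMangoldt q / q
          = ∑ q ∈ S.filter Nat.Prime, Real.log q / q := by
            refine sum_congr rfl fun q hq => ?_
            rw [vonMangoldt_apply_prime (mem_filter.1 hq).2]
        _ ≤ _ := by
            apply sum_le_sum_of_subset_of_nonneg
            · intro q hq
              rw [hS, mem_filter, mem_filter, mem_filter, mem_Ioc] at hq
              rw [mem_filter, mem_Ioc]
              exact ⟨⟨hq.1.2, hq.1.1.1.2⟩, hq.2, aK_ne_zero_of_PPn hq.2 hq.1.1.2⟩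
            · intro q _ _
              have := Real.log_natCast_nonneg q
              positivity
    linarith
  -- the choice of b
  set M := C₀ * (8 * J * C₃) ^ n with hM
  have hM1 : 1 ≤ M := Nat.one_le_iff_ne_zero.2 (by positivity)
  refine ⟨M, hM1, max (C₀ * (J * (2 * C₃)) ^ n) 3, fun X hX => ?_⟩
  have hX1 : C₀ * (J * (2 * C₃)) ^ n ≤ X := le_trans (le_max_left _ _) hX
  have hX3 : 3 ≤ X := le_trans (le_max_right _ _) hX
  have hX3R : (3 : ℝ) ≤ X := by exact_mod_cast hX3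
  have hex : ∃ c : ℕ, X < C₀ * (J * c) ^ n := by
    refine ⟨X + 1, ?_⟩
    calc X < X + 1 := Nat.lt_succ_self _
      _ ≤ (X + 1) ^ n := Nat.le_self_pow (by omega) _
      _ ≤ (J * (X + 1)) ^ n := Nat.pow_le_pow_left (Nat.le_mul_of_pos_left _ (by omega)) _
      _ ≤ _ := Nat.le_mul_of_pos_left _ (by omega)
  set c := Nat.find hex with hc
  have hc1 : X < C₀ * (J * c) ^ n := Nat.find_spec hex
  have hc2 : 2 * C₃ < c := by
    by_contra hcon
    rw [not_lt] at hcon
    have h8 : C₀ * (J * c) ^ n ≤ C₀ * (J * (2 * C₃)) ^ n :=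
      Nat.mul_le_mul_left _ (Nat.pow_le_pow_left (Nat.mul_le_mul_left _ hcon) _)
    omega
  obtain ⟨b, hbc⟩ : ∃ b : ℕ, c = b + 1 := ⟨c - 1, by omega⟩
  have hb2 : 2 * C₃ ≤ b := by omega
  have hb1 : 1 ≤ b := by omega
  have hbX : C₀ * (J * b) ^ n ≤ X := by
    have h8 := Nat.find_min hex (m := b) (by omega)
    omega
  set m := b / (2 * C₃) with hm
  have hm1 : 1 ≤ m := (Nat.one_le_div_iff (by omega)).2 hb2
  have hbm : b ≤ 4 * C₃ * m := by
    have h8 : b < 2 * C₃ * (m + 1) := Nat.lt_mul_div_succ b (by omega)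
    have h9 : 2 * C₃ * (m + 1) ≤ 4 * C₃ * m := by nlinarith
    omega
  have hXM : X < M * m ^ n := by
    calc X < C₀ * (J * c) ^ n := hc1
      _ ≤ C₀ * (8 * J * C₃ * m) ^ n := by
          apply Nat.mul_le_mul_left
          apply Nat.pow_le_pow_left
          calc J * c ≤ J * (2 * b) := Nat.mul_le_mul_left _ (by omega)
            _ ≤ J * (2 * (4 * C₃ * m)) := by gcongr
            _ = 8 * J * C₃ * m := by ring
      _ = M * m ^ n := by rw [hM, mul_pow (8 * J * C₃)]; ring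
  have hsub : (Ioc (m ^ n) (C₀ * (J * b) ^ n)).filter (fun p => p.Prime ∧ Cheb.aK K p ≠ 0) ⊆
      (Ioc (X / M) X).filter (fun p => p.Prime ∧ Cheb.aK K p ≠ 0) := by
    apply filter_subset_filter
    apply Ioc_subset_Ioc _ hbX
    exact (Nat.div_lt_of_lt_mul hXM).le
  have hlogX : 0 < Real.log X := Real.log_pos (by linarith)
  have hy0 : (0 : ℝ) < (m : ℝ) ^ n := by
    have : (0 : ℝ) < m := by exact_mod_cast hm1
    positivity
  have hcount : 1 ≤ (((Ioc (m ^ n) (C₀ * (J * b) ^ n)).filter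
      (fun p => p.Prime ∧ Cheb.aK K p ≠ 0)).card : ℝ) * (Real.log X / (m : ℝ) ^ n) := by
    refine (hsum b hb1).trans ?_
    rw [← nsmul_eq_mul]
    apply sum_le_card_nsmul
    intro q hq
    rw [mem_filter, mem_Ioc] at hq
    have hq1 : (m : ℝ) ^ n < q := by exact_mod_cast hq.1.1
    have hqX : (q : ℝ) ≤ X := by exact_mod_cast hq.1.2.trans hbX
    have hq0 : (0 : ℝ) < q := hy0.trans hq1
    exact div_le_div₀ hlogX.le (Real.log_le_log hq0 hqX) hy0 hq1.le
  have hcard : (((Ioc (m ^ n) (C₀ * (J * b) ^ n)).filter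
      (fun p => p.Prime ∧ Cheb.aK K p ≠ 0)).card : ℝ) ≤
      (((Ioc (X / M) X).filter (fun p => p.Prime ∧ Cheb.aK K p ≠ 0)).card : ℝ) := by
    exact_mod_cast card_le_card hsub
  refine le_trans ?_ hcard
  have hMR : (0 : ℝ) < M := by exact_mod_cast hM1
  rw [div_le_iff₀ (by positivity)]
  have hXMR : (X : ℝ) ≤ M * (m : ℝ) ^ n := by exact_mod_cast hXM.le
  have h8 : (m : ℝ) ^ n ≤ (((Ioc (m ^ n) (C₀ * (J * b) ^ n)).filter
      (fun p => p.Prime ∧ Cheb.aK K p ≠ 0)).card : ℝ) * Real.log X := by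
    rw [mul_div_assoc', le_div_iff₀ hy0, one_mul] at hcount
    exact hcount
  calc (X : ℝ) ≤ M * (m : ℝ) ^ n := hXMR
    _ ≤ M * ((((Ioc (m ^ n) (C₀ * (J * b) ^ n)).filter
      (fun p => p.Prime ∧ Cheb.aK K p ≠ 0)).card : ℝ) * Real.log X) :=
        mul_le_mul_of_nonneg_left h8 hMR.le
    _ = _ := by ring

end Stoll308.Low
end

section
set_option autoImplicit false

/-!
Degree one primes of a number field in short multiplicative intervals: the number of nonzero
elements of an ideal in a box is at most a constant times the volume over the norm.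
-/

namespace Stoll308.Low

open Finset NumberField Module

variable (K : Type*) [Field K] [NumberField K]

lemma al_sub (a b : ι K → ℤ) : al K (a - b) = al K a - al K b := by
  unfold al
  rw [← sum_sub_distrib]
  exact sum_congr rfl fun i _ => by rw [Pi.sub_apply, sub_smul]

lemma al_add (a b : ι K → ℤ) : al K (a + b) = al K a + al K b := by
  unfold al
  rw [← sum_add_distrib]
  exact sum_congr rfl fun i _ => by rw [Pi.add_apply, add_smul]

lemma absNorm_le_Na {I : Ideal (𝓞 K)} {a : ι K → ℤ} (ha : a ≠ 0) (h : al K a ∈ I) :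
    Ideal.absNorm I ≤ Na K a := by
  unfold Na
  refine Nat.le_of_dvd (Na_pos K ha) ?_
  exact Ideal.absNorm_dvd_absNorm_of_le ((Ideal.span_singleton_le_iff_mem I).2 h)

theorem cnt0_le : ∃ C : ℝ, 0 < C ∧ ∀ I : Ideal (𝓞 K), I ≠ ⊥ → ∀ B : ℕ,
    (cnt0 K I B : ℝ) ≤ C * (2 * B + 1 : ℝ) ^ dg K / Ideal.absNorm I := by
  classical
  obtain ⟨C0, hC0, hC⟩ := Na_le K
  refine ⟨2 ^ dg K * C0, by positivity, fun I hI B => ?_⟩
  set N := Ideal.absNorm I with hN
  have hNpos : 0 < N := by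
    rw [hN]
    exact Nat.pos_of_ne_zero (Ideal.absNorm_ne_zero_iff I |>.2 (by
      exact I.finiteQuotientOfFreeOfNeBot hI))
  set n := dg K with hn
  have hnpos : 0 < n := dg_pos K
  -- the largest `s` with `C0 * s ^ n < N`
  have hex : ∃ s : ℕ, N ≤ C0 * (s + 1) ^ n := by
    refine ⟨N, ?_⟩
    calc N ≤ N + 1 := by omega
      _ ≤ (N + 1) ^ n := Nat.le_self_pow hnpos.ne' _
      _ ≤ C0 * (N + 1) ^ n := Nat.le_mul_of_pos_left _ hC0
  set s := Nat.find hex with hs
  have hs1 : N ≤ C0 * (s + 1) ^ n := Nat.find_spec hex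
  have hs2 : C0 * s ^ n < N := by
    rcases Nat.eq_zero_or_pos s with h0 | h0
    · rw [h0, zero_pow hnpos.ne', mul_zero]
      exact hNpos
    · have h1 : s - 1 < Nat.find hex := by omega
      have h2 := Nat.find_min hex h1
      rw [show s - 1 + 1 = s by omega] at h2
      exact not_le.1 h2
  have hkey : ∀ a : ι K → ℤ, al K a ∈ I → a ∈ box K s → a = 0 := by
    intro a h1 h2
    by_contra h3
    have h4 := absNorm_le_Na K h3 h1
    have h5 := hC s a h2
    rw [← hN] at h4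
    omega
  rcases Nat.lt_or_ge s B with hB | hB
  swap
  · have h0 : cnt0 K I B = 0 := by
      unfold cnt0
      rw [card_eq_zero, filter_eq_empty_iff]
      rintro a ha ⟨h1, h2⟩
      refine h1 (hkey a h2 ?_)
      rw [mem_box] at ha ⊢
      exact fun i => (ha i).trans (by exact_mod_cast hB)
    rw [h0, Nat.cast_zero]
    positivity
  -- the cells
  set q : ℕ := B / (s + 1) with hq
  have hq1 : 1 ≤ q := by
    rw [hq, Nat.one_le_div_iff (by omega)]
    omega
  have hcard : cnt0 K I B ≤ (2 * (q + 1)) ^ n := by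
    have hc : (Fintype.piFinset fun _ : ι K => Icc (-((q : ℤ) + 1)) q).card
        = (2 * (q + 1)) ^ n := by
      rw [Fintype.card_piFinset, prod_const, Int.card_Icc, card_univ]
      congr 1
      omega
    rw [← hc]
    unfold cnt0
    refine card_le_card_of_injOn (fun a i => a i / ((s : ℤ) + 1)) ?_ ?_
    · intro a ha
      simp only [coe_filter, Set.mem_ofPred_eq] at ha
      have h1 := (mem_box K).1 ha.1
      simp only [mem_coe, Fintype.mem_piFinset, mem_Icc]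
      intro i
      have h2 := abs_le.1 (h1 i)
      have hq2 : (q : ℤ) = (B : ℤ) / ((s : ℤ) + 1) := by
        rw [hq]
        push_cast
        rfl
      have hs0 : (0 : ℤ) < (s : ℤ) + 1 := by positivity
      constructor
      · rw [Int.le_ediv_iff_mul_le hs0]
        have h3 : (B : ℤ) < ((q : ℤ) + 1) * ((s : ℤ) + 1) := by
          rw [hq2]
          exact Int.lt_ediv_add_one_mul_self _ hs0
        nlinarith [h2.1, h3]
      · rw [hq2]
        exact Int.ediv_le_ediv hs0 h2.2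
    · intro a ha b hb hab
      simp only [coe_filter, Set.mem_ofPred_eq] at ha hb
      have hs0 : (0 : ℤ) < (s : ℤ) + 1 := by positivity
      have h1 : a - b = 0 := by
        refine hkey _ ?_ ?_
        · rw [al_sub]
          exact I.sub_mem ha.2.2 hb.2.2
        · rw [mem_box]
          intro i
          have h2 := congrFun hab i
          simp only at h2
          have h3 := Int.emod_add_mul_ediv (a i) ((s : ℤ) + 1)
          have h4 := Int.emod_add_mul_ediv (b i) ((s : ℤ) + 1)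
          have h5 := Int.emod_nonneg (a i) hs0.ne'
          have h6 := Int.emod_nonneg (b i) hs0.ne'
          have h7 := Int.emod_lt_of_pos (a i) hs0
          have h8 := Int.emod_lt_of_pos (b i) hs0
          rw [h2] at h3
          rw [Pi.sub_apply, abs_le]
          constructor <;> linarith
      exact sub_eq_zero.1 h1
  have hN' : (0 : ℝ) < N := by exact_mod_cast hNpos
  rw [le_div_iff₀ hN']
  have h1 : (2 * (q + 1)) * (s + 1) ≤ 2 * (2 * B + 1) := by
    have h2 : q * (s + 1) ≤ B := Nat.div_mul_le_self _ _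
    nlinarith
  have h2 : cnt0 K I B * N ≤ 2 ^ n * C0 * (2 * B + 1) ^ n := by
    calc cnt0 K I B * N ≤ (2 * (q + 1)) ^ n * (C0 * (s + 1) ^ n) := Nat.mul_le_mul hcard hs1
      _ = C0 * ((2 * (q + 1)) * (s + 1)) ^ n := by
        rw [mul_pow (2 * (q + 1)) (s + 1) n]
        ring
      _ ≤ C0 * (2 * (2 * B + 1)) ^ n := Nat.mul_le_mul_left _ (Nat.pow_le_pow_left h1 n)
      _ = 2 ^ n * C0 * (2 * B + 1) ^ n := by
        rw [mul_pow]
        ring
  exact_mod_cast h2

end Stoll308.Low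
end

section
set_option autoImplicit false

/-!
Degree one primes of a number field in short multiplicative intervals: the number of the elements
of an ideal in a box.
-/

namespace Stoll308.Low

open Finset NumberField Module

variable (K : Type*) [Field K] [NumberField K]

lemma repr_al (a : ι K → ℤ) (i : ι K) : (RingOfIntegers.basis K).repr (al K a) i = a i := by
  unfold al
  rw [Basis.repr_sum_self]

lemma al_repr (x : 𝓞 K) : al K (fun i => (RingOfIntegers.basis K).repr x i) = x :=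
  (RingOfIntegers.basis K).sum_repr x

lemma al_inj {a b : ι K → ℤ} (h : al K a = al K b) : a = b := by
  funext i
  rw [← repr_al K a i, ← repr_al K b i, h]

lemma finite_quot {I : Ideal (𝓞 K)} (hI : I ≠ ⊥) : Finite (𝓞 K ⧸ I) := by
  have : Ideal.absNorm I ≠ 0 := by
    rwa [Ne, Ideal.absNorm_eq_zero_iff]
  rw [Ideal.absNorm_apply, Submodule.cardQuot_apply] at this
  exact Nat.finite_of_card_ne_zero this

lemma absNorm_pos {I : Ideal (𝓞 K)} (hI : I ≠ ⊥) : 1 ≤ Ideal.absNorm I := by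
  have : Ideal.absNorm I ≠ 0 := by
    rwa [Ne, Ideal.absNorm_eq_zero_iff]
  omega

/-- A small nonzero element of an ideal. -/
lemma exists_small {I : Ideal (𝓞 K)} (hI : I ≠ ⊥) (M : ℕ) (hM : Ideal.absNorm I < (M + 1) ^ dg K) :
    ∃ b : ι K → ℤ, b ≠ 0 ∧ (∀ i, |b i| ≤ M) ∧ al K b ∈ I := by
  classical
  have := finite_quot K hI
  have : Fintype (𝓞 K ⧸ I) := Fintype.ofFinite _
  set S : Finset (ι K → ℤ) := Fintype.piFinset fun _ => Icc (0 : ℤ) M with hS
  have hcard : (univ : Finset (𝓞 K ⧸ I)).card < S.card := by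
    rw [hS, Fintype.card_piFinset, prod_const, Int.card_Icc, card_univ, card_univ]
    rw [Ideal.absNorm_apply, Submodule.cardQuot_apply, Nat.card_eq_fintype_card] at hM
    have : ((M : ℤ) + 1 - 0).toNat = M + 1 := by omega
    rw [this]
    exact hM
  obtain ⟨a, ha, b, hb, hab, h⟩ := exists_ne_map_eq_of_card_lt_of_maps_to hcard
    (f := fun a => Ideal.Quotient.mk I (al K a)) fun _ _ => mem_univ _
  rw [hS, Fintype.mem_piFinset] at ha hb
  refine ⟨a - b, sub_ne_zero.2 hab, fun i => ?_, ?_⟩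
  · have h1 := mem_Icc.1 (ha i)
    have h2 := mem_Icc.1 (hb i)
    rw [Pi.sub_apply, abs_le]
    omega
  · rw [al_sub, ← Ideal.Quotient.mk_eq_mk_iff_sub_mem]
    exact h

/-- **L4** -/
theorem cover : ∃ C : ℝ, 1 ≤ C ∧ ∀ I : Ideal (𝓞 K), I ≠ ⊥ → ∀ g : 𝓞 K, ∃ e : ι K → ℤ,
    (∀ i, |(e i : ℝ)| ≤ C * (Ideal.absNorm I : ℝ) ^ (1 / (dg K : ℝ))) ∧ g - al K e ∈ I := by
  classical
  set w := RingOfIntegers.basis K with hw
  set C₁ : ℝ := ∑ i, ∑ k, ∑ j, |((w.repr (w k * w i) j : ℤ) : ℝ)| with hC₁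
  have hC₁0 : 0 ≤ C₁ := sum_nonneg fun _ _ => sum_nonneg fun _ _ => sum_nonneg fun _ _ =>
    abs_nonneg _
  refine ⟨max 1 C₁, le_max_left _ _, fun I hI g => ?_⟩
  set N : ℝ := (Ideal.absNorm I : ℝ) with hN
  have hN1 : 1 ≤ N := by
    rw [hN]
    exact_mod_cast absNorm_pos K hI
  have hn0 : dg K ≠ 0 := (dg_pos K).ne'
  set Y : ℝ := N ^ (1 / (dg K : ℝ)) with hY
  have hY0 : 0 ≤ Y := by positivity
  have hYn : Y ^ dg K = N := by
    rw [hY, one_div]
    exact Real.rpow_inv_natCast_pow (by positivity) hn0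
  set M : ℕ := ⌊Y⌋₊ with hM
  have hMY : (M : ℝ) ≤ Y := Nat.floor_le hY0
  have hMN : Ideal.absNorm I < (M + 1) ^ dg K := by
    have h1 : Y < M + 1 := Nat.lt_floor_add_one Y
    have h2 : N < ((M : ℝ) + 1) ^ dg K := by
      rw [← hYn]
      exact pow_lt_pow_left₀ h1 hY0 hn0
    rw [hN] at h2
    exact_mod_cast h2
  obtain ⟨b, hb0, hbM, hbI⟩ := exists_small K hI M hMN
  set β : 𝓞 K := al K b with hβ
  obtain ⟨φ, hφ⟩ : ∃ φ : 𝓞 K →+* K, φ = algebraMap (𝓞 K) K := ⟨_, rfl⟩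
  have hβ0 : φ β ≠ 0 := by
    intro h
    apply hb0
    have h1 : β = 0 := by
      rw [hφ] at h
      exact (FaithfulSMul.algebraMap_eq_zero_iff (𝓞 K) K).1 h
    apply al_inj K
    rw [← hβ, h1]
    unfold al
    simp
  have hωφ : ∀ i, integralBasis K i = φ (w i) := fun i => by
    rw [hφ, integralBasis_apply]
  -- the coordinates of g / β
  set x : ι K → ℚ := fun i => (integralBasis K).repr (φ g / φ β) i with hx
  set d : ι K → ℤ := fun i => ⌊x i⌋ with hd
  set δ : 𝓞 K := al K d with hδ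
  refine ⟨fun j => w.repr (g - β * δ) j, fun j => ?_, ?_⟩
  · -- the coordinates
    have e1 : φ g = ∑ i, x i • (φ β * φ (w i)) := by
      have h1 := (integralBasis K).sum_repr (φ g / φ β)
      have h2 : φ g = φ β * (φ g / φ β) := by
        field_simp
      rw [h2]
      conv_lhs => rw [← h1]
      rw [mul_sum]
      refine sum_congr rfl fun i _ => ?_
      rw [hωφ, mul_smul_comm]
    have e2 : φ (β * δ) = ∑ i, ((d i : ℤ) : ℚ) • (φ β * φ (w i)) := by
      rw [hδ]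
      unfold al
      rw [map_mul, map_sum, mul_sum]
      refine sum_congr rfl fun i _ => ?_
      rw [zsmul_eq_mul, map_mul, map_intCast, Rat.smul_def]
      push_cast
      ring
    have e3 : φ (g - β * δ) = ∑ i, (Int.fract (x i)) • (φ β * φ (w i)) := by
      rw [map_sub, e1, e2, ← sum_sub_distrib]
      refine sum_congr rfl fun i _ => ?_
      rw [← sub_smul]
      rfl
    have e4 : ∀ i, (integralBasis K).repr (φ β * φ (w i)) j =
        ∑ k, (b k : ℚ) * ((w.repr (w k * w i) j : ℤ) : ℚ) := by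
      intro i
      have h1 : φ β * φ (w i) = algebraMap (𝓞 K) K (β * w i) := by rw [map_mul, hφ]
      rw [h1, integralBasis_repr_apply]
      have h2 : β * w i = ∑ k, b k • (w k * w i) := by
        rw [hβ]
        unfold al
        rw [sum_mul]
        exact sum_congr rfl fun k _ => by rw [smul_mul_assoc]
      rw [← hw, h2, map_sum, Finsupp.finsetSum_apply]
      simp only [map_smul, Finsupp.smul_apply, smul_eq_mul]
      push_cast
      rfl
    have e5 : ((w.repr (g - β * δ) j : ℤ) : ℚ) =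
        ∑ i, Int.fract (x i) * ∑ k, (b k : ℚ) * ((w.repr (w k * w i) j : ℤ) : ℚ) := by
      have h1 := integralBasis_repr_apply K (g - β * δ) j
      rw [← hw, ← hφ, e3, eq_intCast] at h1
      rw [← h1, map_sum, Finsupp.finsetSum_apply]
      refine sum_congr rfl fun i _ => ?_
      rw [map_smul, Finsupp.smul_apply, smul_eq_mul, e4]
    have e6 : ((w.repr (g - β * δ) j : ℤ) : ℝ) =
        ∑ i, ((Int.fract (x i) : ℚ) : ℝ) * ∑ k, (b k : ℝ) * ((w.repr (w k * w i) j : ℤ) : ℝ) := by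
      have := congrArg (fun q : ℚ => (q : ℝ)) e5
      push_cast at this ⊢
      exact this
    simp only
    rw [e6]
    have hfr : ∀ i, |((Int.fract (x i) : ℚ) : ℝ)| ≤ 1 := by
      intro i
      have h0 : (0 : ℝ) ≤ ((Int.fract (x i) : ℚ) : ℝ) := by exact_mod_cast Int.fract_nonneg (x i)
      rw [abs_of_nonneg h0]
      exact_mod_cast (Int.fract_lt_one (x i)).le
    have hbY : ∀ k, |(b k : ℝ)| ≤ Y := by
      intro k
      refine le_trans ?_ hMY
      have h1 := hbM k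
      have h2 : ((|b k| : ℤ) : ℝ) ≤ ((M : ℤ) : ℝ) := Int.cast_le.2 h1
      rw [Int.cast_abs, Int.cast_natCast] at h2
      exact h2
    calc |∑ i, ((Int.fract (x i) : ℚ) : ℝ) * ∑ k, (b k : ℝ) * ((w.repr (w k * w i) j : ℤ) : ℝ)|
        ≤ ∑ i, |((Int.fract (x i) : ℚ) : ℝ) *
            ∑ k, (b k : ℝ) * ((w.repr (w k * w i) j : ℤ) : ℝ)| := abs_sum_le_sum_abs _ _
      _ ≤ ∑ i, ∑ k, Y * |((w.repr (w k * w i) j : ℤ) : ℝ)| := by
          refine sum_le_sum fun i _ => ?_
          rw [abs_mul]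
          calc |((Int.fract (x i) : ℚ) : ℝ)| *
                |∑ k, (b k : ℝ) * ((w.repr (w k * w i) j : ℤ) : ℝ)| ≤
                1 * |∑ k, (b k : ℝ) * ((w.repr (w k * w i) j : ℤ) : ℝ)| :=
                mul_le_mul_of_nonneg_right (hfr i) (abs_nonneg _)
            _ = |∑ k, (b k : ℝ) * ((w.repr (w k * w i) j : ℤ) : ℝ)| := one_mul _
            _ ≤ ∑ k, |(b k : ℝ) * ((w.repr (w k * w i) j : ℤ) : ℝ)| := abs_sum_le_sum_abs _ _
            _ ≤ ∑ k, Y * |((w.repr (w k * w i) j : ℤ) : ℝ)| := by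
                refine sum_le_sum fun k _ => ?_
                rw [abs_mul]
                exact mul_le_mul_of_nonneg_right (hbY k) (abs_nonneg _)
      _ ≤ ∑ i, ∑ k, Y * ∑ j, |((w.repr (w k * w i) j : ℤ) : ℝ)| := by
          refine sum_le_sum fun i _ => sum_le_sum fun k _ => ?_
          refine mul_le_mul_of_nonneg_left ?_ hY0
          exact single_le_sum (f := fun j => |((w.repr (w k * w i) j : ℤ) : ℝ)|)
            (fun _ _ => abs_nonneg _) (mem_univ j)
      _ = C₁ * Y := by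
          rw [hC₁, sum_mul]
          refine sum_congr rfl fun i _ => ?_
          rw [sum_mul]
          exact sum_congr rfl fun k _ => mul_comm _ _
      _ ≤ max 1 C₁ * Y := mul_le_mul_of_nonneg_right (le_max_right _ _) hY0
  · have h1 : al K (fun j => w.repr (g - β * δ) j) = g - β * δ := al_repr K _
    rw [h1]
    have h2 : g - (g - β * δ) = β * δ := by ring
    rw [h2]
    exact I.mul_mem_right δ hbI

section count

variable {I : Ideal (𝓞 K)} (hI : I ≠ ⊥) (D B : ℕ)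
  (hD : ∀ g : 𝓞 K, ∃ e : ι K → ℤ, (∀ i, |e i| ≤ D) ∧ g - al K e ∈ I)

include hI hD

/-- **L5**, upper bound -/
theorem cnt_le : Ideal.absNorm I * cnt K I B ≤ (2 * (B + D) + 1) ^ dg K := by
  classical
  have := finite_quot K hI
  have : Fintype (𝓞 K ⧸ I) := Fintype.ofFinite _
  have hs : ∀ q : 𝓞 K ⧸ I, ∃ e : ι K → ℤ, (∀ i, |e i| ≤ D) ∧ Ideal.Quotient.mk I (al K e) = q := by
    intro q
    obtain ⟨g, rfl⟩ := Ideal.Quotient.mk_surjective q
    obtain ⟨e, he, h⟩ := hD g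
    exact ⟨e, he, ((Ideal.Quotient.mk_eq_mk_iff_sub_mem _ _).2 h).symm⟩
  choose s hs1 hs2 using hs
  have h1 : ((univ : Finset (𝓞 K ⧸ I)) ×ˢ ((box K B).filter fun a => al K a ∈ I)).card ≤
      (box K (B + D)).card := by
    refine card_le_card_of_injOn (fun x => s x.1 + x.2) ?_ ?_
    · rintro ⟨q, a⟩ hx
      rw [mem_coe, mem_product, mem_filter] at hx
      rw [mem_coe, mem_box]
      intro i
      have h2 := (mem_box K).1 hx.2.1 i
      have h3 := hs1 q i
      simp only [Pi.add_apply]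
      refine (abs_add_le _ _).trans ?_
      push_cast
      linarith
    · rintro ⟨q, a⟩ hx ⟨q', a'⟩ hy h
      rw [mem_coe, mem_product, mem_filter] at hx hy
      simp only at h hx hy
      have h2 := congrArg (fun v => Ideal.Quotient.mk I (al K v)) h
      simp only [al_add, map_add, hs2] at h2
      rw [Ideal.Quotient.eq_zero_iff_mem.2 hx.2.2, Ideal.Quotient.eq_zero_iff_mem.2 hy.2.2,
        add_zero, add_zero] at h2
      subst h2
      rw [add_left_cancel h]
  rw [card_product, card_box, card_univ] at h1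
  rw [Ideal.absNorm_apply, Submodule.cardQuot_apply, Nat.card_eq_fintype_card]
  unfold cnt
  convert h1

/-- **L5**, lower bound -/
theorem cnt_ge (hDB : D ≤ B) : (2 * (B - D) + 1) ^ dg K ≤ Ideal.absNorm I * cnt K I B := by
  classical
  have := finite_quot K hI
  have : Fintype (𝓞 K ⧸ I) := Fintype.ofFinite _
  have hs : ∀ q : 𝓞 K ⧸ I, ∃ e : ι K → ℤ, (∀ i, |e i| ≤ D) ∧ Ideal.Quotient.mk I (al K e) = q := by
    intro q
    obtain ⟨g, rfl⟩ := Ideal.Quotient.mk_surjective q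
    obtain ⟨e, he, h⟩ := hD g
    exact ⟨e, he, ((Ideal.Quotient.mk_eq_mk_iff_sub_mem _ _).2 h).symm⟩
  choose s hs1 hs2 using hs
  have h1 : (box K (B - D)).card ≤
      ((univ : Finset (𝓞 K ⧸ I)) ×ˢ ((box K B).filter fun a => al K a ∈ I)).card := by
    refine card_le_card_of_injOn (fun x => (Ideal.Quotient.mk I (al K x),
      x - s (Ideal.Quotient.mk I (al K x)))) ?_ ?_
    · intro x hx
      rw [mem_coe, mem_box] at hx
      rw [mem_coe, mem_product, mem_filter]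
      refine ⟨mem_univ _, ?_, ?_⟩
      · rw [mem_box]
        intro i
        have h2 := hx i
        have h3 := hs1 (Ideal.Quotient.mk I (al K x)) i
        simp only [Pi.sub_apply]
        refine (abs_sub _ _).trans ?_
        push_cast [hDB] at h2
        linarith
      · simp only
        rw [al_sub, ← Ideal.Quotient.mk_eq_mk_iff_sub_mem, hs2]
    · intro x _ y _ h
      simp only [Prod.mk.injEq] at h
      have h2 := h.2
      rw [h.1] at h2
      exact sub_left_injective h2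
  rw [card_product, card_box, card_univ] at h1
  rw [Ideal.absNorm_apply, Submodule.cardQuot_apply, Nat.card_eq_fintype_card]
  unfold cnt
  convert h1

end count

end Stoll308.Low
end

section
set_option autoImplicit false

/-!
Lower bound for the number of squarefree numbers composed of primes of a set.
-/

namespace Stoll308.AP

open Finset

lemma PP_mono {P : ℕ → Prop} {x y : ℕ} (h : x ≤ y) : PP P x ⊆ PP P y := by
  intro p hp
  rw [mem_PP] at hp ⊢
  exact ⟨hp.1.trans h, hp.2⟩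

lemma one_le_prod_one_add (s : Finset ℕ) : (1 : ℝ) ≤ ∏ p ∈ s, (1 + 1 / (p : ℝ)) := by
  have h0 := prod_le_prod (s := s) (f := fun _ => (1 : ℝ))
    (g := fun p : ℕ => 1 + 1 / (p : ℝ)) (fun _ _ => zero_le_one) fun p _ => by
      have : 0 ≤ 1 / (p : ℝ) := by positivity
      linarith
  rwa [prod_const_one] at h0

lemma V_mono (P : ℕ → Prop) {x y : ℕ} (h : x ≤ y) : V P x ≤ V P y := by
  classical
  unfold V
  rw [← prod_sdiff (PP_mono (P := P) h)]
  exact le_mul_of_one_le_left (prod_nonneg fun p _ => by positivity) (one_le_prod_one_add _)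

lemma V_pow (P : ℕ → Prop) (k : ℕ) (hk : 1 ≤ k) : ∃ C : ℝ, 0 < C ∧ ∀ z : ℕ, 2 ≤ z →
    V P (z ^ k) ≤ C * V P z := by
  classical
  obtain ⟨C, hC0, hC⟩ := Mert.one.loglog
  refine ⟨Real.exp (2 * C + Real.log k), Real.exp_pos _, fun z hz => ?_⟩
  have hzk : z ≤ z ^ k := Nat.le_self_pow (by omega) z
  unfold V
  rw [← prod_sdiff (PP_mono (P := P) hzk)]
  refine mul_le_mul_of_nonneg_right ?_ (prod_nonneg fun p _ => by positivity)
  have h1 : ∏ p ∈ PP P (z ^ k) \ PP P z, (1 + 1 / (p : ℝ)) ≤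
      Real.exp (∑ p ∈ PP P (z ^ k) \ PP P z, 1 / (p : ℝ)) := by
    rw [Real.exp_sum]
    refine prod_le_prod (fun p _ => by positivity) fun p _ => ?_
    have := Real.add_one_le_exp (1 / (p : ℝ))
    linarith
  refine h1.trans (Real.exp_le_exp.2 ?_)
  have hsub : (Icc 0 z).filter Nat.Prime ⊆ (Icc 0 (z ^ k)).filter Nat.Prime := by
    intro p hp
    rw [mem_filter, mem_Icc] at hp ⊢
    exact ⟨⟨hp.1.1, hp.1.2.trans hzk⟩, hp.2⟩
  have h2 : ∑ p ∈ PP P (z ^ k) \ PP P z, 1 / (p : ℝ) ≤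
      ∑ p ∈ (Icc 0 (z ^ k)).filter Nat.Prime \ (Icc 0 z).filter Nat.Prime, 1 / (p : ℝ) := by
    refine sum_le_sum_of_subset_of_nonneg ?_ fun p _ _ => by positivity
    intro p hp
    rw [mem_sdiff, mem_PP, mem_PP] at hp
    rw [mem_sdiff, mem_filter, mem_filter, mem_Icc, mem_Icc]
    refine ⟨⟨⟨Nat.zero_le _, hp.1.1⟩, hp.1.2.1⟩, fun h => hp.2 ⟨h.1.2, hp.1.2⟩⟩
  refine h2.trans ?_
  have h3 := sum_sdiff (f := fun p : ℕ => 1 / (p : ℝ)) hsub
  have h4 := (abs_le.1 (hC z hz)).1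
  have h5 := (abs_le.1 (hC (z ^ k) (hz.trans hzk))).2
  have hlz : 0 < Real.log z := log_nat_pos hz
  have hk' : (0 : ℝ) < k := by exact_mod_cast (by omega : 0 < k)
  have h6 : Real.log (Real.log ((z ^ k : ℕ) : ℝ)) = Real.log k + Real.log (Real.log z) := by
    rw [Nat.cast_pow, Real.log_pow, Real.log_mul hk'.ne' hlz.ne']
  rw [h6] at h5
  linarith

lemma V_restrict (P : ℕ → Prop) (C₂ : ℕ) : ∃ c : ℝ, 0 < c ∧ ∀ z : ℕ,
    c * V P z ≤ V (fun p => C₂ < p ∧ P p) z := by
  classical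
  refine ⟨(V P C₂)⁻¹, inv_pos.2 (V_pos P C₂), fun z => ?_⟩
  rw [inv_mul_le_iff₀ (V_pos P C₂)]
  have hsub : PP P z ⊆ PP P C₂ ∪ PP (fun p => C₂ < p ∧ P p) z := by
    intro p hp
    rw [mem_PP] at hp
    rw [mem_union, mem_PP, mem_PP]
    by_cases h : p ≤ C₂
    · exact Or.inl ⟨h, hp.2⟩
    · exact Or.inr ⟨hp.1, hp.2.1, not_le.1 h, hp.2.2⟩
  unfold V
  have hdisj : Disjoint (PP P C₂) (PP (fun p => C₂ < p ∧ P p) z) := by
    rw [disjoint_left]
    intro p h1 h2
    rw [mem_PP] at h1 h2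
    omega
  rw [← prod_union hdisj, ← prod_sdiff hsub]
  exact le_mul_of_one_le_left (prod_nonneg fun p _ => by positivity) (one_le_prod_one_add _)

/-- Many primes with the property `P` in short multiplicative intervals. -/
def Many (P : ℕ → Prop) : Prop :=
  open Classical in
  ∃ K : ℕ, 0 < K ∧ ∀ y : ℕ, K < y → (y : ℝ) / (K * Real.log y) ≤
    (((Ioc (y / K) y).filter (fun p => p.Prime ∧ P p)).card : ℝ)

/-- The finite sets of primes with the property `P`, all of them `> C₂`, of product at most `Y`. -/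
noncomputable def FS (P : ℕ → Prop) (C₂ Y : ℕ) : Finset (Finset ℕ) :=
  open Classical in
  (PP (fun p => C₂ < p ∧ P p) Y).powerset.filter (fun T => ∏ p ∈ T, p ≤ Y)

theorem card_FS_ge {P : ℕ → Prop} (hK : Many P) (C₂ : ℕ) :
    ∃ c : ℝ, 0 < c ∧ ∃ (k Y₀ : ℕ), 1 ≤ k ∧ ∀ Y : ℕ, Y₀ ≤ Y → ∃ z : ℕ, 3 ≤ z ∧ Y < z ^ k ∧
      c * Y / Real.log Y * V P z ≤ ((FS P C₂ Y).card : ℝ) := by
  classical
  obtain ⟨K₁, hK₁⟩ := rankin (fun p => C₂ < p ∧ P p)
  obtain ⟨K₂, hK₂0, hK₂⟩ := hK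
  obtain ⟨c₀, hc₀, hV⟩ := V_restrict P C₂
  have hK₂r : (0 : ℝ) < K₂ := by exact_mod_cast hK₂0
  set E := K₁ + 2 with hE
  have hEr : (0 : ℝ) < E := by positivity
  refine ⟨c₀ / (4 * K₂), by positivity, 2 * E, (K₂ + C₂ + 3) ^ E, by omega, fun X hX => ?_⟩
  obtain ⟨z, hzX, hXz⟩ := exists_root E X (by omega)
  have hZz : K₂ + C₂ + 3 ≤ z := by
    by_contra hlt
    have : (z + 1) ^ E ≤ (K₂ + C₂ + 3) ^ E := Nat.pow_le_pow_left (by omega) E
    omega
  have hz3 : 3 ≤ z := by omega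
  have hz1 : 1 ≤ z := by omega
  have hzX' : z ≤ X := (Nat.le_self_pow (by omega) z).trans hzX
  have hX0 : 0 < X := by omega
  have hXr : (0 : ℝ) < X := by exact_mod_cast hX0
  have hlX : 0 < Real.log X := log_nat_pos (by omega)
  have hz0r : (0 : ℝ) < z := by exact_mod_cast (by omega : 0 < z)
  refine ⟨z, hz3, ?_, ?_⟩
  · calc X < (z + 1) ^ E := hXz
      _ ≤ (z ^ 2) ^ E := Nat.pow_le_pow_left (by nlinarith) E
      _ = z ^ (2 * E) := by rw [← pow_mul]
  set P' : ℕ → Prop := fun p => C₂ < p ∧ P p with hP'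
  set MS := (PP P' z).powerset.filter (fun T => ∏ p ∈ T, p ≤ z ^ K₁) with hMdef
  set m : Finset ℕ → ℕ := fun T => ∏ r ∈ T, r with hm
  have hMsub : ∀ T ∈ MS, T ⊆ PP P' z := fun T hT => mem_powerset.1 (mem_filter.1 hT).1
  have hprT : ∀ T ∈ MS, ∀ r ∈ T, r.Prime := fun T hT r hr => (mem_PP.1 (hMsub T hT hr)).2.1
  have hm0 : ∀ T ∈ MS, 0 < m T := fun T hT => prod_pos fun r hr => (hprT T hT r hr).pos
  have hzK : ∀ T ∈ MS, z * K₂ ≤ X / m T := by
    intro T hT
    rw [Nat.le_div_iff_mul_le (hm0 T hT)]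
    calc z * K₂ * m T ≤ z * z * z ^ K₁ :=
          Nat.mul_le_mul (Nat.mul_le_mul_left _ (by omega)) (mem_filter.1 hT).2
      _ = z ^ E := by rw [hE]; ring
      _ ≤ X := hzX
  set R : Finset ℕ → Finset ℕ := fun T => (Ioc (X / m T / K₂) (X / m T)).filter
    (fun p : ℕ => p.Prime ∧ P p) with hR
  have hRz : ∀ T ∈ MS, ∀ p ∈ R T, z < p := by
    intro T hT p hp
    rw [hR, mem_filter, mem_Ioc] at hp
    have : z ≤ X / m T / K₂ := by
      rw [Nat.le_div_iff_mul_le hK₂0]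
      exact hzK T hT
    omega
  have hnotmem : ∀ T ∈ MS, ∀ p ∈ R T, p ∉ T := by
    intro T hT p hp hpT
    have h1 := hRz T hT p hp
    have h2 := (mem_PP.1 (hMsub T hT hpT)).1
    omega
  -- the count
  have hcard : ∑ T ∈ MS, (R T).card ≤ (FS P C₂ X).card := by
    rw [← card_sigma]
    refine card_le_card_of_injOn (fun x => insert x.2 x.1) ?_ ?_
    · rintro ⟨T, p⟩ hx
      rw [mem_coe, mem_sigma] at hx
      obtain ⟨hT, hp⟩ := hx
      simp only at hT hp ⊢
      have hpz := hRz T hT p hp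
      have hpn := hnotmem T hT p hp
      rw [hR, mem_filter, mem_Ioc] at hp
      unfold FS
      rw [mem_coe, mem_filter, mem_powerset]
      have hpX : p ≤ X := hp.1.2.trans (Nat.div_le_self _ _)
      refine ⟨?_, ?_⟩
      · intro q hq
        rw [mem_insert] at hq
        rcases hq with rfl | hq
        · rw [mem_PP]
          exact ⟨hpX, hp.2.1, by omega, hp.2.2⟩
        · exact PP_mono hzX' (hMsub T hT hq)
      · rw [prod_insert hpn, mul_comm]
        calc m T * p ≤ m T * (X / m T) := Nat.mul_le_mul_left _ hp.1.2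
          _ ≤ X := Nat.mul_div_le _ _
    · rintro ⟨T, p⟩ hx ⟨S, q⟩ hy heq
      rw [mem_coe, mem_sigma] at hx hy
      obtain ⟨hT, hp⟩ := hx
      obtain ⟨hS, hq⟩ := hy
      simp only at hT hp hS hq heq
      have hzp := hRz T hT p hp
      have hzq := hRz S hS q hq
      have hTz : ∀ r ∈ T, r ≤ z := fun r hr => (mem_PP.1 (hMsub T hT hr)).1
      have hSz : ∀ r ∈ S, r ≤ z := fun r hr => (mem_PP.1 (hMsub S hS hr)).1
      have hpq : p = q := by
        have : p ∈ insert q S := by rw [← heq]; exact mem_insert_self _ _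
        rcases mem_insert.1 this with h | h
        · exact h
        · have := hSz p h
          omega
      subst hpq
      have hTS : T = S := by
        rw [← erase_insert (hnotmem T hT p hp), heq, erase_insert (hnotmem S hS p hq)]
      subst hTS
      rfl
  have hlow : ∀ T ∈ MS, X / (2 * K₂ * Real.log X) * (1 / ((∏ p ∈ T, p : ℕ) : ℝ)) ≤
      ((R T).card : ℝ) := by
    intro T hT
    have hy : K₂ < X / m T := by
      have := hzK T hT
      have h2 : K₂ * 3 ≤ z * K₂ := by rw [mul_comm]; exact Nat.mul_le_mul_right _ hz3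
      omega
    have hcount := hK₂ (X / m T) hy
    refine le_trans ?_ hcount
    have hmT0 := hm0 T hT
    have hTr : (0 : ℝ) < ((∏ p ∈ T, p : ℕ) : ℝ) := by exact_mod_cast hmT0
    have hyr : (0 : ℝ) < ((X / m T : ℕ) : ℝ) := by exact_mod_cast (by omega : 0 < X / m T)
    have hly : 0 < Real.log ((X / m T : ℕ) : ℝ) := log_nat_pos (by omega)
    have hlyX : Real.log ((X / m T : ℕ) : ℝ) ≤ Real.log X :=
      Real.log_le_log hyr (by exact_mod_cast Nat.div_le_self X (m T))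
    have e1 : (X : ℝ) ≤ 2 * ((∏ p ∈ T, p : ℕ) : ℝ) * ((X / m T : ℕ) : ℝ) := by
      have f1 : X < m T * (X / m T + 1) := Nat.lt_mul_div_succ X hmT0
      have f2 : m T * (X / m T + 1) ≤ 2 * (∏ p ∈ T, p) * (X / m T) := by
        calc m T * (X / m T + 1) ≤ m T * (2 * (X / m T)) := Nat.mul_le_mul_left _ (by omega)
          _ = _ := by rw [hm]; ring
      exact_mod_cast (f1.le.trans f2)
    calc X / (2 * K₂ * Real.log X) * (1 / ((∏ p ∈ T, p : ℕ) : ℝ))
        = (X / (2 * ((∏ p ∈ T, p : ℕ) : ℝ))) / (K₂ * Real.log X) := by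
          field_simp
      _ ≤ ((X / m T : ℕ) : ℝ) / (K₂ * Real.log X) := by
          gcongr
          rw [div_le_iff₀ (by positivity)]
          linarith
      _ ≤ ((X / m T : ℕ) : ℝ) / (K₂ * Real.log ((X / m T : ℕ) : ℝ)) := by
          gcongr
  have hsum : X / (2 * K₂ * Real.log X) * (c₀ * V P z / 2) ≤ ∑ T ∈ MS, ((R T).card : ℝ) := by
    calc X / (2 * K₂ * Real.log X) * (c₀ * V P z / 2)
        ≤ X / (2 * K₂ * Real.log X) * ∑ T ∈ MS, 1 / ((∏ p ∈ T, p : ℕ) : ℝ) := by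
          gcongr
          have := hV z
          have h2 := hK₁ z hz3
          linarith
      _ = ∑ T ∈ MS, X / (2 * K₂ * Real.log X) * (1 / ((∏ p ∈ T, p : ℕ) : ℝ)) := by
          rw [mul_sum]
      _ ≤ _ := sum_le_sum hlow
  calc c₀ / (4 * K₂) * X / Real.log X * V P z
      = X / (2 * K₂ * Real.log X) * (c₀ * V P z / 2) := by
        field_simp
        ring
    _ ≤ ∑ T ∈ MS, ((R T).card : ℝ) := hsum
    _ = ((∑ T ∈ MS, (R T).card : ℕ) : ℝ) := by push_cast; rfl
    _ ≤ _ := by exact_mod_cast hcard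

/-- Lower bound for the number of squarefree numbers, composed of primes `> C₂` with the property
`P`. -/
theorem card_FS_ge' {P : ℕ → Prop} (hK : Many P) (C₂ M : ℕ) (hM : 0 < M) :
    ∃ c : ℝ, 0 < c ∧ ∃ X₀ : ℕ, ∀ X : ℕ, X₀ ≤ X →
      c * X / Real.log X * V P X ≤ ((FS P C₂ (X / M)).card : ℝ) := by
  obtain ⟨c, hc, k, Y₀, hk, h⟩ := card_FS_ge hK C₂
  obtain ⟨C, hC, hV⟩ := V_pow P (2 * k) (by omega)
  have hMr : (0 : ℝ) < M := by exact_mod_cast hM
  refine ⟨c / (2 * M * C), by positivity, M * (Y₀ + 2 * M + 2), fun X hX => ?_⟩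
  set Y := X / M with hY
  have hYge : Y₀ + 2 * M + 2 ≤ Y := by
    rw [hY, Nat.le_div_iff_mul_le hM, mul_comm]
    exact hX
  obtain ⟨z, hz3, hYz, hz⟩ := h Y (by omega)
  have hXY : X < M * (Y + 1) := Nat.lt_mul_div_succ X hM
  have hXY2 : X ≤ 2 * M * Y := by
    have : M * (Y + 1) ≤ M * (2 * Y) := Nat.mul_le_mul_left _ (by omega)
    calc X ≤ M * (2 * Y) := hXY.le.trans this
      _ = 2 * M * Y := by ring
  have hXY3 : X ≤ Y * Y := hXY2.trans (Nat.mul_le_mul_right _ (by omega))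
  have hXz : X ≤ z ^ (2 * k) := by
    calc X ≤ Y * Y := hXY3
      _ ≤ z ^ k * z ^ k := Nat.mul_le_mul hYz.le hYz.le
      _ = z ^ (2 * k) := by ring
  have hVX : V P X ≤ C * V P z := (V_mono P hXz).trans (hV z (by omega))
  have hYX : Y ≤ X := Nat.div_le_self _ _
  have hlY : 0 < Real.log Y := log_nat_pos (by omega)
  have hYr : (0 : ℝ) < Y := by exact_mod_cast (by omega : 0 < Y)
  have hlYX : Real.log Y ≤ Real.log X := Real.log_le_log hYr (by exact_mod_cast hYX)
  have hXY2' : (X : ℝ) ≤ 2 * M * Y := by exact_mod_cast hXY2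
  refine le_trans ?_ hz
  have hVz := V_pos P z
  have hVX0 := V_pos P X
  calc c / (2 * M * C) * X / Real.log X * V P X ≤
        c / (2 * M * C) * (2 * M * Y) / Real.log Y * (C * V P z) := by
        have h1 : c / (2 * M * C) * X / Real.log X ≤
            c / (2 * M * C) * (2 * M * Y) / Real.log Y := by
          refine div_le_div₀ (by positivity) ?_ hlY hlYX
          exact mul_le_mul_of_nonneg_left hXY2' (by positivity)
        exact mul_le_mul h1 hVX hVX0.le (by positivity)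
    _ = c * Y / Real.log Y * V P z := by
        field_simp

end Stoll308.AP
end

section
set_option autoImplicit false

/-!
Lower bound for the number of the locally soluble twists of `y² = f(x)`.
-/

namespace Stoll308.Gen

open Finset Polynomial Stoll308.AP

/-- One prime of the class. -/
theorem exists_corr (P : ℕ → Prop) (Q : ℕ) (hQ0 : 0 < Q)
    (hPQ : ∀ p, P p → Nat.Coprime p Q) :
    ∃ C₂ : ℕ, ∀ T : Finset ℕ, (∀ p ∈ T, C₂ < p ∧ P p) → ∃ S : Finset ℕ,
      (∀ p ∈ S, p ≤ C₂ ∧ P p) ∧ ∃ a : ℕ, Nat.Coprime a Q ∧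
        (∏ p ∈ T, p) * (∏ p ∈ S, p) ≡ a ^ 2 [MOD Q] := by
  classical
  have : NeZero Q := ⟨hQ0.ne'⟩
  have hch : ∀ c : ZMod Q, ∃ w : ℕ, (∃ p, P p ∧ (p : ZMod Q) = c) → P w ∧ (w : ZMod Q) = c := by
    intro c
    by_cases h : ∃ p, P p ∧ (p : ZMod Q) = c
    · obtain ⟨p, hp⟩ := h
      exact ⟨p, fun _ => hp⟩
    · exact ⟨0, fun h' => absurd h' h⟩
  choose w hw using hch
  refine ⟨univ.sup w, fun T hT => ?_⟩
  have key : ∃ A : Finset (ZMod Q), (∀ c ∈ A, ∃ p, P p ∧ (p : ZMod Q) = c) ∧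
      ∃ a : ℕ, Nat.Coprime a Q ∧ (∏ p ∈ T, p) * (∏ c ∈ A, w c) ≡ a ^ 2 [MOD Q] := by
    induction T using Finset.induction_on with
    | empty =>
      refine ⟨∅, by simp, 1, Nat.coprime_one_left Q, ?_⟩
      simp only [prod_empty]
      rfl
    | insert p s hp ih =>
      obtain ⟨A, hA, a, ha, haT⟩ := ih fun q hq => hT q (mem_insert_of_mem hq)
      have hpp := (hT p (mem_insert_self _ _)).2
      set c : ZMod Q := (p : ZMod Q) with hc
      have hwc := hw c ⟨p, hpp, rfl⟩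
      have hpw : p ≡ w c [MOD Q] := by
        rw [← ZMod.natCast_eq_natCast_iff, hwc.2]
      rw [prod_insert hp]
      by_cases hcA : c ∈ A
      · refine ⟨A.erase c, fun d hd => hA d (mem_erase.1 hd).2, a, ha, ?_⟩
        have e1 : (∏ c ∈ A, w c) = w c * ∏ d ∈ A.erase c, w d :=
          (mul_prod_erase A w hcA).symm
        rw [e1] at haT
        calc p * (∏ q ∈ s, q) * (∏ d ∈ A.erase c, w d) ≡
              w c * (∏ q ∈ s, q) * (∏ d ∈ A.erase c, w d) [MOD Q] :=
              (hpw.mul_right _).mul_right _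
          _ = (∏ q ∈ s, q) * (w c * ∏ d ∈ A.erase c, w d) := by ring
          _ ≡ a ^ 2 [MOD Q] := haT
      · refine ⟨insert c A, ?_, a * w c, Nat.Coprime.mul_left ha (hPQ _ hwc.1), ?_⟩
        · intro d hd
          rcases mem_insert.1 hd with rfl | hd
          · exact ⟨p, hpp, rfl⟩
          · exact hA d hd
        · rw [prod_insert hcA]
          calc p * (∏ q ∈ s, q) * (w c * ∏ d ∈ A, w d) ≡
                w c * (∏ q ∈ s, q) * (w c * ∏ d ∈ A, w d) [MOD Q] :=
                (hpw.mul_right _).mul_right _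
            _ = ((∏ q ∈ s, q) * ∏ d ∈ A, w d) * w c ^ 2 := by ring
            _ ≡ a ^ 2 * w c ^ 2 [MOD Q] := haT.mul_right _
            _ = (a * w c) ^ 2 := by ring
  obtain ⟨A, hA, a, ha, haT⟩ := key
  refine ⟨A.image w, ?_, a, ha, ?_⟩
  · intro p hp
    obtain ⟨c, hc, rfl⟩ := mem_image.1 hp
    exact ⟨le_sup (mem_univ c), (hw c (hA c hc)).1⟩
  · rw [prod_image]
    · exact haT
    · intro c hc d hd hcd
      rw [← (hw c (hA c hc)).2, ← (hw d (hA d hd)).2, hcd]

open Classical in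
/-- Lower bound for the number of the locally soluble twists, if `f` has a root modulo many
primes. -/
theorem els_lower_nat_of (f : ℤ[X]) (hf : f.Monic) (hsep : (f.map (Int.castRingHom ℚ)).Separable)
    (hev : Even f.natDegree) (h2 : 2 ≤ f.natDegree) (hK : Many fun p => (R f p).Nonempty) :
    ∃ c : ℝ, 0 < c ∧ ∃ X₀ : ℕ, ∀ X : ℕ, X₀ ≤ X →
      c * X / Real.log X * ∏ p ∈ rootPrimes f X, (1 + 1 / (p : ℝ)) ≤
        (((Icc (-(X : ℤ)) X).filter (fun t => Squarefree t ∧ ELS f t)).card : ℝ) := by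
  obtain ⟨t₀, Q, C₁, ht₀, ht₀sq, hQ, ht₀C, hQC, hels⟩ := els_local f hf hsep hev h2
  set P : ℕ → Prop := fun p => p.Prime ∧ C₁ < p ∧ (R f p).Nonempty with hPdef
  obtain ⟨C₂, hC₂⟩ := exists_corr P Q hQ (fun p hp => by
    refine (Nat.Prime.coprime_iff_not_dvd hp.1).2 fun hd => ?_
    have := Nat.le_of_dvd hQ hd
    have := hp.2.1
    omega)
  choose! S hS using hC₂
  set C₃ : ℕ := max C₁ C₂ with hC₃
  set W₀ : ℕ := ∏ p ∈ (Icc 1 C₂).filter Nat.Prime, p with hW₀
  have hW₀pos : 0 < W₀ := prod_pos fun p hp => (mem_filter.1 hp).2.pos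
  obtain ⟨c, hc, X₀, h⟩ := card_FS_ge' (P := fun p => (R f p).Nonempty) hK C₃ (t₀ * W₀)
    (Nat.mul_pos ht₀ hW₀pos)
  refine ⟨c, hc, X₀, fun X hX => ?_⟩
  have hV : ∏ p ∈ rootPrimes f X, (1 + 1 / (p : ℝ)) = V (fun p => (R f p).Nonempty) X := by
    unfold V
    refine prod_congr ?_ fun _ _ => rfl
    ext p
    rw [mem_PP]
    unfold rootPrimes
    rw [mem_filter, mem_Icc]
    exact ⟨fun h => ⟨h.1.2, h.2⟩, fun h => ⟨⟨h.2.1.one_lt.le, h.1⟩, h.2⟩⟩
  rw [hV]
  refine (h X hX).trans ?_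
  have hFS : ∀ T ∈ FS (fun p => (R f p).Nonempty) C₃ (X / (t₀ * W₀)),
      (∀ p ∈ T, C₃ < p ∧ p.Prime ∧ (R f p).Nonempty) ∧ ∏ p ∈ T, p ≤ X / (t₀ * W₀) := by
    intro T hT
    unfold FS at hT
    rw [mem_filter, mem_powerset] at hT
    refine ⟨fun p hp => ?_, hT.2⟩
    have := mem_PP.1 (hT.1 hp)
    exact ⟨this.2.2.1, this.2.1, this.2.2.2⟩
  have hFS2 : ∀ T ∈ FS (fun p => (R f p).Nonempty) C₃ (X / (t₀ * W₀)),
      ∀ p ∈ T, C₂ < p ∧ P p := by
    intro T hT p hp
    obtain ⟨h1, h2, h3⟩ := (hFS T hT).1 p hp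
    exact ⟨lt_of_le_of_lt (le_max_right _ _) h1, h2, lt_of_le_of_lt (le_max_left _ _) h1, h3⟩
  have hdisj : ∀ T ∈ FS (fun p => (R f p).Nonempty) C₃ (X / (t₀ * W₀)), Disjoint T (S T) := by
    intro T hT
    rw [disjoint_left]
    intro p h1 h2
    have h3 := (hFS2 T hT p h1).1
    have h4 := ((hS T (hFS2 T hT)).1 p h2).1
    omega
  have hprimeU : ∀ T ∈ FS (fun p => (R f p).Nonempty) C₃ (X / (t₀ * W₀)),
      ∀ p ∈ T ∪ S T, P p := by
    intro T hT p hp
    rcases mem_union.1 hp with h | h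
    · exact (hFS2 T hT p h).2
    · exact ((hS T (hFS2 T hT)).1 p h).2
  have hsqU : ∀ T ∈ FS (fun p => (R f p).Nonempty) C₃ (X / (t₀ * W₀)),
      Squarefree (∏ p ∈ T ∪ S T, p) := by
    intro T hT
    have : ∀ U : Finset ℕ, (∀ p ∈ U, p.Prime) → Squarefree (∏ p ∈ U, p) := by
      intro U
      induction U using Finset.induction_on with
      | empty => simp
      | insert a s ha ih =>
        intro hU
        rw [prod_insert ha, Nat.squarefree_mul]
        · exact ⟨(hU a (mem_insert_self _ _)).prime.squarefree,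
            ih fun p hp => hU p (mem_insert_of_mem hp)⟩
        · refine Nat.Coprime.prod_right fun p hp => ?_
          refine (Nat.coprime_primes (hU a (mem_insert_self _ _)) (hU p (mem_insert_of_mem hp))).2 ?_
          rintro rfl
          exact ha hp
    exact this _ fun p hp => (hprimeU T hT p hp).1
  have hpf : ∀ T ∈ FS (fun p => (R f p).Nonempty) C₃ (X / (t₀ * W₀)),
      (∏ p ∈ T ∪ S T, p).primeFactors = T ∪ S T := fun T hT =>
    Nat.primeFactors_prod fun p hp => (hprimeU T hT p hp).1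
  have hcop : ∀ T ∈ FS (fun p => (R f p).Nonempty) C₃ (X / (t₀ * W₀)),
      Nat.Coprime t₀ (∏ p ∈ T ∪ S T, p) := by
    intro T hT
    refine Nat.Coprime.prod_right fun p hp => ?_
    have h1 := hprimeU T hT p hp
    rw [Nat.coprime_comm]
    refine (Nat.Prime.coprime_iff_not_dvd h1.1).2 fun hd => ?_
    have := Nat.le_of_dvd ht₀ hd
    have := h1.2.1
    omega
  have hcard : (FS (fun p => (R f p).Nonempty) C₃ (X / (t₀ * W₀))).card ≤
      ((Icc (-(X : ℤ)) X).filter (fun t => Squarefree t ∧ ELS f t)).card := by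
    refine card_le_card_of_injOn (fun T => ((t₀ * ∏ p ∈ T ∪ S T, p : ℕ) : ℤ)) ?_ ?_
    · intro T hT
      have hT' := mem_coe.1 hT
      rw [mem_coe, mem_filter, mem_Icc]
      refine ⟨?_, ?_, ?_⟩
      · have h1 : t₀ * ∏ p ∈ T ∪ S T, p ≤ X := by
          rw [prod_union (hdisj T hT')]
          have h2 : ∏ p ∈ S T, p ≤ W₀ := by
            rw [hW₀]
            refine prod_le_prod_of_subset_of_one_le' ?_ fun p hp _ => (mem_filter.1 hp).2.one_lt.le
            intro p hp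
            have := (hS T (hFS2 T hT')).1 p hp
            rw [mem_filter, mem_Icc]
            exact ⟨⟨this.2.1.one_lt.le, this.1⟩, this.2.1⟩
          calc t₀ * ((∏ p ∈ T, p) * ∏ p ∈ S T, p) ≤ t₀ * ((X / (t₀ * W₀)) * W₀) :=
                Nat.mul_le_mul_left _ (Nat.mul_le_mul (hFS T hT').2 h2)
            _ = (t₀ * W₀) * (X / (t₀ * W₀)) := by ring
            _ ≤ X := Nat.mul_div_le _ _
        simp only
        constructor
        · have : (0 : ℤ) ≤ ((t₀ * ∏ p ∈ T ∪ S T, p : ℕ) : ℤ) := Int.natCast_nonneg _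
          have : (0 : ℤ) ≤ X := Int.natCast_nonneg _
          linarith
        · exact Nat.cast_le.2 h1
      · rw [Int.squarefree_natCast, Nat.squarefree_mul (hcop T hT')]
        exact ⟨ht₀sq, hsqU T hT'⟩
      · refine hels _ ?_ (hsqU T hT') ?_
        · intro p hp hd
          have : p ∈ T ∪ S T := by
            rw [← hpf T hT']
            exact Nat.mem_primeFactors.2 ⟨hp, hd, (hsqU T hT').ne_zero⟩
          exact (hprimeU T hT' p this).2
        · obtain ⟨_, a, ha, haT⟩ := hS T (hFS2 T hT')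
          refine ⟨a, ha, ?_⟩
          rw [prod_union (hdisj T hT')]
          exact haT
    · intro T hT T' hT' htt
      have hT1 := mem_coe.1 hT
      have hT1' := mem_coe.1 hT'
      simp only at htt
      have h1 : t₀ * ∏ p ∈ T ∪ S T, p = t₀ * ∏ p ∈ T' ∪ S T', p := by exact_mod_cast htt
      have h2 := Nat.eq_of_mul_eq_mul_left ht₀ h1
      have h3 : T ∪ S T = T' ∪ S T' := by
        rw [← hpf T hT1, ← hpf T' hT1', h2]
      have h4 : ∀ T ∈ FS (fun p => (R f p).Nonempty) C₃ (X / (t₀ * W₀)),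
          (T ∪ S T).filter (fun p => C₂ < p) = T := by
        intro T hT
        ext p
        rw [mem_filter, mem_union]
        constructor
        · rintro ⟨h | h, h'⟩
          · exact h
          · have := ((hS T (hFS2 T hT)).1 p h).1
            omega
        · intro h
          exact ⟨Or.inl h, (hFS2 T hT p h).1⟩
      rw [← h4 T hT1, ← h4 T' hT1', h3]
  exact_mod_cast hcard

/-- The hypothesis with the usual decidability instances. -/
theorem many_of (f : ℤ[X]) (hK : ∃ K : ℕ, 0 < K ∧ ∀ y : ℕ, K < y → (y : ℝ) / (K * Real.log y) ≤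
    (((Ioc (y / K) y).filter (fun p => p.Prime ∧ (R f p).Nonempty)).card : ℝ)) :
    Many fun p => (R f p).Nonempty := by
  obtain ⟨K, hK0, h⟩ := hK
  refine ⟨K, hK0, fun y hy => ?_⟩
  convert h y hy

end Stoll308.Gen
end

section
set_option autoImplicit false

/-!
Primes with a root of `f` in `(y/M, y]`, and the lower bound for the number of everywhere locally
soluble twists.
-/

namespace Stoll308.Low

open Finset NumberField Module Polynomial

section field

variable (K : Type*) [Field K] [NumberField K]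

theorem cov' : ∃ C₃ : ℕ, 1 ≤ C₃ ∧ ∀ (I : Ideal (𝓞 K)), I ≠ ⊥ → ∀ m : ℕ,
      Ideal.absNorm I ≤ m ^ dg K → Cov I (C₃ * m) := by
  obtain ⟨C, hC, h⟩ := cover K
  refine ⟨⌈C⌉₊, Nat.ceil_pos.2 (by linarith), fun I hI m hm g => ?_⟩
  obtain ⟨e, he, hmem⟩ := h I hI g
  refine ⟨e, fun i => ?_, hmem⟩
  have h1 := he i
  have hn : (1 : ℝ) ≤ dg K := by exact_mod_cast dg_pos K
  have h2 : (Ideal.absNorm I : ℝ) ^ (1 / (dg K : ℝ)) ≤ m := by
    have h3 : (Ideal.absNorm I : ℝ) ≤ (m : ℝ) ^ dg K := by exact_mod_cast hm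
    calc (Ideal.absNorm I : ℝ) ^ (1 / (dg K : ℝ)) ≤ ((m : ℝ) ^ dg K) ^ (1 / (dg K : ℝ)) :=
          Real.rpow_le_rpow (Nat.cast_nonneg _) h3 (by positivity)
      _ = m := by
        rw [← Real.rpow_natCast, ← Real.rpow_mul (Nat.cast_nonneg _),
          mul_one_div_cancel (by linarith), Real.rpow_one]
  have h4 : |(e i : ℝ)| ≤ (⌈C⌉₊ : ℝ) * m := by
    refine h1.trans ?_
    exact mul_le_mul (Nat.le_ceil C) h2 (by positivity) (Nat.cast_nonneg _)
  have h5 : ((|e i| : ℤ) : ℝ) ≤ (((⌈C⌉₊ * m : ℕ) : ℤ) : ℝ) := by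
    push_cast
    exact h4
  exact_mod_cast h5

/-- The primes of degree one in `(X/M, X]`. -/
theorem primes_lower : ∃ M : ℕ, 1 ≤ M ∧ ∃ X₀ : ℕ, ∀ X : ℕ, X₀ ≤ X →
      (X : ℝ) / (M * Real.log X) ≤
        (((Ioc (X / M) X).filter (fun p => p.Prime ∧ Cheb.aK K p ≠ 0)).card : ℝ) := by
  apply primes_of_counts (Na_le K) (sum_log_ge K) (cnt0_le K) (cov' K)
  · intro I D B hI hD
    exact cnt_le K hI D B hD
  · intro I D B hI hD hDB
    exact cnt_ge K hI D B hD hDB

end field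

end Stoll308.Low

namespace Stoll308.Gen

open Finset NumberField Module Polynomial AP

/-- There are many primes modulo which `f` has a root. -/
theorem many_root (f : ℤ[X]) (hf : f.Monic) (hsep : (f.map (Int.castRingHom ℚ)).Separable)
    (h1 : 1 ≤ f.natDegree) : Many fun p => (R f p).Nonempty := by
  classical
  obtain ⟨L, _, _, _, s, hs, hcard⟩ := Cheb.exists_factor f hf hsep
  obtain ⟨θ, hθs⟩ : s.Nonempty := card_pos.1 (by omega)
  have hθ : (f.map (Int.castRingHom (𝓞 L))).eval θ = 0 := by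
    rw [hs, eval_prod]
    apply prod_eq_zero (mem_univ (⟨θ, hθs⟩ : s))
    simp
  have hroot : ∀ p : ℕ, p.Prime → Cheb.aK L p ≠ 0 → (R f p).Nonempty := by
    intro p hp ha
    haveI : Fact p.Prime := ⟨hp⟩
    rw [Cheb.aK_eq_homs] at ha
    obtain ⟨⟨φ⟩, -⟩ := Nat.card_ne_zero.1 ha
    have h2 : (f.map (Int.castRingHom (ZMod p))).eval (φ θ) = 0 := by
      have h3 := congrArg φ hθ
      rw [map_zero, ← eval_map_apply, map_cast_map] at h3
      exact h3
    refine ⟨(φ θ).val, ?_⟩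
    rw [mem_R]
    refine ⟨ZMod.val_lt _, ?_⟩
    rw [ZMod.natCast_zmod_val]
    exact h2
  obtain ⟨M, hM1, X₀, hX₀⟩ := Low.primes_lower L
  refine many_of f ⟨max (max M X₀) 2, by positivity, fun y hy => ?_⟩
  have hyM : M < y := lt_of_le_of_lt (le_trans (le_max_left _ _) (le_max_left _ _)) hy
  have hyX : X₀ ≤ y := (lt_of_le_of_lt (le_trans (le_max_right _ _) (le_max_left _ _)) hy).le
  have hy2 : 2 < y := lt_of_le_of_lt (le_max_right _ _) hy
  have hlog : 0 < Real.log y := Real.log_pos (by exact_mod_cast (by omega : 1 < y))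
  have hMR : (0 : ℝ) < M := by exact_mod_cast hM1
  have hMM : (M : ℝ) ≤ ((max (max M X₀) 2 : ℕ) : ℝ) := by
    exact_mod_cast le_trans (le_max_left _ _) (le_max_left _ _)
  calc (y : ℝ) / (((max (max M X₀) 2 : ℕ) : ℝ) * Real.log y) ≤ y / (M * Real.log y) := by
        apply div_le_div_of_nonneg_left (Nat.cast_nonneg _) (by positivity)
        exact mul_le_mul_of_nonneg_right hMM hlog.le
    _ ≤ _ := hX₀ y hyX
    _ ≤ _ := by
        apply Nat.cast_le.2
        apply card_le_card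
        intro p hp
        rw [mem_filter, mem_Ioc] at hp ⊢
        refine ⟨⟨?_, hp.1.2⟩, hp.2.1, hroot p hp.2.1 hp.2.2⟩
        refine lt_of_le_of_lt ?_ hp.1.1
        exact Nat.div_le_div_left (le_trans (le_max_left _ _) (le_max_left _ _)) (by omega)

open Classical in
/-- **Lower bound for the number of the everywhere locally soluble twists.** -/
theorem els_lower_nat (f : ℤ[X]) (hf : f.Monic) (hsep : (f.map (Int.castRingHom ℚ)).Separable)
    (hev : Even f.natDegree) (h2 : 2 ≤ f.natDegree) :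
    ∃ c : ℝ, 0 < c ∧ ∃ X₀ : ℕ, ∀ X : ℕ, X₀ ≤ X →
      c * X / Real.log X * ∏ p ∈ rootPrimes f X, (1 + 1 / (p : ℝ)) ≤
        (((Icc (-(X : ℤ)) X).filter (fun t => Squarefree t ∧ ELS f t)).card : ℝ) :=
  els_lower_nat_of f hf hsep hev h2 (many_root f hf hsep (by omega))

end Stoll308.Gen
end

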