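import Pool.Agent.Work.BCM.C39
import Pool.Agent.Work.BCM.C40

section
set_option autoImplicit false

/-!
Quadratic twists of `y² = f₁(x) ⋯ f_k(x)`: the conditions attached to the labels (definitions).
-/

namespace Stoll308.TW

open Finset Polynomial Stoll308.Gen NumberTheorySymbols

variable {k : ℕ}

/-- The product of the components. -/
noncomputable abbrev FF (f : Fin k → ℤ[X]) : ℤ[X] := ∏ i, f i

/-- The bound `C₀` is good for the components `f`. -/
structure GB (f : Fin k → ℤ[X]) (C₀ : ℕ) : Prop where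
  monic : ∀ i, (f i).Monic
  irr : ∀ i, Irreducible (f i)
  deg : ∀ i, 2 ≤ (f i).natDegree
  even : Even (∑ i, (f i).natDegree)
  six : 6 ≤ ∑ i, (f i).natDegree
  two : 2 ≤ C₀
  big : (2 * ∑ i, (f i).natDegree + 2) ^ 2 ≤ C₀
  sep : ∀ p : ℕ, p.Prime → C₀ < p → (fp (FF f) p).Separable
  res : ∀ i, resConst (f i) ≤ C₀

/-- The labels `r` of the primes `> C₀` dividing `t`, for a local point of the twist by `t` with the
class `δ` at all primes. -/
structure LabD (f : Fin k → ℤ[X]) (C₀ : ℕ) (t : ℤ) (δ : ℚ[X]) (r : ℕ → Lab k) : Prop where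
  supp : ∀ p, r p ≠ .o ↔ p ∈ bigPrimes C₀ t
  lab : ∀ p ∈ bigPrimes C₀ t, ∃ j, r p = .r j (r p).rt ∧ (r p).rt ∈ R (f j) p
  rel : ∀ (p : ℕ) [Fact p.Prime], p ∈ bigPrimes C₀ t → ∀ j, r p = .r j (r p).rt →
    ∃ α : ℤ_[p], Lift (f j) p (r p).rt α ∧ ∀ β : ℤ_[p], (fz (FF f) p).eval β = 0 → β ≠ α →
      (dq δ p).eval (α : ℚ_[p]) ≠ 0 ∧ (dq δ p).eval (β : ℚ_[p]) ≠ 0 ∧
      IsSquare ((dq δ p).eval (β : ℚ_[p]) * (dq δ p).eval (α : ℚ_[p]) * t *
        ((((derivative (fz (FF f) p)).eval α * (α - β) : ℤ_[p]) : ℚ_[p])))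
  unit : ∀ (p : ℕ) [Fact p.Prime], C₀ < p → ∃ e : ℤ, ∀ i,
    (r p ≠ .r i (r p).rt → ∃ w : AdjoinRoot (fq (f i) p),
      UU (f i) p (mkq (f i) p (C ((p : ℚ_[p]) ^ e)) * mkq (f i) p (dq δ p) * w ^ 2)) ∧
    (r p = .r i (r p).rt → ∃ α : ℤ_[p], Lift (f i) p (r p).rt α ∧
      ∀ (q : ℤ_[p][X]) (κ : ℤ_[p]), q.Monic → fz (f i) p = (X - C α) * q → κ * q.eval α = 1 →
        ∃ w : AdjoinRoot (fq (f i) p), ∃ u, UU (f i) p u ∧
          mkq (f i) p (C ((p : ℚ_[p]) ^ e)) * mkq (f i) p (dq δ p) * w ^ 2 =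
            PP (f i) q κ (p : ℚ_[p]) * u)

/-- The known part of the relation at `p` between the roots `α` of `f j` and `β` of `f i`. -/
noncomputable def ZR (f : Fin k → ℤ[X]) (ε : Fin k → ℚ[X]) (s : ℤ) (T : Fin k → Finset ℕ)
    (ρ : ℕ → ℕ) (p : ℕ) [Fact p.Prime] (i j : Fin k) (α β : ℤ_[p]) : ℚ_[p] :=
  (dq (ε i) p).eval (β : ℚ_[p]) * (dq (ε j) p).eval (α : ℚ_[p]) *
    (dq (tq (f i) (T i) ρ) p).eval (β : ℚ_[p]) * (dq (tq (f j) (T j) ρ) p).eval (α : ℚ_[p]) * s *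
    ((∏ b, ∏ q ∈ T b, q : ℕ) : ℚ_[p]) *
    (((derivative (fz (FF f) p)).eval α * (α - β) : ℤ_[p]) : ℚ_[p])

open Classical in
/-- The sign of the relation. -/
noncomputable def cR (f : Fin k → ℤ[X]) (ε : Fin k → ℚ[X]) (s : ℤ) (T : Fin k → Finset ℕ)
    (ρ : ℕ → ℕ) (p : ℕ) (i j : Fin k) (a : ℕ) : ℤ :=
  if ∃ (_ : Fact p.Prime) (α β : ℤ_[p]), Lift (f j) p (ρ p) α ∧ Lift (f i) p a β ∧
    IsSquare (ZR f ε s T ρ p i j α β) then 1 else -1

/-- The roots modulo `p` of the components in `A`. -/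
def RA (f : Fin k → ℤ[X]) (A : Finset (Fin k)) (p : ℕ) : Finset ℕ := A.biUnion fun i => R (f i) p

open Classical in
/-- The roots modulo `p` used for the conditions at `p` for the active components `A`: all the roots
of the components in `A` except the label; one more is left out if the components in `A` split
completely, have an even number of roots, and the others have no root. -/
noncomputable def JJ (f : Fin k → ℤ[X]) (A : Finset (Fin k)) (p : ℕ) : Lab k → Finset ℕ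
  | .o => ∅
  | .u => ∅
  | .r _ ρ =>
    if RA f Aᶜ p = ∅ ∧ (RA f A p).card = ∑ i ∈ A, (f i).natDegree ∧
        Even (∑ i ∈ A, (f i).natDegree) then
      ((RA f A p).erase ρ).erase (((RA f A p).erase ρ).sup id)
    else (RA f A p).erase ρ

/-- The value at `a` of the component of `g` with the root `a`. -/
def EV (f : Fin k → ℤ[X]) (A : Finset (Fin k)) (p a : ℕ)
    (g : (i : Fin k) → Fin (f i).natDegree → ℤ) : ℤ :=
  ∏ i ∈ A, if a ∈ R (f i) p then ev (g i) (a : ℤ) else 1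

open Classical in
/-- The characters of the conditions. -/
noncomputable def ψψ (f : Fin k → ℤ[X]) (A : Finset (Fin k)) (p : ℕ) : Lab k → ℕ →
    ((i : Fin k) → Fin (f i).natDegree → ℤ) → ℝ
  | .o, _, _ => 1
  | .u, _, _ => 1
  | .r j ρ, a, g =>
    if RA f Aᶜ p = ∅ then
      ((J(EV f A p a g * (if j ∈ A then ev (g j) (ρ : ℤ) else 1) *
        ∏ b ∈ A, Nm (f b) (g b) | p) : ℤ) : ℝ)
    else ((J(EV f A p a g | p) : ℤ) : ℝ)

open Classical in
/-- The primes with a label of the component `i`. -/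
noncomputable def TT (r : ℕ → Lab k) (i : Fin k) : Finset ℕ :=
  if h : {p : ℕ | r p = .r i (r p).rt}.Finite then h.toFinset else ∅

open Classical in
/-- The sign of the relation for the label function `r`. -/
noncomputable def craw (f : Fin k → ℤ[X]) (ε : Fin k → ℚ[X]) (s : ℤ) (r : ℕ → Lab k)
    (p a : ℕ) : ℝ :=
  ∏ i, ∏ j, if a ∈ R (f i) p ∧ r p = .r j (r p).rt then
    ((cR f ε s (TT r) (rts r) p i j a : ℤ) : ℝ) else 1

open Classical in
/-- The coefficients of the conditions. -/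
noncomputable def cfA (f : Fin k → ℤ[X]) (ε : Fin k → ℚ[X]) (s : ℤ) (r : ℕ → Lab k)
    (κ : Fin k → ℤ) (A : Finset (Fin k)) (p a : ℕ) : ℝ :=
  if RA f Aᶜ p = ∅ then craw f ε s r p a * ∏ b ∈ A, ((J(κ b | p) : ℤ) : ℝ)
  else craw f ε s r p a * craw f ε s r p ((RA f Aᶜ p).sup id) *
    ((J(∏ i ∈ Aᶜ, (if (RA f Aᶜ p).sup id ∈ R (f i) p then
      ev (thue (f i) ∅ fun _ => 0) (((RA f Aᶜ p).sup id : ℕ) : ℤ) else 1) | p) : ℤ) : ℝ)

/-- The weight of a prime at which the conditions for the active components `A` are imposed. -/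
noncomputable def wA (f : Fin k → ℤ[X]) (A : Finset (Fin k)) (p : ℕ) : ℝ :=
  ∑ ℓ ∈ Lbl false (fun i p => R (f i) p) A p, (1 / 2 : ℝ) ^ (JJ f A p ℓ).card

end Stoll308.TW
end

section
set_option autoImplicit false

/-!
The sizes of the parts of the outer label functions.
-/

namespace Stoll308.TW

open Finset Stoll308.Gen

variable {k : ℕ}

private lemma mask_r {A : Finset (Fin k)} {Z : Fin k → ℝ} {r : ℕ → Lab k} {p : ℕ} {i : Fin k}
    {a : ℕ} (h : r p = .r i a) :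
    (i ∈ A ∧ Z i < (p : ℝ) → mask A Z r p = .o) ∧
      (¬ (i ∈ A ∧ Z i < (p : ℝ)) → mask A Z r p = .r i a) := by
  unfold mask
  rw [h]
  constructor
  · intro h'
    exact if_pos h'
  · intro h'
    exact if_neg h'

private lemma mask_o {A : Finset (Fin k)} {Z : Fin k → ℝ} {r : ℕ → Lab k} {p : ℕ}
    (h : r p = .o) : mask A Z r p = .o := by
  unfold mask
  rw [h]

private lemma mask_u {A : Finset (Fin k)} {Z : Fin k → ℝ} {r : ℕ → Lab k} {p : ℕ}
    (h : r p = .u) : mask A Z r p = .u := by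
  unfold mask
  rw [h]

private lemma mem_cut {Z : Fin k → ℝ} {i : Fin k} {S : Finset ℕ} {r : ℕ → Lab k} {p : ℕ} :
    p ∈ cut Z i S r ↔ p ∈ S ∧ (∃ a, r p = .r i a) ∧ Z i < (p : ℝ) := by
  unfold cut cpt
  rw [mem_filter, mem_filter]
  constructor
  · rintro ⟨⟨h1, h2⟩, h3⟩
    exact ⟨h1, ⟨_, h2⟩, h3⟩
  · rintro ⟨h1, ⟨a, h2⟩, h3⟩
    refine ⟨⟨h1, ?_⟩, h3⟩
    rw [h2]
    rfl

private lemma mask_empty (Z : Fin k → ℝ) (r : ℕ → Lab k) : mask ∅ Z r = r := by
  funext p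
  cases h : r p with
  | o => rw [mask_o h]
  | u => rw [mask_u h]
  | r i a => rw [(mask_r h).2 (fun h' => notMem_empty _ h'.1)]

/-- The support of `mask A` splits into the support of `mask B` and the large primes of the
components of `B \ A`. -/
private lemma prod_mask {A B : Finset (Fin k)} (hAB : A ⊆ B) (Z : Fin k → ℝ) (S : Finset ℕ)
    (r : ℕ → Lab k) (w : ℕ → ℝ) :
    ∏ p ∈ spt S (mask A Z r), w p =
      (∏ p ∈ spt S (mask B Z r), w p) * ∏ i ∈ B \ A, ∏ p ∈ cut Z i S r, w p := by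
  classical
  rw [← prod_biUnion, ← prod_union]
  · refine prod_congr ?_ fun _ _ => rfl
    ext p
    unfold spt
    rw [mem_union, mem_filter, mem_filter, mem_biUnion]
    constructor
    · rintro ⟨h1, h2⟩
      cases h : r p with
      | o => exact absurd (mask_o h) h2
      | u =>
        left
        refine ⟨h1, ?_⟩
        rw [mask_u h]
        exact nofun
      | r i a =>
        by_cases hi : i ∈ B ∧ Z i < (p : ℝ)
        · right
          refine ⟨i, ?_, mem_cut.2 ⟨h1, ⟨a, h⟩, hi.2⟩⟩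
          rw [mem_sdiff]
          exact ⟨hi.1, fun hA => h2 ((mask_r h).1 ⟨hA, hi.2⟩)⟩
        · left
          refine ⟨h1, ?_⟩
          rw [(mask_r h).2 hi]
          exact nofun
    · rintro (⟨h1, h2⟩ | ⟨i, hi, hp⟩)
      · refine ⟨h1, ?_⟩
        cases h : r p with
        | o => exact absurd (mask_o h) h2
        | u =>
          rw [mask_u h]
          exact nofun
        | r i a =>
          have h3 : ¬ (i ∈ A ∧ Z i < (p : ℝ)) := fun h' => h2 ((mask_r h).1 ⟨hAB h'.1, h'.2⟩)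
          rw [(mask_r h).2 h3]
          exact nofun
      · obtain ⟨h1, ⟨a, h2⟩, h3⟩ := mem_cut.1 hp
        refine ⟨h1, ?_⟩
        rw [(mask_r h2).2 (fun h' => (mem_sdiff.1 hi).2 h'.1)]
        exact nofun
  · rw [disjoint_left]
    intro p hp hp'
    obtain ⟨i, hi, hpi⟩ := mem_biUnion.1 hp'
    obtain ⟨h1, ⟨a, h2⟩, h3⟩ := mem_cut.1 hpi
    exact (mem_filter.1 hp).2 ((mask_r h2).1 ⟨(mem_sdiff.1 hi).1, h3⟩)
  · intro i _ j _ hij
    change Disjoint (cut Z i S r) (cut Z j S r)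
    rw [disjoint_left]
    intro p hp hp'
    obtain ⟨_, ⟨a, h2⟩, _⟩ := mem_cut.1 hp
    obtain ⟨_, ⟨b, h3⟩, _⟩ := mem_cut.1 hp'
    rw [h2] at h3
    injection h3 with h4 h5
    exact hij h4

private lemma mem_SO {L : ℝ} {Q : ℕ} {μ : Fin k → ℕ} {C₀ N p : ℕ} (hp : p ∈ SO L Q μ C₀ N) :
    p.Prime ∧ C₀ < p := by
  classical
  unfold SO at hp
  rw [mem_filter] at hp
  obtain ⟨hp1, hp2⟩ := hp
  unfold PX at hp1
  rw [mem_filter, mem_Icc] at hp1
  exact hp1.2

namespace Sys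

variable {D : Sys k} {N : ℕ} {L : ℝ} {Q : ℕ} {μ : Fin k → ℕ} {A : Finset (Fin k)}
  {ro : ℕ → Lab k}

private lemma mem_RF (hro : ro ∈ D.RF N L Q μ) :
    ∀ p, (p ∈ SO L Q μ D.C₀ N → ro p = .o ∨ ro p ∈ D.Lb univ p) ∧
      (p ∉ SO L Q μ D.C₀ N → ro p = .o) := by
  intro p
  unfold RF at hro
  rw [mem_piF] at hro
  refine ⟨fun hp => ?_, fun hp => hro.2 p hp⟩
  have := hro.1 p hp
  rw [mem_insert] at this
  exact this

private lemma RO_RF (hro : ro ∈ D.RO N L Q μ) : ro ∈ D.RF N L Q μ := by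
  classical
  unfold RO at hro
  exact (mem_filter.1 hro).1

private lemma Vd_cut (hro : ro ∈ D.RF N L Q μ) (a : Fin k) :
    Vd D.C₀ (D.Rt a) (cut (Zc L Q μ) a (SO L Q μ D.C₀ N) ro) (rts ro) := by
  intro p hp
  obtain ⟨h1, ⟨b, h2⟩, h3⟩ := mem_cut.1 hp
  refine ⟨(mem_SO h1).1, (mem_SO h1).2, ?_⟩
  have h4 := (mem_RF hro p).1 h1
  rw [h2] at h4
  rcases h4 with h4 | h4
  · exact nomatch h4
  · unfold Lb Lbl at h4
    rw [mem_union, mem_biUnion] at h4
    unfold rts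
    rw [h2]
    change b ∈ D.Rt a p
    rcases h4 with h4 | ⟨i, _, h4⟩
    · split_ifs at h4
      · rw [mem_singleton] at h4
        exact nomatch h4
      · exact absurd h4 (notMem_empty _)
    · obtain ⟨b', hb', hb⟩ := mem_image.1 h4
      injection hb with h5 h6
      rw [← h5, ← h6]
      exact hb'

private lemma prod_cut_pos (a : Fin k) :
    0 < ∏ p ∈ cut (Zc L Q μ) a (SO L Q μ D.C₀ N) ro, p :=
  prod_pos fun _ hp => (mem_SO (mem_cut.1 hp).1).1.pos

private lemma prod_cut_lt (a : Fin k) :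
    ∏ p ∈ cut (Zc L Q μ) a (SO L Q μ D.C₀ N) ro, p < 2 ^ (D.jl N L Q μ ro a + 1) :=
  Nat.lt_pow_succ_log_self (by norm_num) _

private lemma prod_cut_real (a : Fin k) :
    ∏ p ∈ cut (Zc L Q μ) a (SO L Q μ D.C₀ N) ro, (p : ℝ) ≤ 2 ^ (D.jl N L Q μ ro a + 1) := by
  have h := (Nat.cast_le (α := ℝ)).2 (prod_cut_lt (D := D) (N := N) (L := L) (Q := Q) (μ := μ)
    (ro := ro) a).le
  push_cast at h
  exact h

theorem go_le (hro : ro ∈ D.RO N L Q μ) (a : Fin k) (y : Fin (D.n a)) :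
    |D.go N L Q μ ro a y| ^ D.n a ≤ 2 ^ (D.jl N L Q μ ro a + 1) := by
  refine (D.g_le a _ _ (Vd_cut (RO_RF hro) a) y).trans ?_
  exact_mod_cast (prod_cut_lt (D := D) (N := N) (L := L) (Q := Q) (μ := μ) (ro := ro) a).le

theorem VV_pos (ro : ℕ → Lab k) : 0 < D.VV N L Q μ ro := by
  unfold VV
  exact Nat.mul_pos (prod_pos fun p hp => (mem_SO (mem_filter.1 hp).1).1.pos) (by positivity)

/-- The large primes are larger than the threshold. -/
theorem Zc_le (hro : ro ∈ D.RO N L Q μ) {a : Fin k} (ha : a ∈ Big μ) :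
    Zc L Q μ a ≤ 2 ^ (D.jl N L Q μ ro a + 1) := by
  classical
  have h := hro
  unfold RO at h
  obtain ⟨p, hp⟩ := ((mem_filter.1 h).2 a ha).1
  have h1 := (mem_cut.1 hp).2.2
  have h2 : p ≤ ∏ p ∈ cut (Zc L Q μ) a (SO L Q μ D.C₀ N) ro, p :=
    Nat.le_of_dvd (prod_cut_pos a) (dvd_prod_of_mem _ hp)
  have h3 : (p : ℝ) ≤ 2 ^ (D.jl N L Q μ ro a + 1) := by
    exact_mod_cast h2.trans (prod_cut_lt a).le
  linarith

theorem jl_le (hL : 1 ≤ L) (hro : ro ∈ D.RO N L Q μ) {a : Fin k} (ha : a ∈ Big μ) :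
    (D.jl N L Q μ ro a : ℝ) + 1 ≤ 3 * L := by
  classical
  have h := hro
  unfold RO at h
  have h1 := ((mem_filter.1 h).2 a ha).2
  have h2 : 2 ^ D.jl N L Q μ ro a ≤ ∏ p ∈ cut (Zc L Q μ) a (SO L Q μ D.C₀ N) ro, p :=
    Nat.pow_log_le_self 2 (prod_cut_pos a).ne'
  have h3 : (2 : ℝ) ^ D.jl N L Q μ ro a ≤ Real.exp L :=
    le_trans (by exact_mod_cast h2) h1
  have h4 := Real.log_le_log (by positivity) h3
  rw [Real.log_pow, Real.log_exp] at h4
  have h5 := Real.log_two_gt_d9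
  have h6 : (0 : ℝ) ≤ D.jl N L Q μ ro a := Nat.cast_nonneg _
  nlinarith

/-- The size of the outer part without the large primes of the components `a ∈ A`. -/
theorem size_le (hro : ro ∈ D.RO N L Q μ) (hA : A ⊆ Big μ) :
    1 / (D.VV N L Q μ ro : ℝ) * ∏ a ∈ A, (2 : ℝ) ^ D.jl N L Q μ ro a ≤
      2 ^ k * ∏ p ∈ spt (SO L Q μ D.C₀ N) (mask A (Zc L Q μ) ro), 1 / (p : ℝ) := by
  classical
  rw [prod_mask hA (Zc L Q μ) (SO L Q μ D.C₀ N) ro (fun p => 1 / (p : ℝ))]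
  have h1 : (D.VV N L Q μ ro : ℝ) =
      (∏ p ∈ spt (SO L Q μ D.C₀ N) (mask (Big μ) (Zc L Q μ) ro), (p : ℝ)) *
        ((∏ a ∈ A, (2 : ℝ) ^ D.jl N L Q μ ro a) *
          ∏ a ∈ Big μ \ A, (2 : ℝ) ^ D.jl N L Q μ ro a) := by
    unfold VV
    push_cast
    rw [← prod_pow_eq_pow_sum, ← prod_sdiff hA]
    ring
  set P : ℝ := ∏ p ∈ spt (SO L Q μ D.C₀ N) (mask (Big μ) (Zc L Q μ) ro), (p : ℝ) with hP
  have hP0 : 0 < P := prod_pos fun p hp => Nat.cast_pos.2 (mem_SO (mem_filter.1 hp).1).1.pos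
  have h2 : ∏ p ∈ spt (SO L Q μ D.C₀ N) (mask (Big μ) (Zc L Q μ) ro), 1 / (p : ℝ) = 1 / P := by
    rw [prod_div_distrib, prod_const_one]
  have hTA : (0 : ℝ) < ∏ a ∈ A, (2 : ℝ) ^ D.jl N L Q μ ro a := prod_pos fun _ _ => by positivity
  have hTB : (0 : ℝ) < ∏ a ∈ Big μ \ A, (2 : ℝ) ^ D.jl N L Q μ ro a :=
    prod_pos fun _ _ => by positivity
  have h3 : ∏ a ∈ Big μ \ A, 1 / (2 : ℝ) ^ (D.jl N L Q μ ro a + 1) ≤
      ∏ a ∈ Big μ \ A, ∏ p ∈ cut (Zc L Q μ) a (SO L Q μ D.C₀ N) ro, 1 / (p : ℝ) := by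
    refine prod_le_prod (fun _ _ => by positivity) fun a _ => ?_
    rw [prod_div_distrib, prod_const_one]
    refine one_div_le_one_div_of_le ?_ ?_
    · exact prod_pos fun p hp => Nat.cast_pos.2 (mem_SO (mem_cut.1 hp).1).1.pos
    · exact prod_cut_real a
  have h4 : ∏ a ∈ Big μ \ A, 1 / (2 : ℝ) ^ (D.jl N L Q μ ro a + 1) =
      1 / ((2 : ℝ) ^ (Big μ \ A).card * ∏ a ∈ Big μ \ A, (2 : ℝ) ^ D.jl N L Q μ ro a) := by
    rw [← prod_const, ← prod_mul_distrib, prod_div_distrib, prod_const_one]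
    congr 1
    refine prod_congr rfl fun a _ => ?_
    rw [pow_succ, mul_comm]
  have h5 : (2 : ℝ) ^ (Big μ \ A).card ≤ 2 ^ k := by
    refine pow_le_pow_right₀ (by norm_num) ?_
    exact (card_le_univ _).trans (le_of_eq (Fintype.card_fin k))
  rw [h1, h2]
  rw [h4] at h3
  have h6 : 1 / ((2 : ℝ) ^ k * ∏ a ∈ Big μ \ A, (2 : ℝ) ^ D.jl N L Q μ ro a) ≤
      1 / ((2 : ℝ) ^ (Big μ \ A).card * ∏ a ∈ Big μ \ A, (2 : ℝ) ^ D.jl N L Q μ ro a) :=
    one_div_le_one_div_of_le (by positivity) (mul_le_mul_of_nonneg_right h5 hTB.le)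
  have h7 := h6.trans h3
  calc 1 / (P * ((∏ a ∈ A, (2 : ℝ) ^ D.jl N L Q μ ro a) *
          ∏ a ∈ Big μ \ A, (2 : ℝ) ^ D.jl N L Q μ ro a)) *
        ∏ a ∈ A, (2 : ℝ) ^ D.jl N L Q μ ro a =
        2 ^ k * (1 / P * (1 / ((2 : ℝ) ^ k * ∏ a ∈ Big μ \ A, (2 : ℝ) ^ D.jl N L Q μ ro a))) := by
        field_simp
    _ ≤ _ := by
        refine mul_le_mul_of_nonneg_left ?_ (by positivity)
        exact mul_le_mul_of_nonneg_left h7 (by positivity)

theorem size_ge (hro : ro ∈ D.RO N L Q μ) :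
    ∏ p ∈ spt (SO L Q μ D.C₀ N) ro, p ≤ 2 ^ k * D.VV N L Q μ ro := by
  classical
  have h1 := prod_mask (empty_subset (Big μ)) (Zc L Q μ) (SO L Q μ D.C₀ N) ro (fun p => (p : ℝ))
  rw [mask_empty, sdiff_empty] at h1
  have h2 : (∏ p ∈ spt (SO L Q μ D.C₀ N) ro, (p : ℝ)) ≤ 2 ^ k * (D.VV N L Q μ ro : ℝ) := by
    rw [h1]
    unfold VV
    push_cast
    have h3 : ∏ a ∈ Big μ, ∏ p ∈ cut (Zc L Q μ) a (SO L Q μ D.C₀ N) ro, (p : ℝ) ≤
        ∏ a ∈ Big μ, (2 : ℝ) ^ (D.jl N L Q μ ro a + 1) := by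
      refine prod_le_prod (fun _ _ => prod_nonneg fun _ _ => Nat.cast_nonneg _) fun a _ => ?_
      exact prod_cut_real a
    have h4 : ∏ a ∈ Big μ, (2 : ℝ) ^ (D.jl N L Q μ ro a + 1) =
        2 ^ (Big μ).card * 2 ^ (∑ i ∈ Big μ, D.jl N L Q μ ro i) := by
      rw [← prod_const, ← prod_pow_eq_pow_sum, ← prod_mul_distrib]
      refine prod_congr rfl fun a _ => ?_
      rw [pow_succ, mul_comm]
    have h5 : (2 : ℝ) ^ (Big μ).card ≤ 2 ^ k := by
      refine pow_le_pow_right₀ (by norm_num) ?_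
      exact (card_le_univ _).trans (le_of_eq (Fintype.card_fin k))
    rw [h4] at h3
    have hP0 : (0 : ℝ) ≤ ∏ p ∈ spt (SO L Q μ D.C₀ N) (mask (Big μ) (Zc L Q μ) ro), (p : ℝ) :=
      prod_nonneg fun _ _ => Nat.cast_nonneg _
    calc _ ≤ (∏ p ∈ spt (SO L Q μ D.C₀ N) (mask (Big μ) (Zc L Q μ) ro), (p : ℝ)) *
          (2 ^ (Big μ).card * 2 ^ (∑ i ∈ Big μ, D.jl N L Q μ ro i)) :=
          mul_le_mul_of_nonneg_left h3 hP0
      _ ≤ (∏ p ∈ spt (SO L Q μ D.C₀ N) (mask (Big μ) (Zc L Q μ) ro), (p : ℝ)) *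
          (2 ^ k * 2 ^ (∑ i ∈ Big μ, D.jl N L Q μ ro i)) := by
          refine mul_le_mul_of_nonneg_left ?_ hP0
          exact mul_le_mul_of_nonneg_right h5 (by positivity)
      _ = _ := by ring
  have h6 : ((∏ p ∈ spt (SO L Q μ D.C₀ N) ro, p : ℕ) : ℝ) ≤
      ((2 ^ k * D.VV N L Q μ ro : ℕ) : ℝ) := by
    push_cast
    exact h2
  exact Nat.cast_le.1 h6

theorem mask_mem (hro : ro ∈ D.RF N L Q μ) (A : Finset (Fin k)) :
    mask A (Zc L Q μ) ro ∈ D.RF N L Q μ := by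
  have h := mem_RF hro
  unfold RF
  rw [mem_piF]
  refine ⟨fun p hp => ?_, fun p hp => mask_o ((h p).2 hp)⟩
  rw [mem_insert]
  cases h' : ro p with
  | o => exact Or.inl (mask_o h')
  | u =>
    rw [mask_u h', ← h']
    exact (h p).1 hp
  | r i a =>
    by_cases hi : i ∈ A ∧ Zc L Q μ i < (p : ℝ)
    · exact Or.inl ((mask_r h').1 hi)
    · rw [(mask_r h').2 hi, ← h']
      exact (h p).1 hp

theorem ko_mem (hro : ro ∈ D.RF N L Q μ) (i : Fin k) :
    D.ko N L Q μ ro i ∈ Icc (-(D.K : ℤ)) D.K := by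
  rw [mem_Icc, ← abs_le]
  exact D.κ_le i _ _ (Vd_cut hro i)

end Sys

end Stoll308.TW
end

section
set_option autoImplicit false

/-!
The number of twists with nonempty fake `2`-Selmer set: an explicit upper bound.
-/

namespace Stoll308.Gen

open Finset Polynomial NumberTheorySymbols

/-! ### Sums over data grouped by the support -/

/-! ### The classes -/

lemma prod_big_le {C₀ N : ℕ} {t : ℤ} (ht : t ∈ Icc (-(N : ℤ)) N) (hsq : Squarefree t) :
    ∏ p ∈ bigPrimes C₀ t, p ≤ N := by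
  have h6 : (∏ p ∈ bigPrimes C₀ t, p) ≤ t.natAbs := by
    rw [natAbs_eq C₀ hsq]
    refine Nat.le_mul_of_pos_right _ ?_
    exact prod_pos fun _ hp => (Nat.prime_of_mem_primeFactors (mem_filter.1 hp).1).pos
  rw [mem_Icc] at ht
  omega

lemma prime_of_big {C₀ : ℕ} {t : ℤ} {p : ℕ} (hp : p ∈ bigPrimes C₀ t) : p.Prime :=
  Nat.prime_of_mem_primeFactors (mem_filter.1 hp).1

lemma squarefree_prod_primes {T : Finset ℕ} (hT : ∀ p ∈ T, p.Prime) : Squarefree (∏ p ∈ T, p) := by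
  classical
  induction T using Finset.induction_on with
  | empty => simp
  | insert a s ha ih =>
    rw [prod_insert ha]
    have h1 : ∀ p ∈ s, p.Prime := fun p hp => hT p (mem_insert_of_mem hp)
    rw [Nat.squarefree_mul]
    · exact ⟨(hT a (mem_insert_self _ _)).prime.squarefree, ih h1⟩
    · refine Nat.Coprime.prod_right fun p hp => ?_
      refine (Nat.coprime_primes (hT a (mem_insert_self _ _)) (h1 p hp)).2 ?_
      rintro rfl
      exact ha hp

/-- The weight of a datum: the indicator of `N(r) 2^j ≤ N`, divided by `N/2^j`. -/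
noncomputable def om (S : Finset ℕ) (N j : ℕ) (r : ℕ → ℕ) : ℝ :=
  if (∏ p ∈ supp S r, p) * 2 ^ j ≤ N then (2 : ℝ) ^ j / N else 0

section classC

variable (f : ℤ[X]) (D : RelData f)

end classC

end Stoll308.Gen
end

section
set_option autoImplicit false

/-!
The main term is bounded by a sum of a multiplicative function (as `Gen.main_nat`).
-/

namespace Stoll308.TW

open Finset Stoll308.Gen

variable {k : ℕ}

/-! ### Sums over label functions grouped by the support -/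

private lemma sum_lab_fib {S T : Finset ℕ} (hT : T ⊆ S) (t : ℕ → Finset (Lab k))
    (ht : ∀ p, Lab.o ∉ t p) (v : ℕ → Lab k → ℝ) :
    ∑ r ∈ (piF S (fun p => insert .o (t p)) .o).filter (fun r => spt S r = T),
      ∏ p ∈ T, v p (r p) = ∏ p ∈ T, ∑ a ∈ t p, v p a := by
  classical
  have h := sum_prod_piF S (fun p => insert .o (t p)) (Lab.o : Lab k)
    (fun p x => if x = .o then (if p ∈ T then 0 else (1 : ℝ)) else
      (if p ∈ T then v p x else 0))
  have e1 : ∑ r ∈ (piF S (fun p => insert .o (t p)) .o).filter (fun r => spt S r = T),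
      ∏ p ∈ T, v p (r p) =
      ∑ r ∈ piF S (fun p => insert .o (t p)) .o, ∏ p ∈ S,
        (if r p = .o then (if p ∈ T then 0 else (1 : ℝ)) else
        (if p ∈ T then v p (r p) else 0)) := by
    rw [sum_filter]
    refine sum_congr rfl fun r _ => ?_
    by_cases hr : spt S r = T
    · rw [if_pos hr]
      have e2 : ∏ p ∈ T, v p (r p) = ∏ p ∈ S, (if p ∈ T then v p (r p) else 1) := by
        rw [prod_ite_mem, inter_eq_right.2 hT]
      rw [e2]
      refine prod_congr rfl fun p hp => ?_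
      by_cases h0 : r p = .o
      · have : p ∉ T := by
          rw [← hr]
          exact fun h => (mem_filter.1 h).2 h0
        rw [if_neg this, if_pos h0, if_neg this]
      · have : p ∈ T := by
          rw [← hr]
          exact mem_filter.2 ⟨hp, h0⟩
        rw [if_pos this, if_neg h0, if_pos this]
    · rw [if_neg hr]
      symm
      have : ∃ p ∈ S, ¬ (r p ≠ .o ↔ p ∈ T) := by
        by_contra hcon
        push Not at hcon
        apply hr
        ext p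
        unfold spt
        rw [mem_filter]
        constructor
        · rintro ⟨h1, h2⟩
          exact (hcon p h1).1 h2
        · intro hp
          exact ⟨hT hp, (hcon p (hT hp)).2 hp⟩
      obtain ⟨p, hp, hpn⟩ := this
      refine prod_eq_zero hp ?_
      by_cases h0 : r p = .o
      · have : p ∈ T := by
          by_contra hpT
          exact hpn ⟨fun h => absurd h0 h, fun h => absurd h hpT⟩
        rw [if_pos h0, if_pos this]
      · have : p ∉ T := fun hpT => hpn ⟨fun _ => hpT, fun _ => h0⟩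
        rw [if_neg h0, if_neg this]
  rw [e1, h]
  have e3 : ∏ p ∈ T, ∑ a ∈ t p, v p a =
      ∏ p ∈ S, (if p ∈ T then ∑ a ∈ t p, v p a else 1) := by
    rw [prod_ite_mem, inter_eq_right.2 hT]
  rw [e3]
  refine prod_congr rfl fun p _ => ?_
  rw [sum_insert (ht p), if_pos rfl]
  have e4 : ∑ x ∈ t p, (if x = Lab.o then (if p ∈ T then 0 else (1 : ℝ)) else
      (if p ∈ T then v p x else 0)) = ∑ x ∈ t p, (if p ∈ T then v p x else 0) := by
    refine sum_congr rfl fun x hx => ?_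
    rw [if_neg]
    rintro rfl
    exact ht p hx
  rw [e4]
  by_cases hp : p ∈ T
  · simp only [hp, if_true, zero_add]
  · simp only [hp, if_false, sum_const_zero, add_zero]

private lemma sum_lab_spt (S : Finset ℕ) (t : ℕ → Finset (Lab k)) (ht : ∀ p, Lab.o ∉ t p)
    (F : Finset ℕ → ℝ) (v : ℕ → Lab k → ℝ) :
    ∑ r ∈ piF S (fun p => insert .o (t p)) .o, F (spt S r) * ∏ p ∈ spt S r, v p (r p) =
      ∑ T ∈ S.powerset, F T * ∏ p ∈ T, ∑ a ∈ t p, v p a := by
  classical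
  rw [← sum_fiberwise_of_maps_to (s := piF S (fun p => insert .o (t p)) .o) (t := S.powerset)
    (g := fun r => spt S r)]
  · refine sum_congr rfl fun T hT => ?_
    rw [← sum_lab_fib (mem_powerset.1 hT) t ht v, mul_sum]
    refine sum_congr rfl fun r hr => ?_
    rw [(mem_filter.1 hr).2]
  · intro r _
    exact mem_powerset.2 (filter_subset _ _)

namespace Sys

variable (D : Sys k) (N : ℕ) (L : ℝ) (Q : ℕ) (μ : Fin k → ℕ)

private lemma o_notMem (A : Finset (Fin k)) (p : ℕ) : Lab.o ∉ D.Lb A p := by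
  unfold Lb Lbl
  rw [mem_union, mem_biUnion]
  rintro (h | ⟨i, _, h⟩)
  · split_ifs at h
    · rw [mem_singleton] at h
      cases h
    · exact absurd h (notMem_empty _)
  · obtain ⟨a, _, ha⟩ := mem_image.1 h
    cases ha

private lemma card_Lb_le (A : Finset (Fin k)) {p : ℕ} (hp : p.Prime) (hp0 : D.C₀ < p) :
    (D.Lb A p).card ≤ D.K := by
  refine le_trans ?_ (D.card_le p hp hp0)
  unfold Lb Lbl
  refine (card_union_le _ _).trans ?_
  rw [add_comm]
  refine add_le_add ?_ ?_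
  · refine card_biUnion_le.trans ?_
    refine (sum_le_sum fun i _ => card_image_le).trans ?_
    exact sum_le_sum_of_subset (subset_univ _)
  · split_ifs <;> simp

theorem HH_nonneg (p : ℕ) : 0 ≤ D.HH L Q μ p := by
  unfold HH
  split_ifs
  · exact le_rfl
  · unfold wt
    exact sum_nonneg fun _ _ => by positivity
  · exact Nat.cast_nonneg _
  · exact zero_le_one
  · exact le_rfl

private lemma zz_lt {L : ℝ} (hL : 1 ≤ L) {Q : ℕ} (hQ : 0 < Q) {x y : ℝ} (hxy : x ≤ y) :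
    zz L Q x ≤ zz L Q y := by
  unfold zz
  refine Real.exp_le_exp.2 ?_
  refine Real.rpow_le_rpow_of_exponent_le hL ?_
  exact div_le_div_of_nonneg_right hxy (Nat.cast_nonneg _)

private lemma AA_empty {L : ℝ} (hL : 1 ≤ L) {Q : ℕ} (hQ : 0 < Q) {μ : Fin k → ℕ}
    (hμ : ∀ i, μ i < Q) {p : ℕ} (hp : zz L Q Q < (p : ℝ)) : AA L Q μ p = ∅ := by
  unfold AA
  rw [filter_eq_empty_iff]
  intro i _ h
  have h1 : zz L Q ((μ i : ℝ) - 1) ≤ zz L Q Q := by
    refine zz_lt hL hQ ?_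
    have : (μ i : ℝ) ≤ Q := by exact_mod_cast (hμ i).le
    linarith
  linarith

theorem main_le (hQ : 0 < Q) (hμ : ∀ i, μ i < Q) (hL : 1 ≤ L) :
    ∑ ro ∈ D.RO N L Q μ, ∑ ri ∈ D.RI N L Q μ,
      D.om N L Q μ (D.VV N L Q μ ro) ri * D.hf N L Q μ ri ≤
      ∑ n ∈ Icc 1 (2 ^ k * N), HT.hf (D.HH L Q μ) n := by
  classical
  obtain ⟨S₁, hS₁⟩ : ∃ S₁, S₁ = SI L Q μ D.C₀ N := ⟨_, rfl⟩
  obtain ⟨S₂, hS₂⟩ : ∃ S₂, S₂ = SO L Q μ D.C₀ N := ⟨_, rfl⟩
  obtain ⟨U, hU⟩ : ∃ U, U = WW L Q μ D.C₀ N := ⟨_, rfl⟩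
  have hPX : ∀ p ∈ PX D.C₀ N, p.Prime ∧ D.C₀ < p := by
    intro p hp
    unfold PX at hp
    exact (mem_filter.1 hp).2
  have hUsub : U ⊆ PX D.C₀ N := by
    rw [hU]
    unfold WW
    exact filter_subset _ _
  have hS1sub : S₁ ⊆ PX D.C₀ N := by
    rw [hS₁]
    unfold SI
    exact filter_subset _ _
  have hS2sub : S₂ ⊆ PX D.C₀ N := by
    rw [hS₂]
    unfold SO
    exact filter_subset _ _
  have hmem1 : ∀ p, p ∈ S₁ ↔ p ∈ PX D.C₀ N ∧ (p ∈ U ∨ zz L Q Q < (p : ℝ)) := by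
    intro p
    rw [hS₁, hU]
    unfold SI
    rw [mem_filter]
  have hmem2 : ∀ p, p ∈ S₂ ↔ p ∈ PX D.C₀ N ∧ ((p : ℝ) ≤ zz L Q Q ∧ p ∉ U) := by
    intro p
    rw [hS₂, hU]
    unfold SO
    rw [mem_filter]
  have hmemU : ∀ p, p ∈ U ↔ p ∈ PX D.C₀ N ∧ InW L Q μ p := by
    intro p
    rw [hU]
    unfold WW
    rw [mem_filter]
  have hU1 : U ⊆ S₁ := fun p hp => (hmem1 p).2 ⟨hUsub hp, Or.inl hp⟩
  have hdisj : Disjoint S₁ S₂ := by
    rw [disjoint_left]
    intro p h1 h2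
    have h3 := (hmem1 p).1 h1
    have h4 := (hmem2 p).1 h2
    rcases h3.2 with h | h
    · exact h4.2.2 h
    · exact absurd h4.2.1 (not_le.2 h)
  -- the values of `HH`
  have hH2 : ∀ p ∈ S₂, (((D.Lb univ p).card : ℕ) : ℝ) ≤ D.HH L Q μ p := by
    intro p hp
    have h1 := (hmem2 p).1 hp
    have h2 := hPX p h1.1
    unfold HH
    rw [if_neg (not_le.2 h2.2), if_neg (fun h => h1.2.2 ((hmemU p).2 ⟨h1.1, h⟩)),
      if_pos h1.2.1]
    exact_mod_cast card_Lb_le D _ h2.1 h2.2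
  have hH1 : ∀ p ∈ S₁, ∑ ℓ ∈ D.Lb (AA L Q μ p) p,
      (if p ∈ U then (1 / 2 : ℝ) ^ (D.J (AA L Q μ p) p ℓ).card else 1) ≤ D.HH L Q μ p := by
    intro p hp
    have h1 := (hmem1 p).1 hp
    have h2 := hPX p h1.1
    unfold HH
    rw [if_neg (not_le.2 h2.2)]
    by_cases hpU : p ∈ U
    · rw [if_pos ((hmemU p).1 hpU).2]
      unfold wt
      refine le_of_eq (sum_congr rfl fun ℓ _ => ?_)
      rw [if_pos hpU]
    · have h3 : zz L Q Q < (p : ℝ) := by
        rcases h1.2 with h | h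
        · exact absurd h hpU
        · exact h
      rw [if_neg (fun h => hpU ((hmemU p).2 ⟨h1.1, h⟩)), if_neg (not_le.2 h3),
        AA_empty hL hQ hμ h3]
      unfold Lb Lbl
      rw [biUnion_empty, union_empty]
      cases D.inf
      · simp
      · simp [hpU]
  have hmem_sptU : ∀ ri : ℕ → Lab k, spt S₁ ri ∩ U = spt U ri := by
    intro ri
    ext p
    unfold spt
    rw [mem_inter, mem_filter, mem_filter]
    constructor
    · rintro ⟨⟨_, h2⟩, h3⟩
      exact ⟨h3, h2⟩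
    · rintro ⟨h1, h2⟩
      exact ⟨⟨hU1 h1, h2⟩, h1⟩
  have hhf : ∀ ri, D.hf N L Q μ ri =
      ∏ p ∈ spt S₁ ri, (if p ∈ U then (1 / 2 : ℝ) ^ (D.J (AA L Q μ p) p (ri p)).card else 1) := by
    intro ri
    unfold hf
    rw [← hU, prod_ite_mem, hmem_sptU]
  have hhf0 : ∀ ri, 0 ≤ D.hf N L Q μ ri := by
    intro ri
    unfold hf
    exact prod_nonneg fun _ _ => by positivity
  have hom0 : ∀ V ri, 0 ≤ D.om N L Q μ V ri := by
    intro V ri
    unfold om
    split_ifs <;> norm_num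
  -- relax the conditions
  have h1 : ∑ ro ∈ D.RO N L Q μ, ∑ ri ∈ D.RI N L Q μ,
      D.om N L Q μ (D.VV N L Q μ ro) ri * D.hf N L Q μ ri ≤
      ∑ ro ∈ D.RF N L Q μ, ∑ ri ∈ piF S₁ (fun p => insert .o (D.Lb (AA L Q μ p) p)) .o,
      (if (∏ p ∈ spt S₁ ri, p) * (∏ p ∈ spt S₂ ro, p) ≤ 2 ^ k * N then (1 : ℝ) else 0) *
        D.hf N L Q μ ri := by
    refine (sum_le_sum fun ro hro => ?_).trans
      (sum_le_sum_of_subset_of_nonneg (filter_subset _ _) fun ro _ _ => sum_nonneg fun ri _ => ?_)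
    · unfold RI
      rw [← hS₁]
      refine (sum_le_sum_of_subset_of_nonneg (filter_subset _ _) fun ri _ _ =>
        mul_nonneg (hom0 _ _) (hhf0 ri)).trans (sum_le_sum fun ri _ => ?_)
      refine mul_le_mul_of_nonneg_right ?_ (hhf0 ri)
      unfold om
      rw [← hS₁]
      by_cases h : D.VV N L Q μ ro * ∏ p ∈ spt S₁ ri, p ≤ N
      · rw [if_pos h, if_pos]
        have h2 := size_ge hro
        rw [← hS₂] at h2
        calc (∏ p ∈ spt S₁ ri, p) * (∏ p ∈ spt S₂ ro, p) ≤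
              (∏ p ∈ spt S₁ ri, p) * (2 ^ k * D.VV N L Q μ ro) := Nat.mul_le_mul_left _ h2
          _ = 2 ^ k * (D.VV N L Q μ ro * ∏ p ∈ spt S₁ ri, p) := by ring
          _ ≤ 2 ^ k * N := Nat.mul_le_mul_left _ h
      · rw [if_neg h]
        split_ifs <;> norm_num
    · refine mul_nonneg ?_ (hhf0 ri)
      split_ifs <;> norm_num
  refine h1.trans ?_
  have h2 : ∀ ro ∈ D.RF N L Q μ, ∑ ri ∈ piF S₁ (fun p => insert .o (D.Lb (AA L Q μ p) p)) .o,
      (if (∏ p ∈ spt S₁ ri, p) * (∏ p ∈ spt S₂ ro, p) ≤ 2 ^ k * N then (1 : ℝ) else 0) *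
        D.hf N L Q μ ri ≤
      ∑ T ∈ S₁.powerset, (if (∏ p ∈ T, p) * (∏ p ∈ spt S₂ ro, p) ≤ 2 ^ k * N then (1 : ℝ) else 0) *
        ∏ p ∈ T, D.HH L Q μ p := by
    intro ro _
    have h3 := sum_lab_spt S₁ (fun p => D.Lb (AA L Q μ p) p) (fun p => o_notMem D _ p)
      (fun T => if (∏ p ∈ T, p) * (∏ p ∈ spt S₂ ro, p) ≤ 2 ^ k * N then (1 : ℝ) else 0)
      (fun p ℓ => if p ∈ U then (1 / 2 : ℝ) ^ (D.J (AA L Q μ p) p ℓ).card else 1)
    rw [sum_congr rfl fun ri _ => by rw [hhf ri], h3]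
    refine sum_le_sum fun T hT => ?_
    refine mul_le_mul_of_nonneg_left ?_ (by split_ifs <;> norm_num)
    refine prod_le_prod (fun p _ => sum_nonneg fun _ _ => ?_) fun p hp =>
      hH1 p (mem_powerset.1 hT hp)
    split_ifs <;> positivity
  refine (sum_le_sum h2).trans ?_
  rw [sum_comm]
  have h3 : ∀ T ∈ S₁.powerset, ∑ ro ∈ D.RF N L Q μ,
      (if (∏ p ∈ T, p) * (∏ p ∈ spt S₂ ro, p) ≤ 2 ^ k * N then (1 : ℝ) else 0) *
        ∏ p ∈ T, D.HH L Q μ p ≤
      ∑ T' ∈ S₂.powerset, (if (∏ p ∈ T, p) * (∏ p ∈ T', p) ≤ 2 ^ k * N then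
        ∏ p ∈ T ∪ T', D.HH L Q μ p else 0) := by
    intro T hT
    have h4 := sum_lab_spt S₂ (fun p => D.Lb univ p) (fun p => o_notMem D _ p)
      (fun T' => (if (∏ p ∈ T, p) * (∏ p ∈ T', p) ≤ 2 ^ k * N then (1 : ℝ) else 0) *
        ∏ p ∈ T, D.HH L Q μ p) (fun _ _ => 1)
    simp only [prod_const_one, mul_one, sum_const, nsmul_eq_mul] at h4
    unfold RF
    rw [← hS₂, h4]
    refine sum_le_sum fun T' hT' => ?_
    have hd : Disjoint T T' := disjoint_of_subset_left (mem_powerset.1 hT)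
      (disjoint_of_subset_right (mem_powerset.1 hT') hdisj)
    have hT0 : 0 ≤ ∏ p ∈ T, D.HH L Q μ p := prod_nonneg fun p _ => HH_nonneg D L Q μ p
    have e1 : ∏ p ∈ T', (((D.Lb univ p).card : ℕ) : ℝ) ≤ ∏ p ∈ T', D.HH L Q μ p :=
      prod_le_prod (fun p _ => Nat.cast_nonneg _) fun p hp => hH2 p (mem_powerset.1 hT' hp)
    rw [prod_union hd]
    split_ifs
    · rw [one_mul]
      exact mul_le_mul_of_nonneg_left e1 hT0
    · rw [zero_mul, zero_mul]
  refine (sum_le_sum h3).trans ?_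
  rw [← sum_product']
  rw [← sum_filter]
  refine sum_le_of_inj _ (Icc 1 (2 ^ k * N)) (fun y : Finset ℕ × Finset ℕ =>
    (∏ p ∈ y.1, p) * ∏ p ∈ y.2, p) ?_ ?_ _ (HT.hf (D.HH L Q μ)) ?_ ?_
  · intro y hy
    rw [mem_filter, mem_product, mem_powerset, mem_powerset] at hy
    rw [mem_Icc]
    refine ⟨?_, hy.2⟩
    exact Nat.mul_pos (prod_pos fun p hp => (hPX p (hS1sub (hy.1.1 hp))).1.pos)
      (prod_pos fun p hp => (hPX p (hS2sub (hy.1.2 hp))).1.pos)
  · intro y hy y' hy' hyy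
    rw [mem_coe, mem_filter, mem_product, mem_powerset, mem_powerset] at hy hy'
    simp only at hyy
    have hu : ∀ y : Finset ℕ × Finset ℕ, y.1 ⊆ S₁ → y.2 ⊆ S₂ →
        ((∏ p ∈ y.1, p) * ∏ p ∈ y.2, p).primeFactors = y.1 ∪ y.2 := by
      intro y h1 h2
      rw [← prod_union (disjoint_of_subset_left h1 (disjoint_of_subset_right h2 hdisj))]
      refine Nat.primeFactors_prod fun p hp => ?_
      rcases mem_union.1 hp with h | h
      · exact (hPX p (hS1sub (h1 h))).1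
      · exact (hPX p (hS2sub (h2 h))).1
    have hun : y.1 ∪ y.2 = y'.1 ∪ y'.2 := by
      rw [← hu y hy.1.1 hy.1.2, ← hu y' hy'.1.1 hy'.1.2, hyy]
    have hp1 : ∀ y : Finset ℕ × Finset ℕ, y.1 ⊆ S₁ → y.2 ⊆ S₂ → (y.1 ∪ y.2) ∩ S₁ = y.1 := by
      intro y h1 h2
      ext p
      rw [mem_inter, mem_union]
      constructor
      · rintro ⟨h | h, h'⟩
        · exact h
        · exact absurd (h2 h) (disjoint_left.1 hdisj h')
      · intro h
        exact ⟨Or.inl h, h1 h⟩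
    have hp2 : ∀ y : Finset ℕ × Finset ℕ, y.1 ⊆ S₁ → y.2 ⊆ S₂ → (y.1 ∪ y.2) ∩ S₂ = y.2 := by
      intro y h1 h2
      ext p
      rw [mem_inter, mem_union]
      constructor
      · rintro ⟨h | h, h'⟩
        · exact absurd h' (disjoint_left.1 hdisj (h1 h))
        · exact h
      · intro h
        exact ⟨Or.inr h, h2 h⟩
    refine Prod.ext ?_ ?_
    · rw [← hp1 y hy.1.1 hy.1.2, ← hp1 y' hy'.1.1 hy'.1.2, hun]
    · rw [← hp2 y hy.1.1 hy.1.2, ← hp2 y' hy'.1.1 hy'.1.2, hun]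
  · intro y hy
    rw [mem_filter, mem_product, mem_powerset, mem_powerset] at hy
    have hd := disjoint_of_subset_left hy.1.1 (disjoint_of_subset_right hy.1.2 hdisj)
    have hpr : ∀ p ∈ y.1 ∪ y.2, p.Prime := by
      intro p hp
      rcases mem_union.1 hp with h | h
      · exact (hPX p (hS1sub (hy.1.1 h))).1
      · exact (hPX p (hS2sub (hy.1.2 h))).1
    unfold HT.hf
    rw [← prod_union hd, if_pos (squarefree_prod_primes hpr), Nat.primeFactors_prod hpr]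
  · intro n _
    exact HT.hf_nonneg (fun p _ => HH_nonneg D L Q μ p) n

end Sys

end Stoll308.TW
end

section
set_option autoImplicit false

/-!
Upper bound for the number of the twists with nonempty fake `2`-Selmer set.
-/

namespace Stoll308.Gen

open Finset Polynomial Filter Topology

/-- Upper bound for a sum of a multiplicative function supported on squarefree numbers. -/
theorem sum_hf_le_prod {H : ℕ → ℝ} {K : ℝ} (h0 : ∀ p, p.Prime → 0 ≤ H p)
    (hK : ∀ p, p.Prime → H p ≤ K) {X : ℕ} (hX : 2 ≤ X) : ∑ n ∈ Icc 1 X, HT.hf H n ≤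
      (2 * K + 1) * (X / Real.log X) * ∏ p ∈ (Icc 1 X).filter Nat.Prime, (1 + H p / p) := by
  have hK0 : 0 ≤ K := (h0 2 Nat.prime_two).trans (hK 2 Nat.prime_two)
  have hXr : (2 : ℝ) ≤ X := by exact_mod_cast hX
  have hlog : 0 < Real.log X := Real.log_pos (by linarith)
  have hS : 0 ≤ ∑ m ∈ Icc 1 X, HT.hf H m / m :=
    sum_nonneg fun m _ => div_nonneg (HT.hf_nonneg h0 m) (Nat.cast_nonneg m)
  have h1 := HT.sum_hf_log_le h0 hK X
  have h2 : ∑ n ∈ Icc 1 X, HT.hf H n * (Real.log X - Real.log n) ≤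
      X * ∑ m ∈ Icc 1 X, HT.hf H m / m := by
    rw [mul_sum]
    refine sum_le_sum fun n hn => ?_
    have hn1 := mem_Icc.1 hn
    have hnpos : (0 : ℝ) < n := by exact_mod_cast hn1.1
    have h3 : Real.log X - Real.log n ≤ X / n := by
      rw [← Real.log_div (by linarith) hnpos.ne']
      exact (Real.log_le_sub_one_of_pos (by positivity)).trans (by linarith)
    calc HT.hf H n * (Real.log X - Real.log n) ≤ HT.hf H n * (X / n) :=
          mul_le_mul_of_nonneg_left h3 (HT.hf_nonneg h0 n)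
      _ = X * (HT.hf H n / n) := by ring
  have h3 : Real.log X * ∑ n ∈ Icc 1 X, HT.hf H n =
      ∑ n ∈ Icc 1 X, HT.hf H n * (Real.log X - Real.log n) +
        ∑ n ∈ Icc 1 X, HT.hf H n * Real.log n := by
    rw [← sum_add_distrib, mul_sum]
    refine sum_congr rfl fun n _ => ?_
    ring
  have h4 : Real.log 4 ≤ 2 := by
    have : (4 : ℝ) = 2 ^ 2 := by norm_num
    rw [this, Real.log_pow]
    have := Real.log_two_lt_d9
    push_cast
    linarith
  have h5 : Real.log X * ∑ n ∈ Icc 1 X, HT.hf H n ≤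
      (2 * K + 1) * X * ∑ m ∈ Icc 1 X, HT.hf H m / m := by
    have h6 : K * Real.log 4 * X * ∑ m ∈ Icc 1 X, HT.hf H m / m ≤
        K * 2 * X * ∑ m ∈ Icc 1 X, HT.hf H m / m := by
      gcongr
    rw [h3]
    calc _ ≤ X * ∑ m ∈ Icc 1 X, HT.hf H m / m + K * 2 * X * ∑ m ∈ Icc 1 X, HT.hf H m / m :=
          add_le_add h2 (h1.trans h6)
      _ = _ := by ring
  have h6 := HT.sum_div_le_prod h0 X
  have h7 : (2 * K + 1) * X * ∑ m ∈ Icc 1 X, HT.hf H m / m ≤
      (2 * K + 1) * X * ∏ p ∈ (Icc 1 X).filter Nat.Prime, (1 + H p / p) :=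
    mul_le_mul_of_nonneg_left h6 (by positivity)
  have h8 : ∑ n ∈ Icc 1 X, HT.hf H n ≤
      ((2 * K + 1) * X * ∏ p ∈ (Icc 1 X).filter Nat.Prime, (1 + H p / p)) / Real.log X := by
    rw [le_div_iff₀ hlog, mul_comm]
    exact h5.trans h7
  refine h8.trans (le_of_eq ?_)
  ring

end Stoll308.Gen
end

section
set_option autoImplicit false

/-!
Sums over the primes of the ranges of the block analysis.
-/

namespace Stoll308.TW

open Finset Stoll308.Gen Stoll308.MeanSum Filter Topology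

variable {k : ℕ}

/-- The lower Mertens bound for the primes with the property `Sp`. -/
def LowMert (Sp : ℕ → Prop) : Prop :=
  open Classical in
  ∃ κ B : ℝ, 0 < κ ∧ ∀ x y : ℝ, 3 ≤ x → x ≤ y →
    κ * (Real.log (Real.log y) - Real.log (Real.log x)) - B ≤
      ∑ p ∈ (Icc 1 ⌊y⌋₊).filter (fun p : ℕ => p.Prime ∧ x < (p : ℝ) ∧ Sp p), 1 / (p : ℝ)

lemma scale_loglog {L : ℝ} (hL : 1 ≤ L) (Q : ℕ) (x : ℝ) :
    Real.log (Real.log (zz L Q x)) = x / Q * Real.log L := by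
  unfold zz
  rw [Real.log_exp, Real.log_rpow (by linarith)]

lemma scale_mono {L : ℝ} (hL : 1 ≤ L) (Q : ℕ) {x y : ℝ} (hxy : x ≤ y) :
    zz L Q x ≤ zz L Q y :=
  Real.exp_le_exp.2 (Real.rpow_le_rpow_of_exponent_le hL
    (div_le_div_of_nonneg_right hxy (Nat.cast_nonneg _)))

lemma scale_top (L : ℝ) {Q : ℕ} (hQ : 1 ≤ Q) : zz L Q (Q : ℝ) = Real.exp L := by
  have hQ0 : (Q : ℝ) ≠ 0 := by
    have : (0 : ℝ) < Q := by exact_mod_cast hQ
    exact this.ne'
  unfold zz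
  rw [div_self hQ0, Real.rpow_one]

/-- The number `L` is so large that the scales with a positive index are at least `3`. -/
lemma scale_large {Q : ℕ} (hQ : 1 ≤ Q) : ∃ L₀ : ℝ, 1 ≤ L₀ ∧ ∀ L : ℝ, L₀ ≤ L → ∀ x : ℝ, 1 ≤ x →
    3 ≤ zz L Q x := by
  have hQ0 : (0 : ℝ) < Q := by exact_mod_cast hQ
  obtain ⟨L₀, hL₀⟩ := eventually_atTop.1
    ((tendsto_rpow_atTop (show 0 < 1 / (Q : ℝ) by positivity)).eventually_ge_atTop (2 : ℝ))
  refine ⟨max L₀ 1, le_max_right _ _, fun L hL x hx => ?_⟩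
  have h2 := hL₀ L ((le_max_left _ _).trans hL)
  have hL1 : 1 ≤ L := (le_max_right _ _).trans hL
  refine three_le_exp_two.trans (Real.exp_le_exp.2 (h2.trans ?_))
  exact Real.rpow_le_rpow_of_exponent_le hL1 (div_le_div_of_nonneg_right hx hQ0.le)

/-- The sum over the primes of a range of scales. -/
lemma scale_range {Q : ℕ} (hQ : 1 ≤ Q) : ∃ C L₀ : ℝ, 0 ≤ C ∧ 1 ≤ L₀ ∧ ∀ L : ℝ, L₀ ≤ L →
    (∀ s : Finset ℕ, ∀ b : ℝ, 1 ≤ b → (∀ p ∈ s, p.Prime ∧ (p : ℝ) ≤ zz L Q b) →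
      ∑ p ∈ s, 1 / (p : ℝ) ≤ b / Q * Real.log L + C) ∧
    (∀ s : Finset ℕ, ∀ a b : ℝ, 1 ≤ a → a ≤ b →
      (∀ p ∈ s, p.Prime ∧ zz L Q a < (p : ℝ) ∧ (p : ℝ) ≤ zz L Q b) →
      ∑ p ∈ s, 1 / (p : ℝ) ≤ (b - a) / Q * Real.log L + C) := by
  classical
  obtain ⟨C, hC, h⟩ := mertens_real
  obtain ⟨L₀, hL₀, hlarge⟩ := scale_large hQ
  refine ⟨2 * C, L₀, by positivity, hL₀, fun L hL => ?_⟩
  have hL1 : 1 ≤ L := hL₀.trans hL
  have hup : ∀ b : ℝ, 1 ≤ b → ∑ p ∈ PR ⌊zz L Q b⌋₊, 1 / (p : ℝ) ≤ b / Q * Real.log L + C := by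
    intro b hb
    have h1 := (abs_le.1 (h _ (hlarge L hL b hb))).2
    rw [scale_loglog hL1] at h1
    linarith
  have hlo : ∀ b : ℝ, 1 ≤ b → b / Q * Real.log L - C ≤ ∑ p ∈ PR ⌊zz L Q b⌋₊, 1 / (p : ℝ) := by
    intro b hb
    have h1 := (abs_le.1 (h _ (hlarge L hL b hb))).1
    rw [scale_loglog hL1] at h1
    linarith
  constructor
  · intro s b hb hs
    have hsub : s ⊆ PR ⌊zz L Q b⌋₊ := fun p hp => by
      rw [mem_PR]
      exact ⟨(hs p hp).1, Nat.le_floor (hs p hp).2⟩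
    have h1 := sum_le_sum_of_subset_of_nonneg (f := fun p : ℕ => 1 / (p : ℝ)) hsub
      fun p _ _ => by positivity
    linarith [hup b hb]
  · intro s a b ha hab hs
    have hdis : Disjoint s (PR ⌊zz L Q a⌋₊) := by
      rw [Finset.disjoint_left]
      intro p hp hp'
      rw [mem_PR] at hp'
      have h1 := (hs p hp).2.1
      have h2 : (p : ℝ) ≤ zz L Q a :=
        (Nat.cast_le.2 hp'.2).trans (Nat.floor_le (Real.exp_pos _).le)
      linarith
    have hsub : s ∪ PR ⌊zz L Q a⌋₊ ⊆ PR ⌊zz L Q b⌋₊ := by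
      intro p hp
      rw [mem_union] at hp
      rw [mem_PR]
      rcases hp with hp | hp
      · exact ⟨(hs p hp).1, Nat.le_floor (hs p hp).2.2⟩
      · rw [mem_PR] at hp
        exact ⟨hp.1, hp.2.trans (Nat.floor_le_floor (scale_mono hL1 Q hab))⟩
    have h1 := sum_le_sum_of_subset_of_nonneg (f := fun p : ℕ => 1 / (p : ℝ)) hsub
      fun p _ _ => by positivity
    rw [sum_union hdis] at h1
    have e1 : (b - a) / Q * Real.log L = b / Q * Real.log L - a / Q * Real.log L := by ring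
    rw [e1]
    linarith [hup b (ha.trans hab), hlo a ha]

lemma scale_sum_biUnion {ι : Type*} [DecidableEq ι] (s : Finset ι) (t : ι → Finset ℕ)
    (f : ℕ → ℝ) (hf : ∀ p, 0 ≤ f p) : ∑ p ∈ s.biUnion t, f p ≤ ∑ i ∈ s, ∑ p ∈ t i, f p := by
  induction s using Finset.induction_on with
  | empty => simp
  | insert a s ha ih =>
    rw [biUnion_insert, sum_insert ha]
    have h1 : ∑ p ∈ t a ∪ s.biUnion t, f p ≤ ∑ p ∈ t a, f p + ∑ p ∈ s.biUnion t, f p := by
      rw [← sum_union_inter]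
      exact le_add_of_nonneg_right (sum_nonneg fun p _ => hf p)
    linarith

open Classical in
/-- The primes up to `exp L` at which no condition is imposed: the sum of their inverses. -/
theorem sum_unused (Q : ℕ) (hQ : 4 ≤ Q) : ∃ C L₀ : ℝ, 1 ≤ L₀ ∧ ∀ L : ℝ, L₀ ≤ L →
    ∀ μ ∈ Lv k Q, ∑ p ∈ (Icc 1 ⌊Real.exp L⌋₊).filter (fun p : ℕ => p.Prime ∧ ¬ InW L Q μ p),
      1 / (p : ℝ) ≤ (2 * k + 1) / Q * Real.log L + C := by
  obtain ⟨C, L₀, hC, hL₀, h⟩ := scale_range (Q := Q) (by omega)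
  refine ⟨C + k * C, L₀, hL₀, fun L hL μ hμ => ?_⟩
  obtain ⟨h1, h2⟩ := h L hL
  have hL1 : 1 ≤ L := hL₀.trans hL
  have hlog : 0 ≤ Real.log L := Real.log_nonneg hL1
  have hQ0 : (0 : ℝ) < Q := by
    have : 0 < Q := by omega
    exact_mod_cast this
  set F : Finset ℕ := (Icc 1 ⌊Real.exp L⌋₊).filter
    (fun p : ℕ => p.Prime ∧ ¬ InW L Q μ p) with hF
  set F0 : Finset ℕ := F.filter fun p : ℕ => (p : ℝ) ≤ zz L Q 1 with hF0
  set F1 : Fin k → Finset ℕ := fun i => F.filter fun p : ℕ =>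
    zz L Q ((μ i : ℝ) - 1) < (p : ℝ) ∧ (p : ℝ) ≤ zz L Q ((μ i : ℝ) + 1) with hF1
  have hprime : ∀ p ∈ F, p.Prime := fun p hp => (mem_filter.1 hp).2.1
  have hsub : F ⊆ F0 ∪ univ.biUnion F1 := by
    intro p hp
    have hp' := mem_filter.1 hp
    rw [mem_union, mem_biUnion]
    by_cases hp1 : (p : ℝ) ≤ zz L Q 1
    · exact Or.inl (mem_filter.2 ⟨hp, hp1⟩)
    · right
      have hnot := hp'.2.2
      unfold InW at hnot
      have hple : (p : ℝ) ≤ zz L Q Q := by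
        rw [scale_top L (by omega)]
        exact (Nat.cast_le.2 (mem_Icc.1 hp'.1).2).trans (Nat.floor_le (Real.exp_pos _).le)
      have : ¬ ∀ i, (p : ℝ) ≤ zz L Q ((μ i : ℝ) - 1) ∨ zz L Q ((μ i : ℝ) + 1) < (p : ℝ) :=
        fun hall => hnot ⟨not_le.1 hp1, hple, hall⟩
      push Not at this
      obtain ⟨i, hi1, hi2⟩ := this
      exact ⟨i, mem_univ _, mem_filter.2 ⟨hp, hi1, hi2⟩⟩
  have hs0 : ∑ p ∈ F0, 1 / (p : ℝ) ≤ 1 / Q * Real.log L + C :=
    h1 F0 1 le_rfl fun p hp => ⟨hprime p (mem_filter.1 hp).1, (mem_filter.1 hp).2⟩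
  have hs1 : ∀ i, ∑ p ∈ F1 i, 1 / (p : ℝ) ≤ 2 / Q * Real.log L + C := by
    intro i
    rcases Nat.lt_or_ge (μ i) 2 with hi | hi
    · have hb : ((μ i : ℝ) + 1) / Q * Real.log L ≤ 2 / Q * Real.log L := by
        refine mul_le_mul_of_nonneg_right ?_ hlog
        refine div_le_div_of_nonneg_right ?_ hQ0.le
        have : (μ i : ℝ) ≤ 1 := by exact_mod_cast (by omega : μ i ≤ 1)
        linarith
      have := h1 (F1 i) ((μ i : ℝ) + 1) (by
        have : (0 : ℝ) ≤ μ i := Nat.cast_nonneg _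
        linarith) fun p hp => ⟨hprime p (mem_filter.1 hp).1, (mem_filter.1 hp).2.2⟩
      linarith
    · have hi2 : (2 : ℝ) ≤ μ i := by exact_mod_cast hi
      have := h2 (F1 i) ((μ i : ℝ) - 1) ((μ i : ℝ) + 1) (by linarith) (by linarith)
        fun p hp => ⟨hprime p (mem_filter.1 hp).1, (mem_filter.1 hp).2⟩
      have e1 : ((μ i : ℝ) + 1 - ((μ i : ℝ) - 1)) / Q = 2 / Q := by ring
      rw [e1] at this
      exact this
  have hU : ∑ p ∈ univ.biUnion F1, 1 / (p : ℝ) ≤ ∑ i : Fin k, ∑ p ∈ F1 i, 1 / (p : ℝ) :=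
    scale_sum_biUnion univ F1 (fun p : ℕ => 1 / (p : ℝ)) fun p => by positivity
  calc ∑ p ∈ F, 1 / (p : ℝ) ≤ ∑ p ∈ F0 ∪ univ.biUnion F1, 1 / (p : ℝ) :=
        sum_le_sum_of_subset_of_nonneg hsub fun p _ _ => by positivity
    _ ≤ ∑ p ∈ F0, 1 / (p : ℝ) + ∑ p ∈ univ.biUnion F1, 1 / (p : ℝ) := by
        rw [← sum_union_inter]
        exact le_add_of_nonneg_right (sum_nonneg fun p _ => by positivity)
    _ ≤ (1 / Q * Real.log L + C) + ∑ i : Fin k, (2 / Q * Real.log L + C) :=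
        add_le_add hs0 (hU.trans (sum_le_sum fun i _ => hs1 i))
    _ = _ := by
        rw [sum_const, card_univ, Fintype.card_fin, nsmul_eq_mul]
        ring

open Classical in
/-- The primes with the property `Sp` at which conditions are imposed. -/
theorem sum_used (Sp : ℕ → Prop) (hS : LowMert Sp) : ∃ κ : ℝ, 0 < κ ∧ κ ≤ 1 ∧
    ∀ Q : ℕ, 4 ≤ Q → ∃ C L₀ : ℝ, 1 ≤ L₀ ∧ ∀ L : ℝ, L₀ ≤ L → ∀ μ ∈ Lv k Q,
      (κ - (2 * k + 2) / Q) * Real.log L - C ≤
        ∑ p ∈ (Icc 1 ⌊Real.exp L⌋₊).filter (fun p : ℕ => p.Prime ∧ InW L Q μ p ∧ Sp p),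
          1 / (p : ℝ) := by
  obtain ⟨κ, B, hκ, h⟩ := hS
  refine ⟨min κ 1, lt_min hκ one_pos, min_le_right _ _, fun Q hQ => ?_⟩
  obtain ⟨C, L1, hL1, hun⟩ := sum_unused (k := k) Q hQ
  obtain ⟨L2, hL2, hlarge⟩ := scale_large (Q := Q) (by omega)
  refine ⟨B + C, max L1 L2, hL1.trans (le_max_left _ _), fun L hL μ hμ => ?_⟩
  have hLL1 : L1 ≤ L := (le_max_left _ _).trans hL
  have hLL2 : L2 ≤ L := (le_max_right _ _).trans hL
  have hL1' : 1 ≤ L := hL1.trans hLL1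
  have hlog : 0 ≤ Real.log L := Real.log_nonneg hL1'
  have hQ1 : 1 ≤ Q := by omega
  have hQ0 : (0 : ℝ) < Q := by exact_mod_cast hQ1
  have h1 := hun L hLL1 μ hμ
  have h2 := h (zz L Q 1) (zz L Q Q) (hlarge L hLL2 1 le_rfl)
    (scale_mono hL1' Q (by exact_mod_cast hQ1))
  rw [scale_loglog hL1', scale_loglog hL1', scale_top L hQ1, div_self hQ0.ne', one_mul] at h2
  have hsub : (Icc 1 ⌊Real.exp L⌋₊).filter (fun p : ℕ => p.Prime ∧ zz L Q 1 < (p : ℝ) ∧ Sp p) ⊆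
      (Icc 1 ⌊Real.exp L⌋₊).filter (fun p : ℕ => p.Prime ∧ InW L Q μ p ∧ Sp p) ∪
      (Icc 1 ⌊Real.exp L⌋₊).filter (fun p : ℕ => p.Prime ∧ ¬ InW L Q μ p) := by
    intro p hp
    obtain ⟨hp1, hp2, hp3, hp4⟩ := mem_filter.1 hp
    rw [mem_union]
    by_cases hI : InW L Q μ p
    · exact Or.inl (mem_filter.2 ⟨hp1, hp2, hI, hp4⟩)
    · exact Or.inr (mem_filter.2 ⟨hp1, hp2, hI⟩)
  have h3 := sum_le_sum_of_subset_of_nonneg (f := fun p : ℕ => 1 / (p : ℝ)) hsub
    fun p _ _ => by positivity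
  have h4 : ∑ p ∈ (Icc 1 ⌊Real.exp L⌋₊).filter (fun p : ℕ => p.Prime ∧ InW L Q μ p ∧ Sp p) ∪
      (Icc 1 ⌊Real.exp L⌋₊).filter (fun p : ℕ => p.Prime ∧ ¬ InW L Q μ p), 1 / (p : ℝ) ≤
      ∑ p ∈ (Icc 1 ⌊Real.exp L⌋₊).filter (fun p : ℕ => p.Prime ∧ InW L Q μ p ∧ Sp p),
        1 / (p : ℝ) +
      ∑ p ∈ (Icc 1 ⌊Real.exp L⌋₊).filter (fun p : ℕ => p.Prime ∧ ¬ InW L Q μ p),
        1 / (p : ℝ) := by
    rw [← sum_union_inter]
    exact le_add_of_nonneg_right (sum_nonneg fun p _ => by positivity)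
  have h5 : (min κ 1 - 1 / Q) * Real.log L ≤ κ * (Real.log L - 1 / Q * Real.log L) := by
    have e1 : κ * (Real.log L - 1 / Q * Real.log L) = κ * (1 - 1 / Q) * Real.log L := by ring
    rw [e1]
    refine mul_le_mul_of_nonneg_right ?_ hlog
    have hQ4 : 1 / (Q : ℝ) ≤ 1 := by
      rw [div_le_one hQ0]
      exact_mod_cast hQ1
    have hQ5 : 0 ≤ 1 / (Q : ℝ) := by positivity
    have h6 : min κ 1 ≤ κ := min_le_left _ _
    have h7 : min κ 1 ≤ 1 := min_le_right _ _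
    have h8 : min κ 1 * (1 - 1 / Q) ≤ κ * (1 - 1 / Q) :=
      mul_le_mul_of_nonneg_right h6 (by linarith)
    nlinarith
  have e2 : (min κ 1 - (2 * k + 2) / Q) * Real.log L =
      (min κ 1 - 1 / Q) * Real.log L - (2 * k + 1) / Q * Real.log L := by ring
  rw [e2]
  linarith

/-- A component is active at all the primes at which conditions are imposed. -/
theorem AA_nonempty {L : ℝ} {Q : ℕ} {μ : Fin k → ℕ} (hμ : μ ∈ Lv k Q) {p : ℕ}
    (hp : InW L Q μ p) : (AA L Q μ p).Nonempty := by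
  obtain ⟨-, i, hi⟩ := mem_filter.1 hμ
  obtain ⟨-, hp2, hp3⟩ := hp
  refine ⟨i, mem_filter.2 ⟨mem_univ _, ?_⟩⟩
  rcases hp3 i with h | h
  · exact h
  · exfalso
    have e1 : (μ i : ℝ) + 1 = Q := by exact_mod_cast hi
    rw [e1] at h
    linarith

end Stoll308.TW
end

section
set_option autoImplicit false

/-!
The main term, odd degree: the label `u` is admissible.
-/

namespace Stoll308.TW

open Finset Stoll308.Gen

variable {k : ℕ}

namespace Sys

variable (D : Sys k)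

lemma upx_wt_nonneg (A : Finset (Fin k)) (p : ℕ) : 0 ≤ D.wt A p := by
  unfold wt
  exact sum_nonneg fun _ _ => by positivity

lemma upx_zz_self (L : ℝ) {Q : ℕ} (hQ : 0 < Q) : zz L Q Q = Real.exp L := by
  unfold zz
  rw [div_self (by exact_mod_cast hQ.ne' : (Q : ℝ) ≠ 0), Real.rpow_one]

lemma upx_HH_nonneg (L : ℝ) (Q : ℕ) (μ : Fin k → ℕ) (p : ℕ) : 0 ≤ D.HH L Q μ p := by
  unfold HH
  split_ifs
  · exact le_rfl
  · exact D.upx_wt_nonneg _ _
  · exact Nat.cast_nonneg _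
  · exact zero_le_one
  · exact le_rfl

end Sys

end Stoll308.TW
end

section
set_option autoImplicit false

/-!
The mean square of the nontrivial part over a product of boxes (as `Gen.hh_sq`).
-/

namespace Stoll308.TW

open Finset Stoll308.Gen

variable {k : ℕ}

private lemma WW_spec {L : ℝ} {Q : ℕ} {μ : Fin k → ℕ} {C₀ N p : ℕ} (hp : p ∈ WW L Q μ C₀ N) :
    p.Prime ∧ zz L Q 1 < (p : ℝ) := by
  classical
  unfold WW at hp
  rw [mem_filter] at hp
  obtain ⟨hp1, hp2⟩ := hp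
  unfold PX at hp1
  rw [mem_filter, mem_Icc] at hp1
  exact ⟨hp1.2.1, hp2.1⟩

namespace Sys

variable (D : Sys k) (N : ℕ) (L : ℝ) (Q : ℕ) (μ : Fin k → ℕ)

private lemma sum_two {ι κ : Type*} [DecidableEq κ] (I : Finset ι) (a : ι → ℝ) (E : ι → κ)
    (C X : ℝ) (ha : ∀ i, 0 ≤ a i) (hX : 0 ≤ X) :
    ∑ i ∈ I, ∑ j ∈ I, a i * a j * (if E i = E j then C else X) ≤
      C * ∑ i ∈ I, a i * (∑ j ∈ I.filter (fun j => E j = E i), a j) + X * (∑ i ∈ I, a i) ^ 2 := by
  have h1 : ∑ i ∈ I, ∑ j ∈ I, a i * a j * (if E i = E j then C else X) ≤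
      ∑ i ∈ I, ∑ j ∈ I, (C * (a i * if E j = E i then a j else 0) + X * (a i * a j)) := by
    refine sum_le_sum fun i _ => sum_le_sum fun j _ => ?_
    have h2 : 0 ≤ a i * a j := mul_nonneg (ha i) (ha j)
    by_cases hE : E i = E j
    · rw [if_pos hE, if_pos hE.symm]
      have := mul_nonneg hX h2
      linarith
    · rw [if_neg hE, if_neg (Ne.symm hE)]
      linarith
  refine h1.trans (le_of_eq ?_)
  simp only [sum_add_distrib]
  congr 1
  · rw [mul_sum]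
    refine sum_congr rfl fun i _ => ?_
    rw [← mul_sum, ← mul_sum, sum_filter]
  · rw [pow_two, sum_mul_sum, mul_sum]
    refine sum_congr rfl fun i _ => ?_
    rw [mul_sum]

theorem hh_sq (hQ : 0 < Q) (hμ : ∀ i, μ i < Q) (hL : 1 ≤ L) {V : ℕ} (hV : 0 < V)
    {c : (ℕ → Lab k) → ℕ → ℕ → ℝ} (hc : ∀ r p x, |c r p x| ≤ 1) (A : Finset (Fin k))
    (w : (i : Fin k) → Fin (D.n i) → ℤ) (B : Fin k → ℕ) :
    ∑ g ∈ pbx D.n A w B, D.hh N L Q μ A V c g ^ 2 ≤ (pbx D.n A w B).card *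
      (((N : ℝ) / V) ^ 2 * D.Pw N L Q μ D.K ^ 2 *
          (1 / zz L Q 1 * D.Pw N L Q μ ((D.K : ℝ) ^ 2)) +
        ∑ a ∈ A, (((N : ℝ) / V) ^ 2 * D.Pw N L Q μ D.K ^ 2 * (2 * (D.n a : ℝ)) *
          zz L Q ((μ a : ℝ) - 1 / 2) ^ 2) / (2 * B a + 1)) := by
  classical
  set I := D.Ix N L Q μ A with hI
  set W := WW L Q μ D.C₀ N with hW
  set P : ℝ := D.Pw N L Q μ D.K with hP
  have hP0 : 0 ≤ P := by
    rw [hP]
    unfold Pw
    exact prod_nonneg fun p _ => by positivity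
  have hz : 0 < zz L Q 1 := Real.exp_pos _
  have hsq := pbx_sq A I (D.gam N L Q μ V c) (D.Dd N L Q μ) (D.Ee N L Q μ A) (D.Ff L Q μ)
    (fun a _ => D.n_pos a)
    (fun x _ p hp => by
      unfold Ee at hp
      exact (mem_filter.1 hp).1)
    (fun x _ y _ p hp hp' => Ee_of_Dd hp hp')
    (fun x hx p hp => ((Ix_spec hL hQ hx).2.2.2.2.1 p hp).1)
    (fun x _ p _ g g' hgg => by
      unfold Ff
      refine prod_congr rfl fun y _ => ?_
      exact D.ψ_per _ _ _ _ _ _ fun i _ z => hgg i z)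
    (fun x _ p _ g => by
      unfold Ff
      rw [abs_prod]
      exact prod_le_one (fun _ _ => abs_nonneg _) fun y _ => D.ψ_le _ _ _ _ _)
    (fun x hx p hp => by
      have hp' : p ∈ D.Dd N L Q μ x := by
        unfold Ee at hp
        exact (mem_filter.1 hp).1
      have hA : AA L Q μ p = A := by
        unfold Ee at hp
        exact (mem_filter.1 hp).2
      obtain ⟨h1, h2, _, _, h5, h6, h7⟩ := (Ix_spec hL hQ hx).2.2.2.2.1 p hp'
      rw [hA] at h5 h6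
      obtain ⟨a, ha, h8⟩ := D.nontriv A p (x.1 p) h1 h2 h5 (x.2 p) h6 h7
      refine ⟨a, ha, fun g => ?_⟩
      have h9 := h8 g
      unfold Ff
      rw [hA]
      exact h9)
    (fun a => zz L Q ((μ a : ℝ) - 1 / 2))
    (fun x hx a ha => (Ix_spec hL hQ hx).2.2.2.2.2 a ha) w B
  have hsq' : ∑ g ∈ pbx D.n A w B, D.hh N L Q μ A V c g ^ 2 ≤
      ∑ i ∈ I, ∑ j ∈ I, |D.gam N L Q μ V c i| * |D.gam N L Q μ V c j| *
        (if D.Ee N L Q μ A i = D.Ee N L Q μ A j then ((pbx D.n A w B).card : ℝ) else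
          2 * (pbx D.n A w B).card *
            ∑ a ∈ A, (D.n a : ℝ) * zz L Q ((μ a : ℝ) - 1 / 2) ^ 2 / (2 * B a + 1)) := hsq
  refine hsq'.trans ?_
  set Cd : ℝ := ((pbx D.n A w B).card : ℝ) with hCd
  set X : ℝ := ∑ a ∈ A, (D.n a : ℝ) * zz L Q ((μ a : ℝ) - 1 / 2) ^ 2 / (2 * B a + 1) with hX
  have hX0 : 0 ≤ X := sum_nonneg fun a _ => by positivity
  have hCd0 : 0 ≤ Cd := Nat.cast_nonneg _
  refine (sum_two I (fun x => |D.gam N L Q μ V c x|) (D.Ee N L Q μ A) Cd (2 * Cd * X)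
    (fun x => abs_nonneg _) (by positivity)).trans ?_
  set G : Finset ℕ → ℝ := fun E => ∑ x ∈ I.filter (fun x => D.Ee N L Q μ A x = E),
    |D.gam N L Q μ V c x| with hG
  rw [mul_add]
  refine add_le_add ?_ ?_
  · -- the diagonal
    refine mul_le_mul_of_nonneg_left ?_ hCd0
    have h3 : ∑ x ∈ I, |D.gam N L Q μ V c x| * G (D.Ee N L Q μ A x) =
        ∑ E ∈ W.powerset.erase ∅, G E * G E := by
      rw [← sum_fiberwise_of_maps_to (s := I) (t := W.powerset.erase ∅) (g := D.Ee N L Q μ A)]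
      · refine sum_congr rfl fun E _ => ?_
        rw [hG]
        simp only
        rw [sum_mul]
        refine sum_congr rfl fun x hx => ?_
        rw [(mem_filter.1 hx).2]
      · intro x hx
        rw [mem_erase, mem_powerset]
        refine ⟨nonempty_iff_ne_empty.1 (Ix_spec hL hQ hx).2.2.1, fun p hp => ?_⟩
        unfold Ee at hp
        exact ((Ix_spec hL hQ hx).2.2.2.2.1 p (mem_filter.1 hp).1).2.2.1
    change ∑ x ∈ I, |D.gam N L Q μ V c x| * G (D.Ee N L Q μ A x) ≤ _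
    rw [h3]
    have hGE : ∀ E, G E ≤ (N : ℝ) / V * ((∏ p ∈ E, ((D.K : ℝ) / p)) * P) := fun E =>
      sum_gam_E D N L Q μ hQ hμ hL hV hc A E
    have hG0 : ∀ E, 0 ≤ G E := fun E => sum_nonneg fun x _ => abs_nonneg _
    have h4 : ∀ E ∈ W.powerset.erase ∅, G E * G E ≤
        ((N : ℝ) / V) ^ 2 * P ^ 2 * ((1 / zz L Q 1) * ∏ p ∈ E, ((D.K : ℝ) ^ 2 / p)) := by
      intro E hE
      have h5 := mul_le_mul (hGE E) (hGE E) (hG0 E) ((hG0 E).trans (hGE E))
      refine h5.trans ?_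
      rw [mem_erase, mem_powerset] at hE
      have h6 : (∏ p ∈ E, ((D.K : ℝ) / p)) * (∏ p ∈ E, ((D.K : ℝ) / p)) =
          (∏ p ∈ E, (1 / (p : ℝ))) * ∏ p ∈ E, ((D.K : ℝ) ^ 2 / p) := by
        rw [← prod_mul_distrib, ← prod_mul_distrib]
        refine prod_congr rfl fun p _ => ?_
        ring
      have h7 : ∏ p ∈ E, (1 / (p : ℝ)) ≤ 1 / zz L Q 1 := by
        obtain ⟨q, hq⟩ := nonempty_iff_ne_empty.2 hE.1
        rw [← mul_prod_erase E (fun p => 1 / (p : ℝ)) hq]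
        have hq1 : 1 / (q : ℝ) ≤ 1 / zz L Q 1 :=
          one_div_le_one_div_of_le hz (WW_spec (hE.2 hq)).2.le
        have hq2 : ∏ p ∈ E.erase q, (1 / (p : ℝ)) ≤ 1 := by
          refine prod_le_one (fun p _ => by positivity) fun p hp => ?_
          have : (1 : ℝ) ≤ p := by
            exact_mod_cast (WW_spec (hE.2 (mem_erase.1 hp).2)).1.one_lt.le
          rw [div_le_one (by linarith)]
          exact this
        calc 1 / (q : ℝ) * ∏ p ∈ E.erase q, (1 / (p : ℝ)) ≤ 1 / zz L Q 1 * 1 :=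
              mul_le_mul hq1 hq2 (prod_nonneg fun p _ => by positivity) (by positivity)
          _ = 1 / zz L Q 1 := mul_one _
      have h8 : 0 ≤ ∏ p ∈ E, ((D.K : ℝ) ^ 2 / p) := prod_nonneg fun p _ => by positivity
      calc (N : ℝ) / V * ((∏ p ∈ E, ((D.K : ℝ) / p)) * P) *
            ((N : ℝ) / V * ((∏ p ∈ E, ((D.K : ℝ) / p)) * P)) =
            ((N : ℝ) / V) ^ 2 * P ^ 2 *
              ((∏ p ∈ E, ((D.K : ℝ) / p)) * (∏ p ∈ E, ((D.K : ℝ) / p))) := by ring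
        _ = ((N : ℝ) / V) ^ 2 * P ^ 2 *
              ((∏ p ∈ E, (1 / (p : ℝ))) * ∏ p ∈ E, ((D.K : ℝ) ^ 2 / p)) := by rw [h6]
        _ ≤ _ := mul_le_mul_of_nonneg_left (mul_le_mul_of_nonneg_right h7 h8) (by positivity)
    refine (sum_le_sum h4).trans ?_
    rw [← mul_sum, ← mul_sum]
    refine mul_le_mul_of_nonneg_left ?_ (by positivity)
    refine mul_le_mul_of_nonneg_left ?_ (by positivity)
    unfold Pw
    rw [prod_one_add]
    exact sum_le_sum_of_subset_of_nonneg (erase_subset _ _) fun E _ _ =>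
      prod_nonneg fun p _ => by positivity
  · -- the rest
    have h3 := sum_gam D N L Q μ hQ hμ hL hV hc A
    have h4 : 0 ≤ ∑ x ∈ I, |D.gam N L Q μ V c x| := sum_nonneg fun x _ => abs_nonneg _
    have h5 : (∑ x ∈ I, |D.gam N L Q μ V c x|) ^ 2 ≤ ((N : ℝ) / V * P) ^ 2 :=
      pow_le_pow_left₀ h4 h3 2
    refine (mul_le_mul_of_nonneg_left h5 (by positivity)).trans (le_of_eq ?_)
    rw [hX, mul_sum, sum_mul, mul_sum]
    refine sum_congr rfl fun a _ => ?_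
    ring

end Sys

end Stoll308.TW
end

section
set_option autoImplicit false

/-!
The error terms (as `Gen.sum_hh_nat`).
-/

namespace Stoll308.TW

open Finset Stoll308.Gen

variable {k : ℕ}

namespace Sys

variable (D : Sys k) (N : ℕ) (L : ℝ) (Q : ℕ) (μ : Fin k → ℕ)

private lemma err_o_notMem (A : Finset (Fin k)) (p : ℕ) : (Lab.o : Lab k) ∉ D.Lb A p := by
  unfold Lb Lbl
  rw [mem_union, mem_biUnion]
  rintro (h | ⟨i, _, h⟩)
  · split_ifs at h with hi
    · rw [mem_singleton] at h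
      exact nomatch h
    · exact notMem_empty _ h
  · obtain ⟨a, _, ha⟩ := mem_image.1 h
    exact nomatch ha

private lemma err_card_Lb_le (A : Finset (Fin k)) {p : ℕ} (hp : p.Prime) (hC : D.C₀ < p) :
    (D.Lb A p).card ≤ D.K := by
  classical
  refine le_trans ?_ (D.card_le p hp hC)
  unfold Lb Lbl
  refine (card_union_le _ _).trans ?_
  rw [add_comm]
  refine add_le_add ?_ ?_
  · refine (card_biUnion_le).trans ?_
    refine (sum_le_sum fun i _ => card_image_le).trans ?_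
    exact sum_le_sum_of_subset (subset_univ _)
  · split_ifs <;> simp

/-- The sum of the weights of all outer label functions. -/
theorem sum_RF : ∑ r ∈ D.RF N L Q μ, ∏ p ∈ spt (SO L Q μ D.C₀ N) r, 1 / (p : ℝ) ≤
    D.Po N L Q μ := by
  classical
  have hSO : ∀ p ∈ SO L Q μ D.C₀ N, p.Prime ∧ D.C₀ < p := by
    intro p hp
    unfold SO PX at hp
    rw [mem_filter, mem_filter] at hp
    exact hp.1.2
  have e1 : ∀ r : ℕ → Lab k, ∏ p ∈ spt (SO L Q μ D.C₀ N) r, 1 / (p : ℝ) =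
      ∏ p ∈ SO L Q μ D.C₀ N, (if r p ≠ .o then 1 / (p : ℝ) else 1) := by
    intro r
    unfold spt
    rw [prod_filter]
  unfold RF Po
  rw [sum_congr rfl fun r _ => e1 r]
  have h := sum_prod_piF (SO L Q μ D.C₀ N) (fun p => insert .o (D.Lb univ p)) (.o : Lab k)
    (fun p ℓ => if ℓ ≠ .o then 1 / (p : ℝ) else 1)
  rw [h]
  refine prod_le_prod (fun p _ => sum_nonneg fun ℓ _ => ?_) fun p hp => ?_
  · split_ifs <;> positivity
  · obtain ⟨hp1, hp2⟩ := hSO p hp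
    rw [sum_insert (D.err_o_notMem _ _)]
    have h1 : ∑ ℓ ∈ D.Lb univ p, (if ℓ ≠ .o then 1 / (p : ℝ) else 1) =
        ((D.Lb univ p).card : ℝ) * (1 / (p : ℝ)) := by
      rw [← nsmul_eq_mul, ← sum_const]
      refine sum_congr rfl fun ℓ hℓ => ?_
      rw [if_pos]
      rintro rfl
      exact D.err_o_notMem _ _ hℓ
    rw [h1, if_neg (by simp)]
    have h2 : ((D.Lb univ p).card : ℝ) ≤ D.K := Nat.cast_le.2 (D.err_card_Lb_le _ hp1 hp2)
    have h3 : (0 : ℝ) ≤ 1 / (p : ℝ) := by positivity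
    have h4 := mul_le_mul_of_nonneg_right h2 h3
    have h5 : (D.K : ℝ) * (1 / (p : ℝ)) = D.K / p := by ring
    linarith

/-- The sum vanishes unless the components of `A` can be active. -/
theorem hh_eq_zero (hQ : 0 < Q) (hL : 1 ≤ L) {A : Finset (Fin k)} (hA : ¬ A ⊆ Big μ) (V : ℕ)
    (c : (ℕ → Lab k) → ℕ → ℕ → ℝ) (g : (i : Fin k) → Fin (D.n i) → ℤ) :
    D.hh N L Q μ A V c g = 0 := by
  unfold hh
  have : D.Ix N L Q μ A = ∅ := by
    rw [eq_empty_iff_forall_notMem]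
    intro x hx
    exact hA (Ix_spec hL hQ hx).2.2.2.1
  rw [this, sum_empty]

private lemma Rr_nonneg (A : Finset (Fin k)) : 0 ≤ D.Rr N L Q μ A := by
  unfold Rr
  have h1 : ∀ a : ℝ, 0 ≤ a → 0 ≤ D.Pw N L Q μ a := fun a ha =>
    prod_nonneg fun p _ => by positivity
  have h2 := h1 ((D.K : ℝ) ^ 2) (by positivity)
  have h3 : (0 : ℝ) < zz L Q 1 := Real.exp_pos _
  have h4 : ∀ a : Fin k, 0 < Zc L Q μ a := fun a => Real.exp_pos _
  have h5 : 0 ≤ ∑ a ∈ A, (D.n a : ℝ) * zz L Q ((μ a : ℝ) - 1 / 2) ^ 2 *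
      Zc L Q μ a ^ (-(D.n a : ℝ)⁻¹) := sum_nonneg fun a _ => by
    have := h4 a
    positivity
  positivity

/-- One fibre. -/
private lemma fibre_err (hQ : 0 < Q) (hμ : ∀ i, μ i < Q) (hL : 1 ≤ L) {A : Finset (Fin k)}
    (hA : A ⊆ Big μ) (s : ℤ) (e : Finset (Fin k) → Fin D.m) (S : Finset (ℕ → Lab k))
    (hS : S ⊆ D.RO N L Q μ) {ro : ℕ → Lab k} (hro : ro ∈ S)
    (hsame : ∀ r ∈ S, ∀ r' ∈ S, Same D N L Q μ A r r') :
    ∑ r ∈ S, |D.hh N L Q μ A (D.VV N L Q μ r) (D.cI N L Q μ s e r) (D.go N L Q μ r)| ≤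
      N * (2 ^ k * (∏ p ∈ spt (SO L Q μ D.C₀ N) (mask A (Zc L Q μ) ro), 1 / (p : ℝ)) *
        (∏ i, (2 * 3 ^ D.n i : ℝ)) * Real.sqrt (D.Rr N L Q μ A)) := by
  have hVpos : 0 < D.VV N L Q μ ro := VV_pos ro
  have hVr : (0 : ℝ) < D.VV N L Q μ ro := Nat.cast_pos.2 hVpos
  set V : ℕ := D.VV N L Q μ ro with hV
  set h : ((i : Fin k) → Fin (D.n i) → ℤ) → ℝ := fun g =>
    D.hh N L Q μ A V (D.cI N L Q μ s e ro) g with hh'
  have e1 : ∑ r ∈ S, |D.hh N L Q μ A (D.VV N L Q μ r) (D.cI N L Q μ s e r) (D.go N L Q μ r)| =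
      ∑ r ∈ S, |h (D.go N L Q μ r)| := by
    refine sum_congr rfl fun r hr => ?_
    rw [(hsame r hr ro hro).hh hL hQ s e]
  rw [e1]
  have hP0 : ∀ a : ℝ, 0 ≤ a → 0 ≤ D.Pw N L Q μ a := fun a ha =>
    prod_nonneg fun p _ => by positivity
  have hPq := hP0 ((D.K : ℝ) ^ 2) (by positivity)
  have hz : (0 : ℝ) < zz L Q 1 := Real.exp_pos _
  set α : ℝ := ((N : ℝ) / V) ^ 2 * D.Pw N L Q μ D.K ^ 2 *
          (1 / zz L Q 1 * D.Pw N L Q μ ((D.K : ℝ) ^ 2)) with hα
  set β : Fin k → ℝ := fun a => ((N : ℝ) / V) ^ 2 * D.Pw N L Q μ D.K ^ 2 * (2 * (D.n a : ℝ)) *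
          zz L Q ((μ a : ℝ) - 1 / 2) ^ 2 with hβ
  have hα0 : 0 ≤ α := by positivity
  have hβ0 : ∀ a, 0 ≤ β a := fun a => by positivity
  have hmain := cauchy_fiber (n := D.n) A (fun a _ => D.n_pos a) S (fun r => D.go N L Q μ r)
    (fun r hr r' hr' hrr => (hsame r hr r' hr').inj (hS hr) (hS hr')
      fun a _ => congrFun hrr a)
    (D.go N L Q μ ro) (fun r hr i hi => (hsame r hr ro hro).go hi)
    (fun a => D.jl N L Q μ ro a)
    (fun r hr a ha y => by
      have h1 := go_le (hS hr) a y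
      rwa [(hsame r hr ro hro).j a (hA ha)] at h1)
    h hα0 (fun a _ => hβ0 a)
    (fun B => D.hh_sq N L Q μ hQ hμ hL hVpos (fun r p x => D.cf_le _ _ _ _ _ _ _) A
      (D.go N L Q μ ro) B)
  refine hmain.trans ?_
  have hR0 := D.Rr_nonneg N L Q μ A
  have hroS := hS hro
  -- the square root
  have h1 : α + ∑ a ∈ A, β a * ((2 : ℝ) ^ (D.jl N L Q μ ro a + 1)) ^ (-(D.n a : ℝ)⁻¹) ≤
      ((N : ℝ) / V) ^ 2 * D.Rr N L Q μ A := by
    have h2 : ∀ a ∈ A, β a * ((2 : ℝ) ^ (D.jl N L Q μ ro a + 1)) ^ (-(D.n a : ℝ)⁻¹) ≤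
        ((N : ℝ) / V) ^ 2 * (D.Pw N L Q μ D.K ^ 2 * (2 * ((D.n a : ℝ) *
          zz L Q ((μ a : ℝ) - 1 / 2) ^ 2 * Zc L Q μ a ^ (-(D.n a : ℝ)⁻¹)))) := by
      intro a ha
      have h3 : ((2 : ℝ) ^ (D.jl N L Q μ ro a + 1)) ^ (-(D.n a : ℝ)⁻¹) ≤
          Zc L Q μ a ^ (-(D.n a : ℝ)⁻¹) := by
        refine Real.rpow_le_rpow_of_nonpos (Real.exp_pos _) (Zc_le hroS (hA ha)) ?_
        have : 0 ≤ (D.n a : ℝ)⁻¹ := by positivity
        linarith
      refine (mul_le_mul_of_nonneg_left h3 (hβ0 a)).trans (le_of_eq ?_)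
      simp only [hβ]
      ring
    refine (add_le_add_right (sum_le_sum h2) α).trans (le_of_eq ?_)
    unfold Rr
    rw [← mul_sum, ← mul_sum, ← mul_sum]
    simp only [hα]
    ring
  have h2 : Real.sqrt (α + ∑ a ∈ A, β a *
      ((2 : ℝ) ^ (D.jl N L Q μ ro a + 1)) ^ (-(D.n a : ℝ)⁻¹)) ≤
      (N : ℝ) / V * Real.sqrt (D.Rr N L Q μ A) := by
    refine (Real.sqrt_le_sqrt h1).trans (le_of_eq ?_)
    rw [Real.sqrt_mul (by positivity), Real.sqrt_sq (by positivity)]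
  have h3 : ∏ a ∈ A, (2 * 3 ^ D.n a : ℝ) ≤ ∏ i, (2 * 3 ^ D.n i : ℝ) := by
    have hone : ∀ i : Fin k, (1 : ℝ) ≤ 2 * 3 ^ D.n i := fun i => by
      have : (1 : ℝ) ≤ 3 ^ D.n i := one_le_pow₀ (by norm_num)
      linarith
    rw [← prod_sdiff (subset_univ A)]
    have h0 := prod_le_prod (s := univ \ A) (f := fun _ => (1 : ℝ))
      (g := fun i : Fin k => (2 * 3 ^ D.n i : ℝ)) (fun _ _ => zero_le_one) fun i _ => hone i
    rw [prod_const_one] at h0
    exact le_mul_of_one_le_left (prod_nonneg fun i _ => by positivity) h0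
  have h4 := size_le hroS hA
  have hW0 : 0 ≤ ∏ p ∈ spt (SO L Q μ D.C₀ N) (mask A (Zc L Q μ) ro), 1 / (p : ℝ) :=
    prod_nonneg fun p _ => by positivity
  have h5 : (0 : ℝ) ≤ ∏ a ∈ A, (2 : ℝ) ^ D.jl N L Q μ ro a := prod_nonneg fun a _ => by positivity
  calc (∏ a ∈ A, (2 * 3 ^ D.n a) * (2 : ℝ) ^ D.jl N L Q μ ro a) *
        Real.sqrt (α + ∑ a ∈ A, β a *
          ((2 : ℝ) ^ (D.jl N L Q μ ro a + 1)) ^ (-(D.n a : ℝ)⁻¹)) ≤
        ((∏ i, (2 * 3 ^ D.n i : ℝ)) * ∏ a ∈ A, (2 : ℝ) ^ D.jl N L Q μ ro a) *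
          ((N : ℝ) / V * Real.sqrt (D.Rr N L Q μ A)) := by
        rw [prod_mul_distrib]
        exact mul_le_mul (mul_le_mul_of_nonneg_right h3 h5) h2 (Real.sqrt_nonneg _)
          (mul_nonneg (prod_nonneg fun i _ => by positivity) h5)
    _ = N * ((1 / (V : ℝ) * ∏ a ∈ A, (2 : ℝ) ^ D.jl N L Q μ ro a) *
          (∏ i, (2 * 3 ^ D.n i : ℝ)) * Real.sqrt (D.Rr N L Q μ A)) := by ring
    _ ≤ _ := by
        refine mul_le_mul_of_nonneg_left ?_ (Nat.cast_nonneg _)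
        refine mul_le_mul_of_nonneg_right ?_ (Real.sqrt_nonneg _)
        exact mul_le_mul_of_nonneg_right h4 (prod_nonneg fun i _ => by positivity)

theorem err_le (hQ : 0 < Q) (hμ : ∀ i, μ i < Q) (hL : 1 ≤ L) (A : Finset (Fin k)) (s : ℤ)
    (e : Finset (Fin k) → Fin D.m) :
    ∑ ro ∈ D.RO N L Q μ,
      |D.hh N L Q μ A (D.VV N L Q μ ro) (D.cI N L Q μ s e ro) (D.go N L Q μ ro)| ≤
    N * (2 ^ k * D.Po N L Q μ * ((3 * L) ^ k * (2 * D.K + 1) ^ k) *
      (∏ i, (2 * 3 ^ D.n i : ℝ)) * Real.sqrt (D.Rr N L Q μ A)) := by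
  classical
  have hPo0 : 0 ≤ D.Po N L Q μ := prod_nonneg fun p _ => by positivity
  have hprod0 : (0 : ℝ) ≤ ∏ i, (2 * 3 ^ D.n i : ℝ) := prod_nonneg fun i _ => by positivity
  by_cases hA : A ⊆ Big μ
  swap
  · rw [sum_eq_zero fun ro _ => by rw [D.hh_eq_zero N L Q μ hQ hL hA, abs_zero]]
    have := Real.sqrt_nonneg (D.Rr N L Q μ A)
    positivity
  -- the keys
  set X : ℕ := ⌊3 * L⌋₊ with hX
  have hXL : (X : ℝ) ≤ 3 * L := Nat.floor_le (by linarith)
  have hX3 : 3 ≤ X := Nat.le_floor (by push_cast; linarith)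
  set T : Finset ((ℕ → Lab k) × (Fin k → ℕ) × (Fin k → ℤ)) :=
    D.RF N L Q μ ×ˢ (Fintype.piFinset fun _ : Fin k => range X) ×ˢ
      (Fintype.piFinset fun _ : Fin k => Icc (-(D.K : ℤ)) D.K) with hT
  set key : (ℕ → Lab k) → (ℕ → Lab k) × (Fin k → ℕ) × (Fin k → ℤ) := fun ro =>
    (mask A (Zc L Q μ) ro, fun i => if i ∈ Big μ then D.jl N L Q μ ro i else 0,
      fun i => D.ko N L Q μ ro i) with hkey
  have hmaps : ∀ ro ∈ D.RO N L Q μ, key ro ∈ T := by
    intro ro hro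
    have hroF : ro ∈ D.RF N L Q μ := (mem_filter.1 hro).1
    rw [hT, mem_product, mem_product, Fintype.mem_piFinset, Fintype.mem_piFinset]
    refine ⟨mask_mem hroF A, fun i => ?_, fun i => ko_mem hroF i⟩
    rw [mem_range]
    change (if i ∈ Big μ then D.jl N L Q μ ro i else 0) < X
    by_cases hi : i ∈ Big μ
    · rw [if_pos hi]
      have h1 := jl_le hL hro hi
      have h2 : D.jl N L Q μ ro i + 1 ≤ X := Nat.le_floor (by push_cast; exact h1)
      omega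
    · rw [if_neg hi]
      omega
  rw [← sum_fiberwise_of_maps_to hmaps]
  set W : (ℕ → Lab k) → ℝ := fun m => ∏ p ∈ spt (SO L Q μ D.C₀ N) m, 1 / (p : ℝ) with hW
  have hW0 : ∀ m, 0 ≤ W m := fun m => prod_nonneg fun p _ => by positivity
  set c : ℝ := N * (2 ^ k * (∏ i, (2 * 3 ^ D.n i : ℝ)) * Real.sqrt (D.Rr N L Q μ A)) with hc
  have hc0 : 0 ≤ c := by
    have := Real.sqrt_nonneg (D.Rr N L Q μ A)
    positivity
  have hfib : ∀ t ∈ T, ∑ ro ∈ (D.RO N L Q μ).filter (fun ro => key ro = t),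
      |D.hh N L Q μ A (D.VV N L Q μ ro) (D.cI N L Q μ s e ro) (D.go N L Q μ ro)| ≤
      c * W t.1 := by
    intro t _
    rcases eq_empty_or_nonempty ((D.RO N L Q μ).filter (fun ro => key ro = t)) with hE | ⟨ro, hro⟩
    · rw [hE, sum_empty]
      exact mul_nonneg hc0 (hW0 _)
    · have h1 := D.fibre_err N L Q μ hQ hμ hL hA s e
        ((D.RO N L Q μ).filter (fun ro => key ro = t)) (filter_subset _ _) hro
        (fun r hr r' hr' => by
          have h2 : key r = key r' := (mem_filter.1 hr).2.trans (mem_filter.1 hr').2.symm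
          simp only [hkey, Prod.mk.injEq] at h2
          obtain ⟨h3, h4, h5⟩ := h2
          refine ⟨h3, fun i hi => ?_, fun i => congrFun h5 i⟩
          have h6 := congrFun h4 i
          simpa only [if_pos hi] using h6)
      refine h1.trans (le_of_eq ?_)
      have h2 : t.1 = mask A (Zc L Q μ) ro := by
        rw [← (mem_filter.1 hro).2]
      rw [h2]
      simp only [hc, hW]
      ring
  refine (sum_le_sum hfib).trans ?_
  rw [← mul_sum]
  have hsum : ∑ t ∈ T, W t.1 = (∑ m ∈ D.RF N L Q μ, W m) *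
      (((Fintype.piFinset fun _ : Fin k => range X).card : ℝ) *
        ((Fintype.piFinset fun _ : Fin k => Icc (-(D.K : ℤ)) D.K).card : ℝ)) := by
    rw [hT, sum_product, sum_mul]
    refine sum_congr rfl fun m _ => ?_
    simp only [sum_const, nsmul_eq_mul, card_product]
    push_cast
    ring
  have hc1 : ((Fintype.piFinset fun _ : Fin k => range X).card : ℝ) ≤ (3 * L) ^ k := by
    rw [Fintype.card_piFinset, prod_const, card_range, card_univ, Fintype.card_fin]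
    push_cast
    exact pow_le_pow_left₀ (Nat.cast_nonneg _) hXL k
  have hc2 : ((Fintype.piFinset fun _ : Fin k => Icc (-(D.K : ℤ)) D.K).card : ℝ) =
      (2 * D.K + 1) ^ k := by
    rw [Fintype.card_piFinset, prod_const, card_univ, Fintype.card_fin, Int.card_Icc]
    have : ((D.K : ℤ) + 1 - -(D.K : ℤ)).toNat = 2 * D.K + 1 := by omega
    rw [this]
    push_cast
    rfl
  have hs := D.sum_RF N L Q μ
  have hs0 : 0 ≤ ∑ m ∈ D.RF N L Q μ, W m := sum_nonneg fun m _ => hW0 m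
  have h1 : ∑ t ∈ T, W t.1 ≤ D.Po N L Q μ * ((3 * L) ^ k * (2 * D.K + 1) ^ k) := by
    rw [hsum, hc2]
    refine mul_le_mul hs ?_ (by positivity) hPo0
    exact mul_le_mul_of_nonneg_right hc1 (by positivity)
  refine (mul_le_mul_of_nonneg_left h1 hc0).trans (le_of_eq ?_)
  rw [hc]
  ring

end Sys

end Stoll308.TW
end

section
set_option autoImplicit false

/-!
Few integers have a large divisor composed of small primes (Rankin's method).
-/

namespace Stoll308.TW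

open Finset Stoll308.Gen

theorem rankin_sum : ∃ C : ℝ, 0 < C ∧ ∀ x y : ℝ, 3 ≤ x → 0 < y →
    ∑ T ∈ ((Icc 1 ⌊x⌋₊).filter Nat.Prime).powerset.filter
      (fun T : Finset ℕ => y ≤ ∏ p ∈ T, (p : ℝ)), ∏ p ∈ T, 1 / (p : ℝ) ≤
      C * Real.log x ^ C * Real.exp (-(Real.log y / Real.log x)) := by
  obtain ⟨C₁, hC₁, h4⟩ := euler_const (Real.exp 1) (by positivity)
  refine ⟨max C₁ (Real.exp 1), lt_of_lt_of_le hC₁ (le_max_left _ _), fun x y hx hy => ?_⟩
  have hX3 : 3 ≤ ⌊x⌋₊ := Nat.le_floor (by exact_mod_cast hx)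
  have hX1 : (3 : ℝ) ≤ ⌊x⌋₊ := by exact_mod_cast hX3
  have hxf : (⌊x⌋₊ : ℝ) ≤ x := Nat.floor_le (by linarith)
  have hE := h4 _ hX3
  set L := Real.log x with hL
  have hL1 : 1 ≤ L := by
    rw [hL, Real.le_log_iff_exp_le (by linarith)]
    have := Real.exp_one_lt_d9
    linarith
  have hL0 : 0 < L := by linarith
  set S := (Icc 1 ⌊x⌋₊).filter Nat.Prime with hS
  have hterm : ∀ T ∈ S.powerset.filter (fun T : Finset ℕ => y ≤ ∏ p ∈ T, (p : ℝ)),
      ∏ p ∈ T, 1 / (p : ℝ) ≤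
        Real.exp (-(Real.log y / L)) * ∏ p ∈ T, (Real.exp 1 / (p : ℝ)) := by
    intro T hT
    rw [mem_filter, mem_powerset] at hT
    obtain ⟨hTS, hT2⟩ := hT
    have hp0 : ∀ p ∈ T, (0 : ℝ) < p := fun p hp => by
      have := hTS hp
      rw [hS, mem_filter] at this
      exact_mod_cast this.2.pos
    have hm0 : (0 : ℝ) < ∏ p ∈ T, (p : ℝ) := lt_of_lt_of_le hy hT2
    have h1 : Real.log y ≤ ∑ p ∈ T, Real.log (p : ℝ) := by
      rw [← Real.log_prod fun p hp => (hp0 p hp).ne']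
      exact Real.log_le_log hy hT2
    have h2 : ∑ p ∈ T, Real.log (p : ℝ) ≤ T.card * L := by
      rw [← nsmul_eq_mul, ← sum_const]
      refine sum_le_sum fun p hp => ?_
      have := hTS hp
      rw [hS, mem_filter, mem_Icc] at this
      exact Real.log_le_log (hp0 p hp) ((by exact_mod_cast this.1.2 : (p : ℝ) ≤ ⌊x⌋₊).trans hxf)
    have h3 : (1 : ℝ) ≤ Real.exp (-(Real.log y / L)) * Real.exp 1 ^ T.card := by
      rw [← Real.exp_nat_mul, ← Real.exp_add, mul_one]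
      refine Real.one_le_exp ?_
      have : Real.log y / L ≤ T.card := by
        rw [div_le_iff₀ hL0]
        exact h1.trans h2
      linarith
    have h5 : ∏ p ∈ T, (Real.exp 1 / (p : ℝ)) = Real.exp 1 ^ T.card * ∏ p ∈ T, 1 / (p : ℝ) := by
      rw [← prod_const, ← prod_mul_distrib]
      exact prod_congr rfl fun p _ => by ring
    rw [h5, ← mul_assoc]
    exact le_mul_of_one_le_left (prod_nonneg fun p _ => by positivity) h3
  refine (sum_le_sum hterm).trans ?_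
  rw [← mul_sum]
  have h6 : ∑ T ∈ S.powerset.filter (fun T : Finset ℕ => y ≤ ∏ p ∈ T, (p : ℝ)),
      ∏ p ∈ T, (Real.exp 1 / (p : ℝ)) ≤ ∏ p ∈ S, (1 + Real.exp 1 / (p : ℝ)) := by
    rw [prod_one_add]
    refine sum_le_sum_of_subset_of_nonneg (filter_subset _ _) fun T _ _ =>
      prod_nonneg fun p _ => by positivity
  have h7 : ∏ p ∈ S, (1 + Real.exp 1 / (p : ℝ)) ≤
      max C₁ (Real.exp 1) * L ^ (max C₁ (Real.exp 1)) := by
    refine hE.trans ?_
    have h8 : 0 ≤ Real.log (⌊x⌋₊ : ℝ) := Real.log_nonneg (by linarith)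
    have h9 : Real.log (⌊x⌋₊ : ℝ) ^ Real.exp 1 ≤ L ^ Real.exp 1 :=
      Real.rpow_le_rpow h8 (Real.log_le_log (by linarith) hxf) (Real.exp_pos _).le
    have h10 : L ^ Real.exp 1 ≤ L ^ (max C₁ (Real.exp 1)) :=
      Real.rpow_le_rpow_of_exponent_le hL1 (le_max_right _ _)
    exact mul_le_mul (le_max_left _ _) (h9.trans h10) (by positivity)
      (le_trans hC₁.le (le_max_left _ _))
  calc Real.exp (-(Real.log y / L)) * ∑ T ∈ S.powerset.filter
        (fun T : Finset ℕ => y ≤ ∏ p ∈ T, (p : ℝ)), ∏ p ∈ T, (Real.exp 1 / (p : ℝ)) ≤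
      Real.exp (-(Real.log y / L)) * (max C₁ (Real.exp 1) * L ^ (max C₁ (Real.exp 1))) :=
        mul_le_mul_of_nonneg_left (h6.trans h7) (Real.exp_pos _).le
    _ = _ := by ring

private lemma card_mult (N d : ℕ) (hd : 0 < d) :
    (((Icc (-(N : ℤ)) N).filter fun t => t ≠ 0 ∧ (d : ℤ) ∣ t).card : ℝ) ≤ 2 * N / d := by
  classical
  have h1 : ((Icc (-(N : ℤ)) N).filter fun t => t ≠ 0 ∧ (d : ℤ) ∣ t) ⊆
      ((Icc (-((N / d : ℕ) : ℤ)) (N / d : ℕ)).erase 0).image fun t => (d : ℤ) * t := by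
    intro t ht
    rw [mem_filter, mem_Icc] at ht
    obtain ⟨⟨h1, h2⟩, h3, s, hs⟩ := ht
    rw [mem_image]
    refine ⟨s, ?_, hs.symm⟩
    rw [mem_erase, mem_Icc]
    refine ⟨?_, ?_⟩
    · rintro rfl
      exact h3 (by rw [hs, mul_zero])
    · have h4 : s.natAbs ≤ N / d := by
        rw [Nat.le_div_iff_mul_le hd]
        have h5 : t.natAbs = d * s.natAbs := by
          rw [hs, Int.natAbs_mul, Int.natAbs_natCast]
        rw [mul_comm, ← h5]
        omega
      generalize N / d = q at h4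
      omega
  have h2 := (card_le_card h1).trans card_image_le
  have h4 : ((N / d : ℕ) : ℝ) ≤ (N : ℝ) / d := Nat.cast_div_le
  have h3 : ((Icc (-(N : ℤ)) N).filter fun t => t ≠ 0 ∧ (d : ℤ) ∣ t).card ≤ 2 * (N / d) := by
    refine h2.trans ?_
    generalize N / d = q
    rw [card_erase_of_mem (by rw [mem_Icc]; omega), Int.card_Icc]
    omega
  calc (((Icc (-(N : ℤ)) N).filter fun t => t ≠ 0 ∧ (d : ℤ) ∣ t).card : ℝ) ≤
        ((2 * (N / d) : ℕ) : ℝ) := by exact_mod_cast h3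
    _ = 2 * ((N / d : ℕ) : ℝ) := by push_cast; ring
    _ ≤ 2 * ((N : ℝ) / d) := by linarith
    _ = _ := by ring

open Classical in
theorem smooth_small (C₀ : ℕ) : ∃ C : ℝ, 0 < C ∧ ∀ (N : ℕ) (x y : ℝ), 3 ≤ x → 0 < y →
    (((Icc (-(N : ℤ)) N).filter fun t => t ≠ 0 ∧ ∃ T : Finset ℕ, T ⊆ bigPrimes C₀ t ∧
      (∀ p ∈ T, (p : ℝ) ≤ x) ∧ y ≤ ∏ p ∈ T, (p : ℝ)).card : ℝ) ≤
      C * N * Real.log x ^ C * Real.exp (-(Real.log y / Real.log x)) := by
  obtain ⟨C, hC, h⟩ := rankin_sum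
  refine ⟨2 * C, by linarith, fun N x y hx hy => ?_⟩
  set 𝒯 := ((Icc 1 ⌊x⌋₊).filter Nat.Prime).powerset.filter
      (fun T : Finset ℕ => y ≤ ∏ p ∈ T, (p : ℝ)) with h𝒯
  have h1 : ((Icc (-(N : ℤ)) N).filter fun t => t ≠ 0 ∧ ∃ T : Finset ℕ, T ⊆ bigPrimes C₀ t ∧
      (∀ p ∈ T, (p : ℝ) ≤ x) ∧ y ≤ ∏ p ∈ T, (p : ℝ)) ⊆
      𝒯.biUnion fun T => (Icc (-(N : ℤ)) N).filter fun t => t ≠ 0 ∧ ((∏ p ∈ T, p : ℕ) : ℤ) ∣ t := by
    intro t ht
    rw [mem_filter] at ht
    obtain ⟨ht, h0, T, hT, hTx, hTy⟩ := ht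
    have hpr : ∀ p ∈ T, p.Prime ∧ p ∣ t.natAbs := fun p hp => by
      have := hT hp
      rw [bigPrimes, mem_filter, Nat.mem_primeFactors] at this
      exact ⟨this.1.1, this.1.2.1⟩
    rw [mem_biUnion]
    refine ⟨T, ?_, ?_⟩
    · rw [h𝒯, mem_filter, mem_powerset]
      refine ⟨fun p hp => ?_, hTy⟩
      rw [mem_filter, mem_Icc]
      exact ⟨⟨(hpr p hp).1.one_le, Nat.le_floor (hTx p hp)⟩, (hpr p hp).1⟩
    · rw [mem_filter]
      refine ⟨ht, h0, ?_⟩
      rw [Int.natCast_dvd]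
      exact Finset.prod_primes_dvd _ (fun p hp => (hpr p hp).1.prime) fun p hp => (hpr p hp).2
  have h2 : (((Icc (-(N : ℤ)) N).filter fun t => t ≠ 0 ∧ ∃ T : Finset ℕ, T ⊆ bigPrimes C₀ t ∧
      (∀ p ∈ T, (p : ℝ) ≤ x) ∧ y ≤ ∏ p ∈ T, (p : ℝ)).card : ℝ) ≤
      ∑ T ∈ 𝒯, 2 * (N : ℝ) * ∏ p ∈ T, 1 / (p : ℝ) := by
    have h5 := (card_le_card h1).trans card_biUnion_le
    refine (Nat.cast_le (α := ℝ).2 h5).trans ?_
    rw [Nat.cast_sum]
    refine sum_le_sum fun T hT => ?_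
    rw [h𝒯, mem_filter, mem_powerset] at hT
    have hpos : 0 < ∏ p ∈ T, p := prod_pos fun p hp => (mem_filter.1 (hT.1 hp)).2.pos
    refine le_trans ?_ ((card_mult N _ hpos).trans (le_of_eq ?_))
    · push_cast
      exact le_rfl
    · push_cast
      rw [prod_div_distrib, prod_const_one]
      ring
  refine h2.trans ?_
  rw [← mul_sum]
  have h3 := h x y hx hy
  have hL1 : 1 ≤ Real.log x := by
    rw [Real.le_log_iff_exp_le (by linarith)]
    have := Real.exp_one_lt_d9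
    linarith
  have h4 : Real.log x ^ C ≤ Real.log x ^ (2 * C) :=
    Real.rpow_le_rpow_of_exponent_le hL1 (by linarith)
  calc 2 * (N : ℝ) * ∑ T ∈ 𝒯, ∏ p ∈ T, 1 / (p : ℝ) ≤
      2 * (N : ℝ) * (C * Real.log x ^ C * Real.exp (-(Real.log y / Real.log x))) :=
        mul_le_mul_of_nonneg_left h3 (by positivity)
    _ = 2 * C * N * Real.exp (-(Real.log y / Real.log x)) * Real.log x ^ C := by ring
    _ ≤ 2 * C * N * Real.exp (-(Real.log y / Real.log x)) * Real.log x ^ (2 * C) :=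
        mul_le_mul_of_nonneg_left h4 (by positivity)
    _ = _ := by ring

end Stoll308.TW
end

section
set_option autoImplicit false

/-!
The main class (as `Gen.nclass_c`).
-/

namespace Stoll308.TW

open Finset Stoll308.Gen

variable {k : ℕ}

private lemma zz_mono' {L : ℝ} (hL : 1 ≤ L) (Q : ℕ) {x y : ℝ} (hxy : x ≤ y) :
    zz L Q x ≤ zz L Q y := by
  unfold zz
  refine Real.exp_le_exp.2 ?_
  refine Real.rpow_le_rpow_of_exponent_le hL ?_
  exact div_le_div_of_nonneg_right hxy (Nat.cast_nonneg _)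

private lemma zz_top' (L : ℝ) {Q : ℕ} (hQ : 0 < Q) : zz L Q Q = Real.exp L := by
  unfold zz
  rw [div_self (by exact_mod_cast hQ.ne'), Real.rpow_one]

namespace Sys

variable (D : Sys k) (N : ℕ) (L : ℝ) (Q : ℕ) (μ : Fin k → ℕ)

theorem cond_nonneg {c : (ℕ → Lab k) → ℕ → ℕ → ℝ} (hc : ∀ r p x, |c r p x| ≤ 1)
    (ri : ℕ → Lab k) (g : (i : Fin k) → Fin (D.n i) → ℤ) : 0 ≤ D.cond N L Q μ c ri g := by
  unfold cond
  refine prod_nonneg fun p _ => prod_nonneg fun x _ => ?_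
  have h1 : |c ri p x * D.ψ (AA L Q μ p) p (ri p) x g| ≤ 1 := by
    rw [abs_mul]
    exact mul_le_one₀ (hc ri p x) (abs_nonneg _) (D.ψ_le _ _ _ _ _)
  have := (abs_le.1 h1).1
  linarith

section one

variable {D L Q μ} {t : ℤ} {r : ℕ → Lab k}

/-- The primes with a label are at most the product. -/
private lemma le_XX (h : D.Cls L Q μ t r) {p : ℕ} {i : Fin k} {a : ℕ} (hp : r p = .r i a) :
    p ∈ bigPrimes D.C₀ t ∧ (p : ℝ) ≤ D.XX t r i := by
  have h1 : p ∈ bigPrimes D.C₀ t := by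
    rw [← h.1.1 p, hp]
    intro hh
    cases hh
  refine ⟨h1, ?_⟩
  have h2 : p ∈ cpt i (bigPrimes D.C₀ t) r := by
    unfold cpt
    rw [mem_filter]
    refine ⟨h1, ?_⟩
    rw [hp]
    rfl
  have h3 : p ≤ D.XX t r i := by
    unfold XX
    refine Nat.le_of_dvd (prod_pos fun q hq => ?_) (dvd_prod_of_mem (fun q => q) h2)
    exact (prime_of_big (mem_filter.1 hq).1).pos
  exact_mod_cast h3

private lemma le_exp (h : D.Cls L Q μ t r) {p : ℕ} {i : Fin k} {a : ℕ} (hp : r p = .r i a) :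
    (p : ℝ) ≤ zz L Q Q := (le_XX h hp).2.trans (h.2.1 i).2.2

/-- A prime labelled by `i` is at most `zz (μ i + 1)`. -/
private lemma not_gt (h : D.Cls L Q μ t r) {p : ℕ} {i : Fin k} {a : ℕ} (hp : r p = .r i a) :
    ¬ zz L Q ((μ i : ℝ) + 1) < (p : ℝ) := by
  intro h1
  rcases (h.2.1 i).2.1 with h2 | h2
  · have := (le_XX h hp).2
    linarith
  · have h3 := le_exp h hp
    have h4 : ((μ i : ℝ) + 1) = (Q : ℝ) := by exact_mod_cast h2
    rw [h4] at h1
    linarith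

private lemma mem_AA_of_W {C₀ N : ℕ} (h : D.Cls L Q μ t r) {p : ℕ} {i : Fin k} {a : ℕ}
    (hp : r p = .r i a) (hW : p ∈ WW L Q μ C₀ N) : i ∈ AA L Q μ p := by
  classical
  unfold AA
  rw [mem_filter]
  refine ⟨mem_univ _, ?_⟩
  unfold WW at hW
  rw [mem_filter] at hW
  rcases hW.2.2.2 i with h1 | h1
  · exact h1
  · exact absurd h1 (not_gt h hp)

private lemma mem_PX (ht : t ∈ Icc (-(N : ℤ)) N) (hsq : Squarefree t) (h : D.Cls L Q μ t r)
    {p : ℕ} (hp : r p ≠ .o) : p ∈ PX D.C₀ N :=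
  big_subset D.C₀ ht hsq.ne_zero ((h.1.1 p).1 hp)

private lemma mem_SO_of_gt (ht : t ∈ Icc (-(N : ℤ)) N) (hsq : Squarefree t)
    (h : D.Cls L Q μ t r) {p : ℕ} {i : Fin k} {a : ℕ} (hp : r p = .r i a)
    (hZ : zz L Q ((μ i : ℝ) - 1) < (p : ℝ)) : p ∈ SO L Q μ D.C₀ N := by
  unfold SO
  rw [mem_filter]
  refine ⟨mem_PX N ht hsq h (by rw [hp]; intro hh; cases hh), le_exp h hp, ?_⟩
  intro hW
  have h1 := mem_AA_of_W h hp hW
  unfold AA at h1
  exact absurd (mem_filter.1 h1).2 (not_le.2 hZ)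

end one

variable {D L Q μ} {t : ℤ} {r : ℕ → Lab k}

open Classical in
/-- The restriction of a label function. -/
private noncomputable def res (S : Finset ℕ) (r : ℕ → Lab k) (p : ℕ) : Lab k :=
  if p ∈ S then r p else .o

private lemma spt_res {S S' : Finset ℕ} (h : S' ⊆ S) (r : ℕ → Lab k) :
    spt S' (res S r) = spt S' r := by
  unfold spt
  refine filter_congr fun p hp => ?_
  unfold res
  rw [if_pos (h hp)]

/-- The cuts of the outer part. -/
private lemma cut_eq (hL : 1 ≤ L) (ht : t ∈ Icc (-(N : ℤ)) N) (hsq : Squarefree t)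
    (h : D.Cls L Q μ t r) (i : Fin k) :
    cut (Zc L Q μ) i (SO L Q μ D.C₀ N) (res (SO L Q μ D.C₀ N) r) =
      cut (Zc L Q μ) i (bigPrimes D.C₀ t) r := by
  ext p
  unfold cut cpt
  rw [mem_filter, mem_filter, mem_filter, mem_filter]
  constructor
  · rintro ⟨⟨h1, h2⟩, h3⟩
    unfold res at h2
    rw [if_pos h1] at h2
    exact ⟨⟨(le_XX h h2).1, h2⟩, h3⟩
  · rintro ⟨⟨h1, h2⟩, h3⟩
    have h4 : zz L Q ((μ i : ℝ) - 1) < (p : ℝ) := by
      refine lt_of_le_of_lt ?_ h3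
      unfold Zc
      exact zz_mono' hL Q (by linarith)
    have h5 := mem_SO_of_gt N ht hsq h h2 h4
    refine ⟨⟨h5, ?_⟩, h3⟩
    unfold res
    rw [if_pos h5]
    exact h2

private lemma cut_sub {Z : Fin k → ℝ} {i : Fin k} {S : Finset ℕ} {r : ℕ → Lab k} :
    cut Z i S r ⊆ S := by
  unfold cut cpt
  exact (filter_subset _ _).trans (filter_subset _ _)

private lemma rts_res {S : Finset ℕ} {r : ℕ → Lab k} {p : ℕ} (hp : p ∈ S) :
    rts (res S r) p = rts r p := by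
  unfold rts res
  rw [if_pos hp]

/-- The size of the outer part is at least `VV`. -/
private lemma VV_le (hS : ∀ p ∈ SO L Q μ D.C₀ N, 0 < p) (ro : ℕ → Lab k) :
    D.VV N L Q μ ro ≤ ∏ p ∈ spt (SO L Q μ D.C₀ N) ro, p := by
  classical
  have h1 : spt (SO L Q μ D.C₀ N) (mask (Big μ) (Zc L Q μ) ro) ∪
      (Big μ).biUnion (fun i => cut (Zc L Q μ) i (SO L Q μ D.C₀ N) ro) ⊆
        spt (SO L Q μ D.C₀ N) ro := by
    intro p hp
    unfold spt
    rw [mem_filter]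
    rcases mem_union.1 hp with h | h
    · unfold spt at h
      rw [mem_filter] at h
      refine ⟨h.1, fun h0 => h.2 ?_⟩
      unfold mask
      rw [h0]
    · obtain ⟨i, _, hi⟩ := mem_biUnion.1 h
      refine ⟨cut_sub hi, ?_⟩
      have h2 := (mem_filter.1 (mem_filter.1 hi).1).2
      rw [h2]
      intro hh
      cases hh
  have hd1 : Disjoint (spt (SO L Q μ D.C₀ N) (mask (Big μ) (Zc L Q μ) ro))
      ((Big μ).biUnion (fun i => cut (Zc L Q μ) i (SO L Q μ D.C₀ N) ro)) := by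
    rw [disjoint_left]
    intro p hp hp'
    obtain ⟨i, hiB, hi⟩ := mem_biUnion.1 hp'
    unfold spt at hp
    rw [mem_filter] at hp
    apply hp.2
    have h2 := (mem_filter.1 (mem_filter.1 hi).1).2
    have h3 := (mem_filter.1 hi).2
    unfold mask
    rw [h2]
    simp only
    rw [if_pos ⟨hiB, h3⟩]
  have hd2 : ∀ i ∈ Big μ, ∀ j ∈ Big μ, i ≠ j →
      Disjoint (cut (Zc L Q μ) i (SO L Q μ D.C₀ N) ro) (cut (Zc L Q μ) j (SO L Q μ D.C₀ N) ro) := by
    intro i _ j _ hij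
    rw [disjoint_left]
    intro p hp hp'
    have h2 := (mem_filter.1 (mem_filter.1 hp).1).2
    have h3 := (mem_filter.1 (mem_filter.1 hp').1).2
    rw [h2] at h3
    exact hij (Lab.r.inj h3).1
  unfold VV
  rw [← prod_pow_eq_pow_sum]
  refine le_trans (Nat.mul_le_mul_left _ (prod_le_prod' (g := fun i =>
    ∏ p ∈ cut (Zc L Q μ) i (SO L Q μ D.C₀ N) ro, p) fun i _ => ?_)) ?_
  · unfold jl
    exact Nat.pow_log_le_self 2 (prod_pos fun p hp => hS p (cut_sub hp)).ne'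
  · rw [← prod_biUnion hd2, ← prod_union hd1]
    exact prod_le_prod_of_subset_of_one_le' h1 fun p hp _ => hS p (mem_filter.1 hp).1

variable (D L Q μ)

theorem cls_c (hQ : 4 ≤ Q) (hμ : ∀ i, μ i < Q) (hL : 1 ≤ L) (T : Finset ℤ)
    (hT : ∀ t ∈ T, t ∈ Icc (-(N : ℤ)) N ∧ Squarefree t ∧ ∃ r, D.Cls L Q μ t r) :
    (T.card : ℝ) ≤ ∑ s ∈ Icc (-(P0 D.C₀ : ℤ)) (P0 D.C₀), ∑ e : Finset (Fin k) → Fin D.m,
      ∑ ro ∈ D.RO N L Q μ, ∑ ri ∈ D.RI N L Q μ, D.om N L Q μ (D.VV N L Q μ ro) ri *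
        D.cond N L Q μ (D.cI N L Q μ s e ro) ri (D.go N L Q μ ro) := by
  classical
  have hom0 : ∀ V ri, 0 ≤ D.om N L Q μ V ri := by
    intro V ri
    unfold om
    split_ifs <;> norm_num
  have hcI : ∀ s e ro (r : ℕ → Lab k) p x, |D.cI N L Q μ s e ro r p x| ≤ 1 := by
    intro s e ro r p x
    unfold cI
    exact D.cf_le _ _ _ _ _ _ _
  have hterm : ∀ s e ro ri, 0 ≤ D.om N L Q μ (D.VV N L Q μ ro) ri *
      D.cond N L Q μ (D.cI N L Q μ s e ro) ri (D.go N L Q μ ro) := fun s e ro ri =>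
    mul_nonneg (hom0 _ _) (cond_nonneg D N L Q μ (hcI s e ro) _ _)
  have hPX : ∀ p ∈ PX D.C₀ N, p.Prime := by
    intro p hp
    unfold PX at hp
    exact (mem_filter.1 hp).2.1
  have hSOpos : ∀ p ∈ SO L Q μ D.C₀ N, 0 < p := by
    intro p hp
    unfold SO at hp
    exact (hPX p (mem_filter.1 hp).1).pos
  -- choices
  have hch : ∀ t ∈ T, ∃ (r : ℕ → Lab k) (e : Finset (Fin k) → Fin D.m), D.Cls L Q μ t r ∧
      ∀ A, ∀ p, mask A (Zc L Q μ) r p ∈ D.Lb A p → ∀ c ∈ D.J A p (mask A (Zc L Q μ) r p),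
        D.cf (e A) (sp D.C₀ t) (mask A (Zc L Q μ) r)
          (D.kv A (Zc L Q μ) (bigPrimes D.C₀ t) r) A p c *
          D.ψ A p (mask A (Zc L Q μ) r p) c (D.gv (Zc L Q μ) (bigPrimes D.C₀ t) r) = 1 := by
    intro t ht
    obtain ⟨h1, h2, r, hr⟩ := hT t ht
    have h3 := fun A => hr.1.2.2 A (Zc L Q μ)
    choose e he using h3
    exact ⟨r, e, hr, he⟩
  rcases T.eq_empty_or_nonempty with hTe | ⟨t₀, ht₀⟩
  · rw [hTe, card_empty, Nat.cast_zero]
    exact sum_nonneg fun s _ => sum_nonneg fun e _ => sum_nonneg fun ro _ =>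
      sum_nonneg fun ri _ => hterm s e ro ri
  have hne : Nonempty (Finset (Fin k) → Fin D.m) := by
    obtain ⟨_, e₀, _⟩ := hch t₀ ht₀
    exact ⟨e₀⟩
  have hneL : Nonempty (ℕ → Lab k) := ⟨fun _ => .o⟩
  choose! r e hcls hrel using hch
  have hjoin : ∀ t ∈ T, ∀ p, p ∉ SI L Q μ D.C₀ N → p ∉ SO L Q μ D.C₀ N → r t p = .o := by
    intro t ht p h1 h2
    obtain ⟨h3, h4, _⟩ := hT t ht
    by_contra h5
    have h6 := mem_PX N h3 h4 (hcls t ht) h5
    by_cases h7 : p ∈ WW L Q μ D.C₀ N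
    · apply h1
      unfold SI
      rw [mem_filter]
      exact ⟨h6, Or.inl h7⟩
    · by_cases h8 : (p : ℝ) ≤ zz L Q Q
      · apply h2
        unfold SO
        rw [mem_filter]
        exact ⟨h6, h8, h7⟩
      · apply h1
        unfold SI
        rw [mem_filter]
        exact ⟨h6, Or.inr (not_le.1 h8)⟩
  have hdisj : Disjoint (SO L Q μ D.C₀ N) (SI L Q μ D.C₀ N) := by
    rw [disjoint_left]
    intro p h1 h2
    unfold SO at h1
    unfold SI at h2
    rw [mem_filter] at h1 h2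
    rcases h2.2 with h | h
    · exact h1.2.2 h
    · exact absurd h1.2.1 (not_le.2 h)
  have hWsub : WW L Q μ D.C₀ N ⊆ SI L Q μ D.C₀ N := by
    intro p hp
    unfold SI
    rw [mem_filter]
    refine ⟨?_, Or.inl hp⟩
    unfold WW at hp
    exact (mem_filter.1 hp).1
  have hbig : ∀ t ∈ T, spt (SO L Q μ D.C₀ N) (r t) ∪ spt (SI L Q μ D.C₀ N) (r t) =
      bigPrimes D.C₀ t := by
    intro t ht
    ext p
    unfold spt
    rw [mem_union, mem_filter, mem_filter, ← (hcls t ht).1.1 p]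
    constructor
    · rintro (h | h)
      · exact h.2
      · exact h.2
    · intro h
      by_contra h1
      push Not at h1
      exact h (hjoin t ht p (fun h2 => h (h1.2 h2)) fun h2 => h (h1.1 h2))
  have hbigprod : ∀ t ∈ T, (∏ p ∈ spt (SO L Q μ D.C₀ N) (r t), p) *
      ∏ p ∈ spt (SI L Q μ D.C₀ N) (r t), p ≤ N := by
    intro t ht
    obtain ⟨h3, h4, _⟩ := hT t ht
    rw [← prod_union, hbig t ht]
    · exact prod_big_le h3 h4
    · unfold spt
      exact disjoint_filter_filter hdisj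
  have h := sum_le_of_inj T (Icc (-(P0 D.C₀ : ℤ)) (P0 D.C₀) ×ˢ
      ((univ : Finset (Finset (Fin k) → Fin D.m)) ×ˢ (D.RO N L Q μ ×ˢ D.RI N L Q μ)))
    (fun t => (sp D.C₀ t, e t, res (SO L Q μ D.C₀ N) (r t), res (SI L Q μ D.C₀ N) (r t))) ?_ ?_
    (fun _ => (1 : ℝ))
    (fun y => D.om N L Q μ (D.VV N L Q μ y.2.2.1) y.2.2.2 *
        D.cond N L Q μ (D.cI N L Q μ y.1 y.2.1 y.2.2.1) y.2.2.2 (D.go N L Q μ y.2.2.1)) ?_ ?_
  · rw [sum_const, nsmul_eq_mul, mul_one] at h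
    refine h.trans (le_of_eq ?_)
    rw [sum_product]
    refine sum_congr rfl fun s _ => ?_
    rw [sum_product]
    refine sum_congr rfl fun e' _ => ?_
    rw [sum_product]
  · intro t ht
    obtain ⟨h1, h2, _⟩ := hT t ht
    have hc := hcls t ht
    simp only [mem_product, mem_univ, true_and]
    refine ⟨sp_mem D.C₀ h2, ?_, ?_⟩
    · unfold RO
      rw [mem_filter]
      constructor
      · unfold RF
        rw [mem_piF]
        constructor
        · intro p hp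
          unfold res
          rw [if_pos hp, mem_insert]
          exact hc.1.2.1 p
        · intro p hp
          unfold res
          rw [if_neg hp]
      · intro i hi
        rw [cut_eq N hL h1 h2 hc i]
        refine ⟨hc.2.2.1 i hi, ?_⟩
        rw [← zz_top' L (show 0 < Q by omega)]
        refine le_trans ?_ (hc.2.1 i).2.2
        have h5 : ∏ p ∈ cut (Zc L Q μ) i (bigPrimes D.C₀ t) (r t), p ≤ D.XX t (r t) i := by
          unfold XX
          refine prod_le_prod_of_subset_of_one_le' ?_ fun p hp _ => ?_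
          · unfold cut
            exact filter_subset _ _
          · exact (prime_of_big (mem_filter.1 hp).1).one_lt.le
        exact_mod_cast h5
    · unfold RI
      rw [mem_filter]
      constructor
      · rw [mem_piF]
        constructor
        · intro p hp
          unfold res
          rw [if_pos hp, mem_insert]
          rcases hc.1.2.1 p with h0 | h0
          · exact Or.inl h0
          · right
            unfold Lb Lbl at h0 ⊢
            rw [mem_union] at h0 ⊢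
            rcases h0 with h0 | h0
            · exact Or.inl h0
            · right
              rw [mem_biUnion] at h0 ⊢
              obtain ⟨i, _, hi⟩ := h0
              obtain ⟨a, _, ha⟩ := mem_image.1 hi
              refine ⟨i, ?_, hi⟩
              have hW : p ∈ WW L Q μ D.C₀ N := by
                unfold SI at hp
                rcases (mem_filter.1 hp).2 with h6 | h6
                · exact h6
                · exact absurd (le_exp hc ha.symm) (not_le.2 h6)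
              exact mem_AA_of_W hc ha.symm hW
        · intro p hp
          unfold res
          rw [if_neg hp]
      · intro i hi
        refine le_trans ?_ (hc.2.2.2 i hi)
        rw [spt_res hWsub]
        have h5 : ∏ p ∈ (spt (WW L Q μ D.C₀ N) (r t)).filter
              (fun p : ℕ => (p : ℝ) ≤ zz L Q ((μ i : ℝ) - 1)), p ≤
            ∏ p ∈ (bigPrimes D.C₀ t).filter
              (fun p : ℕ => (p : ℝ) ≤ zz L Q ((μ i : ℝ) - 1)), p := by
          refine prod_le_prod_of_subset_of_one_le' ?_ fun p hp _ => ?_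
          · intro p hp
            rw [mem_filter] at hp ⊢
            refine ⟨?_, hp.2⟩
            rw [← (hcls t ht).1.1 p]
            exact (mem_filter.1 hp.1).2
          · exact (prime_of_big (mem_filter.1 hp).1).one_lt.le
        have h6 := (Nat.cast_le (α := ℝ)).2 h5
        rw [Nat.cast_prod, Nat.cast_prod] at h6
        exact h6
  · intro t ht t' ht' htt
    simp only [Prod.mk.injEq] at htt
    obtain ⟨e1, _, e2, e3⟩ := htt
    refine sp_inj D.C₀ (hT t ht).2.1 (hT t' ht').2.1 e1 ?_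
    rw [← hbig t ht, ← hbig t' ht', ← spt_res (subset_refl _) (r t),
      ← spt_res (subset_refl (SI L Q μ D.C₀ N)) (r t), e2, e3, spt_res (subset_refl _),
      spt_res (subset_refl _)]
  · intro t ht
    obtain ⟨h1, h2, _⟩ := hT t ht
    have hc := hcls t ht
    obtain ⟨ro, hro⟩ : ∃ ro, ro = res (SO L Q μ D.C₀ N) (r t) := ⟨_, rfl⟩
    obtain ⟨ri, hri⟩ : ∃ ri, ri = res (SI L Q μ D.C₀ N) (r t) := ⟨_, rfl⟩
    have ejoin : D.join N L Q μ ro ri = r t := by
      funext p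
      unfold join
      rw [hro, hri]
      unfold res
      by_cases hp : p ∈ SI L Q μ D.C₀ N
      · rw [if_pos hp, if_pos hp]
      · rw [if_neg hp]
        by_cases hp' : p ∈ SO L Q μ D.C₀ N
        · rw [if_pos hp']
        · rw [if_neg hp', hjoin t ht p hp hp']
    have eg : D.go N L Q μ ro = D.gv (Zc L Q μ) (bigPrimes D.C₀ t) (r t) := by
      unfold go gv
      funext i
      rw [hro, cut_eq N hL h1 h2 hc i]
      refine D.g_congr i _ _ _ fun p hp => rts_res ?_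
      rw [← cut_eq N hL h1 h2 hc i] at hp
      exact cut_sub hp
    have ek : ∀ A, D.kv A (Zc L Q μ) (SO L Q μ D.C₀ N) ro =
        D.kv A (Zc L Q μ) (bigPrimes D.C₀ t) (r t) := by
      intro A
      unfold kv
      funext i
      by_cases hi : i ∈ A
      · rw [if_pos hi, if_pos hi, hro, cut_eq N hL h1 h2 hc i]
        refine D.κ_congr i _ _ _ fun p hp => rts_res ?_
        rw [← cut_eq N hL h1 h2 hc i] at hp
        exact cut_sub hp
      · rw [if_neg hi, if_neg hi]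
    have hone : D.cond N L Q μ (D.cI N L Q μ (sp D.C₀ t) (e t) ro) ri (D.go N L Q μ ro) = 1 := by
      unfold cond
      refine prod_eq_one fun p hp => prod_eq_one fun x hx => ?_
      have hpW : p ∈ WW L Q μ D.C₀ N := (mem_filter.1 hp).1
      have hrp : ri p = r t p := by
        rw [hri]
        unfold res
        rw [if_pos (hWsub hpW)]
      have hp0 : r t p ≠ .o := by
        rw [← hrp]
        exact (mem_filter.1 hp).2
      have hmask : mask (AA L Q μ p) (Zc L Q μ) (r t) p = r t p := by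
        unfold mask
        rcases hl : r t p with _ | _ | ⟨i, a⟩
        · rfl
        · rfl
        · simp only
          rw [if_neg]
          rintro ⟨h5, h6⟩
          unfold AA at h5
          have h7 := (mem_filter.1 h5).2
          have h8 : zz L Q ((μ i : ℝ) - 1) ≤ Zc L Q μ i := by
            unfold Zc
            exact zz_mono' hL Q (by linarith)
          linarith
      have hLb : r t p ∈ D.Lb (AA L Q μ p) p := by
        rcases hc.1.2.1 p with h0 | h0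
        · exact absurd h0 hp0
        · unfold Lb Lbl at h0 ⊢
          rw [mem_union] at h0 ⊢
          rcases h0 with h0 | h0
          · exact Or.inl h0
          · right
            rw [mem_biUnion] at h0 ⊢
            obtain ⟨i, _, hi⟩ := h0
            obtain ⟨a, _, ha⟩ := mem_image.1 hi
            exact ⟨i, mem_AA_of_W hc ha.symm hpW, hi⟩
      have h9 := hrel t ht (AA L Q μ p) p (by rw [hmask]; exact hLb) x (by
        rw [hmask, ← hrp]
        exact hx)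
      unfold cI
      rw [ejoin, eg, ek, hrp]
      rw [hmask] at h9
      rw [h9]
      norm_num
    have hom : D.om N L Q μ (D.VV N L Q μ ro) ri = 1 := by
      unfold om
      rw [if_pos]
      have h5 := VV_le N hSOpos (D := D) ro
      have h6 := hbigprod t ht
      rw [hro, spt_res (subset_refl _), ← hro] at h5
      rw [hri, spt_res (subset_refl _)]
      exact (Nat.mul_le_mul_right _ h5).trans h6
    simp only
    rw [← hro, ← hri, hone, hom, mul_one]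
  · intro y _
    exact hterm _ _ _ _

end Sys

end Stoll308.TW
end

section
set_option autoImplicit false

/-!
The sizes of the error terms.
-/

namespace Stoll308.TW

open Finset Stoll308.Gen Filter Topology

variable {k : ℕ}

lemma decay_real (K : ℝ) {a b : ℝ} (ha : 0 < a) (hb : 0 < b) : ∃ L₀ : ℝ, 1 ≤ L₀ ∧
    ∀ L : ℝ, L₀ ≤ L → L ^ K * Real.exp (-(b * L ^ a)) ≤ 1 := by
  have h1 : Tendsto (fun x : ℝ => x ^ (K / a) * Real.exp (-b * x)) atTop (𝓝 0) :=
    tendsto_rpow_mul_exp_neg_mul_atTop_nhds_zero (K / a) b hb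
  have h2 : Tendsto (fun L : ℝ => L ^ a) atTop atTop := tendsto_rpow_atTop ha
  have h3 := (h1.comp h2).eventually_le_const (show (0 : ℝ) < 1 by norm_num)
  obtain ⟨L₀, hL₀⟩ := eventually_atTop.1 h3
  refine ⟨max L₀ 1, le_max_right _ _, fun L hL => ?_⟩
  have h4 := hL₀ L ((le_max_left _ _).trans hL)
  have hL1 : 1 ≤ L := (le_max_right _ _).trans hL
  simp only [Function.comp] at h4
  rw [← Real.rpow_mul (by linarith), mul_div_cancel₀ _ ha.ne', neg_mul] at h4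
  exact h4

lemma rpow_large {a : ℝ} (ha : 0 < a) (M : ℝ) : ∃ L₀ : ℝ, 1 ≤ L₀ ∧
    ∀ L : ℝ, L₀ ≤ L → M ≤ L ^ a := by
  obtain ⟨L₀, hL₀⟩ := eventually_atTop.1 ((tendsto_rpow_atTop ha).eventually_ge_atTop M)
  exact ⟨max L₀ 1, le_max_right _ _, fun L hL => hL₀ L ((le_max_left _ _).trans hL)⟩

lemma log_zz (L : ℝ) (Q : ℕ) (x : ℝ) : Real.log (zz L Q x) = L ^ (x / (Q : ℝ)) :=
  Real.log_exp _

lemma zz_pos (L : ℝ) (Q : ℕ) (x : ℝ) : 0 < zz L Q x := Real.exp_pos _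

lemma zz_top (L : ℝ) {Q : ℕ} (hQ : 1 ≤ Q) : zz L Q (Q : ℝ) = Real.exp L := by
  have hQ0 : (Q : ℝ) ≠ 0 := by
    have : (0 : ℝ) < Q := by exact_mod_cast hQ
    exact this.ne'
  unfold zz
  rw [div_self hQ0, Real.rpow_one]

lemma prod_subset_le (A : ℝ) (hA : 0 ≤ A) : ∃ C : ℝ, 0 < C ∧ ∀ L : ℝ, 2 ≤ L → ∀ s : Finset ℕ,
    (∀ p ∈ s, p.Prime ∧ (p : ℝ) ≤ Real.exp L) → ∏ p ∈ s, (1 + A / (p : ℝ)) ≤ C * L ^ A := by
  obtain ⟨C, hC, h⟩ := euler_const A hA
  refine ⟨C, hC, fun L hL s hs => ?_⟩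
  set X : ℕ := ⌊Real.exp L⌋₊ with hX
  have h3 : (3 : ℝ) ≤ Real.exp L := three_le_exp_two.trans (Real.exp_le_exp.2 hL)
  have hX3 : 3 ≤ X := Nat.le_floor (by exact_mod_cast h3)
  have hXr : (3 : ℝ) ≤ X := by exact_mod_cast hX3
  have hXL : (X : ℝ) ≤ Real.exp L := Nat.floor_le (Real.exp_pos _).le
  have hsub : s ⊆ (Icc 1 X).filter Nat.Prime := by
    intro p hp
    obtain ⟨h1, h2⟩ := hs p hp
    rw [mem_filter, mem_Icc]
    exact ⟨⟨h1.one_lt.le, Nat.le_floor h2⟩, h1⟩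
  have h1 : ∏ p ∈ s, (1 + A / (p : ℝ)) ≤ ∏ p ∈ (Icc 1 X).filter Nat.Prime, (1 + A / (p : ℝ)) := by
    rw [← prod_sdiff hsub]
    have h0 := prod_le_prod (s := (Icc 1 X).filter Nat.Prime \ s) (f := fun _ => (1 : ℝ))
      (g := fun p : ℕ => 1 + A / (p : ℝ)) (fun _ _ => zero_le_one) fun p _ => by
        have : 0 ≤ A / (p : ℝ) := by positivity
        linarith
    rw [prod_const_one] at h0
    exact le_mul_of_one_le_left (prod_nonneg fun p _ => by positivity) h0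
  have hlog0 : 0 ≤ Real.log X := Real.log_nonneg (by linarith)
  have hlog : Real.log X ≤ L := by
    have := Real.log_le_log (by linarith) hXL
    rwa [Real.log_exp] at this
  exact (h1.trans (h X hX3)).trans
    (mul_le_mul_of_nonneg_left (Real.rpow_le_rpow hlog0 hlog hA) hC.le)

namespace Sys

variable (D : Sys k)

/-- The factor in `err_le`. -/
theorem numer (Q : ℕ) (hQ : 4 ≤ Q) : ∃ L₀ : ℝ, 1 ≤ L₀ ∧ ∀ L : ℝ, L₀ ≤ L → ∀ (N : ℕ)
    (μ : Fin k → ℕ), (∀ i, μ i < Q) → ∀ A ⊆ Big μ,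
    2 ^ k * D.Po N L Q μ * ((3 * L) ^ k * (2 * D.K + 1) ^ k) *
      (∏ i, (2 * 3 ^ D.n i : ℝ)) * Real.sqrt (D.Rr N L Q μ A) ≤ L ^ (-(3 : ℝ)) := by
  classical
  have hQr : (4 : ℝ) ≤ Q := by exact_mod_cast hQ
  have hQ0 : (0 : ℝ) < Q := by linarith
  obtain ⟨Cn, hCn, hcn⟩ := prod_subset_le D.K (Nat.cast_nonneg _)
  obtain ⟨Cq, hCq, hcq⟩ := prod_subset_le ((D.K : ℝ) ^ 2) (by positivity)
  -- the constants
  set M : ℝ := ∑ i, (D.n i : ℝ) + 1 with hM
  have hM1 : 1 ≤ M := by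
    have : 0 ≤ ∑ i, (D.n i : ℝ) := sum_nonneg fun i _ => Nat.cast_nonneg _
    linarith
  have hM0 : 0 < M := by linarith
  have hnM : ∀ i, (D.n i : ℝ) ≤ M := fun i => by
    have := single_le_sum (f := fun i => (D.n i : ℝ)) (fun i _ => Nat.cast_nonneg _) (mem_univ i)
    linarith
  have hn0 : ∀ i, (1 : ℝ) ≤ D.n i := fun i => by exact_mod_cast D.n_pos i
  set b : ℝ := 1 / (2 * M) with hb
  have hb0 : 0 < b := by positivity
  have hb1 : b ≤ 1 := by
    rw [hb, div_le_one (by positivity)]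
    linarith
  set E : ℝ := 2 ^ k * Cn * (3 ^ k * (2 * D.K + 1) ^ k) * ∏ i, (2 * 3 ^ D.n i : ℝ) with hE
  have hP0 : 0 < ∏ i, (2 * 3 ^ D.n i : ℝ) := prod_pos fun i _ => by positivity
  have hE0 : 0 < E := by positivity
  set W : ℝ := Cn ^ 2 * (Cq + 2 * (k * M)) * E ^ 2 with hW
  have hW0 : 0 ≤ W := by positivity
  set e : ℕ := 2 * D.K + D.K ^ 2 + 2 * (D.K + k + 3) with he
  obtain ⟨L1, hL11, hL1⟩ := decay_real ((e + 1 : ℕ) : ℝ) (a := 1 / (Q : ℝ)) (b := b)
    (by positivity) hb0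
  obtain ⟨L2, hL21, hL2⟩ := rpow_large (a := 1 / 4 / (Q : ℝ)) (by positivity) (4 * M)
  refine ⟨max (max L1 L2) (max 2 W), hL11.trans ((le_max_left _ _).trans (le_max_left _ _)),
    fun L hL N μ hμ A hA => ?_⟩
  have hLL1 := hL1 L ((le_max_left _ _).trans ((le_max_left _ _).trans hL))
  have hLL2 := hL2 L ((le_max_right _ _).trans ((le_max_left _ _).trans hL))
  have hL2' : 2 ≤ L := (le_max_left _ _).trans ((le_max_right _ _).trans hL)
  have hLW : W ≤ L := (le_max_right _ _).trans ((le_max_right _ _).trans hL)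
  have hL1' : 1 ≤ L := by linarith
  have hL0 : 0 < L := by linarith
  -- the products
  have hPo : D.Po N L Q μ ≤ Cn * L ^ D.K := by
    rw [← Real.rpow_natCast]
    refine hcn L hL2' _ fun p hp => ?_
    unfold SO PX at hp
    rw [mem_filter, mem_filter] at hp
    refine ⟨hp.1.2.1, ?_⟩
    have := hp.2.1
    rwa [zz_top L (by omega)] at this
  have hPo0 : 0 ≤ D.Po N L Q μ := prod_nonneg fun p _ => by positivity
  have hWW : ∀ p ∈ WW L Q μ D.C₀ N, p.Prime ∧ (p : ℝ) ≤ Real.exp L := fun p hp => by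
    unfold WW PX at hp
    rw [mem_filter, mem_filter] at hp
    refine ⟨hp.1.2.1, ?_⟩
    have := hp.2.2.1
    rwa [zz_top L (by omega)] at this
  have hPn : D.Pw N L Q μ D.K ≤ Cn * L ^ D.K := by
    rw [← Real.rpow_natCast]
    exact hcn L hL2' _ hWW
  have hPn0 : 0 ≤ D.Pw N L Q μ D.K := prod_nonneg fun p _ => by positivity
  have hPq : D.Pw N L Q μ ((D.K : ℝ) ^ 2) ≤ Cq * L ^ (D.K ^ 2) := by
    have := hcq L hL2' _ hWW
    have h2 : L ^ ((D.K : ℝ) ^ 2) = L ^ (D.K ^ 2) := by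
      rw [← Real.rpow_natCast L (D.K ^ 2), Nat.cast_pow]
    rw [h2] at this
    exact this
  have hPq0 : 0 ≤ D.Pw N L Q μ ((D.K : ℝ) ^ 2) := prod_nonneg fun p _ => by positivity
  set x : ℝ := Real.exp (-(b * L ^ (1 / (Q : ℝ)))) with hx
  have hx0 : 0 < x := Real.exp_pos _
  have h1Q : 0 ≤ L ^ (1 / (Q : ℝ)) := by positivity
  -- the first term
  have hz1 : 1 / zz L Q 1 ≤ x := by
    unfold zz
    rw [one_div, ← Real.exp_neg, hx]
    refine Real.exp_le_exp.2 ?_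
    nlinarith
  have hz10 : 0 ≤ 1 / zz L Q 1 := by
    have := zz_pos L Q 1
    positivity
  -- the other terms
  have hterm : ∀ a ∈ A, (D.n a : ℝ) * zz L Q ((μ a : ℝ) - 1 / 2) ^ 2 *
      Zc L Q μ a ^ (-(D.n a : ℝ)⁻¹) ≤ M * x := by
    intro a ha
    have hμ3 : 3 ≤ μ a := by
      have := hA ha
      unfold Big at this
      exact (mem_filter.1 this).2
    have hμ3' : (3 : ℝ) ≤ μ a := by exact_mod_cast hμ3
    have hna : (1 : ℝ) ≤ D.n a := hn0 a
    have hna0 : (0 : ℝ) < D.n a := by linarith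
    have h1 : zz L Q ((μ a : ℝ) - 1 / 2) ^ 2 * Zc L Q μ a ^ (-(D.n a : ℝ)⁻¹) ≤ x := by
      unfold Zc zz
      rw [← Real.exp_nat_mul, ← Real.exp_mul, ← Real.exp_add, hx]
      refine Real.exp_le_exp.2 ?_
      have e3 : L ^ (((μ a : ℝ) - 1 / 4) / (Q : ℝ)) =
          L ^ (((μ a : ℝ) - 1 / 2) / (Q : ℝ)) * L ^ (1 / 4 / (Q : ℝ)) := by
        rw [← Real.rpow_add hL0]
        congr 1
        ring
      set u : ℝ := L ^ (((μ a : ℝ) - 1 / 2) / (Q : ℝ)) with hu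
      have hu0 : 0 ≤ u := by positivity
      have h5 : L ^ (1 / (Q : ℝ)) ≤ L ^ (((μ a : ℝ) - 1 / 4) / (Q : ℝ)) := by
        refine Real.rpow_le_rpow_of_exponent_le hL1' ?_
        refine div_le_div_of_nonneg_right ?_ hQ0.le
        linarith
      set v : ℝ := L ^ (((μ a : ℝ) - 1 / 4) / (Q : ℝ)) with hv
      have h6 : 4 * M * u ≤ v := by
        rw [e3, mul_comm]
        exact mul_le_mul_of_nonneg_left hLL2 hu0
      have h7 : 4 * D.n a * u ≤ v := by
        refine le_trans ?_ h6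
        have := hnM a
        nlinarith
      have h8 : 2 * u + b * L ^ (1 / (Q : ℝ)) ≤ v / D.n a := by
        rw [le_div_iff₀ hna0]
        have h9 : b * L ^ (1 / (Q : ℝ)) * D.n a ≤ v / 2 := by
          have h10 : b * D.n a ≤ 1 / 2 := by
            rw [hb, div_mul_eq_mul_div, one_mul, div_le_iff₀ (by positivity)]
            have := hnM a
            linarith
          calc b * L ^ (1 / (Q : ℝ)) * D.n a = (b * D.n a) * L ^ (1 / (Q : ℝ)) := by ring
            _ ≤ 1 / 2 * v := mul_le_mul h10 h5 h1Q (by norm_num)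
            _ = v / 2 := by ring
        nlinarith
      have h11 : v * (-(D.n a : ℝ)⁻¹) = -(v / D.n a) := by
        rw [mul_neg, div_eq_mul_inv]
      rw [h11]
      push_cast
      linarith
    rw [mul_assoc]
    exact mul_le_mul (hnM a) h1 (by
      have := zz_pos L Q ((μ a : ℝ) - 1 / 2)
      have h2 : 0 < Zc L Q μ a := zz_pos _ _ _
      positivity) hM0.le
  have hsum : ∑ a ∈ A, (D.n a : ℝ) * zz L Q ((μ a : ℝ) - 1 / 2) ^ 2 *
      Zc L Q μ a ^ (-(D.n a : ℝ)⁻¹) ≤ k * M * x := by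
    refine (sum_le_sum hterm).trans ?_
    rw [sum_const, nsmul_eq_mul, mul_assoc]
    refine mul_le_mul_of_nonneg_right ?_ (by positivity)
    have : A.card ≤ k := by
      have := card_le_univ A
      rwa [Fintype.card_fin] at this
    exact_mod_cast this
  have hsum0 : 0 ≤ ∑ a ∈ A, (D.n a : ℝ) * zz L Q ((μ a : ℝ) - 1 / 2) ^ 2 *
      Zc L Q μ a ^ (-(D.n a : ℝ)⁻¹) := by
    refine sum_nonneg fun a _ => ?_
    have := zz_pos L Q ((μ a : ℝ) - 1 / 2)
    have h2 : 0 < Zc L Q μ a := zz_pos _ _ _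
    positivity
  have hLK1 : (1 : ℝ) ≤ L ^ (D.K ^ 2) := one_le_pow₀ hL1'
  -- the bound for `Rr`
  have hR : D.Rr N L Q μ A ≤ Cn ^ 2 * (Cq + 2 * (k * M)) * (L ^ (2 * D.K + D.K ^ 2) * x) := by
    unfold Rr
    have h1 : D.Pw N L Q μ D.K ^ 2 ≤ (Cn * L ^ D.K) ^ 2 := pow_le_pow_left₀ hPn0 hPn 2
    have h2 : 1 / zz L Q 1 * D.Pw N L Q μ ((D.K : ℝ) ^ 2) +
        2 * ∑ a ∈ A, (D.n a : ℝ) * zz L Q ((μ a : ℝ) - 1 / 2) ^ 2 *
          Zc L Q μ a ^ (-(D.n a : ℝ)⁻¹) ≤ (Cq + 2 * (k * M)) * (L ^ (D.K ^ 2) * x) := by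
      have h3 : 1 / zz L Q 1 * D.Pw N L Q μ ((D.K : ℝ) ^ 2) ≤ x * (Cq * L ^ (D.K ^ 2)) :=
        mul_le_mul hz1 hPq hPq0 hx0.le
      have h4 : (k : ℝ) * M * x ≤ k * M * x * L ^ (D.K ^ 2) :=
        le_mul_of_one_le_right (by positivity) hLK1
      nlinarith
    calc _ ≤ (Cn * L ^ D.K) ^ 2 * ((Cq + 2 * (k * M)) * (L ^ (D.K ^ 2) * x)) :=
          mul_le_mul h1 h2 (by positivity) (by positivity)
      _ = _ := by
          rw [pow_add, pow_mul']
          ring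
  -- conclusion
  set y : ℝ := 1 / (E * L ^ (D.K + k + 3)) with hy
  have hy0 : 0 < y := by positivity
  have hsq : Real.sqrt (D.Rr N L Q μ A) ≤ y := by
    rw [Real.sqrt_le_left hy0.le]
    refine hR.trans ?_
    rw [hy, div_pow, one_pow, le_div_iff₀ (by positivity)]
    have e1 : Cn ^ 2 * (Cq + 2 * (k * M)) * (L ^ (2 * D.K + D.K ^ 2) * x) *
        (E * L ^ (D.K + k + 3)) ^ 2 = W * (L ^ e * x) := by
      rw [hW, he, pow_add L (2 * D.K + D.K ^ 2), pow_mul']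
      ring
    rw [e1]
    calc W * (L ^ e * x) ≤ L * (L ^ e * x) := mul_le_mul_of_nonneg_right hLW (by positivity)
      _ = L ^ ((e + 1 : ℕ) : ℝ) * x := by
          rw [Real.rpow_natCast, pow_succ]
          ring
      _ ≤ 1 := hLL1
  have hfin : 2 ^ k * D.Po N L Q μ * ((3 * L) ^ k * (2 * D.K + 1) ^ k) *
      (∏ i, (2 * 3 ^ D.n i : ℝ)) ≤ E * L ^ (D.K + k) := by
    calc 2 ^ k * D.Po N L Q μ * ((3 * L) ^ k * (2 * D.K + 1) ^ k) *
        (∏ i, (2 * 3 ^ D.n i : ℝ)) ≤ 2 ^ k * (Cn * L ^ D.K) * ((3 * L) ^ k * (2 * D.K + 1) ^ k) *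
        (∏ i, (2 * 3 ^ D.n i : ℝ)) := by gcongr
      _ = E * L ^ (D.K + k) := by
          rw [hE, mul_pow, pow_add]
          ring
  calc _ ≤ E * L ^ (D.K + k) * y := mul_le_mul hfin hsq (Real.sqrt_nonneg _) (by positivity)
    _ = L ^ (-(3 : ℝ)) := by
        rw [hy, Real.rpow_neg hL0.le, show (3 : ℝ) = ((3 : ℕ) : ℝ) by norm_num,
          Real.rpow_natCast, pow_add L (D.K + k) 3]
        field_simp

end Sys

/-- The bound in `smooth_small`. -/
theorem numer_smooth (C : ℝ) (Q : ℕ) (hQ : 4 ≤ Q) : ∃ L₀ : ℝ, 1 ≤ L₀ ∧ ∀ L : ℝ, L₀ ≤ L →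
    ∀ (m : ℕ), 3 ≤ m → m < Q →
      C * Real.log (zz L Q ((m : ℝ) - 1 / 4)) ^ C *
        Real.exp (-(Real.log (zz L Q m) / Real.log (zz L Q ((m : ℝ) - 1 / 4)))) ≤
          L ^ (-(3 : ℝ)) ∧
      C * Real.log (zz L Q ((m : ℝ) - 1)) ^ C *
        Real.exp (-(Real.log (zz L Q ((m : ℝ) - 1 / 2)) / Real.log (zz L Q ((m : ℝ) - 1)))) ≤
          L ^ (-(3 : ℝ)) ∧ 3 ≤ zz L Q ((m : ℝ) - 1) := by
  have hQr : (4 : ℝ) ≤ Q := by exact_mod_cast hQ
  have hQ0 : (0 : ℝ) < Q := by linarith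
  obtain ⟨L1, hL11, hL1⟩ := decay_real (C + 4) (a := 1 / 4 / (Q : ℝ)) (b := 1)
    (by positivity) one_pos
  obtain ⟨L2, hL21, hL2⟩ := rpow_large (a := 1 / 4 / (Q : ℝ)) (by positivity) 2
  refine ⟨max (max L1 L2) (max 1 C), hL11.trans ((le_max_left _ _).trans (le_max_left _ _)),
    fun L hL m hm hmQ => ?_⟩
  have hLL1 := hL1 L ((le_max_left _ _).trans ((le_max_left _ _).trans hL))
  have hLL2 := hL2 L ((le_max_right _ _).trans ((le_max_left _ _).trans hL))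
  have hL1' : 1 ≤ L := (le_max_left _ _).trans ((le_max_right _ _).trans hL)
  have hLC : C ≤ L := (le_max_right _ _).trans ((le_max_right _ _).trans hL)
  have hL0 : 0 < L := by linarith
  have hm3 : (3 : ℝ) ≤ m := by exact_mod_cast hm
  have hmQ' : (m : ℝ) ≤ Q := by exact_mod_cast hmQ.le
  have key : ∀ x y : ℝ, 0 ≤ x → x ≤ Q → x + 1 / 4 ≤ y →
      C * Real.log (zz L Q x) ^ C * Real.exp (-(Real.log (zz L Q y) / Real.log (zz L Q x))) ≤
        L ^ (-(3 : ℝ)) := by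
    intro x y hx0 hxQ hxy
    rw [log_zz, log_zz]
    rcases le_or_gt C 0 with hC | hC
    · have h1 : C * (L ^ (x / (Q : ℝ))) ^ C *
          Real.exp (-(L ^ (y / (Q : ℝ)) / L ^ (x / (Q : ℝ)))) ≤ 0 := by
        have h2 : 0 ≤ (L ^ (x / (Q : ℝ))) ^ C *
          Real.exp (-(L ^ (y / (Q : ℝ)) / L ^ (x / (Q : ℝ)))) := by positivity
        rw [mul_assoc]
        exact mul_nonpos_of_nonpos_of_nonneg hC h2
      exact h1.trans (by positivity)
    · have h1 : (L ^ (x / (Q : ℝ))) ^ C ≤ L ^ C := by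
        rw [← Real.rpow_mul hL0.le]
        refine Real.rpow_le_rpow_of_exponent_le hL1' ?_
        have : x / (Q : ℝ) ≤ 1 := (div_le_one hQ0).2 hxQ
        nlinarith
      have h2 : Real.exp (-(L ^ (y / (Q : ℝ)) / L ^ (x / (Q : ℝ)))) ≤
          Real.exp (-(1 * L ^ (1 / 4 / (Q : ℝ)))) := by
        refine Real.exp_le_exp.2 ?_
        rw [← Real.rpow_sub hL0, one_mul, neg_le_neg_iff]
        refine Real.rpow_le_rpow_of_exponent_le hL1' ?_
        rw [← sub_div]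
        exact div_le_div_of_nonneg_right (by linarith) hQ0.le
      have e1 : L * L ^ C = L ^ (C + 4) * L ^ (-(3 : ℝ)) := by
        rw [← Real.rpow_add hL0, mul_comm, ← Real.rpow_add_one hL0.ne']
        congr 1
        ring
      calc C * (L ^ (x / (Q : ℝ))) ^ C * Real.exp (-(L ^ (y / (Q : ℝ)) / L ^ (x / (Q : ℝ)))) ≤
            L * L ^ C * Real.exp (-(1 * L ^ (1 / 4 / (Q : ℝ)))) := by
            refine mul_le_mul ?_ h2 (Real.exp_pos _).le (by positivity)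
            exact mul_le_mul hLC h1 (by positivity) hL0.le
        _ = (L ^ (C + 4) * Real.exp (-(1 * L ^ (1 / 4 / (Q : ℝ))))) * L ^ (-(3 : ℝ)) := by
            rw [e1]
            ring
        _ ≤ 1 * L ^ (-(3 : ℝ)) := mul_le_mul_of_nonneg_right hLL1 (by positivity)
        _ = _ := one_mul _
  refine ⟨key _ _ (by linarith) (by linarith) (by linarith),
    key _ _ (by linarith) (by linarith) (by linarith), ?_⟩
  unfold zz
  refine three_le_exp_two.trans (Real.exp_le_exp.2 (hLL2.trans ?_))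
  refine Real.rpow_le_rpow_of_exponent_le hL1' ?_
  exact div_le_div_of_nonneg_right (by linarith) hQ0.le

end Stoll308.TW
end

section
set_option autoImplicit false

/-!
The number of twists in a block.
-/

namespace Stoll308.TW

open Finset Stoll308.Gen

variable {k : ℕ}

private lemma zz_topB (L : ℝ) {Q : ℕ} (hQ : 0 < Q) : zz L Q Q = Real.exp L := by
  unfold zz
  rw [div_self (by exact_mod_cast hQ.ne'), Real.rpow_one]

/-- The level of a number. -/
private lemma exists_lev (Q : ℕ) (hQ : 0 < Q) {L : ℝ} {X : ℕ} (hX : (X : ℝ) ≤ Real.exp L) :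
    ∃ m, m < Q ∧ Lev L Q m X ∧ (zz L Q ((Q : ℝ) - 1) ≤ (X : ℝ) → m + 1 = Q) := by
  classical
  obtain ⟨F, hF⟩ : ∃ F, F = (range Q).filter (fun m : ℕ => m = 0 ∨ zz L Q m ≤ (X : ℝ)) := ⟨_, rfl⟩
  have h0 : 0 ∈ F := by
    rw [hF, mem_filter, mem_range]
    exact ⟨hQ, Or.inl rfl⟩
  have hm := F.max'_mem ⟨0, h0⟩
  set m := F.max' ⟨0, h0⟩ with hmdef
  have hm1 : m < Q ∧ (m = 0 ∨ zz L Q m ≤ (X : ℝ)) := by
    have h1 := hm
    rw [hF, mem_filter, mem_range] at h1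
    exact h1
  refine ⟨m, hm1.1, ⟨hm1.2, ?_, ?_⟩, ?_⟩
  · by_contra hcon
    push Not at hcon
    have h2 : m + 1 ∈ F := by
      rw [hF, mem_filter, mem_range]
      refine ⟨by omega, Or.inr ?_⟩
      push_cast
      exact hcon.1
    have h3 := F.le_max' (m + 1) h2
    omega
  · rw [zz_topB L hQ]
    exact hX
  · intro hz
    have h2 : Q - 1 ∈ F := by
      rw [hF, mem_filter, mem_range]
      refine ⟨by omega, Or.inr ?_⟩
      rw [Nat.cast_sub (by omega), Nat.cast_one]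
      exact hz
    have h3 := F.le_max' (Q - 1) h2
    omega

namespace Sys

variable (D : Sys k)

/-- Every element of the block is in `Cls` for one of the level vectors, or has a large divisor
composed of small primes. -/
theorem block_split (Q : ℕ) (hQ : 4 ≤ Q) {L : ℝ} (hL : 1 ≤ L) {N : ℕ} {t : ℤ}
    (ht : t ∈ D.Bl N L Q) : ∃ μ ∈ Lv k Q, (∃ r, D.Cls L Q μ t r) ∨ ∃ m : ℕ, 3 ≤ m ∧ m < Q ∧
      ∃ T : Finset ℕ, T ⊆ bigPrimes D.C₀ t ∧
        (((∀ p ∈ T, (p : ℝ) ≤ zz L Q ((m : ℝ) - 1 / 4)) ∧ zz L Q m ≤ ∏ p ∈ T, (p : ℝ)) ∨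
        ((∀ p ∈ T, (p : ℝ) ≤ zz L Q ((m : ℝ) - 1)) ∧
          zz L Q ((m : ℝ) - 1 / 2) ≤ ∏ p ∈ T, (p : ℝ))) := by
  classical
  have hQ0 : 0 < Q := by omega
  unfold Bl at ht
  rw [mem_filter] at ht
  obtain ⟨hN, hsq, r, hr, hX, i₀, hi₀⟩ := ht
  have h1 := fun i => exists_lev Q hQ0 (hX i)
  choose μ hμ using h1
  refine ⟨μ, ?_, ?_⟩
  · unfold Lv
    rw [mem_filter, Fintype.mem_piFinset]
    exact ⟨fun i => mem_range.2 (hμ i).1, i₀, (hμ i₀).2.2 hi₀⟩
  · by_cases hA : ∀ i ∈ Big μ, (cut (Zc L Q μ) i (bigPrimes D.C₀ t) r).Nonempty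
    · by_cases hB : ∀ i ∈ Big μ, ∏ p ∈ (bigPrimes D.C₀ t).filter
          (fun p : ℕ => (p : ℝ) ≤ zz L Q ((μ i : ℝ) - 1)), (p : ℝ) ≤
            zz L Q ((μ i : ℝ) - 1 / 2)
      · exact Or.inl ⟨r, hr, fun i => (hμ i).2.1, hA, hB⟩
      · push Not at hB
        obtain ⟨i, hi, hB⟩ := hB
        right
        have h3 : 3 ≤ μ i := by
          unfold Big at hi
          exact (mem_filter.1 hi).2
        refine ⟨μ i, h3, (hμ i).1, _, filter_subset _ _, Or.inr ⟨?_, hB.le⟩⟩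
        intro p hp
        exact (mem_filter.1 hp).2
    · push Not at hA
      obtain ⟨i, hi, hA⟩ := hA
      right
      have h3 : 3 ≤ μ i := by
        unfold Big at hi
        exact (mem_filter.1 hi).2
      refine ⟨μ i, h3, (hμ i).1, cpt i (bigPrimes D.C₀ t) r, filter_subset _ _,
        Or.inl ⟨?_, ?_⟩⟩
      · intro p hp
        by_contra hcon
        push Not at hcon
        have h4 : p ∈ cut (Zc L Q μ) i (bigPrimes D.C₀ t) r := by
          unfold cut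
          rw [mem_filter]
          exact ⟨hp, hcon⟩
        rw [hA] at h4
        exact absurd h4 (notMem_empty _)
      · have h4 := (hμ i).2.1.1
        rcases h4 with h4 | h4
        · omega
        · unfold XX at h4
          rw [Nat.cast_prod] at h4
          exact h4

open Classical in
/-- The elements in `Cls`. -/
lemma card_cls_le (Q : ℕ) (hQ : 4 ≤ Q) : ∃ C L₀ : ℝ, 0 ≤ C ∧ 1 ≤ L₀ ∧
    ∀ (N : ℕ) (L : ℝ), L₀ ≤ L → ∀ μ ∈ Lv k Q,
      (((Icc (-(N : ℤ)) N).filter fun t => Squarefree t ∧ ∃ r, D.Cls L Q μ t r).card : ℝ) ≤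
        C * (∑ n ∈ Icc 1 (2 ^ k * N), HT.hf (D.HH L Q μ) n + N * L ^ (-(3 : ℝ))) := by
  obtain ⟨L₀, hL₀, hnum⟩ := D.numer Q hQ
  refine ⟨((Icc (-(P0 D.C₀ : ℤ)) (P0 D.C₀)).card : ℝ) *
    (Fintype.card (Finset (Fin k) → Fin D.m) : ℝ) * (1 + Fintype.card (Finset (Fin k))), L₀,
    by positivity, hL₀, ?_⟩
  intro N L hL μ hμ
  have hL1 : 1 ≤ L := hL₀.trans hL
  have hμ' : ∀ i, μ i < Q := by
    unfold Lv at hμ
    rw [mem_filter, Fintype.mem_piFinset] at hμ
    exact fun i => mem_range.1 (hμ.1 i)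
  have h1 := D.cls_c N L Q μ hQ hμ' hL1
    ((Icc (-(N : ℤ)) N).filter fun t => Squarefree t ∧ ∃ r, D.Cls L Q μ t r) (fun t ht => by
      rw [mem_filter] at ht
      exact ⟨ht.1, ht.2.1, ht.2.2⟩)
  refine h1.trans ?_
  set S := ∑ n ∈ Icc 1 (2 ^ k * N), HT.hf (D.HH L Q μ) n with hS
  have hS0 : 0 ≤ S := sum_nonneg fun n _ => HT.hf_nonneg (fun p _ => HH_nonneg D L Q μ p) n
  have hN0 : 0 ≤ (N : ℝ) * L ^ (-(3 : ℝ)) :=
    mul_nonneg (Nat.cast_nonneg _) (Real.rpow_nonneg (by linarith) _)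
  have h2 : ∀ s ∈ Icc (-(P0 D.C₀ : ℤ)) (P0 D.C₀), ∀ e : Finset (Fin k) → Fin D.m,
      ∑ ro ∈ D.RO N L Q μ, ∑ ri ∈ D.RI N L Q μ, D.om N L Q μ (D.VV N L Q μ ro) ri *
        D.cond N L Q μ (D.cI N L Q μ s e ro) ri (D.go N L Q μ ro) ≤
      S + Fintype.card (Finset (Fin k)) * (N * L ^ (-(3 : ℝ))) := by
    intro s _ e
    rw [sum_congr rfl fun ro _ => sum_cond D N L Q μ (D.VV N L Q μ ro) (D.cI N L Q μ s e ro)
      (D.go N L Q μ ro), sum_add_distrib]
    refine add_le_add (main_le D N L Q μ (by omega) hμ' hL1) ?_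
    rw [sum_comm]
    have h3 : ∀ A ∈ (univ : Finset (Finset (Fin k))), ∑ ro ∈ D.RO N L Q μ,
        D.hh N L Q μ A (D.VV N L Q μ ro) (D.cI N L Q μ s e ro) (D.go N L Q μ ro) ≤
        N * L ^ (-(3 : ℝ)) := by
      intro A _
      by_cases hA : A ⊆ Big μ
      · refine (sum_le_sum fun ro _ => le_abs_self _).trans ?_
        refine (err_le D N L Q μ (by omega) hμ' hL1 A s e).trans ?_
        exact mul_le_mul_of_nonneg_left (hnum L hL N μ hμ' A hA) (Nat.cast_nonneg _)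
      · rw [sum_eq_zero fun ro _ => hh_eq_zero D N L Q μ (by omega) hL1 hA _ _ _]
        exact hN0
    refine (sum_le_sum h3).trans (le_of_eq ?_)
    rw [sum_const, nsmul_eq_mul, card_univ]
  refine (sum_le_sum fun s hs => sum_le_sum fun e _ => h2 s hs e).trans ?_
  rw [sum_const, sum_const, nsmul_eq_mul, nsmul_eq_mul, card_univ]
  have h4 : S + Fintype.card (Finset (Fin k)) * (N * L ^ (-(3 : ℝ))) ≤
      (1 + Fintype.card (Finset (Fin k))) * (S + N * L ^ (-(3 : ℝ))) := by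
    have h5 : (0 : ℝ) ≤ Fintype.card (Finset (Fin k)) := Nat.cast_nonneg _
    nlinarith [mul_nonneg h5 hS0]
  calc ((Icc (-(P0 D.C₀ : ℤ)) (P0 D.C₀)).card : ℝ) *
        ((Fintype.card (Finset (Fin k) → Fin D.m) : ℝ) *
          (S + Fintype.card (Finset (Fin k)) * (N * L ^ (-(3 : ℝ))))) ≤
      ((Icc (-(P0 D.C₀ : ℤ)) (P0 D.C₀)).card : ℝ) *
        ((Fintype.card (Finset (Fin k) → Fin D.m) : ℝ) *
          ((1 + Fintype.card (Finset (Fin k))) * (S + N * L ^ (-(3 : ℝ))))) := by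
        refine mul_le_mul_of_nonneg_left ?_ (Nat.cast_nonneg _)
        exact mul_le_mul_of_nonneg_left h4 (Nat.cast_nonneg _)
    _ = _ := by ring

end Sys

end Stoll308.TW
end

section
set_option autoImplicit false

/-!
Even degree: the number of twists with a datum.
-/

namespace Stoll308.TW

open Finset Stoll308.Gen

variable {k : ℕ}

namespace Sys

variable (D : Sys k)

/-- The primes `> C₀` dividing `t` are labelled by the components. -/
private lemma prod_big_eq (hi : D.inf = false) {t : ℤ} {r : ℕ → Lab k} (hr : D.Dt t r) :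
    ∏ p ∈ bigPrimes D.C₀ t, p = ∏ i, D.XX t r i := by
  classical
  unfold Sys.XX
  rw [← prod_biUnion]
  · refine prod_congr ?_ fun _ _ => rfl
    ext p
    rw [mem_biUnion]
    constructor
    · intro hp
      have h1 : r p ≠ .o := (hr.1 p).2 hp
      have h2 : r p ∈ D.Lb univ p := (hr.2.1 p).resolve_left h1
      unfold Lb Lbl at h2
      rw [hi, if_neg (by decide), empty_union, mem_biUnion] at h2
      obtain ⟨i, _, h3⟩ := h2
      obtain ⟨a, _, h4⟩ := mem_image.1 h3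
      refine ⟨i, mem_univ _, mem_filter.2 ⟨hp, ?_⟩⟩
      rw [← h4]
      rfl
    · rintro ⟨i, _, hp⟩
      exact (mem_filter.1 hp).1
  · intro i _ j _ hij
    rw [Function.onFun, disjoint_left]
    intro p hp hp'
    have h1 := (mem_filter.1 hp).2
    have h2 := (mem_filter.1 hp').2
    rw [h1] at h2
    injection h2 with h3
    exact hij h3

/-- The elements all of whose products `XX` are small. -/
private lemma natAbs_le_of_XX (hi : D.inf = false) {t : ℤ} (ht : Squarefree t) {r : ℕ → Lab k}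
    (hr : D.Dt t r) {y : ℝ} (hy : ∀ i, (D.XX t r i : ℝ) ≤ Real.exp y) :
    (t.natAbs : ℝ) ≤ P0 D.C₀ * Real.exp (k * y) := by
  have h1 : ((∏ p ∈ bigPrimes D.C₀ t, p : ℕ) : ℝ) ≤ Real.exp (k * y) := by
    rw [D.prod_big_eq hi hr, Nat.cast_prod, Real.exp_nat_mul]
    calc ∏ i, (D.XX t r i : ℝ) ≤ ∏ _i : Fin k, Real.exp y :=
          prod_le_prod (fun _ _ => Nat.cast_nonneg _) fun i _ => hy i
      _ = Real.exp y ^ k := by rw [prod_const, card_univ, Fintype.card_fin]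
  have h2 : t.natAbs = (∏ p ∈ bigPrimes D.C₀ t, p) * (sp D.C₀ t).natAbs := by
    rw [sp_natAbs D.C₀ ht]
    exact natAbs_eq D.C₀ ht
  have h3 : (sp D.C₀ t).natAbs ≤ P0 D.C₀ := by
    have := sp_mem D.C₀ ht
    rw [mem_Icc] at this
    omega
  rw [h2, Nat.cast_mul, mul_comm]
  exact mul_le_mul (by exact_mod_cast h3) h1 (Nat.cast_nonneg _) (Nat.cast_nonneg _)

open Classical in
/-- The number of the elements all of whose products `XX` are small. -/
lemma card_small (hi : D.inf = false) (N : ℕ) (y : ℝ) :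
    (((Icc (-(N : ℤ)) N).filter fun t => Squarefree t ∧ ∃ r, D.Dt t r ∧
      ∀ i, (D.XX t r i : ℝ) ≤ Real.exp y).card : ℝ) ≤
      2 * (P0 D.C₀ * Real.exp (k * y)) + 1 := by
  set m : ℕ := ⌊(P0 D.C₀ : ℝ) * Real.exp (k * y)⌋₊ with hm
  have hsub : ((Icc (-(N : ℤ)) N).filter fun t => Squarefree t ∧ ∃ r, D.Dt t r ∧
      ∀ i, (D.XX t r i : ℝ) ≤ Real.exp y) ⊆ Icc (-(m : ℤ)) m := by
    intro t ht
    obtain ⟨_, hsq, r, hr, hy⟩ := mem_filter.1 ht
    have h1 := D.natAbs_le_of_XX hi hsq hr hy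
    have h2 : t.natAbs ≤ m := Nat.le_floor h1
    rw [mem_Icc]
    omega
  have h3 := card_le_card hsub
  rw [Int.card_Icc] at h3
  have h4 : ((m : ℤ) + 1 - -(m : ℤ)).toNat = 2 * m + 1 := by omega
  rw [h4] at h3
  have h5 : (m : ℝ) ≤ (P0 D.C₀ : ℝ) * Real.exp (k * y) := Nat.floor_le (by positivity)
  calc _ ≤ ((2 * m + 1 : ℕ) : ℝ) := by exact_mod_cast h3
    _ = 2 * (m : ℝ) + 1 := by push_cast; ring
    _ ≤ _ := by linarith

/-- The comparison of the number of small elements. -/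
lemma small_le (P : ℝ) (hP : 0 ≤ P) (k Q : ℕ) (hQ : 4 ≤ Q) : ∃ x₀ : ℝ, 1 ≤ x₀ ∧
    ∀ x : ℝ, x₀ ≤ x → 2 * (P * Real.exp (k * x ^ (((Q : ℝ) - 1) / Q))) + 1 ≤
      Real.exp x * x ^ (-(2 : ℝ)) := by
  have hQ' : (4 : ℝ) ≤ Q := by exact_mod_cast hQ
  have h1 : (fun x : ℝ => (k : ℝ) * x ^ (((Q : ℝ) - 1) / Q)) =o[Filter.atTop]
      (fun x : ℝ => x) := by
    have hθ : 0 < 1 - ((Q : ℝ) - 1) / Q := by
      rw [sub_pos, div_lt_one (by linarith)]
      linarith
    have h0 : Filter.Tendsto (fun x : ℝ => x ^ (-(1 - ((Q : ℝ) - 1) / Q))) Filter.atTop (nhds 0) :=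
      tendsto_rpow_neg_atTop hθ
    refine Asymptotics.IsLittleO.const_mul_left ?_ _
    refine (Asymptotics.isLittleO_iff_tendsto' ?_).2 (h0.congr' ?_)
    · filter_upwards [Filter.eventually_gt_atTop (0 : ℝ)] with x hx h
      exact absurd h hx.ne'
    · filter_upwards [Filter.eventually_gt_atTop (0 : ℝ)] with x hx
      rw [eq_div_iff hx.ne', ← Real.rpow_add_one hx.ne']
      congr 1
      ring
  have h2 : (fun x : ℝ => 2 * Real.log x) =o[Filter.atTop] (fun x : ℝ => x) :=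
    Real.isLittleO_log_id_atTop.const_mul_left _
  have h3 : (fun _ : ℝ => Real.log (2 * P + 1)) =o[Filter.atTop] (fun x : ℝ => x) :=
    Asymptotics.isLittleO_const_id_atTop _
  have h4 := ((h1.add h2).add h3).def one_pos
  obtain ⟨x₀, hx₀⟩ := Filter.eventually_atTop.1 h4
  refine ⟨max x₀ 1, le_max_right _ _, fun x hx => ?_⟩
  have hx1 : 1 ≤ x := (le_max_right _ _).trans hx
  have hx0 : 0 < x := by linarith
  have h5 := hx₀ x ((le_max_left _ _).trans hx)
  rw [Real.norm_of_nonneg hx0.le, one_mul, Real.norm_eq_abs] at h5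
  have h6 := (le_abs_self _).trans h5
  have hk0 : 0 ≤ (k : ℝ) * x ^ (((Q : ℝ) - 1) / Q) := by positivity
  have hP1 : 0 < 2 * P + 1 := by linarith
  have e1 : Real.exp x * x ^ (-(2 : ℝ)) = Real.exp (x - 2 * Real.log x) := by
    rw [Real.rpow_def_of_pos hx0, ← Real.exp_add]
    congr 1
    ring
  rw [e1]
  calc 2 * (P * Real.exp (k * x ^ (((Q : ℝ) - 1) / Q))) + 1 ≤
        (2 * P + 1) * Real.exp (k * x ^ (((Q : ℝ) - 1) / Q)) := by
        have : 1 ≤ Real.exp (k * x ^ (((Q : ℝ) - 1) / Q)) := Real.one_le_exp hk0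
        nlinarith
    _ = Real.exp (Real.log (2 * P + 1) + k * x ^ (((Q : ℝ) - 1) / Q)) := by
        rw [Real.exp_add, Real.exp_log hP1]
    _ ≤ _ := Real.exp_le_exp.2 (by linarith)

end Sys

end Stoll308.TW
end

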