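import Mathlib
import Pool.Agent.Work.BCM.C12
import Pool.Agent.Work.BCM.C23
import Pool.Agent.Work.BCM.C26
import Pool.Agent.Work.BCM.C38

section
set_option autoImplicit false

/-!
The powers of the small primes in the leading coefficient are bounded.
-/

namespace Stoll308.SC

open Polynomial Finset Matrix BG BF

/-- `a₀ = sfp(a₀) r` with `0 < |r| ≤ P`. -/
lemma exists_quot (κ : ℤ) (hκ : κ ≠ 0) (S : ℝ) (P : ℕ) (hSP : S ≤ P)
    (hS : |(κ : ℝ)| ≤ S * OF.sfp κ) :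
    ∃ r : ℤ, r ≠ 0 ∧ r.natAbs ≤ P ∧ κ = (OF.sfp κ : ℤ) * r := by
  obtain ⟨r, hr⟩ := OF.sfp_dvd (κ := κ)
  have hs : 0 < OF.sfp κ := OF.sfp_pos κ
  have hr0 : r ≠ 0 := by
    rintro rfl
    rw [mul_zero] at hr
    exact hκ hr
  refine ⟨r, hr0, ?_, hr⟩
  have h1 : |(κ : ℝ)| = (OF.sfp κ : ℝ) * (r.natAbs : ℝ) := by
    have h2 : (κ : ℝ) = (OF.sfp κ : ℝ) * (r : ℝ) := by
      exact_mod_cast congrArg (Int.cast : ℤ → ℝ) hr
    rw [h2, abs_mul, Nat.abs_cast, Nat.cast_natAbs, Int.cast_abs]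
  have hs' : (0 : ℝ) < OF.sfp κ := by exact_mod_cast hs
  have h3 : (r.natAbs : ℝ) ≤ S := by
    rw [h1, mul_comm] at hS
    exact le_of_mul_le_mul_right hS hs'
  exact_mod_cast h3.trans hSP

lemma norm_sfp (κ : ℤ) (p : ℕ) [Fact p.Prime] : ‖(p : ℚ_[p])‖ ≤ ‖((OF.sfp κ : ℕ) : ℚ_[p])‖ := by
  have hp : p.Prime := Fact.out
  have hsq := OF.sfp_squarefree κ
  by_cases h : p ∣ OF.sfp κ
  · obtain ⟨m, hm⟩ := h
    have h1 : ¬ p ∣ m := by
      rintro ⟨l, rfl⟩
      have h2 : p * p ∣ OF.sfp κ := ⟨l, by rw [hm, mul_assoc]⟩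
      exact hp.one_lt.ne' (Nat.isUnit_iff.1 (hsq p h2))
    have h3 : ‖((m : ℕ) : ℚ_[p])‖ = 1 := by
      rw [← Int.cast_natCast]
      exact (Padic.norm_intCast_eq_one_iff).2
        (Nat.isCoprime_iff_coprime.2 ((Nat.Prime.coprime_iff_not_dvd hp).2 h1).symm)
    rw [hm, Nat.cast_mul, norm_mul, h3, mul_one]
  · have h3 : ‖((OF.sfp κ : ℕ) : ℚ_[p])‖ = 1 := by
      rw [← Int.cast_natCast]
      exact (Padic.norm_intCast_eq_one_iff).2
        (Nat.isCoprime_iff_coprime.2 ((Nat.Prime.coprime_iff_not_dvd hp).2 h).symm)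
    rw [h3]
    exact (Padic.norm_p_lt_one (p := p)).le

/-- If `|a₀| ≤ S · sfp(a₀)` and `S ≤ P` then `(P!)² / a₀` is integral at the primes `p ≤ P`. -/
theorem fac_le (κ : ℤ) (hκ : κ ≠ 0) (S : ℝ) (P : ℕ) (hSP : S ≤ P)
    (hS : |(κ : ℝ)| ≤ S * OF.sfp κ) (p : ℕ) [Fact p.Prime] (hp : p ≤ P) :
    ‖((P.factorial : ℚ_[p]) ^ 2)‖ ≤ ‖(κ : ℚ_[p])‖ := by
  obtain ⟨r, hr0, hrP, hr⟩ := exists_quot κ hκ S P hSP hS
  have hpp : p.Prime := Fact.out
  have hmul : ∀ m : ℕ, m ∣ P.factorial → ‖(P.factorial : ℚ_[p])‖ ≤ ‖(m : ℚ_[p])‖ := by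
    rintro m ⟨l, hl⟩
    rw [hl, Nat.cast_mul, norm_mul]
    have h1 : ‖((l : ℕ) : ℚ_[p])‖ ≤ 1 := by
      rw [← Int.cast_natCast]
      exact Padic.norm_int_le_one _
    exact mul_le_of_le_one_right (norm_nonneg _) h1
  have h1 := hmul p (Nat.dvd_factorial hpp.pos hp)
  have h2 := hmul r.natAbs (Nat.dvd_factorial (Int.natAbs_pos.2 hr0) hrP)
  have h3 : ‖((r.natAbs : ℕ) : ℚ_[p])‖ = ‖((r : ℤ) : ℚ_[p])‖ := by
    rcases Int.natAbs_eq r with h | h
    · conv_rhs => rw [h]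
      rw [Int.cast_natCast]
    · conv_rhs => rw [h]
      rw [Int.cast_neg, norm_neg, Int.cast_natCast]
  have h4 : ‖(κ : ℚ_[p])‖ = ‖((OF.sfp κ : ℕ) : ℚ_[p])‖ * ‖((r : ℤ) : ℚ_[p])‖ := by
    conv_lhs => rw [hr]
    rw [Int.cast_mul, norm_mul, Int.cast_natCast]
  rw [h4, norm_pow, pow_two]
  exact mul_le_mul (h1.trans (norm_sfp κ p)) (h2.trans_eq h3) (norm_nonneg _) (norm_nonneg _)

end Stoll308.SC
end

section
set_option autoImplicit false

/-!
The local condition in terms of polynomials.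
-/

namespace Stoll308.DQ

open Polynomial Finset Matrix BG BF SC

namespace PolyAux

lemma cls_of {K : Type*} [Field K] {f D h V s : K[X]} {c : K} (hc : c ≠ 0) (ho : Odd h.natDegree)
    (hcop : IsCoprime (h * V ^ 2) f) (hr : ∃ r, h ∣ f - r ^ 2)
    (hs : f ∣ C c * (h * V ^ 2) - D * s ^ 2) : Cls f (C c⁻¹ * D) h := by
  have hC : C c⁻¹ * C c = (1 : K[X]) := by rw [← C_mul, inv_mul_cancel₀ hc, C_1]
  have hh : IsCoprime h f := hcop.of_mul_left_left
  have hV : IsCoprime V f := by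
    rw [sq, ← mul_assoc] at hcop
    exact hcop.of_mul_left_right
  have hsf : IsCoprime s f := by
    obtain ⟨q, hq⟩ := hs
    have hcu : IsUnit (C c : K[X]) := isUnit_C.2 hc.isUnit
    have h1 : IsCoprime (C c * (h * V ^ 2)) f := (isCoprime_mul_unit_left_left hcu _ _).2 hcop
    have h2 : C c * (h * V ^ 2) = D * s ^ 2 + f * q := by rw [← hq]; ring
    rw [h2] at h1
    have h3 := (IsCoprime.of_add_mul_left_left h1).of_mul_left_right
    rw [sq] at h3
    exact h3.of_mul_left_left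
  obtain ⟨V', b, hb⟩ := hV
  refine ⟨ho, hh, hr, s * V', ?_, ?_⟩
  · exact hsf.mul_left ⟨V, b, by rw [mul_comm]; exact hb⟩
  · have h1 : h - C c⁻¹ * D * (s * V') ^ 2 =
        C c⁻¹ * V' ^ 2 * (C c * (h * V ^ 2) - D * s ^ 2) + h * (1 - V' * V) * (1 + V' * V) := by
      linear_combination (-(V' ^ 2 * (h * V ^ 2))) * hC
    have h2 : 1 - V' * V = b * f := by linear_combination (-1 : K[X]) * hb
    rw [h1, h2]
    refine dvd_add (Dvd.dvd.mul_left hs _) ?_
    exact ⟨h * b * (1 + V' * V), by ring⟩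

end PolyAux

open PolyAux in
theorem dloc_of_image {n m : ℕ} (a : Fin (n + 1) → ℤ) (b : Fin (m + 1) → ℤ) (δ ε : ℚ[X])
    (K : Type) [Field K] [Algebra ℚ K] (h : OddImage a b δ ε K) :
    DLoc (GZ K a) (GZ K b) (δ.map (algebraMap ℚ K)) (ε.map (algebraMap ℚ K)) := by
  have hc : CharZero K := algebraRat.charZero K
  obtain ⟨E, _, _, _, t, y, w, c, s, s', ho, hy, hw, hc0, he, he', hs, hs'⟩ := h
  obtain ⟨f, hf⟩ : ∃ f : K[X], f = GZ K a := ⟨_, rfl⟩
  obtain ⟨q, hq⟩ : ∃ q : K[X], q = GZ K b := ⟨_, rfl⟩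
  obtain ⟨χ, hχ⟩ : ∃ χ : K[X], χ = (LinearMap.mulLeft K t).charpoly := ⟨_, rfl⟩
  rw [← hf] at he hs
  rw [← hq] at he' hs'
  rw [← hχ] at hs hs'
  rw [← hf, ← hq]
  have hχm : χ.Monic := by rw [hχ]; exact LinearMap.charpoly_monic _
  have hcop : IsCoprime χ f := by
    rw [hχ]
    apply charpoly_coprime
    rw [← he]
    exact hy.pow 2
  have hcop' : IsCoprime χ q := by
    rw [hχ]
    apply charpoly_coprime
    rw [← he']
    exact hw.pow 2
  obtain ⟨h', V, r, r', e1, e2, e3, e4, e5⟩ := exists_sqfree χ hχm f q (by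
    intro π hπ hodd
    rw [hχ] at hodd
    exact ⟨sq_mod_odd t y f he π hπ hodd, sq_mod_odd t w q he' π hπ hodd⟩)
  have hodd : Odd h'.natDegree := by
    have h1 : χ.natDegree = Module.finrank K E := by
      rw [hχ, LinearMap.charpoly_natDegree]
    have h2 : χ.natDegree = h'.natDegree + 2 * V.natDegree := by
      rw [e3, e1.natDegree_mul (e2.pow 2), e2.natDegree_pow]
    rw [← h1, h2] at ho
    obtain ⟨k, hk⟩ := ho
    rw [Nat.odd_iff]
    omega
  rw [e3] at hcop hcop' hs hs'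
  exact ⟨h', c⁻¹, inv_ne_zero hc0, cls_of hc0 hodd hcop ⟨r, e4⟩ hs,
    cls_of hc0 hodd hcop' ⟨r', e5⟩ hs'⟩

end Stoll308.DQ
end

section
set_option autoImplicit false

/-!
Expansion of the product of the conditions at the primes, and the mean square of the nontrivial
part over a box.
-/

namespace Stoll308.Gen

open Finset Polynomial

/-- The reciprocal of the product of the primes of the support of a datum. -/
noncomputable def wS (S : Finset ℕ) (r : ℕ → ℕ) : ℝ := ∏ p ∈ supp S r, 1 / (p : ℝ)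

lemma wS_nonneg (S : Finset ℕ) (r : ℕ → ℕ) : 0 ≤ wS S r :=
  prod_nonneg fun p _ => by positivity

lemma wS_eq (S : Finset ℕ) (r : ℕ → ℕ) :
    wS S r = ∏ p ∈ S, (if r p = 0 then (1 : ℝ) else 1 / (p : ℝ)) := prod_supp S r _

/-- The sum of the weights of all data. -/
lemma sum_wS (f : ℤ[X]) (S : Finset ℕ) :
    ∑ r ∈ Dat f S, wS S r = ∏ p ∈ S, (1 + nr f p / p) := by
  have h := sum_Dat f S (fun p x => if x = 0 then (1 : ℝ) else 1 / (p : ℝ))
  rw [← sum_congr rfl fun r _ => wS_eq S r] at h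
  rw [h]
  refine prod_congr rfl fun p _ => ?_
  unfold nr
  simp only [Nat.add_eq_zero_iff, one_ne_zero, and_false, if_false, if_true, sum_const,
    nsmul_eq_mul]
  ring

/-- The sum of the weights of the data whose support contains `D`. -/
lemma sum_wS_sub (f : ℤ[X]) {S D : Finset ℕ} (hD : D ⊆ S) {n : ℝ} (hn : 0 ≤ n)
    (hR : ∀ p ∈ S, nr f p ≤ n) :
    ∑ r ∈ (Dat f S).filter (fun r => D ⊆ supp S r), wS S r ≤
      (∏ p ∈ D, (n / p)) * ∏ p ∈ S, (1 + n / p) := by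
  classical
  have h := sum_Dat f S
    (fun p x => if x = 0 then (if p ∈ D then 0 else (1 : ℝ)) else 1 / (p : ℝ))
  have e1 : ∑ r ∈ (Dat f S).filter (fun r => D ⊆ supp S r), wS S r ≤
      ∑ r ∈ Dat f S, ∏ p ∈ S, (if r p = 0 then (if p ∈ D then 0 else (1 : ℝ)) else 1 / (p : ℝ)) := by
    rw [sum_filter]
    refine sum_le_sum fun r _ => ?_
    by_cases hr : D ⊆ supp S r
    · rw [if_pos hr, wS_eq]
      refine le_of_eq (prod_congr rfl fun p _ => ?_)
      by_cases h0 : r p = 0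
      · have : p ∉ D := fun hp => (mem_filter.1 (hr hp)).2 h0
        simp [h0, this]
      · simp [h0]
    · rw [if_neg hr]
      refine prod_nonneg fun p _ => ?_
      split_ifs <;> positivity
  refine e1.trans ?_
  rw [h]
  have e2 : ∏ p ∈ D, (n / (p : ℝ)) = ∏ p ∈ S, (if p ∈ D then n / (p : ℝ) else 1) := by
    rw [prod_ite_mem, inter_eq_right.2 hD]
  rw [e2, ← prod_mul_distrib]
  refine prod_le_prod (fun p _ => ?_) fun p hp => ?_
  · refine add_nonneg ?_ (sum_nonneg fun a _ => ?_)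
    · simp only [if_true]
      split_ifs <;> positivity
    · simp only [Nat.add_eq_zero_iff, one_ne_zero, and_false, if_false]
      positivity
  · simp only [Nat.add_eq_zero_iff, one_ne_zero, and_false, if_false, if_true, sum_const,
      nsmul_eq_mul]
    have h1 : ((R f p).card : ℝ) * (1 / (p : ℝ)) ≤ n / p := by
      rw [mul_one_div]
      exact div_le_div_of_nonneg_right (hR p hp) (Nat.cast_nonneg p)
    have h2 : 0 ≤ n / (p : ℝ) := div_nonneg hn (Nat.cast_nonneg p)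
    by_cases hpD : p ∈ D
    · rw [if_pos hpD, if_pos hpD, zero_add]
      refine h1.trans ?_
      rw [mul_add, mul_one]
      have := mul_nonneg h2 h2
      linarith
    · rw [if_neg hpD, if_neg hpD, one_mul]
      linarith

/-- The choices of a subset of `J` at the primes of `U` in the support. -/
noncomputable def Ch (f : ℤ[X]) (U : Finset ℕ) (r : ℕ → ℕ) : Finset (ℕ → Finset ℕ) :=
  piF (supp U r) (fun p => (J f p (rt r p)).powerset) ∅

/-- The product of the conditions. -/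
noncomputable def cond (f : ℤ[X]) (U : Finset ℕ) (c : (ℕ → ℕ) → ℕ → ℕ → ℝ) (r : ℕ → ℕ)
    (g : Fin f.natDegree → ℤ) : ℝ :=
  ∏ p ∈ supp U r, ∏ a ∈ J f p (rt r p), (1 + c r p a * W f p (rt r p) a g) / 2

/-- The factor `2^{-|J|}`. -/
noncomputable def hf (f : ℤ[X]) (U : Finset ℕ) (r : ℕ → ℕ) : ℝ :=
  ∏ p ∈ supp U r, (1 / 2 : ℝ) ^ (J f p (rt r p)).card

lemma hf_nonneg (f : ℤ[X]) (U : Finset ℕ) (r : ℕ → ℕ) : 0 ≤ hf f U r :=
  prod_nonneg fun p _ => by positivity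

/-- The coefficient of a term of the expansion. -/
noncomputable def gam (f : ℤ[X]) (U : Finset ℕ) (ω : (ℕ → ℕ) → ℝ) (c : (ℕ → ℕ) → ℕ → ℕ → ℝ)
    (i : Σ _ : ℕ → ℕ, ℕ → Finset ℕ) : ℝ :=
  ω i.1 * (hf f U i.1 * ∏ p ∈ supp U i.1, ∏ a ∈ i.2 p, c i.1 p a)

/-- The primes at which a nonempty set was chosen. -/
def Dd (U : Finset ℕ) (i : Σ _ : ℕ → ℕ, ℕ → Finset ℕ) : Finset ℕ :=
  (supp U i.1).filter fun p => (i.2 p).Nonempty

/-- The character of a term of the expansion at `p`. -/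
noncomputable def Ff (f : ℤ[X]) (i : Σ _ : ℕ → ℕ, ℕ → Finset ℕ) (p : ℕ)
    (g : Fin f.natDegree → ℤ) : ℝ :=
  ∏ a ∈ i.2 p, (W f p (rt i.1 p) a g : ℝ)

/-- The data with small product of the primes in `U`. -/
noncomputable def DatS (f : ℤ[X]) (S U : Finset ℕ) (Dm : ℝ) : Finset (ℕ → ℕ) :=
  (Dat f S).filter fun r => ∏ p ∈ supp U r, (p : ℝ) ≤ Dm

/-- The nontrivial terms of the expansion. -/
noncomputable def Ix (f : ℤ[X]) (S U : Finset ℕ) (Dm : ℝ) :
    Finset (Σ _ : ℕ → ℕ, ℕ → Finset ℕ) :=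
  open Classical in
  (DatS f S U Dm).sigma fun r => (Ch f U r).filter fun A => A ≠ fun _ => ∅

/-- The nontrivial part. -/
noncomputable def hh (f : ℤ[X]) (S U : Finset ℕ) (Dm : ℝ) (ω : (ℕ → ℕ) → ℝ)
    (c : (ℕ → ℕ) → ℕ → ℕ → ℝ) (g : Fin f.natDegree → ℤ) : ℝ :=
  ∑ i ∈ Ix f S U Dm, gam f U ω c i * ∏ p ∈ Dd U i, Ff f i p g

/-- The main term. -/
noncomputable def Mn (f : ℤ[X]) (S U : Finset ℕ) (Dm : ℝ) (ω : (ℕ → ℕ) → ℝ) : ℝ :=
  ∑ r ∈ DatS f S U Dm, ω r * hf f U r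

lemma cond_expand (f : ℤ[X]) (U : Finset ℕ) (c : (ℕ → ℕ) → ℕ → ℕ → ℝ) (r : ℕ → ℕ)
    (g : Fin f.natDegree → ℤ) :
    cond f U c r g = ∑ A ∈ Ch f U r, hf f U r *
      ((∏ p ∈ supp U r, ∏ a ∈ A p, c r p a) * ∏ p ∈ supp U r, Ff f ⟨r, A⟩ p g) := by
  have h := sum_prod_piF (supp U r) (fun p => (J f p (rt r p)).powerset) (∅ : Finset ℕ)
    (fun p A => (1 / 2 : ℝ) ^ (J f p (rt r p)).card *
      ∏ a ∈ A, (c r p a * W f p (rt r p) a g))
  unfold cond
  have e : ∏ p ∈ supp U r, ∏ a ∈ J f p (rt r p), (1 + c r p a * W f p (rt r p) a g) / 2 =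
      ∏ p ∈ supp U r, ∑ A ∈ (J f p (rt r p)).powerset, (1 / 2 : ℝ) ^ (J f p (rt r p)).card *
      ∏ a ∈ A, (c r p a * W f p (rt r p) a g) := by
    refine prod_congr rfl fun p _ => ?_
    rw [← mul_sum, ← prod_one_add]
    rw [prod_div_distrib, prod_const]
    rw [one_div, inv_pow]
    rw [div_eq_mul_inv, mul_comm]
  rw [e, ← h]
  refine sum_congr rfl fun A _ => ?_
  unfold hf Ff
  rw [← prod_mul_distrib, ← prod_mul_distrib]
  refine prod_congr rfl fun p _ => ?_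
  rw [prod_mul_distrib]

/-- Expansion of the sum over the data. -/
theorem sum_cond (f : ℤ[X]) (S U : Finset ℕ) (Dm : ℝ) (ω : (ℕ → ℕ) → ℝ)
    (c : (ℕ → ℕ) → ℕ → ℕ → ℝ) (g : Fin f.natDegree → ℤ) :
    ∑ r ∈ DatS f S U Dm, ω r * cond f U c r g = Mn f S U Dm ω + hh f S U Dm ω c g := by
  classical
  unfold Mn hh Ix
  rw [sum_sigma, ← sum_add_distrib]
  refine sum_congr rfl fun r _ => ?_
  have h0 : (fun _ => ∅) ∈ Ch f U r := by
    unfold Ch
    rw [mem_piF]
    exact ⟨fun p _ => empty_mem_powerset _, fun _ _ => rfl⟩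
  rw [cond_expand, ← add_sum_erase _ _ h0, mul_add]
  congr 1
  · simp [Ff]
  · rw [filter_ne', mul_sum]
    refine sum_congr rfl fun A _ => ?_
    unfold gam
    have e : ∏ p ∈ Dd U ⟨r, A⟩, Ff f ⟨r, A⟩ p g = ∏ p ∈ supp U r, Ff f ⟨r, A⟩ p g := by
      unfold Dd
      rw [prod_filter]
      refine prod_congr rfl fun p _ => ?_
      by_cases hA : (A p).Nonempty
      · rw [if_pos hA]
      · rw [if_neg hA]
        rw [not_nonempty_iff_eq_empty] at hA
        unfold Ff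
        simp [hA]
    rw [e]
    ring

lemma abs_gam_le (f : ℤ[X]) (S U : Finset ℕ) {ω : (ℕ → ℕ) → ℝ} (hω : ∀ r, |ω r| ≤ wS S r)
    {c : (ℕ → ℕ) → ℕ → ℕ → ℝ}
    (hc : ∀ r p a, |c r p a| ≤ 1) (i : Σ _ : ℕ → ℕ, ℕ → Finset ℕ) :
    |gam f U ω c i| ≤ wS S i.1 * hf f U i.1 := by
  unfold gam
  have h0 : 0 ≤ hf f U i.1 := hf_nonneg _ _ _
  rw [abs_mul, abs_mul, abs_of_nonneg h0]
  refine mul_le_mul (hω _) ?_ (mul_nonneg h0 (abs_nonneg _)) (wS_nonneg _ _)
  refine mul_le_of_le_one_right h0 ?_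
  rw [abs_prod]
  refine prod_le_one (fun _ _ => abs_nonneg _) fun p _ => ?_
  rw [abs_prod]
  exact prod_le_one (fun _ _ => abs_nonneg _) fun a _ => hc _ _ _

lemma sum_Ch (f : ℤ[X]) (U : Finset ℕ) (r : ℕ → ℕ) : ∑ _A ∈ Ch f U r, hf f U r = 1 := by
  rw [sum_const, nsmul_eq_mul]
  unfold Ch hf
  rw [card_piF]
  push_cast
  rw [← prod_mul_distrib]
  refine prod_eq_one fun p _ => ?_
  rw [card_powerset]
  push_cast
  rw [← mul_pow]
  norm_num

/-- The sum of the absolute values of the coefficients belonging to the set of primes `D`. -/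
lemma sum_gam_D (f : ℤ[X]) {S U : Finset ℕ} (hU : U ⊆ S) (Dm : ℝ) {ω : (ℕ → ℕ) → ℝ}
    (hω : ∀ r, |ω r| ≤ wS S r) {c : (ℕ → ℕ) → ℕ → ℕ → ℝ}
    (hc : ∀ r p a, |c r p a| ≤ 1) {n : ℝ} (hn : 0 ≤ n) (hR : ∀ p ∈ S, nr f p ≤ n)
    {D : Finset ℕ} (hD : D ⊆ U) :
    ∑ i ∈ (Ix f S U Dm).filter (fun i => Dd U i = D), |gam f U ω c i| ≤
      (∏ p ∈ D, (n / p)) * ∏ p ∈ S, (1 + n / p) := by
  classical
  refine le_trans ?_ (sum_wS_sub f (hD.trans hU) hn hR)
  have e1 : ∑ i ∈ (Ix f S U Dm).filter (fun i => Dd U i = D), |gam f U ω c i| ≤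
      ∑ i ∈ ((Dat f S).filter (fun r => D ⊆ supp S r)).sigma (fun r => Ch f U r),
        wS S i.1 * hf f U i.1 := by
    refine (sum_le_sum fun i _ => abs_gam_le f S U hω hc i).trans ?_
    refine sum_le_sum_of_subset_of_nonneg ?_ fun i _ _ =>
      mul_nonneg (wS_nonneg _ _) (hf_nonneg _ _ _)
    intro i hi
    rw [mem_filter] at hi
    obtain ⟨hi, hiD⟩ := hi
    unfold Ix DatS at hi
    rw [mem_sigma, mem_filter, mem_filter] at hi
    rw [mem_sigma, mem_filter]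
    refine ⟨⟨hi.1.1, ?_⟩, hi.2.1⟩
    intro p hp
    rw [← hiD] at hp
    unfold Dd supp at hp
    rw [mem_filter, mem_filter] at hp
    unfold supp
    rw [mem_filter]
    exact ⟨hU hp.1.1, hp.1.2⟩
  refine e1.trans (le_of_eq ?_)
  rw [sum_sigma]
  refine sum_congr rfl fun r _ => ?_
  change ∑ _A ∈ Ch f U r, wS S r * hf f U r = wS S r
  rw [← mul_sum, sum_Ch, mul_one]

/-- The sum of the absolute values of all the coefficients. -/
lemma sum_gam (f : ℤ[X]) {S U : Finset ℕ} (Dm : ℝ) {ω : (ℕ → ℕ) → ℝ}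
    (hω : ∀ r, |ω r| ≤ wS S r) {c : (ℕ → ℕ) → ℕ → ℕ → ℝ}
    (hc : ∀ r p a, |c r p a| ≤ 1) {n : ℝ} (hR : ∀ p ∈ S, nr f p ≤ n) :
    ∑ i ∈ Ix f S U Dm, |gam f U ω c i| ≤ ∏ p ∈ S, (1 + n / p) := by
  classical
  have e1 : ∑ i ∈ Ix f S U Dm, |gam f U ω c i| ≤
      ∑ i ∈ (Dat f S).sigma (fun r => Ch f U r), wS S i.1 * hf f U i.1 := by
    refine (sum_le_sum fun i _ => abs_gam_le f S U hω hc i).trans ?_
    refine sum_le_sum_of_subset_of_nonneg ?_ fun i _ _ =>
      mul_nonneg (wS_nonneg _ _) (hf_nonneg _ _ _)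
    intro i hi
    unfold Ix DatS at hi
    rw [mem_sigma, mem_filter, mem_filter] at hi
    rw [mem_sigma]
    exact ⟨hi.1.1, hi.2.1⟩
  refine e1.trans ?_
  rw [sum_sigma]
  have e2 : ∀ r ∈ Dat f S, ∑ A ∈ Ch f U r, wS S r * hf f U r = wS S r := by
    intro r _
    rw [← mul_sum, sum_Ch, mul_one]
  rw [sum_congr rfl e2, sum_wS]
  refine prod_le_prod (fun p _ => ?_) fun p hp => ?_
  · unfold nr
    positivity
  · have := div_le_div_of_nonneg_right (hR p hp) (Nat.cast_nonneg p)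
    linarith

lemma Dd_ne {f : ℤ[X]} {S U : Finset ℕ} {Dm : ℝ} {i : Σ _ : ℕ → ℕ, ℕ → Finset ℕ}
    (hi : i ∈ Ix f S U Dm) : (Dd U i).Nonempty := by
  classical
  unfold Ix at hi
  rw [mem_sigma, mem_filter] at hi
  obtain ⟨_, h2, h3⟩ := hi
  by_contra hcon
  rw [not_nonempty_iff_eq_empty] at hcon
  apply h3
  funext p
  unfold Ch at h2
  rw [mem_piF] at h2
  by_cases hp : p ∈ supp U i.1
  · by_contra hA
    have : p ∈ Dd U i := by
      unfold Dd
      rw [mem_filter]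
      exact ⟨hp, nonempty_iff_ne_empty.2 hA⟩
    rw [hcon] at this
    exact notMem_empty p this
  · exact h2.2 p hp

lemma prod_Dd_le {f : ℤ[X]} {S U : Finset ℕ} {Dm : ℝ} (hU1 : ∀ p ∈ U, 1 ≤ p)
    {i : Σ _ : ℕ → ℕ, ℕ → Finset ℕ} (hi : i ∈ Ix f S U Dm) : ∏ p ∈ Dd U i, (p : ℝ) ≤ Dm := by
  classical
  unfold Ix DatS at hi
  rw [mem_sigma, mem_filter] at hi
  refine le_trans ?_ hi.1.2
  have h : ∏ p ∈ Dd U i, p ≤ ∏ p ∈ supp U i.1, p := by
    refine prod_le_prod_of_subset_of_one_le' (filter_subset _ _) fun p hp _ => ?_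
    exact hU1 p (mem_filter.1 hp).1
  rw [← Nat.cast_prod, ← Nat.cast_prod]
  exact Nat.cast_le.2 h

/-- The mean square of the nontrivial part over a box. -/
theorem hh_sq (f : ℤ[X]) (hfm : f.Monic) {C₀ : ℕ} (hN : NonTriv f C₀) {S U : Finset ℕ}
    (hU : U ⊆ S) (hS : ∀ p ∈ S, p.Prime ∧ C₀ < p) {z : ℝ} (hz : 0 < z) (hzU : ∀ p ∈ U, z < p)
    {Dm : ℝ} (hDm : 0 ≤ Dm) {ω : (ℕ → ℕ) → ℝ} (hω : ∀ r, |ω r| ≤ wS S r)
    {c : (ℕ → ℕ) → ℕ → ℕ → ℝ} (hc : ∀ r p a, |c r p a| ≤ 1) (B : ℕ) :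
    ∑ g ∈ bx f.natDegree B, hh f S U Dm ω c g ^ 2 ≤
      (2 * B + 1 : ℝ) ^ f.natDegree * ((∏ p ∈ S, (1 + (f.natDegree : ℝ) / p)) ^ 2 *
        ((1 / z) * ∏ p ∈ U, (1 + (f.natDegree : ℝ) ^ 2 / p))) +
      2 * (f.natDegree * (2 * B + 1 : ℝ) ^ (f.natDegree - 1)) *
        (Dm * ∏ p ∈ S, (1 + (f.natDegree : ℝ) / p)) ^ 2 := by
  classical
  set n : ℕ := f.natDegree with hn
  set P : ℝ := ∏ p ∈ S, (1 + (n : ℝ) / p) with hP
  have hP0 : 0 ≤ P := prod_nonneg fun p _ => by positivity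
  have hR : ∀ p ∈ S, nr f p ≤ n := by
    intro p hp
    have : Fact p.Prime := ⟨(hS p hp).1⟩
    unfold nr
    exact_mod_cast card_R_le_deg hfm
  have hsuppU : ∀ {i : Σ _ : ℕ → ℕ, ℕ → Finset ℕ} {p : ℕ}, p ∈ Dd U i → p ∈ U := by
    intro i p hp
    exact (mem_filter.1 (mem_filter.1 hp).1).1
  have hI : ∀ i ∈ Ix f S U Dm, ∀ p ∈ Dd U i, rt i.1 p ∈ R f p ∧ i.2 p ⊆ J f p (rt i.1 p) ∧
      (i.2 p).Nonempty := by
    intro i hi p hp
    unfold Ix DatS at hi
    rw [mem_sigma, mem_filter, mem_filter] at hi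
    have hp2 := mem_filter.1 hp
    have hp3 : p ∈ supp S i.1 := by
      have := mem_filter.1 hp2.1
      exact mem_filter.2 ⟨hU this.1, this.2⟩
    refine ⟨(rt_mem hi.1.1 hp3).1, ?_, hp2.2⟩
    have := hi.2.1
    unfold Ch at this
    rw [mem_piF] at this
    exact mem_powerset.1 (this.1 p hp2.1)
  have hsq := bx_sq (Ix f S U Dm) (gam f U ω c) (Dd U) (Ff f)
    (fun i _ p hp => (hS p (hU (hsuppU hp))).1)
    (fun i _ p _ g g' hgg => by
      unfold Ff
      refine prod_congr rfl fun a _ => ?_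
      rw [W_congr f p (rt i.1 p) a g g' hgg])
    (fun i _ p _ g => by
      unfold Ff
      rw [abs_prod]
      refine prod_le_one (fun _ _ => abs_nonneg _) fun a _ => ?_
      unfold W
      have h := jacobiSym.trichotomy (ev g (a : ℤ) * ev g ((rt i.1 p : ℕ) : ℤ) * Nm f g) p
      rcases h with h | h | h <;> rw [h] <;> simp)
    (fun i hi p hp => by
      obtain ⟨h1, h2, h3⟩ := hI i hi p hp
      have h := hN p (hS p (hU (hsuppU hp))).1 (hS p (hU (hsuppU hp))).2 _ h1 _ h2 h3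
      unfold Ff
      exact_mod_cast h) B
  refine hsq.trans ?_
  set I := Ix f S U Dm with hIdef
  set G : Finset ℕ → ℝ := fun D => ∑ i ∈ I.filter (fun i => Dd U i = D), |gam f U ω c i| with hG
  -- split
  have hb0 : (0 : ℝ) ≤ (2 * B + 1 : ℝ) ^ (n - 1) := by positivity
  have ha0 : (0 : ℝ) ≤ (2 * B + 1 : ℝ) ^ n := by positivity
  have h1 : ∑ i ∈ I, ∑ j ∈ I, |gam f U ω c i| * |gam f U ω c j| *
      (if Dd U i = Dd U j then (2 * B + 1 : ℝ) ^ n else
        2 * (n * ((∏ p ∈ Dd U i, (p : ℝ)) * ∏ p ∈ Dd U j, (p : ℝ)) * (2 * B + 1) ^ (n - 1))) ≤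
      ∑ i ∈ I, ∑ j ∈ I, (|gam f U ω c i| * |gam f U ω c j| *
        (if Dd U i = Dd U j then (2 * B + 1 : ℝ) ^ n else 0) +
        2 * (n * (2 * B + 1 : ℝ) ^ (n - 1)) * ((|gam f U ω c i| * Dm) * (|gam f U ω c j| * Dm))) := by
    refine sum_le_sum fun i hi => sum_le_sum fun j hj => ?_
    have hi1 : ∏ p ∈ Dd U i, (p : ℝ) ≤ Dm :=
      prod_Dd_le (fun p hp => (hS p (hU hp)).1.one_lt.le) hi
    have hj1 : ∏ p ∈ Dd U j, (p : ℝ) ≤ Dm :=
      prod_Dd_le (fun p hp => (hS p (hU hp)).1.one_lt.le) hj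
    have hi0 : 0 ≤ ∏ p ∈ Dd U i, (p : ℝ) := prod_nonneg fun p _ => Nat.cast_nonneg p
    have hj0 : 0 ≤ ∏ p ∈ Dd U j, (p : ℝ) := prod_nonneg fun p _ => Nat.cast_nonneg p
    have hg : 0 ≤ |gam f U ω c i| * |gam f U ω c j| := by positivity
    by_cases hD : Dd U i = Dd U j
    · rw [if_pos hD, if_pos hD]
      have : 0 ≤ 2 * (n * (2 * B + 1 : ℝ) ^ (n - 1)) *
          ((|gam f U ω c i| * Dm) * (|gam f U ω c j| * Dm)) := by positivity
      linarith
    · rw [if_neg hD, if_neg hD, mul_zero, zero_add]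
      have h2 : (∏ p ∈ Dd U i, (p : ℝ)) * ∏ p ∈ Dd U j, (p : ℝ) ≤ Dm * Dm :=
        mul_le_mul hi1 hj1 hj0 hDm
      have h3 : |gam f U ω c i| * |gam f U ω c j| *
          ((∏ p ∈ Dd U i, (p : ℝ)) * ∏ p ∈ Dd U j, (p : ℝ)) ≤
          |gam f U ω c i| * |gam f U ω c j| * (Dm * Dm) := mul_le_mul_of_nonneg_left h2 hg
      have h4 : 0 ≤ 2 * (n * (2 * B + 1 : ℝ) ^ (n - 1)) := by positivity
      have h5 := mul_le_mul_of_nonneg_left h3 h4
      calc _ = 2 * (n * (2 * B + 1 : ℝ) ^ (n - 1)) * (|gam f U ω c i| * |gam f U ω c j| *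
          ((∏ p ∈ Dd U i, (p : ℝ)) * ∏ p ∈ Dd U j, (p : ℝ))) := by ring
        _ ≤ _ := h5
        _ = _ := by ring
  refine h1.trans ?_
  simp only [sum_add_distrib]
  refine add_le_add ?_ ?_
  · -- the diagonal
    have h2 : ∑ i ∈ I, ∑ j ∈ I, |gam f U ω c i| * |gam f U ω c j| *
        (if Dd U i = Dd U j then (2 * B + 1 : ℝ) ^ n else 0) =
        (2 * B + 1 : ℝ) ^ n * ∑ i ∈ I, |gam f U ω c i| * G (Dd U i) := by
      rw [mul_sum]
      refine sum_congr rfl fun i _ => ?_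
      rw [hG]
      simp only
      rw [sum_filter, mul_sum, mul_sum]
      refine sum_congr rfl fun j _ => ?_
      by_cases hD : Dd U i = Dd U j
      · rw [if_pos hD, if_pos hD.symm]
        ring
      · rw [if_neg hD, if_neg (Ne.symm hD)]
        ring
    rw [h2]
    refine mul_le_mul_of_nonneg_left ?_ ha0
    have h3 : ∑ i ∈ I, |gam f U ω c i| * G (Dd U i) =
        ∑ D ∈ U.powerset.erase ∅, G D * G D := by
      rw [← sum_fiberwise_of_maps_to (s := I) (t := U.powerset.erase ∅) (g := Dd U)]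
      · refine sum_congr rfl fun D _ => ?_
        rw [hG]
        simp only
        rw [sum_mul]
        refine sum_congr rfl fun i hi => ?_
        rw [(mem_filter.1 hi).2]
      · intro i hi
        rw [mem_erase, mem_powerset]
        exact ⟨nonempty_iff_ne_empty.1 (Dd_ne hi), fun p hp => hsuppU hp⟩
    rw [h3]
    have hGD : ∀ D ∈ U.powerset.erase ∅, G D ≤ (∏ p ∈ D, ((n : ℝ) / p)) * P := by
      intro D hD
      rw [mem_erase, mem_powerset] at hD
      exact sum_gam_D f hU Dm hω hc (Nat.cast_nonneg n) hR hD.2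
    have hG0 : ∀ D, 0 ≤ G D := fun D => sum_nonneg fun i _ => abs_nonneg _
    have h4 : ∀ D ∈ U.powerset.erase ∅, G D * G D ≤
        P ^ 2 * ((1 / z) * ∏ p ∈ D, ((n : ℝ) ^ 2 / p)) := by
      intro D hD
      have h5 := mul_le_mul (hGD D hD) (hGD D hD) (hG0 D) ((hG0 D).trans (hGD D hD))
      refine h5.trans ?_
      rw [mem_erase, mem_powerset] at hD
      have h6 : (∏ p ∈ D, ((n : ℝ) / p)) * (∏ p ∈ D, ((n : ℝ) / p)) =
          (∏ p ∈ D, (1 / (p : ℝ))) * ∏ p ∈ D, ((n : ℝ) ^ 2 / p) := by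
        rw [← prod_mul_distrib, ← prod_mul_distrib]
        refine prod_congr rfl fun p _ => ?_
        ring
      have h7 : ∏ p ∈ D, (1 / (p : ℝ)) ≤ 1 / z := by
        obtain ⟨q, hq⟩ := nonempty_iff_ne_empty.2 hD.1
        rw [← mul_prod_erase D (fun p => 1 / (p : ℝ)) hq]
        have hq1 : 1 / (q : ℝ) ≤ 1 / z :=
          one_div_le_one_div_of_le hz (hzU q (hD.2 hq)).le
        have hq2 : ∏ p ∈ D.erase q, (1 / (p : ℝ)) ≤ 1 := by
          refine prod_le_one (fun p _ => by positivity) fun p hp => ?_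
          have : (1 : ℝ) ≤ p := by
            exact_mod_cast (hS p (hU (hD.2 (mem_erase.1 hp).2))).1.one_lt.le
          rw [div_le_one (by linarith)]
          exact this
        calc 1 / (q : ℝ) * ∏ p ∈ D.erase q, (1 / (p : ℝ)) ≤ 1 / z * 1 :=
              mul_le_mul hq1 hq2 (prod_nonneg fun p _ => by positivity) (by positivity)
          _ = 1 / z := mul_one _
      have h8 : 0 ≤ ∏ p ∈ D, ((n : ℝ) ^ 2 / p) := prod_nonneg fun p _ => by positivity
      calc (∏ p ∈ D, ((n : ℝ) / p)) * P * ((∏ p ∈ D, ((n : ℝ) / p)) * P) =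
            P ^ 2 * ((∏ p ∈ D, ((n : ℝ) / p)) * (∏ p ∈ D, ((n : ℝ) / p))) := by ring
        _ = P ^ 2 * ((∏ p ∈ D, (1 / (p : ℝ))) * ∏ p ∈ D, ((n : ℝ) ^ 2 / p)) := by rw [h6]
        _ ≤ _ := mul_le_mul_of_nonneg_left (mul_le_mul_of_nonneg_right h7 h8) (by positivity)
    refine (sum_le_sum h4).trans ?_
    rw [← mul_sum, ← mul_sum]
    refine mul_le_mul_of_nonneg_left ?_ (by positivity)
    refine mul_le_mul_of_nonneg_left ?_ (by positivity)
    rw [prod_one_add]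
    exact sum_le_sum_of_subset_of_nonneg (erase_subset _ _) fun D _ _ =>
      prod_nonneg fun p _ => by positivity
  · -- the rest
    have h2 : ∑ i ∈ I, ∑ j ∈ I, 2 * (n * (2 * B + 1 : ℝ) ^ (n - 1)) *
        ((|gam f U ω c i| * Dm) * (|gam f U ω c j| * Dm)) =
        2 * (n * (2 * B + 1 : ℝ) ^ (n - 1)) * (Dm * ∑ i ∈ I, |gam f U ω c i|) ^ 2 := by
      rw [pow_two, mul_sum, sum_mul_sum, mul_sum]
      refine sum_congr rfl fun i _ => ?_
      rw [mul_sum]
      refine sum_congr rfl fun j _ => ?_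
      ring
    rw [h2]
    refine mul_le_mul_of_nonneg_left ?_ (by positivity)
    have h3 := sum_gam f (U := U) Dm hω hc hR
    have h4 : 0 ≤ ∑ i ∈ I, |gam f U ω c i| := sum_nonneg fun i _ => abs_nonneg _
    exact pow_le_pow_left₀ (mul_nonneg hDm h4) (mul_le_mul_of_nonneg_left h3 hDm) 2

end Stoll308.Gen
end

section
set_option autoImplicit false

/-!
The sum over the twists with nonempty fake `2`-Selmer set is bounded by Euler products and error
terms.
-/

namespace Stoll308.Gen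

open Finset Polynomial NumberTheorySymbols

lemma sum_le_of_inj {α β : Type*} (A : Finset α) (Y : Finset β) (φ : α → β)
    (hφ : ∀ t ∈ A, φ t ∈ Y) (hinj : Set.InjOn φ A) (w : α → ℝ) (W : β → ℝ)
    (h : ∀ t ∈ A, w t ≤ W (φ t)) (hW : ∀ y ∈ Y, 0 ≤ W y) : ∑ t ∈ A, w t ≤ ∑ y ∈ Y, W y := by
  classical
  refine (sum_le_sum h).trans ?_
  rw [← sum_image (f := W) hinj]
  refine sum_le_sum_of_subset_of_nonneg ?_ fun y hy _ => hW y hy
  intro y hy
  obtain ⟨t, ht, rfl⟩ := mem_image.1 hy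
  exact hφ t ht

section dec

variable (C₀ : ℕ)

/-- The part of `t` composed of the primes `≤ C₀`. -/
def sp (t : ℤ) : ℤ := t / ((∏ p ∈ bigPrimes C₀ t, p : ℕ) : ℤ)

lemma natAbs_eq {t : ℤ} (ht : Squarefree t) :
    t.natAbs = (∏ p ∈ bigPrimes C₀ t, p) *
      ∏ p ∈ t.natAbs.primeFactors.filter (fun p => ¬ C₀ < p), p := by
  unfold bigPrimes
  rw [prod_filter_mul_prod_filter_not]
  exact (Nat.prod_primeFactors_of_squarefree (Int.squarefree_natAbs.2 ht)).symm

lemma prod_big_pos (t : ℤ) : 0 < ∏ p ∈ bigPrimes C₀ t, p :=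
  prod_pos fun _ hp => (Nat.prime_of_mem_primeFactors (mem_filter.1 hp).1).pos

lemma sp_mul {t : ℤ} (ht : Squarefree t) :
    sp C₀ t * ((∏ p ∈ bigPrimes C₀ t, p : ℕ) : ℤ) = t := by
  unfold sp
  refine Int.ediv_mul_cancel ?_
  rw [← Int.dvd_natAbs]
  exact_mod_cast Dvd.intro _ (natAbs_eq C₀ ht).symm

/-- The product of the primes up to `C₀`. -/
def P0 : ℕ := ∏ p ∈ (range (C₀ + 1)).filter Nat.Prime, p

lemma sp_natAbs {t : ℤ} (ht : Squarefree t) :
    (sp C₀ t).natAbs = ∏ p ∈ t.natAbs.primeFactors.filter (fun p => ¬ C₀ < p), p := by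
  have h1 := congrArg Int.natAbs (sp_mul C₀ ht)
  rw [Int.natAbs_mul, Int.natAbs_natCast, natAbs_eq C₀ ht, mul_comm] at h1
  exact Nat.eq_of_mul_eq_mul_left (prod_big_pos C₀ t) h1

lemma sp_mem {t : ℤ} (ht : Squarefree t) : sp C₀ t ∈ Icc (-(P0 C₀ : ℤ)) (P0 C₀) := by
  have h1 : (sp C₀ t).natAbs ≤ P0 C₀ := by
    rw [sp_natAbs C₀ ht]
    unfold P0
    refine prod_le_prod_of_subset_of_one_le' ?_ fun p hp _ => (mem_filter.1 hp).2.one_lt.le
    intro p hp
    rw [mem_filter] at hp ⊢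
    refine ⟨?_, Nat.prime_of_mem_primeFactors hp.1⟩
    rw [mem_range]
    omega
  rw [mem_Icc]
  omega

lemma card_sp : ((Icc (-(P0 C₀ : ℤ)) (P0 C₀)).card : ℝ) = 2 * P0 C₀ + 1 := by
  rw [Int.card_Icc]
  have : ((P0 C₀ : ℤ) + 1 - -(P0 C₀ : ℤ)).toNat = 2 * P0 C₀ + 1 := by omega
  rw [this]
  push_cast
  ring

/-- The primes `> C₀` up to `X`. -/
def PX (X : ℕ) : Finset ℕ := (Icc 1 X).filter fun p => p.Prime ∧ C₀ < p

lemma big_subset {X : ℕ} {t : ℤ} (ht : t ∈ Icc (-(X : ℤ)) X) (ht0 : t ≠ 0) :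
    bigPrimes C₀ t ⊆ PX C₀ X := by
  intro p hp
  unfold bigPrimes at hp
  rw [mem_filter] at hp
  have hpp := Nat.prime_of_mem_primeFactors hp.1
  unfold PX
  rw [mem_filter, mem_Icc]
  refine ⟨⟨hpp.one_lt.le, ?_⟩, hpp, hp.2⟩
  have h1 := Nat.le_of_dvd (Int.natAbs_pos.2 ht0) (Nat.dvd_of_mem_primeFactors hp.1)
  rw [mem_Icc] at ht
  omega

/-- The pair `(s, T)` determines `t`. -/
lemma sp_inj {t t' : ℤ} (ht : Squarefree t) (ht' : Squarefree t') (h1 : sp C₀ t = sp C₀ t')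
    (h2 : bigPrimes C₀ t = bigPrimes C₀ t') : t = t' := by
  rw [← sp_mul C₀ ht, ← sp_mul C₀ ht', h1, h2]

end dec

section classC

variable (f : ℤ[X]) (D : RelData f)

/-- The coefficients of the relations. -/
noncomputable def cf (S : Finset ℕ) (s : ℤ) (e : Fin D.m) (k : ℤ) (r : ℕ → ℕ) (p a : ℕ) : ℝ :=
  ((D.c e s (supp S r) (rt r) p a * J(k | p) : ℤ) : ℝ)

lemma abs_jacobi_le_one (k : ℤ) (p : ℕ) : |J(k | p)| ≤ 1 := by
  rcases jacobiSym.trichotomy k p with h | h | h <;> rw [h] <;> simp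

lemma cf_le (S : Finset ℕ) (s : ℤ) (e : Fin D.m) (k : ℤ) (r : ℕ → ℕ) (p a : ℕ) :
    |cf f D S s e k r p a| ≤ 1 := by
  unfold cf
  rw [← Int.cast_abs]
  have : |D.c e s (supp S r) (rt r) p a * J(k | p)| ≤ 1 := by
    rw [abs_mul]
    exact mul_le_one₀ (D.c_le _ _ _ _ _ _) (abs_nonneg _) (abs_jacobi_le_one _ _)
  exact_mod_cast this

lemma cond_nonneg (U : Finset ℕ) {c : (ℕ → ℕ) → ℕ → ℕ → ℝ} (hc : ∀ r p a, |c r p a| ≤ 1)
    (r : ℕ → ℕ) (g : Fin f.natDegree → ℤ) : 0 ≤ cond f U c r g := by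
  unfold cond
  refine prod_nonneg fun p _ => prod_nonneg fun a _ => ?_
  have h1 : |c r p a * (W f p (rt r p) a g : ℝ)| ≤ 1 := by
    rw [abs_mul]
    refine mul_le_one₀ (hc r p a) (abs_nonneg _) ?_
    rw [← Int.cast_abs]
    have : |W f p (rt r p) a g| ≤ 1 := abs_jacobi_le_one _ _
    exact_mod_cast this
  have := (abs_le.1 h1).1
  linarith

/-- The data over the large primes. -/
noncomputable def VV (S₂ : Finset ℕ) (N : ℕ) : Finset (ℕ → ℕ) :=
  (Dat f S₂).filter fun r => (supp S₂ r).Nonempty ∧ ∏ p ∈ supp S₂ r, p ≤ N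

end classC

end Stoll308.Gen
end

section
/-! An upper bound for sums of multiplicative functions supported on squarefree numbers. -/

set_option autoImplicit false

namespace Stoll308.HT

open Finset Stoll308.MeanSum

/-- the multiplicative function supported on squarefree numbers with values `H p` at primes -/
noncomputable def hf (H : ℕ → ℝ) (n : ℕ) : ℝ := if Squarefree n then ∏ p ∈ n.primeFactors, H p else 0

lemma hf_nonneg {H : ℕ → ℝ} (h0 : ∀ p, p.Prime → 0 ≤ H p) (n : ℕ) : 0 ≤ hf H n := by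
  unfold hf
  split_ifs
  · exact prod_nonneg fun p hp => h0 p (Nat.prime_of_mem_primeFactors hp)
  · exact le_rfl

lemma hf_mul_le {H : ℕ → ℝ} {K : ℝ} (h0 : ∀ p, p.Prime → 0 ≤ H p) (hK : ∀ p, p.Prime → H p ≤ K)
    {p m : ℕ} (hp : p.Prime) (hm : m ≠ 0) : hf H (p * m) ≤ K * hf H m := by
  have hK0 : 0 ≤ K := (h0 p hp).trans (hK p hp)
  by_cases hsq : Squarefree (p * m)
  · have h1 : Squarefree m := hsq.of_mul_right
    have h2 : Nat.Coprime p m := Nat.coprime_of_squarefree_mul hsq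
    unfold hf
    rw [if_pos hsq, if_pos h1, Nat.primeFactors_mul hp.ne_zero hm, hp.primeFactors]
    rw [prod_union (by
      rw [disjoint_singleton_left]
      intro h
      have := Nat.dvd_of_mem_primeFactors h
      exact (Nat.Prime.coprime_iff_not_dvd hp).1 h2 this), prod_singleton]
    exact mul_le_mul_of_nonneg_right (hK p hp)
      (prod_nonneg fun p hp => h0 p (Nat.prime_of_mem_primeFactors hp))
  · have : hf H (p * m) = 0 := by unfold hf; rw [if_neg hsq]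
    rw [this]
    exact mul_nonneg hK0 (hf_nonneg h0 m)

lemma log_eq_sum {n : ℕ} (hn : Squarefree n) :
    Real.log n = ∑ p ∈ n.primeFactors, Real.log p := by
  conv_lhs => rw [← Nat.prod_primeFactors_of_squarefree hn]
  push_cast
  rw [Real.log_prod]
  intro p hp
  have := (Nat.prime_of_mem_primeFactors hp).pos
  positivity

lemma sum_div_le_prod {H : ℕ → ℝ} (h0 : ∀ p, p.Prime → 0 ≤ H p) (X : ℕ) :
    ∑ m ∈ Icc 1 X, hf H m / m ≤ ∏ p ∈ PR X, (1 + H p / p) := by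
  rw [prod_one_add]
  have h1 : ∑ m ∈ Icc 1 X, hf H m / m = ∑ m ∈ (Icc 1 X).filter Squarefree, hf H m / m := by
    rw [sum_filter]
    refine sum_congr rfl fun m _ => ?_
    split_ifs with h
    · rfl
    · unfold hf; rw [if_neg h, zero_div]
  rw [h1]
  have h2 : ∀ m ∈ (Icc 1 X).filter Squarefree, hf H m / m = ∏ p ∈ m.primeFactors, H p / p := by
    intro m hm
    have hsq := (mem_filter.1 hm).2
    unfold hf
    rw [if_pos hsq, prod_div_distrib]
    congr 1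
    conv_lhs => rw [← Nat.prod_primeFactors_of_squarefree hsq]
    push_cast
    rfl
  rw [sum_congr rfl h2]
  rw [← sum_image (f := fun t : Finset ℕ => ∏ p ∈ t, H p / p) (g := Nat.primeFactors)]
  · refine sum_le_sum_of_subset_of_nonneg ?_ fun t ht _ => prod_nonneg fun p hp => ?_
    · intro t ht
      rw [mem_image] at ht
      obtain ⟨m, hm, rfl⟩ := ht
      rw [mem_powerset]
      intro p hp
      rw [mem_PR]
      have h3 := mem_Icc.1 (mem_filter.1 hm).1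
      exact ⟨Nat.prime_of_mem_primeFactors hp, (Nat.le_of_dvd (by omega) (Nat.dvd_of_mem_primeFactors hp)).trans h3.2⟩
    · have := (mem_PR.1 (mem_powerset.1 ht hp)).1
      exact div_nonneg (h0 p this) (Nat.cast_nonneg _)
  · intro m hm n hn hmn
    have h3 := (mem_filter.1 hm).2
    have h4 := (mem_filter.1 hn).2
    change m.primeFactors = n.primeFactors at hmn
    rw [← Nat.prod_primeFactors_of_squarefree h3, ← Nat.prod_primeFactors_of_squarefree h4, hmn]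

lemma sum_hf_log_le {H : ℕ → ℝ} {K : ℝ} (h0 : ∀ p, p.Prime → 0 ≤ H p) (hK : ∀ p, p.Prime → H p ≤ K)
    (X : ℕ) : ∑ n ∈ Icc 1 X, hf H n * Real.log n ≤
      K * Real.log 4 * X * ∑ m ∈ Icc 1 X, hf H m / m := by
  have hK0 : 0 ≤ K := (h0 2 Nat.prime_two).trans (hK 2 Nat.prime_two)
  have h1 : ∀ n ∈ Icc 1 X, hf H n * Real.log n =
      ∑ p ∈ PR X, if p ∣ n then hf H n * Real.log p else 0 := by
    intro n hn
    have hn' := mem_Icc.1 hn
    by_cases hsq : Squarefree n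
    · rw [log_eq_sum hsq, mul_sum, ← sum_filter]
      refine sum_congr ?_ fun _ _ => rfl
      ext p
      rw [mem_filter, mem_PR, Nat.mem_primeFactors]
      constructor
      · rintro ⟨h1, h2, _⟩
        exact ⟨⟨h1, (Nat.le_of_dvd (by omega) h2).trans hn'.2⟩, h2⟩
      · rintro ⟨⟨h1, _⟩, h2⟩
        exact ⟨h1, h2, by omega⟩
    · have : hf H n = 0 := by unfold hf; rw [if_neg hsq]
      rw [this, zero_mul]
      simp
  rw [sum_congr rfl h1, sum_comm]
  have h2 : ∀ p ∈ PR X, (∑ n ∈ Icc 1 X, if p ∣ n then hf H n * Real.log p else 0) ≤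
      ∑ m ∈ Icc 1 X, if p * m ≤ X then K * hf H m * Real.log p else 0 := by
    intro p hp
    obtain ⟨hpp, hpX⟩ := mem_PR.1 hp
    have hlogp : 0 ≤ Real.log p := Real.log_nonneg (by exact_mod_cast hpp.one_le)
    rw [← sum_filter, ← sum_filter]
    have h3 : (Icc 1 X).filter (fun n => p ∣ n) = ((Icc 1 X).filter (fun m => p * m ≤ X)).image (fun m => p * m) := by
      ext n
      rw [mem_filter, mem_image, mem_Icc]
      constructor
      · rintro ⟨⟨h4, h5⟩, m, rfl⟩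
        have hm : 1 ≤ m := by
          rcases Nat.eq_zero_or_pos m with h | h
          · rw [h, mul_zero] at h4; omega
          · exact h
        refine ⟨m, mem_filter.2 ⟨mem_Icc.2 ⟨hm, ?_⟩, h5⟩, rfl⟩
        exact (Nat.le_mul_of_pos_left m hpp.pos).trans h5
      · rintro ⟨m, hm, rfl⟩
        obtain ⟨h4, h5⟩ := mem_filter.1 hm
        have h6 := mem_Icc.1 h4
        exact ⟨⟨Nat.mul_pos hpp.pos (by omega), h5⟩, Dvd.intro m rfl⟩
    rw [h3, sum_image (fun a _ b _ hab => Nat.eq_of_mul_eq_mul_left hpp.pos hab)]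
    refine sum_le_sum fun m hm => ?_
    have h6 := mem_Icc.1 (mem_filter.1 hm).1
    exact mul_le_mul_of_nonneg_right (hf_mul_le h0 hK hpp (by omega)) hlogp
  refine (sum_le_sum h2).trans ?_
  rw [sum_comm, mul_sum]
  refine sum_le_sum fun m hm => ?_
  have hm1 := mem_Icc.1 hm
  have hmpos : (0 : ℝ) < m := by exact_mod_cast hm1.1
  rw [← sum_filter, ← mul_sum]
  have h4 : ∑ p ∈ (PR X).filter (fun p => p * m ≤ X), Real.log p ≤ Real.log 4 * (X / m) := by
    refine le_trans ?_ (Chebyshev.theta_le_log4_mul_x (by positivity))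
    rw [Chebyshev.theta_eq_sum_Icc]
    refine sum_le_sum_of_subset_of_nonneg ?_ ?_
    · intro p hp
      obtain ⟨h5, h6⟩ := mem_filter.1 hp
      rw [mem_filter, mem_Icc]
      refine ⟨⟨Nat.zero_le _, ?_⟩, (mem_PR.1 h5).1⟩
      rw [Nat.le_floor_iff (by positivity), le_div_iff₀ hmpos]
      exact_mod_cast h6
    · intro p hp _
      exact Real.log_nonneg (by exact_mod_cast (mem_filter.1 hp).2.one_le)
  have h5 : 0 ≤ K * hf H m := mul_nonneg hK0 (hf_nonneg h0 m)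
  calc K * hf H m * ∑ p ∈ (PR X).filter (fun p => p * m ≤ X), Real.log p
      ≤ K * hf H m * (Real.log 4 * (X / m)) := mul_le_mul_of_nonneg_left h4 h5
    _ = K * Real.log 4 * X * (hf H m / m) := by ring

end Stoll308.HT
end

section
set_option autoImplicit false

/-!
Quadratic twists `t y² = f(x)`, `f = ∏ f_i`: systems of characters attached to labelled sets of
primes, and the parameters of the block analysis.
-/

namespace Stoll308.TW

open Finset Stoll308.Gen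

/-- The labels of a prime: `o` (the prime does not divide `t`), `u` (the local point reduces to the
point at infinity), `r i a` (it reduces to the root `a` of the component `f_i`). -/
inductive Lab (k : ℕ) where
  | o : Lab k
  | u : Lab k
  | r (i : Fin k) (a : ℕ) : Lab k
  deriving DecidableEq

/-- The root of a label. -/
def Lab.rt {k : ℕ} : Lab k → ℕ
  | .o => 0
  | .u => 0
  | .r _ a => a

variable {k : ℕ}

/-- The primes of `S` with a label. -/
def spt (S : Finset ℕ) (r : ℕ → Lab k) : Finset ℕ := S.filter fun p => r p ≠ .o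

/-- The primes of `S` labelled by a root of the component `i`. -/
def cpt (i : Fin k) (S : Finset ℕ) (r : ℕ → Lab k) : Finset ℕ :=
  S.filter fun p => r p = .r i (r p).rt

/-- The roots of a label function. -/
def rts (r : ℕ → Lab k) : ℕ → ℕ := fun p => (r p).rt

open Classical in
/-- The label function `r` without the primes `p > Z i` labelled by the components `i ∈ A`. -/
noncomputable def mask (A : Finset (Fin k)) (Z : Fin k → ℝ) (r : ℕ → Lab k) (p : ℕ) : Lab k :=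
  match r p with
  | .o => .o
  | .u => .u
  | .r i a => if i ∈ A ∧ Z i < (p : ℝ) then .o else .r i a

/-- The primes `p > Z i` of `S` labelled by the component `i`. -/
noncomputable def cut (Z : Fin k → ℝ) (i : Fin k) (S : Finset ℕ) (r : ℕ → Lab k) : Finset ℕ :=
  (cpt i S r).filter fun p : ℕ => Z i < (p : ℝ)

/-- A set of primes with roots. -/
def Vd (C₀ : ℕ) (R : ℕ → Finset ℕ) (T : Finset ℕ) (ρ : ℕ → ℕ) : Prop :=
  ∀ p ∈ T, p.Prime ∧ C₀ < p ∧ ρ p ∈ R p

/-- The admissible labels at `p` with components in `A` (`inf`: the label `u` is admissible). -/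
def Lbl (inf : Bool) (Rt : Fin k → ℕ → Finset ℕ) (A : Finset (Fin k)) (p : ℕ) : Finset (Lab k) :=
  (if inf then {.u} else ∅) ∪ A.biUnion fun i => (Rt i p).image (.r i)

/-- A system of characters. -/
structure Sys (k : ℕ) where
  n : Fin k → ℕ
  C₀ : ℕ
  m : ℕ
  K : ℕ
  inf : Bool
  Rt : Fin k → ℕ → Finset ℕ
  g : (i : Fin k) → Finset ℕ → (ℕ → ℕ) → (Fin (n i) → ℤ)
  κ : Fin k → Finset ℕ → (ℕ → ℕ) → ℤ
  J : Finset (Fin k) → ℕ → Lab k → Finset ℕ
  ψ : Finset (Fin k) → ℕ → Lab k → ℕ → ((i : Fin k) → Fin (n i) → ℤ) → ℝ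
  cf : Fin m → ℤ → (ℕ → Lab k) → (Fin k → ℤ) → Finset (Fin k) → ℕ → ℕ → ℝ
  n_pos : ∀ i, 0 < n i
  card_le : ∀ p, p.Prime → C₀ < p → ∑ i, (Rt i p).card + 1 ≤ K
  cf_le : ∀ e s r κ A p c, |cf e s r κ A p c| ≤ 1
  ψ_le : ∀ A p ℓ c g, |ψ A p ℓ c g| ≤ 1
  ψ_per : ∀ A (p : ℕ) ℓ c g g', (∀ i ∈ A, ∀ x, (p : ℤ) ∣ g i x - g' i x) →
    ψ A p ℓ c g = ψ A p ℓ c g'
  nontriv : ∀ A p ℓ, p.Prime → C₀ < p → ℓ ∈ Lbl inf Rt A p → ∀ S ⊆ J A p ℓ, S.Nonempty →
    ∃ a ∈ A, ∀ g : (i : Fin k) → Fin (n i) → ℤ, ∑ v : Fin (n a) → Fin p,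
      ∏ c ∈ S, ψ A p ℓ c (Function.update g a fun x => ((v x : ℕ) : ℤ)) = 0
  g_congr : ∀ i T ρ ρ', (∀ p ∈ T, ρ p = ρ' p) → g i T ρ = g i T ρ'
  κ_congr : ∀ i T ρ ρ', (∀ p ∈ T, ρ p = ρ' p) → κ i T ρ = κ i T ρ'
  g_le : ∀ i T ρ, Vd C₀ (Rt i) T ρ → ∀ x, |g i T ρ x| ^ n i ≤ ((∏ p ∈ T, p : ℕ) : ℤ)
  g_inj : ∀ i T ρ T' ρ', Vd C₀ (Rt i) T ρ → Vd C₀ (Rt i) T' ρ' → g i T ρ = g i T' ρ' →
    T = T' ∧ ∀ p ∈ T, ρ p = ρ' p
  κ_le : ∀ i T ρ, Vd C₀ (Rt i) T ρ → |κ i T ρ| ≤ K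

namespace Sys

variable (D : Sys k)

/-- The admissible labels at `p` with components in `A`. -/
def Lb (A : Finset (Fin k)) (p : ℕ) : Finset (Lab k) := Lbl D.inf D.Rt A p

/-- The weight of a prime at which the conditions for the active components `A` are imposed. -/
noncomputable def wt (A : Finset (Fin k)) (p : ℕ) : ℝ :=
  ∑ ℓ ∈ D.Lb A p, (1 / 2 : ℝ) ^ (D.J A p ℓ).card

open Classical in
/-- The numbers `κ` of the large primes labelled by the components of `A`. -/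
noncomputable def kv (A : Finset (Fin k)) (Z : Fin k → ℝ) (S : Finset ℕ) (r : ℕ → Lab k) :
    Fin k → ℤ :=
  fun i => if i ∈ A then D.κ i (cut Z i S r) (rts r) else 0

/-- The vectors `g` of the large primes. -/
noncomputable def gv (Z : Fin k → ℝ) (S : Finset ℕ) (r : ℕ → Lab k) :
    (i : Fin k) → Fin (D.n i) → ℤ :=
  fun i => D.g i (cut Z i S r) (rts r)

/-- `r` is a datum for `t`: the labels of the primes `> C₀` dividing `t`, such that for all sets `A`
of components and all thresholds `Z` the relations hold at all the primes with a label in `A` (after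
removing the large primes). -/
def Dt (t : ℤ) (r : ℕ → Lab k) : Prop :=
  (∀ p, r p ≠ .o ↔ p ∈ bigPrimes D.C₀ t) ∧ (∀ p, r p = .o ∨ r p ∈ D.Lb univ p) ∧
  ∀ (A : Finset (Fin k)) (Z : Fin k → ℝ), ∃ e : Fin D.m, ∀ p, mask A Z r p ∈ D.Lb A p →
    ∀ c ∈ D.J A p (mask A Z r p),
      D.cf e (sp D.C₀ t) (mask A Z r) (D.kv A Z (bigPrimes D.C₀ t) r) A p c *
        D.ψ A p (mask A Z r p) c (D.gv Z (bigPrimes D.C₀ t) r) = 1

/-- The product of the primes dividing `t` labelled by the component `i`. -/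
def XX (t : ℤ) (r : ℕ → Lab k) (i : Fin k) : ℕ := ∏ p ∈ cpt i (bigPrimes D.C₀ t) r, p

end Sys

/-! ### The scales -/

/-- The scale `exp(L^{x/Q})`. -/
noncomputable def zz (L : ℝ) (Q : ℕ) (x : ℝ) : ℝ := Real.exp (L ^ (x / (Q : ℝ)))

/-- The level vectors: values `< Q`, one of them equal to `Q - 1`. -/
def Lv (k Q : ℕ) : Finset (Fin k → ℕ) :=
  (Fintype.piFinset fun _ => range Q).filter fun μ => ∃ i, μ i + 1 = Q

section block

variable (L : ℝ) (Q : ℕ) (μ : Fin k → ℕ)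

/-- The components which are active at `p`. -/
noncomputable def AA (p : ℕ) : Finset (Fin k) :=
  univ.filter fun i => (p : ℝ) ≤ zz L Q ((μ i : ℝ) - 1)

/-- The components which can be active. -/
def Big : Finset (Fin k) := univ.filter fun i => 3 ≤ μ i

/-- The thresholds. -/
noncomputable def Zc (i : Fin k) : ℝ := zz L Q ((μ i : ℝ) - 1 / 4)

/-- The numbers at which conditions are imposed. -/
def InW (p : ℕ) : Prop :=
  zz L Q 1 < (p : ℝ) ∧ (p : ℝ) ≤ zz L Q Q ∧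
    ∀ i, (p : ℝ) ≤ zz L Q ((μ i : ℝ) - 1) ∨ zz L Q ((μ i : ℝ) + 1) < (p : ℝ)

variable (C₀ N : ℕ)

open Classical in
/-- The primes at which conditions are imposed. -/
noncomputable def WW : Finset ℕ := (PX C₀ N).filter fun p => InW L Q μ p

/-- The outer primes. -/
noncomputable def SO : Finset ℕ :=
  (PX C₀ N).filter fun p => (p : ℝ) ≤ zz L Q Q ∧ p ∉ WW L Q μ C₀ N

/-- The inner primes. -/
noncomputable def SI : Finset ℕ :=
  (PX C₀ N).filter fun p => p ∈ WW L Q μ C₀ N ∨ zz L Q Q < (p : ℝ)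

end block

/-- The level of a natural number. -/
def Lev (L : ℝ) (Q : ℕ) (m X : ℕ) : Prop :=
  (m = 0 ∨ zz L Q m ≤ (X : ℝ)) ∧ ((X : ℝ) < zz L Q ((m : ℝ) + 1) ∨ m + 1 = Q) ∧
    (X : ℝ) ≤ zz L Q Q

namespace Sys

variable (D : Sys k) (N : ℕ) (L : ℝ) (Q : ℕ) (μ : Fin k → ℕ)

open Classical in
/-- The block: the squarefree `t`, `|t| ≤ N`, with a datum such that all the products `XX` are at
most `exp L`, and one of them has the top level. -/
noncomputable def Bl : Finset ℤ :=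
  (Icc (-(N : ℤ)) N).filter fun t => Squarefree t ∧ ∃ r, D.Dt t r ∧
    (∀ i, (D.XX t r i : ℝ) ≤ Real.exp L) ∧ ∃ i, zz L Q ((Q : ℝ) - 1) ≤ (D.XX t r i : ℝ)

/-- The datum `r` of `t` has the levels `μ`, large primes for the components in `Big`, and the
products of the primes of the relevant ranges are small. -/
def Cls (t : ℤ) (r : ℕ → Lab k) : Prop :=
  D.Dt t r ∧ (∀ i, Lev L Q (μ i) (D.XX t r i)) ∧
  (∀ i ∈ Big μ, (cut (Zc L Q μ) i (bigPrimes D.C₀ t) r).Nonempty) ∧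
  ∀ i ∈ Big μ, ∏ p ∈ (bigPrimes D.C₀ t).filter (fun p : ℕ => (p : ℝ) ≤ zz L Q ((μ i : ℝ) - 1)),
    (p : ℝ) ≤ zz L Q ((μ i : ℝ) - 1 / 2)

/-- The label functions on the outer primes. -/
noncomputable def RF : Finset (ℕ → Lab k) :=
  piF (SO L Q μ D.C₀ N) (fun p => insert .o (D.Lb univ p)) .o

open Classical in
/-- The label functions on the outer primes with large primes for the components in `Big`. -/
noncomputable def RO : Finset (ℕ → Lab k) :=
  (D.RF N L Q μ).filter fun ro => ∀ i ∈ Big μ,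
    (cut (Zc L Q μ) i (SO L Q μ D.C₀ N) ro).Nonempty ∧
    ((∏ p ∈ cut (Zc L Q μ) i (SO L Q μ D.C₀ N) ro, p : ℕ) : ℝ) ≤ Real.exp L

open Classical in
/-- The label functions on the inner primes. -/
noncomputable def RI : Finset (ℕ → Lab k) :=
  (piF (SI L Q μ D.C₀ N) (fun p => insert .o (D.Lb (AA L Q μ p) p)) .o).filter fun ri =>
    ∀ i ∈ Big μ, ∏ p ∈ (spt (WW L Q μ D.C₀ N) ri).filter
      (fun p : ℕ => (p : ℝ) ≤ zz L Q ((μ i : ℝ) - 1)), (p : ℝ) ≤ zz L Q ((μ i : ℝ) - 1 / 2)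

open Classical in
/-- The label function with the outer part `ro` and the inner part `ri`. -/
noncomputable def join (ro ri : ℕ → Lab k) : ℕ → Lab k :=
  fun p => if p ∈ SI L Q μ D.C₀ N then ri p else ro p

/-- The dyadic exponent of the product of the large primes. -/
noncomputable def jl (ro : ℕ → Lab k) (i : Fin k) : ℕ :=
  Nat.log 2 (∏ p ∈ cut (Zc L Q μ) i (SO L Q μ D.C₀ N) ro, p)

/-- The relaxed size of the outer part. -/
noncomputable def VV (ro : ℕ → Lab k) : ℕ :=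
  (∏ p ∈ spt (SO L Q μ D.C₀ N) (mask (Big μ) (Zc L Q μ) ro), p) *
    2 ^ (∑ i ∈ Big μ, D.jl N L Q μ ro i)

/-- The `κ` of the outer part. -/
noncomputable def ko (ro : ℕ → Lab k) (i : Fin k) : ℤ :=
  D.κ i (cut (Zc L Q μ) i (SO L Q μ D.C₀ N) ro) (rts ro)

/-- The vectors of the outer part. -/
noncomputable def go (ro : ℕ → Lab k) : (i : Fin k) → Fin (D.n i) → ℤ :=
  D.gv (Zc L Q μ) (SO L Q μ D.C₀ N) ro

/-- The coefficients of the relations. -/
noncomputable def cI (s : ℤ) (e : Finset (Fin k) → Fin D.m) (ro ri : ℕ → Lab k) (p c : ℕ) : ℝ :=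
  D.cf (e (AA L Q μ p)) s (mask (AA L Q μ p) (Zc L Q μ) (D.join N L Q μ ro ri))
    (D.kv (AA L Q μ p) (Zc L Q μ) (SO L Q μ D.C₀ N) ro) (AA L Q μ p) p c

/-- The product of the conditions. -/
noncomputable def cond (c : (ℕ → Lab k) → ℕ → ℕ → ℝ) (ri : ℕ → Lab k)
    (g : (i : Fin k) → Fin (D.n i) → ℤ) : ℝ :=
  ∏ p ∈ spt (WW L Q μ D.C₀ N) ri, ∏ x ∈ D.J (AA L Q μ p) p (ri p),
    (1 + c ri p x * D.ψ (AA L Q μ p) p (ri p) x g) / 2

/-- The indicator of `V ∏ p ≤ N`. -/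
noncomputable def om (V : ℕ) (ri : ℕ → Lab k) : ℝ :=
  if V * ∏ p ∈ spt (SI L Q μ D.C₀ N) ri, p ≤ N then 1 else 0

/-- The factor `2^{-|J|}`. -/
noncomputable def hf (ri : ℕ → Lab k) : ℝ :=
  ∏ p ∈ spt (WW L Q μ D.C₀ N) ri, (1 / 2 : ℝ) ^ (D.J (AA L Q μ p) p (ri p)).card

/-- The choices of subsets of `J`. -/
noncomputable def Ch (ri : ℕ → Lab k) : Finset (ℕ → Finset ℕ) :=
  piF (spt (WW L Q μ D.C₀ N) ri) (fun p => (D.J (AA L Q μ p) p (ri p)).powerset) ∅

/-- The primes at which a nonempty set was chosen. -/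
noncomputable def Dd (x : Σ _ : ℕ → Lab k, ℕ → Finset ℕ) : Finset ℕ :=
  (spt (WW L Q μ D.C₀ N) x.1).filter fun p => (x.2 p).Nonempty

/-- The chosen primes with the active set `A`. -/
noncomputable def Ee (A : Finset (Fin k)) (x : Σ _ : ℕ → Lab k, ℕ → Finset ℕ) : Finset ℕ :=
  (D.Dd N L Q μ x).filter fun p => AA L Q μ p = A

/-- The character of a term at `p`. -/
noncomputable def Ff (x : Σ _ : ℕ → Lab k, ℕ → Finset ℕ) (p : ℕ)
    (g : (i : Fin k) → Fin (D.n i) → ℤ) : ℝ :=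
  ∏ y ∈ x.2 p, D.ψ (AA L Q μ p) p (x.1 p) y g

/-- The coefficient of a term. -/
noncomputable def gam (V : ℕ) (c : (ℕ → Lab k) → ℕ → ℕ → ℝ)
    (x : Σ _ : ℕ → Lab k, ℕ → Finset ℕ) : ℝ :=
  D.om N L Q μ V x.1 * D.hf N L Q μ x.1 * ∏ p ∈ D.Dd N L Q μ x, ∏ y ∈ x.2 p, c x.1 p y

open Classical in
/-- The terms such that `A` is the active set of the largest chosen prime. -/
noncomputable def Ix (A : Finset (Fin k)) : Finset (Σ _ : ℕ → Lab k, ℕ → Finset ℕ) :=
  ((D.RI N L Q μ).sigma fun ri => D.Ch N L Q μ ri).filter fun x =>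
    (D.Dd N L Q μ x).Nonempty ∧ AA L Q μ ((D.Dd N L Q μ x).sup id) = A

/-- The sum of the terms with top active set `A`. -/
noncomputable def hh (A : Finset (Fin k)) (V : ℕ) (c : (ℕ → Lab k) → ℕ → ℕ → ℝ)
    (g : (i : Fin k) → Fin (D.n i) → ℤ) : ℝ :=
  ∑ x ∈ D.Ix N L Q μ A, D.gam N L Q μ V c x * ∏ p ∈ D.Dd N L Q μ x, D.Ff L Q μ x p g

open Classical in
/-- The multiplicative weights of the main term. -/
noncomputable def HH (p : ℕ) : ℝ :=
  if p ≤ D.C₀ then 0 else if InW L Q μ p then D.wt (AA L Q μ p) p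
    else if (p : ℝ) ≤ zz L Q Q then D.K else if D.inf then 1 else 0

/-- The product of `1 + a/p` over the primes with conditions. -/
noncomputable def Pw (a : ℝ) : ℝ := ∏ p ∈ WW L Q μ D.C₀ N, (1 + a / (p : ℝ))

/-- The product of `1 + K/p` over the outer primes. -/
noncomputable def Po : ℝ := ∏ p ∈ SO L Q μ D.C₀ N, (1 + (D.K : ℝ) / (p : ℝ))

/-- The expression under the square root in the bound for the error terms. -/
noncomputable def Rr (A : Finset (Fin k)) : ℝ :=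
  D.Pw N L Q μ D.K ^ 2 * (1 / zz L Q 1 * D.Pw N L Q μ ((D.K : ℝ) ^ 2) +
    2 * ∑ a ∈ A, (D.n a : ℝ) * zz L Q ((μ a : ℝ) - 1 / 2) ^ 2 *
      Zc L Q μ a ^ (-(D.n a : ℝ)⁻¹))

end Sys

/-! ### Products of boxes -/

section pbx

variable (n : Fin k → ℕ)

open Classical in
/-- The vectors with components in the boxes `|g_i| ≤ B i` for `i ∈ A`, and equal to `w i` for
`i ∉ A`. -/
noncomputable def pbx (A : Finset (Fin k)) (w : (i : Fin k) → Fin (n i) → ℤ) (B : Fin k → ℕ) :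
    Finset ((i : Fin k) → Fin (n i) → ℤ) :=
  Fintype.piFinset fun i => if i ∈ A then bx (n i) (B i) else {w i}

/-- The function `F` depends only on the residues modulo `q`. -/
def PerV (q : ℕ) (F : ((i : Fin k) → Fin (n i) → ℤ) → ℝ) : Prop :=
  ∀ g h : (i : Fin k) → Fin (n i) → ℤ, (∀ i x, (q : ℤ) ∣ g i x - h i x) → F g = F h

end pbx

end Stoll308.TW
end

section
set_option autoImplicit false

/-!
Sums over products of boxes of products of periodic functions (several components).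
-/

namespace Stoll308.TW

open Finset Stoll308.Gen

variable {k : ℕ} {n : Fin k → ℕ}

lemma mem_pbx {A : Finset (Fin k)} {w : (i : Fin k) → Fin (n i) → ℤ} {B : Fin k → ℕ}
    {g : (i : Fin k) → Fin (n i) → ℤ} :
    g ∈ pbx n A w B ↔ (∀ a ∈ A, g a ∈ bx (n a) (B a)) ∧ ∀ i, i ∉ A → g i = w i := by
  unfold pbx
  rw [Fintype.mem_piFinset]
  constructor
  · intro h
    refine ⟨fun a ha => ?_, fun i hi => ?_⟩
    · have := h a
      rwa [if_pos ha] at this
    · have := h i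
      rwa [if_neg hi, mem_singleton] at this
  · rintro ⟨h1, h2⟩ i
    by_cases hi : i ∈ A
    · rw [if_pos hi]
      exact h1 i hi
    · rw [if_neg hi, mem_singleton]
      exact h2 i hi

lemma card_pbx (A : Finset (Fin k)) (w : (i : Fin k) → Fin (n i) → ℤ) (B : Fin k → ℕ) :
    (pbx n A w B).card = ∏ a ∈ A, (2 * B a + 1) ^ n a := by
  unfold pbx
  rw [Fintype.card_piFinset]
  have h : ∀ i : Fin k, (if i ∈ A then bx (n i) (B i) else {w i}).card =
      if i ∈ A then (2 * B i + 1) ^ n i else 1 := by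
    intro i
    by_cases hi : i ∈ A
    · rw [if_pos hi, if_pos hi, card_bx]
    · rw [if_neg hi, if_neg hi, card_singleton]
  have h2 : (∏ i : Fin k, (if i ∈ A then bx (n i) (B i) else {w i}).card) =
      ∏ i : Fin k, if i ∈ A then (2 * B i + 1) ^ n i else 1 :=
    prod_congr rfl fun i _ => h i
  refine Eq.trans ?_ (h2.trans ?_)
  · exact prod_congr rfl fun i _ => by congr
  · rw [prod_ite_mem, univ_inter]

/-- Split off the component `a`. -/
private lemma sum_split (A : Finset (Fin k)) (w : (i : Fin k) → Fin (n i) → ℤ) (B : Fin k → ℕ)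
    {a : Fin k} (ha : a ∈ A) {M : Type*} [AddCommMonoid M]
    (f : ((i : Fin k) → Fin (n i) → ℤ) → M) :
    ∑ g ∈ pbx n A w B, f g = ∑ g ∈ pbx n (A.erase a) (Function.update w a 0) B,
      ∑ x ∈ bx (n a) (B a), f (Function.update g a x) := by
  rw [← sum_product']
  symm
  refine sum_bij' (fun z _ => Function.update z.1 a z.2)
    (fun g _ => (Function.update g a 0, g a)) ?_ ?_ ?_ ?_ ?_
  · rintro ⟨g, x⟩ h
    rw [mem_product, mem_pbx] at h
    obtain ⟨⟨h1, h2⟩, h3⟩ := h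
    rw [mem_pbx]
    refine ⟨fun b hb => ?_, fun i hi => ?_⟩
    · by_cases hab : b = a
      · subst hab
        simpa using h3
      · rw [Function.update_of_ne hab]
        exact h1 b (mem_erase.2 ⟨hab, hb⟩)
    · have hia : i ≠ a := fun h => hi (h ▸ ha)
      rw [Function.update_of_ne hia]
      have := h2 i (fun h => hi (mem_erase.1 h).2)
      rwa [Function.update_of_ne hia] at this
  · intro g h
    rw [mem_pbx] at h
    obtain ⟨h1, h2⟩ := h
    rw [mem_product, mem_pbx]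
    refine ⟨⟨fun b hb => ?_, fun i hi => ?_⟩, h1 a ha⟩
    · rw [mem_erase] at hb
      change Function.update g a 0 b ∈ _
      rw [Function.update_of_ne hb.1]
      exact h1 b hb.2
    · by_cases hia : i = a
      · subst hia
        simp
      · change Function.update g a 0 i = _
        rw [Function.update_of_ne hia, Function.update_of_ne hia]
        exact h2 i (fun h => hi (mem_erase.2 ⟨hia, h⟩))
  · rintro ⟨g, x⟩ h
    rw [mem_product, mem_pbx] at h
    obtain ⟨⟨h1, h2⟩, h3⟩ := h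
    have := h2 a (fun h => (mem_erase.1 h).1 rfl)
    rw [Function.update_self] at this
    simp only [Function.update_idem, Function.update_self, Prod.mk.injEq, and_true]
    rw [← this, Function.update_eq_self]
  · intro g h
    simp
  · intro z h
    rfl

private lemma sum_comp_le (A : Finset (Fin k)) (w : (i : Fin k) → Fin (n i) → ℤ) (B : Fin k → ℕ)
    {a : Fin k} (ha : a ∈ A) (hn : 0 < n a) {p q : ℕ} (hp : p.Prime) (hq : q ≠ 0)
    (hpq : Nat.Coprime p q) (F H : ((i : Fin k) → Fin (n i) → ℤ) → ℝ) (hF : PerV n p F)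
    (hH : PerV n q H) (hF1 : ∀ g, |F g| ≤ 1) (hH1 : ∀ g, |H g| ≤ 1)
    (h0 : ∀ g : (i : Fin k) → Fin (n i) → ℤ,
      ∑ v : Fin (n a) → Fin p, F (Function.update g a fun x => ((v x : ℕ) : ℤ)) = 0) :
    |∑ g ∈ pbx n A w B, F g * H g| ≤
      2 * (pbx n A w B).card * ((n a : ℝ) * (p * q) / (2 * B a + 1)) := by
  rw [sum_split A w B ha]
  have hcard : ((pbx n A w B).card : ℝ) =
      (pbx n (A.erase a) (Function.update w a 0) B).card * (2 * B a + 1) ^ n a := by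
    rw [card_pbx, card_pbx, ← mul_prod_erase A _ ha]
    push_cast
    ring
  have hper : ∀ (q' : ℕ) (G : ((i : Fin k) → Fin (n i) → ℤ) → ℝ) (g : (i : Fin k) → Fin (n i) → ℤ),
      PerV n q' G → Per q' (fun x => G (Function.update g a x)) := by
    intro q' G g hG x y hxy
    refine hG _ _ fun i z => ?_
    by_cases hia : i = a
    · subst hia
      simpa using hxy z
    · rw [Function.update_of_ne hia, Function.update_of_ne hia, sub_self]
      exact dvd_zero _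
  refine (abs_sum_le_sum_abs _ _).trans ((sum_le_sum (g := fun _ =>
    2 * ((n a : ℝ) * (p * q) * (2 * B a + 1) ^ (n a - 1))) fun g _ => ?_).trans ?_)
  · exact bx_sum hp hq hpq (fun x => F (Function.update g a x)) (fun x => H (Function.update g a x))
      (hper p F g hF) (hper q H g hH) (fun x => hF1 _) (fun x => hH1 _) (h0 g) (B a)
  · rw [sum_const, nsmul_eq_mul, hcard]
    have h2 : (2 * (B a : ℝ) + 1) ^ n a = (2 * B a + 1) * (2 * B a + 1) ^ (n a - 1) := by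
      rw [← pow_succ']
      congr 1
      omega
    have h3 : (0 : ℝ) < 2 * B a + 1 := by positivity
    rw [h2]
    refine le_of_eq ?_
    field_simp

private lemma PerV.prod {D : Finset ℕ} {F : ℕ → ((i : Fin k) → Fin (n i) → ℤ) → ℝ}
    (hF : ∀ p ∈ D, PerV n p (F p)) : PerV n (∏ p ∈ D, p) (fun g => ∏ p ∈ D, F p g) := by
  intro g h hgh
  refine prod_congr rfl fun p hp => hF p hp g h fun i x => ?_
  exact dvd_trans (by exact_mod_cast dvd_prod_of_mem (fun p => p) hp) (hgh i x)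

private lemma PerV.mul {q q' : ℕ} {F G : ((i : Fin k) → Fin (n i) → ℤ) → ℝ} (hF : PerV n q F)
    (hG : PerV n q' G) : PerV n (q * q') (fun g => F g * G g) := by
  intro g h hgh
  have h1 : F g = F h :=
    hF g h fun i x => dvd_trans (by push_cast; exact dvd_mul_right _ _) (hgh i x)
  have h2 : G g = G h :=
    hG g h fun i x => dvd_trans (by push_cast; exact dvd_mul_left _ _) (hgh i x)
  simp only [h1, h2]

private lemma abs_prod_le_one' {X : Type*} {D : Finset ℕ} {F : ℕ → X → ℝ}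
    (hF : ∀ p ∈ D, ∀ g, |F p g| ≤ 1) (g : X) : |∏ p ∈ D, F p g| ≤ 1 := by
  rw [abs_prod]
  exact prod_le_one (fun _ _ => abs_nonneg _) fun p hp => hF p hp g

/-- Two products of functions modulo the primes of two sets. -/
private lemma pbx_pair (A : Finset (Fin k)) (w : (i : Fin k) → Fin (n i) → ℤ) (B : Fin k → ℕ)
    {a : Fin k} (ha : a ∈ A) (hn : 0 < n a) {D D' : Finset ℕ} (hD : ∀ p ∈ D, p.Prime)
    (hD' : ∀ p ∈ D', p.Prime) (F F' : ℕ → ((i : Fin k) → Fin (n i) → ℤ) → ℝ)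
    (hF : ∀ p ∈ D, PerV n p (F p)) (hF' : ∀ p ∈ D', PerV n p (F' p))
    (h1 : ∀ p ∈ D, ∀ g, |F p g| ≤ 1) (h1' : ∀ p ∈ D', ∀ g, |F' p g| ≤ 1)
    {p : ℕ} (hp : p ∈ D) (hp' : p ∉ D')
    (h0 : ∀ g : (i : Fin k) → Fin (n i) → ℤ,
      ∑ v : Fin (n a) → Fin p, F p (Function.update g a fun x => ((v x : ℕ) : ℤ)) = 0) :
    |∑ g ∈ pbx n A w B, (∏ p ∈ D, F p g) * ∏ p ∈ D', F' p g| ≤
      2 * (pbx n A w B).card *
        ((n a : ℝ) * ((∏ p ∈ D, (p : ℝ)) * ∏ p ∈ D', (p : ℝ)) / (2 * B a + 1)) := by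
  classical
  have hcop : Nat.Coprime p ((∏ p ∈ D.erase p, p) * ∏ p ∈ D', p) := by
    refine Nat.Coprime.mul_right ?_ ?_
    · refine Nat.Coprime.prod_right fun x hx => ?_
      rw [mem_erase] at hx
      exact (Nat.coprime_primes (hD p hp) (hD x hx.2)).2 (Ne.symm hx.1)
    · refine Nat.Coprime.prod_right fun x hx => ?_
      refine (Nat.coprime_primes (hD p hp) (hD' x hx)).2 ?_
      rintro rfl
      exact hp' hx
  have hne : (∏ p ∈ D.erase p, p) * ∏ p ∈ D', p ≠ 0 := by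
    refine mul_ne_zero ?_ ?_
    · exact prod_ne_zero_iff.2 fun x hx => (hD x (mem_erase.1 hx).2).ne_zero
    · exact prod_ne_zero_iff.2 fun x hx => (hD' x hx).ne_zero
  have h := sum_comp_le A w B ha hn (hD p hp) hne hcop (F p)
    (fun g => (∏ p ∈ D.erase p, F p g) * ∏ p ∈ D', F' p g) (hF p hp)
    (PerV.mul (PerV.prod fun x hx => hF x (mem_erase.1 hx).2) (PerV.prod hF')) (h1 p hp)
    (fun g => by
      rw [abs_mul]
      exact mul_le_one₀ (abs_prod_le_one' (fun x hx => h1 x (mem_erase.1 hx).2) g)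
        (abs_nonneg _) (abs_prod_le_one' h1' g)) h0
  refine le_trans (le_of_eq ?_) (h.trans (le_of_eq ?_))
  · congr 1
    refine sum_congr rfl fun g _ => ?_
    rw [← mul_assoc, mul_prod_erase D (fun x => F x g) hp]
  · have e : (∏ p ∈ D, (p : ℝ)) = p * ∏ p ∈ D.erase p, (p : ℝ) :=
      (mul_prod_erase D (fun x => (x : ℝ)) hp).symm
    rw [e]
    push_cast
    ring

/-- Mean square over a product of boxes of a linear combination of products of periodic functions: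
as `Gen.bx_sq`, but each of the functions `F i p`, `p ∈ E i`, has mean value `0` with respect to one
of the components `a ∈ A` only. -/
theorem pbx_sq {ι : Type*} (A : Finset (Fin k)) (I : Finset ι) (γ : ι → ℝ)
    (Df E : ι → Finset ℕ) (F : ι → ℕ → ((i : Fin k) → Fin (n i) → ℤ) → ℝ)
    (hn : ∀ a ∈ A, 0 < n a) (hE : ∀ i ∈ I, E i ⊆ Df i)
    (hDE : ∀ i ∈ I, ∀ j ∈ I, ∀ p ∈ E i, p ∈ Df j → p ∈ E j)
    (hD : ∀ i ∈ I, ∀ p ∈ Df i, p.Prime) (hF : ∀ i ∈ I, ∀ p ∈ Df i, PerV n p (F i p))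
    (h1 : ∀ i ∈ I, ∀ p ∈ Df i, ∀ g, |F i p g| ≤ 1)
    (h0 : ∀ i ∈ I, ∀ p ∈ E i, ∃ a ∈ A, ∀ g : (i : Fin k) → Fin (n i) → ℤ,
      ∑ v : Fin (n a) → Fin p, F i p (Function.update g a fun x => ((v x : ℕ) : ℤ)) = 0)
    (M : Fin k → ℝ) (hM : ∀ i ∈ I, ∀ a ∈ A, ∏ p ∈ Df i, (p : ℝ) ≤ M a)
    (w : (i : Fin k) → Fin (n i) → ℤ) (B : Fin k → ℕ) :
    ∑ g ∈ pbx n A w B, (∑ i ∈ I, γ i * ∏ p ∈ Df i, F i p g) ^ 2 ≤
      ∑ i ∈ I, ∑ j ∈ I, |γ i| * |γ j| * (if E i = E j then ((pbx n A w B).card : ℝ) else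
        2 * (pbx n A w B).card * ∑ a ∈ A, (n a : ℝ) * M a ^ 2 / (2 * B a + 1)) := by
  classical
  have e1 : ∑ g ∈ pbx n A w B, (∑ i ∈ I, γ i * ∏ p ∈ Df i, F i p g) ^ 2 =
      ∑ i ∈ I, ∑ j ∈ I, γ i * γ j *
        ∑ g ∈ pbx n A w B, (∏ p ∈ Df i, F i p g) * ∏ p ∈ Df j, F j p g := by
    have e0 : ∀ g ∈ pbx n A w B, (∑ i ∈ I, γ i * ∏ p ∈ Df i, F i p g) ^ 2 =
        ∑ i ∈ I, ∑ j ∈ I, (γ i * ∏ p ∈ Df i, F i p g) * (γ j * ∏ p ∈ Df j, F j p g) := by
      intro g _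
      rw [pow_two, sum_mul_sum]
    rw [sum_congr rfl e0, sum_comm]
    refine sum_congr rfl fun i _ => ?_
    rw [sum_comm]
    refine sum_congr rfl fun j _ => ?_
    rw [mul_sum]
    refine sum_congr rfl fun g _ => ?_
    ring
  rw [e1]
  -- the bound for two different sets
  have key : ∀ i ∈ I, ∀ j ∈ I, ∀ p ∈ E i, p ∉ E j →
      |∑ g ∈ pbx n A w B, (∏ p ∈ Df i, F i p g) * ∏ p ∈ Df j, F j p g| ≤
        2 * (pbx n A w B).card * ∑ a ∈ A, (n a : ℝ) * M a ^ 2 / (2 * B a + 1) := by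
    intro i hi j hj p hp hp'
    obtain ⟨a, ha, h0a⟩ := h0 i hi p hp
    have hpj : p ∉ Df j := fun h => hp' (hDE i hi j hj p hp h)
    refine (pbx_pair A w B ha (hn a ha) (hD i hi) (hD j hj) (F i) (F j) (hF i hi) (hF j hj)
      (h1 i hi) (h1 j hj) (hE i hi hp) hpj h0a).trans ?_
    refine mul_le_mul_of_nonneg_left ?_ (by positivity)
    have hle : (n a : ℝ) * ((∏ p ∈ Df i, (p : ℝ)) * ∏ p ∈ Df j, (p : ℝ)) / (2 * B a + 1) ≤
        (n a : ℝ) * M a ^ 2 / (2 * B a + 1) := by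
      refine div_le_div_of_nonneg_right ?_ (by positivity)
      refine mul_le_mul_of_nonneg_left ?_ (by positivity)
      rw [pow_two]
      have hi0 : (0 : ℝ) ≤ ∏ p ∈ Df i, (p : ℝ) := prod_nonneg fun _ _ => by positivity
      have hj0 : (0 : ℝ) ≤ ∏ p ∈ Df j, (p : ℝ) := prod_nonneg fun _ _ => by positivity
      exact mul_le_mul (hM i hi a ha) (hM j hj a ha) hj0 (hi0.trans (hM i hi a ha))
    refine hle.trans ?_
    exact single_le_sum (f := fun a => (n a : ℝ) * M a ^ 2 / (2 * B a + 1))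
      (fun b _ => by positivity) ha
  refine sum_le_sum fun i hi => sum_le_sum fun j hj => ?_
  refine (le_abs_self _).trans ?_
  rw [abs_mul, abs_mul]
  refine mul_le_mul_of_nonneg_left ?_ (mul_nonneg (abs_nonneg _) (abs_nonneg _))
  by_cases hij : E i = E j
  · rw [if_pos hij]
    refine (abs_sum_le_sum_abs _ _).trans ((sum_le_sum (g := fun _ => (1 : ℝ))
      fun g _ => ?_).trans ?_)
    · rw [abs_mul]
      exact mul_le_one₀ (abs_prod_le_one' (h1 i hi) g) (abs_nonneg _)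
        (abs_prod_le_one' (h1 j hj) g)
    · rw [sum_const, nsmul_eq_mul, mul_one]
  · rw [if_neg hij]
    by_cases hsub : E i ⊆ E j
    · obtain ⟨p, hp, hp'⟩ : ∃ p ∈ E j, p ∉ E i := by
        by_contra hcon
        push Not at hcon
        exact hij (Subset.antisymm hsub hcon)
      have h := key j hj i hi p hp hp'
      refine le_trans (le_of_eq ?_) h
      congr 1
      exact sum_congr rfl fun g _ => mul_comm _ _
    · obtain ⟨p, hp, hp'⟩ := not_subset.1 hsub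
      exact key i hi j hj p hp hp'

end Stoll308.TW
end

section
set_option autoImplicit false

/-!
Cauchy's inequality over products of boxes (as `Gen.cauchy_piece`).
-/

namespace Stoll308.TW

open Finset Stoll308.Gen

variable {k : ℕ} {n : Fin k → ℕ}

theorem cauchy_fiber {ι : Type*} (A : Finset (Fin k)) (hn : ∀ a ∈ A, 0 < n a) (S : Finset ι)
    (G : ι → (i : Fin k) → Fin (n i) → ℤ) (hinj : Set.InjOn G S)
    (w : (i : Fin k) → Fin (n i) → ℤ) (hw : ∀ x ∈ S, ∀ i, i ∉ A → G x i = w i) (j : Fin k → ℕ)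
    (hj : ∀ x ∈ S, ∀ a ∈ A, ∀ y, |G x a y| ^ n a ≤ 2 ^ (j a + 1))
    (h : ((i : Fin k) → Fin (n i) → ℤ) → ℝ) {α : ℝ} (hα : 0 ≤ α) {β : Fin k → ℝ}
    (hβ : ∀ a ∈ A, 0 ≤ β a)
    (hh : ∀ B : Fin k → ℕ, ∑ g ∈ pbx n A w B, h g ^ 2 ≤
      (pbx n A w B).card * (α + ∑ a ∈ A, β a / (2 * B a + 1))) :
    ∑ x ∈ S, |h (G x)| ≤ (∏ a ∈ A, (2 * 3 ^ n a) * (2 : ℝ) ^ j a) *
      Real.sqrt (α + ∑ a ∈ A, β a * ((2 : ℝ) ^ (j a + 1)) ^ (-(n a : ℝ)⁻¹)) := by
  classical
  set Y : Fin k → ℝ := fun a => ((2 : ℝ) ^ (j a + 1)) ^ ((n a : ℝ)⁻¹) with hY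
  have hYn : ∀ a ∈ A, Y a ^ n a = 2 ^ (j a + 1) := fun a ha =>
    Real.rpow_inv_natCast_pow (by positivity) (hn a ha).ne'
  have hY0 : ∀ a, 0 < Y a := fun a => by positivity
  have hY1 : ∀ a, 1 ≤ Y a := fun a =>
    Real.one_le_rpow (one_le_pow₀ (by norm_num)) (by positivity)
  set B : Fin k → ℕ := fun a => ⌊Y a⌋₊ with hB
  have hBY : ∀ a, (B a : ℝ) ≤ Y a := fun a => Nat.floor_le (hY0 a).le
  have hYB : ∀ a, Y a < B a + 1 := fun a => Nat.lt_floor_add_one _
  have hbox : ∀ x ∈ S, G x ∈ pbx n A w B := by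
    intro x hx
    rw [mem_pbx]
    refine ⟨fun a ha => ?_, hw x hx⟩
    rw [mem_bx]
    intro y
    have h1 : ((|G x a y| : ℤ) : ℝ) ^ n a ≤ Y a ^ n a := by
      rw [hYn a ha]
      exact_mod_cast hj x hx a ha y
    have h2 : ((|G x a y| : ℤ) : ℝ) ≤ Y a := le_of_pow_le_pow_left₀ (hn a ha).ne' (hY0 a).le h1
    have h3 : ((G x a y).natAbs : ℝ) ≤ Y a := by
      rw [Int.abs_eq_natAbs, Int.cast_natCast] at h2
      exact h2
    have h4 : (G x a y).natAbs ≤ B a := Nat.le_floor h3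
    rw [Int.abs_eq_natAbs]
    exact_mod_cast h4
  have hc1 : ((pbx n A w B).card : ℝ) ≤ ∏ a ∈ A, (2 * 3 ^ n a) * (2 : ℝ) ^ j a := by
    rw [card_pbx]
    push_cast
    refine prod_le_prod (fun a _ => by positivity) fun a ha => ?_
    have h3Y : (2 * B a + 1 : ℝ) ≤ 3 * Y a := by linarith [hBY a, hY1 a]
    calc (2 * (B a : ℝ) + 1) ^ n a ≤ (3 * Y a) ^ n a := pow_le_pow_left₀ (by positivity) h3Y _
      _ = 2 * 3 ^ n a * 2 ^ j a := by
        rw [mul_pow, hYn a ha, pow_succ]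
        ring
  set T : ℝ := α + ∑ a ∈ A, β a * ((2 : ℝ) ^ (j a + 1)) ^ (-(n a : ℝ)⁻¹) with hT
  have hT0 : 0 ≤ T := add_nonneg hα (sum_nonneg fun a ha =>
    mul_nonneg (hβ a ha) (by positivity))
  have hTle : α + ∑ a ∈ A, β a / (2 * B a + 1) ≤ T := by
    rw [hT]
    refine add_le_add_right (sum_le_sum fun a ha => ?_) α
    rw [div_eq_mul_inv]
    refine mul_le_mul_of_nonneg_left ?_ (hβ a ha)
    rw [Real.rpow_neg (by positivity)]
    refine inv_anti₀ (hY0 a) ?_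
    have := hYB a
    have h0 : (0 : ℝ) ≤ B a := by positivity
    linarith
  have hsq : ∑ g ∈ pbx n A w B, h g ^ 2 ≤ (pbx n A w B).card * T :=
    (hh B).trans (mul_le_mul_of_nonneg_left hTle (by positivity))
  have hsum : ∑ g ∈ pbx n A w B, |h g| ≤ (pbx n A w B).card * Real.sqrt T := by
    have h1 : (∑ g ∈ pbx n A w B, |h g|) ^ 2 ≤ ((pbx n A w B).card * Real.sqrt T) ^ 2 := by
      have h2 := sq_sum_le_card_mul_sum_sq (s := pbx n A w B) (f := fun g => |h g|)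
      simp only [sq_abs] at h2
      refine h2.trans ?_
      rw [mul_pow, Real.sq_sqrt hT0, pow_two, mul_assoc]
      exact mul_le_mul_of_nonneg_left hsq (by positivity)
    exact le_of_sq_le_sq h1 (by positivity)
  have h2 : ∑ x ∈ S, |h (G x)| ≤ ∑ g ∈ pbx n A w B, |h g| := by
    rw [← sum_image (f := fun g => |h g|) hinj]
    refine sum_le_sum_of_subset_of_nonneg ?_ fun _ _ _ => abs_nonneg _
    intro g hg
    obtain ⟨x, hx, rfl⟩ := mem_image.1 hg
    exact hbox x hx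
  exact (h2.trans hsum).trans (mul_le_mul_of_nonneg_right hc1 (Real.sqrt_nonneg _))

end Stoll308.TW
end

section
set_option autoImplicit false

/-!
Expansion of the product of the conditions (as `Gen.sum_cond`).
-/

namespace Stoll308.TW

open Finset Stoll308.Gen

variable {k : ℕ}

namespace Sys

variable (D : Sys k) (N : ℕ) (L : ℝ) (Q : ℕ) (μ : Fin k → ℕ)

private lemma cond_expand (c : (ℕ → Lab k) → ℕ → ℕ → ℝ) (ri : ℕ → Lab k)
    (g : (i : Fin k) → Fin (D.n i) → ℤ) :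
    D.cond N L Q μ c ri g = ∑ S ∈ D.Ch N L Q μ ri, D.hf N L Q μ ri *
      ((∏ p ∈ spt (WW L Q μ D.C₀ N) ri, ∏ y ∈ S p, c ri p y) *
        ∏ p ∈ spt (WW L Q μ D.C₀ N) ri, D.Ff L Q μ ⟨ri, S⟩ p g) := by
  have h := sum_prod_piF (spt (WW L Q μ D.C₀ N) ri)
    (fun p => (D.J (AA L Q μ p) p (ri p)).powerset) (∅ : Finset ℕ)
    (fun p S => (1 / 2 : ℝ) ^ (D.J (AA L Q μ p) p (ri p)).card *
      ∏ y ∈ S, (c ri p y * D.ψ (AA L Q μ p) p (ri p) y g))
  unfold cond
  have e : ∏ p ∈ spt (WW L Q μ D.C₀ N) ri, ∏ x ∈ D.J (AA L Q μ p) p (ri p),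
      (1 + c ri p x * D.ψ (AA L Q μ p) p (ri p) x g) / 2 =
      ∏ p ∈ spt (WW L Q μ D.C₀ N) ri, ∑ S ∈ (D.J (AA L Q μ p) p (ri p)).powerset,
        (1 / 2 : ℝ) ^ (D.J (AA L Q μ p) p (ri p)).card *
      ∏ y ∈ S, (c ri p y * D.ψ (AA L Q μ p) p (ri p) y g) := by
    refine prod_congr rfl fun p _ => ?_
    rw [← mul_sum, ← prod_one_add]
    rw [prod_div_distrib, prod_const]
    rw [one_div, inv_pow]
    rw [div_eq_mul_inv, mul_comm]
  rw [e, ← h]
  refine sum_congr rfl fun S _ => ?_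
  unfold hf Ff
  rw [← prod_mul_distrib, ← prod_mul_distrib]
  refine prod_congr rfl fun p _ => ?_
  rw [prod_mul_distrib]

private lemma prod_Dd (x : Σ _ : ℕ → Lab k, ℕ → Finset ℕ) (F : ℕ → Finset ℕ → ℝ)
    (hF : ∀ p, F p ∅ = 1) :
    ∏ p ∈ D.Dd N L Q μ x, F p (x.2 p) = ∏ p ∈ spt (WW L Q μ D.C₀ N) x.1, F p (x.2 p) := by
  unfold Dd
  rw [prod_filter]
  refine prod_congr rfl fun p _ => ?_
  by_cases hA : (x.2 p).Nonempty
  · rw [if_pos hA]
  · rw [if_neg hA]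
    rw [not_nonempty_iff_eq_empty] at hA
    rw [hA, hF]

/-- Expansion: the terms without characters, and the others grouped by the active set of the
largest chosen prime. -/
theorem sum_cond (V : ℕ) (c : (ℕ → Lab k) → ℕ → ℕ → ℝ) (g : (i : Fin k) → Fin (D.n i) → ℤ) :
    ∑ ri ∈ D.RI N L Q μ, D.om N L Q μ V ri * D.cond N L Q μ c ri g =
      ∑ ri ∈ D.RI N L Q μ, D.om N L Q μ V ri * D.hf N L Q μ ri +
        ∑ A : Finset (Fin k), D.hh N L Q μ A V c g := by
  classical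
  set G : (Σ _ : ℕ → Lab k, ℕ → Finset ℕ) → ℝ := fun x =>
    D.gam N L Q μ V c x * ∏ p ∈ D.Dd N L Q μ x, D.Ff L Q μ x p g with hG
  have e1 : ∑ ri ∈ D.RI N L Q μ, D.om N L Q μ V ri * D.cond N L Q μ c ri g =
      ∑ x ∈ (D.RI N L Q μ).sigma fun ri => D.Ch N L Q μ ri, G x := by
    rw [sum_sigma]
    refine sum_congr rfl fun ri _ => ?_
    rw [cond_expand, mul_sum]
    refine sum_congr rfl fun S _ => ?_
    have h1 : ∏ p ∈ D.Dd N L Q μ ⟨ri, S⟩, D.Ff L Q μ ⟨ri, S⟩ p g =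
        ∏ p ∈ spt (WW L Q μ D.C₀ N) ri, D.Ff L Q μ ⟨ri, S⟩ p g :=
      prod_Dd D N L Q μ ⟨ri, S⟩ (fun p S => ∏ y ∈ S, D.ψ (AA L Q μ p) p (ri p) y g)
        (fun p => prod_empty)
    have h2 : ∏ p ∈ D.Dd N L Q μ ⟨ri, S⟩, ∏ y ∈ S p, c ri p y =
        ∏ p ∈ spt (WW L Q μ D.C₀ N) ri, ∏ y ∈ S p, c ri p y :=
      prod_Dd D N L Q μ ⟨ri, S⟩ (fun p S => ∏ y ∈ S, c ri p y) (fun p => prod_empty)
    simp only [hG, gam]
    rw [h1, h2]
    ring
  rw [e1, ← sum_filter_not_add_sum_filter _ (fun x => (D.Dd N L Q μ x).Nonempty)]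
  congr 1
  · -- the choice functions with empty values
    have e2 : ((D.RI N L Q μ).sigma fun ri => D.Ch N L Q μ ri).filter
        (fun x => ¬ (D.Dd N L Q μ x).Nonempty) =
        (D.RI N L Q μ).map ⟨fun ri => (⟨ri, fun _ => ∅⟩ : Σ _ : ℕ → Lab k, ℕ → Finset ℕ),
          fun a b h => by simpa using congrArg Sigma.fst h⟩ := by
      ext x
      rw [mem_filter, mem_sigma, mem_map]
      constructor
      · rintro ⟨⟨h1, h2⟩, h3⟩
        refine ⟨x.1, h1, ?_⟩
        change (⟨x.1, fun _ => ∅⟩ : Σ _ : ℕ → Lab k, ℕ → Finset ℕ) = x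
        have hx2 : x.2 = fun _ => ∅ := by
          funext p
          unfold Ch at h2
          rw [mem_piF] at h2
          by_cases hp : p ∈ spt (WW L Q μ D.C₀ N) x.1
          · by_contra hA
            apply h3
            refine ⟨p, ?_⟩
            unfold Dd
            rw [mem_filter]
            exact ⟨hp, nonempty_iff_ne_empty.2 hA⟩
          · exact h2.2 p hp
        rw [← hx2]
      · rintro ⟨ri, hri, rfl⟩
        refine ⟨⟨hri, ?_⟩, ?_⟩
        · change (fun _ => ∅) ∈ D.Ch N L Q μ ri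
          unfold Ch
          rw [mem_piF]
          exact ⟨fun p _ => empty_mem_powerset _, fun _ _ => rfl⟩
        · rintro ⟨p, hp⟩
          unfold Dd at hp
          rw [mem_filter] at hp
          exact not_nonempty_empty hp.2
    rw [e2, sum_map]
    refine sum_congr rfl fun ri _ => ?_
    change G ⟨ri, fun _ => ∅⟩ = _
    have h1 : D.Dd N L Q μ ⟨ri, fun _ => ∅⟩ = ∅ := by
      unfold Dd
      exact filter_eq_empty_iff.2 fun p _ h => not_nonempty_empty h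
    simp only [hG, gam]
    rw [h1, prod_empty, prod_empty, mul_one, mul_one]
  · have e3 := sum_fiberwise (((D.RI N L Q μ).sigma fun ri => D.Ch N L Q μ ri).filter
        (fun x => (D.Dd N L Q μ x).Nonempty)) (fun x => AA L Q μ ((D.Dd N L Q μ x).sup id)) G
    rw [← e3]
    refine sum_congr rfl fun A _ => ?_
    unfold hh Ix
    rw [filter_filter]

variable {D N L Q μ}

/-- The properties of the terms in `Ix A`. -/
theorem Ix_spec (hL : 1 ≤ L) (hQ : 0 < Q) {A : Finset (Fin k)}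
    {x : Σ _ : ℕ → Lab k, ℕ → Finset ℕ} (hx : x ∈ D.Ix N L Q μ A) :
    x.1 ∈ D.RI N L Q μ ∧ x.2 ∈ D.Ch N L Q μ x.1 ∧ (D.Ee N L Q μ A x).Nonempty ∧ A ⊆ Big μ ∧
      (∀ p ∈ D.Dd N L Q μ x, p.Prime ∧ D.C₀ < p ∧ p ∈ WW L Q μ D.C₀ N ∧ A ⊆ AA L Q μ p ∧
        x.1 p ∈ D.Lb (AA L Q μ p) p ∧ x.2 p ⊆ D.J (AA L Q μ p) p (x.1 p) ∧ (x.2 p).Nonempty) ∧
      ∀ a ∈ A, ∏ p ∈ D.Dd N L Q μ x, (p : ℝ) ≤ zz L Q ((μ a : ℝ) - 1 / 2) := by
  classical
  unfold Ix at hx
  rw [mem_filter, mem_sigma] at hx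
  obtain ⟨⟨hx1, hx2⟩, hx3, hx4⟩ := hx
  obtain ⟨q, hq, hqs⟩ := exists_mem_eq_sup _ hx3 (id : ℕ → ℕ)
  rw [hqs] at hx4
  have hqA : AA L Q μ q = A := hx4
  have hWW : ∀ p ∈ D.Dd N L Q μ x, p ∈ spt (WW L Q μ D.C₀ N) x.1 ∧ (x.2 p).Nonempty := by
    intro p hp
    unfold Dd at hp
    exact mem_filter.1 hp
  have hPX : ∀ p ∈ WW L Q μ D.C₀ N, p.Prime ∧ D.C₀ < p ∧ p ≤ N ∧ InW L Q μ p := by
    intro p hp
    unfold WW at hp
    rw [mem_filter] at hp
    obtain ⟨hp1, hp2⟩ := hp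
    unfold PX at hp1
    rw [mem_filter, mem_Icc] at hp1
    exact ⟨hp1.2.1, hp1.2.2, hp1.1.2, hp2⟩
  have hsub : ∀ p ∈ D.Dd N L Q μ x, A ⊆ AA L Q μ p := by
    intro p hp i hi
    have hpq : p ≤ q := by
      have := le_sup (f := (id : ℕ → ℕ)) hp
      rw [hqs] at this
      exact this
    rw [← hqA] at hi
    unfold AA at hi ⊢
    rw [mem_filter] at hi ⊢
    exact ⟨mem_univ _, le_trans (Nat.cast_le.2 hpq) hi.2⟩
  have hBig : A ⊆ Big μ := by
    intro i hi
    have h1 := (hPX q (mem_filter.1 (hWW q hq).1).1).2.2.2.1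
    have hi2 := hi
    rw [← hqA] at hi2
    unfold AA at hi2
    have h2 := (mem_filter.1 hi2).2
    have h3 : zz L Q 1 < zz L Q ((μ i : ℝ) - 1) := h1.trans_le h2
    unfold Big
    rw [mem_filter]
    refine ⟨mem_univ _, ?_⟩
    by_contra hcon
    have h4 : (μ i : ℝ) - 1 ≤ 1 := by
      have : μ i ≤ 2 := by omega
      have : (μ i : ℝ) ≤ 2 := by exact_mod_cast this
      linarith
    unfold zz at h3
    rw [Real.exp_lt_exp] at h3
    have hQ' : (0 : ℝ) < Q := Nat.cast_pos.2 hQ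
    have h5 : L ^ (((μ i : ℝ) - 1) / (Q : ℝ)) ≤ L ^ ((1 : ℝ) / (Q : ℝ)) :=
      Real.rpow_le_rpow_of_exponent_le hL (div_le_div_of_nonneg_right h4 hQ'.le)
    linarith
  refine ⟨hx1, hx2, ⟨q, ?_⟩, hBig, ?_, ?_⟩
  · unfold Ee
    rw [mem_filter]
    exact ⟨hq, hqA⟩
  · intro p hp
    obtain ⟨h1, h2⟩ := hWW p hp
    have h3 := mem_filter.1 h1
    obtain ⟨h4, h5, h6, h7⟩ := hPX p h3.1
    refine ⟨h4, h5, h3.1, hsub p hp, ?_, ?_, h2⟩
    · have h8 := hx1
      unfold RI at h8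
      rw [mem_filter, mem_piF] at h8
      have h9 : p ∈ SI L Q μ D.C₀ N := by
        unfold SI
        rw [mem_filter]
        refine ⟨?_, Or.inl h3.1⟩
        have := h3.1
        unfold WW at this
        exact (mem_filter.1 this).1
      have h10 := h8.1.1 p h9
      rw [mem_insert] at h10
      rcases h10 with h10 | h10
      · exact absurd h10 h3.2
      · exact h10
    · have h8 := hx2
      unfold Ch at h8
      rw [mem_piF] at h8
      exact mem_powerset.1 (h8.1 p h1)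
  · intro a ha
    have h8 := hx1
    unfold RI at h8
    rw [mem_filter] at h8
    refine le_trans ?_ (h8.2 a (hBig ha))
    have h9 : ∏ p ∈ D.Dd N L Q μ x, p ≤ ∏ p ∈ (spt (WW L Q μ D.C₀ N) x.1).filter
        (fun p : ℕ => (p : ℝ) ≤ zz L Q ((μ a : ℝ) - 1)), p := by
      refine prod_le_prod_of_subset_of_one_le' ?_ fun p hp _ => ?_
      · intro p hp
        rw [mem_filter]
        refine ⟨(hWW p hp).1, ?_⟩
        have := hsub p hp ha
        unfold AA at this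
        exact (mem_filter.1 this).2
      · exact (hPX p (mem_filter.1 (mem_filter.1 hp).1).1).1.one_lt.le
    rw [← Nat.cast_prod, ← Nat.cast_prod]
    exact Nat.cast_le.2 h9

/-- Two terms in `Ix A`: a common chosen prime with active set `A` for one has it for the other. -/
theorem Ee_of_Dd {A : Finset (Fin k)} {x y : Σ _ : ℕ → Lab k, ℕ → Finset ℕ} {p : ℕ}
    (hp : p ∈ D.Ee N L Q μ A x) (hp' : p ∈ D.Dd N L Q μ y) : p ∈ D.Ee N L Q μ A y := by
  unfold Ee at hp ⊢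
  rw [mem_filter] at hp ⊢
  exact ⟨hp', hp.2⟩

end Sys

end Stoll308.TW
end

section
set_option autoImplicit false

/-!
The total mass of the coefficients (as `Gen.sum_gam`, `Gen.sum_gam_D`).
-/

namespace Stoll308.TW

open Finset Stoll308.Gen

variable {k : ℕ}

private lemma zz_mono {L : ℝ} (hL : 1 ≤ L) {Q : ℕ} (hQ : 0 < Q) {x y : ℝ} (h : x ≤ y) :
    zz L Q x ≤ zz L Q y := by
  unfold zz
  have hQ' : (0 : ℝ) < Q := Nat.cast_pos.2 hQ
  exact Real.exp_le_exp.2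
    (Real.rpow_le_rpow_of_exponent_le hL (div_le_div_of_nonneg_right h hQ'.le))

private lemma mem_WW {L : ℝ} {Q : ℕ} {μ : Fin k → ℕ} {C₀ N p : ℕ} (hp : p ∈ WW L Q μ C₀ N) :
    p.Prime ∧ C₀ < p ∧ p ≤ N ∧ InW L Q μ p := by
  classical
  unfold WW at hp
  rw [mem_filter] at hp
  obtain ⟨hp1, hp2⟩ := hp
  unfold PX at hp1
  rw [mem_filter, mem_Icc] at hp1
  exact ⟨hp1.2.1, hp1.2.2, hp1.1.2, hp2⟩

private lemma mem_SI {L : ℝ} {Q : ℕ} {μ : Fin k → ℕ} {C₀ N p : ℕ} (hp : p ∈ SI L Q μ C₀ N) :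
    p.Prime ∧ (p ∉ WW L Q μ C₀ N → zz L Q Q < (p : ℝ)) := by
  unfold SI at hp
  rw [mem_filter] at hp
  obtain ⟨hp1, hp2⟩ := hp
  unfold PX at hp1
  rw [mem_filter, mem_Icc] at hp1
  exact ⟨hp1.2.1, fun h => hp2.resolve_left h⟩

private lemma WW_sub {L : ℝ} {Q : ℕ} {μ : Fin k → ℕ} {C₀ N : ℕ} :
    WW L Q μ C₀ N ⊆ SI L Q μ C₀ N := by
  classical
  intro p hp
  unfold SI
  rw [mem_filter]
  refine ⟨?_, Or.inl hp⟩
  unfold WW at hp
  exact (mem_filter.1 hp).1

namespace Sys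

variable (D : Sys k) (N : ℕ) (L : ℝ) (Q : ℕ) (μ : Fin k → ℕ)

private lemma o_notMem (A : Finset (Fin k)) (p : ℕ) : (Lab.o : Lab k) ∉ D.Lb A p := by
  unfold Lb Lbl
  rw [mem_union, mem_biUnion]
  rintro (h | ⟨i, _, h⟩)
  · split_ifs at h with hi
    · rw [mem_singleton] at h
      exact nomatch h
    · exact notMem_empty _ h
  · obtain ⟨a, _, ha⟩ := mem_image.1 h
    exact nomatch ha

private lemma card_Lb_le (A : Finset (Fin k)) {p : ℕ} (hp : p.Prime) (hC : D.C₀ < p) :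
    (D.Lb A p).card ≤ D.K := by
  classical
  refine le_trans ?_ (D.card_le p hp hC)
  unfold Lb Lbl
  refine (card_union_le _ _).trans ?_
  rw [add_comm]
  refine add_le_add ?_ ?_
  · refine (card_biUnion_le).trans ?_
    refine (sum_le_sum fun i _ => card_image_le).trans ?_
    exact sum_le_sum_of_subset (subset_univ _)
  · split_ifs <;> simp

private lemma sum_lab (S : Finset ℕ) (A : ℕ → Finset (Fin k)) (w : ℕ → Lab k → ℝ) :
    ∑ r ∈ piF S (fun p => insert .o (D.Lb (A p) p)) .o, ∏ p ∈ S, w p (r p) =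
      ∏ p ∈ S, (w p .o + ∑ ℓ ∈ D.Lb (A p) p, w p ℓ) := by
  rw [sum_prod_piF]
  refine prod_congr rfl fun p _ => ?_
  rw [sum_insert (o_notMem D _ _)]

private lemma sum_Ch (r : ℕ → Lab k) :
    ∑ _S ∈ D.Ch N L Q μ r, D.hf N L Q μ r = 1 := by
  rw [sum_const, nsmul_eq_mul]
  unfold Ch hf
  rw [card_piF]
  push_cast
  rw [← prod_mul_distrib]
  refine prod_eq_one fun p _ => ?_
  rw [card_powerset]
  push_cast
  rw [← mul_pow]
  norm_num

private lemma om_nonneg (V : ℕ) (r : ℕ → Lab k) : 0 ≤ D.om N L Q μ V r := by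
  unfold om
  split_ifs <;> norm_num

private lemma hf_nonneg (r : ℕ → Lab k) : 0 ≤ D.hf N L Q μ r :=
  prod_nonneg fun p _ => by positivity

private lemma label_u (hQ : 0 < Q) (hμ : ∀ i, μ i < Q) (hL : 1 ≤ L) {r : ℕ → Lab k}
    (hr : r ∈ piF (SI L Q μ D.C₀ N) (fun p => insert .o (D.Lb (AA L Q μ p) p)) .o) {p : ℕ}
    (hp : p ∈ SI L Q μ D.C₀ N) (hpW : p ∉ WW L Q μ D.C₀ N) : r p = .o ∨ r p = .u := by
  have h1 := (mem_piF.1 hr).1 p hp
  have hAA : AA L Q μ p = ∅ := by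
    unfold AA
    refine filter_eq_empty_iff.2 fun i _ h => ?_
    have h2 := (mem_SI hp).2 hpW
    have h3 : (μ i : ℝ) - 1 ≤ (Q : ℝ) := by
      have : (μ i : ℝ) ≤ Q := by exact_mod_cast (hμ i).le
      linarith
    have h4 := zz_mono hL hQ h3
    linarith
  rw [hAA, mem_insert] at h1
  rcases h1 with h1 | h1
  · exact Or.inl h1
  · right
    unfold Lb Lbl at h1
    rw [biUnion_empty, union_empty] at h1
    split_ifs at h1
    · exact mem_singleton.1 h1
    · exact absurd h1 (notMem_empty _)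

open Classical in
/-- The number of the inner label functions with a given part on `WW`. -/
private lemma fibre_le (hQ : 0 < Q) (hμ : ∀ i, μ i < Q) (hL : 1 ≤ L) {V : ℕ} (hV : 0 < V)
    (rw' : ℕ → Lab k) :
    ∑ r ∈ (piF (SI L Q μ D.C₀ N) (fun p => insert .o (D.Lb (AA L Q μ p) p)) .o).filter
        (fun r => (fun p => if p ∈ WW L Q μ D.C₀ N then r p else .o) = rw'),
      D.om N L Q μ V r ≤
      (N : ℝ) / V * ∏ p ∈ spt (WW L Q μ D.C₀ N) rw', 1 / (p : ℝ) := by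
  set W := WW L Q μ D.C₀ N with hW
  set S := SI L Q μ D.C₀ N with hS
  set P : ℕ := ∏ p ∈ spt W rw', p with hP
  have hWS : W ⊆ S := WW_sub
  have hP0 : 0 < P := prod_pos fun p hp => (mem_WW (mem_filter.1 hp).1).1.pos
  have e1 : ∑ r ∈ (piF S (fun p => insert .o (D.Lb (AA L Q μ p) p)) .o).filter
        (fun r => (fun p => if p ∈ W then r p else .o) = rw'), D.om N L Q μ V r =
      ((((piF S (fun p => insert .o (D.Lb (AA L Q μ p) p)) .o).filter
        (fun r => (fun p => if p ∈ W then r p else .o) = rw')).filter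
        (fun r => V * ∏ p ∈ spt S r, p ≤ N)).card : ℝ) := by
    rw [card_filter]
    push_cast
    refine sum_congr rfl fun r _ => ?_
    unfold om
    rfl
  rw [e1]
  have e2 : (((piF S (fun p => insert .o (D.Lb (AA L Q μ p) p)) .o).filter
        (fun r => (fun p => if p ∈ W then r p else .o) = rw')).filter
        (fun r => V * ∏ p ∈ spt S r, p ≤ N)).card ≤ (Icc 1 (N / (V * P))).card := by
    refine card_le_card_of_injOn (fun r => ∏ p ∈ spt (S \ W) r, p) ?_ ?_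
    · intro r hr
      rw [mem_coe, mem_filter, mem_filter] at hr
      obtain ⟨⟨hr1, hr2⟩, hr3⟩ := hr
      have h1 : spt S r = spt W rw' ∪ spt (S \ W) r := by
        ext p
        unfold spt
        rw [mem_union, mem_filter, mem_filter, mem_filter, mem_sdiff]
        rw [← hr2]
        by_cases hp : p ∈ W
        · simp only [hp, if_true, true_and, not_true_eq_false, and_false, false_and, or_false]
          exact ⟨fun h => h.2, fun h => ⟨hWS hp, h⟩⟩
        · simp only [hp, if_false, false_and, not_false_eq_true, and_true, false_or]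
      have h2 : Disjoint (spt W rw') (spt (S \ W) r) := by
        rw [disjoint_left]
        intro p hp hp'
        exact (mem_sdiff.1 (mem_filter.1 hp').1).2 (mem_filter.1 hp).1
      rw [h1, prod_union h2] at hr3
      rw [mem_coe, mem_Icc]
      constructor
      · exact prod_pos fun p hp => (mem_SI (mem_sdiff.1 (mem_filter.1 hp).1).1).1.pos
      · rw [Nat.le_div_iff_mul_le (Nat.mul_pos hV hP0)]
        calc (∏ p ∈ spt (S \ W) r, p) * (V * P) = V * (P * ∏ p ∈ spt (S \ W) r, p) := by ring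
          _ ≤ N := hr3
    · intro r hr r' hr' h
      rw [mem_coe, mem_filter, mem_filter] at hr hr'
      obtain ⟨⟨hr1, hr2⟩, hr3⟩ := hr
      obtain ⟨⟨hr1', hr2'⟩, hr3'⟩ := hr'
      have h1 : spt (S \ W) r = spt (S \ W) r' := by
        rw [← Nat.primeFactors_prod (s := spt (S \ W) r), ← Nat.primeFactors_prod
          (s := spt (S \ W) r')]
        · exact congrArg Nat.primeFactors h
        · exact fun p hp => (mem_SI (mem_sdiff.1 (mem_filter.1 hp).1).1).1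
        · exact fun p hp => (mem_SI (mem_sdiff.1 (mem_filter.1 hp).1).1).1
      funext p
      by_cases hpS : p ∈ S
      · by_cases hpW : p ∈ W
        · have h2 := congrFun hr2 p
          have h3 := congrFun hr2' p
          simp only [hpW, if_true] at h2 h3
          rw [h2, h3]
        · have h2 := label_u D N L Q μ hQ hμ hL hr1 hpS hpW
          have h3 := label_u D N L Q μ hQ hμ hL hr1' hpS hpW
          have h4 : p ∈ spt (S \ W) r ↔ p ∈ spt (S \ W) r' := by rw [h1]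
          unfold spt at h4
          rw [mem_filter, mem_filter, mem_sdiff] at h4
          have h5 : r p ≠ .o ↔ r' p ≠ .o :=
            ⟨fun h => (h4.1 ⟨⟨hpS, hpW⟩, h⟩).2, fun h => (h4.2 ⟨⟨hpS, hpW⟩, h⟩).2⟩
          rcases h2 with h2 | h2
          · rcases h3 with h3 | h3
            · rw [h2, h3]
            · exact absurd h2 (h5.2 (by rw [h3]; exact nofun))
          · rcases h3 with h3 | h3
            · exact absurd h3 (h5.1 (by rw [h2]; exact nofun))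
            · rw [h2, h3]
      · rw [(mem_piF.1 hr1).2 p hpS, (mem_piF.1 hr1').2 p hpS]
  rw [Nat.card_Icc, Nat.add_sub_cancel] at e2
  refine (Nat.cast_le.2 e2).trans (Nat.cast_div_le.trans (le_of_eq ?_))
  rw [hP]
  push_cast
  rw [prod_div_distrib, prod_const_one]
  have hP1 : (0 : ℝ) < ∏ p ∈ spt W rw', (p : ℝ) := by
    have : ((P : ℕ) : ℝ) = ∏ p ∈ spt W rw', (p : ℝ) := by
      rw [hP]
      push_cast
      rfl
    rw [← this]
    exact Nat.cast_pos.2 hP0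
  have hV1 : (0 : ℝ) < V := Nat.cast_pos.2 hV
  field_simp

/-- The mass of the inner label functions whose support contains `E`. The primes `> exp L` carry
only the label `u`: their product is `≤ N / (V ∏ ...)`, so that there is no loss of a power of
`log N`. -/
theorem mass_le (hQ : 0 < Q) (hμ : ∀ i, μ i < Q) (hL : 1 ≤ L) {V : ℕ} (hV : 0 < V)
    {E : Finset ℕ} (hE : E ⊆ WW L Q μ D.C₀ N) :
    ∑ x ∈ ((D.RI N L Q μ).sigma fun ri => D.Ch N L Q μ ri).filter
        (fun x => E ⊆ spt (WW L Q μ D.C₀ N) x.1), D.om N L Q μ V x.1 * D.hf N L Q μ x.1 ≤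
      (N : ℝ) / V * ((∏ p ∈ E, ((D.K : ℝ) / p)) * D.Pw N L Q μ D.K) := by
  classical
  set W := WW L Q μ D.C₀ N with hW
  set S := SI L Q μ D.C₀ N with hS
  set T := piF S (fun p => insert .o (D.Lb (AA L Q μ p) p)) .o with hT
  have hNV : 0 ≤ (N : ℝ) / V := by positivity
  -- remove the choices
  have e1 : ∑ x ∈ ((D.RI N L Q μ).sigma fun ri => D.Ch N L Q μ ri).filter
        (fun x => E ⊆ spt W x.1), D.om N L Q μ V x.1 * D.hf N L Q μ x.1 =
      ∑ r ∈ D.RI N L Q μ, if E ⊆ spt W r then D.om N L Q μ V r else 0 := by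
    rw [sum_filter, sum_sigma]
    refine sum_congr rfl fun r _ => ?_
    by_cases h : E ⊆ spt W r
    · simp only [h, if_true]
      rw [← mul_sum, sum_Ch, mul_one]
    · simp only [h, if_false, sum_const_zero]
  have e2 : ∑ r ∈ D.RI N L Q μ, (if E ⊆ spt W r then D.om N L Q μ V r else 0) ≤
      ∑ r ∈ T, if E ⊆ spt W r then D.om N L Q μ V r else 0 := by
    refine sum_le_sum_of_subset_of_nonneg ?_ fun r _ _ => ?_
    · unfold RI
      exact filter_subset _ _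
    · split_ifs
      · exact om_nonneg D N L Q μ V r
      · exact le_refl _
  -- group according to the part on `W`
  have hmaps : ∀ r ∈ T, (fun p => if p ∈ W then r p else .o) ∈
      piF W (fun p => insert .o (D.Lb (AA L Q μ p) p)) .o := by
    intro r hr
    rw [hT, mem_piF] at hr
    rw [mem_piF]
    refine ⟨fun p hp => ?_, fun p hp => ?_⟩
    · simp only [hp, if_true]
      exact hr.1 p (WW_sub hp)
    · simp only [hp, if_false]
  have e3 : ∑ r ∈ T, (if E ⊆ spt W r then D.om N L Q μ V r else 0) ≤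
      ∑ s ∈ piF W (fun p => insert .o (D.Lb (AA L Q μ p) p)) .o,
        (N : ℝ) / V * if E ⊆ spt W s then ∏ p ∈ spt W s, 1 / (p : ℝ) else 0 := by
    rw [← sum_fiberwise_of_maps_to hmaps]
    refine sum_le_sum fun s _ => ?_
    have h1 : ∀ r ∈ T.filter (fun r => (fun p => if p ∈ W then r p else .o) = s),
        (if E ⊆ spt W r then D.om N L Q μ V r else 0) =
        if E ⊆ spt W s then D.om N L Q μ V r else 0 := by
      intro r hr
      have h2 := (mem_filter.1 hr).2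
      have h3 : spt W r = spt W s := by
        rw [← h2]
        unfold spt
        refine filter_congr fun p hp => ?_
        simp only [hp, if_true]
      rw [h3]
    rw [sum_congr rfl h1]
    by_cases h : E ⊆ spt W s
    · simp only [h, if_true]
      exact fibre_le D N L Q μ hQ hμ hL hV s
    · simp only [h, if_false, sum_const_zero, mul_zero]
      exact le_refl _
  rw [e1]
  refine (e2.trans e3).trans ?_
  rw [← mul_sum]
  refine mul_le_mul_of_nonneg_left ?_ hNV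
  -- the sum over the labels on `W`
  have h := sum_lab D W (fun p => AA L Q μ p)
    (fun p x => if x = .o then (if p ∈ E then 0 else (1 : ℝ)) else 1 / (p : ℝ))
  have e4 : ∑ s ∈ piF W (fun p => insert .o (D.Lb (AA L Q μ p) p)) .o,
        (if E ⊆ spt W s then ∏ p ∈ spt W s, 1 / (p : ℝ) else 0) ≤
      ∑ s ∈ piF W (fun p => insert .o (D.Lb (AA L Q μ p) p)) .o,
        ∏ p ∈ W, (if s p = .o then (if p ∈ E then 0 else (1 : ℝ)) else 1 / (p : ℝ)) := by
    refine sum_le_sum fun s _ => ?_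
    by_cases hr : E ⊆ spt W s
    · rw [if_pos hr]
      unfold spt
      rw [prod_filter]
      refine le_of_eq (prod_congr rfl fun p _ => ?_)
      by_cases h0 : s p = .o
      · have : p ∉ E := fun hp => (mem_filter.1 (hr hp)).2 h0
        simp [h0, this]
      · simp [h0]
    · rw [if_neg hr]
      refine prod_nonneg fun p _ => ?_
      split_ifs <;> positivity
  refine e4.trans ?_
  rw [h]
  have e5 : ∏ p ∈ E, ((D.K : ℝ) / (p : ℝ)) = ∏ p ∈ W, (if p ∈ E then (D.K : ℝ) / p else 1) := by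
    rw [prod_ite_mem, inter_eq_right.2 hE]
  unfold Pw
  rw [e5, ← prod_mul_distrib]
  refine prod_le_prod (fun p _ => ?_) fun p hp => ?_
  · refine add_nonneg ?_ (sum_nonneg fun a _ => ?_) <;> split_ifs <;> positivity
  · have h6 : ∑ ℓ ∈ D.Lb (AA L Q μ p) p,
        (if ℓ = .o then (if p ∈ E then 0 else (1 : ℝ)) else 1 / (p : ℝ)) =
        (D.Lb (AA L Q μ p) p).card * (1 / (p : ℝ)) := by
      rw [sum_congr rfl (g := fun _ => 1 / (p : ℝ)), sum_const, nsmul_eq_mul]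
      intro ℓ hℓ
      have : ℓ ≠ .o := fun h => o_notMem D _ _ (h ▸ hℓ)
      rw [if_neg this]
    rw [h6, if_pos rfl]
    obtain ⟨hp1, hp2, _, _⟩ := mem_WW hp
    have h1 : ((D.Lb (AA L Q μ p) p).card : ℝ) * (1 / (p : ℝ)) ≤ D.K / p := by
      rw [mul_one_div]
      exact div_le_div_of_nonneg_right (Nat.cast_le.2 (card_Lb_le D _ hp1 hp2))
        (Nat.cast_nonneg p)
    have h2 : 0 ≤ (D.K : ℝ) / (p : ℝ) := by positivity
    by_cases hpE : p ∈ E
    · rw [if_pos hpE, if_pos hpE, zero_add]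
      refine h1.trans ?_
      rw [mul_add, mul_one]
      have := mul_nonneg h2 h2
      linarith
    · rw [if_neg hpE, if_neg hpE, one_mul]
      linarith

variable {c : (ℕ → Lab k) → ℕ → ℕ → ℝ}

private lemma abs_gam_le (hc : ∀ r p x, |c r p x| ≤ 1) (V : ℕ)
    (x : Σ _ : ℕ → Lab k, ℕ → Finset ℕ) :
    |D.gam N L Q μ V c x| ≤ D.om N L Q μ V x.1 * D.hf N L Q μ x.1 := by
  unfold gam
  have h0 : 0 ≤ D.om N L Q μ V x.1 * D.hf N L Q μ x.1 :=
    mul_nonneg (om_nonneg D N L Q μ V x.1) (hf_nonneg D N L Q μ x.1)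
  rw [abs_mul, abs_of_nonneg h0]
  refine mul_le_of_le_one_right h0 ?_
  rw [abs_prod]
  refine prod_le_one (fun _ _ => abs_nonneg _) fun p _ => ?_
  rw [abs_prod]
  exact prod_le_one (fun _ _ => abs_nonneg _) fun a _ => hc _ _ _

theorem sum_gam (hQ : 0 < Q) (hμ : ∀ i, μ i < Q) (hL : 1 ≤ L) {V : ℕ} (hV : 0 < V)
    (hc : ∀ r p x, |c r p x| ≤ 1) (A : Finset (Fin k)) :
    ∑ x ∈ D.Ix N L Q μ A, |D.gam N L Q μ V c x| ≤ (N : ℝ) / V * D.Pw N L Q μ D.K := by
  classical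
  have h := mass_le D N L Q μ hQ hμ hL hV (empty_subset (WW L Q μ D.C₀ N))
  rw [prod_empty, one_mul] at h
  refine le_trans ?_ h
  refine (sum_le_sum fun x _ => abs_gam_le D N L Q μ hc V x).trans ?_
  refine sum_le_sum_of_subset_of_nonneg ?_ fun x _ _ =>
    mul_nonneg (om_nonneg D N L Q μ V x.1) (hf_nonneg D N L Q μ x.1)
  intro x hx
  unfold Ix at hx
  rw [mem_filter] at hx ⊢
  exact ⟨hx.1, empty_subset _⟩

theorem sum_gam_E (hQ : 0 < Q) (hμ : ∀ i, μ i < Q) (hL : 1 ≤ L) {V : ℕ} (hV : 0 < V)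
    (hc : ∀ r p x, |c r p x| ≤ 1) (A : Finset (Fin k)) (E : Finset ℕ) :
    ∑ x ∈ (D.Ix N L Q μ A).filter (fun x => D.Ee N L Q μ A x = E), |D.gam N L Q μ V c x| ≤
      (N : ℝ) / V * ((∏ p ∈ E, ((D.K : ℝ) / p)) * D.Pw N L Q μ D.K) := by
  classical
  by_cases hE : E ⊆ WW L Q μ D.C₀ N
  · refine le_trans ?_ (mass_le D N L Q μ hQ hμ hL hV hE)
    refine (sum_le_sum fun x _ => abs_gam_le D N L Q μ hc V x).trans ?_
    refine sum_le_sum_of_subset_of_nonneg ?_ fun x _ _ =>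
      mul_nonneg (om_nonneg D N L Q μ V x.1) (hf_nonneg D N L Q μ x.1)
    intro x hx
    rw [mem_filter] at hx ⊢
    obtain ⟨hx1, hx2⟩ := hx
    unfold Ix at hx1
    rw [mem_filter] at hx1
    refine ⟨hx1.1, ?_⟩
    rw [← hx2]
    intro p hp
    unfold Ee Dd at hp
    exact (mem_filter.1 (mem_filter.1 hp).1).1
  · have h0 : (D.Ix N L Q μ A).filter (fun x => D.Ee N L Q μ A x = E) = ∅ := by
      refine filter_eq_empty_iff.2 fun x _ hx => hE ?_
      rw [← hx]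
      intro p hp
      unfold Ee Dd spt at hp
      exact (mem_filter.1 (mem_filter.1 (mem_filter.1 hp).1).1).1
    rw [h0, sum_empty]
    unfold Pw
    positivity

end Sys

end Stoll308.TW
end

section
set_option autoImplicit false

/-!
The fibres of the outer label functions: the labels outside the large primes of the components
`i ∈ A`, the dyadic sizes and the `κ` determine the coefficients.
-/

namespace Stoll308.TW

open Finset Stoll308.Gen

variable {k : ℕ}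

private lemma mask_r {A : Finset (Fin k)} {Z : Fin k → ℝ} {r : ℕ → Lab k} {p : ℕ} {i : Fin k}
    {a : ℕ} (h : r p = .r i a) :
    (i ∈ A ∧ Z i < (p : ℝ) → mask A Z r p = .o) ∧
      (¬ (i ∈ A ∧ Z i < (p : ℝ)) → mask A Z r p = .r i a) := by
  unfold mask
  rw [h]
  constructor
  · intro h'
    exact if_pos h'
  · intro h'
    exact if_neg h'

private lemma mask_o {A : Finset (Fin k)} {Z : Fin k → ℝ} {r : ℕ → Lab k} {p : ℕ}
    (h : r p = .o) : mask A Z r p = .o := by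
  unfold mask
  rw [h]

private lemma mask_u {A : Finset (Fin k)} {Z : Fin k → ℝ} {r : ℕ → Lab k} {p : ℕ}
    (h : r p = .u) : mask A Z r p = .u := by
  unfold mask
  rw [h]

private lemma mem_cut {Z : Fin k → ℝ} {i : Fin k} {S : Finset ℕ} {r : ℕ → Lab k} {p : ℕ} :
    p ∈ cut Z i S r ↔ p ∈ S ∧ (∃ a, r p = .r i a) ∧ Z i < (p : ℝ) := by
  unfold cut cpt
  rw [mem_filter, mem_filter]
  constructor
  · rintro ⟨⟨h1, h2⟩, h3⟩
    exact ⟨h1, ⟨_, h2⟩, h3⟩
  · rintro ⟨h1, ⟨a, h2⟩, h3⟩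
    refine ⟨⟨h1, ?_⟩, h3⟩
    rw [h2]
    rfl

/-- Masking depends only on the value at the point. -/
private lemma mask_congr (A : Finset (Fin k)) (Z : Fin k → ℝ) {r r' : ℕ → Lab k} {p : ℕ}
    (h : r p = r' p) : mask A Z r p = mask A Z r' p := by
  unfold mask
  rw [h]

private lemma mask_mask {A B : Finset (Fin k)} (hAB : A ⊆ B) (Z : Fin k → ℝ) (r : ℕ → Lab k) :
    mask B Z (mask A Z r) = mask B Z r := by
  funext p
  cases h : r p with
  | o => rw [mask_o h, mask_o (mask_o h)]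
  | u => rw [mask_u h, mask_u (mask_u h)]
  | r i a =>
    by_cases hi : i ∈ A ∧ Z i < (p : ℝ)
    · rw [mask_o ((mask_r h).1 hi), (mask_r h).1 ⟨hAB hi.1, hi.2⟩]
    · have h1 := (mask_r h).2 hi
      by_cases hB : i ∈ B ∧ Z i < (p : ℝ)
      · rw [(mask_r h1).1 hB, (mask_r h).1 hB]
      · rw [(mask_r h1).2 hB, (mask_r h).2 hB]

/-- The large primes of a component outside `A` are not masked. -/
private lemma mask_cut {A : Finset (Fin k)} {i : Fin k} (hi : i ∉ A) (Z : Fin k → ℝ)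
    (r : ℕ → Lab k) (p : ℕ) (a : ℕ) : mask A Z r p = .r i a ↔ r p = .r i a := by
  constructor
  · intro h
    cases h' : r p with
    | o =>
      rw [mask_o h'] at h
      exact nomatch h
    | u =>
      rw [mask_u h'] at h
      exact nomatch h
    | r j b =>
      by_cases hj : j ∈ A ∧ Z j < (p : ℝ)
      · rw [(mask_r h').1 hj] at h
        exact nomatch h
      · rw [(mask_r h').2 hj] at h
        exact h
  · intro h
    exact (mask_r h).2 fun h' => hi h'.1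

namespace Sys

variable {D : Sys k} {N : ℕ} {L : ℝ} {Q : ℕ} {μ : Fin k → ℕ}

/-- Two outer label functions in the same fibre. -/
structure Same (D : Sys k) (N : ℕ) (L : ℝ) (Q : ℕ) (μ : Fin k → ℕ) (A : Finset (Fin k))
    (ro ro' : ℕ → Lab k) : Prop where
  mask : mask A (Zc L Q μ) ro = mask A (Zc L Q μ) ro'
  j : ∀ i ∈ Big μ, D.jl N L Q μ ro i = D.jl N L Q μ ro' i
  κ : ∀ i, D.ko N L Q μ ro i = D.ko N L Q μ ro' i

variable {A : Finset (Fin k)} {ro ro' : ℕ → Lab k}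

theorem Same.VV (h : Same D N L Q μ A ro ro') (hA : A ⊆ Big μ) :
    D.VV N L Q μ ro = D.VV N L Q μ ro' := by
  unfold Sys.VV
  rw [sum_congr rfl h.j]
  congr 1
  rw [← mask_mask hA (Zc L Q μ) ro, ← mask_mask hA (Zc L Q μ) ro', h.mask]

theorem Same.go (h : Same D N L Q μ A ro ro') {i : Fin k} (hi : i ∉ A) :
    D.go N L Q μ ro i = D.go N L Q μ ro' i := by
  unfold Sys.go gv
  have key : ∀ p a, ro p = .r i a ↔ ro' p = .r i a := by
    intro p a
    rw [← mask_cut hi (Zc L Q μ) ro p a, ← mask_cut hi (Zc L Q μ) ro' p a, h.mask]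
  have h1 : cut (Zc L Q μ) i (SO L Q μ D.C₀ N) ro = cut (Zc L Q μ) i (SO L Q μ D.C₀ N) ro' := by
    ext p
    rw [mem_cut, mem_cut]
    constructor
    · rintro ⟨h1, ⟨a, h2⟩, h3⟩
      exact ⟨h1, ⟨a, (key p a).1 h2⟩, h3⟩
    · rintro ⟨h1, ⟨a, h2⟩, h3⟩
      exact ⟨h1, ⟨a, (key p a).2 h2⟩, h3⟩
  rw [← h1]
  refine D.g_congr i _ _ _ fun p hp => ?_
  obtain ⟨_, ⟨a, h2⟩, _⟩ := mem_cut.1 hp
  unfold rts
  rw [h2, (key p a).1 h2]

theorem Same.cI (h : Same D N L Q μ A ro ro') (s : ℤ) (e : Finset (Fin k) → Fin D.m)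
    (ri : ℕ → Lab k) {p : ℕ} (hp : A ⊆ AA L Q μ p) (c : ℕ) :
    D.cI N L Q μ s e ro ri p c = D.cI N L Q μ s e ro' ri p c := by
  unfold Sys.cI
  have h1 : Stoll308.TW.mask (AA L Q μ p) (Zc L Q μ) (D.join N L Q μ ro ri) =
      Stoll308.TW.mask (AA L Q μ p) (Zc L Q μ) (D.join N L Q μ ro' ri) := by
    funext q
    by_cases hq : q ∈ SI L Q μ D.C₀ N
    · refine mask_congr _ _ ?_
      unfold join
      rw [if_pos hq, if_pos hq]
    · have e1 : ∀ r, Stoll308.TW.mask (AA L Q μ p) (Zc L Q μ) (D.join N L Q μ r ri) q =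
          Stoll308.TW.mask (AA L Q μ p) (Zc L Q μ) r q := by
        intro r
        refine mask_congr _ _ ?_
        unfold join
        rw [if_neg hq]
      rw [e1, e1, ← mask_mask hp (Zc L Q μ) ro, ← mask_mask hp (Zc L Q μ) ro', h.mask]
  have h2 : D.kv (AA L Q μ p) (Zc L Q μ) (SO L Q μ D.C₀ N) ro =
      D.kv (AA L Q μ p) (Zc L Q μ) (SO L Q μ D.C₀ N) ro' := by
    funext i
    unfold kv
    by_cases hi : i ∈ AA L Q μ p
    · rw [if_pos hi, if_pos hi]
      exact h.κ i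
    · rw [if_neg hi, if_neg hi]
  rw [h1, h2]

/-- The sums of the terms with top active set `A` are the same functions. -/
theorem Same.hh (h : Same D N L Q μ A ro ro') (hL : 1 ≤ L) (hQ : 0 < Q) (s : ℤ)
    (e : Finset (Fin k) → Fin D.m) (g : (i : Fin k) → Fin (D.n i) → ℤ) :
    D.hh N L Q μ A (D.VV N L Q μ ro) (D.cI N L Q μ s e ro) g =
      D.hh N L Q μ A (D.VV N L Q μ ro') (D.cI N L Q μ s e ro') g := by
  unfold Sys.hh
  refine sum_congr rfl fun x hx => ?_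
  obtain ⟨_, _, _, hA, h1, _⟩ := Ix_spec hL hQ hx
  rw [h.VV hA]
  congr 1
  unfold gam
  congr 1
  refine prod_congr rfl fun p hp => ?_
  refine prod_congr rfl fun y _ => ?_
  exact h.cI s e x.1 (h1 p hp).2.2.2.1 y

private lemma mem_SO {L : ℝ} {Q : ℕ} {μ : Fin k → ℕ} {C₀ N p : ℕ} (hp : p ∈ SO L Q μ C₀ N) :
    p.Prime ∧ C₀ < p := by
  classical
  unfold SO at hp
  rw [mem_filter] at hp
  obtain ⟨hp1, hp2⟩ := hp
  unfold PX at hp1
  rw [mem_filter, mem_Icc] at hp1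
  exact hp1.2

private lemma mem_RO (hro : ro ∈ D.RO N L Q μ) :
    ∀ p, (p ∈ SO L Q μ D.C₀ N → ro p = .o ∨ ro p ∈ D.Lb univ p) ∧
      (p ∉ SO L Q μ D.C₀ N → ro p = .o) := by
  classical
  intro p
  unfold RO at hro
  have hro := (mem_filter.1 hro).1
  unfold RF at hro
  rw [mem_piF] at hro
  refine ⟨fun hp => ?_, fun hp => hro.2 p hp⟩
  have := hro.1 p hp
  rw [mem_insert] at this
  exact this

private lemma Vd_cut (hro : ro ∈ D.RO N L Q μ) (a : Fin k) :
    Vd D.C₀ (D.Rt a) (cut (Zc L Q μ) a (SO L Q μ D.C₀ N) ro) (rts ro) := by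
  intro p hp
  obtain ⟨h1, ⟨b, h2⟩, h3⟩ := mem_cut.1 hp
  refine ⟨(mem_SO h1).1, (mem_SO h1).2, ?_⟩
  have h4 := (mem_RO hro p).1 h1
  rw [h2] at h4
  rcases h4 with h4 | h4
  · exact nomatch h4
  · unfold Lb Lbl at h4
    rw [mem_union, mem_biUnion] at h4
    unfold rts
    rw [h2]
    change b ∈ D.Rt a p
    rcases h4 with h4 | ⟨i, _, h4⟩
    · split_ifs at h4
      · rw [mem_singleton] at h4
        exact nomatch h4
      · exact absurd h4 (notMem_empty _)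
    · obtain ⟨b', hb', hb⟩ := mem_image.1 h4
      injection hb with h5 h6
      rw [← h5, ← h6]
      exact hb'

theorem Same.inj (h : Same D N L Q μ A ro ro') (hro : ro ∈ D.RO N L Q μ)
    (hro' : ro' ∈ D.RO N L Q μ) (hg : ∀ a ∈ A, D.go N L Q μ ro a = D.go N L Q μ ro' a) :
    ro = ro' := by
  have key : ∀ i ∈ A, cut (Zc L Q μ) i (SO L Q μ D.C₀ N) ro =
      cut (Zc L Q μ) i (SO L Q μ D.C₀ N) ro' ∧
      ∀ p ∈ cut (Zc L Q μ) i (SO L Q μ D.C₀ N) ro, rts ro p = rts ro' p := by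
    intro i hi
    exact D.g_inj i _ _ _ _ (Vd_cut hro i) (Vd_cut hro' i) (hg i hi)
  -- the masked primes
  have key2 : ∀ i ∈ A, ∀ p, p ∈ cut (Zc L Q μ) i (SO L Q μ D.C₀ N) ro → ro p = ro' p := by
    intro i hi p hp
    obtain ⟨h1, h2⟩ := key i hi
    have h3 := h2 p hp
    have h4 := hp
    rw [h1] at h4
    obtain ⟨_, ⟨a, h5⟩, _⟩ := mem_cut.1 hp
    obtain ⟨_, ⟨b, h6⟩, _⟩ := mem_cut.1 h4
    unfold rts at h3
    rw [h5, h6] at h3 ⊢
    change a = b at h3
    rw [h3]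
  funext p
  by_cases hp : p ∈ SO L Q μ D.C₀ N
  · by_cases h1 : ∃ i ∈ A, p ∈ cut (Zc L Q μ) i (SO L Q μ D.C₀ N) ro
    · obtain ⟨i, hi, h2⟩ := h1
      exact key2 i hi p h2
    · by_cases h1' : ∃ i ∈ A, p ∈ cut (Zc L Q μ) i (SO L Q μ D.C₀ N) ro'
      · obtain ⟨i, hi, h2⟩ := h1'
        rw [← (key i hi).1] at h2
        exact key2 i hi p h2
      · have e1 : ∀ r : ℕ → Lab k, (¬ ∃ i ∈ A, p ∈ cut (Zc L Q μ) i (SO L Q μ D.C₀ N) r) →
            Stoll308.TW.mask A (Zc L Q μ) r p = r p := by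
          intro r hr
          cases h' : r p with
          | o => exact mask_o h'
          | u => exact mask_u h'
          | r i a =>
            refine (mask_r h').2 fun hi => hr ⟨i, hi.1, ?_⟩
            exact mem_cut.2 ⟨hp, ⟨a, h'⟩, hi.2⟩
        rw [← e1 ro h1, ← e1 ro' h1', h.mask]
  · rw [(mem_RO hro p).2 hp, (mem_RO hro' p).2 hp]

end Sys

end Stoll308.TW
end

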