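import Pool.Agent.Work.BCM.C27
import Pool.Agent.Work.BCM.C30
import Pool.Agent.Work.BCM.C31
import Pool.Agent.Work.BCM.C32
import Pool.Agent.Work.BCM.C33
import Pool.Agent.Work.BCM.C35
import Pool.Agent.Work.BCM.C36
import Pool.Agent.Work.BCM.C37
import Pool.Agent.Work.BCM.C39
import Pool.Agent.Work.BCM.C40
import Pool.Agent.Work.BCM.C41
import Pool.Agent.Work.BCM.C42
import Pool.Agent.Work.BCM.C43
import Pool.Agent.Work.MP_308fa9_nt.EA.Defs

section
set_option autoImplicit false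

/-!
Most curves are smooth.
-/

namespace Stoll308.DQ

open Polynomial Finset BF SC

namespace Smth

/-- The coefficients determine the vector. -/
lemma gz_inj {m : ℕ} {b b' : Fin (m + 1) → ℤ} (h : GZ ℚ b = GZ ℚ b') : b = b' := by
  funext i
  have h1 : (GZ ℚ b).coeff (m - (i : ℕ)) = (GZ ℚ b').coeff (m - (i : ℕ)) := by rw [h]
  rw [LocInf.coeff_GZ b (Nat.sub_le _ _), LocInf.coeff_GZ b' (Nat.sub_le _ _)] at h1
  have e : (⟨m - (m - (i : ℕ)), by omega⟩ : Fin (m + 1)) = i := by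
    apply Fin.ext
    have := i.isLt
    show m - (m - (i : ℕ)) = i
    omega
  rw [e] at h1
  exact_mod_cast h1

/-- Pairs of proportional polynomials. -/
def Prop2 {n m : ℕ} (a : Fin (n + 1) → ℤ) (b : Fin (m + 1) → ℤ) : Prop :=
  b 0 ≠ 0 ∧ ∃ c : ℚ, GZ ℚ b = C c * GZ ℚ a

lemma cnt_prop2 (n m H : ℕ) : cnt n m Prop2 H ≤ (2 * H + 1) ^ (n + 1) * (2 * H + 1) := by
  classical
  have hc : (2 * H + 1) ^ (n + 1) * (2 * H + 1) =
      ((Fintype.piFinset fun _ : Fin (n + 1) => Icc (-(H : ℤ)) (H : ℤ)) ×ˢ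
        Icc (-(H : ℤ)) (H : ℤ)).card := by
    rw [card_product, Fintype.card_piFinset, prod_const, card_univ, Fintype.card_fin, Int.card_Icc]
    have h : ((H : ℤ) + 1 - -(H : ℤ)).toNat = 2 * H + 1 := by omega
    rw [h]
  rw [hc]
  unfold cnt
  refine card_le_card_of_injOn (fun x => (x.1, x.2 0)) ?_ ?_
  · intro x hx
    simp only [coe_filter, mem_product, Fintype.mem_piFinset, Set.mem_ofPred_eq] at hx
    simp only [coe_product, Set.mem_prod, mem_coe, Fintype.mem_piFinset]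
    exact ⟨hx.1.1, hx.1.2 0⟩
  · rintro ⟨a, b⟩ hx ⟨a', b'⟩ hx' hxx
    simp only [coe_filter, Set.mem_ofPred_eq] at hx hx'
    simp only [Prod.mk.injEq] at hxx
    obtain ⟨rfl, hb⟩ := hxx
    obtain ⟨-, h0, c, h1⟩ := hx
    obtain ⟨-, h0', c', h1'⟩ := hx'
    have e1 := congrArg (fun F : ℚ[X] => F.coeff m) h1
    have e2 := congrArg (fun F : ℚ[X] => F.coeff m) h1'
    simp only [coeff_C_mul] at e1 e2
    rw [BF.LocLat.GZ_coeff_top] at e1 e2
    have h3 : ((b 0 : ℤ) : ℚ) ≠ 0 := by exact_mod_cast h0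
    have h4 : (GZ ℚ a).coeff m ≠ 0 := by
      intro h
      rw [h, mul_zero] at e1
      exact h3 e1
    have h5 : c = c' := by
      have e3 : ((b 0 : ℤ) : ℚ) = ((b' 0 : ℤ) : ℚ) := by exact_mod_cast hb
      rw [e1, e2] at e3
      exact mul_right_cancel₀ h4 e3
    rw [← h5, ← h1] at h1'
    rw [gz_inj h1']

/-- The three ways not to be smooth. -/
lemma cases_smooth {n m : ℕ} (a : Fin (n + 1) → ℤ) (b : Fin (m + 1) → ℤ) (h : ¬ Smooth a b) :
    (a 0 = 0 ∨ IsSquare (a 0) ∨ ¬ Irreducible (GZ ℚ a)) ∨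
      (b 0 = 0 ∨ IsSquare (b 0) ∨ ¬ Irreducible (GZ ℚ b)) ∨ Prop2 a b := by
  by_cases ha0 : a 0 = 0
  · exact Or.inl (Or.inl ha0)
  by_cases hb0 : b 0 = 0
  · exact Or.inr (Or.inl (Or.inl hb0))
  by_cases ha : Irreducible (GZ ℚ a)
  swap
  · exact Or.inl (Or.inr (Or.inr ha))
  by_cases hb : Irreducible (GZ ℚ b)
  swap
  · exact Or.inr (Or.inl (Or.inr (Or.inr hb)))
  right; right
  refine ⟨hb0, ?_⟩
  by_contra hc
  apply h
  refine ⟨ha0, hb0, ?_⟩
  have hrel : IsRelPrime (GZ ℚ a) (GZ ℚ b) := by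
    rw [ha.isRelPrime_iff_not_dvd]
    intro hd
    have has := ha.associated_of_dvd hb hd
    obtain ⟨u, hu⟩ := has
    obtain ⟨c, -, hc'⟩ := Polynomial.isUnit_iff.1 u.isUnit
    exact hc ⟨c, by rw [← hu, ← hc', mul_comm]⟩
  exact (squarefree_mul_iff).2 ⟨hrel, ha.squarefree, hb.squarefree⟩

end Smth

theorem smooth_small (n m : ℕ) (hn : 4 ≤ n) (hm : 4 ≤ m) (ε : ℝ) (hε : 0 < ε) :
    ∃ H₀ : ℕ, ∀ H : ℕ, H₀ ≤ H →
      (cnt n m (fun a b => ¬ Smooth a b) H : ℝ) ≤ ε * H ^ (n + m + 2) := by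
  obtain ⟨H₁, h₁⟩ := BF.reducible_small n (by omega) (ε / 3 / 3 ^ (m + 1)) (by positivity)
  obtain ⟨H₂, h₂⟩ := BF.reducible_small m (by omega) (ε / 3 / 3 ^ (n + 1)) (by positivity)
  obtain ⟨H₃, h₃⟩ := exists_nat_ge (3 * 3 ^ (n + 2) / ε)
  refine ⟨H₁ + H₂ + H₃ + 1, fun H hH => ?_⟩
  have g1 := h₁ H (by omega)
  have g2 := h₂ H (by omega)
  have hH1 : (1 : ℝ) ≤ H := by exact_mod_cast (by omega : 1 ≤ H)
  have g3 : 3 * 3 ^ (n + 2) / ε ≤ (H : ℝ) := h₃.trans (by exact_mod_cast (by omega : H₃ ≤ H))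
  have h3H : 2 * (H : ℝ) + 1 ≤ 3 * H := by linarith
  have hle : cnt n m (fun a b => ¬ Smooth a b) H ≤
      cnt n m (fun a _ => a 0 = 0 ∨ IsSquare (a 0) ∨ ¬ Irreducible (GZ ℚ a)) H +
        (cnt n m (fun _ b => b 0 = 0 ∨ IsSquare (b 0) ∨ ¬ Irreducible (GZ ℚ b)) H +
          cnt n m Smth.Prop2 H) := by
    refine (cnt_mono H (fun a b _ _ h => Smth.cases_smooth a b h)).trans ?_
    refine (cnt_or _ _ H).trans ?_
    gcongr
    exact cnt_or _ _ H
  have k1 : (cnt n m (fun a _ => a 0 = 0 ∨ IsSquare (a 0) ∨ ¬ Irreducible (GZ ℚ a)) H : ℝ) ≤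
      ε / 3 * H ^ (n + m + 2) := by
    rw [cnt_fst]
    calc _ ≤ (ε / 3 / 3 ^ (m + 1) * (H : ℝ) ^ (n + 1)) * (3 * (H : ℝ)) ^ (m + 1) := by gcongr
      _ = ε / 3 * H ^ (n + m + 2) := by
          rw [mul_pow, show n + m + 2 = (n + 1) + (m + 1) by ring, pow_add (H : ℝ) (n + 1) (m + 1)]
          field_simp
  have k2 : (cnt n m (fun _ b => b 0 = 0 ∨ IsSquare (b 0) ∨ ¬ Irreducible (GZ ℚ b)) H : ℝ) ≤
      ε / 3 * H ^ (n + m + 2) := by
    rw [cnt_snd]
    calc _ ≤ (3 * (H : ℝ)) ^ (n + 1) * (ε / 3 / 3 ^ (n + 1) * (H : ℝ) ^ (m + 1)) := by gcongr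
      _ = ε / 3 * H ^ (n + m + 2) := by
          rw [mul_pow, show n + m + 2 = (n + 1) + (m + 1) by ring, pow_add (H : ℝ) (n + 1) (m + 1)]
          field_simp
  have k3 : (cnt n m Smth.Prop2 H : ℝ) ≤ ε / 3 * H ^ (n + m + 2) := by
    have e1 : (cnt n m Smth.Prop2 H : ℝ) ≤ (2 * (H : ℝ) + 1) ^ (n + 1) * (2 * (H : ℝ) + 1) := by
      exact_mod_cast Smth.cnt_prop2 n m H
    have e2 : 3 * 3 ^ (n + 2) ≤ ε * H := by
      rw [div_le_iff₀ hε] at g3
      linarith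
    calc (cnt n m Smth.Prop2 H : ℝ) ≤ (2 * (H : ℝ) + 1) ^ (n + 1) * (2 * (H : ℝ) + 1) := e1
      _ = (2 * (H : ℝ) + 1) ^ (n + 2) := by ring
      _ ≤ (3 * (H : ℝ)) ^ (n + 2) := by gcongr
      _ = (3 * 3 ^ (n + 2)) / 3 * (H : ℝ) ^ (n + 2) := by rw [mul_pow]; ring
      _ ≤ (ε * H) / 3 * (H : ℝ) ^ (n + 2) := by gcongr
      _ = ε / 3 * (H : ℝ) ^ (n + 3) := by ring
      _ ≤ ε / 3 * (H : ℝ) ^ (n + m + 2) := by
          refine mul_le_mul_of_nonneg_left ?_ (by positivity)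
          exact pow_le_pow_right₀ hH1 (by omega)
  have k : (cnt n m (fun a b => ¬ Smooth a b) H : ℝ) ≤
      (cnt n m (fun a _ => a 0 = 0 ∨ IsSquare (a 0) ∨ ¬ Irreducible (GZ ℚ a)) H : ℝ) +
        ((cnt n m (fun _ b => b 0 = 0 ∨ IsSquare (b 0) ∨ ¬ Irreducible (GZ ℚ b)) H : ℝ) +
          (cnt n m Smth.Prop2 H : ℝ)) := by exact_mod_cast hle
  linarith

end Stoll308.DQ
end

section
set_option autoImplicit false

/-!
Most curves are smooth.
-/

namespace Stoll308.FQ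

open Polynomial Finset BF

namespace SmQ

/-- The irreducible polynomials dividing `q`. -/
def Div {n m : ℕ} (b : Fin (m + 1) → ℤ) (a : Fin (n + 1) → ℤ) : Prop :=
  a 0 ≠ 0 ∧ Irreducible (GZ ℚ a) ∧ GZ ℚ a ∣ GZ ℚ b

/-- The monic polynomial. -/
noncomputable def mo {n : ℕ} (a : Fin (n + 1) → ℤ) : ℚ[X] := C ((a 0 : ℚ)⁻¹) * GZ ℚ a

lemma gz_eq {n : ℕ} {a : Fin (n + 1) → ℤ} (h0 : a 0 ≠ 0) : GZ ℚ a = C (a 0 : ℚ) * mo a := by
  have h : (a 0 : ℚ) ≠ 0 := by exact_mod_cast h0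
  unfold mo
  rw [← mul_assoc, ← C_mul, mul_inv_cancel₀ h, C_1, one_mul]

lemma mo_mem {n m : ℕ} {b : Fin (m + 1) → ℤ} (hb : GZ ℚ b ≠ 0) {a : Fin (n + 1) → ℤ}
    (h : Div b a) : mo a ∈ UniqueFactorizationMonoid.normalizedFactors (GZ ℚ b) := by
  obtain ⟨h0, hI, hd⟩ := h
  have h0' : (a 0 : ℚ) ≠ 0 := by exact_mod_cast h0
  have hu : IsUnit (C ((a 0 : ℚ)⁻¹)) := isUnit_C.2 (isUnit_iff_ne_zero.2 (inv_ne_zero h0'))
  rw [UniqueFactorizationMonoid.mem_normalizedFactors_iff' hb]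
  have hne : GZ ℚ a ≠ 0 := hI.ne_zero
  have hmonic : (mo a).Monic := by
    have hdeg : (GZ ℚ a).natDegree = n := by
      refine le_antisymm (SC.op_natDegree_le a) (le_natDegree_of_ne_zero ?_)
      rw [BF.LocLat.GZ_coeff_top]
      exact h0'
    have hlc : (GZ ℚ a).leadingCoeff = a 0 := by
      rw [leadingCoeff, hdeg, BF.LocLat.GZ_coeff_top]
    have h1 := monic_mul_leadingCoeff_inv hne
    rw [hlc] at h1
    unfold mo
    rw [mul_comm]
    exact h1
  refine ⟨?_, hmonic.normalize_eq_self, ?_⟩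
  · unfold mo
    exact (irreducible_isUnit_mul hu).2 hI
  · unfold mo
    exact (hu.mul_left_dvd).2 hd

lemma cnt_div {n m : ℕ} (b : Fin (m + 1) → ℤ) (hb : GZ ℚ b ≠ 0) (H : ℕ) :
    BF.cnt n (Div b) H ≤ (2 * H + 1) *
      (UniqueFactorizationMonoid.normalizedFactors (GZ ℚ b)).toFinset.card := by
  classical
  have hc : (2 * H + 1) *
      (UniqueFactorizationMonoid.normalizedFactors (GZ ℚ b)).toFinset.card =
      (Icc (-(H : ℤ)) (H : ℤ) ×ˢ
        (UniqueFactorizationMonoid.normalizedFactors (GZ ℚ b)).toFinset).card := by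
    rw [card_product, Int.card_Icc]
    have h : ((H : ℤ) + 1 - -(H : ℤ)).toNat = 2 * H + 1 := by omega
    rw [h]
  rw [hc]
  unfold BF.cnt
  refine card_le_card_of_injOn (fun a => (a 0, mo a)) ?_ ?_
  · intro a ha
    simp only [coe_filter, Fintype.mem_piFinset, Set.mem_ofPred_eq] at ha
    rw [mem_coe, mem_product]
    exact ⟨ha.1 0, Multiset.mem_toFinset.2 (mo_mem hb ha.2)⟩
  · intro a ha a' ha' haa
    simp only [coe_filter, Fintype.mem_piFinset, Set.mem_ofPred_eq] at ha ha'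
    simp only [Prod.mk.injEq] at haa
    apply DQ.Smth.gz_inj
    rw [gz_eq ha.2.1, gz_eq ha'.2.1, haa.1, haa.2]

end SmQ

theorem smooth_small (n m : ℕ) (hn : 4 ≤ n) (b : Fin (m + 1) → ℤ) (h0 : b 0 ≠ 0)
    (hsq : Squarefree (GZ ℚ b)) (ε : ℝ) (hε : 0 < ε) :
    ∃ H₀ : ℕ, ∀ H : ℕ, H₀ ≤ H →
      (BF.cnt n (fun a => ¬ DQ.Smooth a b) H : ℝ) ≤ ε * H ^ (n + 1) := by
  classical
  obtain ⟨H₁, h₁⟩ := BF.reducible_small n (by omega) (ε / 2) (half_pos hε)
  set K : ℕ := (UniqueFactorizationMonoid.normalizedFactors (GZ ℚ b)).toFinset.card with hK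
  obtain ⟨H₂, h₂⟩ := exists_nat_ge (3 * K / (ε / 2))
  refine ⟨H₁ + H₂ + 1, fun H hH => ?_⟩
  have g1 := h₁ H (by omega)
  have hH1 : (1 : ℝ) ≤ H := by exact_mod_cast (by omega : 1 ≤ H)
  have g2 : 3 * K / (ε / 2) ≤ (H : ℝ) := h₂.trans (by exact_mod_cast (by omega : H₂ ≤ H))
  have hle := BF.Redu0.cnt_le_add n (fun a => ¬ DQ.Smooth a b)
    (fun a => a 0 = 0 ∨ IsSquare (a 0) ∨ ¬ Irreducible (GZ ℚ a)) (SmQ.Div b) H (by
      intro a ha
      by_cases ha0 : a 0 = 0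
      · exact Or.inl (Or.inl ha0)
      by_cases hI : Irreducible (GZ ℚ a)
      swap
      · exact Or.inl (Or.inr (Or.inr hI))
      right
      refine ⟨ha0, hI, ?_⟩
      by_contra hd
      apply ha
      refine ⟨ha0, h0, ?_⟩
      exact squarefree_mul_iff.2 ⟨hI.isRelPrime_iff_not_dvd.2 hd, hI.squarefree, hsq⟩)
  have g3 : (BF.cnt n (SmQ.Div b) H : ℝ) ≤ ε / 2 * H ^ (n + 1) := by
    have e1 : (BF.cnt n (SmQ.Div (n := n) b) H : ℝ) ≤ (2 * (H : ℝ) + 1) * K := by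
      exact_mod_cast SmQ.cnt_div b hsq.ne_zero H
    have e2 : 3 * K ≤ H * (ε / 2) := by
      rwa [div_le_iff₀ (half_pos hε)] at g2
    have e3 : (0 : ℝ) ≤ K := Nat.cast_nonneg _
    calc (BF.cnt n (SmQ.Div (n := n) b) H : ℝ) ≤ (2 * (H : ℝ) + 1) * K := e1
      _ ≤ (3 * H) * K := mul_le_mul_of_nonneg_right (by linarith) e3
      _ = (3 * K) * H := by ring
      _ ≤ (H * (ε / 2)) * H := mul_le_mul_of_nonneg_right e2 (by linarith)
      _ = ε / 2 * (H : ℝ) ^ 2 := by ring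
      _ ≤ ε / 2 * (H : ℝ) ^ (n + 1) :=
          mul_le_mul_of_nonneg_left (pow_le_pow_right₀ hH1 (by omega)) (half_pos hε).le
  have k : (BF.cnt n (fun a => ¬ DQ.Smooth a b) H : ℝ) ≤
      (BF.cnt n (fun a => a 0 = 0 ∨ IsSquare (a 0) ∨ ¬ Irreducible (GZ ℚ a)) H : ℝ) +
        (BF.cnt n (SmQ.Div b) H : ℝ) := by exact_mod_cast hle
  linarith

end Stoll308.FQ
end

section
set_option autoImplicit false

/-!
The exceptional polynomials of one degree.
-/

namespace Stoll308.DQ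

open Polynomial Finset Matrix BG BF SC

/-- The conditions on one polynomial. -/
def Nice {n : ℕ} (P : ℕ) (a : Fin (n + 1) → ℤ) : Prop :=
  a 0 ≠ 0 ∧ ¬ IsSquare (a 0) ∧ Irreducible (GZ ℚ a) ∧ a (Fin.last n) ≠ 0 ∧
    (∀ (p : ℕ) [Fact p.Prime], p ≤ P → ‖((P.factorial : ℚ_[p]) ^ 2)‖ ≤ ‖(a 0 : ℚ_[p])‖) ∧
    ∀ p : ℕ, p.Prime → P < p → (p : ℤ) ∣ a 0 → ¬ (p : ℤ) ∣ a (Fin.last n)

/-- The polynomial comes from a reduced pair with lengths of different sizes. -/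
def Cusp {n : ℕ} (K R : ℝ) (H M : ℕ) (a : Fin (n + 1) → ℤ) : Prop :=
  ∃ N : ℕ, 0 < N ∧ N ≤ M ∧ ∃ (A B : Matrix (Fin n) (Fin n) ℤ) (t : Fin n → ℝ),
    BF.RPair K ((N : ℝ) ^ 2 * H) (sc N a) A B t ∧ ∃ i j, R * t i < t j

theorem exc_small (n : ℕ) (hn : 4 ≤ n) (he : Even n) (K : ℝ) (hK : 1 ≤ K) (ε : ℝ) (hε : 0 < ε) :
    ∃ (P : ℕ) (R₀ : ℝ) (H₀ : ℕ), 2 ≤ P ∧ 1 ≤ R₀ ∧ ∀ R : ℝ, R₀ ≤ R → ∀ H : ℕ, H₀ ≤ H →
      (BF.cnt n (fun a => ¬ Nice P a ∨ Cusp K R H (P.factorial ^ (2 * n)) a) H : ℝ) ≤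
        ε * H ^ (n + 1) := by
  have hl0 : (Fin.last n : Fin (n + 1)) ≠ 0 := by
    intro h
    have h1 := congrArg Fin.val h
    rw [Fin.val_last, Fin.val_zero] at h1
    omega
  obtain ⟨S, hS, h1⟩ := OF.sqf_cnt n (ε / 6) (by positivity)
  obtain ⟨η, hη, H₁, h2⟩ := BF.height_small n (ε / 6) (by positivity)
  obtain ⟨P₂, h7⟩ := excl_small n (Fin.last n) hl0 (ε / 6) (by positivity)
  obtain ⟨P, hP⟩ : ∃ P : ℕ, P = P₂ + ⌈S⌉₊ + 2 := ⟨_, rfl⟩
  have hP2 : 2 ≤ P := by omega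
  have hSP : S ≤ P := by
    refine (Nat.le_ceil S).trans ?_
    have : ⌈S⌉₊ ≤ P := by omega
    exact_mod_cast this
  obtain ⟨M, hM⟩ : ∃ M : ℕ, M = P.factorial ^ (2 * n) := ⟨_, rfl⟩
  have hM1 : 1 ≤ M := by
    rw [hM]
    exact Nat.one_le_pow _ _ P.factorial_pos
  have hMr : (1 : ℝ) ≤ M := by exact_mod_cast hM1
  obtain ⟨ε', hε'⟩ : ∃ ε' : ℝ, ε' = ε / 6 / (M * ((M : ℝ) ^ 2) ^ (n + 1)) := ⟨_, rfl⟩
  have hε'0 : 0 < ε' := by rw [hε']; positivity
  obtain ⟨R₀, H₂, hR, h3⟩ := BF.cusp n hn he K hK η hη ε' hε'0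
  obtain ⟨H₄, h5⟩ := BF.reducible_small n (by omega) (ε / 6) (by positivity)
  refine ⟨P, R₀, H₁ + ⌈|H₂|⌉₊ + H₄ + 1, hP2, hR, ?_⟩
  intro R hRR H hH
  have hH1 : 1 ≤ H := by omega
  have hHr : (1 : ℝ) ≤ H := by exact_mod_cast hH1
  have g1 := h1 H hH1
  have g2 := h2 H (by omega)
  have g5 := h5 H (by omega)
  have g7 := h7 P (by omega) H
  have hbig : ∀ (x : ℝ), ⌈|x|⌉₊ ≤ H → ∀ N : ℕ, 0 < N → x ≤ (N : ℝ) ^ 2 * H := by
    intro x hx N hN
    have e1 : |x| ≤ ⌈|x|⌉₊ := Nat.le_ceil _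
    have e2 : ((⌈|x|⌉₊ : ℕ) : ℝ) ≤ H := by exact_mod_cast hx
    have e3 : (1 : ℝ) ≤ (N : ℝ) ^ 2 := one_le_pow₀ (by exact_mod_cast hN)
    have e4 : (H : ℝ) ≤ (N : ℝ) ^ 2 * H := by
      calc (H : ℝ) = 1 * H := by ring
        _ ≤ (N : ℝ) ^ 2 * H := mul_le_mul_of_nonneg_right e3 (by linarith)
    linarith [le_abs_self x]
  set P1 : (Fin (n + 1) → ℤ) → Prop := fun a => a 0 ≠ 0 ∧ S * OF.sfp (a 0) < |(a 0 : ℝ)|
    with hP1
  set P2 : (Fin (n + 1) → ℤ) → Prop := fun a => ∀ i, |(a i : ℝ)| < η * H with hP2'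
  set P5 : (Fin (n + 1) → ℤ) → Prop := fun a => a 0 = 0 ∨ IsSquare (a 0) ∨
    ¬ Irreducible (BF.GZ ℚ a) with hP5
  set P7 : (Fin (n + 1) → ℤ) → Prop := fun a => a 0 ≠ 0 ∧ ∃ p : ℕ, p.Prime ∧ P < p ∧
    (p : ℤ) ∣ a 0 ∧ (p : ℤ) ∣ a (Fin.last n) with hP7
  set Q3 : ℕ → (Fin (n + 1) → ℤ) → Prop := fun N a => a 0 ≠ 0 ∧ Irreducible (GZ ℚ a) ∧
    (∃ i, η * ((N : ℝ) ^ 2 * H) ≤ |(a i : ℝ)|) ∧
      ∃ (A B : Matrix (Fin n) (Fin n) ℤ) (t : Fin n → ℝ),
        BF.RPair K ((N : ℝ) ^ 2 * H) a A B t ∧ ∃ i j, R₀ * t i < t j with hQ3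
  set P3 : (Fin (n + 1) → ℤ) → Prop := fun a => ∃ N, 0 < N ∧ N ≤ M ∧ Q3 N (sc N a) with hP3
  have hsum : ∀ Q : ℕ → (Fin (n + 1) → ℤ) → Prop,
      (∀ N : ℕ, 0 < N → ∀ T : Finset (Fin (n + 1) → ℤ), (∀ a ∈ T, Q N a) →
        (T.card : ℝ) ≤ ε' * ((N : ℝ) ^ 2 * H) ^ (n + 1)) →
      (BF.cnt n (fun a => ∃ N, 0 < N ∧ N ≤ M ∧ Q N (sc N a)) H : ℝ) ≤
        ε / 6 * H ^ (n + 1) := by
    intro Q hQ
    have e1 := SC.cnt_exists (fun N a => Q N (sc (n := n) N a)) M H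
    have e2 : ∀ N ∈ Icc 1 M, (BF.cnt n (fun a => Q N (sc (n := n) N a)) H : ℝ) ≤
        ε' * (((M : ℝ) ^ 2) * H) ^ (n + 1) := by
      intro N hN
      rw [mem_Icc] at hN
      have hN0 : 0 < N := by omega
      refine (SC.cnt_scale _ (Q N) N hN0 H _ (fun a ha => ha) (hQ N hN0)).trans ?_
      have e3 : (N : ℝ) ≤ M := by exact_mod_cast hN.2
      gcongr
    calc (BF.cnt n (fun a => ∃ N, 0 < N ∧ N ≤ M ∧ Q N (sc N a)) H : ℝ)
        ≤ ((∑ N ∈ Icc 1 M, BF.cnt n (fun a => Q N (sc (n := n) N a)) H : ℕ) : ℝ) := by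
          exact_mod_cast e1
      _ = ∑ N ∈ Icc 1 M, (BF.cnt n (fun a => Q N (sc (n := n) N a)) H : ℝ) := by push_cast; rfl
      _ ≤ ∑ _N ∈ Icc 1 M, ε' * (((M : ℝ) ^ 2) * H) ^ (n + 1) := sum_le_sum e2
      _ = ε / 6 * H ^ (n + 1) := by
          rw [sum_const, Nat.card_Icc, Nat.add_sub_cancel, nsmul_eq_mul, hε', mul_pow]
          field_simp
  have g3 : (BF.cnt n P3 H : ℝ) ≤ ε / 6 * H ^ (n + 1) :=
    hsum Q3 fun N hN T hT => h3 _ (hbig H₂ (by omega) N hN) T hT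
  have hle : BF.cnt n (fun a => ¬ Nice P a ∨ Cusp K R H (P.factorial ^ (2 * n)) a) H ≤
      BF.cnt n P1 H + (BF.cnt n P2 H + (BF.cnt n P3 H + (BF.cnt n P5 H + BF.cnt n P7 H))) := by
    refine le_trans (BF.cnt_mono (Q := fun b => P1 b ∨ P2 b ∨ P3 b ∨ P5 b ∨ P7 b)
      H ?_) ?_
    · intro a ha h
      by_cases q5 : P5 a
      · exact Or.inr (Or.inr (Or.inr (Or.inl q5)))
      by_cases q7 : P7 a
      · exact Or.inr (Or.inr (Or.inr (Or.inr q7)))
      by_cases q1 : P1 a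
      · exact Or.inl q1
      by_cases q2 : P2 a
      · exact Or.inr (Or.inl q2)
      right; right; left
      rw [hP5] at q5
      simp only [not_or, not_not] at q5
      obtain ⟨h0, hsq, hF⟩ := q5
      have q1' : |(a 0 : ℝ)| ≤ S * OF.sfp (a 0) := by
        rw [hP1] at q1
        simp only [not_and, not_lt] at q1
        exact q1 h0
      have hl := BF.last_ne_zero (by omega) a h0 hF
      have hnice : Nice P a := by
        refine ⟨h0, hsq, hF, hl, ?_, ?_⟩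
        · intro p hp hpP
          exact fac_le (a 0) h0 S P hSP q1' p hpP
        · intro p hp hpP hd hd1
          exact q7 ⟨h0, p, hp, hpP, hd, hd1⟩
      obtain ⟨N, hN, hNM, A, B, t, hRP, i, j, hij⟩ := h.resolve_left (not_not.2 hnice)
      rw [hP2'] at q2
      push Not at q2
      obtain ⟨i₀, hi₀⟩ := q2
      have hN2 : (0 : ℝ) < (N : ℝ) ^ 2 := by positivity
      have hN1 : (0 : ℤ) < (N : ℤ) ^ 2 := by positivity
      refine ⟨N, hN, by rw [hM]; exact hNM, ?_, ?_, ⟨i₀, ?_⟩, A, B, t, hRP, i, j, ?_⟩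
      · unfold sc
        exact mul_ne_zero hN1.ne' h0
      · rw [GZ_sc]
        exact (irreducible_isUnit_mul (isUnit_sc hN)).2 hF
      · unfold sc
        push_cast
        rw [abs_mul, abs_of_pos hN2]
        calc η * ((N : ℝ) ^ 2 * H) = (N : ℝ) ^ 2 * (η * H) := by ring
          _ ≤ (N : ℝ) ^ 2 * |(a i₀ : ℝ)| := mul_le_mul_of_nonneg_left hi₀ hN2.le
      · refine lt_of_le_of_lt ?_ hij
        exact mul_le_mul_of_nonneg_right hRR (hRP.pos i).le
    · refine (BF.cnt_or _ _ H).trans ?_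
      gcongr
      refine (BF.cnt_or _ _ H).trans ?_
      gcongr
      refine (BF.cnt_or _ _ H).trans ?_
      gcongr
      exact BF.cnt_or _ _ H
  calc ((BF.cnt n (fun a => ¬ Nice P a ∨ Cusp K R H (P.factorial ^ (2 * n)) a) H : ℕ) : ℝ)
      ≤ ((BF.cnt n P1 H + (BF.cnt n P2 H + (BF.cnt n P3 H + (BF.cnt n P5 H +
        BF.cnt n P7 H))) : ℕ) : ℝ) := by exact_mod_cast hle
    _ ≤ ε * H ^ (n + 1) := by
        push_cast
        have : (0 : ℝ) ≤ ε * H ^ (n + 1) := by positivity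
        linarith

end Stoll308.DQ
end

section
set_option autoImplicit false

/-!
The upper bound.
-/

namespace Stoll308.DQ

open Polynomial Finset Matrix BG BF SC

lemma RPair.mono_K {n : ℕ} {K K' H : ℝ} {a : Fin (n + 1) → ℤ} {A B : Matrix (Fin n) (Fin n) ℤ}
    {t : Fin n → ℝ} (h : BF.RPair K H a A B t) (hK : K ≤ K') (hH : 0 ≤ H) :
    BF.RPair K' H a A B t := by
  refine ⟨h.symA, h.symB, h.char, h.pos, h.hA, h.hB, h.mono, ?_, ?_⟩
  · exact h.prod.trans (mul_le_mul_of_nonneg_right hK hH)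
  · intro i
    exact (h.prod' i).trans (mul_le_mul_of_nonneg_right hK (sq_nonneg _))

lemma Cls.sc {n : ℕ} {K : Type*} [Field K] [CharZero K] {a : Fin (n + 1) → ℤ} {δ h : K[X]}
    (hc : Cls (GZ K a) δ h) {N : ℕ} (hN : 0 < N) : Cls (GZ K (SC.sc N a)) δ h := by
  obtain ⟨h1, h2, ⟨r, h3⟩, s, h4, h5⟩ := hc
  rw [GZ_sc]
  refine ⟨h1, (isCoprime_mul_unit_left_right (isUnit_sc hN) _ _).2 h2, ⟨C (N : K) * r, ?_⟩, s,
    (isCoprime_mul_unit_left_right (isUnit_sc hN) _ _).2 h4, ((isUnit_sc hN).mul_left_dvd).2 h5⟩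
  have e : C ((N : K) ^ 2) * GZ K a - (C (N : K) * r) ^ 2 = C ((N : K) ^ 2) * (GZ K a - r ^ 2) := by
    rw [C_pow]
    ring
  rw [e]
  exact Dvd.dvd.mul_left h3 _

lemma irr_sc {n : ℕ} {a : Fin (n + 1) → ℤ} (hF : Irreducible (GZ ℚ a)) {N : ℕ} (hN : 0 < N) :
    Irreducible (GZ ℚ (SC.sc N a)) := by
  rw [GZ_sc]
  exact (irreducible_isUnit_mul (isUnit_sc hN)).2 hF

lemma coprime_sc {n : ℕ} {a : Fin (n + 1) → ℤ} {δ : ℚ[X]} (hδ : IsCoprime δ (GZ ℚ a)) {N : ℕ}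
    (hN : 0 < N) : IsCoprime δ (GZ ℚ (SC.sc N a)) := by
  rw [GZ_sc]
  exact (isCoprime_mul_unit_left_right (isUnit_sc hN) _ _).2 hδ

lemma sc_ne {n : ℕ} {a : Fin (n + 1) → ℤ} (h0 : a 0 ≠ 0) {N : ℕ} (hN : 0 < N) :
    SC.sc N a 0 ≠ 0 := by
  unfold SC.sc
  have : (0 : ℤ) < (N : ℤ) ^ 2 := by positivity
  exact mul_ne_zero this.ne' h0

lemma sc_bound {n : ℕ} {a : Fin (n + 1) → ℤ} {H : ℕ} (ha : ∀ i, |a i| ≤ (H : ℤ)) (N : ℕ)
    (i : Fin (n + 1)) : |((SC.sc N a i : ℤ) : ℝ)| ≤ (N : ℝ) ^ 2 * H := by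
  unfold SC.sc
  push_cast
  rw [abs_mul, abs_of_nonneg (by positivity : (0 : ℝ) ≤ (N : ℝ) ^ 2)]
  have : |(a i : ℝ)| ≤ H := by exact_mod_cast ha i
  exact mul_le_mul_of_nonneg_left this (by positivity)

/-- The reduced pair of one polynomial. -/
lemma one_pair {n : ℕ} (hn : 4 ≤ n) (he : Even n) {K : ℝ}
    (hred : ∀ a : Fin (n + 1) → ℤ, a 0 ≠ 0 → Irreducible (GZ ℚ a) → ∀ H : ℝ,
      (∀ i, |(a i : ℝ)| ≤ H) → ∀ δ : ℚ[X], IsCoprime δ (GZ ℚ a) →
      ∀ A₀ B₀ : Matrix (Fin n) (Fin n) ℤ, BF.IsPair a δ A₀ B₀ →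
      A₀.det = (-1) ^ (n / 2) * a 0 →
      ∃ (A B : Matrix (Fin n) (Fin n) ℤ) (t : Fin n → ℝ), BF.RPair K H a A B t ∧
        BF.IsPair a δ A B ∧ A.det = (-1) ^ (n / 2) * a 0)
    (P : ℕ) (hP : 2 ≤ P) (a : Fin (n + 1) → ℤ) (ha : Nice P a) (H : ℕ)
    (hH : ∀ i, |a i| ≤ (H : ℤ)) (δ : ℚ[X]) (hδ : IsCoprime δ (GZ ℚ a))
    (hloc : ∀ (p : ℕ) [Fact p.Prime], p ≠ 2 →
      ∃ h : ℚ_[p][X], Prim p h ∧ Cls (GZ ℚ_[p] a) (δ.map (algebraMap ℚ ℚ_[p])) h) :
    ∃ N : ℕ, 0 < N ∧ N ≤ P.factorial ^ (2 * n) ∧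
      ∃ (A B : Matrix (Fin n) (Fin n) ℤ) (t : Fin n → ℝ),
        BF.RPair K ((N : ℝ) ^ 2 * H) (SC.sc N a) A B t ∧ BF.IsPair (SC.sc N a) δ A B ∧
          A.det = (-1) ^ (n / 2) * SC.sc N a 0 := by
  obtain ⟨h0, -, hF, hl, h2, h3⟩ := ha
  obtain ⟨A₀, B₀, N, hN, hNM, hpair, hdet⟩ := exists_pair hn he P hP a h0 hl h2 h3 δ hδ hloc
  obtain ⟨A, B, t, h4, h5, h6⟩ := hred (SC.sc N a) (sc_ne h0 hN) (irr_sc hF hN)
    ((N : ℝ) ^ 2 * H) (sc_bound hH N) δ (coprime_sc hδ hN) A₀ B₀ (IsPair.sc hpair hN) hdet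
  exact ⟨N, hN, hNM, A, B, t, h4, h5, h6⟩

theorem oddSel_small (n m : ℕ) (hn : 4 ≤ n) (he : Even n) (hm : 4 ≤ m) (hem : Even m) (ε : ℝ)
    (hε : 0 < ε) :
    ∃ H₀ : ℕ, ∀ H : ℕ, H₀ ≤ H →
      (cnt n m (fun a b => OddSel a b) H : ℝ) ≤ ε * H ^ (n + m + 2) := by
  obtain ⟨K₁, hK₁, hred₁⟩ := red_of_pair hn he
  obtain ⟨K₂, hK₂, hred₂⟩ := red_of_pair hm hem
  obtain ⟨K, hK⟩ : ∃ K, K = max K₁ K₂ := ⟨_, rfl⟩
  have hK1 : 1 ≤ K := by rw [hK]; exact hK₁.trans (le_max_left _ _)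
  have hKK₁ : K₁ ≤ K := by rw [hK]; exact le_max_left _ _
  have hKK₂ : K₂ ≤ K := by rw [hK]; exact le_max_right _ _
  obtain ⟨P₁, R₁, H₁, hP₁, hR₁, h1⟩ := exc_small n hn he K hK1 (ε / 3 / 3 ^ (m + 1))
    (by positivity)
  obtain ⟨P₂, R₂, H₂, hP₂, hR₂, h2⟩ := exc_small m hm hem K hK1 (ε / 3 / 3 ^ (n + 1))
    (by positivity)
  obtain ⟨R, hR⟩ : ∃ R, R = max R₁ R₂ := ⟨_, rfl⟩
  have hR1 : R₁ ≤ R := by rw [hR]; exact le_max_left _ _
  have hR2 : R₂ ≤ R := by rw [hR]; exact le_max_right _ _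
  obtain ⟨M, hM⟩ : ∃ M : ℕ, M = P₁.factorial ^ (2 * n) := ⟨_, rfl⟩
  obtain ⟨M', hM'⟩ : ∃ M' : ℕ, M' = P₂.factorial ^ (2 * m) := ⟨_, rfl⟩
  have hM1 : 1 ≤ M := by
    rw [hM]
    exact Nat.one_le_pow _ _ P₁.factorial_pos
  have hM1' : 1 ≤ M' := by
    rw [hM']
    exact Nat.one_le_pow _ _ P₂.factorial_pos
  have hMr : (1 : ℝ) ≤ M := by exact_mod_cast hM1
  have hMr' : (1 : ℝ) ≤ M' := by exact_mod_cast hM1'
  obtain ⟨ε', hε'⟩ : ∃ ε' : ℝ,
      ε' = ε / 3 / (M * M' * (((M : ℝ) ^ 2) ^ (n + 1) * ((M' : ℝ) ^ 2) ^ (m + 1))) := ⟨_, rfl⟩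
  have hε'0 : 0 < ε' := by rw [hε']; positivity
  obtain ⟨H₃, h3⟩ := large_t hn he hm hem K R hK1 (hR₁.trans hR1) ε' hε'0
  refine ⟨H₁ + H₂ + ⌈|H₃|⌉₊ + 1, ?_⟩
  intro H hH
  have hH1 : 1 ≤ H := by omega
  have hHr : (1 : ℝ) ≤ H := by exact_mod_cast hH1
  have g1 := h1 R hR1 H (by omega)
  have g2 := h2 R hR2 H (by omega)
  rw [← hM] at g1
  rw [← hM'] at g2
  have hbig : ∀ N : ℕ, 0 < N → H₃ ≤ (N : ℝ) ^ 2 * H := by
    intro N hN
    have hx : ⌈|H₃|⌉₊ ≤ H := by omega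
    have e1 : |H₃| ≤ ⌈|H₃|⌉₊ := Nat.le_ceil _
    have e2 : ((⌈|H₃|⌉₊ : ℕ) : ℝ) ≤ H := by exact_mod_cast hx
    have e3 : (1 : ℝ) ≤ (N : ℝ) ^ 2 := one_le_pow₀ (by exact_mod_cast hN)
    have e4 : (H : ℝ) ≤ (N : ℝ) ^ 2 * H := by
      calc (H : ℝ) = 1 * H := by ring
        _ ≤ (N : ℝ) ^ 2 * H := mul_le_mul_of_nonneg_right e3 (by linarith)
    linarith [le_abs_self H₃]
  set X1 : (Fin (n + 1) → ℤ) → Prop := fun a => ¬ Nice P₁ a ∨ Cusp K R H M a with hX1
  set X2 : (Fin (m + 1) → ℤ) → Prop := fun b => ¬ Nice P₂ b ∨ Cusp K R H M' b with hX2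
  set Q : ℕ → ℕ → (Fin (n + 1) → ℤ) → (Fin (m + 1) → ℤ) → Prop := fun N N' a b =>
    ∃ (A B : Matrix (Fin n) (Fin n) ℤ) (t : Fin n → ℝ)
      (A' B' : Matrix (Fin m) (Fin m) ℤ) (t' : Fin m → ℝ),
      BF.RPair K ((N : ℝ) ^ 2 * H) a A B t ∧ BF.RPair K ((N' : ℝ) ^ 2 * H) b A' B' t' ∧
      (∀ i j, t j ≤ R * t i) ∧ (∀ i j, t' j ≤ R * t' i) ∧ ∀ l : ℕ, l ≠ 2 → ¬ Bad l A B A' B'
    with hQ
  set X3 : (Fin (n + 1) → ℤ) → (Fin (m + 1) → ℤ) → Prop := fun a b =>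
    ∃ N N', 0 < N ∧ N ≤ M ∧ 0 < N' ∧ N' ≤ M' ∧ Q N N' (SC.sc N a) (SC.sc N' b) with hX3
  have hle : cnt n m (fun a b => OddSel a b) H ≤ cnt n m (fun a _ => X1 a) H +
      (cnt n m (fun _ b => X2 b) H + cnt n m X3 H) := by
    refine le_trans (cnt_mono (Q := fun a b => X1 a ∨ X2 b ∨ X3 a b) H ?_) ?_
    · intro a b ha hb h
      by_cases q1 : X1 a
      · exact Or.inl q1
      by_cases q2 : X2 b
      · exact Or.inr (Or.inl q2)
      right; right
      rw [hX1] at q1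
      rw [hX2] at q2
      simp only [not_or, not_not] at q1 q2
      obtain ⟨hna, hca⟩ := q1
      obtain ⟨hnb, hcb⟩ := q2
      obtain ⟨δ, ε₀, hδ, hε₀, hloc⟩ := h
      have hdloc : ∀ (p : ℕ) [Fact p.Prime], p ≠ 2 → DLoc (GZ ℚ_[p] a) (GZ ℚ_[p] b)
          (δ.map (algebraMap ℚ ℚ_[p])) (ε₀.map (algebraMap ℚ ℚ_[p])) :=
        fun p _ hp => dloc_of_image a b δ ε₀ ℚ_[p] (hloc p hp)
      obtain ⟨κ, hκ, huloc⟩ := exists_scale (by omega) a b hna.1 hna.2.2.1 δ ε₀ hδ hdloc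
      have hκu : IsUnit (C κ : ℚ[X]) := isUnit_C.2 (isUnit_iff_ne_zero.2 hκ)
      have hδ' : IsCoprime (C κ * δ) (GZ ℚ a) := (isCoprime_mul_unit_left_left hκu _ _).2 hδ
      have hε' : IsCoprime (C κ * ε₀) (GZ ℚ b) := (isCoprime_mul_unit_left_left hκu _ _).2 hε₀
      obtain ⟨N, hN, hNM, A, B, t, r1, r2, r3⟩ := one_pair hn he hred₁ P₁ hP₁ a hna H ha
        (C κ * δ) hδ' (fun p _ hp => by
          obtain ⟨h, e1, e2, -⟩ := huloc p hp
          exact ⟨h, e1, e2⟩)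
      obtain ⟨N', hN', hNM', A', B', t', r1', r2', r3'⟩ := one_pair hm hem hred₂ P₂ hP₂ b hnb H hb
        (C κ * ε₀) hε' (fun p _ hp => by
          obtain ⟨h, e1, -, e2⟩ := huloc p hp
          exact ⟨h, e1, e2⟩)
      have hHN : ∀ N : ℕ, (0 : ℝ) ≤ (N : ℝ) ^ 2 * H := fun N => by positivity
      have r4 := RPair.mono_K r1 hKK₁ (hHN N)
      have r4' := RPair.mono_K r1' hKK₂ (hHN N')
      refine ⟨N, N', hN, by rw [hM]; exact hNM, hN', by rw [hM']; exact hNM', A, B, t, A', B', t',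
        r4, r4', ?_, ?_, ?_⟩
      · by_contra hcon
        push Not at hcon
        exact hca ⟨N, hN, by rw [hM]; exact hNM, A, B, t, r4, hcon⟩
      · by_contra hcon
        push Not at hcon
        exact hcb ⟨N', hN', by rw [hM']; exact hNM', A', B', t', r4', hcon⟩
      · intro l h2 hbad
        obtain ⟨_, _, _, _, _, _, hl', _⟩ := id hbad
        have := hl'
        refine lcond hn he hm hem (SC.sc N a) (SC.sc N' b) (sc_ne hna.1 hN) (sc_ne hnb.1 hN')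
          (C κ * δ) (C κ * ε₀) (coprime_sc hδ' hN) (coprime_sc hε' hN') l h2 ?_ A B A' B' r2 r3
          r2' r3' hbad
        obtain ⟨h, -, e1, e2⟩ := huloc l h2
        refine ⟨h, 1, one_ne_zero, ?_, ?_⟩
        · rw [C_1, one_mul]
          exact e1.sc hN
        · rw [C_1, one_mul]
          exact e2.sc hN'
    · refine (cnt_or _ _ H).trans ?_
      gcongr
      exact cnt_or _ _ H
  have hH3 : 2 * (H : ℝ) + 1 ≤ 3 * H := by linarith
  have k1 : (cnt n m (fun a _ => X1 a) H : ℝ) ≤ ε / 3 * H ^ (n + m + 2) := by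
    rw [cnt_fst]
    calc (BF.cnt n X1 H : ℝ) * (2 * (H : ℝ) + 1) ^ (m + 1)
        ≤ (ε / 3 / 3 ^ (m + 1) * H ^ (n + 1)) * (3 * H) ^ (m + 1) := by gcongr
      _ = ε / 3 * H ^ (n + m + 2) := by
          rw [mul_pow, show n + m + 2 = (n + 1) + (m + 1) by ring, pow_add (H : ℝ) (n + 1) (m + 1)]
          field_simp
  have k2 : (cnt n m (fun _ b => X2 b) H : ℝ) ≤ ε / 3 * H ^ (n + m + 2) := by
    rw [cnt_snd]
    calc (2 * (H : ℝ) + 1) ^ (n + 1) * (BF.cnt m X2 H : ℝ)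
        ≤ (3 * H) ^ (n + 1) * (ε / 3 / 3 ^ (n + 1) * H ^ (m + 1)) := by gcongr
      _ = ε / 3 * H ^ (n + m + 2) := by
          rw [mul_pow, show n + m + 2 = (n + 1) + (m + 1) by ring, pow_add (H : ℝ) (n + 1) (m + 1)]
          field_simp
  have k3 : (cnt n m X3 H : ℝ) ≤ ε / 3 * H ^ (n + m + 2) := by
    have e1 := cnt_exists (fun N N' a b => Q N N' (SC.sc (n := n) N a) (SC.sc (n := m) N' b))
      M M' H
    have e2 : ∀ N ∈ Icc 1 M, ∀ N' ∈ Icc 1 M',
        (cnt n m (fun a b => Q N N' (SC.sc (n := n) N a) (SC.sc (n := m) N' b)) H : ℝ) ≤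
        ε' * ((((M : ℝ) ^ 2) * H) ^ (n + 1) * (((M' : ℝ) ^ 2) * H) ^ (m + 1)) := by
      intro N hN N' hN'
      rw [mem_Icc] at hN hN'
      have hN0 : 0 < N := by omega
      have hN0' : 0 < N' := by omega
      refine (cnt_scale _ (Q N N') N N' hN0 hN0' H _ (fun a b hab => hab) (fun T hT =>
        h3 ((N : ℝ) ^ 2 * H) ((N' : ℝ) ^ 2 * H) (hbig N hN0) (hbig N' hN0') T hT)).trans ?_
      have e3 : (N : ℝ) ≤ M := by exact_mod_cast hN.2
      have e3' : (N' : ℝ) ≤ M' := by exact_mod_cast hN'.2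
      gcongr
    calc (cnt n m X3 H : ℝ)
        ≤ ((∑ N ∈ Icc 1 M, ∑ N' ∈ Icc 1 M', cnt n m
            (fun a b => Q N N' (SC.sc (n := n) N a) (SC.sc (n := m) N' b)) H : ℕ) : ℝ) := by
          exact_mod_cast e1
      _ = ∑ N ∈ Icc 1 M, ∑ N' ∈ Icc 1 M', (cnt n m
            (fun a b => Q N N' (SC.sc (n := n) N a) (SC.sc (n := m) N' b)) H : ℝ) := by
          push_cast; rfl
      _ ≤ ∑ _N ∈ Icc 1 M, ∑ _N' ∈ Icc 1 M',
            ε' * ((((M : ℝ) ^ 2) * H) ^ (n + 1) * (((M' : ℝ) ^ 2) * H) ^ (m + 1)) :=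
          sum_le_sum fun N hN => sum_le_sum fun N' hN' => e2 N hN N' hN'
      _ = ε / 3 * H ^ (n + m + 2) := by
          rw [sum_const, sum_const, Nat.card_Icc, Nat.card_Icc, Nat.add_sub_cancel,
            Nat.add_sub_cancel, nsmul_eq_mul, nsmul_eq_mul, hε', mul_pow, mul_pow,
            show n + m + 2 = (n + 1) + (m + 1) by ring, pow_add (H : ℝ) (n + 1) (m + 1)]
          field_simp
  calc ((cnt n m (fun a b => OddSel a b) H : ℕ) : ℝ)
      ≤ ((cnt n m (fun a _ => X1 a) H + (cnt n m (fun _ b => X2 b) H + cnt n m X3 H) : ℕ) : ℝ) := by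
        exact_mod_cast hle
    _ ≤ ε * H ^ (n + m + 2) := by
        push_cast
        linarith

end Stoll308.DQ
end

section
set_option autoImplicit false

/-!
The upper bound.
-/

namespace Stoll308.FQ

open Polynomial Finset Matrix BG BF SC DQ

lemma Dense.of_gt {S S' : Set ℕ} (h : Dense S) (M : ℕ) (hS : ∀ l ∈ S, M < l → l ∈ S') :
    Dense S' := by
  classical
  intro T
  obtain ⟨z, hz⟩ := h (T + ∑ l ∈ Icc 1 M, (1 : ℝ) / l)
  refine ⟨z, ?_⟩
  have h1 : (Icc 5 z).filter (fun l => l.Prime ∧ l ∈ S) ⊆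
      (Icc 5 z).filter (fun l => l.Prime ∧ l ∈ S') ∪ Icc 1 M := by
    intro l hl
    rw [mem_filter] at hl
    by_cases hM : M < l
    · exact mem_union_left _ (mem_filter.2 ⟨hl.1, hl.2.1, hS l hl.2.2 hM⟩)
    · refine mem_union_right _ (mem_Icc.2 ?_)
      have := hl.2.1.pos
      omega
  have h2 : ∑ l ∈ (Icc 5 z).filter (fun l => l.Prime ∧ l ∈ S), (1 : ℝ) / l ≤
      ∑ l ∈ (Icc 5 z).filter (fun l => l.Prime ∧ l ∈ S'), (1 : ℝ) / l +
        ∑ l ∈ Icc 1 M, (1 : ℝ) / l := by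
    refine (sum_le_sum_of_subset_of_nonneg h1 fun l _ _ => by positivity).trans ?_
    have h3 := sum_union_inter (s₁ := (Icc 5 z).filter
      (fun l => l.Prime ∧ l ∈ S')) (s₂ := Icc 1 M)
      (f := fun l : ℕ => (1 : ℝ) / l)
    have h4 : (0 : ℝ) ≤ ∑ l ∈ (Icc 5 z).filter
      (fun l => l.Prime ∧ l ∈ S') ∩ Icc 1 M, (1 : ℝ) / l :=
      sum_nonneg fun l _ => by positivity
    linarith
  linarith

/-- The signs for a pair of the fixed polynomial. -/
lemma exists_sign {n m : ℕ} (he : Even n) (hem : Even m) (b : Fin (m + 1) → ℤ) (M N : ℕ)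
    (hN : 0 < N) (hNM : N ≤ M) (r : ℕ → ℤ) (A' B' : Matrix (Fin m) (Fin m) ℤ) (hA : A'.IsSymm)
    (hB : B'.IsSymm) (h : HasChar (sc N b) A' B') :
    ∃ s : ℕ → ℤ, (∀ l, s l = 1 ∨ s l = -1) ∧ ∀ l : ℕ, l.Prime → 5 ≤ l → M < l → Root b l (r l) →
      ∀ A B : Matrix (Fin n) (Fin n) ℤ, BadZ (s l) l A (B - r l • A) → DQ.Bad l A B A' B' := by
  have key : ∀ l : ℕ, ∃ s : ℤ, (s = 1 ∨ s = -1) ∧ (l.Prime → 5 ≤ l → M < l → Root b l (r l) →
      ∀ A B : Matrix (Fin n) (Fin n) ℤ, BadZ s l A (B - r l • A) → DQ.Bad l A B A' B') := by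
    intro l
    by_cases hl : l.Prime ∧ 5 ≤ l ∧ M < l ∧ Root b l (r l)
    · obtain ⟨hp, h5, hMl, hr1, hr2⟩ := hl
      have : Fact l.Prime := ⟨hp⟩
      obtain ⟨e1, e2⟩ := char_at hem h (r l)
      have e3 : (GZ ℤ (sc N b)).eval (r l) = (N : ℤ) ^ 2 * (GZ ℤ b).eval (r l) := by
        rw [GZ_sc, eval_mul, eval_C]
      have e4 : (derivative (GZ ℤ (sc N b))).eval (r l) =
          (N : ℤ) ^ 2 * (derivative (GZ ℤ b)).eval (r l) := by
        rw [GZ_sc, derivative_mul, derivative_C, zero_mul, zero_add, eval_mul, eval_C]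
      have hlN : ¬ (l : ℤ) ∣ (N : ℤ) ^ 2 := by
        intro h
        have h1 := (Nat.prime_iff_prime_int.1 hp).dvd_of_dvd_pow h
        rw [Int.natCast_dvd_natCast] at h1
        have := Nat.le_of_dvd hN h1
        omega
      obtain ⟨s, hs, h6⟩ := bad_of (n := n) he hem l (by omega) A' B' hA hB (r l)
        (by
          rw [e1, e3]
          exact Dvd.dvd.mul_left (Dvd.dvd.mul_left hr1 _) _)
        (by
          rw [e2, e4]
          intro h
          rw [Int.dvd_neg] at h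
          have hpr := Nat.prime_iff_prime_int.1 hp
          rcases hpr.dvd_or_dvd h with h | h
          · have h1 := hpr.dvd_of_dvd_pow h
            rw [Int.dvd_neg] at h1
            exact hpr.not_isUnit (isUnit_of_dvd_one h1)
          · rcases hpr.dvd_or_dvd h with h | h
            · exact hlN h
            · exact hr2 h)
      exact ⟨s, hs, fun _ _ _ _ => h6⟩
    · refine ⟨1, Or.inl rfl, fun h1 h2 h3 h4 => absurd ⟨h1, h2, h3, h4⟩ hl⟩
  choose s hs1 hs2 using key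
  exact ⟨s, hs1, hs2⟩

theorem oddSel_small (n m : ℕ) (hn : 4 ≤ n) (he : Even n) (hm : 2 ≤ m) (hem : Even m)
    (b : Fin (m + 1) → ℤ) (h0b : b 0 ≠ 0) (hsqf : Squarefree (GZ ℚ b)) (ε : ℝ) (hε : 0 < ε) :
    ∃ H₀ : ℕ, ∀ H : ℕ, H₀ ≤ H →
      (BF.cnt n (fun a => DQ.OddSel a b) H : ℝ) ≤ ε * H ^ (n + 1) := by
  classical
  obtain ⟨K, hK1, hred⟩ := DQ.red_of_pair hn he
  obtain ⟨P, R, H₁, hP, hR, h1⟩ := exc_small n hn he K hK1 (ε / 2) (by positivity)
  obtain ⟨M', F, hF⟩ := fin_pairs hm hem b h0b hsqf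
  obtain ⟨M, hM⟩ : ∃ M : ℕ, M = P.factorial ^ (2 * n) := ⟨_, rfl⟩
  have hM1 : 1 ≤ M := by
    rw [hM]
    exact Nat.one_le_pow _ _ P.factorial_pos
  have hMr : (1 : ℝ) ≤ M := by exact_mod_cast hM1
  -- the primes
  obtain ⟨S, hSdef⟩ : ∃ S : Set ℕ, S = {l | l ∈ {l | ∃ r : ℤ, Root b l r} ∧ M' < l} := ⟨_, rfl⟩
  have hS : Dense S := by
    refine (dense_root (by omega) b h0b hsqf).of_gt M' fun l hl hM => ?_
    rw [hSdef]
    exact ⟨hl, hM⟩
  have hr : ∀ l : ℕ, ∃ r : ℤ, l ∈ S → Root b l r := by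
    intro l
    by_cases hl : l ∈ S
    · obtain ⟨r, hr⟩ := (hSdef ▸ hl : l ∈ {l | l ∈ {l | ∃ r : ℤ, Root b l r} ∧ M' < l}).1
      exact ⟨r, fun _ => hr⟩
    · exact ⟨0, fun h => absurd h hl⟩
  choose r hr using hr
  have hSM : ∀ l ∈ S, M' < l := by
    intro l hl
    rw [hSdef] at hl
    exact hl.2
  -- the signs
  have hsgn : ∀ x : Matrix (Fin m) (Fin m) ℤ × Matrix (Fin m) (Fin m) ℤ,
      ∃ s : ℕ → ℤ, (∀ l, s l = 1 ∨ s l = -1) ∧
        ((∃ N : ℕ, 0 < N ∧ N ≤ M' ∧ x.1.IsSymm ∧ x.2.IsSymm ∧ HasChar (sc N b) x.1 x.2) →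
          ∀ l : ℕ, l.Prime → 5 ≤ l → l ∈ S → ∀ A B : Matrix (Fin n) (Fin n) ℤ,
            BadZ (s l) l A (B - r l • A) → DQ.Bad l A B x.1 x.2) := by
    intro x
    by_cases hx : ∃ N : ℕ, 0 < N ∧ N ≤ M' ∧ x.1.IsSymm ∧ x.2.IsSymm ∧ HasChar (sc N b) x.1 x.2
    · obtain ⟨N, hN, hNM, hA, hB, hc⟩ := hx
      obtain ⟨s, hs1, hs2⟩ := exists_sign (n := n) he hem b M' N hN hNM r x.1 x.2 hA hB hc
      exact ⟨s, hs1, fun _ l hl h5 hlS => hs2 l hl h5 (hSM l hlS) (hr l hlS)⟩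
    · exact ⟨fun _ => 1, fun _ => Or.inl rfl, fun h => absurd h hx⟩
  choose s hs1 hs2 using hsgn
  obtain ⟨ε', hε'⟩ : ∃ ε' : ℝ, ε' = ε / 2 / (M * ((F.card + 1) * ((M : ℝ) ^ 2) ^ (n + 1))) :=
    ⟨_, rfl⟩
  have hε'0 : 0 < ε' := by rw [hε']; positivity
  have hlt := fun x => large_t hn he K R hK1 hR S hS r (s x) (hs1 x) ε' hε'0
  choose Hx hHx using hlt
  obtain ⟨H₃, hH₃⟩ : ∃ H₃ : ℝ, ∀ x ∈ F, Hx x ≤ H₃ := by
    refine ⟨∑ x ∈ F, |Hx x|, fun x hx => (le_abs_self _).trans ?_⟩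
    exact single_le_sum (f := fun x => |Hx x|) (fun y _ => abs_nonneg _) hx
  refine ⟨H₁ + ⌈|H₃|⌉₊ + 1, ?_⟩
  intro H hH
  have hH1 : 1 ≤ H := by omega
  have hHr : (1 : ℝ) ≤ H := by exact_mod_cast hH1
  have g1 := h1 R le_rfl H (by omega)
  rw [← hM] at g1
  have hbig : ∀ N : ℕ, 0 < N → H₃ ≤ (N : ℝ) ^ 2 * H := by
    intro N hN
    have hx : ⌈|H₃|⌉₊ ≤ H := by omega
    have e1 : |H₃| ≤ ⌈|H₃|⌉₊ := Nat.le_ceil _
    have e2 : ((⌈|H₃|⌉₊ : ℕ) : ℝ) ≤ H := by exact_mod_cast hx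
    have e3 : (1 : ℝ) ≤ (N : ℝ) ^ 2 := one_le_pow₀ (by exact_mod_cast hN)
    have e4 : (H : ℝ) ≤ (N : ℝ) ^ 2 * H := by
      calc (H : ℝ) = 1 * H := by ring
        _ ≤ (N : ℝ) ^ 2 * H := mul_le_mul_of_nonneg_right e3 (by linarith)
    linarith [le_abs_self H₃]
  set X1 : (Fin (n + 1) → ℤ) → Prop := fun a => ¬ Nice P a ∨ Cusp K R H M a with hX1
  set Q : ℕ → (Matrix (Fin m) (Fin m) ℤ × Matrix (Fin m) (Fin m) ℤ) → (Fin (n + 1) → ℤ) → Prop :=
    fun N x a => ∃ (A B : Matrix (Fin n) (Fin n) ℤ) (t : Fin n → ℝ),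
      BF.RPair K ((N : ℝ) ^ 2 * H) a A B t ∧ (∀ i j, t j ≤ R * t i) ∧
        ∀ l : ℕ, l.Prime → 5 ≤ l → l ∈ S → ¬ BadZ (s x l) l A (B - r l • A) with hQ
  set X3 : (Fin (n + 1) → ℤ) → Prop := fun a =>
    ∃ N, 0 < N ∧ N ≤ M ∧ ∃ x ∈ F, Q N x (SC.sc N a) with hX3
  have hle : BF.cnt n (fun a => DQ.OddSel a b) H ≤ BF.cnt n X1 H + BF.cnt n X3 H := by
    refine le_trans (BF.cnt_mono (Q := fun a => X1 a ∨ X3 a) H ?_) (BF.cnt_or _ _ H)
    intro a ha h
    by_cases q1 : X1 a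
    · exact Or.inl q1
    right
    rw [hX1] at q1
    simp only [not_or, not_not] at q1
    obtain ⟨hna, hca⟩ := q1
    obtain ⟨δ, ε₀, hδ, hε₀, hloc⟩ := h
    have hdloc : ∀ (p : ℕ) [Fact p.Prime], p ≠ 2 → DLoc (GZ ℚ_[p] a) (GZ ℚ_[p] b)
        (δ.map (algebraMap ℚ ℚ_[p])) (ε₀.map (algebraMap ℚ ℚ_[p])) :=
      fun p _ hp => dloc_of_image a b δ ε₀ ℚ_[p] (hloc p hp)
    obtain ⟨κ, hκ, huloc⟩ := exists_scale (by omega) a b hna.1 hna.2.2.1 δ ε₀ hδ hdloc
    have hκu : IsUnit (C κ : ℚ[X]) := isUnit_C.2 (isUnit_iff_ne_zero.2 hκ)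
    have hδ' : IsCoprime (C κ * δ) (GZ ℚ a) := (isCoprime_mul_unit_left_left hκu _ _).2 hδ
    have hε' : IsCoprime (C κ * ε₀) (GZ ℚ b) := (isCoprime_mul_unit_left_left hκu _ _).2 hε₀
    obtain ⟨N, hN, hNM, A, B, t, r1, r2, r3⟩ := one_pair hn he hred P hP a hna H
      (fun i => ha i) (C κ * δ) hδ' (fun p _ hp => by
        obtain ⟨h, e1, e2, -⟩ := huloc p hp
        exact ⟨h, e1, e2⟩)
    obtain ⟨N', hN', hNM', x, hxF, r2', r3'⟩ := hF (C κ * ε₀) hε' (fun p _ hp => by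
        obtain ⟨h, e1, -, e2⟩ := huloc p hp
        exact ⟨h, e1, e2⟩)
    have h0' : SC.sc N' b 0 ≠ 0 := sc_ne h0b hN'
    have hchar := r2'.hasChar h0' r3'
    refine ⟨N, hN, by rw [hM]; exact hNM, x, hxF, A, B, t, r1, ?_, ?_⟩
    · by_contra hcon
      push Not at hcon
      exact hca ⟨N, hN, by rw [hM]; exact hNM, A, B, t, r1, hcon⟩
    · intro l hl h5 hlS hbad
      have hbad' := hs2 x ⟨N', hN', hNM', r2'.symmA, r2'.symmB, hchar⟩ l hl h5 hlS A B hbad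
      have : Fact l.Prime := ⟨hl⟩
      have h2 : l ≠ 2 := by omega
      refine lcond hn he hm hem (SC.sc N a) (SC.sc N' b) (sc_ne hna.1 hN) h0'
        (C κ * δ) (C κ * ε₀) (coprime_sc hδ' hN) (coprime_sc hε' hN') l h2 ?_ A B x.1 x.2 r2 r3
        r2' r3' hbad'
      obtain ⟨h, -, e1, e2⟩ := huloc l h2
      refine ⟨h, 1, one_ne_zero, ?_, ?_⟩
      · rw [C_1, one_mul]
        exact e1.sc hN
      · rw [C_1, one_mul]
        exact e2.sc hN'
  have k3 : (BF.cnt n X3 H : ℝ) ≤ ε / 2 * H ^ (n + 1) := by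
    have e1 := SC.cnt_exists (fun N a => ∃ x ∈ F, Q N x (SC.sc (n := n) N a)) M H
    have e2 : ∀ N ∈ Icc 1 M,
        (BF.cnt n (fun a => ∃ x ∈ F, Q N x (SC.sc (n := n) N a)) H : ℝ) ≤
        (F.card + 1) * (ε' * (((M : ℝ) ^ 2) * H) ^ (n + 1)) := by
      intro N hN
      rw [mem_Icc] at hN
      have hN0 : 0 < N := by omega
      refine SC.cnt_scale _ (fun a => ∃ x ∈ F, Q N x a) N hN0 H _ (fun a hab => hab) ?_
      intro T hT
      have e3 : (N : ℝ) ≤ M := by exact_mod_cast hN.2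
      have e4 : ∀ x ∈ F, ((T.filter fun a => Q N x a).card : ℝ) ≤
          ε' * (((M : ℝ) ^ 2) * H) ^ (n + 1) := by
        intro x hx
        refine (hHx x ((N : ℝ) ^ 2 * H) ((hH₃ x hx).trans (hbig N hN0)) _ ?_).trans ?_
        · intro a ha
          exact (mem_filter.1 ha).2
        · gcongr
      have e5 : T ⊆ F.biUnion fun x => T.filter fun a => Q N x a := by
        intro a ha
        obtain ⟨x, hx, hxa⟩ := hT a ha
        rw [mem_biUnion]
        exact ⟨x, hx, mem_filter.2 ⟨ha, hxa⟩⟩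
      have e6 := (card_le_card e5).trans card_biUnion_le
      calc (T.card : ℝ) ≤ ∑ x ∈ F, ((T.filter fun a => Q N x a).card : ℝ) := by
            exact_mod_cast e6
        _ ≤ ∑ _x ∈ F, ε' * (((M : ℝ) ^ 2) * H) ^ (n + 1) := sum_le_sum e4
        _ = F.card * (ε' * (((M : ℝ) ^ 2) * H) ^ (n + 1)) := by
            rw [sum_const, nsmul_eq_mul]
        _ ≤ (F.card + 1) * (ε' * (((M : ℝ) ^ 2) * H) ^ (n + 1)) := by
            gcongr
            linarith
    calc (BF.cnt n X3 H : ℝ)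
        ≤ ((∑ N ∈ Icc 1 M, BF.cnt n (fun a => ∃ x ∈ F, Q N x (SC.sc (n := n) N a)) H : ℕ) : ℝ) := by
          exact_mod_cast e1
      _ = ∑ N ∈ Icc 1 M, (BF.cnt n (fun a => ∃ x ∈ F, Q N x (SC.sc (n := n) N a)) H : ℝ) := by
          push_cast; rfl
      _ ≤ ∑ _N ∈ Icc 1 M, (F.card + 1) * (ε' * (((M : ℝ) ^ 2) * H) ^ (n + 1)) :=
          sum_le_sum fun N hN => e2 N hN
      _ = ε / 2 * H ^ (n + 1) := by
          rw [sum_const, Nat.card_Icc, Nat.add_sub_cancel, nsmul_eq_mul, hε', mul_pow]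
          field_simp
  calc ((BF.cnt n (fun a => DQ.OddSel a b) H : ℕ) : ℝ)
      ≤ ((BF.cnt n X1 H + BF.cnt n X3 H : ℕ) : ℝ) := by
        exact_mod_cast hle
    _ ≤ ε * H ^ (n + 1) := by
        push_cast
        linarith

end Stoll308.FQ
end

section
set_option autoImplicit false

/-!
The theorem on the double covers of a fixed curve `w² = q(t)`.
-/

namespace Stoll308.FQ

open Polynomial Finset Matrix BG BF SC DQ

theorem oddField_small (n m : ℕ) (hn : 4 ≤ n) (he : Even n) (hm : 2 ≤ m) (hem : Even m)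
    (b : Fin (m + 1) → ℤ) (h0 : b 0 ≠ 0) (hsq : Squarefree (GZ ℚ b)) (ε : ℝ) (hε : 0 < ε) :
    ∃ H₀ : ℕ, ∀ H : ℕ, H₀ ≤ H →
      (BF.cnt n (fun a => DQ.OddField a b) H : ℝ) ≤ ε * H ^ (n + 1) := by
  obtain ⟨H₁, h1⟩ := oddSel_small n m hn he hm hem b h0 hsq (ε / 3) (by positivity)
  obtain ⟨H₂, h2⟩ := BF.reducible_small n (by omega) (ε / 3) (by positivity)
  obtain ⟨H₃, h3⟩ := zero_small (n := n) (by omega) b h0 hsq (ε / 3) (by positivity)
  refine ⟨H₁ + H₂ + H₃, fun H hH => ?_⟩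
  have g1 := h1 H (by omega)
  have g2 := h2 H (by omega)
  have g3 := h3 H (by omega)
  set P2 : (Fin (n + 1) → ℤ) → Prop := fun a => a 0 = 0 ∨ IsSquare (a 0) ∨
    ¬ Irreducible (BF.GZ ℚ a) with hP2
  set P3 : (Fin (n + 1) → ℤ) → Prop := fun a => ∃ (k : Type) (_ : Field k) (_ : Algebra ℚ k),
        Odd (Module.finrank ℚ k) ∧ ∃ t y : k, (GZ k b).eval t = 0 ∧ y ^ 2 = (GZ k a).eval t
    with hP3
  have hle : BF.cnt n (fun a => DQ.OddField a b) H ≤ BF.cnt n (fun a => DQ.OddSel a b) H +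
      (BF.cnt n P2 H + BF.cnt n P3 H) := by
    refine le_trans (BF.cnt_mono (Q := fun a => DQ.OddSel a b ∨ P2 a ∨ P3 a) H ?_) ?_
    · intro a _ h
      by_cases q2 : P2 a
      · exact Or.inr (Or.inl q2)
      by_cases q3 : P3 a
      · exact Or.inr (Or.inr q3)
      left
      rw [hP2] at q2
      simp only [not_or, not_not] at q2
      obtain ⟨h0', hsq', hF⟩ := q2
      obtain ⟨k, hk1, hk2, ho, h | h⟩ := h
      · refine oddSel_of_point (by omega) he a b h0' hsq' hF k ho ?_ h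
        rintro ⟨t, y, h4, h5⟩
        exact q3 ⟨k, hk1, hk2, ho, t, y, h4, h5⟩
      · exact oddSel_of_selOver a b k ho h
    · refine (BF.cnt_or _ _ H).trans ?_
      gcongr
      exact BF.cnt_or _ _ H
  calc ((BF.cnt n (fun a => DQ.OddField a b) H : ℕ) : ℝ)
      ≤ ((BF.cnt n (fun a => DQ.OddSel a b) H + (BF.cnt n P2 H + BF.cnt n P3 H) : ℕ) : ℝ) := by
        exact_mod_cast hle
    _ ≤ ε * H ^ (n + 1) := by
        push_cast
        linarith

theorem main (n m : ℕ) (hn : 4 ≤ n) (he : Even n) (hm : 2 ≤ m) (hem : Even m)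
    (b : Fin (m + 1) → ℤ) (h0 : b 0 ≠ 0) (hsq : Squarefree (GZ ℚ b)) (hloc : BaseELS b) :
    (∃ c₀ : ℝ, 0 < c₀ ∧ ∃ H₀ : ℕ, ∀ H : ℕ, H₀ ≤ H →
      c₀ * H ^ (n + 1) ≤ (BF.cnt n (fun a => DQ.ELS a b ∧ DQ.Smooth a b) H : ℝ)) ∧
    ∀ ε : ℝ, 0 < ε → ∃ H₀ : ℕ, ∀ H : ℕ, H₀ ≤ H →
      (BF.cnt n (fun a => DQ.OddField a b) H : ℝ) ≤ ε * H ^ (n + 1) := by
  refine ⟨?_, fun ε hε => oddField_small n m hn he hm hem b h0 hsq ε hε⟩
  obtain ⟨c, hc, H₁, h1⟩ := els_many n m hn he hm hem b h0 hsq hloc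
  obtain ⟨H₂, h2⟩ := smooth_small n m hn b h0 hsq (c / 2) (by positivity)
  refine ⟨c / 2, by positivity, H₁ + H₂, ?_⟩
  intro H hH
  have g1 := h1 H (by omega)
  have g2 := h2 H (by omega)
  have h3 : BF.cnt n (fun a => DQ.ELS a b) H ≤ BF.cnt n (fun a => DQ.ELS a b ∧ DQ.Smooth a b) H +
      BF.cnt n (fun a => ¬ DQ.Smooth a b) H := by
    refine le_trans (BF.cnt_mono (Q := fun a => (DQ.ELS a b ∧ DQ.Smooth a b) ∨
      ¬ DQ.Smooth a b) H ?_) (BF.cnt_or _ _ H)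
    intro a _ hb
    by_cases h : DQ.Smooth a b
    · exact Or.inl ⟨hb, h⟩
    · exact Or.inr h
  have h4 : (BF.cnt n (fun a => DQ.ELS a b) H : ℝ) ≤
      BF.cnt n (fun a => DQ.ELS a b ∧ DQ.Smooth a b) H +
        BF.cnt n (fun a => ¬ DQ.Smooth a b) H := by
    exact_mod_cast h3
  linarith

end Stoll308.FQ
end

section
set_option autoImplicit false

/-!
Local points: all the polynomials have nonzero square values.
-/

namespace Stoll308.EA

open Polynomial Finset BF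

/-- There is `t` such that all `g_i(t)` are nonzero squares. -/
def Full {s : ℕ} {n : Fin s → ℕ} (a : ∀ i, Fin (n i + 1) → ℤ) (K : Type*) [Field K] : Prop :=
  ∃ t : K, ∀ i, (GZ K (a i)).eval t ≠ 0 ∧ IsSquare ((GZ K (a i)).eval t)

/-- The product of the `g_i`, `i ∈ S`, is a constant times a square over `K`. -/
def SqS {s : ℕ} {n : Fin s → ℕ} (K : Type*) [Field K] (a : ∀ i, Fin (n i + 1) → ℤ)
    (S : Finset (Fin s)) : Prop :=
  ∃ (c : K) (u : K[X]), ∏ i ∈ S, GZ K (a i) = C c * u ^ 2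

lemma Full.pt {r s : ℕ} {n : Fin s → ℕ} {a : ∀ i, Fin (n i + 1) → ℤ} {K : Type*} [Field K]
    (h : Full a K) (R : Fin r → Finset (Fin s)) : ∃ t, Pt R a K t := by
  obtain ⟨t, ht⟩ := h
  refine ⟨t, fun i => (ht i).1, fun j => ?_⟩
  choose y hy using fun i => (ht i).2
  refine ⟨∏ i ∈ R j, y i, ?_⟩
  rw [← prod_mul_distrib]
  exact prod_congr rfl fun i _ => hy i

lemma full_lift {n : ℕ} {p : ℕ} [hp : Fact p.Prime] (hp2 : p ≠ 2) (a : Fin (n + 1) → ℤ)
    {x y : ZMod p} (u : ℤ_[p]) (hu : PadicInt.toZMod u = x) (hy : y ≠ 0)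
    (hxy : y ^ 2 = (GZ (ZMod p) a).eval x) :
    (GZ ℚ_[p] a).eval (u : ℚ_[p]) ≠ 0 ∧ IsSquare ((GZ ℚ_[p] a).eval (u : ℚ_[p])) := by
  obtain ⟨w, hw⟩ := DQ.ElsPtAux.lift hp2 a u hu hy hxy
  refine ⟨?_, w, by rw [← hw, sq]⟩
  intro h0
  rw [BF.Els.gz_eval] at hxy h0
  have hVm : PadicInt.toZMod (∑ i : Fin (n + 1), (a i : ℤ_[p]) * u ^ (n - (i : ℕ))) = y ^ 2 := by
    rw [hxy]
    simp only [map_mul, map_pow, map_intCast, hu, map_sum]
  have hV0 : (∑ i : Fin (n + 1), (a i : ℤ_[p]) * u ^ (n - (i : ℕ))) = 0 := by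
    apply Subtype.coe_injective
    push_cast [PadicInt.coe_sum]
    exact h0
  rw [hV0, map_zero] at hVm
  exact pow_ne_zero 2 hy hVm.symm

theorem full_good {s : ℕ} {n : Fin s → ℕ} {p : ℕ} [hp : Fact p.Prime] (hp2 : p ≠ 2)
    (hbig : (2 ^ s * (∑ i, n i + 1)) ^ 2 ≤ p) (a : ∀ i, Fin (n i + 1) → ℤ)
    (h : ∀ S : Finset (Fin s), S.Nonempty → ¬ SqS (AlgebraicClosure (ZMod p)) a S) :
    Full a ℚ_[p] := by
  obtain ⟨x, hx⟩ := exists_all_sq hp2 (fun i => GZ (ZMod p) (a i)) (by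
      refine le_trans ?_ hbig
      have d1 : ∑ i, (GZ (ZMod p) (a i)).natDegree ≤ ∑ i, n i :=
        sum_le_sum fun i _ => BF.Els.gz_natDegree_le _
      exact Nat.pow_le_pow_left (Nat.mul_le_mul_left _ (by omega)) 2) (by
      intro S hS e u he
      apply h S hS
      have h4 := congrArg
        (Polynomial.map (algebraMap (ZMod p) (AlgebraicClosure (ZMod p)))) he
      rw [Polynomial.map_prod, Polynomial.map_mul, map_C, Polynomial.map_pow] at h4
      simp only [DQ.ElsPtAux.gz_cast] at h4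
      exact ⟨_, _, h4⟩)
  obtain ⟨u, hu⟩ := ZMod.ringHom_surjective (PadicInt.toZMod : ℤ_[p] →+* ZMod p) x
  refine ⟨(u : ℚ_[p]), fun i => ?_⟩
  obtain ⟨y, hy, hxy⟩ := hx i
  exact full_lift hp2 (a i) u hu hy hxy

theorem full_small {s : ℕ} {n : Fin s → ℕ} {p : ℕ} [hp : Fact p.Prime]
    (a : ∀ i, Fin (n i + 1) → ℤ) (h : ∀ i, ((8 * p : ℕ) : ℤ) ∣ a i (Fin.last (n i)) - 1) :
    Full a ℚ_[p] := by
  refine ⟨0, fun i => ?_⟩
  rw [DQ.ElsPtAux.gz_zero]
  refine ⟨?_, ?_⟩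
  · rw [Int.cast_ne_zero]
    intro h0
    have h1 := h i
    rw [h0, zero_sub] at h1
    have h2 : ((8 * p : ℕ) : ℤ) ∣ ((1 : ℕ) : ℤ) := by simpa using h1
    rw [Int.natCast_dvd_natCast] at h2
    have h3 := Nat.le_of_dvd one_pos h2
    have h4 := hp.out.two_le
    omega
  · obtain ⟨w, hw⟩ := BG.Els.isSquare_padic (p := p) (h i)
    exact ⟨w, by rw [← hw, sq]⟩

theorem full_real {s : ℕ} {n : Fin s → ℕ} (a : ∀ i, Fin (n i + 1) → ℤ)
    (h : ∀ i, 0 < a i (Fin.last (n i))) : Full a ℝ := by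
  refine ⟨0, fun i => ?_⟩
  rw [DQ.ElsPtAux.gz_zero]
  have h1 : (0 : ℝ) < ((a i (Fin.last (n i)) : ℤ) : ℝ) := by exact_mod_cast h i
  exact ⟨h1.ne', _, (Real.mul_self_sqrt h1.le).symm⟩

end Stoll308.EA
end

section
set_option autoImplicit false

/-!
Counting tuples.
-/

namespace Stoll308.EA

open Finset BF

/-- The number of elements of a product in terms of a projection which determines the coordinates
in `A`. -/
theorem card_pi_le {s : ℕ} {α : Fin s → Type*} [∀ i, DecidableEq (α i)] (B : ∀ i, Finset (α i))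
    (A : Finset (Fin s)) {X : Type*} [DecidableEq X] (π : (∀ i, α i) → X)
    (hπ : ∀ a b, π a = π b → ∀ i ∈ A, a i = b i) (S : Finset (∀ i, α i))
    (hS : S ⊆ Fintype.piFinset B) (T : Finset X) (hT : ∀ a ∈ S, π a ∈ T) :
    S.card ≤ T.card * ∏ i ∈ Aᶜ, (B i).card := by
  classical
  rw [mul_comm]
  apply card_le_mul_card_image_of_maps_to hT
  intro x hx
  rcases (S.filter fun a => π a = x).eq_empty_or_nonempty with h0 | ⟨a₀, ha₀⟩
  · rw [h0, card_empty]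
    exact Nat.zero_le _
  · rw [mem_filter] at ha₀
    have h1 : (S.filter fun a => π a = x) ⊆
        Fintype.piFinset fun i => if i ∈ A then {a₀ i} else B i := by
      intro a ha
      rw [mem_filter] at ha
      rw [Fintype.mem_piFinset]
      intro i
      split_ifs with hi
      · rw [mem_singleton]
        exact hπ a a₀ (ha.2.trans ha₀.2.symm) i hi
      · exact Fintype.mem_piFinset.1 (hS ha.1) i
    refine (card_le_card h1).trans (le_of_eq ?_)
    have e1 : ∀ i ∈ Aᶜ, (if i ∈ A then {a₀ i} else B i).card = (B i).card := by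
      intro i hi
      rw [mem_compl] at hi
      rw [if_neg hi]
    have e2 : ∀ i ∈ A, (if i ∈ A then {a₀ i} else B i).card = 1 := by
      intro i hi
      rw [if_pos hi, card_singleton]
    rw [Fintype.card_piFinset, ← Finset.prod_compl_mul_prod A, prod_congr rfl e1,
      prod_congr rfl e2, prod_const_one, mul_one]

/-- Fibres over all the coordinates but one. -/
theorem card_pi_fib {s : ℕ} {α : Fin s → Type*} [∀ i, DecidableEq (α i)] (B : ∀ i, Finset (α i))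
    (l : Fin s) (S : Finset (∀ i, α i)) (hS : S ⊆ Fintype.piFinset B) (F : ℝ) (hF0 : 0 ≤ F)
    (hF : ∀ a ∈ S, (((B l).filter fun y => Function.update a l y ∈ S).card : ℝ) ≤ F) :
    (S.card : ℝ) ≤ F * ∏ i ∈ {l}ᶜ, ((B i).card : ℝ) := by
  classical
  rcases S.eq_empty_or_nonempty with h0 | ⟨a₁, ha₁⟩
  · rw [h0, card_empty, Nat.cast_zero]
    positivity
  set T : Finset (∀ i, α i) := Fintype.piFinset fun i => if i = l then {a₁ i} else B i with hT
  have hTc : (T.card : ℝ) = ∏ i ∈ {l}ᶜ, ((B i).card : ℝ) := by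
    rw [hT, Fintype.card_piFinset, Fintype.prod_eq_mul_prod_compl l, if_pos rfl, card_singleton,
      one_mul]
    push_cast
    apply prod_congr rfl
    intro i hi
    rw [mem_compl, mem_singleton] at hi
    rw [if_neg hi]
  have h2 := BG.Els.card_le_fiber S T (fun a => Function.update a l (a₁ l)) (by
    intro a ha
    rw [hT, Fintype.mem_piFinset]
    intro i
    by_cases hi : i = l
    · subst hi
      rw [if_pos rfl, Function.update_self]
      exact mem_singleton_self _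
    · rw [if_neg hi, Function.update_of_ne hi]
      exact Fintype.mem_piFinset.1 (hS ha) i) F (by
    intro c _
    rcases (S.filter fun a => Function.update a l (a₁ l) = c).eq_empty_or_nonempty with h3 |
      ⟨a₀, ha₀⟩
    · rw [h3]
      simpa using hF0
    · rw [mem_filter] at ha₀
      refine le_trans ?_ (hF a₀ ha₀.1)
      rw [Nat.cast_le]
      have key : ∀ a, Function.update a l (a₁ l) = c → Function.update a₀ l (a l) = a := by
        intro a ha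
        funext i
        by_cases hi : i = l
        · subst hi
          rw [Function.update_self]
        · rw [Function.update_of_ne hi]
          have h4 := congrFun (ha.trans ha₀.2.symm) i
          rw [Function.update_of_ne hi, Function.update_of_ne hi] at h4
          exact h4.symm
      apply card_le_card_of_injOn (fun a => a l)
      · intro a ha
        rw [mem_coe, mem_filter] at ha ⊢
        refine ⟨Fintype.mem_piFinset.1 (hS ha.1) l, ?_⟩
        rw [key a ha.2]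
        exact ha.1
      · intro a ha b hb hab
        rw [mem_coe, mem_filter] at ha hb
        rw [← key a ha.2, ← key b hb.2]
        simp only at hab
        rw [hab])
  rw [hTc, mul_comm] at h2
  exact h2

variable {s : ℕ} {n : Fin s → ℕ}

/-- The box of the coefficients. -/
noncomputable abbrev hbox (n H : ℕ) : Finset (Fin (n + 1) → ℤ) :=
  Fintype.piFinset fun _ : Fin (n + 1) => Icc (-(H : ℤ)) (H : ℤ)

lemma card_hbox (n H : ℕ) : (hbox n H).card = (2 * H + 1) ^ (n + 1) := by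
  have h := DQ.card_box n H
  exact_mod_cast h

lemma mem_hbox {n H : ℕ} {a : Fin (n + 1) → ℤ} : a ∈ hbox n H ↔ ∀ i, |a i| ≤ (H : ℤ) := by
  rw [hbox, Fintype.mem_piFinset]
  exact forall_congr' fun i => by rw [mem_Icc, abs_le]

lemma cnt_mono {P Q : (∀ i, Fin (n i + 1) → ℤ) → Prop} (H : ℕ)
    (h : ∀ a : ∀ i, Fin (n i + 1) → ℤ, (∀ i k, |a i k| ≤ (H : ℤ)) → P a → Q a) :
    cnt n P H ≤ cnt n Q H := by
  classical
  unfold cnt
  apply card_le_card
  intro x hx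
  simp only [mem_filter, Fintype.mem_piFinset, mem_Icc] at hx ⊢
  exact ⟨hx.1, h x (fun i k => abs_le.2 (hx.1 i k)) hx.2⟩

lemma cnt_or (P Q : (∀ i, Fin (n i + 1) → ℤ) → Prop) (H : ℕ) :
    cnt n (fun a => P a ∨ Q a) H ≤ cnt n P H + cnt n Q H := by
  classical
  unfold cnt
  refine le_trans (card_le_card ?_) (card_union_le _ _)
  intro t ht
  simp only [mem_filter, mem_union] at ht ⊢
  rcases ht.2 with h | h
  · exact Or.inl ⟨ht.1, h⟩
  · exact Or.inr ⟨ht.1, h⟩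

lemma cnt_exists {κ : Type*} (J : Finset κ) (P : κ → (∀ i, Fin (n i + 1) → ℤ) → Prop) (H : ℕ) :
    cnt n (fun a => ∃ k ∈ J, P k a) H ≤ ∑ k ∈ J, cnt n (P k) H := by
  classical
  unfold cnt
  refine le_trans (card_le_card ?_) (card_biUnion_le (s := J))
  intro a ha
  simp only [mem_filter, mem_biUnion] at ha ⊢
  obtain ⟨h1, k, hk, h2⟩ := ha
  exact ⟨k, hk, h1, h2⟩

/-- A property of one of the vectors. -/
lemma cnt_one (i : Fin s) (P : (Fin (n i + 1) → ℤ) → Prop) (H : ℕ) :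
    cnt n (fun a => P (a i)) H ≤ BF.cnt (n i) P H * (2 * H + 1) ^ ∑ k ∈ {i}ᶜ, (n k + 1) := by
  classical
  have h1 := card_pi_le (fun i => hbox (n i) H) {i} (fun a => a i)
    (by
      intro a b hab k hk
      rw [mem_singleton] at hk
      subst hk
      exact hab)
    ((Fintype.piFinset fun i => hbox (n i) H).filter fun a => P (a i)) (filter_subset _ _)
    ((hbox (n i) H).filter P) (by
      intro a ha
      rw [mem_filter] at ha ⊢
      exact ⟨Fintype.mem_piFinset.1 ha.1 i, ha.2⟩)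
  rw [prod_congr rfl fun k _ => card_hbox (n k) H, prod_pow_eq_pow_sum] at h1
  unfold cnt BF.cnt
  convert h1

/-- A property of two of the vectors. -/
lemma cnt_two (i j : Fin s) (hij : i ≠ j)
    (P : (Fin (n i + 1) → ℤ) → (Fin (n j + 1) → ℤ) → Prop) (H : ℕ) :
    cnt n (fun a => P (a i) (a j)) H ≤
      DQ.cnt (n i) (n j) P H * (2 * H + 1) ^ ∑ k ∈ {i, j}ᶜ, (n k + 1) := by
  classical
  have h1 := card_pi_le (fun i => hbox (n i) H) {i, j} (fun a => (a i, a j))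
    (by
      intro a b hab k hk
      rw [mem_insert, mem_singleton] at hk
      rw [Prod.ext_iff] at hab
      rcases hk with rfl | rfl
      · exact hab.1
      · exact hab.2)
    ((Fintype.piFinset fun i => hbox (n i) H).filter fun a => P (a i) (a j)) (filter_subset _ _)
    ((hbox (n i) H ×ˢ hbox (n j) H).filter fun x => P x.1 x.2) (by
      intro a ha
      rw [mem_filter] at ha ⊢
      exact ⟨mem_product.2 ⟨Fintype.mem_piFinset.1 ha.1 i, Fintype.mem_piFinset.1 ha.1 j⟩, ha.2⟩)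
  rw [prod_congr rfl fun k _ => card_hbox (n k) H, prod_pow_eq_pow_sum] at h1
  unfold cnt DQ.cnt
  convert h1

open Classical in
/-- The number of triples. -/
noncomputable def cnt3 (n m k : ℕ)
    (P : (Fin (n + 1) → ℤ) → (Fin (m + 1) → ℤ) → (Fin (k + 1) → ℤ) → Prop) (H : ℕ) : ℕ :=
  ((hbox n H ×ˢ hbox m H ×ˢ hbox k H).filter fun x => P x.1 x.2.1 x.2.2).card

/-- A property of three of the vectors. -/
lemma cnt_three (i j l : Fin s) (hij : i ≠ j) (hil : i ≠ l) (hjl : j ≠ l)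
    (P : (Fin (n i + 1) → ℤ) → (Fin (n j + 1) → ℤ) → (Fin (n l + 1) → ℤ) → Prop) (H : ℕ) :
    cnt n (fun a => P (a i) (a j) (a l)) H ≤
      cnt3 (n i) (n j) (n l) P H * (2 * H + 1) ^ ∑ k ∈ {i, j, l}ᶜ, (n k + 1) := by
  classical
  have h1 := card_pi_le (fun i => hbox (n i) H) {i, j, l} (fun a => (a i, a j, a l))
    (by
      intro a b hab k hk
      rw [mem_insert, mem_insert, mem_singleton] at hk
      rw [Prod.ext_iff, Prod.ext_iff] at hab
      rcases hk with rfl | rfl | rfl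
      · exact hab.1
      · exact hab.2.1
      · exact hab.2.2)
    ((Fintype.piFinset fun i => hbox (n i) H).filter fun a => P (a i) (a j) (a l))
    (filter_subset _ _)
    ((hbox (n i) H ×ˢ hbox (n j) H ×ˢ hbox (n l) H).filter fun x => P x.1 x.2.1 x.2.2) (by
      intro a ha
      rw [mem_filter] at ha ⊢
      exact ⟨mem_product.2 ⟨Fintype.mem_piFinset.1 ha.1 i,
        mem_product.2 ⟨Fintype.mem_piFinset.1 ha.1 j, Fintype.mem_piFinset.1 ha.1 l⟩⟩, ha.2⟩)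
  rw [prod_congr rfl fun k _ => card_hbox (n k) H, prod_pow_eq_pow_sum] at h1
  unfold cnt cnt3
  convert h1

/-- The property holds for few tuples. -/
def Small (n : Fin s → ℕ) (P : (∀ i, Fin (n i + 1) → ℤ) → Prop) : Prop :=
  ∀ ε : ℝ, 0 < ε → ∃ H₀ : ℕ, ∀ H : ℕ, H₀ ≤ H → (cnt n P H : ℝ) ≤ ε * H ^ ∑ i, (n i + 1)

lemma Small.mono {P Q : (∀ i, Fin (n i + 1) → ℤ) → Prop} (h : Small n Q) (hPQ : ∀ a, P a → Q a) :
    Small n P := by
  intro ε hε
  obtain ⟨H₀, h1⟩ := h ε hε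
  refine ⟨H₀, fun H hH => le_trans ?_ (h1 H hH)⟩
  exact_mod_cast cnt_mono H fun a _ => hPQ a

lemma Small.or {P Q : (∀ i, Fin (n i + 1) → ℤ) → Prop} (hP : Small n P) (hQ : Small n Q) :
    Small n (fun a => P a ∨ Q a) := by
  intro ε hε
  obtain ⟨H₁, h1⟩ := hP (ε / 2) (half_pos hε)
  obtain ⟨H₂, h2⟩ := hQ (ε / 2) (half_pos hε)
  refine ⟨max H₁ H₂, fun H hH => ?_⟩
  have e1 := h1 H ((le_max_left _ _).trans hH)
  have e2 := h2 H ((le_max_right _ _).trans hH)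
  have e3 : (cnt n (fun a => P a ∨ Q a) H : ℝ) ≤ cnt n P H + cnt n Q H := by
    exact_mod_cast cnt_or P Q H
  linarith

lemma small_false : Small n (fun _ => False) := by
  classical
  intro ε hε
  refine ⟨0, fun H _ => ?_⟩
  have h1 : cnt n (fun _ => False) H = 0 := by
    unfold cnt
    exact card_eq_zero.2 (eq_empty_of_forall_notMem fun x hx =>
      ((@mem_filter _ _ (_) _ _).1 hx).2)
  rw [h1, Nat.cast_zero]
  positivity

lemma Small.exists {κ : Type*} (J : Finset κ) (P : κ → (∀ i, Fin (n i + 1) → ℤ) → Prop)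
    (h : ∀ k ∈ J, Small n (P k)) : Small n (fun a => ∃ k ∈ J, P k a) := by
  classical
  induction J using Finset.induction_on with
  | empty => exact small_false.mono fun a ha => by simp at ha
  | insert k J hk ih =>
    refine ((h k (mem_insert_self _ _)).or (ih fun k' hk' => h k' (mem_insert_of_mem hk'))).mono ?_
    intro a ha
    obtain ⟨k', hk', ha⟩ := ha
    rcases mem_insert.1 hk' with rfl | h1
    · exact Or.inl ha
    · exact Or.inr ⟨k', h1, ha⟩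

lemma pow_le_three {H : ℕ} (hH : 1 ≤ H) (N : ℕ) : (2 * (H : ℝ) + 1) ^ N ≤ (3 * H) ^ N := by
  have : (1 : ℝ) ≤ H := by exact_mod_cast hH
  exact pow_le_pow_left₀ (by positivity) (by linarith) _

/-- Few vectors, so few tuples. -/
lemma small_one (i : Fin s) (P : (Fin (n i + 1) → ℤ) → Prop)
    (h : ∀ ε : ℝ, 0 < ε → ∃ H₀ : ℕ, ∀ H : ℕ, H₀ ≤ H →
      (BF.cnt (n i) P H : ℝ) ≤ ε * H ^ (n i + 1)) : Small n (fun a => P (a i)) := by
  intro ε hε
  set N : ℕ := ∑ k ∈ {i}ᶜ, (n k + 1) with hN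
  obtain ⟨H₀, h1⟩ := h (ε / 3 ^ N) (by positivity)
  refine ⟨max H₀ 1, fun H hH => ?_⟩
  have e1 := h1 H ((le_max_left _ _).trans hH)
  have hH1 : 1 ≤ H := (le_max_right _ _).trans hH
  have e2 : (cnt n (fun a => P (a i)) H : ℝ) ≤ BF.cnt (n i) P H * (2 * H + 1) ^ N := by
    exact_mod_cast cnt_one i P H
  have e3 : ∑ i, (n i + 1) = (n i + 1) + N := by
    rw [hN]
    exact Fintype.sum_eq_add_sum_compl i _
  calc (cnt n (fun a => P (a i)) H : ℝ) ≤ BF.cnt (n i) P H * (2 * H + 1) ^ N := e2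
    _ ≤ (ε / 3 ^ N * H ^ (n i + 1)) * (3 * H) ^ N :=
        mul_le_mul e1 (pow_le_three hH1 N) (by positivity) (by positivity)
    _ = ε * H ^ ∑ i, (n i + 1) := by
        rw [e3, pow_add (H : ℝ) (n i + 1) N, mul_pow]
        field_simp

/-- Few pairs, so few tuples. -/
lemma small_two (i j : Fin s) (hij : i ≠ j)
    (P : (Fin (n i + 1) → ℤ) → (Fin (n j + 1) → ℤ) → Prop)
    (h : ∀ ε : ℝ, 0 < ε → ∃ H₀ : ℕ, ∀ H : ℕ, H₀ ≤ H →
      (DQ.cnt (n i) (n j) P H : ℝ) ≤ ε * H ^ (n i + n j + 2)) :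
    Small n (fun a => P (a i) (a j)) := by
  intro ε hε
  set N : ℕ := ∑ k ∈ {i, j}ᶜ, (n k + 1) with hN
  obtain ⟨H₀, h1⟩ := h (ε / 3 ^ N) (by positivity)
  refine ⟨max H₀ 1, fun H hH => ?_⟩
  have e1 := h1 H ((le_max_left _ _).trans hH)
  have hH1 : 1 ≤ H := (le_max_right _ _).trans hH
  have e2 : (cnt n (fun a => P (a i) (a j)) H : ℝ) ≤
      DQ.cnt (n i) (n j) P H * (2 * H + 1) ^ N := by
    exact_mod_cast cnt_two i j hij P H
  have e3 : ∑ i, (n i + 1) = (n i + n j + 2) + N := by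
    rw [hN, ← Finset.sum_add_sum_compl {i, j}, sum_pair hij]
    ring
  calc (cnt n (fun a => P (a i) (a j)) H : ℝ) ≤ DQ.cnt (n i) (n j) P H * (2 * H + 1) ^ N := e2
    _ ≤ (ε / 3 ^ N * H ^ (n i + n j + 2)) * (3 * H) ^ N :=
        mul_le_mul e1 (pow_le_three hH1 N) (by positivity) (by positivity)
    _ = ε * H ^ ∑ i, (n i + 1) := by
        rw [e3, pow_add (H : ℝ) (n i + n j + 2) N, mul_pow]
        field_simp

end Stoll308.EA
end

section
set_option autoImplicit false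

/-!
The parameters for which a product of some of the polynomials is a constant times a square
modulo `p`.
-/

namespace Stoll308.EA

open Polynomial Finset BF

/-- The box of the parameters. -/
noncomputable abbrev tbox {s : ℕ} (n : Fin s → ℕ) (h : ℕ) : Finset (∀ i, Fin (n i + 1) → ℤ) :=
  Fintype.piFinset fun i => BF.Els.box (n i + 1) h

/-- The coefficients. -/
def coT {s : ℕ} {n : Fin s → ℕ} (M : ℤ) (x : ∀ i, Fin (n i + 1) → ℤ) :
    ∀ i, Fin (n i + 1) → ℤ :=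
  fun i => BF.Els.co M (x i)

open Classical in
/-- The parameters with `∏_{i ∈ S} g_i` a constant times a square modulo `p`. -/
noncomputable def SB {s : ℕ} (n : Fin s → ℕ) (M : ℤ) (h p : ℕ) (S : Finset (Fin s)) :
    Finset (∀ i, Fin (n i + 1) → ℤ) :=
  (tbox n h).filter fun x =>
    (∀ i ∈ S, ¬ ((p : ℤ) ∣ BF.Els.co M (x i) 0 ∧ (p : ℤ) ∣ BF.Els.co M (x i) 1)) ∧
      ∃ _ : Fact p.Prime, SqS (AlgebraicClosure (ZMod p)) (coT M x) S

variable {s : ℕ} {n : Fin s → ℕ}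

/-- Two members of a fibre over a product of polynomials. -/
private lemma fib_unique {m : ℕ} (hm : 4 ≤ m) {p : ℕ} [Fact p.Prime] (hp2 : p ≠ 2)
    {φ : (AlgebraicClosure (ZMod p))[X]} {b b' : Fin (m + 1) → ℤ} (hφ : φ ≠ 0)
    (hb : ∃ (c : AlgebraicClosure (ZMod p)) (u : (AlgebraicClosure (ZMod p))[X]),
      φ * GZ (AlgebraicClosure (ZMod p)) b = C c * u ^ 2)
    (hb' : ∃ (c : AlgebraicClosure (ZMod p)) (u : (AlgebraicClosure (ZMod p))[X]),
      φ * GZ (AlgebraicClosure (ZMod p)) b' = C c * u ^ 2)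
    (hbb : ∀ i : Fin (m + 1), (i : ℕ) + 1 < m → b i = b' i)
    (h01 : ¬ ((p : ℤ) ∣ b 0 ∧ (p : ℤ) ∣ b 1)) (i : Fin (m + 1)) : (p : ℤ) ∣ b i - b' i := by
  have h2K : (2 : AlgebraicClosure (ZMod p)) ≠ 0 := by
    intro h0
    apply BG.Els.two_ne (p := p) hp2
    apply (algebraMap (ZMod p) (AlgebraicClosure (ZMod p))).injective
    rw [map_ofNat, map_zero]
    exact h0
  have hdiff : (GZ (AlgebraicClosure (ZMod p)) b - GZ (AlgebraicClosure (ZMod p)) b').natDegree ≤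
      1 := by
    rw [natDegree_le_iff_coeff_eq_zero]
    intro N hN
    rw [coeff_sub, sub_eq_zero]
    by_cases hNn : N ≤ m
    · rw [BF.Els.gz_coeff _ hNn, BF.Els.gz_coeff _ hNn, hbb _ (by simp only; omega)]
    · rw [BF.Els.gz_coeff_gt _ (by omega), BF.Els.gz_coeff_gt _ (by omega)]
  have hdeg := DQ.three_le_deg (K := AlgebraicClosure (ZMod p)) hm (b := b) (by
    rw [BG.PEls.cast_eq_zero (p := p), BG.PEls.cast_eq_zero (p := p)]
    exact h01)
  have key := DQ.uniq h2K φ _ _ hφ hdeg hdiff hb hb'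
  have hi := i.2
  have h3 := congrArg (fun g : (AlgebraicClosure (ZMod p))[X] => g.coeff (m - i)) key
  rw [BF.Els.gz_coeff _ (Nat.sub_le _ _), BF.Els.gz_coeff _ (Nat.sub_le _ _)] at h3
  have h4 : (⟨m - (m - (i : ℕ)), by omega⟩ : Fin (m + 1)) = i := by
    apply Fin.ext
    simp only
    omega
  rw [h4] at h3
  rw [← BG.PEls.cast_eq_zero (K := AlgebraicClosure (ZMod p))]
  push_cast
  rw [h3, sub_self]

/-- All the vectors fixed but the one of index `l ∈ S`. -/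
theorem card_upd (hn : ∀ i, 4 ≤ n i) {M : ℤ} {h p : ℕ} (hp : p.Prime) (hp2 : p ≠ 2)
    (hpM : ¬ (p : ℤ) ∣ M) (S : Finset (Fin s)) (l : Fin s) (hl : l ∈ S)
    (x : ∀ i, Fin (n i + 1) → ℤ) :
    (((BF.Els.box (n l + 1) h).filter fun y => Function.update x l y ∈ SB n M h p S).card : ℝ) ≤
      (h : ℝ) ^ (n l - 1) * ((h : ℝ) / p + 1) ^ 2 := by
  classical
  have hF := Fact.mk hp
  set T : Finset (Fin (n l + 1) → ℤ) :=
    (BF.Els.box (n l + 1) h).filter fun y => Function.update x l y ∈ SB n M h p S with hT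
  have hm := hn l
  set u : Fin (n l + 1) := ⟨n l - 1, by omega⟩ with hu
  set w : Fin (n l + 1) := ⟨n l, by omega⟩ with hw
  have huw : u ≠ w := by
    intro h0
    have := congrArg Fin.val h0
    simp only [hu, hw] at this
    omega
  have hc : ({u, w} : Finset (Fin (n l + 1))).card = 2 := card_pair huw
  have hmem : ∀ y ∈ T, (∀ i ∈ S, ¬ ((p : ℤ) ∣ BF.Els.co M (Function.update x l y i) 0 ∧
      (p : ℤ) ∣ BF.Els.co M (Function.update x l y i) 1)) ∧
      SqS (AlgebraicClosure (ZMod p)) (coT M (Function.update x l y)) S := by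
    intro y hy
    rw [hT, mem_filter] at hy
    have h2 := hy.2
    rw [SB, mem_filter] at h2
    obtain ⟨-, h3, _, h4⟩ := h2
    exact ⟨h3, h4⟩
  set φ : (AlgebraicClosure (ZMod p))[X] :=
    ∏ i ∈ S.erase l, GZ (AlgebraicClosure (ZMod p)) (BF.Els.co M (x i)) with hφdef
  have hprod : ∀ y, ∏ i ∈ S, GZ (AlgebraicClosure (ZMod p)) (coT M (Function.update x l y) i) =
      φ * GZ (AlgebraicClosure (ZMod p)) (BF.Els.co M y) := by
    intro y
    rw [← Finset.prod_erase_mul S _ hl]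
    congr 1
    · apply prod_congr rfl
      intro i hi
      unfold coT
      rw [Function.update_of_ne (ne_of_mem_erase hi)]
    · unfold coT
      rw [Function.update_self]
  have h1 := BF.Els.card_le_mod hp.pos {u, w} T (by rw [hT]; exact filter_subset _ _) (by
    intro b hb b' hb' hbb i _
    obtain ⟨h2, c, v, h3⟩ := hmem b hb
    obtain ⟨-, c', v', h3'⟩ := hmem b' hb'
    rw [hprod] at h3 h3'
    apply BF.Els.dvd_of_co hp hpM
    have hφ : φ ≠ 0 := by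
      rw [hφdef, prod_ne_zero_iff]
      intro j hj
      have hjl := ne_of_mem_erase hj
      have h5 := h2 j (mem_of_mem_erase hj)
      rw [Function.update_of_ne hjl] at h5
      intro h0
      have h6 := DQ.three_le_deg (K := AlgebraicClosure (ZMod p)) (hn j)
        (b := BF.Els.co M (x j)) (by
          rw [BG.PEls.cast_eq_zero (p := p), BG.PEls.cast_eq_zero (p := p)]
          exact h5)
      rw [h0, natDegree_zero] at h6
      omega
    have h01 := h2 l hl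
    rw [Function.update_self] at h01
    apply fib_unique hm hp2 hφ ⟨c, v, h3⟩ ⟨c', v', h3'⟩ _ h01
    intro j hj
    have h4 : b j = b' j := by
      apply hbb
      rw [mem_insert, mem_singleton, not_or]
      constructor
      · intro h0
        have := congrArg Fin.val h0
        simp only [hu] at this
        omega
      · intro h0
        have := congrArg Fin.val h0
        simp only [hw] at this
        omega
    simp only [BF.Els.co, h4])
  rw [hc] at h1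
  exact h1

/-- The fibre bound and the volume of the other coordinates. -/
private lemma vol_bound (hn : ∀ i, 4 ≤ n i) {h p : ℕ} (hp : p.Prime) (hph : p ≤ h) (l : Fin s) :
    (h : ℝ) ^ (n l - 1) * ((h : ℝ) / p + 1) ^ 2 *
      ∏ i ∈ {l}ᶜ, ((BF.Els.box (n i + 1) h).card : ℝ) ≤
    4 / (p : ℝ) ^ 2 * (h : ℝ) ^ ∑ i, (n i + 1) := by
  have hp0 : (0 : ℝ) < p := by exact_mod_cast hp.pos
  have hph' : (p : ℝ) ≤ h := by exact_mod_cast hph
  have h1 : ∏ i ∈ {l}ᶜ, ((BF.Els.box (n i + 1) h).card : ℝ) =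
      (h : ℝ) ^ ∑ i ∈ {l}ᶜ, (n i + 1) := by
    rw [← prod_pow_eq_pow_sum]
    apply prod_congr rfl
    intro i _
    rw [BF.Els.card_box]
    push_cast
    rfl
  have h2 : ∑ i, (n i + 1) = (n l - 1) + 2 + ∑ i ∈ {l}ᶜ, (n i + 1) := by
    rw [Fintype.sum_eq_add_sum_compl l]
    have := hn l
    omega
  have h3 : (h : ℝ) / p + 1 ≤ 2 * h / p := by
    rw [two_mul, add_div]
    have : (1 : ℝ) ≤ (h : ℝ) / p := by rwa [le_div_iff₀ hp0, one_mul]
    linarith
  rw [h1, h2, pow_add (h : ℝ) (n l - 1 + 2), pow_add (h : ℝ) (n l - 1) 2]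
  calc (h : ℝ) ^ (n l - 1) * ((h : ℝ) / p + 1) ^ 2 * (h : ℝ) ^ ∑ i ∈ {l}ᶜ, (n i + 1)
      ≤ (h : ℝ) ^ (n l - 1) * (2 * h / p) ^ 2 * (h : ℝ) ^ ∑ i ∈ {l}ᶜ, (n i + 1) := by
        gcongr
    _ = _ := by
        field_simp
        ring

theorem card_SB (hn : ∀ i, 4 ≤ n i) {M : ℤ} {h p : ℕ} (hp : p.Prime) (hp2 : p ≠ 2)
    (hpM : ¬ (p : ℤ) ∣ M) (hph : p ≤ h) (S : Finset (Fin s)) (hS : S.Nonempty) :
    ((SB n M h p S).card : ℝ) ≤ 4 / (p : ℝ) ^ 2 * (h : ℝ) ^ ∑ i, (n i + 1) := by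
  classical
  obtain ⟨l, hl⟩ := hS
  refine le_trans (card_pi_fib (fun i => BF.Els.box (n i + 1) h) l (SB n M h p S) ?_
    ((h : ℝ) ^ (n l - 1) * ((h : ℝ) / p + 1) ^ 2) (by positivity) ?_) (vol_bound hn hp hph l)
  · unfold SB
    exact filter_subset _ _
  · intro a _
    exact card_upd hn hp hp2 hpM S l hl a

/-- The first two coefficients are divisible by `p`. -/
theorem card_two_lead (hn : ∀ i, 4 ≤ n i) {M : ℤ} {h p : ℕ} (hp : p.Prime)
    (hpM : ¬ (p : ℤ) ∣ M) (hph : p ≤ h) (i : Fin s) :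
    (((tbox n h).filter fun x => (p : ℤ) ∣ BF.Els.co M (x i) 0 ∧
      (p : ℤ) ∣ BF.Els.co M (x i) 1).card : ℝ) ≤ 4 / (p : ℝ) ^ 2 * (h : ℝ) ^ ∑ i, (n i + 1) := by
  classical
  refine le_trans (card_pi_fib (fun i => BF.Els.box (n i + 1) h) i _ (filter_subset _ _)
    ((h : ℝ) ^ (n i - 1) * ((h : ℝ) / p + 1) ^ 2) (by positivity) ?_) (vol_bound hn hp hph i)
  intro a _
  refine le_trans ?_ (BF.Els.card_S1 (hn i) hp hpM)
  rw [Nat.cast_le]
  apply card_le_card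
  intro y hy
  rw [mem_filter, mem_filter] at hy
  rw [BF.Els.S1, mem_filter]
  obtain ⟨h1, -, h2⟩ := hy
  rw [Function.update_self] at h2
  exact ⟨h1, h2⟩

end Stoll308.EA
end

section
set_option autoImplicit false

/-!
Three or more polynomials modulo the primes `p > h`.
-/

namespace Stoll308.EA

open Polynomial Finset BF

variable {s : ℕ} {n : Fin s → ℕ}

/-- Two of the polynomials have a common root modulo `p`, or one of them has a multiple root. -/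
theorem exists_root (hn : ∀ i, 4 ≤ n i) {p : ℕ} [Fact p.Prime] (a : ∀ i, Fin (n i + 1) → ℤ)
    (h0 : ∀ i, ¬ (p : ℤ) ∣ a i 0) (S : Finset (Fin s)) (hS : 2 ≤ S.card)
    (h : SqS (AlgebraicClosure (ZMod p)) a S) :
    ∃ i ∈ S, ∃ j ∈ S, i ≠ j ∧ (¬ Squarefree (GZ (AlgebraicClosure (ZMod p)) (a i)) ∨
      ¬ IsCoprime (GZ (AlgebraicClosure (ZMod p)) (a i))
        (GZ (AlgebraicClosure (ZMod p)) (a j))) := by
  by_contra hcon
  push Not at hcon
  obtain ⟨c, u, hcu⟩ := h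
  have hdeg : ∀ i, (GZ (AlgebraicClosure (ZMod p)) (a i)).natDegree = n i := by
    intro i
    apply DQ.ElsC.gz_deg
    rw [Ne, BG.PEls.cast_eq_zero (p := p)]
    exact h0 i
  have hex : ∀ i ∈ S, ∃ j ∈ S, i ≠ j := by
    intro i _
    obtain ⟨j, hj, hji⟩ := Finset.exists_mem_ne (by omega : 1 < S.card) i
    exact ⟨j, hj, hji.symm⟩
  have hsq : Squarefree (∏ i ∈ S, GZ (AlgebraicClosure (ZMod p)) (a i)) := by
    apply Finset.squarefree_prod_of_pairwise_isCoprime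
    · intro i hi j hj hij
      exact (hcon i hi j hj hij).2.isRelPrime
    · intro i hi
      obtain ⟨j, hj, hij⟩ := hex i hi
      exact (hcon i hi j hj hij).1
  rw [hcu] at hsq
  have hu : IsUnit u := hsq u ⟨C c, by ring⟩
  have hud := natDegree_eq_zero_of_isUnit hu
  have h1 : (∏ i ∈ S, GZ (AlgebraicClosure (ZMod p)) (a i)).natDegree = 0 := by
    rw [hcu]
    have := natDegree_C_mul_le c (u ^ 2)
    have h2 := natDegree_pow_le (p := u) (n := 2)
    rw [hud] at h2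
    omega
  have hne : ∀ i ∈ S, GZ (AlgebraicClosure (ZMod p)) (a i) ≠ 0 := by
    intro i _ h3
    have h4 := hdeg i
    rw [h3, natDegree_zero] at h4
    have := hn i
    omega
  rw [natDegree_prod _ _ hne] at h1
  obtain ⟨i, hi⟩ : S.Nonempty := card_pos.1 (by omega)
  have h2 := (Finset.sum_eq_zero_iff.1 h1) i hi
  rw [hdeg i] at h2
  have := hn i
  omega

/-- `h / p + 1 ≤ 2` for `p > h`. -/
lemma sq_le_four {h p : ℕ} (hp : h < p) : ((h : ℝ) / p + 1) ^ 2 ≤ 4 := by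
  have hp0 : (0 : ℝ) < p := by
    have : 0 < p := by omega
    exact_mod_cast this
  have h1 : (h : ℝ) / p ≤ 1 := by
    rw [div_le_one hp0]
    exact_mod_cast hp.le
  have h2 : (0 : ℝ) ≤ (h : ℝ) / p := by positivity
  nlinarith

open Classical in
/-- The tuples for three given indices. -/
noncomputable def MS (n : Fin s → ℕ) (M h : ℕ) (S : Finset (Fin s)) (i j : Fin s) :
    Finset (∀ i, Fin (n i + 1) → ℤ) :=
  (tbox n h).filter fun x => (∀ i, Irreducible (GZ ℚ (BF.Els.co (M : ℤ) (x i)))) ∧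
    (∀ i j, i ≠ j → IsCoprime (GZ ℚ (BF.Els.co (M : ℤ) (x i)))
      (GZ ℚ (BF.Els.co (M : ℤ) (x j)))) ∧
    ∃ (p : ℕ) (_ : Fact p.Prime), h < p ∧ p ≠ 2 ∧ ¬ p ∣ M ∧
      SqS (AlgebraicClosure (ZMod p)) (coT (M : ℤ) x) S ∧
      (¬ Squarefree (GZ (AlgebraicClosure (ZMod p)) (coT (M : ℤ) x i)) ∨
        ¬ IsCoprime (GZ (AlgebraicClosure (ZMod p)) (coT (M : ℤ) x i))
          (GZ (AlgebraicClosure (ZMod p)) (coT (M : ℤ) x j)))

theorem card_MS (hn : ∀ i, 4 ≤ n i) (M : ℕ) (hM : 0 < M) (S : Finset (Fin s)) (i j l : Fin s)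
    (hij : i ≠ j) (hli : l ≠ i) (hlj : l ≠ j) (hlS : l ∈ S) :
    ∃ h₀ : ℕ, ∀ h : ℕ, h₀ ≤ h → ((MS n M h S i j).card : ℝ) ≤
      (4 * (3 * n i + n j + 1) * (h : ℝ) ^ (n l - 1)) * ∏ i ∈ {l}ᶜ, ((BF.Els.box (n i + 1) h).card : ℝ) := by
  classical
  obtain ⟨h₁, hd⟩ := DQ.disc_primes (n i) (hn i) M hM
  obtain ⟨h₂, hr⟩ := res_primes (n i) (n j) (2 * M) (by linarith [hn i]) (by linarith [hn j])
  refine ⟨max h₁ (max h₂ 1), fun h hh => ?_⟩
  have hh1 : h₁ ≤ h := (le_max_left _ _).trans hh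
  have hh2 : h₂ ≤ h := ((le_max_left _ _).trans (le_max_right _ _)).trans hh
  have hh3 : 1 ≤ h := ((le_max_right _ _).trans (le_max_right _ _)).trans hh
  have hsub : MS n M h S i j ⊆ tbox n h := by
    unfold MS
    exact filter_subset _ _
  apply card_pi_fib (fun i => BF.Els.box (n i + 1) h) l (MS n M h S i j) hsub _ (by positivity)
  intro a ha
  have hab := Fintype.mem_piFinset.1 (hsub ha)
  rw [MS, mem_filter] at ha
  obtain ⟨-, hirr, hcop, -⟩ := ha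
  have hMz : (0 : ℤ) < (M : ℤ) := by exact_mod_cast hM
  have hbd : ∀ k, ∀ e, |BF.Els.co (M : ℤ) (a k) e| ≤ ((2 * M * h : ℕ) : ℤ) := by
    intro k e
    have h1 := DQ.co_size hM (hab k) e
    rw [abs_of_pos h1.1]
    refine h1.2.trans ?_
    push_cast
    have : (1 : ℤ) ≤ h := by exact_mod_cast hh3
    nlinarith
  have hc0 : ∀ k, BF.Els.co (M : ℤ) (a k) 0 ≠ 0 := fun k => (DQ.co_size hM (hab k) 0).1.ne'
  obtain ⟨D, hD, hDp⟩ := hd h hh1 (a i) (hab i) (hirr i)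
  obtain ⟨T, hT, hTp⟩ := hr h hh2 (BF.Els.co (M : ℤ) (a i)) (BF.Els.co (M : ℤ) (a j)) (hbd i)
    (hbd j) (hc0 i) (hc0 j) (hcop i j hij)
  set U := (D ∪ T).filter fun p => p.Prime ∧ h < p ∧ p ≠ 2 ∧ ¬ p ∣ M with hU
  have hUc : (U.card : ℝ) ≤ 3 * n i + n j + 1 := by
    have h1 : U.card ≤ 3 * n i + n j + 1 := by
      have h2 : U.card ≤ (D ∪ T).card := by
        rw [hU]
        exact card_filter_le _ _
      have h3 := card_union_le D T
      omega
    exact_mod_cast h1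
  have hcov : ((BF.Els.box (n l + 1) h).filter fun y => Function.update a l y ∈ MS n M h S i j) ⊆
      U.biUnion fun p => (BF.Els.box (n l + 1) h).filter fun y =>
        Function.update a l y ∈ SB n (M : ℤ) h p S := by
    intro y hy
    rw [mem_filter] at hy
    obtain ⟨hyb, hy⟩ := hy
    have hyt := hsub hy
    have hyt' := Fintype.mem_piFinset.1 hyt
    rw [MS, mem_filter] at hy
    obtain ⟨-, -, -, p, hp, hhp, hp2, hpM, hsq, hor⟩ := hy
    have hnd : ∀ k, ¬ (p : ℤ) ∣ BF.Els.co (M : ℤ) (Function.update a l y k) 0 := fun k =>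
      DQ.ElsC.not_dvd_co hp.out hpM hhp (hyt' k) (by linarith [hn k])
    have hi : Function.update a l y i = a i := Function.update_of_ne hli.symm _ _
    have hj : Function.update a l y j = a j := Function.update_of_ne hlj.symm _ _
    have hndi := hnd i
    have hndj := hnd j
    rw [hi] at hndi
    rw [hj] at hndj
    simp only [coT, hi, hj] at hor
    rw [mem_biUnion]
    refine ⟨p, ?_, ?_⟩
    · rw [hU, mem_filter, mem_union]
      refine ⟨?_, hp.out, hhp, hp2, hpM⟩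
      rcases hor with hor | hor
      · exact Or.inl (hDp p hhp hpM hor)
      · exact Or.inr (hTp p hhp hndi hndj hor)
    · rw [mem_filter, SB, mem_filter]
      exact ⟨hyb, hyt, fun k _ hk => hnd k hk.1, hp, hsq⟩
  calc ((((BF.Els.box (n l + 1) h).filter fun y =>
        Function.update a l y ∈ MS n M h S i j).card : ℕ) : ℝ)
      ≤ ((∑ p ∈ U, ((BF.Els.box (n l + 1) h).filter fun y =>
        Function.update a l y ∈ SB n (M : ℤ) h p S).card : ℕ) : ℝ) := by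
        exact_mod_cast (card_le_card hcov).trans card_biUnion_le
    _ ≤ ∑ _p ∈ U, 4 * (h : ℝ) ^ (n l - 1) := by
        push_cast
        apply sum_le_sum
        intro p hp
        rw [hU, mem_filter] at hp
        obtain ⟨-, hp, hhp, hp2, hpM⟩ := hp
        refine (card_upd hn hp hp2 (by exact_mod_cast hpM) S l hlS a).trans ?_
        have h1 := sq_le_four hhp
        have h2 : (0 : ℝ) ≤ (h : ℝ) ^ (n l - 1) := by positivity
        nlinarith
    _ = U.card * (4 * (h : ℝ) ^ (n l - 1)) := by rw [sum_const, nsmul_eq_mul]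
    _ ≤ (3 * n i + n j + 1) * (4 * (h : ℝ) ^ (n l - 1)) :=
        mul_le_mul_of_nonneg_right hUc (by positivity)
    _ = _ := by ring

open Classical in
theorem multi_large (hn : ∀ i, 4 ≤ n i) (M : ℕ) (hM : 0 < M) (S : Finset (Fin s))
    (hS : 3 ≤ S.card) (ε : ℝ) (hε : 0 < ε) :
    ∃ h₀ : ℕ, ∀ h : ℕ, h₀ ≤ h →
      (((tbox n h).filter fun x => (∀ i, Irreducible (GZ ℚ (BF.Els.co (M : ℤ) (x i)))) ∧
        (∀ i j, i ≠ j → IsCoprime (GZ ℚ (BF.Els.co (M : ℤ) (x i)))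
          (GZ ℚ (BF.Els.co (M : ℤ) (x j)))) ∧
        ∃ (p : ℕ) (_ : Fact p.Prime), h < p ∧ p ≠ 2 ∧ ¬ p ∣ M ∧
          SqS (AlgebraicClosure (ZMod p)) (coT (M : ℤ) x) S).card : ℝ) ≤
        ε * (h : ℝ) ^ ∑ i, (n i + 1) := by
  set J : Finset (Fin s × Fin s × Fin s) := univ.filter fun τ =>
    τ.1 ≠ τ.2.1 ∧ τ.2.2 ≠ τ.1 ∧ τ.2.2 ≠ τ.2.1 ∧ τ.2.2 ∈ S with hJ
  have key : ∀ τ : Fin s × Fin s × Fin s, ∃ h₀ : ℕ, τ ∈ J → ∀ h : ℕ, h₀ ≤ h →
      ((MS n M h S τ.1 τ.2.1).card : ℝ) ≤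
        (4 * (3 * n τ.1 + n τ.2.1 + 1) * (h : ℝ) ^ (n τ.2.2 - 1)) *
          ∏ i ∈ {τ.2.2}ᶜ, ((BF.Els.box (n i + 1) h).card : ℝ) := by
    intro τ
    by_cases hτ : τ ∈ J
    · have hτ' := hτ
      rw [hJ, mem_filter] at hτ'
      obtain ⟨-, h1, h2, h3, h4⟩ := hτ'
      obtain ⟨h₀, hh⟩ := card_MS hn M hM S τ.1 τ.2.1 τ.2.2 h1 h2 h3 h4
      exact ⟨h₀, fun _ => hh⟩
    · exact ⟨0, fun h => absurd h hτ⟩
  choose H₀ hk using key
  obtain ⟨K, hK⟩ : ∃ K : ℕ, K = ∑ τ ∈ J, 4 * (3 * n τ.1 + n τ.2.1 + 1) := ⟨_, rfl⟩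
  refine ⟨(∑ τ, H₀ τ) + ⌈(K : ℝ) / ε⌉₊ + 1, fun h hh => ?_⟩
  have hh1 : 1 ≤ h := by omega
  have hHle : ∀ τ, H₀ τ ≤ h := by
    intro τ
    have := Finset.single_le_sum (f := H₀) (fun _ _ => Nat.zero_le _) (mem_univ τ)
    omega
  have hKh : (K : ℝ) ≤ ε * h := by
    have h1 : (K : ℝ) / ε ≤ ⌈(K : ℝ) / ε⌉₊ := Nat.le_ceil _
    have h2 : ((⌈(K : ℝ) / ε⌉₊ : ℕ) : ℝ) ≤ h := by
      have : ⌈(K : ℝ) / ε⌉₊ ≤ h := by omega
      exact_mod_cast this
    rw [mul_comm]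
    exact (div_le_iff₀ hε).1 (h1.trans h2)
  have hh1r : (1 : ℝ) ≤ h := by exact_mod_cast hh1
  have hcov : ((tbox n h).filter fun x => (∀ i, Irreducible (GZ ℚ (BF.Els.co (M : ℤ) (x i)))) ∧
        (∀ i j, i ≠ j → IsCoprime (GZ ℚ (BF.Els.co (M : ℤ) (x i)))
          (GZ ℚ (BF.Els.co (M : ℤ) (x j)))) ∧
        ∃ (p : ℕ) (_ : Fact p.Prime), h < p ∧ p ≠ 2 ∧ ¬ p ∣ M ∧
          SqS (AlgebraicClosure (ZMod p)) (coT (M : ℤ) x) S) ⊆
      J.biUnion fun τ => MS n M h S τ.1 τ.2.1 := by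
    intro x hx
    rw [mem_filter] at hx
    obtain ⟨hxt, hirr, hcop, p, hp, hhp, hp2, hpM, hsq⟩ := hx
    have hxt' := Fintype.mem_piFinset.1 hxt
    obtain ⟨i, hi, j, hj, hij, hor⟩ := exists_root hn (coT (M : ℤ) x)
      (fun k => DQ.ElsC.not_dvd_co hp.out hpM hhp (hxt' k) (by linarith [hn k])) S (by omega) hsq
    obtain ⟨l, hl⟩ : ((S.erase i).erase j).Nonempty := by
      rw [← card_pos]
      have h1 := card_erase_of_mem hi
      have h2 : (S.erase i).card - 1 ≤ ((S.erase i).erase j).card := pred_card_le_card_erase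
      omega
    rw [mem_erase, mem_erase] at hl
    rw [mem_biUnion]
    refine ⟨(i, j, l), ?_, ?_⟩
    · rw [hJ, mem_filter]
      exact ⟨mem_univ _, hij, hl.2.1, hl.1, hl.2.2⟩
    · rw [MS, mem_filter]
      exact ⟨hxt, hirr, hcop, p, hp, hhp, hp2, hpM, hsq, hor⟩
  have hτ : ∀ τ ∈ J, ((MS n M h S τ.1 τ.2.1).card : ℝ) ≤
      (4 * (3 * n τ.1 + n τ.2.1 + 1) : ℕ) * ((h : ℝ) ^ (∑ i, (n i + 1)) / h) := by
    intro τ hτ
    refine (hk τ hτ h (hHle τ)).trans ?_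
    have e1 : (h : ℝ) ^ (n τ.2.2 - 1) * ∏ i ∈ {τ.2.2}ᶜ, ((BF.Els.box (n i + 1) h).card : ℝ) ≤
        (h : ℝ) ^ (∑ i, (n i + 1)) / h := by
      rw [le_div_iff₀ (by positivity), prod_congr rfl fun i _ => by rw [BF.Els.card_box]]
      push_cast
      rw [prod_pow_eq_pow_sum, ← pow_add, ← pow_succ]
      apply pow_le_pow_right₀ hh1r
      rw [Fintype.sum_eq_add_sum_compl τ.2.2]
      omega
    calc _ = (4 * (3 * n τ.1 + n τ.2.1 + 1) : ℕ) * ((h : ℝ) ^ (n τ.2.2 - 1) *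
          ∏ i ∈ {τ.2.2}ᶜ, ((BF.Els.box (n i + 1) h).card : ℝ)) := by push_cast; ring
      _ ≤ _ := mul_le_mul_of_nonneg_left e1 (by positivity)
  calc _ ≤ ((∑ τ ∈ J, (MS n M h S τ.1 τ.2.1).card : ℕ) : ℝ) := by
        exact_mod_cast (card_le_card hcov).trans card_biUnion_le
    _ ≤ ∑ τ ∈ J, ((4 * (3 * n τ.1 + n τ.2.1 + 1) : ℕ) : ℝ) *
          ((h : ℝ) ^ (∑ i, (n i + 1)) / h) := by
        push_cast
        have := sum_le_sum hτ
        push_cast at this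
        exact this
    _ = K * ((h : ℝ) ^ (∑ i, (n i + 1)) / h) := by
        rw [← sum_mul, hK]
        push_cast
        rfl
    _ ≤ (ε * h) * ((h : ℝ) ^ (∑ i, (n i + 1)) / h) :=
        mul_le_mul_of_nonneg_right hKh (by positivity)
    _ = ε * (h : ℝ) ^ (∑ i, (n i + 1)) := by
        field_simp

end Stoll308.EA
end

section
set_option autoImplicit false

/-!
One or two polynomials modulo the primes `p > h`.
-/

namespace Stoll308.EA

open Polynomial Finset BF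

open Classical in
theorem single_large (n : ℕ) (hn : 4 ≤ n) (he : Even n) (M : ℕ) (hM : 0 < M) :
    ∃ h₀ : ℕ, ∀ h : ℕ, h₀ ≤ h →
      (((BF.Els.box (n + 1) h).filter fun t => ∃ (p : ℕ) (_ : Fact p.Prime), h < p ∧ p ≠ 2 ∧
        ¬ p ∣ M ∧ BF.Els.SqK (AlgebraicClosure (ZMod p)) (BF.Els.co (M : ℤ) t)).card : ℝ) ≤
        (n + 1) * (h : ℝ) ^ n := by
  obtain ⟨C, hC0, hC⟩ := BF.Els.RR_bound n hn he
  have hMz : (0 : ℤ) < (M : ℤ) := by exact_mod_cast hM
  have hM0 : (0 : ℝ) < M := by exact_mod_cast hM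
  obtain ⟨C', hC'⟩ : ∃ C' : ℕ, C' = ⌈C * (2 * M) ^ (n - 1)⌉₊ := ⟨_, rfl⟩
  refine ⟨C' + 2, fun h hH => ?_⟩
  have hhC : C' < h := by omega
  have hh1 : 1 ≤ h := by omega
  have hh1' : (1 : ℝ) ≤ h := by exact_mod_cast hh1
  have hRR : ∀ t ∈ BF.Els.box (n + 1) h,
      (BF.Els.RR (BF.Els.co (M : ℤ) t)).natAbs < h ^ n := by
    intro t ht
    have h1 := hC (M * (h + 1)) (by positivity) (BF.Els.co (M : ℤ) t) (by
      intro i
      have h2 := DQ.co_size hM ht i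
      rw [abs_of_pos (by exact_mod_cast h2.1)]
      exact_mod_cast h2.2)
    have h2 : C * ((M : ℝ) * (h + 1)) ^ (n - 1) < (h : ℝ) ^ n := by
      have h3 : (M : ℝ) * (h + 1) ≤ (2 * M) * h := by nlinarith
      have h4 : ((M : ℝ) * (h + 1)) ^ (n - 1) ≤ ((2 * M) * h) ^ (n - 1) :=
        pow_le_pow_left₀ (by positivity) h3 _
      have h5 : C * (2 * M) ^ (n - 1) ≤ C' := by
        rw [hC']
        exact Nat.le_ceil _
      have h6 : (C' : ℝ) < h := by exact_mod_cast hhC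
      have h7 : (0 : ℝ) < (h : ℝ) ^ (n - 1) := by positivity
      have h8 : (h : ℝ) ^ n = h * (h : ℝ) ^ (n - 1) := by
        rw [← pow_succ']
        congr 1
        omega
      calc C * ((M : ℝ) * (h + 1)) ^ (n - 1) ≤ C * ((2 * M) * h) ^ (n - 1) :=
            mul_le_mul_of_nonneg_left h4 hC0
        _ = (C * (2 * M) ^ (n - 1)) * (h : ℝ) ^ (n - 1) := by
            rw [mul_pow]
            ring
        _ < h * (h : ℝ) ^ (n - 1) := mul_lt_mul_of_pos_right (by linarith) h7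
        _ = (h : ℝ) ^ n := h8.symm
    have h3 : (((BF.Els.RR (BF.Els.co (M : ℤ) t)).natAbs : ℕ) : ℝ) < (h : ℝ) ^ n := by
      rw [Nat.cast_natAbs]
      push_cast
      exact lt_of_le_of_lt h1 h2
    exact_mod_cast h3
  have hsub : ((BF.Els.box (n + 1) h).filter fun t => ∃ (p : ℕ) (_ : Fact p.Prime), h < p ∧
      p ≠ 2 ∧ ¬ p ∣ M ∧ BF.Els.SqK (AlgebraicClosure (ZMod p)) (BF.Els.co (M : ℤ) t)) ⊆
      BF.Els.E1 n M h ∪ BF.Els.E2 n M h := by
    intro t ht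
    rw [mem_filter] at ht
    obtain ⟨hb, p, hp, hph, hp2, hpM, hcon⟩ := ht
    have hpp : p.Prime := hp.out
    have hpMz : ¬ (p : ℤ) ∣ (M : ℤ) := by
      intro h1
      exact hpM (by exact_mod_cast h1)
    have h2K : (2 : AlgebraicClosure (ZMod p)) ≠ 0 := by
      intro h0
      apply BG.Els.two_ne (p := p) hp2
      apply (algebraMap (ZMod p) (AlgebraicClosure (ZMod p))).injective
      rw [map_ofNat, map_zero]
      exact h0
    have ha0 : (BF.Els.co (M : ℤ) t 0 : AlgebraicClosure (ZMod p)) ≠ 0 := by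
      intro h0
      rw [BG.PEls.cast_eq_zero (p := p), BF.Els.co_lt _ t (by rw [Fin.val_zero]; omega)] at h0
      rcases (Nat.prime_iff_prime_int.1 hpp).dvd_or_dvd h0 with h4 | h4
      · exact hpMz h4
      · have h5 := BF.Els.pos_of_box hb 0
        have h6 := Int.le_of_dvd (by linarith [h5.1]) h4
        have h7 : (h : ℤ) < p := by exact_mod_cast hph
        linarith [h5.2]
    have hrel : (p : ℤ) ∣ BF.Els.RR (BF.Els.co (M : ℤ) t) ∧
        (p : ℤ) ∣ BF.Els.NN (BF.Els.co (M : ℤ) t) := by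
      obtain ⟨m, hm⟩ := he
      have hm2 : n = 2 * m := by omega
      subst hm2
      exact BF.Els.rel (K := AlgebraicClosure (ZMod p)) (by omega) h2K ha0 hcon
    rw [mem_union]
    by_cases hR0 : BF.Els.RR (BF.Els.co (M : ℤ) t) = 0
    · left
      rw [BF.Els.E1, mem_filter]
      exact ⟨hb, hR0⟩
    · right
      rw [BF.Els.E2, mem_filter]
      exact ⟨hb, hR0, p, hpp, hph, hp2, hpMz, hrel.1, hrel.2⟩
  have hE1 := BF.Els.card_E1 hn hMz h
  have hE2 := BF.Els.card_E2 hn (M := (M : ℤ)) hRR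
  have h1 : (((BF.Els.box (n + 1) h).filter fun t => ∃ (p : ℕ) (_ : Fact p.Prime), h < p ∧
      p ≠ 2 ∧ ¬ p ∣ M ∧ BF.Els.SqK (AlgebraicClosure (ZMod p)) (BF.Els.co (M : ℤ) t)).card : ℝ) ≤
      ((BF.Els.E1 n M h).card : ℝ) + ((BF.Els.E2 n M h).card : ℝ) := by
    exact_mod_cast (card_le_card hsub).trans (card_union_le _ _)
  linarith

open Classical in
theorem pair_large (n m : ℕ) (hn : 4 ≤ n) (hm : 4 ≤ m) (M : ℕ) (hM : 0 < M) (ε : ℝ)
    (hε : 0 < ε) :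
    ∃ h₀ : ℕ, ∀ h : ℕ, h₀ ≤ h →
      (((BF.Els.box (n + 1) h ×ˢ BF.Els.box (m + 1) h).filter fun x =>
        ∃ (p : ℕ) (_ : Fact p.Prime), h < p ∧ p ≠ 2 ∧ ¬ p ∣ M ∧
          DQ.Sq2 (AlgebraicClosure (ZMod p)) (BF.Els.co (M : ℤ) x.1)
            (BF.Els.co (M : ℤ) x.2)).card : ℝ) ≤ ε * (h : ℝ) ^ (n + m + 2) := by
  obtain ⟨h₁, hh₁⟩ := DQ.irr_box n hn M hM (ε / 3) (by positivity)
  obtain ⟨h₂, hh₂⟩ := DQ.card_E4 n m hn hm M hM
  obtain ⟨h₃, hh₃⟩ := DQ.card_E5 n m hn hm M hM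
  obtain ⟨h₄, hh₄⟩ := exists_nat_ge ((3 * (8 * n + m + 5) / ε : ℝ))
  refine ⟨h₁ + h₂ + h₃ + h₄ + 1, fun h hh => ?_⟩
  have g1 := hh₁ h (by omega)
  have g2 := hh₂ h (by omega)
  have g3 := hh₃ h (by omega)
  have hh1 : (1 : ℝ) ≤ h := by exact_mod_cast (by omega : 1 ≤ h)
  have g4 : (3 * (8 * n + m + 5) / ε : ℝ) ≤ h := hh₄.trans (by exact_mod_cast (by omega : h₄ ≤ h))
  set E4 := (BF.Els.box (n + 1) h ×ˢ BF.Els.box (m + 1) h).filter fun x =>
        Irreducible (GZ ℚ (BF.Els.co (M : ℤ) x.1)) ∧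
        ∃ (p : ℕ) (_ : Fact p.Prime), h < p ∧ p ≠ 2 ∧ ¬ p ∣ M ∧
          ¬ Squarefree (GZ (AlgebraicClosure (ZMod p)) (BF.Els.co (M : ℤ) x.1)) ∧
          DQ.Sq2 (AlgebraicClosure (ZMod p)) (BF.Els.co (M : ℤ) x.1)
            (BF.Els.co (M : ℤ) x.2) with hE4
  set E5 := (BF.Els.box (n + 1) h ×ˢ BF.Els.box (m + 1) h).filter fun x =>
        ∃ (p : ℕ) (_ : Fact p.Prime), h < p ∧ p ≠ 2 ∧ ¬ p ∣ M ∧
          Squarefree (GZ (AlgebraicClosure (ZMod p)) (BF.Els.co (M : ℤ) x.1)) ∧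
          DQ.Sq2 (AlgebraicClosure (ZMod p)) (BF.Els.co (M : ℤ) x.1)
            (BF.Els.co (M : ℤ) x.2) with hE5
  set E0 := (BF.Els.box (n + 1) h).filter fun t =>
      ¬ Irreducible (GZ ℚ (BF.Els.co (M : ℤ) t)) with hE0
  have hsub : ((BF.Els.box (n + 1) h ×ˢ BF.Els.box (m + 1) h).filter fun x =>
        ∃ (p : ℕ) (_ : Fact p.Prime), h < p ∧ p ≠ 2 ∧ ¬ p ∣ M ∧
          DQ.Sq2 (AlgebraicClosure (ZMod p)) (BF.Els.co (M : ℤ) x.1)
            (BF.Els.co (M : ℤ) x.2)) ⊆ (E0 ×ˢ BF.Els.box (m + 1) h) ∪ (E4 ∪ E5) := by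
    intro x hx
    rw [mem_filter] at hx
    obtain ⟨hb, p, hp, hph, hp2, hpM, hcon⟩ := hx
    have hb' := mem_product.1 hb
    rw [mem_union, mem_union]
    by_cases hirr : Irreducible (GZ ℚ (BF.Els.co (M : ℤ) x.1))
    · right
      by_cases hsq : Squarefree (GZ (AlgebraicClosure (ZMod p)) (BF.Els.co (M : ℤ) x.1))
      · right
        rw [hE5, mem_filter]
        exact ⟨hb, p, hp, hph, hp2, hpM, hsq, hcon⟩
      · left
        rw [hE4, mem_filter]
        exact ⟨hb, hirr, p, hp, hph, hp2, hpM, hsq, hcon⟩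
    · left
      rw [mem_product, hE0, mem_filter]
      exact ⟨⟨hb'.1, hirr⟩, hb'.2⟩
  have h1 := (card_le_card hsub).trans ((card_union_le _ _).trans
    (Nat.add_le_add_left (card_union_le _ _) _))
  rw [card_product, BF.Els.card_box] at h1
  have h2 : (((BF.Els.box (n + 1) h ×ˢ BF.Els.box (m + 1) h).filter fun x =>
        ∃ (p : ℕ) (_ : Fact p.Prime), h < p ∧ p ≠ 2 ∧ ¬ p ∣ M ∧
          DQ.Sq2 (AlgebraicClosure (ZMod p)) (BF.Els.co (M : ℤ) x.1)
            (BF.Els.co (M : ℤ) x.2)).card : ℝ) ≤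
        (E0.card : ℝ) * (h : ℝ) ^ (m + 1) + ((E4.card : ℝ) + (E5.card : ℝ)) := by
    exact_mod_cast h1
  have e1 : (E0.card : ℝ) * (h : ℝ) ^ (m + 1) ≤ ε / 3 * (h : ℝ) ^ (n + m + 2) := by
    calc (E0.card : ℝ) * (h : ℝ) ^ (m + 1) ≤ (ε / 3 * (h : ℝ) ^ (n + 1)) * (h : ℝ) ^ (m + 1) :=
          mul_le_mul_of_nonneg_right g1 (by positivity)
      _ = ε / 3 * (h : ℝ) ^ (n + m + 2) := by
          rw [mul_assoc, ← pow_add]
          congr 2
          ring
  have e2 : (h : ℝ) ^ (n + m) ≤ (h : ℝ) ^ (n + m + 1) := pow_le_pow_right₀ hh1 (by omega)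
  have e3 : (3 * (8 * n + m + 5) : ℝ) ≤ ε * h := by
    rw [div_le_iff₀ hε] at g4
    linarith
  have e4 : (h : ℝ) ^ (n + m + 2) = h * (h : ℝ) ^ (n + m + 1) := pow_succ' _ _
  have e5 : (0 : ℝ) ≤ (h : ℝ) ^ (n + m + 1) := by positivity
  have e6 : (E4.card : ℝ) ≤ 8 * n * (h : ℝ) ^ (n + m + 1) :=
    g2.trans (mul_le_mul_of_nonneg_left e2 (by positivity))
  have e7 := mul_le_mul_of_nonneg_right e3 e5
  have e8 : ε / 3 * (h : ℝ) ^ (n + m + 2) = (ε * h * (h : ℝ) ^ (n + m + 1)) / 3 := by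
    rw [e4]
    ring
  have e9 : (0 : ℝ) ≤ ε / 3 * (h : ℝ) ^ (n + m + 2) := by positivity
  have e10 : (E4.card : ℝ) + (E5.card : ℝ) ≤ (8 * n + m + 5) * (h : ℝ) ^ (n + m + 1) := by
    linarith
  have e11 : (8 * n + m + 5 : ℝ) * (h : ℝ) ^ (n + m + 1) ≤ ε / 3 * (h : ℝ) ^ (n + m + 2) := by
    rw [e8]
    linarith
  linarith

open Classical in
theorem coprime_box (n m : ℕ) (hn : 4 ≤ n) (hm : 4 ≤ m) (M : ℕ) (hM : 0 < M) (ε : ℝ)
    (hε : 0 < ε) :
    ∃ h₀ : ℕ, ∀ h : ℕ, h₀ ≤ h →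
      (((BF.Els.box (n + 1) h ×ˢ BF.Els.box (m + 1) h).filter fun x =>
        ¬ IsCoprime (GZ ℚ (BF.Els.co (M : ℤ) x.1)) (GZ ℚ (BF.Els.co (M : ℤ) x.2))).card : ℝ) ≤
        ε * (h : ℝ) ^ (n + m + 2) := by
  have hMz : (0 : ℤ) < (M : ℤ) := by exact_mod_cast hM
  have hM0 : (0 : ℝ) < M := by exact_mod_cast hM
  obtain ⟨H₀, hH⟩ := DQ.smooth_small n m hn hm (ε / (2 * M) ^ (n + m + 2)) (by positivity)
  refine ⟨H₀ + 1, fun h hh => ?_⟩
  have h1 := hH (M * (h + 1)) (by nlinarith)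
  have hh1 : (1 : ℝ) ≤ h := by exact_mod_cast (by omega : 1 ≤ h)
  have hmem : ∀ {N : ℕ} (t : Fin (N + 1) → ℤ), t ∈ BF.Els.box (N + 1) h →
      BF.Els.co (M : ℤ) t ∈ Fintype.piFinset fun _ : Fin (N + 1) =>
        Icc (-(((M * (h + 1) : ℕ)) : ℤ)) (((M * (h + 1) : ℕ)) : ℤ) := by
    intro N t ht
    rw [Fintype.mem_piFinset]
    intro i
    have h2 := DQ.co_size hM ht i
    rw [mem_Icc]
    push_cast
    constructor
    · have : (0 : ℤ) ≤ (M : ℤ) * (h + 1) := by positivity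
      linarith [h2.1]
    · exact h2.2
  have hinj : ((BF.Els.box (n + 1) h ×ˢ BF.Els.box (m + 1) h).filter fun x =>
      ¬ IsCoprime (GZ ℚ (BF.Els.co (M : ℤ) x.1)) (GZ ℚ (BF.Els.co (M : ℤ) x.2))).card ≤
      DQ.cnt n m (fun a b => ¬ DQ.Smooth a b) (M * (h + 1)) := by
    unfold DQ.cnt
    apply card_le_card_of_injOn
      (fun x => ((BF.Els.co (M : ℤ) x.1 : Fin (n + 1) → ℤ), (BF.Els.co (M : ℤ) x.2 : Fin (m + 1) → ℤ)))
    · intro x hx
      rw [mem_coe, mem_filter] at hx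
      have hx' := mem_product.1 hx.1
      refine mem_coe.2 ((@mem_filter _ _ (fun a => Classical.propDecidable _) _ _).2
        ⟨mem_product.2 ⟨hmem _ hx'.1, hmem _ hx'.2⟩, ?_⟩)
      intro hs
      apply hx.2
      exact (squarefree_mul_iff.1 hs.2.2).1.isCoprime
    · intro x _ y _ hxy
      rw [Prod.ext_iff] at hxy ⊢
      refine ⟨?_, ?_⟩
      · funext i
        exact BF.Els.co_inj hMz.ne' (congrFun hxy.1 i)
      · funext i
        exact BF.Els.co_inj hMz.ne' (congrFun hxy.2 i)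
  have h3 : (((BF.Els.box (n + 1) h ×ˢ BF.Els.box (m + 1) h).filter fun x =>
      ¬ IsCoprime (GZ ℚ (BF.Els.co (M : ℤ) x.1)) (GZ ℚ (BF.Els.co (M : ℤ) x.2))).card : ℝ) ≤
      ε / (2 * M) ^ (n + m + 2) * ((M * (h + 1) : ℕ) : ℝ) ^ (n + m + 2) :=
    le_trans (by exact_mod_cast hinj) h1
  refine h3.trans ?_
  have h4 : ((M * (h + 1) : ℕ) : ℝ) ≤ 2 * M * h := by
    push_cast
    nlinarith
  have h5 : ((M * (h + 1) : ℕ) : ℝ) ^ (n + m + 2) ≤ (2 * M * h) ^ (n + m + 2) :=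
    pow_le_pow_left₀ (by positivity) h4 _
  calc ε / (2 * M) ^ (n + m + 2) * ((M * (h + 1) : ℕ) : ℝ) ^ (n + m + 2)
      ≤ ε / (2 * M) ^ (n + m + 2) * (2 * M * h) ^ (n + m + 2) :=
        mul_le_mul_of_nonneg_left h5 (by positivity)
    _ = ε * (h : ℝ) ^ (n + m + 2) := by
        rw [mul_pow (2 * (M : ℝ)) h]
        field_simp

end Stoll308.EA
end

section
set_option autoImplicit false

/-!
All subsets, modulo the primes `p > h`.
-/

namespace Stoll308.EA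

open Polynomial Finset BF

variable {s : ℕ} {n : Fin s → ℕ}

open Classical in
/-- Few tuples of parameters have the property. -/
def TSm (n : Fin s → ℕ) (P : ℕ → (∀ i, Fin (n i + 1) → ℤ) → Prop) : Prop :=
  ∀ ε : ℝ, 0 < ε → ∃ h₀ : ℕ, ∀ h : ℕ, h₀ ≤ h →
    (((tbox n h).filter (P h)).card : ℝ) ≤ ε * (h : ℝ) ^ ∑ i, (n i + 1)

lemma TSm.mono {P Q : ℕ → (∀ i, Fin (n i + 1) → ℤ) → Prop} (hQ : TSm n Q)
    (hPQ : ∀ h, ∀ x ∈ tbox n h, P h x → Q h x) : TSm n P := by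
  classical
  intro ε hε
  obtain ⟨h₀, h1⟩ := hQ ε hε
  refine ⟨h₀, fun h hh => le_trans ?_ (h1 h hh)⟩
  rw [Nat.cast_le]
  apply card_le_card
  intro x hx
  rw [mem_filter] at hx ⊢
  exact ⟨hx.1, hPQ h x hx.1 hx.2⟩

lemma TSm.or {P Q : ℕ → (∀ i, Fin (n i + 1) → ℤ) → Prop} (hP : TSm n P) (hQ : TSm n Q) :
    TSm n (fun h x => P h x ∨ Q h x) := by
  classical
  intro ε hε
  obtain ⟨h₁, h1⟩ := hP (ε / 2) (half_pos hε)
  obtain ⟨h₂, h2⟩ := hQ (ε / 2) (half_pos hε)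
  refine ⟨max h₁ h₂, fun h hh => ?_⟩
  have e1 := h1 h ((le_max_left _ _).trans hh)
  have e2 := h2 h ((le_max_right _ _).trans hh)
  have e3 : ((tbox n h).filter fun x => P h x ∨ Q h x).card ≤
      ((tbox n h).filter (P h)).card + ((tbox n h).filter (Q h)).card := by
    refine le_trans (card_le_card ?_) (card_union_le _ _)
    intro x hx
    rw [mem_filter] at hx
    rw [mem_union, mem_filter, mem_filter]
    rcases hx.2 with h | h
    · exact Or.inl ⟨hx.1, h⟩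
    · exact Or.inr ⟨hx.1, h⟩
  have e4 : (((tbox n h).filter fun x => P h x ∨ Q h x).card : ℝ) ≤
      ((tbox n h).filter (P h)).card + ((tbox n h).filter (Q h)).card := by exact_mod_cast e3
  have e5 : ε * (h : ℝ) ^ ∑ i, (n i + 1) =
      ε / 2 * (h : ℝ) ^ ∑ i, (n i + 1) + ε / 2 * (h : ℝ) ^ ∑ i, (n i + 1) := by ring
  rw [e5]
  refine le_trans (le_of_eq ?_) (e4.trans (add_le_add e1 e2))
  congr!

lemma tsm_false : TSm n (fun _ _ => False) := by
  classical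
  intro ε hε
  refine ⟨0, fun h _ => ?_⟩
  rw [filter_false, card_empty, Nat.cast_zero]
  positivity

lemma TSm.exists {κ : Type*} (J : Finset κ) (P : κ → ℕ → (∀ i, Fin (n i + 1) → ℤ) → Prop)
    (h : ∀ k ∈ J, TSm n (P k)) : TSm n (fun h x => ∃ k ∈ J, P k h x) := by
  classical
  induction J using Finset.induction_on with
  | empty => exact tsm_false.mono fun h x _ hx => by simp at hx
  | insert k J hk ih =>
    refine ((h k (mem_insert_self _ _)).or
      (ih fun k' hk' => h k' (mem_insert_of_mem hk'))).mono ?_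
    intro h x _ hx
    obtain ⟨k', hk', hx⟩ := hx
    rcases mem_insert.1 hk' with rfl | h1
    · exact Or.inl hx
    · exact Or.inr ⟨k', h1, hx⟩

open Classical in
/-- A property of one of the vectors. -/
lemma tsm_one (i : Fin s) (P : ℕ → (Fin (n i + 1) → ℤ) → Prop)
    (h : ∀ ε : ℝ, 0 < ε → ∃ h₀ : ℕ, ∀ h : ℕ, h₀ ≤ h →
      (((BF.Els.box (n i + 1) h).filter (P h)).card : ℝ) ≤ ε * (h : ℝ) ^ (n i + 1)) :
    TSm n (fun h x => P h (x i)) := by
  intro ε hε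
  obtain ⟨h₀, h1⟩ := h ε hε
  refine ⟨h₀, fun h hh => ?_⟩
  have e1 := h1 h hh
  have e2 := card_pi_le (fun i => BF.Els.box (n i + 1) h) {i} (fun a => a i)
    (by
      intro a b hab k hk
      rw [mem_singleton] at hk
      subst hk
      exact hab)
    ((tbox n h).filter fun a => P h (a i)) (filter_subset _ _)
    ((BF.Els.box (n i + 1) h).filter (P h)) (by
      intro a ha
      rw [mem_filter] at ha ⊢
      exact ⟨Fintype.mem_piFinset.1 ha.1 i, ha.2⟩)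
  rw [prod_congr rfl fun k _ => BF.Els.card_box (n k + 1) h, prod_pow_eq_pow_sum] at e2
  have e3 : ((((tbox n h).filter fun a => P h (a i)).card : ℕ) : ℝ) ≤
      ((BF.Els.box (n i + 1) h).filter (P h)).card * (h : ℝ) ^ ∑ k ∈ {i}ᶜ, (n k + 1) := by
    exact_mod_cast e2
  calc _ ≤ (((BF.Els.box (n i + 1) h).filter (P h)).card : ℝ) *
        (h : ℝ) ^ ∑ k ∈ {i}ᶜ, (n k + 1) := e3
    _ ≤ (ε * (h : ℝ) ^ (n i + 1)) * (h : ℝ) ^ ∑ k ∈ {i}ᶜ, (n k + 1) :=
        mul_le_mul_of_nonneg_right e1 (by positivity)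
    _ = _ := by
        rw [Fintype.sum_eq_add_sum_compl i, mul_assoc, ← pow_add]

open Classical in
/-- A property of two of the vectors. -/
lemma tsm_two (i j : Fin s) (hij : i ≠ j)
    (P : ℕ → (Fin (n i + 1) → ℤ) → (Fin (n j + 1) → ℤ) → Prop)
    (h : ∀ ε : ℝ, 0 < ε → ∃ h₀ : ℕ, ∀ h : ℕ, h₀ ≤ h →
      (((BF.Els.box (n i + 1) h ×ˢ BF.Els.box (n j + 1) h).filter fun x =>
        P h x.1 x.2).card : ℝ) ≤ ε * (h : ℝ) ^ (n i + n j + 2)) :
    TSm n (fun h x => P h (x i) (x j)) := by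
  intro ε hε
  obtain ⟨h₀, h1⟩ := h ε hε
  refine ⟨h₀, fun h hh => ?_⟩
  have e1 := h1 h hh
  have e2 := card_pi_le (fun i => BF.Els.box (n i + 1) h) {i, j} (fun a => (a i, a j))
    (by
      intro a b hab k hk
      rw [mem_insert, mem_singleton] at hk
      rw [Prod.ext_iff] at hab
      rcases hk with rfl | rfl
      · exact hab.1
      · exact hab.2)
    ((tbox n h).filter fun a => P h (a i) (a j)) (filter_subset _ _)
    ((BF.Els.box (n i + 1) h ×ˢ BF.Els.box (n j + 1) h).filter fun x => P h x.1 x.2) (by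
      intro a ha
      rw [mem_filter] at ha ⊢
      exact ⟨mem_product.2 ⟨Fintype.mem_piFinset.1 ha.1 i, Fintype.mem_piFinset.1 ha.1 j⟩, ha.2⟩)
  rw [prod_congr rfl fun k _ => BF.Els.card_box (n k + 1) h, prod_pow_eq_pow_sum] at e2
  have e3 : ((((tbox n h).filter fun a => P h (a i) (a j)).card : ℕ) : ℝ) ≤
      ((BF.Els.box (n i + 1) h ×ˢ BF.Els.box (n j + 1) h).filter fun x => P h x.1 x.2).card *
        (h : ℝ) ^ ∑ k ∈ {i, j}ᶜ, (n k + 1) := by
    exact_mod_cast e2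
  calc _ ≤ (((BF.Els.box (n i + 1) h ×ˢ BF.Els.box (n j + 1) h).filter fun x =>
          P h x.1 x.2).card : ℝ) * (h : ℝ) ^ ∑ k ∈ {i, j}ᶜ, (n k + 1) := e3
    _ ≤ (ε * (h : ℝ) ^ (n i + n j + 2)) * (h : ℝ) ^ ∑ k ∈ {i, j}ᶜ, (n k + 1) :=
        mul_le_mul_of_nonneg_right e1 (by positivity)
    _ = _ := by
        rw [mul_assoc, ← pow_add, ← Finset.sum_add_sum_compl {i, j}, sum_pair hij]
        congr 2
        ring

/-- A product over one element. -/
lemma sqK_of_single {K : Type*} [Field K] (a : ∀ i, Fin (n i + 1) → ℤ) (i : Fin s)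
    (h : SqS K a {i}) : BF.Els.SqK K (a i) := by
  obtain ⟨c, u, h⟩ := h
  rw [prod_singleton] at h
  exact ⟨c, expand K (2 * 1) u, by rw [h, map_mul, map_pow, expand_C]⟩

/-- A product over two elements. -/
lemma sq2_of_pair {K : Type*} [Field K] (a : ∀ i, Fin (n i + 1) → ℤ) (i j : Fin s) (hij : i ≠ j)
    (h : SqS K a {i, j}) : DQ.Sq2 K (a i) (a j) := by
  obtain ⟨c, u, h⟩ := h
  rw [prod_pair hij] at h
  exact ⟨c, u, h⟩

open Classical in
theorem large_primes (hn : ∀ i, 4 ≤ n i) (he : ∀ i, Even (n i)) (M : ℕ) (hM : 0 < M) (ε : ℝ)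
    (hε : 0 < ε) :
    ∃ h₀ : ℕ, ∀ h : ℕ, h₀ ≤ h →
      (((tbox n h).filter fun x => ∃ S : Finset (Fin s), S.Nonempty ∧
        ∃ (p : ℕ) (_ : Fact p.Prime), h < p ∧ p ≠ 2 ∧ ¬ p ∣ M ∧
          SqS (AlgebraicClosure (ZMod p)) (coT (M : ℤ) x) S).card : ℝ) ≤
        ε * (h : ℝ) ^ ∑ i, (n i + 1) := by
  -- the reducible ones
  have hirr : TSm n (fun _ x => ∃ i ∈ (univ : Finset (Fin s)),
      ¬ Irreducible (GZ ℚ (BF.Els.co (M : ℤ) (x i)))) :=
    TSm.exists univ _ fun i _ => tsm_one i (fun _ y => ¬ Irreducible (GZ ℚ (BF.Els.co (M : ℤ) y)))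
      fun ε hε => by convert DQ.irr_box (n i) (hn i) M hM ε hε
  -- the ones with common factors
  have hcop : TSm n (fun _ x => ∃ q ∈ (univ : Finset (Fin s × Fin s)).filter fun q => q.1 ≠ q.2,
      ¬ IsCoprime (GZ ℚ (BF.Els.co (M : ℤ) (x q.1))) (GZ ℚ (BF.Els.co (M : ℤ) (x q.2)))) := by
    refine TSm.exists _ (fun (q : Fin s × Fin s) (_ : ℕ) (x : ∀ i, Fin (n i + 1) → ℤ) =>
      ¬ IsCoprime (GZ ℚ (BF.Els.co (M : ℤ) (x q.1))) (GZ ℚ (BF.Els.co (M : ℤ) (x q.2))))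
      fun q hq => ?_
    rw [mem_filter] at hq
    exact tsm_two q.1 q.2 hq.2 (fun _ y z =>
      ¬ IsCoprime (GZ ℚ (BF.Els.co (M : ℤ) y)) (GZ ℚ (BF.Els.co (M : ℤ) z)))
      fun ε hε => by convert coprime_box (n q.1) (n q.2) (hn _) (hn _) M hM ε hε
  have key : TSm n (fun h x => ∃ S ∈ (univ : Finset (Finset (Fin s))).filter fun S => S.Nonempty,
      ∃ (p : ℕ) (_ : Fact p.Prime), h < p ∧ p ≠ 2 ∧ ¬ p ∣ M ∧
        SqS (AlgebraicClosure (ZMod p)) (coT (M : ℤ) x) S) := by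
    refine TSm.exists _ (fun (S : Finset (Fin s)) (h : ℕ) (x : ∀ i, Fin (n i + 1) → ℤ) =>
      ∃ (p : ℕ) (_ : Fact p.Prime), h < p ∧ p ≠ 2 ∧ ¬ p ∣ M ∧
        SqS (AlgebraicClosure (ZMod p)) (coT (M : ℤ) x) S) fun S hS => ?_
    rw [mem_filter] at hS
    have hS1 : 0 < S.card := hS.2.card_pos
    rcases (by omega : S.card = 1 ∨ S.card = 2 ∨ 3 ≤ S.card) with h1 | h2 | h3
    · obtain ⟨i, rfl⟩ := card_eq_one.1 h1
      refine (tsm_one i (fun h y => ∃ (p : ℕ) (_ : Fact p.Prime), h < p ∧ p ≠ 2 ∧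
        ¬ p ∣ M ∧ BF.Els.SqK (AlgebraicClosure (ZMod p)) (BF.Els.co (M : ℤ) y)) ?_).mono ?_
      · intro ε hε
        obtain ⟨h₀, h4⟩ := single_large (n i) (hn i) (he i) M hM
        refine ⟨max h₀ ⌈((n i : ℝ) + 1) / ε⌉₊, fun h hh => (h4 h ((le_max_left _ _).trans hh)).trans ?_⟩
        have h5 : ((n i : ℝ) + 1) / ε ≤ h := by
          refine (Nat.le_ceil _).trans ?_
          exact_mod_cast (le_max_right _ _).trans hh
        have h6 : (n i : ℝ) + 1 ≤ ε * h := by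
          rw [mul_comm]
          exact (div_le_iff₀ hε).1 h5
        calc ((n i : ℝ) + 1) * (h : ℝ) ^ n i ≤ (ε * h) * (h : ℝ) ^ n i :=
              mul_le_mul_of_nonneg_right h6 (by positivity)
          _ = _ := by rw [pow_succ]; ring
      · rintro h x _ ⟨p, hp, h5, h6, h7, h8⟩
        exact ⟨p, hp, h5, h6, h7, sqK_of_single (coT (M : ℤ) x) i h8⟩
    · obtain ⟨i, j, hij, rfl⟩ := card_eq_two.1 h2
      refine (tsm_two i j hij (fun h y z => ∃ (p : ℕ) (_ : Fact p.Prime), h < p ∧ p ≠ 2 ∧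
        ¬ p ∣ M ∧ DQ.Sq2 (AlgebraicClosure (ZMod p)) (BF.Els.co (M : ℤ) y)
          (BF.Els.co (M : ℤ) z)) ?_).mono ?_
      · intro ε hε
        exact pair_large (n i) (n j) (hn i) (hn j) M hM ε hε
      · rintro h x _ ⟨p, hp, h5, h6, h7, h8⟩
        exact ⟨p, hp, h5, h6, h7, sq2_of_pair (coT (M : ℤ) x) i j hij h8⟩
    · refine ((hirr.or hcop).or (Q := fun h x =>
        (∀ i, Irreducible (GZ ℚ (BF.Els.co (M : ℤ) (x i)))) ∧
        (∀ i j, i ≠ j → IsCoprime (GZ ℚ (BF.Els.co (M : ℤ) (x i)))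
          (GZ ℚ (BF.Els.co (M : ℤ) (x j)))) ∧
        ∃ (p : ℕ) (_ : Fact p.Prime), h < p ∧ p ≠ 2 ∧ ¬ p ∣ M ∧
          SqS (AlgebraicClosure (ZMod p)) (coT (M : ℤ) x) S) ?_).mono ?_
      · intro ε hε
        convert multi_large hn M hM S h3 ε hε
      · intro h x _ hx
        by_cases hi : ∀ i, Irreducible (GZ ℚ (BF.Els.co (M : ℤ) (x i)))
        · by_cases hc : ∀ i j, i ≠ j → IsCoprime (GZ ℚ (BF.Els.co (M : ℤ) (x i)))
              (GZ ℚ (BF.Els.co (M : ℤ) (x j)))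
          · exact Or.inr ⟨hi, hc, hx⟩
          · push Not at hc
            obtain ⟨i, j, hij, h4⟩ := hc
            exact Or.inl (Or.inr ⟨(i, j), mem_filter.2 ⟨mem_univ _, hij⟩, h4⟩)
        · push Not at hi
          obtain ⟨i, h4⟩ := hi
          exact Or.inl (Or.inl ⟨i, mem_univ _, h4⟩)
  obtain ⟨h₀, h1⟩ := key ε hε
  refine ⟨h₀, fun h hh => le_trans ?_ (h1 h hh)⟩
  rw [Nat.cast_le]
  apply card_le_card
  intro x hx
  rw [mem_filter] at hx
  obtain ⟨hx1, S, hS, hx2⟩ := hx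
  exact (@mem_filter _ _ (_) _ _).2 ⟨hx1, S, mem_filter.2 ⟨mem_univ _, hS⟩, hx2⟩

end Stoll308.EA
end

section
set_option autoImplicit false

/-!
Most tuples are smooth.
-/

namespace Stoll308.EA

open Polynomial Finset BF

theorem smooth_small {s : ℕ} (hs : 2 ≤ s) {n : Fin s → ℕ} (hn : ∀ i, 4 ≤ n i) :
    Small n (fun a => ¬ Smooth a) := by
  classical
  have h1 := Small.exists (n := n) ((univ : Finset (Fin s × Fin s)).filter fun p => p.1 ≠ p.2)
    (fun p a => ¬ DQ.Smooth (a p.1) (a p.2)) (by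
      intro p hp
      rw [mem_filter] at hp
      exact small_two p.1 p.2 hp.2 (fun x y => ¬ DQ.Smooth x y)
        fun ε hε => DQ.smooth_small (n p.1) (n p.2) (hn _) (hn _) ε hε)
  refine h1.mono fun a ha => ?_
  by_contra hc
  push Not at hc
  have h2 : ∀ i j, i ≠ j → DQ.Smooth (a i) (a j) := fun i j hij =>
    hc (i, j) (mem_filter.2 ⟨mem_univ _, hij⟩)
  have hnt : Nontrivial (Fin s) := Fin.nontrivial_iff_two_le.2 hs
  apply ha
  refine ⟨fun i => ?_, ?_⟩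
  · obtain ⟨j, hj⟩ := exists_ne i
    exact (h2 i j hj.symm).1
  · refine Finset.squarefree_prod_of_pairwise_isCoprime ?_ ?_
    · intro i _ j _ hij
      exact (squarefree_mul_iff.1 (h2 i j hij).2.2).1
    · intro i _
      obtain ⟨j, hj⟩ := exists_ne i
      exact (squarefree_mul_iff.1 (h2 i j hj.symm).2.2).2.1

end Stoll308.EA
end

section
set_option autoImplicit false

/-!
Few polynomials have `- a₀ aₙ` a square.
-/

namespace Stoll308.SC

open Polynomial Finset Matrix BG BF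

/-- The numbers `y` with `- x y` a square, `x ≠ 0` given. -/
lemma exists_cls (x : ℤ) (hx : x ≠ 0) : ∃ s : ℤ, ∀ y : ℤ, IsSquare (-(x * y)) →
    ∃ t : ℕ, (t : ℤ) ^ 2 ≤ |y| ∧ y = s * (t : ℤ) ^ 2 := by
  obtain ⟨s, b, h1, h2⟩ := Nat.sq_mul_squarefree x.natAbs
  have hb : b ≠ 0 := by
    rintro rfl
    apply hx
    rw [← Int.natAbs_eq_zero, ← h1]
    simp
  have hs : s ≠ 0 := h2.ne_zero
  refine ⟨-(x.sign * s), fun y hy => ?_⟩
  obtain ⟨c, hc⟩ := hy
  have h3 : x = x.sign * ((b : ℤ) ^ 2 * s) := by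
    conv_lhs => rw [← Int.sign_mul_natAbs x]
    rw [← h1]
    push_cast
    ring
  have hsg : x.sign * x.sign = 1 := by
    rcases lt_or_gt_of_ne hx with h | h
    · rw [Int.sign_eq_neg_one_of_neg h]; norm_num
    · rw [Int.sign_eq_one_of_pos h]; norm_num
  -- `b ∣ c`
  have hbc : (b : ℤ) ∣ c := by
    have : (b : ℤ) ^ 2 ∣ c ^ 2 := by
      refine ⟨-(x.sign * s * y), ?_⟩
      rw [sq c, ← hc]
      conv_lhs => rw [h3]
      ring
    exact (Int.pow_dvd_pow_iff (by norm_num)).1 this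
  obtain ⟨d, hd⟩ := hbc
  have hbz : (b : ℤ) ^ 2 ≠ 0 := pow_ne_zero _ (by exact_mod_cast hb)
  have h4 : -(x.sign * s * y) = d ^ 2 := by
    apply mul_left_cancel₀ hbz
    calc (b : ℤ) ^ 2 * -(x.sign * s * y) = -(x.sign * ((b : ℤ) ^ 2 * s) * y) := by ring
      _ = -(x * y) := by rw [← h3]
      _ = c * c := hc
      _ = _ := by rw [hd]; ring
  have hsd : (s : ℤ) ∣ d := by
    have h5 : (s : ℤ) ∣ d ^ 2 := ⟨-(x.sign * y), by rw [← h4]; ring⟩
    have h6 : Squarefree (s : ℤ) := by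
      rw [← Int.squarefree_natAbs]
      simpa using h2
    exact (h6.dvd_pow_iff_dvd (by norm_num)).1 h5
  obtain ⟨e, he⟩ := hsd
  have hsz : (s : ℤ) ≠ 0 := by exact_mod_cast hs
  have h7 : y = -(x.sign * s) * e ^ 2 := by
    have h8 : (s : ℤ) * -(x.sign * y) = s * (s * e ^ 2) := by
      rw [he] at h4
      linear_combination h4
    have h9 := mul_left_cancel₀ hsz h8
    calc y = x.sign * x.sign * y := by rw [hsg, one_mul]
      _ = -(x.sign * -(x.sign * y)) := by ring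
      _ = _ := by rw [h9]; ring
  refine ⟨e.natAbs, ?_, ?_⟩
  · rw [Int.natAbs_sq]
    have h10 : |y| = s * e ^ 2 := by
      rw [h7, abs_mul, abs_neg, abs_mul, abs_of_nonneg (sq_nonneg e)]
      have h11 : |x.sign| = 1 := by
        rcases lt_or_gt_of_ne hx with h | h
        · rw [Int.sign_eq_neg_one_of_neg h]; norm_num
        · rw [Int.sign_eq_one_of_pos h]; norm_num
      rw [h11, one_mul, abs_of_nonneg (by positivity)]
    rw [h10]
    have h12 : (1 : ℤ) ≤ s := by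
      have : 1 ≤ s := Nat.one_le_iff_ne_zero.2 hs
      exact_mod_cast this
    nlinarith [sq_nonneg e]
  · rw [Int.natAbs_sq]
    exact h7

end Stoll308.SC
end

section
set_option autoImplicit false

/-!
Few tuples have a rational point at infinity.
-/

namespace Stoll308.EA

open Polynomial Finset BF

/-- The number of `x` with `|x| ≤ H` such that `m x` is a square is at most `2 √H + 1`. -/
theorem card_sq (m : ℤ) (hm : m ≠ 0) (H : ℕ) :
    (((Icc (-(H : ℤ)) (H : ℤ)).filter fun x => IsSquare (m * x)).card : ℝ) ≤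
      2 * Real.sqrt H + 1 := by
  classical
  obtain ⟨s, hs⟩ := SC.exists_cls (-m) (neg_ne_zero.2 hm)
  have h1 : ((Icc (-(H : ℤ)) (H : ℤ)).filter fun x => IsSquare (m * x)) ⊆
      (range (Nat.sqrt H + 1)).image fun r : ℕ => s * (r : ℤ) ^ 2 := by
    intro x hx
    rw [mem_filter, mem_Icc] at hx
    obtain ⟨t, ht, h5⟩ := hs x (by
      have e : -(-m * x) = m * x := by ring
      rw [e]
      exact hx.2)
    refine mem_image.2 ⟨t, ?_, h5.symm⟩
    rw [mem_range, Nat.lt_succ_iff, Nat.le_sqrt']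
    have := ht.trans (abs_le.2 hx.1)
    exact_mod_cast this
  have h2 : ((Icc (-(H : ℤ)) (H : ℤ)).filter fun x => IsSquare (m * x)).card ≤ Nat.sqrt H + 1 :=
    (card_le_card h1).trans (card_image_le.trans (by rw [card_range]))
  have h3 : (Nat.sqrt H : ℝ) ≤ √(H : ℝ) := Real.nat_sqrt_le_real_sqrt
  have h4 : (((Icc (-(H : ℤ)) (H : ℤ)).filter fun x => IsSquare (m * x)).card : ℝ) ≤
      (Nat.sqrt H : ℝ) + 1 := by exact_mod_cast h2
  have h5 : (0 : ℝ) ≤ √(H : ℝ) := Real.sqrt_nonneg _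
  linarith

namespace InfAux

/-- The vectors with a given property of the leading coefficient. -/
lemma card_lead (n H : ℕ) (P : ℤ → Prop) [DecidablePred P] :
    ((hbox n H).filter fun y => P (y 0)).card ≤
      ((Icc (-(H : ℤ)) (H : ℤ)).filter P).card * (2 * H + 1) ^ n := by
  classical
  have h1 : ((hbox n H).filter fun y => P (y 0)) ⊆
      Fintype.piFinset fun k : Fin (n + 1) =>
        if k = 0 then (Icc (-(H : ℤ)) (H : ℤ)).filter P else Icc (-(H : ℤ)) (H : ℤ) := by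
    intro y hy
    rw [mem_filter] at hy
    rw [Fintype.mem_piFinset]
    intro k
    have hk := Fintype.mem_piFinset.1 hy.1 k
    split_ifs with h
    · subst h
      exact mem_filter.2 ⟨hk, hy.2⟩
    · exact hk
  refine (card_le_card h1).trans (le_of_eq ?_)
  rw [Fintype.card_piFinset, Fin.prod_univ_succ, if_pos rfl]
  congr 1
  have e1 : ∀ k : Fin n, (if (Fin.succ k) = 0 then (Icc (-(H : ℤ)) (H : ℤ)).filter P
      else Icc (-(H : ℤ)) (H : ℤ)).card = 2 * H + 1 := by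
    intro k
    rw [if_neg (Fin.succ_ne_zero k), Int.card_Icc]
    omega
  rw [prod_congr rfl fun k _ => e1 k, prod_const, card_univ, Fintype.card_fin]

/-- One leading coefficient is `0`. -/
lemma zero_small {s : ℕ} (n : Fin s → ℕ) (i : Fin s) : Small n (fun a => a i 0 = 0) := by
  refine small_one i (fun y => y 0 = 0) fun ε hε => ?_
  obtain ⟨H₀, h⟩ := BF.lead_small (n i) ε hε
  refine ⟨H₀, fun H hH => le_trans ?_ (h H hH)⟩
  exact_mod_cast BF.cnt_mono H fun a _ h => Or.inl h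

/-- The product of the leading coefficients is a square. -/
lemma sq_small {s : ℕ} (n : Fin s → ℕ) (T : Finset (Fin s)) (l : Fin s) (hl : l ∉ T) :
    Small n (fun a => (∏ i ∈ T, a i 0) ≠ 0 ∧ IsSquare ((∏ i ∈ T, a i 0) * a l 0)) := by
  classical
  intro ε hε
  set M : ℕ := ∑ k ∈ {l}ᶜ, (n k + 1) with hM
  have hN : ∑ i, (n i + 1) = (n l + 1) + M := by
    rw [hM]
    exact Fintype.sum_eq_add_sum_compl l _
  set c : ℝ := 3 * 3 ^ (n l + M) / ε with hc
  refine ⟨max 1 ⌈c ^ 2⌉₊, fun H hH => ?_⟩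
  have hH1 : 1 ≤ H := (le_max_left _ _).trans hH
  have hH1' : (1 : ℝ) ≤ H := by exact_mod_cast hH1
  have hcH : c ≤ √(H : ℝ) := by
    apply Real.le_sqrt_of_sq_le
    exact (Nat.le_ceil _).trans (by exact_mod_cast (le_max_right _ _).trans hH)
  have hs1 : 1 ≤ √(H : ℝ) := Real.one_le_sqrt.2 hH1'
  have h1 := card_pi_fib (fun i => hbox (n i) H) l
    ((Fintype.piFinset fun i => hbox (n i) H).filter
      fun a => (∏ i ∈ T, a i 0) ≠ 0 ∧ IsSquare ((∏ i ∈ T, a i 0) * a l 0)) (filter_subset _ _)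
    ((2 * √(H : ℝ) + 1) * (2 * H + 1) ^ n l) (by positivity) (by
      intro a ha
      rw [mem_filter] at ha
      obtain ⟨m, hm⟩ : ∃ m : ℤ, m = ∏ i ∈ T, a i 0 := ⟨_, rfl⟩
      have hm0 : m ≠ 0 := by
        rw [hm]
        exact ha.2.1
      have e1 : ((hbox (n l) H).filter fun y => Function.update a l y ∈
          (Fintype.piFinset fun i => hbox (n i) H).filter
            fun a => (∏ i ∈ T, a i 0) ≠ 0 ∧ IsSquare ((∏ i ∈ T, a i 0) * a l 0)) ⊆
          (hbox (n l) H).filter fun y => IsSquare (m * y 0) := by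
        intro y hy
        rw [mem_filter] at hy ⊢
        refine ⟨hy.1, ?_⟩
        have h2 := (mem_filter.1 hy.2).2.2
        have h3 : ∏ i ∈ T, Function.update a l y i 0 = m := by
          rw [hm]
          refine prod_congr rfl fun i hi => ?_
          have hil : i ≠ l := by
            rintro rfl
            exact hl hi
          rw [Function.update_of_ne hil]
        rw [h3, Function.update_self] at h2
        exact h2
      have e2 := (card_le_card e1).trans (card_lead (n l) H fun x => IsSquare (m * x))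
      have e3 := card_sq m hm0 H
      calc _ ≤ (((Icc (-(H : ℤ)) (H : ℤ)).filter fun x => IsSquare (m * x)).card : ℝ) *
            (2 * H + 1) ^ n l := by exact_mod_cast e2
        _ ≤ _ := by gcongr)
  have h2 : ∏ i ∈ {l}ᶜ, ((hbox (n i) H).card : ℝ) = (2 * (H : ℝ) + 1) ^ M := by
    rw [hM, ← prod_pow_eq_pow_sum]
    refine prod_congr rfl fun i _ => ?_
    rw [card_hbox]
    push_cast
    ring
  rw [h2] at h1
  have h3 : (cnt n (fun a => (∏ i ∈ T, a i 0) ≠ 0 ∧ IsSquare ((∏ i ∈ T, a i 0) * a l 0)) H : ℝ) ≤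
      (2 * √(H : ℝ) + 1) * (2 * H + 1) ^ n l * (2 * (H : ℝ) + 1) ^ M := by
    unfold cnt
    convert h1
  refine h3.trans ?_
  have hc2 : 3 * 3 ^ (n l + M) = ε * c := by
    rw [hc]
    field_simp
  calc (2 * √(H : ℝ) + 1) * (2 * H + 1) ^ n l * (2 * (H : ℝ) + 1) ^ M
      = (2 * √(H : ℝ) + 1) * (2 * (H : ℝ) + 1) ^ (n l + M) := by rw [pow_add]; ring
    _ ≤ (3 * √(H : ℝ)) * (3 * H) ^ (n l + M) :=
        mul_le_mul (by linarith) (pow_le_three hH1 _) (by positivity) (by positivity)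
    _ = (3 * 3 ^ (n l + M)) * √(H : ℝ) * H ^ (n l + M) := by rw [mul_pow]; ring
    _ = ε * c * √(H : ℝ) * H ^ (n l + M) := by rw [hc2]
    _ ≤ ε * √(H : ℝ) * √(H : ℝ) * H ^ (n l + M) := by gcongr
    _ = ε * (√(H : ℝ) * √(H : ℝ)) * H ^ (n l + M) := by ring
    _ = ε * H ^ ∑ i, (n i + 1) := by
        rw [Real.mul_self_sqrt (by positivity), hN, show n l + 1 + M = (n l + M) + 1 by ring,
          pow_succ]
        ring

end InfAux

theorem inf_small {r s : ℕ} (n : Fin s → ℕ) (R : Fin r → Finset (Fin s)) (hR : Sep R)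
    (hs : 0 < s) :
    Small n (fun a => ∀ j, IsSquare (∏ i ∈ R j, ((a i 0 : ℤ) : ℚ))) := by
  classical
  obtain ⟨j, hj⟩ := hR.1 ⟨0, hs⟩
  set l : Fin s := ⟨0, hs⟩ with hl
  have h1 := (Small.exists univ (fun k (a : ∀ i, Fin (n i + 1) → ℤ) => a k 0 = 0)
    fun k _ => InfAux.zero_small n k).or
    (InfAux.sq_small n ((R j).erase l) l (notMem_erase _ _))
  refine h1.mono fun a ha => ?_
  by_cases h2 : ∃ k ∈ univ, a k 0 = 0
  · exact Or.inl h2
  right
  push Not at h2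
  refine ⟨prod_ne_zero_iff.2 fun k _ => h2 k (mem_univ _), ?_⟩
  have h3 := ha j
  have h4 : ∏ i ∈ R j, ((a i 0 : ℤ) : ℚ) =
      (((∏ i ∈ (R j).erase l, a i 0) * a l 0 : ℤ) : ℚ) := by
    rw [prod_erase_mul _ _ hj]
    push_cast
    rfl
  rw [h4, Rat.isSquare_intCast_iff] at h3
  exact h3

end Stoll308.EA
end

section
set_option autoImplicit false

/-!
Two of the polynomials, twisted.
-/

namespace Stoll308.EA

open Polynomial Finset BF

/-- The coefficients multiplied by `m`. -/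
def tw {n : ℕ} (m : ℤ) (a : Fin (n + 1) → ℤ) : Fin (n + 1) → ℤ := fun i => m * a i

lemma GZ_tw (R : Type*) [CommRing R] {n : ℕ} (m : ℤ) (a : Fin (n + 1) → ℤ) :
    GZ R (tw m a) = C (m : R) * GZ R a := by
  rw [GZ, GZ, gpol, gpol, Finset.mul_sum]
  refine Finset.sum_congr rfl fun i _ => ?_
  rw [tw, Int.cast_mul, C_mul, mul_assoc]

lemma charpoly_self (K : Type*) [Field K] (t : K) :
    (LinearMap.mulLeft K t).charpoly = X - C t := by
  rw [← LinearMap.charpoly_toMatrix (LinearMap.mulLeft K t) (Module.Basis.singleton Unit K)]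
  unfold Matrix.charpoly
  rw [Matrix.det_unique, Matrix.charmatrix_apply_eq, LinearMap.toMatrix_apply]
  simp

/-- One of the two polynomials. -/
lemma one_side {n : ℕ} (p : ℕ) [Fact p.Prime] (a : Fin (n + 1) → ℤ) (x : ℤ) (hx : x ≠ 0)
    (δ : ℚ_[p][X]) (t c : ℚ_[p]) (hc : c ≠ 0) (u : ℚ_[p][X]) (h0 : (GZ ℚ_[p] a).eval t ≠ 0)
    (hs : IsSquare ((x : ℚ_[p]) * (GZ ℚ_[p] a).eval t))
    (hd : GZ ℚ_[p] a ∣ (C t - X) - C c * δ * u ^ 2) :
    (∃ y : ℚ_[p], IsUnit y ∧ y ^ 2 = aeval t (GZ ℚ_[p] (tw x a))) ∧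
      GZ ℚ_[p] (tw x a) ∣ C (-c⁻¹) * (LinearMap.mulLeft ℚ_[p] t).charpoly - δ * u ^ 2 := by
  have hx' : (x : ℚ_[p]) ≠ 0 := by exact_mod_cast hx
  constructor
  · obtain ⟨y, hy⟩ := hs
    refine ⟨y, ?_, ?_⟩
    · refine isUnit_iff_ne_zero.2 ?_
      rintro rfl
      rw [mul_zero] at hy
      exact mul_ne_zero hx' h0 hy
    · rw [sq, ← hy, GZ_tw, map_mul, aeval_C, coe_aeval_eq_eval]
      rfl
  · rw [GZ_tw, charpoly_self]
    have hu : IsUnit (C (x : ℚ_[p])) := isUnit_C.2 (isUnit_iff_ne_zero.2 hx')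
    refine hu.mul_left_dvd.2 ?_
    have e : C (-c⁻¹) * (X - C t) - δ * u ^ 2 = C c⁻¹ * ((C t - X) - C c * δ * u ^ 2) := by
      have h1 : C c⁻¹ * C c = (1 : ℚ_[p][X]) := by
        rw [← C_mul, inv_mul_cancel₀ hc, C_1]
      rw [C_neg]
      linear_combination (δ * u ^ 2) * h1
    rw [e]
    exact Dvd.dvd.mul_left hd _

theorem oddSel_of {n m : ℕ} (a : Fin (n + 1) → ℤ) (b : Fin (m + 1) → ℤ) (x y : ℤ) (hx : x ≠ 0)
    (hy : y ≠ 0) (δ ε : ℚ[X]) (hδ : IsCoprime δ (GZ ℚ a)) (hε : IsCoprime ε (GZ ℚ b))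
    (h : ∀ (p : ℕ) [Fact p.Prime], p ≠ 2 → ∃ (t c : ℚ_[p]) (u v : ℚ_[p][X]), c ≠ 0 ∧
      (GZ ℚ_[p] a).eval t ≠ 0 ∧ (GZ ℚ_[p] b).eval t ≠ 0 ∧
      IsSquare ((x : ℚ_[p]) * (GZ ℚ_[p] a).eval t) ∧ IsSquare ((y : ℚ_[p]) * (GZ ℚ_[p] b).eval t) ∧
      GZ ℚ_[p] a ∣ (C t - X) - C c * δ.map (algebraMap ℚ ℚ_[p]) * u ^ 2 ∧
      GZ ℚ_[p] b ∣ (C t - X) - C c * ε.map (algebraMap ℚ ℚ_[p]) * v ^ 2) :
    DQ.OddSel (tw x a) (tw y b) := by
  have hux : IsUnit (C (x : ℚ)) := isUnit_C.2 (isUnit_iff_ne_zero.2 (by exact_mod_cast hx))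
  have huy : IsUnit (C (y : ℚ)) := isUnit_C.2 (isUnit_iff_ne_zero.2 (by exact_mod_cast hy))
  refine ⟨δ, ε, ?_, ?_, ?_⟩
  · rw [GZ_tw]
    exact (isCoprime_mul_unit_left_right hux _ _).2 hδ
  · rw [GZ_tw]
    exact (isCoprime_mul_unit_left_right huy _ _).2 hε
  · intro p _ hp
    obtain ⟨t, c, u, v, hc, ha0, hb0, hsa, hsb, hda, hdb⟩ := h p hp
    obtain ⟨⟨y₁, hy₁, hy₁'⟩, hd₁⟩ := one_side p a x hx _ t c hc u ha0 hsa hda
    obtain ⟨⟨y₂, hy₂, hy₂'⟩, hd₂⟩ := one_side p b y hy _ t c hc v hb0 hsb hdb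
    refine ⟨ℚ_[p], inferInstance, inferInstance, inferInstance, t, y₁, y₂, -c⁻¹, u, v, ?_, hy₁,
      hy₂, neg_ne_zero.2 (inv_ne_zero hc), hy₁', hy₂', hd₁, hd₂⟩
    rw [Module.finrank_self]
    exact odd_one

lemma abs_tw_le {n : ℕ} (x : ℤ) (B H : ℕ) (hB : |x| ≤ B) (a : Fin (n + 1) → ℤ)
    (ha : ∀ i, |a i| ≤ (H : ℤ)) (i : Fin (n + 1)) : |tw x a i| ≤ ((B * H : ℕ) : ℤ) := by
  unfold tw
  rw [abs_mul]
  push_cast
  exact mul_le_mul hB (ha i) (abs_nonneg _) (by positivity)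

lemma tw_inj {n : ℕ} {x : ℤ} (hx : x ≠ 0) : Function.Injective (tw (n := n) x) := by
  intro a b h
  funext i
  exact mul_left_cancel₀ hx (congrFun h i)

theorem tw_small (n m : ℕ) (hn : 4 ≤ n) (he : Even n) (hm : 4 ≤ m) (hem : Even m) (x y : ℤ)
    (hx : x ≠ 0) (hy : y ≠ 0) (ε : ℝ) (hε : 0 < ε) :
    ∃ H₀ : ℕ, ∀ H : ℕ, H₀ ≤ H →
      (DQ.cnt n m (fun a b => DQ.OddSel (tw x a) (tw y b)) H : ℝ) ≤ ε * H ^ (n + m + 2) := by
  classical
  obtain ⟨B, hBx, hBy, hB1⟩ : ∃ B : ℕ, |x| ≤ B ∧ |y| ≤ B ∧ 1 ≤ B := by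
    refine ⟨x.natAbs + y.natAbs, ?_, ?_, ?_⟩
    · rw [Int.abs_eq_natAbs]
      push_cast
      have := abs_nonneg y
      linarith
    · rw [Int.abs_eq_natAbs]
      push_cast
      have := abs_nonneg x
      linarith
    · have := Int.natAbs_pos.2 hx
      omega
  have hBr : (0 : ℝ) < B := by exact_mod_cast hB1
  obtain ⟨H₀, hH₀⟩ := DQ.oddSel_small n m hn he hm hem (ε / (B : ℝ) ^ (n + m + 2))
    (by positivity)
  refine ⟨H₀, fun H hH => ?_⟩
  have h1 := hH₀ (B * H) (hH.trans (Nat.le_mul_of_pos_left H hB1))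
  have h2 : DQ.cnt n m (fun a b => DQ.OddSel (tw x a) (tw y b)) H ≤
      DQ.cnt n m (fun a b => DQ.OddSel a b) (B * H) := by
    unfold DQ.cnt
    refine card_le_card_of_injOn (fun z => (tw x z.1, tw y z.2)) ?_ ?_
    · intro z hz
      rw [mem_coe, mem_filter, mem_product, Fintype.mem_piFinset, Fintype.mem_piFinset] at hz
      rw [mem_coe, mem_filter, mem_product, Fintype.mem_piFinset, Fintype.mem_piFinset]
      refine ⟨⟨fun i => ?_, fun i => ?_⟩, hz.2⟩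
      · exact mem_Icc.2 (abs_le.1 (abs_tw_le x B H hBx z.1
          (fun i => abs_le.2 (mem_Icc.1 (hz.1.1 i))) i))
      · exact mem_Icc.2 (abs_le.1 (abs_tw_le y B H hBy z.2
          (fun i => abs_le.2 (mem_Icc.1 (hz.1.2 i))) i))
    · intro z _ z' _ h
      have h' := Prod.mk.inj h
      exact Prod.ext (tw_inj hx h'.1) (tw_inj hy h'.2)
  have h3 : (DQ.cnt n m (fun a b => DQ.OddSel (tw x a) (tw y b)) H : ℝ) ≤
      (DQ.cnt n m (fun a b => DQ.OddSel a b) (B * H) : ℝ) := by exact_mod_cast h2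
  refine h3.trans (h1.trans (le_of_eq ?_))
  push_cast
  rw [mul_pow]
  field_simp

end Stoll308.EA
end

section
set_option autoImplicit false

/-!
Basic facts on the components.
-/

namespace Stoll308.TW

open Finset Polynomial Stoll308.Gen NumberTheorySymbols

variable {k : ℕ} {f : Fin k → ℤ[X]} {C₀ : ℕ}

theorem natDegree_FF (h : ∀ i, (f i).Monic) : (FF f).natDegree = ∑ i, (f i).natDegree :=
  natDegree_prod_of_monic _ _ fun i _ => h i

private lemma fp_FF (p : ℕ) : fp (FF f) p = ∏ i, fp (f i) p := Polynomial.map_prod _ _ _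

private lemma mem_R_dvd {g : ℤ[X]} {p a : ℕ} :
    a ∈ R g p ↔ a < p ∧ (p : ℤ) ∣ g.eval (a : ℤ) := by
  unfold R
  rw [mem_filter, mem_range]

namespace GB

variable (hG : GB f C₀)

include hG

theorem good (i : Fin k) : GoodBound (f i) C₀ where
  monic := hG.monic i
  irr := hG.irr i
  deg := le_trans (by norm_num) (hG.deg i)
  two := hG.two
  sep := fun p hp hpC => by
    have h := hG.sep p hp hpC
    rw [fp_FF] at h
    exact h.of_dvd (dvd_prod_of_mem _ (mem_univ i))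
  res := hG.res i

theorem monicF : (FF f).Monic := monic_prod_of_monic _ _ fun i _ => hG.monic i

/-- The roots modulo `p` of the different components are different. -/
theorem root_unique {p : ℕ} (hp : p.Prime) (hpC : C₀ < p) {i j : Fin k} {a : ℕ}
    (hi : a ∈ R (f i) p) (hj : a ∈ R (f j) p) : i = j := by
  by_contra hij
  have : Fact p.Prime := ⟨hp⟩
  have h := hG.sep p hp hpC
  rw [fp_FF] at h
  have h1 : fp (f i) p * fp (f j) p ∣ ∏ i, fp (f i) p := by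
    rw [← mul_prod_erase univ _ (mem_univ i)]
    exact mul_dvd_mul_left _ (dvd_prod_of_mem _ (mem_erase.2 ⟨Ne.symm hij, mem_univ j⟩))
  have h2 := (h.of_dvd h1).isCoprime
  obtain ⟨u, v, huv⟩ := h2
  have h3 := congrArg (eval (a : ZMod p)) huv
  rw [eval_add, eval_mul, eval_mul, (Gen.mem_R.1 hi).2, (Gen.mem_R.1 hj).2] at h3
  simp at h3

theorem mem_R {p : ℕ} (hp : p.Prime) {a : ℕ} : a ∈ R (FF f) p ↔ ∃ i, a ∈ R (f i) p := by
  have hpp : Prime (p : ℤ) := Nat.prime_iff_prime_int.1 hp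
  rw [mem_R_dvd, FF, eval_prod, hpp.dvd_finsetProd_iff]
  constructor
  · rintro ⟨h1, i, _, h2⟩
    exact ⟨i, mem_R_dvd.2 ⟨h1, h2⟩⟩
  · rintro ⟨i, h⟩
    obtain ⟨h1, h2⟩ := mem_R_dvd.1 h
    exact ⟨h1, i, mem_univ i, h2⟩

theorem card_RA {p : ℕ} (hp : p.Prime) (hpC : C₀ < p) (A : Finset (Fin k)) :
    (RA f A p).card = ∑ i ∈ A, (R (f i) p).card := by
  unfold RA
  refine card_biUnion fun i _ j _ hij => ?_
  change Disjoint (R (f i) p) (R (f j) p)
  rw [disjoint_left]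
  exact fun a ha hb => hij (hG.root_unique hp hpC ha hb)

theorem card_R_le {p : ℕ} (hp : p.Prime) (i : Fin k) : (R (f i) p).card ≤ (f i).natDegree := by
  have : Fact p.Prime := ⟨hp⟩
  exact card_R_le_deg (hG.monic i)

theorem card_RF {p : ℕ} (hp : p.Prime) (hpC : C₀ < p) :
    (R (FF f) p).card = ∑ i, (R (f i) p).card := by
  rw [← hG.card_RA hp hpC univ]
  congr 1
  ext a
  rw [hG.mem_R hp]
  unfold RA
  rw [mem_biUnion]
  simp

theorem eval_FF {p : ℕ} [Fact p.Prime] (β : ℤ_[p]) :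
    (fz (FF f) p).eval β = 0 ↔ ∃ i, (fz (f i) p).eval β = 0 := by
  have h : fz (FF f) p = ∏ i, fz (f i) p := Polynomial.map_prod _ _ _
  rw [h, eval_prod, prod_eq_zero_iff]
  simp

theorem lift_unique {p : ℕ} [Fact p.Prime] (hpC : C₀ < p) {i : Fin k} {a : ℕ} {α β : ℤ_[p]}
    (hα : Lift (f i) p a α) (hβ : Lift (f i) p a β) : α = β :=
  Lift.unique (hG.monic i) ((hG.good i).sep p (Fact.out) hpC) hα hβ

end GB

/-- All large bounds are good. -/
theorem exists_GB (hm : ∀ i, (f i).Monic) (hirr : ∀ i, Irreducible (f i))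
    (hd : ∀ i, 2 ≤ (f i).natDegree) (hev : Even (∑ i, (f i).natDegree))
    (h6 : 6 ≤ ∑ i, (f i).natDegree) (hsep : ((FF f).map (Int.castRingHom ℚ)).Separable) : ∃ B : ℕ, ∀ C₀, B ≤ C₀ → GB f C₀ := by
  obtain ⟨B₁, hB₁⟩ := exists_separable_of_map (FF f) hsep
  have h2 : ∀ i, ∃ B : ℕ, resConst (f i) ≤ B := fun i => exists_nat_ge _
  choose B₂ hB₂ using h2
  refine ⟨B₁ + 2 + (2 * ∑ i, (f i).natDegree + 2) ^ 2 + ∑ i, B₂ i, fun C₀ hC => ?_⟩
  refine { monic := hm, irr := hirr, deg := hd, even := hev, six := h6, two := by omega,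
           big := by omega, sep := fun p hp hpC => hB₁ p hp (by omega), res := fun i => ?_ }
  refine (hB₂ i).trans ?_
  have h3 : B₂ i ≤ ∑ i, B₂ i := single_le_sum (fun _ _ => Nat.zero_le _) (mem_univ i)
  exact_mod_cast h3.trans (by omega)

end Stoll308.TW
end

section
set_option autoImplicit false

/-!
From `ℚ_p[X]/F` to `ℚ_p[X]/g`, `g ∣ F`.
-/

namespace Stoll308.TW

open Finset Polynomial Stoll308.Gen NumberTheorySymbols

variable {p : ℕ} [hp : Fact p.Prime] {F g h : ℤ[X]}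

lemma fq_mul (hF : F = g * h) : fq F p = fq g p * fq h p := by
  subst hF
  exact Polynomial.map_mul _

/-- The projection `ℚ_p[X]/F → ℚ_p[X]/g`. -/
noncomputable def phom (hF : F = g * h) : AdjoinRoot (fq F p) →+* AdjoinRoot (fq g p) :=
  AdjoinRoot.lift (AdjoinRoot.of (fq g p)) (AdjoinRoot.root (fq g p)) (by
    rw [fq_mul hF, eval₂_mul, AdjoinRoot.eval₂_root, zero_mul])

theorem phom_mk (hF : F = g * h) (q : ℚ_[p][X]) : phom hF (mkq F p q) = mkq g p q := by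
  unfold phom
  rw [AdjoinRoot.lift_mk, ← AdjoinRoot.algebraMap_eq, ← aeval_def, AdjoinRoot.aeval_eq]

private lemma phom_mkz (hF : F = g * h) (q : ℤ_[p][X]) : phom hF (mkz F p q) = mkz g p q :=
  phom_mk hF _

theorem UU_phom (hF : F = g * h) {z : AdjoinRoot (fq F p)} (hz : UU F p z) :
    UU g p (phom hF z) := by
  obtain ⟨u, hu, rfl⟩ := hz
  refine ⟨u, ?_, (phom_mkz hF u).symm⟩
  have h1 : fp F p = fp g p * fp h p := by
    subst hF
    exact Polynomial.map_mul _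
  rw [h1] at hu
  exact hu.of_mul_right_left

private lemma phom_PP (hF : F = g * h) (q : ℤ_[p][X]) (κ : ℤ_[p]) (c : ℚ_[p]) :
    phom hF (PP F q κ c) = 1 + (mkq g p (C c) - 1) * mkz g p (ee q κ) := by
  unfold PP
  rw [map_add, map_one, map_mul, map_sub, map_one, phom_mkz, phom_mk]

private lemma fz_mul' (hF : F = g * h) : fz F p = fz g p * fz h p := by
  subst hF
  exact Polynomial.map_mul _

/-- The root is not a root of `g`. -/
theorem PP_phom_other (hF : F = g * h) {α : ℤ_[p]} (hg : (fz g p).eval α ≠ 0) {q : ℤ_[p][X]}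
    {κ : ℤ_[p]} (hq : fz F p = (X - C α) * q) (c : ℚ_[p]) : phom hF (PP F q κ c) = 1 := by
  have h1 : (X - C α : ℤ_[p][X]) ∣ fz h p := by
    have h2 : (fz g p).eval α * (fz h p).eval α = 0 := by
      rw [← eval_mul, ← fz_mul' hF, hq, eval_mul, eval_sub, eval_X, eval_C, sub_self, zero_mul]
    rw [dvd_iff_isRoot]
    exact (mul_eq_zero.1 h2).resolve_left hg
  obtain ⟨h', hh'⟩ := h1
  have h3 : q = fz g p * h' := by
    have h4 : (X - C α : ℤ_[p][X]) * q = (X - C α) * (fz g p * h') := by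
      rw [← hq, fz_mul' hF, hh']
      ring
    exact mul_left_cancel₀ (X_sub_C_ne_zero α) h4
  rw [phom_PP]
  have h5 : mkz g p (ee q κ) = 0 := by
    unfold ee
    rw [h3, map_mul, map_mul, mkz_f, zero_mul, mul_zero]
  rw [h5, mul_zero, add_zero]

/-- The root is a root of `g`. -/
theorem PP_phom_same (hF : F = g * h) {α : ℤ_[p]} {q q' : ℤ_[p][X]} {κ κ' : ℤ_[p]}
    (hq : fz F p = (X - C α) * q) (hκ : κ * q.eval α = 1) (hq' : fz g p = (X - C α) * q')
    (hκ' : κ' * q'.eval α = 1) (c : ℚ_[p]) : phom hF (PP F q κ c) = PP g q' κ' c := by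
  have h3 : q = q' * fz h p := by
    have h4 : (X - C α : ℤ_[p][X]) * q = (X - C α) * (q' * fz h p) := by
      rw [← hq, fz_mul' hF, hq']
      ring
    exact mul_left_cancel₀ (X_sub_C_ne_zero α) h4
  rw [phom_PP]
  unfold PP
  congr 2
  have h5 := ee_ann (κ := κ') hq' (C (κ * q'.eval α) * fz h p)
  have h6 : (C (κ * q'.eval α) * fz h p).eval α = 1 := by
    rw [eval_mul, eval_C, mul_assoc, ← eval_mul, ← h3, hκ]
  rw [h6, C_1, one_mul] at h5
  rw [← h5]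
  congr 1
  unfold ee
  rw [h3, C_mul]
  have h7 : (C κ' * C (q'.eval α) : ℤ_[p][X]) = 1 := by
    rw [← C_mul, hκ', C_1]
  linear_combination (-(C κ * q' * fz h p)) * h7

end Stoll308.TW
end

section
set_option autoImplicit false

/-!
The labels of the primes dividing `t` (as `Gen.exists_rho`, from `Gen.local_dvd` and
`Gen.local_not_dvd` applied to the product `FF f`).
-/

namespace Stoll308.TW

open Finset Polynomial Stoll308.Gen NumberTheorySymbols

variable {k : ℕ} {f : Fin k → ℤ[X]} {C₀ : ℕ}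

private lemma FF_eq (i : Fin k) : FF f = f i * ∏ j ∈ univ.erase i, f j :=
  (mul_prod_erase univ f (mem_univ i)).symm

/-- The label of a prime. -/
private lemma exists_label (hG : GB f C₀) {t : ℤ} (ht : Squarefree t) {δ : ℚ[X]}
    (hloc : ∀ (p : ℕ) [Fact p.Prime], Gen.LocalImage (FF f) t δ ℚ_[p]) (p : ℕ) :
    ∃ (j : ℕ) (a : ℕ), ∀ (_ : Fact p.Prime), p ∈ bigPrimes C₀ t →
      ∃ hj : j < k, a ∈ R (f ⟨j, hj⟩) p ∧ ∃ α : ℤ_[p], Lift (f ⟨j, hj⟩) p a α ∧
      (∀ β : ℤ_[p], (fz (FF f) p).eval β = 0 → β ≠ α →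
        (dq δ p).eval (α : ℚ_[p]) ≠ 0 ∧ (dq δ p).eval (β : ℚ_[p]) ≠ 0 ∧
        IsSquare ((dq δ p).eval (β : ℚ_[p]) * (dq δ p).eval (α : ℚ_[p]) * t *
          ((((derivative (fz (FF f) p)).eval α * (α - β) : ℤ_[p]) : ℚ_[p])))) ∧
      ∃ (K : ℤ_[p][X]) (κ : ℤ_[p]), fz (FF f) p = (X - C α) * K ∧ κ * K.eval α = 1 ∧
        ∃ (e : ℤ) (w : AdjoinRoot (fq (FF f) p)), ∃ u, UU (FF f) p u ∧
          mkq (FF f) p (C ((p : ℚ_[p]) ^ e)) * mkq (FF f) p (dq δ p) * w ^ 2 =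
            PP (FF f) K κ (p : ℚ_[p]) * u := by
  by_cases hp : p.Prime
  · have hpf : Fact p.Prime := ⟨hp⟩
    by_cases hpb : p ∈ bigPrimes C₀ t
    · have hpb' := hpb
      rw [mem_bigPrimes ht.ne_zero] at hpb'
      obtain ⟨-, hpt, hpC⟩ := hpb'
      have hev : Even (FF f).natDegree := by
        rw [natDegree_FF hG.monic]
        exact hG.even
      have hp2 : p ≠ 2 := by
        have := hG.two
        omega
      have hsep := hG.sep p hp hpC
      obtain ⟨α, hα, h2, h3⟩ := local_dvd hG.monicF hev hp2 hsep ht hpt (hloc p)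
      obtain ⟨i, hi⟩ := (hG.eval_FF α).1 hα
      refine ⟨i.1, (rd p α).val, fun _ _ => ⟨i.2, root_mem_R hi, α, ⟨hi, ?_⟩, h2, ?_⟩⟩
      · rw [ZMod.natCast_zmod_val]
      · obtain ⟨K, hKm, hK⟩ := exists_factor hG.monicF hα
        obtain ⟨κ, hκ⟩ := (factor_eval_unit hsep hK (x := α) rfl).exists_left_inv
        exact ⟨K, κ, hK, hκ, h3 K κ hKm hK hκ⟩
    · exact ⟨0, 0, fun _ h => absurd h hpb⟩
  · exact ⟨0, 0, fun h _ => absurd h.out hp⟩

theorem exists_labD (hG : GB f C₀) {t : ℤ} (ht : Squarefree t) {δ : ℚ[X]}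
    (hloc : ∀ (p : ℕ) [Fact p.Prime], Gen.LocalImage (FF f) t δ ℚ_[p]) :
    ∃ r : ℕ → Lab k, LabD f C₀ t δ r := by
  classical
  have h1 := exists_label hG ht hloc
  choose j a h using h1
  have hprime : ∀ p ∈ bigPrimes C₀ t, p.Prime := by
    intro p hp
    rw [mem_bigPrimes ht.ne_zero] at hp
    exact hp.1
  have hjk : ∀ p ∈ bigPrimes C₀ t, j p < k := by
    intro p hp
    obtain ⟨h2, -⟩ := h p ⟨hprime p hp⟩ hp
    exact h2
  obtain ⟨r, hr⟩ : ∃ r : ℕ → Lab k, ∀ p, r p =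
      if hp : p ∈ bigPrimes C₀ t then .r ⟨j p, hjk p hp⟩ (a p) else .o := ⟨_, fun _ => rfl⟩
  have hr1 : ∀ p (hp : p ∈ bigPrimes C₀ t), r p = .r ⟨j p, hjk p hp⟩ (a p) := by
    intro p hp
    rw [hr, dif_pos hp]
  have hr0 : ∀ p, p ∉ bigPrimes C₀ t → r p = .o := by
    intro p hp
    rw [hr, dif_neg hp]
  have hrt : ∀ p (hp : p ∈ bigPrimes C₀ t), (r p).rt = a p := by
    intro p hp
    rw [hr1 p hp]
    rfl
  -- the component of a label
  have hcomp : ∀ p (hp : p ∈ bigPrimes C₀ t) (i : Fin k), r p = .r i (r p).rt →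
      i = ⟨j p, hjk p hp⟩ := by
    intro p hp i hi
    rw [hr1 p hp] at hi
    exact (Lab.r.inj hi).1.symm
  refine ⟨r, ?_, ?_, ?_, ?_⟩
  · intro p
    constructor
    · intro h2
      by_contra h3
      exact h2 (hr0 p h3)
    · intro h2 h3
      rw [hr1 p h2] at h3
      cases h3
  · intro p hp
    obtain ⟨hj, ha, -⟩ := h p ⟨hprime p hp⟩ hp
    refine ⟨⟨j p, hjk p hp⟩, ?_, ?_⟩
    · rw [hrt p hp]
      exact hr1 p hp
    · rw [hrt p hp]
      exact ha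
  · intro p hpf hp i hi
    have hi' := hcomp p hp i hi
    subst hi'
    obtain ⟨hj, ha, α, hα, h2, -⟩ := h p hpf hp
    rw [hrt p hp]
    exact ⟨α, hα, h2⟩
  · intro p hpf hpC
    by_cases hp : p ∈ bigPrimes C₀ t
    · obtain ⟨hj, ha, α, hα, -, K, κ, hK, hκ, e, w, u, hu, hw⟩ := h p hpf hp
      refine ⟨e, fun i => ⟨fun hi => ?_, fun hi => ?_⟩⟩
      · -- another component
        have hne : i ≠ ⟨j p, hj⟩ := by
          rintro rfl
          apply hi
          rw [hrt p hp]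
          exact hr1 p hp
        have hαi : (fz (f i) p).eval α ≠ 0 := by
          intro h0
          apply hne
          refine hG.root_unique hpf.out hpC (a := (rd p α).val) (root_mem_R h0) ?_
          exact root_mem_R hα.1
        refine ⟨phom (FF_eq i) w, ?_⟩
        have h5 := congrArg (phom (FF_eq i)) hw
        rw [map_mul, map_mul, map_pow, map_mul, phom_mk, phom_mk,
          PP_phom_other (FF_eq i) hαi hK, one_mul] at h5
        rw [h5]
        exact UU_phom (FF_eq i) hu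
      · have hi' := hcomp p hp i hi
        subst hi'
        rw [hrt p hp]
        refine ⟨α, hα, fun q κ' _ hq hκ' => ?_⟩
        refine ⟨phom (FF_eq _) w, phom (FF_eq _) u, UU_phom (FF_eq _) hu, ?_⟩
        have h5 := congrArg (phom (FF_eq (f := f) ⟨j p, hjk p hp⟩)) hw
        rw [map_mul, map_mul, map_pow, map_mul, phom_mk, phom_mk,
          PP_phom_same (FF_eq (f := f) ⟨j p, hjk p hp⟩) hK hκ hq hκ'] at h5
        exact h5
    · have hpt : ¬ (p : ℤ) ∣ t := by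
        intro h2
        apply hp
        rw [mem_bigPrimes ht.ne_zero]
        exact ⟨hpf.out, h2, hpC⟩
      obtain ⟨e, w, hw⟩ := local_not_dvd hG.monicF (hG.sep p hpf.out hpC) hpt (hloc p)
      refine ⟨e, fun i => ⟨fun _ => ?_, fun hi => ?_⟩⟩
      · refine ⟨phom (FF_eq i) w, ?_⟩
        have h5 := UU_phom (FF_eq i) hw
        rw [map_mul, map_mul, map_pow, phom_mk, phom_mk] at h5
        exact h5
      · exfalso
        rw [hr0 p hp] at hi
        cases hi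

end Stoll308.TW
end

section
set_option autoImplicit false

/-!
Representatives modulo squares with a common rational factor (from `Gen.exists_reps`,
`Gen.evenAt_almost`, `Gen.evenAt_of_UU`, as in `Gen.exists_relData`).
-/

namespace Stoll308.TW

open Finset Polynomial Stoll308.Gen NumberTheorySymbols

variable {k : ℕ} {f : Fin k → ℤ[X]} {C₀ : ℕ}

theorem exists_common (hG : GB f C₀) [∀ i, Fact (Irreducible (fr (f i)))] :
    ∃ S : (i : Fin k) → Set (KK (f i)), (∀ i, (S i).Finite) ∧ ∀ Δ : Fin k → ℚ[X],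
      (∀ i, AdjoinRoot.mk (fr (f i)) (Δ i) ≠ 0) →
      (∀ (p : ℕ) [Fact p.Prime], C₀ < p → ∃ e : ℤ, ∀ i, ∃ w : AdjoinRoot (fq (f i) p),
        UU (f i) p (mkq (f i) p (C ((p : ℚ_[p]) ^ e)) * mkq (f i) p (dq (Δ i) p) * w ^ 2)) →
      ∃ x : ℚ, x ≠ 0 ∧ ∀ i, ∃ ε ∈ S i, ∃ γ : KK (f i), γ ≠ 0 ∧
        AdjoinRoot.mk (fr (f i)) (C x * Δ i) = ε * γ ^ 2 := by
  classical
  choose S hS hreps using fun i => exists_reps (f := f i) (hG.monic i) C₀
  refine ⟨S, hS, fun Δ hΔ0 hU => ?_⟩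
  -- the exponents
  have hE : ∀ p : ℕ, ∃ e : ℤ, ∀ (_ : Fact p.Prime), C₀ < p →
      ∀ i, EvenAt (f i) p (C ((p : ℚ) ^ e) * Δ i) := by
    intro p
    by_cases hp : p.Prime
    · by_cases hpC : C₀ < p
      · have hpf : Fact p.Prime := ⟨hp⟩
        obtain ⟨e, h⟩ := hU p hpC
        refine ⟨e, fun _ _ i => ?_⟩
        obtain ⟨w, hw⟩ := h i
        exact evenAt_of_UU (hG.monic i) hw
      · exact ⟨0, fun _ h => absurd h hpC⟩
    · exact ⟨0, fun h _ => absurd h.out hp⟩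
  choose e he using hE
  have hirr : ∀ i, Irreducible (fr (f i)) := fun i => (inferInstance : Fact (Irreducible
    (fr (f i)))).out
  choose B hB using fun i => evenAt_almost (f := f i) (hirr i) (Δ := Δ i) (by
    rw [← AdjoinRoot.mk_eq_zero]
    exact hΔ0 i)
  set Q : Finset ℕ := (range (univ.sup B + 1)).filter Nat.Prime with hQ
  set r : ℚ := ∏ q ∈ Q, (q : ℚ) ^ (e q) with hr
  have hr0 : r ≠ 0 := by
    rw [hr, prod_ne_zero_iff]
    intro q hq
    rw [hQ, mem_filter] at hq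
    exact zpow_ne_zero _ (by exact_mod_cast hq.2.ne_zero)
  have hall : ∀ i, ∀ (p : ℕ) [Fact p.Prime], C₀ < p → EvenAt (f i) p (C r * Δ i) := by
    intro i p hpf hpC
    by_cases hpQ : p ∈ Q
    · have h1 : C r * Δ i = C (∏ q ∈ Q.erase p, (q : ℚ) ^ (e q)) *
          (C ((p : ℚ) ^ (e p)) * Δ i) := by
        rw [hr, ← mul_prod_erase Q _ hpQ, C_mul]
        ring
      rw [h1]
      apply (he p hpf hpC i).prod_mul
      · intro q hq
        have := mem_of_mem_erase hq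
        rw [hQ, mem_filter] at this
        exact this.2
      · exact notMem_erase _ _
    · apply EvenAt.prod_mul _ Q (fun q hq => by rw [hQ, mem_filter] at hq; exact hq.2) hpQ
      apply hB i
      by_contra hle
      apply hpQ
      rw [hQ, mem_filter, mem_range]
      have h2 : B i ≤ univ.sup B := le_sup (mem_univ i)
      exact ⟨by omega, hpf.out⟩
  refine ⟨r, hr0, fun i => ?_⟩
  have hrΔ0 : AdjoinRoot.mk (fr (f i)) (C r * Δ i) ≠ 0 := by
    rw [map_mul]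
    refine mul_ne_zero ?_ (hΔ0 i)
    rw [AdjoinRoot.mk_C]
    exact (_root_.map_ne_zero _).2 hr0
  exact hreps i (C r * Δ i) hrΔ0 (hall i)

end Stoll308.TW
end

section
set_option autoImplicit false

/-!
The unit statement at all good primes, with a common exponent for all components (as
`Gen.unit_mem`, `Gen.unit_all`).
-/

namespace Stoll308.TW

open Finset Polynomial Stoll308.Gen NumberTheorySymbols

variable {k : ℕ} {f : Fin k → ℤ[X]} {C₀ : ℕ}

theorem valid_cpt {t : ℤ} {δ : ℚ[X]} {r : ℕ → Lab k} (hD : LabD f C₀ t δ r) (i : Fin k) :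
    Valid (f i) C₀ (cpt i (bigPrimes C₀ t) r) (rts r) := by
  intro p hp
  unfold cpt at hp
  rw [mem_filter] at hp
  obtain ⟨h1, h2⟩ := hp
  obtain ⟨j, h3, h4⟩ := hD.lab p h1
  have h5 := h2.symm.trans h3
  injection h5 with h6
  subst h6
  unfold bigPrimes at h1
  rw [mem_filter] at h1
  exact ⟨Nat.prime_of_mem_primeFactors h1.1, h1.2, h4⟩

/-- The local statement at a prime of `T`, with the exponent `e`. -/
private lemma unit_mem_e {g : ℤ[X]} (hG : GoodBound g C₀) {p : ℕ} [hp : Fact p.Prime]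
    (hpC : C₀ < p) {T T' : Finset ℕ} {ρ : ℕ → ℕ}
    (hV : Valid g C₀ T ρ) (hV' : Valid g C₀ T' ρ) (hpT : p ∈ T) (hpT' : p ∉ T') {α : ℤ_[p]}
    (hα : Lift g p (ρ p) α) {δ : ℚ[X]} {e : ℤ}
    (h : ∀ (q : ℤ_[p][X]) (κ : ℤ_[p]), q.Monic → fz g p = (X - C α) * q → κ * q.eval α = 1 →
        ∃ w : AdjoinRoot (fq g p), ∃ u, UU g p u ∧
          mkq g p (C ((p : ℚ_[p]) ^ e)) * mkq g p (dq δ p) * w ^ 2 = PP g q κ (p : ℚ_[p]) * u) :
    ∃ w : AdjoinRoot (fq g p),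
      UU g p (mkq g p (C ((p : ℚ_[p]) ^ e)) * mkq g p (dq (δ * (tq g T ρ * tq g T' ρ)) p) * w ^ 2) := by
  obtain ⟨q, hqm, hq⟩ := exists_factor hG.monic hα.1
  obtain ⟨κ, hκ⟩ := (factor_eval_unit (hG.sep p hp.out hpC) hq (x := α) rfl).exists_left_inv
  obtain ⟨w, u, hu, h1⟩ := h q κ hqm hq hκ
  obtain ⟨u', hu', h2⟩ := PP_tq hG hV hpT hα hqm hq hκ
  have h3 := UU_tq hG hV' hpC hpT'
  refine ⟨w * PP g q κ ((p : ℚ_[p])⁻¹), ?_⟩
  have h4 : PP g q κ (p : ℚ_[p]) * PP g q κ ((p : ℚ_[p])⁻¹) = 1 := by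
    rw [PP_mul hq hκ, mul_inv_cancel₀ p_ne_zero_q, PP_one]
  have h5 : mkq g p (C ((p : ℚ_[p]) ^ e)) * mkq g p (dq (δ * (tq g T ρ * tq g T' ρ)) p) *
      (w * PP g q κ ((p : ℚ_[p])⁻¹)) ^ 2 = (u * u') * mkq g p (dq (tq g T' ρ) p) := by
    have h6 : dq (δ * (tq g T ρ * tq g T' ρ)) p =
        dq δ p * (dq (tq g T ρ) p * dq (tq g T' ρ) p) := by
      unfold dq
      rw [Polynomial.map_mul, Polynomial.map_mul]
    rw [h6, map_mul, map_mul, h2]
    linear_combination (PP g q κ (p : ℚ_[p]) * u' * mkq g p (dq (tq g T' ρ) p) *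
      PP g q κ ((p : ℚ_[p])⁻¹) ^ 2) * h1 + (u * u' * mkq g p (dq (tq g T' ρ) p) *
      (PP g q κ (p : ℚ_[p]) * PP g q κ ((p : ℚ_[p])⁻¹) + 1)) * h4
  rw [h5]
  exact (hu.mul hu').mul h3

theorem unit_tuple (hG : GB f C₀) {t : ℤ} {δ : ℚ[X]} {r : ℕ → Lab k} (hD : LabD f C₀ t δ r)
    {T₁ T₂ : Fin k → Finset ℕ} (hd : ∀ i, Disjoint (T₁ i) (T₂ i))
    (hun : ∀ i, T₁ i ∪ T₂ i = cpt i (bigPrimes C₀ t) r) (p : ℕ) [hp : Fact p.Prime]
    (hpC : C₀ < p) : ∃ e : ℤ, ∀ i, ∃ w : AdjoinRoot (fq (f i) p),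
      UU (f i) p (mkq (f i) p (C ((p : ℚ_[p]) ^ e)) *
        mkq (f i) p (dq (δ * (tq (f i) (T₁ i) (rts r) * tq (f i) (T₂ i) (rts r))) p) * w ^ 2) := by
  obtain ⟨e, he⟩ := hD.unit p hpC
  refine ⟨e, fun i => ?_⟩
  have hV := valid_cpt hD i
  rw [← hun i] at hV
  have hV₁ : Valid (f i) C₀ (T₁ i) (rts r) := fun q hq => hV q (mem_union_left _ hq)
  have hV₂ : Valid (f i) C₀ (T₂ i) (rts r) := fun q hq => hV q (mem_union_right _ hq)
  have hGi := hG.good i
  by_cases hr : r p = .r i (r p).rt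
  · obtain ⟨α, hα, h⟩ := (he i).2 hr
    have hpb : p ∈ bigPrimes C₀ t := (hD.supp p).1 (by rw [hr]; exact nofun)
    have hpc : p ∈ T₁ i ∪ T₂ i := by
      rw [hun i]
      unfold cpt
      rw [mem_filter]
      exact ⟨hpb, hr⟩
    rcases mem_union.1 hpc with hp1 | hp2
    · exact unit_mem_e hGi hpC hV₁ hV₂ hp1 (fun h => disjoint_left.1 (hd i) hp1 h) hα h
    · have := unit_mem_e hGi hpC hV₂ hV₁ hp2 (fun h' => disjoint_left.1 (hd i) h' hp2) hα h
      rwa [mul_comm (tq (f i) (T₂ i) (rts r))] at this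
  · obtain ⟨w, h⟩ := (he i).1 hr
    have hpc : p ∉ T₁ i ∪ T₂ i := by
      rw [hun i]
      unfold cpt
      rw [mem_filter]
      exact fun h' => hr h'.2
    have h1 : p ∉ T₁ i := fun h => hpc (mem_union_left _ h)
    have h2 : p ∉ T₂ i := fun h => hpc (mem_union_right _ h)
    refine ⟨w, ?_⟩
    have h3 := (h.mul (UU_tq hGi hV₁ hpC h1)).mul (UU_tq hGi hV₂ hpC h2)
    have h4 : dq (δ * (tq (f i) (T₁ i) (rts r) * tq (f i) (T₂ i) (rts r))) p =
        dq δ p * (dq (tq (f i) (T₁ i) (rts r)) p * dq (tq (f i) (T₂ i) (rts r)) p) := by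
      unfold dq
      rw [Polynomial.map_mul, Polynomial.map_mul]
    rw [h4, map_mul, map_mul]
    have h5 : mkq (f i) p (C ((p : ℚ_[p]) ^ e)) * (mkq (f i) p (dq δ p) *
        (mkq (f i) p (dq (tq (f i) (T₁ i) (rts r)) p) *
          mkq (f i) p (dq (tq (f i) (T₂ i) (rts r)) p))) * w ^ 2 =
        mkq (f i) p (C ((p : ℚ_[p]) ^ e)) * mkq (f i) p (dq δ p) * w ^ 2 *
          mkq (f i) p (dq (tq (f i) (T₁ i) (rts r)) p) *
          mkq (f i) p (dq (tq (f i) (T₂ i) (rts r)) p) := by ring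
    rw [h5]
    exact h3

end Stoll308.TW
end

section
set_option autoImplicit false

/-!
The relation between two roots (as `Gen.symbol_eq`, `Gen.main_rel`).
-/

namespace Stoll308.TW

open Finset Polynomial Stoll308.Gen NumberTheorySymbols

variable {k : ℕ} {f : Fin k → ℤ[X]} {C₀ : ℕ}

private lemma jac_eq {p : ℕ} [hp : Fact p.Prime] (z : ℤ) :
    J(z | p) = quadraticChar (ZMod p) (z : ZMod p) := by
  rw [← jacobiSym.legendreSym.to_jacobiSym, legendreSym]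

private lemma prod_jac {p : ℕ} [hp : Fact p.Prime] (c : Fin k → ℤ) :
    (∏ b, J(c b | p)) = quadraticChar (ZMod p) ((∏ b, c b : ℤ) : ZMod p) := by
  rw [prod_congr rfl fun b _ => jac_eq (c b), ← map_prod]
  push_cast
  rfl

/-- The symbol of the second Thue elements. -/
theorem symbol_tuple (hG : GB f C₀) {p : ℕ} [hp : Fact p.Prime] (hpC : C₀ < p)
    {T : Fin k → Finset ℕ} {ρ : ℕ → ℕ} (hV : ∀ i, Valid (f i) C₀ (T i) ρ)
    (hpT : ∀ i, p ∉ T i) {i j : Fin k} {α β : ℤ_[p]} {r a : ℕ} (hα : Lift (f j) p r α)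
    (hβ : Lift (f i) p a β) :
    ∃ u : ℤ_[p], IsUnit u ∧ (u : ℚ_[p]) = ((∏ b, ∏ q ∈ T b, q : ℕ) : ℚ_[p]) *
      (dq (tq (f j) (T j) ρ) p).eval (α : ℚ_[p]) * (dq (tq (f i) (T i) ρ) p).eval (β : ℚ_[p]) ∧
      ((IsSquare (u : ℚ_[p]) ∧ (∏ b, J(kap (f b) (T b) ρ | p)) *
          J(ev (thue (f i) (T i) ρ) (a : ℤ) * ev (thue (f j) (T j) ρ) (r : ℤ) *
            ∏ b, Nm (f b) (thue (f b) (T b) ρ) | p) = 1) ∨
        (¬ IsSquare (u : ℚ_[p]) ∧ (∏ b, J(kap (f b) (T b) ρ | p)) *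
          J(ev (thue (f i) (T i) ρ) (a : ℤ) * ev (thue (f j) (T j) ρ) (r : ℤ) *
            ∏ b, Nm (f b) (thue (f b) (T b) ρ) | p) = -1)) := by
  classical
  set G : (b : Fin k) → ℤ_[p][X] := fun b => poly (fun i => (thue (f b) (T b) ρ i : ℤ_[p])) with hGdef
  set N : ℕ := ∏ b, ∏ q ∈ T b, q with hN
  have hroot : ∀ {b : Fin k} {c : ℕ} {γ : ℤ_[p]}, Lift (f b) p c γ → rd p ((G b).eval γ) ≠ 0 := by
    intro b c γ hγ h0
    obtain ⟨u, v, huv⟩ := thue_coprime (hG.good b) (hV b) hp.out hpC (hpT b)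
    have h1 := congrArg (eval (rd p γ)) huv
    rw [eval_add, eval_mul, eval_mul, ← rd_poly, eval_map_apply] at h1
    change _ * rd p ((G b).eval γ) + _ = _ at h1
    rw [h0, ← fz_map, eval_map_apply, hγ.1] at h1
    simp at h1
  have hNp : (N : ZMod p) ≠ 0 := by
    rw [Ne, ZMod.natCast_eq_zero_iff, hN, hp.out.prime.dvd_finsetProd_iff]
    rintro ⟨b, _, hb⟩
    rw [hp.out.prime.dvd_finsetProd_iff] at hb
    obtain ⟨q, hq, hpq⟩ := hb
    have := (Nat.prime_dvd_prime_iff_eq hp.out (hV b q hq).1).1 hpq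
    exact hpT b (this ▸ hq)
  have hu : IsUnit ((N : ℤ_[p]) * (G j).eval α * (G i).eval β) := by
    rw [← rd_ne_zero_iff, map_mul, map_mul, map_natCast]
    exact mul_ne_zero (mul_ne_zero hNp (hroot hα)) (hroot hβ)
  refine ⟨_, hu, ?_, ?_⟩
  · rw [dq_tq_eval, dq_tq_eval]
    push_cast
    rfl
  · have h1 : (∏ b, J(kap (f b) (T b) ρ | p)) *
          J(ev (thue (f i) (T i) ρ) (a : ℤ) * ev (thue (f j) (T j) ρ) (r : ℤ) *
            ∏ b, Nm (f b) (thue (f b) (T b) ρ) | p) =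
        quadraticChar (ZMod p) (rd p ((N : ℤ_[p]) * (G j).eval α * (G i).eval β)) := by
      rw [prod_jac, jac_eq, ← map_mul]
      have h2 : ((∏ b, kap (f b) (T b) ρ : ℤ) : ZMod p) *
          ((ev (thue (f i) (T i) ρ) (a : ℤ) * ev (thue (f j) (T j) ρ) (r : ℤ) *
            ∏ b, Nm (f b) (thue (f b) (T b) ρ) : ℤ) : ZMod p) =
          ((∏ b, kap (f b) (T b) ρ : ℤ) : ZMod p) ^ 2 *
          rd p ((N : ℤ_[p]) * (G j).eval α * (G i).eval β) := by
        have h3 : ∀ {b : Fin k} {c : ℕ} {γ : ℤ_[p]}, Lift (f b) p c γ →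
            ((ev (thue (f b) (T b) ρ) (c : ℤ) : ℤ) : ZMod p) = rd p ((G b).eval γ) := by
          intro b c γ hγ
          rw [hGdef, poly_eval, ev_map, hγ.2, ev_cast]
          simp
        have h4 : ∏ b, Nm (f b) (thue (f b) (T b) ρ) =
            (∏ b, kap (f b) (T b) ρ) * ((N : ℕ) : ℤ) := by
          rw [hN, Nat.cast_prod, ← prod_mul_distrib]
          exact prod_congr rfl fun b _ => kap_mul (hG.good b) (hV b)
        rw [h4, Int.cast_mul, Int.cast_mul, Int.cast_mul, h3 hα, h3 hβ, map_mul, map_mul,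
          map_natCast, Int.cast_natCast]
        ring
      rw [h2, map_mul, map_pow]
      have hk : ((∏ b, kap (f b) (T b) ρ : ℤ) : ZMod p) ≠ 0 := by
        rw [Int.cast_prod, prod_ne_zero_iff]
        intro b _
        rw [Ne, ZMod.intCast_zmod_eq_zero_iff_dvd]
        exact not_dvd_kap (hG.good b) (hV b) hpC
      rw [quadraticChar_sq_one hk, one_mul]
    rw [h1]
    have hu' := rd_ne_zero_iff.2 hu
    by_cases hsq : IsSquare (((N : ℤ_[p]) * (G j).eval α * (G i).eval β : ℤ_[p]) : ℚ_[p])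
    · left
      exact ⟨hsq, (quadraticChar_one_iff_isSquare hu').2
        ((isSquare_coe_iff ((hG.good i).ne_two hpC) hu).1 hsq)⟩
    · right
      refine ⟨hsq, ?_⟩
      rw [quadraticChar_neg_one_iff_not_isSquare]
      exact fun h => hsq ((isSquare_coe_iff ((hG.good i).ne_two hpC) hu).2 h)

private lemma prod_big {t : ℤ} {δ : ℚ[X]} {r : ℕ → Lab k} (hD : LabD f C₀ t δ r)
    {T₁ T₂ : Fin k → Finset ℕ} (hd : ∀ i, Disjoint (T₁ i) (T₂ i))
    (hun : ∀ i, T₁ i ∪ T₂ i = cpt i (bigPrimes C₀ t) r) :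
    ∏ p ∈ bigPrimes C₀ t, p = (∏ b, ∏ q ∈ T₁ b, q) * ∏ b, ∏ q ∈ T₂ b, q := by
  classical
  have h1 : bigPrimes C₀ t = univ.biUnion fun b => cpt b (bigPrimes C₀ t) r := by
    ext p
    rw [mem_biUnion]
    constructor
    · intro hp
      obtain ⟨j, h1, _⟩ := hD.lab p hp
      exact ⟨j, mem_univ _, mem_filter.2 ⟨hp, h1⟩⟩
    · rintro ⟨j, _, h⟩
      exact (mem_filter.1 h).1
  rw [h1, prod_biUnion, ← prod_mul_distrib]
  · refine prod_congr rfl fun b _ => ?_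
    rw [← hun b, prod_union (hd b)]
  · intro i _ j _ hij
    change Disjoint (cpt i (bigPrimes C₀ t) r) (cpt j (bigPrimes C₀ t) r)
    rw [disjoint_left]
    intro p hp hp'
    have h2 := (mem_filter.1 hp).2.symm.trans (mem_filter.1 hp').2
    injection h2 with h3
    exact hij h3

private lemma mk_tq_ne {g : ℤ[X]} (hG : GoodBound g C₀) {T : Finset ℕ} {ρ : ℕ → ℕ}
    (hV : Valid g C₀ T ρ) {p : ℕ} [hp : Fact p.Prime] {α : ℤ_[p]} (hα : (fz g p).eval α = 0) :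
    (dq (tq g T ρ) p).eval (α : ℚ_[p]) ≠ 0 := by
  have hirr : Fact (Irreducible (fr g)) := ⟨fr_irr hG⟩
  rw [← evHom_mk hα]
  exact (_root_.map_ne_zero _).2 (mk_tq_ne_zero hG hV)

/-- The relation between the label `j, r p` and the root `a` of `f i`. -/
theorem raw_rel (hG : GB f C₀) {t : ℤ} (ht : Squarefree t) {δ : ℚ[X]} {r : ℕ → Lab k}
    (hD : LabD f C₀ t δ r) {T₁ T₂ : Fin k → Finset ℕ} (hd : ∀ i, Disjoint (T₁ i) (T₂ i))
    (hun : ∀ i, T₁ i ∪ T₂ i = cpt i (bigPrimes C₀ t) r) {x : ℚ} (hx : x ≠ 0)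
    {ε : Fin k → ℚ[X]} {γ : (i : Fin k) → AdjoinRoot (fr (f i))}
    (hγ : ∀ i, ¬ γ i = 0)
    (hmk : ∀ i, AdjoinRoot.mk (fr (f i)) (C x * (δ * (tq (f i) (T₁ i) (rts r) *
      tq (f i) (T₂ i) (rts r)))) = AdjoinRoot.mk (fr (f i)) (ε i) * γ i ^ 2)
    {p : ℕ} {i j : Fin k} (hpT : p ∈ T₁ j) {a : ℕ} (ha : a ∈ R (f i) p) (hne : a ≠ rts r p) :
    cR f ε (sp C₀ t) T₁ (rts r) p i j a * ((∏ b, J(kap (f b) (T₂ b) (rts r) | p)) *
      J(ev (thue (f i) (T₂ i) (rts r)) (a : ℤ) *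
        ev (thue (f j) (T₂ j) (rts r)) ((rts r p : ℕ) : ℤ) *
        ∏ b, Nm (f b) (thue (f b) (T₂ b) (rts r)) | p)) = 1 := by
  classical
  have hVc : ∀ b, Valid (f b) C₀ (T₁ b ∪ T₂ b) (rts r) := fun b => by
    rw [hun b]
    exact valid_cpt hD b
  have hV₁ : ∀ b, Valid (f b) C₀ (T₁ b) (rts r) := fun b q hq => hVc b q (mem_union_left _ hq)
  have hV₂ : ∀ b, Valid (f b) C₀ (T₂ b) (rts r) := fun b q hq => hVc b q (mem_union_right _ hq)
  have hp : Fact p.Prime := ⟨(hV₁ j p hpT).1⟩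
  have hpC := (hV₁ j p hpT).2.1
  have hcj : p ∈ cpt j (bigPrimes C₀ t) r := hun j ▸ mem_union_left _ hpT
  have hpb : p ∈ bigPrimes C₀ t := (mem_filter.1 hcj).1
  have hrp : r p = .r j (r p).rt := (mem_filter.1 hcj).2
  have hpT₂ : ∀ b, p ∉ T₂ b := by
    intro b hb
    by_cases hbj : b = j
    · subst hbj
      exact disjoint_left.1 (hd b) hpT hb
    · have h1 : p ∈ cpt b (bigPrimes C₀ t) r := hun b ▸ mem_union_right _ hb
      have h2 := (mem_filter.1 h1).2.symm.trans hrp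
      injection h2 with h3
      exact hbj h3
  obtain ⟨α, hα, hrel⟩ := hD.rel p hpb j hrp
  obtain ⟨β, hβ⟩ := exists_lift ((hG.good i).sep p hp.out hpC) ha
  have hβα : β ≠ α := by
    rintro rfl
    exact hne (cast_inj_of_lt (mem_R.1 ha).1 (mem_R.1 (hV₁ j p hpT).2.2).1 (hβ.2.symm.trans hα.2))
  obtain ⟨hAδ, hBδ, hsq⟩ := hrel β ((hG.eval_FF β).2 ⟨i, hβ.1⟩) hβα
  set ρ := rts r with hρ
  have hρp : ρ p = (r p).rt := rfl
  rw [← hρp] at hα
  set s : ℤ := sp C₀ t with hs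
  set N₁ : ℕ := ∏ b, ∏ q ∈ T₁ b, q with hN₁
  set N₂ : ℕ := ∏ b, ∏ q ∈ T₂ b, q with hN₂
  have hts : t = s * (N₁ : ℤ) * (N₂ : ℤ) := by
    have h1 : s * ((∏ p ∈ bigPrimes C₀ t, p : ℕ) : ℤ) = t :=
      Int.ediv_mul_cancel prod_bigPrimes_dvd
    rw [prod_big hD hd hun, Nat.cast_mul, ← mul_assoc] at h1
    exact h1.symm
  -- evaluate the identities in the number fields
  have hgne : ∀ {b : Fin k} {c : ℕ} {η : ℤ_[p]} (hη : Lift (f b) p c η), evHom hη.1 (γ b) ≠ 0 := by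
    intro b c η hη
    have hirr : Fact (Irreducible (fr (f b))) := ⟨fr_irr (hG.good b)⟩
    exact (_root_.map_ne_zero _).2 (hγ b)
  have hgα := hgne hα
  have hgβ := hgne hβ
  have hev : ∀ {b : Fin k} {c : ℕ} {η : ℤ_[p]} (hη : Lift (f b) p c η),
      (x : ℚ_[p]) * ((dq δ p).eval (η : ℚ_[p]) * ((dq (tq (f b) (T₁ b) ρ) p).eval (η : ℚ_[p]) *
        (dq (tq (f b) (T₂ b) ρ) p).eval (η : ℚ_[p]))) =
      (dq (ε b) p).eval (η : ℚ_[p]) * evHom hη.1 (γ b) ^ 2 := by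
    intro b c η hη
    have h1 := congrArg (evHom hη.1) (hmk b)
    rw [map_mul (evHom hη.1), map_pow, evHom_mk, evHom_mk] at h1
    rw [← h1]
    unfold dq
    rw [Polynomial.map_mul, Polynomial.map_mul, Polynomial.map_mul, map_C, eval_mul, eval_mul,
      eval_mul, eval_C]
    simp
  have hevα := hev hα
  have hevβ := hev hβ
  have hG₁α : (dq (tq (f j) (T₁ j) ρ) p).eval (α : ℚ_[p]) ≠ 0 :=
    mk_tq_ne (hG.good j) (hV₁ j) hα.1
  have hG₁β : (dq (tq (f i) (T₁ i) ρ) p).eval (β : ℚ_[p]) ≠ 0 :=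
    mk_tq_ne (hG.good i) (hV₁ i) hβ.1
  have hG₂α : (dq (tq (f j) (T₂ j) ρ) p).eval (α : ℚ_[p]) ≠ 0 :=
    mk_tq_ne (hG.good j) (hV₂ j) hα.1
  have hG₂β : (dq (tq (f i) (T₂ i) ρ) p).eval (β : ℚ_[p]) ≠ 0 :=
    mk_tq_ne (hG.good i) (hV₂ i) hβ.1
  have hx' : (x : ℚ_[p]) ≠ 0 := by exact_mod_cast hx
  have hεα : (dq (ε j) p).eval (α : ℚ_[p]) ≠ 0 := by
    intro h
    rw [h, zero_mul] at hevα
    exact mul_ne_zero hx' (mul_ne_zero hAδ (mul_ne_zero hG₁α hG₂α)) hevα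
  have hεβ : (dq (ε i) p).eval (β : ℚ_[p]) ≠ 0 := by
    intro h
    rw [h, zero_mul] at hevβ
    exact mul_ne_zero hx' (mul_ne_zero hBδ (mul_ne_zero hG₁β hG₂β)) hevβ
  obtain ⟨u, hu, huU, hsym⟩ := symbol_tuple hG hpC hV₂ hpT₂ hα hβ
  -- `Z U` is a square
  set D : ℚ_[p] := (((derivative (fz (FF f) p)).eval α * (α - β) : ℤ_[p]) : ℚ_[p]) with hDdef
  have hD0 : D ≠ 0 := by
    have hFα : (fz (FF f) p).eval α = 0 := (hG.eval_FF α).2 ⟨j, hα.1⟩
    obtain ⟨q, hqm, hq⟩ := exists_factor hG.monicF hFα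
    rw [hDdef, PadicInt.coe_ne_zero, deriv_eval hq]
    refine mul_ne_zero ?_ (sub_ne_zero.2 hβα.symm)
    have := factor_eval_unit (hG.sep p hp.out hpC) hq (x := α) rfl
    intro h0
    rw [h0] at this
    exact not_isUnit_zero this
  have ht0 : (t : ℚ_[p]) ≠ 0 := by exact_mod_cast ht.ne_zero
  have htq : (t : ℚ_[p]) = (s : ℚ_[p]) * ((N₁ : ℕ) : ℚ_[p]) * ((N₂ : ℕ) : ℚ_[p]) := by
    have := congrArg (Int.cast : ℤ → ℚ_[p]) hts
    rw [this, Int.cast_mul, Int.cast_mul, Int.cast_natCast, Int.cast_natCast]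
  have hs0 : (s : ℚ_[p]) ≠ 0 := fun h => ht0 (by rw [htq, h]; ring)
  have hT₁0 : ((N₁ : ℕ) : ℚ_[p]) ≠ 0 := fun h => ht0 (by rw [htq, h]; ring)
  obtain ⟨q, hq⟩ := hsq
  have hZU : ZR f ε s T₁ ρ p i j α β * (u : ℚ_[p]) =
      ((x : ℚ_[p]) * ((dq (tq (f j) (T₁ j) ρ) p).eval (α : ℚ_[p]) *
        (dq (tq (f i) (T₁ i) ρ) p).eval (β : ℚ_[p]) *
        (dq (tq (f j) (T₂ j) ρ) p).eval (α : ℚ_[p]) *
        (dq (tq (f i) (T₂ i) ρ) p).eval (β : ℚ_[p])) * q /
        (evHom hα.1 (γ j) * evHom hβ.1 (γ i))) ^ 2 := by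
    rw [huU]
    unfold ZR
    rw [← hDdef, ← hN₁, ← hN₂, div_pow, eq_div_iff (pow_ne_zero 2 (mul_ne_zero hgα hgβ))]
    set Eα := (dq (ε j) p).eval (α : ℚ_[p])
    set Eβ := (dq (ε i) p).eval (β : ℚ_[p])
    set A := (dq δ p).eval (α : ℚ_[p])
    set B := (dq δ p).eval (β : ℚ_[p])
    set G₁α := (dq (tq (f j) (T₁ j) ρ) p).eval (α : ℚ_[p])
    set G₁β := (dq (tq (f i) (T₁ i) ρ) p).eval (β : ℚ_[p])
    set G₂α := (dq (tq (f j) (T₂ j) ρ) p).eval (α : ℚ_[p])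
    set G₂β := (dq (tq (f i) (T₂ i) ρ) p).eval (β : ℚ_[p])
    set gα := evHom hα.1 (γ j)
    set gβ := evHom hβ.1 (γ i)
    set M₁ : ℚ_[p] := ((N₁ : ℕ) : ℚ_[p])
    set M₂ : ℚ_[p] := ((N₂ : ℕ) : ℚ_[p])
    have h1 : (Eα * gα ^ 2) * (Eβ * gβ ^ 2) = (x * (A * (G₁α * G₂α))) * (x * (B * (G₁β * G₂β))) := by
      rw [hevα, hevβ]
    have h2 : B * A * (s * M₁ * M₂) * D = q * q := by
      rw [← htq, hq]
    linear_combination (G₁β * G₁α * s * M₁ * D * M₂ * G₂α * G₂β) * h1 +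
      (x ^ 2 * (G₁α * G₁β * G₂α * G₂β) ^ 2) * h2
  have hZ0 : ZR f ε s T₁ ρ p i j α β ≠ 0 := by
    unfold ZR
    exact mul_ne_zero (mul_ne_zero (mul_ne_zero (mul_ne_zero (mul_ne_zero (mul_ne_zero hεβ hεα)
      hG₁β) hG₁α) hs0) hT₁0) hD0
  have hu0 := unit_ne_zero hu
  set Y : ℚ_[p] := ((x : ℚ_[p]) * ((dq (tq (f j) (T₁ j) ρ) p).eval (α : ℚ_[p]) *
        (dq (tq (f i) (T₁ i) ρ) p).eval (β : ℚ_[p]) *
        (dq (tq (f j) (T₂ j) ρ) p).eval (α : ℚ_[p]) *
        (dq (tq (f i) (T₂ i) ρ) p).eval (β : ℚ_[p])) * q /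
        (evHom hα.1 (γ j) * evHom hβ.1 (γ i))) with hY
  have hiff : IsSquare (ZR f ε s T₁ ρ p i j α β) ↔ IsSquare (u : ℚ_[p]) := by
    constructor
    · rintro ⟨z, hz⟩
      rw [hz] at hZU hZ0
      exact ⟨Y / z, by rw [div_mul_div_comm, ← sq, ← hZU, mul_comm (z * z), mul_div_assoc,
        div_self hZ0, mul_one]⟩
    · rintro ⟨z, hz⟩
      rw [hz] at hZU hu0
      exact ⟨Y / z, by rw [div_mul_div_comm, ← sq, ← hZU, mul_div_assoc, div_self hu0, mul_one]⟩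
  rcases hsym with ⟨hsq', hsym⟩ | ⟨hsq', hsym⟩
  · have hcc : cR f ε s T₁ ρ p i j a = 1 := by
      unfold cR
      rw [if_pos]
      exact ⟨hp, α, β, hα, hβ, hiff.2 hsq'⟩
    rw [hcc, hsym]
    norm_num
  · have hcc : cR f ε s T₁ ρ p i j a = -1 := by
      unfold cR
      rw [if_neg]
      rintro ⟨hp', α', β', hα', hβ', hsq''⟩
      apply hsq'
      rw [← hiff]
      have e1 := hG.lift_unique hpC hα' hα
      have e2 := hG.lift_unique hpC hβ' hβ
      rw [← e1, ← e2]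
      exact hsq''
    rw [hcc, hsym]
    norm_num

end Stoll308.TW
end

section
set_option autoImplicit false

/-!
The characters are nontrivial (as `Gen.exists_unit`, `Gen.sum_Ψ_eq_zero`).
-/

namespace Stoll308.TW

open Finset Polynomial Stoll308.Gen NumberTheorySymbols

variable {k : ℕ} {f : Fin k → ℤ[X]} {C₀ : ℕ}

/-- A unit modulo `g` whose norm to a nontrivial factor `h` is not a square. -/
theorem exists_unit_factor {p : ℕ} [hp : Fact p.Prime] {g h q : (ZMod p)[X]} (hg : g.Monic)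
    (hsep : g.Separable) (hp2 : p ≠ 2) (hbig : (2 * g.natDegree + 2) ^ 2 ≤ p) (hgh : g = h * q)
    (hh : h.Monic) (hdeg : 1 ≤ h.natDegree) :
    ∃ u : (ZMod p)[X], IsCoprime u g ∧ quadraticChar (ZMod p) (resultant h u) = -1 ∧
      q ∣ u - 1 := by
  classical
  have hqm : q.Monic := hh.of_mul_monic_left (hgh ▸ hg)
  have hdg : h.natDegree + q.natDegree = g.natDegree := by
    rw [hgh, hh.natDegree_mul hqm]
  have hc : IsCoprime h q := by
    rw [hgh] at hsep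
    exact hsep.isCoprime
  have hhsep : h.Separable := by
    rw [hgh] at hsep
    exact hsep.of_mul_left
  obtain ⟨s, hs⟩ : ∃ s : ℤ, s = quadraticChar (ZMod p) ((-1) ^ h.natDegree) := ⟨_, rfl⟩
  have hs1 : s = 1 ∨ s = -1 := by
    rw [hs]
    exact quadraticChar_dichotomy (pow_ne_zero _ (neg_ne_zero.2 one_ne_zero))
  obtain ⟨b, hb⟩ := Stoll308.Gen.exists_value (p := p) hp2 h hhsep.squarefree hdeg
      (le_trans (Nat.pow_le_pow_left (by omega) 2) hbig) (ε := -s) (by omega)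
  obtain ⟨u, hu1, hu2⟩ := exists_crt hc (X - C b) 1
  have hres : resultant h u = (-1) ^ h.natDegree * h.eval b := by
    rw [res_congr _ _ _ hh hu1]
    have h1 := resultant_X_sub_C_right h h.natDegree b le_rfl
    rw [← h1, ← res_pad h (X - C b) hh 1 (natDegree_X_sub_C_le _)]
  have hχ : quadraticChar (ZMod p) (resultant h u) = -1 := by
    rw [hres, map_mul, hb, ← hs]
    rcases hs1 with h | h <;> rw [h] <;> norm_num
  refine ⟨u, ?_, hχ, hu2⟩
  rw [hgh]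
  refine IsCoprime.mul_right ?_ ?_
  · have h0 : resultant h u ≠ 0 := by
      intro h0
      rw [h0] at hχ
      simp at hχ
    exact ((isUnit_resultant_iff_isCoprime hh).1 (isUnit_iff_ne_zero.2 h0)).symm
  · obtain ⟨w, hw⟩ := hu2
    exact ⟨1, -w, by linear_combination hw⟩

section char

variable {p : ℕ} [hp : Fact p.Prime]

private lemma sum_char_eq_zero {F : ℤ[X]} (hf : F.Monic) (Φ : (ZMod p)[X] → ℤ)
    (hmul : ∀ q r, Φ (q * r) = Φ q * Φ r) (hcongr : ∀ q r, fp F p ∣ q - r → Φ q = Φ r)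
    {u : (ZMod p)[X]} (hu : IsCoprime u (fp F p)) (hΦ : Φ u = -1) :
    ∑ g : Fin F.natDegree → ZMod p, Φ (poly g) = 0 := by
  have hbij : Function.Bijective (mulMap F p u) :=
    (Finite.injective_iff_bijective).1 (mulMap_injective hf hu)
  have h1 : ∑ g : Fin F.natDegree → ZMod p, Φ (poly g) =
      ∑ g : Fin F.natDegree → ZMod p, Φ (poly (mulMap F p u g)) :=
    (Function.Bijective.sum_comp hbij fun g => Φ (poly g)).symm
  have h2 : ∀ g : Fin F.natDegree → ZMod p, Φ (poly (mulMap F p u g)) = - Φ (poly g) := by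
    intro g
    rw [poly_mulMap hf]
    have h3 : fp F p ∣ (u * poly g) %ₘ (fp F p) - u * poly g := by
      refine ⟨-((u * poly g) /ₘ (fp F p)), ?_⟩
      have := modByMonic_add_div (u * poly g) (fp F p)
      linear_combination this
    rw [hcongr _ _ h3, hmul, hΦ]
    ring
  rw [sum_congr rfl fun g _ => h2 g, sum_neg_distrib] at h1
  omega

private lemma sum_fin_eq {n : ℕ} (F : (Fin n → ZMod p) → ℤ) :
    ∑ g : Fin n → Fin p, F (fun i => ((g i : ℕ) : ZMod p)) = ∑ g : Fin n → ZMod p, F g := by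
  have hp0 : p ≠ 0 := hp.out.ne_zero
  let e : Fin p ≃ ZMod p :=
    { toFun := fun i => ((i : ℕ) : ZMod p)
      invFun := fun z => ⟨z.val, ZMod.val_lt z⟩
      left_inv := fun i => by
        apply Fin.ext
        exact ZMod.val_cast_of_lt i.2
      right_inv := fun z => ZMod.natCast_zmod_val z }
  have h := Equiv.sum_comp (Equiv.piCongrRight fun _ : Fin n => e) F
  rw [← h]
  rfl

open Classical in
/-- The factor of one component. -/
private noncomputable def Gc (F : ℤ[X]) (p : ℕ) (bA bj : Prop) (ρ c : ℕ) (q : (ZMod p)[X]) :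
    ZMod p :=
  (if c ∈ R F p then q.eval (c : ZMod p) else 1) *
    ((if bA then (if bj then q.eval (ρ : ZMod p) else 1) else 1) *
      (if bA then resultant (fp F p) q else 1))

private lemma Gc_mul {F : ℤ[X]} (hF : F.Monic) (bA bj : Prop) (ρ c : ℕ) (q r : (ZMod p)[X]) :
    Gc F p bA bj ρ c (q * r) = Gc F p bA bj ρ c q * Gc F p bA bj ρ c r := by
  have hm : (fp F p).Monic := hF.map _
  unfold Gc
  rw [res_mul_right _ _ _ hm, eval_mul, eval_mul]
  split_ifs <;> ring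

private lemma eval_congr {F : ℤ[X]} {q r : (ZMod p)[X]} (h : fp F p ∣ q - r) {a : ℕ}
    (ha : a ∈ R F p) : q.eval (a : ZMod p) = r.eval (a : ZMod p) :=
  eval_eq_of_dvd h (Stoll308.Gen.mem_R.1 ha).2

private lemma Gc_congr {F : ℤ[X]} (hF : F.Monic) (bA bj : Prop) (ρ c : ℕ)
    (hρ : bj → ρ ∈ R F p) {q r : (ZMod p)[X]} (h : fp F p ∣ q - r) :
    Gc F p bA bj ρ c q = Gc F p bA bj ρ c r := by
  have hm : (fp F p).Monic := hF.map _
  unfold Gc
  rw [res_congr _ _ _ hm h]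
  congr 1
  · by_cases hc : c ∈ R F p
    · rw [if_pos hc, if_pos hc, eval_congr h hc]
    · rw [if_neg hc, if_neg hc]
  · congr 1
    by_cases hb : bA
    · rw [if_pos hb, if_pos hb]
      by_cases hj : bj
      · rw [if_pos hj, if_pos hj, eval_congr h (hρ hj)]
      · rw [if_neg hj, if_neg hj]
    · rw [if_neg hb, if_neg hb]

private lemma ψ_eq (hm : ∀ i, (f i).Monic) {A : Finset (Fin k)} {j : Fin k} (hj : j ∈ A)
    (ρ c : ℕ) (g : (i : Fin k) → Fin (f i).natDegree → ℤ) :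
    ψψ f A p (.r j ρ) c g = ((quadraticChar (ZMod p) (∏ i ∈ A, Gc (f i) p (RA f Aᶜ p = ∅)
      (i = j) ρ c (poly fun x => (g i x : ZMod p))) : ℤ) : ℝ) := by
  have hNm : ∀ i, ((Nm (f i) (g i) : ℤ) : ZMod p) =
      resultant (fp (f i) p) (poly fun x => (g i x : ZMod p)) := by
    intro i
    have hmi : (fp (f i) p).Monic := (hm i).map _
    have hd : (fp (f i) p).natDegree = (f i).natDegree := (hm i).natDegree_map _
    rw [Nm_cast]
    unfold Nm
    rw [← res_pad (fp (f i) p) (poly fun x => (g i x : ZMod p)) hmi (f i).natDegree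
      (poly_natDegree_le _), hd]
  have hev : ∀ i (a : ℕ), ((ev (g i) (a : ℤ) : ℤ) : ZMod p) =
      (poly fun x => (g i x : ZMod p)).eval (a : ZMod p) := by
    intro i a
    rw [ev_cast, poly_eval]
    push_cast
    rfl
  have hEV : ((EV f A p c g : ℤ) : ZMod p) = ∏ i ∈ A, if c ∈ R (f i) p then
      (poly fun x => (g i x : ZMod p)).eval (c : ZMod p) else 1 := by
    unfold EV
    push_cast
    refine prod_congr rfl fun i _ => ?_
    by_cases hc : c ∈ R (f i) p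
    · rw [if_pos hc, if_pos hc, hev]
    · rw [if_neg hc, if_neg hc]
  unfold ψψ
  by_cases hA : RA f Aᶜ p = ∅
  · simp only [if_pos hA, if_pos hj]
    rw [← jacobiSym.legendreSym.to_jacobiSym, legendreSym]
    congr 2
    rw [Int.cast_mul, Int.cast_mul, hEV, hev]
    unfold Gc
    simp only [if_pos hA]
    rw [prod_mul_distrib, prod_mul_distrib, Int.cast_prod, prod_congr rfl fun i _ => hNm i]
    have h3 : (∏ i ∈ A, if i = j then (poly fun x => (g i x : ZMod p)).eval (ρ : ZMod p) else 1) =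
        (poly fun x => (g j x : ZMod p)).eval (ρ : ZMod p) := by
      rw [prod_eq_single j (fun b _ hb => if_neg hb) (fun h => absurd hj h), if_pos rfl]
    rw [← h3, mul_assoc]
    refine congrArg₂ _ (prod_congr rfl fun i _ => ?_) (congrArg₂ _ (prod_congr rfl fun i _ => ?_) rfl)
    · by_cases hc : c ∈ R (f i) p
      · rw [if_pos hc]
      · rw [if_neg hc]
    · by_cases hc : i = j
      · rw [if_pos hc, if_pos hc]
      · rw [if_neg hc, if_neg hc]
  · simp only [if_neg hA]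
    rw [← jacobiSym.legendreSym.to_jacobiSym, legendreSym]
    congr 2
    rw [hEV]
    unfold Gc
    simp only [if_neg hA, mul_one]

end char

theorem nontriv_A (hG : GB f C₀) (A : Finset (Fin k)) (p : ℕ) (ℓ : Lab k) (hp : p.Prime)
    (hpC : C₀ < p) (hℓ : ℓ ∈ Lbl false (fun i p => R (f i) p) A p) (S : Finset ℕ)
    (hS : S ⊆ JJ f A p ℓ) (hne : S.Nonempty) :
    ∃ a ∈ A, ∀ g : (i : Fin k) → Fin (f i).natDegree → ℤ,
      ∑ v : Fin (f a).natDegree → Fin p,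
        ∏ c ∈ S, ψψ f A p ℓ c (Function.update g a fun x => ((v x : ℕ) : ℤ)) = 0 := by
  classical
  have : Fact p.Prime := ⟨hp⟩
  -- the label
  obtain ⟨j, hj, ρ, hρ, rfl⟩ : ∃ j ∈ A, ∃ ρ ∈ R (f j) p, ℓ = .r j ρ := by
    unfold Lbl at hℓ
    rw [mem_union] at hℓ
    rcases hℓ with h | h
    · simp at h
    · rw [mem_biUnion] at h
      obtain ⟨j, hj, h⟩ := h
      rw [mem_image] at h
      obtain ⟨ρ, hρ, h⟩ := h
      exact ⟨j, hj, ρ, hρ, h.symm⟩
  set bA : Prop := RA f Aᶜ p = ∅ with hbA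
  have hJS : JJ f A p (.r j ρ) ⊆ (RA f A p).erase ρ := by
    unfold JJ
    split_ifs
    · exact erase_subset _ _
    · exact subset_rfl
  have hSR : S ⊆ (RA f A p).erase ρ := hS.trans hJS
  have hρS : ρ ∉ S := fun h => by simpa using hSR h
  have hp2 : p ≠ 2 := by have := hG.two; omega
  have hbig : ∀ i, (2 * (fp (f i) p).natDegree + 2) ^ 2 ≤ p := by
    intro i
    have h1 : (f i).natDegree ≤ ∑ i, (f i).natDegree :=
      single_le_sum (f := fun i => (f i).natDegree) (fun _ _ => Nat.zero_le _) (mem_univ i)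
    have h2 := hG.big
    rw [(hG.monic i).natDegree_map]
    exact ((Nat.pow_le_pow_left (by omega) 2).trans h2).trans hpC.le
  -- the character of the component `b`
  let Φ : Fin k → (ZMod p)[X] → ℤ := fun b q =>
    ∏ c ∈ S, quadraticChar (ZMod p) (Gc (f b) p bA (b = j) ρ c q)
  have hsep : ∀ i, (fp (f i) p).Separable := fun i => (hG.good i).sep p hp hpC
  have hm : ∀ i, (fp (f i) p).Monic := fun i => (hG.monic i).map _
  have hprod : ∀ (T : Finset ℕ) (u : (ZMod p)[X]),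
      resultant (∏ a ∈ T, (X - C (a : ZMod p))) u = ∏ a ∈ T, u.eval (a : ZMod p) := by
    intro T u
    induction T using Finset.induction_on with
    | empty => simp
    | insert a T ha ih =>
      rw [prod_insert ha, prod_insert ha, res_mul_left _ _ _ (monic_X_sub_C _)
        (monic_prod_of_monic _ _ fun a _ => monic_X_sub_C _), res_X_sub_C, ih]
  have hQm : ∀ T : Finset ℕ, (∏ a ∈ T, (X - C (a : ZMod p))).Monic := fun T =>
    monic_prod_of_monic _ _ fun a _ => monic_X_sub_C _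
  have hQd : ∀ T : Finset ℕ, (∏ a ∈ T, (X - C (a : ZMod p))).natDegree = T.card := by
    intro T
    rw [natDegree_prod_of_monic _ _ fun a _ => monic_X_sub_C _,
      sum_congr rfl fun a _ => natDegree_X_sub_C _, sum_const]
    simp
  have key : ∃ b ∈ A, ∃ u : (ZMod p)[X], IsCoprime u (fp (f b) p) ∧ Φ b u = -1 := by
    by_cases hcase : bA ∧ Odd S.card
    · -- the odd case
      obtain ⟨hA, hodd⟩ := hcase
      have hex : ∃ b ∈ A, ((insert ρ S).filter (· ∈ R (f b) p)).card < (f b).natDegree := by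
        by_contra hcon
        push Not at hcon
        have h1 : ∀ b ∈ A, (R (f b) p).card = (f b).natDegree ∧ R (f b) p ⊆ insert ρ S := by
          intro b hb
          have h2 := hcon b hb
          have h3 : (insert ρ S).filter (· ∈ R (f b) p) ⊆ R (f b) p := fun x hx =>
            (mem_filter.1 hx).2
          have h4 := hG.card_R_le hp b
          have h5 := card_le_card h3
          refine ⟨by omega, ?_⟩
          have h6 := eq_of_subset_of_card_le h3 (by omega)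
          rw [← h6]
          exact filter_subset _ _
        have h2 : (RA f A p).card = ∑ i ∈ A, (f i).natDegree := by
          rw [hG.card_RA hp hpC]
          exact sum_congr rfl fun b hb => (h1 b hb).1
        have h3 : RA f A p = insert ρ S := by
          apply Subset.antisymm
          · intro x hx
            obtain ⟨b, hb, hx⟩ := mem_biUnion.1 hx
            exact (h1 b hb).2 hx
          · intro x hx
            rcases mem_insert.1 hx with rfl | hx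
            · exact mem_biUnion.2 ⟨j, hj, hρ⟩
            · exact mem_of_mem_erase (hSR hx)
        have h4 : (RA f A p).card = S.card + 1 := by
          rw [h3, card_insert_of_notMem hρS]
        have h5 : Even (∑ i ∈ A, (f i).natDegree) := by
          rw [← h2, h4]
          exact hodd.add_one
        have h6 : S ⊆ ((RA f A p).erase ρ).erase (((RA f A p).erase ρ).sup id) := by
          have h7 : JJ f A p (.r j ρ) =
              ((RA f A p).erase ρ).erase (((RA f A p).erase ρ).sup id) := by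
            unfold JJ
            exact if_pos ⟨hA, h2, h5⟩
          rw [← h7]
          exact hS
        have h7 : ((RA f A p).erase ρ).Nonempty := hne.mono hSR
        have h8 : ((RA f A p).erase ρ).sup id ∈ (RA f A p).erase ρ := by
          obtain ⟨b, hb, hb'⟩ := exists_mem_eq_sup ((RA f A p).erase ρ) h7 id
          rw [hb']
          exact hb
        have h9 := card_le_card h6
        have h11 : ρ ∈ RA f A p := mem_biUnion.2 ⟨j, hj, hρ⟩
        rw [card_erase_of_mem h8, card_erase_of_mem h11] at h9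
        have h10 : 0 < S.card := card_pos.2 hne
        omega
      obtain ⟨b, hb, hlt⟩ := hex
      set T := (insert ρ S).filter (· ∈ R (f b) p) with hT
      obtain ⟨h, hh⟩ := prod_roots_dvd (p := p) (hG.monic b) (S := T)
        (fun x hx => (mem_filter.1 hx).2)
      have hhm : h.Monic := (hQm T).of_mul_monic_left (hh ▸ hm b)
      have hdegh : 1 ≤ h.natDegree := by
        have h1 : T.card + h.natDegree = (f b).natDegree := by
          rw [← hQd T, ← (hQm T).natDegree_mul hhm, ← hh, (hG.monic b).natDegree_map]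
        omega
      obtain ⟨u, hu, hχ, hq⟩ := exists_unit_factor (hm b) (hsep b) hp2 (hbig b)
        (hh.trans (mul_comm _ _)) hhm hdegh
      have hT1 : ∀ a ∈ T, u.eval (a : ZMod p) = 1 := by
        intro a ha
        have h1 : (∏ a ∈ T, (X - C (a : ZMod p))).eval (a : ZMod p) = 0 := by
          rw [eval_prod]
          exact prod_eq_zero ha (by simp)
        rw [eval_eq_of_dvd hq h1]
        simp
      have hres : resultant (fp (f b) p) u = resultant h u := by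
        rw [hh, res_mul_left _ _ _ (hQm T) hhm, res_congr _ _ _ (hQm T) hq, res_one (hQm T),
          one_mul]
      refine ⟨b, hb, u, hu, ?_⟩
      have h1 : ∀ c ∈ S, quadraticChar (ZMod p) (Gc (f b) p bA (b = j) ρ c u) = -1 := by
        intro c hc
        unfold Gc
        rw [if_pos hA, if_pos hA]
        have e1 : (if c ∈ R (f b) p then u.eval (c : ZMod p) else 1) = 1 := by
          split_ifs with hcR
          · exact hT1 c (mem_filter.2 ⟨mem_insert_of_mem hc, hcR⟩)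
          · rfl
        have e2 : (if b = j then u.eval (ρ : ZMod p) else 1) = 1 := by
          split_ifs with hbj
          · exact hT1 ρ (mem_filter.2 ⟨mem_insert_self _ _, hbj ▸ hρ⟩)
          · rfl
        have e3 : ((if c ∈ R (f b) p then u.eval (c : ZMod p) else 1) *
            ((if b = j then u.eval (ρ : ZMod p) else 1) * resultant (fp (f b) p) u)) =
            resultant h u := by
          rw [e1, e2, one_mul, one_mul, hres]
        rw [← hχ, ← e3]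
        congr 1
        refine congrArg₂ _ ?_ (congrArg₂ _ ?_ rfl)
        · by_cases h1 : c ∈ R (f b) p
          · simp only [if_pos h1]
          · simp only [if_neg h1]
        · by_cases h1 : b = j
          · simp only [if_pos h1]
          · simp only [if_neg h1]
      simp only [Φ]
      rw [prod_congr rfl h1, prod_const, hodd.neg_one_pow]
    · -- the other cases
      obtain ⟨c₀, hc₀⟩ := hne
      obtain ⟨b, hb, hcb⟩ := mem_biUnion.1 (mem_of_mem_erase (hSR hc₀))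
      set T := S.filter (· ∈ R (f b) p) with hT
      obtain ⟨q, hq⟩ := prod_roots_dvd (p := p) (hG.monic b) (S := T)
        (fun x hx => (mem_filter.1 hx).2)
      have hT0 : 1 ≤ (∏ a ∈ T, (X - C (a : ZMod p))).natDegree := by
        rw [hQd]
        exact card_pos.2 ⟨c₀, mem_filter.2 ⟨hc₀, hcb⟩⟩
      obtain ⟨u, hu, hχ, hqu⟩ := exists_unit_factor (hm b) (hsep b) hp2 (hbig b) hq (hQm T) hT0
      have hres0 : resultant (fp (f b) p) u ≠ 0 := by
        have := (isUnit_resultant_iff_isCoprime (hm b)).2 hu.symm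
        exact this.ne_zero
      have hval : ∀ a ∈ R (f b) p, u.eval (a : ZMod p) ≠ 0 := by
        intro a ha h0
        obtain ⟨s, t, hst⟩ := hu
        have h1 := congrArg (Polynomial.eval (a : ZMod p)) hst
        rw [eval_add, eval_mul, eval_mul, h0, (Stoll308.Gen.mem_R.1 ha).2] at h1
        simp at h1
      refine ⟨b, hb, u, hu, ?_⟩
      obtain ⟨M, hM⟩ : ∃ M : ZMod p, M = (if bA then (if b = j then u.eval (ρ : ZMod p) else 1)
        else 1) * (if bA then resultant (fp (f b) p) u else 1) := ⟨_, rfl⟩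
      have hM0 : M ≠ 0 := by
        rw [hM]
        refine mul_ne_zero ?_ ?_
        · split_ifs with h1 h2
          · exact hval ρ (h2 ▸ hρ)
          · exact one_ne_zero
          · exact one_ne_zero
        · split_ifs
          · exact hres0
          · exact one_ne_zero
      have hMS : quadraticChar (ZMod p) M ^ S.card = 1 := by
        by_cases h1 : bA
        · have h2 : Even S.card := by
            rw [← Nat.not_odd_iff_even]
            exact fun h => hcase ⟨h1, h⟩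
          rcases quadraticChar_dichotomy hM0 with h3 | h3 <;> rw [h3]
          · exact one_pow _
          · exact h2.neg_one_pow
        · have h2 : M = 1 := by
            rw [hM, if_neg h1, if_neg h1, one_mul]
          rw [h2, map_one, one_pow]
      have h1 : ∀ c ∈ S, quadraticChar (ZMod p) (Gc (f b) p bA (b = j) ρ c u) =
          quadraticChar (ZMod p) (if c ∈ R (f b) p then u.eval (c : ZMod p) else 1) *
            quadraticChar (ZMod p) M := by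
        intro c _
        unfold Gc
        rw [map_mul, hM]
        refine congrArg₂ _ (congrArg _ ?_) (congrArg _ (congrArg₂ _ ?_ ?_))
        · by_cases h1 : c ∈ R (f b) p
          · simp only [if_pos h1]
          · simp only [if_neg h1]
        · by_cases h1 : bA
          · simp only [if_pos h1]
            by_cases h2 : b = j
            · simp only [if_pos h2]
            · simp only [if_neg h2]
          · simp only [if_neg h1]
        · by_cases h1 : bA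
          · simp only [if_pos h1]
          · simp only [if_neg h1]
      simp only [Φ]
      rw [prod_congr rfl h1, prod_mul_distrib, prod_const, hMS, mul_one, ← map_prod,
        ← prod_filter, ← hprod, hχ]
  obtain ⟨b, hb, u, hu, hΦ⟩ := key
  refine ⟨b, hb, fun g => ?_⟩
  have hmul : ∀ q r, Φ b (q * r) = Φ b q * Φ b r := by
    intro q r
    simp only [Φ]
    rw [← prod_mul_distrib]
    refine prod_congr rfl fun c _ => ?_
    rw [Gc_mul (hG.monic b), map_mul]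
  have hcongr : ∀ q r, fp (f b) p ∣ q - r → Φ b q = Φ b r := by
    intro q r h
    simp only [Φ]
    refine prod_congr rfl fun c _ => ?_
    rw [Gc_congr (hG.monic b) bA (b = j) ρ c (fun h => h ▸ hρ) h]
  have h0 := sum_char_eq_zero (hG.monic b) (Φ b) hmul hcongr hu hΦ
  set K : ℤ := ∏ c ∈ S, quadraticChar (ZMod p) (∏ i ∈ A.erase b, Gc (f i) p bA (i = j) ρ c
    (poly fun x => (g i x : ZMod p))) with hK
  have h1 : ∀ v : Fin (f b).natDegree → Fin p,
      ∏ c ∈ S, ψψ f A p (.r j ρ) c (Function.update g b fun x => ((v x : ℕ) : ℤ)) =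
      (((Φ b (poly fun x => ((v x : ℕ) : ZMod p)) * K : ℤ)) : ℝ) := by
    intro v
    rw [hK]
    simp only [Φ]
    rw [← prod_mul_distrib, Int.cast_prod]
    refine prod_congr rfl fun c _ => ?_
    rw [ψ_eq hG.monic hj, ← map_mul]
    congr 2
    rw [← mul_prod_erase A _ hb]
    congr 1
    · simp only [Function.update_self, Int.cast_natCast]
      rfl
    · refine prod_congr rfl fun i hi => ?_
      rw [Function.update_of_ne (ne_of_mem_erase hi)]
  rw [sum_congr rfl fun v _ => h1 v, ← Int.cast_sum, ← sum_mul,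
    sum_fin_eq (fun g => Φ b (poly g)), h0, zero_mul, Int.cast_zero]

end Stoll308.TW
end

section
set_option autoImplicit false

/-!
The weights, and simple properties of the characters.
-/

namespace Stoll308.TW

open Finset Polynomial Stoll308.Gen NumberTheorySymbols

variable {k : ℕ} {f : Fin k → ℤ[X]} {C₀ : ℕ}

private lemma mem_lbl {A : Finset (Fin k)} {p : ℕ} {ℓ : Lab k} :
    ℓ ∈ Lbl false (fun i p => R (f i) p) A p ↔ ∃ i ∈ A, ∃ a ∈ R (f i) p, ℓ = .r i a := by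
  unfold Lbl
  simp only [Bool.false_eq_true, if_false, empty_union, mem_biUnion, mem_image]
  constructor
  · rintro ⟨i, hi, a, ha, rfl⟩
    exact ⟨i, hi, a, ha, rfl⟩
  · rintro ⟨i, hi, a, ha, rfl⟩
    exact ⟨i, hi, a, ha, rfl⟩

private lemma card_lbl (hG : GB f C₀) (A : Finset (Fin k)) {p : ℕ} (hp : p.Prime)
    (hpC : C₀ < p) :
    (Lbl false (fun i p => R (f i) p) A p).card ≤ (RA f A p).card := by
  rw [hG.card_RA hp hpC]
  unfold Lbl
  simp only [Bool.false_eq_true, if_false, empty_union]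
  refine card_biUnion_le.trans ?_
  exact sum_le_sum fun i _ => card_image_le

/-- The special case. -/
private def Spc (f : Fin k → ℤ[X]) (A : Finset (Fin k)) (p : ℕ) : Prop :=
  RA f Aᶜ p = ∅ ∧ (RA f A p).card = ∑ i ∈ A, (f i).natDegree ∧
    Even (∑ i ∈ A, (f i).natDegree)

private lemma card_JJ {A : Finset (Fin k)} {p : ℕ} (i : Fin k) (a : ℕ) (m : ℕ)
    (hm : m + 2 = (RA f A p).card ∨ (m + 1 = (RA f A p).card ∧ ¬ Spc f A p)) :
    m ≤ (JJ f A p (.r i a)).card := by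
  have h1 := Finset.pred_card_le_card_erase (s := RA f A p) (a := a)
  have h2 := Finset.pred_card_le_card_erase (s := (RA f A p).erase a)
    (a := ((RA f A p).erase a).sup id)
  unfold JJ
  dsimp only
  split_ifs with h
  · rcases hm with hm | hm
    · omega
    · exact absurd h hm.2
  · rcases hm with hm | hm <;> omega

private lemma wA_bound (hG : GB f C₀) (A : Finset (Fin k)) {p : ℕ} (hp : p.Prime)
    (hpC : C₀ < p) (m : ℕ)
    (hm : m + 2 = (RA f A p).card ∨ (m + 1 = (RA f A p).card ∧ ¬ Spc f A p)) :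
    wA f A p ≤ ((RA f A p).card : ℝ) * (1 / 2) ^ m := by
  unfold wA
  have h1 : ∀ ℓ ∈ Lbl false (fun i p => R (f i) p) A p,
      (1 / 2 : ℝ) ^ (JJ f A p ℓ).card ≤ (1 / 2) ^ m := by
    intro ℓ hℓ
    obtain ⟨i, -, a, -, rfl⟩ := mem_lbl.1 hℓ
    exact pow_le_pow_of_le_one (by norm_num) (by norm_num) (card_JJ i a m hm)
  refine (sum_le_card_nsmul _ _ _ h1).trans ?_
  rw [nsmul_eq_mul]
  refine mul_le_mul_of_nonneg_right ?_ (by positivity)
  exact_mod_cast card_lbl hG A hp hpC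

private lemma wA_zero (hG : GB f C₀) (A : Finset (Fin k)) {p : ℕ} (hp : p.Prime)
    (hpC : C₀ < p) (h : (RA f A p).card = 0) : wA f A p = 0 := by
  have h1 := card_lbl hG A hp hpC
  rw [h] at h1
  have h2 : Lbl false (fun i p => R (f i) p) A p = ∅ := card_eq_zero.1 (by omega)
  unfold wA
  rw [h2, sum_empty]

private lemma four_bound (n : ℕ) (hn : 4 ≤ n) : (n : ℝ) * (1 / 2) ^ (n - 2) ≤ 1 := by
  induction n, hn using Nat.le_induction with
  | base => norm_num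
  | succ n hn ih =>
    have e : n + 1 - 2 = (n - 2) + 1 := by omega
    have hn' : (4 : ℝ) ≤ n := by exact_mod_cast hn
    have h0 : (0 : ℝ) < (1 / 2) ^ (n - 2) := by positivity
    rw [e, pow_succ]
    push_cast
    nlinarith

private lemma three_bound (n : ℕ) (hn : 3 ≤ n) : (n : ℝ) * (1 / 2) ^ (n - 1) ≤ 3 / 4 := by
  induction n, hn using Nat.le_induction with
  | base => norm_num
  | succ n hn ih =>
    have e : n + 1 - 1 = (n - 1) + 1 := by omega
    have hn' : (3 : ℝ) ≤ n := by exact_mod_cast hn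
    have h0 : (0 : ℝ) < (1 / 2) ^ (n - 1) := by positivity
    rw [e, pow_succ]
    push_cast
    nlinarith

theorem wA_le (hG : GB f C₀) (A : Finset (Fin k)) (hA : 3 ≤ ∑ i ∈ A, (f i).natDegree) {p : ℕ}
    (hp : p.Prime) (hpC : C₀ < p) :
    wA f A p ≤ if (R (FF f) p).Nonempty then 1 else 0 := by
  classical
  by_cases hr : (RA f A p).card = 0
  · rw [wA_zero hG A hp hpC hr]
    split_ifs <;> norm_num
  · have hne : (R (FF f) p).Nonempty := by
      obtain ⟨a, ha⟩ := card_pos.1 (Nat.pos_of_ne_zero hr)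
      unfold RA at ha
      rw [mem_biUnion] at ha
      obtain ⟨i, -, hi⟩ := ha
      exact ⟨a, (hG.mem_R hp).2 ⟨i, hi⟩⟩
    rw [if_pos hne]
    by_cases hs : Spc f A p
    · obtain ⟨-, h2, h3⟩ := hs
      have h6 : 4 ≤ (RA f A p).card := by
        rw [h2]
        obtain ⟨m, hm⟩ := h3
        omega
      exact (wA_bound hG A hp hpC ((RA f A p).card - 2) (Or.inl (by omega))).trans
        (four_bound _ h6)
    · exact (wA_bound hG A hp hpC ((RA f A p).card - 1) (Or.inr ⟨by omega, hs⟩)).trans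
        (n_pow_bound _ (by omega))

/-- The primes modulo which all the components split completely. -/
theorem wA_split (hG : GB f C₀) {A : Finset (Fin k)} (hA : 3 ≤ ∑ i ∈ A, (f i).natDegree) {p : ℕ}
    (hp : p.Prime) (hpC : C₀ < p) (hs : (R (FF f) p).card = (FF f).natDegree) :
    (R (FF f) p).Nonempty ∧ wA f A p ≤ 7 / 8 := by
  classical
  rw [hG.card_RF hp hpC, natDegree_FF hG.monic] at hs
  have h1 : ∀ i ∈ (univ : Finset (Fin k)), (R (f i) p).card = (f i).natDegree :=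
    (sum_eq_sum_iff_of_le fun i _ => hG.card_R_le hp i).1 hs
  have h6 := hG.six
  refine ⟨?_, ?_⟩
  · rw [← card_pos, hG.card_RF hp hpC, hs]
    omega
  · have hr : (RA f A p).card = ∑ i ∈ A, (f i).natDegree := by
      rw [hG.card_RA hp hpC]
      exact sum_congr rfl fun i _ => h1 i (mem_univ i)
    by_cases hAc : RA f Aᶜ p = ∅
    · have hAu : A = univ := by
        rw [eq_univ_iff_forall]
        intro i
        by_contra hi
        have h2 : R (f i) p = ∅ := by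
          rw [← subset_empty, ← hAc]
          unfold RA
          exact subset_biUnion_of_mem (fun i => R (f i) p) (mem_compl.2 hi)
        have h3 := h1 i (mem_univ i)
        rw [h2, card_empty] at h3
        have := hG.deg i
        omega
      have h4 : 6 ≤ (RA f A p).card := by
        rw [hr, hAu]
        exact h6
      have h5 := (wA_bound hG A hp hpC ((RA f A p).card - 2) (Or.inl (by omega))).trans
        (two_pow_bound h4)
      linarith
    · have h7 : 3 ≤ (RA f A p).card := by omega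
      have h8 := (wA_bound hG A hp hpC ((RA f A p).card - 1)
        (Or.inr ⟨by omega, fun h => hAc h.1⟩)).trans (three_bound _ h7)
      linarith

private lemma abs_jac (x : ℤ) (p : ℕ) : |((J(x | p) : ℤ) : ℝ)| ≤ 1 := by
  rcases jacobiSym.trichotomy x p with h | h | h <;> rw [h] <;> norm_num

theorem ψψ_le (A : Finset (Fin k)) (p : ℕ) (ℓ : Lab k) (a : ℕ)
    (g : (i : Fin k) → Fin (f i).natDegree → ℤ) : |ψψ f A p ℓ a g| ≤ 1 := by
  cases ℓ with
  | o => unfold ψψ; norm_num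
  | u => unfold ψψ; norm_num
  | r j ρ =>
    unfold ψψ
    dsimp only
    split_ifs
    · exact abs_jac _ _
    · exact abs_jac _ _
    · exact abs_jac _ _

private lemma jac_congr {p : ℕ} {x y : ℤ} (h : ((x : ℤ) : ZMod p) = ((y : ℤ) : ZMod p)) :
    J(x | p) = J(y | p) := by
  rw [ZMod.intCast_eq_intCast_iff] at h
  rw [jacobiSym.mod_left, h, ← jacobiSym.mod_left]

private lemma fun_cast {p n : ℕ} {g g' : Fin n → ℤ} (h : ∀ x, (p : ℤ) ∣ g x - g' x) :
    (fun i => ((g i : ℤ) : ZMod p)) = fun i => ((g' i : ℤ) : ZMod p) := by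
  funext i
  have := (ZMod.intCast_zmod_eq_zero_iff_dvd (g i - g' i) p).2 (h i)
  rw [Int.cast_sub, sub_eq_zero] at this
  exact this

private lemma EV_cast (A : Finset (Fin k)) (p a : ℕ)
    (g g' : (i : Fin k) → Fin (f i).natDegree → ℤ)
    (h : ∀ i ∈ A, ∀ x, (p : ℤ) ∣ g i x - g' i x) :
    ((EV f A p a g : ℤ) : ZMod p) = ((EV f A p a g' : ℤ) : ZMod p) := by
  unfold EV
  rw [Int.cast_prod, Int.cast_prod]
  refine prod_congr rfl fun i hi => ?_
  split_ifs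
  · rw [ev_cast, ev_cast, fun_cast (h i hi)]
  · rfl

theorem ψψ_per (A : Finset (Fin k)) (p : ℕ) (ℓ : Lab k) (a : ℕ)
    (g g' : (i : Fin k) → Fin (f i).natDegree → ℤ)
    (h : ∀ i ∈ A, ∀ x, (p : ℤ) ∣ g i x - g' i x) : ψψ f A p ℓ a g = ψψ f A p ℓ a g' := by
  cases ℓ with
  | o => rfl
  | u => rfl
  | r j ρ =>
    have h1 := EV_cast A p a g g' h
    have h2 : (((if j ∈ A then ev (g j) (ρ : ℤ) else 1 : ℤ)) : ZMod p) =
        (((if j ∈ A then ev (g' j) (ρ : ℤ) else 1 : ℤ)) : ZMod p) := by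
      split_ifs with hj
      · rw [ev_cast, ev_cast, fun_cast (h j hj)]
      · rfl
    have h3 : (((∏ b ∈ A, Nm (f b) (g b) : ℤ)) : ZMod p) =
        (((∏ b ∈ A, Nm (f b) (g' b) : ℤ)) : ZMod p) := by
      rw [Int.cast_prod, Int.cast_prod]
      refine prod_congr rfl fun i hi => ?_
      rw [Nm_cast, Nm_cast, fun_cast (h i hi)]
    unfold ψψ
    dsimp only
    by_cases hc : RA f Aᶜ p = ∅
    · rw [if_pos hc, if_pos hc]
      congr 1
      refine jac_congr ?_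
      rw [Int.cast_mul, Int.cast_mul, h1, h2, h3, ← Int.cast_mul, ← Int.cast_mul]
    · rw [if_neg hc, if_neg hc]
      congr 1
      exact jac_congr h1

private lemma craw_abs (ε : Fin k → ℚ[X]) (s : ℤ) (r : ℕ → Lab k) (p a : ℕ) :
    |craw f ε s r p a| ≤ 1 := by
  unfold craw
  rw [abs_prod]
  refine prod_le_one (fun _ _ => abs_nonneg _) fun i _ => ?_
  rw [abs_prod]
  refine prod_le_one (fun _ _ => abs_nonneg _) fun j _ => ?_
  split_ifs
  · unfold cR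
    split_ifs <;> norm_num
  · norm_num

theorem cfA_le (ε : Fin k → ℚ[X]) (s : ℤ) (r : ℕ → Lab k) (κ : Fin k → ℤ)
    (A : Finset (Fin k)) (p a : ℕ) : |cfA f ε s r κ A p a| ≤ 1 := by
  unfold cfA
  split_ifs
  · rw [abs_mul]
    refine mul_le_one₀ (craw_abs ε s r p a) (abs_nonneg _) ?_
    rw [abs_prod]
    exact prod_le_one (fun _ _ => abs_nonneg _) fun b _ => abs_jac _ _
  · rw [abs_mul, abs_mul]
    exact mul_le_one₀ (mul_le_one₀ (craw_abs ε s r p a) (abs_nonneg _) (craw_abs ε s r p _))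
      (abs_nonneg _) (abs_jac _ _)

end Stoll308.TW
end

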