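import Pool.Agent.Work.BCM.C26
import Pool.Agent.Work.BCM.C43

section
set_option autoImplicit false

/-!
Components of degree two: the level vectors for which a range of scales with a single active
component of degree two is short.
-/

namespace Stoll308.TW

open Finset Stoll308.Gen

variable {k : ℕ}

/-- At most `h` levels between the largest level and the second largest one, if the component with
the largest level is in `E`. -/
def GoodV (E : Finset (Fin k)) (h Q : ℕ) (μ : Fin k → ℕ) : Prop :=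
  ∀ i ∈ E, μ i + 1 = Q → ∃ j, j ≠ i ∧ Q < μ j + h

/-- A single active component `i ∈ E` at `p`: then `i` has the top level and `p` is large. -/
theorem goodV_large {E : Finset (Fin k)} {h Q : ℕ} {μ : Fin k → ℕ} (hμ : μ ∈ Lv k Q)
    (hg : GoodV E h Q μ) {L : ℝ} (hL : 1 ≤ L) {p : ℕ} (hp : InW L Q μ p) {i : Fin k} (hi : i ∈ E)
    (hA : AA L Q μ p = {i}) : zz L Q ((Q : ℝ) - h) < (p : ℝ) := by
  classical
  obtain ⟨-, i₀, hi₀⟩ := mem_filter.1 hμ
  obtain ⟨-, hp2, hp3⟩ := hp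
  have h1 : i₀ ∈ AA L Q μ p := by
    refine mem_filter.2 ⟨mem_univ _, ?_⟩
    rcases hp3 i₀ with h | h
    · exact h
    · exfalso
      have e1 : (μ i₀ : ℝ) + 1 = Q := by exact_mod_cast hi₀
      rw [e1] at h
      linarith
  rw [hA, mem_singleton] at h1
  subst h1
  obtain ⟨j, hj, hjQ⟩ := hg i₀ hi hi₀
  have h2 : j ∉ AA L Q μ p := by
    rw [hA, mem_singleton]
    exact hj
  have h3 : zz L Q ((μ j : ℝ) + 1) < (p : ℝ) := by
    rcases hp3 j with h | h
    · refine absurd ?_ h2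
      exact mem_filter.2 ⟨mem_univ _, h⟩
    · exact h
  refine lt_of_le_of_lt (scale_mono hL Q ?_) h3
  have h4 : (Q : ℝ) < (μ j : ℝ) + h := by exact_mod_cast hjQ
  linarith

open Classical in
/-- The primes with a single active component `i ∈ E`. -/
theorem sum_exc (E : Finset (Fin k)) (h Q : ℕ) (hQ : 4 ≤ Q) (hh : h + 1 ≤ Q) : ∃ C L₀ : ℝ,
    1 ≤ L₀ ∧ ∀ L : ℝ, L₀ ≤ L → ∀ μ ∈ Lv k Q, GoodV E h Q μ →
      ∑ p ∈ (Icc 1 ⌊Real.exp L⌋₊).filter
        (fun p : ℕ => p.Prime ∧ InW L Q μ p ∧ ∃ i ∈ E, AA L Q μ p = {i}), 1 / (p : ℝ) ≤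
        h / Q * Real.log L + C := by
  obtain ⟨C, L₀, hC, hL₀, hr⟩ := scale_range (Q := Q) (by omega)
  refine ⟨C, L₀, hL₀, fun L hL μ hμ hg => ?_⟩
  have hL1 : 1 ≤ L := hL₀.trans hL
  have hh' : (h : ℝ) + 1 ≤ Q := by exact_mod_cast hh
  have h1 := (hr L hL).2 ((Icc 1 ⌊Real.exp L⌋₊).filter
        (fun p : ℕ => p.Prime ∧ InW L Q μ p ∧ ∃ i ∈ E, AA L Q μ p = {i})) ((Q : ℝ) - h) Q
    (by linarith) (by
      have : (0 : ℝ) ≤ h := Nat.cast_nonneg _
      linarith) (fun p hp => by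
      obtain ⟨_, h2, h3, i, hi, h4⟩ := mem_filter.1 hp
      exact ⟨h2, goodV_large hμ hg hL1 h3 hi h4, h3.2.1⟩)
  have e1 : ((Q : ℝ) - ((Q : ℝ) - h)) / Q = h / Q := by ring
  rw [e1] at h1
  exact h1

end Stoll308.TW
end

section
set_option autoImplicit false

/-!
The main term with exceptional components (as `main_even`).
-/

namespace Stoll308.TW

open Finset Stoll308.Gen

variable {k : ℕ}

namespace Sys

variable (D : Sys k)

private lemma wt_le_K (A : Finset (Fin k)) {p : ℕ} (hp : p.Prime) (hp0 : D.C₀ < p) :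
    D.wt A p ≤ D.K := by
  classical
  have h1 : (D.Lb A p).card ≤ D.K := by
    refine le_trans ?_ (D.card_le p hp hp0)
    unfold Lb Lbl
    refine (card_union_le _ _).trans ?_
    rw [add_comm]
    refine add_le_add ?_ ?_
    · refine card_biUnion_le.trans ?_
      refine (sum_le_sum fun i _ => card_image_le).trans ?_
      exact sum_le_sum_of_subset (subset_univ _)
    · split_ifs <;> simp
  unfold wt
  refine (sum_le_sum (g := fun _ => (1 : ℝ)) fun ℓ _ => ?_).trans ?_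
  · exact pow_le_one₀ (by norm_num) (by norm_num)
  · rw [sum_const, nsmul_eq_mul, mul_one]
    exact_mod_cast h1

private lemma HH_le_K (L : ℝ) (Q : ℕ) (μ : Fin k → ℕ) (p : ℕ) (hp : p.Prime) :
    D.HH L Q μ p ≤ (D.K : ℝ) + 1 := by
  have hK : (0 : ℝ) ≤ D.K := Nat.cast_nonneg _
  unfold HH
  split_ifs with h1 h2 h3 h4
  · linarith
  · have := D.wt_le_K (AA L Q μ p) hp (not_le.1 h1)
    linarith
  · linarith
  · linarith
  · linarith

open Classical in
/-- The sum of the weights (as `upx_core`). -/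
theorem core2 (E : Finset (Fin k)) (Sp : ℕ → Prop) (hS : LowMert Sp) (ρ : ℕ → ℝ)
    (hρ : ∀ p, 0 ≤ ρ p)
    (hw : ∀ A p, p.Prime → D.C₀ < p → A.Nonempty → (∀ i ∈ E, A ≠ {i}) → D.wt A p ≤ ρ p)
    (hs : ∀ A p, p.Prime → D.C₀ < p → A.Nonempty → (∀ i ∈ E, A ≠ {i}) → Sp p →
      D.wt A p ≤ ρ p - 1 / 8) :
    ∃ (Q₁ : ℕ) (c₁ : ℝ), 4 ≤ Q₁ ∧ 0 < c₁ ∧ ∀ Q h : ℕ, Q₁ ≤ Q → h + 1 ≤ Q → (h : ℝ) ≤ c₁ * Q →
      ∃ (c C L₀ : ℝ), 0 < c ∧ 0 ≤ C ∧ 1 ≤ L₀ ∧ ∀ L : ℝ, L₀ ≤ L → ∀ μ ∈ Lv k Q, GoodV E h Q μ →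
        ∑ p ∈ (Icc 1 ⌊Real.exp L⌋₊).filter Nat.Prime, D.HH L Q μ p / (p : ℝ) ≤
          ∑ p ∈ (Icc 1 ⌊Real.exp L⌋₊).filter Nat.Prime, ρ p / (p : ℝ) - c * Real.log L + C := by
  obtain ⟨κ, hκ0, hκ1, hused⟩ := sum_used (k := k) Sp hS
  have hK : (0 : ℝ) ≤ D.K := Nat.cast_nonneg _
  have hk : (0 : ℝ) ≤ k := Nat.cast_nonneg _
  set T : ℝ := 16 * ((2 * k + 2) / 8 + D.K * (2 * k + 1)) / κ with hT
  have hT0 : 0 ≤ T := by positivity
  refine ⟨max 4 ⌈T⌉₊, κ / (32 * (D.K + 1)), le_max_left _ _, by positivity,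
    fun Q h hQ₁ hhQ hh => ?_⟩
  have hQ4 : 4 ≤ Q := (le_max_left _ _).trans hQ₁
  have hQT : T ≤ Q := (Nat.le_ceil T).trans (by exact_mod_cast (le_max_right _ _).trans hQ₁)
  have hQ0 : (0 : ℝ) < Q := by
    have : 0 < Q := by omega
    exact_mod_cast this
  obtain ⟨C₁, L₁, hL₁, h1⟩ := sum_unused (k := k) Q hQ4
  obtain ⟨C₂, L₂, hL₂, h2⟩ := hused Q hQ4
  obtain ⟨C₅, L₅, hL₅, h5⟩ := sum_exc E h Q hQ4 hhQ
  refine ⟨κ / 32, |D.K * C₁ + C₂ / 8 + (D.K + 1) * C₅| + D.C₀, max (max L₁ L₂) L₅, by positivity,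
    by positivity, hL₁.trans ((le_max_left _ _).trans (le_max_left _ _)), fun L hL μ hμ hg => ?_⟩
  have hLa : L₁ ≤ L := ((le_max_left _ _).trans (le_max_left _ _)).trans hL
  have hLb : L₂ ≤ L := ((le_max_right _ _).trans (le_max_left _ _)).trans hL
  have hLc : L₅ ≤ L := (le_max_right _ _).trans hL
  have hL1 : 1 ≤ L := hL₁.trans hLa
  have hlL : 0 ≤ Real.log L := Real.log_nonneg hL1
  have hA := h1 L hLa μ hμ
  have hB := h2 L hLb μ hμ
  have hX := h5 L hLc μ hμ hg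
  have hzz : zz L Q Q = Real.exp L := upx_zz_self L (by omega)
  set P : Finset ℕ := (Icc 1 ⌊Real.exp L⌋₊).filter Nat.Prime with hP
  have hpt : ∀ p ∈ P, D.HH L Q μ p / (p : ℝ) ≤ ρ p / (p : ℝ) -
      1 / 8 * (if InW L Q μ p ∧ Sp p then 1 / (p : ℝ) else 0) +
      D.K * (if ¬ InW L Q μ p then 1 / (p : ℝ) else 0) +
      (D.K + 1) * (if InW L Q μ p ∧ ∃ i ∈ E, AA L Q μ p = {i} then 1 / (p : ℝ) else 0) +
      (if p ≤ D.C₀ then 1 / (p : ℝ) else 0) := by
    intro p hp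
    rw [hP, mem_filter, mem_Icc] at hp
    have hp0 : (0 : ℝ) < p := by exact_mod_cast hp.2.pos
    have hinv : 0 < 1 / (p : ℝ) := by positivity
    have hpe : (p : ℝ) ≤ Real.exp L := (Nat.le_floor_iff (Real.exp_pos L).le).1 hp.1.2
    have hρp : 0 ≤ ρ p / (p : ℝ) := div_nonneg (hρ p) hp0.le
    have e1 : (0 : ℝ) ≤ if InW L Q μ p ∧ Sp p then 1 / (p : ℝ) else 0 := by
      split_ifs <;> positivity
    have e2 : (if InW L Q μ p ∧ Sp p then 1 / (p : ℝ) else 0) ≤ 1 / (p : ℝ) := by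
      split_ifs
      · exact le_rfl
      · exact hinv.le
    have e3 : (0 : ℝ) ≤ D.K * (if ¬ InW L Q μ p then 1 / (p : ℝ) else 0) := by
      refine mul_nonneg hK ?_
      split_ifs <;> positivity
    have e4 : (0 : ℝ) ≤ (D.K + 1) *
        (if InW L Q μ p ∧ ∃ i ∈ E, AA L Q μ p = {i} then 1 / (p : ℝ) else 0) := by
      refine mul_nonneg (by positivity) ?_
      split_ifs <;> positivity
    unfold HH
    by_cases hC : p ≤ D.C₀
    · rw [if_pos hC, if_pos hC, zero_div]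
      linarith
    · rw [if_neg hC, if_neg hC]
      by_cases hW : InW L Q μ p
      · rw [if_pos hW]
        have hne := AA_nonempty hμ hW
        by_cases hex : ∃ i ∈ E, AA L Q μ p = {i}
        · have h3 := D.wt_le_K (AA L Q μ p) hp.2 (not_le.1 hC)
          have h4 := div_le_div_of_nonneg_right h3 hp0.le
          rw [if_pos (⟨hW, hex⟩ : InW L Q μ p ∧ ∃ i ∈ E, AA L Q μ p = {i}),
            if_neg (not_not.2 hW)]
          have : (D.K : ℝ) / p = D.K * (1 / p) := by ring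
          have h6 : ((D.K : ℝ) + 1) * (1 / p) = D.K * (1 / p) + 1 / p := by ring
          rw [h6]
          linarith
        · have hne' : ∀ i ∈ E, AA L Q μ p ≠ {i} := fun i hi hA => hex ⟨i, hi, hA⟩
          rw [if_neg (not_not.2 hW),
            if_neg (fun h => hex h.2 : ¬ (InW L Q μ p ∧ ∃ i ∈ E, AA L Q μ p = {i}))]
          by_cases hSp : Sp p
          · have h3 := hs _ p hp.2 (not_le.1 hC) hne hne' hSp
            have h4 := div_le_div_of_nonneg_right h3 hp0.le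
            rw [if_pos (⟨hW, hSp⟩ : InW L Q μ p ∧ Sp p)]
            refine h4.trans (le_of_eq ?_)
            ring
          · have h3 := hw _ p hp.2 (not_le.1 hC) hne hne'
            have h4 := div_le_div_of_nonneg_right h3 hp0.le
            rw [if_neg (fun h => hSp h.2 : ¬ (InW L Q μ p ∧ Sp p))]
            linarith
      · rw [if_neg hW, if_pos (hzz ▸ hpe),
          if_neg (fun h => hW h.1 : ¬ (InW L Q μ p ∧ Sp p)), if_pos hW,
          if_neg (fun h => hW h.1 : ¬ (InW L Q μ p ∧ ∃ i ∈ E, AA L Q μ p = {i}))]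
        have : (D.K : ℝ) / p = D.K * (1 / p) := by ring
        linarith
  have hsum := sum_le_sum hpt
  rw [sum_add_distrib, sum_add_distrib, sum_add_distrib, sum_sub_distrib, ← mul_sum, ← mul_sum,
    ← mul_sum] at hsum
  have s1 : ∑ p ∈ P, (if InW L Q μ p ∧ Sp p then 1 / (p : ℝ) else 0) =
      ∑ p ∈ (Icc 1 ⌊Real.exp L⌋₊).filter (fun p : ℕ => p.Prime ∧ InW L Q μ p ∧ Sp p),
        1 / (p : ℝ) := by
    rw [← sum_filter, hP, filter_filter]
  have s2 : ∑ p ∈ P, (if ¬ InW L Q μ p then 1 / (p : ℝ) else 0) =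
      ∑ p ∈ (Icc 1 ⌊Real.exp L⌋₊).filter (fun p : ℕ => p.Prime ∧ ¬ InW L Q μ p),
        1 / (p : ℝ) := by
    rw [← sum_filter, hP, filter_filter]
  have s4 : ∑ p ∈ P, (if InW L Q μ p ∧ ∃ i ∈ E, AA L Q μ p = {i} then 1 / (p : ℝ) else 0) =
      ∑ p ∈ (Icc 1 ⌊Real.exp L⌋₊).filter
        (fun p : ℕ => p.Prime ∧ InW L Q μ p ∧ ∃ i ∈ E, AA L Q μ p = {i}), 1 / (p : ℝ) := by
    rw [← sum_filter, hP, filter_filter]
  have s3 : ∑ p ∈ P, (if p ≤ D.C₀ then 1 / (p : ℝ) else 0) ≤ D.C₀ := by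
    rw [← sum_filter]
    have h5 : ∑ p ∈ P.filter (fun p => p ≤ D.C₀), 1 / (p : ℝ) ≤
        ∑ p ∈ P.filter (fun p => p ≤ D.C₀), (1 : ℝ) := by
      refine sum_le_sum fun p hp => ?_
      rw [mem_filter, hP, mem_filter] at hp
      have hp1 : (1 : ℝ) ≤ p := by exact_mod_cast hp.1.2.one_le
      rw [div_le_one (by linarith)]
      exact hp1
    refine h5.trans ?_
    rw [sum_const, nsmul_eq_mul, mul_one]
    have h6 : P.filter (fun p => p ≤ D.C₀) ⊆ Icc 1 D.C₀ := by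
      intro p hp
      rw [mem_filter, hP, mem_filter] at hp
      rw [mem_Icc]
      exact ⟨hp.1.2.one_le, hp.2⟩
    have h7 := card_le_card h6
    rw [Nat.card_Icc, Nat.add_sub_cancel] at h7
    exact_mod_cast h7
  rw [s1, s2, s4] at hsum
  have k1 : 1 / 8 * ((2 * k + 2) / Q) + D.K * ((2 * k + 1) / Q) ≤ κ / 16 := by
    have h8 : 16 * ((2 * k + 2) / 8 + D.K * (2 * k + 1)) ≤ Q * κ := by
      rw [hT, div_le_iff₀ hκ0] at hQT
      exact hQT
    have h9 : 1 / 8 * ((2 * (k : ℝ) + 2) / Q) + D.K * ((2 * k + 1) / Q) =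
        ((2 * k + 2) / 8 + D.K * (2 * k + 1)) / Q := by ring
    rw [h9, div_le_iff₀ hQ0]
    linarith
  have k0 : (D.K + 1) * ((h : ℝ) / Q) ≤ κ / 32 := by
    rw [← mul_div_assoc, div_le_iff₀ hQ0]
    have h8 := mul_le_mul_of_nonneg_left hh (by positivity : (0 : ℝ) ≤ D.K + 1)
    refine h8.trans (le_of_eq ?_)
    field_simp
  have k2 := mul_le_mul_of_nonneg_right k1 hlL
  have k0' := mul_le_mul_of_nonneg_right k0 hlL
  have k3 := mul_le_mul_of_nonneg_left hA hK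
  have k3' := mul_le_mul_of_nonneg_left hX (by positivity : (0 : ℝ) ≤ D.K + 1)
  have k4 := le_abs_self (D.K * C₁ + C₂ / 8 + (D.K + 1) * C₅)
  have k5 : (0 : ℝ) ≤ κ * Real.log L := by positivity
  have k6 : (κ - (2 * (k : ℝ) + 2) / Q) * Real.log L =
      κ * Real.log L - (2 * k + 2) / Q * Real.log L := by ring
  have k7 : (D.K : ℝ) * ((2 * k + 1) / Q * Real.log L + C₁) =
      D.K * ((2 * k + 1) / Q) * Real.log L + D.K * C₁ := by ring
  have k7' : ((D.K : ℝ) + 1) * ((h : ℝ) / Q * Real.log L + C₅) =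
      (D.K + 1) * ((h : ℝ) / Q) * Real.log L + (D.K + 1) * C₅ := by ring
  have k8 : (1 / 8 * ((2 * (k : ℝ) + 2) / Q) + D.K * ((2 * k + 1) / Q)) * Real.log L =
      1 / 8 * ((2 * k + 2) / Q * Real.log L) + D.K * ((2 * k + 1) / Q) * Real.log L := by ring
  rw [k6] at hB
  rw [k7] at k3
  rw [k7'] at k3'
  rw [k8] at k2
  have k9 : κ / 16 * Real.log L = 1 / 16 * (κ * Real.log L) := by ring
  have k10 : κ / 32 * Real.log L = 1 / 32 * (κ * Real.log L) := by ring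
  rw [k9] at k2
  rw [k10] at k0' ⊢
  linarith

theorem main_even2 (f : Polynomial ℤ) (E : Finset (Fin k)) (Sp : ℕ → Prop) (hS : LowMert Sp)
    (hi : D.inf = false)
    (hw : ∀ A p, p.Prime → D.C₀ < p → A.Nonempty → (∀ i ∈ E, A ≠ {i}) →
      D.wt A p ≤ if (R f p).Nonempty then 1 else 0)
    (hs : ∀ A p, p.Prime → D.C₀ < p → A.Nonempty → (∀ i ∈ E, A ≠ {i}) → Sp p →
      (R f p).Nonempty ∧ D.wt A p ≤ 7 / 8) :
    ∃ (Q₁ : ℕ) (c₁ : ℝ), 4 ≤ Q₁ ∧ 0 < c₁ ∧ ∀ Q h : ℕ, Q₁ ≤ Q → h + 1 ≤ Q → (h : ℝ) ≤ c₁ * Q →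
      ∃ (c C : ℝ) (N₀ : ℕ), 0 < c ∧ 0 ≤ C ∧ 3 ≤ N₀ ∧ ∀ N : ℕ, N₀ ≤ N →
        ∀ μ ∈ Lv k Q, GoodV E h Q μ →
          ∑ n ∈ Icc 1 (2 ^ k * N), HT.hf (D.HH (Real.log N) Q μ) n ≤
            C * (N * Real.log N ^ (-1 - c)) * ∏ p ∈ rootPrimes f N, (1 + 1 / (p : ℝ)) := by
  classical
  have hρ0 : ∀ p : ℕ, (0 : ℝ) ≤ if (R f p).Nonempty then (1 : ℝ) else 0 := by
    intro p
    split_ifs <;> norm_num
  obtain ⟨Q₁, c₁, hQ₁, hc₁, hcore⟩ := D.core2 E Sp hS
    (fun p => if (R f p).Nonempty then 1 else 0) hρ0 hw (fun A p hp hC hA hE hSp => by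
      obtain ⟨h1, h2⟩ := hs A p hp hC hA hE hSp
      rw [if_pos h1]
      exact h2.trans (by norm_num))
  have hK : (0 : ℝ) ≤ D.K := Nat.cast_nonneg _
  refine ⟨Q₁, c₁, hQ₁, hc₁, fun Q hh hQQ hhQ hhc => ?_⟩
  have hQ4 : 4 ≤ Q := hQ₁.trans hQQ
  obtain ⟨c, C₃, L₀, hc, hC₃, hL₀, h⟩ := hcore Q hh hQQ hhQ hhc
  refine ⟨c, (2 * ((D.K : ℝ) + 1) + 1) * 2 ^ k * Real.exp (C₃ + 1), max 3 ⌈Real.exp L₀⌉₊,
    hc, by positivity, le_max_left _ _, fun N hN μ hμ hg => ?_⟩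
  have hN3 : 3 ≤ N := (le_max_left _ _).trans hN
  have hNr : (3 : ℝ) ≤ N := by exact_mod_cast hN3
  have hN0 : (0 : ℝ) < N := by linarith
  have hNe : Real.exp L₀ ≤ N := (Nat.le_ceil _).trans (by exact_mod_cast (le_max_right _ _).trans hN)
  set L : ℝ := Real.log N with hL
  have hLL : L₀ ≤ L := (Real.le_log_iff_exp_le hN0).2 hNe
  have hL1 : 1 ≤ L := hL₀.trans hLL
  have hL0 : 0 < L := by linarith
  have hexp : Real.exp L = N := Real.exp_log hN0
  set X : ℕ := 2 ^ k * N with hX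
  have hNX : N ≤ X := Nat.le_mul_of_pos_left N (by positivity)
  have hX3 : 3 ≤ X := hN3.trans hNX
  have hXr : (3 : ℝ) ≤ X := by exact_mod_cast hX3
  have hNXr : (N : ℝ) ≤ X := by exact_mod_cast hNX
  have hlX : L ≤ Real.log X := Real.log_le_log hN0 hNXr
  have h1 := sum_hf_le_prod (H := D.HH L Q μ) (K := (D.K : ℝ) + 1)
    (fun p _ => D.upx_HH_nonneg L Q μ p)
    (fun p hp => D.HH_le_K L Q μ p hp)
    (X := X) (by omega)
  have h2 := Gen.prod_le_exp ((Icc 1 X).filter Nat.Prime) (D.HH L Q μ)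
    (fun p _ => D.upx_HH_nonneg L Q μ p)
  have hsub : (Icc 1 N).filter Nat.Prime ⊆ (Icc 1 X).filter Nat.Prime := by
    intro p hp
    rw [mem_filter, mem_Icc] at hp ⊢
    exact ⟨⟨hp.1.1, hp.1.2.trans hNX⟩, hp.2⟩
  have hzz : zz L Q Q = N := by rw [upx_zz_self L (by omega), hexp]
  have h3 : ∑ p ∈ (Icc 1 X).filter Nat.Prime, D.HH L Q μ p / (p : ℝ) =
      ∑ p ∈ (Icc 1 N).filter Nat.Prime, D.HH L Q μ p / (p : ℝ) := by
    symm
    refine sum_subset hsub fun p hp hpN => ?_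
    have hgt : (N : ℝ) < (p : ℝ) := by
      rw [mem_filter, mem_Icc] at hp hpN
      by_contra hcon
      push Not at hcon
      exact hpN ⟨⟨hp.1.1, by exact_mod_cast hcon⟩, hp.2⟩
    have hnW : ¬ InW L Q μ p := by
      intro hW
      have := hW.2.1
      rw [hzz] at this
      linarith
    have hnz : ¬ ((p : ℝ) ≤ zz L Q Q) := by
      rw [hzz]
      exact not_le.2 hgt
    unfold HH
    rw [if_neg hnW, if_neg hnz, hi]
    simp
  have h4 := h L hLL μ hμ hg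
  rw [hexp, Nat.floor_natCast] at h4
  have h5 : ∑ p ∈ (Icc 1 N).filter Nat.Prime, (if (R f p).Nonempty then (1 : ℝ) else 0) / (p : ℝ) =
      ∑ p ∈ rootPrimes f N, 1 / (p : ℝ) := by
    unfold rootPrimes
    rw [← filter_filter, sum_filter _ (fun p : ℕ => 1 / (p : ℝ))]
    refine sum_congr rfl fun p _ => ?_
    split_ifs
    · rfl
    · rw [zero_div]
  rw [h5] at h4
  have hge := Gen.prod_ge_exp (rootPrimes f N) (fun p hp => by
    unfold rootPrimes at hp
    rw [mem_filter] at hp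
    exact hp.2.1)
  set Rp : ℝ := ∏ p ∈ rootPrimes f N, (1 + 1 / (p : ℝ)) with hRp
  have h6 : ∏ p ∈ (Icc 1 X).filter Nat.Prime, (1 + D.HH L Q μ p / (p : ℝ)) ≤
      Real.exp (C₃ + 1) * L ^ (-c) * Rp := by
    refine h2.trans ?_
    rw [h3]
    refine le_trans ?_ (mul_le_mul_of_nonneg_left hge (by positivity))
    rw [Real.rpow_def_of_pos hL0, ← Real.exp_add, ← Real.exp_add]
    refine Real.exp_le_exp.2 ?_
    linarith
  have h7 : (X : ℝ) / Real.log X ≤ 2 ^ k * (N * L ^ (-1 : ℝ)) := by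
    have e1 : (X : ℝ) / Real.log X ≤ X / L := div_le_div_of_nonneg_left (by positivity) hL0 hlX
    refine e1.trans (le_of_eq ?_)
    rw [Real.rpow_neg_one, hX]
    push_cast
    ring
  have hLc : L ^ (-1 - c) = L ^ (-1 : ℝ) * L ^ (-c) := by
    rw [← Real.rpow_add hL0]
    congr 1
  have hRp0 : 0 ≤ Rp := prod_nonneg fun p _ => by positivity
  have hprod0 : 0 ≤ ∏ p ∈ (Icc 1 X).filter Nat.Prime, (1 + D.HH L Q μ p / (p : ℝ)) :=
    prod_nonneg fun p _ => by
      have := D.upx_HH_nonneg L Q μ p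
      positivity
  refine h1.trans ?_
  rw [hLc]
  calc (2 * ((D.K : ℝ) + 1) + 1) * (X / Real.log X) *
        ∏ p ∈ (Icc 1 X).filter Nat.Prime, (1 + D.HH L Q μ p / (p : ℝ)) ≤
        (2 * ((D.K : ℝ) + 1) + 1) * (2 ^ k * (N * L ^ (-1 : ℝ))) *
          (Real.exp (C₃ + 1) * L ^ (-c) * Rp) := by
        refine mul_le_mul (mul_le_mul_of_nonneg_left h7 (by positivity)) h6 hprod0 (by positivity)
    _ = _ := by ring

end Sys

end Stoll308.TW
end

section
set_option autoImplicit false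

/-!
The twists with bad level vectors: all the large primes are labelled by one component.
-/

namespace Stoll308.TW

open Finset Stoll308.Gen Polynomial

variable {k : ℕ}

namespace Sys

variable (D : Sys k)

/-- The large primes are labelled by the component `i`. -/
theorem bad_cls (hi : D.inf = false) {L : ℝ} (hL : 1 ≤ L) {Q h : ℕ} (h2 : 2 ≤ h) (hhQ : h ≤ Q)
    {μ : Fin k → ℕ} {t : ℤ} {r : ℕ → Lab k} (hC : D.Cls L Q μ t r) {i : Fin k}
    (hj : ∀ j, j ≠ i → μ j + h ≤ Q) {p : ℕ} (hp : p ∈ bigPrimes D.C₀ t)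
    (hpz : zz L Q ((Q : ℝ) - h + 1) < (p : ℝ)) : (D.Rt i p).Nonempty := by
  classical
  obtain ⟨hDt, hLev, -, -⟩ := hC
  have h3 : r p ≠ .o := (hDt.1 p).2 hp
  have h4 : r p ∈ D.Lb univ p := (hDt.2.1 p).resolve_left h3
  unfold Lb Lbl at h4
  rw [hi, if_neg (by decide), empty_union, mem_biUnion] at h4
  obtain ⟨j, _, h5⟩ := h4
  obtain ⟨a, ha, h6⟩ := mem_image.1 h5
  by_cases hji : j = i
  · subst hji
    exact ⟨a, ha⟩
  · exfalso
    have h7 : p ∈ cpt j (bigPrimes D.C₀ t) r := by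
      unfold cpt
      rw [mem_filter]
      refine ⟨hp, ?_⟩
      rw [← h6]
      rfl
    have hpos : 0 < D.XX t r j := by
      unfold XX
      exact prod_pos fun q hq =>
        (Nat.prime_of_mem_primeFactors (mem_filter.1 (mem_filter.1 hq).1).1).pos
    have h8 : p ≤ D.XX t r j := by
      refine Nat.le_of_dvd hpos ?_
      unfold XX
      exact dvd_prod_of_mem _ h7
    have h9 := hj j hji
    obtain ⟨_, h10, _⟩ := hLev j
    have h11 : (D.XX t r j : ℝ) < zz L Q ((μ j : ℝ) + 1) := by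
      rcases h10 with h10 | h10
      · exact h10
      · omega
    have h12 : zz L Q ((μ j : ℝ) + 1) ≤ zz L Q ((Q : ℝ) - h + 1) := by
      refine scale_mono hL Q ?_
      have : (μ j : ℝ) + h ≤ Q := by exact_mod_cast h9
      linarith
    have h13 : (p : ℝ) ≤ D.XX t r j := by exact_mod_cast h8
    linarith

end Sys

/-- The weights for the twists all of whose primes are root primes of `f`, and root primes of `g`
if they are larger than `Z`. -/
noncomputable def Wb (f g : ℤ[X]) (C₀ : ℕ) (Z : ℝ) (p : ℕ) : ℝ :=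
  if p ≤ C₀ then 0 else if (p : ℝ) ≤ Z then (if (R f p).Nonempty then 1 else 0)
    else (if (R g p).Nonempty then 1 else 0)

private lemma Wb_nonneg (f g : ℤ[X]) (C₀ : ℕ) (Z : ℝ) (p : ℕ) : 0 ≤ Wb f g C₀ Z p := by
  unfold Wb
  split_ifs <;> norm_num

private lemma Wb_le (f g : ℤ[X]) (C₀ : ℕ) (Z : ℝ) (p : ℕ) : Wb f g C₀ Z p ≤ 1 := by
  unfold Wb
  split_ifs <;> norm_num

open Classical in
/-- The number of these twists is bounded by a sum of a multiplicative function. -/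
theorem card_bad_le (f g : ℤ[X]) (C₀ : ℕ) : ∃ C : ℝ, 0 ≤ C ∧ ∀ (N : ℕ) (Z : ℝ),
    (((Icc (-(N : ℤ)) N).filter fun t => Squarefree t ∧
      (∀ p ∈ bigPrimes C₀ t, (R f p).Nonempty) ∧
      ∀ p ∈ bigPrimes C₀ t, Z < (p : ℝ) → (R g p).Nonempty).card : ℝ) ≤
      C * ∑ n ∈ Icc 1 N, HT.hf (Wb f g C₀ Z) n := by
  refine ⟨2 * P0 C₀ + 1, by positivity, fun N Z => ?_⟩
  set T : Finset ℤ := (Icc (-(N : ℤ)) N).filter fun t => Squarefree t ∧
      (∀ p ∈ bigPrimes C₀ t, (R f p).Nonempty) ∧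
      ∀ p ∈ bigPrimes C₀ t, Z < (p : ℝ) → (R g p).Nonempty with hT
  have h := sum_le_of_inj T (Icc (-(P0 C₀ : ℤ)) (P0 C₀) ×ˢ Icc 1 N)
    (fun t => (sp C₀ t, ∏ p ∈ bigPrimes C₀ t, p)) (by
      intro t ht
      obtain ⟨htN, hsq, _⟩ := mem_filter.1 ht
      rw [mem_product]
      refine ⟨sp_mem C₀ hsq, ?_⟩
      rw [mem_Icc]
      refine ⟨prod_big_pos C₀ t, ?_⟩
      have h1 : (∏ p ∈ bigPrimes C₀ t, p) ≤ t.natAbs := by
        rw [natAbs_eq C₀ hsq]
        refine Nat.le_mul_of_pos_right _ ?_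
        exact prod_pos fun _ hp => (Nat.prime_of_mem_primeFactors (mem_filter.1 hp).1).pos
      rw [mem_Icc] at htN
      change ∏ p ∈ bigPrimes C₀ t, p ≤ N
      omega) (by
      intro t ht t' ht' heq
      have hsq := (mem_filter.1 ht).2.1
      have hsq' := (mem_filter.1 ht').2.1
      simp only [Prod.mk.injEq] at heq
      rw [← sp_mul C₀ hsq, ← sp_mul C₀ hsq', heq.1, heq.2])
    (fun _ => (1 : ℝ)) (fun y => HT.hf (Wb f g C₀ Z) y.2) (by
      intro t ht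
      obtain ⟨_, hsq, h1, h2⟩ := mem_filter.1 ht
      have hpr : ∀ p ∈ bigPrimes C₀ t, p.Prime := fun p hp =>
        Nat.prime_of_mem_primeFactors (mem_filter.1 hp).1
      have hsqn : Squarefree (∏ p ∈ bigPrimes C₀ t, p) := by
        have h3 : (∏ p ∈ bigPrimes C₀ t, p) ∣ t.natAbs := Dvd.intro _ (natAbs_eq C₀ hsq).symm
        exact (Int.squarefree_natAbs.2 hsq).squarefree_of_dvd h3
      refine le_of_eq ?_
      change 1 = HT.hf (Wb f g C₀ Z) (∏ p ∈ bigPrimes C₀ t, p)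
      unfold HT.hf
      rw [if_pos hsqn, Nat.primeFactors_prod hpr]
      refine (prod_eq_one fun p hp => ?_).symm
      have hpC : C₀ < p := (mem_filter.1 hp).2
      unfold Wb
      rw [if_neg (by omega)]
      by_cases hZ : (p : ℝ) ≤ Z
      · rw [if_pos hZ, if_pos (h1 p hp)]
      · rw [if_neg hZ, if_pos (h2 p hp (not_le.1 hZ))])
    (fun y _ => HT.hf_nonneg (fun p _ => Wb_nonneg f g C₀ Z p) _)
  rw [sum_const, nsmul_eq_mul, mul_one, sum_product] at h
  have h' : (T.card : ℝ) ≤ ∑ _s ∈ Icc (-(P0 C₀ : ℤ)) (P0 C₀),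
      ∑ n ∈ Icc 1 N, HT.hf (Wb f g C₀ Z) n := h
  rw [sum_const, nsmul_eq_mul, card_sp] at h'
  exact h'

open Classical in
/-- The number of the twists with bad level vectors. -/
theorem card_bad (f g : ℤ[X]) (C₀ : ℕ)
    (hM : LowMert fun p => (R f p).Nonempty ∧ ¬ (R g p).Nonempty)
    (hgf : ∀ p : ℕ, p.Prime → C₀ < p → (R g p).Nonempty → (R f p).Nonempty) (Q h : ℕ)
    (h2 : 2 ≤ h) (hhQ : h + 1 ≤ Q) :
    ∃ (c C : ℝ) (N₀ : ℕ), 0 < c ∧ 0 ≤ C ∧ 3 ≤ N₀ ∧ ∀ N : ℕ, N₀ ≤ N →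
      (((Icc (-(N : ℤ)) N).filter fun t => Squarefree t ∧
        (∀ p ∈ bigPrimes C₀ t, (R f p).Nonempty) ∧
        ∀ p ∈ bigPrimes C₀ t, zz (Real.log N) Q ((Q : ℝ) - h + 1) < (p : ℝ) →
          (R g p).Nonempty).card : ℝ) ≤
        C * (N * Real.log N ^ (-1 - c)) * ∏ p ∈ rootPrimes f N, (1 + 1 / (p : ℝ)) := by
  obtain ⟨Sp, hSp⟩ : ∃ Sp : ℕ → Prop, Sp = fun p => (R f p).Nonempty ∧ ¬ (R g p).Nonempty :=
    ⟨_, rfl⟩
  have hSp' : ∀ p, Sp p ↔ ((R f p).Nonempty ∧ ¬ (R g p).Nonempty) := fun p => by rw [hSp]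
  rw [← hSp] at hM
  obtain ⟨κ, B, hκ, hLM⟩ := hM
  obtain ⟨C₁, hC₁, hcard⟩ := card_bad_le f g C₀
  obtain ⟨L₀, hL₀, hlarge⟩ := scale_large (Q := Q) (by omega)
  have hQ0 : (0 : ℝ) < Q := by
    have : 0 < Q := by omega
    exact_mod_cast this
  have hh2 : (2 : ℝ) ≤ h := by exact_mod_cast h2
  have hhQ' : (h : ℝ) + 1 ≤ Q := by exact_mod_cast hhQ
  set c : ℝ := κ * ((h - 1) / Q) with hc
  have hc0 : 0 < c := by
    have : 0 < ((h : ℝ) - 1) / Q := div_pos (by linarith) hQ0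
    positivity
  refine ⟨c, C₁ * (3 * Real.exp (B + 1)), max 3 ⌈Real.exp L₀⌉₊, hc0, by positivity,
    le_max_left _ _, fun N hN => ?_⟩
  have hN3 : 3 ≤ N := (le_max_left _ _).trans hN
  have hNr : (3 : ℝ) ≤ N := by exact_mod_cast hN3
  have hN0 : (0 : ℝ) < N := by linarith
  have hNe : Real.exp L₀ ≤ N := (Nat.le_ceil _).trans (by exact_mod_cast (le_max_right _ _).trans hN)
  set L : ℝ := Real.log N with hL
  have hLL : L₀ ≤ L := (Real.le_log_iff_exp_le hN0).2 hNe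
  have hL1 : 1 ≤ L := hL₀.trans hLL
  have hL0 : 0 < L := by linarith
  have hexp : Real.exp L = N := Real.exp_log hN0
  set Z : ℝ := zz L Q ((Q : ℝ) - h + 1) with hZ
  refine (hcard N Z).trans ?_
  have h1 := sum_hf_le_prod (H := Wb f g C₀ Z) (K := 1) (fun p _ => Wb_nonneg f g C₀ Z p)
    (fun p _ => Wb_le f g C₀ Z p) (X := N) (by omega)
  have h3 := Gen.prod_le_exp ((Icc 1 N).filter Nat.Prime) (Wb f g C₀ Z)
    (fun p _ => Wb_nonneg f g C₀ Z p)
  have h4 := Gen.prod_ge_exp (rootPrimes f N) (fun p hp => by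
    unfold rootPrimes at hp
    rw [mem_filter] at hp
    exact hp.2.1)
  set Rp : ℝ := ∏ p ∈ rootPrimes f N, (1 + 1 / (p : ℝ)) with hRp
  have hRp0 : 0 ≤ Rp := prod_nonneg fun p _ => by positivity
  -- the lower bound for the exceptional primes
  have h5 := hLM Z (N : ℝ) (hlarge L hLL _ (by linarith)) (by
    rw [← hexp, ← scale_top L (Q := Q) (by omega)]
    exact scale_mono hL1 Q (by linarith))
  rw [scale_loglog hL1, ← hL, Nat.floor_natCast] at h5
  have h6 : ∑ p ∈ (Icc 1 N).filter Nat.Prime, Wb f g C₀ Z p / (p : ℝ) ≤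
      ∑ p ∈ rootPrimes f N, 1 / (p : ℝ) -
        ∑ p ∈ (Icc 1 N).filter (fun p : ℕ => p.Prime ∧ Z < (p : ℝ) ∧ Sp p), 1 / (p : ℝ) := by
    have e1 : ∑ p ∈ rootPrimes f N, 1 / (p : ℝ) =
        ∑ p ∈ (Icc 1 N).filter Nat.Prime, (if (R f p).Nonempty then 1 / (p : ℝ) else 0) := by
      unfold rootPrimes
      rw [← filter_filter, sum_filter _ (fun p : ℕ => 1 / (p : ℝ))]
    have e2 : ∑ p ∈ (Icc 1 N).filter (fun p : ℕ => p.Prime ∧ Z < (p : ℝ) ∧ Sp p),
          1 / (p : ℝ) =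
        ∑ p ∈ (Icc 1 N).filter Nat.Prime, (if Z < (p : ℝ) ∧ Sp p then 1 / (p : ℝ) else 0) := by
      rw [← filter_filter, sum_filter _ (fun p : ℕ => 1 / (p : ℝ))]
    rw [e1, e2, ← sum_sub_distrib]
    refine sum_le_sum fun p hp => ?_
    have hpp : p.Prime := (mem_filter.1 hp).2
    have hp0 : (0 : ℝ) ≤ 1 / p := by positivity
    unfold Wb
    by_cases hpC : p ≤ C₀
    · rw [if_pos hpC, zero_div]
      split_ifs with g1 g2 g2
      · linarith
      · linarith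
      · exact absurd ((hSp' p).1 g2.2).1 g1
      · linarith
    · rw [if_neg hpC]
      by_cases hpZ : (p : ℝ) ≤ Z
      · rw [if_pos hpZ]
        have g2 : ¬ (Z < (p : ℝ) ∧ Sp p) :=
          fun h => absurd h.1 (not_lt.2 hpZ)
        rw [if_neg g2]
        split_ifs <;> simp
      · rw [if_neg hpZ]
        by_cases g3 : (R g p).Nonempty
        · have g4 : (R f p).Nonempty := hgf p hpp (by omega) g3
          have g2 : ¬ (Z < (p : ℝ) ∧ Sp p) :=
            fun h => ((hSp' p).1 h.2).2 g3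
          rw [if_pos g3, if_pos g4, if_neg g2]
          linarith
        · rw [if_neg g3, zero_div]
          by_cases g4 : (R f p).Nonempty
          · have g2 : Z < (p : ℝ) ∧ Sp p := ⟨not_le.1 hpZ, (hSp' p).2 ⟨g4, g3⟩⟩
            rw [if_pos g4, if_pos g2]
            linarith
          · have g2 : ¬ (Z < (p : ℝ) ∧ Sp p) :=
              fun h => g4 ((hSp' p).1 h.2).1
            rw [if_neg g4, if_neg g2]
            linarith
  have h7 : ∑ p ∈ (Icc 1 N).filter Nat.Prime, Wb f g C₀ Z p / (p : ℝ) ≤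
      ∑ p ∈ rootPrimes f N, 1 / (p : ℝ) - c * Real.log L + B := by
    have e3 : κ * (Real.log L - ((Q : ℝ) - h + 1) / Q * Real.log L) = c * Real.log L := by
      rw [hc]
      field_simp
      ring
    rw [e3] at h5
    linarith
  have h8 : ∏ p ∈ (Icc 1 N).filter Nat.Prime, (1 + Wb f g C₀ Z p / (p : ℝ)) ≤
      Real.exp (B + 1) * L ^ (-c) * Rp := by
    refine h3.trans ?_
    refine le_trans ?_ (mul_le_mul_of_nonneg_left h4 (by positivity))
    rw [Real.rpow_def_of_pos hL0, ← Real.exp_add, ← Real.exp_add]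
    refine Real.exp_le_exp.2 ?_
    linarith
  have hLc : L ^ (-1 - c) = L ^ (-1 : ℝ) * L ^ (-c) := by
    rw [← Real.rpow_add hL0]
    congr 1
  have hNL : (N : ℝ) / Real.log N = N * L ^ (-1 : ℝ) := by
    rw [Real.rpow_neg_one, ← hL, div_eq_mul_inv]
  rw [hNL] at h1
  have h9 : ∑ n ∈ Icc 1 N, HT.hf (Wb f g C₀ Z) n ≤
      3 * (N * L ^ (-1 : ℝ)) * (Real.exp (B + 1) * L ^ (-c) * Rp) := by
    refine h1.trans ?_
    have e4 : (2 * (1 : ℝ) + 1) = 3 := by norm_num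
    rw [e4]
    exact mul_le_mul_of_nonneg_left h8 (by positivity)
  refine (mul_le_mul_of_nonneg_left h9 hC₁).trans (le_of_eq ?_)
  rw [hLc]
  ring

end Stoll308.TW
end

section
set_option autoImplicit false

/-!
The number of twists in a block: the level vectors in two groups (as `block_le`; make
`card_cls_le` of `Block` public for the proof).
-/

namespace Stoll308.TW

open Finset Stoll308.Gen

variable {k : ℕ}

private lemma zz_monoB {L : ℝ} (hL : 1 ≤ L) (Q : ℕ) {x y : ℝ} (hxy : x ≤ y) :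
    zz L Q x ≤ zz L Q y := by
  unfold zz
  refine Real.exp_le_exp.2 ?_
  refine Real.rpow_le_rpow_of_exponent_le hL ?_
  exact div_le_div_of_nonneg_right hxy (Nat.cast_nonneg _)

namespace Sys

variable (D : Sys k)

open Classical in
theorem block_le2 (Q : ℕ) (hQ : 4 ≤ Q) : ∃ C L₀ : ℝ, 0 ≤ C ∧ 1 ≤ L₀ ∧ ∀ (N : ℕ) (L : ℝ),
    L₀ ≤ L → Real.exp L ≤ N → ∀ G : (Fin k → ℕ) → Prop, ((D.Bl N L Q).card : ℝ) ≤
      C * (∑ μ ∈ (Lv k Q).filter G, ∑ n ∈ Icc 1 (2 ^ k * N), HT.hf (D.HH L Q μ) n +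
        N * L ^ (-(2 : ℝ))) +
      ∑ μ ∈ (Lv k Q).filter (fun μ => ¬ G μ),
        (((Icc (-(N : ℤ)) N).filter fun t => Squarefree t ∧ ∃ r, D.Cls L Q μ t r).card : ℝ) := by
  obtain ⟨C₁, L₁, hC₁, hL₁, hcls⟩ := card_cls_le D Q hQ
  obtain ⟨C₂, hC₂, hsm⟩ := smooth_small D.C₀
  obtain ⟨L₂, hL₂, hns⟩ := numer_smooth C₂ Q hQ
  refine ⟨C₁ + C₁ * (Lv k Q).card + 2 * Q, max L₁ L₂, by positivity,
    hL₁.trans (le_max_left _ _), ?_⟩
  intro N L hL _ G
  have hL1 : 1 ≤ L := hL₁.trans ((le_max_left _ _).trans hL)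
  have hLpos : 0 < L := by linarith
  -- the classes
  set Tc : (Fin k → ℕ) → Finset ℤ := fun μ => (Icc (-(N : ℤ)) N).filter fun t =>
    Squarefree t ∧ ∃ r, D.Cls L Q μ t r with hTc
  set Sm : ℝ → ℝ → Finset ℤ := fun x y => (Icc (-(N : ℤ)) N).filter fun t => t ≠ 0 ∧
    ∃ T : Finset ℕ, T ⊆ bigPrimes D.C₀ t ∧ (∀ p ∈ T, (p : ℝ) ≤ x) ∧ y ≤ ∏ p ∈ T, (p : ℝ) with hSm
  have hsub : D.Bl N L Q ⊆ (Lv k Q).biUnion Tc ∪
      ((Icc 3 (Q - 1)).biUnion fun m => Sm (zz L Q ((m : ℝ) - 1 / 4)) (zz L Q m) ∪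
        Sm (zz L Q ((m : ℝ) - 1)) (zz L Q ((m : ℝ) - 1 / 2))) := by
    intro t ht
    have ht' := ht
    unfold Bl at ht'
    rw [mem_filter] at ht'
    obtain ⟨hN, hsq, -⟩ := ht'
    obtain ⟨μ, hμ, h | ⟨m, hm3, hmQ, T, hT, h | h⟩⟩ := D.block_split Q hQ hL1 ht
    · rw [mem_union]
      left
      rw [mem_biUnion]
      refine ⟨μ, hμ, ?_⟩
      rw [hTc]
      simp only
      rw [mem_filter]
      exact ⟨hN, hsq, h⟩
    · rw [mem_union]
      right
      rw [mem_biUnion]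
      refine ⟨m, mem_Icc.2 ⟨hm3, by omega⟩, ?_⟩
      rw [mem_union]
      left
      rw [hSm]
      simp only
      rw [mem_filter]
      exact ⟨hN, hsq.ne_zero, T, hT, h.1, h.2⟩
    · rw [mem_union]
      right
      rw [mem_biUnion]
      refine ⟨m, mem_Icc.2 ⟨hm3, by omega⟩, ?_⟩
      rw [mem_union]
      right
      rw [hSm]
      simp only
      rw [mem_filter]
      exact ⟨hN, hsq.ne_zero, T, hT, h.1, h.2⟩
  have h1 : ((D.Bl N L Q).card : ℝ) ≤ ∑ μ ∈ Lv k Q, ((Tc μ).card : ℝ) +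
      ∑ m ∈ Icc 3 (Q - 1), (((Sm (zz L Q ((m : ℝ) - 1 / 4)) (zz L Q m)).card : ℝ) +
        ((Sm (zz L Q ((m : ℝ) - 1)) (zz L Q ((m : ℝ) - 1 / 2))).card : ℝ)) := by
    have h2 : (D.Bl N L Q).card ≤ ∑ μ ∈ Lv k Q, (Tc μ).card +
        ∑ m ∈ Icc 3 (Q - 1), ((Sm (zz L Q ((m : ℝ) - 1 / 4)) (zz L Q m)).card +
          (Sm (zz L Q ((m : ℝ) - 1)) (zz L Q ((m : ℝ) - 1 / 2))).card) := by
      refine (card_le_card hsub).trans ((card_union_le _ _).trans ?_)
      refine add_le_add card_biUnion_le (card_biUnion_le.trans ?_)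
      exact sum_le_sum fun m _ => card_union_le _ _
    exact_mod_cast h2
  have hpow : L ^ (-(3 : ℝ)) ≤ L ^ (-(2 : ℝ)) :=
    Real.rpow_le_rpow_of_exponent_le hL1 (by norm_num)
  have hpow0 : 0 ≤ L ^ (-(2 : ℝ)) := Real.rpow_nonneg hLpos.le _
  have hNn : (0 : ℝ) ≤ N := Nat.cast_nonneg _
  -- the smooth parts
  have h3 : ∀ m ∈ Icc 3 (Q - 1), (((Sm (zz L Q ((m : ℝ) - 1 / 4)) (zz L Q m)).card : ℝ) +
        ((Sm (zz L Q ((m : ℝ) - 1)) (zz L Q ((m : ℝ) - 1 / 2))).card : ℝ)) ≤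
        2 * (N * L ^ (-(2 : ℝ))) := by
    intro m hm
    rw [mem_Icc] at hm
    obtain ⟨g1, g2, g3⟩ := hns L ((le_max_right _ _).trans hL) m hm.1 (by omega)
    have h4 : (3 : ℝ) ≤ zz L Q ((m : ℝ) - 1 / 4) := g3.trans (zz_monoB hL1 Q (by linarith))
    have hz : ∀ x, 0 < zz L Q x := fun x => Real.exp_pos _
    have h5 := hsm N (zz L Q ((m : ℝ) - 1 / 4)) (zz L Q m) h4 (hz _)
    have h6 := hsm N (zz L Q ((m : ℝ) - 1)) (zz L Q ((m : ℝ) - 1 / 2)) g3 (hz _)
    have h7 : ∀ a b : ℝ, C₂ * a * b ≤ L ^ (-(3 : ℝ)) →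
        C₂ * N * a * b ≤ N * L ^ (-(2 : ℝ)) := by
      intro a b hab
      calc C₂ * N * a * b = N * (C₂ * a * b) := by ring
        _ ≤ N * L ^ (-(2 : ℝ)) := mul_le_mul_of_nonneg_left (hab.trans hpow) hNn
    have h8 := h5.trans (h7 _ _ g1)
    have h9 := h6.trans (h7 _ _ g2)
    have h10 : ((Sm (zz L Q ((m : ℝ) - 1 / 4)) (zz L Q m)).card : ℝ) ≤ N * L ^ (-(2 : ℝ)) := h8
    have h11 : ((Sm (zz L Q ((m : ℝ) - 1)) (zz L Q ((m : ℝ) - 1 / 2))).card : ℝ) ≤
      N * L ^ (-(2 : ℝ)) := h9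
    linarith
  have h4 : ∀ μ ∈ Lv k Q, ((Tc μ).card : ℝ) ≤
      C₁ * (∑ n ∈ Icc 1 (2 ^ k * N), HT.hf (D.HH L Q μ) n + N * L ^ (-(2 : ℝ))) := by
    intro μ hμ
    refine (hcls N L ((le_max_left _ _).trans hL) μ hμ).trans ?_
    refine mul_le_mul_of_nonneg_left ?_ hC₁
    have := mul_le_mul_of_nonneg_left hpow hNn
    linarith
  have h15 := sum_filter_add_sum_filter_not (Lv k Q) G fun μ => ((Tc μ).card : ℝ)
  rw [← h15] at h1
  refine h1.trans ?_
  set SG : ℝ := ∑ μ ∈ (Lv k Q).filter G, ((Tc μ).card : ℝ) with hSG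
  have h16 : SG ≤ ∑ μ ∈ (Lv k Q).filter G,
      C₁ * (∑ n ∈ Icc 1 (2 ^ k * N), HT.hf (D.HH L Q μ) n + N * L ^ (-(2 : ℝ))) :=
    sum_le_sum fun μ hμ => h4 μ (mem_filter.1 hμ).1
  rw [← mul_sum, sum_add_distrib, sum_const, nsmul_eq_mul] at h16
  have h17 := sum_le_sum h3
  rw [sum_const, nsmul_eq_mul] at h17
  have hS0 : 0 ≤ ∑ μ ∈ (Lv k Q).filter G, ∑ n ∈ Icc 1 (2 ^ k * N), HT.hf (D.HH L Q μ) n :=
    sum_nonneg fun μ _ => sum_nonneg fun n _ =>
      HT.hf_nonneg (fun p _ => HH_nonneg D L Q μ p) n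
  set S := ∑ μ ∈ (Lv k Q).filter G, ∑ n ∈ Icc 1 (2 ^ k * N), HT.hf (D.HH L Q μ) n with hS
  have hcard : ((Icc 3 (Q - 1)).card : ℝ) ≤ Q := by
    have : (Icc 3 (Q - 1)).card ≤ Q := by
      rw [Nat.card_Icc]
      omega
    exact_mod_cast this
  have hY0 : 0 ≤ (N : ℝ) * L ^ (-(2 : ℝ)) := mul_nonneg hNn hpow0
  have h12 : ((Icc 3 (Q - 1)).card : ℝ) * (2 * (N * L ^ (-(2 : ℝ)))) ≤
      Q * (2 * (N * L ^ (-(2 : ℝ)))) := mul_le_mul_of_nonneg_right hcard (by positivity)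
  have h13 : (0 : ℝ) ≤ (Lv k Q).card := Nat.cast_nonneg _
  have h14 : (0 : ℝ) ≤ Q := Nat.cast_nonneg _
  have h18 : (((Lv k Q).filter G).card : ℝ) ≤ (Lv k Q).card :=
    Nat.cast_le.2 (card_le_card (filter_subset _ _))
  have h19 : C₁ * (S + ((Lv k Q).filter G).card * (N * L ^ (-(2 : ℝ)))) ≤
      C₁ * (S + (Lv k Q).card * (N * L ^ (-(2 : ℝ)))) := by
    refine mul_le_mul_of_nonneg_left ?_ hC₁
    have := mul_le_mul_of_nonneg_right h18 hY0
    linarith
  set Y : ℝ := (N : ℝ) * L ^ (-(2 : ℝ)) with hY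
  set M : ℝ := ((Lv k Q).card : ℝ) with hM
  set SB : ℝ := ∑ μ ∈ (Lv k Q).filter (fun μ => ¬ G μ), ((Tc μ).card : ℝ) with hSB
  have h20 : (C₁ + C₁ * M + 2 * Q) * (S + Y) = C₁ * (S + M * Y) + Q * (2 * Y) +
      (C₁ * Y + C₁ * M * S + 2 * Q * S) := by ring
  have h21 : 0 ≤ C₁ * Y + C₁ * M * S + 2 * Q * S := by positivity
  linarith

end Sys

end Stoll308.TW
end

section
set_option autoImplicit false

/-!
Even degree, with exceptional components: the number of twists with a datum.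
-/

namespace Stoll308.TW

open Finset Stoll308.Gen Polynomial

variable {k : ℕ}

private lemma one_le_log {N : ℕ} (hN : 3 ≤ N) : 1 ≤ Real.log N := by
  have hN0 : (0 : ℝ) < N := by exact_mod_cast (by omega : 0 < N)
  rw [Real.le_log_iff_exp_le hN0]
  have h3 : (3 : ℝ) ≤ N := by exact_mod_cast hN
  have := Real.exp_one_lt_d9
  linarith

private lemma bound_mono {N : ℕ} (hN : 3 ≤ N) {C C' c c' P : ℝ} (hC : 0 ≤ C) (hCC : C ≤ C')
    (hc : c' ≤ c) (hP : 0 ≤ P) :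
    C * (N * Real.log N ^ (-1 - c)) * P ≤ C' * (N * Real.log N ^ (-1 - c')) * P := by
  have hlog1 := one_le_log hN
  have hlog0 : 0 < Real.log N := by linarith
  have h1 : Real.log N ^ (-1 - c) ≤ Real.log N ^ (-1 - c') :=
    Real.rpow_le_rpow_of_exponent_le hlog1 (by linarith)
  have h2 : (N : ℝ) * Real.log N ^ (-1 - c) ≤ N * Real.log N ^ (-1 - c') :=
    mul_le_mul_of_nonneg_left h1 (Nat.cast_nonneg _)
  have h3 : 0 ≤ (N : ℝ) * Real.log N ^ (-1 - c) := by positivity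
  exact mul_le_mul_of_nonneg_right (mul_le_mul hCC h2 h3 (hC.trans hCC)) hP

/-- Uniform constants for a finite sum. -/
private lemma sum_unif {ι : Type*} (E : Finset ι) (F : ι → ℕ → ℝ) (P : ℕ → ℝ)
    (hP : ∀ N, 0 ≤ P N) (h : ∀ i ∈ E, ∃ (c C : ℝ) (N₀ : ℕ), 0 < c ∧ 0 ≤ C ∧ 3 ≤ N₀ ∧
      ∀ N : ℕ, N₀ ≤ N → F i N ≤ C * (N * Real.log N ^ (-1 - c)) * P N) :
    ∃ (c C : ℝ) (N₀ : ℕ), 0 < c ∧ 0 ≤ C ∧ 3 ≤ N₀ ∧
      ∀ N : ℕ, N₀ ≤ N → ∑ i ∈ E, F i N ≤ C * (N * Real.log N ^ (-1 - c)) * P N := by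
  classical
  induction E using Finset.induction_on with
  | empty =>
    refine ⟨1, 0, 3, one_pos, le_rfl, le_rfl, fun N _ => ?_⟩
    simp
  | insert a E ha ih =>
    obtain ⟨c₁, C₁, N₁, hc₁, hC₁, hN₁, h₁⟩ := h a (mem_insert_self _ _)
    obtain ⟨c₂, C₂, N₂, hc₂, hC₂, hN₂, h₂⟩ := ih fun i hi => h i (mem_insert_of_mem hi)
    refine ⟨min c₁ c₂, C₁ + C₂, max N₁ N₂, lt_min hc₁ hc₂, by positivity,
      hN₁.trans (le_max_left _ _), fun N hN => ?_⟩
    have hN1 : N₁ ≤ N := (le_max_left _ _).trans hN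
    have hN2 : N₂ ≤ N := (le_max_right _ _).trans hN
    have hN3 : 3 ≤ N := hN₁.trans hN1
    rw [sum_insert ha]
    have e1 := (h₁ N hN1).trans (bound_mono hN3 hC₁ le_rfl (min_le_left c₁ c₂) (hP N))
    have e2 := (h₂ N hN2).trans (bound_mono hN3 hC₂ le_rfl (min_le_right c₁ c₂) (hP N))
    refine (add_le_add e1 e2).trans (le_of_eq ?_)
    ring

private lemma one_le_P (f : ℤ[X]) (N : ℕ) : 1 ≤ ∏ p ∈ rootPrimes f N, (1 + 1 / (p : ℝ)) := by
  refine one_le_prod fun p _ => ?_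
  have : (0 : ℝ) ≤ 1 / p := by positivity
  linarith

namespace Sys

variable (D : Sys k)

open Classical in
/-- From the blocks to all the twists (the last part of the proof of `total_even`). -/
theorem total_of_block (f : ℤ[X]) (hi : D.inf = false) (hk : 0 < k)
    (hb : ∃ (Q : ℕ) (c C : ℝ) (N₀ : ℕ), 4 ≤ Q ∧ 0 < c ∧ 0 ≤ C ∧ ∀ N : ℕ, N₀ ≤ N →
      ((D.Bl N (Real.log N) Q).card : ℝ) ≤
        C * (N * Real.log N ^ (-1 - c)) * ∏ p ∈ rootPrimes f N, (1 + 1 / (p : ℝ))) :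
    ∃ c C : ℝ, 0 < c ∧ ∀ N : ℕ, 3 ≤ N →
      (((Icc (-(N : ℤ)) N).filter fun t => Squarefree t ∧ ∃ r, D.Dt t r).card : ℝ) ≤
        C * N * Real.log N ^ (-1 - c) * ∏ p ∈ rootPrimes f N, (1 + 1 / (p : ℝ)) := by
  obtain ⟨Q, c₀, C₁, N₁, hQ, hc₀, hC₁, hm⟩ := hb
  obtain ⟨x₀, hx₀, hsm⟩ := small_le (P0 D.C₀) (Nat.cast_nonneg _) k Q hQ
  set c : ℝ := min c₀ 1 with hc
  have hc0 : 0 < c := lt_min hc₀ one_pos
  set N₂ : ℕ := max (max N₁ 3) ⌈Real.exp x₀⌉₊ with hN₂
  have hN₂3 : 3 ≤ N₂ := (le_max_right _ _).trans (le_max_left _ _)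
  set K : ℝ := C₁ + 1 with hK
  set K' : ℝ := 3 * Real.log N₂ ^ (1 + c) with hK'
  have hK0 : 0 ≤ K := by positivity
  have hlog2 : 0 < Real.log N₂ := Real.log_pos (by exact_mod_cast (by omega : 1 < N₂))
  have hK'0 : 0 ≤ K' := by positivity
  refine ⟨c, max K K', hc0, fun N hN => ?_⟩
  have hN0 : (0 : ℝ) < N := by exact_mod_cast (by omega : 0 < N)
  have hlog1 : 1 ≤ Real.log N := one_le_log hN
  have hlog0 : 0 < Real.log N := by linarith
  rcases lt_or_ge N N₂ with hlt | hge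
  · -- small `N`
    have h1 : (((Icc (-(N : ℤ)) N).filter fun t => Squarefree t ∧ ∃ r, D.Dt t r).card : ℝ) ≤
        3 * N := by
      have h2 := card_le_card (filter_subset (fun t => Squarefree t ∧ ∃ r, D.Dt t r)
        (Icc (-(N : ℤ)) N))
      rw [Int.card_Icc] at h2
      have h4 : ((N : ℤ) + 1 - -(N : ℤ)).toNat = 2 * N + 1 := by omega
      rw [h4] at h2
      have h5 : 2 * N + 1 ≤ 3 * N := by omega
      exact_mod_cast h2.trans h5
    refine h1.trans ?_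
    have h6 : 1 ≤ Real.log N₂ ^ (1 + c) * Real.log N ^ (-1 - c) := by
      have e : Real.log N ^ (-1 - c) = (Real.log N ^ (1 + c))⁻¹ := by
        rw [← Real.rpow_neg hlog0.le]
        congr 1
        ring
      rw [e, ← div_eq_mul_inv, one_le_div (by positivity)]
      refine Real.rpow_le_rpow hlog0.le ?_ (by linarith)
      exact Real.log_le_log hN0 (by exact_mod_cast hlt.le)
    have h7 : 3 * (N : ℝ) ≤ max K K' * N * Real.log N ^ (-1 - c) := by
      calc 3 * (N : ℝ) ≤ 3 * N * (Real.log N₂ ^ (1 + c) * Real.log N ^ (-1 - c)) :=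
            le_mul_of_one_le_right (by positivity) h6
        _ = K' * N * Real.log N ^ (-1 - c) := by
            rw [hK']
            ring
        _ ≤ _ := by
            have := le_max_right K K'
            gcongr
    exact h7.trans (le_mul_of_one_le_right (by positivity) (one_le_P f N))
  · -- large `N`
    have hN1 : N₁ ≤ N := ((le_max_left _ _).trans (le_max_left _ _)).trans hge
    have hNe : Real.exp x₀ ≤ N :=
      (Nat.le_ceil _).trans (by exact_mod_cast (le_max_right _ _).trans hge)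
    have hLx : x₀ ≤ Real.log N := (Real.le_log_iff_exp_le hN0).2 hNe
    have hsub : ((Icc (-(N : ℤ)) N).filter fun t => Squarefree t ∧ ∃ r, D.Dt t r) ⊆
        D.Bl N (Real.log N) Q ∪ (Icc (-(N : ℤ)) N).filter fun t => Squarefree t ∧
          ∃ r, D.Dt t r ∧ ∀ i, (D.XX t r i : ℝ) ≤
            Real.exp (Real.log N ^ (((Q : ℝ) - 1) / Q)) := by
      intro t ht
      obtain ⟨htN, hsq, r, hr⟩ := mem_filter.1 ht
      rw [mem_union]
      by_cases h : ∃ i, zz (Real.log N) Q ((Q : ℝ) - 1) ≤ (D.XX t r i : ℝ)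
      · left
        unfold Bl
        rw [mem_filter]
        refine ⟨htN, hsq, r, hr, fun i => ?_, h⟩
        rw [Real.exp_log hN0]
        unfold Sys.XX
        have h1 : ∏ p ∈ cpt i (bigPrimes D.C₀ t) r, p ≤ ∏ p ∈ bigPrimes D.C₀ t, p :=
          prod_le_prod_of_subset_of_one_le' (filter_subset _ _) fun p hp _ =>
            (Nat.prime_of_mem_primeFactors (mem_filter.1 hp).1).one_lt.le
        have h2 : (∏ p ∈ bigPrimes D.C₀ t, p) ≤ t.natAbs := by
          rw [natAbs_eq D.C₀ hsq]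
          refine Nat.le_mul_of_pos_right _ ?_
          exact prod_pos fun _ hp => (Nat.prime_of_mem_primeFactors (mem_filter.1 hp).1).pos
        have h3 : t.natAbs ≤ N := by
          rw [mem_Icc] at htN
          omega
        exact_mod_cast h1.trans (h2.trans h3)
      · right
        push Not at h
        exact mem_filter.2 ⟨htN, hsq, r, hr, fun i => (h i).le⟩
    have h1 := (card_le_card hsub).trans (card_union_le _ _)
    have h2 : (((Icc (-(N : ℤ)) N).filter fun t => Squarefree t ∧ ∃ r, D.Dt t r).card : ℝ) ≤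
        ((D.Bl N (Real.log N) Q).card : ℝ) +
        (((Icc (-(N : ℤ)) N).filter fun t => Squarefree t ∧ ∃ r, D.Dt t r ∧
          ∀ i, (D.XX t r i : ℝ) ≤
            Real.exp (Real.log N ^ (((Q : ℝ) - 1) / Q))).card : ℝ) := by
      exact_mod_cast h1
    have h3 := D.card_small hi N (Real.log N ^ (((Q : ℝ) - 1) / Q))
    have h4 := hsm (Real.log N) hLx
    rw [Real.exp_log hN0] at h4
    have h5 := hm N hN1
    set P : ℝ := ∏ p ∈ rootPrimes f N, (1 + 1 / (p : ℝ)) with hPdef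
    have hP1 : 1 ≤ P := one_le_P f N
    have h6 : C₁ * (N * Real.log N ^ (-1 - c₀)) * P ≤ C₁ * (N * Real.log N ^ (-1 - c)) * P :=
      bound_mono hN hC₁ le_rfl (min_le_left _ _) (by linarith)
    have h7 : (N : ℝ) * Real.log N ^ (-(2 : ℝ)) ≤ N * Real.log N ^ (-1 - c) * P := by
      have h8 : (N : ℝ) * Real.log N ^ (-(2 : ℝ)) ≤ N * Real.log N ^ (-1 - c) := by
        refine mul_le_mul_of_nonneg_left ?_ hN0.le
        exact Real.rpow_le_rpow_of_exponent_le hlog1 (by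
          have := min_le_right c₀ (1 : ℝ)
          linarith)
      exact h8.trans (le_mul_of_one_le_right (by positivity) hP1)
    calc (((Icc (-(N : ℤ)) N).filter fun t => Squarefree t ∧ ∃ r, D.Dt t r).card : ℝ) ≤
          C₁ * (N * Real.log N ^ (-1 - c)) * P + N * Real.log N ^ (-1 - c) * P :=
          h2.trans (add_le_add (h5.trans h6) ((h3.trans h4).trans h7))
      _ = K * (N * Real.log N ^ (-1 - c) * P) := by
          rw [hK]
          ring
      _ ≤ max K K' * (N * Real.log N ^ (-1 - c) * P) := by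
          refine mul_le_mul_of_nonneg_right (le_max_left _ _) ?_
          positivity
      _ = _ := by ring

open Classical in
/-- The number of squarefree `t`, `|t| ≤ N`, with a datum. -/
theorem total_even2 (f : ℤ[X]) (g : Fin k → ℤ[X]) (E : Finset (Fin k)) (Sp : ℕ → Prop)
    (hS : LowMert Sp) (hi : D.inf = false) (hk : 0 < k) (hR : ∀ i p, D.Rt i p = R (g i) p)
    (hgf : ∀ i, ∀ p : ℕ, p.Prime → D.C₀ < p → (R (g i) p).Nonempty → (R f p).Nonempty)
    (hE : ∀ i ∈ E, LowMert fun p => (R f p).Nonempty ∧ ¬ (R (g i) p).Nonempty)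
    (hw : ∀ A p, p.Prime → D.C₀ < p → A.Nonempty → (∀ i ∈ E, A ≠ {i}) →
      D.wt A p ≤ if (R f p).Nonempty then 1 else 0)
    (hs : ∀ A p, p.Prime → D.C₀ < p → A.Nonempty → (∀ i ∈ E, A ≠ {i}) → Sp p →
      (R f p).Nonempty ∧ D.wt A p ≤ 7 / 8) :
    ∃ c C : ℝ, 0 < c ∧ ∀ N : ℕ, 3 ≤ N →
      (((Icc (-(N : ℤ)) N).filter fun t => Squarefree t ∧ ∃ r, D.Dt t r).card : ℝ) ≤
        C * N * Real.log N ^ (-1 - c) * ∏ p ∈ rootPrimes f N, (1 + 1 / (p : ℝ)) := by
  refine D.total_of_block f hi hk ?_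
  obtain ⟨Q₁, c₁, hQ₁, hc₁, hmain⟩ := D.main_even2 f E Sp hS hi hw hs
  set Q : ℕ := max Q₁ ⌈2 / c₁⌉₊ with hQdef
  have hQ4 : 4 ≤ Q := hQ₁.trans (le_max_left _ _)
  have hQc : ((2 : ℕ) : ℝ) ≤ c₁ * Q := by
    have h1 : 2 / c₁ ≤ Q := (Nat.le_ceil _).trans (by exact_mod_cast le_max_right _ _)
    rw [div_le_iff₀ hc₁] at h1
    push_cast
    linarith
  obtain ⟨c₂, C₂, N₂, hc₂, hC₂, hN₂, hgood⟩ := hmain Q 2 (le_max_left _ _) (by omega) hQc
  obtain ⟨C₃, L₃, hC₃, hL₃, hbl⟩ := D.block_le2 Q hQ4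
  set F : Fin k → ℕ → ℝ := fun i N =>
    (((Icc (-(N : ℤ)) N).filter fun t => Squarefree t ∧
        (∀ p ∈ bigPrimes D.C₀ t, (R f p).Nonempty) ∧
        ∀ p ∈ bigPrimes D.C₀ t, zz (Real.log N) Q ((Q : ℝ) - (2 : ℕ) + 1) < (p : ℝ) →
          (R (g i) p).Nonempty).card : ℝ) with hF
  set P : ℕ → ℝ := fun N => ∏ p ∈ rootPrimes f N, (1 + 1 / (p : ℝ)) with hP
  have hP1 : ∀ N, 1 ≤ P N := fun N => one_le_P f N
  obtain ⟨c₄, C₄, N₄, hc₄, hC₄, hN₄, hbad⟩ := sum_unif E F P (fun N => by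
    have := hP1 N
    linarith) (fun i hiE => card_bad f (g i) D.C₀ (hE i hiE) (hgf i) Q 2 le_rfl (by omega))
  have hF0 : ∀ i N, 0 ≤ F i N := fun i N => Nat.cast_nonneg _
  set c : ℝ := min (min c₂ 1) c₄ with hc
  have hc0 : 0 < c := lt_min (lt_min hc₂ one_pos) hc₄
  refine ⟨Q, c, C₃ * ((Lv k Q).card * C₂ + 1) + (Lv k Q).card * C₄,
    max (max N₂ N₄) ⌈Real.exp L₃⌉₊, hQ4, hc0, by positivity, fun N hN => ?_⟩
  have hN2 : N₂ ≤ N := ((le_max_left _ _).trans (le_max_left _ _)).trans hN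
  have hN4 : N₄ ≤ N := ((le_max_right _ _).trans (le_max_left _ _)).trans hN
  have hN3 : 3 ≤ N := hN₂.trans hN2
  have hN0 : (0 : ℝ) < N := by exact_mod_cast (by omega : 0 < N)
  have hNe : Real.exp L₃ ≤ N :=
    (Nat.le_ceil _).trans (by exact_mod_cast (le_max_right _ _).trans hN)
  have hLL : L₃ ≤ Real.log N := (Real.le_log_iff_exp_le hN0).2 hNe
  have hlog1 : 1 ≤ Real.log N := one_le_log hN3
  have hlog0 : 0 < Real.log N := by linarith
  have h1 := hbl N (Real.log N) hLL (Real.exp_log hN0).le (GoodV E 2 Q)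
  have hPN : 1 ≤ P N := hP1 N
  have hPN0 : 0 ≤ P N := by linarith
  have hM : (0 : ℝ) ≤ (Lv k Q).card := Nat.cast_nonneg _
  -- the good level vectors
  have h2 : ∑ μ ∈ (Lv k Q).filter (GoodV E 2 Q),
      ∑ n ∈ Icc 1 (2 ^ k * N), HT.hf (D.HH (Real.log N) Q μ) n ≤
      (Lv k Q).card * (C₂ * (N * Real.log N ^ (-1 - c)) * P N) := by
    have h3 : ∀ μ ∈ (Lv k Q).filter (GoodV E 2 Q),
        ∑ n ∈ Icc 1 (2 ^ k * N), HT.hf (D.HH (Real.log N) Q μ) n ≤
        C₂ * (N * Real.log N ^ (-1 - c)) * P N := by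
      intro μ hμ
      rw [mem_filter] at hμ
      refine (hgood N hN2 μ hμ.1 hμ.2).trans ?_
      exact bound_mono hN3 hC₂ le_rfl ((min_le_left _ _).trans (min_le_left _ _)) hPN0
    refine (sum_le_card_nsmul _ _ _ h3).trans ?_
    rw [nsmul_eq_mul]
    refine mul_le_mul_of_nonneg_right ?_ (by positivity)
    exact Nat.cast_le.2 (card_le_card (filter_subset _ _))
  have h4 : (N : ℝ) * Real.log N ^ (-(2 : ℝ)) ≤ N * Real.log N ^ (-1 - c) * P N := by
    have h8 : (N : ℝ) * Real.log N ^ (-(2 : ℝ)) ≤ N * Real.log N ^ (-1 - c) := by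
      refine mul_le_mul_of_nonneg_left ?_ hN0.le
      exact Real.rpow_le_rpow_of_exponent_le hlog1 (by
        have : c ≤ 1 := (min_le_left _ _).trans (min_le_right _ _)
        linarith)
    exact h8.trans (le_mul_of_one_le_right (by positivity) hPN)
  -- the bad level vectors
  have h5 : ∑ μ ∈ (Lv k Q).filter (fun μ => ¬ GoodV E 2 Q μ),
        (((Icc (-(N : ℤ)) N).filter fun t => Squarefree t ∧
          ∃ r, D.Cls (Real.log N) Q μ t r).card : ℝ) ≤
      (Lv k Q).card * (C₄ * (N * Real.log N ^ (-1 - c)) * P N) := by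
    have h6 : ∀ μ ∈ (Lv k Q).filter (fun μ => ¬ GoodV E 2 Q μ),
        (((Icc (-(N : ℤ)) N).filter fun t => Squarefree t ∧
          ∃ r, D.Cls (Real.log N) Q μ t r).card : ℝ) ≤
        C₄ * (N * Real.log N ^ (-1 - c)) * P N := by
      intro μ hμ
      rw [mem_filter] at hμ
      have h7 := hμ.2
      unfold GoodV at h7
      push Not at h7
      obtain ⟨i, hiE, hiQ, hj⟩ := h7
      have h8 : (((Icc (-(N : ℤ)) N).filter fun t => Squarefree t ∧
          ∃ r, D.Cls (Real.log N) Q μ t r).card : ℝ) ≤ F i N := by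
        refine Nat.cast_le.2 (card_le_card ?_)
        intro t ht
        obtain ⟨htN, hsq, r, hr⟩ := mem_filter.1 ht
        refine mem_filter.2 ⟨htN, hsq, fun p hp => ?_, fun p hp hpz => ?_⟩
        · have g1 : r p ≠ .o := (hr.1.1 p).2 hp
          have g2 : r p ∈ D.Lb univ p := (hr.1.2.1 p).resolve_left g1
          unfold Lb Lbl at g2
          rw [hi, if_neg (by decide), empty_union, mem_biUnion] at g2
          obtain ⟨j, _, g3⟩ := g2
          obtain ⟨a, ha, _⟩ := mem_image.1 g3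
          rw [hR] at ha
          exact hgf j p (Nat.prime_of_mem_primeFactors (mem_filter.1 hp).1) (mem_filter.1 hp).2
            ⟨a, ha⟩
        · rw [← hR]
          exact D.bad_cls hi hlog1 le_rfl (by omega) hr (fun j hji => hj j hji) hp hpz
      have h9 : F i N ≤ ∑ i ∈ E, F i N := single_le_sum (fun i _ => hF0 i N) hiE
      refine (h8.trans h9).trans ((hbad N hN4).trans ?_)
      exact bound_mono hN3 hC₄ le_rfl (min_le_right _ _) hPN0
    refine (sum_le_card_nsmul _ _ _ h6).trans ?_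
    rw [nsmul_eq_mul]
    refine mul_le_mul_of_nonneg_right ?_ (by positivity)
    exact Nat.cast_le.2 (card_le_card (filter_subset _ _))
  refine h1.trans ?_
  have h10 := mul_le_mul_of_nonneg_left (add_le_add h2 h4) hC₃
  refine (add_le_add h10 h5).trans (le_of_eq ?_)
  change _ = _ * P N
  ring

end Sys

end Stoll308.TW
end

section
set_option autoImplicit false

/-!
The primes modulo which `F` has a root and a quadratic factor `q` of `F` has none.
-/

namespace Stoll308.TW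

open Finset Polynomial Stoll308.Gen NumberField

/-- An automorphism which fixes a root of `F` and moves the roots of `q`. -/
theorem exists_aut {L : Type} [Field L] [NumberField L] [IsGalois ℚ L] {q g : ℚ[X]}
    (hqi : Irreducible q) (hq2 : q.natDegree = 2) (hqL : (q.map (algebraMap ℚ L)).Splits)
    (hg : Irreducible g) (hgL : (g.map (algebraMap ℚ L)).Splits)
    (hno : ∀ z : AdjoinRoot g, aeval z q ≠ 0) :
    ∃ σ : L ≃ₐ[ℚ] L, (∃ x : L, aeval x g = 0 ∧ σ x = x) ∧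
      ∀ y : L, aeval y q = 0 → σ y ≠ y := by
  classical
  have hfact : Fact (Irreducible g) := ⟨hg⟩
  -- a root of `g`
  obtain ⟨x, hx⟩ : ∃ x : L, aeval x g = 0 := by
    have hdeg : (g.map (algebraMap ℚ L)).degree ≠ 0 := by
      rw [degree_map]
      exact (degree_pos_of_irreducible hg).ne'
    obtain ⟨x, hx⟩ := hgL.exists_eval_eq_zero hdeg
    exact ⟨x, by rwa [eval_map_algebraMap] at hx⟩
  -- a root of `q`
  obtain ⟨y, hy⟩ : ∃ y : L, aeval y q = 0 := by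
    have hdeg : (q.map (algebraMap ℚ L)).degree ≠ 0 := by
      rw [degree_map]
      exact (degree_pos_of_irreducible hqi).ne'
    obtain ⟨y, hy⟩ := hqL.exists_eval_eq_zero hdeg
    exact ⟨y, by rwa [eval_map_algebraMap] at hy⟩
  -- the embedding of the stem field
  let ψ : AdjoinRoot g →ₐ[ℚ] L := AdjoinRoot.liftAlgHom g (Algebra.ofId ℚ L) x hx
  have hψ : ψ (AdjoinRoot.root g) = x := AdjoinRoot.liftAlgHom_root ..
  have hyK : y ∉ ψ.fieldRange := by
    rintro ⟨z, hz⟩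
    apply hno z
    apply ψ.toRingHom.injective
    change ψ (aeval z q) = ψ 0
    rw [map_zero, ← aeval_algHom_apply]
    have : ψ z = y := hz
    rw [this, hy]
  obtain ⟨σ, hσ, hσy⟩ : ∃ σ ∈ ψ.fieldRange.fixingSubgroup, σ y ≠ y := by
    by_contra hcon
    push Not at hcon
    apply hyK
    rw [← IsGalois.fixedField_fixingSubgroup ψ.fieldRange, IntermediateField.mem_fixedField_iff]
    exact hcon
  refine ⟨σ, ⟨x, hx, ?_⟩, ?_⟩
  · rw [IntermediateField.mem_fixingSubgroup_iff] at hσ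
    exact hσ x ⟨AdjoinRoot.root g, hψ⟩
  · intro y' hy' hfix
    by_cases h1 : y' = y
    · exact hσy (h1 ▸ hfix)
    · -- three roots
      have h2 : aeval (σ y) q = 0 := by
        have := aeval_algHom_apply (σ : L →ₐ[ℚ] L) y q
        change aeval (σ y) q = σ (aeval y q) at this
        rw [this, hy, map_zero]
      have h3 : σ y ≠ y' := by
        intro h4
        rw [← hfix] at h4
        exact h1 (σ.injective h4).symm
      have hq0 : q.map (algebraMap ℚ L) ≠ 0 := (Polynomial.map_ne_zero_iff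
        (algebraMap ℚ L).injective).2 hqi.ne_zero
      have hmem : ∀ z : L, aeval z q = 0 → z ∈ (q.map (algebraMap ℚ L)).roots.toFinset := by
        intro z hz
        rw [Multiset.mem_toFinset, mem_roots hq0, IsRoot.def, eval_map_algebraMap]
        exact hz
      have hsub : ({y, y', σ y} : Finset L) ⊆ (q.map (algebraMap ℚ L)).roots.toFinset := by
        intro z hz
        rw [mem_insert, mem_insert, mem_singleton] at hz
        rcases hz with rfl | rfl | rfl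
        · exact hmem _ hy
        · exact hmem _ hy'
        · exact hmem _ h2
      have hc := card_le_card hsub
      have hc3 : ({y, y', σ y} : Finset L).card = 3 := by
        rw [card_insert_of_notMem, card_insert_of_notMem, card_singleton]
        · rw [mem_singleton]; exact h3.symm
        · rw [mem_insert, mem_singleton]
          rintro (h | h)
          · exact h1 h.symm
          · exact hσy h.symm
      have hc4 : (q.map (algebraMap ℚ L)).roots.toFinset.card ≤ 2 := by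
        refine (Multiset.toFinset_card_le _).trans ?_
        refine (card_roots' _).trans ?_
        rw [natDegree_map, hq2]
      omega

open Stoll308.Cheb Stoll308.MeanSum Pool.Agent.Work.MP_2b9663_nt in
/-- Mertens from below, from the mean value of a function of the primes. -/
private theorem lowMert_of_MV {c : Nat.Primes → ℝ} {κ : ℝ} (hκ0 : 0 < κ) (hMV : MV c κ)
    (hc1 : ∀ p, c p ≤ 1) {N : ℕ} (hN : N ≠ 0) (Sp : ℕ → Prop)
    (hgood : ∀ p : Nat.Primes, ¬ (p : ℕ) ∣ N → 0 < c p → Sp p) : LowMert Sp := by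
  classical
  obtain ⟨C, hC, hM⟩ := mertens hMV
  refine ⟨κ, 2 * C + ∑ p ∈ N.primeFactors, 1 / (p : ℝ) + 1 + κ, hκ0, fun x y hx hxy => ?_⟩
  have hy : 3 ≤ y := hx.trans hxy
  have hX3 : 3 ≤ ⌊x⌋₊ := Nat.le_floor (by exact_mod_cast hx)
  have hY3 : 3 ≤ ⌊y⌋₊ := Nat.le_floor (by exact_mod_cast hy)
  have h1 := (abs_le.1 (hM ⌊x⌋₊ hX3)).2
  have h2 := (abs_le.1 (hM ⌊y⌋₊ hY3)).1
  have hXY : ⌊x⌋₊ ≤ ⌊y⌋₊ := Nat.floor_mono hxy
  -- the sum over the interval
  have h3 : ∑ p ∈ PR ⌊y⌋₊, ex c p / p - ∑ p ∈ PR ⌊x⌋₊, ex c p / p =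
      ∑ p ∈ (PR ⌊y⌋₊) \ (PR ⌊x⌋₊), ex c p / p := by
    rw [sum_sdiff_eq_sub]
    intro p hp
    rw [mem_PR] at hp ⊢
    exact ⟨hp.1, hp.2.trans hXY⟩
  have h4 : ∑ p ∈ (PR ⌊y⌋₊) \ (PR ⌊x⌋₊), ex c p / p ≤
      (∑ p ∈ (Icc 1 ⌊y⌋₊).filter (fun p : ℕ => p.Prime ∧ x < (p : ℝ) ∧ Sp p), 1 / (p : ℝ)) +
        ∑ p ∈ N.primeFactors, 1 / (p : ℝ) := by
    rw [← sum_filter_add_sum_filter_not ((PR ⌊y⌋₊) \ (PR ⌊x⌋₊)) (fun p : ℕ => ¬ p ∣ N)]
    apply add_le_add
    · have h5 : ∀ p ∈ ((PR ⌊y⌋₊) \ (PR ⌊x⌋₊)).filter (fun p : ℕ => ¬ p ∣ N),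
          ex c p / p ≤ if Sp p then 1 / (p : ℝ) else 0 := by
        intro p hp
        rw [mem_filter, mem_sdiff, mem_PR] at hp
        have hpp := hp.1.1.1
        have h6 : ex c p = c ⟨p, hpp⟩ := ex_apply c ⟨p, hpp⟩
        rw [h6]
        by_cases h7 : 0 < c ⟨p, hpp⟩
        · rw [if_pos (hgood ⟨p, hpp⟩ hp.2 h7)]
          exact div_le_div_of_nonneg_right (hc1 _) (Nat.cast_nonneg p)
        · have h8 : c ⟨p, hpp⟩ / (p : ℝ) ≤ 0 :=
            div_nonpos_of_nonpos_of_nonneg (not_lt.1 h7) (Nat.cast_nonneg p)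
          refine h8.trans ?_
          split_ifs
          · positivity
          · exact le_rfl
      refine (sum_le_sum h5).trans ?_
      rw [← sum_filter]
      apply sum_le_sum_of_subset_of_nonneg
      · intro p hp
        rw [mem_filter, mem_filter, mem_sdiff, mem_PR, mem_PR] at hp
        obtain ⟨⟨⟨⟨hpp, hpy⟩, hpx⟩, _⟩, hR⟩ := hp
        rw [mem_filter, mem_Icc]
        refine ⟨⟨hpp.one_le, hpy⟩, hpp, ?_, hR⟩
        by_contra hcon
        push Not at hcon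
        exact hpx ⟨hpp, Nat.le_floor hcon⟩
      · intro p _ _
        positivity
    · have h5 : ∀ p ∈ ((PR ⌊y⌋₊) \ (PR ⌊x⌋₊)).filter (fun p : ℕ => ¬ ¬ p ∣ N),
          ex c p / p ≤ 1 / (p : ℝ) := by
        intro p hp
        rw [mem_filter, mem_sdiff, mem_PR] at hp
        have hpp := hp.1.1.1
        have h6 : ex c p = c ⟨p, hpp⟩ := ex_apply c ⟨p, hpp⟩
        rw [h6]
        exact div_le_div_of_nonneg_right (hc1 _) (Nat.cast_nonneg p)
      refine (sum_le_sum h5).trans ?_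
      apply sum_le_sum_of_subset_of_nonneg
      · intro p hp
        rw [mem_filter, mem_sdiff, mem_PR, not_not] at hp
        rw [Nat.mem_primeFactors]
        exact ⟨hp.1.1.1, hp.2, hN⟩
      · intro p _ _
        positivity
  -- comparison of the double logarithms
  have hx1 : (3 : ℝ) ≤ ⌊x⌋₊ := by exact_mod_cast hX3
  have hy1 : (3 : ℝ) ≤ ⌊y⌋₊ := by exact_mod_cast hY3
  have hlog3 : 1 ≤ Real.log 3 := by
    have : Real.log (Real.exp 1) ≤ Real.log 3 :=
      Real.log_le_log (Real.exp_pos 1) (Real.exp_one_lt_d9.le.trans (by norm_num))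
    rwa [Real.log_exp] at this
  have h5 : Real.log (Real.log ⌊x⌋₊) ≤ Real.log (Real.log x) := by
    apply Real.log_le_log
    · exact Real.log_pos (by linarith)
    · exact Real.log_le_log (by linarith) (Nat.floor_le (by linarith))
  have h6 : Real.log (Real.log y) - 1 ≤ Real.log (Real.log ⌊y⌋₊) := by
    have h7 : y ≤ 2 * ⌊y⌋₊ := by
      have := Nat.lt_floor_add_one y
      linarith
    have h8 : 1 ≤ Real.log ⌊y⌋₊ := hlog3.trans (Real.log_le_log (by norm_num) hy1)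
    have h9 : Real.log y ≤ 2 * Real.log ⌊y⌋₊ := by
      have h10 : Real.log y ≤ Real.log (2 * ⌊y⌋₊) := Real.log_le_log (by linarith) h7
      rw [Real.log_mul (by norm_num) (by linarith)] at h10
      have h11 : Real.log 2 ≤ 1 := by
        have := Real.log_two_lt_d9
        linarith
      linarith
    have h12 : Real.log (Real.log y) ≤ Real.log (2 * Real.log ⌊y⌋₊) :=
      Real.log_le_log (Real.log_pos (by linarith)) h9
    rw [Real.log_mul (by norm_num) (by linarith)] at h12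
    have h11 : Real.log 2 ≤ 1 := by
      have := Real.log_two_lt_d9
      linarith
    linarith
  have h13 := mul_le_mul_of_nonneg_left h5 hκ0.le
  have h14 := mul_le_mul_of_nonneg_left h6 hκ0.le
  have h15 : κ * (Real.log (Real.log y) - 1) = κ * Real.log (Real.log y) - κ := by ring
  have h16 : κ * (Real.log (Real.log y) - Real.log (Real.log x)) =
    κ * Real.log (Real.log y) - κ * Real.log (Real.log x) := by ring
  rw [h16]
  linarith

/-- The roots of a monic polynomial over `ℤ` in the ring of integers, if it splits. -/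
private theorem exists_roots_int {L : Type} [Field L] [NumberField L] {f : ℤ[X]} (hf : f.Monic)
    (hs : (f.map (Int.castRingHom L)).Splits) (hsep : (f.map (Int.castRingHom L)).Separable) :
    ∃ s : Finset (𝓞 L), (∀ x, x ∈ s ↔ eval₂ (Int.castRingHom (𝓞 L)) x f = 0) ∧
      f.map (Int.castRingHom (𝓞 L)) = ∏ x : s, (X - C x.1) := by
  classical
  have hmon' : (f.map (Int.castRingHom (𝓞 L))).Monic := hf.map _
  have hmem : ∀ x, x ∈ (f.map (Int.castRingHom (𝓞 L))).roots.toFinset ↔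
      eval₂ (Int.castRingHom (𝓞 L)) x f = 0 := by
    intro x
    rw [Multiset.mem_toFinset, mem_roots hmon'.ne_zero, IsRoot.def, eval_map]
  exact ⟨_, hmem, Cheb.factor_of_splits hf hs hsep _ hmem⟩

/-- The Galois group acts on the roots. -/
private theorem smul_root {L : Type} [Field L] [NumberField L] {f : ℤ[X]} (σ : L ≃ₐ[ℚ] L)
    {x : 𝓞 L} (hx : eval₂ (Int.castRingHom (𝓞 L)) x f = 0) :
    eval₂ (Int.castRingHom (𝓞 L)) (σ • x) f = 0 := by
  have h4 := congrArg (MulSemiringAction.toRingHom (L ≃ₐ[ℚ] L) (𝓞 L) σ) hx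
  rw [hom_eval₂, map_zero] at h4
  have h5 : (MulSemiringAction.toRingHom (L ≃ₐ[ℚ] L) (𝓞 L) σ).comp
    (Int.castRingHom (𝓞 L)) = Int.castRingHom (𝓞 L) := RingHom.ext_int _ _
  rw [h5] at h4
  exact h4

open Stoll308.Cheb Stoll308.MeanSum Pool.Agent.Work.MP_2b9663_nt in
open Classical in
/-- The primes modulo which `F` has a root and the quadratic factor `q` has none. -/
theorem lowMert_quad (F q : ℤ[X]) (hF : F.Monic) (hsep : (F.map (Int.castRingHom ℚ)).Separable)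
    (hq : q.Monic) (hq2 : q.natDegree = 2) (hqi : Irreducible (q.map (Int.castRingHom ℚ)))
    (hqF : q ∣ F) {g : ℚ[X]} (hg : Irreducible g) (hgF : g ∣ F.map (Int.castRingHom ℚ))
    (hno : ∀ z : AdjoinRoot g, aeval z (q.map (Int.castRingHom ℚ)) ≠ 0) :
    LowMert fun p => (R F p).Nonempty ∧ ¬ (R q p).Nonempty := by
  obtain ⟨L, _, _, hG, hs0⟩ := exists_splitting (F.map (Int.castRingHom ℚ)) hsep
  have hcomp : ∀ f : ℤ[X], f.map (Int.castRingHom L) =
      (f.map (Int.castRingHom ℚ)).map (algebraMap ℚ L) := by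
    intro f
    rw [Polynomial.map_map]
    congr 1
    exact RingHom.ext_int _ _
  have hF0 : F.map (Int.castRingHom ℚ) ≠ 0 := (hF.map _).ne_zero
  have hF0L : (F.map (Int.castRingHom ℚ)).map (algebraMap ℚ L) ≠ 0 := ((hF.map _).map _).ne_zero
  have hqFQ : q.map (Int.castRingHom ℚ) ∣ F.map (Int.castRingHom ℚ) := Polynomial.map_dvd _ hqF
  have hqL : ((q.map (Int.castRingHom ℚ)).map (algebraMap ℚ L)).Splits :=
    hs0.of_dvd hF0L (Polynomial.map_dvd _ hqFQ)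
  have hgL : (g.map (algebraMap ℚ L)).Splits := hs0.of_dvd hF0L (Polynomial.map_dvd _ hgF)
  have hsepq : (q.map (Int.castRingHom ℚ)).Separable := hsep.of_dvd hqFQ
  obtain ⟨s, hs, hfac⟩ := exists_roots_int (L := L) hF (by rw [hcomp]; exact hs0)
    (by rw [hcomp]; exact Polynomial.Separable.map hsep)
  obtain ⟨s', hs', hfac'⟩ := exists_roots_int (L := L) hq (by rw [hcomp]; exact hqL)
    (by rw [hcomp]; exact Polynomial.Separable.map hsepq)
  obtain ⟨N, hN, hbad⟩ := exists_bad (L := L) (ι := s) (θ := fun x => x.1)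
    Subtype.val_injective
  obtain ⟨N', hN', hbad'⟩ := exists_bad (L := L) (ι := s') (θ := fun x => x.1)
    Subtype.val_injective
  -- the class function
  set φ : (L ≃ₐ[ℚ] L) → ℝ := fun σ =>
    if (∃ x ∈ s, σ • x = x) ∧ ∀ y ∈ s', σ • y ≠ y then 1 else 0 with hφ
  have hstab : ∀ (σ : L ≃ₐ[ℚ] L), ∀ x ∈ s, σ • x ∈ s := fun σ x hx =>
    (hs _).2 (smul_root σ ((hs x).1 hx))
  have hstab' : ∀ (σ : L ≃ₐ[ℚ] L), ∀ x ∈ s', σ • x ∈ s' := fun σ x hx =>
    (hs' _).2 (smul_root σ ((hs' x).1 hx))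
  have hconj : ∀ g σ, φ (g * σ * g⁻¹) = φ σ := by
    intro g σ
    have key : ∀ x : 𝓞 L, (g * σ * g⁻¹) • x = x ↔ σ • (g⁻¹ • x) = g⁻¹ • x := by
      intro x
      rw [mul_smul, mul_smul, smul_eq_iff_eq_inv_smul]
    have h1 : ((∃ x ∈ s, (g * σ * g⁻¹) • x = x) ∧ ∀ y ∈ s', (g * σ * g⁻¹) • y ≠ y) ↔
        ((∃ x ∈ s, σ • x = x) ∧ ∀ y ∈ s', σ • y ≠ y) := by
      constructor
      · rintro ⟨⟨x, hx, hx'⟩, hy⟩
        refine ⟨⟨g⁻¹ • x, hstab _ _ hx, (key x).1 hx'⟩, fun y hy' hc => ?_⟩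
        apply hy (g • y) (hstab' _ _ hy')
        rw [key, inv_smul_smul]
        exact hc
      · rintro ⟨⟨x, hx, hx'⟩, hy⟩
        refine ⟨⟨g • x, hstab _ _ hx, ?_⟩, fun y hy' hc => ?_⟩
        · rw [key, inv_smul_smul]
          exact hx'
        · exact hy (g⁻¹ • y) (hstab' _ _ hy') ((key y).1 hc)
    simp only [hφ, h1]
  have hdiv : ∀ σ τ, Subgroup.zpowers σ = Subgroup.zpowers τ → φ σ = φ τ := by
    intro σ τ h
    have key : ∀ (σ τ : L ≃ₐ[ℚ] L), Subgroup.zpowers σ = Subgroup.zpowers τ → ∀ x : 𝓞 L,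
        σ • x = x → τ • x = x := by
      intro σ τ h x hx
      have h1 : τ ∈ MulAction.stabilizer (L ≃ₐ[ℚ] L) x := by
        have h2 : Subgroup.zpowers σ ≤ MulAction.stabilizer (L ≃ₐ[ℚ] L) x := by
          rw [Subgroup.zpowers_le]
          exact hx
        rw [h] at h2
        exact h2 (Subgroup.mem_zpowers τ)
      exact h1
    have key2 : ∀ x : 𝓞 L, σ • x = x ↔ τ • x = x := fun x =>
      ⟨key σ τ h x, key τ σ h.symm x⟩
    simp only [hφ, ne_eq, key2]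
  have hMV := MV_class L φ hconj hdiv
  -- the mean value is positive
  obtain ⟨σ₀, ⟨x₀, hx₀, hx₀'⟩, hy₀⟩ := exists_aut (L := L) hqi
    (by rw [hq.natDegree_map, hq2]) hqL hg hgL hno
  have hφ0 : φ σ₀ = 1 := by
    simp only [hφ]
    rw [if_pos]
    refine ⟨?_, ?_⟩
    · have hFx : aeval x₀ (F.map (Int.castRingHom ℚ)) = 0 := by
        obtain ⟨u, hu⟩ := hgF
        rw [hu, map_mul, hx₀, zero_mul]
      have hFx' : eval₂ (Int.castRingHom L) x₀ F = 0 := by
        rw [← eval_map, hcomp, eval_map_algebraMap]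
        exact hFx
      have hint : IsIntegral ℤ x₀ := ⟨F, hF, hFx'⟩
      obtain ⟨z, hz⟩ : ∃ z : 𝓞 L, algebraMap (𝓞 L) L z = x₀ := ⟨⟨x₀, hint⟩, rfl⟩
      refine ⟨z, ?_, ?_⟩
      · rw [hs]
        apply RingOfIntegers.coe_injective (K := L)
        have h1 : (algebraMap (𝓞 L) L).comp (Int.castRingHom (𝓞 L)) = Int.castRingHom L :=
          RingHom.ext_int _ _
        rw [map_zero, hom_eval₂, h1, hz]
        exact hFx'
      · apply RingOfIntegers.coe_injective (K := L)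
        change σ₀ (algebraMap (𝓞 L) L z) = algebraMap (𝓞 L) L z
        rw [hz, hx₀']
    · intro y hy hc
      apply hy₀ (algebraMap (𝓞 L) L y)
      · have h1 : (algebraMap (𝓞 L) L).comp (Int.castRingHom (𝓞 L)) = Int.castRingHom L :=
          RingHom.ext_int _ _
        have h2 := congrArg (algebraMap (𝓞 L) L) ((hs' y).1 hy)
        rw [hom_eval₂, h1, map_zero, ← eval_map, hcomp, eval_map_algebraMap] at h2
        exact h2
      · have := congrArg (algebraMap (𝓞 L) L) hc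
        exact this
  have hsum : 0 < ∑ σ, φ σ := by
    have h1 : φ σ₀ ≤ ∑ σ, φ σ := single_le_sum (f := φ) (fun σ _ => by
      simp only [hφ]
      split_ifs <;> norm_num) (mem_univ σ₀)
    rw [hφ0] at h1
    linarith
  have hκ : 0 < (∑ σ, φ σ) / Fintype.card (L ≃ₐ[ℚ] L) := by
    have : 0 < Fintype.card (L ≃ₐ[ℚ] L) := Fintype.card_pos
    positivity
  refine lowMert_of_MV hκ hMV (fun p => ?_) (mul_ne_zero hN hN') _ ?_
  · simp only [hφ]
    split_ifs <;> norm_num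
  · intro p hp hpos
    have hpF : Fact (p : ℕ).Prime := ⟨p.2⟩
    have hp1 : ¬ (p : ℕ) ∣ N := fun h => hp (h.mul_right N')
    have hp2 : ¬ (p : ℕ) ∣ N' := fun h => hp (h.mul_left N)
    have hcond : (∃ x ∈ s, frob L p • x = x) ∧ ∀ y ∈ s', frob L p • y ≠ y := by
      by_contra hcon
      simp only [hφ] at hpos
      rw [if_neg hcon] at hpos
      exact lt_irrefl _ hpos
    obtain ⟨⟨x, hx, hx'⟩, hy⟩ := hcond
    constructor
    · rw [← card_pos, card_R, (frob_spec L p).nroots_eq hfac (hbad p hp1 _ _ (frob_spec L p))]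
      have : Nonempty {i : s // frob L p • i.1 = i.1} := ⟨⟨⟨x, hx⟩, hx'⟩⟩
      exact Nat.card_pos
    · rw [not_nonempty_iff_eq_empty, ← card_eq_zero, card_R,
        (frob_spec L p).nroots_eq hfac' (hbad' p hp2 _ _ (frob_spec L p))]
      have : IsEmpty {i : s' // frob L p • i.1 = i.1} := ⟨fun i => hy i.1.1 i.1.2 i.2⟩
      exact Nat.card_of_isEmpty

end Stoll308.TW
end

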