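import Pool.Agent.Work.BCM.C31
import Pool.Agent.Work.BCM.C40
import Pool.Agent.Work.BCM.C41
import Pool.Agent.Work.BCM.C42
import Pool.Agent.Work.BCM.C43
import Pool.Agent.Work.BCM.C44
import Pool.Agent.Work.BCM.C45
import Pool.Agent.Work.MP_308fa9_nt.EA.Defs

section
set_option autoImplicit false

/-!
All subsets, modulo the primes `Q < p ≤ h`.
-/

namespace Stoll308.EA

open Polynomial Finset BF

variable {s : ℕ} {n : Fin s → ℕ}

open Classical in
theorem mid_primes (hn : ∀ i, 4 ≤ n i) (M Q h : ℕ) (hQ : 2 ≤ Q)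
    (hQM : ∀ p : ℕ, p.Prime → Q < p → ¬ p ∣ M) :
    (((tbox n h).filter fun x => ∃ S : Finset (Fin s), S.Nonempty ∧
      ∃ (p : ℕ) (_ : Fact p.Prime), Q < p ∧ p ≤ h ∧
        SqS (AlgebraicClosure (ZMod p)) (coT (M : ℤ) x) S).card : ℝ) ≤
      4 * (s + 2 ^ s) / Q * (h : ℝ) ^ ∑ i, (n i + 1) := by
  set N : ℕ := ∑ i, (n i + 1) with hN
  have hQM' : ∀ p : ℕ, p.Prime → Q < p → ¬ (p : ℤ) ∣ (M : ℤ) := by
    intro p hp hQp h
    exact hQM p hp hQp (Int.natCast_dvd_natCast.1 h)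
  set U : ℕ → Finset (∀ i, Fin (n i + 1) → ℤ) := fun p =>
    (univ : Finset (Fin s)).biUnion (fun i => (tbox n h).filter fun x =>
      (p : ℤ) ∣ BF.Els.co (M : ℤ) (x i) 0 ∧ (p : ℤ) ∣ BF.Els.co (M : ℤ) (x i) 1) with hU
  set V : ℕ → Finset (∀ i, Fin (n i + 1) → ℤ) := fun p =>
    ((univ : Finset (Finset (Fin s))).filter fun S => S.Nonempty).biUnion
      fun S => SB n (M : ℤ) h p S with hV
  have hsub : ((tbox n h).filter fun x => ∃ S : Finset (Fin s), S.Nonempty ∧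
      ∃ (p : ℕ) (_ : Fact p.Prime), Q < p ∧ p ≤ h ∧
        SqS (AlgebraicClosure (ZMod p)) (coT (M : ℤ) x) S) ⊆
      ((Ioc Q h).filter Nat.Prime).biUnion fun p => U p ∪ V p := by
    intro x hx
    rw [mem_filter] at hx
    obtain ⟨hx1, S, hS, p, hp, hpQ, hph, hsq⟩ := hx
    rw [mem_biUnion]
    refine ⟨p, mem_filter.2 ⟨mem_Ioc.2 ⟨hpQ, hph⟩, hp.out⟩, ?_⟩
    rw [mem_union]
    by_cases h1 : ∀ i ∈ S, ¬ ((p : ℤ) ∣ BF.Els.co (M : ℤ) (x i) 0 ∧
        (p : ℤ) ∣ BF.Els.co (M : ℤ) (x i) 1)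
    · right
      rw [hV, mem_biUnion]
      refine ⟨S, mem_filter.2 ⟨mem_univ _, hS⟩, ?_⟩
      rw [SB, mem_filter]
      exact ⟨hx1, h1, hp, hsq⟩
    · left
      push Not at h1
      obtain ⟨i, -, h2⟩ := h1
      rw [hU, mem_biUnion]
      exact ⟨i, mem_univ _, mem_filter.2 ⟨hx1, h2⟩⟩
  have hpt : ∀ p ∈ (Ioc Q h).filter Nat.Prime,
      (((U p ∪ V p).card : ℕ) : ℝ) ≤ (4 * (s + 2 ^ s) * (h : ℝ) ^ N) * ((p : ℝ) ^ 2)⁻¹ := by
    intro p hp
    rw [mem_filter, mem_Ioc] at hp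
    have hp2 : p ≠ 2 := by omega
    have e1 : ((U p).card : ℝ) ≤ s * (4 / (p : ℝ) ^ 2 * (h : ℝ) ^ N) := by
      have h1 : (U p).card ≤ ∑ i : Fin s, ((tbox n h).filter fun x =>
          (p : ℤ) ∣ BF.Els.co (M : ℤ) (x i) 0 ∧ (p : ℤ) ∣ BF.Els.co (M : ℤ) (x i) 1).card :=
        card_biUnion_le
      have h2 : ((U p).card : ℝ) ≤ ∑ i : Fin s, (((tbox n h).filter fun x =>
          (p : ℤ) ∣ BF.Els.co (M : ℤ) (x i) 0 ∧ (p : ℤ) ∣ BF.Els.co (M : ℤ) (x i) 1).card : ℝ) := by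
        exact_mod_cast h1
      refine h2.trans ((sum_le_sum fun i _ =>
        card_two_lead hn hp.2 (hQM' p hp.2 hp.1.1) hp.1.2 i).trans (le_of_eq ?_))
      rw [sum_const, card_univ, Fintype.card_fin, nsmul_eq_mul]
    have e2 : ((V p).card : ℝ) ≤ 2 ^ s * (4 / (p : ℝ) ^ 2 * (h : ℝ) ^ N) := by
      have h1 : (V p).card ≤ ∑ S ∈ (univ : Finset (Finset (Fin s))).filter fun S => S.Nonempty,
          (SB n (M : ℤ) h p S).card := card_biUnion_le
      have h2 : ((V p).card : ℝ) ≤ ∑ S ∈ (univ : Finset (Finset (Fin s))).filter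
          fun S => S.Nonempty, ((SB n (M : ℤ) h p S).card : ℝ) := by
        exact_mod_cast h1
      refine h2.trans ((sum_le_sum fun S hS => card_SB hn hp.2 hp2 (hQM' p hp.2 hp.1.1) hp.1.2 S
        (mem_filter.1 hS).2).trans ?_)
      rw [sum_const, nsmul_eq_mul]
      refine mul_le_mul_of_nonneg_right ?_ (by positivity)
      have h3 : ((univ : Finset (Finset (Fin s))).filter fun S => S.Nonempty).card ≤ 2 ^ s := by
        refine (card_filter_le _ _).trans (le_of_eq ?_)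
        rw [card_univ, Fintype.card_finset, Fintype.card_fin]
      exact_mod_cast h3
    have e3 : (((U p ∪ V p).card : ℕ) : ℝ) ≤ ((U p).card : ℝ) + ((V p).card : ℝ) := by
      exact_mod_cast card_union_le _ _
    calc (((U p ∪ V p).card : ℕ) : ℝ) ≤ ((U p).card : ℝ) + ((V p).card : ℝ) := e3
      _ ≤ s * (4 / (p : ℝ) ^ 2 * (h : ℝ) ^ N) + 2 ^ s * (4 / (p : ℝ) ^ 2 * (h : ℝ) ^ N) :=
          add_le_add e1 e2
      _ = (4 * (s + 2 ^ s) * (h : ℝ) ^ N) * ((p : ℝ) ^ 2)⁻¹ := by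
          rw [div_eq_mul_inv]
          ring
  have hsum : ∑ p ∈ Ioc Q h, (((p : ℕ) : ℝ) ^ 2)⁻¹ ≤ (Q : ℝ)⁻¹ := by
    rcases le_total Q h with hQh | hQh
    · have h1 := sum_Ioc_inv_sq_le_sub (α := ℝ) (k := Q) (n := h) (by omega) hQh
      have h2 : (0 : ℝ) ≤ (((h : ℕ) : ℕ) : ℝ)⁻¹ := by positivity
      linarith
    · rw [Ioc_eq_empty_of_le hQh, sum_empty]
      positivity
  have hcard : (((tbox n h).filter fun x => ∃ S : Finset (Fin s), S.Nonempty ∧
      ∃ (p : ℕ) (_ : Fact p.Prime), Q < p ∧ p ≤ h ∧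
        SqS (AlgebraicClosure (ZMod p)) (coT (M : ℤ) x) S).card : ℝ) ≤
      ∑ p ∈ (Ioc Q h).filter Nat.Prime, (((U p ∪ V p).card : ℕ) : ℝ) := by
    exact_mod_cast (card_le_card hsub).trans card_biUnion_le
  calc _ ≤ ∑ p ∈ (Ioc Q h).filter Nat.Prime, (((U p ∪ V p).card : ℕ) : ℝ) := hcard
    _ ≤ ∑ p ∈ (Ioc Q h).filter Nat.Prime, (4 * (s + 2 ^ s) * (h : ℝ) ^ N) * ((p : ℝ) ^ 2)⁻¹ :=
        sum_le_sum hpt
    _ ≤ ∑ p ∈ Ioc Q h, (4 * (s + 2 ^ s) * (h : ℝ) ^ N) * ((p : ℝ) ^ 2)⁻¹ :=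
        sum_le_sum_of_subset_of_nonneg (filter_subset _ _) fun p _ _ => by positivity
    _ = (4 * (s + 2 ^ s) * (h : ℝ) ^ N) * ∑ p ∈ Ioc Q h, (((p : ℕ) : ℝ) ^ 2)⁻¹ := by
        rw [mul_sum]
    _ ≤ (4 * (s + 2 ^ s) * (h : ℝ) ^ N) * (Q : ℝ)⁻¹ :=
        mul_le_mul_of_nonneg_left hsum (by positivity)
    _ = 4 * (s + 2 ^ s) / Q * (h : ℝ) ^ N := by
        rw [div_eq_mul_inv]
        ring

end Stoll308.EA
end

section
set_option autoImplicit false

/-!
A positive proportion of the curves is smooth and everywhere locally soluble.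
-/

namespace Stoll308.EA

open Polynomial Finset BF

variable {s : ℕ} {n : Fin s → ℕ}

lemma card_tbox (h : ℕ) : ((tbox n h).card : ℝ) = (h : ℝ) ^ ∑ i, (n i + 1) := by
  rw [tbox, Fintype.card_piFinset, prod_congr rfl fun i _ => BF.Els.card_box (n i + 1) h,
    prod_pow_eq_pow_sum]
  push_cast
  rfl

lemma coT_inj {M : ℤ} (hM : M ≠ 0) : Function.Injective (coT (n := n) M) := by
  intro x y hxy
  funext i k
  have h1 := congrFun (congrFun hxy i) k
  exact BF.Els.co_inj hM h1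

theorem els_half (hs : 2 ≤ s) (hn : ∀ i, 4 ≤ n i) (he : ∀ i, Even (n i)) :
    ∃ c₀ : ℝ, 0 < c₀ ∧ ∃ H₀ : ℕ, ∀ H : ℕ, H₀ ≤ H →
      c₀ * H ^ ∑ i, (n i + 1) ≤
        (cnt n (fun a => Smooth a ∧ (∀ (p : ℕ) [Fact p.Prime], Full a ℚ_[p]) ∧ Full a ℝ) H : ℝ) := by
  classical
  obtain ⟨N, hN⟩ : ∃ N : ℕ, N = ∑ i, (n i + 1) := ⟨_, rfl⟩
  obtain ⟨Q, hQ⟩ : ∃ Q : ℕ, Q = (2 ^ s * (∑ i, n i + 1)) ^ 2 + 16 * (s + 2 ^ s) + 2 := ⟨_, rfl⟩
  have hQ2 : 2 ≤ Q := by omega
  obtain ⟨M, hM⟩ : ∃ M : ℕ, M = 8 * Q.factorial := ⟨_, rfl⟩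
  have hM0 : 0 < M := by
    rw [hM]
    exact Nat.mul_pos (by norm_num) (Nat.factorial_pos _)
  have hMz : (0 : ℤ) < (M : ℤ) := by exact_mod_cast hM0
  have hMr : (0 : ℝ) < M := by exact_mod_cast hM0
  have hQM : ∀ p : ℕ, p.Prime → Q < p → ¬ p ∣ M := by
    intro p hp hQp h
    rw [hM] at h
    rcases (hp.dvd_mul).1 h with h | h
    · have h2 : p ∣ 2 ^ 3 := by norm_num; exact h
      have := Nat.le_of_dvd (by norm_num) (hp.dvd_of_dvd_pow h2)
      omega
    · have := (hp.dvd_factorial).1 h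
      omega
  obtain ⟨h₁, hL⟩ := large_primes hn he M hM0 (1 / 4) (by norm_num)
  obtain ⟨H₂, hS⟩ := smooth_small hs hn (1 / (4 * (4 * M) ^ N)) (by positivity)
  refine ⟨1 / (4 * (4 * M) ^ N), by positivity, max H₂ (4 * M * (h₁ + 2)), ?_⟩
  intro H hH
  have hH2 : H₂ ≤ H := (le_max_left _ _).trans hH
  have hH1 : 4 * M * (h₁ + 2) ≤ H := (le_max_right _ _).trans hH
  obtain ⟨h, hh⟩ : ∃ h : ℕ, h = H / M - 1 := ⟨_, rfl⟩
  have hHM : 4 * (h₁ + 2) ≤ H / M := by
    rw [Nat.le_div_iff_mul_le hM0]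
    calc _ = 4 * M * (h₁ + 2) := by ring
      _ ≤ H := hH1
  have hh1 : h₁ ≤ h := by omega
  have hh0 : 1 ≤ h := by omega
  have hMh : M * (h + 1) ≤ H := by
    have : h + 1 = H / M := by omega
    rw [this]
    exact Nat.mul_div_le H M
  have hhH : (H : ℝ) / (4 * M) ≤ h := by
    have h1 : H < M * (H / M + 1) := Nat.lt_mul_div_succ H hM0
    have h2 : H / M + 1 ≤ 4 * h := by omega
    have h3 : H ≤ M * (4 * h) := h1.le.trans (Nat.mul_le_mul_left _ h2)
    rw [div_le_iff₀ (by positivity)]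
    have h4 : (H : ℝ) ≤ M * (4 * h) := by exact_mod_cast h3
    linarith
  set b1 := (tbox n h).filter fun x => ∃ S : Finset (Fin s), S.Nonempty ∧
      ∃ (p : ℕ) (_ : Fact p.Prime), Q < p ∧ p ≤ h ∧
        SqS (AlgebraicClosure (ZMod p)) (coT (M : ℤ) x) S with hb1
  set b2 := (tbox n h).filter fun x => ∃ S : Finset (Fin s), S.Nonempty ∧
        ∃ (p : ℕ) (_ : Fact p.Prime), h < p ∧ p ≠ 2 ∧ ¬ p ∣ M ∧
          SqS (AlgebraicClosure (ZMod p)) (coT (M : ℤ) x) S with hb2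
  have c1 : (b1.card : ℝ) ≤ 1 / 4 * (h : ℝ) ^ N := by
    have h1 := mid_primes hn M Q h hQ2 hQM
    rw [← hN] at h1
    refine h1.trans (mul_le_mul_of_nonneg_right ?_ (by positivity))
    have hQr : (16 * (s + 2 ^ s) : ℝ) ≤ Q := by
      have : 16 * (s + 2 ^ s) ≤ Q := by omega
      exact_mod_cast this
    have hQ0 : (0 : ℝ) < Q := by
      have : 0 < Q := by omega
      exact_mod_cast this
    rw [div_le_iff₀ hQ0]
    linarith
  have c2 : (b2.card : ℝ) ≤ 1 / 4 * (h : ℝ) ^ N := by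
    have h1 := hL h hh1
    rw [← hN] at h1
    exact h1
  set G := tbox n h \ (b1 ∪ b2) with hG
  have cG : 1 / 2 * (h : ℝ) ^ N ≤ G.card := by
    have h1 : (tbox n h).card ≤ G.card + (b1.card + b2.card) := by
      have h2 : (tbox n h).card ≤ G.card + (b1 ∪ b2).card := by
        rw [hG]
        exact card_le_card_sdiff_add_card
      have h3 : (b1 ∪ b2).card ≤ b1.card + b2.card := card_union_le b1 b2
      omega
    have h2 : ((tbox n h).card : ℝ) ≤ G.card + (b1.card + b2.card) := by exact_mod_cast h1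
    rw [card_tbox, ← hN] at h2
    linarith
  have hpos : ∀ x ∈ tbox n h, ∀ i k, 1 ≤ x i k ∧ x i k ≤ h := by
    intro x hx i k
    exact BF.Els.pos_of_box (Fintype.mem_piFinset.1 hx i) k
  have hbox : ∀ x ∈ tbox n h, ∀ i k, |coT (M : ℤ) x i k| ≤ (H : ℤ) := by
    intro x hx i k
    have h1 := DQ.co_size hM0 (Fintype.mem_piFinset.1 hx i) k
    have h2 : ((M * (h + 1) : ℕ) : ℤ) ≤ (H : ℤ) := by exact_mod_cast hMh
    push_cast at h2
    rw [coT, abs_of_pos h1.1]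
    exact h1.2.trans h2
  have hlast : ∀ x ∈ tbox n h, ∀ i, (M : ℤ) ∣ coT (M : ℤ) x i (Fin.last (n i)) - 1 ∧
      0 < coT (M : ℤ) x i (Fin.last (n i)) := by
    intro x hx i
    have h1 := hpos x hx i (Fin.last (n i))
    unfold coT BF.Els.co
    rw [if_pos (Fin.val_last _), add_sub_cancel_right]
    refine ⟨dvd_mul_right _ _, ?_⟩
    have : 0 ≤ (M : ℤ) * x i (Fin.last (n i)) := mul_nonneg hMz.le (by linarith [h1.1])
    linarith
  set F : (∀ i, Fin (n i + 1) → ℤ) → Prop := fun a =>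
    (∀ (p : ℕ) [Fact p.Prime], Full a ℚ_[p]) ∧ Full a ℝ with hF
  have hfull : ∀ x ∈ G, F (coT (M : ℤ) x) := by
    intro x hx
    rw [hG, mem_sdiff, mem_union, not_or] at hx
    obtain ⟨hx, hx1, hx2⟩ := hx
    rw [hb1, mem_filter, not_and] at hx1
    rw [hb2, mem_filter, not_and] at hx2
    have hx1' := hx1 hx
    have hx2' := hx2 hx
    refine ⟨fun p hp => ?_, full_real _ fun i => (hlast x hx i).2⟩
    by_cases hpQ : p ≤ Q
    · refine full_small _ fun i => dvd_trans ?_ (hlast x hx i).1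
      rw [Int.natCast_dvd_natCast, hM]
      exact Nat.mul_dvd_mul_left 8 (Nat.dvd_factorial hp.out.pos hpQ)
    · push Not at hpQ
      refine full_good (by omega) (by omega) _ fun S hS hsq => ?_
      by_cases hph : p ≤ h
      · exact hx1' ⟨S, hS, p, hp, hpQ, hph, hsq⟩
      · exact hx2' ⟨S, hS, p, hp, by omega, by omega, hQM p hp.out hpQ, hsq⟩
  have hcF : (G.card : ℝ) ≤ cnt n F H := by
    have h1 : G.card ≤ cnt n F H := by
      unfold cnt
      apply card_le_card_of_injOn (coT (M : ℤ))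
      · intro x hx
        have hxt := (mem_sdiff.1 hx).1
        rw [mem_coe]
        refine (@mem_filter _ _ (_) _ _).2 ⟨?_, hfull x hx⟩
        rw [Fintype.mem_piFinset]
        exact fun i => mem_hbox.2 fun k => hbox x hxt i k
      · exact (coT_inj hMz.ne').injOn
    exact_mod_cast h1
  have hsplit : (cnt n F H : ℝ) ≤ cnt n (fun a => Smooth a ∧ F a) H +
      cnt n (fun a => ¬ Smooth a) H := by
    have h1 : cnt n F H ≤ cnt n (fun a => Smooth a ∧ F a) H + cnt n (fun a => ¬ Smooth a) H := by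
      refine (cnt_mono H ?_).trans (cnt_or _ _ H)
      intro a _ ha
      by_cases hsm : Smooth a
      · exact Or.inl ⟨hsm, ha⟩
      · exact Or.inr hsm
    exact_mod_cast h1
  have hSm := hS H hH2
  rw [← hN] at hSm ⊢
  have hpow : ((H : ℝ) / (4 * M)) ^ N ≤ (h : ℝ) ^ N := pow_le_pow_left₀ (by positivity) hhH N
  rw [div_pow] at hpow
  have e1 : 1 / (4 * (4 * (M : ℝ)) ^ N) * H ^ N = 1 / 4 * ((H : ℝ) ^ N / (4 * M) ^ N) := by
    field_simp
  rw [e1] at hSm ⊢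
  linarith

end Stoll308.EA
end

section
set_option autoImplicit false

/-!
The primes which divide one of the twists: three of the polynomials have a common zero.
-/

namespace Stoll308.EA

open Polynomial Finset BF

/-- The three polynomials have a common zero modulo `p` (or they all have smaller degree). -/
def Three (p : ℕ) {n m k : ℕ} (a : Fin (n + 1) → ℤ) (b : Fin (m + 1) → ℤ)
    (c : Fin (k + 1) → ℤ) : Prop :=
  ((p : ℤ) ∣ a 0 ∧ (p : ℤ) ∣ b 0 ∧ (p : ℤ) ∣ c 0) ∨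
    ∃ x : ℤ, (p : ℤ) ∣ (GZ ℤ a).eval x ∧ (p : ℤ) ∣ (GZ ℤ b).eval x ∧ (p : ℤ) ∣ (GZ ℤ c).eval x

lemma val_sq {p : ℕ} [Fact p.Prime] {x : ℚ_[p]} (hx : x ≠ 0) (h : IsSquare x) :
    Even x.valuation := by
  obtain ⟨y, rfl⟩ := h
  have hy : y ≠ 0 := fun h0 => hx (by rw [h0, mul_zero])
  rw [Padic.valuation_mul hy hy]
  exact ⟨_, rfl⟩

lemma val_prod {p : ℕ} [Fact p.Prime] {ι : Type*} (S : Finset ι) (f : ι → ℚ_[p])
    (hf : ∀ i ∈ S, f i ≠ 0) : (∏ i ∈ S, f i).valuation = ∑ i ∈ S, (f i).valuation := by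
  classical
  induction S using Finset.induction_on with
  | empty => simp
  | insert a S ha ih =>
    rw [prod_insert ha, sum_insert ha, Padic.valuation_mul (hf a (mem_insert_self _ _))
      (prod_ne_zero_iff.2 fun i hi => hf i (mem_insert_of_mem hi)),
      ih fun i hi => hf i (mem_insert_of_mem hi)]

lemma val_sqfree {p : ℕ} [hp : Fact p.Prime] {m : ℤ} (hm : Squarefree m) :
    ((m : ℤ) : ℚ_[p]).valuation = if (p : ℤ) ∣ m then 1 else 0 := by
  rw [Padic.valuation_intCast]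
  split_ifs with h
  · obtain ⟨q, rfl⟩ := h
    have hq : q ≠ 0 := fun h0 => hm.ne_zero (by rw [h0, mul_zero])
    have hpq : ¬ (p : ℤ) ∣ q := by
      rintro ⟨z, rfl⟩
      have h1 := hm (p : ℤ) ⟨z, by ring⟩
      have h2 := Nat.prime_iff_prime_int.1 hp.out
      exact h2.not_isUnit h1
    rw [padicValInt.mul (by exact_mod_cast hp.out.ne_zero) hq, padicValInt.self hp.out.one_lt,
      padicValInt.eq_zero_of_not_dvd hpq]
    norm_num
  · rw [padicValInt.eq_zero_of_not_dvd h]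
    norm_num

/-- The norm of a value with a pole. -/
lemma norm_large {n : ℕ} {p : ℕ} [hp : Fact p.Prime] (a : Fin (n + 1) → ℤ) (t : ℚ_[p])
    (ht : 1 < ‖t‖) (ha : ¬ (p : ℤ) ∣ a 0) : ‖(GZ ℚ_[p] a).eval t‖ = ‖t‖ ^ n := by
  rw [BF.Els.gz_eval, Fin.sum_univ_succ]
  have h0 : ‖((a 0 : ℤ) : ℚ_[p]) * t ^ (n - ((0 : Fin (n + 1)) : ℕ))‖ = ‖t‖ ^ n := by
    rw [norm_mul, norm_pow]
    have h1 : ‖((a 0 : ℤ) : ℚ_[p])‖ = 1 := by
      refine le_antisymm (Padic.norm_int_le_one _) (not_lt.1 fun h => ha ?_)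
      rwa [Padic.norm_intCast_lt_one_iff] at h
    rw [h1, one_mul]
    simp
  rcases Nat.eq_zero_or_pos n with hn | hn
  · subst hn
    simpa using h0
  have h1 : ‖∑ i : Fin n, ((a i.succ : ℤ) : ℚ_[p]) * t ^ (n - ((i.succ : Fin (n + 1)) : ℕ))‖ ≤
      ‖t‖ ^ (n - 1) := by
    refine IsUltrametricDist.norm_sum_le_of_forall_le_of_nonneg (by positivity) fun i _ => ?_
    rw [norm_mul, norm_pow]
    calc ‖((a i.succ : ℤ) : ℚ_[p])‖ * ‖t‖ ^ (n - ((i.succ : Fin (n + 1)) : ℕ))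
        ≤ 1 * ‖t‖ ^ (n - 1) := by
          refine mul_le_mul (Padic.norm_int_le_one _) ?_ (by positivity) zero_le_one
          refine pow_le_pow_right₀ ht.le ?_
          rw [Fin.val_succ]
          omega
      _ = _ := one_mul _
  have h2 : ‖t‖ ^ (n - 1) < ‖t‖ ^ n := pow_lt_pow_right₀ ht (by omega)
  rw [Padic.add_eq_max_of_ne (by rw [h0]; exact (h1.trans_lt h2).ne'), h0,
    max_eq_left (h1.trans h2.le)]

lemma even_large {n : ℕ} (hn : Even n) {p : ℕ} [hp : Fact p.Prime] (a : Fin (n + 1) → ℤ)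
    (t : ℚ_[p]) (ht : 1 < ‖t‖) (ha : ¬ (p : ℤ) ∣ a 0) (h0 : (GZ ℚ_[p] a).eval t ≠ 0) :
    Even ((GZ ℚ_[p] a).eval t).valuation := by
  have ht0 : t ≠ 0 := fun h => by
    rw [h, norm_zero] at ht
    linarith
  have h1 := norm_large a t ht ha
  rw [← norm_pow, Padic.norm_eq_zpow_neg_valuation h0,
    Padic.norm_eq_zpow_neg_valuation (pow_ne_zero _ ht0), Padic.valuation_pow] at h1
  have h2 : (1 : ℝ) < p := by exact_mod_cast hp.out.one_lt
  have h3 := zpow_right_injective₀ (by linarith) h2.ne' h1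
  have h4 : ((GZ ℚ_[p] a).eval t).valuation = n * t.valuation := by
    have h5 : -((GZ ℚ_[p] a).eval t).valuation = -(n * t.valuation) := h3
    linarith
  rw [h4]
  obtain ⟨k, rfl⟩ := hn
  exact ⟨k * t.valuation, by push_cast; ring⟩

lemma dvd_small {n : ℕ} {p : ℕ} [hp : Fact p.Prime] (a : Fin (n + 1) → ℤ) (u : ℤ_[p]) (x : ℤ)
    (hx : PadicInt.toZMod u = (x : ZMod p))
    (h0 : ¬ Even ((GZ ℚ_[p] a).eval (u : ℚ_[p])).valuation) : (p : ℤ) ∣ (GZ ℤ a).eval x := by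
  set V : ℤ_[p] := ∑ i : Fin (n + 1), (a i : ℤ_[p]) * u ^ (n - (i : ℕ)) with hV
  have hVc : (V : ℚ_[p]) = (GZ ℚ_[p] a).eval (u : ℚ_[p]) := by
    rw [BF.Els.gz_eval, hV]
    push_cast [PadicInt.coe_sum]
    rfl
  have hVz : PadicInt.toZMod V = 0 := by
    by_contra h
    apply h0
    rw [← hVc]
    have h1 : ‖V‖ = 1 := norm_eq_one_iff_toZMod.2 h
    have h2 : V ≠ 0 := fun h => by
      rw [h, norm_zero] at h1
      exact zero_ne_one h1
    have h3 : ‖(V : ℚ_[p])‖ = 1 := h1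
    rw [Padic.norm_eq_zpow_neg_valuation (PadicInt.coe_ne_zero.2 h2)] at h3
    have h4 : (1 : ℝ) < p := by exact_mod_cast hp.out.one_lt
    have h5 := (zpow_eq_one_iff_right₀ (by linarith) h4.ne').1 h3
    rw [neg_eq_zero] at h5
    rw [h5]
    exact ⟨0, rfl⟩
  have h1 : (((GZ ℤ a).eval x : ℤ) : ZMod p) = 0 := by
    rw [← hVz, hV, GZ, gpol, eval_finsetSum]
    push_cast
    rw [map_sum]
    refine sum_congr rfl fun i _ => ?_
    rw [map_mul, map_pow, map_intCast, hx]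
    simp
  exact (ZMod.intCast_zmod_eq_zero_iff_dvd _ _).1 h1

theorem three_of_dvd {r s : ℕ} {n : Fin s → ℕ} (he : ∀ i, Even (n i))
    {R : Fin r → Finset (Fin s)} (hR : Sep R) (a : ∀ i, Fin (n i + 1) → ℤ) (p : ℕ)
    [Fact p.Prime] (t : ℚ_[p]) (ht : Pt R a ℚ_[p] t) (m : Fin s → ℤ)
    (hm : ∀ i, Squarefree (m i))
    (hmt : ∀ i, IsSquare (((m i : ℤ) : ℚ_[p]) * (GZ ℚ_[p] (a i)).eval t)) (i : Fin s)
    (hi : (p : ℤ) ∣ m i) :
    ∃ i₁ i₂ i₃, i₁ ≠ i₂ ∧ i₁ ≠ i₃ ∧ i₂ ≠ i₃ ∧ Three p (a i₁) (a i₂) (a i₃) := by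
  classical
  have hpar : ∀ k, Even ((if (p : ℤ) ∣ m k then (1 : ℤ) else 0) +
      ((GZ ℚ_[p] (a k)).eval t).valuation) := by
    intro k
    have h1 : ((m k : ℤ) : ℚ_[p]) ≠ 0 := Int.cast_ne_zero.2 (hm k).ne_zero
    have h2 := val_sq (mul_ne_zero h1 (ht.1 k)) (hmt k)
    rwa [Padic.valuation_mul h1 (ht.1 k), val_sqfree (hm k)] at h2
  have hodd : ∀ k, (p : ℤ) ∣ m k → ¬ Even ((GZ ℚ_[p] (a k)).eval t).valuation := by
    intro k hk he'
    have h1 := hpar k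
    rw [if_pos hk] at h1
    have h2 := (Int.even_add.1 h1).2 he'
    exact absurd h2 (by decide)
  have hcard : ∀ j, Even ((R j).filter fun k => (p : ℤ) ∣ m k).card := by
    intro j
    have h1 := val_sq (prod_ne_zero_iff.2 fun i _ => ht.1 i) (ht.2 j)
    rw [val_prod _ _ fun i _ => ht.1 i] at h1
    have h2 : Even (∑ k ∈ R j, ((if (p : ℤ) ∣ m k then (1 : ℤ) else 0) +
        ((GZ ℚ_[p] (a k)).eval t).valuation)) := Finset.even_sum _ fun k _ => hpar k
    rw [sum_add_distrib, Int.even_add] at h2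
    have h3 := h2.2 h1
    rw [sum_boole] at h3
    exact_mod_cast h3
  set S : Finset (Fin s) := univ.filter fun k => (p : ℤ) ∣ m k with hS
  have hmem : ∀ k, k ∈ S ↔ (p : ℤ) ∣ m k := fun k => by simp [hS]
  have hfil : ∀ j, ((R j).filter fun k => (p : ℤ) ∣ m k) = S.filter fun k => k ∈ R j := by
    intro j
    ext k
    simp [hS, and_comm]
  have h3 : 2 < S.card := by
    by_contra hcon
    have h0 : 0 < S.card := card_pos.2 ⟨i, (hmem i).2 hi⟩
    rcases (by omega : S.card = 1 ∨ S.card = 2) with h1 | h2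
    · obtain ⟨k, hk⟩ := card_eq_one.1 h1
      obtain ⟨j, hj⟩ := hR.1 k
      have := hcard j
      rw [hfil, hk, filter_singleton, if_pos hj, card_singleton] at this
      exact absurd this (by decide)
    · obtain ⟨k, l, hkl, hk⟩ := card_eq_two.1 h2
      obtain ⟨j, hj⟩ := hR.2 k l hkl
      have := hcard j
      rw [hfil, hk, filter_insert, filter_singleton] at this
      by_cases hkj : k ∈ R j
      · have hlj : l ∉ R j := fun h => hj ⟨fun _ => h, fun _ => hkj⟩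
        rw [if_pos hkj, if_neg hlj] at this
        simp at this
      · have hlj : l ∈ R j := by
          by_contra h
          exact hj ⟨fun h' => absurd h' hkj, fun h' => absurd h' h⟩
        rw [if_neg hkj, if_pos hlj] at this
        simp at this
  obtain ⟨i₁, h1, i₂, h2, i₃, h3, h12, h13, h23⟩ := two_lt_card.1 h3
  rw [hmem] at h1 h2 h3
  refine ⟨i₁, i₂, i₃, h12, h13, h23, ?_⟩
  rcases le_or_gt ‖t‖ 1 with htn | htn
  · right
    obtain ⟨x, hx⟩ := ZMod.intCast_surjective (PadicInt.toZMod (⟨t, htn⟩ : ℤ_[p]))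
    exact ⟨x, dvd_small _ ⟨t, htn⟩ x hx.symm (hodd _ h1), dvd_small _ ⟨t, htn⟩ x hx.symm
      (hodd _ h2), dvd_small _ ⟨t, htn⟩ x hx.symm (hodd _ h3)⟩
  · left
    refine ⟨?_, ?_, ?_⟩
    · by_contra h
      exact hodd _ h1 (even_large (he _) _ t htn h (ht.1 _))
    · by_contra h
      exact hodd _ h2 (even_large (he _) _ t htn h (ht.1 _))
    · by_contra h
      exact hodd _ h3 (even_large (he _) _ t htn h (ht.1 _))

end Stoll308.EA
end

section
set_option autoImplicit false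

/-!
Few triples of polynomials have a common zero modulo a prime `P < p ≤ H`.
-/

namespace Stoll308.EA

open Polynomial Finset BF

/-- Fibres over all the coordinates but one, which is in a residue class. -/
lemma card_fibre {n : ℕ} (H p : ℕ) (hp : p.Prime) (l : Fin (n + 1))
    (P : (Fin (n + 1) → ℤ) → Prop) [DecidablePred P]
    (h : ∀ a, P a → ∃ v : ℤ, ∀ y, P (Function.update a l y) → (p : ℤ) ∣ y - v) :
    (((hbox n H).filter P).card : ℝ) ≤
      (2 * (H : ℝ) + 1) ^ n * ((2 * (H : ℝ) + 1) / p + 1) := by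
  classical
  have h1 := card_pi_fib (fun _ : Fin (n + 1) => Icc (-(H : ℤ)) (H : ℤ)) l
    ((hbox n H).filter P) (filter_subset _ _) ((2 * (H : ℝ) + 1) / p + 1) (by positivity) (by
      intro a ha
      rw [mem_filter] at ha
      obtain ⟨v, hv⟩ := h a ha.2
      have h2 := BE.ap_card_le (-(H : ℤ) - 1) (H : ℤ) (p : ℤ) v (by exact_mod_cast hp.pos)
        (by omega)
      have h3 : ((Icc (-(H : ℤ)) (H : ℤ)).filter fun y => Function.update a l y ∈
          (hbox n H).filter P) ⊆ (Ioc (-(H : ℤ) - 1) (H : ℤ)).filter fun y => (p : ℤ) ∣ y - v := by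
        intro y hy
        rw [mem_filter, mem_Icc, mem_filter] at hy
        rw [mem_filter, mem_Ioc]
        exact ⟨⟨by omega, hy.1.2⟩, hv y hy.2.2⟩
      have h4 : (((Icc (-(H : ℤ)) (H : ℤ)).filter fun y => Function.update a l y ∈
          (hbox n H).filter P).card : ℝ) ≤
          (((Ioc (-(H : ℤ) - 1) (H : ℤ)).filter fun y => (p : ℤ) ∣ y - v).card : ℝ) := by
        exact_mod_cast card_le_card h3
      refine h4.trans (h2.trans (le_of_eq ?_))
      push_cast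
      ring)
  refine h1.trans (le_of_eq ?_)
  have h2 : ∀ i ∈ ({l}ᶜ : Finset (Fin (n + 1))),
      ((Icc (-(H : ℤ)) (H : ℤ)).card : ℝ) = 2 * (H : ℝ) + 1 := by
    intro i _
    rw [Int.card_Icc]
    have e1 : ((H : ℤ) + 1 - -(H : ℤ)).toNat = 2 * H + 1 := by omega
    rw [e1]
    push_cast
    ring
  rw [prod_congr rfl h2, prod_const, card_compl, Fintype.card_fin, card_singleton,
    Nat.add_sub_cancel, mul_comm]

/-- One linear condition modulo `p`. -/
theorem card_root {n : ℕ} (H p : ℕ) (hp : p.Prime) (x : ℤ) :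
    (((hbox n H).filter fun a => (p : ℤ) ∣ (GZ ℤ a).eval x).card : ℝ) ≤
      (2 * (H : ℝ) + 1) ^ n * ((2 * (H : ℝ) + 1) / p + 1) := by
  classical
  apply card_fibre H p hp (Fin.last n)
  intro a ha
  refine ⟨a (Fin.last n), fun y hy => ?_⟩
  have h1 : ∀ b : Fin (n + 1) → ℤ, (GZ ℤ b).eval x =
      ∑ i : Fin n, b i.castSucc * x ^ (n - (i : ℕ)) + b (Fin.last n) := by
    intro b
    rw [BF.Els.gz_eval, Fin.sum_univ_castSucc]
    simp
  rw [h1] at ha hy
  have h2 := dvd_sub hy ha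
  have h3 : ∑ i : Fin n, Function.update a (Fin.last n) y i.castSucc * x ^ (n - (i : ℕ)) =
      ∑ i : Fin n, a i.castSucc * x ^ (n - (i : ℕ)) := by
    refine sum_congr rfl fun i _ => ?_
    rw [Function.update_of_ne (Fin.castSucc_lt_last i).ne]
  rw [h3, Function.update_self] at h2
  have h4 : ∑ i : Fin n, a i.castSucc * x ^ (n - (i : ℕ)) + y -
      (∑ i : Fin n, a i.castSucc * x ^ (n - (i : ℕ)) + a (Fin.last n)) = y - a (Fin.last n) := by
    ring
  rwa [h4] at h2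

/-- The leading coefficient is divisible by `p`. -/
theorem card_lead {n : ℕ} (H p : ℕ) (hp : p.Prime) :
    (((hbox n H).filter fun a => (p : ℤ) ∣ a 0).card : ℝ) ≤
      (2 * (H : ℝ) + 1) ^ n * ((2 * (H : ℝ) + 1) / p + 1) := by
  classical
  apply card_fibre H p hp 0
  intro a _
  refine ⟨0, fun y hy => ?_⟩
  rw [Function.update_self] at hy
  rwa [sub_zero]

/-- A large box. -/
lemma le_two {n H p : ℕ} (hp : p.Prime) (hpH : p ≤ H) {c : ℝ}
    (h : c ≤ (2 * (H : ℝ) + 1) ^ n * ((2 * (H : ℝ) + 1) / p + 1)) :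
    c ≤ (2 * (H : ℝ) + 1) ^ (n + 1) * (2 / p) := by
  have hp0 : (0 : ℝ) < p := by exact_mod_cast hp.pos
  have h1 : (1 : ℝ) ≤ (2 * (H : ℝ) + 1) / p := by
    rw [le_div_iff₀ hp0, one_mul]
    have : (p : ℝ) ≤ H := by exact_mod_cast hpH
    have h0 : (0 : ℝ) ≤ H := Nat.cast_nonneg _
    linarith
  refine h.trans ?_
  calc (2 * (H : ℝ) + 1) ^ n * ((2 * (H : ℝ) + 1) / p + 1)
      ≤ (2 * (H : ℝ) + 1) ^ n * ((2 * (H : ℝ) + 1) / p + (2 * (H : ℝ) + 1) / p) := by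
        gcongr
    _ = _ := by ring

/-- The triples for one prime. -/
lemma three_card (n m k H p : ℕ) (hp : p.Prime) (hpH : p ≤ H) :
    (cnt3 n m k (fun a b c => Three p a b c) H : ℝ) ≤
      16 * ((p : ℝ) ^ 2)⁻¹ * (2 * (H : ℝ) + 1) ^ (n + m + k + 3) := by
  classical
  have hp0 : (0 : ℝ) < p := by exact_mod_cast hp.pos
  have hp1 : (1 : ℝ) ≤ p := by exact_mod_cast hp.one_le
  set L : ∀ n : ℕ, Finset (Fin (n + 1) → ℤ) :=
    fun n => (hbox n H).filter fun a => (p : ℤ) ∣ a 0 with hL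
  set Z : ∀ n : ℕ, ℕ → Finset (Fin (n + 1) → ℤ) :=
    fun n x => (hbox n H).filter fun a => (p : ℤ) ∣ (GZ ℤ a).eval (x : ℤ) with hZ
  have hsub : ((hbox n H ×ˢ hbox m H ×ˢ hbox k H).filter fun x => Three p x.1 x.2.1 x.2.2) ⊆
      (L n ×ˢ L m ×ˢ L k) ∪ (range p).biUnion fun x => Z n x ×ˢ Z m x ×ˢ Z k x := by
    rintro ⟨a, b, c⟩ h
    rw [mem_filter, mem_product, mem_product] at h
    obtain ⟨⟨h1, h2, h3⟩, h4⟩ := h
    rw [mem_union]
    rcases h4 with ⟨e1, e2, e3⟩ | ⟨x, e1, e2, e3⟩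
    · left
      rw [mem_product, mem_product]
      exact ⟨mem_filter.2 ⟨h1, e1⟩, mem_filter.2 ⟨h2, e2⟩, mem_filter.2 ⟨h3, e3⟩⟩
    · right
      have hpz : (0 : ℤ) < p := by exact_mod_cast hp.pos
      have hx0 : 0 ≤ x % (p : ℤ) := Int.emod_nonneg _ hpz.ne'
      have hx1 : x % (p : ℤ) < p := Int.emod_lt_of_pos _ hpz
      have hxn : (((x % (p : ℤ)).toNat : ℕ) : ℤ) = x % (p : ℤ) := Int.toNat_of_nonneg hx0
      have key : ∀ {q : ℕ} (d : Fin (q + 1) → ℤ), (p : ℤ) ∣ (GZ ℤ d).eval x →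
          (p : ℤ) ∣ (GZ ℤ d).eval (((x % (p : ℤ)).toNat : ℕ) : ℤ) := by
        intro q d hd
        rw [hxn]
        have e4 : (p : ℤ) ∣ x - x % (p : ℤ) := Int.dvd_self_sub_emod
        have e5 := e4.trans (sub_dvd_eval_sub x (x % (p : ℤ)) (GZ ℤ d))
        have e6 := dvd_sub hd e5
        rwa [sub_sub_cancel] at e6
      rw [mem_biUnion]
      refine ⟨(x % (p : ℤ)).toNat, mem_range.2 (by omega), ?_⟩
      rw [mem_product, mem_product]
      exact ⟨mem_filter.2 ⟨h1, key a e1⟩, mem_filter.2 ⟨h2, key b e2⟩,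
        mem_filter.2 ⟨h3, key c e3⟩⟩
  have hLc : ∀ q, ((L q).card : ℝ) ≤ (2 * (H : ℝ) + 1) ^ (q + 1) * (2 / p) := fun q =>
    le_two hp hpH (card_lead H p hp)
  have hZc : ∀ q x, ((Z q x).card : ℝ) ≤ (2 * (H : ℝ) + 1) ^ (q + 1) * (2 / p) := fun q x =>
    le_two hp hpH (card_root H p hp x)
  have hprod : ∀ {x y z : ℝ}, 0 ≤ x → 0 ≤ y → 0 ≤ z →
      x ≤ (2 * (H : ℝ) + 1) ^ (n + 1) * (2 / p) → y ≤ (2 * (H : ℝ) + 1) ^ (m + 1) * (2 / p) →
      z ≤ (2 * (H : ℝ) + 1) ^ (k + 1) * (2 / p) →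
      x * (y * z) ≤ (2 * (H : ℝ) + 1) ^ (n + m + k + 3) * (2 / p) ^ 3 := by
    intro x y z hx hy hz h1 h2 h3
    calc x * (y * z) ≤ ((2 * (H : ℝ) + 1) ^ (n + 1) * (2 / p)) *
        (((2 * (H : ℝ) + 1) ^ (m + 1) * (2 / p)) * ((2 * (H : ℝ) + 1) ^ (k + 1) * (2 / p))) := by
          gcongr
      _ = _ := by ring
  have h1 : (cnt3 n m k (fun a b c => Three p a b c) H : ℝ) ≤
      (((L n ×ˢ L m ×ˢ L k) ∪ (range p).biUnion fun x => Z n x ×ˢ Z m x ×ˢ Z k x).card : ℝ) := by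
    unfold cnt3
    rw [Nat.cast_le]
    convert card_le_card hsub
  have h2 : (((L n ×ˢ L m ×ˢ L k) ∪ (range p).biUnion fun x => Z n x ×ˢ Z m x ×ˢ Z k x).card : ℝ) ≤
      ((L n ×ˢ L m ×ˢ L k).card : ℝ) + ∑ x ∈ range p, ((Z n x ×ˢ Z m x ×ˢ Z k x).card : ℝ) := by
    have := (card_union_le (L n ×ˢ L m ×ˢ L k)
      ((range p).biUnion fun x => Z n x ×ˢ Z m x ×ˢ Z k x)).trans
      (Nat.add_le_add_left card_biUnion_le _)
    exact_mod_cast this
  have h3 : ((L n ×ˢ L m ×ˢ L k).card : ℝ) ≤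
      (2 * (H : ℝ) + 1) ^ (n + m + k + 3) * (2 / p) ^ 3 := by
    rw [card_product, card_product, Nat.cast_mul, Nat.cast_mul]
    exact hprod (Nat.cast_nonneg _) (Nat.cast_nonneg _) (Nat.cast_nonneg _) (hLc _) (hLc _) (hLc _)
  have h4 : ∀ x ∈ range p, ((Z n x ×ˢ Z m x ×ˢ Z k x).card : ℝ) ≤
      (2 * (H : ℝ) + 1) ^ (n + m + k + 3) * (2 / p) ^ 3 := by
    intro x _
    rw [card_product, card_product, Nat.cast_mul, Nat.cast_mul]
    exact hprod (Nat.cast_nonneg _) (Nat.cast_nonneg _) (Nat.cast_nonneg _) (hZc _ _) (hZc _ _)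
      (hZc _ _)
  have h5 := sum_le_sum h4
  rw [sum_const, card_range, nsmul_eq_mul] at h5
  have h6 : (2 * (H : ℝ) + 1) ^ (n + m + k + 3) * (2 / p) ^ 3 +
      p * ((2 * (H : ℝ) + 1) ^ (n + m + k + 3) * (2 / p) ^ 3) ≤
      16 * ((p : ℝ) ^ 2)⁻¹ * (2 * (H : ℝ) + 1) ^ (n + m + k + 3) := by
    have e1 : (1 + (p : ℝ)) * (2 / p) ^ 3 ≤ 16 * ((p : ℝ) ^ 2)⁻¹ := by
      have e2 : (1 + (p : ℝ)) * (2 / p) ^ 3 = (8 * (1 + p) / p) * ((p : ℝ) ^ 2)⁻¹ := by
        field_simp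
        ring
      rw [e2]
      have e3 : 8 * (1 + (p : ℝ)) / p ≤ 16 := by
        rw [div_le_iff₀ hp0]
        linarith
      exact mul_le_mul_of_nonneg_right e3 (by positivity)
    calc _ = ((1 + (p : ℝ)) * (2 / p) ^ 3) * (2 * (H : ℝ) + 1) ^ (n + m + k + 3) := by ring
      _ ≤ _ := mul_le_mul_of_nonneg_right e1 (by positivity)
  linarith

theorem three_mid (n m k : ℕ) (ε : ℝ) (hε : 0 < ε) :
    ∃ P : ℕ, ∀ P' : ℕ, P ≤ P' → ∀ H : ℕ, 1 ≤ H →
      (cnt3 n m k (fun a b c => ∃ p : ℕ, p.Prime ∧ P' < p ∧ p ≤ H ∧ Three p a b c) H : ℝ) ≤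
        ε * H ^ (n + m + k + 3) := by
  classical
  refine ⟨max 1 ⌈16 * 3 ^ (n + m + k + 3) / ε⌉₊, fun P hP H hH => ?_⟩
  have hP1 : 1 ≤ P := (le_max_left _ _).trans hP
  have hP2 : 16 * 3 ^ (n + m + k + 3) / ε ≤ P :=
    (Nat.le_ceil _).trans (by exact_mod_cast (le_max_right _ _).trans hP)
  have hP0 : (0 : ℝ) < P := by exact_mod_cast hP1
  set J : Finset ℕ := (Ioc P H).filter Nat.Prime with hJ
  have h1 : cnt3 n m k (fun a b c => ∃ p : ℕ, p.Prime ∧ P < p ∧ p ≤ H ∧ Three p a b c) H ≤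
      ∑ p ∈ J, cnt3 n m k (fun a b c => Three p a b c) H := by
    unfold cnt3
    refine le_trans (card_le_card ?_) (card_biUnion_le (s := J))
    intro a ha
    simp only [mem_filter, mem_biUnion] at ha ⊢
    obtain ⟨h1, p, hp, h2, h3, h4⟩ := ha
    exact ⟨p, mem_filter.2 ⟨mem_Ioc.2 ⟨h2, h3⟩, hp⟩, h1, h4⟩
  have h2 : (cnt3 n m k (fun a b c => ∃ p : ℕ, p.Prime ∧ P < p ∧ p ≤ H ∧ Three p a b c) H : ℝ) ≤
      ∑ p ∈ J, 16 * ((p : ℝ) ^ 2)⁻¹ * (2 * (H : ℝ) + 1) ^ (n + m + k + 3) := by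
    refine (Nat.cast_le.2 h1).trans ?_
    rw [Nat.cast_sum]
    refine sum_le_sum fun p hp => ?_
    rw [hJ, mem_filter, mem_Ioc] at hp
    exact three_card n m k H p hp.2 hp.1.2
  refine h2.trans ?_
  rw [← sum_mul, ← mul_sum]
  rcases le_total P H with hPH | hPH
  · have h6 : ∑ p ∈ J, ((p : ℝ) ^ 2)⁻¹ ≤ (P : ℝ)⁻¹ := by
      refine (sum_le_sum_of_subset_of_nonneg (filter_subset _ _) fun _ _ _ => by
        positivity).trans ((sum_Ioc_inv_sq_le_sub (by omega) hPH).trans ?_)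
      have : (0 : ℝ) ≤ (H : ℝ)⁻¹ := by positivity
      linarith
    have h7 : (16 * (P : ℝ)⁻¹) * 3 ^ (n + m + k + 3) ≤ ε := by
      rw [div_le_iff₀ hε] at hP2
      rw [mul_comm, ← mul_assoc, ← div_eq_mul_inv, div_le_iff₀ hP0]
      linarith
    calc 16 * (∑ p ∈ J, ((p : ℝ) ^ 2)⁻¹) * (2 * (H : ℝ) + 1) ^ (n + m + k + 3)
        ≤ 16 * (P : ℝ)⁻¹ * (3 * H) ^ (n + m + k + 3) := by
          refine mul_le_mul (mul_le_mul_of_nonneg_left h6 (by norm_num)) (pow_le_three hH _)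
            (by positivity) (by positivity)
      _ = (16 * (P : ℝ)⁻¹) * 3 ^ (n + m + k + 3) * (H : ℝ) ^ (n + m + k + 3) := by
          rw [mul_pow]
          ring
      _ ≤ ε * H ^ (n + m + k + 3) := mul_le_mul_of_nonneg_right h7 (by positivity)
  · have h6 : J = ∅ := by
      rw [hJ, Ioc_eq_empty_of_le hPH, filter_empty]
    rw [h6, sum_empty, mul_zero, zero_mul]
    positivity

end Stoll308.EA
end

section
set_option autoImplicit false

/-!
Few triples of polynomials have a common zero modulo a prime `> P`.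
-/

namespace Stoll308.EA

open Polynomial Finset BF

namespace ThreeBAux

lemma cast_eval (R : Type*) [CommRing R] {n : ℕ} (a : Fin (n + 1) → ℤ) (x : ℤ) :
    (((GZ ℤ a).eval x : ℤ) : R) = (GZ R a).eval (x : R) := by
  have h := eval_intCast_map (Int.castRingHom R) (GZ ℤ a) x
  rw [DQ.ElsC.gz_map'] at h
  simpa using h.symm

lemma dvd_eval_mod {p : ℕ} (hp : 0 < p) (f : ℤ[X]) (x : ℤ) (h : (p : ℤ) ∣ f.eval x) :
    (p : ℤ) ∣ f.eval (((x % p).toNat : ℕ) : ℤ) := by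
  have hp' : (p : ℤ) ≠ 0 := by exact_mod_cast hp.ne'
  have h1 : (((x % p).toNat : ℕ) : ℤ) = x % p := Int.toNat_of_nonneg (Int.emod_nonneg _ hp')
  have h2 : (p : ℤ) ∣ x - x % p := ⟨x / p, by have := Int.emod_add_mul_ediv x p; linarith⟩
  have h3 := h2.trans (Polynomial.sub_dvd_eval_sub x (x % p) f)
  rw [h1]
  have h4 := dvd_sub h h3
  simpa using h4

lemma root_count {p : ℕ} [hp : Fact p.Prime] {n : ℕ} (a : Fin (n + 1) → ℤ)
    (h : ¬ (p : ℤ) ∣ a 0) :
    ((range p).filter fun x : ℕ => (p : ℤ) ∣ (GZ ℤ a).eval (x : ℤ)).card ≤ n := by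
  classical
  have hne : GZ (ZMod p) a ≠ 0 := by
    intro h0
    have h1 : (GZ (ZMod p) a).coeff n = ((a 0 : ℤ) : ZMod p) := by
      rw [BF.Els.gz_coeff _ le_rfl]
      have : (⟨n - n, by omega⟩ : Fin (n + 1)) = 0 := by
        apply Fin.ext
        simp
      rw [this]
    rw [h0, coeff_zero] at h1
    exact h ((ZMod.intCast_zmod_eq_zero_iff_dvd _ _).1 h1.symm)
  have h1 : ((range p).filter fun x : ℕ => (p : ℤ) ∣ (GZ ℤ a).eval (x : ℤ)).card ≤
      (GZ (ZMod p) a).roots.toFinset.card := by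
    apply card_le_card_of_injOn (fun x : ℕ => (x : ZMod p))
    · intro x hx
      rw [mem_coe, mem_filter] at hx
      rw [mem_coe, Multiset.mem_toFinset, mem_roots hne, IsRoot]
      have h2 := (ZMod.intCast_zmod_eq_zero_iff_dvd _ _).2 hx.2
      rw [cast_eval] at h2
      simpa using h2
    · intro x hx y hy hxy
      rw [mem_coe, mem_filter, mem_range] at hx hy
      have h2 := (ZMod.natCast_eq_natCast_iff' _ _ _).1 hxy
      rwa [Nat.mod_eq_of_lt hx.1, Nat.mod_eq_of_lt hy.1] at h2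
  refine h1.trans ((Multiset.toFinset_card_le _).trans ((card_roots' _).trans ?_))
  exact BF.Els.gz_natDegree_le _

lemma not_dvd {H p : ℕ} (hHp : H < p) {z : ℤ} (h0 : z ≠ 0) (h : |z| ≤ (H : ℤ)) :
    ¬ (p : ℤ) ∣ z := by
  intro h1
  have h2 := Int.le_of_dvd (abs_pos.2 h0) ((dvd_abs _ _).2 h1)
  have h3 : (H : ℤ) < p := by exact_mod_cast hHp
  linarith

open Classical in
lemma fibre_card {n m : ℕ} (k H : ℕ) (a : Fin (n + 1) → ℤ) (b : Fin (m + 1) → ℤ)
    (ha : ∀ i, |a i| ≤ (H : ℤ)) (hb : ∀ i, |b i| ≤ (H : ℤ)) (ha0 : a 0 ≠ 0) (hb0 : b 0 ≠ 0)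
    (T : Finset ℕ) (hT : ∀ (p : ℕ) [Fact p.Prime], H < p → ¬ (p : ℤ) ∣ a 0 → ¬ (p : ℤ) ∣ b 0 →
      ¬ IsCoprime (GZ (AlgebraicClosure (ZMod p)) a) (GZ (AlgebraicClosure (ZMod p)) b) → p ∈ T) :
    (((hbox k H).filter fun c => ∃ p : ℕ, p.Prime ∧ H < p ∧ Three p a b c).card : ℝ) ≤
      T.card * (n * (3 * (2 * (H : ℝ) + 1) ^ k)) := by
  set T' := T.filter fun p => p.Prime ∧ H < p with hT'
  have hsub : ((hbox k H).filter fun c => ∃ p : ℕ, p.Prime ∧ H < p ∧ Three p a b c) ⊆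
      T'.biUnion fun p => ((range p).filter fun x : ℕ => (p : ℤ) ∣ (GZ ℤ a).eval (x : ℤ)).biUnion
        fun x => (hbox k H).filter fun c => (p : ℤ) ∣ (GZ ℤ c).eval (x : ℤ) := by
    intro c hc
    rw [mem_filter] at hc
    obtain ⟨hcb, p, hp, hHp, h3⟩ := hc
    have : Fact p.Prime := ⟨hp⟩
    have hna := not_dvd hHp ha0 (ha 0)
    have hnb := not_dvd hHp hb0 (hb 0)
    rcases h3 with ⟨h4, -⟩ | ⟨x, hxa, hxb, hxc⟩
    · exact absurd h4 hna
    · rw [mem_biUnion]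
      refine ⟨p, ?_, ?_⟩
      · rw [hT', mem_filter]
        refine ⟨hT p hHp hna hnb ?_, hp, hHp⟩
        intro hco
        have hC : CharP (AlgebraicClosure (ZMod p)) p := charP_of_injective_algebraMap
          (algebraMap (ZMod p) (AlgebraicClosure (ZMod p))).injective p
        obtain ⟨u, v, huv⟩ := hco
        have h5 := congrArg (eval ((x : ℤ) : AlgebraicClosure (ZMod p))) huv
        rw [eval_add, eval_mul, eval_mul, ← cast_eval, ← cast_eval,
          (CharP.intCast_eq_zero_iff _ p _).2 hxa, (CharP.intCast_eq_zero_iff _ p _).2 hxb,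
          mul_zero, mul_zero, add_zero, eval_one] at h5
        exact zero_ne_one h5
      · rw [mem_biUnion]
        refine ⟨(x % p).toNat, ?_, ?_⟩
        · rw [mem_filter, mem_range]
          refine ⟨?_, dvd_eval_mod hp.pos _ _ hxa⟩
          have hp' : (p : ℤ) ≠ 0 := by exact_mod_cast hp.pos.ne'
          have h6 := Int.emod_nonneg x hp'
          have h7 := Int.emod_lt_of_pos x (by exact_mod_cast hp.pos : (0 : ℤ) < p)
          omega
        · rw [mem_filter]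
          exact ⟨hcb, dvd_eval_mod hp.pos _ _ hxc⟩
  have h1 := (card_le_card hsub).trans card_biUnion_le
  have h2 : ∀ p ∈ T', ((((range p).filter fun x : ℕ => (p : ℤ) ∣ (GZ ℤ a).eval (x : ℤ)).biUnion
        fun x => (hbox k H).filter fun c => (p : ℤ) ∣ (GZ ℤ c).eval (x : ℤ)).card : ℝ) ≤
      n * (3 * (2 * (H : ℝ) + 1) ^ k) := by
    intro p hp
    rw [hT', mem_filter] at hp
    obtain ⟨-, hpp, hHp⟩ := hp
    have : Fact p.Prime := ⟨hpp⟩
    have hpR : (0 : ℝ) < p := by exact_mod_cast hpp.pos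
    have hHp' : (H : ℝ) + 1 ≤ p := by exact_mod_cast hHp
    have h3 : ∀ x : ℕ, (((hbox k H).filter fun c => (p : ℤ) ∣ (GZ ℤ c).eval (x : ℤ)).card : ℝ) ≤
        3 * (2 * (H : ℝ) + 1) ^ k := by
      intro x
      refine (card_root H p hpp (x : ℤ)).trans ?_
      have h4 : (2 * (H : ℝ) + 1) / p ≤ 2 := by
        rw [div_le_iff₀ hpR]
        linarith
      have h5 : (0 : ℝ) ≤ (2 * (H : ℝ) + 1) ^ k := by positivity
      nlinarith
    have h6 : ((((range p).filter fun x : ℕ => (p : ℤ) ∣ (GZ ℤ a).eval (x : ℤ)).biUnion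
        fun x => (hbox k H).filter fun c => (p : ℤ) ∣ (GZ ℤ c).eval (x : ℤ)).card : ℝ) ≤
        ∑ x ∈ (range p).filter fun x : ℕ => (p : ℤ) ∣ (GZ ℤ a).eval (x : ℤ),
          (((hbox k H).filter fun c => (p : ℤ) ∣ (GZ ℤ c).eval (x : ℤ)).card : ℝ) := by
      exact_mod_cast card_biUnion_le
    refine h6.trans ((sum_le_sum fun x _ => h3 x).trans ?_)
    rw [sum_const, nsmul_eq_mul]
    apply mul_le_mul_of_nonneg_right _ (by positivity)
    exact_mod_cast root_count a (not_dvd hHp ha0 (ha 0))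
  calc _ ≤ ((∑ p ∈ T', (((range p).filter fun x : ℕ => (p : ℤ) ∣ (GZ ℤ a).eval (x : ℤ)).biUnion
        fun x => (hbox k H).filter fun c => (p : ℤ) ∣ (GZ ℤ c).eval (x : ℤ)).card : ℕ) : ℝ) := by
        exact_mod_cast h1
    _ = ∑ p ∈ T', ((((range p).filter fun x : ℕ => (p : ℤ) ∣ (GZ ℤ a).eval (x : ℤ)).biUnion
        fun x => (hbox k H).filter fun c => (p : ℤ) ∣ (GZ ℤ c).eval (x : ℤ)).card : ℝ) := by
        push_cast
        rfl
    _ ≤ ∑ p ∈ T', (n : ℝ) * (3 * (2 * (H : ℝ) + 1) ^ k) := sum_le_sum h2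
    _ = T'.card * (n * (3 * (2 * (H : ℝ) + 1) ^ k)) := by rw [sum_const, nsmul_eq_mul]
    _ ≤ T.card * (n * (3 * (2 * (H : ℝ) + 1) ^ k)) := by
        apply mul_le_mul_of_nonneg_right _ (by positivity)
        exact_mod_cast card_le_card (filter_subset _ _)

end ThreeBAux

open ThreeBAux

theorem three_large (n m k : ℕ) (hn : 4 ≤ n) (hm : 4 ≤ m) (hk : 4 ≤ k) (ε : ℝ) (hε : 0 < ε) :
    ∃ H₀ : ℕ, ∀ H : ℕ, H₀ ≤ H →
      (cnt3 n m k (fun a b c => ∃ p : ℕ, p.Prime ∧ H < p ∧ Three p a b c) H : ℝ) ≤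
        ε * H ^ (n + m + k + 3) := by
  classical
  obtain ⟨H₁, h₁⟩ := DQ.smooth_small n m hn hm (ε / 2 / 3 ^ (k + 1)) (by positivity)
  obtain ⟨H₂, h₂⟩ := res_primes n m 1 (by omega) (by omega)
  set K : ℝ := (n + m + 1 : ℕ) * (n * 3) * 3 ^ (n + m + k + 2) with hK
  obtain ⟨H₃, h₃⟩ := exists_nat_ge (2 * K / ε)
  refine ⟨H₁ + H₂ + H₃ + 1, fun H hH => ?_⟩
  have g1 := h₁ H (by omega)
  have g2 := h₂ H (by omega)
  have hH1 : (1 : ℝ) ≤ H := by exact_mod_cast (by omega : 1 ≤ H)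
  have hH0 : (0 : ℝ) < H := by linarith
  have g3 : 2 * K / ε ≤ (H : ℝ) := h₃.trans (by exact_mod_cast (by omega : H₃ ≤ H))
  have hp3 : ∀ N : ℕ, (2 * (H : ℝ) + 1) ^ N ≤ 3 ^ N * (H : ℝ) ^ N := by
    intro N
    rw [← mul_pow]
    exact pow_le_three (by omega) N
  set B := hbox n H ×ˢ hbox m H ×ˢ hbox k H with hB
  set S1 := B.filter fun x => ¬ DQ.Smooth x.1 x.2.1 with hS1
  set S2 := B.filter fun x => DQ.Smooth x.1 x.2.1 ∧
    ∃ p : ℕ, p.Prime ∧ H < p ∧ Three p x.1 x.2.1 x.2.2 with hS2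
  have hcov : cnt3 n m k (fun a b c => ∃ p : ℕ, p.Prime ∧ H < p ∧ Three p a b c) H ≤
      S1.card + S2.card := by
    unfold cnt3
    refine le_trans (card_le_card ?_) (card_union_le _ _)
    intro x hx
    rw [mem_filter] at hx
    rw [mem_union, hS1, hS2, mem_filter, mem_filter]
    by_cases hs : DQ.Smooth x.1 x.2.1
    · exact Or.inr ⟨hx.1, hs, hx.2⟩
    · exact Or.inl ⟨hx.1, hs⟩
  have hS1c : (S1.card : ℝ) ≤
      (DQ.cnt n m (fun a b => ¬ DQ.Smooth a b) H : ℝ) * (2 * (H : ℝ) + 1) ^ (k + 1) := by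
    have h1 : S1.card ≤ (((hbox n H ×ˢ hbox m H).filter fun x => ¬ DQ.Smooth x.1 x.2) ×ˢ
        hbox k H).card := by
      apply card_le_card_of_injOn (fun x => ((x.1, x.2.1), x.2.2))
      · intro x hx
        rw [mem_coe, hS1, mem_filter, hB, mem_product, mem_product] at hx
        rw [mem_coe, mem_product, mem_filter, mem_product]
        exact ⟨⟨⟨hx.1.1, hx.1.2.1⟩, hx.2⟩, hx.1.2.2⟩
      · intro x _ y _ hxy
        simp only [Prod.mk.injEq] at hxy
        exact Prod.ext hxy.1.1 (Prod.ext hxy.1.2 hxy.2)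
    rw [card_product, card_hbox] at h1
    have h2 : ((hbox n H ×ˢ hbox m H).filter fun x => ¬ DQ.Smooth x.1 x.2).card =
        DQ.cnt n m (fun a b => ¬ DQ.Smooth a b) H := by
      unfold DQ.cnt
      convert rfl
    rw [h2] at h1
    exact_mod_cast h1
  have hS2c : (S2.card : ℝ) ≤ ((hbox n H ×ˢ hbox m H).card : ℝ) *
      ((n + m + 1 : ℕ) * (n * (3 * (2 * (H : ℝ) + 1) ^ k))) := by
    apply BG.Els.card_le_fiber S2 (hbox n H ×ˢ hbox m H) (fun x => (x.1, x.2.1))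
    · intro x hx
      rw [hS2, mem_filter, hB, mem_product, mem_product] at hx
      rw [mem_product]
      exact ⟨hx.1.1, hx.1.2.1⟩
    · rintro ⟨a, b⟩ hab
      rw [mem_product] at hab
      have ha := mem_hbox.1 hab.1
      have hb := mem_hbox.1 hab.2
      by_cases hs : DQ.Smooth a b
      · obtain ⟨ha0, hb0, hsq⟩ := hs
        have hco : IsCoprime (GZ ℚ a) (GZ ℚ b) := by
          rw [← EuclideanDomain.gcd_isUnit_iff]
          exact hsq _ (mul_dvd_mul (EuclideanDomain.gcd_dvd_left _ _)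
            (EuclideanDomain.gcd_dvd_right _ _))
        obtain ⟨T, hTc, hT⟩ := g2 a b (by simpa using ha) (by simpa using hb) ha0 hb0 hco
        have h1 := fibre_card k H a b ha hb ha0 hb0 T hT
        have h2 : ((S2.filter fun x => (x.1, x.2.1) = (a, b)).card : ℝ) ≤
            (((hbox k H).filter fun c => ∃ p : ℕ, p.Prime ∧ H < p ∧ Three p a b c).card : ℝ) := by
          rw [Nat.cast_le]
          apply card_le_card_of_injOn (fun x => x.2.2)
          · intro x hx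
            rw [mem_coe, mem_filter, hS2, mem_filter, hB, mem_product, mem_product,
              Prod.mk.injEq] at hx
            obtain ⟨⟨⟨-, -, h3⟩, -, h4⟩, h5, h6⟩ := hx
            rw [mem_coe, mem_filter]
            refine ⟨h3, ?_⟩
            rw [h5, h6] at h4
            exact h4
          · intro x hx y hy hxy
            rw [mem_coe, mem_filter, Prod.mk.injEq] at hx hy
            exact Prod.ext (hx.2.1.trans hy.2.1.symm)
              (Prod.ext (hx.2.2.trans hy.2.2.symm) hxy)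
        refine h2.trans (h1.trans ?_)
        apply mul_le_mul_of_nonneg_right _ (by positivity)
        exact_mod_cast hTc
      · rw [filter_false_of_mem]
        · rw [card_empty, Nat.cast_zero]
          positivity
        · intro x hx hxab
          rw [Prod.mk.injEq] at hxab
          rw [hS2, mem_filter, hxab.1, hxab.2] at hx
          exact hs hx.2.1
  have e1 : (S1.card : ℝ) ≤ ε / 2 * H ^ (n + m + k + 3) := by
    refine hS1c.trans ?_
    calc _ ≤ (ε / 2 / 3 ^ (k + 1) * H ^ (n + m + 2)) * (3 ^ (k + 1) * (H : ℝ) ^ (k + 1)) :=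
          mul_le_mul g1 (hp3 _) (by positivity) (by positivity)
      _ = ε / 2 * H ^ (n + m + k + 3) := by
          have : (H : ℝ) ^ (n + m + k + 3) = H ^ (n + m + 2) * H ^ (k + 1) := by
            rw [← pow_add]
            congr 1
            omega
          rw [this]
          field_simp
  have e2 : (S2.card : ℝ) ≤ ε / 2 * H ^ (n + m + k + 3) := by
    refine hS2c.trans ?_
    rw [card_product, card_hbox, card_hbox]
    push_cast
    have h5 : (2 * (H : ℝ) + 1) ^ (n + 1) * (2 * (H : ℝ) + 1) ^ (m + 1) *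
        (((n : ℝ) + m + 1) * (n * (3 * (2 * (H : ℝ) + 1) ^ k))) =
        ((n : ℝ) + m + 1) * (n * 3) * (2 * (H : ℝ) + 1) ^ (n + m + k + 2) := by
      have : (2 * (H : ℝ) + 1) ^ (n + m + k + 2) = (2 * (H : ℝ) + 1) ^ (n + 1) *
          (2 * (H : ℝ) + 1) ^ (m + 1) * (2 * (H : ℝ) + 1) ^ k := by
        rw [← pow_add, ← pow_add]
        congr 1
        omega
      rw [this]
      ring
    rw [h5]
    have h6 : ((n : ℝ) + m + 1) * (n * 3) * (2 * (H : ℝ) + 1) ^ (n + m + k + 2) ≤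
        K * H ^ (n + m + k + 2) := by
      rw [hK]
      push_cast
      rw [mul_assoc (((n : ℝ) + m + 1) * (n * 3))]
      exact mul_le_mul_of_nonneg_left (hp3 _) (by positivity)
    refine h6.trans ?_
    have h7 : K ≤ ε / 2 * H := by
      rw [div_le_iff₀ hε] at g3
      linarith
    calc K * (H : ℝ) ^ (n + m + k + 2) ≤ (ε / 2 * H) * H ^ (n + m + k + 2) :=
          mul_le_mul_of_nonneg_right h7 (by positivity)
      _ = ε / 2 * H ^ (n + m + k + 3) := by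
          rw [pow_succ (H : ℝ) (n + m + k + 2)]
          ring
  have e3 : (cnt3 n m k (fun a b c => ∃ p : ℕ, p.Prime ∧ H < p ∧ Three p a b c) H : ℝ) ≤
      S1.card + S2.card := by exact_mod_cast hcov
  linarith

theorem three_small (n m k : ℕ) (hn : 4 ≤ n) (hm : 4 ≤ m) (hk : 4 ≤ k) (ε : ℝ) (hε : 0 < ε) :
    ∃ P H₀ : ℕ, ∀ P' : ℕ, P ≤ P' → ∀ H : ℕ, H₀ ≤ H →
      (cnt3 n m k (fun a b c => ∃ p : ℕ, p.Prime ∧ P' < p ∧ Three p a b c) H : ℝ) ≤
        ε * H ^ (n + m + k + 3) := by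
  classical
  obtain ⟨P, h1⟩ := three_mid n m k (ε / 2) (half_pos hε)
  obtain ⟨H₀, h2⟩ := three_large n m k hn hm hk (ε / 2) (half_pos hε)
  refine ⟨P, max H₀ 1, fun P' hP' H hH => ?_⟩
  have g1 := h1 P' hP' H ((le_max_right _ _).trans hH)
  have g2 := h2 H ((le_max_left _ _).trans hH)
  have h3 : cnt3 n m k (fun a b c => ∃ p : ℕ, p.Prime ∧ P' < p ∧ Three p a b c) H ≤
      cnt3 n m k (fun a b c => ∃ p : ℕ, p.Prime ∧ P' < p ∧ p ≤ H ∧ Three p a b c) H +
      cnt3 n m k (fun a b c => ∃ p : ℕ, p.Prime ∧ H < p ∧ Three p a b c) H := by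
    unfold cnt3
    refine le_trans (card_le_card ?_) (card_union_le _ _)
    intro x hx
    rw [mem_filter] at hx
    obtain ⟨hx1, p, hp, hp', h3⟩ := hx
    rw [mem_union, mem_filter, mem_filter]
    by_cases hpH : p ≤ H
    · exact Or.inl ⟨hx1, p, hp, hp', hpH, h3⟩
    · exact Or.inr ⟨hx1, p, hp, by omega, h3⟩
  have h4 : (cnt3 n m k (fun a b c => ∃ p : ℕ, p.Prime ∧ P' < p ∧ Three p a b c) H : ℝ) ≤
      cnt3 n m k (fun a b c => ∃ p : ℕ, p.Prime ∧ P' < p ∧ p ≤ H ∧ Three p a b c) H +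
      cnt3 n m k (fun a b c => ∃ p : ℕ, p.Prime ∧ H < p ∧ Three p a b c) H := by
    exact_mod_cast h3
  linarith

end Stoll308.EA
end

section
set_option autoImplicit false

/-!
The upper bound.
-/

namespace Stoll308.EA

open Polynomial Finset BF

/-- A squarefree number with prime factors `≤ P` is at most `P!`. -/
lemma abs_le_factorial {m : ℤ} (hm : Squarefree m) {P : ℕ}
    (h : ∀ p : ℕ, p.Prime → (p : ℤ) ∣ m → p ≤ P) : |m| ≤ (P.factorial : ℤ) := by
  have hsq : Squarefree m.natAbs := Int.squarefree_natAbs.2 hm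
  have h1 : m.natAbs ∣ P.factorial := by
    rw [← Nat.prod_primeFactors_of_squarefree hsq]
    apply Finset.prod_primes_dvd
    · intro p hp
      exact (Nat.prime_of_mem_primeFactors hp).prime
    · intro p hp
      have hpp := Nat.prime_of_mem_primeFactors hp
      apply (hpp.dvd_factorial).2
      apply h p hpp
      rw [Int.natCast_dvd]
      exact Nat.dvd_of_mem_primeFactors hp
  have h2 := Nat.le_of_dvd P.factorial_pos h1
  rw [Int.abs_eq_natAbs]
  exact_mod_cast h2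

variable {r s : ℕ} {n : Fin s → ℕ}

/-- A rational point, affine and not a branch point. -/
lemma sel_of_pt {R : Fin r → Finset (Fin s)} {a : ∀ i, Fin (n i + 1) → ℤ} {t : ℚ}
    (ht : Pt R a ℚ t) : Sel R a := by
  have hmap : ∀ (K : Type) [Field K] [CharZero K] (i : Fin s) (φ : ℚ →+* K),
      (GZ K (a i)).eval (φ t) = φ ((GZ ℚ (a i)).eval t) := by
    intro K _ _ i φ
    have e : GZ K (a i) = (GZ ℚ (a i)).map φ := by
      rw [GZ, GZ, BF.Els.gz_map]
      simp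
    rw [e, eval_map_apply]
  refine ⟨fun _ => C t - X, fun i => ?_, fun p _ _ => ?_⟩
  · obtain ⟨q, hq⟩ : (X - C t) ∣ GZ ℚ (a i) - C ((GZ ℚ (a i)).eval t) := X_sub_C_dvd_sub_C_eval
    have h1 : C ((GZ ℚ (a i)).eval t)⁻¹ * C ((GZ ℚ (a i)).eval t) = (1 : ℚ[X]) := by
      rw [← C_mul, inv_mul_cancel₀ (ht.1 i), C_1]
    exact ⟨C ((GZ ℚ (a i)).eval t)⁻¹ * q, C ((GZ ℚ (a i)).eval t)⁻¹, by
      linear_combination C ((GZ ℚ (a i)).eval t)⁻¹ * hq + h1⟩
  · refine ⟨algebraMap ℚ ℚ_[p] t, 1, fun _ => 1, ⟨fun i => ?_, fun j => ?_⟩, one_ne_zero,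
      fun i => ?_⟩
    · rw [hmap]
      exact (_root_.map_ne_zero _).2 (ht.1 i)
    · rw [prod_congr rfl fun i _ => hmap ℚ_[p] i (algebraMap ℚ ℚ_[p]), ← map_prod]
      exact (ht.2 j).map _
    · rw [Polynomial.map_sub, map_C, map_X]
      simp

/-- The exceptional tuples: three polynomials with a common zero modulo a prime `> P`. -/
lemma three_union (n : Fin s → ℕ) (hn : ∀ i, 4 ≤ n i) (ε : ℝ) (hε : 0 < ε) :
    ∃ P H₀ : ℕ, 2 ≤ P ∧ ∀ H : ℕ, H₀ ≤ H →
      (cnt n (fun a => ∃ i₁ i₂ i₃, i₁ ≠ i₂ ∧ i₁ ≠ i₃ ∧ i₂ ≠ i₃ ∧ ∃ p : ℕ, p.Prime ∧ P < p ∧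
        Three p (a i₁) (a i₂) (a i₃)) H : ℝ) ≤ ε * H ^ ∑ i, (n i + 1) := by
  classical
  set J : Finset (Fin s × Fin s × Fin s) :=
    univ.filter fun τ => τ.1 ≠ τ.2.1 ∧ τ.1 ≠ τ.2.2 ∧ τ.2.1 ≠ τ.2.2 with hJ
  set N : ℕ := ∑ i, (n i + 1) with hN
  have h1 : ∀ τ : Fin s × Fin s × Fin s, ∃ P H₀ : ℕ, ∀ P' : ℕ, P ≤ P' → ∀ H : ℕ, H₀ ≤ H →
      (cnt3 (n τ.1) (n τ.2.1) (n τ.2.2)
        (fun a b c => ∃ p : ℕ, p.Prime ∧ P' < p ∧ Three p a b c) H : ℝ) ≤
        ε / ((J.card + 1) * 3 ^ N) * H ^ (n τ.1 + n τ.2.1 + n τ.2.2 + 3) := fun τ =>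
    three_small _ _ _ (hn _) (hn _) (hn _) _ (by positivity)
  choose P₀ H₀ h1 using h1
  set P : ℕ := (∑ τ, P₀ τ) + 2 with hP
  have hPle : ∀ τ, P₀ τ ≤ P := by
    intro τ
    have := Finset.single_le_sum (f := P₀) (fun _ _ => Nat.zero_le _) (mem_univ τ)
    omega
  refine ⟨P, (∑ τ, H₀ τ) + 1, by omega, fun H hH => ?_⟩
  have hH1 : 1 ≤ H := by omega
  have hHle : ∀ τ, H₀ τ ≤ H := by
    intro τ
    have := Finset.single_le_sum (f := H₀) (fun _ _ => Nat.zero_le _) (mem_univ τ)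
    omega
  have hle : cnt n (fun a => ∃ i₁ i₂ i₃, i₁ ≠ i₂ ∧ i₁ ≠ i₃ ∧ i₂ ≠ i₃ ∧ ∃ p : ℕ, p.Prime ∧ P < p ∧
        Three p (a i₁) (a i₂) (a i₃)) H ≤
      ∑ τ ∈ J, cnt n (fun a => ∃ p : ℕ, p.Prime ∧ P < p ∧
        Three p (a τ.1) (a τ.2.1) (a τ.2.2)) H := by
    refine le_trans (cnt_mono H ?_) (cnt_exists J (fun τ a => ∃ p : ℕ, p.Prime ∧ P < p ∧
        Three p (a τ.1) (a τ.2.1) (a τ.2.2)) H)
    rintro a - ⟨i₁, i₂, i₃, h12, h13, h23, h⟩
    exact ⟨(i₁, i₂, i₃), mem_filter.2 ⟨mem_univ _, h12, h13, h23⟩, h⟩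
  have hτ : ∀ τ ∈ J, (cnt n (fun a => ∃ p : ℕ, p.Prime ∧ P < p ∧
        Three p (a τ.1) (a τ.2.1) (a τ.2.2)) H : ℝ) ≤ ε / (J.card + 1) * H ^ N := by
    intro τ hτ
    rw [hJ, mem_filter] at hτ
    obtain ⟨-, h12, h13, h23⟩ := hτ
    set N' : ℕ := ∑ k ∈ {τ.1, τ.2.1, τ.2.2}ᶜ, (n k + 1) with hN'
    have e1 : (cnt n (fun a => ∃ p : ℕ, p.Prime ∧ P < p ∧
        Three p (a τ.1) (a τ.2.1) (a τ.2.2)) H : ℝ) ≤
        cnt3 (n τ.1) (n τ.2.1) (n τ.2.2) (fun a b c => ∃ p : ℕ, p.Prime ∧ P < p ∧ Three p a b c) H *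
          (2 * H + 1) ^ N' := by
      exact_mod_cast cnt_three τ.1 τ.2.1 τ.2.2 h12 h13 h23
        (fun a b c => ∃ p : ℕ, p.Prime ∧ P < p ∧ Three p a b c) H
    have e2 := h1 τ P (hPle τ) H (hHle τ)
    have e3 : N = (n τ.1 + n τ.2.1 + n τ.2.2 + 3) + N' := by
      rw [hN, hN', ← Finset.sum_add_sum_compl {τ.1, τ.2.1, τ.2.2},
        sum_insert (by simp [h12, h13]), sum_pair h23]
      ring
    have e4 : (3 : ℝ) ^ N' ≤ 3 ^ N := pow_le_pow_right₀ (by norm_num) (by omega)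
    calc _ ≤ _ := e1
      _ ≤ (ε / ((J.card + 1) * 3 ^ N) * H ^ (n τ.1 + n τ.2.1 + n τ.2.2 + 3)) * (3 * H) ^ N' :=
          mul_le_mul e2 (pow_le_three hH1 N') (by positivity) (by positivity)
      _ = ε / (J.card + 1) * H ^ N * (3 ^ N' / 3 ^ N) := by
          rw [mul_pow]
          conv_rhs => rw [e3, pow_add (H : ℝ)]
          rw [← e3]
          field_simp
      _ ≤ ε / (J.card + 1) * H ^ N * 1 := by
          apply mul_le_mul_of_nonneg_left _ (by positivity)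
          rw [div_le_one (by positivity)]
          exact e4
      _ = _ := by rw [mul_one]
  have hle' : (cnt n (fun a => ∃ i₁ i₂ i₃, i₁ ≠ i₂ ∧ i₁ ≠ i₃ ∧ i₂ ≠ i₃ ∧ ∃ p : ℕ, p.Prime ∧
        P < p ∧ Three p (a i₁) (a i₂) (a i₃)) H : ℝ) ≤
      ∑ τ ∈ J, (cnt n (fun a => ∃ p : ℕ, p.Prime ∧ P < p ∧
        Three p (a τ.1) (a τ.2.1) (a τ.2.2)) H : ℝ) := by exact_mod_cast hle
  refine (hle'.trans (sum_le_sum hτ)).trans ?_
  rw [sum_const, nsmul_eq_mul]
  have h3 : (J.card : ℝ) * (ε / (J.card + 1) * H ^ N) =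
      (J.card / (J.card + 1)) * (ε * H ^ N) := by ring
  rw [h3]
  apply mul_le_of_le_one_left (by positivity)
  rw [div_le_one (by positivity)]
  linarith

theorem neg_half (hs : 2 ≤ s) (hn : ∀ i, 4 ≤ n i) (he : ∀ i, Even (n i))
    (R : Fin r → Finset (Fin s)) (hR : Sep R) :
    Small n (fun a => HasPoint R a ℚ ∨ Sel R a) := by
  classical
  intro ε hε
  obtain ⟨P, H₁, hP2, h1⟩ := three_union n hn (ε / 2) (half_pos hε)
  set B1 : (∀ i, Fin (n i + 1) → ℤ) → Prop := fun a => ∃ i₁ i₂ i₃, i₁ ≠ i₂ ∧ i₁ ≠ i₃ ∧ i₂ ≠ i₃ ∧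
    ∃ p : ℕ, p.Prime ∧ P < p ∧ Three p (a i₁) (a i₂) (a i₃) with hB1
  set i0 : Fin s := ⟨0, by omega⟩ with hi0
  set i1 : Fin s := ⟨1, by omega⟩ with hi1
  have h01 : i0 ≠ i1 := by
    intro h
    have := congrArg Fin.val h
    simp [hi0, hi1] at this
  set J : Finset (ℤ × ℤ) := ((Icc (-(P.factorial : ℤ)) P.factorial) ×ˢ
    (Icc (-(P.factorial : ℤ)) P.factorial)).filter fun x => x.1 ≠ 0 ∧ x.2 ≠ 0 with hJ
  have hA : Small n (fun a => ∃ i ∈ (univ : Finset (Fin s)),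
      a i 0 = 0 ∨ IsSquare (a i 0) ∨ ¬ Irreducible (GZ ℚ (a i))) :=
    Small.exists univ (fun i a => a i 0 = 0 ∨ IsSquare (a i 0) ∨ ¬ Irreducible (GZ ℚ (a i)))
      fun i _ => small_one i (fun b => b 0 = 0 ∨ IsSquare (b 0) ∨ ¬ Irreducible (GZ ℚ b))
        fun ε hε => BF.reducible_small (n i) (by linarith [hn i]) ε hε
  have hI := inf_small n R hR (by omega)
  have hC : Small n (fun a => ∃ x ∈ J, DQ.OddSel (tw x.1 (a i0)) (tw x.2 (a i1))) :=
    Small.exists J (fun x a => DQ.OddSel (tw x.1 (a i0)) (tw x.2 (a i1))) fun x hx => by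
      rw [hJ, mem_filter] at hx
      exact small_two i0 i1 h01 (fun a b => DQ.OddSel (tw x.1 a) (tw x.2 b))
        fun ε hε => tw_small _ _ (hn _) (he _) (hn _) (he _) x.1 x.2 hx.2.1 hx.2.2 ε hε
  obtain ⟨H₂, h2⟩ := (hA.or (hI.or hC)) (ε / 2) (half_pos hε)
  refine ⟨max H₁ H₂, fun H hH => ?_⟩
  have e1 := h1 H ((le_max_left _ _).trans hH)
  have e2 := h2 H ((le_max_right _ _).trans hH)
  have hle : cnt n (fun a => HasPoint R a ℚ ∨ Sel R a) H ≤ cnt n B1 H + cnt n (fun a =>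
      (∃ i ∈ (univ : Finset (Fin s)), a i 0 = 0 ∨ IsSquare (a i 0) ∨
        ¬ Irreducible (GZ ℚ (a i))) ∨
      (∀ j, IsSquare (∏ i ∈ R j, ((a i 0 : ℤ) : ℚ))) ∨
        ∃ x ∈ J, DQ.OddSel (tw x.1 (a i0)) (tw x.2 (a i1))) H := by
    refine le_trans (cnt_mono H ?_) (cnt_or _ _ H)
    intro a _ ha
    by_cases hb1 : B1 a
    · exact Or.inl hb1
    right
    by_cases hbA : ∃ i ∈ (univ : Finset (Fin s)), a i 0 = 0 ∨ IsSquare (a i 0) ∨
        ¬ Irreducible (GZ ℚ (a i))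
    · exact Or.inl hbA
    right
    by_cases hbI : ∀ j, IsSquare (∏ i ∈ R j, ((a i 0 : ℤ) : ℚ))
    · exact Or.inl hbI
    right
    simp only [mem_univ, true_and, not_exists, not_or, not_not] at hbA
    have hirr : ∀ i, Irreducible (GZ ℚ (a i)) := fun i => (hbA i).2.2
    have ha0 : ∀ i, a i 0 ≠ 0 := fun i => (hbA i).1
    have hdeg : ∀ i, (GZ ℚ (a i)).natDegree = n i := by
      intro i
      exact DQ.ElsC.gz_deg (a i) (by exact_mod_cast ha0 i)
    have hsel : Sel R a := by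
      rcases ha with (⟨t, ht⟩ | hinf) | hsel
      · refine sel_of_pt (t := t) ⟨fun i hi => ?_, ht⟩
        have h3 := degree_eq_one_of_irreducible_of_root (hirr i) hi
        have h4 : (GZ ℚ (a i)).natDegree = 1 := natDegree_eq_of_degree_eq_some h3
        have h5 := hn i
        rw [hdeg i] at h4
        omega
      · exact absurd hinf hbI
      · exact hsel
    obtain ⟨δ, hδ, hloc⟩ := hsel
    have htw : ∀ i, ∃ m : ℤ, Squarefree m ∧ ∀ (p : ℕ) [Fact p.Prime] (t c : ℚ_[p])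
        (u : ℚ_[p][X]), c ≠ 0 → (GZ ℚ_[p] (a i)).eval t ≠ 0 →
        GZ ℚ_[p] (a i) ∣ (C t - X) - C c * (δ i).map (algebraMap ℚ ℚ_[p]) * u ^ 2 →
        IsSquare (((m : ℤ) : ℚ_[p]) * (GZ ℚ_[p] (a i)).eval t) := fun i =>
      exists_twist (by linarith [hn i]) (he i) (a i) (ha0 i) (δ i) (hδ i)
    choose m hm hmt using htw
    have hle : ∀ i, |m i| ≤ (P.factorial : ℤ) := by
      intro i
      apply abs_le_factorial (hm i)
      intro p hp hpm
      by_contra hcon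
      push Not at hcon
      have hF := Fact.mk hp
      obtain ⟨t, c, u, hpt, hc, hdvd⟩ := hloc p (by omega)
      obtain ⟨i₁, i₂, i₃, h12, h13, h23, h3⟩ := three_of_dvd he hR a p t hpt m hm
        (fun k => hmt k p t c (u k) hc (hpt.1 k) (hdvd k)) i hpm
      exact hb1 ⟨i₁, i₂, i₃, h12, h13, h23, p, hp, hcon, h3⟩
    refine ⟨(m i0, m i1), ?_, ?_⟩
    · rw [hJ, mem_filter, mem_product, mem_Icc, mem_Icc]
      exact ⟨⟨abs_le.1 (hle i0), abs_le.1 (hle i1)⟩, (hm i0).ne_zero, (hm i1).ne_zero⟩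
    · refine oddSel_of (a i0) (a i1) (m i0) (m i1) (hm i0).ne_zero (hm i1).ne_zero (δ i0) (δ i1)
        (hδ i0) (hδ i1) fun p _ hp2 => ?_
      obtain ⟨t, c, u, hpt, hc, hdvd⟩ := hloc p hp2
      exact ⟨t, c, u i0, u i1, hc, hpt.1 i0, hpt.1 i1,
        hmt i0 p t c (u i0) hc (hpt.1 i0) (hdvd i0), hmt i1 p t c (u i1) hc (hpt.1 i1) (hdvd i1),
        hdvd i0, hdvd i1⟩
  have hle' : (cnt n (fun a => HasPoint R a ℚ ∨ Sel R a) H : ℝ) ≤ cnt n B1 H + cnt n (fun a =>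
      (∃ i ∈ (univ : Finset (Fin s)), a i 0 = 0 ∨ IsSquare (a i 0) ∨
        ¬ Irreducible (GZ ℚ (a i))) ∨
      (∀ j, IsSquare (∏ i ∈ R j, ((a i 0 : ℤ) : ℚ))) ∨
        ∃ x ∈ J, DQ.OddSel (tw x.1 (a i0)) (tw x.2 (a i1))) H := by exact_mod_cast hle
  linarith

end Stoll308.EA
end

section
set_option autoImplicit false

/-!
The main theorem.
-/

namespace Stoll308.EA

open Polynomial Finset BF

theorem main {r s : ℕ} (hs : 2 ≤ s) (n : Fin s → ℕ) (hn : ∀ i, 4 ≤ n i) (he : ∀ i, Even (n i))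
    (R : Fin r → Finset (Fin s)) (hR : Sep R) :
    (∃ c₀ : ℝ, 0 < c₀ ∧ ∃ H₀ : ℕ, ∀ H : ℕ, H₀ ≤ H →
      c₀ * H ^ ∑ i, (n i + 1) ≤ (cnt n (fun a => Smooth a ∧ ELS R a) H : ℝ)) ∧
    ∀ ε : ℝ, 0 < ε → ∃ H₀ : ℕ, ∀ H : ℕ, H₀ ≤ H →
      (cnt n (fun a => HasPoint R a ℚ ∨ Sel R a) H : ℝ) ≤ ε * H ^ ∑ i, (n i + 1) := by
  refine ⟨?_, neg_half hs hn he R hR⟩
  obtain ⟨c₀, hc₀, H₀, h⟩ := els_half hs hn he
  refine ⟨c₀, hc₀, H₀, fun H hH => (h H hH).trans ?_⟩
  rw [Nat.cast_le]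
  exact cnt_mono H fun a _ ha => ⟨ha.1, fun p hp => (ha.2.1 p).pt R, ha.2.2.pt R⟩

end Stoll308.EA
end

section
set_option autoImplicit false

/-!
The selected relations for the active components `A`.
-/

namespace Stoll308.TW

open Finset Polynomial Stoll308.Gen NumberTheorySymbols

variable {k : ℕ} {f : Fin k → ℤ[X]} {C₀ : ℕ}

private lemma mask_r {A : Finset (Fin k)} {Z : Fin k → ℝ} {r : ℕ → Lab k} {p : ℕ} {i : Fin k}
    {a : ℕ} (h : r p = .r i a) :
    (i ∈ A ∧ Z i < (p : ℝ) → mask A Z r p = .o) ∧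
      (¬ (i ∈ A ∧ Z i < (p : ℝ)) → mask A Z r p = .r i a) := by
  unfold mask
  rw [h]
  constructor
  · intro h'
    exact if_pos h'
  · intro h'
    exact if_neg h'

private lemma mask_o {A : Finset (Fin k)} {Z : Fin k → ℝ} {r : ℕ → Lab k} {p : ℕ}
    (h : r p = .o) : mask A Z r p = .o := by
  unfold mask
  rw [h]

private lemma mask_u {A : Finset (Fin k)} {Z : Fin k → ℝ} {r : ℕ → Lab k} {p : ℕ}
    (h : r p = .u) : mask A Z r p = .u := by
  unfold mask
  rw [h]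

/-- A root label of the masked function is the label of the function. -/
private lemma of_mask {A : Finset (Fin k)} {Z : Fin k → ℝ} {r : ℕ → Lab k} {p : ℕ} {i : Fin k}
    {a : ℕ} (h : mask A Z r p = .r i a) : r p = .r i a ∧ ¬ (i ∈ A ∧ Z i < (p : ℝ)) := by
  cases h' : r p with
  | o =>
    rw [mask_o h'] at h
    exact nomatch h
  | u =>
    rw [mask_u h'] at h
    exact nomatch h
  | r j b =>
    by_cases hj : j ∈ A ∧ Z j < (p : ℝ)
    · rw [(mask_r h').1 hj] at h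
      exact nomatch h
    · rw [(mask_r h').2 hj] at h
      injection h with h1 h2
      subst h1 h2
      exact ⟨rfl, hj⟩

private lemma mem_cut {Z : Fin k → ℝ} {i : Fin k} {S : Finset ℕ} {r : ℕ → Lab k} {p : ℕ} :
    p ∈ cut Z i S r ↔ p ∈ S ∧ (∃ a, r p = .r i a) ∧ Z i < (p : ℝ) := by
  unfold cut cpt
  rw [mem_filter, mem_filter]
  constructor
  · rintro ⟨⟨h1, h2⟩, h3⟩
    exact ⟨h1, ⟨_, h2⟩, h3⟩
  · rintro ⟨h1, ⟨a, h2⟩, h3⟩
    refine ⟨⟨h1, ?_⟩, h3⟩
    rw [h2]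
    rfl

private lemma mem_cpt {i : Fin k} {S : Finset ℕ} {r : ℕ → Lab k} {p : ℕ} :
    p ∈ cpt i S r ↔ p ∈ S ∧ ∃ a, r p = .r i a := by
  unfold cpt
  rw [mem_filter]
  constructor
  · rintro ⟨h1, h2⟩
    exact ⟨h1, ⟨_, h2⟩⟩
  · rintro ⟨h1, ⟨a, h2⟩⟩
    refine ⟨h1, ?_⟩
    rw [h2]
    rfl

/-- The primes of the masked label function. -/
theorem TT_mask {t : ℤ} {δ : ℚ[X]} {r : ℕ → Lab k} (hD : LabD f C₀ t δ r) (A : Finset (Fin k))
    (Z : Fin k → ℝ) (i : Fin k) : TT (mask A Z r) i = cpt i (bigPrimes C₀ t) (mask A Z r) := by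
  have h1 : {p : ℕ | mask A Z r p = .r i (mask A Z r p).rt} =
      ↑(cpt i (bigPrimes C₀ t) (mask A Z r)) := by
    ext p
    unfold cpt
    rw [Set.mem_ofPred_eq, mem_coe, mem_filter]
    refine ⟨fun h => ⟨?_, h⟩, fun h => h.2⟩
    refine (hD.supp p).1 ?_
    rw [(of_mask h).1]
    exact nofun
  have h2 : {p : ℕ | mask A Z r p = .r i (mask A Z r p).rt}.Finite := by
    rw [h1]
    exact finite_toSet _
  unfold TT
  rw [dif_pos h2]
  ext p
  rw [Set.Finite.mem_toFinset, h1, mem_coe]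

private lemma jac_eq {p : ℕ} [hp : Fact p.Prime] (z : ℤ) :
    J(z | p) = quadraticChar (ZMod p) (z : ZMod p) := by
  rw [← jacobiSym.legendreSym.to_jacobiSym, legendreSym]

private lemma jac_prod {ι : Type*} {p : ℕ} (hp : p.Prime) (s : Finset ι) (c : ι → ℤ) :
    J(∏ b ∈ s, c b | p) = ∏ b ∈ s, J(c b | p) := by
  have : Fact p.Prime := ⟨hp⟩
  rw [jac_eq, Int.cast_prod, map_prod]
  exact prod_congr rfl fun b _ => (jac_eq _).symm

/-- The signs only depend on the roots at the primes of `T` and at `p`. -/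
private lemma cR_congr (ε : Fin k → ℚ[X]) (s : ℤ) (T : Fin k → Finset ℕ) {ρ ρ' : ℕ → ℕ}
    (h : ∀ b, ∀ p ∈ T b, ρ p = ρ' p) {p : ℕ} (hp : ρ p = ρ' p) (i j : Fin k) (a : ℕ) :
    cR f ε s T ρ p i j a = cR f ε s T ρ' p i j a := by
  have h2 : ∀ (_ : Fact p.Prime) (α β : ℤ_[p]),
      ZR f ε s T ρ p i j α β = ZR f ε s T ρ' p i j α β := by
    intro _ α β
    unfold ZR tq
    rw [thue_congr (f i) (T i) ρ ρ' (h i), thue_congr (f j) (T j) ρ ρ' (h j)]
  have h3 : (∃ (_ : Fact p.Prime) (α β : ℤ_[p]), Lift (f j) p (ρ p) α ∧ Lift (f i) p a β ∧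
      IsSquare (ZR f ε s T ρ p i j α β)) ↔ (∃ (_ : Fact p.Prime) (α β : ℤ_[p]),
      Lift (f j) p (ρ' p) α ∧ Lift (f i) p a β ∧ IsSquare (ZR f ε s T ρ' p i j α β)) := by
    constructor
    · rintro ⟨i1, α, β, h3, h4, h5⟩
      exact ⟨i1, α, β, hp ▸ h3, h4, by rw [← h2]; exact h5⟩
    · rintro ⟨i1, α, β, h3, h4, h5⟩
      exact ⟨i1, α, β, hp.symm ▸ h3, h4, by rw [h2]; exact h5⟩
  unfold cR
  by_cases hP : (∃ (_ : Fact p.Prime) (α β : ℤ_[p]), Lift (f j) p (ρ p) α ∧ Lift (f i) p a β ∧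
      IsSquare (ZR f ε s T ρ p i j α β))
  · rw [if_pos hP, if_pos (h3.1 hP)]
  · rw [if_neg hP, if_neg (fun h => hP (h3.2 h))]

/-- The sign of the relation. -/
private lemma craw_eq (hG : GB f C₀) {t : ℤ} {δ : ℚ[X]} {r : ℕ → Lab k}
    (hD : LabD f C₀ t δ r) (A : Finset (Fin k)) (Z : Fin k → ℝ) (ε : Fin k → ℚ[X]) (s : ℤ)
    {p : ℕ} (hp : p.Prime) (hpC : C₀ < p) {i j : Fin k} {a c : ℕ} (ha : a ∈ R (f i) p)
    (hc : mask A Z r p = .r j c) :
    craw f ε s (mask A Z r) p a =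
      ((cR f ε s (fun b => cpt b (bigPrimes C₀ t) (mask A Z r)) (rts r) p i j a : ℤ) : ℝ) := by
  classical
  have hTT : TT (mask A Z r) = fun b => cpt b (bigPrimes C₀ t) (mask A Z r) := by
    funext b
    exact TT_mask hD A Z b
  have hρ : ∀ q b, mask A Z r q = .r b (mask A Z r q).rt → rts (mask A Z r) q = rts r q := by
    intro q b hq
    unfold rts
    rw [(of_mask hq).1]
    rfl
  have hcr : ∀ i j a, mask A Z r p = .r j (mask A Z r p).rt →
      cR f ε s (TT (mask A Z r)) (rts (mask A Z r)) p i j a =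
      cR f ε s (fun b => cpt b (bigPrimes C₀ t) (mask A Z r)) (rts r) p i j a := by
    intro i j a hj
    rw [hTT]
    exact cR_congr ε s _ (fun b q hq => hρ q b (mem_filter.1 hq).2) (hρ p j hj) i j a
  unfold craw
  rw [prod_eq_single i, prod_eq_single j]
  · have h1 : a ∈ R (f i) p ∧ mask A Z r p = .r j (mask A Z r p).rt := ⟨ha, by rw [hc]; rfl⟩
    rw [if_pos h1, hcr i j a h1.2]
  · intro b _ hb
    rw [if_neg]
    rintro ⟨_, h⟩
    rw [hc] at h
    injection h with h1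
    exact hb h1.symm
  · exact fun h => absurd (mem_univ _) h
  · intro b _ hb
    refine prod_eq_one fun b' _ => ?_
    rw [if_neg]
    rintro ⟨h, _⟩
    exact hb (hG.root_unique hp hpC h ha)
  · exact fun h => absurd (mem_univ _) h

theorem sel_rel (hG : GB f C₀) {t : ℤ} (ht : Squarefree t) {δ : ℚ[X]} {r : ℕ → Lab k}
    (hD : LabD f C₀ t δ r) (A : Finset (Fin k)) (Z : Fin k → ℝ) {x : ℚ} (hx : x ≠ 0)
    {ε : Fin k → ℚ[X]} {γ : (i : Fin k) → AdjoinRoot (fr (f i))} (hγ : ∀ i, ¬ γ i = 0)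
    (hmk : ∀ i, AdjoinRoot.mk (fr (f i)) (C x * (δ *
      (tq (f i) (cpt i (bigPrimes C₀ t) (mask A Z r)) (rts r) *
        tq (f i) (if i ∈ A then cut Z i (bigPrimes C₀ t) r else ∅) (rts r)))) =
      AdjoinRoot.mk (fr (f i)) (ε i) * γ i ^ 2) (p : ℕ)
    (hp : mask A Z r p ∈ Lbl false (fun i p => R (f i) p) A p) (a : ℕ)
    (ha : a ∈ JJ f A p (mask A Z r p)) :
    cfA f ε (sp C₀ t) (mask A Z r)
        (fun i => if i ∈ A then kap (f i) (cut Z i (bigPrimes C₀ t) r) (rts r) else 0) A p a *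
      ψψ f A p (mask A Z r p) a
        (fun i => thue (f i) (cut Z i (bigPrimes C₀ t) r) (rts r)) = 1 := by
  classical
  set T₁ : Fin k → Finset ℕ := fun i => cpt i (bigPrimes C₀ t) (mask A Z r) with hT₁
  set T₂ : Fin k → Finset ℕ := fun i => if i ∈ A then cut Z i (bigPrimes C₀ t) r else ∅ with hT₂
  have hT₂A : ∀ {i}, i ∈ A → T₂ i = cut Z i (bigPrimes C₀ t) r := fun h => if_pos h
  have hT₂N : ∀ {i}, i ∉ A → T₂ i = ∅ := fun h => if_neg h
  have hd : ∀ i, Disjoint (T₁ i) (T₂ i) := by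
    intro i
    rw [disjoint_left]
    intro q hq hq'
    obtain ⟨_, b, h1⟩ := mem_cpt.1 hq
    by_cases hi : i ∈ A
    · rw [hT₂A hi] at hq'
      exact (of_mask h1).2 ⟨hi, (mem_cut.1 hq').2.2⟩
    · rw [hT₂N hi] at hq'
      exact notMem_empty _ hq'
  have hun : ∀ i, T₁ i ∪ T₂ i = cpt i (bigPrimes C₀ t) r := by
    intro i
    ext q
    have hq0 : q ∈ cpt i (bigPrimes C₀ t) r ↔ q ∈ bigPrimes C₀ t ∧ ∃ a, r q = .r i a := mem_cpt
    rw [hq0, mem_union]
    constructor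
    · rintro (hq | hq)
      · obtain ⟨h1, b, h2⟩ := mem_cpt.1 hq
        exact ⟨h1, b, (of_mask h2).1⟩
      · by_cases hi : i ∈ A
        · rw [hT₂A hi] at hq
          obtain ⟨h1, h2, _⟩ := mem_cut.1 hq
          exact ⟨h1, h2⟩
        · rw [hT₂N hi] at hq
          exact absurd hq (notMem_empty _)
    · rintro ⟨h1, b, h2⟩
      by_cases hi : i ∈ A ∧ Z i < (q : ℝ)
      · right
        rw [hT₂A hi.1]
        exact mem_cut.2 ⟨h1, ⟨b, h2⟩, hi.2⟩
      · left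
        exact mem_cpt.2 ⟨h1, b, (mask_r h2).2 hi⟩
  -- the label
  obtain ⟨j, hj, c, hc, hjc⟩ : ∃ j ∈ A, ∃ c ∈ R (f j) p, mask A Z r p = .r j c := by
    unfold Lbl at hp
    rw [mem_union, mem_biUnion] at hp
    rcases hp with hp | ⟨j, hj, hp⟩
    · simp at hp
    · obtain ⟨c, hc, h⟩ := mem_image.1 hp
      exact ⟨j, hj, c, hc, h.symm⟩
  have hrp : r p = .r j c := (of_mask hjc).1
  have hpb : p ∈ bigPrimes C₀ t := (hD.supp p).1 (by rw [hrp]; exact nofun)
  have hpC : C₀ < p := by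
    unfold bigPrimes at hpb
    exact (mem_filter.1 hpb).2
  have hpp : p.Prime := by
    unfold bigPrimes at hpb
    exact Nat.prime_of_mem_primeFactors (mem_filter.1 hpb).1
  have hpf : Fact p.Prime := ⟨hpp⟩
  have hpT : p ∈ T₁ j := mem_cpt.2 ⟨hpb, c, hjc⟩
  have hrts : rts r p = c := by
    unfold rts
    rw [hrp]
    rfl
  rw [hjc] at ha ⊢
  -- the root
  have ha' : a ∈ RA f A p ∧ a ≠ c := by
    unfold JJ at ha
    simp only at ha
    split_ifs at ha
    · have := (mem_erase.1 (mem_erase.1 ha).2)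
      exact ⟨this.2, this.1⟩
    · exact ⟨(mem_erase.1 ha).2, (mem_erase.1 ha).1⟩
  obtain ⟨hRA, hac⟩ := ha'
  obtain ⟨i, hi, hai⟩ : ∃ i ∈ A, a ∈ R (f i) p := by
    unfold RA at hRA
    exact mem_biUnion.1 hRA
  have hrel := fun {i : Fin k} {a : ℕ} (ha : a ∈ R (f i) p) (hne : a ≠ rts r p) =>
    raw_rel hG ht hD hd hun hx hγ hmk hpT ha hne
  -- the values of the components
  have hEV : ∀ {B : Finset (Fin k)} {i : Fin k} {a : ℕ} (w : (i : Fin k) → ℤ), i ∈ B →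
      a ∈ R (f i) p → ∏ b ∈ B, (if a ∈ R (f b) p then w b else 1) = w i := by
    intro B i a w hi ha
    rw [prod_eq_single i]
    · rw [if_pos ha]
    · intro b _ hb
      rw [if_neg]
      exact fun h => hb (hG.root_unique hpp hpC h ha)
    · exact fun h => absurd hi h
  set g : (i : Fin k) → Fin (f i).natDegree → ℤ :=
    fun i => thue (f i) (cut Z i (bigPrimes C₀ t) r) (rts r) with hg
  have hgA : ∀ {b}, b ∈ A → thue (f b) (T₂ b) (rts r) = g b := by
    intro b hb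
    rw [hT₂A hb]
  have hEVa : EV f A p a g = ev (g i) (a : ℤ) := hEV (fun b => ev (g b) (a : ℤ)) hi hai
  have h1 := hrel hai (by rw [hrts]; exact hac)
  rw [hrts, hgA hi, hgA hj] at h1
  have hcr := fun {i : Fin k} {a : ℕ} (ha : a ∈ R (f i) p) =>
    craw_eq hG hD A Z ε (sp C₀ t) hpp hpC ha hjc
  unfold cfA ψψ
  by_cases hR : RA f Aᶜ p = ∅
  · rw [if_pos hR]
    simp only
    rw [if_pos hR, if_pos hj, hEVa, hcr hai]
    have h2 : (∏ b, J(kap (f b) (T₂ b) (rts r) | p)) *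
        J(ev (g i) (a : ℤ) * ev (g j) (c : ℤ) * ∏ b, Nm (f b) (thue (f b) (T₂ b) (rts r)) | p) =
        (∏ b ∈ A, J(kap (f b) (cut Z b (bigPrimes C₀ t) r) (rts r) | p)) *
        J(ev (g i) (a : ℤ) * ev (g j) (c : ℤ) * ∏ b ∈ A, Nm (f b) (g b) | p) := by
      rw [← prod_mul_prod_compl A, ← prod_mul_prod_compl A
        (fun b => Nm (f b) (thue (f b) (T₂ b) (rts r)))]
      have e1 : ∏ b ∈ A, J(kap (f b) (T₂ b) (rts r) | p) =
          ∏ b ∈ A, J(kap (f b) (cut Z b (bigPrimes C₀ t) r) (rts r) | p) :=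
        prod_congr rfl fun b hb => by rw [hT₂A hb]
      have e2 : ∏ b ∈ A, Nm (f b) (thue (f b) (T₂ b) (rts r)) = ∏ b ∈ A, Nm (f b) (g b) :=
        prod_congr rfl fun b hb => by rw [hgA hb]
      have e3 : (∏ b ∈ Aᶜ, J(kap (f b) (T₂ b) (rts r) | p)) *
          J(∏ b ∈ Aᶜ, Nm (f b) (thue (f b) (T₂ b) (rts r)) | p) = 1 := by
        rw [jac_prod hpp, ← prod_mul_distrib]
        refine prod_eq_one fun b hb => ?_
        have hb' : b ∉ A := mem_compl.1 hb
        have hV : Valid (f b) C₀ ∅ (rts r) := fun q hq => absurd hq (notMem_empty _)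
        rw [hT₂N hb', kap_mul (hG.good b) hV, prod_empty, Nat.cast_one, mul_one,
          ← jacobiSym.mul_left, ← pow_two, jacobiSym.pow_left]
        refine jacobiSym.sq_one ?_
        have h5 : Nat.Coprime p (kap (f b) ∅ (rts r)).natAbs :=
          (Nat.Prime.coprime_iff_not_dvd hpp).2 fun h =>
            not_dvd_kap (hG.good b) hV hpC (Int.natCast_dvd.2 h)
        exact Nat.coprime_comm.1 h5
      rw [e1, e2, ← mul_assoc (ev (g i) (a : ℤ) * ev (g j) (c : ℤ)), jacobiSym.mul_left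
        (ev (g i) (a : ℤ) * ev (g j) (c : ℤ) * ∏ b ∈ A, Nm (f b) (g b))]
      linear_combination ((∏ b ∈ A, J(kap (f b) (cut Z b (bigPrimes C₀ t) r) (rts r) | p)) *
        J(ev (g i) (a : ℤ) * ev (g j) (c : ℤ) * ∏ b ∈ A, Nm (f b) (g b) | p)) * e3
    rw [h2] at h1
    have e4 : ∏ b ∈ A, ((J((if b ∈ A then kap (f b) (cut Z b (bigPrimes C₀ t) r) (rts r) else 0) |
        p) : ℤ) : ℝ) =
        ((∏ b ∈ A, J(kap (f b) (cut Z b (bigPrimes C₀ t) r) (rts r) | p) : ℤ) : ℝ) := by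
      rw [Int.cast_prod]
      exact prod_congr rfl fun b hb => by rw [if_pos hb]
    rw [e4, mul_assoc, ← Int.cast_mul, ← Int.cast_mul, h1, Int.cast_one]
  · rw [if_neg hR]
    simp only
    rw [if_neg hR, hEVa]
    set a₀ := (RA f Aᶜ p).sup id with ha₀
    obtain ⟨i', hi', hai'⟩ : ∃ i' ∈ Aᶜ, a₀ ∈ R (f i') p := by
      obtain ⟨b, hb, hb'⟩ := exists_mem_eq_sup (RA f Aᶜ p) (nonempty_iff_ne_empty.2 hR) id
      have : a₀ ∈ RA f Aᶜ p := by
        rw [ha₀, hb']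
        exact hb
      unfold RA at this
      exact mem_biUnion.1 this
    have hi'A : i' ∉ A := mem_compl.1 hi'
    have hne : a₀ ≠ rts r p := by
      rw [hrts]
      intro h
      rw [h] at hai'
      exact hi'A (hG.root_unique hpp hpC hc hai' ▸ hj)
    have h2 := hrel hai' hne
    rw [hrts, hgA hj, hT₂N hi'A] at h2
    rw [hcr hai, hcr hai', hEV (fun b => ev (thue (f b) ∅ fun _ => 0) (a₀ : ℤ)) hi' hai']
    rw [thue_congr (f i') ∅ (rts r) (fun _ => 0) (fun q hq => absurd hq (notMem_empty _))] at h2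
    rw [jacobiSym.mul_left, jacobiSym.mul_left] at h1 h2
    set K := ∏ b, J(kap (f b) (T₂ b) (rts r) | p)
    set X₁ := J(ev (g i) (a : ℤ) | p)
    set X₂ := J(ev (thue (f i') ∅ fun _ => 0) (a₀ : ℤ) | p)
    set Y := J(ev (g j) (c : ℤ) | p)
    set W := J(∏ b, Nm (f b) (thue (f b) (T₂ b) (rts r)) | p)
    set c₁ := cR f ε (sp C₀ t) T₁ (rts r) p i j a
    set c₂ := cR f ε (sp C₀ t) T₁ (rts r) p i' j a₀
    have h3 : IsUnit (K * Y * W) := by
      refine IsUnit.of_mul_eq_one (c₁ * X₁) ?_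
      linear_combination h1
    have h4 : (K * Y * W) ^ 2 = 1 := by
      rcases Int.isUnit_iff.1 h3 with h | h <;> rw [h] <;> norm_num
    have h5 : c₁ * c₂ * X₂ * X₁ = 1 := by
      have h6 : (c₁ * (K * (X₁ * Y * W))) * (c₂ * (K * (X₂ * Y * W))) = 1 := by
        rw [h1, h2, one_mul]
      linear_combination h6 - (c₁ * c₂ * X₂ * X₁) * h4
    rw [← Int.cast_mul, ← Int.cast_mul, ← Int.cast_mul]
    rw [h5, Int.cast_one]

end Stoll308.TW
end

section
set_option autoImplicit false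

/-!
The system of characters of the twists of `y² = f₁(x) ⋯ f_k(x)` (as `Gen.exists_relData`).
-/

namespace Stoll308.TW

open Finset Polynomial Stoll308.Gen NumberTheorySymbols

variable {k : ℕ} {f : Fin k → ℤ[X]} {C₀ : ℕ}

/-- The primes of the masked label function and the cut ones. -/
private lemma cpt_mask_union (A : Finset (Fin k)) (Z : Fin k → ℝ) (i : Fin k) (S : Finset ℕ)
    (r : ℕ → Lab k) :
    Disjoint (cpt i S (mask A Z r)) (if i ∈ A then cut Z i S r else ∅) ∧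
      cpt i S (mask A Z r) ∪ (if i ∈ A then cut Z i S r else ∅) = cpt i S r := by
  classical
  have hm : ∀ q : ℕ, mask A Z r q = .r i (mask A Z r q).rt ↔
      (r q = .r i (r q).rt ∧ ¬ (i ∈ A ∧ Z i < (q : ℝ))) := by
    intro q
    unfold mask
    rcases hq : r q with _ | _ | ⟨j, b⟩
    · simp
    · simp
    · simp only
      by_cases hj : j ∈ A ∧ Z j < (q : ℝ)
      · rw [if_pos hj]
        constructor
        · intro h
          cases h
        · rintro ⟨h1, h2⟩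
          have h3 := (Lab.r.inj h1).1
          subst h3
          exact absurd hj h2
      · rw [if_neg hj]
        constructor
        · intro h
          have h3 := (Lab.r.inj h).1
          subst h3
          exact ⟨h, hj⟩
        · rintro ⟨h1, _⟩
          exact h1
  have h1 : ∀ q, q ∈ cpt i S (mask A Z r) ↔ q ∈ S ∧ (r q = .r i (r q).rt ∧
      ¬ (i ∈ A ∧ Z i < (q : ℝ))) := by
    intro q
    unfold cpt
    rw [mem_filter, hm]
  have h2 : ∀ q, q ∈ (if i ∈ A then cut Z i S r else ∅) ↔ q ∈ S ∧ (r q = .r i (r q).rt ∧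
      (i ∈ A ∧ Z i < (q : ℝ))) := by
    intro q
    by_cases hi : i ∈ A
    · rw [if_pos hi]
      unfold cut cpt
      rw [mem_filter, mem_filter]
      tauto
    · rw [if_neg hi]
      constructor
      · intro h
        exact absurd h (notMem_empty _)
      · rintro ⟨_, _, h, _⟩
        exact absurd h hi
  constructor
  · rw [disjoint_left]
    intro q hq hq'
    exact ((h1 q).1 hq).2.2 ((h2 q).1 hq').2.2
  · ext q
    rw [mem_union, h1, h2]
    unfold cpt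
    rw [mem_filter]
    tauto

theorem exists_sys (hG : GB f C₀) : ∃ D : Sys k, D.C₀ = C₀ ∧ D.inf = false ∧
    (∀ i p, D.Rt i p = R (f i) p) ∧ (∀ A p, D.wt A p = wA f A p) ∧
    ∀ t : ℤ, Squarefree t → Gen.Sel (FF f) t → ∃ r, D.Dt t r := by
  classical
  have hirr' : ∀ i, Fact (Irreducible (fr (f i))) := fun i => ⟨fr_irr (hG.good i)⟩
  obtain ⟨S, hS, hcom⟩ := exists_common hG
  obtain ⟨P, hP⟩ : ∃ P : Finset ((i : Fin k) → KK (f i)),
      P = Fintype.piFinset fun i => (hS i).toFinset := ⟨_, rfl⟩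
  have hlift : ∀ i, ∀ z : KK (f i), ∃ q : ℚ[X], AdjoinRoot.mk (fr (f i)) q = z :=
    fun i => AdjoinRoot.mk_surjective
  choose lf hlf using hlift
  let en := P.equivFin
  have hKle : C₀ ≤ C₀ + ∑ i, (f i).natDegree + 1 := by omega
  let D : Sys k :=
    { n := fun i => (f i).natDegree
      C₀ := C₀
      m := P.card
      K := C₀ + ∑ i, (f i).natDegree + 1
      inf := false
      Rt := fun i p => R (f i) p
      g := fun i T ρ => thue (f i) T ρ
      κ := fun i T ρ => kap (f i) T ρ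
      J := JJ f
      ψ := ψψ f
      cf := fun e s r κ A p c =>
        cfA f (fun i => lf i (((en.symm e : P) : (i : Fin k) → KK (f i)) i)) s r κ A p c
      n_pos := fun i => (hG.good i).deg
      card_le := fun p hp hpC => by
        have h1 : ∑ i, (R (f i) p).card ≤ ∑ i, (f i).natDegree :=
          sum_le_sum fun i _ => hG.card_R_le hp i
        omega
      cf_le := fun e s r κ A p c => cfA_le _ _ _ _ _ _ _
      ψ_le := fun A p ℓ c g => ψψ_le _ _ _ _ _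
      ψ_per := fun A p ℓ c g g' h => ψψ_per _ _ _ _ _ _ h
      nontriv := fun A p ℓ hp hpC hℓ S hS hne => nontriv_A hG A p ℓ hp hpC hℓ S hS hne
      g_congr := fun i T ρ ρ' h => thue_congr _ _ _ _ h
      κ_congr := fun i T ρ ρ' h => kap_congr _ _ _ _ h
      g_le := fun i T ρ hV x => (thue_spec' (hG.good i) hV).2.1 x
      g_inj := fun i T ρ T' ρ' hV hV' h => thue_inj (hG.good i) hV hV' h
      κ_le := fun i T ρ hV => (kap_le (hG.good i) hV).trans (by exact_mod_cast hKle) }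
  refine ⟨D, rfl, rfl, fun i p => rfl, fun A p => rfl, fun t ht hSel => ?_⟩
  obtain ⟨δ, hδ, hloc, -⟩ := hSel
  obtain ⟨r, hD⟩ := exists_labD hG ht hloc
  have hFF : ∀ i, f i ∣ FF f := fun i => dvd_prod_of_mem _ (mem_univ i)
  have hδ0 : ∀ i, AdjoinRoot.mk (fr (f i)) δ ≠ 0 := by
    intro i h
    rw [AdjoinRoot.mk_eq_zero] at h
    have h1 : fr (f i) ∣ (FF f).map (Int.castRingHom ℚ) := Polynomial.map_dvd _ (hFF i)
    exact (fr_irr (hG.good i)).not_isUnit (hδ.isUnit_of_dvd' h h1)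
  refine ⟨r, hD.supp, ?_, ?_⟩
  · intro p
    by_cases hp : p ∈ bigPrimes C₀ t
    · right
      obtain ⟨j, hj, hR⟩ := hD.lab p hp
      rw [hj]
      change Lab.r j (r p).rt ∈ Lbl false (fun i p => R (f i) p) univ p
      unfold Lbl
      rw [mem_union, mem_biUnion]
      exact Or.inr ⟨j, mem_univ _, mem_image.2 ⟨_, hR, rfl⟩⟩
    · left
      by_contra h
      exact hp ((hD.supp p).1 h)
  · intro A Z
    have hd := fun i => (cpt_mask_union A Z i (bigPrimes C₀ t) r).1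
    have hun := fun i => (cpt_mask_union A Z i (bigPrimes C₀ t) r).2
    have hV : ∀ i, Valid (f i) C₀ (cpt i (bigPrimes C₀ t) r) (rts r) := valid_cpt hD
    have hV₁ : ∀ i, Valid (f i) C₀ (cpt i (bigPrimes C₀ t) (mask A Z r)) (rts r) :=
      fun i q hq => hV i q (hun i ▸ mem_union_left _ hq)
    have hV₂ : ∀ i, Valid (f i) C₀ (if i ∈ A then cut Z i (bigPrimes C₀ t) r else ∅) (rts r) :=
      fun i q hq => hV i q (hun i ▸ mem_union_right _ hq)
    obtain ⟨x, hx, hε⟩ := hcom (fun i => δ * (tq (f i) (cpt i (bigPrimes C₀ t) (mask A Z r))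
        (rts r) * tq (f i) (if i ∈ A then cut Z i (bigPrimes C₀ t) r else ∅) (rts r)))
      (fun i => by
        rw [map_mul, map_mul]
        exact mul_ne_zero (hδ0 i) (mul_ne_zero (mk_tq_ne_zero (hG.good i) (hV₁ i))
          (mk_tq_ne_zero (hG.good i) (hV₂ i))))
      (fun p hpf hpC => unit_tuple hG hD hd hun p hpC)
    choose ε hεS γ hγ hmk using hε
    have hεP : (fun i => ε i) ∈ P := by
      rw [hP, Fintype.mem_piFinset]
      intro i
      rw [Set.Finite.mem_toFinset]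
      exact hεS i
    refine ⟨en ⟨fun i => ε i, hεP⟩, fun p hp c hc => ?_⟩
    have h1 : ((en.symm (en ⟨fun i => ε i, hεP⟩) : P) : (i : Fin k) → KK (f i)) = ε := by
      rw [Equiv.symm_apply_apply]
    have h2 := sel_rel hG ht hD A Z hx (ε := fun i => lf i (ε i)) (γ := γ) (fun i => hγ i)
      (fun i => by
        rw [hlf]
        exact hmk i) p hp c hc
    change cfA f (fun i => lf i (((en.symm (en ⟨fun i => ε i, hεP⟩) : P) :
      (i : Fin k) → KK (f i)) i)) (sp C₀ t) (mask A Z r) _ A p c * _ = 1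
    rw [h1]
    exact h2

end Stoll308.TW
end

section
set_option autoImplicit false

/-!
Factorisation, and rational points.
-/

namespace Stoll308.TW

open Finset Polynomial Stoll308.Gen

private lemma exists_list (n : ℕ) : ∀ F : ℤ[X], F.Monic → F.natDegree ≤ n →
    ∃ l : List ℤ[X], (∀ g ∈ l, g.Monic ∧ Irreducible g) ∧ l.prod = F := by
  induction n with
  | zero =>
    intro F hF hn
    refine ⟨[], by simp, ?_⟩
    rw [List.prod_nil]
    exact ((Polynomial.Monic.natDegree_eq_zero hF).1 (by omega)).symm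
  | succ n ih =>
    intro F hF hn
    by_cases h1 : F = 1
    · exact ⟨[], by simp, by rw [List.prod_nil, h1]⟩
    by_cases hirr : Irreducible F
    · exact ⟨[F], by simp [hF, hirr], by simp⟩
    rw [hF.irreducible_iff_natDegree'] at hirr
    push Not at hirr
    obtain ⟨g, h, hg, hh, hgh, hmem⟩ := hirr h1
    rw [Finset.mem_Ioc] at hmem
    have hdeg : F.natDegree = g.natDegree + h.natDegree := by
      rw [← hgh, hg.natDegree_mul hh]
    obtain ⟨l₁, hl₁, hp₁⟩ := ih g hg (by omega)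
    obtain ⟨l₂, hl₂, hp₂⟩ := ih h hh (by omega)
    refine ⟨l₁ ++ l₂, ?_, by rw [List.prod_append, hp₁, hp₂, hgh]⟩
    intro q hq
    rcases List.mem_append.1 hq with hq | hq
    · exact hl₁ q hq
    · exact hl₂ q hq

/-- The factorisation of a monic separable polynomial without factors of degree `< m`. -/
theorem exists_fac (m : ℕ) (F : ℤ[X]) (hF : F.Monic) (h1 : 1 ≤ F.natDegree)
    (hsep : (F.map (Int.castRingHom ℚ)).Separable)
    (h3 : ∀ g : ℚ[X], Irreducible g → g ∣ F.map (Int.castRingHom ℚ) → m ≤ g.natDegree) :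
    ∃ (k : ℕ) (f : Fin k → ℤ[X]), 0 < k ∧ (∀ i, (f i).Monic) ∧ (∀ i, Irreducible (f i)) ∧
      (∀ i, m ≤ (f i).natDegree) ∧ F = FF f := by
  obtain ⟨l, hl, hp⟩ := exists_list F.natDegree F hF le_rfl
  have hprod : F = FF fun i : Fin l.length => l[i.1] := by
    rw [← hp]
    exact (Fin.prod_univ_getElem l).symm
  refine ⟨l.length, fun i => l[i.1], ?_, fun i => (hl _ (List.getElem_mem _)).1,
    fun i => (hl _ (List.getElem_mem _)).2, fun i => ?_, hprod⟩
  · rw [List.length_pos_iff]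
    rintro rfl
    rw [List.prod_nil] at hp
    rw [← hp, natDegree_one] at h1
    omega
  · have hm := (hl l[i.1] (List.getElem_mem _)).1
    have hi := (hl l[i.1] (List.getElem_mem _)).2
    rw [hm.irreducible_iff_irreducible_map_fraction_map (K := ℚ)] at hi
    have h2 : algebraMap ℤ ℚ = Int.castRingHom ℚ := rfl
    rw [h2] at hi
    have h4 := h3 _ hi (by
      have h5 : l[i.1] ∣ F := by
        rw [hprod]
        exact dvd_prod_of_mem (fun i : Fin l.length => l[i.1]) (mem_univ i)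
      exact Polynomial.map_dvd _ h5)
    rwa [natDegree_map_eq_of_injective Int.cast_injective] at h4

/-- The hypotheses pass from `F` to its monic version. -/
theorem mon_hyp (m : ℕ) (F : ℤ[X]) (hn : 1 ≤ F.natDegree)
    (hsep : (F.map (Int.castRingHom ℚ)).Separable)
    (h3 : ∀ g : ℚ[X], Irreducible g → g ∣ F.map (Int.castRingHom ℚ) → m ≤ g.natDegree) :
    ((Stoll308.Irr.mon F).map (Int.castRingHom ℚ)).Separable ∧
    ∀ g : ℚ[X], Irreducible g → g ∣ (Stoll308.Irr.mon F).map (Int.castRingHom ℚ) →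
      m ≤ g.natDegree := by
  have hc := Stoll308.Irr.lc_ne (K := ℚ) hn
  constructor
  · have h1 := Stoll308.Irr.map_comp_inv (F := F) (K := ℚ) hn
    have h2 : ((F.map (Int.castRingHom ℚ)).comp (C (F.leadingCoeff : ℚ)⁻¹ * X)).Separable := by
      rw [Polynomial.Separable, derivative_comp, derivative_C_mul_X]
      have h4 := IsCoprime.map hsep (compRingHom (C (F.leadingCoeff : ℚ)⁻¹ * X))
      simp only [coe_compRingHom_apply] at h4
      refine IsCoprime.mul_right ?_ h4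
      have hu : IsUnit (C (F.leadingCoeff : ℚ)⁻¹ : ℚ[X]) := by
        rw [Polynomial.isUnit_C, isUnit_iff_ne_zero]
        exact inv_ne_zero hc
      obtain ⟨w, hw⟩ := hu.exists_left_inv
      exact ⟨0, w, by rw [zero_mul, zero_add, hw]⟩
    rw [h1] at h2
    exact h2.of_dvd (dvd_mul_left _ _)
  · intro g hg hgd
    let e : ℚ[X] ≃+* ℚ[X] := RingEquiv.ofRingHom
      (compRingHom (C (F.leadingCoeff : ℚ) * X)) (compRingHom (C (F.leadingCoeff : ℚ)⁻¹ * X))
      (by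
        apply RingHom.ext
        intro q
        change (q.comp (C (F.leadingCoeff : ℚ)⁻¹ * X)).comp (C (F.leadingCoeff : ℚ) * X) = q
        rw [comp_assoc]
        have : (C (F.leadingCoeff : ℚ)⁻¹ * X : ℚ[X]).comp (C (F.leadingCoeff : ℚ) * X) = X := by
          rw [mul_comp, C_comp, X_comp, ← mul_assoc, ← C_mul, inv_mul_cancel₀ hc, C_1, one_mul]
        rw [this, comp_X])
      (by
        apply RingHom.ext
        intro q
        exact Stoll308.Irr.comp_comp_inv hn q)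
    have h5 : Irreducible (g.comp (C (F.leadingCoeff : ℚ) * X)) :=
      (MulEquiv.irreducible_iff e.toMulEquiv).2 hg
    have h6 := map_dvd (compRingHom (C (F.leadingCoeff : ℚ) * X)) hgd
    simp only [coe_compRingHom_apply] at h6
    rw [Stoll308.Irr.mon_map_comp hn] at h6
    have hu : IsUnit (C ((F.leadingCoeff : ℚ) ^ (F.natDegree - 1)) : ℚ[X]) := by
      rw [Polynomial.isUnit_C, isUnit_iff_ne_zero]
      exact pow_ne_zero _ hc
    have h7 := h3 _ h5 ((hu.dvd_mul_left).1 h6)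
    rw [natDegree_comp] at h7
    have h8 : (C (F.leadingCoeff : ℚ) * X : ℚ[X]).natDegree = 1 := natDegree_C_mul_X _ hc
    rwa [h8, mul_one] at h7

/-- A rational point gives an element of the fake Selmer set (`Irr.fakeSel_of_point` without
irreducibility). -/
theorem fakeSel_of_pt (F : ℤ[X]) (hF : F ≠ 0)
    (hroot : ∀ z : ℚ, (F.map (Int.castRingHom ℚ)).eval z ≠ 0) (t : ℤ)
    (hinf : ¬ IsSquare ((t : ℚ) * (F.leadingCoeff : ℚ)))
    (h : Stoll308.Irr.HasPoint F t ℚ) : Stoll308.Irr.FakeSel F t := by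
  rcases h with ⟨x, y, hxy⟩ | h
  swap
  · exact absurd h hinf
  have hy : y ≠ 0 := by
    rintro rfl
    apply hroot x
    rw [← hxy]; ring
  have hloc : ∀ (K : Type) [Field K] [CharZero K] [Algebra ℚ K],
      Stoll308.Irr.LocalImage F t (C x - X) K := by
    intro K _ _ _
    have hcast : ∀ q : ℚ, algebraMap ℚ K q = (q : K) := fun q => by simp
    refine ⟨(x : K), (y : K), 1, 1, by exact_mod_cast hy, one_ne_zero, ?_, ?_⟩
    · have h1 := congrArg (algebraMap ℚ K) hxy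
      rw [← eval_map_apply, Stoll308.Gen.map_cast_map, hcast, hcast] at h1
      rw [← h1]
      push_cast
      rfl
    · rw [Polynomial.map_sub, map_C, map_X, hcast, C_1, one_mul, one_pow, mul_one, sub_self]
      exact dvd_zero _
  refine ⟨C x - X, ?_, fun p _ => hloc ℚ_[p], hloc ℝ⟩
  have h1 : (C x - X : ℚ[X]) = -(X - C x) := by ring
  rw [h1, IsCoprime.neg_left_iff, (irreducible_X_sub_C x).coprime_iff_not_dvd, dvd_iff_isRoot]
  exact hroot x

/-- Rational points are taken care of by the fake Selmer set (`Irr.card_or_point` without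
irreducibility). -/
theorem card_or_pt (F : ℤ[X]) (hF : F ≠ 0)
    (hroot : ∀ z : ℚ, (F.map (Int.castRingHom ℚ)).eval z ≠ 0)
    (h1 : ∃ c : ℝ, 0 < c ∧ ∃ X₀ : ℕ, ∀ X : ℕ, X₀ ≤ X →
      c * X / Real.log X ≤ (Stoll308.Irr.cnt (Stoll308.Irr.ELS F) X : ℝ))
    (h2 : ∃ c C : ℝ, 0 < c ∧ ∃ X₀ : ℕ, ∀ X : ℕ, X₀ ≤ X →
      (Stoll308.Irr.cnt (Stoll308.Irr.FakeSel F) X : ℝ) ≤
        C * Real.log X ^ (-c) * Stoll308.Irr.cnt (Stoll308.Irr.ELS F) X) :
    ∃ c C : ℝ, 0 < c ∧ ∃ X₀ : ℕ, ∀ X : ℕ, X₀ ≤ X →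
      (Stoll308.Irr.cnt (fun t => Stoll308.Irr.FakeSel F t ∨ Stoll308.Irr.HasPoint F t ℚ) X : ℝ) ≤
        C * Real.log X ^ (-c) * Stoll308.Irr.cnt (Stoll308.Irr.ELS F) X := by
  obtain ⟨c₁, hc₁, X₁, h1⟩ := h1
  obtain ⟨c, C, hc, X₂, h2⟩ := h2
  have hc0 : F.leadingCoeff ≠ 0 := by
    rw [Ne, leadingCoeff_eq_zero]
    exact hF
  have hlog : ∀ᶠ X : ℕ in Filter.atTop, Real.log X ^ (c + 1) ≤ c₁ * X := by
    have h3 := (isLittleO_log_rpow_rpow_atTop (c + 1) (by norm_num : (0 : ℝ) < 1)).def hc₁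
    have h4 := tendsto_natCast_atTop_atTop (R := ℝ) |>.eventually h3
    filter_upwards [h4, Filter.eventually_ge_atTop 1] with X hX hX1
    rw [Real.rpow_one, Real.norm_eq_abs, Real.norm_eq_abs, Nat.abs_cast] at hX
    exact (le_abs_self _).trans hX
  obtain ⟨X₃, h3⟩ := Filter.eventually_atTop.1 hlog
  refine ⟨c, C + 1, hc, max (max X₁ X₂) (max X₃ 3), fun X hX => ?_⟩
  have hX1 : X₁ ≤ X := le_trans (le_trans (le_max_left _ _) (le_max_left _ _)) hX
  have hX2 : X₂ ≤ X := le_trans (le_trans (le_max_right _ _) (le_max_left _ _)) hX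
  have hX3 : X₃ ≤ X := le_trans (le_trans (le_max_left _ _) (le_max_right _ _)) hX
  have hX4 : 3 ≤ X := le_trans (le_trans (le_max_right _ _) (le_max_right _ _)) hX
  have hX4R : (3 : ℝ) ≤ X := by exact_mod_cast hX4
  have hlogX : 0 < Real.log X := Real.log_pos (by linarith)
  have e1 := h1 X hX1
  have e2 := h2 X hX2
  have e3 := h3 X hX3
  have e4 : (Stoll308.Irr.cnt (fun t => ¬ Stoll308.Irr.FakeSel F t ∧
      Stoll308.Irr.HasPoint F t ℚ) X : ℝ) ≤ 1 := by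
    have := Stoll308.Irr.cnt_square_le (fun t => ¬ Stoll308.Irr.FakeSel F t ∧
      Stoll308.Irr.HasPoint F t ℚ) F.leadingCoeff hc0
      (fun t ht => by
        by_contra hcon
        exact ht.1 (fakeSel_of_pt F hF hroot t hcon ht.2)) X
    exact_mod_cast this
  have e5 : (Stoll308.Irr.cnt (fun t => Stoll308.Irr.FakeSel F t ∨
      Stoll308.Irr.HasPoint F t ℚ) X : ℝ) ≤ Stoll308.Irr.cnt (Stoll308.Irr.FakeSel F) X + 1 := by
    have h5 := Stoll308.Irr.cnt_or_le (Stoll308.Irr.FakeSel F)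
      (fun t => Stoll308.Irr.HasPoint F t ℚ) X
    have h6 : (Stoll308.Irr.cnt (fun t => Stoll308.Irr.FakeSel F t ∨
        Stoll308.Irr.HasPoint F t ℚ) X : ℝ) ≤
        Stoll308.Irr.cnt (Stoll308.Irr.FakeSel F) X +
          Stoll308.Irr.cnt (fun t => ¬ Stoll308.Irr.FakeSel F t ∧
            Stoll308.Irr.HasPoint F t ℚ) X := by
      exact_mod_cast h5
    linarith
  have hp0 : 0 < Real.log X ^ (-c) := Real.rpow_pos_of_pos hlogX _
  have e6 : 1 ≤ Real.log X ^ (-c) * Stoll308.Irr.cnt (Stoll308.Irr.ELS F) X := by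
    have h7 : Real.log X ^ (-c) * (c₁ * X / Real.log X) = c₁ * X / Real.log X ^ (c + 1) := by
      rw [Real.rpow_neg hlogX.le, Real.rpow_add_one hlogX.ne']
      field_simp
    calc (1 : ℝ) ≤ c₁ * X / Real.log X ^ (c + 1) := by
          rw [le_div_iff₀ (Real.rpow_pos_of_pos hlogX _), one_mul]
          exact e3
      _ = Real.log X ^ (-c) * (c₁ * X / Real.log X) := h7.symm
      _ ≤ _ := mul_le_mul_of_nonneg_left e1 hp0.le
  calc (Stoll308.Irr.cnt (fun t => Stoll308.Irr.FakeSel F t ∨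
        Stoll308.Irr.HasPoint F t ℚ) X : ℝ) ≤ Stoll308.Irr.cnt (Stoll308.Irr.FakeSel F) X + 1 := e5
    _ ≤ C * Real.log X ^ (-c) * Stoll308.Irr.cnt (Stoll308.Irr.ELS F) X +
          Real.log X ^ (-c) * Stoll308.Irr.cnt (Stoll308.Irr.ELS F) X :=
        add_le_add e2 e6
    _ = _ := by ring

end Stoll308.TW
end

section
set_option autoImplicit false

/-!
Quadratic twists of a hyperelliptic curve of genus at least two over `ℚ` without rational
Weierstrass points: 100 percent of the everywhere locally soluble ones have an empty fake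
`2`-Selmer set and no rational point.
-/

namespace Stoll308.TW

open Polynomial Finset Stoll308.Irr

/-- Every quadratic factor `q` of `F` has no root in the stem field of some factor of `F`. -/
def QuadOK (F : ℤ[X]) : Prop :=
  ∀ q : ℚ[X], Irreducible q → q ∣ F.map (Int.castRingHom ℚ) → q.natDegree = 2 →
    ∃ g : ℚ[X], Irreducible g ∧ g ∣ F.map (Int.castRingHom ℚ) ∧
      ∀ z : AdjoinRoot g, aeval z q ≠ 0

/-- Substituting a multiple of the variable preserves irreducibility. -/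
private lemma irreducible_comp {c : ℚ} (hc : c ≠ 0) {g : ℚ[X]} (hg : Irreducible g) :
    Irreducible (g.comp (C c * X)) := by
  have h1 : ∀ (a b : ℚ), a * b = 1 → ∀ q : ℚ[X], (q.comp (C a * X)).comp (C b * X) = q := by
    intro a b hab q
    rw [comp_assoc]
    have : (C a * X : ℚ[X]).comp (C b * X) = X := by
      rw [mul_comp, C_comp, X_comp, ← mul_assoc, ← C_mul, hab, C_1, one_mul]
    rw [this, comp_X]
  let e : ℚ[X] ≃+* ℚ[X] := RingEquiv.ofRingHom
    (compRingHom (C c * X)) (compRingHom (C c⁻¹ * X))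
    (by
      apply RingHom.ext
      intro q
      exact h1 _ _ (inv_mul_cancel₀ hc) q)
    (by
      apply RingHom.ext
      intro q
      exact h1 _ _ (mul_inv_cancel₀ hc) q)
  exact (MulEquiv.irreducible_iff e.toMulEquiv).2 hg

private lemma natDegree_comp_mul {c : ℚ} (hc : c ≠ 0) (g : ℚ[X]) :
    (g.comp (C c * X)).natDegree = g.natDegree := by
  rw [natDegree_comp, natDegree_C_mul_X _ hc, mul_one]

/-- `QuadOK` passes to the monic version. -/
theorem quadOK_mon (F : ℤ[X]) (hn : 1 ≤ F.natDegree) (h : QuadOK F) : QuadOK (mon F) := by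
  have hc := Stoll308.Irr.lc_ne (K := ℚ) hn
  intro q hq hqd hq2
  have h1 := map_dvd (compRingHom (C (F.leadingCoeff : ℚ) * X)) hqd
  simp only [coe_compRingHom_apply] at h1
  rw [Stoll308.Irr.mon_map_comp hn] at h1
  have hu : IsUnit (C ((F.leadingCoeff : ℚ) ^ (F.natDegree - 1)) : ℚ[X]) := by
    rw [Polynomial.isUnit_C, isUnit_iff_ne_zero]
    exact pow_ne_zero _ hc
  obtain ⟨g, hg, hgd, hno⟩ := h (q.comp (C (F.leadingCoeff : ℚ) * X)) (irreducible_comp hc hq)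
    ((hu.dvd_mul_left).1 h1) (by rw [natDegree_comp_mul hc, hq2])
  refine ⟨g.comp (C (F.leadingCoeff : ℚ)⁻¹ * X), irreducible_comp (inv_ne_zero hc) hg, ?_, ?_⟩
  · have h2 := map_dvd (compRingHom (C (F.leadingCoeff : ℚ)⁻¹ * X)) hgd
    simp only [coe_compRingHom_apply] at h2
    rw [Stoll308.Irr.map_comp_inv hn] at h2
    have hu' : IsUnit (C ((F.leadingCoeff : ℚ) ^ (F.natDegree - 1))⁻¹ : ℚ[X]) := by
      rw [Polynomial.isUnit_C, isUnit_iff_ne_zero]
      exact inv_ne_zero (pow_ne_zero _ hc)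
    exact (hu'.dvd_mul_left).1 h2
  · intro z hz
    have h3 : aeval (algebraMap ℚ (AdjoinRoot g) (F.leadingCoeff : ℚ) * AdjoinRoot.root g)
        (g.comp (C (F.leadingCoeff : ℚ)⁻¹ * X)) = 0 := by
      rw [aeval_comp, map_mul, aeval_C, aeval_X, ← mul_assoc, ← map_mul, inv_mul_cancel₀ hc,
        map_one, one_mul, AdjoinRoot.aeval_eq, AdjoinRoot.mk_self]
    let φ : AdjoinRoot (g.comp (C (F.leadingCoeff : ℚ)⁻¹ * X)) →ₐ[ℚ] AdjoinRoot g :=
      AdjoinRoot.liftAlgHom _ (Algebra.ofId ℚ _)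
        (algebraMap ℚ (AdjoinRoot g) (F.leadingCoeff : ℚ) * AdjoinRoot.root g) h3
    apply hno (algebraMap ℚ (AdjoinRoot g) (F.leadingCoeff : ℚ)⁻¹ * φ z)
    rw [aeval_comp, map_mul, aeval_C, aeval_X, ← mul_assoc, ← map_mul, mul_inv_cancel₀ hc,
      map_one, one_mul, aeval_algHom_apply, hz, map_zero]

private lemma lowMert_of_sep2 (f : ℤ[X]) (hf : f.Monic)
    (hsep : (f.map (Int.castRingHom ℚ)).Separable) :
    LowMert fun p => (Stoll308.Gen.R f p).card = f.natDegree := by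
  classical
  obtain ⟨κ, B, hκ, h⟩ := Stoll308.Cheb.splitMert f hf hsep
  refine ⟨κ, B, hκ, fun x y hx hxy => (h x y hx hxy).trans (le_of_eq ?_)⟩
  refine sum_congr ?_ fun _ _ => rfl
  ext p
  simp only [mem_filter]

/-- The upper bound in the monic case. -/
private lemma upper_monic2 (F : ℤ[X]) (hm : F.Monic)
    (hsep : (F.map (Int.castRingHom ℚ)).Separable)
    (h2 : ∀ g : ℚ[X], Irreducible g → g ∣ F.map (Int.castRingHom ℚ) → 2 ≤ g.natDegree)
    (hq : QuadOK F) (hev : Even F.natDegree) (h6 : 6 ≤ F.natDegree) :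
    ∃ c C : ℝ, 0 < c ∧ ∃ X₀ : ℕ, ∀ X : ℕ, X₀ ≤ X →
      (cnt (Stoll308.Gen.Sel F) X : ℝ) ≤ C * X * Real.log X ^ (-1 - c) * VV F X := by
  classical
  obtain ⟨k, f, hk, hfm, hfi, hfd, hF⟩ := exists_fac 2 F hm (by omega) hsep h2
  have hdeg : F.natDegree = ∑ i, (f i).natDegree := by
    rw [hF]
    exact natDegree_FF hfm
  obtain ⟨B, hB⟩ := exists_GB hfm hfi hfd (hdeg ▸ hev) (hdeg ▸ h6) (hF ▸ hsep)
  have hG := hB B le_rfl
  obtain ⟨D, hC, hinf, hRt, hwt, hDt⟩ := exists_sys hG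
  have hfF : ∀ i, f i ∣ F := by
    intro i
    rw [hF]
    exact dvd_prod_of_mem _ (mem_univ i)
  obtain ⟨E, hE⟩ : ∃ E : Finset (Fin k), E = univ.filter fun i => (f i).natDegree = 2 :=
    ⟨_, rfl⟩
  have hA : ∀ A : Finset (Fin k), A.Nonempty → (∀ i ∈ E, A ≠ {i}) →
      3 ≤ ∑ i ∈ A, (f i).natDegree := by
    rintro A ⟨i, hi⟩ hAE
    by_cases h1 : ∃ j ∈ A, j ≠ i
    · obtain ⟨j, hj, hji⟩ := h1
      have h3 : ∑ l ∈ ({i, j} : Finset (Fin k)), (f l).natDegree ≤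
          ∑ l ∈ A, (f l).natDegree := by
        refine sum_le_sum_of_subset ?_
        intro l hl
        rw [mem_insert, mem_singleton] at hl
        rcases hl with rfl | rfl
        · exact hi
        · exact hj
      rw [sum_pair hji.symm] at h3
      have := hfd i
      have := hfd j
      omega
    · push Not at h1
      have h3 : A = {i} := by
        ext j
        rw [mem_singleton]
        exact ⟨fun hj => h1 j hj, fun hj => hj ▸ hi⟩
      have h4 : i ∉ E := fun h => hAE i h h3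
      rw [hE, mem_filter] at h4
      have h5 : (f i).natDegree ≠ 2 := fun h => h4 ⟨mem_univ _, h⟩
      rw [h3, sum_singleton]
      have := hfd i
      omega
  obtain ⟨c, C, hc, h⟩ := Sys.total_even2 D F f E
    (fun p => (Stoll308.Gen.R F p).card = F.natDegree) (lowMert_of_sep2 F hm hsep) hinf hk hRt
    (fun i p hp _ hne => by
      obtain ⟨a, ha⟩ := hne
      refine ⟨a, ?_⟩
      rw [hF]
      exact (hG.mem_R hp).2 ⟨i, ha⟩)
    (fun i hi => by
      rw [hE, mem_filter] at hi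
      have hirr := hfi i
      rw [(hfm i).irreducible_iff_irreducible_map_fraction_map (K := ℚ)] at hirr
      have hirr' : Irreducible ((f i).map (Int.castRingHom ℚ)) := hirr
      have hdvd : (f i).map (Int.castRingHom ℚ) ∣ F.map (Int.castRingHom ℚ) :=
        Polynomial.map_dvd _ (hfF i)
      obtain ⟨g, hg, hgF, hno⟩ := hq _ hirr' hdvd (by
        rw [natDegree_map_eq_of_injective Int.cast_injective]
        exact hi.2)
      exact lowMert_quad F (f i) hm hsep (hfm i) hi.2 hirr' (hfF i) hg hgF hno)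
    (fun A p hp hpC hne hAE => by
      rw [hwt, hF]
      exact wA_le hG A (hA A hne hAE) hp (hC ▸ hpC))
    (fun A p hp hpC hne hAE hs => by
      rw [hwt, hF]
      rw [hF] at hs
      exact wA_split hG (hA A hne hAE) hp (hC ▸ hpC) hs)
  refine ⟨c, C, hc, 3, fun X hX => ?_⟩
  refine le_trans ?_ (h X hX)
  unfold cnt
  have h1 : ((Icc (-(X : ℤ)) X).filter fun t => Squarefree t ∧ Stoll308.Gen.Sel F t) ⊆
      ((Icc (-(X : ℤ)) X).filter fun t => Squarefree t ∧ ∃ r, D.Dt t r) := by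
    intro t ht
    rw [mem_filter] at ht ⊢
    refine ⟨ht.1, ht.2.1, hDt t ht.2.1 ?_⟩
    rw [← hF]
    exact ht.2.2
  have h2 : ((Icc (-(X : ℤ)) X).filter fun t => Squarefree t ∧ Stoll308.Gen.Sel F t).card ≤
      ((Icc (-(X : ℤ)) X).filter fun t => Squarefree t ∧ ∃ r, D.Dt t r).card := card_le_card h1
  exact_mod_cast h2

theorem main2 (F : ℤ[X]) (hsep : (F.map (Int.castRingHom ℚ)).Separable)
    (h2 : ∀ g : ℚ[X], Irreducible g → g ∣ F.map (Int.castRingHom ℚ) → 2 ≤ g.natDegree)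
    (hq : QuadOK F) (hev : Even F.natDegree) (h6 : 6 ≤ F.natDegree) :
    (∃ c : ℝ, 0 < c ∧ ∃ X₀ : ℕ, ∀ X : ℕ, X₀ ≤ X →
      c * X / Real.log X ≤ (cnt (ELS F) X : ℝ)) ∧
    (∃ c C : ℝ, 0 < c ∧ ∃ X₀ : ℕ, ∀ X : ℕ, X₀ ≤ X →
      (cnt (fun t => FakeSel F t ∨ HasPoint F t ℚ) X : ℝ) ≤
        C * Real.log X ^ (-c) * cnt (ELS F) X) := by
  classical
  have hn : 1 ≤ F.natDegree := by omega
  have hF0 : F ≠ 0 := by
    rintro rfl
    simp at hn
  have hm : (mon F).Monic := monic_integralNormalization hF0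
  have hd : (mon F).natDegree = F.natDegree := natDegree_integralNormalization
  obtain ⟨hsep', h2'⟩ := mon_hyp 2 F hn hsep h2
  have hU := upper_monic2 (mon F) hm hsep' h2' (quadOK_mon F hn hq) (hd ▸ hev) (hd ▸ h6)
  have hL : ∃ c : ℝ, 0 < c ∧ ∃ X₀ : ℕ, ∀ X : ℕ, X₀ ≤ X →
      c * X / Real.log X * VV (mon F) X ≤ (cnt (Stoll308.Gen.ELS (mon F)) X : ℝ) := by
    obtain ⟨c, hc, X₀, h⟩ := Stoll308.Gen.els_lower_nat (mon F) hm hsep' (hd ▸ hev) (by omega)
    exact ⟨c, hc, X₀, fun X hX => h X hX⟩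
  obtain ⟨h1, h3⟩ := card_of_monic F hev hn hU hL
  refine ⟨h1, card_or_pt F hF0 ?_ h1 h3⟩
  intro z hz
  have h4 := h2 (X - C z) (irreducible_X_sub_C z) (dvd_iff_isRoot.2 hz)
  rw [natDegree_X_sub_C] at h4
  omega

end Stoll308.TW
end

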